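import Pool.Agent.H86.Anco.Charts
import Pool.Agent.H86.Anco.Defs

/-!
# Base file of stage 2 (non-existence of metrics with nonnegative curvature operator)

`M = carrier K ⊂ V K` is the manifold of stage 1, covered by four global parametrisations
`Par i : E K → V K` (`i : Bool × Bool`), each of them a diffeomorphism of the vector space `E K` onto
an open subset of `M` of full measure; `Cor i` is the corresponding coordinate map, smooth on the
open set `Dom K i` of the ambient space, and `tr i j = Cor j ∘ Par i` are the transition maps, defined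
on `ov i j`.

Tensor fields on `M` are families of tensor fields on `E K`, indexed by the chart number, which are
compatible with the transition maps.
-/

open scoped Manifold ContDiff Bundle Topology

noncomputable section

namespace Pool.Agent.H86.Nco

open Pool.Agent.H86.Anco

/-- chart numbers -/
abbrev Ix : Type := Bool × Bool

variable {K : ℕ}

/-- the parametrisation number `i` -/
def Par (i : Ix) (y : E K) : V K := sym i (Phi y)

/-- the coordinates number `i` -/
def Cor (i : Ix) (p : V K) : E K := kap (sym i p)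

/-- the open set of the ambient space on which `Cor i` is smooth -/
def Dom (K : ℕ) (i : Ix) : Set (V K) := {p | -1 < pd (sym i p) ∧ -1 < ps (sym i p)}

/-- transition maps -/
def tr (i j : Ix) (y : E K) : E K := Cor j (Par i y)

/-- domains of the transition maps -/
def ov (K : ℕ) (i j : Ix) : Set (E K) := {y | Par i y ∈ Dom K j}

/-- bilinear forms on the model space -/
abbrev Bil (K : ℕ) : Type := E K →L[ℝ] E K →L[ℝ] ℝ

/-- compatible families of functions (functions on `M`) -/
def Compat0 (F : Ix → E K → ℝ) : Prop :=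
  ∀ i j y, y ∈ ov K i j → F i y = F j (tr i j y)

/-- compatible families of linear forms -/
def Compat1 (α : Ix → E K → E K →L[ℝ] ℝ) : Prop :=
  ∀ i j y, y ∈ ov K i j → ∀ u, α i y u = α j (tr i j y) (fderiv ℝ (tr i j) y u)

/-- compatible families of bilinear forms -/
def Compat2 (b : Ix → E K → Bil K) : Prop :=
  ∀ i j y, y ∈ ov K i j → ∀ u v,
    b i y u v = b j (tr i j y) (fderiv ℝ (tr i j) y u) (fderiv ℝ (tr i j) y v)

/-- A smooth Riemannian metric on `M` with nonnegative curvature operator, in the four charts. -/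
structure Met (K : ℕ) where
  g : Ix → E K → Bil K
  smooth : ∀ i, ContDiff ℝ ∞ (g i)
  symm : ∀ i y a b, g i y a b = g i y b a
  pos : ∀ i y a, a ≠ 0 → 0 < g i y a a
  compat : Compat2 g
  nco : ∀ i y, CurvOpGE (g i) y 0

/-- smooth differential forms of degree one on `M` -/
structure Form1 (K : ℕ) where
  val : Ix → E K → E K →L[ℝ] ℝ
  smooth : ∀ i, ContDiff ℝ ∞ (val i)
  compat : Compat1 val

/-- smooth differential forms of degree two on `M` -/
structure Form2 (K : ℕ) where
  val : Ix → E K → Bil K
  smooth : ∀ i, ContDiff ℝ ∞ (val i)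
  alt : ∀ i y u v, val i y u v = - val i y v u
  compat : Compat2 val

/-- exterior derivative of a one-form -/
def d1 (α : Ix → E K → E K →L[ℝ] ℝ) (i : Ix) (y : E K) : Bil K :=
  fderiv ℝ (α i) y - (fderiv ℝ (α i) y).flip

/-- exterior derivative of a two-form -/
def d2 (b : Ix → E K → Bil K) (i : Ix) (y u v w : E K) : ℝ :=
  fderiv ℝ (b i) y u v w + fderiv ℝ (b i) y v w u + fderiv ℝ (b i) y w u v

/-- the (unnormalised) wedge square of a two-form -/
def wsq (b : Ix → E K → Bil K) (i : Ix) (y u₁ u₂ u₃ u₄ : E K) : ℝ :=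
  b i y u₁ u₂ * b i y u₃ u₄ - b i y u₁ u₃ * b i y u₂ u₄ + b i y u₁ u₄ * b i y u₂ u₃

/-- an orthonormal basis of a positive definite bilinear form (a choice) -/
def onb (B : Bil K) : Fin (K + 4) → E K :=
  Classical.epsilon fun e => ∀ j k, B (e j) (e k) = if j = k then 1 else 0

/-- squared norms of covariant tensors (full contractions) -/
def sq1 (B : Bil K) (θ : E K → ℝ) : ℝ := ∑ j, θ (onb B j) ^ 2

def sq2 (B : Bil K) (b : E K → E K → ℝ) : ℝ := ∑ j, ∑ k, b (onb B j) (onb B k) ^ 2

def sq3 (B : Bil K) (T : E K → E K → E K → ℝ) : ℝ :=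
  ∑ j, ∑ k, ∑ l, T (onb B j) (onb B k) (onb B l) ^ 2

/-- covariant derivative of a two-tensor: `cd G b i y u v w = (∇_u b)(v, w)` -/
def cd (G : Met K) (b : Ix → E K → Bil K) (i : Ix) (y u v w : E K) : ℝ :=
  fderiv ℝ (b i) y u v w - b i y (chr (G.g i) y u v) w - b i y v (chr (G.g i) y u w)

/-- codifferential of a two-form -/
def codiff (G : Met K) (b : Ix → E K → Bil K) (i : Ix) (y w : E K) : ℝ :=
  - ∑ j, cd G b i y (onb (G.g i y) j) (onb (G.g i y) j) w

/-- a fixed basis of the model space -/
def bs (K : ℕ) : Module.Basis (Fin (K + 4)) ℝ (E K) :=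
  Module.finBasisOfFinrankEq ℝ (E K) finrank_E

/-- the volume density of a positive definite bilinear form (a constant multiple of the density
with respect to `volume`) -/
def vol (B : Bil K) : ℝ := √(Matrix.det (Matrix.of fun j k => B (bs K j) (bs K k)))

/-- the integral of a compatible family of functions over `M` (each chart has full measure) -/
def IM (G : Met K) (F : Ix → E K → ℝ) : ℝ :=
  ∫ y, F (false, false) y * vol (G.g (false, false) y)

/-- The form `b` evaluated at the point `p` of `M` and at two tangent vectors of `M` at `p`,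
considered as vectors of the ambient space. -/
def amb (b : Ix → E K → Bil K) (p v w : V K) : ℝ :=
  b (idx p) (Cor (idx p) p) (fderiv ℝ (Cor (idx p)) p v) (fderiv ℝ (Cor (idx p)) p w)

/-- the tangent space of `M` at `p` -/
def Tan (p : V K) : Submodule ℝ (V K) :=
  LinearMap.range (fderiv ℝ (Par (idx p)) (Cor (idx p) p) : E K →ₗ[ℝ] V K)

/-- The open unit square. -/
def Sq : Set (ℝ × ℝ) := Set.Ioo 0 1 ×ˢ Set.Ioo 0 1

/-- Smooth maps `S² → M` with base point `p₀`, written as maps of the plane which are constant
outside the open unit square. -/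
structure Sph (K : ℕ) (p₀ : V K) (s : ℝ × ℝ → V K) : Prop where
  smooth : ContDiff ℝ ∞ s
  mem : ∀ x, s x ∈ carrier K
  out : ∀ x, x ∉ Sq → s x = p₀

/-- the integral of a two-form over a sphere -/
def Per (b : Ix → E K → Bil K) (s : ℝ × ℝ → V K) : ℝ :=
  ∫ x in (0 : ℝ)..1, ∫ y in (0 : ℝ)..1,
    amb b (s (x, y)) (fderiv ℝ s (x, y) (1, 0)) (fderiv ℝ s (x, y) (0, 1))

/-- the area form of the unit sphere of `ℂ × ℝ` (triple product) -/
def tri (p v w : ℂ × ℝ) : ℝ :=
  p.1.re * (v.1.im * w.2 - v.2 * w.1.im) + p.1.im * (v.2 * w.1.re - v.1.re * w.2)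
    + p.2 * (v.1.re * w.1.im - v.1.im * w.1.re)

/-- the projection `(c, d, v₀, v₁, x, s) ↦ (c, d)` -/
def pr (p : V K) : ℂ × ℝ := (pc p, pd p)

end Pool.Agent.H86.Nco
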