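import Pool.Agent.H86.Anco.SC
import Pool.Agent.H86.Nco.Base

/-!
# Elementary lemmas about `Par`, `Cor`, `Dom`, `ov`, `Tan`, `amb`

Everything is a reformulation of facts of stage 1: `Phi_mem`, `kap_Phi`, `Phi_kap`, `sym_sym`,
`sym_mem`, `contDiff_Phi`, `contDiffOn_kap`, `pd_sym_idx`, `ps_sym_idx`, `symm_mem_source`,
`isPathConnected_dom` (files `PhiKap.lean`, `Charts.lean`, `SC.lean` of `Pool/Agent/H86/Anco`).
Useful remarks: `Cor i (Par i y) = y`; `Par i (Cor i p) = p` for `p` in `carrier K ∩ Dom K i`;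
`ov K i j = dom K i j` (see `symm_mem_source` in `SC.lean`); on `ov K i j` we have
`Par j ∘ tr i j = Par i` and `tr j i ∘ tr i j = id`, and both sides are smooth there.
`tan_of_map`: near `x` we have `φ = Par i ∘ (Cor i ∘ φ)` with `i = idx (φ x)`.
`amb_eq`: all charts give the same value, by compatibility, on tangent vectors.
-/

open scoped Manifold ContDiff Bundle Topology

noncomputable section

namespace Pool.Agent.H86.Nco

open Pool.Agent.H86.Anco

variable {K : ℕ}

lemma Par_mem (i : Ix) (y : E K) : Par i y ∈ carrier K := sym_mem i (Phi_mem y)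

lemma Par_mem_Dom (i : Ix) (y : E K) : Par i y ∈ Dom K i := by
  change -1 < pd (sym i (sym i (Phi y))) ∧ -1 < ps (sym i (sym i (Phi y)))
  rw [sym_sym]
  exact ⟨pd_Phi y, ps_Phi y⟩

lemma Cor_Par (i : Ix) (y : E K) : Cor i (Par i y) = y := by
  change kap (sym i (sym i (Phi y))) = y
  rw [sym_sym, kap_Phi]

lemma Par_Cor (i : Ix) {p : V K} (hp : p ∈ carrier K) (hd : p ∈ Dom K i) : Par i (Cor i p) = p := by
  change sym i (Phi (kap (sym i p))) = p
  rw [Phi_kap (sym_mem i hp) hd.1 hd.2, sym_sym]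

lemma mem_Dom_idx (p : V K) : p ∈ Dom K (idx p) := ⟨pd_sym_idx p, ps_sym_idx p⟩

lemma isOpen_Dom (i : Ix) : IsOpen (Dom K i) :=
  isOpen_kapDom.preimage (sym i).continuous

lemma contDiff_Par (i : Ix) : ContDiff ℝ ∞ (Par i : E K → V K) :=
  (sym i).contDiff.comp contDiff_Phi

lemma contDiffOn_Cor (i : Ix) : ContDiffOn ℝ ∞ (Cor i : V K → E K) (Dom K i) :=
  contDiffOn_kap.comp (sym i).contDiff.contDiffOn (fun _ hp => hp)

lemma isOpen_ov (i j : Ix) : IsOpen (ov K i j) :=
  (isOpen_Dom j).preimage (contDiff_Par i).continuous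

lemma ov_self (i : Ix) : ov K i i = Set.univ := by
  ext y
  exact ⟨fun _ => Set.mem_univ _, fun _ => Par_mem_Dom i y⟩

lemma ov_eq_dom (i j : Ix) : ov K i j = dom K i j := by
  ext y
  rw [← symm_mem_source]
  rfl

lemma isPathConnected_ov (i j : Ix) : IsPathConnected (ov K i j) := by
  rw [ov_eq_dom]
  exact isPathConnected_dom i j

lemma contDiffOn_tr (i j : Ix) : ContDiffOn ℝ ∞ (tr i j : E K → E K) (ov K i j) :=
  (contDiffOn_Cor j).comp (contDiff_Par i).contDiffOn (fun _ hy => hy)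

lemma Par_tr (i j : Ix) {y : E K} (hy : y ∈ ov K i j) : Par j (tr i j y) = Par i y :=
  Par_Cor j (Par_mem i y) hy

lemma tr_mem (i j : Ix) {y : E K} (hy : y ∈ ov K i j) : tr i j y ∈ ov K j i := by
  change Par j (tr i j y) ∈ Dom K i
  rw [Par_tr i j hy]
  exact Par_mem_Dom i y

lemma tr_tr (i j : Ix) {y : E K} (hy : y ∈ ov K i j) : tr j i (tr i j y) = y := by
  change Cor i (Par j (tr i j y)) = y
  rw [Par_tr i j hy, Cor_Par]

lemma differentiableAt_Par (i : Ix) (y : E K) : DifferentiableAt ℝ (Par i : E K → V K) y :=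
  (contDiff_Par i).differentiable (by simp) y

lemma differentiableAt_Cor (i : Ix) {p : V K} (hd : p ∈ Dom K i) :
    DifferentiableAt ℝ (Cor i : V K → E K) p :=
  ((contDiffOn_Cor i).contDiffAt ((isOpen_Dom i).mem_nhds hd)).differentiableAt (by simp)

lemma differentiableAt_tr (i j : Ix) {y : E K} (hy : y ∈ ov K i j) :
    DifferentiableAt ℝ (tr i j : E K → E K) y :=
  ((contDiffOn_tr i j).contDiffAt ((isOpen_ov i j).mem_nhds hy)).differentiableAt (by simp)

/-- the derivatives of `tr i j` and `tr j i` are inverse to each other -/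
lemma fderiv_tr_tr (i j : Ix) {y : E K} (hy : y ∈ ov K i j) (u : E K) :
    fderiv ℝ (tr j i) (tr i j y) (fderiv ℝ (tr i j) y u) = u := by
  have h1 : (fun z => tr j i (tr i j z)) =ᶠ[𝓝 y] fun z => z := by
    filter_upwards [(isOpen_ov i j).mem_nhds hy] with z hz
    exact tr_tr i j hz
  have h2 := h1.fderiv_eq (𝕜 := ℝ)
  have h3 : fderiv ℝ (fun z => tr j i (tr i j z)) y =
      (fderiv ℝ (tr j i) (tr i j y)).comp (fderiv ℝ (tr i j) y) :=
    fderiv_comp y (differentiableAt_tr j i (tr_mem i j hy)) (differentiableAt_tr i j hy)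
  rw [h3, fderiv_fun_id] at h2
  have h4 := congrArg (fun L : E K →L[ℝ] E K => L u) h2
  simpa using h4

lemma fderiv_Par_tr (i j : Ix) {y : E K} (hy : y ∈ ov K i j) (u : E K) :
    fderiv ℝ (Par j) (tr i j y) (fderiv ℝ (tr i j) y u) = fderiv ℝ (Par i) y u := by
  have h1 : (fun z => Par j (tr i j z)) =ᶠ[𝓝 y] Par i := by
    filter_upwards [(isOpen_ov i j).mem_nhds hy] with z hz
    exact Par_tr i j hz
  have h2 := h1.fderiv_eq (𝕜 := ℝ)
  have h3 : fderiv ℝ (fun z => Par j (tr i j z)) y =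
      (fderiv ℝ (Par j) (tr i j y)).comp (fderiv ℝ (tr i j) y) :=
    fderiv_comp y (differentiableAt_Par j _) (differentiableAt_tr i j hy)
  rw [h3] at h2
  have h4 := congrArg (fun L : E K →L[ℝ] V K => L u) h2
  simpa using h4

lemma fderiv_Cor_Par (i : Ix) (y u : E K) :
    fderiv ℝ (Cor i) (Par i y) (fderiv ℝ (Par i) y u) = u := by
  have h1 : (fun z => Cor i (Par i z)) = fun z : E K => z := by
    funext z
    exact Cor_Par i z
  have h3 : fderiv ℝ (fun z => Cor i (Par i z)) y =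
      (fderiv ℝ (Cor i) (Par i y)).comp (fderiv ℝ (Par i) y) :=
    fderiv_comp y (differentiableAt_Cor i (Par_mem_Dom i y)) (differentiableAt_Par i y)
  rw [h1, fderiv_fun_id] at h3
  have h4 := congrArg (fun L : E K →L[ℝ] E K => L u) h3.symm
  simpa using h4

/-- tangent vectors of `M` at `p` in an arbitrary chart -/
lemma mem_Tan_iff (i : Ix) {p : V K} (hp : p ∈ carrier K) (hd : p ∈ Dom K i) (v : V K) :
    v ∈ Tan p ↔ ∃ u, fderiv ℝ (Par i) (Cor i p) u = v := by
  have hpi := Par_Cor i hp hd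
  have hpj := Par_Cor (idx p) hp (mem_Dom_idx p)
  constructor
  · rintro ⟨u, rfl⟩
    -- transition from chart `idx p` to chart `i`
    have hy : Cor (idx p) p ∈ ov K (idx p) i := by
      change Par (idx p) (Cor (idx p) p) ∈ Dom K i
      rw [hpj]
      exact hd
    have h1 : tr (idx p) i (Cor (idx p) p) = Cor i p := by
      change Cor i (Par (idx p) (Cor (idx p) p)) = Cor i p
      rw [hpj]
    refine ⟨fderiv ℝ (tr (idx p) i) (Cor (idx p) p) u, ?_⟩
    have h2 := fderiv_Par_tr (idx p) i hy u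
    rw [h1] at h2
    exact h2
  · rintro ⟨u, rfl⟩
    have hy : Cor i p ∈ ov K i (idx p) := by
      change Par i (Cor i p) ∈ Dom K (idx p)
      rw [hpi]
      exact mem_Dom_idx p
    have h1 : tr i (idx p) (Cor i p) = Cor (idx p) p := by
      change Cor (idx p) (Par i (Cor i p)) = Cor (idx p) p
      rw [hpi]
    refine ⟨fderiv ℝ (tr i (idx p)) (Cor i p) u, ?_⟩
    have h2 := fderiv_Par_tr i (idx p) hy u
    rw [h1] at h2
    exact h2

/-- tangent vectors of `M` at `Par i y` are the images of the derivative of `Par i` -/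
lemma mem_Tan_Par (i : Ix) (y : E K) (v : V K) :
    v ∈ Tan (Par i y) ↔ ∃ u, fderiv ℝ (Par i) y u = v := by
  have h := mem_Tan_iff i (Par_mem i y) (Par_mem_Dom i y) v
  rw [Cor_Par] at h
  exact h

/-- the chart `Cor i` may be used for tangent vectors at any point of its domain -/
lemma fderiv_Par_Cor (i : Ix) {p : V K} (hp : p ∈ carrier K) (hd : p ∈ Dom K i) {v : V K}
    (hv : v ∈ Tan p) : fderiv ℝ (Par i) (Cor i p) (fderiv ℝ (Cor i) p v) = v := by
  obtain ⟨u, rfl⟩ := (mem_Tan_iff i hp hd v).1 hv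
  have h := fderiv_Cor_Par i (Cor i p) u
  rw [Par_Cor i hp hd] at h
  rw [h]

lemma finrank_Tan {p : V K} (hp : p ∈ carrier K) : Module.finrank ℝ (Tan p) = K + 4 := by
  have _ := hp
  have hinj : Function.Injective
      (fderiv ℝ (Par (idx p)) (Cor (idx p) p) : E K →ₗ[ℝ] V K) := by
    intro u v huv
    have h1 := fderiv_Cor_Par (idx p) (Cor (idx p) p) u
    have h2 := fderiv_Cor_Par (idx p) (Cor (idx p) p) v
    have h3 : fderiv ℝ (Par (idx p)) (Cor (idx p) p) u =
      fderiv ℝ (Par (idx p)) (Cor (idx p) p) v := huv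
    rw [← h1, h3, h2]
  have h := LinearMap.finrank_range_of_inj hinj
  rw [finrank_E] at h
  exact h

/-- derivatives of maps with values in `M` are tangent to `M` -/
lemma tan_of_map {X : Type*} [NormedAddCommGroup X] [NormedSpace ℝ X] {φ : X → V K} {x : X}
    (hφ : DifferentiableAt ℝ φ x) (hmem : ∀ᶠ z in 𝓝 x, φ z ∈ carrier K) (w : X) :
    fderiv ℝ φ x w ∈ Tan (φ x) := by
  have hx : φ x ∈ carrier K := hmem.self_of_nhds
  have hd := mem_Dom_idx (φ x)
  have h1 : (fun z => Par (idx (φ x)) (Cor (idx (φ x)) (φ z))) =ᶠ[𝓝 x] φ := by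
    have h2 : ∀ᶠ z in 𝓝 x, φ z ∈ Dom K (idx (φ x)) :=
      hφ.continuousAt ((isOpen_Dom (idx (φ x))).mem_nhds hd)
    filter_upwards [hmem, h2] with z hz hz2
    exact Par_Cor _ hz hz2
  have h2 := h1.fderiv_eq (𝕜 := ℝ)
  have hC := differentiableAt_Cor (idx (φ x)) hd
  have h3 : fderiv ℝ (fun z => Par (idx (φ x)) (Cor (idx (φ x)) (φ z))) x =
      (fderiv ℝ (Par (idx (φ x))) (Cor (idx (φ x)) (φ x))).comp
        (fderiv ℝ (fun z => Cor (idx (φ x)) (φ z)) x) :=
    fderiv_comp (g := Par (idx (φ x))) (f := fun z => Cor (idx (φ x)) (φ z)) x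
      (differentiableAt_Par _ _) (hC.comp x hφ)
  rw [h3] at h2
  rw [← h2]
  exact ⟨fderiv ℝ (fun z => Cor (idx (φ x)) (φ z)) x w, rfl⟩

/-- `amb b` in an arbitrary chart -/
lemma amb_eq {b : Ix → E K → Bil K} (hb : Compat2 b) (i : Ix) {p : V K} (hp : p ∈ carrier K)
    (hd : p ∈ Dom K i) {v w : V K} (hv : v ∈ Tan p) (hw : w ∈ Tan p) :
    amb b p v w = b i (Cor i p) (fderiv ℝ (Cor i) p v) (fderiv ℝ (Cor i) p w) := by
  unfold amb
  have hpj := Par_Cor (idx p) hp (mem_Dom_idx p)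
  have hy : Cor (idx p) p ∈ ov K (idx p) i := by
    change Par (idx p) (Cor (idx p) p) ∈ Dom K i
    rw [hpj]
    exact hd
  have h1 : tr (idx p) i (Cor (idx p) p) = Cor i p := by
    change Cor i (Par (idx p) (Cor (idx p) p)) = Cor i p
    rw [hpj]
  have h2 : ∀ {v : V K}, v ∈ Tan p →
      fderiv ℝ (tr (idx p) i) (Cor (idx p) p) (fderiv ℝ (Cor (idx p)) p v) =
        fderiv ℝ (Cor i) p v := by
    intro v hv
    have e1 := fderiv_Par_tr (idx p) i hy (fderiv ℝ (Cor (idx p)) p v)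
    rw [fderiv_Par_Cor (idx p) hp (mem_Dom_idx p) hv, h1] at e1
    have e2 := fderiv_Cor_Par i (Cor i p)
      (fderiv ℝ (tr (idx p) i) (Cor (idx p) p) (fderiv ℝ (Cor (idx p)) p v))
    rw [e1, Par_Cor i hp hd] at e2
    exact e2.symm
  rw [hb (idx p) i _ hy, h2 hv, h2 hw, h1]

lemma amb_Par {b : Ix → E K → Bil K} (hb : Compat2 b) (i : Ix) (y u v : E K) :
    amb b (Par i y) (fderiv ℝ (Par i) y u) (fderiv ℝ (Par i) y v) = b i y u v := by
  rw [amb_eq hb i (Par_mem i y) (Par_mem_Dom i y) ((mem_Tan_Par i y _).2 ⟨u, rfl⟩)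
    ((mem_Tan_Par i y _).2 ⟨v, rfl⟩), Cor_Par, fderiv_Cor_Par, fderiv_Cor_Par]

end Pool.Agent.H86.Nco
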