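import Pool.Agent.H86.Nco.EvenDefs

/-!
# Module EVENB: properties of `hh` and `gg`

Algebra of `zet`: if `a, b` are linearly independent then the denominator is positive
(Cauchy-Schwarz), `zet` is smooth in `(a, b, w)` there, and for `w` in the span of `a, b` we have
`w = (zet a b w).re • a + (zet a b w).im • b` (and conversely coordinates are unique).
For `m` in the surface and a nonzero tangent vector `a` at `m`, the vectors `a, J a` are independent
(`J² = -1` on the tangent plane has no real eigenvalue) and span the tangent plane (`rank`), so every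
tangent vector is `ζ • a := re ζ • a + im ζ • J a`; this is a complex vector space structure:
`(ζ ζ') • a = ζ • (ζ' • a)`.
`zz ≠ 0` for `X ≠ Y` close, `gg ≠ 0`.
`contDiff_hh`: near a point with `ipw (X - Y) (X - Y) < δ²`: if moreover `< δ² / 4` then `bst = 0` near
this point and `hh = (0, 1)` there; if `> 0` then `zz ≠ 0` near the point and everything is
smooth; on the open set `ipw (X - Y) (X - Y) > 3/4 δ²`: `bst = 1`, `sin π = 0`, `cos π = -1`,
`hh = (0, -1)`.
`hh_swap`: `m` is the same for `(X, Y)` and `(Y, X)`; `A (X - Y) = - A (Y - X)`;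
with `A (Y - X) = ζ₂ • A a`, `A a = g • A b`, `A (X - Y) = ζ₁ • A b` we get `ζ₁ = - ζ₂ g`.
-/

open scoped Manifold ContDiff Bundle Topology

noncomputable section

namespace Pool.Agent.H86.Nco

variable {W : Type*} [NormedAddCommGroup W] [NormedSpace ℝ W] [FiniteDimensional ℝ W]

/-! ### the inner product -/

theorem ipw_comm (a b : W) : ipw a b = ipw b a := real_inner_comm _ _

theorem ipw_add_left (a b c : W) : ipw (a + b) c = ipw a c + ipw b c := by
  unfold ipw; rw [map_add, inner_add_left]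

theorem ipw_smul_left (r : ℝ) (a b : W) : ipw (r • a) b = r * ipw a b := by
  unfold ipw; rw [map_smul, real_inner_smul_left]

theorem ipw_add_right (a b c : W) : ipw a (b + c) = ipw a b + ipw a c := by
  rw [ipw_comm, ipw_add_left, ipw_comm b, ipw_comm c]

theorem ipw_smul_right (r : ℝ) (a b : W) : ipw a (r • b) = r * ipw a b := by
  rw [ipw_comm, ipw_smul_left, ipw_comm b]

theorem ipw_self_nonneg (a : W) : 0 ≤ ipw a a := real_inner_self_nonneg

theorem ipw_self_eq_zero {a : W} : ipw a a = 0 ↔ a = 0 := by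
  unfold ipw
  rw [inner_self_eq_zero]
  exact map_eq_zero_iff _ toEuclidean.injective

theorem ipw_self_pos {a : W} (ha : a ≠ 0) : 0 < ipw a a :=
  lt_of_le_of_ne (ipw_self_nonneg a) fun h => ha (ipw_self_eq_zero.1 h.symm)

theorem ipw_swap (X Y : W) : ipw (Y - X) (Y - X) = ipw (X - Y) (X - Y) := by
  have h : Y - X = (-1 : ℝ) • (X - Y) := by
    rw [neg_one_smul, neg_sub]
  rw [h, ipw_smul_left, ipw_smul_right]
  ring

theorem den_pos {a b : W} (h : ∀ x y : ℝ, x • a + y • b = 0 → x = 0 ∧ y = 0) :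
    0 < ipw a a * ipw b b - ipw a b ^ 2 := by
  have ha : a ≠ 0 := by
    rintro rfl
    have := (h 1 0 (by simp)).1
    exact one_ne_zero this
  have haa := ipw_self_pos ha
  have hw : (-ipw a b) • a + (ipw a a) • b ≠ 0 := fun h0 => haa.ne' (h _ _ h0).2
  have h1 := ipw_self_pos hw
  have h2 : ipw ((-ipw a b) • a + (ipw a a) • b) ((-ipw a b) • a + (ipw a a) • b) =
      ipw a a * (ipw a a * ipw b b - ipw a b ^ 2) := by
    simp only [ipw_add_left, ipw_add_right, ipw_smul_left, ipw_smul_right]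
    rw [ipw_comm b a]
    ring
  rw [h2] at h1
  exact (mul_pos_iff_of_pos_left haa).1 h1

theorem zet_comb {a b : W} (h : ipw a a * ipw b b - ipw a b ^ 2 ≠ 0) (x y : ℝ) :
    zet a b (x • a + y • b) = ⟨x, y⟩ := by
  unfold zet
  simp only [ipw_add_left, ipw_smul_left]
  rw [ipw_comm b a]
  apply Complex.ext
  · show _ / _ = x
    rw [div_eq_iff h]
    ring
  · show _ / _ = y
    rw [div_eq_iff h]
    ring

/-! ### the tangent planes -/

section plane

variable {U : Set W} {R : W → W} {J : W → W →L[ℝ] W}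

theorem RetData.contDiffAt (hD : RetData U R J) {m : W} (hm : m ∈ U) : ContDiffAt ℝ ∞ R m :=
  hD.smooth.contDiffAt (hD.isOpen.mem_nhds hm)

theorem RetData.contDiffAtJ (hD : RetData U R J) {m : W} (hm : m ∈ U) : ContDiffAt ℝ ∞ J m :=
  hD.smoothJ.contDiffAt (hD.isOpen.mem_nhds hm)

theorem RetData.idem (hD : RetData U R J) {m : W} (hm : m ∈ U) (hR : R m = m) (v : W) :
    fderiv ℝ R m (fderiv ℝ R m v) = fderiv ℝ R m v := by
  have hd : DifferentiableAt ℝ R m := (hD.contDiffAt hm).differentiableAt (by simp)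
  have h1 : (R ∘ R) =ᶠ[𝓝 m] R := by
    filter_upwards [hD.isOpen.mem_nhds hm] with p hp
    exact hD.retr p hp
  have h2 := h1.fderiv_eq (𝕜 := ℝ)
  have hd' : DifferentiableAt ℝ R (R m) := by rw [hR]; exact hd
  rw [fderiv_comp m hd' hd, hR] at h2
  exact congrArg (fun L : W →L[ℝ] W => L v) h2

theorem RetData.idem' (hD : RetData U R J) {m : W} (hm : m ∈ U) (hR : R m = m) {v : W}
    (hv : v ∈ LinearMap.range (fderiv ℝ R m : W →ₗ[ℝ] W)) : fderiv ℝ R m v = v := by
  obtain ⟨u, rfl⟩ := hv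
  exact hD.idem hm hR u

theorem RetData.mem (m v : W) :
    fderiv ℝ R m v ∈ LinearMap.range (fderiv ℝ R m : W →ₗ[ℝ] W) := ⟨v, rfl⟩

theorem RetData.J_mem (hD : RetData U R J) {m : W} (hm : m ∈ U) (hR : R m = m) {v : W}
    (hv : v ∈ LinearMap.range (fderiv ℝ R m : W →ₗ[ℝ] W)) :
    J m v ∈ LinearMap.range (fderiv ℝ R m : W →ₗ[ℝ] W) := by
  obtain ⟨u, rfl⟩ := hv
  exact (hD.cplx m hm hR u).1

theorem RetData.J_J (hD : RetData U R J) {m : W} (hm : m ∈ U) (hR : R m = m) {v : W}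
    (hv : v ∈ LinearMap.range (fderiv ℝ R m : W →ₗ[ℝ] W)) : J m (J m v) = - v := by
  obtain ⟨u, rfl⟩ := hv
  exact (hD.cplx m hm hR u).2

theorem RetData.indep (hD : RetData U R J) {m : W} (hm : m ∈ U) (hR : R m = m) {a : W}
    (ha : a ∈ LinearMap.range (fderiv ℝ R m : W →ₗ[ℝ] W)) (ha0 : a ≠ 0) (x y : ℝ)
    (h : x • a + y • J m a = 0) : x = 0 ∧ y = 0 := by
  have h1 : x • J m a - y • a = 0 := by
    have := congrArg (J m) h
    rw [map_add, map_smul, map_smul, map_zero, hD.J_J hm hR ha, smul_neg] at this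
    rw [sub_eq_add_neg]
    exact this
  have h2 : (x ^ 2 + y ^ 2) • a = 0 := by
    have e : (x ^ 2 + y ^ 2) • a = x • (x • a + y • J m a) - y • (x • J m a - y • a) := by
      module
    rw [e, h, h1, smul_zero, smul_zero, sub_zero]
  have h3 : x ^ 2 + y ^ 2 = 0 := (smul_eq_zero.1 h2).resolve_right ha0
  constructor <;> nlinarith [sq_nonneg x, sq_nonneg y]

theorem RetData.den_pos (hD : RetData U R J) {m : W} (hm : m ∈ U) (hR : R m = m) {a : W}
    (ha : a ∈ LinearMap.range (fderiv ℝ R m : W →ₗ[ℝ] W)) (ha0 : a ≠ 0) :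
    0 < ipw a a * ipw (J m a) (J m a) - ipw a (J m a) ^ 2 :=
  Nco.den_pos (hD.indep hm hR ha ha0)

theorem RetData.span (hD : RetData U R J) {m : W} (hm : m ∈ U) (hR : R m = m) {a w : W}
    (ha : a ∈ LinearMap.range (fderiv ℝ R m : W →ₗ[ℝ] W)) (ha0 : a ≠ 0)
    (hw : w ∈ LinearMap.range (fderiv ℝ R m : W →ₗ[ℝ] W)) :
    w = (zet a (J m a) w).re • a + (zet a (J m a) w).im • J m a := by
  set T := LinearMap.range (fderiv ℝ R m : W →ₗ[ℝ] W) with hT
  have hJ := hD.J_mem hm hR ha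
  have hli : LinearIndependent ℝ ![(⟨a, ha⟩ : T), ⟨J m a, hJ⟩] := by
    rw [LinearIndependent.pair_iff]
    intro x y hxy
    exact hD.indep hm hR ha ha0 x y (congrArg Subtype.val hxy)
  have hspan := hli.span_eq_top_of_card_eq_finrank' (by
    rw [Fintype.card_fin]; exact (hD.rank m hm hR).symm)
  have hmem : (⟨w, hw⟩ : T) ∈ Submodule.span ℝ (Set.range ![(⟨a, ha⟩ : T), ⟨J m a, hJ⟩]) := by
    rw [hspan]; trivial
  rw [Matrix.range_cons, Matrix.range_cons, Matrix.range_empty, Set.union_empty] at hmem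
  rw [Set.singleton_union, Submodule.mem_span_pair] at hmem
  obtain ⟨x, y, hxy⟩ := hmem
  have h1 : w = x • a + y • J m a := (congrArg Subtype.val hxy).symm
  have h2 : zet a (J m a) w = ⟨x, y⟩ := by
    rw [h1]
    exact zet_comb (hD.den_pos hm hR ha ha0).ne' x y
  rw [h2]
  exact h1

theorem RetData.zet_ne (hD : RetData U R J) {m : W} (hm : m ∈ U) (hR : R m = m) {a w : W}
    (ha : a ∈ LinearMap.range (fderiv ℝ R m : W →ₗ[ℝ] W)) (ha0 : a ≠ 0)
    (hw : w ∈ LinearMap.range (fderiv ℝ R m : W →ₗ[ℝ] W)) (hw0 : w ≠ 0) :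
    zet a (J m a) w ≠ 0 := by
  intro h
  have := hD.span hm hR ha ha0 hw
  rw [h] at this
  apply hw0
  rw [this]
  simp

theorem RetData.mid_mem (hD : RetData U R J) {X Y : W} (h : (1 / 2 : ℝ) • (X + Y) ∈ U) :
    mid R X Y ∈ U ∧ R (mid R X Y) = mid R X Y :=
  ⟨hD.maps _ h, hD.retr _ h⟩

end plane

/-! ### smoothness -/

section smooth

variable {P : Type*} [NormedAddCommGroup P] [NormedSpace ℝ P]

theorem contDiffAt_ipw {p : P} {f g : P → W} (hf : ContDiffAt ℝ ∞ f p) (hg : ContDiffAt ℝ ∞ g p) :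
    ContDiffAt ℝ ∞ (fun q => ipw (f q) (g q)) p := by
  unfold ipw
  exact ContDiffAt.inner ℝ (toEuclidean.contDiff.contDiffAt.comp p hf)
    (toEuclidean.contDiff.contDiffAt.comp p hg)

theorem contDiffAt_zet {p : P} {f g h : P → W} (hf : ContDiffAt ℝ ∞ f p)
    (hg : ContDiffAt ℝ ∞ g p) (hh : ContDiffAt ℝ ∞ h p)
    (h0 : ipw (f p) (f p) * ipw (g p) (g p) - ipw (f p) (g p) ^ 2 ≠ 0) :
    ContDiffAt ℝ ∞ (fun q => zet (f q) (g q) (h q)) p := by
  have h1 : (fun q => zet (f q) (g q) (h q)) = fun q =>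
      Complex.ofRealCLM ((ipw (h q) (f q) * ipw (g q) (g q) - ipw (h q) (g q) * ipw (f q) (g q)) /
        (ipw (f q) (f q) * ipw (g q) (g q) - ipw (f q) (g q) ^ 2)) +
      Complex.ofRealCLM ((ipw (h q) (g q) * ipw (f q) (f q) - ipw (h q) (f q) * ipw (f q) (g q)) /
        (ipw (f q) (f q) * ipw (g q) (g q) - ipw (f q) (g q) ^ 2)) * Complex.I := by
    funext q
    unfold zet
    rw [Complex.mk_eq_add_mul_I]
    rfl
  rw [h1]
  have hff := contDiffAt_ipw hf hf
  have hgg := contDiffAt_ipw hg hg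
  have hfg := contDiffAt_ipw hf hg
  have hhf := contDiffAt_ipw hh hf
  have hhg := contDiffAt_ipw hh hg
  have hd := (hff.mul hgg).sub (hfg.pow 2)
  have hn1 := ((hhf.mul hgg).sub (hhg.mul hfg)).div hd h0
  have hn2 := ((hhg.mul hff).sub (hhf.mul hfg)).div hd h0
  exact (Complex.ofRealCLM.contDiff.contDiffAt.comp p hn1).add
    ((Complex.ofRealCLM.contDiff.contDiffAt.comp p hn2).mul contDiffAt_const)

variable {U : Set W} {R : W → W} {J : W → W →L[ℝ] W}

/-- smoothness of the complex coordinates along the midpoint -/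
theorem contDiffAt_co (hD : RetData U R J) {X Y a w : P → W} {p : P}
    (hX : ContDiffAt ℝ ∞ X p) (hY : ContDiffAt ℝ ∞ Y p) (ha : ContDiffAt ℝ ∞ a p)
    (hw : ContDiffAt ℝ ∞ w p) (hU : (1 / 2 : ℝ) • (X p + Y p) ∈ U)
    (h0 : fderiv ℝ R (mid R (X p) (Y p)) (a p) ≠ 0) :
    ContDiffAt ℝ ∞ (fun q => zet (fderiv ℝ R (mid R (X q) (Y q)) (a q))
      (J (mid R (X q) (Y q)) (fderiv ℝ R (mid R (X q) (Y q)) (a q)))
      (fderiv ℝ R (mid R (X q) (Y q)) (w q))) p := by
  obtain ⟨hm, hR⟩ := hD.mid_mem hU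
  have hmid : ContDiffAt ℝ ∞ (fun q => mid R (X q) (Y q)) p := by
    unfold mid
    exact (hD.contDiffAt hU).comp p ((hX.add hY).const_smul (1 / 2 : ℝ))
  have hA : ContDiffAt ℝ ∞ (fun q => fderiv ℝ R (mid R (X q) (Y q))) p := by
    have h1 : ContDiffAt ℝ ∞ (fderiv ℝ R) (mid R (X p) (Y p)) :=
      (hD.contDiffAt hm).fderiv_right (by simp)
    exact h1.comp p hmid
  have hJ : ContDiffAt ℝ ∞ (fun q => J (mid R (X q) (Y q))) p :=
    (hD.contDiffAtJ hm).comp p hmid
  have hAa := hA.clm_apply ha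
  have hAw := hA.clm_apply hw
  have hJAa := hJ.clm_apply hAa
  exact contDiffAt_zet hAa hJAa hAw
    (hD.den_pos hm hR (RetData.mem _ _) h0).ne'

end smooth

theorem bst_zero {u : ℝ} (hu : u ≤ 1 / 4) : bst u = 0 := by
  unfold bst
  exact Real.smoothTransition.zero_of_nonpos (by linarith)

theorem bst_one {u : ℝ} (hu : 3 / 4 ≤ u) : bst u = 1 := by
  unfold bst
  exact Real.smoothTransition.one_of_one_le (by linarith)

theorem contDiff_bst : ContDiff ℝ ∞ bst := by
  unfold bst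
  exact Real.smoothTransition.contDiff.comp ((contDiff_const.mul contDiff_id).sub contDiff_const)

theorem hh_zero {δ : ℝ} (hδ : 0 < δ) (R : W → W) (J : W → W →L[ℝ] W) {X Y : W} (a : W)
    (h : ipw (X - Y) (X - Y) ≤ δ ^ 2 / 4) : hh δ R J X Y a = (0, 1) := by
  have hδ2 : 0 < δ ^ 2 := pow_pos hδ 2
  unfold hh
  rw [if_pos (by linarith), bst_zero (by rw [div_le_iff₀ hδ2]; linarith)]
  simp

theorem hh_one {δ : ℝ} (hδ : 0 < δ) (R : W → W) (J : W → W →L[ℝ] W) {X Y : W} (a : W)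
    (h : 3 / 4 * δ ^ 2 ≤ ipw (X - Y) (X - Y)) : hh δ R J X Y a = (0, -1) := by
  have hδ2 : 0 < δ ^ 2 := pow_pos hδ 2
  unfold hh
  split_ifs with h1
  · rw [bst_one (by rw [le_div_iff₀ hδ2]; linarith)]
    simp
  · rfl

/-- the complex coordinate of the direction is nonzero -/
theorem zz_ne {U : Set W} {R : W → W} {J : W → W →L[ℝ] W} (hD : RetData U R J)
    {C : Set W} {δ : ℝ} (hδ : GoodDelta U R C δ) {X Y a : W} (hX : X ∈ C) (hY : Y ∈ C)
    (hlt : ipw (X - Y) (X - Y) < δ ^ 2) (hne : X ≠ Y)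
    (har : a ∈ LinearMap.range (fderiv ℝ R X : W →ₗ[ℝ] W)) (ha0 : a ≠ 0) :
    zz R J X Y a ≠ 0 := by
  obtain ⟨h1, h2, h3⟩ := hδ.2 X hX Y hY hlt
  obtain ⟨hm, hR⟩ := hD.mid_mem h1
  unfold zz
  exact hD.zet_ne hm hR (RetData.mem _ _) (h3 a har ha0) (RetData.mem _ _) (h2 hne)

theorem contDiff_hh {U : Set W} {R : W → W} {J : W → W →L[ℝ] W} (hD : RetData U R J)
    {C : Set W} (hCU : ∀ p ∈ C, p ∈ U ∧ R p = p) {δ : ℝ} (hδ : GoodDelta U R C δ)
    {P : Type*} [NormedAddCommGroup P] [NormedSpace ℝ P] {X Y a : P → W}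
    (hX : ContDiff ℝ ∞ X) (hY : ContDiff ℝ ∞ Y) (ha : ContDiff ℝ ∞ a)
    (hXC : ∀ p, X p ∈ C) (hYC : ∀ p, Y p ∈ C)
    (har : ∀ p, a p ∈ LinearMap.range (fderiv ℝ R (X p) : W →ₗ[ℝ] W)) (ha0 : ∀ p, a p ≠ 0) :
    ContDiff ℝ ∞ (fun p => hh δ R J (X p) (Y p) (a p)) ∧
      ∀ p, ‖(hh δ R J (X p) (Y p) (a p)).1‖ ^ 2 + (hh δ R J (X p) (Y p) (a p)).2 ^ 2 = 1 := by
  have hδ0 := hδ.1
  have hδ2 : 0 < δ ^ 2 := pow_pos hδ0 2
  have hq : ContDiff ℝ ∞ (fun p => ipw (X p - Y p) (X p - Y p)) := by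
    rw [contDiff_iff_contDiffAt]
    intro p
    exact contDiffAt_ipw (hX.contDiffAt.sub hY.contDiffAt) (hX.contDiffAt.sub hY.contDiffAt)
  have hqc := hq.continuous
  constructor
  · rw [contDiff_iff_contDiffAt]
    intro p
    rcases lt_or_ge (ipw (X p - Y p) (X p - Y p)) (δ ^ 2 / 4) with h1 | h1
    · have h2 : (fun p => hh δ R J (X p) (Y p) (a p)) =ᶠ[𝓝 p] fun _ => (0, 1) := by
        filter_upwards [hqc.continuousAt.eventually (gt_mem_nhds h1)] with q hq
        exact hh_zero hδ0 R J (a q) (le_of_lt hq)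
      exact contDiffAt_const.congr_of_eventuallyEq h2
    · rcases lt_or_ge (3 / 4 * δ ^ 2) (ipw (X p - Y p) (X p - Y p)) with h2 | h2
      · have h3 : (fun p => hh δ R J (X p) (Y p) (a p)) =ᶠ[𝓝 p] fun _ => (0, -1) := by
          filter_upwards [hqc.continuousAt.eventually (lt_mem_nhds h2)] with q hq
          exact hh_one hδ0 R J (a q) (le_of_lt hq)
        exact contDiffAt_const.congr_of_eventuallyEq h3
      · have hlt : ipw (X p - Y p) (X p - Y p) < δ ^ 2 := by linarith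
        have h3 : (fun p => hh δ R J (X p) (Y p) (a p)) =ᶠ[𝓝 p] fun p =>
            ((Real.sin (Real.pi * bst (ipw (X p - Y p) (X p - Y p) / δ ^ 2)) /
              ‖zz R J (X p) (Y p) (a p)‖ : ℝ) • zz R J (X p) (Y p) (a p),
            Real.cos (Real.pi * bst (ipw (X p - Y p) (X p - Y p) / δ ^ 2))) := by
          filter_upwards [hqc.continuousAt.eventually (gt_mem_nhds hlt)] with q hq
          unfold hh
          rw [if_pos hq]
        refine ContDiffAt.congr_of_eventuallyEq ?_ h3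
        have hne : X p ≠ Y p := by
          intro h
          rw [h, sub_self] at h1
          have h4 : ipw (0 : W) 0 = 0 := ipw_self_eq_zero.2 rfl
          rw [h4] at h1
          linarith
        have hz0 := zz_ne hD hδ (hXC p) (hYC p) hlt hne (har p) (ha0 p)
        obtain ⟨g1, g2, g3⟩ := hδ.2 (X p) (hXC p) (Y p) (hYC p) hlt
        have hz : ContDiffAt ℝ ∞ (fun p => zz R J (X p) (Y p) (a p)) p :=
          contDiffAt_co hD hX.contDiffAt hY.contDiffAt ha.contDiffAt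
            (hY.contDiffAt.sub hX.contDiffAt) g1 (g3 _ (har p) (ha0 p))
        have hb : ContDiffAt ℝ ∞ (fun p => Real.pi * bst (ipw (X p - Y p) (X p - Y p) / δ ^ 2)) p :=
          contDiffAt_const.mul
            (contDiff_bst.contDiffAt.comp p (hq.contDiffAt.div_const (δ ^ 2)))
        have hn : ContDiffAt ℝ ∞ (fun p => ‖zz R J (X p) (Y p) (a p)‖) p := hz.norm ℝ hz0
        have hs := (Real.contDiff_sin.contDiffAt.comp p hb)
        have hc := (Real.contDiff_cos.contDiffAt.comp p hb)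
        exact ((hs.div hn (norm_ne_zero_iff.2 hz0)).smul hz).prodMk hc
  · intro p
    rcases lt_or_ge (ipw (X p - Y p) (X p - Y p)) (δ ^ 2) with h1 | h1
    · by_cases hne : X p = Y p
      · rw [hh_zero hδ0 R J (a p) (by
          rw [hne, sub_self, ipw_self_eq_zero.2 rfl]; positivity)]
        simp
      · have hz0 := zz_ne hD hδ (hXC p) (hYC p) h1 hne (har p) (ha0 p)
        unfold hh
        rw [if_pos h1]
        simp only
        rw [norm_smul, Real.norm_eq_abs, abs_div, abs_norm,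
          div_mul_cancel₀ _ (norm_ne_zero_iff.2 hz0), sq_abs]
        exact Real.sin_sq_add_cos_sq _
    · rw [hh_one hδ0 R J (a p) (by linarith)]
      simp

theorem hh_self {δ : ℝ} (hδ : 0 < δ) (R : W → W) (J : W → W →L[ℝ] W) (X a : W) :
    hh δ R J X X a = (0, 1) := by
  refine hh_zero hδ R J a ?_
  rw [sub_self, ipw_self_eq_zero.2 rfl]
  positivity

theorem contDiffOn_gg {U : Set W} {R : W → W} {J : W → W →L[ℝ] W} (hD : RetData U R J)
    {C : Set W} (hCU : ∀ p ∈ C, p ∈ U ∧ R p = p) {δ : ℝ} (hδ : GoodDelta U R C δ)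
    {P : Type*} [NormedAddCommGroup P] [NormedSpace ℝ P] {X Y a b : P → W}
    (hX : ContDiff ℝ ∞ X) (hY : ContDiff ℝ ∞ Y) (ha : ContDiff ℝ ∞ a) (hb : ContDiff ℝ ∞ b)
    (hXC : ∀ p, X p ∈ C) (hYC : ∀ p, Y p ∈ C)
    (har : ∀ p, a p ∈ LinearMap.range (fderiv ℝ R (X p) : W →ₗ[ℝ] W)) (ha0 : ∀ p, a p ≠ 0)
    (hbr : ∀ p, b p ∈ LinearMap.range (fderiv ℝ R (Y p) : W →ₗ[ℝ] W)) (hb0 : ∀ p, b p ≠ 0) :
    ContDiffOn ℝ ∞ (fun p => gg R J (X p) (Y p) (a p) (b p))
      {p | ipw (X p - Y p) (X p - Y p) < δ ^ 2} ∧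
    ∀ p, ipw (X p - Y p) (X p - Y p) < δ ^ 2 → gg R J (X p) (Y p) (a p) (b p) ≠ 0 := by
  have key : ∀ p, ipw (X p - Y p) (X p - Y p) < δ ^ 2 →
      (1 / 2 : ℝ) • (X p + Y p) ∈ U ∧ fderiv ℝ R (mid R (X p) (Y p)) (a p) ≠ 0 ∧
      fderiv ℝ R (mid R (X p) (Y p)) (b p) ≠ 0 := by
    intro p hp
    obtain ⟨g1, -, g3⟩ := hδ.2 (X p) (hXC p) (Y p) (hYC p) hp
    obtain ⟨-, -, g6⟩ := hδ.2 (Y p) (hYC p) (X p) (hXC p) (by rw [ipw_swap]; exact hp)
    have hmid : mid R (Y p) (X p) = mid R (X p) (Y p) := by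
      unfold mid
      rw [add_comm]
    rw [hmid] at g6
    exact ⟨g1, g3 _ (har p) (ha0 p), g6 _ (hbr p) (hb0 p)⟩
  constructor
  · intro p hp
    obtain ⟨g1, -, g3⟩ := key p hp
    exact (contDiffAt_co hD hX.contDiffAt hY.contDiffAt hb.contDiffAt ha.contDiffAt
      g1 g3).contDiffWithinAt
  · intro p hp
    obtain ⟨g1, g2, g3⟩ := key p hp
    obtain ⟨hm, hR⟩ := hD.mid_mem g1
    exact hD.zet_ne hm hR (RetData.mem _ _) g3 (RetData.mem _ _) g2

theorem hh_swap {U : Set W} {R : W → W} {J : W → W →L[ℝ] W} (hD : RetData U R J)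
    {C : Set W} (hCU : ∀ p ∈ C, p ∈ U ∧ R p = p) {δ : ℝ} (hδ : GoodDelta U R C δ)
    {X Y a b : W} (hX : X ∈ C) (hY : Y ∈ C) (hXY : ipw (X - Y) (X - Y) < δ ^ 2)
    (har : a ∈ LinearMap.range (fderiv ℝ R X : W →ₗ[ℝ] W)) (ha0 : a ≠ 0)
    (hbr : b ∈ LinearMap.range (fderiv ℝ R Y : W →ₗ[ℝ] W)) (hb0 : b ≠ 0) :
    hh δ R J Y X b = (-(((‖gg R J X Y a b‖⁻¹ : ℝ) : ℂ) * gg R J X Y a b) * (hh δ R J X Y a).1,
      (hh δ R J X Y a).2) := by
  obtain ⟨g1, -, g3⟩ := hδ.2 X hX Y hY hXY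
  obtain ⟨-, -, g6⟩ := hδ.2 Y hY X hX (by rw [ipw_swap]; exact hXY)
  have hmid : mid R Y X = mid R X Y := by
    unfold mid
    rw [add_comm]
  rw [hmid] at g6
  obtain ⟨hm, hR⟩ := hD.mid_mem g1
  have hzz : zz R J Y X b = -(gg R J X Y a b * zz R J X Y a) := by
    have e1 := hD.span hm hR (RetData.mem _ b) (g6 b hbr hb0) (RetData.mem _ a)
    have e2 := hD.span hm hR (RetData.mem _ a) (g3 a har ha0) (RetData.mem _ (Y - X))
    change _ = (gg R J X Y a b).re • _ + (gg R J X Y a b).im • _ at e1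
    change _ = (zz R J X Y a).re • _ + (zz R J X Y a).im • _ at e2
    set g := gg R J X Y a b with hg
    set z := zz R J X Y a with hz
    set m := mid R X Y with hmm
    set A := fderiv ℝ R m with hA
    have hJJ : J m (J m (A b)) = - A b := hD.J_J hm hR (RetData.mem _ b)
    have e3 : A (X - Y) = (-(g * z)).re • A b + (-(g * z)).im • J m (A b) := by
      have e4 : A (X - Y) = -(A (Y - X)) := by rw [← map_neg, neg_sub]
      rw [e4, e2, e1]
      simp only [map_add, map_smul, hJJ, Complex.neg_re, Complex.neg_im, Complex.mul_re,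
        Complex.mul_im]
      module
    unfold zz
    rw [hmid, ← hA, e3]
    exact zet_comb (hD.den_pos hm hR (RetData.mem _ b) (g6 b hbr hb0)).ne' _ _
  unfold hh
  rw [if_pos (by rw [ipw_swap]; exact hXY), if_pos hXY, ipw_swap, hzz]
  simp only
  rw [norm_neg, norm_mul]
  refine Prod.ext ?_ rfl
  simp only [Complex.real_smul]
  push_cast
  rw [div_eq_mul_inv, div_eq_mul_inv, mul_inv]
  ring

/-- at coinciding points: if `a = cos t • b + sin t • J b` then `gg = exp (i t)` -/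
theorem gg_self {U : Set W} {R : W → W} {J : W → W →L[ℝ] W} (hD : RetData U R J)
    {X b : W} (hX : X ∈ U) (hXR : R X = X)
    (hbr : b ∈ LinearMap.range (fderiv ℝ R X : W →ₗ[ℝ] W)) (hb0 : b ≠ 0) (t : ℝ) :
    gg R J X X (Real.cos t • b + Real.sin t • J X b) b = Complex.exp (t * Complex.I) := by
  have hmid : mid R X X = X := by
    unfold mid
    have h : (1 / 2 : ℝ) • (X + X) = X := by module
    rw [h, hXR]
  unfold gg
  rw [hmid, hD.idem' hX hXR hbr, map_add, map_smul, map_smul, hD.idem' hX hXR hbr,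
    hD.idem' hX hXR (hD.J_mem hX hXR hbr),
    zet_comb (hD.den_pos hX hXR hbr hb0).ne', Complex.mk_eq_add_mul_I, Complex.exp_mul_I,
    Complex.ofReal_cos, Complex.ofReal_sin]

end Pool.Agent.H86.Nco
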