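import Pool.Agent.H86.Nco.Hopf

/-!
# Module EVENC: the degree of a twisted map

`h' = (- u h.1, h.2)` on the open set `O`, both maps equal to `(0, -1)` outside the closed subset
`C` of `O`.  For `v = - u`, `‖v‖ = 1` on `O`, `γ_j = Im (conj v ∂_j v) = Im (conj u ∂_j u)` and `c = h.2`:
`tri h' ∂₁h' ∂₂h' - tri h ∂₁h ∂₂h = - (∂₁c γ₂ - ∂₂c γ₁)` on `O`
(in polar coordinates `h = (sin α e^{iψ}, cos α)`, `tri = sin α (∂₁α ∂₂ψ - ∂₂α ∂₁ψ)`; it is a polynomial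
identity, given `‖h.1‖² + c² = 1`, `Re (conj h.1 ∂_j h.1) + c ∂_j c = 0`, `‖v‖ = 1`,
`Re (conj v ∂_j v) = 0`).  `∂₁γ₂ = ∂₂γ₁` on `O` (differentiate; `Im (conj ∂₁u ∂₂u) = 0` because both
derivatives are real multiples of `i u`).  Put `κ = (1 + c) / 2`; `κ γ_j` (extended by zero outside
`O`) is smooth on the plane since `κ = 0` outside `C`.  So the difference of the integrands is
`-2 (∂₁ (κ γ₂) - ∂₂ (κ γ₁))` everywhere, and `green` gives
`Deg h' - Deg h = -2 (∫ (κ γ₂)(1, t) - (κ γ₂)(0, t) dt - ∫ ((κ γ₁)(t, 1) - (κ γ₁)(t, 0)) dt)`.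
On the boundary of the square `κ = 1`; `u = 1` on the three sides, so only `∫ γ₂ (1, t) dt = ∫ ϑ'`
remains.
-/

open scoped Manifold ContDiff Bundle Topology

noncomputable section

namespace Pool.Agent.H86.Nco

private theorem tw_alg1 {a b a1 b1 a2 b2 : ℝ} (H : a ^ 2 + b ^ 2 = 1) (H1 : a * a1 + b * b1 = 0)
    (H2 : a * a2 + b * b2 = 0) : a1 * b2 - b1 * a2 = 0 := by
  linear_combination (-(a1 * b2 - b1 * a2)) * H + (a * b2 - b * a2) * H1 + (b * a1 - a * b1) * H2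

private theorem tw_alg2 {a b p q c a1 b1 p1 q1 c1 a2 b2 p2 q2 c2 : ℝ} (H : a ^ 2 + b ^ 2 = 1)
    (Hp : p ^ 2 + q ^ 2 + c ^ 2 = 1) (H1 : a * a1 + b * b1 = 0) (H2 : a * a2 + b * b2 = 0)
    (K1 : p * p1 + q * q1 + c * c1 = 0) (K2 : p * p2 + q * q2 + c * c2 = 0) :
    (-(a * p - b * q)) * ((-(a1 * q + a * q1 + (b1 * p + b * p1))) * c2
        - c1 * (-(a2 * q + a * q2 + (b2 * p + b * p2))))
      + (-(a * q + b * p)) * (c1 * (-(a2 * p + a * p2 - (b2 * q + b * q2)))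
        - (-(a1 * p + a * p1 - (b1 * q + b * q1))) * c2)
      + c * ((-(a1 * p + a * p1 - (b1 * q + b * q1))) * (-(a2 * q + a * q2 + (b2 * p + b * p2)))
        - (-(a1 * q + a * q1 + (b1 * p + b * p1))) * (-(a2 * p + a * p2 - (b2 * q + b * q2))))
      - (p * (q1 * c2 - c1 * q2) + q * (c1 * p2 - p1 * c2) + c * (p1 * q2 - q1 * p2))
      = -(c1 * (a * b2 - b * a2) - c2 * (a * b1 - b * a1)) := by
  obtain ⟨g1, e1⟩ : ∃ g, g = a * b1 - b * a1 := ⟨_, rfl⟩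
  obtain ⟨g2, e2⟩ : ∃ g, g = a * b2 - b * a2 := ⟨_, rfl⟩
  have f1 : a1 = -g1 * b := by
    rw [e1]
    linear_combination (-a1) * H + a * H1
  have f2 : b1 = g1 * a := by
    rw [e1]
    linear_combination (-b1) * H + b * H1
  have f3 : a2 = -g2 * b := by
    rw [e2]
    linear_combination (-a2) * H + a * H2
  have f4 : b2 = g2 * a := by
    rw [e2]
    linear_combination (-b2) * H + b * H2
  rw [← e1, ← e2, f1, f2, f3, f4]
  linear_combination (p * ((q1 + g1 * p) * c2 - c1 * (q2 + g2 * p))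
    + q * (c1 * (p2 - g2 * q) - (p1 - g1 * q) * c2)
    + c * ((p1 - g1 * q) * (q2 + g2 * p) - (q1 + g1 * p) * (p2 - g2 * q))) * H
    + (g1 * c2 - g2 * c1) * Hp + g2 * c * K1 - g1 * c * K2

/-- differentiation of the equation of the sphere -/
private theorem tw_const {F : ℝ × ℝ → ℂ × ℝ} {x : ℝ × ℝ} (hF : DifferentiableAt ℝ F x)
    (h1 : ∀ᶠ y in 𝓝 x, ‖(F y).1‖ ^ 2 + (F y).2 ^ 2 = 1) (v : ℝ × ℝ) :
    (F x).1.re * (fderiv ℝ F x v).1.re + (F x).1.im * (fderiv ℝ F x v).1.im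
      + (F x).2 * (fderiv ℝ F x v).2 = 0 := by
  have h0 := hF.hasFDerivAt
  have hr : HasFDerivAt (fun y => (F y).1.re)
      (Complex.reCLM.comp ((ContinuousLinearMap.fst ℝ ℂ ℝ).comp (fderiv ℝ F x))) x :=
    (Complex.reCLM.hasFDerivAt).comp x h0.fst
  have hi : HasFDerivAt (fun y => (F y).1.im)
      (Complex.imCLM.comp ((ContinuousLinearMap.fst ℝ ℂ ℝ).comp (fderiv ℝ F x))) x :=
    (Complex.imCLM.hasFDerivAt).comp x h0.fst
  have hs := h0.snd
  have h2 := ((hr.mul hr).add (hi.mul hi)).add (hs.mul hs)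
  have h3 : HasFDerivAt (fun _ : ℝ × ℝ => (1 : ℝ)) (0 : ℝ × ℝ →L[ℝ] ℝ) x := hasFDerivAt_const _ _
  have h4 : (fun y => (F y).1.re * (F y).1.re + (F y).1.im * (F y).1.im + (F y).2 * (F y).2)
      =ᶠ[𝓝 x] fun _ => 1 := by
    filter_upwards [h1] with y hy
    rw [← hy, Complex.sq_norm, Complex.normSq_apply]
    ring
  have h5 := (h2.congr_of_eventuallyEq h4.symm).unique h3
  have h6 := DFunLike.congr_fun h5 v
  simp at h6
  linarith

private theorem tw_two : (1 : WithTop ℕ∞) + 1 ≤ ∞ := by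
  norm_num
  exact ENat.LEInfty.out

/-- the one-form `κ γ` -/
private def tw_W (h : ℝ × ℝ → ℂ × ℝ) (u : ℝ × ℝ → ℂ) (e y : ℝ × ℝ) : ℝ :=
  (1 + (h y).2) / 2 * ((u y).re * (fderiv ℝ u y e).im - (u y).im * (fderiv ℝ u y e).re)

private theorem tw_contDiff {h : ℝ × ℝ → ℂ × ℝ} (hh : ContDiff ℝ ∞ h) {O C : Set (ℝ × ℝ)}
    (hO : IsOpen O) (hC : IsClosed C) (hCO : C ⊆ O) {u : ℝ × ℝ → ℂ} (hu : ContDiffOn ℝ ∞ u O)
    (hout : ∀ x, x ∉ C → h x = (0, -1)) (e : ℝ × ℝ) : ContDiff ℝ 1 (tw_W h u e) := by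
  rw [contDiff_iff_contDiffAt]
  intro x
  by_cases hx : x ∈ O
  · have hux : ContDiffAt ℝ ∞ u x := hu.contDiffAt (hO.mem_nhds hx)
    have h1 : ContDiffAt ℝ 1 (fun y => (h y).2) x := (hh.contDiffAt.of_le (by norm_num)).snd
    have h2 : ContDiffAt ℝ 1 u x := hux.of_le (by norm_num)
    have h3 : ContDiffAt ℝ 1 (fderiv ℝ u) x := hux.fderiv_right tw_two
    have h4 : ContDiffAt ℝ 1 (fun y => fderiv ℝ u y e) x := h3.clm_apply contDiffAt_const
    have h5 : ContDiffAt ℝ 1 (fun y => (u y).re) x := Complex.reCLM.contDiff.contDiffAt.comp x h2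
    have h6 : ContDiffAt ℝ 1 (fun y => (u y).im) x := Complex.imCLM.contDiff.contDiffAt.comp x h2
    have h7 : ContDiffAt ℝ 1 (fun y => (fderiv ℝ u y e).re) x :=
      Complex.reCLM.contDiff.contDiffAt.comp x h4
    have h8 : ContDiffAt ℝ 1 (fun y => (fderiv ℝ u y e).im) x :=
      Complex.imCLM.contDiff.contDiffAt.comp x h4
    exact ((contDiffAt_const.add h1).div_const 2).mul ((h5.mul h8).sub (h6.mul h7))
  · have h1 : tw_W h u e =ᶠ[𝓝 x] fun _ => 0 := by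
      filter_upwards [hC.isOpen_compl.mem_nhds (fun hc => hx (hCO hc))] with y hy
      unfold tw_W
      rw [hout y hy]
      simp
    exact contDiffAt_const.congr_of_eventuallyEq h1

private theorem tw_fderiv {h : ℝ × ℝ → ℂ × ℝ} (hh : ContDiff ℝ ∞ h) {u : ℝ × ℝ → ℂ} {x : ℝ × ℝ}
    (hu : ContDiffAt ℝ ∞ u x) (e v : ℝ × ℝ) : fderiv ℝ (tw_W h u e) x v =
      (fderiv ℝ h x v).2 / 2 * ((u x).re * (fderiv ℝ u x e).im - (u x).im * (fderiv ℝ u x e).re)
      + (1 + (h x).2) / 2 * ((u x).re * (fderiv ℝ (fderiv ℝ u) x v e).im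
        + (fderiv ℝ u x v).re * (fderiv ℝ u x e).im
        - ((u x).im * (fderiv ℝ (fderiv ℝ u) x v e).re
        + (fderiv ℝ u x v).im * (fderiv ℝ u x e).re)) := by
  have hd : HasFDerivAt h (fderiv ℝ h x) x := (hh.differentiable (by norm_num) x).hasFDerivAt
  have hud : HasFDerivAt u (fderiv ℝ u x) x :=
    (hu.differentiableAt (by norm_num)).hasFDerivAt
  have hud2 : HasFDerivAt (fderiv ℝ u) (fderiv ℝ (fderiv ℝ u) x) x :=
    ((hu.fderiv_right (m := 1) tw_two).differentiableAt (by norm_num)).hasFDerivAt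
  have he : HasFDerivAt (fun y => fderiv ℝ u y e)
      ((ContinuousLinearMap.apply ℝ ℂ e).comp (fderiv ℝ (fderiv ℝ u) x)) x :=
    (ContinuousLinearMap.apply ℝ ℂ e).hasFDerivAt.comp x hud2
  have h1 := (hd.snd.const_add 1).mul_const (1 / 2 : ℝ)
  have h5 : HasFDerivAt (fun y => (u y).re) (Complex.reCLM.comp (fderiv ℝ u x)) x :=
    Complex.reCLM.hasFDerivAt.comp x hud
  have h6 : HasFDerivAt (fun y => (u y).im) (Complex.imCLM.comp (fderiv ℝ u x)) x :=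
    Complex.imCLM.hasFDerivAt.comp x hud
  have h7 := Complex.reCLM.hasFDerivAt.comp x he
  have h8 := Complex.imCLM.hasFDerivAt.comp x he
  have h9 := h1.mul ((h5.mul h8).sub (h6.mul h7))
  have h10 : tw_W h u e = (fun y => (1 + (h y).2) * (1 / 2 : ℝ)) *
      ((fun y => (u y).re) * (Complex.imCLM ∘ fun y => fderiv ℝ u y e)
        - (fun y => (u y).im) * (Complex.reCLM ∘ fun y => fderiv ℝ u y e)) := by
    funext y
    unfold tw_W
    simp only [Pi.mul_apply, Pi.sub_apply, Function.comp, Complex.imCLM_apply, Complex.reCLM_apply]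
    ring
  rw [h10, h9.fderiv]
  simp
  ring

private theorem tw_fd {h h' : ℝ × ℝ → ℂ × ℝ} (hh : ContDiff ℝ ∞ h) {O : Set (ℝ × ℝ)}
    (hO : IsOpen O) {u : ℝ × ℝ → ℂ} (hu : ContDiffOn ℝ ∞ u O)
    (htw : ∀ x ∈ O, h' x = (-(u x) * (h x).1, (h x).2)) {x : ℝ × ℝ} (hx : x ∈ O) (v : ℝ × ℝ) :
    fderiv ℝ h' x v = (-(u x) * (fderiv ℝ h x v).1 + (h x).1 * -(fderiv ℝ u x v),
      (fderiv ℝ h x v).2) := by
  have hux : ContDiffAt ℝ ∞ u x := hu.contDiffAt (hO.mem_nhds hx)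
  have hd : HasFDerivAt h (fderiv ℝ h x) x := (hh.differentiable (by norm_num) x).hasFDerivAt
  have hud : HasFDerivAt u (fderiv ℝ u x) x :=
    (hux.differentiableAt (by norm_num)).hasFDerivAt
  have h1 : h' =ᶠ[𝓝 x] fun y => (-(u y) * (h y).1, (h y).2) := by
    filter_upwards [hO.mem_nhds hx] with y hy
    exact htw y hy
  have h2 : HasFDerivAt (fun y => (-(u y) * (h y).1, (h y).2)) _ x :=
    ((hud.neg).mul hd.fst).prodMk hd.snd
  rw [h1.fderiv_eq, h2.fderiv]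
  simp

private theorem tw_point {h h' : ℝ × ℝ → ℂ × ℝ} (hh : ContDiff ℝ ∞ h)
    (h1 : ∀ x, ‖(h x).1‖ ^ 2 + (h x).2 ^ 2 = 1) {O C : Set (ℝ × ℝ)} (hO : IsOpen O)
    (hC : IsClosed C) (hCO : C ⊆ O) {u : ℝ × ℝ → ℂ} (hu : ContDiffOn ℝ ∞ u O)
    (hu1 : ∀ x ∈ O, ‖u x‖ = 1) (htw : ∀ x ∈ O, h' x = (-(u x) * (h x).1, (h x).2))
    (hout : ∀ x, x ∉ C → h x = (0, -1) ∧ h' x = (0, -1)) (x : ℝ × ℝ) :
    tri (h' x) (fderiv ℝ h' x (1, 0)) (fderiv ℝ h' x (0, 1))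
      - tri (h x) (fderiv ℝ h x (1, 0)) (fderiv ℝ h x (0, 1)) =
    -2 * (fderiv ℝ (tw_W h u (0, 1)) x (1, 0) - fderiv ℝ (tw_W h u (1, 0)) x (0, 1)) := by
  by_cases hx : x ∈ O
  · have hux : ContDiffAt ℝ ∞ u x := hu.contDiffAt (hO.mem_nhds hx)
    rw [tw_fderiv hh hux, tw_fderiv hh hux, tw_fd hh hO hu htw hx, tw_fd hh hO hu htw hx,
      htw x hx]
    have hsym : fderiv ℝ (fderiv ℝ u) x (1, 0) (0, 1) = fderiv ℝ (fderiv ℝ u) x (0, 1) (1, 0) :=
      (hux.isSymmSndFDerivAt (by simp; exact ENat.LEInfty.out)) _ _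
    rw [hsym]
    have hK : ∀ v : ℝ × ℝ, (h x).1.re * (fderiv ℝ h x v).1.re
        + (h x).1.im * (fderiv ℝ h x v).1.im + (h x).2 * (fderiv ℝ h x v).2 = 0 := fun v =>
      tw_const (hh.differentiable (by norm_num) x) (Filter.Eventually.of_forall h1) v
    have hU : ∀ v : ℝ × ℝ, (u x).re * (fderiv ℝ u x v).re
        + (u x).im * (fderiv ℝ u x v).im = 0 := by
      intro v
      have hud : HasFDerivAt u (fderiv ℝ u x) x :=
        (hux.differentiableAt (by norm_num)).hasFDerivAt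
      have h3 : HasFDerivAt (fun y => (u y, (0 : ℝ)))
          ((fderiv ℝ u x).prod (0 : ℝ × ℝ →L[ℝ] ℝ)) x :=
        hud.prodMk (hasFDerivAt_const (0 : ℝ) x)
      have h4 := tw_const (F := fun y => (u y, (0 : ℝ))) h3.differentiableAt (by
        filter_upwards [hO.mem_nhds hx] with y hy
        simp [hu1 y hy]) v
      rw [h3.fderiv] at h4
      simpa using h4
    have H : (u x).re ^ 2 + (u x).im ^ 2 = 1 := by
      have h3 := hu1 x hx
      have h4 : ‖u x‖ ^ 2 = 1 := by rw [h3]; norm_num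
      rw [Complex.sq_norm, Complex.normSq_apply] at h4
      linarith
    have Hp : (h x).1.re ^ 2 + (h x).1.im ^ 2 + (h x).2 ^ 2 = 1 := by
      have h4 := h1 x
      rw [Complex.sq_norm, Complex.normSq_apply] at h4
      linarith
    have e1 := tw_alg1 H (hU (1, 0)) (hU (0, 1))
    have e2 := tw_alg2 H Hp (hU (1, 0)) (hU (0, 1)) (hK (1, 0)) (hK (0, 1))
    simp only [tri, Complex.mul_re, Complex.mul_im, Complex.add_re, Complex.add_im,
      Complex.neg_re, Complex.neg_im]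
    linear_combination e2 + 4 * ((1 + (h x).2) / 2) * e1
  · have hx' : x ∉ C := fun hc => hx (hCO hc)
    have hn : Cᶜ ∈ 𝓝 x := hC.isOpen_compl.mem_nhds hx'
    have e1 : h =ᶠ[𝓝 x] fun _ => (0, -1) := by
      filter_upwards [hn] with y hy
      exact (hout y hy).1
    have e2 : h' =ᶠ[𝓝 x] fun _ => (0, -1) := by
      filter_upwards [hn] with y hy
      exact (hout y hy).2
    have e3 : ∀ e, tw_W h u e =ᶠ[𝓝 x] fun _ => 0 := by
      intro e
      filter_upwards [hn] with y hy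
      unfold tw_W
      rw [(hout y hy).1]
      simp
    rw [e1.fderiv_eq, e2.fderiv_eq, (e3 _).fderiv_eq, (e3 _).fderiv_eq]
    simp [tri]

private theorem tw_cont {h : ℝ × ℝ → ℂ × ℝ} (hh : ContDiff ℝ ∞ h) : Continuous fun x =>
    tri (h x) (fderiv ℝ h x (1, 0)) (fderiv ℝ h x (0, 1)) := by
  have h1 : Continuous h := hh.continuous
  have h2 : Continuous (fderiv ℝ h) := hh.continuous_fderiv (by norm_num)
  have h3 : ∀ e : ℝ × ℝ, Continuous fun x => fderiv ℝ h x e := fun e =>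
    h2.clm_apply continuous_const
  have h4 := h3 (1, 0)
  have h5 := h3 (0, 1)
  unfold tri
  fun_prop

private theorem tw_int_sub {f g : ℝ × ℝ → ℝ} (hf : Continuous f) (hg : Continuous g) :
    (∫ x in (0 : ℝ)..1, ∫ y in (0 : ℝ)..1, f (x, y)) - ∫ x in (0 : ℝ)..1, ∫ y in (0 : ℝ)..1, g (x, y)
      = ∫ x in (0 : ℝ)..1, ∫ y in (0 : ℝ)..1, (f (x, y) - g (x, y)) := by
  have h1 : ∀ {k : ℝ × ℝ → ℝ}, Continuous k → Continuous fun x : ℝ => ∫ y in (0 : ℝ)..1, k (x, y) := by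
    intro k hk
    exact intervalIntegral.continuous_parametric_intervalIntegral_of_continuous' (by fun_prop) _ _
  rw [← intervalIntegral.integral_sub ((h1 hf).intervalIntegrable _ _)
    ((h1 hg).intervalIntegrable _ _)]
  refine intervalIntegral.integral_congr fun x _ => ?_
  rw [← intervalIntegral.integral_sub]
  · exact (Continuous.intervalIntegrable (by fun_prop) _ _)
  · exact (Continuous.intervalIntegrable (by fun_prop) _ _)

theorem tri_twist (h h' : ℝ × ℝ → ℂ × ℝ) (hh : ContDiff ℝ ∞ h) (hh' : ContDiff ℝ ∞ h')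
    (h1 : ∀ x, ‖(h x).1‖ ^ 2 + (h x).2 ^ 2 = 1) (O C : Set (ℝ × ℝ)) (hO : IsOpen O)
    (hC : IsClosed C) (hCO : C ⊆ O) (u : ℝ × ℝ → ℂ) (hu : ContDiffOn ℝ ∞ u O)
    (hu1 : ∀ x ∈ O, ‖u x‖ = 1) (htw : ∀ x ∈ O, h' x = (-(u x) * (h x).1, (h x).2))
    (hout : ∀ x, x ∉ C → h x = (0, -1) ∧ h' x = (0, -1))
    (hbd : ∀ x, x ∉ Sq → x ∈ O ∧ (h x).2 = 1)
    (hu0 : ∀ x, x.1 ≤ 0 ∨ x.2 ≤ 0 ∨ 1 ≤ x.2 → u x = 1)
    (ϑ : ℝ → ℝ) (hϑ : ContDiff ℝ ∞ ϑ) (huϑ : ∀ t, u (1, t) = Complex.exp (ϑ t * Complex.I)) :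
    Deg h' - Deg h = -2 * (ϑ 1 - ϑ 0) := by
  have hdu : ∀ x, x ∉ Sq → HasFDerivAt u (fderiv ℝ u x) x := fun x hx =>
    ((hu.contDiffAt (hO.mem_nhds (hbd x hx).1)).differentiableAt (by norm_num)).hasFDerivAt
  have hs1 : ∀ t : ℝ, ((t, 1) : ℝ × ℝ) ∉ Sq := fun t h => lt_irrefl _ h.2.2
  have hs2 : ∀ t : ℝ, ((t, 0) : ℝ × ℝ) ∉ Sq := fun t h => lt_irrefl _ h.2.1
  have hs3 : ∀ t : ℝ, ((1, t) : ℝ × ℝ) ∉ Sq := fun t h => lt_irrefl _ h.1.2
  have hs4 : ∀ t : ℝ, ((0, t) : ℝ × ℝ) ∉ Sq := fun t h => lt_irrefl _ h.1.1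
  have hcv1 : ∀ t s : ℝ, HasDerivAt (fun r : ℝ => ((r, s) : ℝ × ℝ)) (1, 0) t := fun t s =>
    (hasDerivAt_id t).prodMk (hasDerivAt_const t s)
  have hcv2 : ∀ t s : ℝ, HasDerivAt (fun r : ℝ => ((s, r) : ℝ × ℝ)) (0, 1) t := fun t s =>
    (hasDerivAt_const t s).prodMk (hasDerivAt_id t)
  have hP1 : ∀ t, tw_W h u (1, 0) (t, 1) = 0 := by
    intro t
    have e1 := (hdu _ (hs1 t)).comp_hasDerivAt t (hcv1 t 1)
    have e2 : (u ∘ fun r : ℝ => ((r, 1) : ℝ × ℝ)) = fun _ => 1 := by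
      funext r
      exact hu0 _ (Or.inr (Or.inr le_rfl))
    rw [e2] at e1
    have e3 := e1.unique (hasDerivAt_const t (1 : ℂ))
    unfold tw_W
    rw [e3]
    simp
  have hP0 : ∀ t, tw_W h u (1, 0) (t, 0) = 0 := by
    intro t
    have e1 := (hdu _ (hs2 t)).comp_hasDerivAt t (hcv1 t 0)
    have e2 : (u ∘ fun r : ℝ => ((r, 0) : ℝ × ℝ)) = fun _ => 1 := by
      funext r
      exact hu0 _ (Or.inr (Or.inl le_rfl))
    rw [e2] at e1
    have e3 := e1.unique (hasDerivAt_const t (1 : ℂ))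
    unfold tw_W
    rw [e3]
    simp
  have hQ0 : ∀ t, tw_W h u (0, 1) (0, t) = 0 := by
    intro t
    have e1 := (hdu _ (hs4 t)).comp_hasDerivAt t (hcv2 t 0)
    have e2 : (u ∘ fun r : ℝ => ((0, r) : ℝ × ℝ)) = fun _ => 1 := by
      funext r
      exact hu0 _ (Or.inl le_rfl)
    rw [e2] at e1
    have e3 := e1.unique (hasDerivAt_const t (1 : ℂ))
    unfold tw_W
    rw [e3]
    simp
  have hQ1 : ∀ t, tw_W h u (0, 1) (1, t) = deriv ϑ t := by
    intro t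
    have e1 := (hdu _ (hs3 t)).comp_hasDerivAt t (hcv2 t 1)
    have e2 : (u ∘ fun r : ℝ => ((1, r) : ℝ × ℝ)) = fun r => Complex.exp (ϑ r * Complex.I) := by
      funext r
      exact huϑ r
    rw [e2] at e1
    have e4 : HasDerivAt ϑ (deriv ϑ t) t := (hϑ.differentiable (by norm_num) t).hasDerivAt
    have e5 := (e4.ofReal_comp.mul_const Complex.I).cexp
    have e3 := e1.unique e5
    unfold tw_W
    rw [e3, (hbd _ (hs3 t)).2, huϑ t, Complex.exp_ofReal_mul_I]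
    simp only [Complex.mul_re, Complex.mul_im, Complex.add_re, Complex.add_im, Complex.I_re,
      Complex.I_im, Complex.ofReal_re, Complex.ofReal_im, ← Complex.ofReal_cos,
      ← Complex.ofReal_sin]
    linear_combination deriv ϑ t * Real.cos_sq_add_sin_sq (ϑ t)
  have hg := green (tw_W h u (1, 0)) (tw_W h u (0, 1))
    (tw_contDiff hh hO hC hCO hu (fun x hx => (hout x hx).1) _)
    (tw_contDiff hh hO hC hCO hu (fun x hx => (hout x hx).1) _)
  have hfin1 : ∫ t in (0 : ℝ)..1, (tw_W h u (0, 1) (1, t) - tw_W h u (0, 1) (0, t)) = ϑ 1 - ϑ 0 := by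
    rw [← intervalIntegral.integral_deriv_eq_sub (fun t _ => hϑ.differentiable (by norm_num) t)
      ((hϑ.continuous_deriv (by norm_num)).intervalIntegrable _ _)]
    refine intervalIntegral.integral_congr fun t _ => ?_
    rw [hQ0, hQ1, sub_zero]
  have hfin2 : ∫ t in (0 : ℝ)..1, (tw_W h u (1, 0) (t, 1) - tw_W h u (1, 0) (t, 0)) = 0 := by
    simp only [hP0, hP1, sub_self, intervalIntegral.integral_zero]
  rw [hfin1, hfin2, sub_zero] at hg
  unfold Deg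
  rw [tw_int_sub (tw_cont hh') (tw_cont hh), ← hg, ← intervalIntegral.integral_const_mul]
  refine intervalIntegral.integral_congr fun x _ => ?_
  rw [← intervalIntegral.integral_const_mul]
  refine intervalIntegral.integral_congr fun y _ => ?_
  exact tw_point hh h1 hO hC hCO hu hu1 htw hout (x, y)

end Pool.Agent.H86.Nco
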