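import Pool.Agent.H86.Nco.EvenA
import Pool.Agent.H86.Nco.EvenB
import Pool.Agent.H86.Nco.EvenC

/-!
# Module EVEN: the tangent bundle of an oriented surface has even degree on every sphere

Assembly.  `C = Set.range s` is compact (`s` is constant outside the unit square).  Take `δ` from
`exists_goodDelta`.  `H (p, q, t) = hh δ R J (s (p q, t)) (s (q, t)) (E (p q, t))` is smooth with values
in the unit sphere (`contDiff_hh`).  Let `h' x = hh δ R J p₀ (s x) e₀` and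
`h x = hh δ R J (s x) p₀ (E x)`.  Both are `SphC` with base value `(0, 1)` (`hh_self`).  Faces of the
cube: `H (0, q, t) = h' (q, t)`, `H (1, q, t) = (0, 1)`, `H (p, 0, t) = (0, 1)`, `H (p, 1, t) = h (p, t)`,
`H (p, q, 0) = H (p, q, 1) = (0, 1)` (`E (0, t) = e₀`, `s = p₀` outside `Sq`).  `tri_cube` gives
`- Deg h' - Deg h = 0`.  `tri_twist` with `u x = gg / ‖gg‖`, `gg = gg R J (s x) p₀ (E x) e₀` on
`O = {ipw (s x - p₀) (s x - p₀) < δ²}`, `C = {ipw (..) (..) ≤ 3/4 δ²}` gives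
`Deg h' - Deg h = -2 (ϑ 1 - ϑ 0) = - 4 π e` (`hh_swap`; for `x ∉ Sq` and on the sides `gg_self`).
So `Deg h' = - 2 π e`; `deg_int` gives `Deg h' = 4 π d`, so `e = - 2 d`.
-/

open scoped Manifold ContDiff Bundle Topology

noncomputable section

namespace Pool.Agent.H86.Nco

variable {W : Type*} [NormedAddCommGroup W] [NormedSpace ℝ W] [FiniteDimensional ℝ W]

private theorem face {H : ℝ × ℝ × ℝ → ℂ × ℝ} (hH : ContDiff ℝ ∞ H) (ι : ℝ × ℝ → ℝ × ℝ × ℝ)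
    (L : ℝ × ℝ →L[ℝ] ℝ × ℝ × ℝ) (x : ℝ × ℝ) (hι : HasFDerivAt ι L x) (h : ℝ × ℝ → ℂ × ℝ)
    (hh : ∀ x, H (ι x) = h x) (v : ℝ × ℝ) : fderiv ℝ H (ι x) (L v) = fderiv ℝ h x v := by
  have e : h = H ∘ ι := funext fun x => (hh x).symm
  have h1 : HasFDerivAt H (fderiv ℝ H (ι x)) (ι x) :=
    ((hH.differentiable (by simp)).differentiableAt (x := ι x)).hasFDerivAt
  have h2 := h1.comp x hι
  rw [e, h2.fderiv]
  rfl

private theorem face1 {H : ℝ × ℝ × ℝ → ℂ × ℝ} (hH : ContDiff ℝ ∞ H) (p : ℝ) (h : ℝ × ℝ → ℂ × ℝ)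
    (hh : ∀ x : ℝ × ℝ, H (p, x.1, x.2) = h x) (y z : ℝ) :
    tri (H (p, y, z)) (fderiv ℝ H (p, y, z) (0, 1, 0)) (fderiv ℝ H (p, y, z) (0, 0, 1))
      = tri (h (y, z)) (fderiv ℝ h (y, z) (1, 0)) (fderiv ℝ h (y, z) (0, 1)) := by
  have hι : HasFDerivAt (fun x : ℝ × ℝ => ((p, x.1, x.2) : ℝ × ℝ × ℝ))
      ((0 : ℝ × ℝ →L[ℝ] ℝ).prod
        ((ContinuousLinearMap.fst ℝ ℝ ℝ).prod (ContinuousLinearMap.snd ℝ ℝ ℝ))) (y, z) :=
    (hasFDerivAt_const p _).prodMk (hasFDerivAt_fst.prodMk hasFDerivAt_snd)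
  rw [← face hH _ _ _ hι h hh (1, 0), ← face hH _ _ _ hι h hh (0, 1), ← hh (y, z)]
  simp

private theorem face2 {H : ℝ × ℝ × ℝ → ℂ × ℝ} (hH : ContDiff ℝ ∞ H) (p : ℝ) (h : ℝ × ℝ → ℂ × ℝ)
    (hh : ∀ x : ℝ × ℝ, H (x.1, p, x.2) = h x) (y z : ℝ) :
    tri (H (y, p, z)) (fderiv ℝ H (y, p, z) (1, 0, 0)) (fderiv ℝ H (y, p, z) (0, 0, 1))
      = tri (h (y, z)) (fderiv ℝ h (y, z) (1, 0)) (fderiv ℝ h (y, z) (0, 1)) := by
  have hι : HasFDerivAt (fun x : ℝ × ℝ => ((x.1, p, x.2) : ℝ × ℝ × ℝ))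
      ((ContinuousLinearMap.fst ℝ ℝ ℝ).prod
        ((0 : ℝ × ℝ →L[ℝ] ℝ).prod (ContinuousLinearMap.snd ℝ ℝ ℝ))) (y, z) :=
    hasFDerivAt_fst.prodMk ((hasFDerivAt_const p _).prodMk hasFDerivAt_snd)
  rw [← face hH _ _ _ hι h hh (1, 0), ← face hH _ _ _ hι h hh (0, 1), ← hh (y, z)]
  simp

private theorem face3 {H : ℝ × ℝ × ℝ → ℂ × ℝ} (hH : ContDiff ℝ ∞ H) (p : ℝ) (h : ℝ × ℝ → ℂ × ℝ)
    (hh : ∀ x : ℝ × ℝ, H (x.1, x.2, p) = h x) (y z : ℝ) :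
    tri (H (y, z, p)) (fderiv ℝ H (y, z, p) (1, 0, 0)) (fderiv ℝ H (y, z, p) (0, 1, 0))
      = tri (h (y, z)) (fderiv ℝ h (y, z) (1, 0)) (fderiv ℝ h (y, z) (0, 1)) := by
  have hι : HasFDerivAt (fun x : ℝ × ℝ => ((x.1, x.2, p) : ℝ × ℝ × ℝ))
      ((ContinuousLinearMap.fst ℝ ℝ ℝ).prod
        ((ContinuousLinearMap.snd ℝ ℝ ℝ).prod (0 : ℝ × ℝ →L[ℝ] ℝ))) (y, z) :=
    hasFDerivAt_fst.prodMk (hasFDerivAt_snd.prodMk (hasFDerivAt_const p _))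
  rw [← face hH _ _ _ hι h hh (1, 0), ← face hH _ _ _ hι h hh (0, 1), ← hh (y, z)]
  simp

private theorem tri_const (c : ℂ × ℝ) (x : ℝ × ℝ) :
    tri ((fun _ : ℝ × ℝ => c) x) (fderiv ℝ (fun _ : ℝ × ℝ => c) x (1, 0))
      (fderiv ℝ (fun _ : ℝ × ℝ => c) x (0, 1)) = 0 := by
  simp [tri]

private theorem ipw_self_neg (X Y : W) : ipw (X - Y) (X - Y) = ipw (Y - X) (Y - X) := by
  unfold ipw
  rw [← neg_sub Y X, map_neg, inner_neg_neg]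

private theorem ipw_zero : ipw (0 : W) 0 = 0 := by
  unfold ipw
  rw [map_zero, inner_zero_left]

private theorem continuous_ipw (p₀ : W) {s : ℝ × ℝ → W} (hs : Continuous s) :
    Continuous fun x => ipw (s x - p₀) (s x - p₀) := by
  unfold ipw
  have h1 : Continuous fun x => toEuclidean (s x - p₀) :=
    (toEuclidean (E := W)).continuous.comp (hs.sub continuous_const)
  exact h1.inner h1

private theorem hh_far {δ : ℝ} (hδ : 0 < δ) (R : W → W) (J : W → W →L[ℝ] W) (X Y a : W)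
    (h : 3 / 4 * δ ^ 2 < ipw (X - Y) (X - Y)) : hh δ R J X Y a = (0, -1) := by
  unfold hh
  split_ifs with h1
  · have h2 : bst (ipw (X - Y) (X - Y) / δ ^ 2) = 1 := by
      unfold bst
      apply Real.smoothTransition.one_of_one_le
      have h3 : 3 / 4 < ipw (X - Y) (X - Y) / δ ^ 2 := by
        rw [lt_div_iff₀ (by positivity)]
        exact h
      linarith
    rw [h2, mul_one, Real.sin_pi, Real.cos_pi, zero_div, zero_smul]
  · rfl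

theorem even_of_section {U : Set W} {R : W → W} {J : W → W →L[ℝ] W} (hD : RetData U R J)
    (s E : ℝ × ℝ → W) (p₀ e₀ : W) (hs : ContDiff ℝ ∞ s) (hsU : ∀ x, s x ∈ U)
    (hsR : ∀ x, R (s x) = s x) (hs0 : ∀ x, x ∉ Sq → s x = p₀) (hE : ContDiff ℝ ∞ E)
    (hEr : ∀ x, E x ∈ LinearMap.range (fderiv ℝ R (s x) : W →ₗ[ℝ] W)) (hE0 : ∀ x, E x ≠ 0)
    (hEc : ∀ x, x.1 ≤ 0 ∨ x.2 ≤ 0 ∨ 1 ≤ x.2 → E x = e₀)
    (ϑ : ℝ → ℝ) (hϑ : ContDiff ℝ ∞ ϑ) (hϑ0 : ϑ 0 = 0) (e : ℤ) (hϑ1 : ϑ 1 = 2 * Real.pi * e)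
    (hE1 : ∀ t, E (1, t) = Real.cos (ϑ t) • e₀ + Real.sin (ϑ t) • J p₀ e₀) : Even e := by
  -- the square
  have hn1 : ∀ x : ℝ × ℝ, x.1 ≤ 0 → x ∉ Sq := fun x hx hx' => absurd hx'.1.1 (not_lt.mpr hx)
  have hn2 : ∀ x : ℝ × ℝ, 1 ≤ x.1 → x ∉ Sq := fun x hx hx' => absurd hx'.1.2 (not_lt.mpr hx)
  have hn3 : ∀ x : ℝ × ℝ, x.2 ≤ 0 → x ∉ Sq := fun x hx hx' => absurd hx'.2.1 (not_lt.mpr hx)
  have hn4 : ∀ x : ℝ × ℝ, 1 ≤ x.2 → x ∉ Sq := fun x hx hx' => absurd hx'.2.2 (not_lt.mpr hx)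
  -- the compact set
  have hC : IsCompact (Set.range s) := by
    have h1 : Set.range s = s '' (Set.Icc (0 : ℝ) 1 ×ˢ Set.Icc (0 : ℝ) 1) := by
      apply Set.Subset.antisymm
      · rintro _ ⟨x, rfl⟩
        by_cases hx : x ∈ Sq
        · exact ⟨x, ⟨Set.Ioo_subset_Icc_self hx.1, Set.Ioo_subset_Icc_self hx.2⟩, rfl⟩
        · refine ⟨(0, 0), ⟨by simp, by simp⟩, ?_⟩
          rw [hs0 x hx, hs0 (0, 0) (hn1 _ le_rfl)]
      · exact Set.image_subset_range _ _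
    rw [h1]
    exact (isCompact_Icc.prod isCompact_Icc).image hs.continuous
  have hCU : ∀ p ∈ Set.range s, p ∈ U ∧ R p = p := by
    rintro _ ⟨x, rfl⟩
    exact ⟨hsU x, hsR x⟩
  obtain ⟨δ, hδ⟩ := exists_goodDelta hD hC hCU
  have hδ0 : 0 < δ := hδ.1
  have hp₀ : p₀ = s (0, 0) := (hs0 (0, 0) (hn1 _ le_rfl)).symm
  have he₀ : e₀ = E (0, 0) := (hEc (0, 0) (Or.inl le_rfl)).symm
  have hp₀C : p₀ ∈ Set.range s := ⟨(0, 0), hp₀.symm⟩
  have he₀r : e₀ ∈ LinearMap.range (fderiv ℝ R p₀ : W →ₗ[ℝ] W) := by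
    rw [he₀, hp₀]
    exact hEr _
  have he₀0 : e₀ ≠ 0 := by
    rw [he₀]
    exact hE0 _
  -- the homotopy
  have hc1 : ContDiff ℝ ∞ fun x : ℝ × ℝ × ℝ => ((x.1 * x.2.1, x.2.2) : ℝ × ℝ) := by
    fun_prop
  have hc2 : ContDiff ℝ ∞ fun x : ℝ × ℝ × ℝ => ((x.2.1, x.2.2) : ℝ × ℝ) := by
    fun_prop
  obtain ⟨hH, hH1⟩ := contDiff_hh hD hCU hδ (hs.comp hc1) (hs.comp hc2) (hE.comp hc1)
    (fun p => Set.mem_range_self _) (fun p => Set.mem_range_self _) (fun p => hEr _)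
    (fun p => hE0 _)
  obtain ⟨hh1, hh1'⟩ := contDiff_hh hD hCU hδ hs (contDiff_const (c := p₀)) hE
    (fun p => Set.mem_range_self _) (fun p => hp₀C) (fun p => hEr _) (fun p => hE0 _)
  obtain ⟨hh2, hh2'⟩ := contDiff_hh hD hCU hδ (contDiff_const (c := p₀)) hs
    (contDiff_const (c := e₀)) (fun p => hp₀C) (fun p => Set.mem_range_self _) (fun p => he₀r)
    (fun p => he₀0)
  set H : ℝ × ℝ × ℝ → ℂ × ℝ := fun p => hh δ R J
    ((s ∘ fun x : ℝ × ℝ × ℝ => ((x.1 * x.2.1, x.2.2) : ℝ × ℝ)) p)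
    ((s ∘ fun x : ℝ × ℝ × ℝ => ((x.2.1, x.2.2) : ℝ × ℝ)) p)
    ((E ∘ fun x : ℝ × ℝ × ℝ => ((x.1 * x.2.1, x.2.2) : ℝ × ℝ)) p) with hHdef
  have hHap : ∀ a b c, H (a, b, c) = hh δ R J (s (a * b, c)) (s (b, c)) (E (a * b, c)) :=
    fun a b c => rfl
  set h : ℝ × ℝ → ℂ × ℝ := fun x => hh δ R J (s x) p₀ (E x) with hhdef
  set h' : ℝ × ℝ → ℂ × ℝ := fun x => hh δ R J p₀ (s x) e₀ with hh'def
  have f10 : ∀ x : ℝ × ℝ, H (0, x.1, x.2) = h' x := by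
    intro x
    rw [hHap, zero_mul, hs0 (0, x.2) (hn1 _ le_rfl), hEc (0, x.2) (Or.inl le_rfl)]
  have f11 : ∀ x : ℝ × ℝ, H (1, x.1, x.2) = (fun _ : ℝ × ℝ => ((0, 1) : ℂ × ℝ)) x := by
    intro x
    rw [hHap, one_mul, hh_self hδ0]
  have f20 : ∀ x : ℝ × ℝ, H (x.1, 0, x.2) = (fun _ : ℝ × ℝ => ((0, 1) : ℂ × ℝ)) x := by
    intro x
    rw [hHap, mul_zero, hh_self hδ0]
  have f21 : ∀ x : ℝ × ℝ, H (x.1, 1, x.2) = h x := by
    intro x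
    rw [hHap, mul_one, hs0 (1, x.2) (hn2 _ le_rfl)]
  have f30 : ∀ x : ℝ × ℝ, H (x.1, x.2, 0) = (fun _ : ℝ × ℝ => ((0, 1) : ℂ × ℝ)) x := by
    intro x
    rw [hHap, hs0 _ (hn3 (x.1 * x.2, 0) le_rfl), hs0 _ (hn3 (x.2, 0) le_rfl), hh_self hδ0]
  have f31 : ∀ x : ℝ × ℝ, H (x.1, x.2, 1) = (fun _ : ℝ × ℝ => ((0, 1) : ℂ × ℝ)) x := by
    intro x
    rw [hHap, hs0 _ (hn4 (x.1 * x.2, 1) le_rfl), hs0 _ (hn4 (x.2, 1) le_rfl), hh_self hδ0]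
  have key := tri_cube H hH hH1
  simp only [face1 hH 0 h' f10, face1 hH 1 _ f11, face2 hH 0 _ f20, face2 hH 1 h f21,
    face3 hH 0 _ f30, face3 hH 1 _ f31, tri_const, sub_zero, zero_sub,
    intervalIntegral.integral_neg, intervalIntegral.integral_zero, add_zero] at key
  have k1 : - Deg h' - Deg h = 0 := key
  -- the twist
  have hSph' : SphC h' (0, 1) := by
    refine ⟨hh2, hh2', ?_⟩
    intro x hx
    simp only [hh'def]
    rw [hs0 x hx, hh_self hδ0]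
  obtain ⟨hg, hg0⟩ := contDiffOn_gg hD hCU hδ hs (contDiff_const (c := p₀)) hE
    (contDiff_const (c := e₀)) (fun p => Set.mem_range_self _) (fun p => hp₀C) (fun p => hEr _)
    (fun p => hE0 _) (fun p => he₀r) (fun p => he₀0)
  set g : ℝ × ℝ → ℂ := fun x => gg R J (s x) p₀ (E x) e₀ with hgdef
  set u : ℝ × ℝ → ℂ := fun x => ((‖g x‖⁻¹ : ℝ) : ℂ) * g x with hudef
  have hgs : ∀ t : ℝ, gg R J p₀ p₀ (Real.cos t • e₀ + Real.sin t • J p₀ e₀) e₀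
      = Complex.exp (t * Complex.I) := by
    intro t
    exact gg_self hD (hCU p₀ hp₀C).1 (hCU p₀ hp₀C).2 he₀r he₀0 t
  have hcip := continuous_ipw p₀ hs.continuous
  have k2 : Deg h' - Deg h = -2 * (ϑ 1 - ϑ 0) := by
    apply tri_twist h h' hh1 hh2 hh1' {x | ipw (s x - p₀) (s x - p₀) < δ ^ 2}
      {x | ipw (s x - p₀) (s x - p₀) ≤ 3 / 4 * δ ^ 2} (isOpen_lt hcip continuous_const)
      (isClosed_le hcip continuous_const) ?_ u ?_ ?_ ?_ ?_ ?_ ?_ ϑ hϑ ?_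
    · intro x hx
      have hx' : ipw (s x - p₀) (s x - p₀) ≤ 3 / 4 * δ ^ 2 := hx
      have : 0 < δ ^ 2 := by positivity
      show ipw (s x - p₀) (s x - p₀) < δ ^ 2
      linarith
    · have h1 : ContDiffOn ℝ ∞ (fun x => ‖g x‖) {x | ipw (s x - p₀) (s x - p₀) < δ ^ 2} :=
        hg.norm ℝ hg0
      have h2 : ContDiffOn ℝ ∞ (fun x => (‖g x‖)⁻¹) {x | ipw (s x - p₀) (s x - p₀) < δ ^ 2} :=
        h1.inv fun x hx => norm_ne_zero_iff.mpr (hg0 x hx)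
      have h3 : ContDiffOn ℝ ∞ (fun x => (((‖g x‖)⁻¹ : ℝ) : ℂ))
          {x | ipw (s x - p₀) (s x - p₀) < δ ^ 2} :=
        Complex.ofRealCLM.contDiff.comp_contDiffOn h2
      exact h3.mul hg
    · intro x hx
      simp only [hudef]
      rw [norm_mul, Complex.norm_real, norm_inv, norm_norm]
      exact inv_mul_cancel₀ (norm_ne_zero_iff.mpr (hg0 x hx))
    · intro x hx
      have h1 := hh_swap hD hCU hδ (Set.mem_range_self x) hp₀C hx (hEr x) (hE0 x) he₀r he₀0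
      exact h1
    · intro x hx
      have h1 : 3 / 4 * δ ^ 2 < ipw (s x - p₀) (s x - p₀) := not_le.mp hx
      refine ⟨hh_far hδ0 R J _ _ _ h1, hh_far hδ0 R J _ _ _ ?_⟩
      rw [ipw_self_neg]
      exact h1
    · intro x hx
      refine ⟨?_, ?_⟩
      · show ipw (s x - p₀) (s x - p₀) < δ ^ 2
        rw [hs0 x hx, sub_self, ipw_zero]
        positivity
      · simp only [hhdef]
        rw [hs0 x hx, hh_self hδ0]
    · intro x hx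
      have hx' : x ∉ Sq := by
        rcases hx with hx | hx | hx
        · exact hn1 x hx
        · exact hn3 x hx
        · exact hn4 x hx
      have h1 := hgs 0
      rw [Real.cos_zero, Real.sin_zero, one_smul, zero_smul, add_zero, Complex.ofReal_zero,
        zero_mul, Complex.exp_zero] at h1
      simp only [hudef, hgdef]
      rw [hs0 x hx', hEc x hx, h1]
      simp
    · intro t
      simp only [hudef, hgdef]
      rw [hs0 (1, t) (hn2 _ le_rfl), hE1 t, hgs (ϑ t), Complex.norm_exp_ofReal_mul_I]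
      simp
  obtain ⟨d, hd⟩ := deg_int hSph'
  have hpi := Real.pi_pos
  rw [hϑ0, hϑ1] at k2
  have k3 : Deg h' = - 2 * Real.pi * e := by linarith
  have k4 : 4 * Real.pi * (d : ℝ) = - 2 * Real.pi * (e : ℝ) := by rw [← hd, k3]
  have k5 : (e : ℝ) = -2 * d := by
    have h6 : 2 * Real.pi * ((e : ℝ) + 2 * d) = 0 := by linarith
    have h7 : (e : ℝ) + 2 * d = 0 := by
      rcases mul_eq_zero.mp h6 with h | h
      · exact absurd h (by positivity)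
      · exact h
    linarith
  have k6 : e = -2 * d := by exact_mod_cast k5
  exact ⟨-d, by rw [k6]; ring⟩

end Pool.Agent.H86.Nco
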