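import Pool.Agent.H86.Nco.EvenDefs

/-!
# Module EVENA: existence of a good `δ`

`ipw (v) (v)` is the square of a norm equivalent to `‖v‖`.  For `p ∈ U` with `R p = p` the map
`A_p = fderiv ℝ R p` satisfies `A_p ∘ A_p = A_p` (chain rule for `R ∘ R = R`).  `p ↦ A_p` is continuous
on `U`, hence uniformly continuous near the compact set `C`: there is `δ₁` such that for all
`X ∈ C` and all `p, p'` in the `δ₁`-neighbourhood of `X` (contained in `U`)
`‖A_p - A_{p'}‖ ≤ 1/4` and `R p` is close to `X`.  For `X, Y ∈ C` close to each other,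
`Y - X = R Y - R X = ∫ A_{X + τ (Y - X)} (Y - X) dτ` (or the mean value inequality
`Convex.norm_image_sub_le_of_norm_fderiv_le'` applied to `R - A_m` on a small ball), so
`‖A_m (Y - X) - (Y - X)‖ ≤ 1/4 ‖Y - X‖` for `m = mid R X Y`; so `A_m (Y - X) ≠ 0` if `X ≠ Y`.  For `v`
in the range of `A_X`: `‖A_m v - v‖ = ‖(A_m - A_X) v‖ ≤ 1/4 ‖v‖`.
-/

open scoped Manifold ContDiff Bundle Topology

noncomputable section

namespace Pool.Agent.H86.Nco

variable {W : Type*} [NormedAddCommGroup W] [NormedSpace ℝ W] [FiniteDimensional ℝ W]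

omit [NormedSpace ℝ W] [FiniteDimensional ℝ W] in
/-- Uniform continuity of a function near a compact set. -/
private theorem unif_near {V : Type*} [NormedAddCommGroup V] {C : Set W} (hC : IsCompact C)
    (g : W → V) (hg : ∀ p ∈ C, ContinuousAt g p) {ε : ℝ} (hε : 0 < ε) :
    ∃ δ, 0 < δ ∧ ∀ X ∈ C, ∀ p, ‖p - X‖ < δ → ‖g p - g X‖ < ε := by
  have h := hC.uniformContinuousAt_of_continuousAt g hg (Metric.dist_mem_uniformity hε)
  obtain ⟨δ, hδ, hsub⟩ := Metric.mem_uniformity_dist.mp h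
  refine ⟨δ, hδ, fun X hX p hp => ?_⟩
  have h1 : dist X p < δ := by
    rw [dist_comm, dist_eq_norm]
    exact hp
  have h2 : X ∈ C → dist (g X) (g p) < ε := hsub h1
  have h3 := h2 hX
  rwa [dist_comm, dist_eq_norm] at h3

omit [NormedSpace ℝ W] [FiniteDimensional ℝ W] in
/-- Neighbourhood of a compact subset of an open set. -/
private theorem open_near {C U : Set W} (hC : IsCompact C) (hU : IsOpen U) (hCU : C ⊆ U) :
    ∃ δ, 0 < δ ∧ ∀ X ∈ C, ∀ p, ‖p - X‖ < δ → p ∈ U := by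
  obtain ⟨δ, hδ, hsub⟩ := hC.exists_thickening_subset_open hU hCU
  refine ⟨δ, hδ, fun X hX p hp => hsub ?_⟩
  rw [Metric.mem_thickening_iff]
  exact ⟨X, hX, by rw [dist_eq_norm]; exact hp⟩

private theorem norm_le_ipw : ∃ K : ℝ, 0 < K ∧ ∀ v : W, ‖v‖ ≤ K * Real.sqrt (ipw v v) := by
  refine ⟨‖((toEuclidean (E := W)).symm : EuclideanSpace ℝ (Fin (Module.finrank ℝ W)) →L[ℝ] W)‖ + 1,
    by positivity, fun v => ?_⟩
  have h1 : Real.sqrt (ipw v v) = ‖toEuclidean v‖ := by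
    unfold ipw
    rw [real_inner_self_eq_norm_sq, Real.sqrt_sq (norm_nonneg _)]
  rw [h1]
  have h2 := ((toEuclidean (E := W)).symm :
    EuclideanSpace ℝ (Fin (Module.finrank ℝ W)) →L[ℝ] W).le_opNorm (toEuclidean v)
  have h3 : ((toEuclidean (E := W)).symm :
    EuclideanSpace ℝ (Fin (Module.finrank ℝ W)) →L[ℝ] W) (toEuclidean v) = v :=
    (toEuclidean (E := W)).symm_apply_apply v
  rw [h3] at h2
  refine h2.trans ?_
  apply mul_le_mul_of_nonneg_right _ (norm_nonneg _)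
  linarith

omit [NormedSpace ℝ W] [FiniteDimensional ℝ W] in
private theorem ne_zero_of_close {v w : W} {c : ℝ} (hc : c < 1) (hv : v ≠ 0)
    (h : ‖w - v‖ ≤ c * ‖v‖) : w ≠ 0 := by
  intro hw
  rw [hw, zero_sub, norm_neg] at h
  have h1 : 0 < ‖v‖ := norm_pos_iff.mpr hv
  nlinarith

theorem exists_goodDelta {U : Set W} {R : W → W} {J : W → W →L[ℝ] W} (hD : RetData U R J)
    {C : Set W} (hC : IsCompact C) (hCU : ∀ p ∈ C, p ∈ U ∧ R p = p) :
    ∃ δ, GoodDelta U R C δ := by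
  have hsub : C ⊆ U := fun p hp => (hCU p hp).1
  have hdiff : ∀ p ∈ U, DifferentiableAt ℝ R p := fun p hp =>
    (hD.smooth.contDiffAt (hD.isOpen.mem_nhds hp)).differentiableAt (by simp)
  have hcA : ∀ p ∈ C, ContinuousAt (fderiv ℝ R) p := fun p hp =>
    (hD.smooth.contDiffAt (hD.isOpen.mem_nhds (hsub hp))).continuousAt_fderiv (by simp)
  obtain ⟨δ₀, hδ₀, h0⟩ := open_near hC hD.isOpen hsub
  obtain ⟨δ₁, hδ₁, h1⟩ := unif_near hC (fderiv ℝ R) hcA (show (0 : ℝ) < 1 / 8 by norm_num)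
  obtain ⟨δ₂, hδ₂, h2⟩ := unif_near hC R (fun p hp => (hdiff p (hsub hp)).continuousAt) hδ₁
  obtain ⟨K, hK, hKi⟩ := norm_le_ipw (W := W)
  set ρ : ℝ := min δ₀ (min δ₁ δ₂) with hρ
  have hρ0 : 0 < ρ := lt_min hδ₀ (lt_min hδ₁ hδ₂)
  refine ⟨ρ / K, by positivity, ?_⟩
  intro X hX Y hY hXY
  have hXY' : ‖X - Y‖ < ρ := by
    have h3 : Real.sqrt (ipw (X - Y) (X - Y)) < ρ / K := by
      rw [Real.sqrt_lt' (by positivity)]
      exact hXY
    calc ‖X - Y‖ ≤ K * Real.sqrt (ipw (X - Y) (X - Y)) := hKi _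
      _ < K * (ρ / K) := mul_lt_mul_of_pos_left h3 hK
      _ = ρ := by field_simp
  have hYX : ‖Y - X‖ < ρ := by rw [norm_sub_rev]; exact hXY'
  have hm0 : ‖(1 / 2 : ℝ) • (X + Y) - X‖ < ρ := by
    have e1 : (1 / 2 : ℝ) • (X + Y) - X = (1 / 2 : ℝ) • (Y - X) := by
      module
    rw [e1, norm_smul]
    have : ‖(1 / 2 : ℝ)‖ = 1 / 2 := by norm_num
    rw [this]
    have := norm_nonneg (Y - X)
    linarith
  have hm1 : ‖mid R X Y - X‖ < δ₁ := by
    have h3 := h2 X hX ((1 / 2 : ℝ) • (X + Y))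
      (hm0.trans_le ((min_le_right _ _).trans (min_le_right _ _)))
    rw [(hCU X hX).2] at h3
    exact h3
  have hA := (h1 X hX _ hm1).le
  refine ⟨h0 X hX _ (hm0.trans_le (min_le_left _ _)), ?_, ?_⟩
  · intro hne
    have hne' : Y - X ≠ 0 := sub_ne_zero.mpr (Ne.symm hne)
    have h3 : ‖R Y - R X - fderiv ℝ R X (Y - X)‖ ≤ 1 / 8 * ‖Y - X‖ := by
      apply Convex.norm_image_sub_le_of_norm_fderiv_le' (𝕜 := ℝ) (s := Metric.ball X ρ)
      · intro p hp
        rw [Metric.mem_ball, dist_eq_norm] at hp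
        exact hdiff p (h0 X hX p (hp.trans_le (min_le_left _ _)))
      · intro p hp
        rw [Metric.mem_ball, dist_eq_norm] at hp
        exact (h1 X hX p (hp.trans_le ((min_le_right _ _).trans (min_le_left _ _)))).le
      · exact convex_ball X ρ
      · exact Metric.mem_ball_self hρ0
      · rw [Metric.mem_ball, dist_eq_norm]
        exact hYX
    rw [(hCU X hX).2, (hCU Y hY).2] at h3
    apply ne_zero_of_close (c := 1 / 4) (by norm_num) hne'
    have e1 : fderiv ℝ R (mid R X Y) (Y - X) - (Y - X)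
        = (fderiv ℝ R (mid R X Y) - fderiv ℝ R X) (Y - X) - ((Y - X) - fderiv ℝ R X (Y - X)) := by
      rw [sub_apply]
      abel
    rw [e1]
    have h4 : ‖(fderiv ℝ R (mid R X Y) - fderiv ℝ R X) (Y - X)‖ ≤ 1 / 8 * ‖Y - X‖ :=
      (ContinuousLinearMap.le_opNorm _ _).trans (mul_le_mul_of_nonneg_right hA (norm_nonneg _))
    have h5 := norm_sub_le ((fderiv ℝ R (mid R X Y) - fderiv ℝ R X) (Y - X))
      ((Y - X) - fderiv ℝ R X (Y - X))
    linarith
  · intro v hv hv0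
    obtain ⟨w, hw⟩ := hv
    have hXU := hsub hX
    have hchain : fderiv ℝ R X (fderiv ℝ R X w) = fderiv ℝ R X w := by
      have e1 : (R ∘ R) =ᶠ[𝓝 X] R := by
        filter_upwards [hD.isOpen.mem_nhds hXU] with p hp
        exact hD.retr p hp
      have e2 : fderiv ℝ (R ∘ R) X = fderiv ℝ R X := e1.fderiv_eq
      have e3 : fderiv ℝ (R ∘ R) X = (fderiv ℝ R (R X)).comp (fderiv ℝ R X) :=
        fderiv_comp X (by rw [(hCU X hX).2]; exact hdiff X hXU) (hdiff X hXU)
      rw [(hCU X hX).2] at e3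
      rw [e3] at e2
      exact DFunLike.congr_fun e2 w
    have hAv : fderiv ℝ R X v = v := by
      rw [← hw]
      exact hchain
    apply ne_zero_of_close (c := 1 / 8) (by norm_num) hv0
    have e1 : fderiv ℝ R (mid R X Y) v - v = (fderiv ℝ R (mid R X Y) - fderiv ℝ R X) v := by
      rw [sub_apply, hAv]
    rw [e1]
    exact (ContinuousLinearMap.le_opNorm _ _).trans (mul_le_mul_of_nonneg_right hA (norm_nonneg _))

end Pool.Agent.H86.Nco
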