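import Mathlib

/-!
# Definitions for the lemma EVEN

`W` is a finite dimensional space, `R` a smooth retraction of an open set `U` whose fixed point set
is a surface with a complex structure `J` on its tangent planes `range (fderiv ℝ R p)`.
For two points `X, Y` of the surface which are close to each other let `m = R ((X + Y) / 2)`,
`A = fderiv ℝ R m` (the projection to the tangent plane at `m`).  The vector `A (Y - X)` is written as
`ζ • A a` with a complex number `ζ = zz R J X Y a`, where `a` is a nonzero tangent vector at `X`.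
`hh` is the map `(X, Y, a) ↦ (sin (π β) ζ / ‖ζ‖, cos (π β))` to the unit sphere, `β` a function of the
distance of `X` and `Y` which is `0` near the diagonal and `1` away from it.
-/

open scoped Manifold ContDiff Bundle Topology

noncomputable section

namespace Pool.Agent.H86.Nco

variable {W : Type*} [NormedAddCommGroup W] [NormedSpace ℝ W] [FiniteDimensional ℝ W]

/-- A smooth retraction with fixed point set a surface, with a complex structure on its tangent
planes. -/
structure RetData (U : Set W) (R : W → W) (J : W → W →L[ℝ] W) : Prop where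
  isOpen : IsOpen U
  smooth : ContDiffOn ℝ ∞ R U
  maps : ∀ p ∈ U, R p ∈ U
  retr : ∀ p ∈ U, R (R p) = R p
  smoothJ : ContDiffOn ℝ ∞ J U
  rank : ∀ p ∈ U, R p = p → Module.finrank ℝ (LinearMap.range (fderiv ℝ R p : W →ₗ[ℝ] W)) = 2
  cplx : ∀ p ∈ U, R p = p → ∀ v,
    J p (fderiv ℝ R p v) ∈ LinearMap.range (fderiv ℝ R p : W →ₗ[ℝ] W) ∧
    J p (J p (fderiv ℝ R p v)) = - fderiv ℝ R p v

/-- a Euclidean inner product on `W` -/
def ipw (a b : W) : ℝ := inner ℝ (toEuclidean a) (toEuclidean b)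

/-- the complex coordinate `ζ` of a vector `w = re ζ • a + im ζ • b` of the plane spanned by `a, b` -/
def zet (a b w : W) : ℂ :=
  ⟨(ipw w a * ipw b b - ipw w b * ipw a b) / (ipw a a * ipw b b - ipw a b ^ 2),
    (ipw w b * ipw a a - ipw w a * ipw a b) / (ipw a a * ipw b b - ipw a b ^ 2)⟩

/-- the projected midpoint -/
def mid (R : W → W) (X Y : W) : W := R ((1 / 2 : ℝ) • (X + Y))

/-- the complex coordinate of the direction from `X` to `Y` with respect to `a` -/
def zz (R : W → W) (J : W → W →L[ℝ] W) (X Y a : W) : ℂ :=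
  zet (fderiv ℝ R (mid R X Y) a) (J (mid R X Y) (fderiv ℝ R (mid R X Y) a))
    (fderiv ℝ R (mid R X Y) (Y - X))

/-- the complex coordinate of `a` with respect to `b` -/
def gg (R : W → W) (J : W → W →L[ℝ] W) (X Y a b : W) : ℂ :=
  zet (fderiv ℝ R (mid R X Y) b) (J (mid R X Y) (fderiv ℝ R (mid R X Y) b))
    (fderiv ℝ R (mid R X Y) a)

/-- a smooth step function: `0` for `u ≤ 1/4`, `1` for `u ≥ 3/4` -/
def bst (u : ℝ) : ℝ := Real.smoothTransition (2 * u - 1 / 2)

open Classical in
/-- the collapse map -/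
def hh (δ : ℝ) (R : W → W) (J : W → W →L[ℝ] W) (X Y a : W) : ℂ × ℝ :=
  if ipw (X - Y) (X - Y) < δ ^ 2 then
    ((Real.sin (Real.pi * bst (ipw (X - Y) (X - Y) / δ ^ 2)) / ‖zz R J X Y a‖ : ℝ) • zz R J X Y a,
      Real.cos (Real.pi * bst (ipw (X - Y) (X - Y) / δ ^ 2)))
  else (0, -1)

/-- `δ` is small enough for the compact subset `C` of the surface -/
def GoodDelta (U : Set W) (R : W → W) (C : Set W) (δ : ℝ) : Prop :=
  0 < δ ∧ ∀ X ∈ C, ∀ Y ∈ C, ipw (X - Y) (X - Y) < δ ^ 2 →
    (1 / 2 : ℝ) • (X + Y) ∈ U ∧ (X ≠ Y → fderiv ℝ R (mid R X Y) (Y - X) ≠ 0) ∧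
    ∀ v ∈ LinearMap.range (fderiv ℝ R X : W →ₗ[ℝ] W), v ≠ 0 → fderiv ℝ R (mid R X Y) v ≠ 0

end Pool.Agent.H86.Nco
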