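import Pool.Agent.H86.Nco.Hopf
import Pool.Agent.H86.Nco.BaseLem

/-!
# Module F0: the closed two-form `f₀` = (pull back of the area form of `S²`) / (4 π)

`f₀.val i y u v = tri (pr (Par i y)) (pr (DPar u)) (pr (DPar v)) / (4 π)`.  Compatibility: `Par_tr`,
`fderiv_Par_tr`.  `d2 = 0`: the derivative of `tri (q y) (Dq y u) (Dq y v)` in the direction `w`,
summed cyclically, is `3 tri (Dq w) (Dq u) (Dq v)` (the terms with second derivatives cancel), and
this is `0` since the three vectors are orthogonal to `q y ≠ 0` in the three dimensional space `ℂ × ℝ`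
(`‖(q y).1‖² + (q y).2² = 1`).  `wsq = 0`: all four vectors `Dq u_k` lie in a plane, where
`tri (q y) · ·` is a multiple of the determinant (Pluecker relation; `tri q a b` for `a, b` orthogonal
to the unit vector `q`).  `Per`: by `amb_eq`/`amb_Par` (with `tan_of_map`) the integrand of `Per f₀ s`
is `tri (pr s) (pr ∂₁s) (pr ∂₂s) / (4 π)`, and `∂_k (pr ∘ s) = pr ∂_k s` because `pr` is linear.
-/

open scoped Manifold ContDiff Bundle Topology

noncomputable section

namespace Pool.Agent.H86.Nco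

open Pool.Agent.H86.Anco

namespace F0

section Gen

variable {X W : Type*} [NormedAddCommGroup X] [NormedSpace ℝ X]
  [NormedAddCommGroup W] [NormedSpace ℝ W]

/-- pull back of a bilinear form depending on the point -/
def gval (T : W →L[ℝ] W →L[ℝ] W →L[ℝ] ℝ) (c : ℝ) (a : X → W) (D : X → X →L[ℝ] W) (y : X) :
    X →L[ℝ] X →L[ℝ] ℝ :=
  c • ((((T (a y)).comp (D y)).flip).comp (D y)).flip

lemma gval_apply (T : W →L[ℝ] W →L[ℝ] W →L[ℝ] ℝ) (c : ℝ) (a : X → W) (D : X → X →L[ℝ] W)
    (y u v : X) : gval T c a D y u v = c * T (a y) (D y u) (D y v) := rfl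

lemma gval_contDiff [FiniteDimensional ℝ X] (T : W →L[ℝ] W →L[ℝ] W →L[ℝ] ℝ) (c : ℝ) {a : X → W}
    {D : X → X →L[ℝ] W}
    (ha : ContDiff ℝ ∞ a) (hD : ContDiff ℝ ∞ D) : ContDiff ℝ ∞ (gval T c a D) := by
  rw [contDiff_clm_apply_iff]
  intro u
  rw [contDiff_clm_apply_iff]
  intro v
  simp only [gval_apply]
  have h1 : ContDiff ℝ ∞ (fun y : X => T (a y)) := contDiff_const.clm_apply ha
  have h2 : ∀ w : X, ContDiff ℝ ∞ (fun y : X => D y w) := fun w => hD.clm_apply contDiff_const
  exact contDiff_const.mul ((h1.clm_apply (h2 u)).clm_apply (h2 v))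

lemma eval_deriv {b : X → X →L[ℝ] X →L[ℝ] ℝ} {b' : X →L[ℝ] X →L[ℝ] X →L[ℝ] ℝ} {y : X}
    (hb : HasFDerivAt b b' y) (v w : X) :
    HasFDerivAt (fun z => b z v w) ((b'.flip v).flip w) y := by
  have h1 : HasFDerivAt (fun z => b z v) (b'.flip v) y := by
    have := hb.clm_apply (hasFDerivAt_const v y)
    simpa using this
  have := h1.clm_apply (hasFDerivAt_const w y)
  simpa using this

lemma gval_fderiv [FiniteDimensional ℝ X] (T : W →L[ℝ] W →L[ℝ] W →L[ℝ] ℝ) (c : ℝ) {a : X → W} {D : X → X →L[ℝ] W}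
    (ha : ContDiff ℝ ∞ a) (hD : ContDiff ℝ ∞ D) (y : X) (hay : HasFDerivAt a (D y) y)
    (u v w : X) :
    fderiv ℝ (gval T c a D) y u v w = c *
      (T (D y u) (D y v) (D y w) + T (a y) (fderiv ℝ D y u v) (D y w)
        + T (a y) (D y v) (fderiv ℝ D y u w)) := by
  have hv : HasFDerivAt (gval T c a D) (fderiv ℝ (gval T c a D) y) y :=
    (((gval_contDiff T c ha hD).differentiable (by simp)).differentiableAt).hasFDerivAt
  have e1 := eval_deriv hv v w
  have hDy : HasFDerivAt D (fderiv ℝ D y) y :=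
    ((hD.differentiable (by simp)).differentiableAt).hasFDerivAt
  have hT : HasFDerivAt (fun w : W => T w) T (a y) :=
    ContinuousLinearMap.hasFDerivAt (𝕜 := ℝ) (E := W) (F := W →L[ℝ] W →L[ℝ] ℝ) T
  have h1 := HasFDerivAt.comp (𝕜 := ℝ) (E := X) (F := W) (G := W →L[ℝ] W →L[ℝ] ℝ) y hT hay
  have h2 : ∀ x : X, HasFDerivAt (fun z => D z x) ((fderiv ℝ D y).flip x) y := fun x => by
    have := hDy.clm_apply (hasFDerivAt_const x y)
    simpa using this
  have h3 := ((h1.clm_apply (h2 v)).clm_apply (h2 w)).const_mul c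
  have e2 : (fun z => gval T c a D z v w) = fun z => c * T (a z) (D z v) (D z w) := rfl
  rw [e2] at e1
  have h5 := congrArg (fun L : X →L[ℝ] ℝ => L u) (HasFDerivAt.unique e1 h3)
  simp only [add_apply, smul_apply, ContinuousLinearMap.comp_apply,
    ContinuousLinearMap.flip_apply, smul_eq_mul, Function.comp_apply] at h5
  rw [h5]
  ring

end Gen

/-- the projection as a continuous linear map -/
def prL (K : ℕ) : V K →L[ℝ] ℂ × ℝ := pc.prod pd

lemma prL_apply {K : ℕ} (p : V K) : prL K p = pr p := rfl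

/-- `tri` as a trilinear map -/
def triL : (ℂ × ℝ) →L[ℝ] (ℂ × ℝ) →L[ℝ] (ℂ × ℝ) →L[ℝ] ℝ :=
  LinearMap.toContinuousLinearMap
    { toFun := fun p => LinearMap.toContinuousLinearMap
        { toFun := fun v => LinearMap.toContinuousLinearMap
            { toFun := fun w => tri p v w
              map_add' := by
                intro a b
                simp only [tri, Prod.fst_add, Prod.snd_add, Complex.add_re, Complex.add_im]
                ring
              map_smul' := by
                intro c a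
                simp only [tri, Prod.smul_fst, Prod.smul_snd, Complex.real_smul,
                  Complex.re_ofReal_mul, Complex.im_ofReal_mul, smul_eq_mul, RingHom.id_apply]
                ring }
          map_add' := by
            intro a b
            ext w
            all_goals
              simp [tri]
              try ring
          map_smul' := by
            intro c a
            ext w
            all_goals
              simp [tri]
              try ring }
      map_add' := by
        intro a b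
        ext v w
        all_goals
          simp [tri]
          try ring
      map_smul' := by
        intro c a
        ext v w
        all_goals
          simp [tri]
          try ring }

lemma triL_apply (p v w : ℂ × ℝ) : triL p v w = tri p v w := rfl

variable {K : ℕ}

/-- the map to `S²` in the chart `i` -/
def q (i : Ix) (y : E K) : ℂ × ℝ := prL K (Par i y)

def Dq (i : Ix) (y : E K) : E K →L[ℝ] ℂ × ℝ := (prL K).comp (fderiv ℝ (Par i) y)

lemma contDiff_q (i : Ix) : ContDiff ℝ ∞ (q i : E K → ℂ × ℝ) :=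
  (prL K).contDiff.comp (contDiff_Par i)

lemma contDiff_Dq (i : Ix) : ContDiff ℝ ∞ (Dq i : E K → E K →L[ℝ] ℂ × ℝ) :=
  contDiff_const.clm_comp ((contDiff_Par i).fderiv_right (m := ∞) (by simp))

lemma hasFDerivAt_q (i : Ix) (y : E K) : HasFDerivAt (q i) (Dq i y) y :=
  (prL K).hasFDerivAt.comp y
    (((contDiff_Par i).differentiable (by simp)).differentiableAt.hasFDerivAt)

lemma hasFDerivAt_Dq (i : Ix) (y : E K) : HasFDerivAt (Dq i) (fderiv ℝ (Dq i) y) y :=
  (((contDiff_Dq i).differentiable (by simp)).differentiableAt).hasFDerivAt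

lemma D2_symm (i : Ix) (y u v : E K) : fderiv ℝ (Dq i) y u v = fderiv ℝ (Dq i) y v u :=
  second_derivative_symmetric (hasFDerivAt_q i) (hasFDerivAt_Dq i y) u v

def val (i : Ix) : E K → Bil K := gval triL (4 * Real.pi)⁻¹ (q i) (Dq i)

lemma val_apply (i : Ix) (y u v : E K) :
    val i y u v = (4 * Real.pi)⁻¹ * triL (q i y) (Dq i y u) (Dq i y v) := rfl

lemma contDiff_val (i : Ix) : ContDiff ℝ ∞ (val i : E K → Bil K) :=
  gval_contDiff triL _ (contDiff_q i) (contDiff_Dq i)

lemma tri_swap (p v w : ℂ × ℝ) : tri p v w = - tri p w v := by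
  simp only [tri]; ring

lemma q_unit (i : Ix) (y : E K) :
    (q i y).1.re * (q i y).1.re + (q i y).1.im * (q i y).1.im + (q i y).2 * (q i y).2 = 1 := by
  have h := (Par_mem i y).1
  have h2 : ‖pc (Par i y)‖ ^ 2 = (q i y).1.re * (q i y).1.re + (q i y).1.im * (q i y).1.im := by
    rw [← Complex.normSq_eq_norm_sq, Complex.normSq_apply]; rfl
  have h3 : pd (Par i y) = (q i y).2 := rfl
  rw [h2, h3] at h
  linarith [h]

lemma q_orth (i : Ix) (y u : E K) :
    (q i y).1.re * (Dq i y u).1.re + (q i y).1.im * (Dq i y u).1.im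
      + (q i y).2 * (Dq i y u).2 = 0 := by
  have hq := hasFDerivAt_q i y
  have h1 : HasFDerivAt (fun z : E K => (q i z).1.re)
      ((Complex.reCLM.comp (ContinuousLinearMap.fst ℝ ℂ ℝ)).comp (Dq i y)) y :=
    (Complex.reCLM.comp (ContinuousLinearMap.fst ℝ ℂ ℝ)).hasFDerivAt.comp y hq
  have h2 : HasFDerivAt (fun z : E K => (q i z).1.im)
      ((Complex.imCLM.comp (ContinuousLinearMap.fst ℝ ℂ ℝ)).comp (Dq i y)) y :=
    (Complex.imCLM.comp (ContinuousLinearMap.fst ℝ ℂ ℝ)).hasFDerivAt.comp y hq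
  have h3 : HasFDerivAt (fun z : E K => (q i z).2)
      ((ContinuousLinearMap.snd ℝ ℂ ℝ).comp (Dq i y)) y :=
    (ContinuousLinearMap.snd ℝ ℂ ℝ).hasFDerivAt.comp y hq
  have h4 := ((h1.mul h1).add (h2.mul h2)).add (h3.mul h3)
  have h5 : HasFDerivAt (fun _ : E K => (1 : ℝ)) (0 : E K →L[ℝ] ℝ) y := hasFDerivAt_const _ _
  have h6 : (fun z : E K => (q i z).1.re * (q i z).1.re + (q i z).1.im * (q i z).1.im
      + (q i z).2 * (q i z).2) = fun _ => (1 : ℝ) := by
    funext z; exact q_unit i z
  have h7 := congrArg (fun L : E K →L[ℝ] ℝ => L u) (HasFDerivAt.unique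
    (h4.congr_of_eventuallyEq (Filter.Eventually.of_forall fun z => (congrFun h6 z).symm)) h5)
  simp only [add_apply, smul_apply,
    ContinuousLinearMap.comp_apply, Complex.reCLM_apply, Complex.imCLM_apply,
    ContinuousLinearMap.coe_fst', ContinuousLinearMap.coe_snd', smul_eq_mul,
    zero_apply] at h7
  linarith [h7]

lemma tri_zero {p a b c : ℂ × ℝ}
    (h1 : p.1.re * p.1.re + p.1.im * p.1.im + p.2 * p.2 = 1)
    (ha : p.1.re * a.1.re + p.1.im * a.1.im + p.2 * a.2 = 0)
    (hb : p.1.re * b.1.re + p.1.im * b.1.im + p.2 * b.2 = 0)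
    (hc : p.1.re * c.1.re + p.1.im * c.1.im + p.2 * c.2 = 0) : tri a b c = 0 := by
  have e : tri a b c * (p.1.re * p.1.re + p.1.im * p.1.im + p.2 * p.2)
      = (p.1.re * a.1.re + p.1.im * a.1.im + p.2 * a.2) * tri p b c
      + (p.1.re * b.1.re + p.1.im * b.1.im + p.2 * b.2) * tri p c a
      + (p.1.re * c.1.re + p.1.im * c.1.im + p.2 * c.2) * tri p a b := by
    simp only [tri]; ring
  rw [h1, ha, hb, hc] at e
  linarith

lemma fderiv_val (i : Ix) (y u v w : E K) :
    fderiv ℝ (val i) y u v w = (4 * Real.pi)⁻¹ *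
      (triL (Dq i y u) (Dq i y v) (Dq i y w) + triL (q i y) (fderiv ℝ (Dq i) y u v) (Dq i y w)
        + triL (q i y) (Dq i y v) (fderiv ℝ (Dq i) y u w)) :=
  gval_fderiv triL _ (contDiff_q i) (contDiff_Dq i) y (hasFDerivAt_q i y) u v w

lemma d2_val (i : Ix) (y u v w : E K) : d2 (val : Ix → E K → Bil K) i y u v w = 0 := by
  unfold d2
  rw [fderiv_val, fderiv_val, fderiv_val]
  have z1 := tri_zero (q_unit i y) (q_orth i y u) (q_orth i y v) (q_orth i y w)
  have z2 := tri_zero (q_unit i y) (q_orth i y v) (q_orth i y w) (q_orth i y u)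
  have z3 := tri_zero (q_unit i y) (q_orth i y w) (q_orth i y u) (q_orth i y v)
  rw [← triL_apply] at z1 z2 z3
  have s1 := tri_swap (q i y) (fderiv ℝ (Dq i) y u v) (Dq i y w)
  have s2 := tri_swap (q i y) (fderiv ℝ (Dq i) y v w) (Dq i y u)
  have s3 := tri_swap (q i y) (fderiv ℝ (Dq i) y w u) (Dq i y v)
  rw [← triL_apply, ← triL_apply] at s1 s2 s3
  rw [z1, z2, z3, s1, s2, s3, D2_symm i y u v, D2_symm i y v w, D2_symm i y w u]
  ring

lemma wsq_val (i : Ix) (y u₁ u₂ u₃ u₄ : E K) :
    wsq (val : Ix → E K → Bil K) i y u₁ u₂ u₃ u₄ = 0 := by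
  unfold wsq
  simp only [val_apply, triL_apply]
  generalize q i y = p
  generalize Dq i y u₁ = a
  generalize Dq i y u₂ = b
  generalize Dq i y u₃ = c
  generalize Dq i y u₄ = d
  simp only [tri]
  ring

lemma compat_val : Compat2 (val : Ix → E K → Bil K) := by
  intro i j y hy u v
  rw [val_apply, val_apply]
  have h1 : q j (tr i j y) = q i y := by
    unfold q; rw [Par_tr i j hy]
  have h2 : ∀ a, Dq j (tr i j y) (fderiv ℝ (tr i j) y a) = Dq i y a := by
    intro a
    unfold Dq
    rw [ContinuousLinearMap.comp_apply, ContinuousLinearMap.comp_apply, fderiv_Par_tr i j hy]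
  rw [h1, h2, h2]

/-- the form `f₀` -/
def f0 (K : ℕ) : Form2 K where
  val := val
  smooth := contDiff_val
  alt := by
    intro i y u v
    rw [val_apply, val_apply, triL_apply, triL_apply, tri_swap]
    ring
  compat := compat_val

lemma amb_f0 {p v w : V K} (hp : p ∈ carrier K) (hv : v ∈ Tan p) (hw : w ∈ Tan p) :
    amb (f0 K).val p v w = tri (pr p) (pr v) (pr w) / (4 * Real.pi) := by
  have h1 : Par (idx p) (Cor (idx p) p) = p := Par_Cor (idx p) hp (mem_Dom_idx p)
  have h2 : ∀ a ∈ Tan p, Dq (idx p) (Cor (idx p) p) (fderiv ℝ (Cor (idx p)) p a) = pr a := by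
    intro a ha
    unfold Dq
    rw [ContinuousLinearMap.comp_apply, fderiv_Par_Cor (idx p) hp (mem_Dom_idx p) ha, prL_apply]
  have h3 : q (idx p) (Cor (idx p) p) = pr p := by
    unfold q; rw [h1, prL_apply]
  show val (idx p) (Cor (idx p) p) _ _ = _
  rw [val_apply, h2 v hv, h2 w hw, h3, triL_apply]
  ring

end F0

open F0 in
theorem exists_f0 (K : ℕ) : ∃ f : Form2 K,
    (∀ i y u v w, d2 f.val i y u v w = 0) ∧
    (∀ i y u₁ u₂ u₃ u₄, wsq f.val i y u₁ u₂ u₃ u₄ = 0) ∧
    ∀ (p₀ : V K) (s : ℝ × ℝ → V K), Sph K p₀ s →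
      Per f.val s = Deg (fun x => pr (s x)) / (4 * Real.pi) := by
  refine ⟨f0 K, d2_val, wsq_val, ?_⟩
  intro p₀ s hs
  unfold Per Deg
  rw [← intervalIntegral.integral_div]
  refine intervalIntegral.integral_congr fun x _ => ?_
  rw [← intervalIntegral.integral_div]
  refine intervalIntegral.integral_congr fun y _ => ?_
  beta_reduce
  have hd : DifferentiableAt ℝ s (x, y) := (hs.smooth.differentiable (by simp)).differentiableAt
  have hT : ∀ w, fderiv ℝ s (x, y) w ∈ Tan (s (x, y)) := fun w =>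
    tan_of_map hd (Filter.Eventually.of_forall hs.mem) w
  have hpr : ∀ w, fderiv ℝ (fun x => pr (s x)) (x, y) w = pr (fderiv ℝ s (x, y) w) := by
    intro w
    have h : HasFDerivAt (fun x => prL K (s x)) ((prL K).comp (fderiv ℝ s (x, y))) (x, y) :=
      (prL K).hasFDerivAt.comp (x, y) hd.hasFDerivAt
    have h' : fderiv ℝ (fun x => pr (s x)) (x, y) = (prL K).comp (fderiv ℝ s (x, y)) := h.fderiv
    rw [h']
    rfl
  rw [amb_f0 (hs.mem _) (hT _) (hT _), hpr, hpr]

/-- the projection of a sphere in `M` to `S²` -/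
theorem sphC_pr {K : ℕ} {p₀ : V K} {s : ℝ × ℝ → V K} (hs : Sph K p₀ s) :
    SphC (fun x => pr (s x)) (pr p₀) where
  smooth := (F0.prL K).contDiff.comp hs.smooth
  mem := fun x => (hs.mem x).1
  out := fun x hx => by rw [hs.out x hx]

end Pool.Agent.H86.Nco
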