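import Pool.Agent.H86.Nco.Spin2b

/-!
# Module SPIN2, part c: the parallel section on the fourth side
-/

open scoped ContDiff Topology

noncomputable section

namespace Pool.Agent.H86.Nco.Sp2

variable {A : Type} [NormedRing A] [NormedAlgebra ℝ A]

/-- `exp (s u)` for `u² = -1` -/
def Rr (u : A) (s : ℝ) : A := Real.cos s • (1 : A) + Real.sin s • u

theorem Rr_zero (u : A) : Rr u 0 = 1 := by simp [Rr]

theorem Rr_hasDerivAt {u : A} (hu : u * u = -1) {f : ℝ → ℝ} {f' t : ℝ} (hf : HasDerivAt f f' t) :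
    HasDerivAt (fun s => Rr u (f s)) (f' • (u * Rr u (f t))) t := by
  have h1 := (hf.cos.smul_const (1 : A)).add (hf.sin.smul_const u)
  refine h1.congr_deriv ?_
  unfold Rr
  rw [mul_add, mul_smul_comm, mul_smul_comm, hu, mul_one]
  module

theorem Rr_comm {u v : A} (h : u * v = v * u) (s : ℝ) : u * Rr v s = Rr v s * u := by
  unfold Rr
  rw [mul_add, add_mul, mul_smul_comm, mul_smul_comm, smul_mul_assoc, smul_mul_assoc, h, mul_one,
    one_mul]

theorem Rr_comm2 {u v : A} (h : u * v = v * u) (s t : ℝ) : Rr u t * Rr v s = Rr v s * Rr u t := by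
  have : Rr v s * u = u * Rr v s := (Rr_comm h s).symm
  exact (Rr_comm this t).symm

theorem Rr_pi (u : A) (n : ℤ) : Rr u (n * Real.pi) = ((-1 : ℝ) ^ n) • (1 : A) := by
  unfold Rr
  rw [Real.cos_int_mul_pi, Real.sin_int_mul_pi, zero_smul, add_zero]

theorem rot_section {u v w : A} (hu : u * u = -1) (hv : v * v = -1) (hw : w * w = -1)
    (huv : u * v = v * u) (huw : u * w = w * u) (hvw : v * w = w * v)
    {X : A} (hX : X = (1 / 2 : ℝ) • (u + v - w))
    {φ ϑ φ' ϑ' : ℝ → ℝ} (hφ : ∀ t, HasDerivAt φ (φ' t) t) (hϑ : ∀ t, HasDerivAt ϑ (ϑ' t) t)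
    (hφ' : Continuous φ')
    {pp : ℝ → A} (hpp : ∀ t, HasDerivAt pp (φ' t • (X * pp t - pp t * X)) t)
    (hpp0 : pp 0 * pp 0 = -1)
    {h : ℝ → A} (hh : ∀ t, HasDerivAt h ((φ' t • X + (ϑ' t / 2) • pp t) * h t) t)
    (h0 : h 0 = 1) (h1 : h 1 = 1) (hφ0 : φ 0 = 0) (hϑ0 : ϑ 0 = 0) :
    Rr (pp 0) (-(ϑ 1 / 2)) * (Rr u (-(φ 1 / 2)) * Rr v (-(φ 1 / 2)) * Rr w (φ 1 / 2)) = 1 := by
  set E : ℝ → A := fun t => Rr u (-(φ t / 2)) * Rr v (-(φ t / 2)) * Rr w (φ t / 2) with hE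
  have hXE : ∀ t, X * E t = E t * X := by
    intro t
    have e1 : ∀ x : A, x * u = u * x → x * v = v * x → x * w = w * x → x * E t = E t * x := by
      intro x a b c
      simp only [hE]
      rw [← mul_assoc, ← mul_assoc, Rr_comm a, mul_assoc _ x, Rr_comm b, mul_assoc, mul_assoc _ x,
        Rr_comm c]
      simp only [mul_assoc]
    rw [hX, smul_mul_assoc, mul_smul_comm, sub_mul, add_mul, mul_sub, mul_add,
      e1 u rfl huv huw, e1 v huv.symm rfl hvw, e1 w huw.symm hvw.symm rfl]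
  have hEd : ∀ t, HasDerivAt E (-(φ' t) • (X * E t)) t := by
    intro t
    have g1 : HasDerivAt (fun t => -(φ t / 2)) (-(φ' t / 2)) t := ((hφ t).div_const 2).neg
    have g2 : HasDerivAt (fun t => φ t / 2) (φ' t / 2) t := (hφ t).div_const 2
    have g3 := ((Rr_hasDerivAt hu g1).mul (Rr_hasDerivAt hv g1)).mul (Rr_hasDerivAt hw g2)
    refine g3.congr_deriv ?_
    have k1 : Rr u (-(φ t / 2)) * (v * Rr v (-(φ t / 2)))
        = v * (Rr u (-(φ t / 2)) * Rr v (-(φ t / 2))) := by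
      rw [← mul_assoc, ← Rr_comm huv.symm, mul_assoc]
    have k2 : Rr u (-(φ t / 2)) * Rr v (-(φ t / 2)) * (w * Rr w (φ t / 2))
        = w * (Rr u (-(φ t / 2)) * Rr v (-(φ t / 2)) * Rr w (φ t / 2)) := by
      rw [← mul_assoc, mul_assoc (Rr u _), ← Rr_comm hvw.symm, ← mul_assoc, ← Rr_comm huw.symm]
      simp only [mul_assoc]
    simp only [hE, Pi.mul_apply]
    rw [mul_smul_comm, mul_smul_comm, k1, k2, hX, smul_mul_assoc, smul_mul_assoc, sub_mul, add_mul,
      add_mul, smul_mul_assoc, smul_mul_assoc]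
    simp only [mul_assoc]
    module
  have hE0 : E 0 = 1 := by simp [hE, hφ0, Rr_zero]
  -- `E pp = pp 0 E`
  have hζ : ∀ t ∈ Set.Icc (0 : ℝ) 1, E t * pp t = pp 0 * E t := by
    have hz := lin_zero (fun t => (-(φ' t)) • ((ContinuousLinearMap.mul ℝ A).flip X))
      (hφ'.neg.smul continuous_const) (fun t => E t * pp t - pp 0 * E t) (fun t => by
        have z1 := ((hEd t).mul (hpp t)).sub ((hEd t).const_mul (pp 0))
        refine z1.congr_deriv ?_
        simp only [_root_.smul_apply, ContinuousLinearMap.flip_apply,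
          ContinuousLinearMap.mul_apply']
        rw [hXE]
        simp only [smul_mul_assoc, mul_smul_comm, mul_sub, sub_mul, smul_sub, mul_assoc]
        module) (by simp [hE0])
    intro t ht
    exact sub_eq_zero.1 (hz t ht)
  set M : ℝ → A := fun t => Rr (pp 0) (-(ϑ t / 2)) with hM
  have hMd : ∀ t, HasDerivAt M (-(ϑ' t / 2) • (pp 0 * M t)) t := fun t =>
    Rr_hasDerivAt hpp0 (((hϑ t).div_const 2).neg)
  have hM0 : M 0 = 1 := by simp [hM, hϑ0, Rr_zero]
  have hMc : ∀ t, pp 0 * M t = M t * pp 0 := fun t => Rr_comm rfl _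
  have hkd : ∀ t ∈ Set.Icc (0 : ℝ) 1, HasDerivAt (fun t => M t * E t * h t) 0 t := by
    intro t ht
    have y1 := ((hMd t).mul (hEd t)).mul (hh t)
    refine y1.congr_deriv ?_
    have y2 := hζ t ht
    have y3 : M t * E t * ((φ' t • X + (ϑ' t / 2) • pp t) * h t)
        = φ' t • (M t * (X * E t) * h t) + (ϑ' t / 2) • (M t * (E t * pp t) * h t) := by
      rw [hXE]
      simp only [smul_mul_assoc, mul_smul_comm, mul_add, add_mul, mul_assoc]
    rw [Pi.mul_apply, y3, y2, hMc]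
    simp only [smul_mul_assoc, mul_smul_comm, add_mul, mul_assoc]
    module
  have hk := constant_of_has_deriv_right_zero (f := fun t => M t * E t * h t) (a := 0) (b := 1)
    (fun t ht => (hkd t ht).continuousAt.continuousWithinAt)
    (fun t ht => (hkd t ⟨ht.1, ht.2.le⟩).hasDerivWithinAt) 1 ⟨zero_le_one, le_rfl⟩
  simp only [hM0, hE0, h0, h1, mul_one] at hk
  exact hk

theorem parity_final [Nontrivial A] {u v w p : A} {φ1 ϑ1 : ℝ} (d e : ℤ)
    (hφ1 : φ1 = 2 * Real.pi * d) (hϑ1 : ϑ1 = 2 * Real.pi * e)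
    (h : Rr p (-(ϑ1 / 2)) * (Rr u (-(φ1 / 2)) * Rr v (-(φ1 / 2)) * Rr w (φ1 / 2)) = 1) :
    Even (d + e) := by
  have e1 : -(ϑ1 / 2) = ((-e : ℤ) : ℝ) * Real.pi := by rw [hϑ1]; push_cast; ring
  have e2 : -(φ1 / 2) = ((-d : ℤ) : ℝ) * Real.pi := by rw [hφ1]; push_cast; ring
  have e3 : φ1 / 2 = (d : ℝ) * Real.pi := by rw [hφ1]; ring
  rw [e1, e2, e3, Rr_pi, Rr_pi, Rr_pi, Rr_pi] at h
  simp only [smul_mul_assoc, mul_smul_comm, one_mul, smul_smul] at h
  by_contra hne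
  rw [Int.not_even_iff_odd] at hne
  have h2 : ((-1 : ℝ) ^ (-e) * ((-1) ^ d * ((-1) ^ (-d) * (-1) ^ (-d)))) = -1 := by
    have hne0 : (-1 : ℝ) ≠ 0 := by norm_num
    rw [← zpow_add₀ hne0, ← zpow_add₀ hne0, ← zpow_add₀ hne0]
    have : -e + (d + (-d + -d)) = -(d + e) := by ring
    rw [this]
    exact hne.neg.neg_one_zpow
  have h3 : ((-1 : ℝ) ^ (-e) * ((-1) ^ d * ((-1) ^ (-d) * (-1) ^ (-d)))) • (1 : A) = 1 := by
    rw [← h]; congr 1; ring
  rw [h2] at h3
  have h4 : (1 : A) + 1 = 0 := by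
    have : -(1 : A) = 1 := by simpa using h3
    nth_rw 1 [← this]
    exact neg_add_cancel _
  have h5 : (2 : ℝ) • (1 : A) = 0 := by rw [two_smul]; exact h4
  rcases smul_eq_zero.1 h5 with h6 | h6
  · norm_num at h6
  · exact one_ne_zero h6

end Pool.Agent.H86.Nco.Sp2
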