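import Pool.Agent.H86.Nco.Ode

/-!
# Module SPIN2, part b: parallel sections of flat connections on the square
-/

open scoped ContDiff Topology

noncomputable section

namespace Pool.Agent.H86.Nco.Sp2

theorem two_le_inf : (2 : WithTop ℕ∞) ≤ ∞ := by
  exact ENat.LEInfty.out

theorem lin_zero {F : Type} [NormedAddCommGroup F] [NormedSpace ℝ F] (L : ℝ → F →L[ℝ] F)
    (hL : Continuous L) (y : ℝ → F) (hy : ∀ t, HasDerivAt y (L t (y t)) t) (h0 : y 0 = 0) :
    ∀ t ∈ Set.Icc (0 : ℝ) 1, y t = 0 := by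
  obtain ⟨C, hC⟩ := (isCompact_Icc (a := (0:ℝ)) (b := 1)).exists_bound_of_continuousOn
    hL.continuousOn
  have hu := ODE_solution_unique_of_mem_Icc_right (v := fun t x => L t x) (K := Real.toNNReal C)
    (s := fun _ => Set.univ) (f := y) (g := fun _ => 0) (a := 0) (b := 1)
    (fun t ht => by
      refine LipschitzWith.lipschitzOnWith ?_
      refine (L t).lipschitz.weaken ?_
      have h1 := hC t ⟨ht.1, ht.2.le⟩
      rw [← norm_toNNReal]
      exact Real.toNNReal_le_toNNReal h1)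
    (fun t _ => (hy t).continuousAt.continuousWithinAt)
    (fun t _ => (hy t).hasDerivWithinAt) (fun _ _ => Set.mem_univ _)
    continuousOn_const (fun t _ => by
      simpa using (hasDerivAt_const t (0 : F)).hasDerivWithinAt) (fun _ _ => Set.mem_univ _)
    h0
  exact fun t ht => hu ht

theorem symm2 {E F : Type} [NormedAddCommGroup E] [NormedSpace ℝ E]
    [NormedAddCommGroup F] [NormedSpace ℝ F] {f : E → F} (hf : ContDiff ℝ ∞ f) (x v w : E) :
    fderiv ℝ (fun y => fderiv ℝ f y v) x w = fderiv ℝ (fun y => fderiv ℝ f y w) x v := by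
  have hd : DifferentiableAt ℝ (fderiv ℝ f) x :=
    ((hf.fderiv_right (m := ∞) (by simp)).differentiable (by simp)) x
  have h1 : ∀ v w, fderiv ℝ (fun y => fderiv ℝ f y v) x w = fderiv ℝ (fderiv ℝ f) x w v := by
    intro v w
    rw [fderiv_clm_apply hd (differentiableAt_const v)]
    simp
  rw [h1, h1]
  exact (hf.contDiffAt.isSymmSndFDerivAt (by simp; exact two_le_inf)) w v

theorem contDiff_dir {E F : Type} [NormedAddCommGroup E] [NormedSpace ℝ E]
    [NormedAddCommGroup F] [NormedSpace ℝ F] {f : E → F} (hf : ContDiff ℝ ∞ f) (v : E) :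
    ContDiff ℝ ∞ fun y => fderiv ℝ f y v :=
  (hf.fderiv_right (m := ∞) (by simp)).clm_apply contDiff_const

theorem hasDerivAt_fst {F : Type} [NormedAddCommGroup F] [NormedSpace ℝ F] {f : ℝ × ℝ → F}
    (hf : ContDiff ℝ ∞ f) (s t : ℝ) :
    HasDerivAt (fun s => f (s, t)) (fderiv ℝ f (s, t) (1, 0)) s := by
  have h1 : HasFDerivAt f (fderiv ℝ f (s, t)) (s, t) :=
    (hf.differentiable (by simp) (s, t)).hasFDerivAt
  have h2 : HasDerivAt (fun s : ℝ => (s, t)) ((1 : ℝ), (0 : ℝ)) s :=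
    (hasDerivAt_id s).prodMk (hasDerivAt_const s t)
  exact h1.comp_hasDerivAt s h2

theorem hasDerivAt_snd {F : Type} [NormedAddCommGroup F] [NormedSpace ℝ F] {f : ℝ × ℝ → F}
    (hf : ContDiff ℝ ∞ f) (s t : ℝ) :
    HasDerivAt (fun t => f (s, t)) (fderiv ℝ f (s, t) (0, 1)) t := by
  have h1 : HasFDerivAt f (fderiv ℝ f (s, t)) (s, t) :=
    (hf.differentiable (by simp) (s, t)).hasFDerivAt
  have h2 : HasDerivAt (fun t : ℝ => (s, t)) ((0 : ℝ), (1 : ℝ)) t :=
    (hasDerivAt_const t s).prodMk (hasDerivAt_id t)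
  exact h1.comp_hasDerivAt t h2

theorem flat_section {A : Type} [NormedRing A] [NormedAlgebra ℝ A] [FiniteDimensional ℝ A]
    (Ω1 Ω2 : ℝ × ℝ → A) (h1 : ContDiff ℝ ∞ Ω1) (h2 : ContDiff ℝ ∞ Ω2)
    (hflat : ∀ x, fderiv ℝ Ω2 x (1, 0) - fderiv ℝ Ω1 x (0, 1) = Ω1 x * Ω2 x - Ω2 x * Ω1 x)
    (e0 : ∀ s, Ω1 (s, 0) = 0) (e1 : ∀ s, Ω1 (s, 1) = 0) (e2 : ∀ t, Ω2 (0, t) = 0) :
    ∃ h : ℝ → A, (∀ t, HasDerivAt h (Ω2 (1, t) * h t) t) ∧ h 0 = 1 ∧ h 1 = 1 := by
  have hsw : ContDiff ℝ ∞ fun y : ℝ × ℝ => Ω1 (y.2, y.1) :=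
    h1.comp (contDiff_snd.prodMk contDiff_fst)
  have hsw2 : ContDiff ℝ ∞ fun y : ℝ × ℝ => Ω2 (y.2, y.1) :=
    h2.comp (contDiff_snd.prodMk contDiff_fst)
  obtain ⟨S, hS, hS0, hS'⟩ := lode_smooth (P := ℝ) (H := A)
    (fun y => ContinuousLinearMap.mul ℝ A (Ω1 (y.2, y.1)))
    ((ContinuousLinearMap.mul ℝ A).contDiff.comp hsw) (fun _ => 0) contDiff_const
    (fun _ => 1) contDiff_const
  simp only [ContinuousLinearMap.mul_apply', add_zero] at hS'
  -- derivative in the second variable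
  have hS2 : ∀ y : ℝ × ℝ, fderiv ℝ S y (0, 1) = Ω1 (y.2, y.1) * S y := by
    rintro ⟨p, τ⟩
    exact (hasDerivAt_snd hS p τ).unique (hS' p τ)
  -- the defect
  have hΦ : ∀ p, fderiv ℝ S (p, 1) (1, 0) - Ω2 (1, p) * S (p, 1) = 0 := by
    intro p
    refine lin_zero (fun τ => ContinuousLinearMap.mul ℝ A (Ω1 (τ, p))) ?_
      (fun τ => fderiv ℝ S (p, τ) (1, 0) - Ω2 (τ, p) * S (p, τ)) ?_ ?_ 1 ⟨zero_le_one, le_rfl⟩
    · exact (ContinuousLinearMap.mul ℝ A).continuous.comp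
        (h1.continuous.comp (continuous_id.prodMk continuous_const))
    · intro τ
      have a1 : HasDerivAt (fun τ => fderiv ℝ S (p, τ) (1, 0))
          (fderiv ℝ (fun y => fderiv ℝ S y (1, 0)) (p, τ) (0, 1)) τ :=
        hasDerivAt_snd (contDiff_dir hS (1, 0)) p τ
      rw [symm2 hS] at a1
      have a2 : fderiv ℝ (fun y => fderiv ℝ S y (0, 1)) (p, τ) (1, 0)
          = fderiv ℝ Ω1 (τ, p) (0, 1) * S (p, τ) + Ω1 (τ, p) * fderiv ℝ S (p, τ) (1, 0) := by
        have b0 : (fun y => fderiv ℝ S y (0, 1)) = fun y => Ω1 (y.2, y.1) * S y := by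
          funext y; exact hS2 y
        rw [b0]
        have b1 := hasDerivAt_fst (hsw.mul hS) p τ
        have b2 : HasDerivAt (fun s => Ω1 (τ, s)) (fderiv ℝ Ω1 (τ, p) (0, 1)) p :=
          hasDerivAt_snd h1 τ p
        have b3 := b2.mul (hasDerivAt_fst hS p τ)
        exact b1.unique b3
      rw [a2] at a1
      have a3 : HasDerivAt (fun τ => Ω2 (τ, p)) (fderiv ℝ Ω2 (τ, p) (1, 0)) τ :=
        hasDerivAt_fst h2 τ p
      have a4 := a1.sub (a3.mul (hS' p τ))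
      refine a4.congr_deriv ?_
      have hf := hflat (τ, p)
      have hf' : fderiv ℝ Ω2 (τ, p) (1, 0) = fderiv ℝ Ω1 (τ, p) (0, 1)
          + (Ω1 (τ, p) * Ω2 (τ, p) - Ω2 (τ, p) * Ω1 (τ, p)) := by rw [← hf]; abel
      rw [ContinuousLinearMap.mul_apply', hf']
      noncomm_ring
    · have c1 : HasDerivAt (fun s => S (s, 0)) (fderiv ℝ S (p, 0) (1, 0)) p :=
        hasDerivAt_fst hS p 0
      have c2 : (fun s => S (s, 0)) = fun _ => (1 : A) := by funext s; exact hS0 s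
      rw [c2] at c1
      have c3 := c1.unique (hasDerivAt_const p (1 : A))
      simp only [c3, e2, zero_mul, sub_zero]
  have hedge : ∀ p, (∀ s, Ω1 (s, p) = 0) → S (p, 1) = 1 := by
    intro p hp
    have d1 : ∀ τ, HasDerivAt (fun τ => S (p, τ)) 0 τ := by
      intro τ
      have := hS' p τ
      rwa [hp, zero_mul] at this
    have d2 := is_const_of_deriv_eq_zero (fun τ => (d1 τ).differentiableAt)
      (fun τ => (d1 τ).deriv) 1 0
    have d3 : S (p, 1) = S (p, 0) := d2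
    rw [d3, hS0]
  refine ⟨fun t => S (t, 1), fun t => ?_, hedge 0 e0, hedge 1 e1⟩
  have h3 := hasDerivAt_fst hS t 1
  rwa [sub_eq_zero.1 (hΦ t)] at h3

end Pool.Agent.H86.Nco.Sp2
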