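import Pool.Agent.H86.Nco.SpinDefs

/-!
# Module SPIN2, part d: coordinates on `XX K`
-/

open scoped ContDiff Topology
open Matrix

noncomputable section

namespace Pool.Agent.H86.Nco.Sp2

/-- coordinates -/
def kap {K : ℕ} (p : XX K) : Fin (K + 7) → ℝ :=
  vecCons p.1.re (vecCons p.1.im (vecCons p.2.1.re (vecCons p.2.1.im
    (vecCons p.2.2.1.re (vecCons p.2.2.1.im p.2.2.2)))))

theorem sum7 {K : ℕ} {M : Type} [AddCommMonoid M] (f : Fin (K + 7) → M) :
    ∑ s, f s = f 0 + (f 1 + (f 2 + (f 3 + (f 4 + (f 5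
      + ∑ j : Fin (K + 1), f j.succ.succ.succ.succ.succ.succ))))) := by
  rw [Fin.sum_univ_succ, Fin.sum_univ_succ, Fin.sum_univ_succ, Fin.sum_univ_succ,
    Fin.sum_univ_succ, Fin.sum_univ_succ]
  rfl

theorem forall7 {K : ℕ} {P : Fin (K + 7) → Prop} (h0 : P 0) (h1 : P 1) (h2 : P 2) (h3 : P 3)
    (h4 : P 4) (h5 : P 5) (h6 : ∀ j : Fin (K + 1), P j.succ.succ.succ.succ.succ.succ) :
    ∀ s, P s := by
  intro s
  refine Fin.cases h0 (fun s => ?_) s
  refine Fin.cases h1 (fun s => ?_) s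
  refine Fin.cases h2 (fun s => ?_) s
  refine Fin.cases h3 (fun s => ?_) s
  refine Fin.cases h4 (fun s => ?_) s
  refine Fin.cases h5 (fun s => ?_) s
  exact h6 s

theorem kap0 {K : ℕ} (p : XX K) : kap p 0 = p.1.re := rfl
theorem kap1 {K : ℕ} (p : XX K) : kap p 1 = p.1.im := rfl
theorem kap2 {K : ℕ} (p : XX K) : kap p 2 = p.2.1.re := rfl
theorem kap3 {K : ℕ} (p : XX K) : kap p 3 = p.2.1.im := rfl
theorem kap4 {K : ℕ} (p : XX K) : kap p 4 = p.2.2.1.re := rfl
theorem kap5 {K : ℕ} (p : XX K) : kap p 5 = p.2.2.1.im := rfl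
theorem kap6 {K : ℕ} (p : XX K) (j : Fin (K + 1)) :
    kap p j.succ.succ.succ.succ.succ.succ = p.2.2.2 j := rfl

theorem kap_add {K : ℕ} (p q : XX K) : kap (p + q) = kap p + kap q := by
  funext s
  revert s
  exact forall7 rfl rfl rfl rfl rfl rfl (fun _ => rfl)

theorem kap_smul {K : ℕ} (a : ℝ) (p : XX K) : kap (a • p) = a • kap p := by
  funext s
  revert s
  refine forall7 ?_ ?_ ?_ ?_ ?_ ?_ (fun j => ?_) <;>
    simp only [Pi.smul_apply, kap0, kap1, kap2, kap3, kap4, kap5, kap6] <;>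
    simp

theorem ipx_eq {K : ℕ} (p q : XX K) : ipx p q = ∑ s, kap p s * kap q s := by
  rw [sum7]
  simp only [kap0, kap1, kap2, kap3, kap4, kap5, kap6]
  unfold ipx
  simp only [Complex.mul_re, Complex.conj_re, Complex.conj_im]
  ring

/-- coordinates, as a continuous linear map -/
def kapL (K : ℕ) : XX K →L[ℝ] (Fin (K + 7) → ℝ) :=
  LinearMap.toContinuousLinearMap
    { toFun := kap, map_add' := kap_add, map_smul' := kap_smul }

theorem kapL_apply {K : ℕ} (p : XX K) : kapL K p = kap p := rfl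

/-- the generator of the rotations -/
def Jx {K : ℕ} (p : XX K) : XX K :=
  (Complex.I * p.1, Complex.I * p.2.1, -(Complex.I * p.2.2.1), 0)

/-- its matrix -/
def Jm (K : ℕ) : Matrix (Fin (K + 7)) (Fin (K + 7)) ℝ :=
  single 1 0 1 - single 0 1 1 + (single 3 2 1 - single 2 3 1) - (single 5 4 1 - single 4 5 1)

theorem Jm_tr (K : ℕ) : (Jm K)ᵀ = - Jm K := by
  unfold Jm
  simp only [transpose_add, transpose_sub, transpose_single]
  abel

theorem v0 (K : ℕ) : (0 : Fin (K + 7)).val = 0 := rfl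
theorem v1 (K : ℕ) : (1 : Fin (K + 7)).val = 1 := rfl
theorem v2 (K : ℕ) : (2 : Fin (K + 7)).val = 2 := rfl
theorem v3 (K : ℕ) : (3 : Fin (K + 7)).val = 3 := rfl
theorem v4 (K : ℕ) : (4 : Fin (K + 7)).val = 4 := rfl
theorem v5 (K : ℕ) : (5 : Fin (K + 7)).val = 5 := rfl

theorem kap_Jx {K : ℕ} (p : XX K) : kap (Jx p) = (Jm K).mulVec (kap p) := by
  have h : (Jm K).mulVec (kap p) = Pi.single 1 (kap p 0) - Pi.single 0 (kap p 1)
      + (Pi.single 3 (kap p 2) - Pi.single 2 (kap p 3))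
      - (Pi.single 5 (kap p 4) - Pi.single 4 (kap p 5)) := by
    unfold Jm
    simp only [add_mulVec, sub_mulVec, single_mulVec, one_mul]
    rfl
  rw [h]
  funext s
  revert s
  refine forall7 ?_ ?_ ?_ ?_ ?_ ?_ (fun j => ?_) <;>
    simp only [Pi.add_apply, Pi.sub_apply, Pi.single_apply, Fin.ext_iff, v0, v1, v2, v3, v4, v5,
      Fin.val_succ, kap0, kap1, kap2, kap3, kap4, kap5, kap6, Jx] <;>
    simp

end Pool.Agent.H86.Nco.Sp2
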