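import Pool.Agent.H86.Nco.Spin2a
import Pool.Agent.H86.Nco.Spin2b
import Pool.Agent.H86.Nco.Spin2d

/-!
# Module SPIN2, part e: the spin connection
-/

open scoped ContDiff Topology
open Matrix

noncomputable section

namespace Pool.Agent.H86.Nco.Sp2

theorem exp_hasDerivAt {φ a b : ℝ → ℝ} {φ' a' b' t : ℝ} (hφ : HasDerivAt φ φ' t)
    (ha : HasDerivAt a a' t) (hb : HasDerivAt b b' t) (z w : ℂ) :
    HasDerivAt (fun t : ℝ => Complex.exp (φ t * Complex.I) * (a t • z + b t • w))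
      (φ' • (Complex.I * (Complex.exp (φ t * Complex.I) * (a t • z + b t • w)))
        + Complex.exp (φ t * Complex.I) * (a' • z + b' • w)) t := by
  have h1 : HasDerivAt (fun t : ℝ => Complex.exp (φ t * Complex.I))
      (Complex.exp (φ t * Complex.I) * (φ' * Complex.I)) t :=
    ((hφ.ofReal_comp).mul_const Complex.I).cexp
  have h2 := (ha.smul_const z).add (hb.smul_const w)
  refine (h1.mul h2).congr_deriv ?_
  simp only [Complex.real_smul, Pi.add_apply]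
  ring

theorem exp_hasDerivAt' {φ a b : ℝ → ℝ} {φ' a' b' t : ℝ} (hφ : HasDerivAt φ φ' t)
    (ha : HasDerivAt a a' t) (hb : HasDerivAt b b' t) (z w : ℂ) :
    HasDerivAt (fun t : ℝ => Complex.exp (-(φ t * Complex.I)) * (a t • z + b t • w))
      (φ' • (-(Complex.I * (Complex.exp (-(φ t * Complex.I)) * (a t • z + b t • w))))
        + Complex.exp (-(φ t * Complex.I)) * (a' • z + b' • w)) t := by
  have h1 : HasDerivAt (fun t : ℝ => Complex.exp (-(φ t * Complex.I)))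
      (Complex.exp (-(φ t * Complex.I)) * (-(φ' * Complex.I))) t :=
    (((hφ.ofReal_comp).mul_const Complex.I).neg).cexp
  have h2 := (ha.smul_const z).add (hb.smul_const w)
  refine (h1.mul h2).congr_deriv ?_
  simp only [Complex.real_smul, Pi.add_apply]
  ring

theorem act_hasDerivAt {K : ℕ} {φ a b : ℝ → ℝ} {φ' a' b' t : ℝ} (hφ : HasDerivAt φ φ' t)
    (ha : HasDerivAt a a' t) (hb : HasDerivAt b b' t) (p q : XX K) :
    HasDerivAt (fun t => act (φ t) (a t • p + b t • q))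
      (φ' • Jx (act (φ t) (a t • p + b t • q)) + act (φ t) (a' • p + b' • q)) t := by
  have c1 := exp_hasDerivAt hφ ha hb p.1 q.1
  have c2 := exp_hasDerivAt hφ ha hb p.2.1 q.2.1
  have c3 := exp_hasDerivAt' hφ ha hb p.2.2.1 q.2.2.1
  have c4 := (ha.smul_const p.2.2.2).add (hb.smul_const q.2.2.2)
  refine (c1.prodMk (c2.prodMk (c3.prodMk c4))).congr_deriv ?_
  refine Prod.ext rfl (Prod.ext rfl (Prod.ext rfl ?_))
  show a' • p.2.2.2 + b' • q.2.2.2 = φ' • (0 : Fin (K + 1) → ℝ) + (a' • p.2.2.2 + b' • q.2.2.2)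
  rw [smul_zero, zero_add]

variable {A : Type} [NormedRing A] [NormedAlgebra ℝ A] {K : ℕ}

/-- image of a vector, as a continuous linear map -/
def cvL (γ : Fin (K + 7) → A) : (Fin (K + 7) → ℝ) →L[ℝ] A :=
  LinearMap.toContinuousLinearMap
    { toFun := cv γ, map_add' := cv_add γ, map_smul' := cv_smul γ }

/-- the section `β_j` -/
def bt (γ : Fin (K + 7) → A) (B : ℝ × ℝ → Fin (K + 7) → XX K) (j : Fin (K + 7)) (x : ℝ × ℝ) : A :=
  cv γ (kap (B x j))

/-- the matrix of a frame -/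
def bm (B : ℝ × ℝ → Fin (K + 7) → XX K) (x : ℝ × ℝ) : Matrix (Fin (K + 7)) (Fin (K + 7)) ℝ :=
  fun s j => kap (B x j) s

/-- its derivative -/
def dm (B : ℝ × ℝ → Fin (K + 7) → XX K) (v x : ℝ × ℝ) : Matrix (Fin (K + 7)) (Fin (K + 7)) ℝ :=
  fun s j => kap (fderiv ℝ (fun y => B y j) x v) s

/-- the connection -/
def Om (γ : Fin (K + 7) → A) (B : ℝ × ℝ → Fin (K + 7) → XX K) (v x : ℝ × ℝ) : A :=
  (1 / 4 : ℝ) • ∑ j, fderiv ℝ (bt γ B j) x v * bt γ B j x

variable {γ : Fin (K + 7) → A} {B : ℝ × ℝ → Fin (K + 7) → XX K}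

theorem contDiff_comp_j (hB : ContDiff ℝ ∞ B) (j : Fin (K + 7)) :
    ContDiff ℝ ∞ fun y => B y j := contDiff_pi.1 hB j

theorem bt_contDiff (hB : ContDiff ℝ ∞ B) (j : Fin (K + 7)) : ContDiff ℝ ∞ (bt γ B j) :=
  (cvL γ).contDiff.comp ((kapL K).contDiff.comp (contDiff_comp_j hB j))

theorem kapB_hasFDerivAt (hB : ContDiff ℝ ∞ B) (j : Fin (K + 7)) (x : ℝ × ℝ) :
    HasFDerivAt (fun y => kap (B y j)) ((kapL K).comp (fderiv ℝ (fun y => B y j) x)) x :=
  (kapL K).hasFDerivAt.comp x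
    ((contDiff_comp_j hB j).differentiable (by simp) x).hasFDerivAt

theorem fderiv_bt (hB : ContDiff ℝ ∞ B) (j : Fin (K + 7)) (x v : ℝ × ℝ) :
    fderiv ℝ (bt γ B j) x v = cv γ (fun s => dm B v x s j) := by
  have h := (cvL γ).hasFDerivAt.comp x (kapB_hasFDerivAt hB j x)
  have h2 : fderiv ℝ (bt γ B j) x = (cvL γ).comp ((kapL K).comp (fderiv ℝ (fun y => B y j) x)) :=
    h.fderiv
  rw [h2]; rfl

theorem Om_eq (hB : ContDiff ℝ ∞ B) (x v : ℝ × ℝ) :
    Om γ B v x = rho γ (dm B v x * (bm B x)ᵀ) := by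
  unfold Om
  simp only [fderiv_bt hB]
  exact sum_cv_mul γ (dm B v x) (bm B x)

theorem Om_contDiff (hB : ContDiff ℝ ∞ B) (v : ℝ × ℝ) : ContDiff ℝ ∞ (Om γ B v) :=
  (ContDiff.sum fun j _ => (contDiff_dir (bt_contDiff hB j) v).mul (bt_contDiff hB j)).const_smul _

section orth

variable (hB : ContDiff ℝ ∞ B) (ho : ∀ x i j, ipx (B x i) (B x j) = if i = j then 1 else 0)

include ho in
theorem bm_orth (x : ℝ × ℝ) : (bm B x)ᵀ * bm B x = 1 := by
  ext i j
  rw [Matrix.mul_apply, Matrix.one_apply, ← ho x i j, ipx_eq]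
  rfl

include ho in
theorem bm_orth' (x : ℝ × ℝ) : bm B x * (bm B x)ᵀ = 1 :=
  mul_eq_one_comm.1 (bm_orth ho x)

include hB ho in
theorem dm_orth (x v : ℝ × ℝ) : (dm B v x)ᵀ * bm B x + (bm B x)ᵀ * dm B v x = 0 := by
  ext i j
  rw [Matrix.add_apply, Matrix.mul_apply, Matrix.mul_apply, Matrix.zero_apply]
  have h1 : ∀ i s, HasFDerivAt (fun y => kap (B y i) s)
      ((ContinuousLinearMap.proj (R := ℝ) (φ := fun _ : Fin (K + 7) => ℝ) s).comp
        ((kapL K).comp (fderiv ℝ (fun y => B y i) x))) x := fun i s =>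
    (ContinuousLinearMap.proj (R := ℝ) (φ := fun _ : Fin (K + 7) => ℝ) s).hasFDerivAt.comp x
      (kapB_hasFDerivAt hB i x)
  have h2' : ∀ s, HasFDerivAt (fun y => kap (B y i) s * kap (B y j) s) _ x :=
    fun s => (h1 i s).mul (h1 j s)
  have h2 := HasFDerivAt.fun_sum (𝕜 := ℝ) (E := ℝ × ℝ) (F := ℝ) (u := Finset.univ)
    fun s _ => h2' s
  have h3 : (fun y => ∑ s, kap (B y i) s * kap (B y j) s)
      = fun _ => if i = j then (1 : ℝ) else 0 := by
    funext y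
    rw [← ho y i j, ipx_eq]
  have h4 : HasFDerivAt (fun y => ∑ s, kap (B y i) s * kap (B y j) s)
      (0 : ℝ × ℝ →L[ℝ] ℝ) x := by
    rw [h3]; exact hasFDerivAt_const _ _
  have h5 := h2.unique h4
  have h6 := congrArg (fun L => L v) h5
  simp only [_root_.sum_apply, _root_.add_apply, _root_.smul_apply,
    ContinuousLinearMap.comp_apply, ContinuousLinearMap.proj_apply, smul_eq_mul,
    _root_.zero_apply] at h6
  rw [Finset.sum_add_distrib] at h6
  rw [add_comm, ← h6]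
  congr 1
  refine Finset.sum_congr rfl fun s _ => ?_
  exact mul_comm _ _

include hB ho in
theorem X_skew (x v : ℝ × ℝ) : (dm B v x * (bm B x)ᵀ)ᵀ = -(dm B v x * (bm B x)ᵀ) := by
  rw [transpose_mul, transpose_transpose]
  have h1 := dm_orth hB ho x v
  have h2 : bm B x * ((dm B v x)ᵀ * bm B x + (bm B x)ᵀ * dm B v x) * (bm B x)ᵀ = 0 := by
    rw [h1, Matrix.mul_zero, Matrix.zero_mul]
  have h3 : bm B x * ((dm B v x)ᵀ * bm B x + (bm B x)ᵀ * dm B v x) * (bm B x)ᵀ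
      = bm B x * (dm B v x)ᵀ * (bm B x * (bm B x)ᵀ)
        + bm B x * (bm B x)ᵀ * (dm B v x * (bm B x)ᵀ) := by
    noncomm_ring
  rw [h3, bm_orth' ho, Matrix.mul_one, Matrix.one_mul] at h2
  exact eq_neg_of_add_eq_zero_left h2

include hB ho in
theorem X_mul (x v w : ℝ × ℝ) : dm B v x * (bm B x)ᵀ * (dm B w x * (bm B x)ᵀ)
    = -(dm B v x * (dm B w x)ᵀ) := by
  have h1 := X_skew hB ho x w
  have h2 : dm B w x * (bm B x)ᵀ = -(bm B x * (dm B w x)ᵀ) := by
    rw [← neg_eq_iff_eq_neg, ← h1, transpose_mul, transpose_transpose]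
  rw [h2, Matrix.mul_neg, Matrix.mul_assoc, ← Matrix.mul_assoc (bm B x)ᵀ, bm_orth ho,
    Matrix.one_mul]

include hB ho in
theorem flatness (hγ : Clif γ) (x : ℝ × ℝ) :
    fderiv ℝ (Om γ B (0, 1)) x (1, 0) - fderiv ℝ (Om γ B (1, 0)) x (0, 1)
      = Om γ B (1, 0) x * Om γ B (0, 1) x - Om γ B (0, 1) x * Om γ B (1, 0) x := by
  have h1 : ∀ v w : ℝ × ℝ, fderiv ℝ (Om γ B v) x w
      = (1 / 4 : ℝ) • ∑ j, (fderiv ℝ (fun y => fderiv ℝ (bt γ B j) y v) x w * bt γ B j x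
        + fderiv ℝ (bt γ B j) x v * fderiv ℝ (bt γ B j) x w) := by
    intro v w
    have e1 : ∀ j, HasFDerivAt (fun y => fderiv ℝ (bt γ B j) y v)
        (fderiv ℝ (fun y => fderiv ℝ (bt γ B j) y v) x) x := fun j =>
      ((contDiff_dir (bt_contDiff hB j) v).differentiable (by simp) x).hasFDerivAt
    have e2 : ∀ j, HasFDerivAt (bt γ B j) (fderiv ℝ (bt γ B j) x) x := fun j =>
      ((bt_contDiff hB j).differentiable (by simp) x).hasFDerivAt
    have e3 := (HasFDerivAt.fun_sum (u := Finset.univ) fun j _ =>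
      (e1 j).mul' (e2 j)).const_smul (1 / 4 : ℝ)
    have e4 : fderiv ℝ (Om γ B v) x = _ := e3.fderiv
    rw [e4]
    simp only [_root_.sum_apply, _root_.add_apply, _root_.smul_apply,
      MulOpposite.smul_eq_mul_unop, MulOpposite.unop_op, smul_eq_mul]
    congr 1
    exact Finset.sum_congr rfl fun j _ => add_comm _ _
  rw [h1, h1, ← smul_sub, ← Finset.sum_sub_distrib]
  have h2 : ∀ j, (fderiv ℝ (fun y => fderiv ℝ (bt γ B j) y (0, 1)) x (1, 0) * bt γ B j x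
        + fderiv ℝ (bt γ B j) x (0, 1) * fderiv ℝ (bt γ B j) x (1, 0))
      - (fderiv ℝ (fun y => fderiv ℝ (bt γ B j) y (1, 0)) x (0, 1) * bt γ B j x
        + fderiv ℝ (bt γ B j) x (1, 0) * fderiv ℝ (bt γ B j) x (0, 1))
      = fderiv ℝ (bt γ B j) x (0, 1) * fderiv ℝ (bt γ B j) x (1, 0)
        - fderiv ℝ (bt γ B j) x (1, 0) * fderiv ℝ (bt γ B j) x (0, 1) := by
    intro j
    rw [symm2 (bt_contDiff hB j) x (0, 1) (1, 0)]
    abel
  simp only [h2]
  rw [Finset.sum_sub_distrib, smul_sub]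
  simp only [fderiv_bt hB]
  rw [sum_cv_mul γ (dm B (0, 1) x) (dm B (1, 0) x), sum_cv_mul γ (dm B (1, 0) x) (dm B (0, 1) x),
    Om_eq hB, Om_eq hB, hγ.rho_lie (X_skew hB ho x (1, 0)), X_mul hB ho, X_mul hB ho, rho_sub,
    rho_neg, rho_neg]
  abel

end orth

end Pool.Agent.H86.Nco.Sp2
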