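import Pool.Agent.H86.Nco.Gamma
import Pool.Agent.H86.Nco.Spin2c
import Pool.Agent.H86.Nco.Spin2e

/-!
# Module SPIN2: steps (2) and (3) of the proof in the header of `SpinDefs.lean`
-/

open scoped Manifold ContDiff Bundle Topology

noncomputable section

namespace Pool.Agent.H86.Nco

namespace Sp2

theorem Clif.pair_sq {ι : Type} [DecidableEq ι] {A : Type} [Ring A] [Algebra ℝ A] [Fintype ι]
    {γ : ι → A} (h : Clif γ) {i j : ι} (hij : i ≠ j) : γ i * γ j * (γ i * γ j) = -1 := by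
  have h1 : γ i * γ j * (γ i * γ j) = γ i * (γ j * γ i) * γ j := by simp only [mul_assoc]
  rw [h1, h.anti hij.symm, mul_neg, neg_mul, ← mul_assoc, h.sq, one_mul, h.sq]

theorem Clif.pair_comm {ι : Type} [DecidableEq ι] {A : Type} [Ring A] [Algebra ℝ A] [Fintype ι]
    {γ : ι → A} (h : Clif γ) {i j k l : ι} (hik : i ≠ k) (hil : i ≠ l) (hjk : j ≠ k)
    (hjl : j ≠ l) : γ i * γ j * (γ k * γ l) = γ k * γ l * (γ i * γ j) := by
  have h1 : γ i * γ j * (γ k * γ l) = γ i * (γ j * γ k) * γ l := by simp only [mul_assoc]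
  have h2 : γ i * (γ k * γ j) * γ l = (γ i * γ k) * (γ j * γ l) := by simp only [mul_assoc]
  have h3 : γ k * γ i * (γ l * γ j) = γ k * (γ i * γ l) * γ j := by simp only [mul_assoc]
  have h4 : γ k * (γ l * γ i) * γ j = γ k * γ l * (γ i * γ j) := by simp only [mul_assoc]
  rw [h1, h.anti hjk, mul_neg, neg_mul, h2, h.anti hik, h.anti hjl, neg_mul, mul_neg, neg_neg, h3,
    h.anti hil, mul_neg, neg_mul, h4, neg_neg]

theorem act_smul {K : ℕ} (φ c : ℝ) (p : XX K) : act φ (c • p) = c • act φ p := by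
  unfold act
  refine Prod.ext ?_ (Prod.ext ?_ (Prod.ext ?_ rfl)) <;> simp [Prod.smul_fst, Prod.smul_snd] <;> ring

variable {A : Type} [NormedRing A] [NormedAlgebra ℝ A] {K : ℕ}
variable {γ : Fin (K + 7) → A} {B : ℝ × ℝ → Fin (K + 7) → XX K}

theorem rho_Jm (hγ : Clif γ) :
    rho γ (Jm K) = (1 / 2 : ℝ) • (γ 1 * γ 0 + γ 3 * γ 2 - γ 5 * γ 4) := by
  have n1 : (0 : Fin (K + 7)) ≠ 1 := Fin.ne_of_val_ne (by rw [v0, v1]; decide)
  have n2 : (2 : Fin (K + 7)) ≠ 3 := Fin.ne_of_val_ne (by rw [v2, v3]; decide)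
  have n3 : (4 : Fin (K + 7)) ≠ 5 := Fin.ne_of_val_ne (by rw [v4, v5]; decide)
  unfold Jm
  simp only [rho_sub, rho_add, rho_single]
  rw [hγ.anti n1, hγ.anti n2, hγ.anti n3]
  module

theorem bt_sq (hγ : Clif γ) (ho : ∀ x i j, ipx (B x i) (B x j) = if i = j then 1 else 0)
    (x : ℝ × ℝ) (i : Fin (K + 7)) : bt γ B i x * bt γ B i x = 1 := by
  have h1 := hγ.cv_cv (kap (B x i)) (kap (B x i))
  rw [← ipx_eq, ho, if_pos rfl, mul_one, ← two_smul ℝ] at h1
  exact smul_right_injective A (two_ne_zero' ℝ) h1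

theorem bt_anti (hγ : Clif γ) (ho : ∀ x i j, ipx (B x i) (B x j) = if i = j then 1 else 0)
    (x : ℝ × ℝ) {i j : Fin (K + 7)} (hij : i ≠ j) :
    bt γ B i x * bt γ B j x = -(bt γ B j x * bt γ B i x) := by
  have h1 := hγ.cv_cv (kap (B x i)) (kap (B x j))
  rw [← ipx_eq, ho, if_neg hij, mul_zero, zero_smul] at h1
  exact eq_neg_of_add_eq_zero_left h1

theorem bt_pair_sq (hγ : Clif γ)
    (ho : ∀ x i j, ipx (B x i) (B x j) = if i = j then 1 else 0) (x : ℝ × ℝ)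
    {i j : Fin (K + 7)} (hij : i ≠ j) :
    bt γ B i x * bt γ B j x * (bt γ B i x * bt γ B j x) = -1 := by
  have e0 := bt_sq hγ ho x j
  have e1 := bt_sq hγ ho x i
  have e2 := bt_anti hγ ho x hij.symm
  have e3 : bt γ B i x * bt γ B j x * (bt γ B i x * bt γ B j x)
    = bt γ B i x * (bt γ B j x * bt γ B i x) * bt γ B j x := by
    simp only [mul_assoc]
  rw [e3, e2, mul_neg, neg_mul, ← mul_assoc, e1, one_mul, e0]

theorem Om_side (hγ : Clif γ)
    (ho : ∀ x i j, ipx (B x i) (B x j) = if i = j then 1 else 0) (x v : ℝ × ℝ) (a c : ℝ)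
    (b0 : fderiv ℝ (bt γ B 0) x v
      = a • (rho γ (Jm K) * bt γ B 0 x - bt γ B 0 x * rho γ (Jm K)) + c • bt γ B 1 x)
    (b1 : fderiv ℝ (bt γ B 1) x v
      = a • (rho γ (Jm K) * bt γ B 1 x - bt γ B 1 x * rho γ (Jm K)) + (-c) • bt γ B 0 x)
    (b2 : ∀ j : Fin (K + 5), fderiv ℝ (bt γ B j.succ.succ) x v
      = a • (rho γ (Jm K) * bt γ B j.succ.succ x - bt γ B j.succ.succ x * rho γ (Jm K))) :
    Om γ B v x = a • rho γ (Jm K) + (c / 2) • (bt γ B 1 x * bt γ B 0 x) := by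
  have n01 : (0 : Fin (K + 7)) ≠ 1 := Fin.ne_of_val_ne (by rw [v0, v1]; decide)
  have s1 : rho γ (Jm K) = (1 / 4 : ℝ) • ∑ j,
      (rho γ (Jm K) * bt γ B j x - bt γ B j x * rho γ (Jm K)) * bt γ B j x := by
    have s2 := sum_cv_mul γ (Jm K * bm B x) (bm B x)
    rw [Matrix.mul_assoc, bm_orth' ho, Matrix.mul_one] at s2
    refine s2.symm.trans ?_
    congr 1
    refine Finset.sum_congr rfl fun j _ => ?_
    have s3 := hγ.rho_cv (Jm_tr K) (kap (B x j))
    have s4 : (rho γ (Jm K) * bt γ B j x - bt γ B j x * rho γ (Jm K))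
      = cv γ ((Jm K).mulVec (kap (B x j))) := s3
    rw [s4]
    rfl
  have s5 : ∑ j, fderiv ℝ (bt γ B j) x v * bt γ B j x
      = a • ∑ j, (rho γ (Jm K) * bt γ B j x - bt γ B j x * rho γ (Jm K)) * bt γ B j x
        + (2 * c) • (bt γ B 1 x * bt γ B 0 x) := by
    rw [Fin.sum_univ_succ, Fin.sum_univ_succ, Fin.sum_univ_succ (n := K + 6),
      Fin.sum_univ_succ (n := K + 5)]
    simp only [b2]
    have z1 : (Fin.succ (0 : Fin (K + 6))) = 1 := rfl
    rw [z1, b0, b1]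
    have e2 := bt_anti hγ ho x n01
    simp only [add_mul, smul_mul_assoc, smul_add, Finset.smul_sum, neg_smul, neg_mul, e2]
    module
  unfold Om
  rw [s5]
  conv_rhs => rw [s1]
  module

theorem bt_hasDerivAt (hγ : Clif γ) {j : Fin (K + 7)} {t φ' c : ℝ} {q : XX K}
    (h : HasDerivAt (fun t => B (1, t) j) (φ' • Jx (B (1, t) j) + c • q) t) :
    HasDerivAt (fun t => bt γ B j (1, t))
      (φ' • (rho γ (Jm K) * bt γ B j (1, t) - bt γ B j (1, t) * rho γ (Jm K))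
        + c • cv γ (kap q)) t := by
  have h1 := ((cvL γ).comp (kapL K)).hasFDerivAt.comp_hasDerivAt t h
  refine h1.congr_deriv ?_
  show cv γ (kap (φ' • Jx (B (1, t) j) + c • q)) = _
  rw [kap_add, kap_smul, kap_smul, cv_add, cv_smul, cv_smul, kap_Jx, ← hγ.rho_cv (Jm_tr K)]
  rfl

end Sp2

open Sp2

/-- SPIN2 -/
theorem parity_of_orthonormal {K : ℕ} {B : ℝ × ℝ → Fin (K + 7) → XX K}
    {B₀ : Fin (K + 7) → XX K} {φ ϑ : ℝ → ℝ} (h : FrameBd B B₀ φ ϑ)
    (ho : ∀ x i j, ipx (B x i) (B x j) = if i = j then 1 else 0)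
    (hφ : ContDiff ℝ ∞ φ) (hϑ : ContDiff ℝ ∞ ϑ) (hφ0 : φ 0 = 0) (hϑ0 : ϑ 0 = 0) (d e : ℤ)
    (hφ1 : φ 1 = 2 * Real.pi * d) (hϑ1 : ϑ 1 = 2 * Real.pi * e) : Even (d + e) := by
  obtain ⟨γ, g1, g2⟩ := exists_gamma (K + 7)
  have hγ : Clif γ := by
    intro i j
    split_ifs with hij
    · rw [hij, g1, one_add_one_eq_two]
    · rw [g2 i j hij, neg_add_cancel]
  have hB := h.smooth
  have hφd : ∀ t, HasDerivAt φ (deriv φ t) t := fun t =>
    (hφ.differentiable (by simp) t).hasDerivAt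
  have hϑd : ∀ t, HasDerivAt ϑ (deriv ϑ t) t := fun t =>
    (hϑ.differentiable (by simp) t).hasDerivAt
  have n01 : (0 : Fin (K + 7)) ≠ 1 := Fin.ne_of_val_ne (by rw [v0, v1]; decide)
  have n02 : (0 : Fin (K + 7)) ≠ 2 := Fin.ne_of_val_ne (by rw [v0, v2]; decide)
  have n03 : (0 : Fin (K + 7)) ≠ 3 := Fin.ne_of_val_ne (by rw [v0, v3]; decide)
  have n04 : (0 : Fin (K + 7)) ≠ 4 := Fin.ne_of_val_ne (by rw [v0, v4]; decide)
  have n05 : (0 : Fin (K + 7)) ≠ 5 := Fin.ne_of_val_ne (by rw [v0, v5]; decide)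
  have n12 : (1 : Fin (K + 7)) ≠ 2 := Fin.ne_of_val_ne (by rw [v1, v2]; decide)
  have n13 : (1 : Fin (K + 7)) ≠ 3 := Fin.ne_of_val_ne (by rw [v1, v3]; decide)
  have n14 : (1 : Fin (K + 7)) ≠ 4 := Fin.ne_of_val_ne (by rw [v1, v4]; decide)
  have n15 : (1 : Fin (K + 7)) ≠ 5 := Fin.ne_of_val_ne (by rw [v1, v5]; decide)
  have n23 : (2 : Fin (K + 7)) ≠ 3 := Fin.ne_of_val_ne (by rw [v2, v3]; decide)
  have n24 : (2 : Fin (K + 7)) ≠ 4 := Fin.ne_of_val_ne (by rw [v2, v4]; decide)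
  have n25 : (2 : Fin (K + 7)) ≠ 5 := Fin.ne_of_val_ne (by rw [v2, v5]; decide)
  have n34 : (3 : Fin (K + 7)) ≠ 4 := Fin.ne_of_val_ne (by rw [v3, v4]; decide)
  have n35 : (3 : Fin (K + 7)) ≠ 5 := Fin.ne_of_val_ne (by rw [v3, v5]; decide)
  have n45 : (4 : Fin (K + 7)) ≠ 5 := Fin.ne_of_val_ne (by rw [v4, v5]; decide)
  -- the edges
  have edge1 : ∀ s c : ℝ, (∀ s, B (s, c) = B₀) → Om γ B (1, 0) (s, c) = 0 := by
    intro s c hc
    unfold Om
    have h1 : ∀ j, fderiv ℝ (bt γ B j) (s, c) (1, 0) = 0 := by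
      intro j
      have a1 := hasDerivAt_fst (bt_contDiff (γ := γ) hB j) s c
      have a2 : (fun s => bt γ B j (s, c)) = fun _ => cv γ (kap (B₀ j)) := by
        funext s
        show cv γ (kap (B (s, c) j)) = _
        rw [hc]
      rw [a2] at a1
      exact a1.unique (hasDerivAt_const _ _)
    simp only [h1, zero_mul, Finset.sum_const_zero, smul_zero]
  have edge2 : ∀ t : ℝ, Om γ B (0, 1) (0, t) = 0 := by
    intro t
    unfold Om
    have h1 : ∀ j, fderiv ℝ (bt γ B j) (0, t) (0, 1) = 0 := by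
      intro j
      have a1 := hasDerivAt_snd (bt_contDiff (γ := γ) hB j) 0 t
      have a2 : (fun t => bt γ B j (0, t)) = fun _ => cv γ (kap (B₀ j)) := by
        funext t
        show cv γ (kap (B (0, t) j)) = _
        rw [h.out (0, t) (Or.inl le_rfl)]
      rw [a2] at a1
      exact a1.unique (hasDerivAt_const _ _)
    simp only [h1, zero_mul, Finset.sum_const_zero, smul_zero]
  obtain ⟨k, hk, hk0, hk1⟩ := flat_section (Om γ B (1, 0)) (Om γ B (0, 1)) (Om_contDiff hB _)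
    (Om_contDiff hB _) (flatness hB ho hγ)
    (fun s => edge1 s 0 fun s => h.out (s, 0) (Or.inr (Or.inl le_rfl)))
    (fun s => edge1 s 1 fun s => h.out (s, 1) (Or.inr (Or.inr le_rfl))) edge2
  -- the fourth side
  have d0 : ∀ t, HasDerivAt (fun t => B (1, t) 0)
      (deriv φ t • Jx (B (1, t) 0) + deriv ϑ t • B (1, t) 1) t := by
    intro t
    have a1 := act_hasDerivAt (hφd t) (hϑd t).cos (hϑd t).sin (B₀ 0) (B₀ 1)
    have a2 : (fun t => B (1, t) 0)
        = fun t => act (φ t) (Real.cos (ϑ t) • B₀ 0 + Real.sin (ϑ t) • B₀ 1) := by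
      funext t; exact h.side0 t
    rw [a2, h.side0, h.side1, ← act_smul]
    refine a1.congr_deriv ?_
    congr 2
    rw [smul_add, smul_smul, smul_smul]
    congr 2 <;> ring
  have d1 : ∀ t, HasDerivAt (fun t => B (1, t) 1)
      (deriv φ t • Jx (B (1, t) 1) + (-deriv ϑ t) • B (1, t) 0) t := by
    intro t
    have a1 := act_hasDerivAt (hφd t) (hϑd t).sin.neg (hϑd t).cos (B₀ 0) (B₀ 1)
    have a2 : (fun t => B (1, t) 1)
        = fun t => act (φ t) (-Real.sin (ϑ t) • B₀ 0 + Real.cos (ϑ t) • B₀ 1) := by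
      funext t; exact h.side1 t
    rw [a2, h.side0, h.side1, ← act_smul]
    refine a1.congr_deriv ?_
    congr 2
    rw [smul_add, smul_smul, smul_smul]
    congr 2 <;> ring
  have d2 : ∀ t (j : Fin (K + 5)), HasDerivAt (fun t => B (1, t) j.succ.succ)
      (deriv φ t • Jx (B (1, t) j.succ.succ) + (0 : ℝ) • B (1, t) 0) t := by
    intro t j
    have a1 := act_hasDerivAt (hφd t) (hasDerivAt_const t (1 : ℝ)) (hasDerivAt_const t (0 : ℝ))
      (B₀ j.succ.succ) 0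
    have a2 : (fun t => B (1, t) j.succ.succ)
        = fun t => act (φ t) ((1 : ℝ) • B₀ j.succ.succ + (0 : ℝ) • 0) := by
      funext t; rw [h.side2 t, one_smul, smul_zero, add_zero]
    rw [a2]
    have a3 : B (1, t) j.succ.succ = act (φ t) ((1 : ℝ) • B₀ j.succ.succ + (0 : ℝ) • 0) := by
      rw [h.side2 t, one_smul, smul_zero, add_zero]
    rw [a3]
    refine a1.congr_deriv ?_
    congr 1
    rw [zero_smul, zero_smul, zero_smul, add_zero, ← zero_smul ℝ (0 : XX K), act_smul, zero_smul,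
      smul_zero]
  have b0 := fun t => bt_hasDerivAt hγ (d0 t)
  have b1 := fun t => bt_hasDerivAt hγ (d1 t)
  have b2 := fun t j => bt_hasDerivAt hγ (d2 t j)
  have hOm : ∀ t, Om γ B (0, 1) (1, t)
      = deriv φ t • rho γ (Jm K) + (deriv ϑ t / 2) • (bt γ B 1 (1, t) * bt γ B 0 (1, t)) := by
    intro t
    refine Om_side hγ ho (1, t) (0, 1) _ _ ?_ ?_ (fun j => ?_)
    · exact (hasDerivAt_snd (bt_contDiff (γ := γ) hB 0) 1 t).unique (b0 t)
    · exact (hasDerivAt_snd (bt_contDiff (γ := γ) hB 1) 1 t).unique (b1 t)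
    · have := (hasDerivAt_snd (bt_contDiff (γ := γ) hB j.succ.succ) 1 t).unique (b2 t j)
      rw [this, zero_smul, add_zero]
  have hfin := rot_section (u := γ 1 * γ 0) (v := γ 3 * γ 2) (w := γ 5 * γ 4)
    (hγ.pair_sq n01.symm) (hγ.pair_sq n23.symm) (hγ.pair_sq n45.symm)
    (hγ.pair_comm n13 n12 n03 n02) (hγ.pair_comm n15 n14 n05 n04) (hγ.pair_comm n35 n34 n25 n24)
    (rho_Jm hγ) hφd hϑd (hφ.continuous_deriv (by simp))
    (pp := fun t => bt γ B 1 (1, t) * bt γ B 0 (1, t))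
    (fun t => by
      refine ((b1 t).mul (b0 t)).congr_deriv ?_
      have e0 := bt_sq hγ ho (1, t) 0
      have e1 := bt_sq hγ ho (1, t) 1
      change (_ + (-deriv ϑ t) • bt γ B 0 (1, t)) * _ + _ * (_ + deriv ϑ t • bt γ B 1 (1, t)) = _
      simp only [add_mul, mul_add, smul_mul_assoc, mul_smul_comm, sub_mul, mul_sub, smul_sub, e0,
        e1, mul_assoc]
      module)
    (bt_pair_sq hγ ho (1, 0) n01.symm)
    (fun t => by rw [← hOm]; exact hk t) hk0 hk1 hφ0 hϑ0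
  exact parity_final d e hφ1 hϑ1 hfin

end Pool.Agent.H86.Nco
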