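import Pool.Agent.H86.Nco.Spin1
import Pool.Agent.H86.Nco.Spin2

/-!
# Parity of loops of frames: see the header of `SpinDefs.lean`
-/

open scoped Manifold ContDiff Bundle Topology

noncomputable section

namespace Pool.Agent.H86.Nco

theorem frame_parity {K : ℕ} {T : ℝ × ℝ → Fin (K + 7) → XX K} {T₀ : Fin (K + 7) → XX K}
    {φ ϑ : ℝ → ℝ} (h : FrameBd T T₀ φ ϑ)
    (hφ : ContDiff ℝ ∞ φ) (hϑ : ContDiff ℝ ∞ ϑ) (hφ0 : φ 0 = 0) (hϑ0 : ϑ 0 = 0) (d e : ℤ)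
    (hφ1 : φ 1 = 2 * Real.pi * d) (hϑ1 : ϑ 1 = 2 * Real.pi * e) : Even (d + e) := by
  obtain ⟨B, B₀, hB, ho⟩ := exists_orthonormal h
  exact parity_of_orthonormal hB ho hφ hϑ hφ0 hϑ0 d e hφ1 hϑ1

end Pool.Agent.H86.Nco
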