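import Pool.Agent.H86.Nco.F0
import Pool.Agent.H86.Nco.Spin

/-!
# Module LEMW: the second Stiefel-Whitney class of `M`

A sphere `s` in `M` together with frames of `TM` along `s` which are constant on three sides of the
square and rotate by `ϑ` in the first two vectors on the fourth side.  If the projection of `s` to `S²`
has degree `d` and `ϑ 1 = 2 π e` then `d + e` is even.

Proof.  `h = pr ∘ s` is in `SphC` (`sphC_pr`).  Let `z, z₀, φ, d'` be as in `hopf_lift`; from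
`Deg h = 4 π d` we get `d' = d`.  For a vector `u = (c', d', v', x', s') ∈ V K` and `x ∈ ℝ²` put
`u^ = (P' z, ⟨z, v'⟩, x', s') ∈ ℂ² × ℂ × ℝ^(K+1)`, where
`P' = 1/2 (d', conj c'; c', - d')`, `z = z x`, `⟨z, v'⟩ = conj z₀ v'₀ + conj z₁ v'₁`, and `(x', s')`
are the last coordinates.  Define the frame `T^` of `XX K` (index set `Fin (K + 7)`, i.e. `K + 4`
vectors followed by three) by `T^_j = (T x j)^`, `N₁ = (z, 0, 0)`, `N₂ = (i z, 0, 0)`,
`N₃ = (0, ⟨z, v⟩, x, s)` with `(v, x, s)` the coordinates of the point `s x ∈ M`.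

Claims: (a) for `u` tangent to `M` at `s x`: `⟨z, P' z⟩ = 0`, and `u^` is orthogonal to `N₁, N₂, N₃`,
and `u^ = 0` implies `u = 0`.  Tangent vectors satisfy the linearised equations (differentiate the
equations of `carrier K` along `Par i`): `Re (conj c c') + d d' = 0`,
`(1 + d) v'₁ + d' v₁ = c' v₀ + c v'₀`, `(1 - d) v'₀ - d' v₀ = conj c' v₁ + conj c v'₁`,
`Re (conj v₀ v'₀ + conj v₁ v'₁) + ⟪x, x'⟫ + s s' = 0`.
The first gives `P' = P' P + P P'` (as a consequence `P P' P = 0`), the second and third say that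
`v' = P' v + P v'`, and `v = P v = z ⟨z, v⟩`.  If `P' z = 0` then `P' P = 0` (`P = z z*`), hence
`P P' = 0` and `P' = 0`, so `c' = 0`, `d' = 0`, `v' = P v' = z ⟨z, v'⟩`.
(b) so `T^` is linearly independent (`K + 7` vectors; the first `K + 4` are independent because
`u ↦ u^` is injective on the tangent space, `N₁, N₂, N₃` are orthogonal to each other, nonzero
(`‖z‖ = 1` and `‖⟨z, v⟩‖² + ‖x‖² + s² = 1`), and orthogonal to the rest).
(c) `T^` is smooth, equal to a constant frame for `x₁ ≤ 0`, `x₂ ≤ 0`, `1 ≤ x₂`, and at `x₁ = 1` we have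
`z = e^{i φ t} z₀`, so `u^ = act (φ t) (u^ at z₀)` (linear in `u`) and the same for `N₁, N₂, N₃`.
So `FrameBd` holds and `frame_parity` applies.
-/

open scoped Manifold ContDiff Bundle Topology

noncomputable section

namespace Pool.Agent.H86.Nco

open Pool.Agent.H86.Anco

variable {K : ℕ}

/-- tangent vectors satisfy the linearised equations of `carrier K` -/
theorem tan_rel {p u : V K} (hp : p ∈ carrier K) (hu : u ∈ Tan p) :
    ((starRingEnd ℂ) (pc p) * pc u).re + pd p * pd u = 0 ∧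
    ((1 + pd p : ℝ) : ℂ) * pv1 u + (pd u : ℂ) * pv1 p = pc u * pv0 p + pc p * pv0 u ∧
    ((1 - pd p : ℝ) : ℂ) * pv0 u - (pd u : ℂ) * pv0 p =
      (starRingEnd ℂ) (pc u) * pv1 p + (starRingEnd ℂ) (pc p) * pv1 u ∧
    ((starRingEnd ℂ) (pv0 p) * pv0 u + (starRingEnd ℂ) (pv1 p) * pv1 u).re
      + inner ℝ (px p) (px u) + ps p * ps u = 0 := by
  obtain ⟨w, hw⟩ := hu
  set i := idx p with hi
  set y := Cor i p with hy
  have hyp : Par i y = p := Par_Cor i hp (mem_Dom_idx p)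
  -- the curve
  have hγ : HasDerivAt (fun t : ℝ => Par i (y + t • w)) u 0 := by
    have h1 : HasFDerivAt (Par i : E K → V K) (fderiv ℝ (Par i) y) y :=
      ((contDiff_Par i).differentiable (by simp) y).hasFDerivAt
    have h2 : HasDerivAt (fun t : ℝ => y + t • w) w 0 := by
      simpa using ((hasDerivAt_id (0 : ℝ)).smul_const w).const_add y
    have h3 : HasFDerivAt (Par i : E K → V K) (fderiv ℝ (Par i) y) (y + (0 : ℝ) • w) := by
      simpa using h1
    have h4 := h3.comp_hasDerivAt (0 : ℝ) h2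
    rw [← hw]
    exact h4
  have hγ0 : Par i (y + (0 : ℝ) • w) = p := by simp [hyp]
  have hmem : ∀ t : ℝ, Par i (y + t • w) ∈ carrier K := fun t => Par_mem i _
  have hlin : ∀ {G : Type} [NormedAddCommGroup G] [NormedSpace ℝ G] (L : V K →L[ℝ] G),
      HasDerivAt (fun t : ℝ => L (Par i (y + t • w))) (L u) 0 := fun L =>
    L.hasFDerivAt.comp_hasDerivAt (0 : ℝ) hγ
  have hc := hlin pc
  have hd := hlin pd
  have hv0 := hlin pv0
  have hv1 := hlin pv1
  have hx := hlin px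
  have hs := hlin ps
  have hcc : HasDerivAt (fun t : ℝ => (starRingEnd ℂ) (pc (Par i (y + t • w))))
      ((starRingEnd ℂ) (pc u)) 0 := by
    have := (Complex.conjCLE : ℂ →L[ℝ] ℂ).hasFDerivAt.comp_hasDerivAt (0 : ℝ) hc
    exact this
  have hdc : HasDerivAt (fun t : ℝ => ((pd (Par i (y + t • w)) : ℝ) : ℂ)) ((pd u : ℝ) : ℂ) 0 := by
    have := Complex.ofRealCLM.hasFDerivAt.comp_hasDerivAt (0 : ℝ) hd
    exact this
  refine ⟨?_, ?_, ?_, ?_⟩
  · have h1 := hc.norm_sq.add (hd.fun_pow 2)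
    have h2 : (fun t : ℝ => ‖pc (Par i (y + t • w))‖ ^ 2 + pd (Par i (y + t • w)) ^ 2) =
        fun _ => (1 : ℝ) := funext fun t => (hmem t).1
    have h3 := h1.unique (by
      have := hasDerivAt_const (0 : ℝ) (1 : ℝ)
      rw [← h2] at this
      exact this)
    rw [hγ0, Complex.inner] at h3
    simp at h3
    have h4 : ((starRingEnd ℂ) (pc p) * pc u).re = (pc p).re * (pc u).re + (pc p).im * (pc u).im := by
      simp [Complex.mul_re]
    have h5 : (pc u * (starRingEnd ℂ) (pc p)).re = (pc p).re * (pc u).re + (pc p).im * (pc u).im := by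
      simp [Complex.mul_re]; ring
    simp [Complex.mul_re] at h3 ⊢
    linarith
  · have h1 := ((hasDerivAt_const (0 : ℝ) (1 : ℂ)).add hdc).mul hv1
    have h2 := hc.mul hv0
    have h3 : (fun t : ℝ => (1 + ((pd (Par i (y + t • w)) : ℝ) : ℂ)) * pv1 (Par i (y + t • w))) =
        fun t : ℝ => pc (Par i (y + t • w)) * pv0 (Par i (y + t • w)) := by
      funext t
      have := (hmem t).2.1
      push_cast at this
      exact this
    have h4 := h1.unique (by
      have := h2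
      change HasDerivAt (fun t : ℝ => pc (Par i (y + t • w)) * pv0 (Par i (y + t • w))) _ 0 at this
      rw [← h3] at this
      exact this)
    simp only [Pi.add_apply, hγ0, zero_add] at h4
    push_cast
    linear_combination h4
  · have h1 := ((hasDerivAt_const (0 : ℝ) (1 : ℂ)).sub hdc).mul hv0
    have h2 := hcc.mul hv1
    have h3 : (fun t : ℝ => (1 - ((pd (Par i (y + t • w)) : ℝ) : ℂ)) * pv0 (Par i (y + t • w))) =
        fun t : ℝ => (starRingEnd ℂ) (pc (Par i (y + t • w))) * pv1 (Par i (y + t • w)) := by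
      funext t
      have := (hmem t).2.2.1
      push_cast at this
      exact this
    have h4 := h1.unique (by
      have := h2
      change HasDerivAt (fun t : ℝ => (starRingEnd ℂ) (pc (Par i (y + t • w))) *
        pv1 (Par i (y + t • w))) _ 0 at this
      rw [← h3] at this
      exact this)
    simp only [Pi.sub_apply, hγ0, zero_sub] at h4
    push_cast
    linear_combination h4
  · have h1 := ((hv0.norm_sq.add hv1.norm_sq).add hx.norm_sq).add (hs.fun_pow 2)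
    have h2 : (fun t : ℝ => ‖pv0 (Par i (y + t • w))‖ ^ 2 + ‖pv1 (Par i (y + t • w))‖ ^ 2 +
        ‖px (Par i (y + t • w))‖ ^ 2 + ps (Par i (y + t • w)) ^ 2) =
        fun _ => (1 : ℝ) := funext fun t => (hmem t).2.2.2
    have h3 := h1.unique (by
      have := hasDerivAt_const (0 : ℝ) (1 : ℝ)
      rw [← h2] at this
      exact this)
    rw [hγ0, Complex.inner, Complex.inner] at h3
    simp at h3
    simp [Complex.mul_re] at h3 ⊢
    linarith

/-- the last coordinates -/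
def wl (u : V K) : Fin (K + 1) → ℝ := Fin.cons (ps u) (fun i => px u i)

/-- the vector `u^` -/
def hat (z : ℂ × ℂ) (u : V K) : XX K :=
  ((1 / 2 : ℂ) * ((pd u : ℂ) * z.1 + (starRingEnd ℂ) (pc u) * z.2),
    (1 / 2 : ℂ) * (pc u * z.1 - (pd u : ℂ) * z.2),
    (starRingEnd ℂ) z.1 * pv0 u + (starRingEnd ℂ) z.2 * pv1 u, wl u)

def N1 (K : ℕ) (z : ℂ × ℂ) : XX K := (z.1, z.2, 0, 0)

def N2 (K : ℕ) (z : ℂ × ℂ) : XX K := (Complex.I * z.1, Complex.I * z.2, 0, 0)

def N3 (z : ℂ × ℂ) (p : V K) : XX K :=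
  (0, 0, (starRingEnd ℂ) z.1 * pv0 p + (starRingEnd ℂ) z.2 * pv1 p, wl p)

theorem wl_add (u v : V K) : wl (u + v) = wl u + wl v := by
  funext j
  refine Fin.cases ?_ (fun i => ?_) j
  · simp [wl]
  · simp [wl]

theorem wl_smul (r : ℝ) (u : V K) : wl (r • u) = r • wl u := by
  funext j
  refine Fin.cases ?_ (fun i => ?_) j
  · simp [wl]
  · simp [wl]

/-- `hat z` as a linear map -/
def hatL (z : ℂ × ℂ) : V K →ₗ[ℝ] XX K where
  toFun := hat z
  map_add' u v := by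
    refine Prod.ext ?_ (Prod.ext ?_ (Prod.ext ?_ ?_))
    · simp [hat]; ring
    · simp [hat]; ring
    · simp [hat]; ring
    · exact wl_add u v
  map_smul' r u := by
    refine Prod.ext ?_ (Prod.ext ?_ (Prod.ext ?_ ?_))
    · simp [hat]; ring
    · simp [hat]; ring
    · simp [hat]; ring
    · exact wl_smul r u

/-- the frame -/
def Fr (z : ℂ × ℂ) (p : V K) (T : Fin (K + 4) → V K) (j : Fin (K + 7)) : XX K :=
  if h : j.1 < K + 4 then hat z (T ⟨j.1, h⟩)
  else if j.1 = K + 4 then N1 K z else if j.1 = K + 5 then N2 K z else N3 z p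

theorem Fr_cast (z : ℂ × ℂ) (p : V K) (T : Fin (K + 4) → V K) (j : Fin (K + 4)) :
    Fr z p T j.castSucc.castSucc.castSucc = hat z (T j) := by
  unfold Fr
  rw [dif_pos (show j.castSucc.castSucc.castSucc.1 < K + 4 from j.2)]
  rfl

theorem Fr_N1 (z : ℂ × ℂ) (p : V K) (T : Fin (K + 4) → V K) :
    Fr z p T (Fin.last (K + 4)).castSucc.castSucc = N1 K z := by
  unfold Fr
  simp

theorem Fr_N2 (z : ℂ × ℂ) (p : V K) (T : Fin (K + 4) → V K) :
    Fr z p T (Fin.last (K + 5)).castSucc = N2 K z := by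
  unfold Fr
  simp

theorem Fr_N3 (z : ℂ × ℂ) (p : V K) (T : Fin (K + 4) → V K) :
    Fr z p T (Fin.last (K + 6)) = N3 z p := by
  unfold Fr
  simp

/-- the value of the projection belonging to `z` -/
theorem proj_formula {c : ℂ} {d : ℝ} {z : ℂ × ℂ} (hz : ‖z.1‖ ^ 2 + ‖z.2‖ ^ 2 = 1)
    (h1 : ((1 + d : ℝ) : ℂ) * z.2 = c * z.1)
    (h2 : ((1 - d : ℝ) : ℂ) * z.1 = (starRingEnd ℂ) c * z.2) :
    z.1 * (starRingEnd ℂ) z.1 + z.2 * (starRingEnd ℂ) z.2 = 1 ∧
    c = 2 * (starRingEnd ℂ) z.1 * z.2 ∧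
    (starRingEnd ℂ) c = 2 * z.1 * (starRingEnd ℂ) z.2 ∧
    (d : ℂ) = z.1 * (starRingEnd ℂ) z.1 - z.2 * (starRingEnd ℂ) z.2 := by
  have hzc : z.1 * (starRingEnd ℂ) z.1 + z.2 * (starRingEnd ℂ) z.2 = 1 := by
    rw [Complex.mul_conj', Complex.mul_conj']
    exact_mod_cast hz
  have h1' := congrArg (starRingEnd ℂ) h1
  have h2' := congrArg (starRingEnd ℂ) h2
  simp only [map_mul, Complex.conj_ofReal, Complex.conj_conj] at h1' h2'
  push_cast at h1 h2 h1' h2'
  have hc : c = 2 * (starRingEnd ℂ) z.1 * z.2 := by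
    linear_combination (-c) * hzc - (starRingEnd ℂ) z.1 * h1 - z.2 * h2'
  refine ⟨hzc, hc, ?_, ?_⟩
  · rw [hc, map_mul, map_mul, Complex.conj_conj, map_ofNat]
  · linear_combination (-(d : ℂ)) * hzc + (starRingEnd ℂ) z.2 * h1 - z.1 * h2'

/-- vectors of the line belonging to `z` -/
theorem line_formula {c : ℂ} {d : ℝ} {z : ℂ × ℂ} (hz : ‖z.1‖ ^ 2 + ‖z.2‖ ^ 2 = 1)
    (h1 : ((1 + d : ℝ) : ℂ) * z.2 = c * z.1)
    (h2 : ((1 - d : ℝ) : ℂ) * z.1 = (starRingEnd ℂ) c * z.2) {v0 v1 : ℂ}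
    (e1 : ((1 + d : ℝ) : ℂ) * v1 = c * v0)
    (e2 : ((1 - d : ℝ) : ℂ) * v0 = (starRingEnd ℂ) c * v1) :
    v0 = z.1 * ((starRingEnd ℂ) z.1 * v0 + (starRingEnd ℂ) z.2 * v1) ∧
    v1 = z.2 * ((starRingEnd ℂ) z.1 * v0 + (starRingEnd ℂ) z.2 * v1) := by
  obtain ⟨hzc, hc, hc', hd⟩ := proj_formula hz h1 h2
  push_cast at e1 e2
  rw [hd, hc] at e1
  rw [hd, hc'] at e2
  constructor
  · linear_combination (-v0) * hzc + (1 / 2 : ℂ) * e2 + (1 / 2 : ℂ) * v0 * hzc
  · linear_combination (-v1) * hzc + (1 / 2 : ℂ) * e1 + (1 / 2 : ℂ) * v1 * hzc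

theorem Fr_indep {z : ℂ × ℂ} {p : V K} {T : Fin (K + 4) → V K} (hp : p ∈ carrier K)
    (hz : ‖z.1‖ ^ 2 + ‖z.2‖ ^ 2 = 1) (h1 : ((1 + pd p : ℝ) : ℂ) * z.2 = pc p * z.1)
    (h2 : ((1 - pd p : ℝ) : ℂ) * z.1 = (starRingEnd ℂ) (pc p) * z.2)
    (hT : ∀ j, T j ∈ Tan p) (hli : LinearIndependent ℝ T) : LinearIndependent ℝ (Fr z p T) := by
  rw [Fintype.linearIndependent_iff]
  intro g hg
  rw [Fin.sum_univ_castSucc, Fin.sum_univ_castSucc, Fin.sum_univ_castSucc, Fr_N1, Fr_N2,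
    Fr_N3] at hg
  simp only [Fr_cast] at hg
  set u : V K := ∑ i : Fin (K + 4), g i.castSucc.castSucc.castSucc • T i with hudef
  set a := g (Fin.last (K + 4)).castSucc.castSucc with ha
  set b := g (Fin.last (K + 5)).castSucc with hb
  set c := g (Fin.last (K + 6)) with hc
  have hsum : ∑ i : Fin (K + 4), g i.castSucc.castSucc.castSucc • hat z (T i) = hat z u := by
    have h3 := map_sum (hatL (K := K) z) (fun i : Fin (K + 4) =>
      g i.castSucc.castSucc.castSucc • T i) Finset.univ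
    simp only [map_smul] at h3
    exact h3.symm
  rw [hsum] at hg
  have hu : u ∈ Tan p := Submodule.sum_mem _ fun i _ => Submodule.smul_mem _ _ (hT i)
  obtain ⟨r1, r2, r3, r4⟩ := tan_rel hp hu
  obtain ⟨hzc, hpc, hpc', hpd⟩ := proj_formula hz h1 h2
  have k1 := congrArg (fun q : XX K => q.1) hg
  have k2 := congrArg (fun q : XX K => q.2.1) hg
  have k3 := congrArg (fun q : XX K => q.2.2.1) hg
  have k4 := congrArg (fun q : XX K => q.2.2.2) hg
  simp only [hat, N1, N2, N3, Prod.fst_add, Prod.snd_add, Prod.smul_fst, Prod.smul_snd,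
    Complex.real_smul, smul_zero, add_zero, Prod.fst_zero, Prod.snd_zero] at k1 k2 k3 k4
  -- the first two coefficients
  have r1' : (starRingEnd ℂ) (pc p) * pc u + pc p * (starRingEnd ℂ) (pc u) +
      2 * (pd p : ℂ) * (pd u : ℂ) = 0 := by
    have h3 := Complex.add_conj ((starRingEnd ℂ) (pc p) * pc u)
    rw [map_mul, Complex.conj_conj] at h3
    rw [h3]
    have h4 : ((2 * ((starRingEnd ℂ) (pc p) * pc u).re : ℝ) : ℂ) + 2 * (pd p : ℂ) * (pd u : ℂ) =
        ((2 * (((starRingEnd ℂ) (pc p) * pc u).re + pd p * pd u) : ℝ) : ℂ) := by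
      push_cast
      ring
    rw [h4, r1]
    simp
  have hab : (a : ℂ) + b * Complex.I = 0 := by
    rw [hpc', hpc, hpd] at r1'
    linear_combination (starRingEnd ℂ) z.1 * k1 + (starRingEnd ℂ) z.2 * k2 -
      ((a : ℂ) + b * Complex.I) * hzc - (1 / 4 : ℂ) * r1'
  have ha0 : a = 0 := by
    have := congrArg Complex.re hab
    simpa using this
  have hb0 : b = 0 := by
    have := congrArg Complex.im hab
    simpa using this
  rw [ha0, hb0] at k1 k2
  simp only [Complex.ofReal_zero, zero_mul, add_zero] at k1 k2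
  have hnorm : pd u ^ 2 + ‖pc u‖ ^ 2 = 0 := by
    have h3 : ((pd u : ℂ)) ^ 2 + pc u * (starRingEnd ℂ) (pc u) = 0 := by
      linear_combination 2 * ((pd u : ℂ) * (starRingEnd ℂ) z.1 + pc u * (starRingEnd ℂ) z.2) * k1
        + 2 * ((starRingEnd ℂ) (pc u) * (starRingEnd ℂ) z.1 - (pd u : ℂ) * (starRingEnd ℂ) z.2) * k2
        - ((pd u : ℂ) ^ 2 + pc u * (starRingEnd ℂ) (pc u)) * hzc
    rw [Complex.mul_conj'] at h3
    exact_mod_cast h3
  have hpdu : pd u = 0 := by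
    have := sq_nonneg ‖pc u‖
    have := sq_nonneg (pd u)
    exact pow_eq_zero_iff (n := 2) (by norm_num) |>.1 (by linarith)
  have hpcu : pc u = 0 := by
    have : ‖pc u‖ ^ 2 = 0 := by rw [hpdu] at hnorm; linarith
    exact norm_eq_zero.1 (pow_eq_zero_iff (n := 2) (by norm_num) |>.1 this)
  rw [hpdu, hpcu] at r2 r3
  simp only [Complex.ofReal_zero, zero_mul, map_zero, add_zero, zero_add, sub_zero] at r2 r3
  obtain ⟨v1, v2⟩ := line_formula hz h1 h2 r2 r3
  obtain ⟨w1, w2⟩ := line_formula hz h1 h2 hp.2.1 hp.2.2.1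
  have k3' : (starRingEnd ℂ) z.1 * pv0 u + (starRingEnd ℂ) z.2 * pv1 u =
      -(c : ℂ) * ((starRingEnd ℂ) z.1 * pv0 p + (starRingEnd ℂ) z.2 * pv1 p) := by
    linear_combination k3
  have e1 : pv0 u = -(c : ℂ) * pv0 p := by
    rw [v1, k3']
    linear_combination (c : ℂ) * w1
  have e2 : pv1 u = -(c : ℂ) * pv1 p := by
    rw [v2, k3']
    linear_combination (c : ℂ) * w2
  have e3 : ps u = -c * ps p := by
    have := congrFun k4 0
    simp [wl] at this
    linarith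
  have e4 : px u = -c • px p := by
    ext i
    have := congrFun k4 i.succ
    simp [wl] at this
    simp
    linarith
  have hc0 : c = 0 := by
    have h3 := hp.2.2.2
    rw [e1, e2, e3, e4, inner_smul_right, real_inner_self_eq_norm_sq] at r4
    have h4 : ((starRingEnd ℂ) (pv0 p) * (-(c : ℂ) * pv0 p) +
        (starRingEnd ℂ) (pv1 p) * (-(c : ℂ) * pv1 p)).re =
        -c * (‖pv0 p‖ ^ 2 + ‖pv1 p‖ ^ 2) := by
      have h5 : (starRingEnd ℂ) (pv0 p) * (-(c : ℂ) * pv0 p) +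
          (starRingEnd ℂ) (pv1 p) * (-(c : ℂ) * pv1 p) =
          ((-c * (‖pv0 p‖ ^ 2 + ‖pv1 p‖ ^ 2) : ℝ) : ℂ) := by
        push_cast
        rw [← Complex.conj_mul', ← Complex.conj_mul']
        ring
      rw [h5, Complex.ofReal_re]
    rw [h4] at r4
    have h6 : -c * (‖pv0 p‖ ^ 2 + ‖pv1 p‖ ^ 2 + ‖px p‖ ^ 2 + ps p ^ 2) = 0 := by linarith
    rw [h3] at h6
    linarith
  rw [hc0] at e1 e2 e3 e4
  have hu0 : u = 0 := by
    have e5 : u = (pc u, pd u, pv0 u, pv1 u, px u, ps u) := rfl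
    rw [e5, hpcu, hpdu, e1, e2, e3, e4]
    simp
  have hg' := Fintype.linearIndependent_iff.1 hli (fun i => g i.castSucc.castSucc.castSucc) hu0
  intro j
  refine Fin.lastCases hc0 (fun j => ?_) j
  refine Fin.lastCases hb0 (fun j => ?_) j
  refine Fin.lastCases ha0 (fun j => ?_) j
  exact hg' j

/-- rotation of `z` -/
def rot (φ : ℝ) (z : ℂ × ℂ) : ℂ × ℂ :=
  (Complex.exp (φ * Complex.I) * z.1, Complex.exp (φ * Complex.I) * z.2)

theorem conj_exp (φ : ℝ) : (starRingEnd ℂ) (Complex.exp (φ * Complex.I)) =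
    Complex.exp (-(φ * Complex.I)) := by
  rw [← Complex.exp_conj]
  simp

theorem act_hat (φ : ℝ) (z : ℂ × ℂ) (u : V K) : act φ (hat z u) = hat (rot φ z) u := by
  unfold act hat rot
  refine Prod.ext ?_ (Prod.ext ?_ (Prod.ext ?_ ?_))
  · simp only; ring
  · simp only; ring
  · simp only [map_mul, conj_exp]; ring
  · rfl

theorem act_Fr (φ : ℝ) (z : ℂ × ℂ) (p : V K) (T : Fin (K + 4) → V K) (j : Fin (K + 7)) :
    act φ (Fr z p T j) = Fr (rot φ z) p T j := by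
  unfold Fr
  split_ifs with h1 h2 h3
  · exact act_hat _ _ _
  · unfold act N1 rot
    simp
  · unfold act N2 rot
    refine Prod.ext ?_ (Prod.ext ?_ (Prod.ext ?_ ?_))
    · simp only; ring
    · simp only; ring
    · simp
    · rfl
  · unfold act N3 rot
    refine Prod.ext ?_ (Prod.ext ?_ (Prod.ext ?_ ?_))
    · simp
    · simp
    · simp only [map_mul, conj_exp]; ring
    · rfl

theorem hat_comb (z : ℂ × ℂ) (x y : ℝ) (u v : V K) :
    hat z (x • u + y • v) = x • hat z u + y • hat z v := by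
  have := map_add (hatL (K := K) z) (x • u) (y • v)
  rw [map_smul, map_smul] at this
  exact this

theorem Fr_zero (z : ℂ × ℂ) (p : V K) (T : Fin (K + 4) → V K) : Fr z p T 0 = hat z (T 0) := by
  unfold Fr
  rw [dif_pos (show (0 : Fin (K + 7)).1 < K + 4 from by simp)]
  rfl

theorem Fr_one (z : ℂ × ℂ) (p : V K) (T : Fin (K + 4) → V K) : Fr z p T 1 = hat z (T 1) := by
  unfold Fr
  rw [dif_pos (show (1 : Fin (K + 7)).1 < K + 4 from by
    show 1 % (K + 7) < K + 4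
    rw [Nat.mod_eq_of_lt (by omega)]
    omega)]
  congr 2

theorem Fr_congr (z : ℂ × ℂ) (p : V K) (T T' : Fin (K + 4) → V K)
    (h : ∀ j : Fin (K + 2), T j.succ.succ = T' j.succ.succ) (j : Fin (K + 5)) :
    Fr z p T j.succ.succ = Fr z p T' j.succ.succ := by
  unfold Fr
  split_ifs with h1
  · have h2 : j.1 + 2 < K + 4 := h1
    exact congrArg (hat z) (h ⟨j.1, by omega⟩)
  all_goals rfl

theorem contDiff_hat {z : ℝ × ℝ → ℂ × ℂ} {u : ℝ × ℝ → V K} (hz : ContDiff ℝ ∞ z)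
    (hu : ContDiff ℝ ∞ u) : ContDiff ℝ ∞ (fun x => hat (z x) (u x)) := by
  have h1 : ContDiff ℝ ∞ (fun x => (z x).1) := contDiff_fst.comp hz
  have h2 : ContDiff ℝ ∞ (fun x => (z x).2) := contDiff_snd.comp hz
  have h1' : ContDiff ℝ ∞ (fun x => (starRingEnd ℂ) (z x).1) :=
    (Complex.conjCLE : ℂ →L[ℝ] ℂ).contDiff.comp h1
  have h2' : ContDiff ℝ ∞ (fun x => (starRingEnd ℂ) (z x).2) :=
    (Complex.conjCLE : ℂ →L[ℝ] ℂ).contDiff.comp h2
  have hc : ContDiff ℝ ∞ (fun x => pc (u x)) := pc.contDiff.comp hu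
  have hc' : ContDiff ℝ ∞ (fun x => (starRingEnd ℂ) (pc (u x))) :=
    (Complex.conjCLE : ℂ →L[ℝ] ℂ).contDiff.comp hc
  have hd : ContDiff ℝ ∞ (fun x => ((pd (u x) : ℝ) : ℂ)) :=
    Complex.ofRealCLM.contDiff.comp (pd.contDiff.comp hu)
  have h0 : ContDiff ℝ ∞ (fun x => pv0 (u x)) := pv0.contDiff.comp hu
  have h3 : ContDiff ℝ ∞ (fun x => pv1 (u x)) := pv1.contDiff.comp hu
  have hw : ContDiff ℝ ∞ (fun x => wl (u x)) := by
    rw [contDiff_pi]
    intro j
    refine Fin.cases ?_ (fun i => ?_) j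
    · exact ps.contDiff.comp hu
    · have h4 : ContDiff ℝ ∞ (fun x => px (u x)) := px.contDiff.comp hu
      exact (contDiff_euclidean.1 h4) i
  exact (contDiff_const.mul ((hd.mul h1).add (hc'.mul h2))).prodMk
    ((contDiff_const.mul ((hc.mul h1).sub (hd.mul h2))).prodMk
      (((h1'.mul h0).add (h2'.mul h3)).prodMk hw))

theorem contDiff_Fr {z : ℝ × ℝ → ℂ × ℂ} {s : ℝ × ℝ → V K} {T : ℝ × ℝ → Fin (K + 4) → V K}
    (hz : ContDiff ℝ ∞ z) (hs : ContDiff ℝ ∞ s) (hT : ContDiff ℝ ∞ T) :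
    ContDiff ℝ ∞ (fun x => Fr (z x) (s x) (T x)) := by
  have h1 : ContDiff ℝ ∞ (fun x => (z x).1) := contDiff_fst.comp hz
  have h2 : ContDiff ℝ ∞ (fun x => (z x).2) := contDiff_snd.comp hz
  rw [contDiff_pi]
  intro j
  unfold Fr
  split_ifs with h3 h4 h5
  · exact contDiff_hat hz ((contDiff_pi.1 hT) _)
  · exact h1.prodMk (h2.prodMk (contDiff_const.prodMk contDiff_const))
  · exact (contDiff_const.mul h1).prodMk ((contDiff_const.mul h2).prodMk
      (contDiff_const.prodMk contDiff_const))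
  · have h6 := contDiff_hat hz hs
    have h7 : ContDiff ℝ ∞ (fun x => (hat (z x) (s x)).2.2) :=
      contDiff_snd.comp (contDiff_snd.comp h6)
    exact contDiff_const.prodMk (contDiff_const.prodMk h7)

theorem even_add {p₀ : V K} {s : ℝ × ℝ → V K} (hs : Sph K p₀ s)
    (T : ℝ × ℝ → Fin (K + 4) → V K) (hT : ContDiff ℝ ∞ T)
    (hTan : ∀ x j, T x j ∈ Tan (s x)) (hli : ∀ x, LinearIndependent ℝ (T x))
    (T₀ : Fin (K + 4) → V K) (hT0 : ∀ x, x.1 ≤ 0 ∨ x.2 ≤ 0 ∨ 1 ≤ x.2 → T x = T₀)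
    (ϑ : ℝ → ℝ) (hϑ : ContDiff ℝ ∞ ϑ) (hϑ0 : ϑ 0 = 0) (e : ℤ) (hϑ1 : ϑ 1 = 2 * Real.pi * e)
    (h0 : ∀ t, T (1, t) 0 = Real.cos (ϑ t) • T₀ 0 + Real.sin (ϑ t) • T₀ 1)
    (h1 : ∀ t, T (1, t) 1 = -Real.sin (ϑ t) • T₀ 0 + Real.cos (ϑ t) • T₀ 1)
    (h2 : ∀ t (j : Fin (K + 2)), T (1, t) j.succ.succ = T₀ j.succ.succ)
    (d : ℤ) (hd : Deg (fun x => pr (s x)) = 4 * Real.pi * d) : Even (d + e) := by
  obtain ⟨z, z₀, φ, d', hz, hφ, hz1, hz2, hz3, hz4, hz5, hφ0, hφ1, hdeg⟩ :=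
    hopf_lift (sphC_pr hs)
  have hdd : d' = d := by
    rw [hd] at hdeg
    have h3 : (4 * Real.pi : ℝ) ≠ 0 := by positivity
    have h4 := mul_left_cancel₀ h3 hdeg
    exact_mod_cast h4.symm
  subst hdd
  have hout : ∀ x : ℝ × ℝ, x.1 ≤ 0 ∨ x.2 ≤ 0 ∨ 1 ≤ x.2 → s x = p₀ := by
    intro x hx
    apply hs.out
    rintro ⟨⟨h3, h4⟩, h5, h6⟩
    rcases hx with hx | hx | hx <;> linarith
  have hs1 : ∀ t, s (1, t) = p₀ := by
    intro t
    apply hs.out
    rintro ⟨⟨h3, h4⟩, h5, h6⟩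
    exact lt_irrefl _ h4
  have hz5' : ∀ t, z (1, t) = rot (φ t) z₀ := hz5
  refine frame_parity (K := K) (T := fun x => Fr (z x) (s x) (T x)) (T₀ := Fr z₀ p₀ T₀)
    (φ := φ) (ϑ := ϑ) ⟨contDiff_Fr hz hs.smooth hT, fun x => ?_, fun x hx => ?_, fun t => ?_,
      fun t => ?_, fun t j => ?_⟩ hφ hϑ hφ0 hϑ0 d' e hφ1 hϑ1
  · exact Fr_indep (hs.mem x) (hz1 x) (hz2 x) (hz3 x) (hTan x) (hli x)
  · show Fr (z x) (s x) (T x) = _
    rw [hz4 x hx, hout x hx, hT0 x hx]
  · show Fr (z (1, t)) (s (1, t)) (T (1, t)) 0 = _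
    rw [hz5', hs1, Fr_zero, h0, Fr_zero, Fr_one, ← hat_comb, act_hat]
  · show Fr (z (1, t)) (s (1, t)) (T (1, t)) 1 = _
    rw [hz5', hs1, Fr_one, h1, Fr_zero, Fr_one, ← hat_comb, act_hat]
  · show Fr (z (1, t)) (s (1, t)) (T (1, t)) j.succ.succ = _
    rw [hz5', hs1, act_Fr]
    exact Fr_congr _ _ _ _ (h2 t) j

end Pool.Agent.H86.Nco
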