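import Pool.Agent.H86.Nco.Hopf

/-!
# Module SPHERE: an explicit sphere in `M` on which `f₀` has integral one

`x ↦ (c, d, 0, 0, 0, 1)` with `(c, d) = h x`, `h` a map of degree one.
Take `T = Real.smoothTransition`, `α = π T (x₁) / 2`, `φ = 2 π T (x₂)`,
`z = (cos² α + sin² α e^{iφ}, cos α sin α (1 - e^{iφ}))`, `h = (2 conj z₀ z₁, ‖z₀‖² - ‖z₁‖²)`.
`z` is `(1, 0)` for `x₁ ≤ 0` or `x₂ ≤ 0` or `x₂ ≥ 1` and `(e^{iφ}, 0)` for `x₁ ≥ 1`, so `h = (0, 1)`
there.  By `berry` the integrand of the degree is `4 α' cos α sin α φ' (1 - cos φ)`, and its integral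
is `2 * 2 π`.
-/

open scoped Manifold ContDiff Bundle Topology

noncomputable section

namespace Pool.Agent.H86.Nco

open Pool.Agent.H86.Anco

/-- the angle `α` -/
def sal (t : ℝ) : ℝ := Real.pi / 2 * Real.smoothTransition t

/-- the angle `φ` -/
def sph (t : ℝ) : ℝ := 2 * Real.pi * Real.smoothTransition t

lemma contDiff_sal : ContDiff ℝ ∞ sal := contDiff_const.mul Real.smoothTransition.contDiff

lemma contDiff_sph : ContDiff ℝ ∞ sph := contDiff_const.mul Real.smoothTransition.contDiff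

lemma hasDerivAt_sal (t : ℝ) : HasDerivAt sal (deriv sal t) t :=
  (contDiff_sal.differentiable (by simp)).differentiableAt.hasDerivAt

lemma hasDerivAt_sph (t : ℝ) : HasDerivAt sph (deriv sph t) t :=
  (contDiff_sph.differentiable (by simp)).differentiableAt.hasDerivAt

/-- the lift of the map of degree one -/
def sz (x : ℝ × ℝ) : ℂ × ℂ :=
  ((Real.cos (sal x.1) : ℂ) ^ 2 + (Real.sin (sal x.1) : ℂ) ^ 2 * Complex.exp (sph x.2 * Complex.I),
    (Real.cos (sal x.1) : ℂ) * (Real.sin (sal x.1) : ℂ) * (1 - Complex.exp (sph x.2 * Complex.I)))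

lemma contDiff_sz : ContDiff ℝ ∞ sz := by
  have h1 : ContDiff ℝ ∞ (fun x : ℝ × ℝ => (Real.cos (sal x.1) : ℂ)) :=
    Complex.ofRealCLM.contDiff.comp (Real.contDiff_cos.comp (contDiff_sal.comp contDiff_fst))
  have h2 : ContDiff ℝ ∞ (fun x : ℝ × ℝ => (Real.sin (sal x.1) : ℂ)) :=
    Complex.ofRealCLM.contDiff.comp (Real.contDiff_sin.comp (contDiff_sal.comp contDiff_fst))
  have h3 : ContDiff ℝ ∞ (fun x : ℝ × ℝ => Complex.exp (sph x.2 * Complex.I)) :=
    ((Complex.ofRealCLM.contDiff.comp (contDiff_sph.comp contDiff_snd)).mul contDiff_const).cexp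
  exact ((h1.pow 2).add ((h2.pow 2).mul h3)).prodMk ((h1.mul h2).mul (contDiff_const.sub h3))

lemma sz_norm (x : ℝ × ℝ) : ‖(sz x).1‖ ^ 2 + ‖(sz x).2‖ ^ 2 = 1 := by
  have e1 : (sz x).1 = ⟨Real.cos (sal x.1) ^ 2 + Real.sin (sal x.1) ^ 2 * Real.cos (sph x.2),
      Real.sin (sal x.1) ^ 2 * Real.sin (sph x.2)⟩ := by
    apply Complex.ext
    · simp [sz, Complex.exp_ofReal_mul_I_re, ← Complex.ofReal_pow, ← Complex.ofReal_cos,
        ← Complex.ofReal_sin]
    · simp [sz, Complex.exp_ofReal_mul_I_im, ← Complex.ofReal_pow, ← Complex.ofReal_cos,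
        ← Complex.ofReal_sin]
  have e2 : (sz x).2 = ⟨Real.cos (sal x.1) * Real.sin (sal x.1) * (1 - Real.cos (sph x.2)),
      -(Real.cos (sal x.1) * Real.sin (sal x.1) * Real.sin (sph x.2))⟩ := by
    apply Complex.ext
    · simp [sz, Complex.exp_ofReal_mul_I_re, ← Complex.ofReal_pow, ← Complex.ofReal_cos,
        ← Complex.ofReal_sin, ← Complex.ofReal_mul]
    · simp [sz, Complex.exp_ofReal_mul_I_im, ← Complex.ofReal_pow, ← Complex.ofReal_cos,
        ← Complex.ofReal_sin, ← Complex.ofReal_mul]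
  rw [e1, e2, Complex.sq_norm, Complex.sq_norm, Complex.normSq_apply, Complex.normSq_apply]
  have h1 := Real.sin_sq_add_cos_sq (sal x.1)
  have h2 := Real.sin_sq_add_cos_sq (sph x.2)
  simp only
  linear_combination (Real.sin (sal x.1) ^ 2 + Real.cos (sal x.1) ^ 2 + 1) * h1
    + (Real.sin (sal x.1) ^ 4 + Real.cos (sal x.1) ^ 2 * Real.sin (sal x.1) ^ 2) * h2

/-- the partial derivatives of `sz` -/
def sz1 (x : ℝ × ℝ) : ℂ × ℂ :=
  (2 * (Real.cos (sal x.1) : ℂ) * (Real.sin (sal x.1) : ℂ) * ((deriv sal x.1 : ℝ) : ℂ)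
      * (Complex.exp (sph x.2 * Complex.I) - 1),
    ((deriv sal x.1 : ℝ) : ℂ) * ((Real.cos (sal x.1) : ℂ) ^ 2 - (Real.sin (sal x.1) : ℂ) ^ 2)
      * (1 - Complex.exp (sph x.2 * Complex.I)))

def sz2 (x : ℝ × ℝ) : ℂ × ℂ :=
  ((Real.sin (sal x.1) : ℂ) ^ 2 * (Complex.exp (sph x.2 * Complex.I)
      * (((deriv sph x.2 : ℝ) : ℂ) * Complex.I)),
    -((Real.cos (sal x.1) : ℂ) * (Real.sin (sal x.1) : ℂ) * (Complex.exp (sph x.2 * Complex.I)
      * (((deriv sph x.2 : ℝ) : ℂ) * Complex.I))))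

lemma fderiv_sz1 (x y : ℝ) : fderiv ℝ sz (x, y) (1, 0) = sz1 (x, y) := by
  have hF : HasFDerivAt sz (fderiv ℝ sz (x, y)) (x, y) :=
    ((contDiff_sz.differentiable (by simp)).differentiableAt).hasFDerivAt
  have hg : HasDerivAt (fun s : ℝ => (s, y)) ((1, 0) : ℝ × ℝ) x :=
    (hasDerivAt_id' x).prodMk (hasDerivAt_const x y)
  have h0 : HasDerivAt (sz ∘ fun s : ℝ => (s, y)) (fderiv ℝ sz (x, y) (1, 0)) x :=
    HasFDerivAt.comp_hasDerivAt (f := fun s : ℝ => (s, y)) x hF hg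
  refine h0.unique ?_
  have hc : HasDerivAt (fun s => ((Real.cos (sal s) : ℝ) : ℂ))
      ((-Real.sin (sal x) * deriv sal x : ℝ) : ℂ) x := ((hasDerivAt_sal x).cos).ofReal_comp
  have hs : HasDerivAt (fun s => ((Real.sin (sal s) : ℝ) : ℂ))
      ((Real.cos (sal x) * deriv sal x : ℝ) : ℂ) x := ((hasDerivAt_sal x).sin).ofReal_comp
  have h1 := ((hc.pow 2).add ((hs.pow 2).mul_const (Complex.exp (sph y * Complex.I)))).prodMk
    ((hc.mul hs).mul_const (1 - Complex.exp (sph y * Complex.I)))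
  refine h1.congr_deriv ?_
  unfold sz1
  refine Prod.ext ?_ ?_
  · push_cast
    ring
  · push_cast
    ring

lemma fderiv_sz2 (x y : ℝ) : fderiv ℝ sz (x, y) (0, 1) = sz2 (x, y) := by
  have hF : HasFDerivAt sz (fderiv ℝ sz (x, y)) (x, y) :=
    ((contDiff_sz.differentiable (by simp)).differentiableAt).hasFDerivAt
  have hg : HasDerivAt (fun s : ℝ => (x, s)) ((0, 1) : ℝ × ℝ) y :=
    (hasDerivAt_const y x).prodMk (hasDerivAt_id' y)
  have h0 : HasDerivAt (sz ∘ fun s : ℝ => (x, s)) (fderiv ℝ sz (x, y) (0, 1)) y :=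
    HasFDerivAt.comp_hasDerivAt (f := fun s : ℝ => (x, s)) y hF hg
  refine h0.unique ?_
  have he : HasDerivAt (fun s => Complex.exp (sph s * Complex.I))
      (Complex.exp (sph y * Complex.I) * (((deriv sph y : ℝ) : ℂ) * Complex.I)) y :=
    (((hasDerivAt_sph y).ofReal_comp).mul_const Complex.I).cexp
  have h1 := ((he.const_mul ((Real.sin (sal x) : ℂ) ^ 2)).const_add
    ((Real.cos (sal x) : ℂ) ^ 2)).prodMk
    ((he.const_sub 1).const_mul ((Real.cos (sal x) : ℂ) * (Real.sin (sal x) : ℂ)))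
  refine h1.congr_deriv ?_
  unfold sz2
  refine Prod.ext ?_ ?_
  · rfl
  · simp

/-- the map of degree one -/
def sh (x : ℝ × ℝ) : ℂ × ℝ :=
  (2 * (starRingEnd ℂ) (sz x).1 * (sz x).2, ‖(sz x).1‖ ^ 2 - ‖(sz x).2‖ ^ 2)

lemma contDiff_sh : ContDiff ℝ ∞ sh := by
  have h1 : ContDiff ℝ ∞ (fun x => (sz x).1) := contDiff_fst.comp contDiff_sz
  have h2 : ContDiff ℝ ∞ (fun x => (sz x).2) := contDiff_snd.comp contDiff_sz
  exact ((contDiff_const.mul (Complex.conjCLE.contDiff.comp h1)).mul h2).prodMk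
    ((h1.norm_sq ℝ).sub (h2.norm_sq ℝ))

lemma sh_norm (x : ℝ × ℝ) : ‖(sh x).1‖ ^ 2 + (sh x).2 ^ 2 = 1 := by
  have h := sz_norm x
  simp only [sh, norm_mul, Complex.norm_conj, Complex.norm_ofNat]
  linear_combination (‖(sz x).1‖ ^ 2 + ‖(sz x).2‖ ^ 2 + 1) * h

lemma sh_out {x : ℝ × ℝ} (hx : x ∉ Sq) : sh x = (0, 1) := by
  have key : (sz x).2 = 0 := by
    by_cases h1 : x.1 ≤ 0
    · simp [sz, sal, Real.smoothTransition.zero_of_nonpos h1]
    · by_cases h2 : 1 ≤ x.1
      · simp [sz, sal, Real.smoothTransition.one_of_one_le h2]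
      · by_cases h3 : x.2 ≤ 0
        · simp [sz, sph, Real.smoothTransition.zero_of_nonpos h3]
        · by_cases h4 : 1 ≤ x.2
          · simp [sz, sph, Real.smoothTransition.one_of_one_le h4, Complex.exp_two_pi_mul_I]
          · exact absurd (show x ∈ Sq from ⟨⟨not_le.1 h1, not_le.1 h2⟩,
              ⟨not_le.1 h3, not_le.1 h4⟩⟩) hx
  have h := sz_norm x
  rw [key, norm_zero] at h
  simp only [sh, key, mul_zero, norm_zero]
  exact Prod.ext rfl (by simpa using h)

lemma tri_sh (x y : ℝ) :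
    tri (sh (x, y)) (fderiv ℝ sh (x, y) (1, 0)) (fderiv ℝ sh (x, y) (0, 1)) =
      (4 * (Real.sin (sal x) * (Real.cos (sal x) * deriv sal x)))
        * (deriv sph y - Real.cos (sph y) * deriv sph y) := by
  rw [berry sz contDiff_sz sz_norm sh (fun x => rfl), fderiv_sz1, fderiv_sz2]
  have hre : (Complex.exp (sph y * Complex.I)).re = Real.cos (sph y) :=
    Complex.exp_ofReal_mul_I_re _
  have him : (Complex.exp (sph y * Complex.I)).im = Real.sin (sph y) :=
    Complex.exp_ofReal_mul_I_im _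
  have h1 := Real.sin_sq_add_cos_sq (sal x)
  have h2 := Real.sin_sq_add_cos_sq (sph y)
  have key : (starRingEnd ℂ) (sz1 (x, y)).1 * (sz2 (x, y)).1
      + (starRingEnd ℂ) (sz1 (x, y)).2 * (sz2 (x, y)).2
      = ((Real.sin (sal x) * Real.cos (sal x) * deriv sal x * deriv sph y : ℝ) : ℂ)
        * (Complex.I * (1 - Complex.exp (sph y * Complex.I))) := by
    have h3 : (starRingEnd ℂ) (Complex.exp (sph y * Complex.I)) * Complex.exp (sph y * Complex.I)
        = 1 := by
      rw [← Complex.exp_conj, ← Complex.exp_add, map_mul, Complex.conj_ofReal, Complex.conj_I]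
      simp
    have h4 : (Real.sin (sal x) : ℂ) ^ 2 + (Real.cos (sal x) : ℂ) ^ 2 = 1 := by
      rw [← Complex.ofReal_pow, ← Complex.ofReal_pow, ← Complex.ofReal_add, h1, Complex.ofReal_one]
    simp only [sz1, sz2, map_mul, map_sub, map_pow, map_one, Complex.conj_ofReal, map_ofNat,
      Complex.ofReal_mul]
    linear_combination ((Real.cos (sal x) : ℂ) * (Real.sin (sal x) : ℂ)
        * ((deriv sal x : ℝ) : ℂ) * ((deriv sph y : ℝ) : ℂ) * Complex.I)
        * ((Real.sin (sal x) : ℂ) ^ 2 + (Real.cos (sal x) : ℂ) ^ 2) * h3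
      + ((Real.cos (sal x) : ℂ) * (Real.sin (sal x) : ℂ)
        * ((deriv sal x : ℝ) : ℂ) * ((deriv sph y : ℝ) : ℂ) * Complex.I)
        * (1 - Complex.exp (sph y * Complex.I)) * h4
  rw [key]
  simp only [Complex.mul_im, Complex.ofReal_re, Complex.ofReal_im, Complex.I_re, Complex.I_im,
    Complex.sub_re, Complex.sub_im, Complex.one_re, Complex.one_im, hre, him]
  ring

theorem exists_deg_one : ∃ (h : ℝ × ℝ → ℂ × ℝ) (h₀ : ℂ × ℝ), SphC h h₀ ∧ Deg h = 4 * Real.pi := by
  refine ⟨sh, (0, 1), ⟨contDiff_sh, sh_norm, fun x hx => sh_out hx⟩, ?_⟩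
  unfold Deg
  simp only [tri_sh]
  simp only [intervalIntegral.integral_const_mul, intervalIntegral.integral_mul_const]
  have hcs : Continuous (deriv sal) := contDiff_sal.continuous_deriv (by simp)
  have hcp : Continuous (deriv sph) := contDiff_sph.continuous_deriv (by simp)
  have h1 : ∫ x in (0 : ℝ)..1, Real.sin (sal x) * (Real.cos (sal x) * deriv sal x) = 1 / 2 := by
    have hd : ∀ x, HasDerivAt (fun x => Real.sin (sal x) ^ 2 / 2)
        (Real.sin (sal x) * (Real.cos (sal x) * deriv sal x)) x := fun x => by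
      have := (((hasDerivAt_sal x).sin).pow 2).div_const 2
      refine this.congr_deriv ?_
      simp
      ring
    rw [intervalIntegral.integral_eq_sub_of_hasDerivAt (fun x _ => hd x)
      (Continuous.intervalIntegrable (by
        have := contDiff_sal.continuous
        fun_prop) _ _)]
    simp [sal, Real.smoothTransition.zero, Real.smoothTransition.one]
  have h2 : ∫ y in (0 : ℝ)..1, (deriv sph y - Real.cos (sph y) * deriv sph y) = 2 * Real.pi := by
    have hd : ∀ y, HasDerivAt (fun y => sph y - Real.sin (sph y))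
        (deriv sph y - Real.cos (sph y) * deriv sph y) y := fun y =>
      (hasDerivAt_sph y).sub (hasDerivAt_sph y).sin
    rw [intervalIntegral.integral_eq_sub_of_hasDerivAt (fun x _ => hd x)
      (Continuous.intervalIntegrable (by
        have := contDiff_sph.continuous
        fun_prop) _ _)]
    simp [sph, Real.smoothTransition.zero, Real.smoothTransition.one]
  rw [h1, h2]
  ring

theorem exists_sphere (K : ℕ) : ∃ (p₀ : V K) (σ : ℝ × ℝ → V K), Sph K p₀ σ ∧
    Deg (fun x => pr (σ x)) = 4 * Real.pi := by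
  obtain ⟨h, h₀, hh, hd⟩ := exists_deg_one
  refine ⟨(h₀.1, h₀.2, 0, 0, 0, 1), fun x => ((h x).1, (h x).2, 0, 0, 0, 1), ⟨?_, ?_, ?_⟩, hd⟩
  · exact (contDiff_fst.comp hh.smooth).prodMk ((contDiff_snd.comp hh.smooth).prodMk contDiff_const)
  · intro x
    have := hh.mem x
    simp [carrier, this]
  · intro x hx
    simp only [hh.out x hx]

end Pool.Agent.H86.Nco
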