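import Pool.Agent.H86.Nco.SplitStmt
import Pool.Agent.H86.Nco.Even
import Pool.Agent.H86.Nco.LemW
import Pool.Agent.H86.Nco.Sphere

/-!
# Assembly of stage 2
-/

open scoped Manifold ContDiff Bundle Topology

noncomputable section

namespace Pool.Agent.H86.Nco

open Pool.Agent.H86.Anco

variable {K : ℕ}

lemma amb_zero_of {b : Ix → E K → Bil K} (h : ∀ i y u v, b i y u v = 0) (s : ℝ × ℝ → V K) :
    Per b s = 0 := by
  unfold Per amb
  simp [h]

theorem no_met (h23 : H23 K) (h5 : H5 K) (h6 : H6 K) (hS : LemS K) : IsEmpty (Met K) := by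
  constructor
  intro G
  obtain ⟨f, hfc, hfw, hfP⟩ := exists_f0 K
  obtain ⟨a, hap, hac⟩ := h23 G f hfc
  have haw : Decomposable a := h5 G f a hfc hfw hap hac
  have hper : ∀ (p₀ : V K) (s : ℝ × ℝ → V K), Sph K p₀ s → Per a.val s = Per f.val s :=
    h6 G f a hfc hap.closed hac
  obtain ⟨p₁, σ, hσ, hdσ⟩ := exists_sphere K
  have hpi : (4 * Real.pi) ≠ 0 := by positivity
  have haσ : Per a.val σ = 1 := by
    rw [hper _ _ hσ, hfP _ _ hσ, hdσ, div_self hpi]
  have hne : ∃ i y u v, a.val i y u v ≠ 0 := by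
    by_contra hcon
    push Not at hcon
    rw [amb_zero_of hcon] at haσ
    exact zero_ne_one haσ
  obtain ⟨U, R, J, hD, hU, hRc, hRper, hframe⟩ := hS G a hap haw hne
  -- the sphere in the surface
  set s : ℝ × ℝ → V K := fun x => R (σ x) with hs
  have hsS : Sph K (R p₁) s := by
    refine ⟨?_, fun x => hRc _ (hU (hσ.mem x)), fun x hx => ?_⟩
    · exact hD.smooth.comp_contDiff hσ.smooth (fun x => hU (hσ.mem x))
    · simp only [hs, hσ.out x hx]
  have hsR : ∀ x, R (s x) = s x := fun x => hD.retr _ (hU (hσ.mem x))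
  have has : Per a.val s = 1 := by rw [hs, hRper _ _ hσ, haσ]
  have hds : Deg (fun x => pr (s x)) = 4 * Real.pi * ((1 : ℤ) : ℝ) := by
    have h1 := hfP _ _ hsS
    rw [← hper _ _ hsS, has, eq_div_iff hpi, one_mul] at h1
    rw [← h1]
    simp
  obtain ⟨E, F, ϑ, e, hf⟩ := hframe _ s hsS hsR
  have hsU : ∀ x, s x ∈ U := fun x => hU (hsS.mem x)
  have hs0 : ∀ x, x.1 ≤ 0 ∨ x.2 ≤ 0 ∨ 1 ≤ x.2 → s x = R p₁ := by
    intro x hx
    apply hsS.out
    rintro ⟨⟨h1, h2⟩, h3, h4⟩
    rcases hx with hx | hx | hx <;> linarith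
  have hs1 : ∀ t, s (1, t) = R p₁ := by
    intro t
    apply hsS.out
    rintro ⟨⟨h1, h2⟩, h3, h4⟩
    exact lt_irrefl _ h2
  -- evenness
  have hE0 : ∀ x, E x ≠ 0 := by
    intro x hx
    have := (hf.indep x).ne_zero 0
    simp only [Fin.cons_zero] at this
    exact this hx
  have heven : Even e :=
    even_of_section hD s E (R p₁) (E (0, 0)) hsS.smooth hsU hsR hsS.out hf.smoothE hf.memE hE0
      hf.outE ϑ hf.smoothϑ hf.zero e hf.one hf.sideE
  -- oddness
  have hTan : ∀ x, ∀ v ∈ LinearMap.range (fderiv ℝ R (s x) : V K →ₗ[ℝ] V K), v ∈ Tan (s x) := by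
    rintro x _ ⟨w, rfl⟩
    have h1 : DifferentiableAt ℝ R (s x) :=
      (hD.smooth.contDiffAt (hD.isOpen.mem_nhds (hsU x))).differentiableAt (by simp)
    have h2 : ∀ᶠ z in 𝓝 (s x), R z ∈ carrier K := by
      filter_upwards [hD.isOpen.mem_nhds (hsU x)] with z hz
      exact hRc z hz
    have h3 := tan_of_map h1 h2 w
    rw [hsR x] at h3
    exact h3
  have hJE : ∀ x, J (s x) (E x) ∈ LinearMap.range (fderiv ℝ R (s x) : V K →ₗ[ℝ] V K) := by
    intro x
    obtain ⟨w, hw⟩ := hf.memE x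
    rw [← hw]
    exact (hD.cplx _ (hsU x) (hsR x) w).1
  have hJJ : J (R p₁) (J (R p₁) (E (0, 0))) = - E (0, 0) := by
    have h00 : s (0, 0) = R p₁ := hs0 (0, 0) (Or.inl le_rfl)
    obtain ⟨w, hw⟩ := hf.memE (0, 0)
    have := (hD.cplx _ (hsU (0, 0)) (hsR (0, 0)) w).2
    have hw' : fderiv ℝ R (s (0, 0)) w = E (0, 0) := hw
    rw [hw', h00] at this
    exact this
  set T : ℝ × ℝ → Fin (K + 4) → V K :=
    fun x => Fin.cons (E x) (Fin.cons (J (s x) (E x)) (F x)) with hT
  have hJs : ContDiff ℝ ∞ (fun x => J (s x) (E x)) :=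
    (hD.smoothJ.comp_contDiff hsS.smooth hsU).clm_apply hf.smoothE
  have hTs : ContDiff ℝ ∞ T := by
    rw [contDiff_pi]
    intro j
    refine Fin.cases ?_ (fun j => ?_) j
    · simpa [hT] using hf.smoothE
    · refine Fin.cases ?_ (fun j => ?_) j
      · simpa [hT] using hJs
      · have := (contDiff_pi.1 hf.smoothF) j
        simpa [hT] using this
  have hTT : ∀ x j, T x j ∈ Tan (s x) := by
    intro x j
    refine Fin.cases ?_ (fun j => ?_) j
    · exact hTan x _ (hf.memE x)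
    · refine Fin.cases ?_ (fun j => ?_) j
      · exact hTan x _ (hJE x)
      · exact hf.memF x j
  have hodd : Even ((1 : ℤ) + e) := by
    refine even_add hsS T hTs hTT hf.indep (T (0, 0)) ?_ ϑ hf.smoothϑ hf.zero e hf.one ?_ ?_ ?_ 1 hds
    · intro x hx
      have e1 := hf.outE x hx
      have e2 := hf.outF x hx
      have e3 : s x = s (0, 0) := by rw [hs0 x hx, hs0 (0, 0) (Or.inl le_rfl)]
      simp only [hT, e1, e2, e3]
    · intro t
      have e3 : s (0, 0) = R p₁ := hs0 (0, 0) (Or.inl le_rfl)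
      have := hf.sideE t
      change E (1, t) = Real.cos (ϑ t) • E (0, 0) + Real.sin (ϑ t) • J (s (0, 0)) (E (0, 0))
      rw [e3]
      exact this
    · intro t
      have e3 : s (0, 0) = R p₁ := hs0 (0, 0) (Or.inl le_rfl)
      change J (s (1, t)) (E (1, t)) =
        -Real.sin (ϑ t) • E (0, 0) + Real.cos (ϑ t) • J (s (0, 0)) (E (0, 0))
      rw [hs1, e3, hf.sideE t, map_add, map_smul, map_smul, hJJ]
      module
    · intro t j
      change F (1, t) j = F (0, 0) j
      rw [hf.sideF t]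
  have : Even (1 : ℤ) := by
    have h1 := hodd.sub heven
    simpa using h1
  exact absurd this (by decide)

end Pool.Agent.H86.Nco
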