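import Mathlib

/-!
# Module GAMMA: anticommuting involutions

On the space of functions `(Fin N → Bool) → ℝ` put `(γ i f) b = sgn i b * f (flip i b)` where
`flip i b` changes the bit number `i` and `sgn i b = ∏ j < i, (-1)^(b j)`.
-/

noncomputable section

namespace Pool.Agent.H86.Nco

private def gfl {N : ℕ} (i : Fin N) (b : Fin N → Bool) : Fin N → Bool := Function.update b i (!b i)

private def gsg {N : ℕ} (i : Fin N) (b : Fin N → Bool) : ℝ :=
  ∏ j ∈ Finset.univ.filter (fun j => j < i), (if b j = true then (-1 : ℝ) else 1)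

private def gma {N : ℕ} (i : Fin N) : ((Fin N → Bool) → ℝ) →L[ℝ] ((Fin N → Bool) → ℝ) :=
  ContinuousLinearMap.pi (fun b => gsg i b • ContinuousLinearMap.proj (gfl i b))

private theorem gma_apply {N : ℕ} (i : Fin N) (f : (Fin N → Bool) → ℝ) (b : Fin N → Bool) :
    gma i f b = gsg i b * f (gfl i b) := by
  simp [gma]

private theorem gfl_gfl {N : ℕ} (i : Fin N) (b : Fin N → Bool) : gfl i (gfl i b) = b := by
  simp [gfl]

private theorem gfl_comm {N : ℕ} {i j : Fin N} (h : i ≠ j) (b : Fin N → Bool) :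
    gfl i (gfl j b) = gfl j (gfl i b) := by
  unfold gfl
  rw [Function.update_of_ne h, Function.update_of_ne h.symm, Function.update_comm h.symm]

private theorem gsg_sq {N : ℕ} (i : Fin N) (b : Fin N → Bool) : gsg i b * gsg i b = 1 := by
  unfold gsg
  rw [← Finset.prod_mul_distrib]
  apply Finset.prod_eq_one
  intro j _
  split_ifs <;> norm_num

private theorem gsg_fl_le {N : ℕ} {i j : Fin N} (h : j ≤ i) (b : Fin N → Bool) :
    gsg j (gfl i b) = gsg j b := by
  unfold gsg
  apply Finset.prod_congr rfl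
  intro k hk
  have hk' : k < j := (Finset.mem_filter.mp hk).2
  have : k ≠ i := (lt_of_lt_of_le hk' h).ne
  rw [gfl, Function.update_of_ne this]

private theorem gsg_fl_lt {N : ℕ} {i j : Fin N} (h : i < j) (b : Fin N → Bool) :
    gsg j (gfl i b) = - gsg j b := by
  unfold gsg
  have hi : i ∈ Finset.univ.filter (fun k => k < j) := Finset.mem_filter.mpr ⟨Finset.mem_univ _, h⟩
  rw [← Finset.mul_prod_erase _ _ hi, ← Finset.mul_prod_erase _ _ hi, ← neg_mul]
  congr 1
  · rw [gfl, Function.update_self]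
    cases b i <;> simp
  · apply Finset.prod_congr rfl
    intro k hk
    have : k ≠ i := (Finset.mem_erase.mp hk).1
    rw [gfl, Function.update_of_ne this]

private theorem anti_aux {N : ℕ} {i j : Fin N} (h : i < j) : gma i * gma j = - (gma j * gma i) := by
  ext f b
  change gma i (gma j f) b = - (gma j (gma i f) b)
  rw [gma_apply, gma_apply, gma_apply, gma_apply, gsg_fl_lt h, gsg_fl_le h.le, gfl_comm h.ne]
  ring

theorem exists_gamma (N : ℕ) :
    ∃ γ : Fin N → (((Fin N → Bool) → ℝ) →L[ℝ] ((Fin N → Bool) → ℝ)),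
      (∀ i, γ i * γ i = 1) ∧ ∀ i j, i ≠ j → γ i * γ j = - (γ j * γ i) := by
  refine ⟨gma, ?_, ?_⟩
  · intro i
    ext f b
    change gma i (gma i f) b = f b
    rw [gma_apply, gma_apply, gsg_fl_le le_rfl, gfl_gfl, ← mul_assoc, gsg_sq, one_mul]
  · intro i j hij
    rcases lt_or_gt_of_ne hij with h | h
    · exact anti_aux h
    · rw [anti_aux h, neg_neg]

end Pool.Agent.H86.Nco
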