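import Pool.Agent.H86.Nco.HMollChart

/-!
# Module HMOLL: mollification on `M`

Partition of unity `χ` (`exists_pu`), `ψ_i` from `moll_chart` for `χ_i`, `b = ∑_i push2 i ψ_i`
(`exists_push2`).  Let `P_i = push2 i ψ_i - mulF χ_i (a n)`; `∑ mulF χ_i (a n) = a n`, so `b - a n = ∑ P_i`.
`P_i.val j y = 0` near points `y ∉ ov K j i` (for `mulF χ_i` because `tsupport (χ_i) ⊆ Dom K i`), and `P_i.val i`
vanishes outside `C'`.  `nrmSq G P_i = ∫ sq2 (g_i) (P_i.val i) vol_i ≤ c ∫ nb2 (P_i.val i)` by `IM_eq` in the chart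
`i`, `sq_le` and the bound of `vol` on `C'`.  `d2 b = ∑ d2 P_i` because `d2 (a n) = 0`; the same estimate with
`sq3`, `nb3`.  `codiff b = ∑_i q_i`, `q_i = codiff P_i + χ_i codiff (a n)` (a compatible one-form supported in
the chart `i`); the same estimate with `sq1`, `nb1`.  Finally `sq (∑ of 4) ≤ 4 ∑ sq`.
-/

open scoped Manifold ContDiff Bundle Topology

noncomputable section

namespace Pool.Agent.H86.Nco

open Pool.Agent.H86.Anco MeasureTheory

set_option maxSynthPendingDepth 3

variable {K : ℕ}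

namespace HMoll

/-! ### linearity -/

lemma d2_add {F F' : Ix → E K → Bil K} (i : Ix) {y : E K} (h : DifferentiableAt ℝ (F i) y)
    (h' : DifferentiableAt ℝ (F' i) y) (u v w : E K) :
    d2 (fun i y => F i y + F' i y) i y u v w = d2 F i y u v w + d2 F' i y u v w := by
  have e : fderiv ℝ (fun z => F i z + F' i z) y = fderiv ℝ (F i) y + fderiv ℝ (F' i) y :=
    fderiv_fun_add h h'
  unfold d2
  rw [e]
  simp only [ContinuousLinearMap.add_apply]
  ring

lemma d2_sub {F F' : Ix → E K → Bil K} (i : Ix) {y : E K} (h : DifferentiableAt ℝ (F i) y)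
    (h' : DifferentiableAt ℝ (F' i) y) (u v w : E K) :
    d2 (fun i y => F i y - F' i y) i y u v w = d2 F i y u v w - d2 F' i y u v w := by
  have e : fderiv ℝ (fun z => F i z - F' i z) y = fderiv ℝ (F i) y - fderiv ℝ (F' i) y :=
    fderiv_fun_sub h h'
  unfold d2
  rw [e]
  simp only [ContinuousLinearMap.sub_apply]
  ring

lemma codiff_add (G : Met K) {F F' : Ix → E K → Bil K} (i : Ix) {y : E K}
    (h : DifferentiableAt ℝ (F i) y) (h' : DifferentiableAt ℝ (F' i) y) (w : E K) :
    codiff G (fun i y => F i y + F' i y) i y w = codiff G F i y w + codiff G F' i y w := by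
  have e : fderiv ℝ (fun z => F i z + F' i z) y = fderiv ℝ (F i) y + fderiv ℝ (F' i) y :=
    fderiv_fun_add h h'
  unfold codiff
  rw [← neg_add, ← Finset.sum_add_distrib]
  congr 1
  refine Finset.sum_congr rfl fun j _ => ?_
  unfold cd
  rw [e]
  simp only [ContinuousLinearMap.add_apply]
  ring

lemma codiff_sub (G : Met K) {F F' : Ix → E K → Bil K} (i : Ix) {y : E K}
    (h : DifferentiableAt ℝ (F i) y) (h' : DifferentiableAt ℝ (F' i) y) (w : E K) :
    codiff G (fun i y => F i y - F' i y) i y w = codiff G F i y w - codiff G F' i y w := by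
  have e : fderiv ℝ (fun z => F i z - F' i z) y = fderiv ℝ (F i) y - fderiv ℝ (F' i) y :=
    fderiv_fun_sub h h'
  unfold codiff
  rw [neg_sub_neg, ← neg_sub, ← Finset.sum_sub_distrib]
  congr 1
  refine Finset.sum_congr rfl fun j _ => ?_
  unfold cd
  rw [e]
  simp only [ContinuousLinearMap.sub_apply]
  ring

/-! ### sums of two -/

lemma sq1_two (B : Bil K) (θ θ' : E K → ℝ) :
    sq1 B (fun u => θ u + θ' u) ≤ 2 * sq1 B θ + 2 * sq1 B θ' := by
  unfold sq1
  rw [Finset.mul_sum, Finset.mul_sum, ← Finset.sum_add_distrib]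
  refine Finset.sum_le_sum fun j _ => ?_
  nlinarith [sq_nonneg (θ (onb B j) - θ' (onb B j))]

lemma sq3_two (B : Bil K) (T T' : E K → E K → E K → ℝ) :
    sq3 B (fun u v w => T u v w + T' u v w) ≤ 2 * sq3 B T + 2 * sq3 B T' := by
  unfold sq3
  simp only [Finset.mul_sum, ← Finset.sum_add_distrib]
  refine Finset.sum_le_sum fun j _ => Finset.sum_le_sum fun k _ => Finset.sum_le_sum fun l _ => ?_
  nlinarith [sq_nonneg (T (onb B j) (onb B k) (onb B l) - T' (onb B j) (onb B k) (onb B l))]

lemma IM_two (G : Met K) {F F1 F2 : Ix → E K → ℝ} (h : Compat0 F) (h1 : Compat0 F1)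
    (h2 : Compat0 F2) (c : ∀ i, Continuous (F i)) (c1 : ∀ i, Continuous (F1 i))
    (c2 : ∀ i, Continuous (F2 i)) (hle : ∀ i y, F i y ≤ 2 * F1 i y + 2 * F2 i y) :
    IM G F ≤ 2 * IM G F1 + 2 * IM G F2 := by
  have k1 : Compat0 (fun i y => 2 * F1 i y) := fun i j y hy =>
    congrArg (fun t => 2 * t) (h1 i j y hy)
  have k2 : Compat0 (fun i y => 2 * F2 i y) := fun i j y hy =>
    congrArg (fun t => 2 * t) (h2 i j y hy)
  have e : IM G (fun i y => 2 * F1 i y + 2 * F2 i y) = 2 * IM G F1 + 2 * IM G F2 := by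
    rw [IM_add G k1 k2 (fun i => continuous_const.mul (c1 i)) (fun i => continuous_const.mul (c2 i)),
      IM_smul, IM_smul]
  rw [← e]
  refine IM_mono G h (fun i j y hy => ?_) c
    (fun i => (continuous_const.mul (c1 i)).add (continuous_const.mul (c2 i))) hle
  rw [h1 i j y hy, h2 i j y hy]

/-! ### estimates in one chart -/

lemma chart_le (G : Met K) (i : Ix) {C : Set (E K)} (hC : IsCompact C) : ∃ M : ℝ, 0 < M ∧
    (∀ θ : Ix → E K → E K →L[ℝ] ℝ, Compat1 θ → Continuous (θ i) → (∀ y, y ∉ C → θ i y = 0) →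
      IM G (fun i y => sq1 (G.g i y) (fun u => θ i y u)) ≤ M * ∫ y, nb1 (fun u => θ i y u)) ∧
    (∀ b : Ix → E K → Bil K, Compat2 b → Continuous (b i) → (∀ y, y ∉ C → b i y = 0) →
      IM G (fun i y => sq2 (G.g i y) (fun u v => b i y u v)) ≤
        M * ∫ y, nb2 (fun u v => b i y u v)) ∧
    (∀ T : Ix → E K → Tri K, Compat3 (fun i y u v w => T i y u v w) → Continuous (T i) →
      (∀ y, y ∉ C → T i y = 0) →
      IM G (fun i y => sq3 (G.g i y) (fun u v w => T i y u v w)) ≤
        M * ∫ y, nb3 (fun u v w => T i y u v w)) := by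
  obtain ⟨c, hc, hle⟩ := sq_le (G.smooth i) (G.posDef i) hC
  obtain ⟨v, hv⟩ := hC.exists_bound_of_continuousOn
    (contDiff_vol (G.smooth i) (G.posDef i)).continuous.continuousOn
  have hv' : ∀ y ∈ C, vol (G.g i y) ≤ max v 1 := fun y hy =>
    (le_abs_self _).trans ((hv y hy).trans (le_max_left _ _))
  have hv0 : (0 : ℝ) < max v 1 := lt_max_of_lt_right one_pos
  have aux : ∀ (F : Ix → E K → ℝ) (N : E K → ℝ), Compat0 F → Continuous N → (∀ y, 0 ≤ N y) →
      (∀ y, y ∉ C → N y = 0) → (∀ y, 0 ≤ F i y) → (∀ y, y ∉ C → F i y = 0) →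
      (∀ y ∈ C, F i y ≤ c * N y) → IM G F ≤ (c * max v 1) * ∫ y, N y := by
    intro F N hF hN hN0 hNC hF0 hFC hFN
    rw [IM_eq G hF i, ← integral_const_mul]
    apply integral_mono_of_nonneg
    · filter_upwards with y
      exact mul_nonneg (hF0 y) (Real.sqrt_nonneg _)
    · exact (hN.integrable_of_hasCompactSupport (HasCompactSupport.intro hC hNC)).const_mul _
    · filter_upwards with y
      by_cases hy : y ∈ C
      · have h1 := hFN y hy
        have h2 := hv' y hy
        have h3 : 0 ≤ vol (G.g i y) := Real.sqrt_nonneg _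
        calc F i y * vol (G.g i y) ≤ (c * N y) * max v 1 :=
              mul_le_mul h1 h2 h3 (mul_nonneg hc.le (hN0 y))
          _ = c * max v 1 * N y := by ring
      · rw [hFC y hy, hNC y hy]
        simp
  refine ⟨c * max v 1, mul_pos hc hv0, ?_, ?_, ?_⟩
  · intro θ h1 h2 h3
    refine aux _ _ (compat0_sq1 G h1) ?_ ?_ ?_ ?_ ?_ ?_
    · unfold nb1
      fun_prop
    · intro y
      unfold nb1
      positivity
    · intro y hy
      unfold nb1
      simp [h3 y hy]
    · intro y
      unfold sq1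
      positivity
    · intro y hy
      unfold sq1
      simp [h3 y hy]
    · intro y hy
      exact ((hle y hy).1 (θ i y)).1
  · intro θ h1 h2 h3
    refine aux _ _ (compat0_sq2 G h1) ?_ ?_ ?_ ?_ ?_ ?_
    · unfold nb2
      fun_prop
    · intro y
      unfold nb2
      positivity
    · intro y hy
      unfold nb2
      simp [h3 y hy]
    · intro y
      unfold sq2
      positivity
    · intro y hy
      unfold sq2
      simp [h3 y hy]
    · intro y hy
      exact ((hle y hy).2.1 (θ i y)).1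
  · intro θ h1 h2 h3
    refine aux _ _ (compat0_sq3 G h1) ?_ ?_ ?_ ?_ ?_ ?_
    · unfold nb3
      fun_prop
    · intro y
      unfold nb3
      positivity
    · intro y hy
      unfold nb3
      simp [h3 y hy]
    · intro y
      unfold sq3
      positivity
    · intro y hy
      unfold sq3
      simp [h3 y hy]
    · intro y hy
      exact ((hle y hy).2.2 (θ i y)).1

lemma four {α : Type*} [AddCommMonoid α] (N : α → ℝ) (hN : ∀ x y, N (x + y) ≤ 2 * N x + 2 * N y)
    (x : Ix → α) : N (∑ j, x j) ≤ 4 * ∑ j, N (x j) := by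
  rw [Fintype.sum_prod_type, Fintype.sum_prod_type]
  simp only [Fintype.sum_bool]
  have h1 := hN (x (true, true) + x (true, false)) (x (false, true) + x (false, false))
  have h2 := hN (x (true, true)) (x (true, false))
  have h3 := hN (x (false, true)) (x (false, false))
  linarith

/-- evaluation of two-forms -/
def valHom (i : Ix) (y : E K) : Form2 K →+ Bil K where
  toFun b := b.val i y
  map_zero' := rfl
  map_add' _ _ := rfl

lemma sum_val (P : Ix → Form2 K) (i : Ix) (y : E K) :
    (∑ j, P j).val i y = ∑ j, (P j).val i y := map_sum (valHom i y) P Finset.univ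

lemma diff_val (b : Form2 K) (i : Ix) (y : E K) : DifferentiableAt ℝ (b.val i) y :=
  (b.smooth i).differentiable (by simp) y

lemma d2_form_add (b b' : Form2 K) (i : Ix) (y u v w : E K) :
    d2 (b + b').val i y u v w = d2 b.val i y u v w + d2 b'.val i y u v w :=
  d2_add i (diff_val b i y) (diff_val b' i y) u v w

lemma codiff_form_add (G : Met K) (b b' : Form2 K) (i : Ix) (y w : E K) :
    codiff G (b + b').val i y w = codiff G b.val i y w + codiff G b'.val i y w :=
  codiff_add G i (diff_val b i y) (diff_val b' i y) w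

def codiffHom (G : Met K) (i : Ix) (y w : E K) : Form2 K →+ ℝ :=
  AddMonoidHom.mk' (fun b => codiff G b.val i y w) (fun b b' => codiff_form_add G b b' i y w)

def d2Hom (i : Ix) (y u v w : E K) : Form2 K →+ ℝ :=
  AddMonoidHom.mk' (fun b => d2 b.val i y u v w) (fun b b' => d2_form_add b b' i y u v w)

lemma d2_facts (b : Form2 K) : ∃ T : Ix → E K → Tri K,
    (∀ i y u v w, T i y u v w = d2 b.val i y u v w) ∧ (∀ i, Continuous (T i)) ∧
    Compat3 (fun i y u v w => T i y u v w) := by
  choose T hT hT' using fun i => exists_d2L b.val i (b.smooth i)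
  refine ⟨T, hT', fun i => (hT i).continuous, fun i j y hy u v w => ?_⟩
  simp only
  rw [hT', hT']
  exact compat3_d2 b i j y hy u v w

lemma codiff_facts (G : Met K) (b : Form2 K) : ∃ θ : Ix → E K → E K →L[ℝ] ℝ,
    (∀ i y w, θ i y w = codiff G b.val i y w) ∧ (∀ i, Continuous (θ i)) ∧ Compat1 θ := by
  choose T hT hT' using fun i => exists_codiffL G b.val i (b.smooth i)
  refine ⟨T, hT', fun i => (hT i).continuous, fun i j y hy u => ?_⟩
  rw [hT', hT']
  exact compat1_codiff G b i j y hy u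

lemma d2_N (G : Met K) (b : Form2 K) : Compat0 (fun i y => sq3 (G.g i y) (d2 b.val i y)) ∧
    ∀ i, Continuous (fun y => sq3 (G.g i y) (d2 b.val i y)) := by
  obtain ⟨T, h1, h2, h3⟩ := d2_facts b
  have e : ∀ i y, d2 b.val i y = fun u v w => T i y u v w := fun i y => by
    funext u v w
    exact (h1 i y u v w).symm
  refine ⟨?_, fun i => ?_⟩
  · simp only [e]
    exact compat0_sq3 G h3
  · simp only [e]
    exact cont_sq3 G i (h2 i)

lemma N3_two (G : Met K) (b b' : Form2 K) :
    IM G (fun i y => sq3 (G.g i y) (d2 (b + b').val i y)) ≤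
      2 * IM G (fun i y => sq3 (G.g i y) (d2 b.val i y)) +
      2 * IM G (fun i y => sq3 (G.g i y) (d2 b'.val i y)) := by
  refine IM_two G (d2_N G _).1 (d2_N G _).1 (d2_N G _).1 (d2_N G _).2 (d2_N G _).2 (d2_N G _).2
    fun i y => ?_
  have e : d2 (b + b').val i y = fun u v w => d2 b.val i y u v w + d2 b'.val i y u v w := by
    funext u v w
    exact d2_form_add b b' i y u v w
  rw [e]
  exact sq3_two _ _ _

/-- continuous compatible one-forms -/
def CF (K : ℕ) : AddSubmonoid (Ix → E K → E K →L[ℝ] ℝ) where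
  carrier := {θ | Compat1 θ ∧ ∀ i, Continuous (θ i)}
  zero_mem' := ⟨fun i j y hy u => rfl, fun i => continuous_const⟩
  add_mem' := by
    rintro a b ⟨h1, h2⟩ ⟨h3, h4⟩
    refine ⟨fun i j y hy u => ?_, fun i => (h2 i).add (h4 i)⟩
    change a i y u + b i y u = _ + _
    rw [h1 i j y hy u, h3 i j y hy u]
    rfl

lemma N1_two (G : Met K) (θ θ' : CF K) :
    IM G (fun i y => sq1 (G.g i y) (fun u => (θ + θ').1 i y u)) ≤
      2 * IM G (fun i y => sq1 (G.g i y) (fun u => θ.1 i y u)) +
      2 * IM G (fun i y => sq1 (G.g i y) (fun u => θ'.1 i y u)) := by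
  refine IM_two G (compat0_sq1 G (θ + θ').2.1) (compat0_sq1 G θ.2.1) (compat0_sq1 G θ'.2.1)
    (fun i => cont_sq1 G i ((θ + θ').2.2 i)) (fun i => cont_sq1 G i (θ.2.2 i))
    (fun i => cont_sq1 G i (θ'.2.2 i)) fun i y => ?_
  exact sq1_two _ _ _

end HMoll

open HMoll

theorem exists_mollified (G : Met K) {a : ℕ → Form2 K} (h : HSeq G a) (ε : ℝ) (hε : 0 < ε) :
    ∃ n₀, ∀ n ≥ n₀, ∃ b : Form2 K, nrmSq G (b - a n) < ε ∧
      IM G (fun i y => sq3 (G.g i y) (d2 b.val i y)) < ε ∧
      IM G (fun i y => sq1 (G.g i y) (codiff G b.val i y)) < ε := by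
  obtain ⟨χ, hχ, hχs, hχ0, hχ1, C, hC, hχC⟩ := exists_pu K
  choose C' hC' hCC' hmol using fun i => moll_chart G h i (χ i) (hχ i) hC (hχC i)
  choose M hM hM1 hM2 hM3 using fun i => chart_le G i (hC' i)
  have hB0 : 0 ≤ ∑ i, M i := Finset.sum_nonneg fun i _ => (hM i).le
  obtain ⟨B, hB⟩ : ∃ B : ℝ, B = ∑ i, M i + 1 := ⟨_, rfl⟩
  have hBpos : 0 < B := by linarith
  obtain ⟨ε', hε'e⟩ : ∃ ε' : ℝ, ε' = ε / (4 * B) := ⟨_, rfl⟩
  have hε' : 0 < ε' := by rw [hε'e]; positivity
  have hfin : ∀ x : Ix → ℝ, (∀ i, x i ≤ M i * ε') → 4 * ∑ i, x i < ε := by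
    intro x hx
    have h1 : ∑ i, x i ≤ (∑ i, M i) * ε' := by
      rw [Finset.sum_mul]
      exact Finset.sum_le_sum fun i _ => hx i
    have h2 : (∑ i, M i) * ε' < B * ε' := mul_lt_mul_of_pos_right (by linarith) hε'
    have h3 : 4 * (B * ε') = ε := by
      rw [hε'e]
      field_simp
    linarith
  choose n0 hn0 using fun i => hmol i ε' hε'
  refine ⟨∑ i, n0 i, fun n hn => ?_⟩
  have hn' : ∀ i, n0 i ≤ n := fun i =>
    (Finset.single_le_sum (f := n0) (fun _ _ => Nat.zero_le _) (Finset.mem_univ i)).trans hn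
  choose ψ hψ hψC hψalt hψ2 hψ3 hψ1 using fun i => hn0 i n (hn' i)
  choose b hb1 hb2 hb3 using fun i => exists_push2 i (ψ i) (hψ i)
    (HasCompactSupport.intro (hC' i) (hψC i)) (hψalt i)
  obtain ⟨P, hP⟩ : ∃ P : Ix → Form2 K, P = fun i => b i - mulF (χ i) (hχ i) (a n) := ⟨_, rfl⟩
  have hPv : ∀ i, (P i).val i = fun y => ψ i y - χ i (Par i y) • (a n).val i y := by
    intro i
    funext y
    rw [hP, Form2.sub_val, hb1]
    rfl
  have hχn : ∀ i y, y ∉ C' i → χ i (Par i y) = 0 := by
    intro i y hy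
    by_contra hne
    exact hy (hCC' i (hχC i y hne))
  have hP0 : ∀ i y, y ∉ C' i → (P i).val i y = 0 := by
    intro i y hy
    rw [hPv]
    simp only
    rw [hψC i y hy, hχn i y hy, zero_smul, sub_zero]
  have hPe : ∀ i y, y ∉ C' i → (P i).val i =ᶠ[𝓝 y] fun _ => 0 := by
    intro i y hy
    filter_upwards [(hC' i).isClosed.isOpen_compl.mem_nhds hy] with z hz
    exact hP0 i z hz
  have hPf : ∀ i y, y ∉ C' i → fderiv ℝ ((P i).val i) y = 0 := by
    intro i y hy
    rw [(hPe i y hy).fderiv_eq]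
    simp
  have hsum : ∑ i, b i - a n = ∑ i, P i := by
    rw [hP, Finset.sum_sub_distrib]
    congr 1
    apply Form2.ext'
    funext i y
    rw [sum_val]
    change _ = ∑ j, χ j (Par i y) • (a n).val i y
    rw [← Finset.sum_smul, hχ1, one_smul]
  have hdψ : ∀ i y, DifferentiableAt ℝ (ψ i) y := fun i y => (hψ i).differentiable (by simp) y
  have hdχ : ∀ i y, DifferentiableAt ℝ (fun x => χ i (Par i x) • (a n).val i x) y := fun i y =>
    ((((hχ i).comp (contDiff_Par i)).smul ((a n).smooth i)).differentiable (by simp)) y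
  refine ⟨∑ i, b i, ?_, ?_, ?_⟩
  · rw [hsum]
    refine (four (nrmSq G) (nrmSq_add_le G) P).trans_lt (hfin _ fun i => ?_)
    have h1 := hM2 i (P i).val (P i).compat ((P i).smooth i).continuous (hP0 i)
    refine h1.trans (mul_le_mul_of_nonneg_left ?_ (hM i).le)
    have h2 := (hψ2 i).le
    refine le_trans (le_of_eq ?_) h2
    congr 1
    funext y
    congr 1
    funext u v
    rw [hPv]
    rfl
  · have e : (fun i y => sq3 (G.g i y) (d2 (∑ i, b i).val i y)) =
        fun i y => sq3 (G.g i y) (d2 (∑ i, P i).val i y) := by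
      funext i y
      congr 1
      funext u v w
      rw [← hsum]
      have h1 := d2_form_add (∑ i, b i - a n) (a n) i y u v w
      rw [sub_add_cancel, h.closed n i y u v w, add_zero] at h1
      exact h1
    rw [e]
    refine (four (fun b : Form2 K => IM G (fun i y => sq3 (G.g i y) (d2 b.val i y)))
      (N3_two G) P).trans_lt (hfin _ fun i => ?_)
    obtain ⟨T, hT1, hT2, hT3⟩ := d2_facts (P i)
    have e2 : (fun i' y => sq3 (G.g i' y) (d2 (P i).val i' y)) =
        fun i' y => sq3 (G.g i' y) (fun u v w => T i' y u v w) := by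
      funext i' y
      congr 1
      funext u v w
      exact (hT1 i' y u v w).symm
    rw [e2]
    have h1 := hM3 i T hT3 (hT2 i) (by
      intro y hy
      refine ContinuousLinearMap.ext fun u => ContinuousLinearMap.ext fun v =>
        ContinuousLinearMap.ext fun w => ?_
      rw [hT1]
      unfold d2
      rw [hPf i y hy]
      simp)
    refine h1.trans (mul_le_mul_of_nonneg_left ?_ (hM i).le)
    refine le_trans (le_of_eq ?_) (hψ3 i).le
    congr 1
    funext y
    congr 1
    funext u v w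
    rw [hT1, ← d2_sub (F := fun _ => ψ i) (F' := fun _ => fun x => χ i (Par i x) • (a n).val i x) i
      (hdψ i y) (hdχ i y)]
    unfold d2
    rw [hPv]
  · obtain ⟨θa, ha1, ha2, ha3⟩ := codiff_facts G (a n)
    choose θ hθ1 hθ2 hθ3 using fun i => codiff_facts G (P i)
    have hmem : ∀ i : Ix, (fun i' y => θ i i' y + χ i (Par i' y) • θa i' y) ∈ CF K := by
      intro i
      refine ⟨fun i' j y hy u => ?_, fun i' => ?_⟩
      · simp only [ContinuousLinearMap.add_apply, ContinuousLinearMap.smul_apply]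
        rw [hθ3 i i' j y hy, ha3 i' j y hy, Par_tr i' j hy]
      · exact (hθ2 i i').add (((hχ i).continuous.comp (contDiff_Par i').continuous).smul (ha2 i'))
    let Θ : Ix → CF K := fun i => ⟨_, hmem i⟩
    have e : (fun i y => sq1 (G.g i y) (codiff G (∑ i, b i).val i y)) =
        fun i y => sq1 (G.g i y) (fun u => (∑ j, Θ j).1 i y u) := by
      funext i y
      congr 1
      funext u
      have h1 := codiff_form_add G (∑ i, b i - a n) (a n) i y u
      rw [sub_add_cancel, hsum] at h1
      rw [h1]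
      have h2 : codiff G (∑ j, P j).val i y u = ∑ j, codiff G (P j).val i y u :=
        map_sum (codiffHom G i y u) P Finset.univ
      have h3 : (∑ j, Θ j).1 i y u = ∑ j, (Θ j).1 i y u := by
        rw [AddSubmonoid.coe_finset_sum, Finset.sum_apply, Finset.sum_apply]
        simp
      rw [h2, h3]
      have h4 : ∀ j, (Θ j).1 i y u = codiff G (P j).val i y u +
          χ j (Par i y) * codiff G (a n).val i y u := by
        intro j
        change θ j i y u + χ j (Par i y) * θa i y u = _
        rw [hθ1, ha1]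
      simp only [h4]
      rw [Finset.sum_add_distrib, ← Finset.sum_mul, hχ1, one_mul]
    rw [e]
    refine (four (fun θ : CF K => IM G (fun i y => sq1 (G.g i y) (fun u => θ.1 i y u)))
      (N1_two G) Θ).trans_lt (hfin _ fun i => ?_)
    have h1 := hM1 i (Θ i).1 (Θ i).2.1 ((Θ i).2.2 i) (by
      intro y hy
      refine ContinuousLinearMap.ext fun u => ?_
      change θ i i y u + χ i (Par i y) * θa i y u = 0
      rw [hθ1, hχn i y hy, zero_mul, add_zero]
      unfold codiff cd
      rw [hPf i y hy, hP0 i y hy]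
      simp)
    refine h1.trans (mul_le_mul_of_nonneg_left ?_ (hM i).le)
    refine le_trans (le_of_eq ?_) (hψ1 i).le
    congr 1
    funext y
    congr 1
    funext u
    change θ i i y u + χ i (Par i y) * θa i y u = _
    rw [hθ1, ha1, ← codiff_sub G (F := fun _ => ψ i)
      (F' := fun _ => fun x => χ i (Par i x) • (a n).val i x) i (hdψ i y) (hdχ i y)]
    congr 1
    unfold codiff cd
    rw [hPv]

end Pool.Agent.H86.Nco
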