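import Pool.Agent.H86.Nco.HPLC

/-!
# Module HPL: limits of almost parallel sections (general)

`E` a vector space (the base), `H` the fibre, `Γ` a connection on the trivial bundle, `∇b = Db + Γ b`.

Proof.  Parallel transport along segments: `P (x, y, t)` solves `∂_t P = - Γ(y + t(x - y))(x - y) ∘ P`,
`P (x, y, 0) = id` (`lode_smooth`, parameters `(x, y)`), `P(x, y) = P(x, y, 1)` smooth, `H →L H`.  For smooth `b`
`b(x) - P(x, y) b(y) = ∫_0^1 P(x, y + t(x-y)) (∇_{x-y} b)(y + t(x-y)) dt` (differentiate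
`t ↦ P(x, y + t(x-y)) b(y + t(x-y))`, using that `P(x, y + t(x-y)) P(y + t(x-y), y) = P(x, y)`, i.e. parallel
transport along subsegments; or: `u(t) = b(y + t(x-y)) - P(x,y,t) b(y)` satisfies the linear equation
`u' = -Γ(x-y) u + (∇_{x-y} b)(y + t(x-y))`, `u(0) = 0`, so `‖u(1)‖ ≤ c ∫_0^1 ‖(∇b)(y + t(x-y))‖ dt` by Gronwall, with
`c = c(R)` for `x, y` in the ball `B_R`).
Integrate: `∫_{B_R}∫_{B_R} ‖b_n(x) - P(x,y) b_n(y)‖ dx dy ≤ c ∫_0^1 ∫∫ ‖∇b_n‖(y + t(x-y)) dx dy dt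
≤ c' ∫_{B_R} ‖∇b_n‖ → 0` (for `t ≤ 1/2` substitute in `y`, for `t ≥ 1/2` in `x`; Jacobian at least `2^{-dim}`; all
integrands nonnegative, lintegrals are convenient; `L¹` norms on balls are bounded by `L²` norms).
`L²(B_R)` is complete: `b_n → b_∞` in `L²_loc`, a subsequence converges almost everywhere (exhaust by
balls).  By Fatou, for almost all `(x, y)`: `b_∞(x) = P(x, y) b_∞(y)` (along the subsequence the
double integral of the left hand side tends to `0`).  By Fubini there is `y₀` such that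
`b_∞(x) = P(x, y₀) b_∞(y₀) =: a(x)` for almost all `x`; `a` is smooth.  Then `a(x) = P(x, y) a(y)` for almost all
`(x, y)`, hence for all by continuity.  Differentiating in `x` at `x = y`, where
`D_x P(x, y)|_{x=y} u = - Γ(y) u` (`P(x, x, t) = id`; the derivative of the solution in the parameter `x` at
`x = y` solves `Q' = - Γ(y) u`, `Q(0) = 0`), gives `∇a = 0`.  And `∫_{B_R} ‖b_n - a‖² → 0`.
-/

open scoped ContDiff Topology ENNReal

noncomputable section

namespace Pool.Agent.H86.Nco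

open MeasureTheory

namespace HPLaux

open Set Filter

section

variable {E H : Type} [NormedAddCommGroup E] [NormedSpace ℝ E]
    [FiniteDimensional ℝ E] [MeasurableSpace E] [BorelSpace E] (μ : Measure E)
    [μ.IsAddHaarMeasure] [NormedAddCommGroup H] [NormedSpace ℝ H] [FiniteDimensional ℝ H]

omit [FiniteDimensional ℝ H] in
theorem conv {F : Type*} [NormedAddCommGroup F] {f : E → F} (hf : Continuous f) (R : ℝ) :
    ENNReal.ofReal (∫ y in Metric.ball (0 : E) R, ‖f y‖ ^ 2 ∂μ) =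
      ∫⁻ y in Metric.ball (0 : E) R, ‖f y‖ₑ ^ 2 ∂μ := by
  rw [ofReal_integral_eq_lintegral_ofReal]
  · congr 1 with y
    rw [ENNReal.ofReal_pow (norm_nonneg _), ofReal_norm]
  · have h1 : IntegrableOn (fun y => ‖f y‖ ^ 2) (Metric.closedBall (0 : E) R) μ :=
      (hf.norm.pow 2).continuousOn.integrableOn_compact (isCompact_closedBall _ _)
    exact h1.mono_set Metric.ball_subset_closedBall
  · exact Eventually.of_forall fun y => by positivity

theorem main {Γ : E → E →L[ℝ] H →L[ℝ] H} (hΓ : ContDiff ℝ ∞ Γ) (b : ℕ → E → H)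
    (hb : ∀ n, ContDiff ℝ ∞ (b n))
    (hc : ∀ R ε : ℝ, 0 < R → 0 < ε → ∃ n₀, ∀ m ≥ n₀, ∀ n ≥ n₀,
      ∫⁻ y in Metric.ball (0 : E) R, ‖b m y - b n y‖ₑ ^ 2 ∂μ < ENNReal.ofReal ε)
    (hd : ∀ R : ℝ, Tendsto (fun n => ∫⁻ y in Metric.ball (0 : E) R, ‖cov Γ (b n) y‖ₑ ^ 2 ∂μ)
      atTop (𝓝 0)) :
    ∃ a : E → H, ContDiff ℝ ∞ a ∧ (∀ y u, fderiv ℝ a y u + Γ y u (a y) = 0) ∧
      ∀ R : ℝ, 1 < R → Tendsto (fun n => ∫⁻ y in Metric.ball (0 : E) R, ‖b n y - a y‖ₑ ^ 2 ∂μ)
        atTop (𝓝 0) := by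
  obtain ⟨Q, hQ⟩ := exists_tr Γ hΓ
  -- uniform Cauchy
  have hU : ∀ R : ℝ, UniformCauchySeqOn (fun n => av μ Q (b n)) atTop (Metric.closedBall 0 R) := by
    intro R
    rw [Metric.uniformCauchySeqOn_iff]
    intro ε hε
    obtain ⟨C, hC, h⟩ := av_sub_le μ hQ R
    have hC' : 0 < C.toReal + 1 := by positivity
    obtain ⟨n₀, hn₀⟩ := hc 2 (ε ^ 2 / (C.toReal + 1)) two_pos (by positivity)
    refine ⟨n₀, fun m hm n hn y hy => ?_⟩
    have h1 := h (b m) (b n) (hb m).continuous (hb n).continuous y (mem_closedBall_zero_iff.1 hy)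
    have h2 : ∫⁻ x in KK E, ‖b m x - b n x‖ₑ ^ 2 ∂μ <
        ENNReal.ofReal (ε ^ 2 / (C.toReal + 1)) := by
      refine lt_of_le_of_lt ?_ (hn₀ m hm n hn)
      apply lintegral_mono_set
      exact Metric.closedBall_subset_ball one_lt_two
    have h3 : ‖av μ Q (b m) y - av μ Q (b n) y‖ₑ ^ 2 < ENNReal.ofReal (ε ^ 2) := by
      calc ‖av μ Q (b m) y - av μ Q (b n) y‖ₑ ^ 2
          ≤ C * ∫⁻ x in KK E, ‖b m x - b n x‖ₑ ^ 2 ∂μ := h1
        _ ≤ ENNReal.ofReal (C.toReal + 1) * ∫⁻ x in KK E, ‖b m x - b n x‖ₑ ^ 2 ∂μ := by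
            gcongr
            rw [ENNReal.ofReal_add ENNReal.toReal_nonneg zero_le_one, ENNReal.ofReal_toReal hC]
            exact le_self_add
        _ < ENNReal.ofReal (C.toReal + 1) * ENNReal.ofReal (ε ^ 2 / (C.toReal + 1)) := by
            apply ENNReal.mul_lt_mul_right _ ENNReal.ofReal_ne_top h2
            exact (ENNReal.ofReal_pos.2 hC').ne'
        _ = ENNReal.ofReal (ε ^ 2) := by
            rw [← ENNReal.ofReal_mul hC'.le]
            congr 1
            field_simp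
    rw [← ofReal_norm, ← ENNReal.ofReal_pow (norm_nonneg _),
      ENNReal.ofReal_lt_ofReal_iff (by positivity)] at h3
    rw [dist_eq_norm]
    exact lt_of_pow_lt_pow_left₀ 2 hε.le h3
  -- the limit
  have hlim : ∀ y : E, ∃ v : H, Tendsto (fun n => av μ Q (b n) y) atTop (𝓝 v) := by
    intro y
    apply cauchySeq_tendsto_of_complete
    exact (hU ‖y‖).cauchySeq (x := y) (by simp)
  choose a ha using hlim
  have hTU : ∀ R : ℝ, TendstoUniformlyOn (fun n => av μ Q (b n)) a atTop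
      (Metric.closedBall 0 R) := fun R =>
    (hU R).tendstoUniformlyOn_of_tendsto fun y _ => ha y
  have hac : Continuous a := by
    rw [continuous_iff_continuousAt]
    intro y
    have h1 : ContinuousOn a (Metric.closedBall 0 (‖y‖ + 1)) :=
      (hTU (‖y‖ + 1)).continuousOn (Frequently.of_forall fun n =>
        (av_cont μ hQ (hb n).continuous).continuousOn)
    apply h1.continuousAt
    apply Filter.mem_of_superset (Metric.isOpen_ball.mem_nhds (x := y) (s := Metric.ball 0 (‖y‖ + 1))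
      (by simp)) Metric.ball_subset_closedBall
  have hT1 : ∀ R : ℝ, Tendsto (fun n => ∫⁻ y in Metric.ball (0 : E) R,
      ‖av μ Q (b n) y - a y‖ₑ ^ 2 ∂μ) atTop (𝓝 0) := by
    intro R
    have hfin : μ (Metric.ball (0 : E) R) ≠ ⊤ := measure_ball_lt_top.ne
    rw [ENNReal.tendsto_nhds_zero]
    intro ε hε
    -- choose δ with δ ^ 2 * μ B ≤ ε
    have hex : ∃ δ : ℝ, 0 < δ ∧ ENNReal.ofReal δ ^ 2 * μ (Metric.ball (0 : E) R) ≤ ε := by
      have h2 : Tendsto (fun δ : ℝ => ENNReal.ofReal δ ^ 2 * μ (Metric.ball (0 : E) R))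
          (𝓝[>] 0) (𝓝 (ENNReal.ofReal 0 ^ 2 * μ (Metric.ball (0 : E) R))) := by
        apply Tendsto.mono_left _ nhdsWithin_le_nhds
        apply ENNReal.Tendsto.mul_const _ (Or.inr hfin)
        exact (ENNReal.continuous_pow 2).tendsto _ |>.comp (ENNReal.continuous_ofReal.tendsto 0)
      rw [ENNReal.ofReal_zero, zero_pow two_ne_zero, zero_mul] at h2
      have h3 := (ENNReal.tendsto_nhds_zero.1 h2 ε hε).and self_mem_nhdsWithin
      obtain ⟨δ, hδ1, hδ2⟩ := h3.exists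
      exact ⟨δ, hδ2, hδ1⟩
    obtain ⟨δ, hδ, hδ2⟩ := hex
    have h1 := Metric.tendstoUniformlyOn_iff.1 (hTU R) δ hδ
    filter_upwards [h1] with n hn
    calc ∫⁻ y in Metric.ball (0 : E) R, ‖av μ Q (b n) y - a y‖ₑ ^ 2 ∂μ
        ≤ ∫⁻ y in Metric.ball (0 : E) R, ENNReal.ofReal δ ^ 2 ∂μ := by
          apply setLIntegral_mono' measurableSet_ball
          intro y hy
          have := hn y (Metric.ball_subset_closedBall hy)
          rw [dist_comm, dist_eq_norm] at this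
          gcongr
          rw [← ofReal_norm]
          exact ENNReal.ofReal_le_ofReal this.le
      _ = ENNReal.ofReal δ ^ 2 * μ (Metric.ball (0 : E) R) := by
          rw [lintegral_const, Measure.restrict_apply MeasurableSet.univ, univ_inter]
      _ ≤ ε := hδ2
  have hT2 : ∀ R : ℝ, 1 < R → Tendsto (fun n => ∫⁻ y in Metric.ball (0 : E) R,
      ‖b n y - a y‖ₑ ^ 2 ∂μ) atTop (𝓝 0) := by
    intro R hR
    obtain ⟨C, hC, h⟩ := av_near μ hΓ hQ R hR
    have hlim : Tendsto (fun n => 4 * (C * ∫⁻ y in Metric.ball (0 : E) R,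
        ‖cov Γ (b n) y‖ₑ ^ 2 ∂μ + ∫⁻ y in Metric.ball (0 : E) R,
      ‖av μ Q (b n) y - a y‖ₑ ^ 2 ∂μ)) atTop (𝓝 (4 * (C * 0 + 0))) :=
      ENNReal.Tendsto.const_mul ((ENNReal.Tendsto.const_mul (hd R) (Or.inr hC)).add (hT1 R))
        (Or.inr (by norm_num))
    rw [mul_zero, add_zero, mul_zero] at hlim
    refine tendsto_of_tendsto_of_tendsto_of_le_of_le tendsto_const_nhds hlim
      (fun _ => bot_le) fun n => ?_
    calc ∫⁻ y in Metric.ball (0 : E) R, ‖b n y - a y‖ₑ ^ 2 ∂μ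
        ≤ ∫⁻ y in Metric.ball (0 : E) R, 4 * (‖b n y - av μ Q (b n) y‖ₑ ^ 2 +
          ‖av μ Q (b n) y - a y‖ₑ ^ 2) ∂μ := by
          apply lintegral_mono
          intro y
          refine le_trans ?_ (sq_add_le _ _)
          apply pow_le_pow_left' _ 2
          calc ‖b n y - a y‖ₑ = ‖(b n y - av μ Q (b n) y) + (av μ Q (b n) y - a y)‖ₑ := by
                congr 1; abel
            _ ≤ _ := enorm_add_le _ _
      _ = 4 * (∫⁻ y in Metric.ball (0 : E) R, ‖b n y - av μ Q (b n) y‖ₑ ^ 2 ∂μ +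
          ∫⁻ y in Metric.ball (0 : E) R, ‖av μ Q (b n) y - a y‖ₑ ^ 2 ∂μ) := by
          rw [lintegral_const_mul' _ _ (by norm_num), lintegral_add_left]
          exact (((hb n).continuous.sub (av_cont μ hQ (hb n).continuous)).enorm.measurable).pow_const 2
      _ ≤ _ := by
          gcongr
          exact h (b n) (hb n)
  have hinv : ∀ x y, Q ((x, y), 1) (a x) = a y := by
    apply inv_of_zero μ hQ hac
    intro R hR
    obtain ⟨C, hC, h⟩ := two_point μ hΓ hQ R
    obtain ⟨c, hc0, hcb⟩ := tr_bound hQ R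
    have hfin : μ (Metric.ball (0 : E) R) ≠ ⊤ := measure_ball_lt_top.ne
    set B := Metric.ball (0 : E) R with hB
    have hQc : ∀ f : E → H, Continuous f → Continuous fun p : E × E =>
        Q ((p.1, p.2), 1) (f p.1) := by
      intro f hf
      have h1 : Continuous fun p : E × E => Q ((p.1, p.2), 1) :=
        hQ.smooth.continuous.comp (by fun_prop)
      exact h1.clm_apply (hf.comp continuous_fst)
    have hlim : Tendsto (fun n => 4 * (4 * (μ B * (ENNReal.ofReal c ^ 2 * ∫⁻ x in B,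
        ‖b n x - a x‖ₑ ^ 2 ∂μ) + C * ∫⁻ y in B, ‖cov Γ (b n) y‖ₑ ^ 2 ∂μ) +
        μ B * ∫⁻ x in B, ‖b n x - a x‖ₑ ^ 2 ∂μ)) atTop
        (𝓝 (4 * (4 * (μ B * (ENNReal.ofReal c ^ 2 * 0) + C * 0) + μ B * 0))) := by
      apply ENNReal.Tendsto.const_mul _ (Or.inr (by norm_num))
      apply Tendsto.add
      · apply ENNReal.Tendsto.const_mul _ (Or.inr (by norm_num))
        apply Tendsto.add
        · apply ENNReal.Tendsto.const_mul _ (Or.inr hfin)
          exact ENNReal.Tendsto.const_mul (hT2 R hR) (Or.inr (by finiteness))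
        · exact ENNReal.Tendsto.const_mul (hd R) (Or.inr hC)
      · exact ENNReal.Tendsto.const_mul (hT2 R hR) (Or.inr hfin)
    simp only [mul_zero, add_zero] at hlim
    refine le_antisymm (ge_of_tendsto hlim (Eventually.of_forall fun n => ?_)) (bot_le)
    have hbn := (hb n).continuous
    have hpt : ∀ x ∈ B, ∀ y ∈ B, ‖Q ((x, y), 1) (a x) - a y‖ₑ ^ 2 ≤
        4 * (4 * (ENNReal.ofReal c ^ 2 * ‖b n x - a x‖ₑ ^ 2 +
          ‖Q ((x, y), 1) (b n x) - b n y‖ₑ ^ 2) + ‖b n y - a y‖ₑ ^ 2) := by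
      intro x hx y hy
      have e : Q ((x, y), 1) (a x) - a y = (-(Q ((x, y), 1) (b n x - a x)) +
          (Q ((x, y), 1) (b n x) - b n y)) + (b n y - a y) := by
        rw [map_sub]; abel
      rw [e]
      calc ‖(-(Q ((x, y), 1) (b n x - a x)) + (Q ((x, y), 1) (b n x) - b n y)) +
            (b n y - a y)‖ₑ ^ 2
          ≤ (‖-(Q ((x, y), 1) (b n x - a x)) + (Q ((x, y), 1) (b n x) - b n y)‖ₑ +
            ‖b n y - a y‖ₑ) ^ 2 := by gcongr; exact enorm_add_le _ _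
        _ ≤ 4 * (‖-(Q ((x, y), 1) (b n x - a x)) + (Q ((x, y), 1) (b n x) - b n y)‖ₑ ^ 2 +
            ‖b n y - a y‖ₑ ^ 2) := sq_add_le _ _
        _ ≤ _ := by
            gcongr
            calc ‖-(Q ((x, y), 1) (b n x - a x)) + (Q ((x, y), 1) (b n x) - b n y)‖ₑ ^ 2
                ≤ (‖-(Q ((x, y), 1) (b n x - a x))‖ₑ +
                  ‖Q ((x, y), 1) (b n x) - b n y‖ₑ) ^ 2 := by gcongr; exact enorm_add_le _ _
              _ ≤ 4 * (‖-(Q ((x, y), 1) (b n x - a x))‖ₑ ^ 2 +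
                  ‖Q ((x, y), 1) (b n x) - b n y‖ₑ ^ 2) := sq_add_le _ _
              _ ≤ _ := by
                  gcongr
                  rw [← mul_pow]
                  gcongr
                  rw [enorm_neg, ← ofReal_norm, ← ofReal_norm, ← ENNReal.ofReal_mul hc0]
                  apply ENNReal.ofReal_le_ofReal
                  refine (ContinuousLinearMap.le_opNorm _ _).trans ?_
                  gcongr
                  exact hcb x y 1 (mem_ball_zero_iff.1 hx).le (mem_ball_zero_iff.1 hy).le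
                    zero_le_one le_rfl
    have hm1 : Measurable fun x : E => ‖b n x - a x‖ₑ ^ 2 :=
      ((hbn.sub hac).enorm.measurable).pow_const 2
    have hm2 : Measurable fun p : E × E => ‖Q ((p.1, p.2), 1) (b n p.1) - b n p.2‖ₑ ^ 2 :=
      (((hQc _ hbn).sub (hbn.comp continuous_snd)).enorm.measurable).pow_const 2
    have hm2' : ∀ x, Measurable fun y : E => ‖Q ((x, y), 1) (b n x) - b n y‖ₑ ^ 2 := fun x =>
      hm2.comp (g := fun p : E × E => ‖Q ((p.1, p.2), 1) (b n p.1) - b n p.2‖ₑ ^ 2)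
        (f := fun y => (x, y)) (by fun_prop)
    calc ∫⁻ x in B, ∫⁻ y in B, ‖Q ((x, y), 1) (a x) - a y‖ₑ ^ 2 ∂μ ∂μ
        ≤ ∫⁻ x in B, ∫⁻ y in B, 4 * (4 * (ENNReal.ofReal c ^ 2 * ‖b n x - a x‖ₑ ^ 2 +
          ‖Q ((x, y), 1) (b n x) - b n y‖ₑ ^ 2) + ‖b n y - a y‖ₑ ^ 2) ∂μ ∂μ := by
          apply setLIntegral_mono' measurableSet_ball
          intro x hx
          apply setLIntegral_mono' measurableSet_ball
          intro y hy
          exact hpt x hx y hy
      _ = ∫⁻ x in B, 4 * (4 * (μ B * (ENNReal.ofReal c ^ 2 * ‖b n x - a x‖ₑ ^ 2) +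
          ∫⁻ y in B, ‖Q ((x, y), 1) (b n x) - b n y‖ₑ ^ 2 ∂μ) +
          ∫⁻ y in B, ‖b n y - a y‖ₑ ^ 2 ∂μ) ∂μ := by
          congr 1 with x
          rw [lintegral_const_mul' _ _ (by norm_num), lintegral_add_right _ hm1,
            lintegral_const_mul' _ _ (by norm_num), lintegral_add_left measurable_const,
            lintegral_const, Measure.restrict_apply MeasurableSet.univ, univ_inter,
            mul_comm (μ B)]
      _ = 4 * (4 * (μ B * (ENNReal.ofReal c ^ 2 * ∫⁻ x in B,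
        ‖b n x - a x‖ₑ ^ 2 ∂μ) + ∫⁻ x in B, ∫⁻ y in B,
          ‖Q ((x, y), 1) (b n x) - b n y‖ₑ ^ 2 ∂μ ∂μ) +
        μ B * ∫⁻ x in B, ‖b n x - a x‖ₑ ^ 2 ∂μ) := by
          rw [lintegral_const_mul' _ _ (by norm_num), lintegral_add_right _ measurable_const,
            lintegral_const_mul' _ _ (by norm_num),
            lintegral_add_right _ hm2.lintegral_prod_right',
            lintegral_const_mul' _ _ hfin, lintegral_const_mul' _ _ (by finiteness),
            lintegral_const, Measure.restrict_apply MeasurableSet.univ, univ_inter]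
          ring
      _ ≤ _ := by
          gcongr
          exact h (b n) (hb n)
  obtain ⟨h1, h2⟩ := parallel_of_inv hΓ hQ hinv
  exact ⟨a, h1, h2, hT2⟩

end

end HPLaux

theorem parallel_limit {E H : Type} [NormedAddCommGroup E] [NormedSpace ℝ E]
    [FiniteDimensional ℝ E] [MeasurableSpace E] [BorelSpace E] (μ : Measure E)
    [μ.IsAddHaarMeasure] [NormedAddCommGroup H] [NormedSpace ℝ H] [FiniteDimensional ℝ H]
    (Γ : E → E →L[ℝ] H →L[ℝ] H) (hΓ : ContDiff ℝ ∞ Γ) (b : ℕ → E → H)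
    (hb : ∀ n, ContDiff ℝ ∞ (b n))
    (hc : ∀ R ε : ℝ, 0 < R → 0 < ε → ∃ n₀, ∀ m ≥ n₀, ∀ n ≥ n₀,
      ∫ y in Metric.ball (0 : E) R, ‖b m y - b n y‖ ^ 2 ∂μ < ε)
    (hd : ∀ R ε : ℝ, 0 < R → 0 < ε → ∃ n₀, ∀ n ≥ n₀,
      ∫ y in Metric.ball (0 : E) R, ‖fderiv ℝ (b n) y + (Γ y).flip (b n y)‖ ^ 2 ∂μ < ε) :
    ∃ a : E → H, ContDiff ℝ ∞ a ∧ (∀ y u, fderiv ℝ a y u + Γ y u (a y) = 0) ∧
      ∀ R ε : ℝ, 0 < R → 0 < ε → ∃ n₀, ∀ n ≥ n₀,
        ∫ y in Metric.ball (0 : E) R, ‖b n y - a y‖ ^ 2 ∂μ < ε := by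
  obtain ⟨a, h1, h2, h3⟩ := HPLaux.main μ hΓ b hb
    (fun R ε hR hε => by
      obtain ⟨n₀, hn₀⟩ := hc R ε hR hε
      refine ⟨n₀, fun m hm n hn => ?_⟩
      rw [← HPLaux.conv μ (f := fun y => b m y - b n y)
        ((hb m).continuous.sub (hb n).continuous)]
      exact (ENNReal.ofReal_lt_ofReal_iff hε).2 (hn₀ m hm n hn))
    (fun R => by
      have hR' : 0 < max R 1 := lt_max_of_lt_right one_pos
      rw [ENNReal.tendsto_nhds_zero]
      intro ε hε
      rcases eq_or_ne ε ⊤ with rfl | hε'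
      · exact Filter.Eventually.of_forall fun _ => le_top
      obtain ⟨n₀, hn₀⟩ := hd (max R 1) ε.toReal hR' (ENNReal.toReal_pos hε.ne' hε')
      filter_upwards [Filter.eventually_ge_atTop n₀] with n hn
      calc ∫⁻ y in Metric.ball (0 : E) R, ‖HPLaux.cov Γ (b n) y‖ₑ ^ 2 ∂μ
          ≤ ∫⁻ y in Metric.ball (0 : E) (max R 1), ‖HPLaux.cov Γ (b n) y‖ₑ ^ 2 ∂μ := by
            apply lintegral_mono_set
            exact Metric.ball_subset_ball (le_max_left _ _)
        _ = ENNReal.ofReal (∫ y in Metric.ball (0 : E) (max R 1),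
            ‖HPLaux.cov Γ (b n) y‖ ^ 2 ∂μ) := (HPLaux.conv μ (HPLaux.cont_cov hΓ (hb n)) _).symm
        _ ≤ ENNReal.ofReal ε.toReal := ENNReal.ofReal_le_ofReal (hn₀ n hn).le
        _ = ε := ENNReal.ofReal_toReal hε')
  refine ⟨a, h1, h2, fun R ε hR hε => ?_⟩
  have h4 := h3 (max R 2) (lt_max_of_lt_right one_lt_two)
  have h5 := h4.eventually (gt_mem_nhds (ENNReal.ofReal_pos.2 hε))
  obtain ⟨n₀, hn₀⟩ := Filter.eventually_atTop.1 h5
  refine ⟨n₀, fun n hn => ?_⟩
  rw [← ENNReal.ofReal_lt_ofReal_iff hε, 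
    HPLaux.conv μ (f := fun y => b n y - a y) ((hb n).continuous.sub h1.continuous)]
  refine lt_of_le_of_lt ?_ (hn₀ n hn)
  apply lintegral_mono_set
  exact Metric.ball_subset_ball (le_max_left _ _)

end Pool.Agent.H86.Nco
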