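import Pool.Agent.H86.Nco.HMin
import Pool.Agent.H86.Nco.HPL

/-!
# Module HPAR: almost parallel `L²` Cauchy sequences of two-forms converge to parallel forms

In each chart apply `parallel_limit` to `H = Bil K`, `Γ(y) u β = - β(chr u ·, ·) - β(·, chr u ·)` (smooth by
`contDiffAt_chrB`), `b n = (b n).val i`; hypotheses by `piece_le` and `sq_le` on closed balls (`‖·‖²` is bounded by
`c nb2`, resp. `c nb3`).  The limit `a_i` is alternating (an `L²` limit of alternating forms is alternating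
almost everywhere, and it is continuous), `∇a_i = 0` is `Parallel`.  Compatibility on `ov K i j`: both
`a_i y u v` and `a_j (tr y) (Dtr u) (Dtr v)` are `L²_loc(ov K i j)` limits of the same sequence (change of
variables for the second), and continuous, hence equal.  `nrmSq G (b n - a) → 0` by `cover_le` and `sq_le`.
-/

open scoped Manifold ContDiff Bundle Topology

noncomputable section

namespace Pool.Agent.H86.Nco

open Pool.Agent.H86.Anco MeasureTheory

set_option maxSynthPendingDepth 3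

variable {K : ℕ}

namespace HPar

theorem haarE : (volume : Measure (E K)).IsAddHaarMeasure := by
  have h1 : (volume : Measure (ℂ × F K)).IsAddHaarMeasure := by
    rw [Measure.volume_eq_prod]
    infer_instance
  rw [Measure.volume_eq_prod]
  exact Measure.prod.instIsAddHaarMeasure _ _

attribute [local instance] haarE

section Abstract

variable (W : Type) [NormedAddCommGroup W] [NormedSpace ℝ W]

/-- the flip on bilinear forms -/
def flipW : (W →L[ℝ] W →L[ℝ] ℝ) →L[ℝ] (W →L[ℝ] W →L[ℝ] ℝ) :=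
  ((ContinuousLinearMap.flipₗᵢ ℝ W W ℝ).toContinuousLinearEquiv :
    (W →L[ℝ] W →L[ℝ] ℝ) →L[ℝ] (W →L[ℝ] W →L[ℝ] ℝ))

/-- `T ↦ β ↦ β (T ·, ·)` -/
def A1 : (W →L[ℝ] W) →L[ℝ] (W →L[ℝ] W →L[ℝ] ℝ) →L[ℝ] (W →L[ℝ] W →L[ℝ] ℝ) :=
  (ContinuousLinearMap.compL ℝ W W (W →L[ℝ] ℝ)).flip

/-- `T ↦ β ↦ β (·, T ·)` -/
def A2 : (W →L[ℝ] W) →L[ℝ] (W →L[ℝ] W →L[ℝ] ℝ) →L[ℝ] (W →L[ℝ] W →L[ℝ] ℝ) :=
  (((ContinuousLinearMap.compL ℝ (W →L[ℝ] W →L[ℝ] ℝ) (W →L[ℝ] W →L[ℝ] ℝ)
      (W →L[ℝ] W →L[ℝ] ℝ)) (flipW W)).comp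
    ((ContinuousLinearMap.compL ℝ (W →L[ℝ] W →L[ℝ] ℝ) (W →L[ℝ] W →L[ℝ] ℝ)
      (W →L[ℝ] W →L[ℝ] ℝ)).flip (flipW W))).comp (A1 W)

/-- both -/
def A12 : (W →L[ℝ] W) →L[ℝ] (W →L[ℝ] W →L[ℝ] ℝ) →L[ℝ] (W →L[ℝ] W →L[ℝ] ℝ) := A1 W + A2 W

variable {W}

lemma A12_apply (T : W →L[ℝ] W) (β : W →L[ℝ] W →L[ℝ] ℝ) (u v : W) :
    A12 W T β u v = β (T u) v + β u (T v) := rfl

lemma contDiff_compG {X Y Z : Type} [NormedAddCommGroup X] [NormedSpace ℝ X]
    [NormedAddCommGroup Y] [NormedSpace ℝ Y] [NormedAddCommGroup Z] [NormedSpace ℝ Z]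
    (A : Y →L[ℝ] Z) (f : X → X →L[ℝ] Y) (h : ContDiff ℝ ∞ f) :
    ContDiff ℝ ∞ (fun x => A.comp (f x)) :=
  (ContinuousLinearMap.compL ℝ X Y Z A).contDiff.comp h

/-- the connection on bilinear forms -/
def GamW (C : W → W →L[ℝ] W →L[ℝ] W) (y : W) :
    W →L[ℝ] (W →L[ℝ] W →L[ℝ] ℝ) →L[ℝ] (W →L[ℝ] W →L[ℝ] ℝ) := (-A12 W).comp (C y)

lemma GamW_apply (C : W → W →L[ℝ] W →L[ℝ] W) (y u : W) (β : W →L[ℝ] W →L[ℝ] ℝ) (v w : W) :
    GamW C y u β v w = - (β (C y u v) w + β v (C y u w)) := by
  change - (A12 W (C y u) β v w) = _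
  rw [A12_apply]

lemma contDiff_GamW {C : W → W →L[ℝ] W →L[ℝ] W} (h : ContDiff ℝ ∞ C) :
    ContDiff ℝ ∞ (GamW C) :=
  contDiff_compG (X := W) (Y := W →L[ℝ] W)
    (Z := (W →L[ℝ] W →L[ℝ] ℝ) →L[ℝ] (W →L[ℝ] W →L[ℝ] ℝ)) (-A12 W) C h

lemma sum_apply (D : W →L[ℝ] (W →L[ℝ] W →L[ℝ] ℝ))
    (Γ : W →L[ℝ] (W →L[ℝ] W →L[ℝ] ℝ) →L[ℝ] (W →L[ℝ] W →L[ℝ] ℝ))
    (β : W →L[ℝ] W →L[ℝ] ℝ) (u v w : W) :
    (D + Γ.flip β) u v w = D u v w + Γ u β v w := rfl

end Abstract

/-- the connection on bilinear forms -/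
def Gam (G : Met K) (i : Ix) (y : E K) : E K →L[ℝ] Bil K →L[ℝ] Bil K :=
  GamW (Natural.chrB (G.g i)) y

lemma Gam_apply (G : Met K) (i : Ix) (y u : E K) (β : Bil K) (v w : E K) :
    Gam G i y u β v w = - (β (chr (G.g i) y u v) w + β v (chr (G.g i) y u w)) :=
  GamW_apply _ _ _ _ _ _

lemma contDiff_Gam (G : Met K) (i : Ix) : ContDiff ℝ ∞ (Gam G i) :=
  contDiff_GamW (contDiff_iff_contDiffAt.2 fun y => Natural.contDiffAt_chrB (isMetricAt G i y))

lemma cd_eq (G : Met K) (i : Ix) {b : Ix → E K → Bil K} {T : E K → Tri K}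
    (hT : ∀ y u v w, T y u v w = cd G b i y u v w) (y : E K) :
    fderiv ℝ (b i) y + (Gam G i y).flip (b i y) = T y := by
  refine ContinuousLinearMap.ext fun u => ContinuousLinearMap.ext fun v =>
    ContinuousLinearMap.ext fun w => ?_
  rw [hT]
  rw [sum_apply, Gam_apply]
  unfold cd
  ring

/-- operator norms are bounded by the full norms -/
lemma norm_le_nb2 (K : ℕ) : ∃ c : ℝ, 0 < c ∧ ∀ β : Bil K,
    ‖β‖ ^ 2 ≤ c * nb2 (fun u v => β u v) := by
  let L : Bil K →ₗ[ℝ] (Fin (K + 4) → Fin (K + 4) → ℝ) :=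
    { toFun := fun β j k => β (bs K j) (bs K k)
      map_add' := fun _ _ => rfl
      map_smul' := fun _ _ => rfl }
  have hinj : Function.Injective L := by
    intro β γ h
    have h1 : ∀ j k, β (bs K j) (bs K k) = γ (bs K j) (bs K k) := fun j k =>
      congrFun (congrFun h j) k
    have h2 : ∀ j, β (bs K j) = γ (bs K j) := fun j =>
      ContinuousLinearMap.coe_injective ((bs K).ext fun k => h1 j k)
    exact ContinuousLinearMap.coe_injective ((bs K).ext fun j => h2 j)
  obtain ⟨c, hc, hL⟩ := (LinearMap.injective_iff_antilipschitz L).1 hinj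
  refine ⟨(c : ℝ) ^ 2, by positivity, fun β => ?_⟩
  have h1 : ‖β‖ ≤ c * ‖L β‖ := by
    have := hL.le_mul_dist β 0
    simpa [dist_eq_norm] using this
  have h0 : 0 ≤ nb2 (fun u v => β u v) :=
    Finset.sum_nonneg fun j _ => Finset.sum_nonneg fun k _ => sq_nonneg _
  have h2 : ‖L β‖ ≤ √(nb2 (fun u v => β u v)) := by
    rw [pi_norm_le_iff_of_nonneg (Real.sqrt_nonneg _)]
    intro j
    rw [pi_norm_le_iff_of_nonneg (Real.sqrt_nonneg _)]
    intro k
    apply Real.le_sqrt_of_sq_le
    rw [Real.norm_eq_abs, sq_abs]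
    have h3 : L β j k ^ 2 ≤ ∑ k, β (bs K j) (bs K k) ^ 2 :=
      Finset.single_le_sum (f := fun k => β (bs K j) (bs K k) ^ 2)
        (fun k _ => sq_nonneg _) (Finset.mem_univ k)
    exact h3.trans (Finset.single_le_sum (f := fun j => ∑ k, β (bs K j) (bs K k) ^ 2)
      (fun j _ => Finset.sum_nonneg fun k _ => sq_nonneg _) (Finset.mem_univ j))
  have h3 : ‖β‖ ≤ c * √(nb2 (fun u v => β u v)) :=
    h1.trans (mul_le_mul_of_nonneg_left h2 c.2)
  calc ‖β‖ ^ 2 ≤ (c * √(nb2 (fun u v => β u v))) ^ 2 := by gcongr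
    _ = (c : ℝ) ^ 2 * nb2 (fun u v => β u v) := by rw [mul_pow, Real.sq_sqrt h0]

lemma norm_le_nb3 (K : ℕ) : ∃ c : ℝ, 0 < c ∧ ∀ T : Tri K,
    ‖T‖ ^ 2 ≤ c * nb3 (fun u v w => T u v w) := by
  let L : Tri K →ₗ[ℝ] (Fin (K + 4) → Fin (K + 4) → Fin (K + 4) → ℝ) :=
    { toFun := fun β j k l => β (bs K j) (bs K k) (bs K l)
      map_add' := fun _ _ => rfl
      map_smul' := fun _ _ => rfl }
  have hinj : Function.Injective L := by
    intro β γ h
    have h1 : ∀ j k l, β (bs K j) (bs K k) (bs K l) = γ (bs K j) (bs K k) (bs K l) :=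
      fun j k l => congrFun (congrFun (congrFun h j) k) l
    have h2 : ∀ j k, β (bs K j) (bs K k) = γ (bs K j) (bs K k) := fun j k =>
      ContinuousLinearMap.coe_injective ((bs K).ext fun l => h1 j k l)
    have h3 : ∀ j, β (bs K j) = γ (bs K j) := fun j =>
      ContinuousLinearMap.coe_injective ((bs K).ext fun k => h2 j k)
    exact ContinuousLinearMap.coe_injective ((bs K).ext fun j => h3 j)
  obtain ⟨c, hc, hL⟩ := (LinearMap.injective_iff_antilipschitz L).1 hinj
  refine ⟨(c : ℝ) ^ 2, by positivity, fun β => ?_⟩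
  have h1 : ‖β‖ ≤ c * ‖L β‖ := by
    have := hL.le_mul_dist β 0
    simpa [dist_eq_norm] using this
  have h0 : 0 ≤ nb3 (fun u v w => β u v w) :=
    Finset.sum_nonneg fun j _ => Finset.sum_nonneg fun k _ => Finset.sum_nonneg fun l _ =>
      sq_nonneg _
  have h2 : ‖L β‖ ≤ √(nb3 (fun u v w => β u v w)) := by
    rw [pi_norm_le_iff_of_nonneg (Real.sqrt_nonneg _)]
    intro j
    rw [pi_norm_le_iff_of_nonneg (Real.sqrt_nonneg _)]
    intro k
    rw [pi_norm_le_iff_of_nonneg (Real.sqrt_nonneg _)]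
    intro l
    apply Real.le_sqrt_of_sq_le
    rw [Real.norm_eq_abs, sq_abs]
    have h3 : L β j k l ^ 2 ≤ ∑ l, β (bs K j) (bs K k) (bs K l) ^ 2 :=
      Finset.single_le_sum (f := fun l => β (bs K j) (bs K k) (bs K l) ^ 2)
        (fun k _ => sq_nonneg _) (Finset.mem_univ l)
    have h4 : ∑ l, β (bs K j) (bs K k) (bs K l) ^ 2 ≤
        ∑ k, ∑ l, β (bs K j) (bs K k) (bs K l) ^ 2 :=
      Finset.single_le_sum (f := fun k => ∑ l, β (bs K j) (bs K k) (bs K l) ^ 2)
        (fun k _ => Finset.sum_nonneg fun l _ => sq_nonneg _) (Finset.mem_univ k)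
    exact (h3.trans h4).trans (Finset.single_le_sum
      (f := fun j => ∑ k, ∑ l, β (bs K j) (bs K k) (bs K l) ^ 2)
      (fun j _ => Finset.sum_nonneg fun k _ => Finset.sum_nonneg fun l _ => sq_nonneg _)
      (Finset.mem_univ j))
  have h3 : ‖β‖ ≤ c * √(nb3 (fun u v w => β u v w)) :=
    h1.trans (mul_le_mul_of_nonneg_left h2 c.2)
  calc ‖β‖ ^ 2 ≤ (c * √(nb3 (fun u v w => β u v w))) ^ 2 := by gcongr
    _ = (c : ℝ) ^ 2 * nb3 (fun u v w => β u v w) := by rw [mul_pow, Real.sq_sqrt h0]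

/-- the full norm is bounded by the operator norm -/
lemma nb2_le_norm (K : ℕ) : ∃ c : ℝ, 0 < c ∧ ∀ β : Bil K,
    nb2 (fun u v => β u v) ≤ c * ‖β‖ ^ 2 := by
  refine ⟨1 + ∑ j, ∑ k, (‖bs K j‖ * ‖bs K k‖) ^ 2, ?_, fun β => ?_⟩
  · have : 0 ≤ ∑ j, ∑ k, (‖bs K j‖ * ‖bs K k‖) ^ 2 :=
      Finset.sum_nonneg fun j _ => Finset.sum_nonneg fun k _ => sq_nonneg _
    linarith
  · have h1 : ∀ j k, β (bs K j) (bs K k) ^ 2 ≤ (‖bs K j‖ * ‖bs K k‖) ^ 2 * ‖β‖ ^ 2 := by
      intro j k
      have h2 : ‖β (bs K j) (bs K k)‖ ≤ ‖β‖ * ‖bs K j‖ * ‖bs K k‖ := β.le_opNorm₂ _ _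
      calc β (bs K j) (bs K k) ^ 2 = ‖β (bs K j) (bs K k)‖ ^ 2 := by
            rw [Real.norm_eq_abs, sq_abs]
        _ ≤ (‖β‖ * ‖bs K j‖ * ‖bs K k‖) ^ 2 := by gcongr
        _ = (‖bs K j‖ * ‖bs K k‖) ^ 2 * ‖β‖ ^ 2 := by ring
    calc nb2 (fun u v => β u v) ≤ ∑ j, ∑ k, (‖bs K j‖ * ‖bs K k‖) ^ 2 * ‖β‖ ^ 2 :=
          Finset.sum_le_sum fun j _ => Finset.sum_le_sum fun k _ => h1 j k
      _ = (∑ j, ∑ k, (‖bs K j‖ * ‖bs K k‖) ^ 2) * ‖β‖ ^ 2 := by
          simp only [Finset.sum_mul]
      _ ≤ (1 + ∑ j, ∑ k, (‖bs K j‖ * ‖bs K k‖) ^ 2) * ‖β‖ ^ 2 := by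
          apply mul_le_mul_of_nonneg_right _ (sq_nonneg _)
          linarith

/-- `L²` norms on balls are bounded by the global norm -/
lemma ball_le (G : Met K) (i : Ix) (R : ℝ) : ∃ c : ℝ, 0 < c ∧
    (∀ b : Form2 K, ∫ y in Metric.ball (0 : E K) R, ‖b.val i y‖ ^ 2 ≤ c * nrmSq G b) ∧
    ∀ (b : Form2 K) (T : E K → Tri K), ContDiff ℝ ∞ T →
      (∀ y u v w, T y u v w = cd G b.val i y u v w) →
      ∫ y in Metric.ball (0 : E K) R, ‖T y‖ ^ 2 ≤
        c * IM G (fun i y => sq3 (G.g i y) (cd G b.val i y)) := by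
  have hC : IsCompact (Metric.closedBall (0 : E K) R) := isCompact_closedBall _ _
  obtain ⟨c1, hc1, H1⟩ := sq_le (G.smooth i) (fun y => G.posDef i y) hC
  obtain ⟨c2, hc2, H2⟩ := norm_le_nb2 K
  obtain ⟨c3, hc3, H3⟩ := norm_le_nb3 K
  obtain ⟨c4, hc4, H4⟩ := piece_le G i hC
  have key : ∀ (X : Type) [NormedAddCommGroup X] (f : E K → X) (F : Ix → E K → ℝ) (d : ℝ),
      0 < d → Continuous f → Compat0 F → (∀ i, Continuous (F i)) → (∀ i y, 0 ≤ F i y) →
      (∀ y ∈ Metric.closedBall (0 : E K) R, ‖f y‖ ^ 2 ≤ d * F i y) →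
      ∫ y in Metric.ball (0 : E K) R, ‖f y‖ ^ 2 ≤ d * (c4 * IM G F) := by
    intro X _ f F d hd hf hF hFc hF0 hle
    have hint : IntegrableOn (fun y => ‖f y‖ ^ 2) (Metric.closedBall (0 : E K) R) :=
      (hf.norm.pow 2).continuousOn.integrableOn_compact hC
    have hint2 : IntegrableOn (fun y => d * F i y) (Metric.closedBall (0 : E K) R) :=
      (continuous_const.mul (hFc i)).continuousOn.integrableOn_compact hC
    calc ∫ y in Metric.ball (0 : E K) R, ‖f y‖ ^ 2
        ≤ ∫ y in Metric.closedBall (0 : E K) R, ‖f y‖ ^ 2 :=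
          setIntegral_mono_set hint (Filter.Eventually.of_forall fun y => sq_nonneg _)
            (LE.le.eventuallyLE Metric.ball_subset_closedBall)
      _ ≤ ∫ y in Metric.closedBall (0 : E K) R, d * F i y :=
          setIntegral_mono_on hint hint2 measurableSet_closedBall hle
      _ = d * ∫ y in Metric.closedBall (0 : E K) R, F i y := integral_const_mul _ _
      _ ≤ d * (c4 * IM G F) := mul_le_mul_of_nonneg_left (H4 F hF hFc hF0) hd.le
  have hF : ∀ b : Form2 K, Compat0 (fun i y => sq2 (G.g i y) (fun u v => b.val i y u v)) :=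
    fun b => compat0_sq2 G b.compat
  refine ⟨max (c2 * c1 * c4) (c3 * c1 * c4), by positivity, fun b => ?_, fun b T hT hTb => ?_⟩
  · have h1 := key (Bil K) (b.val i) (fun i y => sq2 (G.g i y) (fun u v => b.val i y u v))
      (c2 * c1) (by positivity) (b.smooth i).continuous (hF b)
      (fun i => cont_sq2 G i (b.smooth i).continuous)
      (fun i y => Finset.sum_nonneg fun j _ => Finset.sum_nonneg fun k _ => sq_nonneg _)
      (fun y hy => by
        refine (H2 _).trans ?_
        rw [mul_assoc]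
        exact mul_le_mul_of_nonneg_left ((H1 y hy).2.1 (b.val i y)).2 hc2.le)
    refine h1.trans ?_
    have e : c2 * c1 * (c4 * IM G fun i y => sq2 (G.g i y) (fun u v => b.val i y u v)) =
        (c2 * c1 * c4) * nrmSq G b := by unfold nrmSq; ring
    rw [e]
    exact mul_le_mul_of_nonneg_right (le_max_left _ _) (nrmSq_nonneg G b)
  · choose T' hT' hTb' using fun j => exists_cdL G b.val j (b.smooth j)
    have hcomp : Compat3 (fun i y u v w => T' i y u v w) := by
      have h := compat3_cd G b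
      intro i j y hy u v w
      have := h i j y hy u v w
      simp only [hTb']
      exact this
    have e0 : ∀ j y, sq3 (G.g j y) (cd G b.val j y) =
        sq3 (G.g j y) (fun u v w => T' j y u v w) := by
      intro j y
      congr 1
      funext u v w
      exact (hTb' j y u v w).symm
    have h1 := key (Tri K) T (fun i y => sq3 (G.g i y) (fun u v w => T' i y u v w))
      (c3 * c1) (by positivity) hT.continuous (compat0_sq3 G hcomp)
      (fun i => cont_sq3 G i (hT' i).continuous)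
      (fun i y => Finset.sum_nonneg fun j _ => Finset.sum_nonneg fun k _ =>
        Finset.sum_nonneg fun l _ => sq_nonneg _)
      (fun y hy => by
        have e : T y = T' i y := ContinuousLinearMap.ext fun u => ContinuousLinearMap.ext fun v =>
          ContinuousLinearMap.ext fun w => by rw [hTb, hTb']
        rw [e]
        refine (H3 _).trans ?_
        rw [mul_assoc]
        exact mul_le_mul_of_nonneg_left ((H1 y hy).2.2 (T' i y)).2 hc3.le)
    refine h1.trans ?_
    have e : c3 * c1 * (c4 * IM G fun i y => sq3 (G.g i y) (fun u v w => T' i y u v w)) =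
        (c3 * c1 * c4) * IM G (fun i y => sq3 (G.g i y) (cd G b.val i y)) := by
      have : (fun i y => sq3 (G.g i y) (cd G b.val i y)) =
          fun i y => sq3 (G.g i y) (fun u v w => T' i y u v w) := by
        funext j y
        exact e0 j y
      rw [this]
      ring
    rw [e]
    apply mul_le_mul_of_nonneg_right (le_max_right _ _)
    exact IM_nonneg G fun i y => Finset.sum_nonneg fun j _ => Finset.sum_nonneg fun k _ =>
        Finset.sum_nonneg fun l _ => sq_nonneg _

/-- a continuous function with vanishing `L²` norms on a neighbourhood vanishes -/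
lemma eq_zero_of_small {X : Type} [NormedAddCommGroup X] {h : E K → X} {y₀ : E K} {r : ℝ}
    (hr : 0 < r) (hc : ContinuousOn h (Metric.closedBall y₀ r))
    (hs : ∀ ε : ℝ, 0 < ε → ∫ y in Metric.closedBall y₀ r, ‖h y‖ ^ 2 ≤ ε) : h y₀ = 0 := by
  by_contra hne
  have hpos : 0 < ‖h y₀‖ := norm_pos_iff.2 hne
  have hmem : y₀ ∈ Metric.closedBall y₀ r := Metric.mem_closedBall_self hr.le
  have hca : ContinuousAt (fun y => ‖h y‖) y₀ :=
    (hc.continuousAt (Metric.closedBall_mem_nhds y₀ hr)).norm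
  have hev : ∀ᶠ y in 𝓝 y₀, ‖h y₀‖ / 2 < ‖h y‖ :=
    hca.eventually (lt_mem_nhds (by linarith))
  obtain ⟨s, hs0, hsb⟩ := Metric.eventually_nhds_iff_ball.1 hev
  set t := min s r with ht
  have ht0 : 0 < t := lt_min hs0 hr
  have hsub : Metric.ball y₀ t ⊆ Metric.closedBall y₀ r :=
    (Metric.ball_subset_ball (min_le_right _ _)).trans Metric.ball_subset_closedBall
  have hint : IntegrableOn (fun y => ‖h y‖ ^ 2) (Metric.closedBall y₀ r) :=
    (hc.norm.pow 2).integrableOn_compact (isCompact_closedBall _ _)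
  have hvol : 0 < (volume (Metric.ball y₀ t)).toReal :=
    ENNReal.toReal_pos (Metric.measure_ball_pos _ _ ht0).ne' measure_ball_lt_top.ne
  have h1 : (volume (Metric.ball y₀ t)).toReal * (‖h y₀‖ / 2) ^ 2 ≤
      ∫ y in Metric.ball y₀ t, ‖h y‖ ^ 2 := by
    have h2 : ∫ y in Metric.ball y₀ t, (‖h y₀‖ / 2) ^ 2 =
        (volume (Metric.ball y₀ t)).toReal * (‖h y₀‖ / 2) ^ 2 := by
      rw [setIntegral_const]
      rfl
    rw [← h2]
    refine setIntegral_mono_on (integrableOn_const measure_ball_lt_top.ne) (hint.mono_set hsub)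
      measurableSet_ball fun y hy => ?_
    have := hsb y (Metric.ball_subset_ball (min_le_left _ _) hy)
    gcongr
  have h3 : ∫ y in Metric.ball y₀ t, ‖h y‖ ^ 2 ≤ ∫ y in Metric.closedBall y₀ r, ‖h y‖ ^ 2 :=
    setIntegral_mono_set hint (Filter.Eventually.of_forall fun y => sq_nonneg _)
      (LE.le.eventuallyLE hsub)
  have h4 : 0 < (volume (Metric.ball y₀ t)).toReal * (‖h y₀‖ / 2) ^ 2 := by positivity
  have h5 := hs ((volume (Metric.ball y₀ t)).toReal * (‖h y₀‖ / 2) ^ 2 / 2) (by positivity)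
  linarith

/-- change of variables -/
lemma cov_le (i j : Ix) {y₀ : E K} {r : ℝ} (hsub : Metric.closedBall y₀ r ⊆ ov K i j) :
    ∃ R c : ℝ, 0 < R ∧ 0 < c ∧ ∀ f : E K → ℝ, Continuous f → (∀ z, 0 ≤ f z) →
      ∫ y in Metric.closedBall y₀ r, f (tr i j y) ≤ c * ∫ z in Metric.ball (0 : E K) R, f z := by
  set B := Metric.closedBall y₀ r with hB
  have hBc : IsCompact B := isCompact_closedBall _ _
  have hc0 : ContinuousOn (tr i j : E K → E K) B := (contDiffOn_tr i j).continuousOn.mono hsub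
  have hc1 : ContinuousOn (fun y => fderiv ℝ (tr i j : E K → E K) y) B :=
    ((contDiffOn_tr i j).continuousOn_fderiv_of_isOpen (isOpen_ov i j) (by simp)).mono hsub
  have hc2 : ContinuousOn (fun y => |(fderiv ℝ (tr i j : E K → E K) y).det|) B :=
    (ContinuousLinearMap.continuous_det.comp_continuousOn hc1).abs
  have hdet : ∀ y ∈ B, 0 < |(fderiv ℝ (tr i j : E K → E K) y).det| := by
    intro y hy
    rw [abs_pos]
    intro h0
    have h1 : (fderiv ℝ (tr j i : E K → E K) (tr i j y) : E K →ₗ[ℝ] E K) ∘ₗ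
        (fderiv ℝ (tr i j : E K → E K) y : E K →ₗ[ℝ] E K) = LinearMap.id :=
      LinearMap.ext fun u => fderiv_tr_tr i j (hsub hy) u
    have h2 := congrArg LinearMap.det h1
    rw [LinearMap.det_comp, LinearMap.det_id] at h2
    have h3 : LinearMap.det (fderiv ℝ (tr i j : E K → E K) y : E K →ₗ[ℝ] E K) = 0 := h0
    rw [h3, mul_zero] at h2
    exact zero_ne_one h2
  obtain ⟨m, hm0, hm⟩ : ∃ m : ℝ, 0 < m ∧ ∀ y ∈ B, m ≤ |(fderiv ℝ (tr i j : E K → E K) y).det| := by
    rcases B.eq_empty_or_nonempty with he | hne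
    · exact ⟨1, one_pos, fun y hy => by rw [he] at hy; exact hy.elim⟩
    · obtain ⟨z, hz, hmin⟩ := hBc.exists_isMinOn hne hc2
      exact ⟨_, hdet z hz, fun y hy => hmin hy⟩
  obtain ⟨R, hR⟩ := (hBc.image_of_continuousOn hc0).isBounded.subset_ball (0 : E K)
  refine ⟨max R 1, m⁻¹, lt_max_of_lt_right one_pos, by positivity, fun f hf hf0 => ?_⟩
  have hinj : Set.InjOn (tr i j : E K → E K) B := by
    intro y hy z hz h
    rw [← tr_tr i j (hsub hy), h, tr_tr i j (hsub hz)]
  have hcv := integral_image_eq_integral_abs_det_fderiv_smul (volume : Measure (E K))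
    (Metric.isClosed_closedBall.measurableSet : MeasurableSet B)
    (fun y hy => (differentiableAt_tr i j (hsub hy)).hasFDerivAt.hasFDerivWithinAt) hinj f
  have h1 : m * ∫ y in B, f (tr i j y) ≤
      ∫ y in B, |(fderiv ℝ (tr i j : E K → E K) y).det| • f (tr i j y) := by
    rw [← integral_const_mul]
    refine setIntegral_mono_on ?_ ?_ Metric.isClosed_closedBall.measurableSet fun y hy => ?_
    · exact ((continuousOn_const.mul (hf.comp_continuousOn hc0)).integrableOn_compact hBc)
    · exact ((hc2.smul (hf.comp_continuousOn hc0)).integrableOn_compact hBc)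
    · exact mul_le_mul_of_nonneg_right (hm y hy) (hf0 _)
  have h2 : ∫ z in (tr i j) '' B, f z ≤ ∫ z in Metric.ball (0 : E K) (max R 1), f z := by
    refine setIntegral_mono_set ?_ (Filter.Eventually.of_forall fun y => hf0 y)
      (LE.le.eventuallyLE ?_)
    · exact (hf.continuousOn.integrableOn_compact
        (isCompact_closedBall (0 : E K) (max R 1))).mono_set Metric.ball_subset_closedBall
    · exact hR.trans (Metric.ball_subset_ball (le_max_left _ _))
  rw [hcv] at h2
  have h3 := h1.trans h2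
  calc ∫ y in B, f (tr i j y) = m⁻¹ * (m * ∫ y in B, f (tr i j y)) := by
        rw [← mul_assoc, inv_mul_cancel₀ hm0.ne', one_mul]
    _ ≤ _ := mul_le_mul_of_nonneg_left h3 (by positivity)

lemma norm_bilinearComp_le (β : Bil K) (L : E K →L[ℝ] E K) :
    ‖β.bilinearComp L L‖ ≤ ‖β‖ * ‖L‖ ^ 2 := by
  refine ContinuousLinearMap.opNorm_le_bound₂ _ (by positivity) fun u v => ?_
  calc ‖β (L u) (L v)‖ ≤ ‖β‖ * ‖L u‖ * ‖L v‖ := β.le_opNorm₂ _ _
    _ ≤ ‖β‖ * (‖L‖ * ‖u‖) * (‖L‖ * ‖v‖) := by
        gcongr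
        · exact L.le_opNorm u
        · exact L.le_opNorm v
    _ = ‖β‖ * ‖L‖ ^ 2 * ‖u‖ * ‖v‖ := by ring

lemma sq_add_le {X : Type} [NormedAddCommGroup X] (x y : X) :
    ‖x + y‖ ^ 2 ≤ 2 * ‖x‖ ^ 2 + 2 * ‖y‖ ^ 2 := by
  have h := norm_add_le x y
  have h0 := norm_nonneg (x + y)
  nlinarith [sq_nonneg (‖x‖ - ‖y‖)]

end HPar

open HPar in
theorem parallel_limit_forms (G : Met K) (b : ℕ → Form2 K)
    (hc : ∀ ε : ℝ, 0 < ε → ∃ n₀, ∀ m ≥ n₀, ∀ n ≥ n₀, nrmSq G (b m - b n) < ε)
    (hd : ∀ ε : ℝ, 0 < ε → ∃ n₀, ∀ n ≥ n₀,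
      IM G (fun i y => sq3 (G.g i y) (cd G (b n).val i y)) < ε) :
    ∃ a : Form2 K, Parallel G a ∧ ∀ ε : ℝ, 0 < ε → ∃ n₀, ∀ n ≥ n₀, nrmSq G (b n - a) < ε := by
  haveI := haarE (K := K)
  have H : ∀ i, ∃ a : E K → Bil K, ContDiff ℝ ∞ a ∧
      (∀ y u, fderiv ℝ a y u + Gam G i y u (a y) = 0) ∧
      ∀ R ε : ℝ, 0 < R → 0 < ε → ∃ n₀, ∀ n ≥ n₀,
        ∫ y in Metric.ball (0 : E K) R, ‖(b n).val i y - a y‖ ^ 2 < ε := by
    intro i
    refine parallel_limit (volume : Measure (E K)) (Gam G i) (contDiff_Gam G i)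
      (fun n => (b n).val i) (fun n => (b n).smooth i) ?_ ?_
    · intro R ε _ hε
      obtain ⟨c, hc0, h1, _⟩ := ball_le G i R
      obtain ⟨n₀, hn₀⟩ := hc (ε / c) (by positivity)
      refine ⟨n₀, fun m hm n hn => ?_⟩
      have h2 := h1 (b m - b n)
      have h3 := hn₀ m hm n hn
      rw [lt_div_iff₀ hc0] at h3
      simp only [Form2.sub_val] at h2
      linarith
    · intro R ε _ hε
      obtain ⟨c, hc0, _, h1⟩ := ball_le G i R
      obtain ⟨n₀, hn₀⟩ := hd (ε / c) (by positivity)
      refine ⟨n₀, fun n hn => ?_⟩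
      obtain ⟨T, hT, hTb⟩ := exists_cdL G (b n).val i ((b n).smooth i)
      have h2 := h1 (b n) T hT hTb
      have h3 := hn₀ n hn
      rw [lt_div_iff₀ hc0] at h3
      have h4 : ∀ y, fderiv ℝ ((b n).val i) y + (Gam G i y).flip ((b n).val i y) = T y :=
        fun y => cd_eq G i hTb y
      simp only [h4]
      linarith
  choose a ha1 ha2 ha3 using H
  -- alternating
  have halt : ∀ i y u v, a i y u v = - a i y v u := by
    intro i y₀ u v
    have key : a i y₀ + (a i y₀).flip = 0 := by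
      refine eq_zero_of_small (h := fun y => a i y + (a i y).flip) one_pos ?_ ?_
      · have h1 : Continuous (fun y => (a i y).flip) :=
          (ContinuousLinearMap.flipₗᵢ ℝ (E K) (E K) ℝ).continuous.comp (ha1 i).continuous
        exact ((ha1 i).continuous.add h1).continuousOn
      · intro ε hε
        obtain ⟨n₀, hn₀⟩ := ha3 i (‖y₀‖ + 2) (ε / 4) (by positivity) (by positivity)
        have h1 := hn₀ n₀ le_rfl
        have h2 : ∀ y, ‖a i y + (a i y).flip‖ ^ 2 ≤ 4 * ‖(b n₀).val i y - a i y‖ ^ 2 := by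
          intro y
          have e : a i y + (a i y).flip =
              -((b n₀).val i y - a i y) + (-((b n₀).val i y - a i y)).flip := by
            refine ContinuousLinearMap.ext fun u => ContinuousLinearMap.ext fun v => ?_
            have e1 := (b n₀).alt i y u v
            change a i y u v + a i y v u = -((b n₀).val i y u v - a i y u v)
              + -((b n₀).val i y v u - a i y v u)
            rw [e1]; ring
          rw [e]
          refine (sq_add_le _ _).trans ?_
          rw [ContinuousLinearMap.opNorm_flip, norm_neg]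
          linarith
        have hcont : Continuous (fun y => ‖(b n₀).val i y - a i y‖ ^ 2) :=
          ((((b n₀).smooth i).continuous.sub (ha1 i).continuous).norm.pow 2)
        have hsub : Metric.closedBall y₀ 1 ⊆ Metric.ball (0 : E K) (‖y₀‖ + 2) := by
          intro z hz
          rw [Metric.mem_closedBall, dist_eq_norm] at hz
          rw [mem_ball_zero_iff]
          have : ‖z‖ ≤ ‖z - y₀‖ + ‖y₀‖ := by
            simpa using norm_add_le (z - y₀) y₀
          linarith
        have hflip : Continuous (fun y => (a i y).flip) :=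
          (ContinuousLinearMap.flipₗᵢ ℝ (E K) (E K) ℝ).continuous.comp (ha1 i).continuous
        calc ∫ y in Metric.closedBall y₀ 1, ‖a i y + (a i y).flip‖ ^ 2
            ≤ ∫ y in Metric.closedBall y₀ 1, 4 * ‖(b n₀).val i y - a i y‖ ^ 2 := by
              refine setIntegral_mono_on ?_ ?_ measurableSet_closedBall fun y _ => h2 y
              · exact ((((ha1 i).continuous.add hflip).norm.pow 2).continuousOn).integrableOn_compact
                  (isCompact_closedBall _ _)
              · exact ((continuous_const.mul hcont).continuousOn).integrableOn_compact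
                  (isCompact_closedBall _ _)
          _ = 4 * ∫ y in Metric.closedBall y₀ 1, ‖(b n₀).val i y - a i y‖ ^ 2 :=
              integral_const_mul _ _
          _ ≤ 4 * ∫ y in Metric.ball (0 : E K) (‖y₀‖ + 2), ‖(b n₀).val i y - a i y‖ ^ 2 := by
              refine mul_le_mul_of_nonneg_left ?_ (by norm_num)
              refine setIntegral_mono_set ?_ (Filter.Eventually.of_forall fun y => sq_nonneg _)
                (LE.le.eventuallyLE hsub)
              exact (hcont.continuousOn.integrableOn_compact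
                (isCompact_closedBall (0 : E K) (‖y₀‖ + 2))).mono_set
                Metric.ball_subset_closedBall
          _ ≤ ε := by linarith
    have h1 := congrArg (fun β : Bil K => β u v) key
    have h2 : a i y₀ u v + a i y₀ v u = 0 := h1
    linarith
  -- compatibility
  have hcompat : Compat2 a := by
    intro i j y₀ hy₀ u v
    obtain ⟨r, hr0, hr⟩ := Metric.nhds_basis_closedBall.mem_iff.1 ((isOpen_ov i j).mem_nhds hy₀)
    set B := Metric.closedBall y₀ r with hB
    have hBc : IsCompact B := isCompact_closedBall _ _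
    have hc0 : ContinuousOn (tr i j : E K → E K) B := (contDiffOn_tr i j).continuousOn.mono hr
    have hc1 : ContinuousOn (fun y => fderiv ℝ (tr i j : E K → E K) y) B :=
      ((contDiffOn_tr i j).continuousOn_fderiv_of_isOpen (isOpen_ov i j) (by simp)).mono hr
    obtain ⟨M, hM⟩ := hBc.exists_bound_of_continuousOn hc1
    obtain ⟨R, c, hR, hc', hcv⟩ := cov_le i j hr
    have hbc : ∀ (β : E K → Bil K), Continuous β → ContinuousOn (fun y =>
        (β (tr i j y)).bilinearComp (fderiv ℝ (tr i j) y) (fderiv ℝ (tr i j) y)) B := by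
      intro β hβ
      have h1 : ContinuousOn (fun y => (β (tr i j y)).comp (fderiv ℝ (tr i j) y)) B :=
        (hβ.comp_continuousOn hc0).clm_comp hc1
      have h2 : ContinuousOn (fun y =>
          ((β (tr i j y)).comp (fderiv ℝ (tr i j) y)).flip) B :=
        (ContinuousLinearMap.flipₗᵢ ℝ (E K) (E K) ℝ).continuous.comp_continuousOn h1
      have h3 := h2.clm_comp hc1
      exact (ContinuousLinearMap.flipₗᵢ ℝ (E K) (E K) ℝ).continuous.comp_continuousOn h3
    have key : a i y₀ - (a j (tr i j y₀)).bilinearComp (fderiv ℝ (tr i j) y₀)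
        (fderiv ℝ (tr i j) y₀) = 0 := by
      refine eq_zero_of_small (h := fun y => a i y - (a j (tr i j y)).bilinearComp
        (fderiv ℝ (tr i j) y) (fderiv ℝ (tr i j) y)) hr0 ?_ ?_
      · exact (ha1 i).continuous.continuousOn.sub (hbc _ (ha1 j).continuous)
      · intro ε hε
        obtain ⟨n₁, hn₁⟩ := ha3 i (‖y₀‖ + r + 1) (ε / 4) (by positivity) (by positivity)
        obtain ⟨n₂, hn₂⟩ := ha3 j R (ε / (4 * ((M ^ 2) ^ 2 + 1) * c)) hR (by positivity)
        set n := max n₁ n₂ with hn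
        have h1 := hn₁ n (le_max_left _ _)
        have h2 := hn₂ n (le_max_right _ _)
        have hle : ∀ y ∈ B, ‖a i y - (a j (tr i j y)).bilinearComp (fderiv ℝ (tr i j) y)
            (fderiv ℝ (tr i j) y)‖ ^ 2 ≤ 2 * ‖(b n).val i y - a i y‖ ^ 2
              + 2 * ((M ^ 2) ^ 2 + 1) * ‖(b n).val j (tr i j y) - a j (tr i j y)‖ ^ 2 := by
          intro y hy
          set L := fderiv ℝ (tr i j : E K → E K) y with hL
          have e : a i y - (a j (tr i j y)).bilinearComp L L =
              -((b n).val i y - a i y)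
                + ((b n).val j (tr i j y) - a j (tr i j y)).bilinearComp L L := by
            refine ContinuousLinearMap.ext fun u => ContinuousLinearMap.ext fun v => ?_
            have e1 := (b n).compat i j y (hr hy) u v
            change a i y u v - a j (tr i j y) (L u) (L v) = -((b n).val i y u v - a i y u v)
              + ((b n).val j (tr i j y) (L u) (L v) - a j (tr i j y) (L u) (L v))
            rw [e1]; ring
          rw [e]
          refine (sq_add_le _ _).trans ?_
          rw [norm_neg]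
          have h3 := norm_bilinearComp_le ((b n).val j (tr i j y) - a j (tr i j y)) L
          have h4 : ‖L‖ ≤ M := hM y hy
          have h5 : ‖L‖ ^ 2 ≤ M ^ 2 := pow_le_pow_left₀ (norm_nonneg _) h4 2
          have h6 : ‖((b n).val j (tr i j y) - a j (tr i j y)).bilinearComp L L‖ ≤
              ‖(b n).val j (tr i j y) - a j (tr i j y)‖ * M ^ 2 :=
            h3.trans (mul_le_mul_of_nonneg_left h5 (norm_nonneg _))
          have h7 : ‖((b n).val j (tr i j y) - a j (tr i j y)).bilinearComp L L‖ ^ 2 ≤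
              (‖(b n).val j (tr i j y) - a j (tr i j y)‖ * M ^ 2) ^ 2 :=
            pow_le_pow_left₀ (norm_nonneg _) h6 2
          have h8 : (‖(b n).val j (tr i j y) - a j (tr i j y)‖ * M ^ 2) ^ 2 =
              (M ^ 2) ^ 2 * ‖(b n).val j (tr i j y) - a j (tr i j y)‖ ^ 2 := by ring
          rw [h8] at h7
          have h9 := sq_nonneg ‖(b n).val j (tr i j y) - a j (tr i j y)‖
          nlinarith
        have hcti : Continuous (fun y => ‖(b n).val i y - a i y‖ ^ 2) :=
          ((((b n).smooth i).continuous.sub (ha1 i).continuous).norm.pow 2)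
        have hctj : Continuous (fun y => ‖(b n).val j y - a j y‖ ^ 2) :=
          ((((b n).smooth j).continuous.sub (ha1 j).continuous).norm.pow 2)
        have hctj' : ContinuousOn (fun y => ‖(b n).val j (tr i j y) - a j (tr i j y)‖ ^ 2) B :=
          hctj.comp_continuousOn hc0
        have hsub : B ⊆ Metric.ball (0 : E K) (‖y₀‖ + r + 1) := by
          intro z hz
          rw [hB, Metric.mem_closedBall, dist_eq_norm] at hz
          rw [mem_ball_zero_iff]
          have : ‖z‖ ≤ ‖z - y₀‖ + ‖y₀‖ := by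
            simpa using norm_add_le (z - y₀) y₀
          linarith
        have hI1 : IntegrableOn (fun y => 2 * ‖(b n).val i y - a i y‖ ^ 2) B :=
          ((continuous_const.mul hcti).continuousOn).integrableOn_compact hBc
        have hI2 : IntegrableOn (fun y => 2 * ((M ^ 2) ^ 2 + 1) *
            ‖(b n).val j (tr i j y) - a j (tr i j y)‖ ^ 2) B :=
          (continuousOn_const.mul hctj').integrableOn_compact hBc
        have h10 : ∫ y in B, ‖(b n).val i y - a i y‖ ^ 2 ≤
            ∫ y in Metric.ball (0 : E K) (‖y₀‖ + r + 1), ‖(b n).val i y - a i y‖ ^ 2 := by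
          refine setIntegral_mono_set ?_ (Filter.Eventually.of_forall fun y => sq_nonneg _)
            (LE.le.eventuallyLE hsub)
          exact (hcti.continuousOn.integrableOn_compact
            (isCompact_closedBall (0 : E K) _)).mono_set Metric.ball_subset_closedBall
        have h11 := hcv (fun z => ‖(b n).val j z - a j z‖ ^ 2) hctj (fun z => sq_nonneg _)
        have h12 : ∫ y in B, ‖(b n).val j (tr i j y) - a j (tr i j y)‖ ^ 2 ≤
            c * (ε / (4 * ((M ^ 2) ^ 2 + 1) * c)) :=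
          h11.trans (mul_le_mul_of_nonneg_left h2.le hc'.le)
        have hMp : 0 < (M ^ 2) ^ 2 + 1 := by positivity
        have h13 : 2 * ((M ^ 2) ^ 2 + 1) * (c * (ε / (4 * ((M ^ 2) ^ 2 + 1) * c))) = ε / 2 := by
          field_simp
          ring
        calc ∫ y in B, ‖a i y - (a j (tr i j y)).bilinearComp (fderiv ℝ (tr i j) y)
                (fderiv ℝ (tr i j) y)‖ ^ 2
            ≤ ∫ y in B, (2 * ‖(b n).val i y - a i y‖ ^ 2
              + 2 * ((M ^ 2) ^ 2 + 1) * ‖(b n).val j (tr i j y) - a j (tr i j y)‖ ^ 2) := by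
              refine setIntegral_mono_on ?_ (hI1.add hI2) measurableSet_closedBall hle
              exact ((((ha1 i).continuous.continuousOn.sub
                (hbc _ (ha1 j).continuous)).norm.pow 2)).integrableOn_compact hBc
          _ = 2 * (∫ y in B, ‖(b n).val i y - a i y‖ ^ 2) + 2 * ((M ^ 2) ^ 2 + 1) *
                ∫ y in B, ‖(b n).val j (tr i j y) - a j (tr i j y)‖ ^ 2 := by
              rw [integral_add hI1 hI2, integral_const_mul, integral_const_mul]
          _ ≤ 2 * (ε / 4) + 2 * ((M ^ 2) ^ 2 + 1) *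
                (c * (ε / (4 * ((M ^ 2) ^ 2 + 1) * c))) := by
              gcongr
              exact h10.trans h1.le
          _ = ε := by rw [h13]; ring
    have h1 := congrArg (fun β : Bil K => β u v) key
    have h2 : a i y₀ u v - a j (tr i j y₀) (fderiv ℝ (tr i j) y₀ u) (fderiv ℝ (tr i j) y₀ v) = 0 :=
      h1
    linarith
  refine ⟨⟨a, ha1, halt, hcompat⟩, ?_, ?_⟩
  · intro i y u v w
    have h1 := congrArg (fun β : Bil K => β v w) (ha2 i y u)
    have h2 : fderiv ℝ (a i) y u v w + Gam G i y u (a i y) v w = 0 := h1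
    rw [Gam_apply] at h2
    change fderiv ℝ (a i) y u v w - a i y (chr (G.g i) y u v) w - a i y v (chr (G.g i) y u w) = 0
    linarith
  · intro ε hε
    obtain ⟨c, hc0, hcov⟩ := cover_le G
    obtain ⟨c2, hc2, H2⟩ := nb2_le_norm K
    obtain ⟨R, hR⟩ := (isCompact_Bx (K := K)).isBounded.subset_ball (0 : E K)
    have hR' : Bx K ⊆ Metric.ball (0 : E K) (max R 1) :=
      hR.trans (Metric.ball_subset_ball (le_max_left _ _))
    choose c1 hc1 H1 using fun i => sq_le (G.smooth i) (fun y => G.posDef i y)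
      (isCompact_Bx (K := K))
    have H3 : ∀ i, ∃ n₀, ∀ n ≥ n₀, ∫ y in Metric.ball (0 : E K) (max R 1),
        ‖(b n).val i y - a i y‖ ^ 2 < ε / (8 * (c * (c1 i * c2))) := fun i =>
      ha3 i (max R 1) _ (lt_max_of_lt_right one_pos) (by have := hc1 i; positivity)
    choose n₀ hn₀ using H3
    refine ⟨∑ i, n₀ i, fun n hn => ?_⟩
    set A : Form2 K := ⟨a, ha1, halt, hcompat⟩ with hA
    have hb1 := hcov (fun i y => sq2 (G.g i y) (fun u v => (b n - A).val i y u v))
      (compat0_sq2 G (b n - A).compat) (fun i => cont_sq2 G i ((b n - A).smooth i).continuous)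
      (fun i y => Finset.sum_nonneg fun j _ => Finset.sum_nonneg fun k _ => sq_nonneg _)
    have hb2 : ∀ i, ∫ y in Bx K, sq2 (G.g i y) (fun u v => (b n - A).val i y u v) ≤
        c1 i * c2 * (ε / (8 * (c * (c1 i * c2)))) := by
      intro i
      have hcti : Continuous (fun y => ‖(b n).val i y - a i y‖ ^ 2) :=
        ((((b n).smooth i).continuous.sub (ha1 i).continuous).norm.pow 2)
      have hc1i := hc1 i
      calc ∫ y in Bx K, sq2 (G.g i y) (fun u v => (b n - A).val i y u v)
          ≤ ∫ y in Bx K, c1 i * c2 * ‖(b n).val i y - a i y‖ ^ 2 := by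
            refine setIntegral_mono_on ?_ ?_ isCompact_Bx.isClosed.measurableSet fun y hy => ?_
            · exact (cont_sq2 G i ((b n - A).smooth i).continuous).continuousOn.integrableOn_compact
                isCompact_Bx
            · exact (continuous_const.mul hcti).continuousOn.integrableOn_compact isCompact_Bx
            · refine ((H1 i y hy).2.1 ((b n - A).val i y)).1.trans ?_
              rw [mul_assoc]
              refine mul_le_mul_of_nonneg_left ?_ (hc1 i).le
              have := H2 ((b n - A).val i y)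
              rw [Form2.sub_val] at this ⊢
              exact this
        _ = c1 i * c2 * ∫ y in Bx K, ‖(b n).val i y - a i y‖ ^ 2 := integral_const_mul _ _
        _ ≤ c1 i * c2 * ∫ y in Metric.ball (0 : E K) (max R 1),
              ‖(b n).val i y - a i y‖ ^ 2 := by
            refine mul_le_mul_of_nonneg_left ?_ (by positivity)
            refine setIntegral_mono_set ?_ (Filter.Eventually.of_forall fun y => sq_nonneg _)
              (LE.le.eventuallyLE hR')
            exact (hcti.continuousOn.integrableOn_compact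
              (isCompact_closedBall (0 : E K) (max R 1))).mono_set
              Metric.ball_subset_closedBall
        _ ≤ _ := by
            refine mul_le_mul_of_nonneg_left ?_ (by positivity)
            refine (hn₀ i n (le_trans ?_ hn)).le
            exact Finset.single_le_sum (f := n₀) (fun j _ => Nat.zero_le _) (Finset.mem_univ i)
    have hb3 : ∀ i, c1 i * c2 * (ε / (8 * (c * (c1 i * c2)))) = ε / (8 * c) := by
      intro i
      have := hc1 i
      field_simp
    have hb4 : ∑ i : Ix, ∫ y in Bx K, sq2 (G.g i y) (fun u v => (b n - A).val i y u v) ≤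
        ∑ i : Ix, ε / (8 * c) :=
      Finset.sum_le_sum fun i _ => (hb2 i).trans (hb3 i).le
    have hb5 : ∑ i : Ix, ε / (8 * c) = ε / (2 * c) := by
      rw [Finset.sum_const]
      simp
      ring
    have hb6 := mul_le_mul_of_nonneg_left (hb4.trans hb5.le) hc0.le
    have hb7 : c * (ε / (2 * c)) = ε / 2 := by field_simp
    change IM G _ < ε
    refine lt_of_le_of_lt (hb1.trans hb6) ?_
    rw [hb7]
    linarith

end Pool.Agent.H86.Nco
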