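import Pool.Agent.H86.Nco.HBoch
import Pool.Agent.H86.Nco.HMoll
import Pool.Agent.H86.Nco.HPar

/-!
# Module H23: existence of a parallel representative

`exists_min` for `f` gives `α n`; `a n = f + dF (α n)` is an `HSeq` (`closed_dF`).  For each `k` choose
(`exists_mollified` with `ε = 1/(k+1)`) `n_k ≥ k` and `b_k`.  `b_k` is an `L²` Cauchy sequence
(`nrmSq_add_le`); by `h1` `IM (sq3 (cd b_k)) → 0`.  `parallel_limit_forms` gives `a`.
`a - f - dF (α n_k) = (a - b_k) + (b_k - a_{n_k})`, so `Cohom G a f` (the integrand in `Cohom` is that of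
`nrmSq G (a - f - dF α)`).
-/

open scoped Manifold ContDiff Bundle Topology

noncomputable section

namespace Pool.Agent.H86.Nco

open Pool.Agent.H86.Anco MeasureTheory

set_option maxSynthPendingDepth 3

variable {K : ℕ}

theorem cohom_iff (G : Met K) (a f : Form2 K) :
    Cohom G a f ↔ ∀ ε : ℝ, 0 < ε → ∃ α : Form1 K, nrmSq G (a - f - dF α) < ε := by
  have h : ∀ α : Form1 K, nrmSq G (a - f - dF α) =
      IM G (fun i y => sq2 (G.g i y) (fun u v => a.val i y u v - f.val i y u v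
        - d1 α.val i y u v)) := by
    intro α
    unfold nrmSq
    congr 1
    funext i y
    congr 1
    funext u v
    rw [Form2.sub_val, Form2.sub_val, dF_val]
    rfl
  unfold Cohom
  simp only [h]

theorem closed_add {a b : Form2 K} (ha : Closed a) (hb : Closed b) : Closed (a + b) := by
  intro i y u v w
  have h1 : fderiv ℝ ((a + b).val i) y = fderiv ℝ (a.val i) y + fderiv ℝ (b.val i) y :=
    fderiv_add ((a.smooth i).differentiable (by simp) y) ((b.smooth i).differentiable (by simp) y)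
  have h2 := ha i y u v w
  have h3 := hb i y u v w
  unfold d2 at h2 h3 ⊢
  rw [h1]
  have e : ∀ x z t : E K, (fderiv ℝ (a.val i) y + fderiv ℝ (b.val i) y) x z t =
      fderiv ℝ (a.val i) y x z t + fderiv ℝ (b.val i) y x z t := fun _ _ _ => rfl
  rw [e, e, e]
  linarith

theorem nrmSq_sub_comm (G : Met K) (a b : Form2 K) : nrmSq G (a - b) = nrmSq G (b - a) := by
  have h : a - b = (-1 : ℝ) • (b - a) := by
    rw [neg_one_smul]
    abel
  rw [h, nrmSq_smul]
  ring

theorem h23 (K : ℕ) : H23 K := by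
  intro G f hf
  obtain ⟨α, hα1, hα2⟩ := exists_min G f
  set a : ℕ → Form2 K := fun n => f + dF (α n) with ha
  have hpos : ∀ n : ℕ, (0 : ℝ) < (n : ℝ) + 1 := fun n => by positivity
  -- smallness of 1/(n+1)
  have hsmall : ∀ ε : ℝ, 0 < ε → ∃ n₀ : ℕ, ∀ n ≥ n₀, 1 / ((n : ℝ) + 1) < ε := by
    intro ε hε
    obtain ⟨n₀, hn₀⟩ := exists_nat_one_div_lt hε
    refine ⟨n₀, fun n hn => lt_of_le_of_lt ?_ hn₀⟩
    apply one_div_le_one_div_of_le (hpos n₀)
    have : (n₀ : ℝ) ≤ n := by exact_mod_cast hn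
    linarith
  have hsq : ∀ n : ℕ, 1 / ((n : ℝ) + 1) ^ 2 ≤ 1 / ((n : ℝ) + 1) := by
    intro n
    apply one_div_le_one_div_of_le (hpos n)
    have h1 : (1 : ℝ) ≤ (n : ℝ) + 1 := by
      have : (0 : ℝ) ≤ n := Nat.cast_nonneg n
      linarith
    nlinarith
  have hS : HSeq G a := by
    refine ⟨fun n => closed_add hf (closed_dF _), ?_, ?_⟩
    · intro ε hε
      obtain ⟨n₀, hn₀⟩ := hsmall (ε / 4) (by positivity)
      refine ⟨n₀, fun m hm n hn => ?_⟩
      have h1 : a m - a n = dF (α m) - dF (α n) := by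
        simp only [ha]
        abel
      rw [h1]
      have h2 := hα1 m n
      have h3 := hn₀ m hm
      have h4 := hn₀ n hn
      have h5 := hsq m
      have h6 := hsq n
      have e1 : 2 / ((m : ℝ) + 1) ^ 2 = 2 * (1 / ((m : ℝ) + 1) ^ 2) := by ring
      have e2 : 2 / ((n : ℝ) + 1) ^ 2 = 2 * (1 / ((n : ℝ) + 1) ^ 2) := by ring
      rw [e1, e2] at h2
      linarith
    · intro ε hε
      obtain ⟨n₀, hn₀⟩ := hsmall ε hε
      refine ⟨n₀, fun n hn β => ?_⟩
      have h2 := hα2 n β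
      have h3 := hn₀ n hn
      have h5 := hsq n
      have h6 : nrmSq G (dF β) / ((n : ℝ) + 1) ^ 2 = (1 / ((n : ℝ) + 1) ^ 2) * nrmSq G (dF β) := by
        ring
      rw [h6] at h2
      refine h2.trans ?_
      apply mul_le_mul_of_nonneg_right _ (nrmSq_nonneg G _)
      linarith
  have hex : ∀ k : ℕ, ∃ n ≥ k, ∃ b : Form2 K, nrmSq G (b - a n) < 1 / ((k : ℝ) + 1) ∧
      IM G (fun i y => sq3 (G.g i y) (d2 b.val i y)) < 1 / ((k : ℝ) + 1) ∧
      IM G (fun i y => sq1 (G.g i y) (codiff G b.val i y)) < 1 / ((k : ℝ) + 1) := by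
    intro k
    obtain ⟨n₀, hn₀⟩ := exists_mollified G hS (1 / ((k : ℝ) + 1)) (by positivity)
    exact ⟨max n₀ k, le_max_right _ _, hn₀ _ (le_max_left _ _)⟩
  choose n hn b hb1 hb2 hb3 using hex
  have hc : ∀ ε : ℝ, 0 < ε → ∃ n₀, ∀ m ≥ n₀, ∀ k ≥ n₀, nrmSq G (b m - b k) < ε := by
    intro ε hε
    obtain ⟨n₁, hn₁⟩ := hsmall (ε / 12) (by positivity)
    obtain ⟨n₂, hn₂⟩ := hS.cauchy (ε / 12) (by positivity)
    refine ⟨max n₁ n₂, fun m hm k hk => ?_⟩
    have h1 := hn₁ m (le_trans (le_max_left _ _) hm)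
    have h2 := hn₁ k (le_trans (le_max_left _ _) hk)
    have h3 := hn₂ (n m) (le_trans (le_trans (le_max_right _ _) hm) (hn m)) (n k)
      (le_trans (le_trans (le_max_right _ _) hk) (hn k))
    have h4 := hb1 m
    have h5 := hb1 k
    rw [nrmSq_sub_comm] at h5
    have e : b m - b k = (b m - a (n m)) + ((a (n m) - a (n k)) + (a (n k) - b k)) := by abel
    rw [e]
    have h6 := nrmSq_add_le G (b m - a (n m)) ((a (n m) - a (n k)) + (a (n k) - b k))
    have h7 := nrmSq_add_le G (a (n m) - a (n k)) (a (n k) - b k)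
    linarith
  have hd : ∀ ε : ℝ, 0 < ε → ∃ n₀, ∀ k ≥ n₀,
      IM G (fun i y => sq3 (G.g i y) (cd G (b k).val i y)) < ε := by
    intro ε hε
    obtain ⟨n₁, hn₁⟩ := hsmall (ε / 3) (by positivity)
    refine ⟨n₁, fun k hk => ?_⟩
    have h2 := h1 K G (b k)
    have h1 := hn₁ k hk
    have h3 := hb2 k
    have h4 := hb3 k
    linarith
  obtain ⟨c, hcp, hcl⟩ := parallel_limit_forms G b hc hd
  refine ⟨c, hcp, (cohom_iff G c f).2 fun ε hε => ?_⟩
  obtain ⟨n₁, hn₁⟩ := hsmall (ε / 4) (by positivity)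
  obtain ⟨n₂, hn₂⟩ := hcl (ε / 4) (by positivity)
  set k := max n₁ n₂ with hk
  refine ⟨α (n k), ?_⟩
  have h1 := hn₁ k (le_max_left _ _)
  have h2 := hn₂ k (le_max_right _ _)
  have h3 := hb1 k
  have e : c - f - dF (α (n k)) = (c - b k) + (b k - a (n k)) := by
    simp only [ha]
    abel
  rw [e]
  rw [nrmSq_sub_comm] at h2
  have h6 := nrmSq_add_le G (c - b k) (b k - a (n k))
  linarith

end Pool.Agent.H86.Nco
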