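import Pool.Agent.H86.Nco.BaseLem

/-!
# Module PU: a partition of unity on `M`, smooth extension from `M` to the ambient space

`θ t = Real.smoothTransition (t + 1/2)` is `0` for `t ≤ -1/2`, `1` for `t ≥ 1/2`, and
`θ t + θ (-t) = 1` (`smoothTransition x + smoothTransition (1 - x) = 1` from its definition).
`χ i p = θ (pd (sym i p)) * θ (ps (sym i p))`; `pd (sym i p) = ± pd p` (see `pd_sym`, `ps_sym` in
`Anco/SC.lean`), so the sum over the four `i` is `(θ d + θ (-d)) (θ s + θ (-s)) = 1`, for all `p`.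
`χ i (Par i y) ≠ 0` implies `pd (Phi y) ≥ -1/2`, `ps (Phi y) ≥ -1/2`, so `‖y.1‖² ≤ 3`,
`‖y.2.1‖² + ‖y.2.2‖² ≤ 3` (`pd_Phi_eq`, `ps_Phi_eq`).
Every point of `M` is `Par i y` with `‖y.1‖ ≤ 1`, `‖y.2.1‖² + ‖y.2.2‖² ≤ 1`, for `i = idx p`.
`exists_ext`: `Ψ p = ∑ i, χ i p • Φ i p` (each summand is smooth on the whole space because
`tsupport (χ i) ⊆ Dom K i`).
-/

open scoped Manifold ContDiff Bundle Topology

noncomputable section

namespace Pool.Agent.H86.Nco

open Pool.Agent.H86.Anco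

variable {K : ℕ}

namespace PU

/-- a smooth step function -/
def th (t : ℝ) : ℝ := Real.smoothTransition (t + 1 / 2)

lemma th_smooth : ContDiff ℝ ∞ th :=
  Real.smoothTransition.contDiff.comp (contDiff_id.add contDiff_const)

lemma th_nonneg (t : ℝ) : 0 ≤ th t := Real.smoothTransition.nonneg _

lemma th_add (t : ℝ) : th t + th (-t) = 1 := by
  unfold th Real.smoothTransition
  have e1 : (1 : ℝ) - (t + 1 / 2) = -t + 1 / 2 := by ring
  have e2 : (1 : ℝ) - (-t + 1 / 2) = t + 1 / 2 := by ring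
  have h := Real.smoothTransition.pos_denom (t + 1 / 2)
  rw [e1] at h
  rw [e1, e2, add_comm (expNegInvGlue (-t + 1 / 2)) (expNegInvGlue (t + 1 / 2)), ← add_div,
    div_self h.ne']

lemma th_ne {t : ℝ} (h : th t ≠ 0) : -1 / 2 < t := by
  by_contra hc
  exact h (Real.smoothTransition.zero_of_nonpos (by linarith))

/-- the partition of unity -/
def chi (i : Ix) (p : V K) : ℝ := th (pd (sym i p)) * th (ps (sym i p))

lemma chi_smooth (i : Ix) : ContDiff ℝ ∞ (chi i : V K → ℝ) :=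
  (th_smooth.comp (pd.contDiff.comp (sym i).contDiff)).mul
    (th_smooth.comp (ps.contDiff.comp (sym i).contDiff))

lemma chi_ne {i : Ix} {p : V K} (h : chi i p ≠ 0) :
    -1 / 2 < pd (sym i p) ∧ -1 / 2 < ps (sym i p) :=
  ⟨th_ne (left_ne_zero_of_mul h), th_ne (right_ne_zero_of_mul h)⟩

lemma tsupport_chi (i : Ix) : tsupport (chi i : V K → ℝ) ⊆ Dom K i := by
  have h1 : tsupport (chi i : V K → ℝ) ⊆ {p | -1 / 2 ≤ pd (sym i p) ∧ -1 / 2 ≤ ps (sym i p)} := by
    refine closure_minimal (fun p hp => ?_) ?_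
    · have h := chi_ne (i := i) (p := p) hp
      exact ⟨h.1.le, h.2.le⟩
    · exact (isClosed_le continuous_const (pd.continuous.comp (sym i).continuous)).inter
        (isClosed_le continuous_const (ps.continuous.comp (sym i).continuous))
  intro p hp
  have h2 := h1 hp
  exact ⟨by linarith [h2.1], by linarith [h2.2]⟩

lemma sum_chi (p : V K) : ∑ i, chi i p = 1 := by
  rw [Fintype.sum_prod_type]
  simp only [Fintype.sum_bool, chi, pd_sym, ps_sym, if_true, if_false, Bool.false_eq_true]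
  have h1 := th_add (pd p)
  have h2 := th_add (ps p)
  linear_combination h1 * th (ps p) + h1 * th (-ps p) + h2

lemma sq_bound {a : ℝ} {t : ℝ} (ht : 0 ≤ t) (h : 1 + a = 2 / (1 + t)) (ha : -1 / 2 < a) : t < 3 := by
  have h1 : (1 + a) * (1 + t) = 2 := by rw [h]; field_simp
  nlinarith

lemma sq_bound' {a : ℝ} {t : ℝ} (ht : 0 ≤ t) (h : 1 + a = 2 / (1 + t)) (ha : 0 ≤ a) : t ≤ 1 := by
  have h1 : (1 + a) * (1 + t) = 2 := by rw [h]; field_simp
  nlinarith

end PU

open PU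

/-- a partition of unity subordinate to the four charts -/
theorem exists_pu (K : ℕ) : ∃ χ : Ix → V K → ℝ, (∀ i, ContDiff ℝ ∞ (χ i)) ∧
    (∀ i, tsupport (χ i) ⊆ Dom K i) ∧ (∀ i p, 0 ≤ χ i p) ∧ (∀ p, ∑ i, χ i p = 1) ∧
    ∃ C : Set (E K), IsCompact C ∧ ∀ i y, χ i (Par i y) ≠ 0 → y ∈ C := by
  refine ⟨chi, chi_smooth, tsupport_chi, fun i p => mul_nonneg (th_nonneg _) (th_nonneg _),
    sum_chi, Metric.closedBall 0 2, isCompact_closedBall _ _, fun i y h => ?_⟩
  obtain ⟨h1, h2⟩ := chi_ne h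
  have e1 : sym i (Par i y) = Phi y := sym_sym i (Phi y)
  rw [e1] at h1 h2
  have h3 := sq_bound (by positivity) (pd_Phi_eq y) h1
  have h4 : 1 + ps (Phi y) = 2 / (1 + (‖y.2.1‖ ^ 2 + ‖y.2.2‖ ^ 2)) := by
    rw [ps_Phi_eq y]
    ring
  have h5 := sq_bound (by positivity) h4 h2
  rw [mem_closedBall_zero_iff, Prod.norm_def, Prod.norm_def]
  refine max_le ?_ (max_le ?_ ?_)
  · nlinarith [norm_nonneg y.1]
  · nlinarith [norm_nonneg y.2.1, sq_nonneg ‖y.2.2‖]
  · nlinarith [norm_nonneg y.2.2, sq_nonneg ‖y.2.1‖]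

/-- a compact set of coordinates which is enough to cover `M` -/
def Bx (K : ℕ) : Set (E K) := {y | ‖y.1‖ ≤ 1 ∧ ‖y.2.1‖ ^ 2 + ‖y.2.2‖ ^ 2 ≤ 1}

theorem isCompact_Bx : IsCompact (Bx K) := by
  refine (isCompact_closedBall (0 : E K) 1).of_isClosed_subset ?_ ?_
  · have e1 : IsClosed {y : E K | ‖y.1‖ ≤ 1} := isClosed_le (by fun_prop) continuous_const
    have e2 : IsClosed {y : E K | ‖y.2.1‖ ^ 2 + ‖y.2.2‖ ^ 2 ≤ 1} :=
      isClosed_le (by fun_prop) continuous_const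
    exact e1.inter e2
  · rintro y ⟨h1, h2⟩
    rw [mem_closedBall_zero_iff, Prod.norm_def, Prod.norm_def]
    refine max_le h1 (max_le ?_ ?_)
    · nlinarith [norm_nonneg y.2.1, sq_nonneg ‖y.2.2‖]
    · nlinarith [norm_nonneg y.2.2, sq_nonneg ‖y.2.1‖]

theorem exists_Bx {p : V K} (hp : p ∈ carrier K) : Cor (idx p) p ∈ Bx K := by
  have hd := mem_Dom_idx p
  have e1 : Phi (Cor (idx p) p) = sym (idx p) p := Phi_kap (sym_mem _ hp) hd.1 hd.2
  have h1 : 0 ≤ pd (sym (idx p) p) := by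
    rw [pd_sym]
    simp only [idx, decide_eq_true_eq]
    split_ifs with h <;> linarith
  have h2 : 0 ≤ ps (sym (idx p) p) := by
    rw [ps_sym]
    simp only [idx, decide_eq_true_eq]
    split_ifs with h <;> linarith
  set y := Cor (idx p) p with hy
  rw [← e1] at h1 h2
  have h3 := sq_bound' (by positivity) (pd_Phi_eq y) h1
  have h4 : 1 + ps (Phi y) = 2 / (1 + (‖y.2.1‖ ^ 2 + ‖y.2.2‖ ^ 2)) := by
    rw [ps_Phi_eq y]
    ring
  have h5 := sq_bound' (by positivity) h4 h2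
  exact ⟨by nlinarith [norm_nonneg y.1], h5⟩

/-- smooth extension of chartwise given functions -/
theorem exists_ext {X : Type*} [NormedAddCommGroup X] [NormedSpace ℝ X] (Φ : Ix → V K → X)
    (hΦ : ∀ i, ContDiffOn ℝ ∞ (Φ i) (Dom K i)) :
    ∃ Ψ : V K → X, ContDiff ℝ ∞ Ψ ∧ ∀ p : V K, ∀ {Y : Type} [AddCommGroup Y] [Module ℝ Y]
      (ℓ : X →ₗ[ℝ] Y) (y : Y), (∀ i, p ∈ Dom K i → ℓ (Φ i p) = y) → ℓ (Ψ p) = y := by
  refine ⟨fun p => ∑ i, chi i p • Φ i p, ContDiff.sum fun i _ => ?_, ?_⟩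
  · rw [contDiff_iff_contDiffAt]
    intro p
    by_cases hp : p ∈ tsupport (chi i : V K → ℝ)
    · exact (chi_smooth i).contDiffAt.smul
        ((hΦ i).contDiffAt ((isOpen_Dom i).mem_nhds (tsupport_chi i hp)))
    · have h1 : (fun p : V K => chi i p • Φ i p) =ᶠ[𝓝 p] fun _ => 0 := by
        filter_upwards [notMem_tsupport_iff_eventuallyEq.1 hp] with q hq
        rw [hq, Pi.zero_apply, zero_smul]
      exact contDiffAt_const.congr_of_eventuallyEq h1
  · intro p Y _ _ ℓ y h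
    have h1 : ∀ i, ℓ (chi i p • Φ i p) = chi i p • y := by
      intro i
      rw [map_smul]
      by_cases h2 : chi i p = 0
      · rw [h2, zero_smul, zero_smul]
      · rw [h i (tsupport_chi i (subset_tsupport _ h2))]
    simp only [map_sum, h1]
    rw [← Finset.sum_smul, sum_chi, one_smul]

end Pool.Agent.H86.Nco
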