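import Pool.Agent.H86.Nco.Base

/-!
# Part S (splitting): definitions, and the plan of the proof

`G` is a metric on `M`, `Γ` an ambient version of its Levi-Civita connection: for a map `c : P → M` and
a vector field `X` along `c` (`X p ∈ Tan (c p)`) the covariant derivative is
`nab Γ c X p u = D X p u - Γ (c p) (D c p u) (X p)`.

`J` (from the parallel form `a = lam * g(J., .)` of rank two): parallel, `J³ = -J`, `L1 = range J` (two
dimensional, `J² = -1` there), `L2 = ker J`, orthogonal to each other.  Curvature: `R(u,v)x` for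
`x ∈ L1` is `- κ g(Ju, v) J x`, `R(u,v)x = 0` for `u, v ∈ L1`, `x ∈ L2`; `dκ = 0` on `L2`.

Plan.  Base point `q₀` in all four charts.  In chart `i` consider the rays
`γ (y, t) = Par i (y₀ + t (y - y₀))`, a parallel adapted orthonormal frame along them and the
coefficients `ξ_j (y, t)` of `∂_t γ`.  Let `c (y, r, t), F_j (y, r, t)` be the development of
`(ξ₀, ξ₁, r ξ₂, r ξ₃, ...)`: `∂_t c = ∑ ζ_j F_j`, `∇_t F_j = 0`, starting at `q₀` with the same frame for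
all `y, r`.  For `r = 1` this is the ray; `R_i (y) = c (y, 0, 1)`.

KEY.  For a direction `π` in the parameter space put `ν_k = g(∂_π c, F_k)` (`k = 0, 1`),
`ρ = g(∇_π F₀, F₁)`.  Then
`ν₀' = ∂_π ζ₀ - ζ₁ ρ`, `ν₁' = ∂_π ζ₁ + ζ₀ ρ`, `ρ' = - κ(c) (ζ₀ ν₁ - ζ₁ ν₀)` (derivatives in `t`), and all three
vanish at `t = 0`.  For `π = ∂_r` the inhomogeneous terms vanish, so `ν = ρ = 0`, i.e. `∂_r c ∈ L2` and
`κ(c)` does not depend on `r`.  For `π` in the direction of `y` the equations do not depend on `r`, so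
`ν_k, ρ` do not depend on `r`.  At `r = 0` the `L2`-component of `∂_π c` vanishes.
Hence `D R_i (y) w = ∑_k g(D Par_i (y) w, F_k (y, 1, 1)) F_k (y, 0, 1)` and
`∇_w F₀ (y, 1, 1) = ρ F₁ (y, 1, 1)`, `∇_w F₀ (y, 0, 1) = ρ F₁ (y, 0, 1)` with the same `ρ`.

So `T_i (y) v = ∑ g(v, A_k) B_k` (`A_k = F_k (y, 1, 1)`, `B_k = F_k (y, 0, 1)`) satisfies `D R_i = T_i ∘ D Par_i` and
`∇ T_i = 0`.  On the connected overlaps of charts `(R_i, T_i)` and `(R_j, T_j)` agree by uniqueness for the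
differential equation `c' = T X', ∇ (T X) = 0` along segments.  This gives `R : M → M`, `R ∘ R = R` because
`R` maps the development `c (y, 0, t)` to itself (uniqueness again).
-/

open scoped Manifold ContDiff Bundle Topology

noncomputable section

namespace Pool.Agent.H86.Nco

open Pool.Agent.H86.Anco

variable {K : ℕ}

/-- the metric as a form on tangent vectors in the ambient space -/
def gm (G : Met K) (p v w : V K) : ℝ := amb G.g p v w

/-- the curvature tensor for tangent vectors in the ambient space -/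
def Rm (G : Met K) (p a b x : V K) : V K :=
  fderiv ℝ (Par (idx p)) (Cor (idx p) p) (riem (G.g (idx p)) (Cor (idx p) p)
    (fderiv ℝ (Cor (idx p)) p a) (fderiv ℝ (Cor (idx p)) p b) (fderiv ℝ (Cor (idx p)) p x))

/-- an ambient version of the Levi-Civita connection -/
structure Conn (G : Met K) where
  Γ : V K → V K →L[ℝ] V K →L[ℝ] V K
  smooth : ContDiff ℝ ∞ Γ
  eq : ∀ i y u w, Γ (Par i y) (fderiv ℝ (Par i) y u) (fderiv ℝ (Par i) y w) =
    fderiv ℝ (fun z => fderiv ℝ (Par i) z w) y u - fderiv ℝ (Par i) y (chr (G.g i) y u w)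

/-- the covariant derivative of the vector field `X` along the map `c` in the direction `u` -/
def nab (Γ : V K → V K →L[ℝ] V K →L[ℝ] V K) {P : Type*} [NormedAddCommGroup P] [NormedSpace ℝ P]
    (c X : P → V K) (p u : P) : V K :=
  fderiv ℝ X p u - Γ (c p) (fderiv ℝ c p u) (X p)

/-- adapted orthonormal frames at `p` -/
structure Adapted (G : Met K) (J : V K → V K →L[ℝ] V K) (p : V K) (f : Fin (K + 4) → V K) :
    Prop where
  mem : ∀ j, f j ∈ Tan p
  orth : ∀ j k, gm G p (f j) (f k) = if j = k then 1 else 0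
  J0 : J p (f 0) = f 1
  J1 : J p (f 1) = - f 0
  J2 : ∀ j : Fin (K + 2), J p (f j.succ.succ) = 0

/-- the partial complex structure belonging to a parallel two-form of rank two -/
structure JStr (G : Met K) (a : Form2 K) where
  lam : ℝ
  J : V K → V K →L[ℝ] V K
  lam_ne : lam ≠ 0
  smooth : ContDiff ℝ ∞ J
  mem : ∀ p ∈ carrier K, ∀ v ∈ Tan p, J p v ∈ Tan p
  skew : ∀ p ∈ carrier K, ∀ v ∈ Tan p, ∀ w ∈ Tan p, gm G p (J p v) w = - gm G p v (J p w)
  form : ∀ p ∈ carrier K, ∀ v ∈ Tan p, ∀ w ∈ Tan p, amb a.val p v w = lam * gm G p (J p v) w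
  basis : ∀ p ∈ carrier K, ∃ f : Fin (K + 4) → V K, Adapted G J p f
  /-- `J` is parallel: in the chart `i`, with `Jl y v = DCor (J (DPar v))` -/
  par : ∀ i y u v,
    fderiv ℝ (fun z => fderiv ℝ (Cor i) (Par i z) (J (Par i z) (fderiv ℝ (Par i) z v))) y u
      + chr (G.g i) y u (fderiv ℝ (Cor i) (Par i y) (J (Par i y) (fderiv ℝ (Par i) y v)))
      - fderiv ℝ (Cor i) (Par i y) (J (Par i y) (fderiv ℝ (Par i) y (chr (G.g i) y u v))) = 0

/-- the Gauss curvature of `L1` -/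
structure KStr (G : Met K) {a : Form2 K} (S : JStr G a) where
  κ : V K → ℝ
  smooth : ContDiff ℝ ∞ κ
  curv1 : ∀ p ∈ carrier K, ∀ u ∈ Tan p, ∀ v ∈ Tan p, ∀ x ∈ Tan p, S.J p (S.J p x) = - x →
    Rm G p u v x = -(κ p * gm G p (S.J p u) v) • S.J p x
  curv2 : ∀ p ∈ carrier K, ∀ u ∈ Tan p, ∀ v ∈ Tan p, ∀ x ∈ Tan p, S.J p (S.J p u) = - u →
    S.J p (S.J p v) = - v → S.J p x = 0 → Rm G p u v x = 0
  dκ : ∀ p ∈ carrier K, ∀ v ∈ Tan p, S.J p v = 0 → fderiv ℝ κ p v = 0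

/-- `(c, F)` is the development of the coefficients `ζ`, starting at `q₀` with the frame `f` -/
structure Dev (Γ : V K → V K →L[ℝ] V K →L[ℝ] V K) {P : Type*} [NormedAddCommGroup P]
    [NormedSpace ℝ P] (ζ : P × ℝ → Fin (K + 4) → ℝ) (c : P × ℝ → V K)
    (F : P × ℝ → Fin (K + 4) → V K) (q₀ : V K) (f : Fin (K + 4) → V K) : Prop where
  smoothc : ContDiff ℝ ∞ c
  smoothF : ContDiff ℝ ∞ F
  c0 : ∀ p, c (p, 0) = q₀
  F0 : ∀ p, F (p, 0) = f
  dc : ∀ p t, HasDerivAt (fun τ => c (p, τ)) (∑ j, ζ (p, t) j • F (p, t) j) t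
  dF : ∀ p t j, HasDerivAt (fun τ => F (p, τ) j)
    (Γ (c (p, t)) (∑ k, ζ (p, t) k • F (p, t) k) (F (p, t) j)) t

/-- multiply all but the first two coefficients by `r` -/
def scal (r : ℝ) (ξ : Fin (K + 4) → ℝ) : Fin (K + 4) → ℝ := fun j => if j.val < 2 then ξ j else r * ξ j

/-- the family of developments of the rays of the chart `i` -/
structure Fam {G : Met K} {a : Form2 K} (N : Conn G) (S : JStr G a) (i : Ix) (q₀ : V K)
    (f : Fin (K + 4) → V K) (ξ : E K × ℝ → Fin (K + 4) → ℝ) (c : (E K × ℝ) × ℝ → V K)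
    (F : (E K × ℝ) × ℝ → Fin (K + 4) → V K) : Prop where
  smoothξ : ContDiff ℝ ∞ ξ
  dev : Dev N.Γ (fun q => scal q.1.2 (ξ (q.1.1, q.2))) c F q₀ f
  mem : ∀ q, c q ∈ carrier K
  adapted : ∀ q, Adapted G S.J (c q) (F q)
  ray : ∀ y t, c ((y, 1), t) = Par i (Cor i q₀ + t • (y - Cor i q₀))

/-- the local retraction in the chart `i` -/
structure LocR {G : Met K} {a : Form2 K} (N : Conn G) (S : JStr G a) (i : Ix) (q₀ e₀ : V K) where
  R : E K → V K
  A : E K → V K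
  B : E K → V K
  ρ : E K → E K →L[ℝ] ℝ
  smoothR : ContDiff ℝ ∞ R
  smoothA : ContDiff ℝ ∞ A
  smoothB : ContDiff ℝ ∞ B
  memR : ∀ y, R y ∈ carrier K
  memA : ∀ y, A y ∈ Tan (Par i y)
  memB : ∀ y, B y ∈ Tan (R y)
  JJA : ∀ y, S.J (Par i y) (S.J (Par i y) (A y)) = - A y
  JJB : ∀ y, S.J (R y) (S.J (R y) (B y)) = - B y
  unitA : ∀ y, gm G (Par i y) (A y) (A y) = 1
  unitB : ∀ y, gm G (R y) (B y) (B y) = 1
  dR : ∀ y w, fderiv ℝ R y w =
    gm G (Par i y) (fderiv ℝ (Par i) y w) (A y) • B y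
      + gm G (Par i y) (fderiv ℝ (Par i) y w) (S.J (Par i y) (A y)) • S.J (R y) (B y)
  dA : ∀ y w, nab N.Γ (Par i) A y w = ρ y w • S.J (Par i y) (A y)
  dB : ∀ y w, nab N.Γ R B y w = ρ y w • S.J (R y) (B y)
  R0 : R (Cor i q₀) = q₀
  A0 : A (Cor i q₀) = e₀
  B0 : B (Cor i q₀) = e₀
  /-- `R y` is the end point of a development tangent to `L1` -/
  ray : ∀ y, ∃ (c F : ℝ → V K) (ζ₀ ζ₁ : ℝ → ℝ), Continuous ζ₀ ∧ Continuous ζ₁ ∧ c 0 = q₀ ∧
    F 0 = e₀ ∧ (∀ t, c t ∈ carrier K ∧ F t ∈ Tan (c t) ∧ S.J (c t) (S.J (c t) (F t)) = - F t ∧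
      gm G (c t) (F t) (F t) = 1) ∧
    (∀ t, HasDerivAt c (ζ₀ t • F t + ζ₁ t • S.J (c t) (F t)) t) ∧
    (∀ t, HasDerivAt F (N.Γ (c t) (ζ₀ t • F t + ζ₁ t • S.J (c t) (F t)) (F t)) t) ∧ c 1 = R y

/-- the isometry `L1 (Par i y) → L1 (R y)`, zero on `L2` -/
def LocR.T {G : Met K} {a : Form2 K} {N : Conn G} {S : JStr G a} {i : Ix} {q₀ e₀ : V K}
    (L : LocR N S i q₀ e₀) (y : E K) (v : V K) : V K :=
  gm G (Par i y) v (L.A y) • L.B y
    + gm G (Par i y) v (S.J (Par i y) (L.A y)) • S.J (L.R y) (L.B y)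

end Pool.Agent.H86.Nco
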