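import Pool.Agent.H86.Anco.Natural
import Pool.Agent.H86.Nco.PU
import Pool.Agent.H86.Nco.SDefs

/-!
# Module SCONN: existence of the ambient connection

Apply `exists_ext` to `Φ i p = B_i (Cor i p)` composed with `fderiv ℝ (Cor i) p` in both slots, where
`B_i y u w = D²Par_i (y)(u, w) - DPar_i (y) (chr (G.g i) y u w)` as an element of
`V K →L V K →L V K` (bilinear in `u, w`: `chrB` and `contDiffAt_chrB` in `Anco/Natural.lean` give `chr` as a
smooth field of bilinear maps; `G.g i` satisfies `IsMetricAt` everywhere).  Independence of the chart at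
points `p = Par i y ∈ Dom K j` for tangent vectors: `Par i = Par j ∘ tr i j` near `y`, so
`D²Par_i (u, w) = D²Par_j (Dtr u, Dtr w) + DPar_j (D²tr (u, w))`, and the transformation law `step1` of
`Anco/Natural.lean` for the metric `G.g i = pb (G.g j) (tr i j)` near `y` says
`chr_j (Dtr u) (Dtr w) = Dtr (chr_i u w) - D²tr (u, w)`.  Use `ℓ =` evaluation at the two tangent
vectors `DPar_i u`, `DPar_i w`.
-/

open scoped Manifold ContDiff Bundle Topology

noncomputable section

namespace Pool.Agent.H86.Nco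

open Pool.Agent.H86.Anco

variable {K : ℕ}

theorem isMetricAt (G : Met K) (i : Ix) (y : E K) : IsMetricAt (G.g i) y :=
  ⟨Filter.Eventually.of_forall fun _ => (G.smooth i).contDiffAt,
    Filter.Eventually.of_forall fun z => G.symm i z, G.pos i y⟩

namespace SConn

lemma contDiffAt_tr (i j : Ix) {y : E K} (hy : y ∈ ov K i j) :
    ContDiffAt ℝ ∞ (tr i j : E K → E K) y :=
  (contDiffOn_tr i j).contDiffAt ((isOpen_ov i j).mem_nhds hy)

lemma bij_tr (i j : Ix) {y : E K} (hy : y ∈ ov K i j) :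
    Function.Bijective (fderiv ℝ (tr i j : E K → E K) y) := by
  constructor
  · exact Function.LeftInverse.injective (fun u => fderiv_tr_tr i j hy u)
  · have h := fderiv_tr_tr j i (tr_mem i j hy)
    rw [tr_tr i j hy] at h
    exact Function.RightInverse.surjective (fun u => h u)

lemma pb_eq (G : Met K) (i j : Ix) {y : E K} (hy : y ∈ ov K i j) :
    G.g i =ᶠ[𝓝 y] Natural.pb (G.g j) (tr i j) := by
  filter_upwards [(isOpen_ov i j).mem_nhds hy] with z hz
  exact ContinuousLinearMap.ext fun u => ContinuousLinearMap.ext fun v =>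
    (G.compat i j z hz u v).trans (Natural.pb_apply _ _ _ _ _).symm

/-- second derivatives -/
lemma fderiv2_apply {A B : Type*} [NormedAddCommGroup A] [NormedSpace ℝ A]
    [NormedAddCommGroup B] [NormedSpace ℝ B] {φ : A → B} {y : A} (h : ContDiffAt ℝ ∞ φ y)
    (u w : A) : fderiv ℝ (fun z => fderiv ℝ φ z w) y u = fderiv ℝ (fderiv ℝ φ) y u w := by
  have h1 : DifferentiableAt ℝ (fderiv ℝ φ) y :=
    (h.fderiv_right (m := ∞) (by simp)).differentiableAt (by simp)
  have h2 := h1.hasFDerivAt.clm_apply (hasFDerivAt_const w y)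
  rw [h2.fderiv]
  simp

/-- the chain rule for second derivatives -/
lemma fderiv2_comp {A B C : Type*} [NormedAddCommGroup A] [NormedSpace ℝ A]
    [NormedAddCommGroup B] [NormedSpace ℝ B] [NormedAddCommGroup C] [NormedSpace ℝ C]
    {φ : A → B} {ψ : B → C} {χ : A → C} {y : A} (hφ : ContDiffAt ℝ ∞ φ y)
    (hψ : ContDiff ℝ ∞ ψ) {w : A}
    (h : ∀ᶠ z in 𝓝 y, fderiv ℝ χ z w = fderiv ℝ ψ (φ z) (fderiv ℝ φ z w)) (u : A) :
    fderiv ℝ (fun z => fderiv ℝ χ z w) y u =
      fderiv ℝ (fderiv ℝ ψ) (φ y) (fderiv ℝ φ y u) (fderiv ℝ φ y w)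
        + fderiv ℝ ψ (φ y) (fderiv ℝ (fun z => fderiv ℝ φ z w) y u) := by
  have h1 : (fun z => fderiv ℝ χ z w) =ᶠ[𝓝 y] fun z => fderiv ℝ ψ (φ z) (fderiv ℝ φ z w) := h
  rw [h1.fderiv_eq, fderiv2_apply hφ]
  have h2 : HasFDerivAt φ (fderiv ℝ φ y) y := (hφ.differentiableAt (by simp)).hasFDerivAt
  have h3 : HasFDerivAt (fderiv ℝ ψ) (fderiv ℝ (fderiv ℝ ψ) (φ y)) (φ y) :=
    ((hψ.fderiv_right (m := ∞) (by simp)).differentiable (by simp) _).hasFDerivAt
  have h4 : HasFDerivAt (fderiv ℝ φ) (fderiv ℝ (fderiv ℝ φ) y) y :=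
    ((hφ.fderiv_right (m := ∞) (by simp)).differentiableAt (by simp)).hasFDerivAt
  have h5 := (h3.comp y h2).clm_apply (h4.clm_apply (hasFDerivAt_const w y))
  have h6 : HasFDerivAt (fun z => fderiv ℝ ψ (φ z) (fderiv ℝ φ z w)) _ y := h5
  rw [h6.fderiv]
  simp [add_comm]

end SConn

open SConn

/-- transformation law of the Christoffel symbols -/
theorem chr_tr (G : Met K) (i j : Ix) {y : E K} (hy : y ∈ ov K i j) (u w : E K) :
    chr (G.g j) (tr i j y) (fderiv ℝ (tr i j) y u) (fderiv ℝ (tr i j) y w) =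
      fderiv ℝ (tr i j) y (chr (G.g i) y u w)
        - fderiv ℝ (fun z => fderiv ℝ (tr i j) z w) y u := by
  have h1 := Natural.step1 ((contDiffAt_tr i j hy).of_le (by norm_cast))
    (bij_tr i j hy) (isMetricAt G j _) u w
  rw [chr_congr (pb_eq G i j hy), h1, fderiv2_apply (contDiffAt_tr i j hy)]
  abel

/-- transformation law of the curvature tensor -/
theorem riem_tr (G : Met K) (i j : Ix) {y : E K} (hy : y ∈ ov K i j) (u v w : E K) :
    riem (G.g j) (tr i j y) (fderiv ℝ (tr i j) y u) (fderiv ℝ (tr i j) y v)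
      (fderiv ℝ (tr i j) y w) = fderiv ℝ (tr i j) y (riem (G.g i) y u v w) := by
  have h1 := Natural.step3 (contDiffAt_tr i j hy) (bij_tr i j hy) (isMetricAt G j _) u v w
  rw [riem_congr (pb_eq G i j hy), h1]

namespace SConn

/-- the connection form in the chart `i`, for vectors of the model space -/
def Bi (G : Met K) (i : Ix) (y : E K) : E K →L[ℝ] E K →L[ℝ] V K :=
  fderiv ℝ (fderiv ℝ (Par i)) y
    - (ContinuousLinearMap.compL ℝ (E K) (E K) (V K) (fderiv ℝ (Par i) y)).comp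
        (Natural.chrB (G.g i) y)

lemma Bi_apply (G : Met K) (i : Ix) (y u w : E K) :
    Bi G i y u w = fderiv ℝ (fderiv ℝ (Par i)) y u w
      - fderiv ℝ (Par i) y (chr (G.g i) y u w) := rfl

/-- the connection form in the chart `i`, for vectors of the ambient space -/
def Phi2 (G : Met K) (i : Ix) (p : V K) : V K →L[ℝ] V K →L[ℝ] V K :=
  (Bi G i (Cor i p)).bilinearComp (fderiv ℝ (Cor i) p) (fderiv ℝ (Cor i) p)

lemma Phi2_apply (G : Met K) (i : Ix) (p a b : V K) :
    Phi2 G i p a b = Bi G i (Cor i p) (fderiv ℝ (Cor i) p a) (fderiv ℝ (Cor i) p b) := rfl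

lemma contDiff_Bi_apply (G : Met K) (i : Ix) (u w : E K) :
    ContDiff ℝ ∞ (fun y => Bi G i y u w) := by
  simp only [Bi_apply]
  have h1 : ContDiff ℝ ∞ (fderiv ℝ (Par i : E K → V K)) :=
    (contDiff_Par i).fderiv_right (by simp)
  have h2 : ContDiff ℝ ∞ (fderiv ℝ (fderiv ℝ (Par i : E K → V K))) :=
    h1.fderiv_right (by simp)
  have h3 : ContDiff ℝ ∞ (fun y => chr (G.g i) y u w) := by
    rw [contDiff_iff_contDiffAt]
    intro y
    exact (isMetricAt G i y).contDiffAt_chr u w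
  exact ((h2.clm_apply contDiff_const).clm_apply contDiff_const).sub (h1.clm_apply h3)

lemma contDiff_Bi (G : Met K) (i : Ix) : ContDiff ℝ ∞ (Bi G i) := by
  rw [contDiff_iff_contDiffAt]
  intro y
  apply Natural.contDiffAt_clm_of_apply
  intro u
  apply Natural.contDiffAt_clm_of_apply
  intro w
  exact (contDiff_Bi_apply G i u w).contDiffAt

lemma contDiffOn_Phi2 (G : Met K) (i : Ix) : ContDiffOn ℝ ∞ (Phi2 G i) (Dom K i) := by
  intro p hp
  apply ContDiffAt.contDiffWithinAt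
  have hC : ContDiffAt ℝ ∞ (Cor i : V K → E K) p :=
    (contDiffOn_Cor i).contDiffAt ((isOpen_Dom i).mem_nhds hp)
  have hC' : ContDiffAt ℝ ∞ (fderiv ℝ (Cor i : V K → E K)) p := hC.fderiv_right (by simp)
  have hB : ContDiffAt ℝ ∞ (fun q => Bi G i (Cor i q)) p :=
    (contDiff_Bi G i).contDiffAt.comp p hC
  apply Natural.contDiffAt_clm_of_apply
  intro a
  apply Natural.contDiffAt_clm_of_apply
  intro b
  simp only [Phi2_apply]
  exact (hB.clm_apply (hC'.clm_apply contDiffAt_const)).clm_apply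
    (hC'.clm_apply contDiffAt_const)

/-- evaluation at two vectors -/
def ev2 (a b : V K) : (V K →L[ℝ] V K →L[ℝ] V K) →ₗ[ℝ] V K where
  toFun B := B a b
  map_add' _ _ := rfl
  map_smul' _ _ := rfl

lemma fderiv_Cor_Par' (i k : Ix) {y : E K} (hy : y ∈ ov K i k) (u : E K) :
    fderiv ℝ (Cor k) (Par i y) (fderiv ℝ (Par i) y u) = fderiv ℝ (tr i k) y u := by
  have h1 : HasFDerivAt (Cor k : V K → E K) (fderiv ℝ (Cor k) (Par i y)) (Par i y) :=
    (((contDiffOn_Cor k).contDiffAt ((isOpen_Dom k).mem_nhds hy)).differentiableAt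
      (by simp)).hasFDerivAt
  have h2 : HasFDerivAt (Par i : E K → V K) (fderiv ℝ (Par i) y) y :=
    ((contDiff_Par i).differentiable (by simp) y).hasFDerivAt
  have h3 : HasFDerivAt (tr i k) _ y := h1.comp y h2
  rw [h3.fderiv]
  rfl

lemma Phi2_eq (G : Met K) (i k : Ix) {y : E K} (hy : y ∈ ov K i k) (u w : E K) :
    Phi2 G k (Par i y) (fderiv ℝ (Par i) y u) (fderiv ℝ (Par i) y w) =
      fderiv ℝ (fun z => fderiv ℝ (Par i) z w) y u - fderiv ℝ (Par i) y (chr (G.g i) y u w) := by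
  rw [Phi2_apply, fderiv_Cor_Par' i k hy, fderiv_Cor_Par' i k hy]
  change Bi G k (tr i k y) _ _ = _
  have h1 : ∀ᶠ z in 𝓝 y, fderiv ℝ (Par i) z w =
      fderiv ℝ (Par k) (tr i k z) (fderiv ℝ (tr i k) z w) := by
    filter_upwards [(isOpen_ov i k).mem_nhds hy] with z hz
    exact (fderiv_Par_tr i k hz w).symm
  rw [Bi_apply, chr_tr G i k hy, map_sub, fderiv_Par_tr i k hy,
    fderiv2_comp (contDiffAt_tr i k hy) (contDiff_Par k) h1]
  abel

end SConn

theorem exists_conn (G : Met K) : Nonempty (Conn G) := by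
  obtain ⟨Ψ, hΨ, h⟩ := exists_ext (Phi2 G) (contDiffOn_Phi2 G)
  refine ⟨{ Γ := Ψ, smooth := hΨ, eq := ?_ }⟩
  intro i y u w
  refine h (Par i y) (ev2 (fderiv ℝ (Par i) y u) (fderiv ℝ (Par i) y w)) _ ?_
  intro k hk
  exact Phi2_eq G i k hk u w

end Pool.Agent.H86.Nco
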