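import Pool.Agent.H86.Nco.HodgeStmt
import Pool.Agent.H86.Nco.SConn

/-!
# Part H (Hodge theory): vector spaces of forms, multiplication by functions, extension by zero

`push2 i φ`: a compactly supported smooth two-form of the chart `i`, extended by zero to `M`.
-/

open scoped Manifold ContDiff Bundle Topology

noncomputable section

namespace Pool.Agent.H86.Nco

open Pool.Agent.H86.Anco

set_option maxSynthPendingDepth 3

variable {K : ℕ}

theorem Form2.ext' {a b : Form2 K} (h : a.val = b.val) : a = b := by
  cases a; cases b; simp only at h; subst h; rfl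

theorem Form1.ext' {a b : Form1 K} (h : a.val = b.val) : a = b := by
  cases a; cases b; simp only at h; subst h; rfl

instance : Zero (Form2 K) :=
  ⟨{ val := fun _ _ => 0
     smooth := fun _ => contDiff_const
     alt := fun _ _ _ _ => by simp
     compat := fun _ _ _ _ _ _ => by simp }⟩

instance : Add (Form2 K) :=
  ⟨fun a b =>
    { val := fun i y => a.val i y + b.val i y
      smooth := fun i => (a.smooth i).add (b.smooth i)
      alt := fun i y u v => by
        simp only [add_apply]
        rw [a.alt i y u v, b.alt i y u v]; ring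
      compat := fun i j y hy u v => by
        simp only [add_apply]
        rw [a.compat i j y hy u v, b.compat i j y hy u v] }⟩

instance : SMul ℝ (Form2 K) :=
  ⟨fun r a =>
    { val := fun i y => r • a.val i y
      smooth := fun i => (a.smooth i).const_smul r
      alt := fun i y u v => by
        simp only [smul_apply, smul_eq_mul]
        rw [a.alt i y u v]; ring
      compat := fun i j y hy u v => by
        simp only [smul_apply]
        rw [a.compat i j y hy u v] }⟩

instance : Neg (Form2 K) := ⟨fun a => (-1 : ℝ) • a⟩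

@[simp] theorem Form2.zero_val (i : Ix) (y : E K) : (0 : Form2 K).val i y = 0 := rfl
@[simp] theorem Form2.add_val (a b : Form2 K) (i : Ix) (y : E K) :
    (a + b).val i y = a.val i y + b.val i y := rfl
@[simp] theorem Form2.smul_val (r : ℝ) (a : Form2 K) (i : Ix) (y : E K) :
    (r • a).val i y = r • a.val i y := rfl
@[simp] theorem Form2.neg_val (a : Form2 K) (i : Ix) (y : E K) : (-a).val i y = -a.val i y :=
  neg_one_smul ℝ (a.val i y)

instance : AddCommGroup (Form2 K) where
  add := (· + ·)
  zero := 0
  neg := (- ·)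
  add_assoc a b c := Form2.ext' (by funext i y; exact add_assoc (a.val i y) (b.val i y) (c.val i y))
  zero_add a := Form2.ext' (by funext i y; exact zero_add (a.val i y))
  add_zero a := Form2.ext' (by funext i y; exact add_zero (a.val i y))
  add_comm a b := Form2.ext' (by funext i y; exact add_comm (a.val i y) (b.val i y))
  neg_add_cancel a := Form2.ext' (by
    funext i y
    change (-1 : ℝ) • a.val i y + a.val i y = 0
    rw [neg_one_smul]
    exact neg_add_cancel (a.val i y))
  nsmul := nsmulRec
  zsmul := zsmulRec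

@[simp] theorem Form2.sub_val (a b : Form2 K) (i : Ix) (y : E K) :
    (a - b).val i y = a.val i y - b.val i y := by
  have h : (a - b : Form2 K) = a + -b := rfl
  rw [h, Form2.add_val, Form2.neg_val]
  exact (sub_eq_add_neg (a.val i y) (b.val i y)).symm

instance : Module ℝ (Form2 K) where
  smul := (· • ·)
  one_smul a := Form2.ext' (by funext i y; exact one_smul ℝ (a.val i y))
  mul_smul r s a := Form2.ext' (by funext i y; exact mul_smul r s (a.val i y))
  smul_zero r := Form2.ext' (by funext i y; exact smul_zero (A := Bil K) r)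
  smul_add r a b := Form2.ext' (by funext i y; exact smul_add r (a.val i y) (b.val i y))
  add_smul r s a := Form2.ext' (by funext i y; exact add_smul r s (a.val i y))
  zero_smul a := Form2.ext' (by funext i y; exact zero_smul ℝ (a.val i y))

instance : Zero (Form1 K) :=
  ⟨{ val := fun _ _ => 0
     smooth := fun _ => contDiff_const
     compat := fun _ _ _ _ _ => by simp }⟩

instance : Add (Form1 K) :=
  ⟨fun a b =>
    { val := fun i y => a.val i y + b.val i y
      smooth := fun i => (a.smooth i).add (b.smooth i)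
      compat := fun i j y hy u => by
        simp only [add_apply]
        rw [a.compat i j y hy u, b.compat i j y hy u] }⟩

instance : SMul ℝ (Form1 K) :=
  ⟨fun r a =>
    { val := fun i y => r • a.val i y
      smooth := fun i => (a.smooth i).const_smul r
      compat := fun i j y hy u => by
        simp only [smul_apply]
        rw [a.compat i j y hy u] }⟩

instance : Neg (Form1 K) := ⟨fun a => (-1 : ℝ) • a⟩

@[simp] theorem Form1.zero_val (i : Ix) (y : E K) : (0 : Form1 K).val i y = 0 := rfl
@[simp] theorem Form1.add_val (a b : Form1 K) (i : Ix) (y : E K) :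
    (a + b).val i y = a.val i y + b.val i y := rfl
@[simp] theorem Form1.smul_val (r : ℝ) (a : Form1 K) (i : Ix) (y : E K) :
    (r • a).val i y = r • a.val i y := rfl
@[simp] theorem Form1.neg_val (a : Form1 K) (i : Ix) (y : E K) : (-a).val i y = -a.val i y :=
  neg_one_smul ℝ (a.val i y)

instance : AddCommGroup (Form1 K) where
  add := (· + ·)
  zero := 0
  neg := (- ·)
  add_assoc a b c := Form1.ext' (by funext i y; exact add_assoc (a.val i y) (b.val i y) (c.val i y))
  zero_add a := Form1.ext' (by funext i y; exact zero_add (a.val i y))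
  add_zero a := Form1.ext' (by funext i y; exact add_zero (a.val i y))
  add_comm a b := Form1.ext' (by funext i y; exact add_comm (a.val i y) (b.val i y))
  neg_add_cancel a := Form1.ext' (by
    funext i y
    change (-1 : ℝ) • a.val i y + a.val i y = 0
    rw [neg_one_smul]
    exact neg_add_cancel (a.val i y))
  nsmul := nsmulRec
  zsmul := zsmulRec

@[simp] theorem Form1.sub_val (a b : Form1 K) (i : Ix) (y : E K) :
    (a - b).val i y = a.val i y - b.val i y := by
  have h : (a - b : Form1 K) = a + -b := rfl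
  rw [h, Form1.add_val, Form1.neg_val]
  exact (sub_eq_add_neg (a.val i y) (b.val i y)).symm

instance : Module ℝ (Form1 K) where
  smul := (· • ·)
  one_smul a := Form1.ext' (by funext i y; exact one_smul ℝ (a.val i y))
  mul_smul r s a := Form1.ext' (by funext i y; exact mul_smul r s (a.val i y))
  smul_zero r := Form1.ext' (by funext i y; exact smul_zero (A := E K →L[ℝ] ℝ) r)
  smul_add r a b := Form1.ext' (by funext i y; exact smul_add r (a.val i y) (b.val i y))
  add_smul r s a := Form1.ext' (by funext i y; exact add_smul r s (a.val i y))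
  zero_smul a := Form1.ext' (by funext i y; exact zero_smul ℝ (a.val i y))

private lemma hf_tr_trans (i j k : Ix) {y : E K} (hy : y ∈ ov K i j) :
    tr j k (tr i j y) = tr i k y := by
  change Cor k (Par j (tr i j y)) = Cor k (Par i y)
  rw [Par_tr i j hy]

private lemma hf_mem_ov (i j k : Ix) {y : E K} (hy : y ∈ ov K i j) :
    tr i j y ∈ ov K j k ↔ y ∈ ov K i k := by
  change Par j (tr i j y) ∈ Dom K k ↔ Par i y ∈ Dom K k
  rw [Par_tr i j hy]

private lemma hf_fderiv_trans (i j k : Ix) {y : E K} (hij : y ∈ ov K i j) (hik : y ∈ ov K i k)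
    (u : E K) :
    fderiv ℝ (tr j k) (tr i j y) (fderiv ℝ (tr i j) y u) = fderiv ℝ (tr i k) y u := by
  have h1 : (fun z => tr j k (tr i j z)) =ᶠ[𝓝 y] tr i k := by
    filter_upwards [(isOpen_ov i j).mem_nhds hij] with z hz
    exact hf_tr_trans i j k hz
  have h2 := h1.fderiv_eq (𝕜 := ℝ)
  have h3 : fderiv ℝ (fun z => tr j k (tr i j z)) y =
      (fderiv ℝ (tr j k) (tr i j y)).comp (fderiv ℝ (tr i j) y) :=
    fderiv_comp y (differentiableAt_tr j k ((hf_mem_ov i j k hij).mpr hik))
      (differentiableAt_tr i j hij)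
  rw [h3] at h2
  have h4 := congrArg (fun L : E K →L[ℝ] E K => L u) h2
  simpa using h4

/-- derivative of the transformation law of one-forms -/
private lemma hf_fderiv_form1 (α : Form1 K) (i j : Ix) {y : E K} (hy : y ∈ ov K i j) (w u : E K) :
    fderiv ℝ (α.val i) y w u =
      fderiv ℝ (α.val j) (tr i j y) (fderiv ℝ (tr i j) y w) (fderiv ℝ (tr i j) y u)
        + α.val j (tr i j y) (fderiv ℝ (fderiv ℝ (tr i j)) y w u) := by
  have h1 : (fun z => α.val i z u) =ᶠ[𝓝 y] fun z => α.val j (tr i j z) (fderiv ℝ (tr i j) z u) := by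
    filter_upwards [(isOpen_ov i j).mem_nhds hy] with z hz
    exact α.compat i j z hz u
  have h2 : HasFDerivAt (α.val i) (fderiv ℝ (α.val i) y) y :=
    ((α.smooth i).differentiable (by simp) y).hasFDerivAt
  have h3 : HasFDerivAt (α.val j) (fderiv ℝ (α.val j) (tr i j y)) (tr i j y) :=
    ((α.smooth j).differentiable (by simp) _).hasFDerivAt
  have h4 : HasFDerivAt (tr i j : E K → E K) (fderiv ℝ (tr i j) y) y :=
    (differentiableAt_tr i j hy).hasFDerivAt
  have h5 : HasFDerivAt (fderiv ℝ (tr i j : E K → E K)) (fderiv ℝ (fderiv ℝ (tr i j)) y) y :=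
    (((SConn.contDiffAt_tr i j hy).fderiv_right (m := ∞) (by simp)).differentiableAt
      (by simp)).hasFDerivAt
  have h6 := (h3.comp y h4).clm_apply (h5.clm_apply (hasFDerivAt_const u y))
  have h7 : HasFDerivAt (fun z => α.val j (tr i j z) (fderiv ℝ (tr i j) z u)) _ y := h6
  have h8 := h2.clm_apply (hasFDerivAt_const u y)
  have h9 := h1.fderiv_eq (𝕜 := ℝ)
  rw [h7.fderiv, h8.fderiv] at h9
  have h10 := congrArg (fun L : E K →L[ℝ] ℝ => L w) h9
  simpa [add_comm] using h10

private lemma hf_contDiff_d1 (α : Form1 K) (i : Ix) : ContDiff ℝ ∞ (d1 α.val i) := by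
  have h1 : ContDiff ℝ ∞ (fderiv ℝ (α.val i)) := (α.smooth i).fderiv_right (m := ∞) (by simp)
  exact h1.sub ((ContinuousLinearMap.flipₗᵢ ℝ (E K) (E K) ℝ).contDiff.comp h1)

private lemma hf_d1_apply (α : Ix → E K → E K →L[ℝ] ℝ) (i : Ix) (y u v : E K) :
    d1 α i y u v = fderiv ℝ (α i) y u v - fderiv ℝ (α i) y v u := rfl

/-- The exterior derivative of one-forms as a linear map (compatibility: the second derivatives of
`tr i j` cancel). -/
theorem exists_dF (K : ℕ) : ∃ d : Form1 K →ₗ[ℝ] Form2 K, ∀ α i y, (d α).val i y = d1 α.val i y := by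
  let D : Form1 K → Form2 K := fun α =>
    { val := d1 α.val
      smooth := hf_contDiff_d1 α
      alt := fun i y u v => by
        rw [hf_d1_apply, hf_d1_apply]
        ring
      compat := fun i j y hy u v => by
        rw [hf_d1_apply, hf_d1_apply, hf_fderiv_form1 α i j hy u v, hf_fderiv_form1 α i j hy v u]
        have hs : IsSymmSndFDerivAt ℝ (tr i j : E K → E K) y :=
          (SConn.contDiffAt_tr i j hy).isSymmSndFDerivAt (by simp; norm_cast)
        rw [hs.eq u v]
        ring }
  have hdiff : ∀ (α : Form1 K) (i : Ix) (y : E K), DifferentiableAt ℝ (α.val i) y :=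
    fun α i y => (α.smooth i).differentiable (by simp) y
  refine ⟨{ toFun := D, map_add' := ?_, map_smul' := ?_ }, fun _ _ _ => rfl⟩
  · intro α β
    apply Form2.ext'
    funext i y
    refine ContinuousLinearMap.ext fun u => ContinuousLinearMap.ext fun v => ?_
    have h1 : fderiv ℝ ((α + β).val i) y = fderiv ℝ (α.val i) y + fderiv ℝ (β.val i) y :=
      fderiv_add (hdiff α i y) (hdiff β i y)
    change d1 (α + β).val i y u v = d1 α.val i y u v + d1 β.val i y u v
    rw [hf_d1_apply, hf_d1_apply, hf_d1_apply, h1]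
    simp only [add_apply]
    ring
  · intro r α
    apply Form2.ext'
    funext i y
    refine ContinuousLinearMap.ext fun u => ContinuousLinearMap.ext fun v => ?_
    have h1 : fderiv ℝ ((r • α).val i) y = r • fderiv ℝ (α.val i) y :=
      fderiv_const_smul (hdiff α i y) r
    change d1 (r • α).val i y u v = r • d1 α.val i y u v
    rw [hf_d1_apply, hf_d1_apply, h1]
    simp only [smul_apply, smul_eq_mul]
    ring

def dF : Form1 K →ₗ[ℝ] Form2 K := (exists_dF K).choose

@[simp] theorem dF_val (α : Form1 K) (i : Ix) (y : E K) : (dF α).val i y = d1 α.val i y :=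
  (exists_dF K).choose_spec α i y

/-- exact forms are closed -/
theorem closed_dF (α : Form1 K) : Closed (dF α) := by
  intro i y u v w
  have hval : (dF α).val = d1 α.val := by
    funext i y
    exact dF_val α i y
  rw [hval]
  have h1 : HasFDerivAt (fderiv ℝ (α.val i)) (fderiv ℝ (fderiv ℝ (α.val i)) y) y :=
    (((α.smooth i).fderiv_right (m := ∞) (by simp)).differentiable (by simp) y).hasFDerivAt
  have h2 : ∀ a b c : E K, fderiv ℝ (d1 α.val i) y a b c =
      fderiv ℝ (fderiv ℝ (α.val i)) y a b c - fderiv ℝ (fderiv ℝ (α.val i)) y a c b := by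
    intro a b c
    have h3 := h1.sub (((ContinuousLinearMap.flipₗᵢ ℝ (E K) (E K) ℝ).toContinuousLinearEquiv :
      (E K →L[ℝ] E K →L[ℝ] ℝ) →L[ℝ] (E K →L[ℝ] E K →L[ℝ] ℝ)).hasFDerivAt.comp y h1)
    have h4 : HasFDerivAt (d1 α.val i) _ y := h3
    rw [h4.fderiv]
    rfl
  have hs : IsSymmSndFDerivAt ℝ (α.val i) y :=
    ((α.smooth i).contDiffAt).isSymmSndFDerivAt (by simp; norm_cast)
  unfold d2
  rw [h2, h2, h2]
  rw [hs.eq u v, hs.eq w u, hs.eq w v]
  ring

/-- multiplication by (the restriction to `M` of) a smooth function -/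
def mulF (χ : V K → ℝ) (hχ : ContDiff ℝ ∞ χ) (b : Form2 K) : Form2 K where
  val i y := χ (Par i y) • b.val i y
  smooth i := (hχ.comp (contDiff_Par i)).smul (b.smooth i)
  alt i y u v := by
    simp only [smul_apply, smul_eq_mul]
    rw [b.alt i y u v]; ring
  compat i j y hy u v := by
    simp only [smul_apply, smul_eq_mul]
    rw [b.compat i j y hy u v, Par_tr i j hy]

private lemma hf_tr_self (i : Ix) (y : E K) : tr i i y = y := Cor_Par i y

private lemma hf_fderiv_self (i : Ix) (y u : E K) : fderiv ℝ (tr i i) y u = u := by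
  have h1 : (tr i i : E K → E K) = fun z => z := by
    funext z
    exact hf_tr_self i z
  rw [h1, fderiv_fun_id]
  rfl

/-- near a point of the chart `j` outside the chart `i` a field supported in the chart `i` vanishes -/
private lemma hf_far {F : Type*} [NormedAddCommGroup F] (i : Ix) {φ : E K → F}
    (hc : HasCompactSupport φ) (j : Ix) {y : E K} (hy : y ∉ ov K j i) :
    ∀ᶠ z in 𝓝 y, z ∈ ov K j i → φ (tr j i z) = 0 := by
  have hC : IsCompact (Par i '' tsupport φ) := hc.isCompact.image (contDiff_Par i).continuous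
  have h1 : Par j y ∉ Par i '' tsupport φ := by
    rintro ⟨x, _, hx⟩
    apply hy
    change Par j y ∈ Dom K i
    rw [← hx]
    exact Par_mem_Dom i x
  have h2 : ∀ᶠ z in 𝓝 y, Par j z ∉ Par i '' tsupport φ :=
    (contDiff_Par j).continuous.continuousAt.eventually (hC.isClosed.isOpen_compl.mem_nhds h1)
  filter_upwards [h2] with z hz hzi
  by_contra hne
  apply hz
  refine ⟨tr j i z, subset_tsupport φ hne, ?_⟩
  exact Par_tr j i hzi

/-- Extension by zero of a compactly supported two-form of the chart `i`. Near a point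
`y ∉ ov K j i` of the chart `j` it vanishes, because `Par i '' (tsupport φ)` is compact and contained in
`Dom K i`. -/
theorem exists_push2 (i : Ix) (φ : E K → Bil K) (hφ : ContDiff ℝ ∞ φ) (hc : HasCompactSupport φ)
    (halt : ∀ y u v, φ y u v = - φ y v u) :
    ∃ b : Form2 K, b.val i = φ ∧
      (∀ j y, y ∉ ov K j i → ∀ᶠ z in 𝓝 y, b.val j z = 0) ∧
      ∀ j y, y ∈ ov K j i → ∀ u v, b.val j y u v =
        φ (tr j i y) (fderiv ℝ (tr j i) y u) (fderiv ℝ (tr j i) y v) := by
  classical
  let P : Ix → E K → Bil K := fun j y => if y ∈ ov K j i then Natural.pb φ (tr j i) y else 0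
  have hP1 : ∀ j y, y ∈ ov K j i → ∀ u v, P j y u v =
      φ (tr j i y) (fderiv ℝ (tr j i) y u) (fderiv ℝ (tr j i) y v) := by
    intro j y hy u v
    simp only [P]
    rw [if_pos hy, Natural.pb_apply]
  have hP0 : ∀ j y, y ∉ ov K j i → P j y = 0 := by
    intro j y hy
    simp only [P]
    rw [if_neg hy]
  have hev : ∀ j y, y ∉ ov K j i → ∀ᶠ z in 𝓝 y, P j z = 0 := by
    intro j y hy
    filter_upwards [hf_far i hc j hy] with z hz
    by_cases hz' : z ∈ ov K j i
    · refine ContinuousLinearMap.ext fun u => ContinuousLinearMap.ext fun v => ?_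
      rw [hP1 j z hz', hz hz']
      simp
    · exact hP0 j z hz'
  refine ⟨{ val := P, smooth := ?_, alt := ?_, compat := ?_ }, ?_, hev, hP1⟩
  · intro j
    rw [contDiff_iff_contDiffAt]
    intro y
    by_cases hy : y ∈ ov K j i
    · have h1 : ContDiffAt ℝ ∞ (Natural.pb φ (tr j i)) y :=
        Natural.contDiffAt_pb (by simpa using SConn.contDiffAt_tr j i hy) hφ.contDiffAt
      refine h1.congr_of_eventuallyEq ?_
      filter_upwards [(isOpen_ov j i).mem_nhds hy] with z hz
      simp only [P]
      rw [if_pos hz]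
    · refine (contDiffAt_const (c := (0 : Bil K))).congr_of_eventuallyEq ?_
      filter_upwards [hev j y hy] with z hz
      exact hz
  · intro j y u v
    by_cases hy : y ∈ ov K j i
    · rw [hP1 j y hy, hP1 j y hy]
      exact halt _ _ _
    · rw [hP0 j y hy]
      simp
  · intro j k y hy u v
    by_cases hyi : y ∈ ov K j i
    · rw [hP1 j y hyi, hP1 k _ ((hf_mem_ov j k i hy).mpr hyi), hf_fderiv_trans j k i hy hyi,
        hf_fderiv_trans j k i hy hyi, hf_tr_trans j k i hy]
    · rw [hP0 j y hyi, hP0 k _ fun h => hyi ((hf_mem_ov j k i hy).mp h)]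
      simp
  · change P i = φ
    funext y
    refine ContinuousLinearMap.ext fun u => ContinuousLinearMap.ext fun v => ?_
    have hy : y ∈ ov K i i := by rw [ov_self]; exact Set.mem_univ y
    rw [hP1 i y hy, hf_tr_self, hf_fderiv_self, hf_fderiv_self]

/-- Extension by zero of a compactly supported one-form of the chart `i`. -/
theorem exists_push1 (i : Ix) (φ : E K → E K →L[ℝ] ℝ) (hφ : ContDiff ℝ ∞ φ)
    (hc : HasCompactSupport φ) :
    ∃ b : Form1 K, b.val i = φ ∧
      (∀ j y, y ∉ ov K j i → ∀ᶠ z in 𝓝 y, b.val j z = 0) ∧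
      ∀ j y, y ∈ ov K j i → ∀ u, b.val j y u = φ (tr j i y) (fderiv ℝ (tr j i) y u) := by
  classical
  let P : Ix → E K → E K →L[ℝ] ℝ := fun j y =>
    if y ∈ ov K j i then (φ (tr j i y)).comp (fderiv ℝ (tr j i) y) else 0
  have hP1 : ∀ j y, y ∈ ov K j i → ∀ u, P j y u = φ (tr j i y) (fderiv ℝ (tr j i) y u) := by
    intro j y hy u
    simp only [P]
    rw [if_pos hy]
    rfl
  have hP0 : ∀ j y, y ∉ ov K j i → P j y = 0 := by
    intro j y hy
    simp only [P]
    rw [if_neg hy]
  have hev : ∀ j y, y ∉ ov K j i → ∀ᶠ z in 𝓝 y, P j z = 0 := by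
    intro j y hy
    filter_upwards [hf_far i hc j hy] with z hz
    by_cases hz' : z ∈ ov K j i
    · refine ContinuousLinearMap.ext fun u => ?_
      rw [hP1 j z hz', hz hz']
      simp
    · exact hP0 j z hz'
  refine ⟨{ val := P, smooth := ?_, compat := ?_ }, ?_, hev, hP1⟩
  · intro j
    rw [contDiff_iff_contDiffAt]
    intro y
    by_cases hy : y ∈ ov K j i
    · have h0 := SConn.contDiffAt_tr j i hy
      have h1 : ContDiffAt ℝ ∞ (fun y => (φ (tr j i y)).comp (fderiv ℝ (tr j i) y)) y :=
        (hφ.contDiffAt.comp y h0).clm_comp (h0.fderiv_right (m := ∞) (by simp))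
      refine h1.congr_of_eventuallyEq ?_
      filter_upwards [(isOpen_ov j i).mem_nhds hy] with z hz
      simp only [P]
      rw [if_pos hz]
    · refine (contDiffAt_const (c := (0 : E K →L[ℝ] ℝ))).congr_of_eventuallyEq ?_
      filter_upwards [hev j y hy] with z hz
      exact hz
  · intro j k y hy u
    by_cases hyi : y ∈ ov K j i
    · rw [hP1 j y hyi, hP1 k _ ((hf_mem_ov j k i hy).mpr hyi), hf_fderiv_trans j k i hy hyi,
        hf_tr_trans j k i hy]
    · rw [hP0 j y hyi, hP0 k _ fun h => hyi ((hf_mem_ov j k i hy).mp h)]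
      simp
  · change P i = φ
    funext y
    refine ContinuousLinearMap.ext fun u => ?_
    have hy : y ∈ ov K i i := by rw [ov_self]; exact Set.mem_univ y
    rw [hP1 i y hy, hf_tr_self, hf_fderiv_self]

end Pool.Agent.H86.Nco
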