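import Pool.Agent.H86.Nco.HAlg

/-!
# Module HMEAS: integration over `M`

`vol_tr`: the Gram matrix of `G.g i y = (G.g j)(Dtr ·)(Dtr ·)` in the basis `bs` is `Dᵀ Γ D`, `D` the matrix of
`Dtr`, so its determinant is `det(Dtr)² det Γ`.
`null_compl`: `ov K i j = dom K i j` (`Anco/SC.lean`), the complement is contained in
`{z = 0} ∪ {(w, x) = 0}`, which are proper linear subspaces (`Measure.addHaar_submodule`).
The measures `nu G i` on the ambient space (image of `vol · dy` under `Par i`) do not depend on `i`; this is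
the Riemannian measure of `M`.
-/

open scoped Manifold ContDiff Bundle Topology

noncomputable section

namespace Pool.Agent.H86.Nco

open Pool.Agent.H86.Anco MeasureTheory

set_option maxSynthPendingDepth 3

variable {K : ℕ}

instance instHaarVolCF (K : ℕ) : (volume : Measure (ℂ × F K)).IsAddHaarMeasure := by
  change ((volume : Measure ℂ).prod (volume : Measure (F K))).IsAddHaarMeasure
  exact Measure.prod.instIsAddHaarMeasure _ _

instance instHaarVolE (K : ℕ) : (volume : Measure (E K)).IsAddHaarMeasure := by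
  change ((volume : Measure ℂ).prod (volume : Measure (ℂ × F K))).IsAddHaarMeasure
  exact Measure.prod.instIsAddHaarMeasure _ _

theorem vol_tr (G : Met K) (i j : Ix) {y : E K} (hy : y ∈ ov K i j) :
    vol (G.g i y) = |(fderiv ℝ (tr i j) y : E K →L[ℝ] E K).det| * vol (G.g j (tr i j y)) := by
  set D : E K →L[ℝ] E K := fderiv ℝ (tr i j) y with hD
  set M : Matrix (Fin (K + 4)) (Fin (K + 4)) ℝ :=
    LinearMap.toMatrix (bs K) (bs K) (D : E K →ₗ[ℝ] E K) with hM
  have h1 : ∀ k, D (bs K k) = ∑ l, M l k • bs K l := by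
    intro k
    have h2 := (bs K).sum_repr (D (bs K k))
    rw [← h2]
    refine Finset.sum_congr rfl fun l _ => ?_
    rw [hM, LinearMap.toMatrix_apply]
    simp
  have h2 : (Matrix.of fun k l => G.g i y (bs K k) (bs K l)) =
      M.transpose * (Matrix.of fun k l => G.g j (tr i j y) (bs K k) (bs K l)) * M := by
    ext k l
    rw [Matrix.of_apply, G.compat i j y hy, ← hD, h1, h1, Matrix.mul_apply]
    simp only [map_sum, map_smul, sum_apply, smul_apply,
      smul_eq_mul, Matrix.mul_apply, Matrix.transpose_apply, Matrix.of_apply]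
    refine Finset.sum_congr rfl fun a _ => ?_
    rw [Finset.mul_sum, mul_comm, Finset.mul_sum]
  have h3 : D.det = M.det := by
    rw [hM, LinearMap.det_toMatrix]
  unfold vol
  rw [h2, Matrix.det_mul, Matrix.det_mul, Matrix.det_transpose, h3]
  rw [show M.det * (Matrix.of fun k l => G.g j (tr i j y) (bs K k) (bs K l)).det * M.det =
    M.det ^ 2 * (Matrix.of fun k l => G.g j (tr i j y) (bs K k) (bs K l)).det by ring]
  rw [Real.sqrt_mul (sq_nonneg _), Real.sqrt_sq_eq_abs]

theorem null_compl (i j : Ix) : volume ((ov K i j)ᶜ) = 0 := by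
  have h1 : (ov K i j)ᶜ ⊆
      ((LinearMap.ker (LinearMap.fst ℝ ℂ (ℂ × F K)) : Submodule ℝ (E K)) : Set (E K)) ∪
      ((LinearMap.ker (LinearMap.snd ℝ ℂ (ℂ × F K)) : Submodule ℝ (E K)) : Set (E K)) := by
    intro y hy
    rw [ov_eq_dom] at hy
    by_contra hcon
    rw [Set.mem_union, not_or] at hcon
    apply hy
    refine ⟨Or.inr fun h => hcon.1 ?_, Or.inr fun h => hcon.2 ?_⟩
    · exact h
    · exact h
  refine measure_mono_null h1 (measure_union_null ?_ ?_)
  · refine Measure.addHaar_submodule _ _ fun h => ?_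
    have h2 : ((1, 0, 0) : E K) ∈ LinearMap.ker (LinearMap.fst ℝ ℂ (ℂ × F K)) := by
      rw [h]; trivial
    have h3 : (1 : ℂ) = 0 := h2
    exact one_ne_zero h3
  · refine Measure.addHaar_submodule _ _ fun h => ?_
    have h2 : ((0, 1, 0) : E K) ∈ LinearMap.ker (LinearMap.snd ℝ ℂ (ℂ × F K)) := by
      rw [h]; trivial
    have h3 : ((1, 0) : ℂ × F K) = 0 := h2
    have h4 : (1 : ℂ) = 0 := congrArg Prod.fst h3
    exact one_ne_zero h4

/-! ### The Riemannian measure -/

theorem vol_nonneg (B : Bil K) : 0 ≤ vol B := Real.sqrt_nonneg _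

theorem cont_vol (G : Met K) (i : Ix) : Continuous (fun y => vol (G.g i y)) :=
  (contDiff_vol (G.smooth i) (G.posDef i)).continuous

/-- the Riemannian measure in the chart `i` -/
def mu (G : Met K) (i : Ix) : Measure (E K) :=
  volume.withDensity (fun y => ENNReal.ofReal (vol (G.g i y)))

/-- the Riemannian measure on the ambient space -/
def nu (G : Met K) (i : Ix) : Measure (V K) := (mu G i).map (Par i)

theorem measEmb_Par (i : Ix) : MeasurableEmbedding (Par i : E K → V K) :=
  (contDiff_Par i).continuous.measurableEmbedding fun a b h => by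
    rw [← Cor_Par i a, h, Cor_Par]

theorem meas_dens (G : Met K) (i : Ix) :
    Measurable (fun y => ENNReal.ofReal (vol (G.g i y))) :=
  (cont_vol G i).measurable.ennreal_ofReal

theorem mu_inter (G : Met K) (i j : Ix) (A : Set (E K)) :
    mu G i A = mu G i (A ∩ ov K i j) := by
  have h1 : mu G i ((ov K i j)ᶜ) = 0 :=
    withDensity_absolutelyContinuous _ _ (null_compl i j)
  have h2 := measure_inter_add_sdiff (μ := mu G i) A (isOpen_ov i j).measurableSet
  have h3 : mu G i (A \ ov K i j) = 0 := measure_mono_null (fun x hx => hx.2) h1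
  rw [h3, add_zero] at h2
  exact h2.symm

theorem nu_le (G : Met K) (i j : Ix) {A : Set (V K)} (hA : MeasurableSet A) :
    nu G i A = nu G j A := by
  have hmi : MeasurableSet (Par i ⁻¹' A) := (measEmb_Par i).measurable hA
  have hmj : MeasurableSet (Par j ⁻¹' A) := (measEmb_Par j).measurable hA
  unfold nu
  rw [(measEmb_Par i).map_apply, (measEmb_Par j).map_apply, mu_inter G i j (Par i ⁻¹' A),
    mu_inter G j i (Par j ⁻¹' A)]
  have hsi : MeasurableSet (Par i ⁻¹' A ∩ ov K i j) := hmi.inter (isOpen_ov i j).measurableSet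
  have hsj : MeasurableSet (Par j ⁻¹' A ∩ ov K j i) := hmj.inter (isOpen_ov j i).measurableSet
  have himg : tr i j '' (Par i ⁻¹' A ∩ ov K i j) = Par j ⁻¹' A ∩ ov K j i := by
    ext z
    constructor
    · rintro ⟨y, ⟨h1, h2⟩, rfl⟩
      refine ⟨?_, tr_mem i j h2⟩
      change Par j (tr i j y) ∈ A
      rw [Par_tr i j h2]
      exact h1
    · rintro ⟨h1, h2⟩
      refine ⟨tr j i z, ⟨?_, tr_mem j i h2⟩, tr_tr j i h2⟩
      change Par i (tr j i z) ∈ A
      rw [Par_tr j i h2]
      exact h1
  unfold mu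
  rw [withDensity_apply _ hsi, withDensity_apply _ hsj, ← himg]
  rw [lintegral_image_eq_lintegral_abs_det_fderiv_mul volume hsi
    (f' := fun y => fderiv ℝ (tr i j) y)
    (fun y hy => (differentiableAt_tr i j hy.2).hasFDerivAt.hasFDerivWithinAt)]
  · refine setLIntegral_congr_fun hsi fun y hy => ?_
    rw [← ENNReal.ofReal_mul (abs_nonneg _), vol_tr G i j hy.2]
  · intro y hy z hz h
    rw [← tr_tr i j hy.2, ← tr_tr i j hz.2, h]

theorem nu_eq (G : Met K) (i j : Ix) : nu G i = nu G j :=
  Measure.ext fun _ hA => nu_le G i j hA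

/-- the function on the ambient space belonging to a compatible family -/
def glob (F : Ix → E K → ℝ) (p : V K) : ℝ := F (idx p) (Cor (idx p) p)

theorem idx_mem (i : Ix) (y : E K) : y ∈ ov K i (idx (Par i y)) := mem_Dom_idx _

theorem glob_Par {F : Ix → E K → ℝ} (hF : Compat0 F) (i : Ix) (y : E K) :
    glob F (Par i y) = F i y := (hF i _ y (idx_mem i y)).symm

theorem setInt_nu (G : Met K) {F : Ix → E K → ℝ} (hF : Compat0 F) (i : Ix) (A : Set (V K)) :
    ∫ p in A, glob F p ∂(nu G i) = ∫ y in Par i ⁻¹' A, F i y ∂(mu G i) := by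
  unfold nu
  rw [(measEmb_Par i).setIntegral_map]
  simp_rw [glob_Par hF]

theorem int_nu (G : Met K) {F : Ix → E K → ℝ} (hF : Compat0 F) (i : Ix) :
    ∫ p, glob F p ∂(nu G i) = ∫ y, F i y ∂(mu G i) := by
  unfold nu
  rw [(measEmb_Par i).integral_map]
  simp_rw [glob_Par hF]

theorem setInt_mu (G : Met K) (i : Ix) (f : E K → ℝ) {A : Set (E K)} (hA : MeasurableSet A) :
    ∫ y in A, f y ∂(mu G i) = ∫ y in A, f y * vol (G.g i y) := by
  unfold mu
  rw [setIntegral_withDensity_eq_setIntegral_toReal_smul (meas_dens G i)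
    (Filter.Eventually.of_forall fun _ => ENNReal.ofReal_lt_top) _ hA]
  refine setIntegral_congr_fun hA fun y _ => ?_
  simp only [smul_eq_mul]
  rw [ENNReal.toReal_ofReal (vol_nonneg _), mul_comm]

theorem int_mu (G : Met K) (i : Ix) (f : E K → ℝ) :
    ∫ y, f y ∂(mu G i) = ∫ y, f y * vol (G.g i y) := by
  have h := setInt_mu G i f MeasurableSet.univ
  rwa [setIntegral_univ, setIntegral_univ] at h

/-- the integral over `M` may be computed in any chart -/
theorem IM_eq (G : Met K) {F : Ix → E K → ℝ} (hF : Compat0 F) (i : Ix) :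
    IM G F = ∫ y, F i y * vol (G.g i y) := by
  unfold IM
  rw [← int_mu, ← int_mu, ← int_nu G hF, ← int_nu G hF, nu_eq G (false, false) i]

/-- the image of `Bx K` under `Par j` -/
def BI (K : ℕ) (j : Ix) : Set (V K) := Par j '' Bx K

theorem isCompact_BI (j : Ix) : IsCompact (BI K j) :=
  isCompact_Bx.image (contDiff_Par j).continuous

theorem cover_BI (i : Ix) (y : E K) : ∃ j, Par i y ∈ BI K j :=
  ⟨idx (Par i y), Cor (idx (Par i y)) (Par i y), exists_Bx (Par_mem i y),
    Par_Cor _ (Par_mem i y) (mem_Dom_idx _)⟩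

theorem preimage_BI (j : Ix) : Par j ⁻¹' (BI K j) = Bx K := by
  unfold BI
  rw [Set.preimage_image_eq]
  intro a b h
  rw [← Cor_Par j a, h, Cor_Par]

theorem mu_Bx_lt_top (G : Met K) (j : Ix) : mu G j (Bx K) < ⊤ := by
  unfold mu
  rw [withDensity_apply _ isCompact_Bx.measurableSet]
  have h1 : IntegrableOn (fun y => vol (G.g j y)) (Bx K) :=
    (cont_vol G j).continuousOn.integrableOn_compact isCompact_Bx
  exact h1.lintegral_lt_top

theorem mu_univ_lt_top (G : Met K) (i : Ix) : mu G i Set.univ < ⊤ := by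
  have h1 : (Set.univ : Set (E K)) ⊆ ⋃ j : Ix, Par i ⁻¹' (BI K j) := by
    intro y _
    obtain ⟨j, hj⟩ := cover_BI i y
    exact Set.mem_iUnion.2 ⟨j, hj⟩
  refine (measure_mono h1).trans_lt ((measure_iUnion_fintype_le _ _).trans_lt ?_)
  refine ENNReal.sum_lt_top.2 fun j _ => ?_
  have h2 : mu G i (Par i ⁻¹' (BI K j)) = mu G j (Bx K) := by
    have h3 := congrArg (fun m : Measure (V K) => m (BI K j)) (nu_eq G i j)
    simp only [nu] at h3
    rw [(measEmb_Par i).map_apply, (measEmb_Par j).map_apply, preimage_BI] at h3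
    exact h3
  rw [h2]
  exact mu_Bx_lt_top G j

instance (G : Met K) (i : Ix) : IsFiniteMeasure (mu G i) := ⟨mu_univ_lt_top G i⟩

theorem integrable_mu_iff (G : Met K) (i : Ix) (f : E K → ℝ) :
    Integrable f (mu G i) ↔ Integrable (fun y => f y * vol (G.g i y)) := by
  unfold mu
  rw [integrable_withDensity_iff_integrable_smul' (meas_dens G i)
    (Filter.Eventually.of_forall fun _ => ENNReal.ofReal_lt_top)]
  refine integrable_congr (Filter.Eventually.of_forall fun y => ?_)
  simp only [smul_eq_mul]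
  rw [ENNReal.toReal_ofReal (vol_nonneg _), mul_comm]

theorem finite_vol (G : Met K) (i : Ix) : Integrable (fun y => vol (G.g i y)) := by
  have h := (integrable_mu_iff G i (fun _ => (1 : ℝ))).1 (integrable_const _)
  simpa using h

theorem bounded_of_compat {F : Ix → E K → ℝ} (hF : Compat0 F) (hc : ∀ i, Continuous (F i)) :
    ∃ c, ∀ i y, |F i y| ≤ c := by
  have h1 : ∀ j, ∃ c, ∀ y ∈ Bx K, ‖F j y‖ ≤ c := fun j =>
    isCompact_Bx.exists_bound_of_continuousOn (hc j).continuousOn
  choose c hcb using h1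
  refine ⟨∑ j, |c j|, fun i y => ?_⟩
  rw [hF i _ y (idx_mem i y)]
  refine (hcb _ _ (exists_Bx (Par_mem i y))).trans ((le_abs_self _).trans ?_)
  exact Finset.single_le_sum (f := fun j => |c j|) (fun j _ => abs_nonneg _) (Finset.mem_univ _)

theorem integrable_mu_compat (G : Met K) {F : Ix → E K → ℝ} (hF : Compat0 F)
    (hc : ∀ i, Continuous (F i)) (i : Ix) : Integrable (F i) (mu G i) := by
  obtain ⟨c, hb⟩ := bounded_of_compat hF hc
  exact Integrable.of_bound (hc i).aestronglyMeasurable c
    (Filter.Eventually.of_forall fun y => hb i y)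

theorem integrable_compat (G : Met K) {F : Ix → E K → ℝ} (hF : Compat0 F)
    (hc : ∀ i, Continuous (F i)) (i : Ix) : Integrable (fun y => F i y * vol (G.g i y)) :=
  (integrable_mu_iff G i (F i)).1 (integrable_mu_compat G hF hc i)

theorem IM_nonneg (G : Met K) {F : Ix → E K → ℝ} (h : ∀ i y, 0 ≤ F i y) : 0 ≤ IM G F :=
  integral_nonneg fun y => mul_nonneg (h _ y) (vol_nonneg _)

theorem IM_mono (G : Met K) {F F' : Ix → E K → ℝ} (hF : Compat0 F) (hF' : Compat0 F')
    (hc : ∀ i, Continuous (F i)) (hc' : ∀ i, Continuous (F' i)) (h : ∀ i y, F i y ≤ F' i y) :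
    IM G F ≤ IM G F' :=
  integral_mono (integrable_compat G hF hc _) (integrable_compat G hF' hc' _)
    fun y => mul_le_mul_of_nonneg_right (h _ y) (vol_nonneg _)

theorem IM_add (G : Met K) {F F' : Ix → E K → ℝ} (hF : Compat0 F) (hF' : Compat0 F')
    (hc : ∀ i, Continuous (F i)) (hc' : ∀ i, Continuous (F' i)) :
    IM G (fun i y => F i y + F' i y) = IM G F + IM G F' := by
  unfold IM
  rw [← integral_add (integrable_compat G hF hc _) (integrable_compat G hF' hc' _)]
  refine integral_congr_ae (Filter.Eventually.of_forall fun y => ?_)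
  simp only
  ring

theorem IM_smul (G : Met K) (r : ℝ) (F : Ix → E K → ℝ) :
    IM G (fun i y => r * F i y) = r * IM G F := by
  unfold IM
  rw [← integral_const_mul]
  refine integral_congr_ae (Filter.Eventually.of_forall fun y => ?_)
  simp only
  ring

theorem eq_zero_of_IM (G : Met K) {F : Ix → E K → ℝ} (hF : Compat0 F)
    (hc : ∀ i, Continuous (F i)) (h : ∀ i y, 0 ≤ F i y) (h0 : IM G F = 0) :
    ∀ i y, F i y = 0 := by
  intro i y
  rw [IM_eq G hF i] at h0
  rw [integral_eq_zero_iff_of_nonneg (fun z => mul_nonneg (h i z) (vol_nonneg _))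
    (integrable_compat G hF hc i)] at h0
  have h1 := (Continuous.ae_eq_iff_eq volume ((hc i).mul (cont_vol G i))
    continuous_zero).1 h0
  have h2 := congrFun h1 y
  simp only [Pi.zero_apply] at h2
  rcases mul_eq_zero.1 h2 with h3 | h3
  · exact h3
  · exact absurd h3 (vol_pos (G.posDef i y)).ne'

theorem piece_le (G : Met K) (i : Ix) {C : Set (E K)} (hC : IsCompact C) :
    ∃ c : ℝ, 0 < c ∧ ∀ F : Ix → E K → ℝ, Compat0 F → (∀ i, Continuous (F i)) →
      (∀ i y, 0 ≤ F i y) → ∫ y in C, F i y ≤ c * IM G F := by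
  have h1 : ∃ c : ℝ, 0 < c ∧ ∀ y ∈ C, 1 ≤ c * vol (G.g i y) := by
    have h2 : ContinuousOn (fun y => (vol (G.g i y))⁻¹) C :=
      (cont_vol G i).continuousOn.inv₀ fun y _ => (vol_pos (G.posDef i y)).ne'
    obtain ⟨c, hc⟩ := hC.exists_bound_of_continuousOn h2
    refine ⟨max c 1, lt_max_of_lt_right one_pos, fun y hy => ?_⟩
    have h3 := hc y hy
    have h4 := vol_pos (G.posDef i y)
    rw [Real.norm_of_nonneg (inv_nonneg.2 h4.le)] at h3
    have h5 := mul_le_mul_of_nonneg_right (h3.trans (le_max_left c 1)) h4.le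
    rwa [inv_mul_cancel₀ h4.ne'] at h5
  obtain ⟨c, hc0, hc⟩ := h1
  refine ⟨c, hc0, fun F hF hcont h => ?_⟩
  rw [IM_eq G hF i, ← integral_const_mul]
  have hi : Integrable (fun y => c * (F i y * vol (G.g i y))) :=
    (integrable_compat G hF hcont i).const_mul c
  calc ∫ y in C, F i y ≤ ∫ y in C, c * (F i y * vol (G.g i y)) := by
        refine setIntegral_mono_on ((hcont i).continuousOn.integrableOn_compact hC)
          hi.integrableOn hC.measurableSet fun y hy => ?_
        have h2 := mul_le_mul_of_nonneg_left (hc y hy) (h i y)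
        linarith
    _ ≤ ∫ y, c * (F i y * vol (G.g i y)) := by
        refine setIntegral_le_integral hi (Filter.Eventually.of_forall fun y => ?_)
        exact mul_nonneg hc0.le (mul_nonneg (h i y) (vol_nonneg _))

theorem cover_le (G : Met K) :
    ∃ c : ℝ, 0 < c ∧ ∀ F : Ix → E K → ℝ, Compat0 F → (∀ i, Continuous (F i)) →
      (∀ i y, 0 ≤ F i y) → IM G F ≤ c * ∑ i : Ix, ∫ y in Bx K, F i y := by
  have h1 : ∀ j, ∃ c, ∀ y ∈ Bx K, ‖vol (G.g j y)‖ ≤ c := fun j =>
    isCompact_Bx.exists_bound_of_continuousOn (cont_vol G j).continuousOn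
  choose c hcb using h1
  refine ⟨1 + ∑ j, |c j|, by positivity, fun F hF hcont h => ?_⟩
  have hcj : ∀ j, ∀ y ∈ Bx K, vol (G.g j y) ≤ 1 + ∑ j, |c j| := by
    intro j y hy
    have h2 : |c j| ≤ ∑ j, |c j| :=
      Finset.single_le_sum (f := fun j => |c j|) (fun j _ => abs_nonneg _) (Finset.mem_univ _)
    have h3 := (le_abs_self _).trans ((hcb j y hy).trans (le_abs_self _))
    linarith
  set o : Ix := (false, false) with ho
  have hint := integrable_mu_compat G hF hcont o
  have hme : ∀ j, MeasurableSet (Par o ⁻¹' (BI K j)) := fun j =>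
    (measEmb_Par o).measurable (isCompact_BI j).measurableSet
  calc IM G F = ∫ y, F o y ∂(mu G o) := by rw [int_mu]; rfl
    _ ≤ ∫ y, ∑ j, (Par o ⁻¹' (BI K j)).indicator (F o) y ∂(mu G o) := by
        refine integral_mono hint (integrable_finsetSum _ fun j _ => hint.indicator (hme j))
          fun y => ?_
        obtain ⟨j, hj⟩ := cover_BI o y
        have h2 : F o y = (Par o ⁻¹' (BI K j)).indicator (F o) y :=
          (Set.indicator_of_mem (show y ∈ Par o ⁻¹' (BI K j) from hj) _).symm
        exact h2.le.trans (Finset.single_le_sum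
          (f := fun j => (Par o ⁻¹' (BI K j)).indicator (F o) y)
          (fun j _ => Set.indicator_nonneg (fun z _ => h o z) y) (Finset.mem_univ j))
    _ = ∑ j, ∫ y in Par o ⁻¹' (BI K j), F o y ∂(mu G o) := by
        rw [integral_finsetSum _ fun j _ => hint.indicator (hme j)]
        refine Finset.sum_congr rfl fun j _ => ?_
        rw [integral_indicator (hme j)]
    _ = ∑ j, ∫ y in Bx K, F j y * vol (G.g j y) := by
        refine Finset.sum_congr rfl fun j _ => ?_
        rw [← setInt_nu G hF, nu_eq G o j, setInt_nu G hF, preimage_BI,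
          setInt_mu G j _ isCompact_Bx.measurableSet]
    _ ≤ ∑ j, ∫ y in Bx K, (1 + ∑ j, |c j|) * F j y := by
        refine Finset.sum_le_sum fun j _ => ?_
        refine setIntegral_mono_on (((hcont j).mul (cont_vol G j)).continuousOn.integrableOn_compact
          isCompact_Bx) ((continuous_const.mul (hcont j)).continuousOn.integrableOn_compact
          isCompact_Bx) isCompact_Bx.measurableSet fun y hy => ?_
        have h2 := mul_le_mul_of_nonneg_left (hcj j y hy) (h j y)
        linarith
    _ = (1 + ∑ j, |c j|) * ∑ i : Ix, ∫ y in Bx K, F i y := by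
        rw [Finset.mul_sum]
        refine Finset.sum_congr rfl fun j _ => ?_
        rw [integral_const_mul]

end Pool.Agent.H86.Nco
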