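import Pool.Agent.H86.Nco.HCompat
import Pool.Agent.H86.Nco.HForms
import Pool.Agent.H86.Nco.HMeas

/-!
# Module HMIN: the `L²` inner product of two-forms, minimising sequences

`ip2 G a b = ∫ ∑_{jk} a(e_j, e_k) b(e_j, e_k)`; bilinear, symmetric, positive semidefinite; the
integrands are compatible (polarise `compat0_sq2`, or use `trace_indep`) and continuous, so all integrals
exist (`integrable_compat`).

`exists_min`: let `m² = inf ‖f + dα‖²`, `‖f + dα_n‖² ≤ m² + 1/(n+1)²`.  Parallelogram identity: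
`‖dα_n - dα_k‖² ≤ 2/(n+1)² + 2/(k+1)²`.  For `β` and all real `t`:
`‖f + dα_n + t dβ‖² ≥ m² ≥ ‖f + dα_n‖² - 1/(n+1)²`, so `2 t ⟨f + dα_n, dβ⟩ + t² ‖dβ‖² ≥ - 1/(n+1)²` and
`⟨f + dα_n, dβ⟩² ≤ ‖dβ‖² / (n+1)²` (discriminant).
-/

open scoped Manifold ContDiff Bundle Topology

noncomputable section

namespace Pool.Agent.H86.Nco

open Pool.Agent.H86.Anco MeasureTheory

set_option maxSynthPendingDepth 3

variable {K : ℕ}

/-- the squared `L²` norm -/
def nrmSq (G : Met K) (b : Form2 K) : ℝ := IM G (fun i y => sq2 (G.g i y) (fun u v => b.val i y u v))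

/-- the `L²` inner product -/
def ip2 (G : Met K) (a b : Form2 K) : ℝ :=
  IM G (fun i y => ∑ j, ∑ k, a.val i y (onb (G.g i y) j) (onb (G.g i y) k)
    * b.val i y (onb (G.g i y) j) (onb (G.g i y) k))

theorem ip2_self (G : Met K) (b : Form2 K) : ip2 G b b = nrmSq G b := by
  unfold ip2 nrmSq sq2
  simp only [pow_two]

theorem ip2_symm (G : Met K) (a b : Form2 K) : ip2 G a b = ip2 G b a := by
  unfold ip2
  simp only [mul_comm]

/-- the integrand of the inner product -/
def ipd (G : Met K) (a b : Form2 K) (i : Ix) (y : E K) : ℝ :=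
  ∑ j, ∑ k, a.val i y (onb (G.g i y) j) (onb (G.g i y) k)
    * b.val i y (onb (G.g i y) j) (onb (G.g i y) k)

theorem ip2_eq (G : Met K) (a b : Form2 K) : ip2 G a b = IM G (ipd G a b) := rfl

theorem ipd_polar (G : Met K) (a b : Form2 K) (i : Ix) (y : E K) :
    ipd G a b i y = 1 / 2 * (sq2 (G.g i y) (fun u v => (a + b).val i y u v)
      + (-1) * (sq2 (G.g i y) (fun u v => a.val i y u v)
        + sq2 (G.g i y) (fun u v => b.val i y u v))) := by
  unfold ipd sq2
  simp only [← Finset.sum_add_distrib, Finset.mul_sum, Form2.add_val, add_apply]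
  refine Finset.sum_congr rfl fun j _ => Finset.sum_congr rfl fun k _ => ?_
  ring

theorem compat0_add {F F' : Ix → E K → ℝ} (h : Compat0 F) (h' : Compat0 F') :
    Compat0 (fun i y => F i y + F' i y) := fun i j y hy => by
  simp only
  rw [h i j y hy, h' i j y hy]

theorem compat0_smul {F : Ix → E K → ℝ} (r : ℝ) (h : Compat0 F) :
    Compat0 (fun i y => r * F i y) := fun i j y hy => by
  simp only
  rw [h i j y hy]

theorem compat0_ipd (G : Met K) (a b : Form2 K) : Compat0 (ipd G a b) := by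
  have h : ipd G a b = fun i y => 1 / 2 * (sq2 (G.g i y) (fun u v => (a + b).val i y u v)
      + (-1) * (sq2 (G.g i y) (fun u v => a.val i y u v)
        + sq2 (G.g i y) (fun u v => b.val i y u v))) :=
    funext fun i => funext fun y => ipd_polar G a b i y
  rw [h]
  exact compat0_smul _ (compat0_add (compat0_sq2 G (a + b).compat)
    (compat0_smul _ (compat0_add (compat0_sq2 G a.compat) (compat0_sq2 G b.compat))))

theorem cont_ipd (G : Met K) (a b : Form2 K) (i : Ix) : Continuous (ipd G a b i) := by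
  have h : ipd G a b i = fun y => 1 / 2 * (sq2 (G.g i y) (fun u v => (a + b).val i y u v)
      + (-1) * (sq2 (G.g i y) (fun u v => a.val i y u v)
        + sq2 (G.g i y) (fun u v => b.val i y u v))) :=
    funext fun y => ipd_polar G a b i y
  rw [h]
  exact continuous_const.mul ((cont_sq2 G i ((a + b).smooth i).continuous).add
    (continuous_const.mul ((cont_sq2 G i (a.smooth i).continuous).add
      (cont_sq2 G i (b.smooth i).continuous))))

theorem ip2_add (G : Met K) (a a' b : Form2 K) : ip2 G (a + a') b = ip2 G a b + ip2 G a' b := by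
  rw [ip2_eq, ip2_eq, ip2_eq, ← IM_add G (compat0_ipd G a b) (compat0_ipd G a' b)
    (cont_ipd G a b) (cont_ipd G a' b)]
  congr 1
  funext i y
  unfold ipd
  simp only [← Finset.sum_add_distrib, Form2.add_val, add_apply, add_mul]

theorem ip2_smul (G : Met K) (r : ℝ) (a b : Form2 K) : ip2 G (r • a) b = r * ip2 G a b := by
  rw [ip2_eq, ip2_eq, ← IM_smul]
  congr 1
  funext i y
  unfold ipd
  simp only [Finset.mul_sum, Form2.smul_val, smul_apply, smul_eq_mul, mul_assoc]

theorem nrmSq_nonneg (G : Met K) (b : Form2 K) : 0 ≤ nrmSq G b :=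
  IM_nonneg G fun _ _ => Finset.sum_nonneg fun _ _ => Finset.sum_nonneg fun _ _ => sq_nonneg _

theorem ip2_add_right (G : Met K) (a b b' : Form2 K) :
    ip2 G a (b + b') = ip2 G a b + ip2 G a b' := by
  rw [ip2_symm, ip2_add, ip2_symm G b a, ip2_symm G b' a]

theorem ip2_smul_right (G : Met K) (r : ℝ) (a b : Form2 K) :
    ip2 G a (r • b) = r * ip2 G a b := by
  rw [ip2_symm, ip2_smul, ip2_symm G b a]

theorem nrmSq_add_smul (G : Met K) (a b : Form2 K) (t : ℝ) :
    nrmSq G (a + t • b) = nrmSq G a + 2 * t * ip2 G a b + t ^ 2 * nrmSq G b := by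
  rw [← ip2_self, ← ip2_self, ← ip2_self, ip2_add, ip2_add_right, ip2_add_right, ip2_smul,
    ip2_smul, ip2_smul_right, ip2_smul_right, ip2_symm G b a]
  ring

theorem nrmSq_add (G : Met K) (a b : Form2 K) :
    nrmSq G (a + b) = nrmSq G a + 2 * ip2 G a b + nrmSq G b := by
  have h := nrmSq_add_smul G a b 1
  rw [one_smul] at h
  rw [h]
  ring

theorem nrmSq_sub (G : Met K) (a b : Form2 K) :
    nrmSq G (a - b) = nrmSq G a - 2 * ip2 G a b + nrmSq G b := by
  have h := nrmSq_add_smul G a b (-1)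
  rw [neg_one_smul, ← sub_eq_add_neg] at h
  rw [h]
  ring

theorem nrmSq_smul (G : Met K) (r : ℝ) (a : Form2 K) : nrmSq G (r • a) = r ^ 2 * nrmSq G a := by
  rw [← ip2_self, ← ip2_self, ip2_smul, ip2_smul_right]
  ring

theorem ip2_sq_le (G : Met K) (a b : Form2 K) : ip2 G a b ^ 2 ≤ nrmSq G a * nrmSq G b := by
  have h : ∀ t : ℝ, 0 ≤ nrmSq G b * (t * t) + 2 * ip2 G a b * t + nrmSq G a := by
    intro t
    have h1 := nrmSq_nonneg G (a + t • b)
    rw [nrmSq_add_smul] at h1
    linarith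
  have h2 := discrim_le_zero h
  unfold discrim at h2
  nlinarith

/-- `‖a + b‖² ≤ 2 ‖a‖² + 2 ‖b‖²` -/
theorem nrmSq_add_le (G : Met K) (a b : Form2 K) : nrmSq G (a + b) ≤ 2 * nrmSq G a + 2 * nrmSq G b := by
  have h1 := nrmSq_nonneg G (a - b)
  rw [nrmSq_sub] at h1
  rw [nrmSq_add]
  linarith

theorem exists_min (G : Met K) (f : Form2 K) : ∃ α : ℕ → Form1 K,
    (∀ n m, nrmSq G (dF (α n) - dF (α m)) ≤ 2 / ((n : ℝ) + 1) ^ 2 + 2 / ((m : ℝ) + 1) ^ 2) ∧
    ∀ n β, ip2 G (f + dF (α n)) (dF β) ^ 2 ≤ nrmSq G (dF β) / ((n : ℝ) + 1) ^ 2 := by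
  set S : Set ℝ := Set.range fun α : Form1 K => nrmSq G (f + dF α) with hS
  have hne : S.Nonempty := ⟨_, 0, rfl⟩
  have hbdd : BddBelow S := ⟨0, by
    rintro _ ⟨α, rfl⟩
    exact nrmSq_nonneg G _⟩
  have hmin : ∀ α : Form1 K, sInf S ≤ nrmSq G (f + dF α) := fun α => csInf_le hbdd ⟨α, rfl⟩
  have hex : ∀ n : ℕ, ∃ α : Form1 K, nrmSq G (f + dF α) < sInf S + 1 / ((n : ℝ) + 1) ^ 2 := by
    intro n
    obtain ⟨_, ⟨α, rfl⟩, h⟩ := exists_lt_of_csInf_lt hne
      (show sInf S < sInf S + 1 / ((n : ℝ) + 1) ^ 2 by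
        have : (0 : ℝ) < 1 / ((n : ℝ) + 1) ^ 2 := by positivity
        linarith)
    exact ⟨α, h⟩
  choose α hα using hex
  refine ⟨α, fun n m => ?_, fun n β => ?_⟩
  · have h1 := hα n
    have h2 := hα m
    have h3 := hmin ((1 / 2 : ℝ) • (α n + α m))
    have h4 : f + dF ((1 / 2 : ℝ) • (α n + α m))
        = (1 / 2 : ℝ) • ((f + dF (α n)) + (f + dF (α m))) := by
      rw [map_smul, map_add]
      module
    rw [h4, nrmSq_smul, nrmSq_add] at h3
    have h5 : dF (α n) - dF (α m) = (f + dF (α n)) - (f + dF (α m)) := by abel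
    rw [h5, nrmSq_sub]
    have h6 : 2 / ((n : ℝ) + 1) ^ 2 = 2 * (1 / ((n : ℝ) + 1) ^ 2) := by ring
    have h7 : 2 / ((m : ℝ) + 1) ^ 2 = 2 * (1 / ((m : ℝ) + 1) ^ 2) := by ring
    rw [h6, h7]
    linarith
  · have h : ∀ t : ℝ, 0 ≤ nrmSq G (dF β) * (t * t) + 2 * ip2 G (f + dF (α n)) (dF β) * t
        + 1 / ((n : ℝ) + 1) ^ 2 := by
      intro t
      have h1 := hmin (α n + t • β)
      have h2 : f + dF (α n + t • β) = (f + dF (α n)) + t • dF β := by
        rw [map_add, map_smul]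
        abel
      rw [h2, nrmSq_add_smul] at h1
      have h3 := hα n
      linarith
    have h2 := discrim_le_zero h
    unfold discrim at h2
    have h3 : nrmSq G (dF β) / ((n : ℝ) + 1) ^ 2 = nrmSq G (dF β) * (1 / ((n : ℝ) + 1) ^ 2) := by
      ring
    rw [h3]
    linarith

end Pool.Agent.H86.Nco
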