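import Pool.Agent.H86.Nco.HDiv
import Pool.Agent.H86.Nco.HMin

/-!
# Module HADJ: `codiff` is the adjoint of `d`

`∑_k (δa)(e_k) β(e_k) = - ∑_{jk} (∇_{e_j} a)(e_j, e_k) β(e_k) = - divg Z + ∑_{jk} a(e_j, e_k) (∇_{e_j} β)(e_k)` with
`g(Z, u) = ∑_k a(u, e_k) β(e_k)`, i.e. `Z` is minus the vector `a(β^♯, .)^♯`; smooth and compatible
(inverse of the metric).  `∑_{jk} a_{jk} (∇_jβ)_k = 1/2 ∑_{jk} a_{jk} (dβ)_{jk}` by antisymmetry of `a` and symmetry of
`chr`.  Then `int_divg`.
-/

open scoped Manifold ContDiff Bundle Topology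

noncomputable section

namespace Pool.Agent.H86.Nco

open Pool.Agent.H86.Anco MeasureTheory

set_option maxSynthPendingDepth 3

variable {K : ℕ}

namespace HAdj

/-- the bilinear form `v, w ↦ a(u, v) β(w)` -/
def bf (A : Bil K) (β : E K →L[ℝ] ℝ) (u : E K) : Bil K := (A u).smulRight β

lemma bf_apply (A : Bil K) (β : E K →L[ℝ] ℝ) (u v w : E K) : bf A β u v w = A u v * β w := by
  simp [bf]

/-- the one-form `u ↦ ∑_k a(u, e_k) β(e_k)` -/
def th (B A : Bil K) (β : E K →L[ℝ] ℝ) : E K →L[ℝ] ℝ :=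
  ∑ k, β (onb B k) • A.flip (onb B k)

lemma th_apply (B A : Bil K) (β : E K →L[ℝ] ℝ) (u : E K) :
    th B A β u = ∑ k, A u (onb B k) * β (onb B k) := by
  unfold th
  rw [sum_apply]
  refine Finset.sum_congr rfl fun k _ => ?_
  simp [mul_comm]

lemma th_eq (B A : Bil K) (β : E K →L[ℝ] ℝ) (u : E K) :
    th B A β u = ∑ k, bf A β u (onb B k) (onb B k) := by
  rw [th_apply]
  exact Finset.sum_congr rfl fun k _ => (bf_apply _ _ _ _ _).symm

/-- the one-form in the charts -/
def Th (G : Met K) (a : Form2 K) (β : Form1 K) (i : Ix) (y : E K) : E K →L[ℝ] ℝ :=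
  th (G.g i y) (a.val i y) (β.val i y)

lemma contDiff_bf (a : Form2 K) (β : Form1 K) (i : Ix) (u : E K) :
    ContDiff ℝ ∞ (fun y => bf (a.val i y) (β.val i y) u) := by
  rw [contDiff_clm_apply_iff]
  intro v
  rw [contDiff_clm_apply_iff]
  intro w
  simp only [bf_apply]
  exact (((a.smooth i).clm_apply contDiff_const).clm_apply contDiff_const).mul
    ((β.smooth i).clm_apply contDiff_const)

lemma contDiff_Th (G : Met K) (a : Form2 K) (β : Form1 K) (i : Ix) :
    ContDiff ℝ ∞ (Th G a β i) := by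
  rw [contDiff_clm_apply_iff]
  intro u
  simp only [Th, th_eq]
  exact contDiff_trace (G.smooth i) (G.posDef i) (contDiff_bf a β i u)

/-- the vector field dual to `Th` -/
def Z (G : Met K) (a : Form2 K) (β : Form1 K) (i : Ix) (y : E K) : E K :=
  ∑ j, ∑ k, (ginv (G.g i y) j k * Th G a β i y (bs K j)) • bs K k

lemma contDiff_Z (G : Met K) (a : Form2 K) (β : Form1 K) (i : Ix) :
    ContDiff ℝ ∞ (Z G a β i) := by
  unfold Z
  refine ContDiff.sum fun j _ => ContDiff.sum fun k _ => ?_
  exact ((contDiff_ginv (G.smooth i) (G.posDef i) j k).mul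
    ((contDiff_Th G a β i).clm_apply contDiff_const)).smul contDiff_const

lemma g_Z (G : Met K) (a : Form2 K) (β : Form1 K) (i : Ix) (y u : E K) :
    G.g i y (Z G a β i y) u = Th G a β i y u := by
  have hB := G.posDef i y
  set θ := Th G a β i y with hθ
  have h1 := trace_eq hB (θ.smulRight ((G.g i y).flip u))
  have h2 : ∀ v w : E K, θ.smulRight ((G.g i y).flip u) v w = θ v * G.g i y w u := by
    intro v w; simp
  simp only [h2] at h1
  have h3 : G.g i y (Z G a β i y) u =
      ∑ j, ∑ k, ginv (G.g i y) j k * (θ (bs K j) * G.g i y (bs K k) u) := by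
    unfold Z
    rw [map_sum, sum_apply]
    refine Finset.sum_congr rfl fun j _ => ?_
    rw [map_sum, sum_apply]
    refine Finset.sum_congr rfl fun k _ => ?_
    rw [map_smul]
    simp only [smul_apply, smul_eq_mul, ← hθ]
    ring
  rw [h3, ← h1]
  conv_rhs => rw [onb_expand hB u]
  rw [map_sum]
  refine Finset.sum_congr rfl fun j _ => ?_
  rw [map_smul, smul_eq_mul, G.symm i y (onb (G.g i y) j) u]
  ring

lemma Th_compat (G : Met K) (a : Form2 K) (β : Form1 K) : Compat1 (Th G a β) := by
  intro i j y hy u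
  rw [Th, Th, th_apply, th_eq]
  rw [← trace_indep (G.posDef j (tr i j y)) (bf (a.val j (tr i j y)) (β.val j (tr i j y))
    (fderiv ℝ (tr i j) y u)) (fun k => fderiv ℝ (tr i j) y (onb (G.g i y) k))]
  · refine Finset.sum_congr rfl fun k _ => ?_
    rw [bf_apply, a.compat i j y hy, β.compat i j y hy]
  · intro p q
    rw [← G.compat i j y hy]
    exact onb_spec (G.posDef i y) p q

lemma nondeg {B : Bil K} (hB : PosDef B) {v w : E K} (h : ∀ u, B v u = B w u) : v = w := by
  by_contra hne
  have h1 := hB.pos (v - w) (sub_ne_zero.2 hne)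
  have h2 : B (v - w) (v - w) = B v (v - w) - B w (v - w) := by
    have h3 : B (v - w) = B v - B w := map_sub B v w
    rw [h3]
    rfl
  rw [h2, h (v - w)] at h1
  simp at h1

lemma Z_compat (G : Met K) (a : Form2 K) (β : Form1 K) : CompatV (Z G a β) := by
  intro i j y hy
  refine nondeg (G.posDef j (tr i j y)) fun v => ?_
  have hy' := tr_mem i j hy
  have hv : fderiv ℝ (tr i j) y (fderiv ℝ (tr j i) (tr i j y) v) = v := by
    have := fderiv_tr_tr j i hy' v
    rwa [tr_tr i j hy] at this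
  rw [g_Z]
  conv_rhs => rw [← hv]
  rw [← G.compat i j y hy, g_Z, Th_compat G a β i j y hy, hv]

lemma eval2 {b : E K → Bil K} {b' : E K →L[ℝ] Bil K} {y : E K} (hb : HasFDerivAt b b' y)
    (v w : E K) : HasFDerivAt (fun z => b z v w) ((b'.flip v).flip w) y := by
  have h1 : HasFDerivAt (fun z => b z v) (b'.flip v) y := by
    have := hb.clm_apply (hasFDerivAt_const v y)
    simpa using this
  have := h1.clm_apply (hasFDerivAt_const w y)
  simpa using this

lemma eval1 {b : E K → E K →L[ℝ] ℝ} {b' : E K →L[ℝ] E K →L[ℝ] ℝ} {y : E K}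
    (hb : HasFDerivAt b b' y) (v : E K) : HasFDerivAt (fun z => b z v) (b'.flip v) y := by
  have := hb.clm_apply (hasFDerivAt_const v y)
  simpa using this

lemma hasF {X : Type*} [NormedAddCommGroup X] [NormedSpace ℝ X] {f : E K → X}
    (hf : ContDiff ℝ ∞ f) (y : E K) : HasFDerivAt f (fderiv ℝ f y) y :=
  ((hf.differentiable (by simp)).differentiableAt).hasFDerivAt

lemma fderiv_bf (a : Form2 K) (β : Form1 K) (i : Ix) (y u v p q : E K) :
    fderiv ℝ (fun z => bf (a.val i z) (β.val i z) u) y v p q =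
      fderiv ℝ (a.val i) y v u p * β.val i y q + a.val i y u p * fderiv ℝ (β.val i) y v q := by
  have h1 := eval2 (hasF (contDiff_bf a β i u) y) p q
  simp only [bf_apply] at h1
  have h2 := (eval2 (hasF (a.smooth i) y) u p).mul (eval1 (hasF (β.smooth i) y) q)
  have h3 := congrArg (fun L : E K →L[ℝ] ℝ => L v) (h1.unique h2)
  simp only [add_apply, smul_apply,
    ContinuousLinearMap.flip_apply, smul_eq_mul] at h3
  rw [h3]
  ring

lemma fderiv_Th (G : Met K) (a : Form2 K) (β : Form1 K) (i : Ix) (y v u : E K) :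
    fderiv ℝ (Th G a β i) y v u = ∑ k, (fderiv ℝ (a.val i) y v u (onb (G.g i y) k)
        * β.val i y (onb (G.g i y) k)
      + a.val i y u (onb (G.g i y) k) * fderiv ℝ (β.val i) y v (onb (G.g i y) k)
      - a.val i y u (chr (G.g i) y v (onb (G.g i y) k)) * β.val i y (onb (G.g i y) k)
      - a.val i y u (onb (G.g i y) k) * β.val i y (chr (G.g i) y v (onb (G.g i y) k))) := by
  have h1 := eval1 (hasF (contDiff_Th G a β i) y) u
  have h2 : (fun z => Th G a β i z u) = fun z => ∑ k, bf (a.val i z) (β.val i z) u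
      (onb (G.g i z) k) (onb (G.g i z) k) := by
    funext z; rw [Th, th_eq]
  have h3 := trD G i (contDiff_bf a β i u) y v
  rw [← h2, h1.fderiv, ContinuousLinearMap.flip_apply] at h3
  rw [h3]
  refine Finset.sum_congr rfl fun k _ => ?_
  rw [fderiv_bf, bf_apply, bf_apply]

lemma g_DZ (G : Met K) (a : Form2 K) (β : Form1 K) (i : Ix) (y v u : E K) :
    G.g i y (fderiv ℝ (Z G a β i) y v + chr (G.g i) y v (Z G a β i y)) u =
      fderiv ℝ (Th G a β i) y v u - Th G a β i y (chr (G.g i) y v u) := by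
  have h1 := eval1 (hasF (contDiff_Th G a β i) y) u
  have h2 : (fun z => Th G a β i z u) = fun z => G.g i z (Z G a β i z) u := by
    funext z; rw [g_Z]
  have h3 := ((hasF (G.smooth i) y).clm_apply (hasF (contDiff_Z G a β i) y)).clm_apply
    (hasFDerivAt_const u y)
  rw [h2] at h1
  have h4 := congrArg (fun L : E K →L[ℝ] ℝ => L v) (h1.unique h3)
  simp only [add_apply, ContinuousLinearMap.comp_apply,
    ContinuousLinearMap.flip_apply, zero_apply, map_zero, zero_add] at h4
  rw [fderiv_g_eq, g_Z] at h4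
  rw [map_add, add_apply, h4]
  ring

/-- the integrand of `ip2 G a (dF β)` -/
def Pf (G : Met K) (a b : Form2 K) (i : Ix) (y : E K) : ℝ :=
  ∑ j, ∑ k, a.val i y (onb (G.g i y) j) (onb (G.g i y) k)
    * b.val i y (onb (G.g i y) j) (onb (G.g i y) k)

lemma Pf_eq (G : Met K) (a b : Form2 K) (i : Ix) (y : E K) :
    Pf G a b i y = (sq2 (G.g i y) (fun u v => (a + b).val i y u v)
      + (-1) * sq2 (G.g i y) (fun u v => a.val i y u v)
      + (-1) * sq2 (G.g i y) (fun u v => b.val i y u v)) / 2 := by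
  unfold Pf sq2
  rw [eq_div_iff (by norm_num : (2 : ℝ) ≠ 0), Finset.sum_mul, Finset.mul_sum, Finset.mul_sum,
    ← Finset.sum_add_distrib, ← Finset.sum_add_distrib]
  refine Finset.sum_congr rfl fun j _ => ?_
  rw [Finset.sum_mul, Finset.mul_sum, Finset.mul_sum, ← Finset.sum_add_distrib,
    ← Finset.sum_add_distrib]
  refine Finset.sum_congr rfl fun k _ => ?_
  simp only [Form2.add_val, add_apply]
  ring

lemma Pf_compat (G : Met K) (a b : Form2 K) : Compat0 (Pf G a b) := by
  intro i j y hy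
  rw [Pf_eq, Pf_eq]
  have h1 := compat0_sq2 G (a + b).compat i j y hy
  have h2 := compat0_sq2 G a.compat i j y hy
  have h3 := compat0_sq2 G b.compat i j y hy
  simp only at h1 h2 h3
  rw [h1, h2, h3]

lemma Pf_cont (G : Met K) (a b : Form2 K) (i : Ix) : Continuous (Pf G a b i) := by
  have h : Pf G a b i = fun y => (sq2 (G.g i y) (fun u v => (a + b).val i y u v)
      + (-1) * sq2 (G.g i y) (fun u v => a.val i y u v)
      + (-1) * sq2 (G.g i y) (fun u v => b.val i y u v)) / 2 := by
    funext y; exact Pf_eq G a b i y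
  rw [h]
  have h1 := cont_sq2 G i ((a + b).smooth i).continuous
  have h2 := cont_sq2 G i (a.smooth i).continuous
  have h3 := cont_sq2 G i (b.smooth i).continuous
  exact ((h1.add (continuous_const.mul h2)).add (continuous_const.mul h3)).div_const 2

lemma half (G : Met K) (a : Form2 K) (β : Form1 K) (i : Ix) (y : E K) :
    ∑ j, ∑ k, a.val i y (onb (G.g i y) j) (onb (G.g i y) k) *
      (fderiv ℝ (β.val i) y (onb (G.g i y) j) (onb (G.g i y) k)
        - β.val i y (chr (G.g i) y (onb (G.g i y) j) (onb (G.g i y) k))) =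
      1 / 2 * Pf G a (dF β) i y := by
  set e := onb (G.g i y)
  set N : Fin (K + 4) → Fin (K + 4) → ℝ := fun j k =>
    fderiv ℝ (β.val i) y (e j) (e k) - β.val i y (chr (G.g i) y (e j) (e k)) with hN
  have h1 : ∑ j, ∑ k, a.val i y (e j) (e k) * N k j = - ∑ j, ∑ k, a.val i y (e j) (e k) * N j k := by
    rw [Finset.sum_comm, ← Finset.sum_neg_distrib]
    refine Finset.sum_congr rfl fun j _ => ?_
    rw [← Finset.sum_neg_distrib]
    refine Finset.sum_congr rfl fun k _ => ?_
    rw [a.alt i y (e k) (e j)]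
    ring
  have h2 : Pf G a (dF β) i y = ∑ j, ∑ k, a.val i y (e j) (e k) * N j k
      - ∑ j, ∑ k, a.val i y (e j) (e k) * N k j := by
    unfold Pf
    rw [← Finset.sum_sub_distrib]
    refine Finset.sum_congr rfl fun j _ => ?_
    rw [← Finset.sum_sub_distrib]
    refine Finset.sum_congr rfl fun k _ => ?_
    rw [dF_val]
    simp only [hN, d1, sub_apply, ContinuousLinearMap.flip_apply]
    rw [chrG_symm G i y (e k) (e j)]
    ring
  rw [h2, h1]
  simp only [hN]
  ring

lemma divg_Z (G : Met K) (a : Form2 K) (β : Form1 K) (i : Ix) (y : E K) :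
    divg G (Z G a β) i y =
      - ∑ j, codiff G a.val i y (onb (G.g i y) j) * β.val i y (onb (G.g i y) j)
        + 1 / 2 * Pf G a (dF β) i y := by
  rw [← half]
  unfold divg codiff
  have h1 : ∀ j, G.g i y (fderiv ℝ (Z G a β i) y (onb (G.g i y) j)
      + chr (G.g i) y (onb (G.g i y) j) (Z G a β i y)) (onb (G.g i y) j) =
      ∑ k, (cd G a.val i y (onb (G.g i y) j) (onb (G.g i y) j) (onb (G.g i y) k)
          * β.val i y (onb (G.g i y) k)
        + a.val i y (onb (G.g i y) j) (onb (G.g i y) k) *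
          (fderiv ℝ (β.val i) y (onb (G.g i y) j) (onb (G.g i y) k)
            - β.val i y (chr (G.g i) y (onb (G.g i y) j) (onb (G.g i y) k)))) := by
    intro j
    rw [g_DZ, fderiv_Th, Th, th_apply, ← Finset.sum_sub_distrib]
    refine Finset.sum_congr rfl fun k _ => ?_
    unfold cd
    ring
  rw [Finset.sum_congr rfl fun j _ => h1 j]
  simp only [Finset.sum_add_distrib]
  congr 1
  rw [Finset.sum_comm, ← Finset.sum_neg_distrib]
  refine Finset.sum_congr rfl fun k _ => ?_
  rw [neg_mul, neg_neg, Finset.sum_mul]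

end HAdj

open HAdj in
theorem adjoint (G : Met K) (a : Form2 K) (β : Form1 K) :
    IM G (fun i y => ∑ j, codiff G a.val i y (onb (G.g i y) j) * β.val i y (onb (G.g i y) j)) =
      ip2 G a (dF β) / 2 := by
  have hZ := contDiff_Z G a β
  have hc := Z_compat G a β
  have h0 := int_divg G hZ hc
  have h1 : (fun (i : Ix) (y : E K) => ∑ j, codiff G a.val i y (onb (G.g i y) j)
      * β.val i y (onb (G.g i y) j)) =
      fun i y => 1 / 2 * Pf G a (dF β) i y + (-1) * divg G (Z G a β) i y := by
    funext i y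
    rw [divg_Z]
    ring
  have hP : Compat0 (fun (i : Ix) (y : E K) => 1 / 2 * Pf G a (dF β) i y) := by
    intro i j y hy
    simp only
    rw [Pf_compat G a (dF β) i j y hy]
  have hD : Compat0 (fun (i : Ix) (y : E K) => (-1) * divg G (Z G a β) i y) := by
    intro i j y hy
    simp only
    rw [compat0_divg G hZ hc i j y hy]
  rw [h1, IM_add G hP hD (fun i => continuous_const.mul (Pf_cont G a (dF β) i))
    (fun i => continuous_const.mul (cont_divg G hZ i)), IM_smul, IM_smul, h0]
  have h2 : ip2 G a (dF β) = IM G (Pf G a (dF β)) := rfl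
  rw [h2]
  ring

end Pool.Agent.H86.Nco
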