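import Pool.Agent.H86.Nco.SConn

/-!
# Module HALG: contractions with the metric

`onb_spec`: an orthonormal basis exists (Gram-Schmidt for the inner product `B`, `finrank_E`), so
`Classical.epsilon_spec` applies.
`trace_eq`: `∑ₐ eₐ ⊗ eₐ = ∑ⱼₖ ginvⱼₖ bsⱼ ⊗ bsₖ`: write `bs j = ∑ₐ B (bs j) eₐ • eₐ`, so `gram = Mᵀ M`-like, and
invert; or check that both sides give the same bilinear pairing with all `B v ⊗ B w`.
`contDiff_ginv`, `contDiff_vol`: entries of the inverse matrix are smooth because `det (gram) > 0`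
(`Matrix.inv_def`, `Matrix.det_apply`, ...; `√` of a positive smooth function).
`sq_le`: on a compact set all norms are comparable: by `trace_eq` and compactness, or: the quotient
of two positive definite quadratic forms depending continuously on `y`.
`chr_congr'`, `cdL`, `d2L`, `codiffL`: bundled versions of `cd`, `d2`, `codiff` with smooth dependence
on the point (use `chrB` from `Anco/Natural.lean`, `isMetricAt`); for `codiffL` use `trace_eq`.
-/

open scoped Manifold ContDiff Bundle Topology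

noncomputable section

namespace Pool.Agent.H86.Nco

open Pool.Agent.H86.Anco

set_option maxSynthPendingDepth 3

variable {K : ℕ}

/-- symmetric positive definite forms -/
structure PosDef (B : Bil K) : Prop where
  symm : ∀ a b, B a b = B b a
  pos : ∀ a, a ≠ 0 → 0 < B a a

theorem Met.posDef (G : Met K) (i : Ix) (y : E K) : PosDef (G.g i y) := ⟨G.symm i y, G.pos i y⟩

namespace HAlg

theorem exists_onb_gen {X : Type*} [AddCommGroup X] [Module ℝ X] [FiniteDimensional ℝ X] (n : ℕ)
    (hn : Module.finrank ℝ X = n) (B : X → X → ℝ) (hadd : ∀ x y z, B (x + y) z = B x z + B y z)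
    (hsmul : ∀ (r : ℝ) x y, B (r • x) y = r * B x y) (hsymm : ∀ x y, B x y = B y x)
    (hpos : ∀ x, x ≠ 0 → 0 < B x x) :
    ∃ e : Fin n → X, ∀ j k, B (e j) (e k) = if j = k then 1 else 0 := by
  have hzero : B 0 0 = 0 := by
    have := hsmul 0 0 0
    simpa using this
  let c : InnerProductSpace.Core ℝ X :=
    { inner := fun x y => B x y
      conj_inner_symm := fun x y => by simpa using hsymm y x
      re_inner_nonneg := fun x => by
        by_cases hx : x = 0
        · subst hx; simp [hzero]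
        · simpa using (hpos x hx).le
      add_left := fun x y z => hadd x y z
      smul_left := fun x y r => by simpa using hsmul r x y
      definite := fun x hx => by
        by_contra h
        exact absurd hx (hpos x h).ne' }
  let i1 : NormedAddCommGroup X := c.toNormedAddCommGroup
  let i2 : InnerProductSpace ℝ X := InnerProductSpace.ofCore c.toCore
  let b := (stdOrthonormalBasis ℝ X).reindex (finCongr hn)
  refine ⟨fun j => b j, fun j k => ?_⟩
  have h := b.orthonormal
  rw [orthonormal_iff_ite] at h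
  exact h j k

/-- orthonormal families -/
def IsOnb (B : Bil K) (e : Fin (K + 4) → E K) : Prop :=
  ∀ j k, B (e j) (e k) = if j = k then 1 else 0

theorem IsOnb.expand {B : Bil K} (hB : PosDef B) {e : Fin (K + 4) → E K} (he : IsOnb B e)
    (v : E K) : v = ∑ j, B v (e j) • e j := by
  have hli : LinearIndependent ℝ e := by
    rw [Fintype.linearIndependent_iff]
    intro g hg j
    have h1 : B (∑ i, g i • e i) (e j) = g j := by
      rw [map_sum, sum_apply, Finset.sum_eq_single_of_mem j (Finset.mem_univ j)]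
      · rw [map_smul, smul_apply, he j j, if_pos rfl, smul_eq_mul, mul_one]
      · intro i _ hij
        rw [map_smul, smul_apply, he i j, if_neg hij, smul_zero]
    rw [hg] at h1
    simpa using h1.symm
  have hspan : Submodule.span ℝ (Set.range e) = ⊤ :=
    hli.span_eq_top_of_card_eq_finrank' (by rw [Fintype.card_fin]; exact finrank_E.symm)
  set w := v - ∑ j, B v (e j) • e j with hw
  have hwk : ∀ k, B w (e k) = 0 := by
    intro k
    rw [hw, map_sub, map_sum, sub_apply, sum_apply,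
      Finset.sum_eq_single_of_mem k (Finset.mem_univ k)]
    · rw [map_smul, smul_apply, he k k, if_pos rfl, smul_eq_mul, mul_one,
        sub_self]
    · intro i _ hik
      rw [map_smul, smul_apply, he i k, if_neg hik, smul_zero]
  have hall : ∀ x, B w x = 0 := by
    intro x
    have hx : x ∈ Submodule.span ℝ (Set.range e) := by rw [hspan]; trivial
    induction hx using Submodule.span_induction with
    | mem x h =>
      obtain ⟨k, rfl⟩ := h
      exact hwk k
    | zero => simp
    | add x y _ _ hx hy => rw [map_add, hx, hy, add_zero]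
    | smul r x _ hx => rw [map_smul, hx, smul_zero]
  by_contra hne
  have hw0 : w ≠ 0 := sub_ne_zero.2 hne
  exact absurd (hall w) (hB.pos w hw0).ne'

theorem IsOnb.parseval {B : Bil K} (hB : PosDef B) {e : Fin (K + 4) → E K} (he : IsOnb B e)
    (v w : E K) : B v w = ∑ j, B v (e j) * B w (e j) := by
  conv_lhs => rw [he.expand hB w]
  rw [map_sum]
  apply Finset.sum_congr rfl
  intro j _
  rw [map_smul, smul_eq_mul, mul_comm]

/-- expansion of a bilinear form in two linear combinations -/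
theorem bil_expand {ι : Type*} [Fintype ι] (β : Bil K) (r : ι → ℝ) (f : ι → E K) :
    β (∑ k, r k • f k) (∑ l, r l • f l) = ∑ k, ∑ l, r k * r l * β (f k) (f l) := by
  have h1 : β (∑ k, r k • f k) = ∑ k, r k • β (f k) := by
    rw [map_sum]; simp only [map_smul]
  rw [h1, sum_apply]
  apply Finset.sum_congr rfl
  intro k _
  rw [smul_apply, map_sum, Finset.smul_sum]
  apply Finset.sum_congr rfl
  intro l _
  rw [map_smul, smul_eq_mul, smul_eq_mul]
  ring

theorem trace_indep' {B : Bil K} (hB : PosDef B) (β : Bil K) {e f : Fin (K + 4) → E K}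
    (he : IsOnb B e) (hf : IsOnb B f) : ∑ j, β (e j) (e j) = ∑ j, β (f j) (f j) := by
  have h1 : ∀ j, β (e j) (e j) = ∑ k, ∑ l, B (e j) (f k) * B (e j) (f l) * β (f k) (f l) := by
    intro j
    conv_lhs => rw [hf.expand hB (e j)]
    exact bil_expand β _ f
  rw [Finset.sum_congr rfl fun j _ => h1 j, Finset.sum_comm]
  apply Finset.sum_congr rfl
  intro k _
  rw [Finset.sum_comm, Finset.sum_eq_single_of_mem k (Finset.mem_univ k)]
  · rw [← Finset.sum_mul]
    have := he.parseval hB (f k) (f k)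
    rw [hf k k, if_pos rfl] at this
    have h2 : ∑ i, B (e i) (f k) * B (e i) (f k) = 1 := by
      rw [this]
      apply Finset.sum_congr rfl
      intro i _
      rw [hB.symm (e i) (f k)]
    rw [h2, one_mul]
  · intro l _ hlk
    rw [← Finset.sum_mul]
    have := he.parseval hB (f k) (f l)
    rw [hf k l, if_neg (Ne.symm hlk)] at this
    have h2 : ∑ i, B (e i) (f k) * B (e i) (f l) = 0 := by
      rw [this]
      apply Finset.sum_congr rfl
      intro i _
      rw [hB.symm (e i) (f k), hB.symm (e i) (f l)]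
    rw [h2, zero_mul]

end HAlg

open HAlg

theorem onb_spec {B : Bil K} (hB : PosDef B) (j k : Fin (K + 4)) :
    B (onb B j) (onb B k) = if j = k then 1 else 0 := by
  have h := Classical.epsilon_spec (exists_onb_gen (K + 4) (finrank_E (K := K))
    (fun x y => B x y) (fun x y z => by simp) (fun r x y => by simp) hB.symm hB.pos)
  exact h j k

theorem HAlg.isOnb {B : Bil K} (hB : PosDef B) : IsOnb B (onb B) := onb_spec hB

theorem onb_expand {B : Bil K} (hB : PosDef B) (v : E K) :
    v = ∑ j, B v (onb B j) • onb B j := (isOnb hB).expand hB v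

/-- the inverse of the Gram matrix of the fixed basis -/
def ginv (B : Bil K) : Matrix (Fin (K + 4)) (Fin (K + 4)) ℝ :=
  (Matrix.of fun j k => B (bs K j) (bs K k))⁻¹

namespace HAlg

/-- the Gram matrix -/
def gram (B : Bil K) : Matrix (Fin (K + 4)) (Fin (K + 4)) ℝ :=
  Matrix.of fun j k => B (bs K j) (bs K k)

/-- coordinates of the orthonormal basis -/
def RR (B : Bil K) : Matrix (Fin (K + 4)) (Fin (K + 4)) ℝ :=
  Matrix.of fun a j => (bs K).repr (onb B a) j

/-- `B (bs j) (onb a)` -/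
def MM (B : Bil K) : Matrix (Fin (K + 4)) (Fin (K + 4)) ℝ :=
  Matrix.of fun j a => B (bs K j) (onb B a)

theorem onb_eq (B : Bil K) (a : Fin (K + 4)) : onb B a = ∑ j, RR B a j • bs K j :=
  ((bs K).sum_repr (onb B a)).symm

theorem bs_eq {B : Bil K} (hB : PosDef B) (j : Fin (K + 4)) : bs K j = ∑ a, MM B j a • onb B a :=
  onb_expand hB (bs K j)

theorem gram_eq {B : Bil K} (hB : PosDef B) : gram B = MM B * (MM B).transpose := by
  ext j k
  rw [Matrix.mul_apply]
  exact (isOnb hB).parseval hB (bs K j) (bs K k)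

theorem RR_mul_MM {B : Bil K} (hB : PosDef B) : RR B * MM B = 1 := by
  ext a c
  rw [Matrix.mul_apply, Matrix.one_apply]
  have h := onb_spec hB a c
  conv_lhs at h => rw [onb_eq B a]
  rw [map_sum, sum_apply] at h
  rw [← h]
  apply Finset.sum_congr rfl
  intro j _
  rw [map_smul, smul_apply, smul_eq_mul]
  rfl

theorem MM_mul_RR {B : Bil K} (hB : PosDef B) : MM B * RR B = 1 :=
  mul_eq_one_comm.1 (RR_mul_MM hB)

theorem gram_mul {B : Bil K} (hB : PosDef B) : gram B * ((RR B).transpose * RR B) = 1 := by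
  rw [gram_eq hB]
  calc MM B * (MM B).transpose * ((RR B).transpose * RR B)
      = MM B * ((RR B * MM B).transpose * RR B) := by
        rw [Matrix.transpose_mul]
        simp only [Matrix.mul_assoc]
    _ = 1 := by rw [RR_mul_MM hB, Matrix.transpose_one, Matrix.one_mul, MM_mul_RR hB]

theorem ginv_eq {B : Bil K} (hB : PosDef B) : ginv B = (RR B).transpose * RR B :=
  Matrix.inv_eq_right_inv (gram_mul hB)

theorem det_gram_pos {B : Bil K} (hB : PosDef B) : 0 < (gram B).det := by
  have h1 : (gram B).det = (MM B).det ^ 2 := by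
    rw [gram_eq hB, Matrix.det_mul, Matrix.det_transpose, sq]
  have h2 : (RR B).det * (MM B).det = 1 := by
    rw [← Matrix.det_mul, RR_mul_MM hB, Matrix.det_one]
  have h3 : (MM B).det ≠ 0 := by
    intro h
    rw [h, mul_zero] at h2
    exact zero_ne_one h2
  rw [h1]
  positivity

end HAlg

/-- contractions in terms of the fixed basis -/
theorem trace_eq {B : Bil K} (hB : PosDef B) (β : Bil K) :
    ∑ j, β (onb B j) (onb B j) = ∑ j, ∑ k, ginv B j k * β (bs K j) (bs K k) := by
  have h1 : ∀ a, β (onb B a) (onb B a) =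
      ∑ j, ∑ k, RR B a j * RR B a k * β (bs K j) (bs K k) := by
    intro a
    conv_lhs => rw [onb_eq B a]
    exact bil_expand β _ _
  rw [Finset.sum_congr rfl fun a _ => h1 a, Finset.sum_comm]
  apply Finset.sum_congr rfl
  intro j _
  rw [Finset.sum_comm]
  apply Finset.sum_congr rfl
  intro k _
  rw [← Finset.sum_mul, ginv_eq hB, Matrix.mul_apply]
  rfl

/-- contractions do not depend on the orthonormal basis -/
theorem trace_indep {B : Bil K} (hB : PosDef B) (β : Bil K) (e : Fin (K + 4) → E K)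
    (he : ∀ j k, B (e j) (e k) = if j = k then 1 else 0) :
    ∑ j, β (e j) (e j) = ∑ j, β (onb B j) (onb B j) :=
  trace_indep' hB β he (isOnb hB)

namespace HAlg

theorem contDiff_det {X : Type*} [NormedAddCommGroup X] [NormedSpace ℝ X] {n : ℕ}
    {A : X → Matrix (Fin n) (Fin n) ℝ} (hA : ∀ i j, ContDiff ℝ ∞ (fun y => A y i j)) :
    ContDiff ℝ ∞ (fun y => (A y).det) := by
  simp only [Matrix.det_apply]
  apply ContDiff.sum
  intro σ _
  have h : ContDiff ℝ ∞ (fun y => ∏ i, A y (σ i) i) := contDiff_prod fun i _ => hA _ _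
  have h2 : ∀ y, Equiv.Perm.sign σ • ∏ i, A y (σ i) i =
      ((Equiv.Perm.sign σ : ℤ) : ℝ) * ∏ i, A y (σ i) i := by
    intro y
    rw [Units.smul_def, zsmul_eq_mul]
  simp only [h2]
  exact contDiff_const.mul h

theorem contDiff_gram {g : E K → Bil K} (hg : ContDiff ℝ ∞ g) (j k : Fin (K + 4)) :
    ContDiff ℝ ∞ (fun y => gram (g y) j k) :=
  (hg.clm_apply contDiff_const).clm_apply contDiff_const

theorem contDiff_det_gram {g : E K → Bil K} (hg : ContDiff ℝ ∞ g) :
    ContDiff ℝ ∞ (fun y => (gram (g y)).det) :=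
  contDiff_det fun j k => contDiff_gram hg j k

end HAlg

theorem contDiff_ginv {g : E K → Bil K} (hg : ContDiff ℝ ∞ g) (hp : ∀ y, PosDef (g y))
    (j k : Fin (K + 4)) : ContDiff ℝ ∞ (fun y => ginv (g y) j k) := by
  have h1 : ∀ y, ginv (g y) j k = ((gram (g y)).det)⁻¹ *
      ((gram (g y)).updateRow k (Pi.single j 1)).det := by
    intro y
    change ((gram (g y))⁻¹) j k = _
    rw [Matrix.inv_def, Matrix.smul_apply, Matrix.adjugate_apply, Ring.inverse_eq_inv', smul_eq_mul]
  simp only [h1]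
  apply ContDiff.mul
  · exact (contDiff_det_gram hg).inv fun y => (det_gram_pos (hp y)).ne'
  · apply contDiff_det
    intro a c
    by_cases hak : a = k
    · subst hak
      simp only [Matrix.updateRow_self]
      exact contDiff_const
    · simp only [Matrix.updateRow_ne hak]
      exact contDiff_gram hg a c

theorem vol_pos {B : Bil K} (hB : PosDef B) : 0 < vol B :=
  Real.sqrt_pos.2 (det_gram_pos hB)

theorem contDiff_vol {g : E K → Bil K} (hg : ContDiff ℝ ∞ g) (hp : ∀ y, PosDef (g y)) :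
    ContDiff ℝ ∞ (fun y => vol (g y)) :=
  (contDiff_det_gram hg).sqrt fun y => (det_gram_pos (hp y)).ne'

/-- contractions of two forms, as smooth functions -/
theorem contDiff_trace {g : E K → Bil K} (hg : ContDiff ℝ ∞ g) (hp : ∀ y, PosDef (g y))
    {β : E K → Bil K} (hβ : ContDiff ℝ ∞ β) :
    ContDiff ℝ ∞ (fun y => ∑ j, β y (onb (g y) j) (onb (g y) j)) := by
  simp only [trace_eq (hp _)]
  apply ContDiff.sum
  intro j _
  apply ContDiff.sum
  intro k _
  exact (contDiff_ginv hg hp j k).mul ((hβ.clm_apply contDiff_const).clm_apply contDiff_const)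

/-- trilinear forms -/
abbrev Tri (K : ℕ) : Type := E K →L[ℝ] Bil K

/-- full squared norms with respect to the fixed basis -/
def nb1 (θ : E K → ℝ) : ℝ := ∑ j, θ (bs K j) ^ 2
def nb2 (b : E K → E K → ℝ) : ℝ := ∑ j, ∑ k, b (bs K j) (bs K k) ^ 2
def nb3 (T : E K → E K → E K → ℝ) : ℝ := ∑ j, ∑ k, ∑ l, T (bs K j) (bs K k) (bs K l) ^ 2

namespace HAlg

abbrev Idx (K : ℕ) : Type := Fin (K + 4)

theorem fro_one {p q : Idx K → E K} {R : Idx K → Idx K → ℝ} (h : ∀ a, p a = ∑ j, R a j • q j)
    (θ : E K →L[ℝ] ℝ) : ∑ a, θ (p a) ^ 2 ≤ (∑ a, ∑ j, R a j ^ 2) * ∑ j, θ (q j) ^ 2 := by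
  rw [Finset.sum_mul]
  apply Finset.sum_le_sum
  intro a _
  have h1 : θ (p a) = ∑ j, R a j * θ (q j) := by
    rw [h a, map_sum]
    apply Finset.sum_congr rfl
    intro j _
    rw [map_smul, smul_eq_mul]
  rw [h1]
  exact Finset.sum_mul_sq_le_sq_mul_sq _ _ _

theorem fro_two {p q : Idx K → E K} {R : Idx K → Idx K → ℝ} (h : ∀ a, p a = ∑ j, R a j • q j)
    (b : Bil K) : ∑ a, ∑ c, b (p a) (p c) ^ 2 ≤
      (∑ a, ∑ j, R a j ^ 2) ^ 2 * ∑ j, ∑ k, b (q j) (q k) ^ 2 := by
  set ρ := ∑ a, ∑ j, R a j ^ 2 with hρ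
  have hρ0 : 0 ≤ ρ := by positivity
  calc ∑ a, ∑ c, b (p a) (p c) ^ 2 ≤ ∑ a, ρ * ∑ k, b (p a) (q k) ^ 2 :=
        Finset.sum_le_sum fun a _ => fro_one h (b (p a))
    _ = ρ * ∑ k, ∑ a, b.flip (q k) (p a) ^ 2 := by
        rw [← Finset.mul_sum, Finset.sum_comm]
        rfl
    _ ≤ ρ * ∑ k, ρ * ∑ j, b.flip (q k) (q j) ^ 2 :=
        mul_le_mul_of_nonneg_left (Finset.sum_le_sum fun k _ => fro_one h (b.flip (q k))) hρ0
    _ = ρ ^ 2 * ∑ j, ∑ k, b (q j) (q k) ^ 2 := by
        rw [← Finset.mul_sum, Finset.sum_comm]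
        simp only [ContinuousLinearMap.flip_apply]
        ring

theorem fro_three {p q : Idx K → E K} {R : Idx K → Idx K → ℝ} (h : ∀ a, p a = ∑ j, R a j • q j)
    (T : Tri K) : ∑ a, ∑ c, ∑ d, T (p a) (p c) (p d) ^ 2 ≤
      (∑ a, ∑ j, R a j ^ 2) ^ 3 * ∑ j, ∑ k, ∑ l, T (q j) (q k) (q l) ^ 2 := by
  set ρ := ∑ a, ∑ j, R a j ^ 2 with hρ
  have hρ0 : 0 ≤ ρ := by positivity
  calc ∑ a, ∑ c, ∑ d, T (p a) (p c) (p d) ^ 2
      ≤ ∑ a, ρ ^ 2 * ∑ k, ∑ l, T (p a) (q k) (q l) ^ 2 :=
        Finset.sum_le_sum fun a _ => fro_two h (T (p a))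
    _ = ρ ^ 2 * ∑ k, ∑ l, ∑ a, (T.flip (q k)).flip (q l) (p a) ^ 2 := by
        rw [← Finset.mul_sum, Finset.sum_comm]
        congr 1
        apply Finset.sum_congr rfl
        intro k _
        rw [Finset.sum_comm]
        rfl
    _ ≤ ρ ^ 2 * ∑ k, ∑ l, ρ * ∑ j, (T.flip (q k)).flip (q l) (q j) ^ 2 :=
        mul_le_mul_of_nonneg_left (Finset.sum_le_sum fun k _ => Finset.sum_le_sum fun l _ =>
          fro_one h ((T.flip (q k)).flip (q l))) (by positivity)
    _ = ρ ^ 3 * ∑ j, ∑ k, ∑ l, T (q j) (q k) (q l) ^ 2 := by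
        have e1 : ∑ j, ∑ k, ∑ l, T (q j) (q k) (q l) ^ 2 =
            ∑ k, ∑ l, ∑ j, (T.flip (q k)).flip (q l) (q j) ^ 2 := by
          rw [Finset.sum_comm]
          apply Finset.sum_congr rfl
          intro k _
          rw [Finset.sum_comm]
          rfl
        rw [e1]
        simp only [← Finset.mul_sum]
        ring

theorem sum_RR {B : Bil K} (hB : PosDef B) : ∑ a, ∑ j, RR B a j ^ 2 = ∑ j, ginv B j j := by
  rw [Finset.sum_comm, ginv_eq hB]
  apply Finset.sum_congr rfl
  intro j _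
  rw [Matrix.mul_apply]
  apply Finset.sum_congr rfl
  intro a _
  rw [Matrix.transpose_apply, sq]

theorem sum_MM {B : Bil K} (hB : PosDef B) : ∑ j, ∑ a, MM B j a ^ 2 = ∑ j, gram B j j := by
  rw [gram_eq hB]
  apply Finset.sum_congr rfl
  intro j _
  rw [Matrix.mul_apply]
  apply Finset.sum_congr rfl
  intro a _
  rw [Matrix.transpose_apply, sq]

theorem s1_nonneg (θ : E K → ℝ) (e : Idx K → E K) : 0 ≤ ∑ j, θ (e j) ^ 2 :=
  Finset.sum_nonneg fun _ _ => sq_nonneg _

theorem s2_nonneg (b : E K → E K → ℝ) (e : Idx K → E K) : 0 ≤ ∑ j, ∑ k, b (e j) (e k) ^ 2 :=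
  Finset.sum_nonneg fun _ _ => Finset.sum_nonneg fun _ _ => sq_nonneg _

theorem s3_nonneg (T : E K → E K → E K → ℝ) (e : Idx K → E K) :
    0 ≤ ∑ j, ∑ k, ∑ l, T (e j) (e k) (e l) ^ 2 :=
  Finset.sum_nonneg fun _ _ => Finset.sum_nonneg fun _ _ => Finset.sum_nonneg fun _ _ =>
    sq_nonneg _

theorem fro_nonneg (R : Idx K → Idx K → ℝ) : 0 ≤ ∑ a, ∑ j, R a j ^ 2 :=
  Finset.sum_nonneg fun _ _ => Finset.sum_nonneg fun _ _ => sq_nonneg _

theorem cmp1 {p q : Idx K → E K} {R : Idx K → Idx K → ℝ} (h : ∀ a, p a = ∑ j, R a j • q j)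
    {d : ℝ} (hd1 : 1 ≤ d) (hR : ∑ a, ∑ j, R a j ^ 2 ≤ d) (θ : E K →L[ℝ] ℝ) :
    ∑ a, θ (p a) ^ 2 ≤ d ^ 3 * ∑ j, θ (q j) ^ 2 := by
  refine (fro_one h θ).trans (mul_le_mul_of_nonneg_right ?_ (s1_nonneg (fun u => θ u) q))
  have h2 : d ^ 1 ≤ d ^ 3 := pow_le_pow_right₀ hd1 (by norm_num)
  rw [pow_one] at h2
  exact hR.trans h2

theorem cmp2 {p q : Idx K → E K} {R : Idx K → Idx K → ℝ} (h : ∀ a, p a = ∑ j, R a j • q j)
    {d : ℝ} (hd1 : 1 ≤ d) (hR : ∑ a, ∑ j, R a j ^ 2 ≤ d) (b : Bil K) :
    ∑ a, ∑ c, b (p a) (p c) ^ 2 ≤ d ^ 3 * ∑ j, ∑ k, b (q j) (q k) ^ 2 := by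
  refine (fro_two h b).trans (mul_le_mul_of_nonneg_right ?_ (s2_nonneg (fun u v => b u v) q))
  exact (pow_le_pow_left₀ (fro_nonneg R) hR 2).trans (pow_le_pow_right₀ hd1 (by norm_num))

theorem cmp3 {p q : Idx K → E K} {R : Idx K → Idx K → ℝ} (h : ∀ a, p a = ∑ j, R a j • q j)
    {d : ℝ} (hR : ∑ a, ∑ j, R a j ^ 2 ≤ d) (T : Tri K) :
    ∑ a, ∑ c, ∑ e, T (p a) (p c) (p e) ^ 2 ≤
      d ^ 3 * ∑ j, ∑ k, ∑ l, T (q j) (q k) (q l) ^ 2 := by
  refine (fro_three h T).trans
    (mul_le_mul_of_nonneg_right ?_ (s3_nonneg (fun u v w => T u v w) q))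
  exact pow_le_pow_left₀ (fro_nonneg R) hR 3

end HAlg

/-- on compact sets all norms are comparable -/
theorem sq_le {g : E K → Bil K} (hg : ContDiff ℝ ∞ g) (hp : ∀ y, PosDef (g y)) {C : Set (E K)}
    (hC : IsCompact C) : ∃ c : ℝ, 0 < c ∧ ∀ y ∈ C,
      (∀ θ : E K →L[ℝ] ℝ, sq1 (g y) (fun u => θ u) ≤ c * nb1 (fun u => θ u) ∧
        nb1 (fun u => θ u) ≤ c * sq1 (g y) (fun u => θ u)) ∧
      (∀ b : Bil K, sq2 (g y) (fun u v => b u v) ≤ c * nb2 (fun u v => b u v) ∧
        nb2 (fun u v => b u v) ≤ c * sq2 (g y) (fun u v => b u v)) ∧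
      (∀ T : Tri K, sq3 (g y) (fun u v w => T u v w) ≤ c * nb3 (fun u v w => T u v w) ∧
        nb3 (fun u v w => T u v w) ≤ c * sq3 (g y) (fun u v w => T u v w)) := by
  have hc1 : Continuous (fun y => ∑ j, ginv (g y) j j) :=
    continuous_finsetSum _ fun j _ => (contDiff_ginv hg hp j j).continuous
  have hc2 : Continuous (fun y => ∑ j, gram (g y) j j) :=
    continuous_finsetSum _ fun j _ => (contDiff_gram hg j j).continuous
  obtain ⟨c1, h1⟩ := hC.exists_bound_of_continuousOn hc1.continuousOn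
  obtain ⟨c2, h2⟩ := hC.exists_bound_of_continuousOn hc2.continuousOn
  set d : ℝ := max 1 (max c1 c2) with hd
  have hd1 : 1 ≤ d := le_max_left _ _
  have hd0 : 0 < d := lt_of_lt_of_le one_pos hd1
  refine ⟨d ^ 3, pow_pos hd0 3, ?_⟩
  intro y hy
  have hR : ∑ a, ∑ j, RR (g y) a j ^ 2 ≤ d := by
    rw [sum_RR (hp y)]
    exact (le_abs_self _).trans ((h1 y hy).trans ((le_max_left _ _).trans (le_max_right _ _)))
  have hM : ∑ j, ∑ a, MM (g y) j a ^ 2 ≤ d := by
    rw [sum_MM (hp y)]
    exact (le_abs_self _).trans ((h2 y hy).trans ((le_max_right _ _).trans (le_max_right _ _)))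
  have eR := onb_eq (g y)
  have eM := bs_eq (hp y)
  exact ⟨fun θ => ⟨cmp1 eR hd1 hR θ, cmp1 eM hd1 hM θ⟩,
    fun b => ⟨cmp2 eR hd1 hR b, cmp2 eM hd1 hM b⟩,
    fun T => ⟨cmp3 eR hR T, cmp3 eM hM T⟩⟩

namespace HAlg

/-- a function linear in each argument is a trilinear form -/
theorem exists_tri (t : E K → E K → E K → ℝ)
    (a1 : ∀ u u' v w, t (u + u') v w = t u v w + t u' v w)
    (s1 : ∀ (r : ℝ) u v w, t (r • u) v w = r * t u v w)
    (a2 : ∀ u v v' w, t u (v + v') w = t u v w + t u v' w)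
    (s2 : ∀ (r : ℝ) u v w, t u (r • v) w = r * t u v w)
    (a3 : ∀ u v w w', t u v (w + w') = t u v w + t u v w')
    (s3 : ∀ (r : ℝ) u v w, t u v (r • w) = r * t u v w) :
    ∃ T : Tri K, ∀ u v w, T u v w = t u v w := by
  let A : E K → E K → E K →L[ℝ] ℝ := fun u v => LinearMap.toContinuousLinearMap
    { toFun := fun w => t u v w
      map_add' := fun w w' => a3 u v w w'
      map_smul' := fun r w => s3 r u v w }
  let A2 : E K → Bil K := fun u => LinearMap.toContinuousLinearMap
    { toFun := fun v => A u v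
      map_add' := fun v v' => ContinuousLinearMap.ext fun w => a2 u v v' w
      map_smul' := fun r v => ContinuousLinearMap.ext fun w => s2 r u v w }
  let A3 : Tri K := LinearMap.toContinuousLinearMap
    { toFun := fun u => A2 u
      map_add' := fun u u' => ContinuousLinearMap.ext fun v => ContinuousLinearMap.ext fun w =>
        a1 u u' v w
      map_smul' := fun r u => ContinuousLinearMap.ext fun v => ContinuousLinearMap.ext fun w =>
        s1 r u v w }
  exact ⟨A3, fun u v w => rfl⟩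

theorem contDiff_of_apply1 {θ : E K → E K →L[ℝ] ℝ} (h : ∀ w, ContDiff ℝ ∞ (fun y => θ y w)) :
    ContDiff ℝ ∞ θ := by
  rw [contDiff_iff_contDiffAt]
  intro y
  apply Natural.contDiffAt_clm_of_apply
  intro w
  exact (h w).contDiffAt

theorem contDiff_of_apply2 {b : E K → Bil K} (h : ∀ u v, ContDiff ℝ ∞ (fun y => b y u v)) :
    ContDiff ℝ ∞ b := by
  rw [contDiff_iff_contDiffAt]
  intro y
  apply Natural.contDiffAt_clm_of_apply
  intro u
  apply Natural.contDiffAt_clm_of_apply
  intro v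
  exact (h u v).contDiffAt

theorem contDiff_of_apply3 {T : E K → Tri K} (h : ∀ u v w, ContDiff ℝ ∞ (fun y => T y u v w)) :
    ContDiff ℝ ∞ T := by
  rw [contDiff_iff_contDiffAt]
  intro y
  apply Natural.contDiffAt_clm_of_apply
  intro u
  apply Natural.contDiffAt_clm_of_apply
  intro v
  apply Natural.contDiffAt_clm_of_apply
  intro w
  exact (h u v w).contDiffAt

theorem chr_add_left (g : E K → Bil K) (y u u' v : E K) :
    chr g y (u + u') v = chr g y u v + chr g y u' v := by
  simp only [← Natural.chrB_apply, map_add, add_apply]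

theorem chr_smul_left (g : E K → Bil K) (y : E K) (r : ℝ) (u v : E K) :
    chr g y (r • u) v = r • chr g y u v := by
  simp only [← Natural.chrB_apply, map_smul, smul_apply]

theorem chr_add_right (g : E K → Bil K) (y u v v' : E K) :
    chr g y u (v + v') = chr g y u v + chr g y u v' := by
  simp only [← Natural.chrB_apply, map_add]

theorem chr_smul_right (g : E K → Bil K) (y : E K) (r : ℝ) (u v : E K) :
    chr g y u (r • v) = r • chr g y u v := by
  simp only [← Natural.chrB_apply, map_smul]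

theorem contDiff_chr (G : Met K) (i : Ix) (u v : E K) :
    ContDiff ℝ ∞ (fun y => chr (G.g i) y u v) := by
  rw [contDiff_iff_contDiffAt]
  intro y
  exact (isMetricAt G i y).contDiffAt_chr u v

theorem contDiff_fderiv {b : E K → Bil K} (hb : ContDiff ℝ ∞ b) (u v w : E K) :
    ContDiff ℝ ∞ (fun y => fderiv ℝ b y u v w) :=
  (((hb.fderiv_right (m := ∞) (by simp)).clm_apply contDiff_const).clm_apply
    contDiff_const).clm_apply contDiff_const

end HAlg

/-- bundled covariant derivative of a smooth family of bilinear forms -/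
theorem exists_cdL (G : Met K) (b : Ix → E K → Bil K) (i : Ix) (hb : ContDiff ℝ ∞ (b i)) :
    ∃ T : E K → Tri K, ContDiff ℝ ∞ T ∧ ∀ y u v w, T y u v w = cd G b i y u v w := by
  have h : ∀ y, ∃ T : Tri K, ∀ u v w, T u v w = cd G b i y u v w := by
    intro y
    apply exists_tri
    all_goals intros
    all_goals
      simp only [cd, map_add, map_smul, add_apply, smul_apply, chr_add_left, chr_smul_left,
        chr_add_right, chr_smul_right, smul_eq_mul]
      ring
  choose T hT using h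
  refine ⟨T, contDiff_of_apply3 fun u v w => ?_, hT⟩
  simp only [hT, cd]
  exact ((contDiff_fderiv hb u v w).sub
    ((hb.clm_apply (contDiff_chr G i u v)).clm_apply contDiff_const)).sub
    ((hb.clm_apply contDiff_const).clm_apply (contDiff_chr G i u w))

theorem exists_d2L (b : Ix → E K → Bil K) (i : Ix) (hb : ContDiff ℝ ∞ (b i)) :
    ∃ T : E K → Tri K, ContDiff ℝ ∞ T ∧ ∀ y u v w, T y u v w = d2 b i y u v w := by
  have h : ∀ y, ∃ T : Tri K, ∀ u v w, T u v w = d2 b i y u v w := by
    intro y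
    apply exists_tri
    all_goals intros
    all_goals
      simp only [d2, map_add, map_smul, add_apply, smul_apply, smul_eq_mul]
      ring
  choose T hT using h
  refine ⟨T, contDiff_of_apply3 fun u v w => ?_, hT⟩
  simp only [hT, d2]
  exact ((contDiff_fderiv hb u v w).add (contDiff_fderiv hb v w u)).add
    (contDiff_fderiv hb w u v)

theorem exists_codiffL (G : Met K) (b : Ix → E K → Bil K) (i : Ix) (hb : ContDiff ℝ ∞ (b i)) :
    ∃ θ : E K → E K →L[ℝ] ℝ, ContDiff ℝ ∞ θ ∧ ∀ y w, θ y w = codiff G b i y w := by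
  obtain ⟨T, hTs, hT⟩ := exists_cdL G b i hb
  have h1 : ∀ y w, (- ∑ j, T y (onb (G.g i y) j) (onb (G.g i y) j)) w = codiff G b i y w := by
    intro y w
    rw [neg_apply, sum_apply]
    simp only [hT]
    rfl
  refine ⟨fun y => - ∑ j, T y (onb (G.g i y) j) (onb (G.g i y) j), ?_, h1⟩
  apply contDiff_of_apply1
  intro w
  let β : E K → Bil K := fun y =>
    ((ContinuousLinearMap.compL ℝ (E K) (E K →L[ℝ] ℝ) ℝ) (ContinuousLinearMap.apply ℝ ℝ w)).comp
      (T y)
  have hβ : ∀ y u v, β y u v = T y u v w := fun y u v => rfl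
  have hβs : ContDiff ℝ ∞ β := by
    apply contDiff_of_apply2
    intro u v
    simp only [hβ]
    exact ((hTs.clm_apply contDiff_const).clm_apply contDiff_const).clm_apply contDiff_const
  have h2 : ∀ y, (- ∑ j, T y (onb (G.g i y) j) (onb (G.g i y) j)) w =
      - ∑ j, β y (onb (G.g i y) j) (onb (G.g i y) j) := by
    intro y
    rw [neg_apply, sum_apply]
    rfl
  simp only [h2]
  exact (contDiff_trace (G.smooth i) (G.posDef i) hβs).neg

end Pool.Agent.H86.Nco
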