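import Mathlib

/-!
# Auxiliary file for HDIV: Jacobi's formula, derivative of the inverse matrix, integral of a
directional derivative
-/

set_option autoImplicit false

open scoped ContDiff Topology

noncomputable section

namespace Pool.Agent.H86.Nco.HDivA

open MeasureTheory

variable {n : ℕ}

/-- the determinant as a function of the entries -/
def detF (a : Fin n → Fin n → ℝ) : ℝ := Matrix.det (Matrix.of a)

theorem contDiff_detF : ContDiff ℝ ∞ (detF (n := n)) := by
  unfold detF
  simp only [Matrix.det_apply, Matrix.of_apply]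
  refine ContDiff.sum fun σ _ => ContDiff.const_smul _ (contDiff_prod fun i _ => ?_)
  exact contDiff_apply_apply ℝ ℝ (σ i) i

theorem hasDerivAt_det_one (N : Fin n → Fin n → ℝ) :
    HasDerivAt (fun t : ℝ => detF (fun i j => (1 : Matrix (Fin n) (Fin n) ℝ) i j + t * N i j))
      (∑ i, N i i) 0 := by
  have h1 : (fun t : ℝ => detF (fun i j => (1 : Matrix (Fin n) (Fin n) ℝ) i j + t * N i j)) =
      fun t => 1 + Matrix.trace (Matrix.of N) * t + (Matrix.det (1 + (Polynomial.X : Polynomial ℝ) •
        (Matrix.of N).map Polynomial.C)).divX.divX.eval t * t ^ 2 := by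
    funext t
    rw [← Matrix.det_one_add_smul]
    rfl
  rw [h1]
  set P := (Matrix.det (1 + (Polynomial.X : Polynomial ℝ) •
        (Matrix.of N).map Polynomial.C)).divX.divX
  have h2 : HasDerivAt (fun t : ℝ => P.eval t) (P.derivative.eval 0) 0 := P.hasDerivAt 0
  have h3 : HasDerivAt (fun t : ℝ => t ^ 2) (2 * 0) 0 := by
    simpa using hasDerivAt_pow 2 (0 : ℝ)
  have h4 := ((hasDerivAt_const (0 : ℝ) (1 : ℝ)).add ((hasDerivAt_id (0 : ℝ)).const_mul
    (Matrix.trace (Matrix.of N)))).add (h2.mul h3)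
  refine h4.congr_deriv ?_
  simp [Matrix.trace]

theorem fderiv_detF_one (N : Fin n → Fin n → ℝ) :
    fderiv ℝ (detF (n := n)) (fun i j => (1 : Matrix (Fin n) (Fin n) ℝ) i j) N = ∑ i, N i i := by
  have h1 := (contDiff_detF (n := n)).differentiable (by simp)
    (fun i j => (1 : Matrix (Fin n) (Fin n) ℝ) i j)
  have h2 : HasDerivAt (fun t : ℝ => (fun i j => (1 : Matrix (Fin n) (Fin n) ℝ) i j + t * N i j))
      N 0 := by
    rw [hasDerivAt_pi]
    intro i
    rw [hasDerivAt_pi]
    intro j
    have := ((hasDerivAt_id (0 : ℝ)).mul_const (N i j)).const_add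
      ((1 : Matrix (Fin n) (Fin n) ℝ) i j)
    simpa using this
  have h3 : HasFDerivAt (detF (n := n)) (fderiv ℝ (detF (n := n))
      (fun i j => (1 : Matrix (Fin n) (Fin n) ℝ) i j))
      ((fun t : ℝ => (fun i j => (1 : Matrix (Fin n) (Fin n) ℝ) i j + t * N i j)) 0) := by
    simpa using h1.hasFDerivAt
  have h4 := h3.comp_hasDerivAt (0 : ℝ) h2
  exact h4.unique (hasDerivAt_det_one N)

variable {X : Type*} [NormedAddCommGroup X] [NormedSpace ℝ X]

/-- Jacobi's formula -/
theorem fderiv_det {A : X → Matrix (Fin n) (Fin n) ℝ} {y : X}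
    (hA : ∀ i j, DifferentiableAt ℝ (fun z => A z i j) y) (hdet : IsUnit (A y).det) (u : X) :
    fderiv ℝ (fun z => (A z).det) y u =
      (A y).det * ∑ i, ∑ k, (A y)⁻¹ i k * fderiv ℝ (fun z => A z k i) y u := by
  -- the family `A(y)⁻¹ A(z)`
  have hM : ∀ i j, HasFDerivAt (fun z => ∑ k, (A y)⁻¹ i k * A z k j)
      (∑ k, (A y)⁻¹ i k • fderiv ℝ (fun z => A z k j) y) y := by
    intro i j
    exact HasFDerivAt.fun_sum fun k _ => (hA k j).hasFDerivAt.const_mul _
  have hM' : HasFDerivAt (fun z => fun i j => ∑ k, (A y)⁻¹ i k * A z k j)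
      (ContinuousLinearMap.pi fun i => ContinuousLinearMap.pi fun j =>
        ∑ k, (A y)⁻¹ i k • fderiv ℝ (fun z => A z k j) y) y := by
    rw [hasFDerivAt_pi]
    intro i
    rw [hasFDerivAt_pi]
    intro j
    exact hM i j
  have h1 : (fun i j => ∑ k, (A y)⁻¹ i k * A y k j) =
      (fun i j => (1 : Matrix (Fin n) (Fin n) ℝ) i j) := by
    funext i j
    rw [← Matrix.nonsing_inv_mul (A y) hdet, Matrix.mul_apply]
  have h2 : HasFDerivAt (detF (n := n)) (fderiv ℝ (detF (n := n))
      (fun i j => (1 : Matrix (Fin n) (Fin n) ℝ) i j))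
      ((fun z => fun i j => ∑ k, (A y)⁻¹ i k * A z k j) y) := by
    simp only [h1]
    exact ((contDiff_detF (n := n)).differentiable (by simp) _).hasFDerivAt
  have h3 := (h2.comp y hM').const_mul (A y).det
  have h4 : (fun z => (A z).det) = fun z => (A y).det *
      (detF ∘ (fun z => fun i j => ∑ k, (A y)⁻¹ i k * A z k j)) z := by
    funext z
    have h5 : (detF ∘ (fun z => fun i j => ∑ k, (A y)⁻¹ i k * A z k j)) z =
        ((A y)⁻¹ * A z).det := by
      simp only [Function.comp, detF]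
      congr 1
    rw [h5, Matrix.det_mul, ← mul_assoc, ← Matrix.det_mul, Matrix.mul_nonsing_inv _ hdet,
      Matrix.det_one, one_mul]
  rw [h4, h3.fderiv]
  simp only [ContinuousLinearMap.smul_apply, ContinuousLinearMap.comp_apply, smul_eq_mul]
  rw [fderiv_detF_one]
  congr 1
  refine Finset.sum_congr rfl fun i _ => ?_
  simp [ContinuousLinearMap.pi_apply]

/-- the derivative of the inverse matrix -/
theorem fderiv_inv {A : X → Matrix (Fin n) (Fin n) ℝ} {y : X}
    (hA : ∀ i j, DifferentiableAt ℝ (fun z => A z i j) y)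
    (hI : ∀ i j, DifferentiableAt ℝ (fun z => (A z)⁻¹ i j) y)
    (hdet : ∀ z, IsUnit (A z).det) (u : X) :
    (Matrix.of fun i j => fderiv ℝ (fun z => (A z)⁻¹ i j) y u) =
      -((A y)⁻¹ * (Matrix.of fun i j => fderiv ℝ (fun z => A z i j) y u) * (A y)⁻¹) := by
  have h1 : (Matrix.of fun i j => fderiv ℝ (fun z => (A z)⁻¹ i j) y u) * A y +
      (A y)⁻¹ * (Matrix.of fun i j => fderiv ℝ (fun z => A z i j) y u) = 0 := by
    ext i j
    have h2 : HasFDerivAt (fun z => ∑ k, (A z)⁻¹ i k * A z k j)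
        (∑ k, ((A y)⁻¹ i k • fderiv ℝ (fun z => A z k j) y +
          A y k j • fderiv ℝ (fun z => (A z)⁻¹ i k) y)) y :=
      HasFDerivAt.fun_sum fun k _ => (hI i k).hasFDerivAt.fun_mul (hA k j).hasFDerivAt
    have h3 : (fun z => ∑ k, (A z)⁻¹ i k * A z k j) =
        fun _ => (1 : Matrix (Fin n) (Fin n) ℝ) i j := by
      funext z
      rw [← Matrix.mul_apply, Matrix.nonsing_inv_mul (A z) (hdet z)]
    rw [h3] at h2
    have h4 := h2.unique (hasFDerivAt_const _ y)
    have h5 := congrArg (fun L : X →L[ℝ] ℝ => L u) h4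
    simp only [ContinuousLinearMap.sum_apply, ContinuousLinearMap.add_apply,
      ContinuousLinearMap.smul_apply, smul_eq_mul, ContinuousLinearMap.zero_apply,
      Finset.sum_add_distrib] at h5
    rw [Matrix.add_apply, Matrix.mul_apply, Matrix.mul_apply, Matrix.zero_apply]
    simp only [Matrix.of_apply]
    rw [add_comm, ← h5]
    congr 1
    exact Finset.sum_congr rfl fun k _ => mul_comm _ _
  have h2 : (Matrix.of fun i j => fderiv ℝ (fun z => (A z)⁻¹ i j) y u) * A y =
      -((A y)⁻¹ * (Matrix.of fun i j => fderiv ℝ (fun z => A z i j) y u)) :=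
    eq_neg_of_add_eq_zero_left h1
  calc (Matrix.of fun i j => fderiv ℝ (fun z => (A z)⁻¹ i j) y u)
      = (Matrix.of fun i j => fderiv ℝ (fun z => (A z)⁻¹ i j) y u) * A y * (A y)⁻¹ := by
        rw [Matrix.mul_assoc, Matrix.mul_nonsing_inv _ (hdet y), Matrix.mul_one]
    _ = _ := by rw [h2, neg_mul]

/-- the integral of a directional derivative of a compactly supported function -/
theorem integral_fderiv_zero {Y : Type*} [NormedAddCommGroup Y] [NormedSpace ℝ Y]
    [FiniteDimensional ℝ Y] [MeasurableSpace Y] [BorelSpace Y] (μ : Measure Y)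
    [μ.IsAddHaarMeasure] {f : Y → ℝ} (hf : ContDiff ℝ 1 f) (hc : HasCompactSupport f) (v : Y) :
    ∫ x, fderiv ℝ f x v ∂μ = 0 := by
  have h1 : Continuous (fun x => fderiv ℝ f x v) :=
    (hf.continuous_fderiv (by simp)).clm_apply continuous_const
  have h2 : HasCompactSupport (fun x => fderiv ℝ f x v) := hc.fderiv_apply ℝ v
  have h := integral_mul_fderiv_eq_neg_fderiv_mul_of_integrable (μ := μ) (𝕜 := ℝ)
    (f := fun _ : Y => (1 : ℝ)) (g := f) (v := v) (by simp)
    (by simpa using h1.integrable_of_hasCompactSupport h2)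
    (by simpa using hf.continuous.integrable_of_hasCompactSupport hc)
    (fun x _ => differentiableAt_const _) (fun x _ => hf.differentiable (by simp) x)
  simpa using h

end Pool.Agent.H86.Nco.HDivA
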