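import Pool.Agent.H86.Nco.SCurvB

/-!
# Auxiliary file for SCURV: the curvature of the plane field is constant in the kernel directions
-/

open scoped Manifold ContDiff Bundle Topology

noncomputable section

set_option linter.unusedSectionVars false
set_option maxSynthPendingDepth 3

namespace Pool.Agent.H86.Nco.SCurvA

open Pool.Agent.H86.Anco Pool.Agent.H86.Anco.Natural

variable {E : Type*} [NormedAddCommGroup E] [NormedSpace ℝ E] [FiniteDimensional ℝ E]
  {g : E → E →L[ℝ] E →L[ℝ] ℝ} {J : E → E →L[ℝ] E}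

theorem Frm.expand {B : E →L[ℝ] E →L[ℝ] ℝ} {J : E →L[ℝ] E} {e0 e1 : E} (h : Frm B J e0 e1)
    {s W : E} (hs : J (J s) = -s) (hs1 : B s s = 1) (hW : J (J W) = -W) :
    W = B W s • s + B W (J s) • J s := by
  have e1s := h.mem_L1 hs
  have e1W := h.mem_L1 hW
  set a := B s e0
  set b := B s e1
  set c := B W e0
  set d := B W e1
  have hab : a ^ 2 + b ^ 2 = 1 := by
    rw [e1s] at hs1
    simp only [map_add, map_smul, add_apply, smul_apply, smul_eq_mul, h.b00, h.b01, h.b10,
      h.b11] at hs1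
    nlinarith
  have hJs : J s = a • e1 - b • e0 := h.J_eq s
  have h1 : B W s = c * a + d * b := by
    rw [e1s, e1W]
    simp only [map_add, map_smul, add_apply, smul_apply, smul_eq_mul, h.b00, h.b01, h.b10,
      h.b11]
    ring
  have h2 : B W (J s) = d * a - c * b := by
    rw [hJs, e1W]
    simp only [map_add, map_sub, map_smul, add_apply, smul_apply, smul_eq_mul, h.b00, h.b01,
      h.b10, h.b11]
    ring
  have h3 : (c * a + d * b) • s + (d * a - c * b) • J s =
      (c * (a ^ 2 + b ^ 2)) • e0 + (d * (a ^ 2 + b ^ 2)) • e1 := by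
    rw [hJs]
    conv_lhs => rw [e1s]
    module
  rw [h1, h2, h3, hab, mul_one, mul_one]
  exact e1W

theorem cov_neg {X : E → E} {y : E} (v : E) :
    cov g v (fun z => -X z) y = -cov g v X y := by
  unfold cov
  rw [fderiv_fun_neg]
  simp only [neg_apply, map_neg]
  abel

/-- a local unit section of the plane field -/
structure Loc (g : E → E →L[ℝ] E →L[ℝ] ℝ) (J : E → E →L[ℝ] E) (U : Set E) (s : E → E) : Prop where
  isOpen : IsOpen U
  smooth : ∀ y ∈ U, ContDiffAt ℝ ∞ s y
  JJ : ∀ y ∈ U, J y (J y (s y)) = -s y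
  unit : ∀ y ∈ U, g y (s y) (s y) = 1

theorem exists_loc (hg : MF g) (hJ : PJ g J) (y0 : E) : ∃ U s, y0 ∈ U ∧ Loc g J U s := by
  obtain ⟨e0, e1, h⟩ := hJ.frm y0
  have hX : ContDiff ℝ ∞ (fun y => J y e0) := hJ.smooth.clm_apply contDiff_const
  have hN : ContDiff ℝ ∞ (fun y => g y (J y e0) (J y e0)) :=
    (hg.smooth.clm_apply hX).clm_apply hX
  refine ⟨{y | 0 < g y (J y e0) (J y e0)},
    fun y => (√(g y (J y e0) (J y e0)))⁻¹ • J y e0, ?_, ?_, ?_, ?_, ?_⟩
  · show 0 < g y0 (J y0 e0) (J y0 e0)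
    rw [h.J0, h.b11]
    exact one_pos
  · exact isOpen_lt continuous_const hN.continuous
  · intro y hy
    have hy' : 0 < g y (J y e0) (J y e0) := hy
    exact ((hN.contDiffAt.sqrt hy'.ne').inv (Real.sqrt_pos.2 hy').ne').smul hX.contDiffAt
  · intro y hy
    obtain ⟨f0, f1, hf⟩ := hJ.frm y
    show J y (J y ((√(g y (J y e0) (J y e0)))⁻¹ • J y e0)) = _
    rw [map_smul, map_smul, hf.JJJ, smul_neg]
  · intro y hy
    have hy' : 0 < g y (J y e0) (J y e0) := hy
    have h2 := Real.mul_self_sqrt hy'.le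
    have h3 := (Real.sqrt_pos.2 hy').ne'
    show g y ((√(g y (J y e0) (J y e0)))⁻¹ • J y e0) ((√(g y (J y e0) (J y e0)))⁻¹ • J y e0) = 1
    simp only [map_smul, smul_apply, smul_eq_mul]
    rw [← mul_assoc, ← mul_inv, h2]
    exact inv_mul_cancel₀ hy'.ne'

/-- the connection form of the unit section -/
def tht (g : E → E →L[ℝ] E →L[ℝ] ℝ) (J : E → E →L[ℝ] E) (s : E → E) (v y : E) : ℝ :=
  g y (cov g v s y) (J y (s y))

section

variable {U : Set E} {s : E → E}

theorem Loc.mem_nhds (L : Loc g J U s) {y : E} (hy : y ∈ U) : U ∈ 𝓝 y := L.isOpen.mem_nhds hy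

theorem Loc.contDiffAt_Js (hJ : PJ g J) (L : Loc g J U s) {y : E} (hy : y ∈ U) :
    ContDiffAt ℝ ∞ (fun z => J z (s z)) y :=
  hJ.smooth.contDiffAt.clm_apply (L.smooth y hy)

theorem Loc.contDiffAt_tht (hg : MF g) (hJ : PJ g J) (L : Loc g J U s) {y : E} (hy : y ∈ U)
    (v : E) : ContDiffAt ℝ ∞ (tht g J s v) y := by
  unfold tht
  exact (hg.smooth.contDiffAt.clm_apply (contDiffAt_cov hg (L.smooth y hy) v)).clm_apply
    (L.contDiffAt_Js hJ hy)

theorem Loc.unitJ (hg : MF g) (hJ : PJ g J) (L : Loc g J U s) {y : E} (hy : y ∈ U) :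
    g y (J y (s y)) (J y (s y)) = 1 := by
  obtain ⟨e0, e1, h⟩ := hJ.frm y
  rw [h.skew, L.JJ y hy, map_neg, neg_neg, L.unit y hy]

theorem Loc.cov_eq (hg : MF g) (hJ : PJ g J) (L : Loc g J U s) {y : E} (hy : y ∈ U) (v : E) :
    cov g v s y = tht g J s v y • J y (s y) := by
  obtain ⟨e0, e1, h⟩ := hJ.frm y
  have hsd : DifferentiableAt ℝ s y := (L.smooth y hy).differentiableAt (by simp)
  have hJsd : DifferentiableAt ℝ (fun z => J z (s z)) y :=
    (L.contDiffAt_Js hJ hy).differentiableAt (by simp)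
  have h1 : J y (J y (cov g v s y)) = -cov g v s y := by
    rw [← cov_J hJ hsd, ← cov_J hJ hJsd, ← cov_neg]
    apply cov_congr
    filter_upwards [L.mem_nhds hy] with z hz
    exact L.JJ z hz
  have h2 : g y (cov g v s y) (s y) = 0 := by
    have h3 := cov_metric hg hsd hsd v
    have h4 : (fun z => g z (s z) (s z)) =ᶠ[𝓝 y] fun _ => (1 : ℝ) := by
      filter_upwards [L.mem_nhds hy] with z hz
      exact L.unit z hz
    rw [h4.fderiv_eq, hg.symm y (s y) (cov g v s y)] at h3
    simp only [fderiv_fun_const, Pi.zero_apply, zero_apply] at h3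
    linarith
  have h5 := h.expand (L.JJ y hy) (L.unit y hy) h1
  rw [h2, zero_smul, zero_add] at h5
  exact h5

theorem Loc.dtht (hg : MF g) (hJ : PJ g J) (L : Loc g J U s) {y : E} (hy : y ∈ U) (u v : E) :
    fderiv ℝ (tht g J s v) y u - fderiv ℝ (tht g J s u) y v =
      -(kap g J y * g y (J y u) v) := by
  have hsd : DifferentiableAt ℝ s y := (L.smooth y hy).differentiableAt (by simp)
  have hJsd : DifferentiableAt ℝ (fun z => J z (s z)) y :=
    (L.contDiffAt_Js hJ hy).differentiableAt (by simp)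
  have key : ∀ u v : E, cov g u (cov g v s) y = fderiv ℝ (tht g J s v) y u • J y (s y) -
      (tht g J s v y * tht g J s u y) • s y := by
    intro u v
    have h1 : cov g v s =ᶠ[𝓝 y] fun z => tht g J s v z • J z (s z) := by
      filter_upwards [L.mem_nhds hy] with z hz
      exact L.cov_eq hg hJ hz v
    have htd : DifferentiableAt ℝ (tht g J s v) y :=
      (L.contDiffAt_tht hg hJ hy v).differentiableAt (by simp)
    rw [cov_congr u h1, cov_smul hg htd hJsd u, cov_J hJ hsd, L.cov_eq hg hJ hy u, map_smul,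
      L.JJ y hy]
    module
  have h1 := cov_curv hg (L.smooth y hy) u v
  rw [key u v, key v u, hJ.kap_spec hg y u v (L.JJ y hy)] at h1
  have h2 := congrArg (fun z => g y z (J y (s y))) h1
  have h3 := L.unitJ hg hJ hy
  have h4 : g y (s y) (J y (s y)) = 0 := by
    obtain ⟨e0, e1, h⟩ := hJ.frm y
    have h5 := h.skew (s y) (s y)
    rw [hg.symm y (J y (s y)) (s y)] at h5
    linarith
  simp only [map_sub, map_smul, sub_apply, smul_apply, smul_eq_mul, h3, h4, mul_one,
    mul_zero, sub_zero] at h2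
  exact h2

end

/-- the derivative of the form `g (J u) v` -/
theorem PJ.dom (hg : MF g) (hJ : PJ g J) (y w u v : E) :
    fderiv ℝ (fun z => g z (J z u) v) y w =
      g y (J y (chrB g y w u)) v + g y (J y u) (chrB g y w v) := by
  have h1 : DifferentiableAt ℝ (fun z => J z u) y := (hJ.diff y).clm_apply (differentiableAt_const u)
  have h2 := cov_metric hg h1 (differentiableAt_const v) w
  have h3 := cov_J hJ (differentiableAt_const (c := u) (x := y)) w
  rw [h2, h3]
  unfold cov
  simp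

theorem PJ.dkap (hg : MF g) (hJ : PJ g J) (y0 z : E) (hz : J y0 z = 0) :
    fderiv ℝ (kap g J) y0 z = 0 := by
  obtain ⟨e0, e1, h⟩ := hJ.frm y0
  obtain ⟨U, s, hy0, L⟩ := exists_loc hg hJ y0
  have hk : DifferentiableAt ℝ (kap g J) y0 :=
    ((hJ.contDiff_kap hg).differentiable (by simp)) y0
  have hod : ∀ u v : E, DifferentiableAt ℝ (fun y => g y (J y u) v) y0 := fun u v =>
    ((hg.diff y0).clm_apply ((hJ.diff y0).clm_apply (differentiableAt_const u))).clm_apply
      (differentiableAt_const v)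
  have key : ∀ w u v : E,
      fderiv ℝ (fderiv ℝ (tht g J s v)) y0 w u - fderiv ℝ (fderiv ℝ (tht g J s u)) y0 w v =
      -(fderiv ℝ (kap g J) y0 w * g y0 (J y0 u) v +
        kap g J y0 * (g y0 (J y0 (chrB g y0 w u)) v + g y0 (J y0 u) (chrB g y0 w v))) := by
    intro w u v
    have hd : ∀ v : E, DifferentiableAt ℝ (fderiv ℝ (tht g J s v)) y0 := fun v =>
      (contDiffAt_fd (L.contDiffAt_tht hg hJ hy0 v)).differentiableAt (by simp)
    have h1 : (fun y => fderiv ℝ (tht g J s v) y u - fderiv ℝ (tht g J s u) y v) =ᶠ[𝓝 y0]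
        fun y => -(kap g J y * g y (J y u) v) := by
      filter_upwards [L.mem_nhds hy0] with y hy
      exact L.dtht hg hJ hy u v
    have h2 := congrArg (fun A : E →L[ℝ] ℝ => A w) (h1.fderiv_eq (𝕜 := ℝ))
    rw [fderiv_fun_sub ((hd v).clm_apply (differentiableAt_const u))
      ((hd u).clm_apply (differentiableAt_const v)), fderiv_fun_neg,
      fderiv_fun_mul hk (hod u v)] at h2
    simp only [sub_apply, neg_apply, add_apply, smul_apply, smul_eq_mul] at h2
    rw [fd_app (hd v) (differentiableAt_const u), fd_app (hd u) (differentiableAt_const v),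
      hJ.dom hg] at h2
    simp only [fderiv_fun_const, Pi.zero_apply, zero_apply, map_zero, add_zero] at h2
    rw [h2]
    ring
  have k1 := key z e0 e1
  have k2 := key e0 e1 z
  have k3 := key e1 z e0
  have s1 := symm2 (L.contDiffAt_tht hg hJ hy0 e1) z e0
  have s2 := symm2 (L.contDiffAt_tht hg hJ hy0 e0) z e1
  have s3 := symm2 (L.contDiffAt_tht hg hJ hy0 z) e0 e1
  obtain ⟨hz0, hz1⟩ := h.ker hz
  have o1 : g y0 (J y0 e0) e1 = 1 := by rw [h.J0, h.b11]
  have o2 : g y0 (J y0 e1) z = 0 := by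
    rw [h.J1, hg.symm, map_neg, hz0, neg_zero]
  have o3 : g y0 (J y0 z) e0 = 0 := by rw [hz]; simp
  have c1 := hg.chrB_symm y0 z e0
  have c2 := hg.chrB_symm y0 z e1
  have c3 := hg.chrB_symm y0 e0 e1
  have sk : ∀ u v, g y0 (J y0 u) v = -g y0 (J y0 v) u := by
    intro u v
    rw [h.skew, hg.symm]
  have t1 := sk (chrB g y0 z e0) e1
  have t2 := sk (chrB g y0 e0 e1) z
  have t3 := sk (chrB g y0 e1 z) e0
  rw [← c1] at k2
  rw [← c2, ← c3] at k3
  rw [← c2] at t3
  rw [o1, t1] at k1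
  rw [o2, t2] at k2
  rw [o3, t3] at k3
  linarith

end Pool.Agent.H86.Nco.SCurvA
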