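import Pool.Agent.H86.Nco.SCalc
import Pool.Agent.H86.Nco.SCurvC

/-!
# Module SCURV: the curvature of a splitting

In the chart `i` write `J` for `Jl y v = DCor (J (DPar v))`, `g`, `R = riem`, `Q(u,v,x,w) = g(R(u,v)x, w)`.

(1) `J` is parallel, so `R(u,v) J x = J R(u,v) x` (commute second covariant derivatives; or apply
`nab_curv`, `nab_J` to a map `c : ℝ² → M` with `∂₁c = u`, `∂₂c = v` and a vector field with value `x`).
(2) Symmetries of `Q`: antisymmetric in `(u,v)` and in `(x,w)`, first Bianchi identity, pair symmetry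
(needed from the definition of `riem`; antisymmetry in `(x, w)` from metricity of the connection,
Bianchi from the symmetry of `chr`, pair symmetry is a formal consequence).
(3) Let `L1 = range J`, `L2 = ker J`.  By (1) `R(u,v)` preserves `L1` and `L2`.  For `u ∈ L1`, `v ∈ L2`:
`Q(u,v,x,w) = Q(x,w,u,v) = g(R(x,w)u, v) = 0`, so `R(u,v) = 0`.  For `u, v ∈ L1`, `x ∈ L2` Bianchi gives
`R(u,v)x = - R(v,x)u - R(x,u)v = 0`: this is `curv2`.
(4) For `x ∈ L1`: `R(u,v)x = R(P1 u, P1 v)x`, which is skew in `(u,v)` and a skew endomorphism of the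
oriented plane `L1`, so `R(u,v)x = - κ g(Ju,v) J x`.  Formula: `κ = -1/4 ∑_{j,k} Q(e_j, J e_j, e_k, J e_k)` for
an orthonormal basis `e`; it shows that `κ` is smooth (write the sum with the inverse Gram matrix of a
fixed basis) and independent of the chart (`riem_tr`).  Extend by `exists_ext`.
(5) `dκ = 0` on `L2`: near `y₀` choose a constant vector `e` with `J(y₀)e ≠ 0` and let
`s = J e / |J e|`, a unit section of `L1`; `∇_u s = θ(u) J s` with the smooth one-form
`θ(u) = g(∇_u s, J s)`.  Then `R(u,v)s = (dθ)(u,v) J s`, so `dθ(u,v) = - κ g(Ju, v)`.  Taking `d`: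
`d(κ ω) = 0` for `ω(u,v) = g(Ju,v)`, which is parallel, hence closed.  So `dκ ∧ ω = 0`; insert
`z ∈ L2`, `u ∈ L1`, `Ju`: `dκ(z) g(Ju,Ju) = 0`.
-/

open scoped Manifold ContDiff Bundle Topology

noncomputable section

namespace Pool.Agent.H86.Nco

open Pool.Agent.H86.Anco

variable {K : ℕ}

open SCurvA Pool.Agent.H86.Anco.Natural

set_option maxSynthPendingDepth 3

theorem Met.mf (G : Met K) (i : Ix) : MF (G.g i) := ⟨G.smooth i, G.symm i, G.pos i⟩

/-- the connection is metric -/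
theorem fderiv_g_eq (G : Met K) (i : Ix) (y u v w : E K) :
    fderiv ℝ (G.g i) y u v w =
      G.g i y (chr (G.g i) y u v) w + G.g i y v (chr (G.g i) y u w) :=
  (G.mf i).dg y u v w

theorem chr_symm (G : Met K) (i : Ix) (y u v : E K) :
    chr (G.g i) y u v = chr (G.g i) y v u :=
  (G.mf i).chr_symm y u v

/-- symmetries of the curvature tensor -/
theorem riem_skew (G : Met K) (i : Ix) (y u v x w : E K) :
    G.g i y (riem (G.g i) y u v x) w = - G.g i y (riem (G.g i) y u v w) x := by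
  rw [(G.mf i).riem_eq, (G.mf i).riem_eq]
  exact (G.mf i).R_skew y u v x w

theorem riem_bianchi (G : Met K) (i : Ix) (y u v x : E K) :
    riem (G.g i) y u v x + riem (G.g i) y v x u + riem (G.g i) y x u v = 0 := by
  rw [(G.mf i).riem_eq, (G.mf i).riem_eq, (G.mf i).riem_eq]
  exact (G.mf i).R_bian y u v x

theorem riem_pair (G : Met K) (i : Ix) (y u v x w : E K) :
    G.g i y (riem (G.g i) y u v x) w = G.g i y (riem (G.g i) y x w u) v := by
  rw [(G.mf i).riem_eq, (G.mf i).riem_eq]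
  exact (G.mf i).R_pair y u v x w

/-- the curvature tensor in the chart `i` -/
theorem Rm_Par (G : Met K) (i : Ix) (y u v x : E K) :
    Rm G (Par i y) (fderiv ℝ (Par i) y u) (fderiv ℝ (Par i) y v) (fderiv ℝ (Par i) y x) =
      fderiv ℝ (Par i) y (riem (G.g i) y u v x) := by
  set j := idx (Par i y) with hj
  have hy : y ∈ ov K i j := mem_Dom_idx (Par i y)
  have hchain : ∀ u : E K, fderiv ℝ (Cor j) (Par i y) (fderiv ℝ (Par i) y u) =
      fderiv ℝ (tr i j) y u := by
    intro u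
    have h1 : DifferentiableAt ℝ (Cor j) (Par i y) :=
      ((contDiffOn_Cor j).contDiffAt ((isOpen_Dom j).mem_nhds hy)).differentiableAt (by simp)
    have h2 : DifferentiableAt ℝ (Par i : E K → V K) y :=
      ((contDiff_Par i).differentiable (by simp)) y
    have h3 : (tr i j : E K → E K) = Cor j ∘ Par i := rfl
    rw [h3, fderiv_comp y h1 h2]
    rfl
  unfold Rm
  rw [← hj, hchain, hchain, hchain]
  have h4 : Cor j (Par i y) = tr i j y := rfl
  rw [h4, riem_tr G i j hy, fderiv_Par_tr i j hy]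

section J

variable {G : Met K} {a : Form2 K} (S : JStr G a)

/-- `J` in the chart `i` -/
def Jl (i : Ix) (y : E K) : E K →L[ℝ] E K :=
  (fderiv ℝ (Cor i) (Par i y)).comp ((S.J (Par i y)).comp (fderiv ℝ (Par i) y))

theorem Jl_apply (i : Ix) (y v : E K) :
    Jl S i y v = fderiv ℝ (Cor i) (Par i y) (S.J (Par i y) (fderiv ℝ (Par i) y v)) := rfl

theorem DPar_mem (i : Ix) (y v : E K) : fderiv ℝ (Par i) y v ∈ Tan (Par i y) :=
  (mem_Tan_Par i y _).2 ⟨v, rfl⟩

theorem DPar_DCor (i : Ix) (y : E K) {v : V K} (hv : v ∈ Tan (Par i y)) :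
    fderiv ℝ (Par i) y (fderiv ℝ (Cor i) (Par i y) v) = v := by
  have h1 := fderiv_Par_Cor i (Par_mem i y) (Par_mem_Dom i y) hv
  rw [Cor_Par] at h1
  exact h1

theorem DPar_Jl (i : Ix) (y v : E K) :
    fderiv ℝ (Par i) y (Jl S i y v) = S.J (Par i y) (fderiv ℝ (Par i) y v) :=
  DPar_DCor i y (S.mem _ (Par_mem i y) _ (DPar_mem i y v))

theorem gm_Par (i : Ix) (y u v : E K) :
    gm G (Par i y) (fderiv ℝ (Par i) y u) (fderiv ℝ (Par i) y v) = G.g i y u v :=
  amb_Par G.compat i y u v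

theorem contDiff_DCor_Par (i : Ix) :
    ContDiff ℝ ∞ (fun y : E K => fderiv ℝ (Cor i : V K → E K) (Par i y)) := by
  rw [contDiff_iff_contDiffAt]
  intro y
  have h1 : ContDiffAt ℝ ∞ (Cor i : V K → E K) (Par i y) :=
    (contDiffOn_Cor i).contDiffAt ((isOpen_Dom i).mem_nhds (Par_mem_Dom i y))
  have h2 : ContDiffAt ℝ ∞ (fderiv ℝ (Cor i : V K → E K)) (Par i y) :=
    h1.fderiv_right (by simp)
  exact h2.comp y (contDiff_Par i).contDiffAt

theorem contDiff_DPar (i : Ix) : ContDiff ℝ ∞ (fderiv ℝ (Par i : E K → V K)) :=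
  (contDiff_Par i).fderiv_right (by simp)

theorem contDiff_Jl (i : Ix) : ContDiff ℝ ∞ (Jl S i) := by
  unfold Jl
  exact (contDiff_DCor_Par i).clm_comp ((S.smooth.comp (contDiff_Par i)).clm_comp
    (contDiff_DPar i))

theorem exists_frm (i : Ix) (y : E K) : ∃ e0 e1, Frm (G.g i y) (Jl S i y) e0 e1 := by
  obtain ⟨f, hf⟩ := S.basis _ (Par_mem i y)
  have he : ∀ j, fderiv ℝ (Par i) y (fderiv ℝ (Cor i) (Par i y) (f j)) = f j := fun j =>
    DPar_DCor i y (hf.mem j)
  refine ⟨fderiv ℝ (Cor i) (Par i y) (f 0), fderiv ℝ (Cor i) (Par i y) (f 1),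
    G.symm i y, ?_, ?_, ?_, ?_⟩
  · rw [← gm_Par, he, hf.orth, if_pos rfl]
  · rw [← gm_Par, he, hf.orth, if_pos rfl]
  · rw [← gm_Par, he, he, hf.orth, if_neg]
    intro h
    have := congrArg Fin.val h
    simp at this
  · intro x
    have h1 := hf.expand (Par_mem i y) (DPar_mem i y x)
    rw [Fin.sum_univ_succ, Fin.sum_univ_succ] at h1
    have h2 : S.J (Par i y) (fderiv ℝ (Par i) y x) =
        gm G (Par i y) (fderiv ℝ (Par i) y x) (f 0) • f 1 -
          gm G (Par i y) (fderiv ℝ (Par i) y x) (f 1) • f 0 := by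
      conv_lhs => rw [h1]
      rw [map_add, map_add, map_sum, map_smul, map_smul, hf.J0]
      have h3 : ∀ j ∈ (Finset.univ : Finset (Fin (K + 2))), S.J (Par i y)
          (gm G (Par i y) (fderiv ℝ (Par i) y x) (f j.succ.succ) • f j.succ.succ) = 0 := by
        intro j _
        rw [map_smul, hf.J2, smul_zero]
      rw [Finset.sum_eq_zero h3]
      have h4 : f (Fin.succ 0) = f 1 := rfl
      rw [h4, hf.J1]
      module
    rw [Jl_apply, h2, map_sub, map_smul, map_smul]
    have h5 : ∀ j, G.g i y x (fderiv ℝ (Cor i) (Par i y) (f j)) =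
        gm G (Par i y) (fderiv ℝ (Par i) y x) (f j) := by
      intro j
      rw [← gm_Par, he]
    rw [h5, h5]

theorem Jl_pj (i : Ix) : PJ (G.g i) (Jl S i) where
  smooth := contDiff_Jl S i
  par y u v := by
    have h1 := S.par i y u v
    have h2 : DifferentiableAt ℝ (Jl S i) y := ((contDiff_Jl S i).differentiable (by simp)) y
    have h3 := fd_app h2 (differentiableAt_const (c := v) (x := y)) u
    simp only [fderiv_fun_const, Pi.zero_apply, zero_apply, map_zero, add_zero] at h3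
    have h4 : (fun z => fderiv ℝ (Cor i) (Par i z) (S.J (Par i z) (fderiv ℝ (Par i) z v))) =
        fun z => Jl S i z v := rfl
    rw [h4, h3, ← Jl_apply, ← Jl_apply] at h1
    rw [chrB_apply, chrB_apply]
    rw [sub_eq_zero] at h1
    rw [← h1]
    abel
  frm := exists_frm S i

theorem kap_iff (i : Ix) (y : E K) (k : ℝ) :
    (∀ u v x : E K, Jl S i y (Jl S i y x) = -x →
      RB (G.g i) y u v x = -(k * G.g i y (Jl S i y u) v) • Jl S i y x) ↔
    ∀ u ∈ Tan (Par i y), ∀ v ∈ Tan (Par i y), ∀ x ∈ Tan (Par i y),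
      S.J (Par i y) (S.J (Par i y) x) = -x →
      Rm G (Par i y) u v x = -(k * gm G (Par i y) (S.J (Par i y) u) v) • S.J (Par i y) x := by
  constructor
  · intro h u hu v hv x hx hJ
    obtain ⟨u', rfl⟩ := (mem_Tan_Par i y u).1 hu
    obtain ⟨v', rfl⟩ := (mem_Tan_Par i y v).1 hv
    obtain ⟨x', rfl⟩ := (mem_Tan_Par i y x).1 hx
    have h1 : Jl S i y (Jl S i y x') = -x' := by
      rw [← DPar_Jl, ← DPar_Jl] at hJ
      have h2 := congrArg (fderiv ℝ (Cor i) (Par i y)) hJ
      rw [map_neg, fderiv_Cor_Par, fderiv_Cor_Par] at h2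
      exact h2
    rw [Rm_Par, (G.mf i).riem_eq, h u' v' x' h1, ← DPar_Jl, ← DPar_Jl, gm_Par, map_smul]
  · intro h u v x hJ
    have h1 : S.J (Par i y) (S.J (Par i y) (fderiv ℝ (Par i) y x)) = -fderiv ℝ (Par i) y x := by
      rw [← DPar_Jl, ← DPar_Jl, hJ, map_neg]
    have h2 := h _ (DPar_mem i y u) _ (DPar_mem i y v) _ (DPar_mem i y x) h1
    rw [Rm_Par, (G.mf i).riem_eq, ← DPar_Jl, ← DPar_Jl, gm_Par, ← map_smul] at h2
    have h3 := congrArg (fderiv ℝ (Cor i) (Par i y)) h2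
    rw [fderiv_Cor_Par, fderiv_Cor_Par] at h3
    exact h3

end J

theorem exists_kappa {G : Met K} {a : Form2 K} (S : JStr G a) : Nonempty (KStr G S) := by
  obtain ⟨Ψ, hΨ, hval⟩ := exists_ext (fun (i : Ix) (p : V K) => kap (G.g i) (Jl S i) (Cor i p))
    (fun i => ((Jl_pj S i).contDiff_kap (G.mf i)).comp_contDiffOn (contDiffOn_Cor i))
  -- the value in an arbitrary chart
  have hkey : ∀ (i : Ix) (p : V K), p ∈ carrier K → p ∈ Dom K i →
      Ψ p = kap (G.g i) (Jl S i) (Cor i p) := by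
    intro i p hp hd
    refine hval p LinearMap.id _ fun j hj => ?_
    have hi : Par i (Cor i p) = p := Par_Cor i hp hd
    have hj' : Par j (Cor j p) = p := Par_Cor j hp hj
    refine (Jl_pj S j).kap_unique (G.mf j) (Cor j p) ?_
    rw [kap_iff, hj', ← hi]
    have h1 := (kap_iff S i (Cor i p) (kap (G.g i) (Jl S i) (Cor i p))).1
      (fun u v x hx => (Jl_pj S i).kap_spec (G.mf i) (Cor i p) u v hx)
    rw [Cor_Par]
    exact h1
  have hPar : ∀ (i : Ix) (y : E K), Ψ (Par i y) = kap (G.g i) (Jl S i) y := by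
    intro i y
    rw [hkey i (Par i y) (Par_mem i y) (Par_mem_Dom i y), Cor_Par]
  refine ⟨⟨Ψ, hΨ, ?_, ?_, ?_⟩⟩
  · intro p hp
    have hi : Par (idx p) (Cor (idx p) p) = p := Par_Cor (idx p) hp (mem_Dom_idx p)
    rw [← hi]
    rw [hPar]
    exact (kap_iff S (idx p) (Cor (idx p) p) _).1
      (fun u v x hx => (Jl_pj S (idx p)).kap_spec (G.mf (idx p)) (Cor (idx p) p) u v hx)
  · intro p hp
    set i := idx p with hidx
    have hi : Par i (Cor i p) = p := Par_Cor i hp (mem_Dom_idx p)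
    rw [← hi]
    intro u hu v hv x hx hJu hJv hJx
    obtain ⟨u', rfl⟩ := (mem_Tan_Par i _ u).1 hu
    obtain ⟨v', rfl⟩ := (mem_Tan_Par i _ v).1 hv
    obtain ⟨x', rfl⟩ := (mem_Tan_Par i _ x).1 hx
    obtain ⟨e0, e1, h⟩ := exists_frm S i (Cor i p)
    have hL1 : ∀ u' : E K, S.J (Par i (Cor i p)) (S.J (Par i (Cor i p))
        (fderiv ℝ (Par i) (Cor i p) u')) = -fderiv ℝ (Par i) (Cor i p) u' →
        Jl S i (Cor i p) (Jl S i (Cor i p) u') = -u' := by
      intro u' hJ
      rw [← DPar_Jl, ← DPar_Jl] at hJ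
      have h2 := congrArg (fderiv ℝ (Cor i) (Par i (Cor i p))) hJ
      rw [map_neg, fderiv_Cor_Par, fderiv_Cor_Par] at h2
      exact h2
    have hL2 : Jl S i (Cor i p) x' = 0 := by
      rw [Jl_apply, hJx, map_zero]
    rw [Rm_Par, (G.mf i).riem_eq,
      ((Jl_pj S i).crv (G.mf i) (Cor i p)).curv2 h (hL1 u' hJu) (hL1 v' hJv) hL2, map_zero]
  · intro p hp
    set i := idx p with hidx
    have hi : Par i (Cor i p) = p := Par_Cor i hp (mem_Dom_idx p)
    rw [← hi]
    intro v hv hJv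
    obtain ⟨v', rfl⟩ := (mem_Tan_Par i _ v).1 hv
    have h1 : Jl S i (Cor i p) v' = 0 := by
      rw [Jl_apply, hJv, map_zero]
    have h2 := (Jl_pj S i).dkap (G.mf i) (Cor i p) v' h1
    have h3 : kap (G.g i) (Jl S i) = Ψ ∘ Par i := funext fun y => (hPar i y).symm
    have h4 : DifferentiableAt ℝ Ψ (Par i (Cor i p)) := (hΨ.differentiable (by simp)) _
    have h5 : DifferentiableAt ℝ (Par i : E K → V K) (Cor i p) :=
      ((contDiff_Par i).differentiable (by simp)) _
    rw [h3, fderiv_comp _ h4 h5] at h2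
    exact h2

end Pool.Agent.H86.Nco
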