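import Pool.Agent.H86.Nco.HAlg
import Pool.Agent.H86.Nco.HDivA
import Pool.Agent.H86.Nco.SCurv

/-!
# Module HDIV: the divergence theorem on `M`

`trD`: derivative of a contraction: for a smooth family `β` of bilinear forms
`D_u (∑ₐ β(eₐ, eₐ)) = ∑ₐ (∇_u β)(eₐ, eₐ)`, `eₐ = onb (g y)` (the point-dependent basis!), where
`(∇_u β)(v, w) = D_u β (v, w) - β(chr u v, w) - β(v, chr u w)`.  Proof: by `trace_eq` the left hand side is
`∑ (D_u ginvⱼₖ) β(bsⱼ, bsₖ) + ginvⱼₖ D_uβ(bsⱼ, bsₖ)`; `D ginv = - ginv (D gram) ginv` and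
`D_u gram_{jk} = g(chr u bsⱼ, bsₖ) + g(bsⱼ, chr u bsₖ)` (`fderiv_g_eq`).
`dvol`: `D_u vol = vol * trace (v ↦ chr u v)` (Jacobi formula `Matrix.det` derivative, `fderiv_g_eq`).
`vol_divg`: `vol * divg = ∑_k D_{bs_k} (vol * Y^k)`: `divg = trace (u ↦ D_u Y + chr u Y)` (in an orthonormal basis),
`chr` symmetric.
`int_divg`: partition of unity `χ` (`exists_pu`): `divg Y = ∑_i divg (χ_i Y)`; for `χ_i Y` compute `IM` in the
chart `i` (`IM_eq`), where `vol * χ_i Y` has compact support, so the integral of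
`∑_k D_{bs_k} (vol χ_i Y^k)` vanishes (`integral_fderiv...`/`integral_eq_zero_of_hasCompactSupport` type
lemma: the integral of a directional derivative of a compactly supported `C^1` function is `0`;
see `MeasureTheory.integral_bilinear_hasLineDerivAt_right_eq_neg_left_of_integrable` or
`integral_fderiv_smul_eq_neg_fderiv_smul_of_integrable` in Mathlib).
-/

open scoped Manifold ContDiff Bundle Topology

noncomputable section

namespace Pool.Agent.H86.Nco

open Pool.Agent.H86.Anco MeasureTheory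

set_option maxSynthPendingDepth 3

variable {K : ℕ}

/-- divergence of a vector field -/
def divg (G : Met K) (Y : Ix → E K → E K) (i : Ix) (y : E K) : ℝ :=
  ∑ j, G.g i y (fderiv ℝ (Y i) y (onb (G.g i y) j)
    + chr (G.g i) y (onb (G.g i y) j) (Y i y)) (onb (G.g i y) j)

namespace HDiv

/-- the Gram matrix -/
def gr (B : Bil K) : Matrix (Fin (K + 4)) (Fin (K + 4)) ℝ :=
  Matrix.of fun j k => B (bs K j) (bs K k)

theorem ginv_eq (B : Bil K) : ginv B = (gr B)⁻¹ := rfl

theorem vol_eq (B : Bil K) : vol B = √(gr B).det := rfl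

theorem det_pos {B : Bil K} (hB : PosDef B) : 0 < (gr B).det := by
  have h := vol_pos hB
  rw [vol_eq] at h
  exact Real.sqrt_pos.1 h

theorem isUnit_det {B : Bil K} (hB : PosDef B) : IsUnit (gr B).det :=
  isUnit_iff_ne_zero.2 (det_pos hB).ne'

theorem ginv_mul {B : Bil K} (hB : PosDef B) : ginv B * gr B = 1 :=
  Matrix.nonsing_inv_mul _ (isUnit_det hB)

theorem mul_ginv {B : Bil K} (hB : PosDef B) : gr B * ginv B = 1 :=
  Matrix.mul_nonsing_inv _ (isUnit_det hB)

/-- the matrix of a linear map in the fixed basis -/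
def mt (L : E K → E K) : Matrix (Fin (K + 4)) (Fin (K + 4)) ℝ :=
  Matrix.of fun c j => (bs K).repr (L (bs K j)) c

theorem expand (v : E K) : v = ∑ c, (bs K).repr v c • bs K c := ((bs K).sum_repr v).symm

theorem left_mt (β : Bil K) (L : E K → E K) (j k : Fin (K + 4)) :
    β (L (bs K j)) (bs K k) = ((mt L).transpose * gr β) j k := by
  conv_lhs => rw [expand (L (bs K j))]
  simp only [map_sum, map_smul, ContinuousLinearMap.sum_apply, ContinuousLinearMap.smul_apply,
    smul_eq_mul, Matrix.mul_apply, Matrix.transpose_apply, mt, gr, Matrix.of_apply]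

theorem right_mt (β : Bil K) (L : E K → E K) (j k : Fin (K + 4)) :
    β (bs K j) (L (bs K k)) = (gr β * mt L) j k := by
  conv_lhs => rw [expand (L (bs K k))]
  simp only [map_sum, map_smul, smul_eq_mul, Matrix.mul_apply, mt, gr, Matrix.of_apply]
  exact Finset.sum_congr rfl fun c _ => mul_comm _ _

/-- contraction with a matrix -/
theorem contr_eq (M N : Matrix (Fin (K + 4)) (Fin (K + 4)) ℝ) :
    ∑ j, ∑ k, M j k * N j k = (M * N.transpose).trace := by
  simp [Matrix.trace, Matrix.mul_apply]

/-- the trace in an orthonormal basis -/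
theorem trace_lin {B : Bil K} (hB : PosDef B) (L : E K →L[ℝ] E K) :
    ∑ j, B (L (onb B j)) (onb B j) = ∑ k, (bs K).repr (L (bs K k)) k := by
  have h := trace_eq hB (B.comp L)
  simp only [ContinuousLinearMap.comp_apply] at h
  rw [h]
  have h1 : ∀ j k, B (L (bs K j)) (bs K k) = ((mt L).transpose * gr B) j k :=
    fun j k => left_mt B L j k
  simp only [h1]
  rw [contr_eq, Matrix.transpose_mul, Matrix.transpose_transpose]
  have h2 : (gr B).transpose = gr B := by
    ext j k
    exact hB.symm _ _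
  rw [h2, ← Matrix.mul_assoc, ginv_mul hB, Matrix.one_mul]
  rfl

/-- the matrix of `chr u` -/
theorem chr_lin (G : Met K) (i : Ix) (y u : E K) :
    (fun v => chr (G.g i) y u v) = ⇑(Natural.chrB (G.g i) y u) := rfl

/-- derivative of the Gram matrix -/
theorem fderiv_gr (G : Met K) (i : Ix) (y u : E K) :
    (Matrix.of fun j k => fderiv ℝ (fun z => gr (G.g i z) j k) y u) =
      (mt (fun v => chr (G.g i) y u v)).transpose * gr (G.g i y)
        + gr (G.g i y) * mt (fun v => chr (G.g i) y u v) := by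
  ext j k
  rw [Matrix.add_apply, ← left_mt (G.g i y) (fun v => chr (G.g i) y u v),
    ← right_mt (G.g i y) (fun v => chr (G.g i) y u v), ← fderiv_g_eq]
  have h1 : HasFDerivAt (fun z => G.g i z) (fderiv ℝ (G.g i) y) y :=
    ((G.smooth i).differentiable (by simp) y).hasFDerivAt
  have h2 := (h1.clm_apply (hasFDerivAt_const (bs K j) y)).clm_apply
    (hasFDerivAt_const (bs K k) y)
  have h3 : (fun z => gr (G.g i z) j k) = fun z => G.g i z (bs K j) (bs K k) := rfl
  rw [Matrix.of_apply, h3, h2.fderiv]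
  simp

theorem diff_gr (G : Met K) (i : Ix) (y : E K) (j k : Fin (K + 4)) :
    DifferentiableAt ℝ (fun z => gr (G.g i z) j k) y := by
  have h1 : DifferentiableAt ℝ (fun z => G.g i z) y := (G.smooth i).differentiable (by simp) y
  exact (h1.clm_apply (differentiableAt_const _)).clm_apply (differentiableAt_const _)

theorem fderiv_ginv (G : Met K) (i : Ix) (y u : E K) :
    (Matrix.of fun j k => fderiv ℝ (fun z => ginv (G.g i z) j k) y u) =
      -(ginv (G.g i y) * (mt (fun v => chr (G.g i) y u v)).transpose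
        + mt (fun v => chr (G.g i) y u v) * ginv (G.g i y)) := by
  have h := HDivA.fderiv_inv (A := fun z => gr (G.g i z)) (y := y) (diff_gr G i y)
    (fun j k => (contDiff_ginv (G.smooth i) (G.posDef i) j k).differentiable (by simp) y)
    (fun z => isUnit_det (G.posDef i z)) u
  have h' : (Matrix.of fun j k => fderiv ℝ (fun z => ginv (G.g i z) j k) y u) = _ := h
  rw [h', fderiv_gr]
  have e1 := ginv_mul (G.posDef i y)
  have e2 := mul_ginv (G.posDef i y)
  rw [← ginv_eq, mul_add, add_mul]
  congr 2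
  · rw [Matrix.mul_assoc, Matrix.mul_assoc, e2, Matrix.mul_one]
  · rw [← Matrix.mul_assoc, e1, Matrix.one_mul]

/-- derivative of the volume density -/
theorem fderiv_vol (G : Met K) (i : Ix) (y u : E K) :
    fderiv ℝ (fun z => vol (G.g i z)) y u =
      vol (G.g i y) * ∑ k, (bs K).repr (chr (G.g i) y u (bs K k)) k := by
  have hpos := det_pos (G.posDef i y)
  have hd : DifferentiableAt ℝ (fun z => (gr (G.g i z)).det) y := by
    have h1 : ∀ z, (gr (G.g i z)).det = HDivA.detF (fun j k => gr (G.g i z) j k) := fun z => rfl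
    simp only [h1]
    have h2 : DifferentiableAt ℝ (fun z => fun j k => gr (G.g i z) j k) y := by
      rw [differentiableAt_pi]
      intro j
      rw [differentiableAt_pi]
      intro k
      exact diff_gr G i y j k
    exact ((HDivA.contDiff_detF).differentiable (by simp) _).comp y h2
  have h := HDivA.fderiv_det (A := fun z => gr (G.g i z)) (y := y) (diff_gr G i y)
    (isUnit_det (G.posDef i y)) u
  have h1 : ∑ a, ∑ k, (gr (G.g i y))⁻¹ a k * fderiv ℝ (fun z => gr (G.g i z) k a) y u =
      2 * ∑ k, (bs K).repr (chr (G.g i) y u (bs K k)) k := by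
    have h2 : ∑ a, ∑ k, (gr (G.g i y))⁻¹ a k * fderiv ℝ (fun z => gr (G.g i z) k a) y u =
        (ginv (G.g i y) * (Matrix.of fun j k => fderiv ℝ (fun z => gr (G.g i z) j k) y u)).trace := by
      simp [Matrix.trace, Matrix.mul_apply, ginv_eq]
    have h3 : (mt (fun v => chr (G.g i) y u v)).trace =
        ∑ k, (bs K).repr (chr (G.g i) y u (bs K k)) k := by
      simp [Matrix.trace, mt]
    rw [h2, fderiv_gr, mul_add, Matrix.trace_add, ← Matrix.mul_assoc, ← Matrix.mul_assoc,
      Matrix.trace_mul_cycle, mul_ginv (G.posDef i y), Matrix.one_mul, Matrix.trace_transpose,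
      ginv_mul (G.posDef i y), Matrix.one_mul, h3]
    ring
  have h2 : fderiv ℝ (fun z => vol (G.g i z)) y u =
      (1 / (2 * √(gr (G.g i y)).det)) * fderiv ℝ (fun z => (gr (G.g i z)).det) y u := by
    have h3 := hd.hasFDerivAt.sqrt hpos.ne'
    have h4 : (fun z => vol (G.g i z)) = fun z => √(gr (G.g i z)).det := rfl
    rw [h4, h3.fderiv]
    simp
  rw [h2, h, h1, vol_eq]
  have hs : √(gr (G.g i y)).det ≠ 0 := (Real.sqrt_pos.2 hpos).ne'
  have hs2 : (gr (G.g i y)).det = √(gr (G.g i y)).det * √(gr (G.g i y)).det :=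
    (Real.mul_self_sqrt hpos.le).symm
  generalize ∑ k, (bs K).repr (chr (G.g i) y u (bs K k)) k = t
  generalize √(gr (G.g i y)).det = s at *
  rw [hs2]
  field_simp

/-- the linear map `u ↦ D_u Y + chr u Y` -/
def LY (G : Met K) (Y : Ix → E K → E K) (i : Ix) (y : E K) : E K →L[ℝ] E K :=
  fderiv ℝ (Y i) y + (Natural.chrB (G.g i) y).flip (Y i y)

theorem LY_apply (G : Met K) (Y : Ix → E K → E K) (i : Ix) (y u : E K) :
    LY G Y i y u = fderiv ℝ (Y i) y u + chr (G.g i) y u (Y i y) := rfl

theorem divg_eq (G : Met K) (Y : Ix → E K → E K) (i : Ix) (y : E K) :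
    divg G Y i y = ∑ j, G.g i y (LY G Y i y (onb (G.g i y) j)) (onb (G.g i y) j) := rfl

end HDiv

end Pool.Agent.H86.Nco
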