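import Pool.Agent.H86.Nco.HCompat
import Pool.Agent.H86.Nco.HDivB
import Pool.Agent.H86.Nco.HMeas

/-!
# Module HDIV: the divergence theorem on `M`

`trD`: derivative of a contraction: for a smooth family `β` of bilinear forms
`D_u (∑ₐ β(eₐ, eₐ)) = ∑ₐ (∇_u β)(eₐ, eₐ)`, `eₐ = onb (g y)` (the point-dependent basis!), where
`(∇_u β)(v, w) = D_u β (v, w) - β(chr u v, w) - β(v, chr u w)`.  Proof: by `trace_eq` the left hand side is
`∑ (D_u ginvⱼₖ) β(bsⱼ, bsₖ) + ginvⱼₖ D_uβ(bsⱼ, bsₖ)`; `D ginv = - ginv (D gram) ginv` and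
`D_u gram_{jk} = g(chr u bsⱼ, bsₖ) + g(bsⱼ, chr u bsₖ)` (`fderiv_g_eq`).
`dvol`: `D_u vol = vol * trace (v ↦ chr u v)` (Jacobi formula `Matrix.det` derivative, `fderiv_g_eq`).
`vol_divg`: `vol * divg = ∑_k D_{bs_k} (vol * Y^k)`: `divg = trace (u ↦ D_u Y + chr u Y)` (in an orthonormal basis),
`chr` symmetric.
`int_divg`: partition of unity `χ` (`exists_pu`): `divg Y = ∑_i divg (χ_i Y)`; for `χ_i Y` compute `IM` in the
chart `i` (`IM_eq`), where `vol * χ_i Y` has compact support, so the integral of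
`∑_k D_{bs_k} (vol χ_i Y^k)` vanishes (`integral_fderiv...`/`integral_eq_zero_of_hasCompactSupport` type
lemma: the integral of a directional derivative of a compactly supported `C^1` function is `0`;
see `MeasureTheory.integral_bilinear_hasLineDerivAt_right_eq_neg_left_of_integrable` or
`integral_fderiv_smul_eq_neg_fderiv_smul_of_integrable` in Mathlib).
-/

open scoped Manifold ContDiff Bundle Topology

noncomputable section

namespace Pool.Agent.H86.Nco

open Pool.Agent.H86.Anco MeasureTheory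

set_option maxSynthPendingDepth 3

variable {K : ℕ}

open HDiv

theorem trD (G : Met K) (i : Ix) {β : E K → Bil K} (hβ : ContDiff ℝ ∞ β) (y u : E K) :
    fderiv ℝ (fun z => ∑ j, β z (onb (G.g i z) j) (onb (G.g i z) j)) y u =
      ∑ j, (fderiv ℝ β y u (onb (G.g i y) j) (onb (G.g i y) j)
        - β y (chr (G.g i) y u (onb (G.g i y) j)) (onb (G.g i y) j)
        - β y (onb (G.g i y) j) (chr (G.g i) y u (onb (G.g i y) j))) := by
  -- the left hand side
  have hβd : ∀ j k, HasFDerivAt (fun z => β z (bs K j) (bs K k))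
      (fderiv ℝ (fun z => β z (bs K j) (bs K k)) y) y := fun j k =>
    (((hβ.differentiable (by simp) y).clm_apply (differentiableAt_const _)).clm_apply
      (differentiableAt_const _)).hasFDerivAt
  have hβe : ∀ j k, fderiv ℝ (fun z => β z (bs K j) (bs K k)) y u =
      fderiv ℝ β y u (bs K j) (bs K k) := by
    intro j k
    have h2 := ((hβ.differentiable (by simp) y).hasFDerivAt.clm_apply
      (hasFDerivAt_const (bs K j) y)).clm_apply (hasFDerivAt_const (bs K k) y)
    rw [h2.fderiv]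
    simp
  have hgd : ∀ j k, HasFDerivAt (fun z => ginv (G.g i z) j k)
      (fderiv ℝ (fun z => ginv (G.g i z) j k) y) y := fun j k =>
    ((contDiff_ginv (G.smooth i) (G.posDef i) j k).differentiable (by simp) y).hasFDerivAt
  have hge : ∀ j k, fderiv ℝ (fun z => ginv (G.g i z) j k) y u =
      (-(ginv (G.g i y) * (mt (fun v => chr (G.g i) y u v)).transpose
        + mt (fun v => chr (G.g i) y u v) * ginv (G.g i y))) j k := by
    intro j k
    rw [← fderiv_ginv]
    rfl
  have hL : fderiv ℝ (fun z => ∑ j, β z (onb (G.g i z) j) (onb (G.g i z) j)) y u =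
      ∑ j, ∑ k, (ginv (G.g i y) j k * fderiv ℝ β y u (bs K j) (bs K k)
        + β y (bs K j) (bs K k) * (-(ginv (G.g i y) * (mt (fun v => chr (G.g i) y u v)).transpose
        + mt (fun v => chr (G.g i) y u v) * ginv (G.g i y))) j k) := by
    have h1 : (fun z => ∑ j, β z (onb (G.g i z) j) (onb (G.g i z) j)) =
        fun z => ∑ j, ∑ k, ginv (G.g i z) j k * β z (bs K j) (bs K k) := by
      funext z
      exact trace_eq (G.posDef i z) (β z)
    have h2 : HasFDerivAt (fun z => ∑ j, ∑ k, ginv (G.g i z) j k * β z (bs K j) (bs K k))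
        (∑ j, ∑ k, (ginv (G.g i y) j k • fderiv ℝ (fun z => β z (bs K j) (bs K k)) y
          + β y (bs K j) (bs K k) • fderiv ℝ (fun z => ginv (G.g i z) j k) y)) y :=
      HasFDerivAt.fun_sum fun j _ => HasFDerivAt.fun_sum fun k _ => (hgd j k).fun_mul (hβd j k)
    rw [h1, h2.fderiv]
    simp only [ContinuousLinearMap.sum_apply, ContinuousLinearMap.add_apply,
      ContinuousLinearMap.smul_apply, smul_eq_mul, hβe, hge]
  -- the right hand side
  let C : E K →L[ℝ] E K := Natural.chrB (G.g i) y u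
  have hR1 := trace_eq (G.posDef i y) (fderiv ℝ β y u)
  have hR2 := trace_eq (G.posDef i y) ((β y).comp C)
  have hR3 := trace_eq (G.posDef i y) ((β y).flip.comp C).flip
  have hR2' : ∑ j, β y (chr (G.g i) y u (onb (G.g i y) j)) (onb (G.g i y) j) =
      ∑ j, ∑ k, ginv (G.g i y) j k * β y (chr (G.g i) y u (bs K j)) (bs K k) := hR2
  have hR3' : ∑ j, β y (onb (G.g i y) j) (chr (G.g i) y u (onb (G.g i y) j)) =
      ∑ j, ∑ k, ginv (G.g i y) j k * β y (bs K j) (chr (G.g i) y u (bs K k)) := hR3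
  rw [hL, Finset.sum_sub_distrib, Finset.sum_sub_distrib, hR1, hR2', hR3']
  have e1 : ∀ j k, β y (chr (G.g i) y u (bs K j)) (bs K k) =
      ((mt (fun v => chr (G.g i) y u v)).transpose * gr (β y)) j k :=
    fun j k => left_mt (β y) (fun v => chr (G.g i) y u v) j k
  have e2 : ∀ j k, β y (bs K j) (chr (G.g i) y u (bs K k)) =
      (gr (β y) * mt (fun v => chr (G.g i) y u v)) j k :=
    fun j k => right_mt (β y) (fun v => chr (G.g i) y u v) j k
  simp only [e1, e2]
  rw [contr_eq (ginv (G.g i y)) ((mt (fun v => chr (G.g i) y u v)).transpose * gr (β y)),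
    contr_eq (ginv (G.g i y)) (gr (β y) * mt (fun v => chr (G.g i) y u v))]
  have e3 : ∑ j, ∑ k, (ginv (G.g i y) j k * fderiv ℝ β y u (bs K j) (bs K k)
        + β y (bs K j) (bs K k) * (-(ginv (G.g i y) * (mt (fun v => chr (G.g i) y u v)).transpose
        + mt (fun v => chr (G.g i) y u v) * ginv (G.g i y))) j k) =
      ∑ j, ∑ k, ginv (G.g i y) j k * fderiv ℝ β y u (bs K j) (bs K k)
        + ∑ j, ∑ k, (-(ginv (G.g i y) * (mt (fun v => chr (G.g i) y u v)).transpose
        + mt (fun v => chr (G.g i) y u v) * ginv (G.g i y))) j k * gr (β y) j k := by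
    simp only [Finset.sum_add_distrib]
    congr 1
    exact Finset.sum_congr rfl fun j _ => Finset.sum_congr rfl fun k _ => mul_comm _ _
  rw [e3, contr_eq (-(ginv (G.g i y) * (mt (fun v => chr (G.g i) y u v)).transpose
        + mt (fun v => chr (G.g i) y u v) * ginv (G.g i y))) (gr (β y))]
  rw [Matrix.neg_mul, Matrix.trace_neg, Matrix.add_mul, Matrix.trace_add,
    Matrix.transpose_mul, Matrix.transpose_mul, Matrix.transpose_transpose]
  have e4 : (ginv (G.g i y) * ((gr (β y)).transpose * mt (fun v => chr (G.g i) y u v))).trace =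
      (mt (fun v => chr (G.g i) y u v) * ginv (G.g i y) * (gr (β y)).transpose).trace := by
    rw [← Matrix.mul_assoc, Matrix.trace_mul_cycle, Matrix.mul_assoc]
  rw [e4, ← Matrix.mul_assoc (ginv (G.g i y))]
  ring

theorem vol_divg (G : Met K) {Y : Ix → E K → E K} (i : Ix) (hY : ContDiff ℝ ∞ (Y i)) (y : E K) :
    vol (G.g i y) * divg G Y i y =
      ∑ k, (bs K).repr (fderiv ℝ (fun z => vol (G.g i z) • Y i z) y (bs K k)) k := by
  have h1 : HasFDerivAt (fun z => vol (G.g i z)) (fderiv ℝ (fun z => vol (G.g i z)) y) y :=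
    ((contDiff_vol (G.smooth i) (G.posDef i)).differentiable (by simp) y).hasFDerivAt
  have h2 : HasFDerivAt (Y i) (fderiv ℝ (Y i) y) y :=
    (hY.differentiable (by simp) y).hasFDerivAt
  have h3 := h1.fun_smul h2
  have h4 : ∀ k, (bs K).repr (fderiv ℝ (fun z => vol (G.g i z) • Y i z) y (bs K k)) k =
      vol (G.g i y) * (bs K).repr (fderiv ℝ (Y i) y (bs K k)) k
        + (bs K).repr (Y i y) k * fderiv ℝ (fun z => vol (G.g i z)) y (bs K k) := by
    intro k
    rw [h3.fderiv]
    simp [mul_comm]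
  simp only [h4]
  rw [Finset.sum_add_distrib, ← Finset.mul_sum]
  have h5 : ∑ k, (bs K).repr (Y i y) k * fderiv ℝ (fun z => vol (G.g i z)) y (bs K k) =
      fderiv ℝ (fun z => vol (G.g i z)) y (Y i y) := by
    conv_rhs => rw [expand (Y i y)]
    simp only [map_sum, map_smul, smul_eq_mul]
  rw [h5, fderiv_vol, divg_eq, trace_lin (G.posDef i y), ← mul_add, ← Finset.sum_add_distrib]
  congr 1
  refine Finset.sum_congr rfl fun k _ => ?_
  rw [LY_apply, map_add, Finsupp.add_apply, chr_symm G i y (bs K k) (Y i y)]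

theorem compat0_divg (G : Met K) {Y : Ix → E K → E K} (hY : ∀ i, ContDiff ℝ ∞ (Y i))
    (hc : CompatV Y) : Compat0 (divg G Y) := by
  intro i j y hy
  have key : ∀ u, LY G Y j (tr i j y) (fderiv ℝ (tr i j) y u) =
      fderiv ℝ (tr i j) y (LY G Y i y u) := by
    intro u
    have h1 : (fun z => Y j (tr i j z)) =ᶠ[𝓝 y] fun z => fderiv ℝ (tr i j) z (Y i z) := by
      filter_upwards [(isOpen_ov i j).mem_nhds hy] with z hz
      exact hc i j z hz
    have h2 := h1.fderiv_eq (𝕜 := ℝ)
    have h3 : HasFDerivAt (fun z => Y j (tr i j z))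
        ((fderiv ℝ (Y j) (tr i j y)).comp (fderiv ℝ (tr i j) y)) y :=
      (((hY j).differentiable (by simp) (tr i j y)).hasFDerivAt).comp y
        (differentiableAt_tr i j hy).hasFDerivAt
    have h4 : HasFDerivAt (fderiv ℝ (tr i j)) (fderiv ℝ (fderiv ℝ (tr i j)) y) y :=
      (((SConn.contDiffAt_tr i j hy).fderiv_right (m := ∞) (by simp)).differentiableAt
        (by simp)).hasFDerivAt
    have h5 := h4.clm_apply ((hY i).differentiable (by simp) y).hasFDerivAt
    rw [h3.fderiv, h5.fderiv] at h2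
    have h6 := congrArg (fun L : E K →L[ℝ] E K => L u) h2
    simp only [ContinuousLinearMap.comp_apply, ContinuousLinearMap.add_apply,
      ContinuousLinearMap.flip_apply] at h6
    rw [LY_apply, LY_apply, h6, map_add, HCompat.chr_tr' G i j hy, hc i j y hy]
    abel
  rw [divg_eq, divg_eq]
  have h := HCompat.trace_tr G i j hy ((G.g j (tr i j y)).comp (LY G Y j (tr i j y)))
  simp only [ContinuousLinearMap.comp_apply] at h
  rw [← h]
  refine Finset.sum_congr rfl fun a _ => ?_
  rw [key, ← G.compat i j y hy]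

namespace HDiv

theorem contDiff_chrB (G : Met K) (i : Ix) : ContDiff ℝ ∞ (Natural.chrB (G.g i)) :=
  contDiff_iff_contDiffAt.2 fun y => Natural.contDiffAt_chrB (isMetricAt G i y)

theorem contDiff_clm {F : Type*} [NormedAddCommGroup F] [NormedSpace ℝ F] {f : E K → E K →L[ℝ] F}
    (h : ∀ v, ContDiff ℝ ∞ (fun y => f y v)) : ContDiff ℝ ∞ f :=
  contDiff_iff_contDiffAt.2 fun y => Natural.contDiffAt_clm_of_apply fun v => (h v).contDiffAt

theorem contDiff_LY_aux {X : Type*} [NormedAddCommGroup X] [NormedSpace ℝ X]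
    {A : X → X →L[ℝ] X} {B : X → X →L[ℝ] X →L[ℝ] X} {Y : X → X} (hA : ContDiff ℝ ∞ A)
    (hB : ContDiff ℝ ∞ B) (hY : ContDiff ℝ ∞ Y) (v : X) :
    ContDiff ℝ ∞ (fun y => A y v + B y v (Y y)) :=
  (hA.clm_apply contDiff_const).add ((hB.clm_apply contDiff_const).clm_apply hY)

theorem contDiff_LY (G : Met K) {Y : Ix → E K → E K} (hY : ∀ i, ContDiff ℝ ∞ (Y i)) (i : Ix) :
    ContDiff ℝ ∞ (LY G Y i) := by
  refine contDiff_clm fun v => ?_
  have h1 : ContDiff ℝ ∞ (fderiv ℝ (Y i)) := (hY i).fderiv_right (m := ∞) (by simp)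
  have h2 := contDiff_LY_aux h1 (contDiff_chrB G i) (hY i) v
  have h3 : (fun y => LY G Y i y v) =
      fun y => fderiv ℝ (Y i) y v + Natural.chrB (G.g i) y v (Y i y) := by
    funext y
    rfl
  rw [h3]
  exact h2

theorem haar2 (K : ℕ) : (volume : Measure (ℂ × F K)).IsAddHaarMeasure := by
  change ((volume : Measure ℂ).prod (volume : Measure (F K))).IsAddHaarMeasure
  infer_instance

theorem haar3 (K : ℕ) : (volume : Measure (E K)).IsAddHaarMeasure := by
  have := haar2 K
  exact MeasureTheory.Measure.prod.instIsAddHaarMeasure (volume : Measure ℂ)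
    (volume : Measure (ℂ × F K))

end HDiv

theorem cont_divg (G : Met K) {Y : Ix → E K → E K} (hY : ∀ i, ContDiff ℝ ∞ (Y i)) (i : Ix) :
    Continuous (divg G Y i) := by
  have h1 : ContDiff ℝ ∞ (fun y => (G.g i y).comp (LY G Y i y)) :=
    (G.smooth i).clm_comp (contDiff_LY G hY i)
  exact (contDiff_trace (G.smooth i) (G.posDef i) h1).continuous

namespace HDiv

/-- divergence theorem for a vector field supported in a chart -/
theorem int_divg_chart (G : Met K) {Y : Ix → E K → E K} (hY : ∀ i, ContDiff ℝ ∞ (Y i))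
    (hc : CompatV Y) (i : Ix) {C : Set (E K)} (hC : IsCompact C)
    (hs : ∀ y, Y i y ≠ 0 → y ∈ C) : IM G (divg G Y) = 0 := by
  have hH : (volume : Measure (E K)).IsAddHaarMeasure := haar3 K
  rw [IM_eq G (compat0_divg G hY hc) i]
  have h1 : ∀ y, divg G Y i y * vol (G.g i y) =
      ∑ k, fderiv ℝ (fun z => (bs K).repr (vol (G.g i z) • Y i z) k) y (bs K k) := by
    intro y
    rw [mul_comm, vol_divg G i (hY i)]
    refine Finset.sum_congr rfl fun k _ => ?_
    let ℓ : E K →L[ℝ] ℝ := LinearMap.toContinuousLinearMap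
      ((Finsupp.lapply k).comp ((bs K).repr : E K →ₗ[ℝ] (Fin (K + 4) →₀ ℝ)))
    have h2 : DifferentiableAt ℝ (fun z => vol (G.g i z) • Y i z) y :=
      ((contDiff_vol (G.smooth i) (G.posDef i)).smul (hY i)).differentiable (by simp) y
    have h3 := (ℓ.hasFDerivAt (x := vol (G.g i y) • Y i y)).comp y h2.hasFDerivAt
    have h4 : (fun z => (bs K).repr (vol (G.g i z) • Y i z) k) =
        ℓ ∘ (fun z => vol (G.g i z) • Y i z) := rfl
    rw [h4, h3.fderiv]
    rfl
  simp only [h1]
  have hsm : ∀ k, ContDiff ℝ ∞ (fun z => (bs K).repr (vol (G.g i z) • Y i z) k) := by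
    intro k
    let ℓ : E K →L[ℝ] ℝ := LinearMap.toContinuousLinearMap
      ((Finsupp.lapply k).comp ((bs K).repr : E K →ₗ[ℝ] (Fin (K + 4) →₀ ℝ)))
    exact ℓ.contDiff.comp ((contDiff_vol (G.smooth i) (G.posDef i)).smul (hY i))
  have hcs : ∀ k, HasCompactSupport (fun z => (bs K).repr (vol (G.g i z) • Y i z) k) := by
    intro k
    refine HasCompactSupport.intro hC fun z hz => ?_
    have h0 : Y i z = 0 := by
      by_contra hne
      exact hz (hs z hne)
    simp [h0]
  rw [integral_finsetSum]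
  · exact Finset.sum_eq_zero fun k _ =>
      HDivA.integral_fderiv_zero volume ((hsm k).of_le (by norm_cast)) (hcs k) (bs K k)
  · intro k _
    have h5 : Continuous (fun y => fderiv ℝ (fun z => (bs K).repr (vol (G.g i z) • Y i z) k) y
        (bs K k)) := ((hsm k).continuous_fderiv (by simp)).clm_apply continuous_const
    exact h5.integrable_of_hasCompactSupport ((hcs k).fderiv_apply ℝ _)

theorem divg_sum (G : Met K) {ι : Type*} (s : Finset ι) {Y : ι → Ix → E K → E K}
    (hY : ∀ a i, ContDiff ℝ ∞ (Y a i)) (i : Ix) (y : E K) :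
    divg G (fun i y => ∑ a ∈ s, Y a i y) i y = ∑ a ∈ s, divg G (Y a) i y := by
  simp only [divg_eq]
  rw [Finset.sum_comm]
  refine Finset.sum_congr rfl fun j _ => ?_
  have h1 : ∀ u, LY G (fun i y => ∑ a ∈ s, Y a i y) i y u = ∑ a ∈ s, LY G (Y a) i y u := by
    intro u
    have h2 : HasFDerivAt (fun z => ∑ a ∈ s, Y a i z) (∑ a ∈ s, fderiv ℝ (Y a i) y) y :=
      HasFDerivAt.fun_sum fun a _ => ((hY a i).differentiable (by simp) y).hasFDerivAt
    have h3 : chr (G.g i) y u (∑ a ∈ s, Y a i y) = ∑ a ∈ s, chr (G.g i) y u (Y a i y) :=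
      map_sum (Natural.chrB (G.g i) y u) _ _
    simp only [LY_apply]
    rw [h2.fderiv, ContinuousLinearMap.sum_apply, h3, Finset.sum_add_distrib]
  rw [h1, map_sum, ContinuousLinearMap.sum_apply]

theorem IM_sum (G : Met K) {ι : Type*} (s : Finset ι) {F : ι → Ix → E K → ℝ}
    (hF : ∀ a, Compat0 (F a)) (hc : ∀ a i, Continuous (F a i)) :
    IM G (fun i y => ∑ a ∈ s, F a i y) = ∑ a ∈ s, IM G (F a) := by
  classical
  induction s using Finset.induction_on with
  | empty => simp [IM]
  | insert a s ha ih =>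
    rw [Finset.sum_insert ha, ← ih, ← IM_add G (hF a) (F' := fun i y => ∑ a ∈ s, F a i y)
      (fun i j y hy => Finset.sum_congr rfl fun b _ => hF b i j y hy) (hc a)
      (fun i => continuous_finsetSum _ fun b _ => hc b i)]
    congr 1
    funext i y
    rw [Finset.sum_insert ha]

end HDiv

theorem int_divg (G : Met K) {Y : Ix → E K → E K} (hY : ∀ i, ContDiff ℝ ∞ (Y i))
    (hc : CompatV Y) : IM G (divg G Y) = 0 := by
  obtain ⟨χ, hχ, -, -, hsum, C, hC, hCs⟩ := exists_pu K
  let Z : Ix → Ix → E K → E K := fun a i y => χ a (Par i y) • Y i y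
  have hZ : ∀ a i, ContDiff ℝ ∞ (Z a i) := fun a i =>
    ((hχ a).comp (contDiff_Par i)).smul (hY i)
  have hZc : ∀ a, CompatV (Z a) := by
    intro a i j y hy
    change χ a (Par j (tr i j y)) • Y j (tr i j y) =
      fderiv ℝ (tr i j) y (χ a (Par i y) • Y i y)
    rw [Par_tr i j hy, hc i j y hy, map_smul]
  have h1 : Y = fun i y => ∑ a, Z a i y := by
    funext i y
    change Y i y = ∑ a, χ a (Par i y) • Y i y
    rw [← Finset.sum_smul, hsum, one_smul]
  have h2 : divg G Y = fun i y => ∑ a, divg G (Z a) i y := by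
    conv_lhs => rw [h1]
    funext i y
    exact divg_sum G Finset.univ hZ i y
  rw [h2, IM_sum G Finset.univ (fun a => compat0_divg G (hZ a) (hZc a))
    (fun a i => cont_divg G (hZ a) i)]
  refine Finset.sum_eq_zero fun a _ => ?_
  refine int_divg_chart G (hZ a) (hZc a) a hC fun y hy => hCs a y fun h0 => hy ?_
  change χ a (Par a y) • Y a y = 0
  rw [h0, zero_smul]

end Pool.Agent.H86.Nco
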