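import Pool.Agent.H86.Nco.HAlg
import Pool.Agent.H86.Nco.SCurv

/-!
# Module HRICCI: second covariant derivatives of two-tensors and the Ricci identity

`cd3 G T i y u v w x = (∇_u T)(v, w, x)` for a field `T` of trilinear forms.  For `T = ∇b`:
`(∇²b)(u, v; w, x) - (∇²b)(v, u; w, x) = - b(R(u,v)w, x) - b(w, R(u,v)x)`.  Direct computation in the
chart: the terms with second derivatives of `b` are symmetric in `u, v` (`b i` is smooth), the terms
with first derivatives of `b` cancel, the derivatives of `chr` and the products of two `chr` give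
`riem` (`chr` is symmetric; use `chrB`, `fderiv_chrB`, `contDiffAt_chrB` of `Anco/Natural.lean`).
-/

open scoped Manifold ContDiff Bundle Topology

noncomputable section

namespace Pool.Agent.H86.Nco

open Pool.Agent.H86.Anco

set_option maxSynthPendingDepth 3

variable {K : ℕ}

/-- covariant derivative of a field of trilinear forms of the chart `i` -/
def cd3 (G : Met K) (i : Ix) (T : E K → Tri K) (y u v w x : E K) : ℝ :=
  fderiv ℝ T y u v w x - T y (chr (G.g i) y u v) w x - T y v (chr (G.g i) y u w) x
    - T y v w (chr (G.g i) y u x)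

open SCurvA Pool.Agent.H86.Anco.Natural

theorem hr_app3 {A : E K → Tri K} {y : E K} (hA : DifferentiableAt ℝ A y) (u v w x : E K) :
    fderiv ℝ (fun z => A z v w x) y u = fderiv ℝ A y u v w x := by
  have h1 : DifferentiableAt ℝ (fun z => A z v w) y :=
    (hA.clm_apply (differentiableAt_const v)).clm_apply (differentiableAt_const w)
  rw [fd_app h1 (differentiableAt_const x),
    fd_app2 hA (differentiableAt_const v) (differentiableAt_const w)]
  simp

theorem hr_app2 {A : E K → E K →L[ℝ] E K →L[ℝ] E K} {y : E K} (hA : DifferentiableAt ℝ A y)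
    (u v w : E K) : fderiv ℝ (fun z => A z v w) y u = fderiv ℝ A y u v w := by
  rw [fd_app2 hA (differentiableAt_const v) (differentiableAt_const w)]
  simp

/-- the derivative of the covariant derivative -/
theorem hr_deriv (G : Met K) (i : Ix) (b : Ix → E K → Bil K) (hb : ContDiff ℝ ∞ (b i))
    (T : E K → Tri K) (hT : ContDiff ℝ ∞ T) (hTb : ∀ y u v w, T y u v w = cd G b i y u v w)
    (y u v w x : E K) :
    fderiv ℝ T y u v w x = fderiv ℝ (fderiv ℝ (b i)) y u v w x
      - (fderiv ℝ (b i) y u (chrB (G.g i) y v w) x + b i y (fderiv ℝ (chrB (G.g i)) y u v w) x)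
      - (fderiv ℝ (b i) y u w (chrB (G.g i) y v x) +
        b i y w (fderiv ℝ (chrB (G.g i)) y u v x)) := by
  have hTd : DifferentiableAt ℝ T y := (hT.differentiable (by simp)) y
  have hbd : DifferentiableAt ℝ (b i) y := (hb.differentiable (by simp)) y
  have hDd : DifferentiableAt ℝ (fderiv ℝ (b i)) y :=
    ((contDiff_fd hb).differentiable (by simp)) y
  have hG := (G.mf i).diff_chr y
  rw [← hr_app3 hTd]
  have hF : (fun z => T z v w x) = fun z => fderiv ℝ (b i) z v w x -
      b i z (chrB (G.g i) z v w) x - b i z w (chrB (G.g i) z v x) := by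
    funext z
    rw [hTb]
    rfl
  rw [hF]
  have hX : ∀ v w : E K, DifferentiableAt ℝ (fun z => chrB (G.g i) z v w) y := fun v w =>
    (hG.clm_apply (differentiableAt_const v)).clm_apply (differentiableAt_const w)
  have d1 : DifferentiableAt ℝ (fun z => fderiv ℝ (b i) z v w x) y :=
    ((hDd.clm_apply (differentiableAt_const v)).clm_apply (differentiableAt_const w)).clm_apply
      (differentiableAt_const x)
  have d2 : DifferentiableAt ℝ (fun z => b i z (chrB (G.g i) z v w) x) y :=
    (hbd.clm_apply (hX v w)).clm_apply (differentiableAt_const x)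
  have d3 : DifferentiableAt ℝ (fun z => b i z w (chrB (G.g i) z v x)) y :=
    (hbd.clm_apply (differentiableAt_const w)).clm_apply (hX v x)
  rw [fderiv_fun_sub (d1.fun_sub d2) d3, fderiv_fun_sub d1 d2]
  simp only [sub_apply]
  rw [hr_app3 hDd, fd_app2 hbd (hX v w) (differentiableAt_const x),
    fd_app2 hbd (differentiableAt_const w) (hX v x), hr_app2 hG, hr_app2 hG]
  simp

theorem ricci_identity (G : Met K) (i : Ix) (b : Ix → E K → Bil K) (hb : ContDiff ℝ ∞ (b i))
    (T : E K → Tri K) (hT : ContDiff ℝ ∞ T) (hTb : ∀ y u v w, T y u v w = cd G b i y u v w)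
    (y u v w x : E K) :
    cd3 G i T y u v w x - cd3 G i T y v u w x =
      - b i y (riem (G.g i) y u v w) x - b i y w (riem (G.g i) y u v x) := by
  rw [(G.mf i).riem_eq, (G.mf i).riem_eq, RB_apply, RB_apply]
  unfold cd3
  rw [hr_deriv G i b hb T hT hTb, hr_deriv G i b hb T hT hTb]
  simp only [hTb]
  unfold cd
  have hs : fderiv ℝ (fderiv ℝ (b i)) y u v = fderiv ℝ (fderiv ℝ (b i)) y v u :=
    symm2 hb.contDiffAt u v
  have hc : chr (G.g i) y u v = chr (G.g i) y v u := chr_symm G i y u v
  have hB : ∀ a c : E K, chr (G.g i) y a c = chrB (G.g i) y a c := fun a c => rfl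
  rw [hs, hc]
  simp only [hB, map_sub, map_add, sub_apply, add_apply]
  ring

end Pool.Agent.H86.Nco
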