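import Pool.Agent.H86.Nco.Base

/-!
# Harmonic representatives: statements of the four parts

`f ≈ a` means that `a - f` is in the closure of the exact forms with respect to the `L²` norm.
-/

open scoped Manifold ContDiff Bundle Topology

noncomputable section

namespace Pool.Agent.H86.Nco

open Pool.Agent.H86.Anco

variable {K : ℕ}

/-- `∇ a = 0` -/
def Parallel (G : Met K) (a : Form2 K) : Prop := ∀ i y u v w, cd G a.val i y u v w = 0

/-- `d f = 0` -/
def Closed (f : Form2 K) : Prop := ∀ i y u v w, d2 f.val i y u v w = 0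

/-- `f ∧ f = 0` -/
def Decomposable (f : Form2 K) : Prop := ∀ i y u₁ u₂ u₃ u₄, wsq f.val i y u₁ u₂ u₃ u₄ = 0

/-- `a - f` is an `L²` limit of exact forms -/
def Cohom (G : Met K) (a f : Form2 K) : Prop :=
  ∀ ε : ℝ, 0 < ε → ∃ α : Form1 K,
    IM G (fun i y => sq2 (G.g i y) (fun u v => a.val i y u v - f.val i y u v
      - d1 α.val i y u v)) < ε

/-- H1: the Bochner inequality on manifolds with nonnegative curvature operator -/
def H1 (K : ℕ) : Prop := ∀ (G : Met K) (b : Form2 K),
  IM G (fun i y => sq3 (G.g i y) (cd G b.val i y)) / 2 ≤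
    IM G (fun i y => sq3 (G.g i y) (d2 b.val i y)) / 6
      + IM G (fun i y => sq1 (G.g i y) (codiff G b.val i y))

/-- H23: every closed two-form is cohomologous to a parallel one -/
def H23 (K : ℕ) : Prop := ∀ (G : Met K) (f : Form2 K), Closed f →
  ∃ a : Form2 K, Parallel G a ∧ Cohom G a f

/-- H5: the parallel representative of a decomposable form is decomposable -/
def H5 (K : ℕ) : Prop := ∀ (G : Met K) (f a : Form2 K), Closed f → Decomposable f →
  Parallel G a → Cohom G a f → Decomposable a

/-- H6: cohomologous closed forms have the same periods -/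
def H6 (K : ℕ) : Prop := ∀ (G : Met K) (f a : Form2 K), Closed f → Closed a → Cohom G a f →
  ∀ (p₀ : V K) (s : ℝ × ℝ → V K), Sph K p₀ s → Per a.val s = Per f.val s

section Gen

variable {E' : Type*} [NormedAddCommGroup E'] [NormedSpace ℝ E']
  {g : E' → E' →L[ℝ] E' →L[ℝ] ℝ}

theorem hodge_fderiv_symm_gen (hd : Differentiable ℝ g) (hs : ∀ z a b, g z a b = g z b a)
    (y u v w : E') : fderiv ℝ g y u v w = fderiv ℝ g y u w v := by
  have key : ∀ v w : E', fderiv ℝ (fun z => g z v w) y u = fderiv ℝ g y u v w := by
    intro v w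
    have h1 := ((hd y).hasFDerivAt.clm_apply (hasFDerivAt_const v y)).clm_apply
      (hasFDerivAt_const w y)
    rw [h1.fderiv]
    simp
  have h3 : (fun z => g z v w) = fun z => g z w v := funext fun z => hs z v w
  rw [← key v w, ← key w v, h3]

theorem hodge_chr_symm_gen (hd : Differentiable ℝ g) (hs : ∀ z a b, g z a b = g z b a)
    (y u v : E') : chr g y u v = chr g y v u := by
  unfold chr
  congr 1
  ext w
  simp only [chr1, smul_apply, sub_apply, add_apply, ContinuousLinearMap.flip_apply, smul_eq_mul]
  rw [hodge_fderiv_symm_gen hd hs y w u v]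
  ring

end Gen

theorem hodge_chr_symm (G : Met K) (i : Ix) (y u v : E K) :
    chr (G.g i) y u v = chr (G.g i) y v u :=
  hodge_chr_symm_gen ((G.smooth i).differentiable (by simp)) (G.symm i) y u v

/-- parallel forms are closed (the connection has no torsion: `chr` is symmetric) -/
theorem Parallel.closed {G : Met K} {a : Form2 K} (h : Parallel G a) : Closed a := by
  intro i y u v w
  have key : ∀ u v w : E K, fderiv ℝ (a.val i) y u v w
      = a.val i y (chr (G.g i) y u v) w + a.val i y v (chr (G.g i) y u w) := by
    intro u v w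
    have h1 := h i y u v w
    unfold cd at h1
    linarith
  unfold d2
  rw [key u v w, key v w u, key w u v, hodge_chr_symm G i y v u, hodge_chr_symm G i y w u,
    hodge_chr_symm G i y w v, a.alt i y v (chr (G.g i) y u w), a.alt i y w (chr (G.g i) y u v),
    a.alt i y u (chr (G.g i) y v w)]
  ring

end Pool.Agent.H86.Nco
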