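import Pool.Agent.H86.Nco.HBochQ
import Pool.Agent.H86.Nco.HDiv
import Pool.Agent.H86.Nco.HRicci
import Pool.Agent.H86.Nco.HodgeStmt

/-!
# Module HBOCH: the Bochner inequality

Pointwise, with an orthonormal basis `e` and `T_{abc} = (∇_{e_a} b)(e_b, e_c)`, `β_{bc} = b(e_b, e_c)`:
`1/2 ∑ T_{abc}² - 1/6 ∑ (db)_{abc}² - ∑ (δb)_c² = ∑_{abc} (T_{abc} T_{bac} - T_{aac} T_{bbc})`
(`(db)_{abc} = T_{abc} + T_{bca} + T_{cab}`, `T` antisymmetric in the last two indices).
Let `Y` be the vector field with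
`g(Y, u) = ∑_{bc} b(e_b, e_c) (∇_{e_b} b)(u, e_c) - ∑_{bc} b(u, e_c) (∇_{e_b} b)(e_b, e_c)`.
Contractions commute with `∇` (`trD`; applied to double contractions), so
`divg Y = ∑_{abc} (T_{abc} T_{bac} - T_{aac} T_{bbc}) + ∑_{abc} β_{bc} ((∇²b)(e_a, e_b; e_a, e_c) - (∇²b)(e_b, e_a; e_a, e_c))`
and by `ricci_identity` the last sum is
`- ∑ β_{bc} (b(R(e_a,e_b)e_a, e_c) + b(e_a, R(e_a,e_b)e_c)) = Q ≥ 0` (`weitz_nonneg`).
(Detail: the second half of `Y` has divergence
`∑_a (∇_a β_{ac}) (∇_b β_{bc}) + β_{ac} ∇_a ∇_b β_{bc}`; rename `a ↔ b`.)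
So the left hand side is `divg Y - Q ≤ divg Y`.  Smoothness and compatibility of `Y`: `Y` is obtained
from the smooth compatible one-form `g(Y, .)` by the inverse of the metric (`isInvertible_of_pos`,
`contDiffAt_map_inverse`, `Anco/Local.lean`); the one-form is a double contraction (`trace_eq`,
`trace_indep`).
A convenient way to organise the computation at a fixed point `y₀`: replace the point dependent
basis by `ẽ_a(y) = e_a - chr(y₀)(y - y₀, e_a)` and the inverse Gram matrix `h^{ab}(y)` of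
`g(y)(ẽ_a, ẽ_b)`, which is `δ_{ab}` at `y₀` with vanishing derivative there.
-/

open scoped Manifold ContDiff Bundle Topology

noncomputable section

namespace Pool.Agent.H86.Nco

open Pool.Agent.H86.Anco MeasureTheory

set_option maxSynthPendingDepth 3

variable {K : ℕ}

namespace HBo

/-! ### Derivatives and evaluation -/

lemma fd_apply1 {F : E K → E K →L[ℝ] ℝ} (hF : ContDiff ℝ ∞ F) (y v a : E K) :
    fderiv ℝ F y v a = fderiv ℝ (fun z => F z a) y v := by
  have h := (hF.differentiable (by simp) y).hasFDerivAt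
  have h1 := h.clm_apply (hasFDerivAt_const a y)
  rw [h1.fderiv]
  simp

lemma fd_apply2 {F : E K → Bil K} (hF : ContDiff ℝ ∞ F) (y v a b : E K) :
    fderiv ℝ F y v a b = fderiv ℝ (fun z => F z a b) y v := by
  have h := (hF.differentiable (by simp) y).hasFDerivAt
  have h1 := (h.clm_apply (hasFDerivAt_const a y)).clm_apply (hasFDerivAt_const b y)
  rw [h1.fderiv]
  simp

lemma fd_apply3 {F : E K → Tri K} (hF : ContDiff ℝ ∞ F) (y v a b c : E K) :
    fderiv ℝ F y v a b c = fderiv ℝ (fun z => F z a b c) y v := by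
  have h := (hF.differentiable (by simp) y).hasFDerivAt
  have h1 := ((h.clm_apply (hasFDerivAt_const a y)).clm_apply (hasFDerivAt_const b y)).clm_apply
    (hasFDerivAt_const c y)
  rw [h1.fderiv]
  simp

lemma cd_ap1 {F : E K → E K →L[ℝ] ℝ} (hF : ContDiff ℝ ∞ F) (a : E K) :
    ContDiff ℝ ∞ (fun z => F z a) := hF.clm_apply contDiff_const

lemma cd_ap2 {F : E K → Bil K} (hF : ContDiff ℝ ∞ F) (a : E K) :
    ContDiff ℝ ∞ (fun z => F z a) := hF.clm_apply contDiff_const

lemma cd_ap3 {F : E K → Tri K} (hF : ContDiff ℝ ∞ F) (a : E K) :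
    ContDiff ℝ ∞ (fun z => F z a) := hF.clm_apply contDiff_const

/-! ### Contractions -/

/-- contraction of two bilinear forms in the second slots -/
def ctr (B A A' : Bil K) : Bil K :=
  ∑ q, ((A.flip (onb B q)).smulRight (A'.flip (onb B q)))

lemma ctr_apply (B A A' : Bil K) (x x' : E K) :
    ctr B A A' x x' = ∑ q, A x (onb B q) * A' x' (onb B q) := by
  unfold ctr
  rw [sum_apply, sum_apply]
  rfl

lemma contDiff_tens {α β : E K → E K →L[ℝ] ℝ} (hα : ContDiff ℝ ∞ α) (hβ : ContDiff ℝ ∞ β) :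
    ContDiff ℝ ∞ (fun y => ((α y).smulRight (β y) : Bil K)) := hα.smulRight hβ

lemma contDiff_ip1 (G : Met K) (i : Ix) {α β : E K → E K →L[ℝ] ℝ} (hα : ContDiff ℝ ∞ α)
    (hβ : ContDiff ℝ ∞ β) :
    ContDiff ℝ ∞ (fun z => ∑ j, α z (onb (G.g i z) j) * β z (onb (G.g i z) j)) :=
  contDiff_trace (G.smooth i) (G.posDef i) (contDiff_tens hα hβ)

lemma contDiff_ctr (G : Met K) (i : Ix) {A A' : E K → Bil K} (hA : ContDiff ℝ ∞ A)
    (hA' : ContDiff ℝ ∞ A') : ContDiff ℝ ∞ (fun y => ctr (G.g i y) (A y) (A' y)) := by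
  refine contDiff_clm_apply_iff.2 fun x => contDiff_clm_apply_iff.2 fun x' => ?_
  simp only [ctr_apply]
  exact contDiff_ip1 G i (cd_ap2 hA x) (cd_ap2 hA' x')

lemma contDiff_ip2 (G : Met K) (i : Ix) {A A' : E K → Bil K} (hA : ContDiff ℝ ∞ A)
    (hA' : ContDiff ℝ ∞ A') :
    ContDiff ℝ ∞ (fun z => ∑ p, ∑ q, A z (onb (G.g i z) p) (onb (G.g i z) q)
      * A' z (onb (G.g i z) p) (onb (G.g i z) q)) := by
  have h := contDiff_trace (G.smooth i) (G.posDef i) (contDiff_ctr G i hA hA')
  simp only [ctr_apply] at h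
  exact h

lemma D_ip1 (G : Met K) (i : Ix) {α β : E K → E K →L[ℝ] ℝ} (hα : ContDiff ℝ ∞ α)
    (hβ : ContDiff ℝ ∞ β) (y v : E K) :
    fderiv ℝ (fun z => ∑ j, α z (onb (G.g i z) j) * β z (onb (G.g i z) j)) y v =
      ∑ j, ((fderiv ℝ α y v (onb (G.g i y) j) - α y (chr (G.g i) y v (onb (G.g i y) j)))
          * β y (onb (G.g i y) j)
        + α y (onb (G.g i y) j)
          * (fderiv ℝ β y v (onb (G.g i y) j) - β y (chr (G.g i) y v (onb (G.g i y) j)))) := by
  have h := trD G i (contDiff_tens hα hβ) y v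
  have h1 : ∀ a b : E K, fderiv ℝ (fun z => ((α z).smulRight (β z) : Bil K)) y v a b =
      fderiv ℝ α y v a * β y b + α y a * fderiv ℝ β y v b := by
    intro a b
    rw [fd_apply2 (contDiff_tens hα hβ)]
    have h2 : (fun z => ((α z).smulRight (β z) : Bil K) a b) = fun z => α z a * β z b := by
      funext z
      rfl
    have h3 : HasFDerivAt (fun z => α z a * β z b) _ y :=
      (((cd_ap1 hα a).differentiable (by simp) y).hasFDerivAt).mul
        (((cd_ap1 hβ b).differentiable (by simp) y).hasFDerivAt)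
    rw [h2, h3.fderiv, fd_apply1 hα, fd_apply1 hβ]
    simp only [add_apply, smul_apply, smul_eq_mul]
    ring
  have h4 : ∀ (z a b : E K), ((α z).smulRight (β z) : Bil K) a b = α z a * β z b :=
    fun z a b => rfl
  simp only [h1, h4] at h
  rw [h]
  refine Finset.sum_congr rfl fun j _ => ?_
  ring

lemma D_ip2 (G : Met K) (i : Ix) {A A' : E K → Bil K} (hA : ContDiff ℝ ∞ A)
    (hA' : ContDiff ℝ ∞ A') (y v : E K) :
    fderiv ℝ (fun z => ∑ p, ∑ q, A z (onb (G.g i z) p) (onb (G.g i z) q)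
      * A' z (onb (G.g i z) p) (onb (G.g i z) q)) y v =
      ∑ p, ∑ q, ((fderiv ℝ A y v (onb (G.g i y) p) (onb (G.g i y) q)
          - A y (chr (G.g i) y v (onb (G.g i y) p)) (onb (G.g i y) q)
          - A y (onb (G.g i y) p) (chr (G.g i) y v (onb (G.g i y) q)))
            * A' y (onb (G.g i y) p) (onb (G.g i y) q)
        + A y (onb (G.g i y) p) (onb (G.g i y) q)
          * (fderiv ℝ A' y v (onb (G.g i y) p) (onb (G.g i y) q)
          - A' y (chr (G.g i) y v (onb (G.g i y) p)) (onb (G.g i y) q)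
          - A' y (onb (G.g i y) p) (chr (G.g i) y v (onb (G.g i y) q)))) := by
  have h := trD G i (contDiff_ctr G i hA hA') y v
  have h0 : ∀ (B : E K → Bil K), ContDiff ℝ ∞ B → ∀ x w : E K,
      fderiv ℝ (fun z => B z x) y v w = fderiv ℝ B y v x w := by
    intro B hB x w
    rw [fd_apply1 (cd_ap2 hB x), fd_apply2 hB]
  have h1 : ∀ x : E K, fderiv ℝ (fun z => ctr (G.g i z) (A z) (A' z)) y v x x =
      ∑ q, ((fderiv ℝ A y v x (onb (G.g i y) q) - A y x (chr (G.g i) y v (onb (G.g i y) q)))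
          * A' y x (onb (G.g i y) q)
        + A y x (onb (G.g i y) q)
          * (fderiv ℝ A' y v x (onb (G.g i y) q)
            - A' y x (chr (G.g i) y v (onb (G.g i y) q)))) := by
    intro x
    rw [fd_apply2 (contDiff_ctr G i hA hA')]
    simp only [ctr_apply]
    rw [D_ip1 G i (cd_ap2 hA x) (cd_ap2 hA' x)]
    simp only [h0 A hA, h0 A' hA']
  simp only [h1] at h
  simp only [ctr_apply] at h
  rw [h]
  refine Finset.sum_congr rfl fun p _ => ?_
  rw [← Finset.sum_sub_distrib, ← Finset.sum_sub_distrib]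
  refine Finset.sum_congr rfl fun q _ => ?_
  ring

/-! ### The data -/

variable (G : Met K) (b : Form2 K)

/-- the covariant derivative of `b` -/
def cdT (i : Ix) : E K → Tri K := (exists_cdL G b.val i (b.smooth i)).choose

lemma cdT_smooth (i : Ix) : ContDiff ℝ ∞ (cdT G b i) :=
  (exists_cdL G b.val i (b.smooth i)).choose_spec.1

lemma cdT_apply (i : Ix) (y u v w : E K) : cdT G b i y u v w = cd G b.val i y u v w :=
  (exists_cdL G b.val i (b.smooth i)).choose_spec.2 y u v w

/-- the codifferential of `b` -/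
def dl (i : Ix) : E K → E K →L[ℝ] ℝ := (exists_codiffL G b.val i (b.smooth i)).choose

lemma dl_smooth (i : Ix) : ContDiff ℝ ∞ (dl G b i) :=
  (exists_codiffL G b.val i (b.smooth i)).choose_spec.1

lemma dl_apply (i : Ix) (y w : E K) : dl G b i y w = codiff G b.val i y w :=
  (exists_codiffL G b.val i (b.smooth i)).choose_spec.2 y w

lemma dl_eq (i : Ix) (y w : E K) :
    dl G b i y w = - ∑ j, cdT G b i y (onb (G.g i y) j) (onb (G.g i y) j) w := by
  rw [dl_apply]
  unfold codiff
  simp only [cdT_apply]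

/-- `(x, z) ↦ (∇_x b)(u, z)` -/
def Tu (i : Ix) (u y : E K) : Bil K :=
  (ContinuousLinearMap.apply ℝ (E K →L[ℝ] ℝ) u).comp (cdT G b i y)

lemma Tu_apply (i : Ix) (u y x z : E K) : Tu G b i u y x z = cdT G b i y x u z := rfl

lemma Tu_smooth (i : Ix) (u : E K) : ContDiff ℝ ∞ (Tu G b i u) :=
  contDiff_const.clm_comp (cdT_smooth G b i)

/-- evaluation of the last slot -/
def ev (w : E K) : Bil K →L[ℝ] (E K →L[ℝ] ℝ) :=
  (ContinuousLinearMap.apply ℝ (E K →L[ℝ] ℝ) w).comp
    (ContinuousLinearMap.flipₗᵢ ℝ (E K) (E K) ℝ).toContinuousLinearEquiv.toContinuousLinearMap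

lemma ev_apply (w x : E K) (A : Bil K) : ev w A x = A x w := rfl

/-- `(x, z) ↦ (∇_x b)(z, w)` -/
def Tw (i : Ix) (w y : E K) : Bil K := (ev w).comp (cdT G b i y)

lemma Tw_apply (i : Ix) (w y x z : E K) : Tw G b i w y x z = cdT G b i y x z w := rfl

lemma Tw_smooth (i : Ix) (w : E K) : ContDiff ℝ ∞ (Tw G b i w) :=
  contDiff_const.clm_comp (cdT_smooth G b i)

/-- the one-form `g(Y, .)` -/
def th (i : Ix) (y : E K) : E K →L[ℝ] ℝ :=
  ∑ p, ∑ q, (b.val i y (onb (G.g i y) p) (onb (G.g i y) q)) •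
      ((cdT G b i y (onb (G.g i y) p)).flip (onb (G.g i y) q))
    + ∑ q, (dl G b i y (onb (G.g i y) q)) • ((b.val i y).flip (onb (G.g i y) q))

lemma th_apply (i : Ix) (y u : E K) : th G b i y u =
    ∑ p, ∑ q, b.val i y (onb (G.g i y) p) (onb (G.g i y) q)
        * Tu G b i u y (onb (G.g i y) p) (onb (G.g i y) q)
      + ∑ q, b.val i y u (onb (G.g i y) q) * dl G b i y (onb (G.g i y) q) := by
  unfold th
  rw [add_apply, sum_apply, sum_apply]
  congr 1
  · refine Finset.sum_congr rfl fun p _ => ?_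
    rw [sum_apply]
    rfl
  · refine Finset.sum_congr rfl fun q _ => ?_
    rw [mul_comm]
    rfl

lemma th_smooth (i : Ix) : ContDiff ℝ ∞ (th G b i) := by
  refine contDiff_clm_apply_iff.2 fun u => ?_
  simp only [th_apply]
  exact (contDiff_ip2 G i (b.smooth i) (Tu_smooth G b i u)).add
    (contDiff_ip1 G i (cd_ap2 (b.smooth i) u) (dl_smooth G b i))

/-- the vector field -/
def YY (i : Ix) (y : E K) : E K := (G.g i y).inverse (th G b i y)

lemma g_YY (i : Ix) (y u : E K) : G.g i y (YY G b i y) u = th G b i y u := by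
  unfold YY
  rw [(isInvertible_of_pos (G.g i y) (G.pos i y)).self_apply_inverse]

lemma YY_smooth (i : Ix) : ContDiff ℝ ∞ (YY G b i) := by
  rw [contDiff_iff_contDiffAt]
  intro y
  have h1 : ContDiffAt ℝ ∞ (fun y => (G.g i y).inverse) y :=
    ((isInvertible_of_pos (G.g i y) (G.pos i y)).contDiffAt_map_inverse).comp y
      (G.smooth i).contDiffAt
  exact h1.clm_apply (th_smooth G b i).contDiffAt

/-! ### The divergence -/

lemma g_DY (i : Ix) (y u v : E K) :
    G.g i y (fderiv ℝ (YY G b i) y v + chr (G.g i) y v (YY G b i y)) u =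
      fderiv ℝ (th G b i) y v u - th G b i y (chr (G.g i) y v u) := by
  have h1 : ∀ z, th G b i z u = G.g i z (YY G b i z) u := fun z => (g_YY G b i z u).symm
  have hg := ((G.smooth i).differentiable (by simp) y).hasFDerivAt
  have hY := ((YY_smooth G b i).differentiable (by simp) y).hasFDerivAt
  have h2 : HasFDerivAt (fun z => G.g i z (YY G b i z) u) _ y :=
    (hg.clm_apply hY).clm_apply (hasFDerivAt_const u y)
  rw [fd_apply1 (th_smooth G b i)]
  simp only [h1]
  rw [h2.fderiv, map_add]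
  simp only [add_apply, ContinuousLinearMap.comp_apply, ContinuousLinearMap.flip_apply,
    zero_apply, map_zero, zero_add]
  rw [fderiv_g_eq, ← g_YY G b i y (chr (G.g i) y v u)]
  ring

/-- covariant derivative of the codifferential -/
lemma D_dl (i : Ix) (y v w : E K) :
    fderiv ℝ (dl G b i) y v w - dl G b i y (chr (G.g i) y v w) =
      - ∑ p, cd3 G i (cdT G b i) y v (onb (G.g i y) p) (onb (G.g i y) p) w := by
  have h1 : (fun z => dl G b i z w) =
      fun z => -(∑ j, Tw G b i w z (onb (G.g i z) j) (onb (G.g i z) j)) := by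
    funext z
    rw [dl_eq]
    rfl
  have h2 := trD G i (Tw_smooth G b i w) y v
  have h3 : ∀ x z : E K, fderiv ℝ (Tw G b i w) y v x z = fderiv ℝ (cdT G b i) y v x z w := by
    intro x z
    rw [fd_apply2 (Tw_smooth G b i w), fd_apply3 (cdT_smooth G b i)]
    rfl
  simp only [h3] at h2
  rw [fd_apply1 (dl_smooth G b i), h1, fderiv_fun_neg, neg_apply, h2, dl_eq, ← Finset.sum_neg_distrib,
    ← Finset.sum_neg_distrib, ← Finset.sum_neg_distrib, ← Finset.sum_sub_distrib]
  refine Finset.sum_congr rfl fun p _ => ?_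
  unfold cd3
  simp only [Tw_apply]
  ring

lemma nab_th (i : Ix) (y u v : E K) :
    fderiv ℝ (th G b i) y v u - th G b i y (chr (G.g i) y v u) =
      ∑ p, ∑ q, (cdT G b i y v (onb (G.g i y) p) (onb (G.g i y) q)
          * cdT G b i y (onb (G.g i y) p) u (onb (G.g i y) q)
        + b.val i y (onb (G.g i y) p) (onb (G.g i y) q)
          * cd3 G i (cdT G b i) y v (onb (G.g i y) p) u (onb (G.g i y) q))
      + ∑ q, (cdT G b i y v u (onb (G.g i y) q) * dl G b i y (onb (G.g i y) q)
        - b.val i y u (onb (G.g i y) q)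
          * ∑ p, cd3 G i (cdT G b i) y v (onb (G.g i y) p) (onb (G.g i y) p)
              (onb (G.g i y) q)) := by
  have h0 : ∀ x z : E K, fderiv ℝ (Tu G b i u) y v x z = fderiv ℝ (cdT G b i) y v x u z := by
    intro x z
    rw [fd_apply2 (Tu_smooth G b i u), fd_apply3 (cdT_smooth G b i)]
    rfl
  have h0' : ∀ x w : E K,
      fderiv ℝ (fun z => b.val i z x) y v w = fderiv ℝ (b.val i) y v x w := by
    intro x w
    rw [fd_apply1 (cd_ap2 (b.smooth i) x), fd_apply2 (b.smooth i)]
  have hT : ∀ x z : E K, cdT G b i y v x z = fderiv ℝ (b.val i) y v x z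
      - b.val i y (chr (G.g i) y v x) z - b.val i y x (chr (G.g i) y v z) := by
    intro x z
    rw [cdT_apply]
    rfl
  rw [fd_apply1 (th_smooth G b i)]
  simp only [th_apply]
  rw [fderiv_fun_add ((contDiff_ip2 G i (b.smooth i) (Tu_smooth G b i u)).differentiable
      (by simp) y)
    ((contDiff_ip1 G i (cd_ap2 (b.smooth i) u) (dl_smooth G b i)).differentiable (by simp) y),
    add_apply, D_ip2 G i (b.smooth i) (Tu_smooth G b i u),
    D_ip1 G i (cd_ap2 (b.smooth i) u) (dl_smooth G b i)]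
  simp only [D_dl, h0, h0']
  rw [add_sub_add_comm, ← Finset.sum_sub_distrib, ← Finset.sum_sub_distrib]
  congr 1
  · refine Finset.sum_congr rfl fun p _ => ?_
    rw [← Finset.sum_sub_distrib]
    refine Finset.sum_congr rfl fun q _ => ?_
    rw [hT]
    simp only [Tu_apply]
    unfold cd3
    ring
  · refine Finset.sum_congr rfl fun q _ => ?_
    rw [hT]
    ring

/-! ### Algebra -/

lemma rot {n : ℕ} (f : Fin n → Fin n → Fin n → ℝ) :
    ∑ a, ∑ b, ∑ c, f a b c = ∑ a, ∑ b, ∑ c, f b c a := by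
  rw [Finset.sum_comm]
  have h : ∀ b, ∑ a, ∑ c, f a b c = ∑ c, ∑ a, f a b c := fun b => Finset.sum_comm
  rw [Finset.sum_congr rfl fun b _ => h b, Finset.sum_comm]
  have h2 : ∀ c, ∑ b, ∑ a, f a b c = ∑ a, ∑ b, f a b c := fun c => Finset.sum_comm
  exact Finset.sum_congr rfl fun c _ => h2 c

lemma alg {n : ℕ} (t : Fin n → Fin n → Fin n → ℝ) (ht : ∀ a b c, t a b c = - t a c b) :
    (∑ a, ∑ b, ∑ c, t a b c ^ 2) / 2
      - (∑ a, ∑ b, ∑ c, (t a b c + t b c a + t c a b) ^ 2) / 6 =
      ∑ a, ∑ b, ∑ c, t a b c * t b a c := by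
  have h1 : ∑ a, ∑ b, ∑ c, (t a b c + t b c a + t c a b) ^ 2 =
      3 * ∑ a, ∑ b, ∑ c, t a b c ^ 2 + 6 * ∑ a, ∑ b, ∑ c, t a b c * t b c a := by
    have r1 := rot (fun a b c => t a b c ^ 2)
    have r2 := rot (fun a b c => t b c a ^ 2)
    have s1 := rot (fun a b c => t a b c * t b c a)
    have s2 := rot (fun a b c => t b c a * t c a b)
    have e : ∀ a b c, (t a b c + t b c a + t c a b) ^ 2 =
        t a b c ^ 2 + t b c a ^ 2 + t c a b ^ 2 + 2 * (t a b c * t b c a)
          + 2 * (t b c a * t c a b) + 2 * (t c a b * t a b c) := by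
      intro a b c
      ring
    simp only [e, Finset.sum_add_distrib, ← Finset.mul_sum]
    rw [← s2, ← s1, ← r2, ← r1]
    ring
  have h2 : ∑ a, ∑ b, ∑ c, t a b c * t b a c = - ∑ a, ∑ b, ∑ c, t a b c * t b c a := by
    simp only [← Finset.sum_neg_distrib]
    refine Finset.sum_congr rfl fun a _ => Finset.sum_congr rfl fun b _ =>
      Finset.sum_congr rfl fun c _ => ?_
    rw [ht b a c]
    ring
  rw [h1, h2]
  ring

lemma cdT_alt (i : Ix) (y u v w : E K) : cdT G b i y u v w = - cdT G b i y u w v := by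
  rw [cdT_apply, cdT_apply]
  unfold cd
  have h1 : fderiv ℝ (b.val i) y u v w = - fderiv ℝ (b.val i) y u w v := by
    rw [fd_apply2 (b.smooth i), fd_apply2 (b.smooth i)]
    have h2 : (fun z => b.val i z v w) = fun z => -(b.val i z w v) := by
      funext z
      exact b.alt i z v w
    rw [h2, fderiv_fun_neg, neg_apply]
  rw [h1, b.alt i y (chr (G.g i) y u v) w, b.alt i y v (chr (G.g i) y u w)]
  ring

lemma d2_eq (i : Ix) (y u v w : E K) :
    d2 b.val i y u v w = cdT G b i y u v w + cdT G b i y v w u + cdT G b i y w u v := by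
  rw [cdT_apply, cdT_apply, cdT_apply]
  unfold cd d2
  rw [b.alt i y w (chr (G.g i) y v u), b.alt i y u (chr (G.g i) y w v),
    b.alt i y v (chr (G.g i) y u w), chr_symm G i y v u, chr_symm G i y w v,
    chr_symm G i y w u]
  ring

lemma divg_eq (i : Ix) (y : E K) :
    divg G (YY G b) i y =
      ∑ a, ∑ p, ∑ q, cdT G b i y (onb (G.g i y) a) (onb (G.g i y) p) (onb (G.g i y) q)
          * cdT G b i y (onb (G.g i y) p) (onb (G.g i y) a) (onb (G.g i y) q)
        - ∑ q, dl G b i y (onb (G.g i y) q) ^ 2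
        + ∑ a, ∑ p, ∑ q, b.val i y (onb (G.g i y) p) (onb (G.g i y) q)
          * (cd3 G i (cdT G b i) y (onb (G.g i y) a) (onb (G.g i y) p) (onb (G.g i y) a)
              (onb (G.g i y) q)
            - cd3 G i (cdT G b i) y (onb (G.g i y) p) (onb (G.g i y) a) (onb (G.g i y) a)
              (onb (G.g i y) q)) := by
  unfold divg
  simp only [g_DY, nab_th]
  have h1 : ∑ a, ∑ q, cdT G b i y (onb (G.g i y) a) (onb (G.g i y) a) (onb (G.g i y) q)
      * dl G b i y (onb (G.g i y) q) = - ∑ q, dl G b i y (onb (G.g i y) q) ^ 2 := by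
    rw [Finset.sum_comm, ← Finset.sum_neg_distrib]
    refine Finset.sum_congr rfl fun q _ => ?_
    rw [← Finset.sum_mul, sq, ← neg_mul]
    congr 1
    rw [dl_eq, neg_neg]
  have h2 : ∑ a, ∑ q, b.val i y (onb (G.g i y) a) (onb (G.g i y) q)
      * ∑ p, cd3 G i (cdT G b i) y (onb (G.g i y) a) (onb (G.g i y) p) (onb (G.g i y) p)
          (onb (G.g i y) q) =
      ∑ a, ∑ p, ∑ q, b.val i y (onb (G.g i y) p) (onb (G.g i y) q)
          * cd3 G i (cdT G b i) y (onb (G.g i y) p) (onb (G.g i y) a) (onb (G.g i y) a)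
              (onb (G.g i y) q) := by
    rw [Finset.sum_comm (s := (Finset.univ : Finset (Fin (K + 4))))
      (t := (Finset.univ : Finset (Fin (K + 4))))
      (f := fun a p => ∑ q, b.val i y (onb (G.g i y) p) (onb (G.g i y) q)
          * cd3 G i (cdT G b i) y (onb (G.g i y) p) (onb (G.g i y) a) (onb (G.g i y) a)
              (onb (G.g i y) q))]
    refine Finset.sum_congr rfl fun a _ => ?_
    rw [Finset.sum_comm]
    refine Finset.sum_congr rfl fun q _ => ?_
    rw [Finset.mul_sum]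
  simp only [Finset.sum_add_distrib, Finset.sum_sub_distrib, mul_sub]
  rw [h1, h2]
  ring

theorem pointwise (i : Ix) (y : E K) :
    sq3 (G.g i y) (cd G b.val i y) / 2 - sq3 (G.g i y) (d2 b.val i y) / 6
        - sq1 (G.g i y) (codiff G b.val i y) ≤ divg G (YY G b) i y := by
  rw [divg_eq]
  have h1 := alg (fun a p q => cdT G b i y (onb (G.g i y) a) (onb (G.g i y) p) (onb (G.g i y) q))
    (fun a p q => cdT_alt G b i y _ _ _)
  have h2 : sq3 (G.g i y) (cd G b.val i y) = ∑ a, ∑ p, ∑ q,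
      cdT G b i y (onb (G.g i y) a) (onb (G.g i y) p) (onb (G.g i y) q) ^ 2 := by
    unfold sq3
    simp only [cdT_apply]
  have h3 : sq3 (G.g i y) (d2 b.val i y) = ∑ a, ∑ p, ∑ q,
      (cdT G b i y (onb (G.g i y) a) (onb (G.g i y) p) (onb (G.g i y) q)
        + cdT G b i y (onb (G.g i y) p) (onb (G.g i y) q) (onb (G.g i y) a)
        + cdT G b i y (onb (G.g i y) q) (onb (G.g i y) a) (onb (G.g i y) p)) ^ 2 := by
    unfold sq3
    simp only [d2_eq G b]
  have h4 : sq1 (G.g i y) (codiff G b.val i y) = ∑ q, dl G b i y (onb (G.g i y) q) ^ 2 := by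
    unfold sq1
    simp only [dl_apply]
  have h5 := weitz_nonneg G i y (b.val i y) (b.alt i y)
  have h6 : ∑ a, ∑ p, ∑ q, b.val i y (onb (G.g i y) p) (onb (G.g i y) q)
          * (cd3 G i (cdT G b i) y (onb (G.g i y) a) (onb (G.g i y) p) (onb (G.g i y) a)
              (onb (G.g i y) q)
            - cd3 G i (cdT G b i) y (onb (G.g i y) p) (onb (G.g i y) a) (onb (G.g i y) a)
              (onb (G.g i y) q)) =
      - ∑ a, ∑ p, ∑ q, b.val i y (onb (G.g i y) p) (onb (G.g i y) q) *
      (b.val i y (riem (G.g i) y (onb (G.g i y) a) (onb (G.g i y) p) (onb (G.g i y) a))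
          (onb (G.g i y) q)
        + b.val i y (onb (G.g i y) a)
          (riem (G.g i) y (onb (G.g i y) a) (onb (G.g i y) p) (onb (G.g i y) q))) := by
    simp only [← Finset.sum_neg_distrib]
    refine Finset.sum_congr rfl fun a _ => Finset.sum_congr rfl fun p _ =>
      Finset.sum_congr rfl fun q _ => ?_
    rw [ricci_identity G i b.val (b.smooth i) (cdT G b i) (cdT_smooth G b i) (cdT_apply G b i)]
    ring
  rw [h2, h3, h4, h6]
  linarith

/-! ### Compatibility -/

/-- change of the orthonormal basis in a double contraction -/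
lemma ip2_indep {B : Bil K} (hB : PosDef B) (A A' : Bil K) (e : Fin (K + 4) → E K)
    (he : ∀ j k, B (e j) (e k) = if j = k then 1 else 0) :
    ∑ p, ∑ q, A (e p) (e q) * A' (e p) (e q) =
      ∑ p, ∑ q, A (onb B p) (onb B q) * A' (onb B p) (onb B q) := by
  have h1 : ∀ x : E K, ∑ q, A x (e q) * A' x (e q) = ctr B A A' x x := by
    intro x
    rw [ctr_apply]
    exact trace_indep hB ((A x).smulRight (A' x)) e he
  simp only [h1]
  rw [trace_indep hB (ctr B A A') e he]
  simp only [ctr_apply]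

lemma ip1_indep {B : Bil K} (hB : PosDef B) (α β : E K →L[ℝ] ℝ) (e : Fin (K + 4) → E K)
    (he : ∀ j k, B (e j) (e k) = if j = k then 1 else 0) :
    ∑ q, α (e q) * β (e q) = ∑ q, α (onb B q) * β (onb B q) :=
  trace_indep hB (α.smulRight β) e he

lemma compat_th : Compat1 (th G b) := by
  intro i j y hy u
  have he : ∀ k l, G.g j (tr i j y) (fderiv ℝ (tr i j) y (onb (G.g i y) k))
      (fderiv ℝ (tr i j) y (onb (G.g i y) l)) = if k = l then 1 else 0 := by
    intro k l
    rw [← G.compat i j y hy]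
    exact onb_spec (G.posDef i y) k l
  have hb : ∀ x z, b.val i y x z = b.val j (tr i j y) (fderiv ℝ (tr i j) y x)
      (fderiv ℝ (tr i j) y z) := fun x z => b.compat i j y hy x z
  have hT : ∀ x z w, cdT G b i y x z w = cdT G b j (tr i j y) (fderiv ℝ (tr i j) y x)
      (fderiv ℝ (tr i j) y z) (fderiv ℝ (tr i j) y w) := by
    intro x z w
    rw [cdT_apply, cdT_apply]
    exact compat3_cd G b i j y hy x z w
  have hd : ∀ x, dl G b i y x = dl G b j (tr i j y) (fderiv ℝ (tr i j) y x) := by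
    intro x
    rw [dl_apply, dl_apply]
    exact compat1_codiff G b i j y hy x
  rw [th_apply, th_apply]
  rw [← ip2_indep (G.posDef j (tr i j y)) (b.val j (tr i j y))
      (Tu G b j (fderiv ℝ (tr i j) y u) (tr i j y)) _ he,
    ← ip1_indep (G.posDef j (tr i j y)) (b.val j (tr i j y) (fderiv ℝ (tr i j) y u))
      (dl G b j (tr i j y)) _ he]
  simp only [Tu_apply, ← hT, ← hb, ← hd]

lemma compat_YY : CompatV (YY G b) := by
  intro i j y hy
  have hpos := G.pos j (tr i j y)
  by_contra hne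
  have h0 := hpos _ (sub_ne_zero.2 hne)
  have h1 : ∀ w, G.g j (tr i j y) (YY G b j (tr i j y) - fderiv ℝ (tr i j) y (YY G b i y)) w
      = 0 := by
    intro w
    have h2 := fderiv_tr_tr j i (tr_mem i j hy) w
    rw [tr_tr i j hy] at h2
    rw [map_sub, sub_apply, g_YY]
    rw [← h2, ← compat_th G b i j y hy, ← G.compat i j y hy, g_YY, sub_self]
  rw [h1] at h0
  exact lt_irrefl _ h0

end HBo

open HBo

theorem bochner_pointwise (G : Met K) (b : Form2 K) : ∃ Y : Ix → E K → E K,
    (∀ i, ContDiff ℝ ∞ (Y i)) ∧ CompatV Y ∧ ∀ i y,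
      sq3 (G.g i y) (cd G b.val i y) / 2 - sq3 (G.g i y) (d2 b.val i y) / 6
        - sq1 (G.g i y) (codiff G b.val i y) ≤ divg G Y i y :=
  ⟨YY G b, YY_smooth G b, compat_YY G b, pointwise G b⟩

theorem h1 (K : ℕ) : H1 K := by
  intro G b
  obtain ⟨Y, hY, hYc, hle⟩ := bochner_pointwise G b
  have h0 := int_divg G hY hYc
  choose D hD hDa using fun i => exists_d2L b.val i (b.smooth i)
  have e1 : (fun i y => sq3 (G.g i y) (cd G b.val i y)) =
      fun i y => sq3 (G.g i y) (fun u v w => cdT G b i y u v w) := by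
    funext i y
    unfold sq3
    simp only [cdT_apply]
  have e2 : (fun i y => sq3 (G.g i y) (d2 b.val i y)) =
      fun i y => sq3 (G.g i y) (fun u v w => D i y u v w) := by
    funext i y
    unfold sq3
    simp only [hDa]
  have e3 : (fun i y => sq1 (G.g i y) (codiff G b.val i y)) =
      fun i y => sq1 (G.g i y) (fun u => dl G b i y u) := by
    funext i y
    unfold sq1
    simp only [dl_apply]
  have c1 : Compat0 (fun i y => sq3 (G.g i y) (cd G b.val i y)) := by
    rw [e1]
    refine compat0_sq3 G fun i j y hy u v w => ?_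
    simp only [cdT_apply]
    exact compat3_cd G b i j y hy u v w
  have c2 : Compat0 (fun i y => sq3 (G.g i y) (d2 b.val i y)) := by
    rw [e2]
    refine compat0_sq3 G fun i j y hy u v w => ?_
    simp only [hDa]
    exact compat3_d2 b i j y hy u v w
  have c3 : Compat0 (fun i y => sq1 (G.g i y) (codiff G b.val i y)) := by
    rw [e3]
    refine compat0_sq1 G fun i j y hy u => ?_
    rw [dl_apply, dl_apply]
    exact compat1_codiff G b i j y hy u
  have s1 : ∀ i, Continuous (fun y => sq3 (G.g i y) (cd G b.val i y)) := by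
    intro i
    have h := cont_sq3 G i (cdT_smooth G b i).continuous
    have h2 := congrFun e1 i
    rw [h2]
    exact h
  have s2 : ∀ i, Continuous (fun y => sq3 (G.g i y) (d2 b.val i y)) := by
    intro i
    have h := cont_sq3 G i (hD i).continuous
    have h2 := congrFun e2 i
    rw [h2]
    exact h
  have s3 : ∀ i, Continuous (fun y => sq1 (G.g i y) (codiff G b.val i y)) := by
    intro i
    have h := cont_sq1 G i (dl_smooth G b i).continuous
    have h2 := congrFun e3 i
    rw [h2]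
    exact h
  have c4 := compat0_divg G hY hYc
  have s4 := cont_divg G hY
  have cs : ∀ (r : ℝ) {F : Ix → E K → ℝ}, Compat0 F → Compat0 (fun i y => r * F i y) := by
    intro r F hF i j y hy
    simp only
    rw [hF i j y hy]
  have ca : ∀ {F F' : Ix → E K → ℝ}, Compat0 F → Compat0 F' →
      Compat0 (fun i y => F i y + F' i y) := by
    intro F F' hF hF' i j y hy
    simp only
    rw [hF i j y hy, hF' i j y hy]
  have key := IM_mono G (cs (1 / 2) c1) (ca (ca (cs (1 / 6) c2) c3) c4)
    (fun i => continuous_const.mul (s1 i))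
    (fun i => ((continuous_const.mul (s2 i)).add (s3 i)).add (s4 i))
    (fun i y => by
      have := hle i y
      linarith)
  rw [IM_smul, IM_add G (ca (cs (1 / 6) c2) c3) c4
      (fun i => (continuous_const.mul (s2 i)).add (s3 i)) s4,
    IM_add G (cs (1 / 6) c2) c3 (fun i => continuous_const.mul (s2 i)) s3, IM_smul, h0] at key
  linarith

end Pool.Agent.H86.Nco
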