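import Pool.Agent.H86.Nco.HAlg
import Pool.Agent.H86.Nco.SCurv

/-!
# Module HBOCHQ: the curvature term of the Bochner formula is nonnegative

Let `e` be the orthonormal basis, `β_{ab} = β(e_a, e_b)`, `β e_p := ∑_k β_{kp} e_k` (so
`G(β e_p, e_k) = β_{kp}`).  Claim (checked numerically):
`Q = 1/2 ∑_{p,q} curvForm (X_{pq}) (Y_{pq})`, `X_{pq} = (β e_p, e_p)`, `Y_{pq} = (e_q, β e_q)` (`N = 2`), where
`Q = - ∑_{a,b,c} β_{bc} (β(R(e_a,e_b)e_a, e_c) + β(e_a, R(e_a,e_b)e_c))`.
Both sides expand (with `R_{abcd} = g(R(e_a,e_b)e_c, e_d)`) to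
`∑_p Ric(β e_p, β e_p) + ∑_{p,q} g(R(β e_p, e_q) β e_q, e_p)`, `Ric(x, y) = ∑_a g(R(x, e_a)e_a, y)`.
For `Q`: `∑_a R(e_a, e_b)e_a = - ∑ Ric(e_b, e_d) e_d`, and
`∑_{abc} β_{bc} β(e_a, R(e_a,e_b)e_c) = ∑_{abcf} β_{bc} β_{af} R_{abcf} = - ∑_{fq} g(R(β e_f, e_q) β e_q, e_f)`.
For the right hand side: the four terms of `curvForm` are
`g(R(βe_p,e_q)e_q, βe_p)`, `g(R(e_p,βe_q)βe_q, e_p)`, `g(R(βe_p,e_q)βe_q, e_p)`, `g(R(e_p,βe_q)e_q, βe_p)`;
the first two sum to `Ric` terms (pair symmetry for the second), the last two have the same sum over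
`p, q` by pair symmetry and antisymmetry.
`curvForm ≥ 0` by `G.nco` (`0 * bivNormSq = 0`).
-/

open scoped Manifold ContDiff Bundle Topology

noncomputable section

namespace Pool.Agent.H86.Nco

open Pool.Agent.H86.Anco

set_option maxSynthPendingDepth 3

variable {K : ℕ}

namespace HBochQ

open SCurvA Pool.Agent.H86.Anco.Natural

/-- pure algebra: the two expressions agree -/
theorem algebra {n : ℕ} (R : Fin n → Fin n → Fin n → Fin n → ℝ) (b : Fin n → Fin n → ℝ)
    (hb : ∀ i j, b i j = - b j i)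
    (anti : ∀ i j k l, R i j k l = - R j i k l)
    (skew : ∀ i j k l, R i j k l = - R i j l k) :
    - ∑ a, ∑ c, ∑ d, b c d * ((∑ f, R a c a f * b f d) + ∑ f, R a c d f * b a f) =
      1 / 2 * ∑ p, ∑ q,
        ((∑ k, ∑ l, b k p * b l p * R k q q l) + (∑ k, ∑ l, b k p * b l q * R k q l p) +
          ((∑ k, ∑ l, b k q * b l p * R p k q l) + ∑ k, ∑ l, b k q * b l q * R p k l p)) := by
  -- abbreviations
  have h1 : - ∑ a, ∑ c, ∑ d, b c d * ((∑ f, R a c a f * b f d) + ∑ f, R a c d f * b a f) =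
      (∑ a, ∑ c, ∑ d, ∑ f, b c d * b f d * R c a a f) +
        ∑ a, ∑ c, ∑ d, ∑ f, b c d * b f a * R c a f d := by
    simp only [← Finset.sum_neg_distrib, ← Finset.sum_add_distrib, mul_add, Finset.mul_sum]
    refine Finset.sum_congr rfl fun a _ => Finset.sum_congr rfl fun c _ =>
      Finset.sum_congr rfl fun d _ => Finset.sum_congr rfl fun f _ => ?_
    rw [anti a c a f, anti a c d f, skew c a d f, hb a f]
    ring
  have h2 : ∑ p, ∑ q, ∑ k, ∑ l, b k p * b l p * R k q q l =
      ∑ a, ∑ c, ∑ d, ∑ f, b c d * b f d * R c a a f := by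
    rw [Finset.sum_comm]
    refine Finset.sum_congr rfl fun a _ => ?_
    rw [Finset.sum_comm]
  have h3 : ∑ p, ∑ q, ∑ k, ∑ l, b k p * b l q * R k q l p =
      ∑ a, ∑ c, ∑ d, ∑ f, b c d * b f a * R c a f d := by
    rw [Finset.sum_comm]
    refine Finset.sum_congr rfl fun a _ => ?_
    rw [Finset.sum_comm]
  have h4 : ∑ p, ∑ q, ∑ k, ∑ l, b k q * b l p * R p k q l =
      ∑ a, ∑ c, ∑ d, ∑ f, b c d * b f a * R c a f d := by
    rw [← h3, Finset.sum_comm]
    refine Finset.sum_congr rfl fun q _ => Finset.sum_congr rfl fun p _ => ?_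
    refine Finset.sum_congr rfl fun k _ => Finset.sum_congr rfl fun l _ => ?_
    rw [anti p k q l, skew k p q l, neg_neg]
  have h5 : ∑ p, ∑ q, ∑ k, ∑ l, b k q * b l q * R p k l p =
      ∑ a, ∑ c, ∑ d, ∑ f, b c d * b f d * R c a a f := by
    refine Finset.sum_congr rfl fun a _ => ?_
    rw [Finset.sum_comm]
    refine Finset.sum_congr rfl fun c _ => Finset.sum_congr rfl fun d _ =>
      Finset.sum_congr rfl fun f _ => ?_
    rw [anti a c f a, skew c a f a, neg_neg]
  rw [h1]
  simp only [Finset.sum_add_distrib]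
  rw [h2, h3, h4, h5]
  ring

/-- the curvature as a linear map in the first argument -/
def R1 (g : E K → Bil K) (y v x : E K) : E K →ₗ[ℝ] E K where
  toFun u := RB g y u v x
  map_add' u u' := by
    simp only [RB_apply, map_add, add_apply]
    abel
  map_smul' c u := by
    simp only [RB_apply, map_smul, smul_apply, smul_sub, smul_add, RingHom.id_apply]

theorem exp1 (g : E K → Bil K) (y : E K) {n : ℕ} (e : Fin n → E K) (c : Fin n → ℝ)
    (v x w : E K) : g y (RB g y (∑ k, c k • e k) v x) w = ∑ k, c k * g y (RB g y (e k) v x) w := by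
  have h : RB g y (∑ k, c k • e k) v x = ∑ k, c k • RB g y (e k) v x := by
    have := map_sum (R1 g y v x) (fun k => c k • e k) Finset.univ
    simp only [map_smul] at this
    exact this
  rw [h, map_sum, sum_apply]
  refine Finset.sum_congr rfl fun k _ => ?_
  rw [map_smul, smul_apply, smul_eq_mul]

theorem exp2 (g : E K → Bil K) (y : E K) {n : ℕ} (e : Fin n → E K) (c : Fin n → ℝ)
    (u x w : E K) : g y (RB g y u (∑ k, c k • e k) x) w = ∑ k, c k * g y (RB g y u (e k) x) w := by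
  rw [MF.R_anti, map_neg, neg_apply, exp1, ← Finset.sum_neg_distrib]
  refine Finset.sum_congr rfl fun k _ => ?_
  rw [MF.R_anti y u (e k) x, map_neg, neg_apply]
  ring

theorem exp3 (g : E K → Bil K) (y : E K) {n : ℕ} (e : Fin n → E K) (c : Fin n → ℝ)
    (u v w : E K) : g y (RB g y u v (∑ k, c k • e k)) w = ∑ k, c k * g y (RB g y u v (e k)) w := by
  rw [map_sum, map_sum, sum_apply]
  refine Finset.sum_congr rfl fun k _ => ?_
  rw [map_smul, map_smul, smul_apply, smul_eq_mul]

theorem exp4 (g : E K → Bil K) (y : E K) {n : ℕ} (e : Fin n → E K) (c : Fin n → ℝ)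
    (u v x : E K) : g y (RB g y u v x) (∑ k, c k • e k) = ∑ k, c k * g y (RB g y u v x) (e k) := by
  rw [map_sum]
  refine Finset.sum_congr rfl fun k _ => ?_
  rw [map_smul, smul_eq_mul]

end HBochQ

open SCurvA Pool.Agent.H86.Anco.Natural HBochQ in
theorem weitz_nonneg (G : Met K) (i : Ix) (y : E K) (β : Bil K) (hβ : ∀ u v, β u v = - β v u) :
    0 ≤ - ∑ a, ∑ b, ∑ c, β (onb (G.g i y) b) (onb (G.g i y) c) *
      (β (riem (G.g i) y (onb (G.g i y) a) (onb (G.g i y) b) (onb (G.g i y) a))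
          (onb (G.g i y) c)
        + β (onb (G.g i y) a)
          (riem (G.g i) y (onb (G.g i y) a) (onb (G.g i y) b) (onb (G.g i y) c))) := by
  set e := onb (G.g i y) with he
  set g := G.g i with hg
  have hmf : MF g := G.mf i
  have hpd : PosDef (g y) := G.posDef i y
  let R : Fin (K + 4) → Fin (K + 4) → Fin (K + 4) → Fin (K + 4) → ℝ :=
    fun a b c d => g y (RB g y (e a) (e b) (e c)) (e d)
  let b : Fin (K + 4) → Fin (K + 4) → ℝ := fun j k => β (e j) (e k)
  have hb : ∀ j k, b j k = - b k j := fun j k => hβ _ _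
  have anti : ∀ i j k l, R i j k l = - R j i k l := by
    intro i j k l
    show g y (RB g y (e i) (e j) (e k)) (e l) = - g y (RB g y (e j) (e i) (e k)) (e l)
    rw [MF.R_anti y (e i) (e j) (e k), map_neg, neg_apply]
  have skew : ∀ i j k l, R i j k l = - R i j l k := fun i j k l =>
    hmf.R_skew y (e i) (e j) (e k) (e l)
  have key := algebra R b hb anti skew
  have hexp : ∀ a c d : Fin (K + 4), riem g y (e a) (e c) (e d) = ∑ f, R a c d f • e f := by
    intro a c d
    rw [hmf.riem_eq]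
    exact onb_expand hpd _
  have h1 : ∀ a c d : Fin (K + 4), β (riem g y (e a) (e c) (e a)) (e d) = ∑ f, R a c a f * b f d := by
    intro a c d
    rw [hexp, map_sum, sum_apply]
    refine Finset.sum_congr rfl fun k _ => ?_
    rw [map_smul, smul_apply, smul_eq_mul]
  have h2 : ∀ a c d : Fin (K + 4), β (e a) (riem g y (e a) (e c) (e d)) = ∑ f, R a c d f * b a f := by
    intro a c d
    rw [hexp, map_sum]
    refine Finset.sum_congr rfl fun k _ => ?_
    rw [map_smul, smul_eq_mul]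
  have h3 : - ∑ a, ∑ c, ∑ d, β (e c) (e d) *
      (β (riem g y (e a) (e c) (e a)) (e d) + β (e a) (riem g y (e a) (e c) (e d))) =
      - ∑ a, ∑ c, ∑ d, b c d * ((∑ f, R a c a f * b f d) + ∑ f, R a c d f * b a f) := by
    congr 1
    refine Finset.sum_congr rfl fun a _ => Finset.sum_congr rfl fun c _ =>
      Finset.sum_congr rfl fun d _ => ?_
    rw [h1, h2]
  rw [h3, key]
  refine mul_nonneg (by norm_num) (Finset.sum_nonneg fun p _ => Finset.sum_nonneg fun q _ => ?_)
  have hn := G.nco i y 2 ![∑ k, b k p • e k, e p] ![e q, ∑ k, b k q • e k]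
  rw [zero_mul] at hn
  unfold curvForm at hn
  simp only [Fin.sum_univ_two, Matrix.cons_val_zero, Matrix.cons_val_one] at hn
  rw [← hg] at hn
  simp only [hmf.riem_eq] at hn
  simp only [exp1, exp2, exp3, exp4] at hn
  refine hn.trans (le_of_eq ?_)
  have e1 : ∀ f : Fin (K + 4) → Fin (K + 4) → ℝ, ∀ c d : Fin (K + 4) → ℝ,
      ∑ l, d l * ∑ k, c k * f k l = ∑ k, ∑ l, c k * d l * f k l := by
    intro f c d
    rw [Finset.sum_comm]
    refine Finset.sum_congr rfl fun k _ => ?_
    rw [Finset.mul_sum]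
    refine Finset.sum_congr rfl fun l _ => ?_
    ring
  exact congrArg₂ (· + ·)
    (congrArg₂ (· + ·) (e1 (fun k l => R k q q l) (fun k => b k p) (fun l => b l p))
      (e1 (fun k l => R k q l p) (fun k => b k p) (fun l => b l q)))
    (congrArg₂ (· + ·) (e1 (fun k l => R p k q l) (fun k => b k q) (fun l => b l p))
      (e1 (fun k l => R p k l p) (fun k => b k q) (fun l => b l q)))

end Pool.Agent.H86.Nco
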