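import Pool.Agent.H86.Nco.HAlg

/-!
# Module HCOMPAT: the operators and norms are compatible with the transition maps

`cd`: `G.g i = pb (G.g j) (tr i j)`, `b i = pb (b j) (tr i j)` near `y`; differentiate
`b i y v w = b j (tr y) (Dtr v) (Dtr w)` and use `chr_tr`.  `d2`: the terms with second derivatives
cancel (or `d2` is the cyclic sum of `cd` by the symmetry of `chr`).  `codiff`, `sq1`, `sq2`, `sq3`:
`Dtr` maps an orthonormal basis of `G.g i y` to an orthonormal basis of `G.g j (tr i j y)`; use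
`trace_indep`.  Continuity of `sq*` of smooth families: `contDiff_trace` applied repeatedly.
-/

open scoped Manifold ContDiff Bundle Topology

noncomputable section

namespace Pool.Agent.H86.Nco

open Pool.Agent.H86.Anco

set_option maxSynthPendingDepth 3

variable {K : ℕ}

def Compat1' (θ : Ix → E K → E K → ℝ) : Prop :=
  ∀ i j y, y ∈ ov K i j → ∀ u, θ i y u = θ j (tr i j y) (fderiv ℝ (tr i j) y u)

def Compat3 (T : Ix → E K → E K → E K → E K → ℝ) : Prop :=
  ∀ i j y, y ∈ ov K i j → ∀ u v w, T i y u v w =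
    T j (tr i j y) (fderiv ℝ (tr i j) y u) (fderiv ℝ (tr i j) y v) (fderiv ℝ (tr i j) y w)

/-- compatible vector fields -/
def CompatV (Y : Ix → E K → E K) : Prop :=
  ∀ i j y, y ∈ ov K i j → Y j (tr i j y) = fderiv ℝ (tr i j) y (Y i y)

namespace HCompat

/-- the derivative of a compatible family of bilinear forms -/
theorem fderiv_compat2 (b : Form2 K) (i j : Ix) {y : E K} (hy : y ∈ ov K i j) (u v w : E K) :
    fderiv ℝ (b.val i) y u v w =
      fderiv ℝ (b.val j) (tr i j y) (fderiv ℝ (tr i j) y u) (fderiv ℝ (tr i j) y v)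
        (fderiv ℝ (tr i j) y w)
      + b.val j (tr i j y) (fderiv ℝ (fderiv ℝ (tr i j)) y u v) (fderiv ℝ (tr i j) y w)
      + b.val j (tr i j y) (fderiv ℝ (tr i j) y v) (fderiv ℝ (fderiv ℝ (tr i j)) y u w) := by
  have h1 : b.val i =ᶠ[𝓝 y] Natural.pb (b.val j) (tr i j) := by
    filter_upwards [(isOpen_ov i j).mem_nhds hy] with z hz
    exact ContinuousLinearMap.ext fun u => ContinuousLinearMap.ext fun v =>
      (b.compat i j z hz u v).trans (Natural.pb_apply _ _ _ _ _).symm
  rw [h1.fderiv_eq]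
  exact Natural.fderiv_pb ((SConn.contDiffAt_tr i j hy).of_le (by norm_cast))
    ((b.smooth j).contDiffAt.of_le (by norm_cast)) u v w

theorem snd_symm (i j : Ix) {y : E K} (hy : y ∈ ov K i j) (u v : E K) :
    fderiv ℝ (fderiv ℝ (tr i j)) y u v = fderiv ℝ (fderiv ℝ (tr i j)) y v u := by
  have h := ((SConn.contDiffAt_tr i j hy).of_le (m := 2) (by norm_cast)).isSymmSndFDerivAt
    (by simp)
  exact h u v

theorem chr_tr' (G : Met K) (i j : Ix) {y : E K} (hy : y ∈ ov K i j) (u w : E K) :
    fderiv ℝ (tr i j) y (chr (G.g i) y u w) =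
      chr (G.g j) (tr i j y) (fderiv ℝ (tr i j) y u) (fderiv ℝ (tr i j) y w)
        + fderiv ℝ (fderiv ℝ (tr i j)) y u w := by
  rw [chr_tr G i j hy, SConn.fderiv2_apply (SConn.contDiffAt_tr i j hy)]
  abel

/-- the image of an orthonormal basis is orthonormal -/
theorem onb_tr (G : Met K) (i j : Ix) {y : E K} (hy : y ∈ ov K i j) (a b : Fin (K + 4)) :
    G.g j (tr i j y) (fderiv ℝ (tr i j) y (onb (G.g i y) a))
      (fderiv ℝ (tr i j) y (onb (G.g i y) b)) = if a = b then 1 else 0 := by
  rw [← G.compat i j y hy]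
  exact onb_spec (G.posDef i y) a b

/-- contraction of a compatible pair of forms at one point -/
theorem trace_tr (G : Met K) (i j : Ix) {y : E K} (hy : y ∈ ov K i j) (β : Bil K) :
    ∑ a, β (fderiv ℝ (tr i j) y (onb (G.g i y) a)) (fderiv ℝ (tr i j) y (onb (G.g i y) a)) =
      ∑ a, β (onb (G.g j (tr i j y)) a) (onb (G.g j (tr i j y)) a) :=
  trace_indep (G.posDef j _) β _ (onb_tr G i j hy)

/-- `u, v ↦ T u v w` as a bilinear form -/
def lastEv (T : Tri K) (w : E K) : Bil K :=
  (ContinuousLinearMap.compL ℝ (E K) (E K →L[ℝ] ℝ) ℝ (ContinuousLinearMap.apply ℝ ℝ w)).comp T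

theorem lastEv_apply (T : Tri K) (u v w : E K) : lastEv T w u v = T u v w := by
  simp [lastEv]

variable {B : Bil K}

/-- two orthonormal bases -/
theorem two_onb (hB : PosDef B) {e f : Fin (K + 4) → E K}
    (he : ∀ j k, B (e j) (e k) = if j = k then 1 else 0)
    (hf : ∀ j k, B (f j) (f k) = if j = k then 1 else 0) (β : Bil K) :
    ∑ j, β (e j) (e j) = ∑ j, β (f j) (f j) := by
  rw [trace_indep hB β e he, trace_indep hB β f hf]

theorem sq1_onb (hB : PosDef B) {e f : Fin (K + 4) → E K}
    (he : ∀ j k, B (e j) (e k) = if j = k then 1 else 0)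
    (hf : ∀ j k, B (f j) (f k) = if j = k then 1 else 0) (θ : E K →L[ℝ] ℝ) :
    ∑ j, θ (e j) ^ 2 = ∑ j, θ (f j) ^ 2 := by
  have h := two_onb hB he hf (θ.smulRight θ)
  simpa [pow_two] using h

theorem sq2_onb (hB : PosDef B) {e f : Fin (K + 4) → E K}
    (he : ∀ j k, B (e j) (e k) = if j = k then 1 else 0)
    (hf : ∀ j k, B (f j) (f k) = if j = k then 1 else 0) (b : Bil K) :
    ∑ j, ∑ k, b (e j) (e k) ^ 2 = ∑ j, ∑ k, b (f j) (f k) ^ 2 := by
  have h := two_onb hB he hf (∑ k, (b.flip (e k)).smulRight (b.flip (e k)))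
  have h1 : ∀ u, (∑ k, (b.flip (e k)).smulRight (b.flip (e k))) u u = ∑ k, b u (e k) ^ 2 := by
    intro u
    simp [pow_two]
  simp only [h1] at h
  rw [h]
  exact Finset.sum_congr rfl fun j _ => sq1_onb hB he hf (b (f j))

theorem sq3_onb (hB : PosDef B) {e f : Fin (K + 4) → E K}
    (he : ∀ j k, B (e j) (e k) = if j = k then 1 else 0)
    (hf : ∀ j k, B (f j) (f k) = if j = k then 1 else 0) (T : Tri K) :
    ∑ j, ∑ k, ∑ l, T (e j) (e k) (e l) ^ 2 = ∑ j, ∑ k, ∑ l, T (f j) (f k) (f l) ^ 2 := by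
  have h := two_onb hB he hf (∑ k, ∑ l, ((lastEv T (e l)).flip (e k)).smulRight
    ((lastEv T (e l)).flip (e k)))
  have h1 : ∀ u, (∑ k, ∑ l, ((lastEv T (e l)).flip (e k)).smulRight
      ((lastEv T (e l)).flip (e k))) u u = ∑ k, ∑ l, T u (e k) (e l) ^ 2 := by
    intro u
    simp [pow_two, lastEv_apply]
  simp only [h1] at h
  rw [h]
  exact Finset.sum_congr rfl fun j _ => sq2_onb hB he hf (T (f j))

/-- polarisation -/
theorem sq1_polar (hB : PosDef B) (b : Bil K) :
    sq2 B (fun u v => b u v) = ∑ j, ∑ k, ginv B j k *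
      ((sq1 B (fun v => (b (bs K j) + b (bs K k)) v) - sq1 B (fun v => b (bs K j) v)
        - sq1 B (fun v => b (bs K k) v)) / 2) := by
  have h := trace_eq hB (∑ k, (b.flip (onb B k)).smulRight (b.flip (onb B k)))
  have h1 : ∀ u v, (∑ k, (b.flip (onb B k)).smulRight (b.flip (onb B k))) u v =
      ∑ k, b u (onb B k) * b v (onb B k) := by
    intro u v
    simp
  simp only [h1] at h
  have h2 : sq2 B (fun u v => b u v) = ∑ j, ∑ k, b (onb B j) (onb B k) * b (onb B j) (onb B k) := by
    simp only [sq2, pow_two]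
  rw [h2, h]
  refine Finset.sum_congr rfl fun j _ => Finset.sum_congr rfl fun k _ => ?_
  congr 1
  simp only [sq1]
  rw [← Finset.sum_sub_distrib, ← Finset.sum_sub_distrib, Finset.sum_div]
  refine Finset.sum_congr rfl fun l _ => ?_
  simp only [ContinuousLinearMap.add_apply]
  ring

theorem sq2_polar (hB : PosDef B) (T : Tri K) :
    sq3 B (fun u v w => T u v w) = ∑ j, ∑ k, ginv B j k *
      ((sq2 B (fun v w => (T (bs K j) + T (bs K k)) v w) - sq2 B (fun v w => T (bs K j) v w)
        - sq2 B (fun v w => T (bs K k) v w)) / 2) := by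
  have h := trace_eq hB (∑ k, ∑ l, ((lastEv T (onb B l)).flip (onb B k)).smulRight
    ((lastEv T (onb B l)).flip (onb B k)))
  have h1 : ∀ u v, (∑ k, ∑ l, ((lastEv T (onb B l)).flip (onb B k)).smulRight
      ((lastEv T (onb B l)).flip (onb B k))) u v =
      ∑ k, ∑ l, T u (onb B k) (onb B l) * T v (onb B k) (onb B l) := by
    intro u v
    simp [lastEv_apply]
  simp only [h1] at h
  have h2 : sq3 B (fun u v w => T u v w) = ∑ j, ∑ k, ∑ l,
      T (onb B j) (onb B k) (onb B l) * T (onb B j) (onb B k) (onb B l) := by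
    simp only [sq3, pow_two]
  rw [h2, h]
  refine Finset.sum_congr rfl fun j _ => Finset.sum_congr rfl fun k _ => ?_
  congr 1
  simp only [sq2]
  rw [← Finset.sum_sub_distrib, ← Finset.sum_sub_distrib, Finset.sum_div]
  refine Finset.sum_congr rfl fun l _ => ?_
  rw [← Finset.sum_sub_distrib, ← Finset.sum_sub_distrib, Finset.sum_div]
  refine Finset.sum_congr rfl fun m _ => ?_
  simp only [ContinuousLinearMap.add_apply]
  ring

theorem continuous_ginv (G : Met K) (i : Ix) (j k : Fin (K + 4)) :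
    Continuous (fun y => ginv (G.g i y) j k) :=
  (contDiff_ginv (G.smooth i) (G.posDef i) j k).continuous

end HCompat

open HCompat

theorem compat3_cd (G : Met K) (b : Form2 K) : Compat3 (cd G b.val) := by
  intro i j y hy u v w
  unfold cd
  rw [fderiv_compat2 b i j hy, b.compat i j y hy, b.compat i j y hy, chr_tr' G i j hy,
    chr_tr' G i j hy]
  simp only [map_add, ContinuousLinearMap.add_apply]
  ring

theorem compat3_d2 (b : Form2 K) : Compat3 (d2 b.val) := by
  intro i j y hy u v w
  unfold d2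
  rw [fderiv_compat2 b i j hy u v w, fderiv_compat2 b i j hy v w u, fderiv_compat2 b i j hy w u v,
    snd_symm i j hy v u, snd_symm i j hy w u, snd_symm i j hy w v,
    b.alt j _ (fderiv ℝ (tr i j) y v) (fderiv ℝ (fderiv ℝ (tr i j)) y u w),
    b.alt j _ (fderiv ℝ (tr i j) y w) (fderiv ℝ (fderiv ℝ (tr i j)) y u v),
    b.alt j _ (fderiv ℝ (tr i j) y u) (fderiv ℝ (fderiv ℝ (tr i j)) y v w)]
  ring

theorem compat1_codiff (G : Met K) (b : Form2 K) : Compat1' (codiff G b.val) := by
  intro i j y hy w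
  unfold codiff
  congr 1
  obtain ⟨T, -, hT⟩ := exists_cdL G b.val j (b.smooth j)
  have h := trace_tr G i j hy (lastEv (T (tr i j y)) (fderiv ℝ (tr i j) y w))
  simp only [lastEv_apply, hT] at h
  rw [← h]
  exact Finset.sum_congr rfl fun a _ => compat3_cd G b i j y hy _ _ _

theorem compat0_sq1 (G : Met K) {θ : Ix → E K → E K →L[ℝ] ℝ} (h : Compat1 θ) :
    Compat0 (fun i y => sq1 (G.g i y) (fun u => θ i y u)) := by
  intro i j y hy
  simp only [sq1]
  rw [← sq1_onb (G.posDef j _) (onb_tr G i j hy) (onb_spec (G.posDef j _)) (θ j (tr i j y))]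
  exact Finset.sum_congr rfl fun a _ => by rw [h i j y hy]

theorem compat0_sq2 (G : Met K) {b : Ix → E K → Bil K} (h : Compat2 b) :
    Compat0 (fun i y => sq2 (G.g i y) (fun u v => b i y u v)) := by
  intro i j y hy
  simp only [sq2]
  rw [← sq2_onb (G.posDef j _) (onb_tr G i j hy) (onb_spec (G.posDef j _)) (b j (tr i j y))]
  exact Finset.sum_congr rfl fun a _ => Finset.sum_congr rfl fun c _ => by rw [h i j y hy]

theorem compat0_sq3 (G : Met K) {T : Ix → E K → Tri K}
    (h : Compat3 (fun i y u v w => T i y u v w)) :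
    Compat0 (fun i y => sq3 (G.g i y) (fun u v w => T i y u v w)) := by
  intro i j y hy
  simp only [sq3]
  rw [← sq3_onb (G.posDef j _) (onb_tr G i j hy) (onb_spec (G.posDef j _)) (T j (tr i j y))]
  exact Finset.sum_congr rfl fun a _ => Finset.sum_congr rfl fun c _ =>
    Finset.sum_congr rfl fun d _ => congrArg (fun x : ℝ => x ^ 2) (h i j y hy _ _ _)

/-- contractions of compatible bilinear forms -/
theorem compat0_trace (G : Met K) {b : Ix → E K → Bil K} (h : Compat2 b) :
    Compat0 (fun i y => ∑ j, b i y (onb (G.g i y) j) (onb (G.g i y) j)) := by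
  intro i j y hy
  simp only
  rw [← trace_tr G i j hy]
  exact Finset.sum_congr rfl fun a _ => h i j y hy _ _

theorem cont_sq1 (G : Met K) (i : Ix) {θ : E K → E K →L[ℝ] ℝ} (h : Continuous θ) :
    Continuous (fun y => sq1 (G.g i y) (fun u => θ y u)) := by
  have h1 : ∀ y, sq1 (G.g i y) (fun u => θ y u) =
      ∑ j, ∑ k, ginv (G.g i y) j k * (θ y (bs K j) * θ y (bs K k)) := by
    intro y
    have h2 := trace_eq (G.posDef i y) ((θ y).smulRight (θ y))
    simp only [ContinuousLinearMap.smulRight_apply, ContinuousLinearMap.smul_apply,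
      smul_eq_mul] at h2
    rw [← h2]
    simp only [sq1, pow_two]
  simp only [h1]
  exact continuous_finsetSum _ fun j _ => continuous_finsetSum _ fun k _ =>
    (continuous_ginv G i j k).mul ((h.clm_apply continuous_const).mul
      (h.clm_apply continuous_const))

theorem cont_sq2 (G : Met K) (i : Ix) {b : E K → Bil K} (h : Continuous b) :
    Continuous (fun y => sq2 (G.g i y) (fun u v => b y u v)) := by
  simp only [fun y => sq1_polar (G.posDef i y) (b y)]
  refine continuous_finsetSum _ fun j _ => continuous_finsetSum _ fun k _ =>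
    (continuous_ginv G i j k).mul (Continuous.div_const ?_ 2)
  have hj : ∀ j, Continuous (fun y => b y (bs K j)) := fun j => h.clm_apply continuous_const
  exact ((cont_sq1 G i ((hj j).add (hj k))).sub (cont_sq1 G i (hj j))).sub (cont_sq1 G i (hj k))

theorem cont_sq3 (G : Met K) (i : Ix) {T : E K → Tri K} (h : Continuous T) :
    Continuous (fun y => sq3 (G.g i y) (fun u v w => T y u v w)) := by
  simp only [fun y => sq2_polar (G.posDef i y) (T y)]
  refine continuous_finsetSum _ fun j _ => continuous_finsetSum _ fun k _ =>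
    (continuous_ginv G i j k).mul (Continuous.div_const ?_ 2)
  have hj : ∀ j, Continuous (fun y => T y (bs K j)) := fun j => h.clm_apply continuous_const
  exact ((cont_sq2 G i ((hj j).add (hj k))).sub (cont_sq2 G i (hj j))).sub (cont_sq2 G i (hj k))

end Pool.Agent.H86.Nco
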