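import Mathlib

/-!
# Module HFRIED: mollification and the lemma of Friedrichs (general analysis)

`mol η ε φ y = ∫ η(z) φ(y - ε z) dz`.

`contDiff_mol`, `fderiv_mol`: differentiate under the integral sign (`φ` smooth with compact support;
`η` continuous with compact support), or convolution (`convolution_def`,
`HasCompactSupport.contDiff_convolution_left`).
The three smallness statements have the same proof.  Let `K_ε φ` be one of `mol ε φ - φ`,
`A·D(mol ε φ) - mol ε (A·Dφ)`, `B·mol ε φ - mol ε (B·φ)`.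
(1) `‖K_ε φ‖₂ ≤ c ‖φ‖₂` for `0 < ε ≤ 1` and `φ` supported in the compact set `C`: for `mol` itself
Cauchy-Schwarz (or Jensen) and Tonelli: `∫ ‖∫ η(z) φ(y - εz) dz‖² dy ≤ ∫∫ η(z) ‖φ(y - εz)‖² dz dy = ‖φ‖₂²`.
For the second: `A(y) Dφ(y - εz) - A(y - εz) Dφ(y - εz)` and `Dφ(y - εz) = - ε⁻¹ D_z (φ(y - εz))`; integrate
by parts in `z` (component by component with respect to a basis of `E`): the kernel becomes
`ε⁻¹ D_z (η(z) (A(y) - A(y - εz)))`, which is bounded by `c 1_{‖z‖ ≤ 1}` uniformly in `ε ∈ (0, 1]` and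
`y` in the `1`-neighbourhood of `C` because `A` and `DA` are bounded and `A` Lipschitz there; then
again Cauchy-Schwarz and Tonelli.  Third: `B` bounded.
(2) For a fixed smooth `φ` supported in `C`: `∫ ‖K_ε φ‖² → 0` as `ε → 0` (uniform convergence with support
in the `1`-neighbourhood of `C`, which has finite measure; `φ`, `A·Dφ`, `B·φ` are uniformly continuous).
(3) For an `L²` Cauchy sequence `φ_n`: `‖K_ε φ_n‖ ≤ c ‖φ_n - φ_m‖ + ‖K_ε φ_m‖` with a fixed large `m` for
`n ≥ m`, and finitely many `n < m` are handled by (2).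
-/

open scoped ContDiff Topology

noncomputable section

namespace Pool.Agent.H86.Nco

open MeasureTheory

variable {E : Type} [NormedAddCommGroup E] [NormedSpace ℝ E] [FiniteDimensional ℝ E]
  [MeasurableSpace E] [BorelSpace E] (μ : Measure E) [μ.IsAddHaarMeasure]
  {X : Type} [NormedAddCommGroup X] [NormedSpace ℝ X] [FiniteDimensional ℝ X]
  {Y : Type} [NormedAddCommGroup Y] [NormedSpace ℝ Y] [FiniteDimensional ℝ Y]

/-- mollification -/
def mol (η : E → ℝ) (ε : ℝ) (φ : E → X) (y : E) : X := ∫ z, η z • φ (y - ε • z) ∂μ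

/-- mollifiers -/
structure Kernel (η : E → ℝ) : Prop where
  smooth : ContDiff ℝ ∞ η
  nonneg : ∀ z, 0 ≤ η z
  supp : ∀ z, 1 ≤ ‖z‖ → η z = 0
  int : ∫ z, η z ∂μ = 1

theorem exists_kernel : ∃ η : E → ℝ, Kernel μ η := by
  let f : ContDiffBump (0 : E) := ⟨1 / 2, 1, by norm_num, by norm_num⟩
  refine ⟨f.normed μ, f.contDiff_normed, f.nonneg_normed, ?_, f.integral_normed⟩
  intro z hz
  by_contra h
  have : z ∈ Function.support (f.normed μ) := h
  rw [f.support_normed_eq] at this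
  simp only [Metric.mem_ball, dist_zero_right] at this
  have h1 : f.rOut = 1 := rfl
  rw [h1] at this
  linarith

theorem Kernel.hcs {η : E → ℝ} (hη : Kernel μ η) : HasCompactSupport η := by
  apply HasCompactSupport.intro (isCompact_closedBall (0 : E) 1)
  intro z hz
  apply hη.supp
  simp only [Metric.mem_closedBall, dist_zero_right, not_le] at hz
  exact hz.le

theorem Kernel.integrable {η : E → ℝ} (hη : Kernel μ η) : Integrable η μ :=
  hη.smooth.continuous.integrable_of_hasCompactSupport (hη.hcs μ)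

theorem mol_integrable {k : E → ℝ} (hk : Continuous k) (hkc : HasCompactSupport k) (ε : ℝ)
    {φ : E → X} (hφ : Continuous φ) (y : E) : Integrable (fun z => k z • φ (y - ε • z)) μ := by
  apply Continuous.integrable_of_hasCompactSupport
  · fun_prop
  · exact hkc.smul_right

theorem mol_continuous {k : E → ℝ} (hk : Continuous k) (hkc : HasCompactSupport k) (ε : ℝ)
    {φ : E → X} (hφ : Continuous φ) (hc : HasCompactSupport φ) :
    Continuous (mol μ k ε φ) := by
  obtain ⟨M, hM⟩ := hφ.bounded_above_of_compact_support hc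
  have hki : Integrable k μ := hk.integrable_of_hasCompactSupport hkc
  apply continuous_of_dominated (bound := fun z => ‖k z‖ * M)
  · intro x
    exact (mol_integrable μ hk hkc ε hφ x).aestronglyMeasurable
  · intro x
    refine Filter.Eventually.of_forall fun z => ?_
    rw [norm_smul]
    exact mul_le_mul_of_nonneg_left (hM _) (norm_nonneg _)
  · exact hki.norm.mul_const M
  · refine Filter.Eventually.of_forall fun z => ?_
    fun_prop

theorem hasFDerivAt_mol {η : E → ℝ} (hη : Kernel μ η) (ε : ℝ) {φ : E → X} (hφ : ContDiff ℝ 1 φ)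
    (hc : HasCompactSupport φ) (y : E) :
    HasFDerivAt (mol μ η ε φ) (mol μ η ε (fderiv ℝ φ) y) y := by
  have hd : Continuous (fderiv ℝ φ) := hφ.continuous_fderiv (by norm_num)
  obtain ⟨M, hM⟩ := hd.bounded_above_of_compact_support (hc.fderiv ℝ)
  have hki : Integrable η μ := hη.integrable μ
  have := hasFDerivAt_integral_of_dominated_of_fderiv_le (𝕜 := ℝ) (μ := μ)
    (F := fun (y : E) z => η z • φ (y - ε • z)) (F' := fun (y : E) z => η z • fderiv ℝ φ (y - ε • z))
    (x₀ := y) (s := Set.univ) (bound := fun z => ‖η z‖ * M) Filter.univ_mem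
    (Filter.Eventually.of_forall fun x =>
      (mol_integrable μ hη.smooth.continuous (hη.hcs μ) ε hφ.continuous x).aestronglyMeasurable)
    (mol_integrable μ hη.smooth.continuous (hη.hcs μ) ε hφ.continuous y)
    (mol_integrable μ hη.smooth.continuous (hη.hcs μ) ε hd y).aestronglyMeasurable
    (Filter.Eventually.of_forall fun z x _ => by
      rw [norm_smul]
      exact mul_le_mul_of_nonneg_left (hM _) (norm_nonneg _))
    (hki.norm.mul_const M)
    (Filter.Eventually.of_forall fun z x _ => by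
      have h1 : HasFDerivAt φ (fderiv ℝ φ (x - ε • z)) (x - ε • z) :=
        (hφ.differentiable (by norm_num) _).hasFDerivAt
      have h2 : HasFDerivAt (fun x : E => x - ε • z) (ContinuousLinearMap.id ℝ E) x :=
        (hasFDerivAt_id x).sub_const _
      have h3 := (h1.comp x h2).const_smul (η z)
      rw [ContinuousLinearMap.comp_id] at h3
      exact h3)
  exact this

theorem contDiff_mol_nat {η : E → ℝ} (hη : Kernel μ η) (ε : ℝ) (n : ℕ) :
    ∀ (X : Type) [NormedAddCommGroup X] [NormedSpace ℝ X] [FiniteDimensional ℝ X]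
      {φ : E → X} (_ : ContDiff ℝ ∞ φ) (_ : HasCompactSupport φ),
      ContDiff ℝ n (mol μ η ε φ) := by
  induction n with
  | zero =>
    intro X _ _ _ φ hφ hc
    exact contDiff_zero.2
      (mol_continuous μ hη.smooth.continuous (hη.hcs μ) ε hφ.continuous hc)
  | succ n ih =>
    intro X _ _ _ φ hφ hc
    have h1 : ∀ y, HasFDerivAt (mol μ η ε φ) (mol μ η ε (fderiv ℝ φ) y) y := fun y =>
      hasFDerivAt_mol μ hη ε (hφ.of_le (by exact_mod_cast le_top)) hc y
    have h2 : fderiv ℝ (mol μ η ε φ) = mol μ η ε (fderiv ℝ φ) := funext fun y => (h1 y).fderiv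
    push_cast
    rw [contDiff_succ_iff_fderiv]
    refine ⟨fun y => (h1 y).differentiableAt, by simp, ?_⟩
    rw [h2]
    exact ih (E →L[ℝ] X) (hφ.fderiv_right (by exact_mod_cast le_top)) (hc.fderiv ℝ)

theorem contDiff_mol {η : E → ℝ} (hη : Kernel μ η) (ε : ℝ) {φ : E → X} (hφ : ContDiff ℝ ∞ φ)
    (hc : HasCompactSupport φ) : ContDiff ℝ ∞ (mol μ η ε φ) := by
  rw [contDiff_infty]
  exact fun n => contDiff_mol_nat μ hη ε n X hφ hc

theorem fderiv_mol {η : E → ℝ} (hη : Kernel μ η) (ε : ℝ) {φ : E → X} (hφ : ContDiff ℝ ∞ φ)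
    (hc : HasCompactSupport φ) (y : E) :
    fderiv ℝ (mol μ η ε φ) y = mol μ η ε (fderiv ℝ φ) y :=
  (hasFDerivAt_mol μ hη ε (hφ.of_le (by exact_mod_cast le_top)) hc y).fderiv

theorem mol_supp {η : E → ℝ} (hη : Kernel μ η) {ε : ℝ} (h0 : 0 ≤ ε) (h1 : ε ≤ 1) {C : Set E}
    {φ : E → X} (hC : ∀ y, y ∉ C → φ y = 0) (y : E) (hy : y ∉ Metric.cthickening 1 C) :
    mol μ η ε φ y = 0 := by
  have : (fun z => η z • φ (y - ε • z)) = fun _ => 0 := by
    funext z
    by_cases hz : 1 ≤ ‖z‖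
    · rw [hη.supp z hz, zero_smul]
    · rw [hC, smul_zero]
      intro h
      apply hy
      apply Metric.mem_cthickening_of_dist_le _ _ _ _ h
      rw [dist_eq_norm]
      have h2 : y - (y - ε • z) = ε • z := by abel
      rw [h2, norm_smul, Real.norm_eq_abs, abs_of_nonneg h0]
      push Not at hz
      nlinarith [norm_nonneg z]
  unfold mol
  rw [this]
  simp


/-! ### Tonelli and Cauchy-Schwarz -/

section L2

variable {k : E → ℝ}

theorem fr_prod_int (hk : Continuous k) (hkc : HasCompactSupport k) (ε : ℝ) {φ : E → X}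
    (hφ : Continuous φ) (hc : HasCompactSupport φ) :
    Integrable (Function.uncurry fun (y z : E) => k z * ‖φ (y - ε • z)‖ ^ 2) (μ.prod μ) := by
  apply Continuous.integrable_of_hasCompactSupport
  · unfold Function.uncurry
    fun_prop
  · apply HasCompactSupport.intro
      (K := (fun p : E × E => (p.1 + ε • p.2, p.2)) '' (tsupport φ ×ˢ tsupport k))
    · apply IsCompact.image (IsCompact.prod hc hkc)
      fun_prop
    · rintro ⟨y, z⟩ h
      simp only [Function.uncurry]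
      by_cases hz : z ∈ tsupport k
      · have hy : y - ε • z ∉ tsupport φ := by
          intro hy
          apply h
          refine ⟨(y - ε • z, z), ⟨hy, hz⟩, ?_⟩
          simp
        rw [image_eq_zero_of_notMem_tsupport hy]
        simp
      · rw [image_eq_zero_of_notMem_tsupport hz]
        simp

theorem fr_int_G (hk : Continuous k) (hkc : HasCompactSupport k) (ε : ℝ) {φ : E → X}
    (hφ : Continuous φ) (hc : HasCompactSupport φ) :
    ∫ y, ∫ z, k z * ‖φ (y - ε • z)‖ ^ 2 ∂μ ∂μ = (∫ z, k z ∂μ) * ∫ y, ‖φ y‖ ^ 2 ∂μ := by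
  rw [integral_integral_swap (fr_prod_int μ hk hkc ε hφ hc)]
  have h : ∀ z, ∫ y, k z * ‖φ (y - ε • z)‖ ^ 2 ∂μ = k z * ∫ y, ‖φ y‖ ^ 2 ∂μ := by
    intro z
    rw [integral_const_mul, integral_sub_right_eq_self (fun y => ‖φ y‖ ^ 2) (ε • z)]
  simp_rw [h]
  rw [integral_mul_const]

theorem fr_G_integrable (hk : Continuous k) (hkc : HasCompactSupport k) (ε : ℝ) {φ : E → X}
    (hφ : Continuous φ) (hc : HasCompactSupport φ) :
    Integrable (fun y => ∫ z, k z * ‖φ (y - ε • z)‖ ^ 2 ∂μ) μ :=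
  (fr_prod_int μ hk hkc ε hφ hc).integral_prod_left

theorem fr_sq_avg_le (hk : Continuous k) (hkc : HasCompactSupport k) (hk0 : ∀ z, 0 ≤ k z) (ε : ℝ)
    {φ : E → X} (hφ : Continuous φ) (y : E) :
    (mol μ k ε (fun x => ‖φ x‖) y) ^ 2 ≤
      (∫ z, k z ∂μ) * ∫ z, k z * ‖φ (y - ε • z)‖ ^ 2 ∂μ := by
  have i1 : Integrable (fun z => k z * ‖φ (y - ε • z)‖) μ := by
    apply Continuous.integrable_of_hasCompactSupport
    · fun_prop
    · exact hkc.mul_right
  have i2 : Integrable (fun z => k z * ‖φ (y - ε • z)‖ ^ 2) μ := by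
    apply Continuous.integrable_of_hasCompactSupport
    · fun_prop
    · exact hkc.mul_right
  have i0 : Integrable k μ := hk.integrable_of_hasCompactSupport hkc
  have key : ∀ t : ℝ, 0 ≤ (∫ z, k z ∂μ) * (t * t)
      + (-(2 * ∫ z, k z * ‖φ (y - ε • z)‖ ∂μ)) * t + ∫ z, k z * ‖φ (y - ε • z)‖ ^ 2 ∂μ := by
    intro t
    have h1 : ∫ z, k z * (t - ‖φ (y - ε • z)‖) ^ 2 ∂μ = (∫ z, k z ∂μ) * (t * t)
      + (-(2 * ∫ z, k z * ‖φ (y - ε • z)‖ ∂μ)) * t + ∫ z, k z * ‖φ (y - ε • z)‖ ^ 2 ∂μ := by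
      have h2 : (fun z => k z * (t - ‖φ (y - ε • z)‖) ^ 2) = fun z =>
          (k z * (t * t) + (- (2 * t)) * (k z * ‖φ (y - ε • z)‖))
            + k z * ‖φ (y - ε • z)‖ ^ 2 := by
        funext z
        ring
      have j1 : Integrable (fun z => k z * (t * t) + (- (2 * t)) * (k z * ‖φ (y - ε • z)‖)) μ :=
        (i0.mul_const _).add (i1.const_mul _)
      rw [h2, integral_add j1 i2,
        integral_add (i0.mul_const _) (i1.const_mul _), integral_mul_const, integral_const_mul]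
      ring
    rw [← h1]
    exact integral_nonneg fun z => mul_nonneg (hk0 z) (sq_nonneg _)
  have hd := discrim_le_zero key
  unfold discrim at hd
  unfold mol
  simp only [smul_eq_mul]
  nlinarith [hd]

theorem fr_sq_avg_integrable (hk : Continuous k) (hkc : HasCompactSupport k) (hk0 : ∀ z, 0 ≤ k z)
    (ε : ℝ) {φ : E → X} (hφ : Continuous φ) (hc : HasCompactSupport φ) :
    Integrable (fun y => (mol μ k ε (fun x => ‖φ x‖) y) ^ 2) μ := by
  apply ((fr_G_integrable μ hk hkc ε hφ hc).const_mul (∫ z, k z ∂μ)).mono'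
  · exact ((mol_continuous μ hk hkc ε hφ.norm hc.norm).pow 2).aestronglyMeasurable
  · refine Filter.Eventually.of_forall fun y => ?_
    rw [Real.norm_eq_abs, abs_of_nonneg (sq_nonneg _)]
    exact fr_sq_avg_le μ hk hkc hk0 ε hφ y

theorem fr_int_sq_avg (hk : Continuous k) (hkc : HasCompactSupport k) (hk0 : ∀ z, 0 ≤ k z)
    (ε : ℝ) {φ : E → X} (hφ : Continuous φ) (hc : HasCompactSupport φ) :
    ∫ y, (mol μ k ε (fun x => ‖φ x‖) y) ^ 2 ∂μ ≤
      (∫ z, k z ∂μ) ^ 2 * ∫ y, ‖φ y‖ ^ 2 ∂μ := by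
  calc ∫ y, (mol μ k ε (fun x => ‖φ x‖) y) ^ 2 ∂μ
      ≤ ∫ y, (∫ z, k z ∂μ) * ∫ z, k z * ‖φ (y - ε • z)‖ ^ 2 ∂μ ∂μ := by
        apply integral_mono (fr_sq_avg_integrable μ hk hkc hk0 ε hφ hc)
          ((fr_G_integrable μ hk hkc ε hφ hc).const_mul _)
        exact fun y => fr_sq_avg_le μ hk hkc hk0 ε hφ y
    _ = (∫ z, k z ∂μ) ^ 2 * ∫ y, ‖φ y‖ ^ 2 ∂μ := by
        rw [integral_const_mul, fr_int_G μ hk hkc ε hφ hc]
        ring

end L2

/-- sequences of smooth functions supported in the compact set `C`, Cauchy in `L²` -/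
structure CSeq (C : Set E) (φ : ℕ → E → X) : Prop where
  smooth : ∀ n, ContDiff ℝ ∞ (φ n)
  supp : ∀ n y, y ∉ C → φ n y = 0
  cauchy : ∀ ε : ℝ, 0 < ε → ∃ n₀, ∀ m ≥ n₀, ∀ n ≥ n₀, ∫ y, ‖φ m y - φ n y‖ ^ 2 ∂μ < ε

/-- smooth functions supported in `C` -/
structure FrSC (C : Set E) (φ : E → X) : Prop where
  smooth : ContDiff ℝ ∞ φ
  supp : ∀ y, y ∉ C → φ y = 0

theorem FrSC.hcs {C : Set E} (hC : IsCompact C) {φ : E → X} (h : FrSC C φ) : HasCompactSupport φ :=
  HasCompactSupport.intro hC h.supp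

theorem FrSC.sub {C : Set E} {φ ψ : E → X} (h : FrSC C φ) (h' : FrSC C ψ) :
    FrSC C (fun y => φ y - ψ y) :=
  ⟨h.smooth.sub h'.smooth, fun y hy => by rw [h.supp y hy, h'.supp y hy, sub_zero]⟩

/-- the abstract properties of the three operators -/
structure FrOp (k : E → ℝ) (C : Set E) (T : ℝ → (E → X) → E → Y) : Prop where
  cont : ∀ ε, 0 < ε → ε ≤ 1 → ∀ φ, FrSC C φ → Continuous (T ε φ)
  supp : ∀ ε, 0 < ε → ε ≤ 1 → ∀ φ, FrSC C φ → ∀ y, y ∉ Metric.cthickening 1 C → T ε φ y = 0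
  sub : ∀ ε, 0 < ε → ε ≤ 1 → ∀ φ ψ, FrSC C φ → FrSC C ψ → ∀ y,
    T ε (fun y => φ y - ψ y) y = T ε φ y - T ε ψ y
  bd : ∃ a b : ℝ, 0 ≤ a ∧ 0 ≤ b ∧ ∀ ε, 0 < ε → ε ≤ 1 → ∀ φ, FrSC C φ → ∀ y,
    ‖T ε φ y‖ ≤ a * mol μ k ε (fun x => ‖φ x‖) y + b * ‖φ y‖
  pt : ∀ φ, FrSC C φ → ∀ δ : ℝ, 0 < δ → ∃ ε₀ : ℝ, 0 < ε₀ ∧ ∀ ε, 0 < ε → ε < ε₀ → ε ≤ 1 → ∀ y,
    ‖T ε φ y‖ ≤ δ

theorem FrOp.hcs {k : E → ℝ} {C : Set E} (hC : IsCompact C) {T : ℝ → (E → X) → E → Y}
    (hT : FrOp μ k C T) {ε : ℝ} (h0 : 0 < ε) (h1 : ε ≤ 1) {φ : E → X} (h : FrSC C φ) :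
    HasCompactSupport (T ε φ) :=
  HasCompactSupport.intro (hC.cthickening) (hT.supp ε h0 h1 φ h)

theorem FrOp.sq_int {k : E → ℝ} {C : Set E} (hC : IsCompact C) {T : ℝ → (E → X) → E → Y}
    (hT : FrOp μ k C T) {ε : ℝ} (h0 : 0 < ε) (h1 : ε ≤ 1) {φ : E → X} (h : FrSC C φ) :
    Integrable (fun y => ‖T ε φ y‖ ^ 2) μ := by
  apply Continuous.integrable_of_hasCompactSupport
  · exact (hT.cont ε h0 h1 φ h).norm.pow 2
  · apply HasCompactSupport.intro (hC.cthickening (r := 1))
    intro y hy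
    rw [hT.supp ε h0 h1 φ h y hy]
    simp

theorem FrSC.sq_int {C : Set E} (hC : IsCompact C) {φ : E → X} (h : FrSC C φ) :
    Integrable (fun y => ‖φ y‖ ^ 2) μ := by
  apply Continuous.integrable_of_hasCompactSupport
  · exact h.smooth.continuous.norm.pow 2
  · apply HasCompactSupport.intro hC
    intro y hy
    rw [h.supp y hy]
    simp

theorem FrOp.l2 {k : E → ℝ} (hk : Continuous k) (hkc : HasCompactSupport k) (hk0 : ∀ z, 0 ≤ k z)
    {C : Set E} (hC : IsCompact C) {T : ℝ → (E → X) → E → Y} (hT : FrOp μ k C T) :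
    ∃ c : ℝ, 0 ≤ c ∧ ∀ ε, 0 < ε → ε ≤ 1 → ∀ φ, FrSC C φ →
      ∫ y, ‖T ε φ y‖ ^ 2 ∂μ ≤ c * ∫ y, ‖φ y‖ ^ 2 ∂μ := by
  obtain ⟨a, b, ha, hb, hab⟩ := hT.bd
  refine ⟨2 * a ^ 2 * (∫ z, k z ∂μ) ^ 2 + 2 * b ^ 2, by positivity, ?_⟩
  intro ε h0 h1 φ h
  have hcs := h.hcs hC
  have i1 := fr_sq_avg_integrable μ hk hkc hk0 ε h.smooth.continuous hcs
  have i2 := h.sq_int μ hC
  have hm : ∫ y, ‖T ε φ y‖ ^ 2 ∂μ ≤
      ∫ y, 2 * a ^ 2 * (mol μ k ε (fun x => ‖φ x‖) y) ^ 2 + 2 * b ^ 2 * ‖φ y‖ ^ 2 ∂μ := by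
    apply integral_mono (hT.sq_int μ hC h0 h1 h) ((i1.const_mul _).add (i2.const_mul _))
    intro y
    have h2 := hab ε h0 h1 φ h y
    have h3 : 0 ≤ ‖T ε φ y‖ := norm_nonneg _
    have h4 : ‖T ε φ y‖ ^ 2 ≤ (a * mol μ k ε (fun x => ‖φ x‖) y + b * ‖φ y‖) ^ 2 :=
      pow_le_pow_left₀ h3 h2 2
    have h5 := sq_nonneg (a * mol μ k ε (fun x => ‖φ x‖) y - b * ‖φ y‖)
    simp only [Pi.add_apply]
    nlinarith
  rw [integral_add (i1.const_mul _) (i2.const_mul _), integral_const_mul, integral_const_mul] at hm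
  have h6 := fr_int_sq_avg μ hk hkc hk0 ε h.smooth.continuous hcs
  have h7 : 2 * a ^ 2 * ∫ y, (mol μ k ε (fun x => ‖φ x‖) y) ^ 2 ∂μ ≤
      2 * a ^ 2 * ((∫ z, k z ∂μ) ^ 2 * ∫ y, ‖φ y‖ ^ 2 ∂μ) :=
    mul_le_mul_of_nonneg_left h6 (by positivity)
  linarith

theorem FrOp.small {k : E → ℝ} {C : Set E} (hC : IsCompact C) {T : ℝ → (E → X) → E → Y}
    (hT : FrOp μ k C T) {φ : E → X} (h : FrSC C φ) (δ : ℝ) (hδ : 0 < δ) :
    ∃ ε₀ : ℝ, 0 < ε₀ ∧ ∀ ε, 0 < ε → ε < ε₀ → ε ≤ 1 → ∫ y, ‖T ε φ y‖ ^ 2 ∂μ < δ := by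
  set S := Metric.cthickening 1 C with hS
  have hSc : IsCompact S := hC.cthickening
  have hfin : μ S < ⊤ := hSc.measure_lt_top
  set V := μ.real S with hV
  have hV0 : 0 ≤ V := measureReal_nonneg
  obtain ⟨δ', hδ', hlt⟩ : ∃ δ' : ℝ, 0 < δ' ∧ δ' ^ 2 * V < δ := by
    refine ⟨Real.sqrt (δ / (V + 1)), by positivity, ?_⟩
    rw [Real.sq_sqrt (by positivity), div_mul_eq_mul_div, div_lt_iff₀ (by positivity)]
    nlinarith
  obtain ⟨ε₀, hε₀, hp⟩ := hT.pt φ h δ' hδ'
  refine ⟨ε₀, hε₀, fun ε h0 hl h1 => ?_⟩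
  have h2 : ∫ y, ‖T ε φ y‖ ^ 2 ∂μ = ∫ y in S, ‖T ε φ y‖ ^ 2 ∂μ := by
    rw [setIntegral_eq_integral_of_forall_compl_eq_zero]
    intro y hy
    rw [hT.supp ε h0 h1 φ h y hy]
    simp
  rw [h2]
  have h3 : ∫ y in S, ‖T ε φ y‖ ^ 2 ∂μ ≤ ∫ _ in S, δ' ^ 2 ∂μ := by
    apply setIntegral_mono_on (hT.sq_int μ hC h0 h1 h).integrableOn
      (integrableOn_const hfin.ne) hSc.measurableSet
    intro y _
    exact pow_le_pow_left₀ (norm_nonneg _) (hp ε h0 hl h1 y) 2
  rw [setIntegral_const, smul_eq_mul, ← hV] at h3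
  linarith

theorem FrOp.uniform {k : E → ℝ} (hk : Continuous k) (hkc : HasCompactSupport k)
    (hk0 : ∀ z, 0 ≤ k z) {C : Set E} (hC : IsCompact C) {T : ℝ → (E → X) → E → Y}
    (hT : FrOp μ k C T) {φ : ℕ → E → X} (hφ : CSeq μ C φ) (δ : ℝ) (hδ : 0 < δ) :
    ∃ ε₀ : ℝ, 0 < ε₀ ∧ ∀ ε, 0 < ε → ε < ε₀ → ∀ n, ∫ y, ‖T ε (φ n) y‖ ^ 2 ∂μ < δ := by
  have hs : ∀ n, FrSC C (φ n) := fun n => ⟨hφ.smooth n, hφ.supp n⟩
  obtain ⟨c, hc0, hc⟩ := hT.l2 μ hk hkc hk0 hC
  obtain ⟨N, hN⟩ := hφ.cauchy (δ / (4 * (c + 1))) (by positivity)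
  have hfinN : ∀ N : ℕ, ∃ ε₀ : ℝ, 0 < ε₀ ∧ ∀ ε, 0 < ε → ε < ε₀ → ε ≤ 1 → ∀ n ≤ N,
      ∫ y, ‖T ε (φ n) y‖ ^ 2 ∂μ < δ / 4 := by
    intro N
    induction N with
    | zero =>
      obtain ⟨ε₀, hε₀, h⟩ := hT.small μ hC (hs 0) (δ / 4) (by positivity)
      refine ⟨ε₀, hε₀, fun ε h0 hl h1 n hn => ?_⟩
      have : n = 0 := by omega
      subst this
      exact h ε h0 hl h1
    | succ N ih =>
      obtain ⟨ε₁, hε₁, h₁⟩ := ih
      obtain ⟨ε₀, hε₀, h⟩ := hT.small μ hC (hs (N + 1)) (δ / 4) (by positivity)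
      refine ⟨min ε₀ ε₁, lt_min hε₀ hε₁, fun ε h0 hl h1 n hn => ?_⟩
      rcases Nat.lt_or_ge N n with h2 | h2
      · have : n = N + 1 := by omega
        subst this
        exact h ε h0 (lt_of_lt_of_le hl (min_le_left _ _)) h1
      · exact h₁ ε h0 (lt_of_lt_of_le hl (min_le_right _ _)) h1 n h2
  obtain ⟨ε₁, hε₁, hN1⟩ := hfinN N
  refine ⟨min ε₁ 1, lt_min hε₁ one_pos, fun ε h0 hl n => ?_⟩
  have h1 : ε ≤ 1 := (lt_of_lt_of_le hl (min_le_right _ _)).le
  have h2 : ε < ε₁ := lt_of_lt_of_le hl (min_le_left _ _)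
  rcases Nat.lt_or_ge N n with h3 | h3
  · have h4 := hN1 ε h0 h2 h1 N le_rfl
    have hsub : FrSC C (fun y => φ n y - φ N y) := (hs n).sub (hs N)
    have h5 := hc ε h0 h1 _ hsub
    have h6 := hN n h3.le N le_rfl
    have i1 := hT.sq_int μ hC h0 h1 hsub
    have i2 := hT.sq_int μ hC h0 h1 (hs N)
    have h7 : ∫ y, ‖T ε (φ n) y‖ ^ 2 ∂μ ≤
        ∫ y, 2 * ‖T ε (fun y => φ n y - φ N y) y‖ ^ 2 + 2 * ‖T ε (φ N) y‖ ^ 2 ∂μ := by
      apply integral_mono (hT.sq_int μ hC h0 h1 (hs n)) ((i1.const_mul _).add (i2.const_mul _))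
      intro y
      have h8 := hT.sub ε h0 h1 _ _ (hs n) (hs N) y
      have h9 : T ε (φ n) y = T ε (fun y => φ n y - φ N y) y + T ε (φ N) y := by
        rw [h8]; abel
      have h10 : ‖T ε (φ n) y‖ ≤ ‖T ε (fun y => φ n y - φ N y) y‖ + ‖T ε (φ N) y‖ := by
        rw [h9]
        exact norm_add_le _ _
      have h11 : ‖T ε (φ n) y‖ ^ 2 ≤
          (‖T ε (fun y => φ n y - φ N y) y‖ + ‖T ε (φ N) y‖) ^ 2 :=
        pow_le_pow_left₀ (norm_nonneg _) h10 2
      have h12 := sq_nonneg (‖T ε (fun y => φ n y - φ N y) y‖ - ‖T ε (φ N) y‖)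
      simp only [Pi.add_apply]
      nlinarith
    rw [integral_add (i1.const_mul _) (i2.const_mul _), integral_const_mul,
      integral_const_mul] at h7
    have h13 : c * ∫ y, ‖φ n y - φ N y‖ ^ 2 ∂μ ≤ c * (δ / (4 * (c + 1))) :=
      mul_le_mul_of_nonneg_left h6.le hc0
    have h14 : c * (δ / (4 * (c + 1))) ≤ δ / 4 := by
      rw [← mul_div_assoc, div_le_div_iff₀ (by positivity) (by norm_num)]
      nlinarith
    linarith
  · have := hN1 ε h0 h2 h1 n h3
    linarith


/-! ### the three operators -/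

theorem mol_sub_fun {η : E → ℝ} (hη : Kernel μ η) (ε : ℝ) {φ ψ : E → X} (hφ : Continuous φ)
    (hψ : Continuous ψ) (y : E) :
    mol μ η ε (fun y => φ y - ψ y) y = mol μ η ε φ y - mol μ η ε ψ y := by
  unfold mol
  rw [← integral_sub (mol_integrable μ hη.smooth.continuous (hη.hcs μ) ε hφ y)
    (mol_integrable μ hη.smooth.continuous (hη.hcs μ) ε hψ y)]
  simp only [smul_sub]

theorem mol_norm_le {η : E → ℝ} (hη : Kernel μ η) (ε : ℝ) (φ : E → X) (y : E) :
    ‖mol μ η ε φ y‖ ≤ mol μ η ε (fun x => ‖φ x‖) y := by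
  unfold mol
  refine (norm_integral_le_integral_norm _).trans (le_of_eq ?_)
  simp only [norm_smul, smul_eq_mul, Real.norm_eq_abs, abs_of_nonneg (hη.nonneg _)]

/-- mollification of a continuous function with compact support is uniformly close to it -/
theorem mol_unif {η : E → ℝ} (hη : Kernel μ η) {φ : E → X} (hφ : Continuous φ)
    (hc : HasCompactSupport φ) (δ : ℝ) (hδ : 0 < δ) : ∃ ε₀ : ℝ, 0 < ε₀ ∧ ∀ ε, 0 < ε → ε < ε₀ →
      ∀ y, ‖mol μ η ε φ y - φ y‖ ≤ δ := by
  have hu : UniformContinuous φ := hc.uniformContinuous_of_continuous hφ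
  obtain ⟨r, hr, h⟩ := Metric.uniformContinuous_iff.1 hu δ hδ
  refine ⟨r, hr, fun ε h0 hl y => ?_⟩
  have hi := mol_integrable μ hη.smooth.continuous (hη.hcs μ) ε hφ y
  have hi2 : Integrable (fun z => η z • φ y) μ := (hη.integrable μ).smul_const _
  have e1 : φ y = ∫ z, η z • φ y ∂μ := by
    rw [integral_smul_const, hη.int, one_smul]
  have e2 : mol μ η ε φ y - φ y = ∫ z, (η z • φ (y - ε • z) - η z • φ y) ∂μ := by
    rw [integral_sub hi hi2, ← e1]
    rfl
  rw [e2]
  calc ‖∫ z, (η z • φ (y - ε • z) - η z • φ y) ∂μ‖ ≤ ∫ z, η z * δ ∂μ := by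
        apply norm_integral_le_of_norm_le ((hη.integrable μ).mul_const δ)
        refine Filter.Eventually.of_forall fun z => ?_
        rw [← smul_sub, norm_smul, Real.norm_eq_abs, abs_of_nonneg (hη.nonneg z)]
        by_cases hz : 1 ≤ ‖z‖
        · rw [hη.supp z hz]; simp
        · apply mul_le_mul_of_nonneg_left _ (hη.nonneg z)
          rw [← dist_eq_norm]
          apply (h _).le
          rw [dist_eq_norm]
          have h2 : y - ε • z - y = - (ε • z) := by abel
          rw [h2, norm_neg, norm_smul, Real.norm_eq_abs, abs_of_pos h0]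
          push Not at hz
          nlinarith [norm_nonneg z]
    _ = δ := by rw [integral_mul_const, hη.int, one_mul]

theorem mol_sub {η : E → ℝ} (hη : Kernel μ η) (C : Set E) (hC : IsCompact C) {φ : ℕ → E → X}
    (hφ : CSeq μ C φ) (δ : ℝ) (hδ : 0 < δ) : ∃ ε₀ : ℝ, 0 < ε₀ ∧ ∀ ε, 0 < ε → ε < ε₀ → ∀ n,
      ∫ y, ‖mol μ η ε (φ n) y - φ n y‖ ^ 2 ∂μ < δ := by
  have hT : FrOp μ η C (fun ε (φ : E → X) y => mol μ η ε φ y - φ y) := by
    refine ⟨?_, ?_, ?_, ⟨1, 1, zero_le_one, zero_le_one, ?_⟩, ?_⟩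
    · intro ε _ _ φ h
      exact (mol_continuous μ hη.smooth.continuous (hη.hcs μ) ε h.smooth.continuous
        (h.hcs hC)).sub h.smooth.continuous
    · intro ε h0 h1 φ h y hy
      rw [mol_supp μ hη h0.le h1 h.supp y hy, h.supp y, sub_zero]
      exact fun h2 => hy (Metric.self_subset_cthickening C h2)
    · intro ε _ _ φ ψ h h' y
      simp only
      rw [mol_sub_fun μ hη ε h.smooth.continuous h'.smooth.continuous]
      abel
    · intro ε _ _ φ h y
      have := mol_norm_le μ hη ε φ y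
      have h2 := norm_sub_le (mol μ η ε φ y) (φ y)
      linarith
    · intro φ h δ hδ
      obtain ⟨ε₀, h0, h1⟩ := mol_unif μ hη h.smooth.continuous (h.hcs hC) δ hδ
      exact ⟨ε₀, h0, fun ε h2 h3 _ => h1 ε h2 h3⟩
  exact hT.uniform μ hη.smooth.continuous (hη.hcs μ) hη.nonneg hC hφ δ hδ

/-- a continuous function is bounded on thickenings of compact sets -/
theorem fr_exists_bound {C : Set E} (hC : IsCompact C) {F : E → Y} (hF : Continuous F) :
    ∃ M : ℝ, 0 ≤ M ∧ ∀ y ∈ Metric.cthickening 1 C, ∀ z : E, ‖z‖ ≤ 1 → ‖F (y - z)‖ ≤ M := by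
  have hS : IsCompact (Metric.cthickening 1 C) := hC.cthickening
  obtain ⟨M, hM⟩ := (hS.prod (isCompact_closedBall (0 : E) 1)).exists_bound_of_continuousOn
    (f := fun p : E × E => F (p.1 - p.2)) (by fun_prop)
  refine ⟨max M 0, le_max_right _ _, fun y hy z hz => (hM (y, z) ⟨hy, ?_⟩).trans (le_max_left _ _)⟩
  simpa using hz

theorem FrSC.clm {C : Set E} {φ : E → X} (h : FrSC C φ) {B : E → X →L[ℝ] Y} (hB : ContDiff ℝ ∞ B) :
    FrSC C (fun x => B x (φ x)) :=
  ⟨hB.clm_apply h.smooth, fun y hy => by rw [h.supp y hy, map_zero]⟩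

theorem zero_order {η : E → ℝ} (hη : Kernel μ η) (C : Set E) (hC : IsCompact C)
    {φ : ℕ → E → X} (hφ : CSeq μ C φ) (B : E → X →L[ℝ] Y) (hB : ContDiff ℝ ∞ B)
    (δ : ℝ) (hδ : 0 < δ) : ∃ ε₀ : ℝ, 0 < ε₀ ∧ ∀ ε, 0 < ε → ε < ε₀ → ∀ n,
      ∫ y, ‖B y (mol μ η ε (φ n) y) - mol μ η ε (fun x => B x (φ n x)) y‖ ^ 2 ∂μ < δ := by
  obtain ⟨M, hM0, hM⟩ := fr_exists_bound hC hB.continuous
  have hM' : ∀ y ∈ Metric.cthickening 1 C, ‖B y‖ ≤ M := by
    intro y hy
    have := hM y hy 0 (by simp)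
    simpa using this
  have hηc := hη.smooth.continuous
  have hT : FrOp μ η C (fun ε (φ : E → X) y => B y (mol μ η ε φ y) -
      mol μ η ε (fun x => B x (φ x)) y) := by
    have hsupp : ∀ ε, 0 < ε → ε ≤ 1 → ∀ φ : E → X, FrSC C φ → ∀ y,
        y ∉ Metric.cthickening 1 C → B y (mol μ η ε φ y) -
          mol μ η ε (fun x => B x (φ x)) y = 0 := by
      intro ε h0 h1 φ h y hy
      rw [mol_supp μ hη h0.le h1 h.supp y hy, mol_supp μ hη h0.le h1 (h.clm hB).supp y hy]
      simp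
    refine ⟨?_, hsupp, ?_, ⟨2 * M, 0, by positivity, le_rfl, ?_⟩, ?_⟩
    · intro ε _ _ φ h
      exact (hB.continuous.clm_apply
        (mol_continuous μ hηc (hη.hcs μ) ε h.smooth.continuous (h.hcs hC))).sub
        (mol_continuous μ hηc (hη.hcs μ) ε (h.clm hB).smooth.continuous ((h.clm hB).hcs hC))
    · intro ε _ _ φ ψ h h' y
      simp only
      have e : (fun x => B x (φ x - ψ x)) = fun x => B x (φ x) - B x (ψ x) := by
        funext x; rw [map_sub]
      rw [e, mol_sub_fun μ hη ε h.smooth.continuous h'.smooth.continuous,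
        mol_sub_fun μ hη ε (h.clm hB).smooth.continuous (h'.clm hB).smooth.continuous, map_sub]
      abel
    · intro ε h0 h1 φ h y
      have hnn : 0 ≤ mol μ η ε (fun x => ‖φ x‖) y := by
        unfold mol
        exact integral_nonneg fun z => mul_nonneg (hη.nonneg z) (norm_nonneg _)
      by_cases hy : y ∈ Metric.cthickening 1 C
      · have a1 : ‖B y (mol μ η ε φ y)‖ ≤ M * mol μ η ε (fun x => ‖φ x‖) y :=
          ((B y).le_opNorm _).trans (mul_le_mul (hM' y hy) (mol_norm_le μ hη ε φ y)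
            (norm_nonneg _) hM0)
        have a2 : ‖mol μ η ε (fun x => B x (φ x)) y‖ ≤ M * mol μ η ε (fun x => ‖φ x‖) y := by
          refine (mol_norm_le μ hη ε _ y).trans ?_
          unfold mol
          rw [← integral_const_mul]
          apply integral_mono
            (mol_integrable μ hηc (hη.hcs μ) ε (h.clm hB).smooth.continuous.norm y)
            ((mol_integrable μ hηc (hη.hcs μ) ε h.smooth.continuous.norm y).const_mul M)
          intro z
          simp only [smul_eq_mul]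
          by_cases hz : 1 ≤ ‖z‖
          · rw [hη.supp z hz]; simp
          · push Not at hz
            have hb := hM y hy (ε • z) (by
              rw [norm_smul, Real.norm_eq_abs, abs_of_pos h0]
              nlinarith [norm_nonneg z])
            have hb2 : ‖B (y - ε • z) (φ (y - ε • z))‖ ≤ M * ‖φ (y - ε • z)‖ :=
              ((B (y - ε • z)).le_opNorm _).trans
                (mul_le_mul_of_nonneg_right hb (norm_nonneg _))
            nlinarith [hη.nonneg z]
        have a3 := norm_sub_le (B y (mol μ η ε φ y)) (mol μ η ε (fun x => B x (φ x)) y)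
        simp only [zero_mul, add_zero]
        linarith
      · simp only [zero_mul, add_zero]
        rw [hsupp ε h0 h1 φ h y hy, norm_zero]
        positivity
    · intro φ h δ hδ
      obtain ⟨ε₀, h0, h1⟩ := mol_unif μ hη h.smooth.continuous (h.hcs hC) (δ / (2 * (M + 1)))
        (by positivity)
      obtain ⟨ε₁, h2, h3⟩ := mol_unif μ hη (h.clm hB).smooth.continuous ((h.clm hB).hcs hC)
        (δ / 2) (by positivity)
      refine ⟨min ε₀ ε₁, lt_min h0 h2, fun ε h4 h5 h6 y => ?_⟩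
      by_cases hy : y ∈ Metric.cthickening 1 C
      · have a1 := h1 ε h4 (lt_of_lt_of_le h5 (min_le_left _ _)) y
        have a2 := h3 ε h4 (lt_of_lt_of_le h5 (min_le_right _ _)) y
        have e : B y (mol μ η ε φ y) - mol μ η ε (fun x => B x (φ x)) y =
            B y (mol μ η ε φ y - φ y) - (mol μ η ε (fun x => B x (φ x)) y - B y (φ y)) := by
          rw [map_sub]; abel
        rw [e]
        have a3 : ‖B y (mol μ η ε φ y - φ y)‖ ≤ M * (δ / (2 * (M + 1))) :=
          ((B y).le_opNorm _).trans (mul_le_mul (hM' y hy) a1 (norm_nonneg _) hM0)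
        have a4 : M * (δ / (2 * (M + 1))) ≤ δ / 2 := by
          rw [← mul_div_assoc, div_le_div_iff₀ (by positivity) (by norm_num)]
          nlinarith
        have a5 := norm_sub_le (B y (mol μ η ε φ y - φ y))
          (mol μ η ε (fun x => B x (φ x)) y - B y (φ y))
        linarith
      · rw [hsupp ε h4 h6 φ h y hy, norm_zero]
        exact hδ.le
  exact hT.uniform μ hηc (hη.hcs μ) hη.nonneg hC hφ δ hδ


theorem FrSC.fderiv {C : Set E} (hC : IsCompact C) {φ : E → X} (h : FrSC C φ) :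
    FrSC C (fderiv ℝ φ) := by
  refine ⟨h.smooth.fderiv_right (by exact_mod_cast le_top), fun y hy => ?_⟩
  have h1 : φ =ᶠ[𝓝 y] fun _ => 0 := by
    filter_upwards [hC.isClosed.isOpen_compl.mem_nhds hy] with x hx
    exact h.supp x hx
  rw [h1.fderiv_eq]
  simp

theorem fr_zo_pt {η : E → ℝ} (hη : Kernel μ η) {C : Set E} (hC : IsCompact C)
    {φ : E → X} (h : FrSC C φ) {B : E → X →L[ℝ] Y} (hB : ContDiff ℝ ∞ B)
    (δ : ℝ) (hδ : 0 < δ) : ∃ ε₀ : ℝ, 0 < ε₀ ∧ ∀ ε, 0 < ε → ε < ε₀ → ε ≤ 1 → ∀ y,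
      ‖B y (mol μ η ε φ y) - mol μ η ε (fun x => B x (φ x)) y‖ ≤ δ := by
  obtain ⟨M, hM0, hM⟩ := fr_exists_bound hC hB.continuous
  have hM' : ∀ y ∈ Metric.cthickening 1 C, ‖B y‖ ≤ M := by
    intro y hy
    have := hM y hy 0 (by simp)
    simpa using this
  obtain ⟨ε₀, h0, h1⟩ := mol_unif μ hη h.smooth.continuous (h.hcs hC) (δ / (2 * (M + 1)))
    (by positivity)
  obtain ⟨ε₁, h2, h3⟩ := mol_unif μ hη (h.clm hB).smooth.continuous ((h.clm hB).hcs hC)
    (δ / 2) (by positivity)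
  refine ⟨min ε₀ ε₁, lt_min h0 h2, fun ε h4 h5 h6 y => ?_⟩
  by_cases hy : y ∈ Metric.cthickening 1 C
  · have a1 := h1 ε h4 (lt_of_lt_of_le h5 (min_le_left _ _)) y
    have a2 := h3 ε h4 (lt_of_lt_of_le h5 (min_le_right _ _)) y
    have e : B y (mol μ η ε φ y) - mol μ η ε (fun x => B x (φ x)) y =
        B y (mol μ η ε φ y - φ y) - (mol μ η ε (fun x => B x (φ x)) y - B y (φ y)) := by
      rw [map_sub]; abel
    rw [e]
    have a3 : ‖B y (mol μ η ε φ y - φ y)‖ ≤ M * (δ / (2 * (M + 1))) :=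
      ((B y).le_opNorm _).trans (mul_le_mul (hM' y hy) a1 (norm_nonneg _) hM0)
    have a4 : M * (δ / (2 * (M + 1))) ≤ δ / 2 := by
      rw [← mul_div_assoc, div_le_div_iff₀ (by positivity) (by norm_num)]
      nlinarith
    have a5 := norm_sub_le (B y (mol μ η ε φ y - φ y))
      (mol μ η ε (fun x => B x (φ x)) y - B y (φ y))
    linarith
  · rw [mol_supp μ hη h4.le h6 h.supp y hy, mol_supp μ hη h4.le h6 (h.clm hB).supp y hy]
    simpa using hδ.le

/-- integration by parts in the mollification variable, one direction -/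
theorem fr_ibp_dir {η k : E → ℝ} (hη : Kernel μ η) (hk : Continuous k) (hkc : HasCompactSupport k)
    (hk0 : ∀ z, 0 ≤ k z) (hk1 : ∀ z, ‖z‖ ≤ 1 → 1 ≤ k z) {P : E → X →L[ℝ] Y}
    (hP : ContDiff ℝ ∞ P) (v : E) {C : Set E} (hC : IsCompact C) :
    ∃ c : ℝ, 0 ≤ c ∧ ∀ ε, 0 < ε → ε ≤ 1 → ∀ φ : E → X, FrSC C φ →
      ∀ y ∈ Metric.cthickening 1 C,
      ‖∫ z, (η z • (P y - P (y - ε • z))) (fderiv ℝ φ (y - ε • z) v) ∂μ‖ ≤
        c * mol μ k ε (fun x => ‖φ x‖) y := by
  have hηc := hη.smooth.continuous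
  have hdη : Continuous (fderiv ℝ η) := hη.smooth.continuous_fderiv (by simp)
  have hdP : Continuous (fderiv ℝ P) := hP.continuous_fderiv (by simp)
  obtain ⟨M0, hM0⟩ := hηc.bounded_above_of_compact_support (hη.hcs μ)
  obtain ⟨M1, hM1⟩ := hdη.bounded_above_of_compact_support ((hη.hcs μ).fderiv ℝ)
  have hM00 : 0 ≤ M0 := (norm_nonneg _).trans (hM0 0)
  have hM10 : 0 ≤ M1 := (norm_nonneg _).trans (hM1 0)
  have hS : IsCompact (Metric.cthickening 1 C) := hC.cthickening
  obtain ⟨R, hR⟩ := hS.isBounded.subset_closedBall (0 : E)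
  obtain ⟨L, hL⟩ := (isCompact_closedBall (0 : E) (R + 1)).exists_bound_of_continuousOn
    (f := fderiv ℝ P) hdP.continuousOn
  set L' := max L 0 with hL'
  have hL0 : 0 ≤ L' := le_max_right _ _
  refine ⟨(M1 + M0) * L' * ‖v‖, by positivity, ?_⟩
  intro ε h0 h1 φ h y hy
  have hdφ : Continuous (fderiv ℝ φ) := h.smooth.continuous_fderiv (by simp)
  set f : E → X →L[ℝ] Y := fun z => η z • (P y - P (y - ε • z)) with hf
  set f' : E → E →L[ℝ] X →L[ℝ] Y := fun z => η z • (ε • fderiv ℝ P (y - ε • z)) +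
    (fderiv ℝ η z).smulRight (P y - P (y - ε • z)) with hf'
  set g : E → X := fun z => φ (y - ε • z) with hg
  set g' : E → E →L[ℝ] X := fun z => -(ε • fderiv ℝ φ (y - ε • z)) with hg'
  have hin : ∀ z, HasFDerivAt (fun z : E => y - ε • z) (-(ε • ContinuousLinearMap.id ℝ E)) z := by
    intro z
    exact ((hasFDerivAt_id z).const_smul ε).const_sub y
  have df : ∀ z, HasFDerivAt f (f' z) z := by
    intro z
    have p1 : HasFDerivAt P (fderiv ℝ P (y - ε • z)) (y - ε • z) :=
      (hP.differentiable (by simp) _).hasFDerivAt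
    have p2 := (p1.comp z (hin z)).const_sub (P y)
    have p3 : HasFDerivAt η (fderiv ℝ η z) z := (hη.smooth.differentiable (by simp) _).hasFDerivAt
    have p4 := p3.smul p2
    have e : -((fderiv ℝ P (y - ε • z)).comp (-(ε • ContinuousLinearMap.id ℝ E))) =
        ε • fderiv ℝ P (y - ε • z) := by
      ext w x
      simp
    rw [e] at p4
    exact p4
  have dg : ∀ z, HasFDerivAt g (g' z) z := by
    intro z
    have p1 : HasFDerivAt φ (fderiv ℝ φ (y - ε • z)) (y - ε • z) :=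
      (h.smooth.differentiable (by simp) _).hasFDerivAt
    have p2 := p1.comp z (hin z)
    have e : (fderiv ℝ φ (y - ε • z)).comp (-(ε • ContinuousLinearMap.id ℝ E)) = g' z := by
      ext w
      simp [hg']
    rw [e] at p2
    exact p2
  have hPc := hP.continuous
  have hφc := h.smooth.continuous
  have cf : Continuous f := by
    rw [hf]; fun_prop
  have cf' : Continuous f' := by
    rw [hf']
    apply Continuous.add
    · fun_prop
    · have : Continuous fun z => ContinuousLinearMap.smulRightL ℝ E (X →L[ℝ] Y)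
          (fderiv ℝ η z) (P y - P (y - ε • z)) := by fun_prop
      exact this
  have cg : Continuous g := by
    rw [hg]; fun_prop
  have cg' : Continuous g' := by
    rw [hg']; fun_prop
  have hz0 : ∀ z, 1 ≤ ‖z‖ → fderiv ℝ η z = 0 := by
    intro z hz
    apply IsLocalMin.fderiv_eq_zero
    refine Filter.Eventually.of_forall fun w => ?_
    rw [hη.supp z hz]
    exact hη.nonneg w
  have f0 : ∀ z, 1 ≤ ‖z‖ → f z = 0 := by
    intro z hz
    simp [hf, hη.supp z hz]
  have f'0 : ∀ z, 1 ≤ ‖z‖ → f' z = 0 := by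
    intro z hz
    simp only [hf', hη.supp z hz, hz0 z hz, zero_smul, zero_add]
    ext w x
    simp
  have hcs : ∀ F : E → Y, (∀ z, 1 ≤ ‖z‖ → F z = 0) → HasCompactSupport F := by
    intro F hF
    apply HasCompactSupport.intro (isCompact_closedBall (0 : E) 1)
    intro z hz
    apply hF
    simp only [Metric.mem_closedBall, dist_zero_right, not_le] at hz
    exact hz.le
  have i1 : Integrable (fun z => (ContinuousLinearMap.id ℝ (X →L[ℝ] Y)) (f' z v) (g z)) μ := by
    apply Continuous.integrable_of_hasCompactSupport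
    · simp only [ContinuousLinearMap.id_apply]
      fun_prop
    · apply hcs
      intro z hz
      simp [f'0 z hz]
  have i2 : Integrable (fun z => (ContinuousLinearMap.id ℝ (X →L[ℝ] Y)) (f z) (g' z v)) μ := by
    apply Continuous.integrable_of_hasCompactSupport
    · simp only [ContinuousLinearMap.id_apply]
      fun_prop
    · apply hcs
      intro z hz
      simp [f0 z hz]
  have i3 : Integrable (fun z => (ContinuousLinearMap.id ℝ (X →L[ℝ] Y)) (f z) (g z)) μ := by
    apply Continuous.integrable_of_hasCompactSupport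
    · simp only [ContinuousLinearMap.id_apply]
      fun_prop
    · apply hcs
      intro z hz
      simp [f0 z hz]
  have key := integral_bilinear_hasFDerivAt_right_eq_neg_left_of_integrable
    (B := ContinuousLinearMap.id ℝ (X →L[ℝ] Y)) (v := v) i1 i2 i3 (fun z _ => df z) (fun z _ => dg z)
  simp only [ContinuousLinearMap.id_apply] at key
  have e1 : ∫ z, f z (g' z v) ∂μ = -(ε • ∫ z, f z (fderiv ℝ φ (y - ε • z) v) ∂μ) := by
    rw [← integral_smul, ← integral_neg]
    congr 1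
    funext z
    simp [hg']
  rw [e1, neg_inj] at key
  have e2 : ∫ z, f z (fderiv ℝ φ (y - ε • z) v) ∂μ = ε⁻¹ • ∫ z, (f' z v) (g z) ∂μ := by
    rw [← key, smul_smul, inv_mul_cancel₀ h0.ne', one_smul]
  rw [e2, norm_smul, norm_inv, Real.norm_eq_abs, abs_of_pos h0]
  have hb : ‖∫ z, (f' z v) (g z) ∂μ‖ ≤
      ∫ z, ε * ((M1 + M0) * L' * ‖v‖) * (k z * ‖φ (y - ε • z)‖) ∂μ := by
    apply norm_integral_le_of_norm_le
    · apply Integrable.const_mul
      exact mol_integrable μ hk hkc ε hφc.norm y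
    · refine Filter.Eventually.of_forall fun z => ?_
      by_cases hz : 1 ≤ ‖z‖
      · rw [f'0 z hz]
        simp only [ContinuousLinearMap.zero_apply, norm_zero]
        have := hk0 z
        positivity
      · push Not at hz
        have hnb : ‖y‖ ≤ R := by simpa using hR hy
        have hez : ‖ε • z‖ ≤ ε * ‖z‖ := by
          rw [norm_smul, Real.norm_eq_abs, abs_of_pos h0]
        have hez1 : ‖ε • z‖ ≤ 1 := by nlinarith [norm_nonneg z]
        have m1 : y ∈ Metric.closedBall (0 : E) (R + 1) := by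
          simp only [Metric.mem_closedBall, dist_zero_right]; linarith
        have m2 : y - ε • z ∈ Metric.closedBall (0 : E) (R + 1) := by
          simp only [Metric.mem_closedBall, dist_zero_right]
          have := norm_sub_le y (ε • z)
          linarith
        have b1 : ‖P y - P (y - ε • z)‖ ≤ L' * ε := by
          have := (convex_closedBall (0 : E) (R + 1)).norm_image_sub_le_of_norm_fderiv_le
            (𝕜 := ℝ) (f := P) (C := L') (fun x _ => hP.differentiable (by simp) x)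
            (fun x hx => (hL x hx).trans (le_max_left _ _)) m2 m1
          refine this.trans ?_
          apply mul_le_mul_of_nonneg_left _ hL0
          have e3 : y - (y - ε • z) = ε • z := by abel
          rw [e3]
          nlinarith [norm_nonneg z]
        have b2 : ‖fderiv ℝ P (y - ε • z)‖ ≤ L' := (hL _ m2).trans (le_max_left _ _)
        have b3 : ‖f' z v‖ ≤ ε * ((M1 + M0) * L' * ‖v‖) := by
          simp only [hf', ContinuousLinearMap.add_apply, ContinuousLinearMap.smul_apply,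
            ContinuousLinearMap.smulRight_apply]
          have c1 : ‖η z • ε • (fderiv ℝ P (y - ε • z)) v‖ ≤ M0 * (ε * (L' * ‖v‖)) := by
            rw [norm_smul, norm_smul, Real.norm_eq_abs ε, abs_of_pos h0]
            apply mul_le_mul (hM0 z) _ (by positivity) hM00
            apply mul_le_mul_of_nonneg_left _ h0.le
            exact ((fderiv ℝ P (y - ε • z)).le_opNorm v).trans
              (mul_le_mul_of_nonneg_right b2 (norm_nonneg _))
          have c2 : ‖(fderiv ℝ η z) v • (P y - P (y - ε • z))‖ ≤ (M1 * ‖v‖) * (L' * ε) := by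
            rw [norm_smul]
            apply mul_le_mul _ b1 (norm_nonneg _) (by positivity)
            exact ((fderiv ℝ η z).le_opNorm v).trans
              (mul_le_mul_of_nonneg_right (hM1 z) (norm_nonneg _))
          refine (norm_add_le _ _).trans ?_
          calc _ ≤ M0 * (ε * (L' * ‖v‖)) + (M1 * ‖v‖) * (L' * ε) := add_le_add c1 c2
            _ = ε * ((M1 + M0) * L' * ‖v‖) := by ring
        have b4 : ‖(f' z v) (g z)‖ ≤ ε * ((M1 + M0) * L' * ‖v‖) * ‖φ (y - ε • z)‖ :=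
          ((f' z v).le_opNorm _).trans (mul_le_mul_of_nonneg_right b3 (norm_nonneg _))
        refine b4.trans ?_
        apply mul_le_mul_of_nonneg_left _ (by positivity)
        have := hk1 z hz.le
        nlinarith [norm_nonneg (φ (y - ε • z))]
  rw [integral_const_mul] at hb
  generalize ‖∫ z, (f' z v) (g z) ∂μ‖ = J at hb ⊢
  have e5 : mol μ k ε (fun x => ‖φ x‖) y = ∫ z, k z * ‖φ (y - ε • z)‖ ∂μ := rfl
  rw [e5]
  generalize (∫ z, k z * ‖φ (y - ε • z)‖ ∂μ) = I at hb ⊢
  rw [inv_mul_le_iff₀ h0]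
  calc J ≤ _ := hb
    _ = _ := by ring

/-- the lemma of Friedrichs -/
theorem friedrichs {η : E → ℝ} (hη : Kernel μ η) (C : Set E) (hC : IsCompact C)
    {φ : ℕ → E → X} (hφ : CSeq μ C φ) (A : E → (E →L[ℝ] X) →L[ℝ] Y) (hA : ContDiff ℝ ∞ A)
    (δ : ℝ) (hδ : 0 < δ) : ∃ ε₀ : ℝ, 0 < ε₀ ∧ ∀ ε, 0 < ε → ε < ε₀ → ∀ n,
      ∫ y, ‖A y (fderiv ℝ (mol μ η ε (φ n)) y)
        - mol μ η ε (fun x => A x (fderiv ℝ (φ n) x)) y‖ ^ 2 ∂μ < δ := by
  set k : E → ℝ := fun z => max 0 (2 - ‖z‖) with hk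
  have hkc : Continuous k := by rw [hk]; fun_prop
  have hk0 : ∀ z, 0 ≤ k z := fun z => le_max_left _ _
  have hk1 : ∀ z, ‖z‖ ≤ 1 → 1 ≤ k z := by
    intro z hz
    refine le_trans ?_ (le_max_right _ _)
    linarith
  have hkcs : HasCompactSupport k := by
    apply HasCompactSupport.intro (isCompact_closedBall (0 : E) 2)
    intro z hz
    simp only [Metric.mem_closedBall, dist_zero_right, not_le] at hz
    simp only [hk]
    apply max_eq_left
    linarith
  have hηc := hη.smooth.continuous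
  -- coordinates
  let b := Module.finBasis ℝ E
  let ci : Fin (Module.finrank ℝ E) → E →L[ℝ] ℝ := fun i =>
    LinearMap.toContinuousLinearMap (b.coord i)
  let P : Fin (Module.finrank ℝ E) → E → X →L[ℝ] Y := fun i y =>
    (A y).comp (ContinuousLinearMap.smulRightL ℝ E X (ci i))
  have hPs : ∀ i, ContDiff ℝ ∞ (P i) := by
    intro i
    exact hA.clm_comp contDiff_const
  have decomp : ∀ (x : E) (l : E →L[ℝ] X), A x l = ∑ i, P i x (l (b i)) := by
    intro x l
    have e : l = ∑ i, ContinuousLinearMap.smulRightL ℝ E X (ci i) (l (b i)) := by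
      ext w
      simp only [sum_apply, ContinuousLinearMap.smulRightL_apply_apply,
        ContinuousLinearMap.smulRight_apply]
      have e1 : w = ∑ i, b.repr w i • b i := (b.sum_repr w).symm
      conv_lhs => rw [e1]
      rw [map_sum]
      apply Finset.sum_congr rfl
      intro i _
      rw [map_smul]
      rfl
    conv_lhs => rw [e]
    rw [map_sum]
    rfl
  have hb := fun i => fr_ibp_dir μ hη hkc hkcs hk0 hk1 (hPs i) (b i) hC
  choose c hc0 hc using hb
  have hT : FrOp μ k C (fun ε (φ : E → X) y => A y (fderiv ℝ (mol μ η ε φ) y)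
      - mol μ η ε (fun x => A x (fderiv ℝ φ x)) y) := by
    have hfm : ∀ ε (φ : E → X), FrSC C φ → fderiv ℝ (mol μ η ε φ) = mol μ η ε (fderiv ℝ φ) :=
      fun ε φ h => funext fun y => fderiv_mol μ hη ε h.smooth (h.hcs hC) y
    have hsupp : ∀ ε, 0 < ε → ε ≤ 1 → ∀ φ : E → X, FrSC C φ → ∀ y,
        y ∉ Metric.cthickening 1 C → A y (fderiv ℝ (mol μ η ε φ) y)
          - mol μ η ε (fun x => A x (fderiv ℝ φ x)) y = 0 := by
      intro ε h0 h1 φ h y hy
      rw [hfm ε φ h, mol_supp μ hη h0.le h1 (h.fderiv hC).supp y hy,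
        mol_supp μ hη h0.le h1 ((h.fderiv hC).clm hA).supp y hy]
      simp
    refine ⟨?_, hsupp, ?_, ⟨∑ i, c i, 0, Finset.sum_nonneg fun i _ => hc0 i, le_rfl, ?_⟩, ?_⟩
    · intro ε _ _ φ h
      rw [hfm ε φ h]
      exact (hA.continuous.clm_apply (mol_continuous μ hηc (hη.hcs μ) ε
        (h.fderiv hC).smooth.continuous ((h.fderiv hC).hcs hC))).sub
        (mol_continuous μ hηc (hη.hcs μ) ε ((h.fderiv hC).clm hA).smooth.continuous
          (((h.fderiv hC).clm hA).hcs hC))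
    · intro ε _ _ φ ψ h h' y
      have e0 : fderiv ℝ (fun y => φ y - ψ y) = fun y => fderiv ℝ φ y - fderiv ℝ ψ y := by
        funext x
        exact fderiv_fun_sub (h.smooth.differentiable (by simp) x)
          (h'.smooth.differentiable (by simp) x)
      rw [hfm ε _ (h.sub h'), hfm ε _ h, hfm ε _ h', e0]
      have e : (fun x => A x (fderiv ℝ φ x - fderiv ℝ ψ x)) =
          fun x => A x (fderiv ℝ φ x) - A x (fderiv ℝ ψ x) := by
        funext x; rw [map_sub]
      rw [e, mol_sub_fun μ hη ε (h.fderiv hC).smooth.continuous (h'.fderiv hC).smooth.continuous,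
        mol_sub_fun μ hη ε ((h.fderiv hC).clm hA).smooth.continuous
          ((h'.fderiv hC).clm hA).smooth.continuous, map_sub]
      abel
    · intro ε h0 h1 φ h y
      simp only [zero_mul, add_zero]
      have hdφ := (h.fderiv hC).smooth.continuous
      have hnn : 0 ≤ mol μ k ε (fun x => ‖φ x‖) y := by
        unfold mol
        exact integral_nonneg fun z => mul_nonneg (hk0 z) (norm_nonneg _)
      by_cases hy : y ∈ Metric.cthickening 1 C
      · have hcsη : ∀ F : E → Y, (∀ z, 1 ≤ ‖z‖ → F z = 0) → HasCompactSupport F := by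
          intro F hF
          apply HasCompactSupport.intro (isCompact_closedBall (0 : E) 1)
          intro z hz
          apply hF
          simp only [Metric.mem_closedBall, dist_zero_right, not_le] at hz
          exact hz.le
        have e1 : A y (fderiv ℝ (mol μ η ε φ) y) - mol μ η ε (fun x => A x (fderiv ℝ φ x)) y =
            ∑ i, ∫ z, (η z • (P i y - P i (y - ε • z))) (fderiv ℝ φ (y - ε • z) (b i)) ∂μ := by
          rw [← integral_finsetSum]
          · rw [hfm ε φ h]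
            unfold mol
            rw [← ContinuousLinearMap.integral_comp_comm _
              (mol_integrable μ hηc (hη.hcs μ) ε hdφ y), ← integral_sub]
            · congr 1
              funext z
              beta_reduce
              rw [map_smul, decomp y, decomp (y - ε • z), ← smul_sub, ← Finset.sum_sub_distrib,
                Finset.smul_sum]
              apply Finset.sum_congr rfl
              intro i _
              simp
            · exact ContinuousLinearMap.integrable_comp _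
                (mol_integrable μ hηc (hη.hcs μ) ε hdφ y)
            · exact mol_integrable μ hηc (hη.hcs μ) ε ((h.fderiv hC).clm hA).smooth.continuous y
          · intro i _
            have hPc := (hPs i).continuous
            apply Continuous.integrable_of_hasCompactSupport
            · fun_prop
            · apply hcsη
              intro z hz
              simp [hη.supp z hz]
        rw [e1, Finset.sum_mul]
        exact norm_sum_le_of_le _ fun i _ => hc i ε h0 h1 φ h y hy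
      · rw [hsupp ε h0 h1 φ h y hy, norm_zero]
        exact mul_nonneg (Finset.sum_nonneg fun i _ => hc0 i) hnn
    · intro φ h δ hδ
      obtain ⟨ε₀, h0, h1⟩ := fr_zo_pt μ hη hC (h.fderiv hC) hA δ hδ
      refine ⟨ε₀, h0, fun ε h2 h3 h4 y => ?_⟩
      rw [hfm ε φ h]
      exact h1 ε h2 h3 h4 y
  exact hT.uniform μ hkc hkcs hk0 hC hφ δ hδ

end Pool.Agent.H86.Nco
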