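import Pool.Agent.H86.Anco.Space

/-!
# The Lebesgue measures on the products `E K` and `V K` are additive Haar measures
-/

noncomputable section

namespace Pool.Agent.H86.Nco

open MeasureTheory Pool.Agent.H86.Anco

theorem haar_prod {A B : Type*} [NormedAddCommGroup A] [NormedAddCommGroup B] [MeasureSpace A]
    [MeasureSpace B] [BorelSpace A] [BorelSpace B] [SecondCountableTopology A]
    [SecondCountableTopology B] [(volume : Measure A).IsAddHaarMeasure]
    [(volume : Measure B).IsAddHaarMeasure] [SFinite (volume : Measure A)]
    [SFinite (volume : Measure B)] : (volume : Measure (A × B)).IsAddHaarMeasure := by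
  rw [Measure.volume_eq_prod]
  infer_instance

instance haar_E (K : ℕ) : (volume : Measure (E K)).IsAddHaarMeasure := by
  have h1 : (volume : Measure (ℂ × F K)).IsAddHaarMeasure := haar_prod
  exact haar_prod

instance haar_V (K : ℕ) : (volume : Measure (V K)).IsAddHaarMeasure := by
  have h1 : (volume : Measure (F K × ℝ)).IsAddHaarMeasure := haar_prod
  have h2 : (volume : Measure (ℂ × F K × ℝ)).IsAddHaarMeasure := haar_prod
  have h3 : (volume : Measure (ℂ × ℂ × F K × ℝ)).IsAddHaarMeasure := haar_prod
  have h4 : (volume : Measure (ℝ × ℂ × ℂ × F K × ℝ)).IsAddHaarMeasure := haar_prod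
  exact haar_prod

end Pool.Agent.H86.Nco
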