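import Pool.Agent.H86.Nco.HMollChartD

/-!
# Module HMOLLCHART, part E: the codifferential of the mollified form
-/

open scoped Manifold ContDiff Bundle Topology

noncomputable section

namespace Pool.Agent.H86.Nco

open Pool.Agent.H86.Anco MeasureTheory

set_option maxSynthPendingDepth 3

variable {K : ℕ}

namespace MC

/-- the estimate of the codifferential of the mollified form -/
theorem third_est (G : Met K) {a : ℕ → Form2 K} (i : Ix) (χ : V K → ℝ)
    {C : Set (E K)} (hC : IsCompact C)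
    {η : E K → ℝ} (hη : Kernel volume η) {f : E K → ℝ}
    (hfχ : ∀ y, χ (Par i y) = f y) (hfs : ContDiff ℝ ∞ f) (hf0 : ∀ y, y ∉ C → f y = 0)
    {φ : ℕ → E K → Bil K} (hφ1 : ∀ n, (fun x => f x • (a n).val i x) = φ n)
    (hφs : ∀ n, ContDiff ℝ ∞ (φ n)) (hφ0 : ∀ n y, y ∉ C → φ n y = 0)
    (hφc : ∀ n, HasCompactSupport (φ n)) {D : E K → Bil K →L[ℝ] Tri K}
    (hφ' : ∀ n y, fderiv ℝ (φ n) y = f y • fderiv ℝ ((a n).val i) y + D y ((a n).val i y))
    (hdφs : ∀ n, ContDiff ℝ ∞ (fderiv ℝ (φ n)))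
    (hdφ0 : ∀ n y, y ∉ C → fderiv ℝ (φ n) y = 0)
    (c3 : CSeq volume C (fun n y => ((Aop G i y).comp (D y)) ((a n).val i y)))
    {k1 : ℝ} (hk1 : 0 < k1)
    (K1 : ∀ θ : E K →L[ℝ] ℝ, nb1 (fun w => θ w) ≤ k1 * ‖θ‖ ^ 2)
    (hC' : IsCompact (Metric.cthickening 1 C)) {ε : ℝ} (hε : 0 < ε)
    {τ : ℝ} (hτ0 : 0 < τ) (hτ1 : τ ≤ 1) (n : ℕ)
    (g3 : ∫ y, ‖Aop G i y (fderiv ℝ (mol volume η τ (φ n)) y) -
      mol volume η τ (fun x => Aop G i x (fderiv ℝ (φ n) x)) y‖ ^ 2 < ε / (16 * k1))
    (g4 : ∫ y, ‖Bop G i y (mol volume η τ (φ n) y) -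
      mol volume η τ (fun x => Bop G i x (φ n x)) y‖ ^ 2 < ε / (16 * k1))
    (G5 : ∫ y, ‖mol volume η τ (fun x => ((Aop G i x).comp (D x)) ((a n).val i x)) y -
      ((Aop G i y).comp (D y)) ((a n).val i y)‖ ^ 2 < ε / (16 * k1))
    (g6 : ∫ y, ∑ k, (mol volume η τ (fun x => χ (Par i x) *
      codiff G (a n).val i x (bs K k)) y) ^ 2 < ε / 16) :
    ∫ y, nb1 (fun w => codiff G (fun _ => mol volume η τ (φ n)) i y w
        - codiff G (fun _ => fun x => f x • (a n).val i x) i y w
        + f y * codiff G (a n).val i y w) < ε := by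
  have hψs : ContDiff ℝ ∞ (mol volume η τ (φ n)) := contDiff_mol volume hη τ (hφs n) (hφc n)
  have hdψ : ∀ y, fderiv ℝ (mol volume η τ (φ n)) y = mol volume η τ (fderiv ℝ (φ n)) y :=
    fderiv_mol volume hη τ (hφs n) (hφc n)
  -- the pieces
  obtain ⟨p1, hp1⟩ : ∃ p : E K → E K →L[ℝ] ℝ,
    p = fun x => Aop G i x (fderiv ℝ (φ n) x) := ⟨_, rfl⟩
  obtain ⟨p2, hp2⟩ : ∃ p : E K → E K →L[ℝ] ℝ, p = fun x => Bop G i x (φ n x) := ⟨_, rfl⟩
  obtain ⟨p3, hp3⟩ : ∃ p : E K → E K →L[ℝ] ℝ,
    p = fun x => f x • th G i ((a n).val i) x := ⟨_, rfl⟩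
  obtain ⟨p4, hp4⟩ : ∃ p : E K → E K →L[ℝ] ℝ,
    p = fun x => ((Aop G i x).comp (D x)) ((a n).val i x) := ⟨_, rfl⟩
  have s1 : ContDiff ℝ ∞ p1 := by rw [hp1]; exact (contDiff_Aop G i).clm_apply (hdφs n)
  have s2 : ContDiff ℝ ∞ p2 := by rw [hp2]; exact (contDiff_Bop G i).clm_apply (hφs n)
  have sth : ContDiff ℝ ∞ (th G i ((a n).val i)) :=
    ((contDiff_Aop G i).clm_apply (((a n).smooth i).fderiv_right (by simp))).add
      ((contDiff_Bop G i).clm_apply ((a n).smooth i))
  have s3 : ContDiff ℝ ∞ p3 := by rw [hp3]; exact hfs.smul sth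
  have s4 : ContDiff ℝ ∞ p4 := by rw [hp4]; exact c3.smooth n
  have z1 : ∀ y, y ∉ C → p1 y = 0 := by
    intro y hy
    rw [hp1]; simp only; rw [hdφ0 n y hy, map_zero]
  have z2 : ∀ y, y ∉ C → p2 y = 0 := by
    intro y hy
    rw [hp2]; simp only; rw [hφ0 n y hy, map_zero]
  have z3 : ∀ y, y ∉ C → p3 y = 0 := by
    intro y hy
    rw [hp3]; simp only; rw [hf0 y hy, zero_smul]
  have z4 : ∀ y, y ∉ C → p4 y = 0 := by rw [hp4]; exact c3.supp n
  have hsum : ∀ x, p1 x + p2 x = p3 x + p4 x := by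
    intro x
    rw [hp1, hp2, hp3, hp4]
    simp only
    rw [hφ' n x, map_add, map_smul, ← hφ1 n]
    simp only [map_smul, th, smul_add]
    change _ = _ + Aop G i x (D x ((a n).val i x))
    abel
  have hmolsum : ∀ y, mol volume η τ p1 y + mol volume η τ p2 y =
      mol volume η τ p3 y + mol volume η τ p4 y := by
    intro y
    rw [← mol_add volume hη τ s1.continuous s2.continuous,
      ← mol_add volume hη τ s3.continuous s4.continuous]
    congr 1
    funext x
    exact hsum x
  have hthφ : ∀ y, th G i (φ n) y = p3 y + p4 y := by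
    intro y
    rw [← hsum y, hp1, hp2]; rfl
  -- decomposition
  have hdec : ∀ y w, codiff G (fun _ => mol volume η τ (φ n)) i y w
      - codiff G (fun _ => fun x => f x • (a n).val i x) i y w
      + f y * codiff G (a n).val i y w =
      (Aop G i y (fderiv ℝ (mol volume η τ (φ n)) y) - mol volume η τ p1 y) w +
      (Bop G i y (mol volume η τ (φ n) y) - mol volume η τ p2 y) w +
      (mol volume η τ p3 y) w + (mol volume η τ p4 y - p4 y) w := by
    intro y w
    rw [hφ1 n, codiff_eq G (fun _ => mol volume η τ (φ n)) i hψs,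
      codiff_eq G (fun _ => φ n) i (hφs n), codiff_eq G (a n).val i ((a n).smooth i)]
    rw [hthφ y]
    have e3 : (p3 y) w = f y * th G i ((a n).val i) y w := by
      rw [hp3]; simp only [smul_apply, smul_eq_mul]
    have e4 := congrArg (fun θ : E K →L[ℝ] ℝ => θ w) (hmolsum y)
    simp only [add_apply] at e4
    simp only [sub_apply, add_apply, th]
    simp only [th] at e3
    simp only [add_apply] at e3
    linarith
  have hmol3 : ∀ y j, (mol volume η τ p3 y) (bs K j) =
      mol volume η τ (fun x => χ (Par i x) * codiff G (a n).val i x (bs K j)) y := by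
    intro y j
    have e := mol_clm volume hη τ s3.continuous (ContinuousLinearMap.apply ℝ ℝ (bs K j)) y
    rw [ContinuousLinearMap.apply_apply] at e
    rw [← e]
    congr 1
    funext x
    rw [ContinuousLinearMap.apply_apply, hp3]
    simp only [smul_apply, smul_eq_mul]
    rw [hfχ, codiff_eq G (a n).val i ((a n).smooth i)]
  have e1 : ∀ y, nb1 (fun w => codiff G (fun _ => mol volume η τ (φ n)) i y w
      - codiff G (fun _ => fun x => f x • (a n).val i x) i y w
      + f y * codiff G (a n).val i y w) ≤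
      4 * k1 * ‖Aop G i y (fderiv ℝ (mol volume η τ (φ n)) y) - mol volume η τ p1 y‖ ^ 2 +
      4 * k1 * ‖Bop G i y (mol volume η τ (φ n) y) - mol volume η τ p2 y‖ ^ 2 +
      4 * ∑ k, (mol volume η τ (fun x => χ (Par i x) * codiff G (a n).val i x (bs K k)) y) ^ 2 +
      4 * k1 * ‖mol volume η τ p4 y - p4 y‖ ^ 2 := by
    intro y
    have f1 := K1 (Aop G i y (fderiv ℝ (mol volume η τ (φ n)) y) - mol volume η τ p1 y)
    have f2 := K1 (Bop G i y (mol volume η τ (φ n) y) - mol volume η τ p2 y)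
    have f4 := K1 (mol volume η τ p4 y - p4 y)
    unfold nb1 at f1 f2 f4 ⊢
    have f5 : ∀ j ∈ (Finset.univ : Finset (Fin (K + 4))),
        (codiff G (fun _ => mol volume η τ (φ n)) i y (bs K j)
          - codiff G (fun _ => fun x => f x • (a n).val i x) i y (bs K j)
          + f y * codiff G (a n).val i y (bs K j)) ^ 2 ≤
        4 * (((Aop G i y (fderiv ℝ (mol volume η τ (φ n)) y) - mol volume η τ p1 y) (bs K j)) ^ 2 +
          ((Bop G i y (mol volume η τ (φ n) y) - mol volume η τ p2 y) (bs K j)) ^ 2 +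
          (mol volume η τ (fun x => χ (Par i x) * codiff G (a n).val i x (bs K j)) y) ^ 2 +
          ((mol volume η τ p4 y - p4 y) (bs K j)) ^ 2) := by
      intro j _
      rw [hdec y (bs K j), hmol3 y j]
      exact four_sq _ _ _ _
    refine (Finset.sum_le_sum f5).trans ?_
    rw [← Finset.mul_sum]
    simp only [Finset.sum_add_distrib]
    linarith
  have i1 : Integrable (fun y =>
      ‖Aop G i y (fderiv ℝ (mol volume η τ (φ n)) y) - mol volume η τ p1 y‖ ^ 2) := by
    apply intg_sq _ hC'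
    · intro y hy
      rw [mol_supp volume hη hτ0.le hτ1 z1 y hy, hdψ y,
        mol_supp volume hη hτ0.le hτ1 (hdφ0 n) y hy, map_zero, sub_zero]
    · exact ((contDiff_Aop G i).continuous.clm_apply
        (hψs.fderiv_right (m := ∞) (by simp)).continuous).sub
        (contDiff_mol volume hη τ s1 (HasCompactSupport.intro hC z1)).continuous
  have i2 : Integrable (fun y =>
      ‖Bop G i y (mol volume η τ (φ n) y) - mol volume η τ p2 y‖ ^ 2) := by
    apply intg_sq _ hC'
    · intro y hy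
      rw [mol_supp volume hη hτ0.le hτ1 z2 y hy,
        mol_supp volume hη hτ0.le hτ1 (hφ0 n) y hy, map_zero, sub_zero]
    · exact ((contDiff_Bop G i).continuous.clm_apply hψs.continuous).sub
        (contDiff_mol volume hη τ s2 (HasCompactSupport.intro hC z2)).continuous
  have i4 : Integrable (fun y => ‖mol volume η τ p4 y - p4 y‖ ^ 2) := by
    apply intg_sq _ hC'
    · intro y hy
      rw [mol_supp volume hη hτ0.le hτ1 z4 y hy,
        z4 y (fun hy' => hy (Metric.self_subset_cthickening C hy')), sub_zero]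
    · exact (contDiff_mol volume hη τ s4 (HasCompactSupport.intro hC z4)).continuous.sub
        s4.continuous
  have i3 : Integrable (fun y => ∑ k,
      (mol volume η τ (fun x => χ (Par i x) * codiff G (a n).val i x (bs K k)) y) ^ 2) := by
    simp only [← hmol3]
    have cont3 := (contDiff_mol volume hη τ s3 (HasCompactSupport.intro hC z3)).continuous
    apply Continuous.integrable_of_hasCompactSupport
    · apply continuous_finsetSum
      intro k _
      exact (cont3.clm_apply continuous_const).pow 2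
    · apply HasCompactSupport.intro hC'
      intro y hy
      rw [mol_supp volume hη hτ0.le hτ1 z3 y hy]
      simp
  refine lt_of_le_of_lt (integral_mono_of_nonneg ?_
    ((((i1.const_mul (4 * k1)).add (i2.const_mul (4 * k1))).add (i3.const_mul 4)).add
      (i4.const_mul (4 * k1))) (Filter.Eventually.of_forall e1)) ?_
  · apply Filter.Eventually.of_forall
    intro y
    exact Finset.sum_nonneg fun _ _ => sq_nonneg _
  have g5 : ∫ y, ‖mol volume η τ p4 y - p4 y‖ ^ 2 < ε / (16 * k1) := by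
    rw [hp4]; exact G5
  rw [← hp1] at g3
  rw [← hp2] at g4
  have I : ∫ y, (4 * k1 * ‖Aop G i y (fderiv ℝ (mol volume η τ (φ n)) y) -
        mol volume η τ p1 y‖ ^ 2 +
      4 * k1 * ‖Bop G i y (mol volume η τ (φ n) y) - mol volume η τ p2 y‖ ^ 2 +
      4 * ∑ k, (mol volume η τ (fun x => χ (Par i x) * codiff G (a n).val i x (bs K k)) y) ^ 2 +
      4 * k1 * ‖mol volume η τ p4 y - p4 y‖ ^ 2) =
      4 * k1 * (∫ y, ‖Aop G i y (fderiv ℝ (mol volume η τ (φ n)) y) -
        mol volume η τ p1 y‖ ^ 2) +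
      4 * k1 * (∫ y, ‖Bop G i y (mol volume η τ (φ n) y) - mol volume η τ p2 y‖ ^ 2) +
      4 * (∫ y, ∑ k, (mol volume η τ (fun x => χ (Par i x) *
        codiff G (a n).val i x (bs K k)) y) ^ 2) +
      4 * k1 * (∫ y, ‖mol volume η τ p4 y - p4 y‖ ^ 2) := by
    have j12 : Integrable (fun y => 4 * k1 * ‖Aop G i y (fderiv ℝ (mol volume η τ (φ n)) y) -
        mol volume η τ p1 y‖ ^ 2 +
        4 * k1 * ‖Bop G i y (mol volume η τ (φ n) y) - mol volume η τ p2 y‖ ^ 2) :=
      (i1.const_mul (4 * k1)).add (i2.const_mul (4 * k1))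
    have j123 : Integrable (fun y => 4 * k1 * ‖Aop G i y (fderiv ℝ (mol volume η τ (φ n)) y) -
        mol volume η τ p1 y‖ ^ 2 +
        4 * k1 * ‖Bop G i y (mol volume η τ (φ n) y) - mol volume η τ p2 y‖ ^ 2 +
        4 * ∑ k, (mol volume η τ (fun x => χ (Par i x) *
          codiff G (a n).val i x (bs K k)) y) ^ 2) := j12.add (i3.const_mul 4)
    rw [integral_add j123 (i4.const_mul (4 * k1)), integral_add j12 (i3.const_mul 4),
      integral_add (i1.const_mul (4 * k1)) (i2.const_mul (4 * k1)),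
      integral_const_mul, integral_const_mul, integral_const_mul, integral_const_mul]
  refine lt_of_le_of_lt (le_of_eq I) ?_
  have hk : 0 < 16 * k1 := by positivity
  rw [lt_div_iff₀ hk] at g3 g4
  have g5' := g5
  rw [lt_div_iff₀ hk] at g5'
  linarith

end MC

end Pool.Agent.H86.Nco
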