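import Pool.Agent.H86.Nco.HMollChartD

/-!
# Module HMOLLCHART, part F: the mollified form and its differential
-/

open scoped Manifold ContDiff Bundle Topology

noncomputable section

namespace Pool.Agent.H86.Nco

open Pool.Agent.H86.Anco MeasureTheory

set_option maxSynthPendingDepth 3

variable {K : ℕ}

namespace MC

theorem alt_est (G : Met K) {a : ℕ → Form2 K} (i : Ix)
    {η : E K → ℝ} (hη : Kernel volume η) {f : E K → ℝ}
    {φ : ℕ → E K → Bil K} (hφ1 : ∀ n, (fun x => f x • (a n).val i x) = φ n)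
    (hφs : ∀ n, ContDiff ℝ ∞ (φ n)) (τ : ℝ) (n : ℕ) (y u v : E K) :
    mol volume η τ (φ n) y u v = - mol volume η τ (φ n) y v u := by
  have e1 : ∀ u v : E K, mol volume η τ (φ n) y u v =
      mol volume η τ (fun x => φ n x u v) y := by
    intro u v
    exact (mol_clm volume hη τ (hφs n).continuous ((ContinuousLinearMap.apply ℝ ℝ v).comp
      (ContinuousLinearMap.apply ℝ (E K →L[ℝ] ℝ) u)) y).symm
  rw [e1, e1]
  unfold mol
  rw [← integral_neg]
  congr 1
  funext z
  have e2 : φ n (y - τ • z) u v = - φ n (y - τ • z) v u := by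
    rw [← hφ1 n]
    simp only [smul_apply, smul_eq_mul]
    rw [(a n).alt i _ u v]; ring
  change η z • (φ n (y - τ • z) u v) = -(η z • (φ n (y - τ • z) v u))
  rw [e2, smul_neg]

theorem first_est (G : Met K) {a : ℕ → Form2 K} (i : Ix) {C : Set (E K)} (hC : IsCompact C)
    {η : E K → ℝ} (hη : Kernel volume η) {f : E K → ℝ}
    {φ : ℕ → E K → Bil K} (hφ1 : ∀ n, (fun x => f x • (a n).val i x) = φ n)
    (hφs : ∀ n, ContDiff ℝ ∞ (φ n)) (hφ0 : ∀ n y, y ∉ C → φ n y = 0)
    (hφc : ∀ n, HasCompactSupport (φ n)) {k2 : ℝ} (hk2 : 0 < k2)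
    (K2 : ∀ b : Bil K, nb2 (fun u v => b u v) ≤ k2 * ‖b‖ ^ 2)
    (hC' : IsCompact (Metric.cthickening 1 C)) {ε : ℝ}
    {τ : ℝ} (hτ0 : 0 < τ) (hτ1 : τ ≤ 1) (n : ℕ)
    (G1 : ∫ y, ‖mol volume η τ (φ n) y - φ n y‖ ^ 2 < ε / k2) :
    ∫ y, nb2 (fun u v => mol volume η τ (φ n) y u v - f y * (a n).val i y u v) < ε := by
  have e1 : ∀ y, nb2 (fun u v => mol volume η τ (φ n) y u v - f y * (a n).val i y u v) ≤
      k2 * ‖mol volume η τ (φ n) y - φ n y‖ ^ 2 := by
    intro y
    have := K2 (mol volume η τ (φ n) y - φ n y)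
    refine le_trans (le_of_eq ?_) this
    congr 1
    funext u v
    rw [← hφ1 n]
    simp only [sub_apply, smul_apply, smul_eq_mul]
  have i1 : Integrable (fun y => ‖mol volume η τ (φ n) y - φ n y‖ ^ 2) := by
    apply intg_sq _ hC'
    · intro y hy
      rw [mol_supp volume hη hτ0.le hτ1 (hφ0 n) y hy,
        hφ0 n y (fun hy' => hy (Metric.self_subset_cthickening C hy')), sub_zero]
    · exact (contDiff_mol volume hη τ (hφs n) (hφc n)).continuous.sub (hφs n).continuous
  have e2 : ∫ y, nb2 (fun u v => mol volume η τ (φ n) y u v - f y * (a n).val i y u v) ≤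
      ∫ y, k2 * ‖mol volume η τ (φ n) y - φ n y‖ ^ 2 := by
    apply integral_mono_of_nonneg
    · apply Filter.Eventually.of_forall
      intro y
      exact Finset.sum_nonneg fun _ _ => Finset.sum_nonneg fun _ _ => sq_nonneg _
    · exact i1.const_mul k2
    · exact Filter.Eventually.of_forall e1
  refine lt_of_le_of_lt e2 ?_
  rw [integral_const_mul]
  have := G1
  rw [lt_div_iff₀ hk2] at this
  linarith

theorem second_est (G : Met K) {a : ℕ → Form2 K} (h : HSeq G a) (i : Ix) {C : Set (E K)}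
    (hC : IsCompact C)
    {η : E K → ℝ} (hη : Kernel volume η) {f : E K → ℝ}
    {φ : ℕ → E K → Bil K} (hφ1 : ∀ n, (fun x => f x • (a n).val i x) = φ n)
    (hφs : ∀ n, ContDiff ℝ ∞ (φ n)) (hφ0 : ∀ n y, y ∉ C → φ n y = 0)
    (hφc : ∀ n, HasCompactSupport (φ n)) {D : E K → Bil K →L[ℝ] Tri K}
    (hφ' : ∀ n y, fderiv ℝ (φ n) y = f y • fderiv ℝ ((a n).val i) y + D y ((a n).val i y))
    (hdφs : ∀ n, ContDiff ℝ ∞ (fderiv ℝ (φ n)))
    (c2 : CSeq volume C (fun n y => ((cyc K).comp (D y)) ((a n).val i y)))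
    {k3 : ℝ} (hk3 : 0 < k3)
    (K3 : ∀ T : Tri K, nb3 (fun u v w => T u v w) ≤ k3 * ‖T‖ ^ 2)
    (hC' : IsCompact (Metric.cthickening 1 C)) {ε : ℝ}
    {τ : ℝ} (hτ0 : 0 < τ) (hτ1 : τ ≤ 1) (n : ℕ)
    (G2 : ∫ y, ‖mol volume η τ (fun x => ((cyc K).comp (D x)) ((a n).val i x)) y -
      ((cyc K).comp (D y)) ((a n).val i y)‖ ^ 2 < ε / k3) :
    ∫ y, nb3 (fun u v w => d2 (fun _ => mol volume η τ (φ n)) i y u v w
        - d2 (fun _ => fun x => f x • (a n).val i x) i y u v w) < ε := by
  have hcyc : ∀ x, cyc K (fderiv ℝ (φ n) x) = ((cyc K).comp (D x)) ((a n).val i x) := by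
    intro x
    rw [hφ' n x, map_add, map_smul]
    have : cyc K (fderiv ℝ ((a n).val i) x) = 0 := by
      refine ContinuousLinearMap.ext fun u => ContinuousLinearMap.ext fun v =>
        ContinuousLinearMap.ext fun w => ?_
      have h1 := h.closed n i x u v w
      rw [d2_cyc] at h1
      simpa using h1
    have hz : f x • cyc K (fderiv ℝ ((a n).val i) x) = 0 := by
      rw [this]; exact smul_zero (A := Tri K) (f x)
    rw [hz, zero_add]
    rfl
  have hmol : ∀ y, cyc K (fderiv ℝ (mol volume η τ (φ n)) y) =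
      mol volume η τ (fun x => ((cyc K).comp (D x)) ((a n).val i x)) y := by
    intro y
    rw [fderiv_mol volume hη τ (hφs n) (hφc n) y,
      ← mol_clm volume hη τ (hdφs n).continuous (cyc K) y]
    congr 1
    funext x
    exact hcyc x
  have e1 : ∀ y, nb3 (fun u v w => d2 (fun _ => mol volume η τ (φ n)) i y u v w
      - d2 (fun _ => fun x => f x • (a n).val i x) i y u v w) ≤
      k3 * ‖mol volume η τ (fun x => ((cyc K).comp (D x)) ((a n).val i x)) y -
        ((cyc K).comp (D y)) ((a n).val i y)‖ ^ 2 := by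
    intro y
    have := K3 (mol volume η τ (fun x => ((cyc K).comp (D x)) ((a n).val i x)) y -
        ((cyc K).comp (D y)) ((a n).val i y))
    refine le_trans (le_of_eq ?_) this
    congr 1
    funext u v w
    rw [hφ1 n, d2_cyc, d2_cyc]
    rw [hmol y, hcyc y]
    simp only [sub_apply]
  have cs : ContDiff ℝ ∞ (fun x => ((cyc K).comp (D x)) ((a n).val i x)) := c2.smooth n
  have cz : ∀ y, y ∉ C → ((cyc K).comp (D y)) ((a n).val i y) = 0 := c2.supp n
  have i1 : Integrable (fun y => ‖mol volume η τ (fun x => ((cyc K).comp (D x)) ((a n).val i x)) y -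
        ((cyc K).comp (D y)) ((a n).val i y)‖ ^ 2) := by
    apply intg_sq _ hC'
    · intro y hy
      rw [mol_supp volume hη hτ0.le hτ1 cz y hy,
        cz y (fun hy' => hy (Metric.self_subset_cthickening C hy')), sub_zero]
    · exact (contDiff_mol volume hη τ cs (HasCompactSupport.intro hC cz)).continuous.sub
        cs.continuous
  refine lt_of_le_of_lt (integral_mono_of_nonneg ?_ (i1.const_mul k3)
    (Filter.Eventually.of_forall e1)) ?_
  · apply Filter.Eventually.of_forall
    intro y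
    exact Finset.sum_nonneg fun _ _ => Finset.sum_nonneg fun _ _ =>
      Finset.sum_nonneg fun _ _ => sq_nonneg _
  rw [integral_const_mul]
  have := G2
  rw [lt_div_iff₀ hk3] at this
  linarith

end MC

end Pool.Agent.H86.Nco
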