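import Pool.Agent.H86.Nco.HMollChartB
import Pool.Agent.H86.Nco.HMollChartE
import Pool.Agent.H86.Nco.HMollChartF

open scoped Manifold ContDiff Bundle Topology

noncomputable section

/-!
# Module HMOLLCHART: mollification in one chart

`φ_n y = χ (Par i y) • (a n).val i y`; smooth, supported in `C`, and an `L²` Cauchy sequence (`CSeq`)
because `∫_C nb2 ≤ c nrmSq` (`piece_le`, `sq_le`).  Take a kernel `η` and `ψ = mol η ε φ_n` with `ε` small
(depending only on the required accuracy, not on `n`) and then `n` large.  `C' = cthickening 1 C`.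
(a) `ψ - φ_n`: `mol_sub`.
(b) `d2`: `d2 (fun _ => ψ) = mol (d2 (fun _ => φ_n))` (constant coefficients, `fderiv_mol`), and
`d2 (fun _ => φ_n) = dχ ∧ a_n` because `a_n` is closed: a smooth tensor linear in `a_n`, so again a
`CSeq`; `mol_sub`.
(c) `codiff G (fun _ => φ) i y = A y (Dφ y) + B y (φ y)` with smooth `A`, `B` (`codiff`, `trace_eq`, `chrB`); by
`friedrichs` and `zero_order` `codiff ψ` is close to `mol (codiff φ_n)`, and
`codiff φ_n (w) = χ codiff a_n (w) - a_n(∇χ, w)` where `∇χ` is the `g`-gradient of `χ ∘ Par i`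
(`- ∑_j D_{e_j}χ a_n(e_j, w)`).  The second summand is a `CSeq`, so `mol` of it is close to it.
It remains to see that, for fixed `ε`, `mol (χ codiff a_n) → 0` in `L²` as `n → ∞`:
for `y ∈ C'` and a fixed vector `u = bs K k`,
`∫ η(z) χ codiff a_n (y - εz)(u) dz = ∫ ε^{-dim} η((y - x)/ε) χ(x) codiff a_n (x)(u) dx
 = IM ⟨codiff a_n, β⟩` where `β` is the extension by zero (`exists_push1`) of the one-form
`β(x)(v) = ε^{-dim} η((y - x)/ε) χ(x) vol(g x)^{-1} g(x)(u, v)` (because `∑_j θ(e_j) g(u, e_j) = θ(u)`).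
By `adjoint` this is `1/2 ip2 (a_n) (dβ)`, at most `1/2 √(ε_n nrmSq (dβ))` by `HSeq.weak`, and `nrmSq (dβ)` is bounded
uniformly in `y ∈ C'` (for fixed `ε`; all data depend continuously on `y` in a compact set).
-/

namespace Pool.Agent.H86.Nco

open Pool.Agent.H86.Anco MeasureTheory

set_option maxSynthPendingDepth 3

variable {K : ℕ}

/-- for a fixed mollification parameter the mollified codifferentials tend to zero -/
theorem mol_codiff_small (G : Met K) {a : ℕ → Form2 K} (h : HSeq G a) (i : Ix) (χ : V K → ℝ)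
    (hχ : ContDiff ℝ ∞ χ) {C : Set (E K)} (hC : IsCompact C)
    (hχC : ∀ y, χ (Par i y) ≠ 0 → y ∈ C) {η : E K → ℝ} (hη : Kernel volume η) (ε : ℝ)
    (h0 : 0 < ε) (h1 : ε ≤ 1) (δ : ℝ) (hδ : 0 < δ) : ∃ n₀, ∀ n ≥ n₀,
      ∫ y, ∑ k, (mol volume η ε (fun x => χ (Par i x) * codiff G (a n).val i x (bs K k)) y) ^ 2
        < δ := by
  have hε : ε ≠ 0 := h0.ne'
  set C' := Metric.cthickening 1 C with hC'def
  have hC' : IsCompact C' := hC.cthickening
  obtain ⟨c, hc0, hc⟩ := MC.nrmSq_beta_le G i hχ hη.smooth ε hC hχC hC'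
  obtain ⟨e, he0, he⟩ : ∃ e : ℝ, 0 < e ∧
      (((K + 4 : ℕ) : ℝ) * (e * c / 4)) * volume.real C' < δ := by
    have hD : 0 ≤ ((K + 4 : ℕ) : ℝ) * c * volume.real C' := by positivity
    refine ⟨δ / (((K + 4 : ℕ) : ℝ) * c * volume.real C' + 1), by positivity, ?_⟩
    have h2 : (((K + 4 : ℕ) : ℝ) * (δ / (((K + 4 : ℕ) : ℝ) * c * volume.real C' + 1) * c / 4)) *
        volume.real C' = δ * ((((K + 4 : ℕ) : ℝ) * c * volume.real C') /
          (4 * (((K + 4 : ℕ) : ℝ) * c * volume.real C' + 1))) := by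
      field_simp
    rw [h2]
    have h3 : (((K + 4 : ℕ) : ℝ) * c * volume.real C') /
          (4 * (((K + 4 : ℕ) : ℝ) * c * volume.real C' + 1)) < 1 := by
      rw [div_lt_one (by positivity)]
      linarith
    calc δ * ((((K + 4 : ℕ) : ℝ) * c * volume.real C') /
          (4 * (((K + 4 : ℕ) : ℝ) * c * volume.real C' + 1))) < δ * 1 :=
          mul_lt_mul_of_pos_left h3 hδ
      _ = δ := mul_one _
  obtain ⟨n₀, hn₀⟩ := h.weak e he0
  refine ⟨n₀, fun n hn => lt_of_le_of_lt (MC.int_le volume hC' ?_ ?_ ?_) he⟩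
  · intro y
    exact Finset.sum_nonneg fun k _ => sq_nonneg _
  · intro y hy
    apply Finset.sum_eq_zero
    intro k _
    rw [mol_supp volume hη h0.le h1 (C := C) ?_ y hy]
    · simp
    · intro x hx
      have : χ (Par i x) = 0 := by
        by_contra hne
        exact hx (hχC x hne)
      rw [this, zero_mul]
  · intro y hy
    have h4 : ∀ k ∈ (Finset.univ : Finset (Fin (K + 4))),
        (mol volume η ε (fun x => χ (Par i x) * codiff G (a n).val i x (bs K k)) y) ^ 2 ≤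
          e * c / 4 := by
      intro k _
      obtain ⟨β, hβ⟩ := MC.exists_beta G i hχ hη.smooth ε k hC hχC y
      rw [MC.mol_codiff_eq G (a n) i χ hε k y β hβ]
      have h5 := hn₀ n hn β
      have h6 := hc y hy k β hβ
      have h7 : e * nrmSq G (dF β) ≤ e * c := mul_le_mul_of_nonneg_left h6 he0.le
      nlinarith
    refine (Finset.sum_le_sum h4).trans ?_
    rw [Finset.sum_const, Finset.card_univ, Fintype.card_fin, nsmul_eq_mul]

open MC in
theorem moll_chart (G : Met K) {a : ℕ → Form2 K} (h : HSeq G a) (i : Ix) (χ : V K → ℝ)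
    (hχ : ContDiff ℝ ∞ χ) {C : Set (E K)} (hC : IsCompact C)
    (hχC : ∀ y, χ (Par i y) ≠ 0 → y ∈ C) : ∃ C' : Set (E K), IsCompact C' ∧ C ⊆ C' ∧
    ∀ ε : ℝ, 0 < ε → ∃ n₀, ∀ n ≥ n₀, ∃ ψ : E K → Bil K, ContDiff ℝ ∞ ψ ∧
      (∀ y, y ∉ C' → ψ y = 0) ∧ (∀ y u v, ψ y u v = - ψ y v u) ∧
      ∫ y, nb2 (fun u v => ψ y u v - χ (Par i y) * (a n).val i y u v) < ε ∧
      ∫ y, nb3 (fun u v w => d2 (fun _ => ψ) i y u v w
        - d2 (fun _ => fun x => χ (Par i x) • (a n).val i x) i y u v w) < ε ∧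
      ∫ y, nb1 (fun w => codiff G (fun _ => ψ) i y w
        - codiff G (fun _ => fun x => χ (Par i x) • (a n).val i x) i y w
        + χ (Par i y) * codiff G (a n).val i y w) < ε := by
  obtain ⟨f, hf⟩ : ∃ f : E K → ℝ, f = fun y => χ (Par i y) := ⟨_, rfl⟩
  have hfχ : ∀ y, χ (Par i y) = f y := fun y => by rw [hf]
  simp only [hfχ]
  have hfs : ContDiff ℝ ∞ f := by rw [hf]; exact hχ.comp (contDiff_Par i)
  have hf0 : ∀ y, y ∉ C → f y = 0 := by
    intro y hy
    by_contra hne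
    exact hy (hχC y (by rw [hfχ]; exact hne))
  have hdf0 : ∀ y, y ∉ C → fderiv ℝ f y = 0 := by
    intro y hy
    have : f =ᶠ[𝓝 y] fun _ => 0 := by
      filter_upwards [hC.isClosed.isOpen_compl.mem_nhds hy] with z hz
      exact hf0 z hz
    rw [this.fderiv_eq]
    simp
  obtain ⟨φ, hφ⟩ : ∃ φ : ℕ → E K → Bil K, φ = fun n y => f y • (a n).val i y := ⟨_, rfl⟩
  have hφ1 : ∀ n, (fun x => f x • (a n).val i x) = φ n := fun n => by rw [hφ]
  have hφs : ∀ n, ContDiff ℝ ∞ (φ n) := fun n => by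
    rw [hφ]; exact hfs.smul ((a n).smooth i)
  have hφ0 : ∀ n y, y ∉ C → φ n y = 0 := by
    intro n y hy
    rw [hφ]; simp only; rw [hf0 y hy, zero_smul]
  have hφc : ∀ n, HasCompactSupport (φ n) := fun n => HasCompactSupport.intro hC (hφ0 n)
  obtain ⟨D, hDd⟩ : ∃ D : E K → Bil K →L[ℝ] Tri K,
      D = fun y => ContinuousLinearMap.smulRightL ℝ (E K) (Bil K) (fderiv ℝ f y) := ⟨_, rfl⟩
  have hDs : ContDiff ℝ ∞ D := by
    rw [hDd]
    exact (ContinuousLinearMap.contDiff _).comp (hfs.fderiv_right (by simp))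
  have hD0 : ∀ y, y ∉ C → D y = 0 := by
    intro y hy
    rw [hDd]; simp only; rw [hdf0 y hy]; exact ContinuousLinearMap.map_zero _
  have hφ' : ∀ n y, fderiv ℝ (φ n) y =
      f y • fderiv ℝ ((a n).val i) y + D y ((a n).val i y) := by
    intro n y
    rw [← hφ1 n, fderiv_smul' hfs ((a n).smooth i) y, hDd]
  have hdφs : ∀ n, ContDiff ℝ ∞ (fderiv ℝ (φ n)) := fun n => (hφs n).fderiv_right (by simp)
  have hdφ0 : ∀ n y, y ∉ C → fderiv ℝ (φ n) y = 0 := by
    intro n y hy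
    rw [hφ', hf0 y hy, hD0 y hy]; simp
  -- the Cauchy sequences
  have c1 : CSeq volume C φ := by
    have := cseq_lin G h i hC (fun y => f y • ContinuousLinearMap.id ℝ (Bil K))
      (contDiff_smul_c hfs _) (fun y hy => by
        rw [hf0 y hy]; exact ContinuousLinearMap.ext fun b => zero_smul ℝ b)
    have e : (fun n y => (f y • ContinuousLinearMap.id ℝ (Bil K)) ((a n).val i y)) = φ := by
      rw [hφ]; rfl
    rw [e] at this
    exact this
  have c2 : CSeq volume C (fun n y => ((cyc K).comp (D y)) ((a n).val i y)) :=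
    cseq_lin G h i hC (fun y => (cyc K).comp (D y)) (contDiff_const.clm_comp hDs)
      (fun y hy => by rw [hD0 y hy, ContinuousLinearMap.comp_zero])
  have c3 : CSeq volume C (fun n y => ((Aop G i y).comp (D y)) ((a n).val i y)) :=
    cseq_lin G h i hC (fun y => (Aop G i y).comp (D y)) ((contDiff_Aop G i).clm_comp hDs)
      (fun y hy => by rw [hD0 y hy, ContinuousLinearMap.comp_zero])
  obtain ⟨η, hη⟩ := exists_kernel (volume : Measure (E K))
  obtain ⟨k1, hk1, K1⟩ := fam1 K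
  obtain ⟨k2, hk2, K2⟩ := fam2 K
  obtain ⟨k3, hk3, K3⟩ := fam3 K
  refine ⟨Metric.cthickening 1 C, hC.cthickening, Metric.self_subset_cthickening C,
    fun ε hε => ?_⟩
  have hC' : IsCompact (Metric.cthickening 1 C) := hC.cthickening
  obtain ⟨t1, ht1, H1⟩ := mol_sub volume hη C hC c1 (ε / k2) (by positivity)
  obtain ⟨t2, ht2, H2⟩ := mol_sub volume hη C hC c2 (ε / k3) (by positivity)
  obtain ⟨t3, ht3, H3⟩ := friedrichs volume hη C hC c1 (Aop G i) (contDiff_Aop G i)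
    (ε / (16 * k1)) (by positivity)
  obtain ⟨t4, ht4, H4⟩ := zero_order volume hη C hC c1 (Bop G i) (contDiff_Bop G i)
    (ε / (16 * k1)) (by positivity)
  obtain ⟨t5, ht5, H5⟩ := mol_sub volume hη C hC c3 (ε / (16 * k1)) (by positivity)
  obtain ⟨τ, hτ0, hτ1, hτt1, hτt2, hτt3, hτt4, hτt5⟩ : ∃ τ : ℝ, 0 < τ ∧ τ ≤ 1 ∧ τ < t1 ∧ τ < t2 ∧
      τ < t3 ∧ τ < t4 ∧ τ < t5 := by
    have hm : 0 < min 1 (min t1 (min t2 (min t3 (min t4 t5)))) := by positivity
    have hm1 : min 1 (min t1 (min t2 (min t3 (min t4 t5)))) ≤ 1 := min_le_left _ _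
    have hm' : min 1 (min t1 (min t2 (min t3 (min t4 t5)))) ≤ (min t1 (min t2 (min t3 (min t4 t5)))) :=
      min_le_right _ _
    have q1 := min_le_left t1 (min t2 (min t3 (min t4 t5)))
    have q1' := min_le_right t1 (min t2 (min t3 (min t4 t5)))
    have q2 := min_le_left t2 (min t3 (min t4 t5))
    have q2' := min_le_right t2 (min t3 (min t4 t5))
    have q3 := min_le_left t3 (min t4 t5)
    have q3' := min_le_right t3 (min t4 t5)
    have q4 := min_le_left t4 t5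
    have q4' := min_le_right t4 t5
    refine ⟨min 1 (min t1 (min t2 (min t3 (min t4 t5)))) / 2, by linarith, by linarith,
      by linarith, by linarith, by linarith, by linarith, by linarith⟩
  obtain ⟨n₀, hn₀⟩ := mol_codiff_small G h i χ hχ hC hχC hη τ hτ0 hτ1 (ε / 16) (by positivity)
  have G1 := H1 τ hτ0 hτt1
  have G2 := H2 τ hτ0 hτt2
  have G3 := H3 τ hτ0 hτt3
  have G4 := H4 τ hτ0 hτt4
  have G5 := H5 τ hτ0 hτt5
  refine ⟨n₀, fun n hn => ⟨mol volume η τ (φ n), contDiff_mol volume hη τ (hφs n) (hφc n),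
    fun y hy => mol_supp volume hη hτ0.le hτ1 (hφ0 n) y hy, ?_, ?_, ?_, ?_⟩⟩
  · exact fun y u v => alt_est G i hη hφ1 hφs τ n y u v
  · exact first_est G i hC hη hφ1 hφs hφ0 hφc hk2 K2 hC' hτ0 hτ1 n (G1 n)
  · exact second_est G h i hC hη hφ1 hφs hφ0 hφc hφ' hdφs c2 hk3 K3 hC' hτ0 hτ1 n (G2 n)
  · exact third_est G i χ hC hη hfχ hfs hf0 hφ1 hφs hφ0 hφc hφ' hdφs hdφ0 c3 hk1 K1 hC' hε hτ0 hτ1
      n (G3 n) (G4 n) (G5 n) (hn₀ n hn)

end Pool.Agent.H86.Nco
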