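import Pool.Agent.H86.Nco.HAlg
import Pool.Agent.H86.Nco.HFried

open scoped Manifold ContDiff Bundle Topology

noncomputable section

namespace Pool.Agent.H86.Nco

open Pool.Agent.H86.Anco MeasureTheory

set_option maxSynthPendingDepth 3

namespace MC

section general

variable {E : Type} [NormedAddCommGroup E] [NormedSpace ℝ E] [FiniteDimensional ℝ E]
  [MeasurableSpace E] [BorelSpace E] (μ : Measure E) [μ.IsAddHaarMeasure]
  {X : Type} [NormedAddCommGroup X] [NormedSpace ℝ X] [FiniteDimensional ℝ X]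
  {Y : Type} [NormedAddCommGroup Y] [NormedSpace ℝ Y] [FiniteDimensional ℝ Y]

theorem hcs_kernel {η : E → ℝ} (hη : Kernel μ η) : HasCompactSupport η :=
  HasCompactSupport.intro (isCompact_closedBall 0 1) (fun z hz => hη.supp z (by
    rw [Metric.mem_closedBall, dist_zero_right, not_le] at hz
    exact hz.le))

theorem integrable_ker {η : E → ℝ} (hη : Kernel μ η) (ε : ℝ) {φ : E → X} (hφ : Continuous φ)
    (y : E) : Integrable (fun z => η z • φ (y - ε • z)) μ := by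
  apply Continuous.integrable_of_hasCompactSupport
  · exact hη.smooth.continuous.smul
      (hφ.comp (continuous_const.sub (continuous_id.const_smul ε)))
  · exact (hcs_kernel μ hη).smul_right

theorem mol_clm {η : E → ℝ} (hη : Kernel μ η) (ε : ℝ) {φ : E → X} (hφ : Continuous φ)
    (L : X →L[ℝ] Y) (y : E) :
    mol μ η ε (fun x => L (φ x)) y = L (mol μ η ε φ y) := by
  unfold mol
  rw [← L.integral_comp_comm (integrable_ker μ hη ε hφ y)]
  simp only [map_smul]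

theorem mol_add {η : E → ℝ} (hη : Kernel μ η) (ε : ℝ) {φ ψ : E → X} (hφ : Continuous φ)
    (hψ : Continuous ψ) (y : E) :
    mol μ η ε (fun x => φ x + ψ x) y = mol μ η ε φ y + mol μ η ε ψ y := by
  unfold mol
  rw [← integral_add (integrable_ker μ hη ε hφ y) (integrable_ker μ hη ε hψ y)]
  simp only [smul_add]

theorem mol_eq (η : E → ℝ) {ε : ℝ} (hε : ε ≠ 0) (f : E → X) (y : E) :
    mol μ η ε f y = |(ε ^ Module.finrank ℝ E)⁻¹| • ∫ x, η (ε⁻¹ • (y - x)) • f x ∂μ := by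
  unfold mol
  have h1 : ∀ z : E, η z • f (y - ε • z) =
      (fun w => η (ε⁻¹ • w) • f (y - w)) (ε • z) := by
    intro z
    simp only
    rw [smul_smul, inv_mul_cancel₀ hε, one_smul]
  rw [integral_congr_ae (Filter.Eventually.of_forall h1),
    Measure.integral_comp_smul μ (fun w => η (ε⁻¹ • w) • f (y - w)) ε]
  congr 1
  rw [← integral_sub_left_eq_self _ μ y]
  simp only [sub_sub_cancel]

theorem int_le {C : Set E} (hC : IsCompact C) {f : E → ℝ} (h0 : ∀ y, 0 ≤ f y)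
    (h1 : ∀ y, y ∉ C → f y = 0) {M : ℝ} (hM : ∀ y ∈ C, f y ≤ M) :
    ∫ y, f y ∂μ ≤ M * μ.real C := by
  have h2 : ∫ y, f y ∂μ ≤ ∫ y, C.indicator (fun _ => M) y ∂μ := by
    apply integral_mono_of_nonneg (Filter.Eventually.of_forall h0)
    · exact (integrable_indicator_iff hC.measurableSet).2 (integrableOn_const hC.measure_lt_top.ne)
    · apply Filter.Eventually.of_forall
      intro y
      by_cases hy : y ∈ C
      · simp only [Set.indicator_of_mem hy]; exact hM y hy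
      · simp only [Set.indicator_of_notMem hy]; exact (h1 y hy).le
  rw [integral_indicator_const _ hC.measurableSet] at h2
  rw [mul_comm]
  exact h2

theorem family_le {ι : Type} [Fintype ι] (ℓ : ι → X →L[ℝ] ℝ) :
    ∃ c : ℝ, 0 < c ∧ ∀ x, ∑ p, (ℓ p x) ^ 2 ≤ c * ‖x‖ ^ 2 := by
  refine ⟨∑ p, ‖ℓ p‖ ^ 2 + 1, by positivity, fun x => ?_⟩
  have : ∑ p, (ℓ p x) ^ 2 ≤ ∑ p, ‖ℓ p‖ ^ 2 * ‖x‖ ^ 2 := by
    refine Finset.sum_le_sum fun p _ => ?_
    rw [← mul_pow]
    refine sq_le_sq' ?_ ?_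
    · have := (abs_le.1 ((Real.norm_eq_abs _).symm.le.trans ((ℓ p).le_opNorm x))).1
      exact this
    · exact (le_abs_self _).trans ((Real.norm_eq_abs _).symm.le.trans ((ℓ p).le_opNorm x))
  rw [← Finset.sum_mul] at this
  nlinarith [sq_nonneg ‖x‖]

theorem norm_le_family {ι : Type} [Fintype ι] (ℓ : ι → X →L[ℝ] ℝ)
    (h : ∀ x, (∀ p, ℓ p x = 0) → x = 0) :
    ∃ c : ℝ, 0 < c ∧ ∀ x, ‖x‖ ^ 2 ≤ c * ∑ p, (ℓ p x) ^ 2 := by
  let T : X →ₗ[ℝ] (ι → ℝ) := LinearMap.pi fun p => (ℓ p : X →ₗ[ℝ] ℝ)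
  have hT : LinearMap.ker T = ⊥ := by
    rw [LinearMap.ker_eq_bot']
    intro x hx
    apply h
    intro p
    have := congrFun hx p
    simpa [T] using this
  obtain ⟨K, hK, hA⟩ := T.exists_antilipschitzWith hT
  refine ⟨(K : ℝ) ^ 2, by positivity, fun x => ?_⟩
  have h1 : ‖x‖ ≤ K * ‖T x‖ := by
    have := hA.le_mul_dist x 0
    simpa using this
  have h2 : ‖T x‖ ^ 2 ≤ ∑ p, (ℓ p x) ^ 2 := by
    have hs : 0 ≤ ∑ p, (ℓ p x) ^ 2 := Finset.sum_nonneg fun p _ => sq_nonneg _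
    have h3 : ‖T x‖ ≤ Real.sqrt (∑ p, (ℓ p x) ^ 2) := by
      rw [pi_norm_le_iff_of_nonneg (Real.sqrt_nonneg _)]
      intro p
      apply Real.le_sqrt_of_sq_le
      have : ‖T x p‖ ^ 2 = (ℓ p x) ^ 2 := by
        rw [Real.norm_eq_abs, sq_abs]; rfl
      rw [this]
      exact Finset.single_le_sum (f := fun p => (ℓ p x) ^ 2) (fun _ _ => sq_nonneg _)
        (Finset.mem_univ p)
    calc ‖T x‖ ^ 2 ≤ (Real.sqrt (∑ p, (ℓ p x) ^ 2)) ^ 2 :=
          pow_le_pow_left₀ (norm_nonneg _) h3 2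
      _ = _ := Real.sq_sqrt hs
  calc ‖x‖ ^ 2 ≤ (K * ‖T x‖) ^ 2 := pow_le_pow_left₀ (norm_nonneg _) h1 2
    _ = (K : ℝ) ^ 2 * ‖T x‖ ^ 2 := by ring
    _ ≤ _ := mul_le_mul_of_nonneg_left h2 (by positivity)

end general


section chart

instance haarCF (K : ℕ) : (volume : Measure (ℂ × F K)).IsAddHaarMeasure :=
  inferInstanceAs ((volume : Measure ℂ).prod (volume : Measure (F K))).IsAddHaarMeasure

instance haarE (K : ℕ) : (volume : Measure (E K)).IsAddHaarMeasure :=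
  @Measure.prod.instIsAddHaarMeasure _ _ _ _ _ _ _ _ (volume : Measure ℂ)
    (volume : Measure (ℂ × F K)) _ _ _ _ _ _

variable {K : ℕ}

/-- the kernel one-form -/
def kf (G : Met K) (i : Ix) (χ : V K → ℝ) (η : E K → ℝ) (ε : ℝ) (k : Fin (K + 4)) (y x : E K) :
    E K →L[ℝ] ℝ :=
  (|(ε ^ Module.finrank ℝ (E K))⁻¹| * η (ε⁻¹ • (y - x)) * χ (Par i x) * (vol (G.g i x))⁻¹) •
    G.g i x (bs K k)

theorem contDiff_kf (G : Met K) (i : Ix) {χ : V K → ℝ} (hχ : ContDiff ℝ ∞ χ) {η : E K → ℝ}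
    (hη : ContDiff ℝ ∞ η) (ε : ℝ) (k : Fin (K + 4)) :
    ContDiff ℝ ∞ (Function.uncurry (kf G i χ η ε k)) := by
  have h1 : ContDiff ℝ ∞ (fun p : E K × E K => η (ε⁻¹ • (p.1 - p.2))) :=
    hη.comp ((contDiff_fst.sub contDiff_snd).const_smul _)
  have h2 : ContDiff ℝ ∞ (fun p : E K × E K => χ (Par i p.2)) :=
    hχ.comp ((contDiff_Par i).comp contDiff_snd)
  have h3 : ContDiff ℝ ∞ (fun p : E K × E K => (vol (G.g i p.2))⁻¹) := by
    apply ContDiff.inv
    · exact (contDiff_vol (G.smooth i) (G.posDef i)).comp contDiff_snd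
    · intro x
      exact (vol_pos (G.posDef i x.2)).ne'
  have h4 : ContDiff ℝ ∞ (fun p : E K × E K => G.g i p.2 (bs K k)) :=
    ((G.smooth i).comp contDiff_snd).clm_apply contDiff_const
  exact (((contDiff_const.mul h1).mul h2).mul h3).smul h4

theorem kf_eq_zero (G : Met K) (i : Ix) {χ : V K → ℝ} (η : E K → ℝ) (ε : ℝ) (k : Fin (K + 4))
    {C : Set (E K)} (hχC : ∀ y, χ (Par i y) ≠ 0 → y ∈ C) (y x : E K) (hx : x ∉ C) :
    kf G i χ η ε k y x = 0 := by
  unfold kf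
  have : χ (Par i x) = 0 := by
    by_contra h
    exact hx (hχC x h)
  rw [this]
  simp

theorem contDiff_kf_right (G : Met K) (i : Ix) {χ : V K → ℝ} (hχ : ContDiff ℝ ∞ χ) {η : E K → ℝ}
    (hη : ContDiff ℝ ∞ η) (ε : ℝ) (k : Fin (K + 4)) (y : E K) :
    ContDiff ℝ ∞ (kf G i χ η ε k y) :=
  (contDiff_kf G i hχ hη ε k).comp (contDiff_const.prodMk contDiff_id)

/-- uniform bound of the derivatives of the kernel forms -/
theorem kf_bound (G : Met K) (i : Ix) {χ : V K → ℝ} (hχ : ContDiff ℝ ∞ χ) {η : E K → ℝ}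
    (hη : ContDiff ℝ ∞ η) (ε : ℝ) (k : Fin (K + 4)) {C C' : Set (E K)} (hC : IsCompact C)
    (hC' : IsCompact C') :
    ∃ M : ℝ, 0 ≤ M ∧ ∀ y ∈ C', ∀ x ∈ C, ‖fderiv ℝ (kf G i χ η ε k y) x‖ ≤ M := by
  have h1 : ContDiff ℝ ∞ (fun p : E K × E K => fderiv ℝ (kf G i χ η ε k p.1) p.2) := by
    apply ContDiff.fderiv (n := ∞) (m := ∞) (f := fun p : E K × E K => kf G i χ η ε k p.1)
      (g := fun p => p.2)
    · exact (contDiff_kf G i hχ hη ε k).comp
        ((contDiff_fst.comp contDiff_fst).prodMk contDiff_snd)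
    · exact contDiff_snd
    · simp
  obtain ⟨M, hM⟩ := (hC'.prod hC).exists_bound_of_continuousOn h1.continuous.continuousOn
  refine ⟨max M 0, le_max_right _ _, fun y hy x hx => (hM (y, x) ⟨hy, hx⟩).trans (le_max_left _ _)⟩

end chart

end MC

end Pool.Agent.H86.Nco
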