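import Pool.Agent.H86.Nco.HAdj
import Pool.Agent.H86.Nco.HMollChartA

open scoped Manifold ContDiff Bundle Topology

noncomputable section

namespace Pool.Agent.H86.Nco

open Pool.Agent.H86.Anco MeasureTheory

set_option maxSynthPendingDepth 3

namespace MC

variable {K : ℕ}

theorem exists_beta (G : Met K) (i : Ix) {χ : V K → ℝ} (hχ : ContDiff ℝ ∞ χ) {η : E K → ℝ}
    (hη : ContDiff ℝ ∞ η) (ε : ℝ) (k : Fin (K + 4)) {C : Set (E K)} (hC : IsCompact C)
    (hχC : ∀ y, χ (Par i y) ≠ 0 → y ∈ C) (y : E K) :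
    ∃ β : Form1 K, β.val i = kf G i χ η ε k y := by
  obtain ⟨b, hb, -⟩ := exists_push1 i (kf G i χ η ε k y) (contDiff_kf_right G i hχ hη ε k y)
    (HasCompactSupport.intro hC (fun x hx => kf_eq_zero G i η ε k hχC y x hx))
  exact ⟨b, hb⟩

theorem compat0_pair (G : Met K) (a : Form2 K) (β : Form1 K) :
    Compat0 (fun i y => ∑ j, codiff G a.val i y (onb (G.g i y) j) *
      β.val i y (onb (G.g i y) j)) := by
  have h1 := fun i => exists_codiffL G a.val i (a.smooth i)
  choose θ hθs hθ using h1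
  have h2 : Compat2 (fun i y => ((θ i y).smulRight (β.val i y) : Bil K)) := by
    intro i j y hy u v
    simp only [ContinuousLinearMap.smulRight_apply, smul_apply, smul_eq_mul]
    rw [hθ, hθ, compat1_codiff G a i j y hy u, β.compat i j y hy v]
  have h3 := compat0_trace G h2
  intro i j y hy
  have h4 := h3 i j y hy
  simp only [ContinuousLinearMap.smulRight_apply, smul_apply, smul_eq_mul,
    hθ] at h4
  exact h4

theorem mol_codiff_eq (G : Met K) (a : Form2 K) (i : Ix) (χ : V K → ℝ) {η : E K → ℝ} {ε : ℝ}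
    (hε : ε ≠ 0) (k : Fin (K + 4)) (y : E K) (β : Form1 K) (hβ : β.val i = kf G i χ η ε k y) :
    mol volume η ε (fun x => χ (Par i x) * codiff G a.val i x (bs K k)) y =
      ip2 G a (dF β) / 2 := by
  obtain ⟨θ, hθs, hθ⟩ := exists_codiffL G a.val i (a.smooth i)
  rw [← adjoint G a β, IM_eq G (compat0_pair G a β) i, mol_eq volume η hε]
  rw [smul_eq_mul, ← integral_const_mul]
  congr 1
  funext x
  have h1 : bs K k = ∑ j, G.g i x (bs K k) (onb (G.g i x) j) • onb (G.g i x) j :=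
    onb_expand (G.posDef i x) (bs K k)
  have h2 : codiff G a.val i x (bs K k) =
      ∑ j, G.g i x (bs K k) (onb (G.g i x) j) * codiff G a.val i x (onb (G.g i x) j) := by
    rw [← hθ]
    conv_lhs => rw [h1]
    rw [map_sum]
    refine Finset.sum_congr rfl fun j _ => ?_
    rw [map_smul, hθ, smul_eq_mul]
  have hv : vol (G.g i x) ≠ 0 := (vol_pos (G.posDef i x)).ne'
  have h3 : ∀ j, codiff G a.val i x (onb (G.g i x) j) * β.val i x (onb (G.g i x) j) =
      (|(ε ^ Module.finrank ℝ (E K))⁻¹| * η (ε⁻¹ • (y - x)) * χ (Par i x) * (vol (G.g i x))⁻¹) *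
      (G.g i x (bs K k) (onb (G.g i x) j) * codiff G a.val i x (onb (G.g i x) j)) := by
    intro j
    rw [hβ]
    simp only [kf, smul_apply, smul_eq_mul]
    ring
  rw [Finset.sum_congr rfl fun j _ => h3 j, ← Finset.mul_sum, ← h2]
  field_simp
  simp only [smul_eq_mul]
  ring

theorem sq2_nonneg (B : Bil K) (b : E K → E K → ℝ) : 0 ≤ sq2 B b :=
  Finset.sum_nonneg fun _ _ => Finset.sum_nonneg fun _ _ => sq_nonneg _

theorem vol_nonneg (B : Bil K) : 0 ≤ vol B := Real.sqrt_nonneg _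

theorem nrmSq_eq (G : Met K) (b : Form2 K) (i : Ix) :
    nrmSq G b = ∫ y, sq2 (G.g i y) (fun u v => b.val i y u v) * vol (G.g i y) := by
  unfold nrmSq
  rw [IM_eq G (compat0_sq2 G b.compat) i]

theorem nrmSq_beta_le (G : Met K) (i : Ix) {χ : V K → ℝ} (hχ : ContDiff ℝ ∞ χ) {η : E K → ℝ}
    (hη : ContDiff ℝ ∞ η) (ε : ℝ) {C C' : Set (E K)} (hC : IsCompact C)
    (hχC : ∀ y, χ (Par i y) ≠ 0 → y ∈ C) (hC' : IsCompact C') :
    ∃ c : ℝ, 0 ≤ c ∧ ∀ y ∈ C', ∀ k, ∀ β : Form1 K, β.val i = kf G i χ η ε k y →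
      nrmSq G (dF β) ≤ c := by
  obtain ⟨c1, hc1, hsq⟩ := sq_le (G.smooth i) (G.posDef i) hC
  obtain ⟨c2, hc2, hfam⟩ := family_le (X := Bil K) (ι := Fin (K + 4) × Fin (K + 4))
    (fun p => (ContinuousLinearMap.apply ℝ ℝ (bs K p.2)).comp
      (ContinuousLinearMap.apply ℝ (E K →L[ℝ] ℝ) (bs K p.1)))
  have hM := fun k => kf_bound G i hχ hη ε k hC hC'
  choose M hM0 hM using hM
  obtain ⟨W, hW⟩ := hC.exists_bound_of_continuousOn
    (contDiff_vol (G.smooth i) (G.posDef i)).continuous.continuousOn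
  set M' := ∑ k, M k with hM'
  have hM'0 : 0 ≤ M' := Finset.sum_nonneg fun k _ => hM0 k
  refine ⟨(c1 * (c2 * (2 * M') ^ 2) * max W 0) * volume.real C, by positivity, ?_⟩
  intro y hy k β hβ
  rw [nrmSq_eq G (dF β) i]
  apply int_le volume hC
  · intro x
    exact mul_nonneg (sq2_nonneg _ _) (vol_nonneg _)
  · intro x hx
    have h1 : (dF β).val i x = 0 := by
      rw [dF_val]
      unfold d1
      rw [hβ]
      have h2 : fderiv ℝ (kf G i χ η ε k y) x = 0 := by
        have : kf G i χ η ε k y =ᶠ[𝓝 x] fun _ => 0 := by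
          filter_upwards [hC.isClosed.isOpen_compl.mem_nhds hx] with z hz
          exact kf_eq_zero G i η ε k hχC y z hz
        rw [this.fderiv_eq]
        simp
      rw [h2]
      refine ContinuousLinearMap.ext fun u => ContinuousLinearMap.ext fun v => ?_
      simp
    rw [h1]
    have : sq2 (G.g i x) (fun u v => (0 : Bil K) u v) = 0 := by
      unfold sq2; simp
    rw [this, zero_mul]
  · intro x hx
    have hb : ‖(dF β).val i x‖ ≤ 2 * M' := by
      rw [dF_val]
      unfold d1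
      rw [hβ]
      have h3 : ‖fderiv ℝ (kf G i χ η ε k y) x‖ ≤ M' :=
        (hM k y hy x hx).trans (Finset.single_le_sum (f := M) (fun k _ => hM0 k)
          (Finset.mem_univ k))
      refine (norm_sub_le _ _).trans ?_
      have h4 : ‖(fderiv ℝ (kf G i χ η ε k y) x).flip‖ = ‖fderiv ℝ (kf G i χ η ε k y) x‖ :=
        ContinuousLinearMap.opNorm_flip _
      rw [h4]
      linarith
    have h5 : sq2 (G.g i x) (fun u v => (dF β).val i x u v) ≤ c1 * (c2 * (2 * M') ^ 2) := by
      refine (((hsq x hx).2.1 ((dF β).val i x)).1).trans ?_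
      refine mul_le_mul_of_nonneg_left ?_ hc1.le
      have h6 := hfam ((dF β).val i x)
      have h7 : nb2 (fun u v => (dF β).val i x u v) =
          ∑ p : Fin (K + 4) × Fin (K + 4), (((ContinuousLinearMap.apply ℝ ℝ (bs K p.2)).comp
            (ContinuousLinearMap.apply ℝ (E K →L[ℝ] ℝ) (bs K p.1))) ((dF β).val i x)) ^ 2 := by
        rw [Fintype.sum_prod_type]
        rfl
      rw [h7]
      refine h6.trans ?_
      exact mul_le_mul_of_nonneg_left (pow_le_pow_left₀ (norm_nonneg _) hb 2) hc2.le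
    have h8 : vol (G.g i x) ≤ max W 0 :=
      ((le_abs_self _).trans ((Real.norm_eq_abs _).symm.le.trans (hW x hx))).trans (le_max_left _ _)
    exact mul_le_mul h5 h8 (vol_nonneg _) (by positivity)

end MC

end Pool.Agent.H86.Nco
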