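import Pool.Agent.H86.Nco.HMin
import Pool.Agent.H86.Nco.HMollChartA

/-!
# Module HMOLLCHART, part D: first order operators and Cauchy sequences in a chart
-/

open scoped Manifold ContDiff Bundle Topology

noncomputable section

namespace Pool.Agent.H86.Nco

open Pool.Agent.H86.Anco MeasureTheory

set_option maxSynthPendingDepth 3

variable {K : ℕ}

/-- Cauchy sequences of closed forms which are asymptotically orthogonal to all exact forms -/
structure HSeq (G : Met K) (a : ℕ → Form2 K) : Prop where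
  closed : ∀ n, Closed (a n)
  cauchy : ∀ ε : ℝ, 0 < ε → ∃ n₀, ∀ m ≥ n₀, ∀ n ≥ n₀, nrmSq G (a m - a n) < ε
  weak : ∀ ε : ℝ, 0 < ε → ∃ n₀, ∀ n ≥ n₀, ∀ β : Form1 K,
    ip2 G (a n) (dF β) ^ 2 ≤ ε * nrmSq G (dF β)

namespace MC

theorem sq2_nonneg_d (B : Bil K) (b : E K → E K → ℝ) : 0 ≤ sq2 B b :=
  Finset.sum_nonneg fun _ _ => Finset.sum_nonneg fun _ _ => sq_nonneg _

theorem cseq_lin (G : Met K) {a : ℕ → Form2 K} (h : HSeq G a) (i : Ix) {C : Set (E K)}
    (hC : IsCompact C) {X : Type} [NormedAddCommGroup X] [NormedSpace ℝ X] [FiniteDimensional ℝ X]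
    (L : E K → Bil K →L[ℝ] X) (hL : ContDiff ℝ ∞ L) (h0 : ∀ y, y ∉ C → L y = 0) :
    CSeq volume C (fun n y => L y ((a n).val i y)) := by
  refine ⟨fun n => hL.clm_apply ((a n).smooth i), fun n y hy => by rw [h0 y hy]; simp, ?_⟩
  intro ε hε
  obtain ⟨M, hM⟩ := hC.exists_bound_of_continuousOn hL.continuous.continuousOn
  obtain ⟨c1, hc1, hsq⟩ := sq_le (G.smooth i) (G.posDef i) hC
  obtain ⟨c2, hc2, hfam⟩ := norm_le_family (X := Bil K) (ι := Fin (K + 4) × Fin (K + 4))
    (fun p => (ContinuousLinearMap.apply ℝ ℝ (bs K p.2)).comp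
      (ContinuousLinearMap.apply ℝ (E K →L[ℝ] ℝ) (bs K p.1))) (by
      intro b hb
      have h1 : ∀ j k, b (bs K j) (bs K k) = 0 := fun j k => hb (j, k)
      have h2 : (b : E K →ₗ[ℝ] E K →L[ℝ] ℝ) = 0 := by
        apply (bs K).ext
        intro j
        apply ContinuousLinearMap.coe_injective
        apply (bs K).ext
        intro k
        simpa using h1 j k
      apply ContinuousLinearMap.coe_injective
      exact h2)
  obtain ⟨c3, hc3, hpiece⟩ := piece_le G i hC
  obtain ⟨n₀, hn₀⟩ := h.cauchy (ε / (M ^ 2 * c2 * c1 * c3 + 1)) (by positivity)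
  refine ⟨n₀, fun m hm n hn => ?_⟩
  have h3 := hn₀ m hm n hn
  set F : Ix → E K → ℝ := fun i y => sq2 (G.g i y) (fun u v => (a m - a n).val i y u v) with hF
  have hF0 : ∀ i y, 0 ≤ F i y := fun i y => sq2_nonneg_d _ _
  have hFc : ∀ i, Continuous (F i) := fun i => cont_sq2 G i ((a m - a n).smooth i).continuous
  have hp := hpiece F (compat0_sq2 G (a m - a n).compat) hFc hF0
  have h4 : ∫ y, ‖L y ((a m).val i y) - L y ((a n).val i y)‖ ^ 2 =
      ∫ y in C, ‖L y ((a m).val i y) - L y ((a n).val i y)‖ ^ 2 := by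
    rw [setIntegral_eq_integral_of_forall_compl_eq_zero]
    intro y hy
    rw [h0 y hy]
    simp
  have h5 : ∫ y in C, ‖L y ((a m).val i y) - L y ((a n).val i y)‖ ^ 2 ≤
      ∫ y in C, M ^ 2 * c2 * c1 * F i y := by
    apply setIntegral_mono_on
    · apply ContinuousOn.integrableOn_compact hC
      apply Continuous.continuousOn
      exact (((hL.continuous.clm_apply ((a m).smooth i).continuous).sub
        (hL.continuous.clm_apply ((a n).smooth i).continuous)).norm).pow 2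
    · exact ContinuousOn.integrableOn_compact hC (continuous_const.mul (hFc i)).continuousOn
    · exact hC.measurableSet
    · intro y hy
      have e1 : L y ((a m).val i y) - L y ((a n).val i y) = L y ((a m - a n).val i y) := by
        rw [← map_sub, Form2.sub_val]
      rw [e1]
      have e2 : ‖L y ((a m - a n).val i y)‖ ≤ M * ‖(a m - a n).val i y‖ :=
        ((L y).le_opNorm _).trans (mul_le_mul_of_nonneg_right (hM y hy) (norm_nonneg _))
      have e3 : ‖L y ((a m - a n).val i y)‖ ^ 2 ≤ M ^ 2 * ‖(a m - a n).val i y‖ ^ 2 := by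
        rw [← mul_pow]
        exact pow_le_pow_left₀ (norm_nonneg _) e2 2
      have e4 := hfam ((a m - a n).val i y)
      have e5 := ((hsq y hy).2.1 ((a m - a n).val i y)).2
      have e6 : ∑ p : Fin (K + 4) × Fin (K + 4), (((ContinuousLinearMap.apply ℝ ℝ (bs K p.2)).comp
            (ContinuousLinearMap.apply ℝ (E K →L[ℝ] ℝ) (bs K p.1)))
            ((a m - a n).val i y)) ^ 2 = nb2 (fun u v => (a m - a n).val i y u v) := by
        rw [Fintype.sum_prod_type]
        rfl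
      rw [e6] at e4
      calc ‖L y ((a m - a n).val i y)‖ ^ 2 ≤ M ^ 2 * ‖(a m - a n).val i y‖ ^ 2 := e3
        _ ≤ M ^ 2 * (c2 * nb2 (fun u v => (a m - a n).val i y u v)) :=
            mul_le_mul_of_nonneg_left e4 (sq_nonneg _)
        _ ≤ M ^ 2 * (c2 * (c1 * F i y)) :=
            mul_le_mul_of_nonneg_left (mul_le_mul_of_nonneg_left e5 hc2.le) (sq_nonneg _)
        _ = M ^ 2 * c2 * c1 * F i y := by ring
  rw [integral_const_mul] at h5
  have h6 : IM G F = nrmSq G (a m - a n) := rfl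
  rw [h6] at hp
  have hN : 0 ≤ nrmSq G (a m - a n) := nrmSq_nonneg _ _
  have h7 : M ^ 2 * c2 * c1 * ∫ y in C, F i y ≤ M ^ 2 * c2 * c1 * (c3 * nrmSq G (a m - a n)) :=
    mul_le_mul_of_nonneg_left hp (by positivity)
  rw [h4]
  have h8 : (M ^ 2 * c2 * c1 * c3 + 1) * nrmSq G (a m - a n) < ε := by
    rw [lt_div_iff₀ (by positivity)] at h3
    linarith
  nlinarith


/-! ### the first order operators -/

open Natural

/-- principal part of the codifferential -/
def Aop (G : Met K) (i : Ix) (y : E K) : Tri K →L[ℝ] (E K →L[ℝ] ℝ) :=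
  -∑ j, ∑ k, ginv (G.g i y) j k • ((ContinuousLinearMap.apply ℝ (E K →L[ℝ] ℝ) (bs K k)).comp
    (ContinuousLinearMap.apply ℝ (Bil K) (bs K j)))

/-- zero order part of the codifferential -/
def Bop (G : Met K) (i : Ix) (y : E K) : Bil K →L[ℝ] (E K →L[ℝ] ℝ) :=
  ∑ j, ∑ k, ginv (G.g i y) j k •
    (ContinuousLinearMap.apply ℝ (E K →L[ℝ] ℝ) (chrB (G.g i) y (bs K j) (bs K k)) +
      ((ContinuousLinearMap.compL ℝ (E K) (E K) ℝ).flip (chrB (G.g i) y (bs K j))).comp
        (ContinuousLinearMap.apply ℝ (E K →L[ℝ] ℝ) (bs K k)))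

theorem contDiff_smul_c {X : Type} [NormedAddCommGroup X] [NormedSpace ℝ X] {f : E K → ℝ}
    (hf : ContDiff ℝ ∞ f) (c : X) : ContDiff ℝ ∞ (fun y => f y • c) :=
  hf.smul contDiff_const

theorem contDiff_Aop (G : Met K) (i : Ix) : ContDiff ℝ ∞ (Aop G i) := by
  unfold Aop
  apply ContDiff.neg
  apply ContDiff.sum
  intro j _
  apply ContDiff.sum
  intro k _
  exact contDiff_smul_c (contDiff_ginv (G.smooth i) (G.posDef i) j k) _

theorem contDiff_chrB (G : Met K) (i : Ix) : ContDiff ℝ ∞ (chrB (G.g i)) := by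
  rw [contDiff_iff_contDiffAt]
  intro y
  exact contDiffAt_chrB (isMetricAt G i y)

theorem contDiff_Bop (G : Met K) (i : Ix) : ContDiff ℝ ∞ (Bop G i) := by
  unfold Bop
  apply ContDiff.sum
  intro j _
  apply ContDiff.sum
  intro k _
  apply (contDiff_ginv (G.smooth i) (G.posDef i) j k).smul
  have h1 : ContDiff ℝ ∞ (fun y => chrB (G.g i) y (bs K j)) :=
    (contDiff_chrB G i).clm_apply contDiff_const
  have h2 : ContDiff ℝ ∞ (fun y => chrB (G.g i) y (bs K j) (bs K k)) :=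
    h1.clm_apply contDiff_const
  apply ContDiff.add
  · exact (ContinuousLinearMap.contDiff _).comp h2
  · exact ((ContinuousLinearMap.contDiff _).comp h1).clm_comp contDiff_const

/-- the codifferential as a one-form -/
def th (G : Met K) (i : Ix) (ψ : E K → Bil K) (y : E K) : E K →L[ℝ] ℝ :=
  Aop G i y (fderiv ℝ ψ y) + Bop G i y (ψ y)

theorem codiff_eq (G : Met K) (b : Ix → E K → Bil K) (i : Ix) (hb : ContDiff ℝ ∞ (b i))
    (y w : E K) : codiff G b i y w = th G i (b i) y w := by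
  obtain ⟨T, hT, hT'⟩ := exists_cdL G b i hb
  set β : Bil K := ((ContinuousLinearMap.compL ℝ (E K) (E K →L[ℝ] ℝ) ℝ)
    (ContinuousLinearMap.apply ℝ ℝ w)).comp (T y) with hβ
  have hβ' : ∀ u v, β u v = cd G b i y u v w := by
    intro u v
    rw [← hT']
    rfl
  have h1 := trace_eq (G.posDef i y) β
  simp only [hβ'] at h1
  unfold codiff
  rw [h1]
  unfold th Aop Bop
  simp only [cd, add_apply, neg_apply, sum_apply, smul_apply,
    ContinuousLinearMap.coe_comp, Function.comp_apply, ContinuousLinearMap.apply_apply,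
    ContinuousLinearMap.flip_apply, ContinuousLinearMap.compL_apply, chrB_apply, smul_eq_mul]
  rw [← Finset.sum_neg_distrib, ← Finset.sum_neg_distrib, ← Finset.sum_add_distrib]
  refine Finset.sum_congr rfl fun j _ => ?_
  rw [← Finset.sum_neg_distrib, ← Finset.sum_neg_distrib, ← Finset.sum_add_distrib]
  refine Finset.sum_congr rfl fun k _ => ?_
  ring

/-- cyclic sums -/
theorem exists_cyc (K : ℕ) : ∃ c : Tri K →L[ℝ] Tri K, ∀ T u v w,
    c T u v w = T u v w + T v w u + T w u v := by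
  let s12 : Tri K →L[ℝ] Tri K :=
    ((ContinuousLinearMap.flipₗᵢ ℝ (E K) (E K) (E K →L[ℝ] ℝ)).toContinuousLinearEquiv :
      (E K →L[ℝ] E K →L[ℝ] E K →L[ℝ] ℝ) →L[ℝ] _)
  let fl : Bil K →L[ℝ] Bil K :=
    ((ContinuousLinearMap.flipₗᵢ ℝ (E K) (E K) ℝ).toContinuousLinearEquiv :
      (E K →L[ℝ] E K →L[ℝ] ℝ) →L[ℝ] _)
  let s23 : Tri K →L[ℝ] Tri K := ContinuousLinearMap.compL ℝ (E K) (Bil K) (Bil K) fl
  let P : Tri K →L[ℝ] Tri K := s12.comp s23
  have hP : ∀ T u v w, P T u v w = T v w u := fun T u v w => rfl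
  refine ⟨ContinuousLinearMap.id ℝ (Tri K) + P + P.comp P, fun T u v w => ?_⟩
  simp only [add_apply, ContinuousLinearMap.coe_comp, Function.comp_apply,
    ContinuousLinearMap.coe_id', id_eq, hP]

def cyc (K : ℕ) : Tri K →L[ℝ] Tri K := (exists_cyc K).choose

theorem cyc_apply (T : Tri K) (u v w : E K) :
    cyc K T u v w = T u v w + T v w u + T w u v := (exists_cyc K).choose_spec T u v w

theorem d2_cyc (b : Ix → E K → Bil K) (i : Ix) (y u v w : E K) :
    d2 b i y u v w = cyc K (fderiv ℝ (b i) y) u v w := by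
  rw [cyc_apply]; rfl

theorem fderiv_smul' {f : E K → ℝ} {b : E K → Bil K} (hf : ContDiff ℝ ∞ f) (hb : ContDiff ℝ ∞ b)
    (y : E K) : fderiv ℝ (fun x => f x • b x) y =
      f y • fderiv ℝ b y + ContinuousLinearMap.smulRightL ℝ (E K) (Bil K) (fderiv ℝ f y) (b y) := by
  have h1 := ((hf.differentiable (by simp)) y).hasFDerivAt
  have h2 := ((hb.differentiable (by simp)) y).hasFDerivAt
  exact (h1.smul h2).fderiv

theorem intg_sq {X : Type} [NormedAddCommGroup X] [NormedSpace ℝ X] {S : E K → X}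
    (hS : Continuous S) {C : Set (E K)} (hC : IsCompact C) (h0 : ∀ y, y ∉ C → S y = 0) :
    Integrable (fun y => ‖S y‖ ^ 2) := by
  apply Continuous.integrable_of_hasCompactSupport (hS.norm.pow 2)
  apply HasCompactSupport.intro hC
  intro y hy
  change ‖S y‖ ^ 2 = 0
  rw [h0 y hy]
  simp


theorem fam1 (K : ℕ) : ∃ c : ℝ, 0 < c ∧ ∀ θ : E K →L[ℝ] ℝ, nb1 (fun w => θ w) ≤ c * ‖θ‖ ^ 2 := by
  obtain ⟨c, hc, h⟩ := family_le (X := E K →L[ℝ] ℝ) (ι := Fin (K + 4))
    (fun p => ContinuousLinearMap.apply ℝ ℝ (bs K p))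
  exact ⟨c, hc, fun θ => h θ⟩

theorem fam2 (K : ℕ) : ∃ c : ℝ, 0 < c ∧ ∀ b : Bil K, nb2 (fun u v => b u v) ≤ c * ‖b‖ ^ 2 := by
  obtain ⟨c, hc, h⟩ := family_le (X := Bil K) (ι := Fin (K + 4) × Fin (K + 4))
    (fun p => (ContinuousLinearMap.apply ℝ ℝ (bs K p.2)).comp
      (ContinuousLinearMap.apply ℝ (E K →L[ℝ] ℝ) (bs K p.1)))
  refine ⟨c, hc, fun b => ?_⟩
  have h1 := h b
  rw [Fintype.sum_prod_type] at h1
  exact h1

theorem fam3 (K : ℕ) : ∃ c : ℝ, 0 < c ∧ ∀ T : Tri K, nb3 (fun u v w => T u v w) ≤ c * ‖T‖ ^ 2 := by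
  obtain ⟨c, hc, h⟩ := family_le (X := Tri K) (ι := Fin (K + 4) × Fin (K + 4) × Fin (K + 4))
    (fun p => ((ContinuousLinearMap.apply ℝ ℝ (bs K p.2.2)).comp
      (ContinuousLinearMap.apply ℝ (E K →L[ℝ] ℝ) (bs K p.2.1))).comp
        (ContinuousLinearMap.apply ℝ (Bil K) (bs K p.1)))
  refine ⟨c, hc, fun b => ?_⟩
  have h1 := h b
  simp only [Fintype.sum_prod_type] at h1
  exact h1

theorem four_sq (a b c d : ℝ) : (a + b + c + d) ^ 2 ≤ 4 * (a ^ 2 + b ^ 2 + c ^ 2 + d ^ 2) := by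
  nlinarith [sq_nonneg (a - b), sq_nonneg (a - c), sq_nonneg (a - d), sq_nonneg (b - c),
    sq_nonneg (b - d), sq_nonneg (c - d)]

end MC

end Pool.Agent.H86.Nco
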