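import Pool.Agent.H86.Nco.Ode

open scoped ContDiff Topology

noncomputable section

namespace Pool.Agent.H86.Nco

open MeasureTheory

namespace HPLaux

variable {E H : Type} [NormedAddCommGroup E] [NormedSpace ℝ E]
    [FiniteDimensional ℝ E] [NormedAddCommGroup H] [NormedSpace ℝ H] [FiniteDimensional ℝ H]

/-- The covariant derivative. -/
def cov (Γ : E → E →L[ℝ] H →L[ℝ] H) (b : E → H) (y : E) : E →L[ℝ] H :=
  fderiv ℝ b y + (Γ y).flip (b y)

/-- The backward parallel transport. -/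
structure IsTr (Γ : E → E →L[ℝ] H →L[ℝ] H) (Q : (E × E) × ℝ → (H →L[ℝ] H)) : Prop where
  smooth : ContDiff ℝ ∞ Q
  zero : ∀ p, Q (p, 0) = ContinuousLinearMap.id ℝ H
  deriv : ∀ p : E × E, ∀ t : ℝ, HasDerivAt (fun τ => Q (p, τ))
    ((Q (p, t)).comp (Γ (p.2 + t • (p.1 - p.2)) (p.1 - p.2))) t

theorem exists_tr (Γ : E → E →L[ℝ] H →L[ℝ] H) (hΓ : ContDiff ℝ ∞ Γ) :
    ∃ Q : (E × E) × ℝ → (H →L[ℝ] H), IsTr Γ Q := by
  obtain ⟨Q, h1, h2, h3⟩ := lode_smooth (P := E × E) (H := H →L[ℝ] H)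
    (fun q => (ContinuousLinearMap.compL ℝ H H H).flip
      (Γ (q.1.2 + q.2 • (q.1.1 - q.1.2)) (q.1.1 - q.1.2)))
    (by
      apply ContDiff.clm_apply contDiff_const
      apply ContDiff.clm_apply
      · exact hΓ.comp (by fun_prop)
      · fun_prop) (fun _ => 0) contDiff_const (fun _ => ContinuousLinearMap.id ℝ H) contDiff_const
  refine ⟨Q, h1, h2, fun p t => ?_⟩
  have := h3 p t
  simpa using this

theorem cont_cov {Γ : E → E →L[ℝ] H →L[ℝ] H} (hΓ : ContDiff ℝ ∞ Γ) {b : E → H}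
    (hb : ContDiff ℝ ∞ b) : Continuous (cov Γ b) := by
  unfold cov
  have h1 : Continuous (fderiv ℝ b) := hb.continuous_fderiv (by simp)
  have h2 : Continuous fun y => (Γ y).flip := 
    (ContinuousLinearMap.flipₗᵢ ℝ E H H).continuous.comp hΓ.continuous
  exact h1.add (h2.clm_apply hb.continuous)

theorem formula {Γ : E → E →L[ℝ] H →L[ℝ] H} (hΓ : ContDiff ℝ ∞ Γ)
    {Q : (E × E) × ℝ → (H →L[ℝ] H)} (hQ : IsTr Γ Q) {b : E → H}
    (hb : ContDiff ℝ ∞ b) (x y : E) :
    Q ((x, y), 1) (b x) - b y =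
      ∫ t in (0:ℝ)..1, Q ((x, y), t) (cov Γ b (y + t • (x - y)) (x - y)) := by
  have hd : ∀ t : ℝ, HasDerivAt (fun τ : ℝ => Q ((x, y), τ) (b (y + τ • (x - y))))
      (Q ((x, y), t) (cov Γ b (y + t • (x - y)) (x - y))) t := by
    intro t
    have h1 := hQ.deriv (x, y) t
    have h2 : HasDerivAt (fun τ : ℝ => b (y + τ • (x - y)))
        (fderiv ℝ b (y + t • (x - y)) (x - y)) t := by
      have h3 : HasFDerivAt b (fderiv ℝ b (y + t • (x - y))) (y + t • (x - y)) :=
        (hb.differentiable (by simp) _).hasFDerivAt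
      have h4 : HasDerivAt (fun τ : ℝ => y + τ • (x - y)) (x - y) t := by
        have := ((hasDerivAt_id t).smul_const (x - y)).const_add y
        simpa using this
      exact h3.comp_hasDerivAt t h4
    have h5 := h1.clm_apply h2
    convert h5 using 1
    simp [cov, map_add, add_comm]
  have hc : Continuous fun t : ℝ => Q ((x, y), t) (cov Γ b (y + t • (x - y)) (x - y)) := by
    have h1 : Continuous fun t : ℝ => Q ((x, y), t) := hQ.smooth.continuous.comp (by fun_prop)
    have h2 : Continuous fun t : ℝ => cov Γ b (y + t • (x - y)) :=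
      (cont_cov hΓ hb).comp (by fun_prop)
    exact h1.clm_apply (h2.clm_apply continuous_const)
  rw [intervalIntegral.integral_eq_sub_of_hasDerivAt (fun t _ => hd t) (hc.intervalIntegrable _ _)]
  simp [hQ.zero]

theorem tr_self {Γ : E → E →L[ℝ] H →L[ℝ] H}
    {Q : (E × E) × ℝ → (H →L[ℝ] H)} (hQ : IsTr Γ Q) (y : E) (t : ℝ) :
    Q ((y, y), t) = ContinuousLinearMap.id ℝ H := by
  have hd : ∀ τ, HasDerivAt (fun τ => Q ((y, y), τ)) 0 τ := fun τ => by
    have := hQ.deriv (y, y) τ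
    simpa using this
  have := is_const_of_deriv_eq_zero (f := fun τ => Q ((y, y), τ))
    (fun τ => (hd τ).differentiableAt) (fun τ => (hd τ).deriv) t 0
  rw [hQ.zero] at this
  exact this

/-- A continuous section invariant under the transport is smooth and parallel. -/
theorem parallel_of_inv {Γ : E → E →L[ℝ] H →L[ℝ] H} (hΓ : ContDiff ℝ ∞ Γ)
    {Q : (E × E) × ℝ → (H →L[ℝ] H)} (hQ : IsTr Γ Q) {a : E → H}
    (ha : ∀ x y, Q ((x, y), 1) (a x) = a y) :
    ContDiff ℝ ∞ a ∧ (∀ y u, fderiv ℝ a y u + Γ y u (a y) = 0) := by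
  have hs : ContDiff ℝ ∞ a := by
    have : a = fun y => Q ((0, y), 1) (a 0) := by
      funext y; rw [ha]
    rw [this]
    exact (hQ.smooth.comp (by fun_prop)).clm_apply contDiff_const
  refine ⟨hs, fun y u => ?_⟩
  have hJ : Continuous fun s : ℝ => ∫ t in (0:ℝ)..1,
      Q ((y + s • u, y), t) (cov Γ a (y + t • (s • u)) u) := by
    apply intervalIntegral.continuous_parametric_intervalIntegral_of_continuous'
    have h1 : Continuous fun q : ℝ × ℝ => Q ((y + q.1 • u, y), q.2) :=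
      hQ.smooth.continuous.comp (by fun_prop)
    have h2 : Continuous fun q : ℝ × ℝ => cov Γ a (y + q.2 • (q.1 • u)) :=
      (cont_cov hΓ hs).comp (by fun_prop)
    exact h1.clm_apply (h2.clm_apply continuous_const)
  have h0 : ∀ s : ℝ, s ≠ 0 → ∫ t in (0:ℝ)..1,
      Q ((y + s • u, y), t) (cov Γ a (y + t • (s • u)) u) = 0 := by
    intro s hs0
    have h1 := formula hΓ hQ hs (y + s • u) y
    rw [ha, sub_self] at h1
    have h2 : ∀ t : ℝ, Q ((y + s • u, y), t) (cov Γ a (y + t • (y + s • u - y)) (y + s • u - y))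
        = s • Q ((y + s • u, y), t) (cov Γ a (y + t • (s • u)) u) := by
      intro t
      simp [add_sub_cancel_left]
    simp only [h2] at h1
    rw [intervalIntegral.integral_smul] at h1
    rcases smul_eq_zero.1 h1.symm with h | h
    · exact absurd h hs0
    · exact h
  have h1 : (∫ t in (0:ℝ)..1, Q ((y + (0:ℝ) • u, y), t) (cov Γ a (y + t • ((0:ℝ) • u)) u)) = 0 := by
    have h3 : Filter.Tendsto (fun s : ℝ => ∫ t in (0:ℝ)..1,
      Q ((y + s • u, y), t) (cov Γ a (y + t • (s • u)) u)) (𝓝[≠] 0) (𝓝 (∫ t in (0:ℝ)..1,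
      Q ((y + (0:ℝ) • u, y), t) (cov Γ a (y + t • ((0:ℝ) • u)) u))) :=
      (hJ.tendsto 0).mono_left nhdsWithin_le_nhds
    have h4 : Filter.Tendsto (fun s : ℝ => ∫ t in (0:ℝ)..1,
      Q ((y + s • u, y), t) (cov Γ a (y + t • (s • u)) u)) (𝓝[≠] 0) (𝓝 0) := by
      apply tendsto_const_nhds.congr'
      filter_upwards [self_mem_nhdsWithin] with s hs
      rw [h0 s hs]
    exact tendsto_nhds_unique h3 h4
  simp only [zero_smul, add_zero, smul_zero, tr_self hQ, ContinuousLinearMap.id_apply] at h1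
  rw [intervalIntegral.integral_const] at h1
  simpa [cov] using h1

end HPLaux

end Pool.Agent.H86.Nco
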