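import Pool.Agent.H86.Nco.HPLA

open scoped ContDiff Topology ENNReal

noncomputable section

namespace Pool.Agent.H86.Nco

open MeasureTheory Set

namespace HPLaux

/-- Jensen for the square. -/
theorem jensen2 {α : Type*} [MeasurableSpace α] (ν : Measure α) (f : α → ℝ≥0∞)
    (hf : AEMeasurable f ν) : (∫⁻ a, f a ∂ν) ^ 2 ≤ ν univ * ∫⁻ a, (f a) ^ 2 ∂ν := by
  have h := ENNReal.lintegral_mul_le_Lp_mul_Lq ν Real.HolderConjugate.two_two
    (f := fun _ => 1) (g := f) aemeasurable_const hf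
  simp only [Pi.mul_apply, one_mul, ENNReal.one_rpow, lintegral_const, one_mul] at h
  calc (∫⁻ a, f a ∂ν) ^ 2 ≤ (ν univ ^ (1 / (2:ℝ)) * (∫⁻ a, f a ^ (2:ℝ) ∂ν) ^ (1 / (2:ℝ))) ^ 2 := by
        gcongr
    _ = ν univ * ∫⁻ a, (f a) ^ 2 ∂ν := by
        rw [mul_pow, ← ENNReal.rpow_natCast, ← ENNReal.rpow_natCast, ← ENNReal.rpow_mul,
          ← ENNReal.rpow_mul]
        norm_num

theorem sq_add_le (a b : ℝ≥0∞) : (a + b) ^ 2 ≤ 4 * (a ^ 2 + b ^ 2) := by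
  have h1 : a + b ≤ 2 * max a b := by
    rw [two_mul]
    exact add_le_add (le_max_left _ _) (le_max_right _ _)
  calc (a + b) ^ 2 ≤ (2 * max a b) ^ 2 := by gcongr
    _ = 4 * (max a b) ^ 2 := by rw [mul_pow]; norm_num
    _ ≤ 4 * (a ^ 2 + b ^ 2) := by
        gcongr
        rcases le_total a b with h | h
        · rw [max_eq_right h]; exact le_add_self
        · rw [max_eq_left h]; exact le_self_add

variable {E H : Type} [NormedAddCommGroup E] [NormedSpace ℝ E]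
    [FiniteDimensional ℝ E] [MeasurableSpace E] [BorelSpace E] (μ : Measure E)
    [μ.IsAddHaarMeasure] [NormedAddCommGroup H] [NormedSpace ℝ H] [FiniteDimensional ℝ H]

theorem lint_comp (g : E → ℝ≥0∞) (hg : Measurable g) (c : ℝ) (hc : 1 / 2 ≤ c) (v : E) :
    ∫⁻ y, g (v + c • y) ∂μ ≤ 2 ^ (Module.finrank ℝ E) * ∫⁻ y, g y ∂μ := by
  have hc0 : c ≠ 0 := by linarith
  have h1 : ∫⁻ y, g (v + c • y) ∂μ = ENNReal.ofReal (abs (c ^ Module.finrank ℝ E)⁻¹) *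
      ∫⁻ y, g y ∂μ := by
    have h2 : ∫⁻ y, g (v + c • y) ∂μ = ∫⁻ z, g (v + z) ∂(Measure.map (c • ·) μ) := by
      rw [lintegral_map (by fun_prop) (by fun_prop)]
    rw [h2, Measure.map_addHaar_smul μ hc0, lintegral_smul_measure, lintegral_add_left_eq_self,
      smul_eq_mul]
  rw [h1]
  gcongr
  rw [show (2 : ℝ≥0∞) = ENNReal.ofReal 2 by simp, ← ENNReal.ofReal_pow (by norm_num)]
  apply ENNReal.ofReal_le_ofReal
  rw [abs_of_nonneg (by positivity), ← inv_pow]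
  apply pow_le_pow_left₀ (by positivity)
  rw [inv_le_comm₀ (by linarith) (by norm_num)]
  linarith

theorem lint_comp' (g : E → ℝ≥0∞) (hg : Measurable g) (t : ℝ) (B : Set E) (hB : MeasurableSet B) :
    ∫⁻ x in B, ∫⁻ y in B, g (y + t • (x - y)) ∂μ ∂μ ≤
      2 ^ (Module.finrank ℝ E) * μ B * ∫⁻ y, g y ∂μ := by
  have key : ∀ c : ℝ, 1 / 2 ≤ c → ∀ v : E, ∫⁻ y in B, g (v + c • y) ∂μ ≤
      2 ^ (Module.finrank ℝ E) * ∫⁻ y, g y ∂μ := fun c hc v =>
    (lintegral_mono' Measure.restrict_le_self le_rfl).trans (lint_comp μ g hg c hc v)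
  have key2 : ∀ c : ℝ, 1 / 2 ≤ c → ∀ w : E → E, ∫⁻ x in B, ∫⁻ y in B, g (w x + c • y) ∂μ ∂μ ≤
      2 ^ (Module.finrank ℝ E) * μ B * ∫⁻ y, g y ∂μ := by
    intro c hc w
    calc ∫⁻ x in B, ∫⁻ y in B, g (w x + c • y) ∂μ ∂μ
        ≤ ∫⁻ _ in B, 2 ^ (Module.finrank ℝ E) * ∫⁻ y, g y ∂μ ∂μ :=
          lintegral_mono fun x => key c hc (w x)
      _ = 2 ^ (Module.finrank ℝ E) * μ B * ∫⁻ y, g y ∂μ := by
          rw [lintegral_const, Measure.restrict_apply MeasurableSet.univ, univ_inter]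
          ring
  rcases le_total t (1 / 2) with ht | ht
  · refine le_trans (le_of_eq ?_) (key2 (1 - t) (by linarith) (fun x => t • x))
    congr 1 with x
    congr 1 with y
    congr 1
    module
  · rw [lintegral_lintegral_swap]
    · refine le_trans (le_of_eq ?_) (key2 t (by linarith) (fun y => (1 - t) • y))
      congr 1 with x
      congr 1 with y
      congr 1
      module
    · apply Measurable.aemeasurable
      exact hg.comp (by fun_prop)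

theorem triple (g : E → ℝ≥0∞) (hg : Measurable g) (R : ℝ) :
    ∫⁻ x in Metric.ball (0 : E) R, ∫⁻ y in Metric.ball (0 : E) R, ∫⁻ t in Ioc (0:ℝ) 1,
      g (y + t • (x - y)) ∂volume ∂μ ∂μ ≤
      2 ^ (Module.finrank ℝ E) * μ (Metric.ball (0 : E) R) *
        ∫⁻ y in Metric.ball (0 : E) R, g y ∂μ := by
  set B := Metric.ball (0 : E) R with hBdef
  have hB : MeasurableSet B := measurableSet_ball
  set g' : E → ℝ≥0∞ := B.indicator g with hg'
  have hg'm : Measurable g' := hg.indicator hB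
  have h1 : ∫⁻ x in B, ∫⁻ y in B, ∫⁻ t in Ioc (0:ℝ) 1, g (y + t • (x - y)) ∂volume ∂μ ∂μ =
      ∫⁻ x in B, ∫⁻ y in B, ∫⁻ t in Ioc (0:ℝ) 1, g' (y + t • (x - y)) ∂volume ∂μ ∂μ := by
    apply setLIntegral_congr_fun hB
    intro x hx
    apply setLIntegral_congr_fun hB
    intro y hy
    apply setLIntegral_congr_fun measurableSet_Ioc
    intro t ht
    have : y + t • (x - y) ∈ B := by
      have h := (convex_ball (0 : E) R) hy hx (show (0:ℝ) ≤ 1 - t by linarith [ht.2])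
        (show (0:ℝ) ≤ t by linarith [ht.1]) (by ring)
      have e : (1 - t) • y + t • x = y + t • (x - y) := by module
      rwa [e] at h
    simp only [hg', indicator_of_mem this]
  rw [h1]
  have hm3 : Measurable fun q : (E × E) × ℝ => g' (q.1.2 + q.2 • (q.1.1 - q.1.2)) :=
    hg'm.comp (by fun_prop)
  have h2 : ∀ x, ∫⁻ y in B, ∫⁻ t in Ioc (0:ℝ) 1, g' (y + t • (x - y)) ∂volume ∂μ =
      ∫⁻ t in Ioc (0:ℝ) 1, ∫⁻ y in B, g' (y + t • (x - y)) ∂μ ∂volume := by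
    intro x
    apply lintegral_lintegral_swap
    apply Measurable.aemeasurable
    exact hm3.comp (g := fun q : (E × E) × ℝ => g' (q.1.2 + q.2 • (q.1.1 - q.1.2)))
      (f := fun p : E × ℝ => ((x, p.1), p.2)) (by fun_prop)
  simp only [h2]
  have h3 : ∫⁻ x in B, ∫⁻ t in Ioc (0:ℝ) 1, ∫⁻ y in B, g' (y + t • (x - y)) ∂μ ∂volume ∂μ =
      ∫⁻ t in Ioc (0:ℝ) 1, ∫⁻ x in B, ∫⁻ y in B, g' (y + t • (x - y)) ∂μ ∂μ ∂volume := by
    apply lintegral_lintegral_swap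
    apply Measurable.aemeasurable
    have hm4 : Measurable fun q : (E × ℝ) × E => g' (q.2 + q.1.2 • (q.1.1 - q.2)) :=
      hg'm.comp (by fun_prop)
    exact hm4.lintegral_prod_right'
  rw [h3]
  calc ∫⁻ t in Ioc (0:ℝ) 1, ∫⁻ x in B, ∫⁻ y in B, g' (y + t • (x - y)) ∂μ ∂μ ∂volume
      ≤ ∫⁻ t in Ioc (0:ℝ) 1, 2 ^ (Module.finrank ℝ E) * μ B * ∫⁻ y, g' y ∂μ ∂volume :=
        lintegral_mono fun t => lint_comp' μ g' hg'm t B hB
    _ = 2 ^ (Module.finrank ℝ E) * μ B * ∫⁻ y in B, g y ∂μ := by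
        rw [lintegral_const, Measure.restrict_apply MeasurableSet.univ, univ_inter,
          Real.volume_Ioc, hg', lintegral_indicator hB]
        simp

/-- A bound for the transport on balls. -/
theorem tr_bound {Γ : E → E →L[ℝ] H →L[ℝ] H}
    {Q : (E × E) × ℝ → (H →L[ℝ] H)} (hQ : IsTr Γ Q) (R : ℝ) :
    ∃ c : ℝ, 0 ≤ c ∧ ∀ x y : E, ∀ t : ℝ, ‖x‖ ≤ R → ‖y‖ ≤ R → 0 ≤ t → t ≤ 1 →
      ‖Q ((x, y), t)‖ ≤ c := by
  have hK : IsCompact (((Metric.closedBall (0 : E) R) ×ˢ (Metric.closedBall (0 : E) R)) ×ˢ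
      (Icc (0:ℝ) 1)) :=
    ((isCompact_closedBall _ _).prod (isCompact_closedBall _ _)).prod isCompact_Icc
  obtain ⟨c, hc⟩ := hK.exists_bound_of_continuousOn (hQ.smooth.continuous.continuousOn)
  refine ⟨max c 0, le_max_right _ _, fun x y t hx hy h0 h1 => ?_⟩
  refine (hc _ ⟨⟨?_, ?_⟩, h0, h1⟩).trans (le_max_left _ _)
  · simpa using hx
  · simpa using hy

/-- The two point estimate. -/
theorem two_point {Γ : E → E →L[ℝ] H →L[ℝ] H} (hΓ : ContDiff ℝ ∞ Γ)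
    {Q : (E × E) × ℝ → (H →L[ℝ] H)} (hQ : IsTr Γ Q) (R : ℝ) :
    ∃ C : ℝ≥0∞, C ≠ ⊤ ∧ ∀ b : E → H, ContDiff ℝ ∞ b →
      ∫⁻ x in Metric.ball (0 : E) R, ∫⁻ y in Metric.ball (0 : E) R,
        ‖Q ((x, y), 1) (b x) - b y‖ₑ ^ 2 ∂μ ∂μ ≤
      C * ∫⁻ y in Metric.ball (0 : E) R, ‖cov Γ b y‖ₑ ^ 2 ∂μ := by
  obtain ⟨c, hc0, hc⟩ := tr_bound hQ R
  set C₁ : ℝ := c * (2 * R) with hC₁
  refine ⟨ENNReal.ofReal C₁ ^ 2 * (2 ^ (Module.finrank ℝ E) * μ (Metric.ball (0 : E) R)),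
    ENNReal.mul_ne_top (by finiteness) (ENNReal.mul_ne_top (by finiteness)
      measure_ball_lt_top.ne), fun b hb => ?_⟩
  have hcc := cont_cov hΓ hb
  have hpt : ∀ x ∈ Metric.ball (0 : E) R, ∀ y ∈ Metric.ball (0 : E) R,
      ‖Q ((x, y), 1) (b x) - b y‖ₑ ^ 2 ≤ ENNReal.ofReal C₁ ^ 2 *
        ∫⁻ t in Ioc (0:ℝ) 1, ‖cov Γ b (y + t • (x - y))‖ₑ ^ 2 := by
    intro x hx y hy
    rw [Metric.mem_ball, dist_zero_right] at hx hy
    have hR : 0 < R := lt_of_le_of_lt (norm_nonneg _) hx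
    rw [formula hΓ hQ hb x y, intervalIntegral.integral_of_le (by norm_num)]
    have h1 : ‖∫ t in Ioc (0:ℝ) 1, Q ((x, y), t) (cov Γ b (y + t • (x - y)) (x - y))‖ₑ ≤
        ENNReal.ofReal C₁ * ∫⁻ t in Ioc (0:ℝ) 1, ‖cov Γ b (y + t • (x - y))‖ₑ := by
      refine (enorm_integral_le_lintegral_enorm _).trans ?_
      rw [← lintegral_const_mul' _ _ ENNReal.ofReal_ne_top]
      apply setLIntegral_mono' measurableSet_Ioc
      intro t ht
      have h2 : ‖Q ((x, y), t) (cov Γ b (y + t • (x - y)) (x - y))‖ ≤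
          C₁ * ‖cov Γ b (y + t • (x - y))‖ := by
        calc ‖Q ((x, y), t) (cov Γ b (y + t • (x - y)) (x - y))‖
            ≤ ‖Q ((x, y), t)‖ * (‖cov Γ b (y + t • (x - y))‖ * ‖x - y‖) :=
              (ContinuousLinearMap.le_opNorm _ _).trans (by
                gcongr; exact ContinuousLinearMap.le_opNorm _ _)
          _ ≤ c * (‖cov Γ b (y + t • (x - y))‖ * (2 * R)) := by
              gcongr
              · exact hc x y t hx.le hy.le ht.1.le ht.2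
              · exact (norm_sub_le _ _).trans (by linarith)
          _ = C₁ * ‖cov Γ b (y + t • (x - y))‖ := by rw [hC₁]; ring
      rw [← ofReal_norm_eq_enorm, ← ofReal_norm_eq_enorm, ← ENNReal.ofReal_mul (by positivity)]
      exact ENNReal.ofReal_le_ofReal h2
    calc ‖∫ t in Ioc (0:ℝ) 1, Q ((x, y), t) (cov Γ b (y + t • (x - y)) (x - y))‖ₑ ^ 2
        ≤ (ENNReal.ofReal C₁ * ∫⁻ t in Ioc (0:ℝ) 1, ‖cov Γ b (y + t • (x - y))‖ₑ) ^ 2 := by
          gcongr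
      _ = ENNReal.ofReal C₁ ^ 2 * (∫⁻ t in Ioc (0:ℝ) 1, ‖cov Γ b (y + t • (x - y))‖ₑ) ^ 2 := by
          rw [mul_pow]
      _ ≤ ENNReal.ofReal C₁ ^ 2 *
        ∫⁻ t in Ioc (0:ℝ) 1, ‖cov Γ b (y + t • (x - y))‖ₑ ^ 2 := by
          gcongr
          refine (jensen2 _ _ ?_).trans ?_
          · apply Continuous.aemeasurable
            exact (hcc.comp (by fun_prop)).enorm
          · simp
  have hgm : Measurable fun y => ‖cov Γ b y‖ₑ ^ 2 := (hcc.enorm.measurable).pow_const 2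
  calc ∫⁻ x in Metric.ball (0 : E) R, ∫⁻ y in Metric.ball (0 : E) R,
        ‖Q ((x, y), 1) (b x) - b y‖ₑ ^ 2 ∂μ ∂μ
      ≤ ∫⁻ x in Metric.ball (0 : E) R, ∫⁻ y in Metric.ball (0 : E) R, ENNReal.ofReal C₁ ^ 2 *
        ∫⁻ t in Ioc (0:ℝ) 1, ‖cov Γ b (y + t • (x - y))‖ₑ ^ 2 ∂volume ∂μ ∂μ := by
        apply setLIntegral_mono' measurableSet_ball
        intro x hx
        apply setLIntegral_mono' measurableSet_ball
        intro y hy
        exact hpt x hx y hy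
    _ = ENNReal.ofReal C₁ ^ 2 * ∫⁻ x in Metric.ball (0 : E) R, ∫⁻ y in Metric.ball (0 : E) R,
        ∫⁻ t in Ioc (0:ℝ) 1, ‖cov Γ b (y + t • (x - y))‖ₑ ^ 2 ∂volume ∂μ ∂μ := by
        rw [← lintegral_const_mul' _ _ (by finiteness)]
        congr 1 with x
        rw [← lintegral_const_mul' _ _ (by finiteness)]
    _ ≤ _ := by
        rw [mul_assoc]
        gcongr
        exact triple μ _ hgm R

end HPLaux

end Pool.Agent.H86.Nco
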