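import Pool.Agent.H86.Nco.HPLB

open scoped ContDiff Topology ENNReal

noncomputable section

namespace Pool.Agent.H86.Nco

open MeasureTheory Set

namespace HPLaux

variable {E H : Type} [NormedAddCommGroup E] [NormedSpace ℝ E]
    [FiniteDimensional ℝ E] [MeasurableSpace E] [BorelSpace E] (μ : Measure E)
    [μ.IsAddHaarMeasure] [NormedAddCommGroup H] [NormedSpace ℝ H] [FiniteDimensional ℝ H]

/-- The unit ball. -/
abbrev KK (E : Type) [NormedAddCommGroup E] : Set E := Metric.closedBall (0 : E) 1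

/-- The average of the transported section. -/
def av (Q : (E × E) × ℝ → (H →L[ℝ] H)) (b : E → H) (y : E) : H :=
  (μ.real (KK E))⁻¹ • ∫ x in KK E, Q ((x, y), 1) (b x) ∂μ

theorem KK_pos : 0 < μ.real (KK E) := by
  have h1 : 0 < μ (KK E) := Metric.measure_closedBall_pos μ _ one_pos
  have h2 : μ (KK E) ≠ ⊤ := measure_closedBall_lt_top.ne
  exact ENNReal.toReal_pos h1.ne' h2

theorem av_cont {Γ : E → E →L[ℝ] H →L[ℝ] H}
    {Q : (E × E) × ℝ → (H →L[ℝ] H)} (hQ : IsTr Γ Q) {b : E → H} (hb : Continuous b) :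
    Continuous (av μ Q b) := by
  apply Continuous.const_smul
  apply continuous_parametric_integral_of_continuous _ (isCompact_closedBall _ _)
  have h1 : Continuous fun p : E × E => Q ((p.2, p.1), 1) := hQ.smooth.continuous.comp (by fun_prop)
  exact h1.clm_apply (hb.comp continuous_snd)

theorem integrable_tr {Γ : E → E →L[ℝ] H →L[ℝ] H}
    {Q : (E × E) × ℝ → (H →L[ℝ] H)} (hQ : IsTr Γ Q) {b : E → H} (hb : Continuous b) (y : E) :
    IntegrableOn (fun x => Q ((x, y), 1) (b x)) (KK E) μ := by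
  have h1 : Continuous fun x : E => Q ((x, y), 1) := hQ.smooth.continuous.comp (by fun_prop)
  exact (h1.clm_apply hb).continuousOn.integrableOn_compact (isCompact_closedBall _ _)

theorem enorm_smul_int_le (f : E → H) (hf : AEStronglyMeasurable f (μ.restrict (KK E))) :
    ‖(μ.real (KK E))⁻¹ • ∫ x in KK E, f x ∂μ‖ₑ ^ 2 ≤
      (μ (KK E))⁻¹ * ∫⁻ x in KK E, ‖f x‖ₑ ^ 2 ∂μ := by
  have h1 : 0 < μ (KK E) := Metric.measure_closedBall_pos μ _ one_pos
  have h2 : μ (KK E) ≠ ⊤ := measure_closedBall_lt_top.ne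
  have e1 : ‖(μ.real (KK E))⁻¹‖ₑ = (μ (KK E))⁻¹ := by
    rw [← ofReal_norm, Real.norm_of_nonneg (inv_nonneg.2 (KK_pos μ).le),
      ENNReal.ofReal_inv_of_pos (KK_pos μ), Measure.real, ENNReal.ofReal_toReal h2]
  rw [enorm_smul, e1, mul_pow]
  calc (μ (KK E))⁻¹ ^ 2 * ‖∫ x in KK E, f x ∂μ‖ₑ ^ 2
      ≤ (μ (KK E))⁻¹ ^ 2 * (∫⁻ x in KK E, ‖f x‖ₑ ∂μ) ^ 2 := by
        gcongr
        exact enorm_integral_le_lintegral_enorm _
    _ ≤ (μ (KK E))⁻¹ ^ 2 * (μ (KK E) * ∫⁻ x in KK E, ‖f x‖ₑ ^ 2 ∂μ) := by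
        gcongr
        refine (jensen2 _ _ hf.enorm).trans ?_
        simp
    _ = (μ (KK E))⁻¹ * ∫⁻ x in KK E, ‖f x‖ₑ ^ 2 ∂μ := by
        rw [← mul_assoc, sq, mul_assoc (μ (KK E))⁻¹, ENNReal.inv_mul_cancel h1.ne' h2, mul_one]

theorem av_sub_le {Γ : E → E →L[ℝ] H →L[ℝ] H}
    {Q : (E × E) × ℝ → (H →L[ℝ] H)} (hQ : IsTr Γ Q) (R : ℝ) :
    ∃ C : ℝ≥0∞, C ≠ ⊤ ∧ ∀ b b' : E → H, Continuous b → Continuous b' → ∀ y, ‖y‖ ≤ R →
      ‖av μ Q b y - av μ Q b' y‖ₑ ^ 2 ≤ C * ∫⁻ x in KK E, ‖b x - b' x‖ₑ ^ 2 ∂μ := by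
  obtain ⟨c, hc0, hc⟩ := tr_bound hQ (max R 1)
  have h1 : 0 < μ (KK E) := Metric.measure_closedBall_pos μ _ one_pos
  refine ⟨(μ (KK E))⁻¹ * ENNReal.ofReal c ^ 2, ENNReal.mul_ne_top (ENNReal.inv_ne_top.2 h1.ne')
    (by finiteness), fun b b' hb hb' y hy => ?_⟩
  have e : av μ Q b y - av μ Q b' y =
      (μ.real (KK E))⁻¹ • ∫ x in KK E, Q ((x, y), 1) (b x - b' x) ∂μ := by
    unfold av
    rw [← smul_sub, ← integral_sub (integrable_tr μ hQ hb y) (integrable_tr μ hQ hb' y)]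
    simp only [map_sub]
  have hcont : Continuous fun x : E => Q ((x, y), 1) (b x - b' x) := by
    have h1 : Continuous fun x : E => Q ((x, y), 1) := hQ.smooth.continuous.comp (by fun_prop)
    exact h1.clm_apply (hb.sub hb')
  rw [e]
  refine (enorm_smul_int_le μ _ hcont.aestronglyMeasurable).trans ?_
  rw [mul_assoc]
  gcongr
  rw [← lintegral_const_mul' _ _ (by finiteness)]
  apply setLIntegral_mono' measurableSet_closedBall
  intro x hx
  rw [← mul_pow]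
  gcongr
  rw [← ofReal_norm, ← ofReal_norm, ← ENNReal.ofReal_mul hc0]
  apply ENNReal.ofReal_le_ofReal
  refine (ContinuousLinearMap.le_opNorm _ _).trans ?_
  gcongr
  apply hc x y 1 ((mem_closedBall_zero_iff.1 hx).trans (le_max_right _ _))
    (hy.trans (le_max_left _ _)) zero_le_one le_rfl

theorem av_near {Γ : E → E →L[ℝ] H →L[ℝ] H} (hΓ : ContDiff ℝ ∞ Γ)
    {Q : (E × E) × ℝ → (H →L[ℝ] H)} (hQ : IsTr Γ Q) (R : ℝ) (hR : 1 < R) :
    ∃ C : ℝ≥0∞, C ≠ ⊤ ∧ ∀ b : E → H, ContDiff ℝ ∞ b →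
      ∫⁻ y in Metric.ball (0 : E) R, ‖b y - av μ Q b y‖ₑ ^ 2 ∂μ ≤
      C * ∫⁻ y in Metric.ball (0 : E) R, ‖cov Γ b y‖ₑ ^ 2 ∂μ := by
  obtain ⟨C, hC, h⟩ := two_point μ hΓ hQ R
  have h1 : 0 < μ (KK E) := Metric.measure_closedBall_pos μ _ one_pos
  refine ⟨(μ (KK E))⁻¹ * C, ENNReal.mul_ne_top (ENNReal.inv_ne_top.2 h1.ne') hC,
    fun b hb => ?_⟩
  have hcont : Continuous fun p : E × E => Q ((p.1, p.2), 1) (b p.1) - b p.2 := by
    have h1 : Continuous fun p : E × E => Q ((p.1, p.2), 1) :=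
      hQ.smooth.continuous.comp (by fun_prop)
    exact (h1.clm_apply (hb.continuous.comp continuous_fst)).sub
      (hb.continuous.comp continuous_snd)
  have hpt : ∀ y, ‖b y - av μ Q b y‖ₑ ^ 2 ≤
      (μ (KK E))⁻¹ * ∫⁻ x in KK E, ‖Q ((x, y), 1) (b x) - b y‖ₑ ^ 2 ∂μ := by
    intro y
    have e : av μ Q b y - b y =
        (μ.real (KK E))⁻¹ • ∫ x in KK E, (Q ((x, y), 1) (b x) - b y) ∂μ := by
      unfold av
      rw [integral_sub (integrable_tr μ hQ hb.continuous y)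
        (continuous_const.continuousOn.integrableOn_compact (isCompact_closedBall _ _)),
        smul_sub]
      congr 1
      rw [integral_const, measureReal_restrict_apply_univ, smul_smul,
        inv_mul_cancel₀ (KK_pos μ).ne', one_smul]
    rw [← enorm_neg, neg_sub, e]
    refine enorm_smul_int_le μ _ ?_
    exact (hcont.comp (g := fun p : E × E => Q ((p.1, p.2), 1) (b p.1) - b p.2)
      (f := fun x => (x, y)) (by fun_prop)).aestronglyMeasurable
  calc ∫⁻ y in Metric.ball (0 : E) R, ‖b y - av μ Q b y‖ₑ ^ 2 ∂μ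
      ≤ ∫⁻ y in Metric.ball (0 : E) R, (μ (KK E))⁻¹ * ∫⁻ x in KK E,
        ‖Q ((x, y), 1) (b x) - b y‖ₑ ^ 2 ∂μ ∂μ := lintegral_mono hpt
    _ = (μ (KK E))⁻¹ * ∫⁻ y in Metric.ball (0 : E) R, ∫⁻ x in KK E,
        ‖Q ((x, y), 1) (b x) - b y‖ₑ ^ 2 ∂μ ∂μ := by
        rw [lintegral_const_mul' _ _ (ENNReal.inv_ne_top.2 h1.ne')]
    _ = (μ (KK E))⁻¹ * ∫⁻ x in KK E, ∫⁻ y in Metric.ball (0 : E) R,
        ‖Q ((x, y), 1) (b x) - b y‖ₑ ^ 2 ∂μ ∂μ := by
        rw [lintegral_lintegral_swap]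
        apply Measurable.aemeasurable
        exact ((hcont.comp (g := fun p : E × E => Q ((p.1, p.2), 1) (b p.1) - b p.2)
          (f := fun q : E × E => (q.2, q.1)) (by fun_prop)).enorm.measurable).pow_const 2
    _ ≤ (μ (KK E))⁻¹ * ∫⁻ x in Metric.ball (0 : E) R, ∫⁻ y in Metric.ball (0 : E) R,
        ‖Q ((x, y), 1) (b x) - b y‖ₑ ^ 2 ∂μ ∂μ := by
        gcongr
        exact Metric.closedBall_subset_ball hR
    _ ≤ (μ (KK E))⁻¹ * C * ∫⁻ y in Metric.ball (0 : E) R, ‖cov Γ b y‖ₑ ^ 2 ∂μ := by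
        rw [mul_assoc]
        gcongr
        exact h b hb

/-- Almost everywhere invariance of a continuous section implies invariance. -/
theorem inv_of_zero {Γ : E → E →L[ℝ] H →L[ℝ] H}
    {Q : (E × E) × ℝ → (H →L[ℝ] H)} (hQ : IsTr Γ Q) {a : E → H} (ha : Continuous a)
    (h : ∀ R : ℝ, 1 < R → ∫⁻ x in Metric.ball (0 : E) R, ∫⁻ y in Metric.ball (0 : E) R,
        ‖Q ((x, y), 1) (a x) - a y‖ₑ ^ 2 ∂μ ∂μ = 0) (x y : E) : Q ((x, y), 1) (a x) = a y := by
  set R : ℝ := ‖x‖ + ‖y‖ + 2 with hRdef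
  have hR : 1 < R := by have := norm_nonneg x; have := norm_nonneg y; linarith
  have hx : x ∈ Metric.ball (0 : E) R := by
    rw [mem_ball_zero_iff]; have := norm_nonneg y; linarith
  have hy : y ∈ Metric.ball (0 : E) R := by
    rw [mem_ball_zero_iff]; have := norm_nonneg x; linarith
  have hcont : Continuous fun p : E × E => Q ((p.1, p.2), 1) (a p.1) - a p.2 := by
    have h1 : Continuous fun p : E × E => Q ((p.1, p.2), 1) :=
      hQ.smooth.continuous.comp (by fun_prop)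
    exact (h1.clm_apply (ha.comp continuous_fst)).sub (ha.comp continuous_snd)
  have hm : Measurable fun p : E × E => ‖Q ((p.1, p.2), 1) (a p.1) - a p.2‖ₑ ^ 2 :=
    hcont.enorm.measurable.pow_const 2
  have h0 := h R hR
  rw [lintegral_eq_zero_iff (hm.lintegral_prod_right')] at h0
  have h1 : ∀ᵐ x' ∂(μ.restrict (Metric.ball (0 : E) R)), Q ((x', y), 1) (a x') - a y = 0 := by
    filter_upwards [h0] with x' hx'
    have hm' : Measurable fun y : E => ‖Q ((x', y), 1) (a x') - a y‖ₑ ^ 2 :=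
      hm.comp (g := fun p : E × E => ‖Q ((p.1, p.2), 1) (a p.1) - a p.2‖ₑ ^ 2)
        (f := fun y => (x', y)) (by fun_prop)
    have hx'' : ∫⁻ y in Metric.ball (0 : E) R, ‖Q ((x', y), 1) (a x') - a y‖ₑ ^ 2 ∂μ = 0 := hx'
    rw [lintegral_eq_zero_iff hm'] at hx''
    have h2 : (fun y => Q ((x', y), 1) (a x') - a y) =ᵐ[μ.restrict (Metric.ball (0 : E) R)]
        fun _ => (0 : H) := by
      filter_upwards [hx''] with z hz
      have hz' : ‖Q ((x', z), 1) (a x') - a z‖ₑ ^ 2 = 0 := hz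
      simpa using hz'
    exact Measure.eqOn_open_of_ae_eq h2 Metric.isOpen_ball
      ((hcont.comp (g := fun p : E × E => Q ((p.1, p.2), 1) (a p.1) - a p.2)
        (f := fun y => (x', y)) (by fun_prop)).continuousOn) continuousOn_const hy
  have h2 := Measure.eqOn_open_of_ae_eq (g := fun _ => (0 : H)) h1 Metric.isOpen_ball
      ((hcont.comp (g := fun p : E × E => Q ((p.1, p.2), 1) (a p.1) - a p.2)
        (f := fun x => (x, y)) (by fun_prop)).continuousOn) continuousOn_const hx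
  exact sub_eq_zero.1 h2

end HPLaux

end Pool.Agent.H86.Nco
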