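import Pool.Agent.H86.Nco.Base

/-!
# Periods of closed forms: definitions

`cext ρ b` is the pull back of the form `b` on `M` by the retraction `ρ`, a form on an open subset of
the ambient space.
-/

open scoped Manifold ContDiff Bundle Topology

noncomputable section

namespace Pool.Agent.H86.Nco

open Pool.Agent.H86.Anco MeasureTheory

set_option maxSynthPendingDepth 3

variable {K : ℕ}

/-- a smooth retraction onto `M` -/
structure IsRet (U : Set (V K)) (ρ : V K → V K) : Prop where
  isOpen : IsOpen U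
  sub : carrier K ⊆ U
  smooth : ContDiffOn ℝ ∞ ρ U
  maps : ∀ p ∈ U, ρ p ∈ carrier K
  fix : ∀ p ∈ carrier K, ρ p = p

/-- the pull back of `b` by `ρ` -/
def cext (ρ : V K → V K) (b : Ix → E K → Bil K) (p : V K) : V K →L[ℝ] V K →L[ℝ] ℝ :=
  (b (idx (ρ p)) (Cor (idx (ρ p)) (ρ p))).bilinearComp
    ((fderiv ℝ (Cor (idx (ρ p))) (ρ p)).comp (fderiv ℝ ρ p))
    ((fderiv ℝ (Cor (idx (ρ p))) (ρ p)).comp (fderiv ℝ ρ p))

end Pool.Agent.H86.Nco
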