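import Pool.Agent.H86.Nco.Base

/-!
# Module STOKES: angles, Green's formula on the unit square, the divergence theorem on the cube

`exists_angle`: `θ t = ∫ τ in 0..t, Im (conj (u τ) * u' τ)`; then `u t * exp (-i θ t)` has derivative
`0` because `conj u * u'` is purely imaginary (`‖u‖ = 1`), and it is `1` at `0`.
`green` and `cube`: Fubini and the fundamental theorem of calculus (for `cube` see also
`MeasureTheory.integral_divergence_of_hasFDerivAt...`; three applications of Fubini and the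
fundamental theorem are enough, everything is continuous).
`tri_cube`: `cube` with `a = tri H H₂ H₃`, `b = - tri H H₁ H₃`, `c = tri H H₁ H₂`, where
`H_k = ∂_k H`; the divergence is `3 tri H₁ H₂ H₃ + (terms with second derivatives, which cancel)`, and
`tri H₁ H₂ H₃ = 0` because the three vectors are orthogonal to `H ≠ 0` in a three dimensional space.
-/

open scoped Manifold ContDiff Bundle Topology

noncomputable section

namespace Pool.Agent.H86.Nco

theorem exists_angle (u : ℝ → ℂ) (hu : ContDiff ℝ ∞ u) (h1 : ∀ t, ‖u t‖ = 1) (h0 : u 0 = 1)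
    (h2 : u 1 = 1) : ∃ (θ : ℝ → ℝ) (e : ℤ), ContDiff ℝ ∞ θ ∧
      (∀ t, u t = Complex.exp (θ t * Complex.I)) ∧ θ 0 = 0 ∧ θ 1 = 2 * Real.pi * e := by
  classical
  have hu' : ContDiff ℝ ∞ (deriv u) := (contDiff_infty_iff_deriv.1 hu).2
  have hud : Differentiable ℝ u := (contDiff_infty_iff_deriv.1 hu).1
  let f : ℝ → ℝ := fun t => (u t).re * (deriv u t).im - (u t).im * (deriv u t).re
  have hre : ContDiff ℝ ∞ (fun t => (u t).re) := Complex.reCLM.contDiff.comp hu
  have him : ContDiff ℝ ∞ (fun t => (u t).im) := Complex.imCLM.contDiff.comp hu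
  have hre' : ContDiff ℝ ∞ (fun t => (deriv u t).re) := Complex.reCLM.contDiff.comp hu'
  have him' : ContDiff ℝ ∞ (fun t => (deriv u t).im) := Complex.imCLM.contDiff.comp hu'
  have hf : ContDiff ℝ ∞ f := (hre.mul him').sub (him.mul hre')
  let θ : ℝ → ℝ := fun t => ∫ τ in (0 : ℝ)..t, f τ
  have hθd : ∀ t, HasDerivAt θ (f t) t := fun t => by
    have := intervalIntegral.integral_hasDerivAt_right
      (hf.continuous.intervalIntegrable 0 t)
      (hf.continuous.stronglyMeasurableAtFilter _ _) (hf.continuous.continuousAt (x := t))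
    exact this
  have hθs : ContDiff ℝ ∞ θ := by
    rw [contDiff_infty_iff_deriv]
    refine ⟨fun t => (hθd t).differentiableAt, ?_⟩
    have : deriv θ = f := funext fun t => (hθd t).deriv
    rw [this]
    exact hf
  -- the real part of `conj u * u'` vanishes
  have hort : ∀ t, (u t).re * (deriv u t).re + (u t).im * (deriv u t).im = 0 := by
    intro t
    have hd := (hud t).hasDerivAt
    have hdr : HasDerivAt (fun t => (u t).re) (deriv u t).re t :=
      Complex.reCLM.hasFDerivAt.comp_hasDerivAt t hd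
    have hdi : HasDerivAt (fun t => (u t).im) (deriv u t).im t :=
      Complex.imCLM.hasFDerivAt.comp_hasDerivAt t hd
    have e1 := (hdr.mul hdr).add (hdi.mul hdi)
    have e2 : (fun t => (u t).re * (u t).re + (u t).im * (u t).im) = fun _ => (1 : ℝ) := by
      funext s
      have h := h1 s
      have h' : ‖u s‖ ^ 2 = 1 := by rw [h]; norm_num
      rw [← Complex.normSq_eq_norm_sq, Complex.normSq_apply] at h'
      exact h'
    have e3 : HasDerivAt (fun t => (u t).re * (u t).re + (u t).im * (u t).im) 0 t := by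
      rw [e2]; exact hasDerivAt_const _ _
    have e4 := e1.unique e3
    linarith
  have hkey : ∀ t, deriv u t = (f t : ℂ) * Complex.I * u t := by
    intro t
    have h := h1 t
    have h' : ‖u t‖ ^ 2 = 1 := by rw [h]; norm_num
    rw [← Complex.normSq_eq_norm_sq, Complex.normSq_apply] at h'
    have ho := hort t
    apply Complex.ext
    · simp only [Complex.mul_re, Complex.ofReal_re, Complex.I_re, Complex.ofReal_im, Complex.I_im,
        Complex.mul_im, f]
      linear_combination (-(deriv u t).re) * h' + (u t).re * ho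
    · simp only [Complex.mul_re, Complex.ofReal_re, Complex.I_re, Complex.ofReal_im, Complex.I_im,
        Complex.mul_im, f]
      linear_combination (-(deriv u t).im) * h' + (u t).im * ho
  have hconst : ∀ t, u t * Complex.exp (-(θ t * Complex.I)) = 1 := by
    have hd : ∀ t, HasDerivAt (fun t => u t * Complex.exp (-(θ t * Complex.I))) 0 t := by
      intro t
      have a1 := (hud t).hasDerivAt
      have a2 : HasDerivAt (fun t => ((θ t : ℝ) : ℂ)) (f t : ℂ) t := (hθd t).ofReal_comp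
      have a3 := ((a2.mul_const Complex.I).neg).cexp
      have a4 := a1.mul a3
      refine a4.congr_deriv ?_
      rw [hkey t]
      ring
    intro t
    have hc := is_const_of_deriv_eq_zero (fun t => (hd t).differentiableAt)
      (fun t => (hd t).deriv) t 0
    have hθ0 : θ 0 = 0 := by simp [θ]
    simp only [hθ0, h0] at hc
    simpa using hc
  have hexp : ∀ t, u t = Complex.exp (θ t * Complex.I) := by
    intro t
    have := hconst t
    rw [Complex.exp_neg] at this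
    field_simp at this
    exact this
  have h3 : Complex.exp (θ 1 * Complex.I) = 1 := by rw [← hexp, h2]
  obtain ⟨n, hn⟩ := Complex.exp_eq_one_iff.1 h3
  refine ⟨θ, n, hθs, hexp, by simp [θ], ?_⟩
  have h4 : (θ 1 : ℂ) = (n : ℂ) * (2 * Real.pi) := by
    have : (θ 1 : ℂ) * Complex.I = ((n : ℂ) * (2 * Real.pi)) * Complex.I := by
      rw [hn]; ring
    exact mul_right_cancel₀ Complex.I_ne_zero this
  have h5 : ((θ 1 : ℝ) : ℂ) = ((2 * Real.pi * n : ℝ) : ℂ) := by
    rw [h4]; push_cast; ring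
  exact_mod_cast h5

/-- Continuous functions: exchange of interval integrals. -/
theorem swap2 (F : ℝ → ℝ → ℝ) (hF : Continuous (Function.uncurry F)) (a b c d : ℝ) :
    ∫ x in a..b, ∫ y in c..d, F x y = ∫ y in c..d, ∫ x in a..b, F x y := by
  apply MeasureTheory.intervalIntegral_intervalIntegral_swap
  have hc : IsCompact (Set.uIcc a b ×ˢ Set.uIcc c d) := isCompact_uIcc.prod isCompact_uIcc
  exact (hF.continuousOn.integrableOn_compact hc).mono_set
    (Set.prod_mono Set.uIoc_subset_uIcc Set.uIoc_subset_uIcc)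

theorem cont_param {X : Type*} [TopologicalSpace X] (F : X → ℝ → ℝ)
    (hF : Continuous (Function.uncurry F)) (a b : ℝ) :
    Continuous fun x => ∫ t in a..b, F x t :=
  intervalIntegral.continuous_parametric_intervalIntegral_of_continuous' hF a b

theorem green (P Q : ℝ × ℝ → ℝ) (hP : ContDiff ℝ 1 P) (hQ : ContDiff ℝ 1 Q) :
    ∫ x in (0 : ℝ)..1, ∫ y in (0 : ℝ)..1,
      (fderiv ℝ Q (x, y) (1, 0) - fderiv ℝ P (x, y) (0, 1)) =
    (∫ t in (0 : ℝ)..1, (Q (1, t) - Q (0, t))) - ∫ t in (0 : ℝ)..1, (P (t, 1) - P (t, 0)) := by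
  have cQ : Continuous (fun x => fderiv ℝ Q x (1, 0)) :=
    (hQ.continuous_fderiv one_ne_zero).clm_apply continuous_const
  have cP : Continuous (fun x => fderiv ℝ P x (0, 1)) :=
    (hP.continuous_fderiv one_ne_zero).clm_apply continuous_const
  have h := MeasureTheory.integral2_divergence_prod_of_hasFDerivAt Q (fun x => - P x)
    (fun x => fderiv ℝ Q x) (fun x => - fderiv ℝ P x) 0 0 1 1
    hQ.continuous.continuousOn hP.continuous.neg.continuousOn
    (fun x _ => (hQ.differentiable one_ne_zero x).hasFDerivAt)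
    (fun x _ => (hP.differentiable one_ne_zero x).hasFDerivAt.neg) (by
      have hcc : Continuous fun x => fderiv ℝ Q x (1, 0) + (- fderiv ℝ P x) (0, 1) := by
        exact cQ.add cP.neg
      exact hcc.continuousOn.integrableOn_compact (isCompact_uIcc.prod isCompact_uIcc))
  have e1 : ∀ x y : ℝ, fderiv ℝ Q (x, y) (1, 0) + (- fderiv ℝ P (x, y)) (0, 1)
      = fderiv ℝ Q (x, y) (1, 0) - fderiv ℝ P (x, y) (0, 1) := fun x y => by
    simp [sub_eq_add_neg]
  simp only [e1] at h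
  rw [h]
  have i1 : IntervalIntegrable (fun t : ℝ => Q (1, t)) MeasureTheory.volume 0 1 :=
    (hQ.continuous.comp (by fun_prop : Continuous fun t : ℝ => ((1 : ℝ), t))).intervalIntegrable _ _
  have i2 : IntervalIntegrable (fun t : ℝ => Q (0, t)) MeasureTheory.volume 0 1 :=
    (hQ.continuous.comp (by fun_prop : Continuous fun t : ℝ => ((0 : ℝ), t))).intervalIntegrable _ _
  have i3 : IntervalIntegrable (fun t : ℝ => P (t, 1)) MeasureTheory.volume 0 1 :=
    (hP.continuous.comp (by fun_prop : Continuous fun t : ℝ => (t, (1 : ℝ)))).intervalIntegrable _ _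
  have i4 : IntervalIntegrable (fun t : ℝ => P (t, 0)) MeasureTheory.volume 0 1 :=
    (hP.continuous.comp (by fun_prop : Continuous fun t : ℝ => (t, (0 : ℝ)))).intervalIntegrable _ _
  rw [intervalIntegral.integral_sub i1 i2, intervalIntegral.integral_sub i3 i4,
    intervalIntegral.integral_neg, intervalIntegral.integral_neg]
  ring

theorem add3 (f g h : ℝ → ℝ) (hf : IntervalIntegrable f MeasureTheory.volume 0 1)
    (hg : IntervalIntegrable g MeasureTheory.volume 0 1)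
    (hh : IntervalIntegrable h MeasureTheory.volume 0 1) :
    (∫ x in (0 : ℝ)..1, f x) + (∫ x in (0 : ℝ)..1, g x) + (∫ x in (0 : ℝ)..1, h x)
      = ∫ x in (0 : ℝ)..1, (f x + g x + h x) := by
  have e1 := intervalIntegral.integral_add hf hg
  have e2 := intervalIntegral.integral_add (hf.add hg) hh
  rw [← e1]
  exact e2.symm

/-- the fundamental theorem of calculus along a coordinate line -/
theorem ftc_line {W : Type*} [NormedAddCommGroup W] [NormedSpace ℝ W] (a : W → ℝ)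
    (ha : ContDiff ℝ 1 a) (l : ℝ → W) (v : W) (hl : ∀ t, HasDerivAt l v t) :
    ∫ t in (0 : ℝ)..1, fderiv ℝ a (l t) v = a (l 1) - a (l 0) := by
  have hlc : Continuous l := continuous_iff_continuousAt.2 fun t => (hl t).continuousAt
  refine intervalIntegral.integral_eq_sub_of_hasDerivAt (f := fun t => a (l t)) (fun t _ => ?_) ?_
  · exact ((ha.differentiable one_ne_zero (l t)).hasFDerivAt).comp_hasDerivAt t (hl t)
  · exact (((ha.continuous_fderiv one_ne_zero).comp hlc).clm_apply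
      continuous_const).intervalIntegrable _ _

theorem cube (a b c : ℝ × ℝ × ℝ → ℝ) (ha : ContDiff ℝ 1 a) (hb : ContDiff ℝ 1 b)
    (hc : ContDiff ℝ 1 c) (h : ∀ x, fderiv ℝ a x (1, 0, 0) + fderiv ℝ b x (0, 1, 0)
      + fderiv ℝ c x (0, 0, 1) = 0) :
    (∫ y in (0 : ℝ)..1, ∫ z in (0 : ℝ)..1, (a (1, y, z) - a (0, y, z)))
      + (∫ x in (0 : ℝ)..1, ∫ z in (0 : ℝ)..1, (b (x, 1, z) - b (x, 0, z)))
      + (∫ x in (0 : ℝ)..1, ∫ y in (0 : ℝ)..1, (c (x, y, 1) - c (x, y, 0))) = 0 := by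
  have cA : Continuous (fun x => fderiv ℝ a x (1, 0, 0)) :=
    (ha.continuous_fderiv one_ne_zero).clm_apply continuous_const
  have cB : Continuous (fun x => fderiv ℝ b x (0, 1, 0)) :=
    (hb.continuous_fderiv one_ne_zero).clm_apply continuous_const
  have cC : Continuous (fun x => fderiv ℝ c x (0, 0, 1)) :=
    (hc.continuous_fderiv one_ne_zero).clm_apply continuous_const
  have fA : ∀ y z : ℝ, ∫ x in (0 : ℝ)..1, fderiv ℝ a (x, y, z) (1, 0, 0)
      = a (1, y, z) - a (0, y, z) := fun y z =>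
    ftc_line a ha (fun x => (x, y, z)) (1, 0, 0) fun t =>
      (hasDerivAt_id t).prodMk (hasDerivAt_const _ _)
  have fB : ∀ x z : ℝ, ∫ y in (0 : ℝ)..1, fderiv ℝ b (x, y, z) (0, 1, 0)
      = b (x, 1, z) - b (x, 0, z) := fun x z =>
    ftc_line b hb (fun y => (x, y, z)) (0, 1, 0) fun t =>
      (hasDerivAt_const _ _).prodMk ((hasDerivAt_id t).prodMk (hasDerivAt_const _ _))
  have fC : ∀ x y : ℝ, ∫ z in (0 : ℝ)..1, fderiv ℝ c (x, y, z) (0, 0, 1)
      = c (x, y, 1) - c (x, y, 0) := fun x y =>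
    ftc_line c hc (fun z => (x, y, z)) (0, 0, 1) fun t =>
      (hasDerivAt_const _ _).prodMk ((hasDerivAt_const _ _).prodMk (hasDerivAt_id t))
  simp only [← fA, ← fB, ← fC]
  -- bring everything to the order `x, y, z`
  have sA : ∫ y in (0 : ℝ)..1, ∫ z in (0 : ℝ)..1, ∫ x in (0 : ℝ)..1,
        fderiv ℝ a (x, y, z) (1, 0, 0)
      = ∫ x in (0 : ℝ)..1, ∫ y in (0 : ℝ)..1, ∫ z in (0 : ℝ)..1,
        fderiv ℝ a (x, y, z) (1, 0, 0) := by
    have e1 : ∀ y : ℝ, ∫ z in (0 : ℝ)..1, ∫ x in (0 : ℝ)..1, fderiv ℝ a (x, y, z) (1, 0, 0)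
        = ∫ x in (0 : ℝ)..1, ∫ z in (0 : ℝ)..1, fderiv ℝ a (x, y, z) (1, 0, 0) := fun y =>
      swap2 (fun z x => fderiv ℝ a (x, y, z) (1, 0, 0))
        (cA.comp (by fun_prop : Continuous fun p : ℝ × ℝ => (p.2, y, p.1))) 0 1 0 1
    simp only [e1]
    refine swap2 (fun y x => ∫ z in (0 : ℝ)..1, fderiv ℝ a (x, y, z) (1, 0, 0)) ?_ 0 1 0 1
    exact cont_param (fun (p : ℝ × ℝ) z => fderiv ℝ a (p.2, p.1, z) (1, 0, 0))
      (cA.comp (by fun_prop : Continuous fun q : (ℝ × ℝ) × ℝ => (q.1.2, q.1.1, q.2))) 0 1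
  have sB : ∀ x : ℝ, ∫ z in (0 : ℝ)..1, ∫ y in (0 : ℝ)..1, fderiv ℝ b (x, y, z) (0, 1, 0)
      = ∫ y in (0 : ℝ)..1, ∫ z in (0 : ℝ)..1, fderiv ℝ b (x, y, z) (0, 1, 0) := fun x =>
    swap2 (fun z y => fderiv ℝ b (x, y, z) (0, 1, 0))
      (cB.comp (by fun_prop : Continuous fun p : ℝ × ℝ => (x, p.2, p.1))) 0 1 0 1
  simp only [sA, sB]
  have cz : ∀ (f : ℝ × ℝ × ℝ → ℝ), Continuous f →
      Continuous fun p : ℝ × ℝ => ∫ z in (0 : ℝ)..1, f (p.1, p.2, z) := fun f hf =>
    cont_param (fun (p : ℝ × ℝ) z => f (p.1, p.2, z))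
      (hf.comp (by fun_prop : Continuous fun q : (ℝ × ℝ) × ℝ => (q.1.1, q.1.2, q.2))) 0 1
  have cyz : ∀ (f : ℝ × ℝ × ℝ → ℝ), Continuous f →
      Continuous fun x : ℝ => ∫ y in (0 : ℝ)..1, ∫ z in (0 : ℝ)..1, f (x, y, z) := fun f hf =>
    cont_param (fun (x : ℝ) y => ∫ z in (0 : ℝ)..1, f (x, y, z)) (cz f hf) 0 1
  have iz : ∀ (f : ℝ × ℝ × ℝ → ℝ), Continuous f → ∀ x y : ℝ,
      IntervalIntegrable (fun z => f (x, y, z)) MeasureTheory.volume 0 1 := fun f hf x y =>
    (hf.comp (by fun_prop : Continuous fun z : ℝ => (x, y, z))).intervalIntegrable _ _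
  have iy : ∀ (f : ℝ × ℝ × ℝ → ℝ), Continuous f → ∀ x : ℝ,
      IntervalIntegrable (fun y => ∫ z in (0 : ℝ)..1, f (x, y, z)) MeasureTheory.volume 0 1 :=
    fun f hf x =>
    ((cz f hf).comp (by fun_prop : Continuous fun y : ℝ => (x, y))).intervalIntegrable _ _
  rw [add3 _ _ _ ((cyz _ cA).intervalIntegrable _ _) ((cyz _ cB).intervalIntegrable _ _)
    ((cyz _ cC).intervalIntegrable _ _)]
  have e2 : ∀ x : ℝ, ((∫ y in (0 : ℝ)..1, ∫ z in (0 : ℝ)..1, fderiv ℝ a (x, y, z) (1, 0, 0))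
      + ∫ y in (0 : ℝ)..1, ∫ z in (0 : ℝ)..1, fderiv ℝ b (x, y, z) (0, 1, 0))
      + ∫ y in (0 : ℝ)..1, ∫ z in (0 : ℝ)..1, fderiv ℝ c (x, y, z) (0, 0, 1) = 0 := by
    intro x
    rw [add3 _ _ _ (iy _ cA x) (iy _ cB x) (iy _ cC x)]
    have e3 : ∀ y : ℝ, ((∫ z in (0 : ℝ)..1, fderiv ℝ a (x, y, z) (1, 0, 0))
        + ∫ z in (0 : ℝ)..1, fderiv ℝ b (x, y, z) (0, 1, 0))
        + ∫ z in (0 : ℝ)..1, fderiv ℝ c (x, y, z) (0, 0, 1) = 0 := by
      intro y
      rw [add3 _ _ _ (iz _ cA x y) (iz _ cB x y) (iz _ cC x y)]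
      simp [h]
    simp only [e3]
    simp
  simp only [e2]
  simp

/-- directional derivatives -/
def DD (f : ℝ × ℝ × ℝ → ℝ) (v : ℝ × ℝ × ℝ) (x : ℝ × ℝ × ℝ) : ℝ := fderiv ℝ f x v

theorem DD_smooth {f : ℝ × ℝ × ℝ → ℝ} (hf : ContDiff ℝ ∞ f) (v : ℝ × ℝ × ℝ) :
    ContDiff ℝ ∞ (DD f v) :=
  ((contDiff_infty_iff_fderiv.1 hf).2).clm_apply contDiff_const

theorem DD_comm {f : ℝ × ℝ × ℝ → ℝ} (hf : ContDiff ℝ ∞ f) (v w x : ℝ × ℝ × ℝ) :
    DD (DD f v) w x = DD (DD f w) v x := by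
  have h2 : Differentiable ℝ (fderiv ℝ f) :=
    ((contDiff_infty_iff_fderiv.1 hf).2).differentiable (by simp)
  have key : ∀ a b, DD (DD f a) b x = fderiv ℝ (fderiv ℝ f) x b a := by
    intro a b
    have hd : HasFDerivAt (DD f a) ((ContinuousLinearMap.apply ℝ ℝ a).comp
        (fderiv ℝ (fderiv ℝ f) x)) x := by
      exact (ContinuousLinearMap.apply ℝ ℝ a).hasFDerivAt.comp x (h2 x).hasFDerivAt
    show fderiv ℝ (DD f a) x b = _
    rw [hd.fderiv]
    rfl
  rw [key, key]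
  have h2' : (2 : WithTop ℕ∞) ≤ ∞ := WithTop.coe_le_coe.2 (le_top : (2 : ℕ∞) ≤ ⊤)
  exact (hf.contDiffAt.isSymmSndFDerivAt
    (by rw [minSmoothness_of_isRCLikeNormedField]; exact h2')) w v

theorem DD_mul {f g : ℝ × ℝ × ℝ → ℝ} (hf : ContDiff ℝ ∞ f) (hg : ContDiff ℝ ∞ g)
    (v x : ℝ × ℝ × ℝ) : DD (fun x => f x * g x) v x = f x * DD g v x + g x * DD f v x := by
  have h : HasFDerivAt (fun x => f x * g x) (f x • fderiv ℝ g x + g x • fderiv ℝ f x) x :=
    ((hf.differentiable (by simp) x).hasFDerivAt).mul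
    ((hg.differentiable (by simp) x).hasFDerivAt)
  show fderiv ℝ (fun x => f x * g x) x v = _
  rw [h.fderiv]
  simp [DD]

theorem DD_add {f g : ℝ × ℝ × ℝ → ℝ} (hf : ContDiff ℝ ∞ f) (hg : ContDiff ℝ ∞ g)
    (v x : ℝ × ℝ × ℝ) : DD (fun x => f x + g x) v x = DD f v x + DD g v x := by
  have h : HasFDerivAt (fun x => f x + g x) (fderiv ℝ f x + fderiv ℝ g x) x :=
    ((hf.differentiable (by simp) x).hasFDerivAt).add
    ((hg.differentiable (by simp) x).hasFDerivAt)
  show fderiv ℝ (fun x => f x + g x) x v = _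
  rw [h.fderiv]
  simp [DD]

theorem DD_sub {f g : ℝ × ℝ × ℝ → ℝ} (hf : ContDiff ℝ ∞ f) (hg : ContDiff ℝ ∞ g)
    (v x : ℝ × ℝ × ℝ) : DD (fun x => f x - g x) v x = DD f v x - DD g v x := by
  have h : HasFDerivAt (fun x => f x - g x) (fderiv ℝ f x - fderiv ℝ g x) x :=
    ((hf.differentiable (by simp) x).hasFDerivAt).sub
    ((hg.differentiable (by simp) x).hasFDerivAt)
  show fderiv ℝ (fun x => f x - g x) x v = _
  rw [h.fderiv]
  simp [DD]

/-- the triple product in coordinates, as a function of three functions and two directions -/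
def TT (X Y Z : ℝ × ℝ × ℝ → ℝ) (v w : ℝ × ℝ × ℝ) (x : ℝ × ℝ × ℝ) : ℝ :=
  X x * (DD Y v x * DD Z w x - DD Z v x * DD Y w x)
    + Y x * (DD Z v x * DD X w x - DD X v x * DD Z w x)
    + Z x * (DD X v x * DD Y w x - DD Y v x * DD X w x)

theorem TT_smooth {X Y Z : ℝ × ℝ × ℝ → ℝ} (hX : ContDiff ℝ ∞ X) (hY : ContDiff ℝ ∞ Y)
    (hZ : ContDiff ℝ ∞ Z) (v w : ℝ × ℝ × ℝ) : ContDiff ℝ ∞ (TT X Y Z v w) :=
  ((hX.mul (((DD_smooth hY v).mul (DD_smooth hZ w)).sub
    ((DD_smooth hZ v).mul (DD_smooth hY w)))).add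
    (hY.mul (((DD_smooth hZ v).mul (DD_smooth hX w)).sub
    ((DD_smooth hX v).mul (DD_smooth hZ w))))).add
    (hZ.mul (((DD_smooth hX v).mul (DD_smooth hY w)).sub
    ((DD_smooth hY v).mul (DD_smooth hX w))))

theorem DD_TT {X Y Z : ℝ × ℝ × ℝ → ℝ} (hX : ContDiff ℝ ∞ X) (hY : ContDiff ℝ ∞ Y)
    (hZ : ContDiff ℝ ∞ Z) (v w u x : ℝ × ℝ × ℝ) :
    DD (TT X Y Z v w) u x =
      (X x * (DD Y v x * DD (DD Z w) u x + DD Z w x * DD (DD Y v) u x
          - (DD Z v x * DD (DD Y w) u x + DD Y w x * DD (DD Z v) u x))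
        + (DD Y v x * DD Z w x - DD Z v x * DD Y w x) * DD X u x)
      + (Y x * (DD Z v x * DD (DD X w) u x + DD X w x * DD (DD Z v) u x
          - (DD X v x * DD (DD Z w) u x + DD Z w x * DD (DD X v) u x))
        + (DD Z v x * DD X w x - DD X v x * DD Z w x) * DD Y u x)
      + (Z x * (DD X v x * DD (DD Y w) u x + DD Y w x * DD (DD X v) u x
          - (DD Y v x * DD (DD X w) u x + DD X w x * DD (DD Y v) u x))
        + (DD X v x * DD Y w x - DD Y v x * DD X w x) * DD Z u x) := by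
  have a1 := (DD_smooth hY v).mul (DD_smooth hZ w)
  have a2 := (DD_smooth hZ v).mul (DD_smooth hY w)
  have b1 := (DD_smooth hZ v).mul (DD_smooth hX w)
  have b2 := (DD_smooth hX v).mul (DD_smooth hZ w)
  have c1 := (DD_smooth hX v).mul (DD_smooth hY w)
  have c2 := (DD_smooth hY v).mul (DD_smooth hX w)
  have A := hX.mul (a1.sub a2)
  have B := hY.mul (b1.sub b2)
  have C := hZ.mul (c1.sub c2)
  have s1 : DD (TT X Y Z v w) u x
      = DD (fun x => (X x * (DD Y v x * DD Z w x - DD Z v x * DD Y w x)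
          + Y x * (DD Z v x * DD X w x - DD X v x * DD Z w x))
          + Z x * (DD X v x * DD Y w x - DD Y v x * DD X w x)) u x := rfl
  rw [s1, DD_add (A.add B) C, DD_add A B, DD_mul hX (a1.sub a2), DD_mul hY (b1.sub b2),
    DD_mul hZ (c1.sub c2), DD_sub a1 a2, DD_sub b1 b2, DD_sub c1 c2,
    DD_mul (DD_smooth hY v) (DD_smooth hZ w), DD_mul (DD_smooth hZ v) (DD_smooth hY w),
    DD_mul (DD_smooth hZ v) (DD_smooth hX w), DD_mul (DD_smooth hX v) (DD_smooth hZ w),
    DD_mul (DD_smooth hX v) (DD_smooth hY w), DD_mul (DD_smooth hY v) (DD_smooth hX w)]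

theorem TT_div {X Y Z : ℝ × ℝ × ℝ → ℝ} (hX : ContDiff ℝ ∞ X) (hY : ContDiff ℝ ∞ Y)
    (hZ : ContDiff ℝ ∞ Z) (h1 : ∀ x, X x * X x + Y x * Y x + Z x * Z x = 1)
    (p q r x : ℝ × ℝ × ℝ) :
    DD (TT X Y Z q r) p x - DD (TT X Y Z p r) q x + DD (TT X Y Z p q) r x = 0 := by
  have ho : ∀ v, X x * DD X v x + Y x * DD Y v x + Z x * DD Z v x = 0 := by
    intro v
    have e1 : DD (fun x => (X x * X x + Y x * Y x) + Z x * Z x) v x = 0 := by
      have : (fun x => (X x * X x + Y x * Y x) + Z x * Z x) = fun _ => (1 : ℝ) := funext h1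
      rw [this]
      simp [DD]
    rw [DD_add ((hX.mul hX).add (hY.mul hY)) (hZ.mul hZ), DD_add (hX.mul hX) (hY.mul hY),
      DD_mul hX hX, DD_mul hY hY, DD_mul hZ hZ] at e1
    linarith
  have op := ho p
  have oq := ho q
  have or' := ho r
  have hn := h1 x
  rw [DD_TT hX hY hZ, DD_TT hX hY hZ, DD_TT hX hY hZ]
  rw [DD_comm hX q p, DD_comm hY q p, DD_comm hZ q p, DD_comm hX r p, DD_comm hY r p,
    DD_comm hZ r p, DD_comm hX r q, DD_comm hY r q, DD_comm hZ r q]
  -- the determinant of the three derivatives vanishes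
  have hdet : DD X p x * (DD Y q x * DD Z r x - DD Z q x * DD Y r x)
      + DD Y p x * (DD Z q x * DD X r x - DD X q x * DD Z r x)
      + DD Z p x * (DD X q x * DD Y r x - DD Y q x * DD X r x) = 0 := by
    generalize DD X p x = x1 at *
    generalize DD X q x = x2 at *
    generalize DD X r x = x3 at *
    generalize DD Y p x = y1 at *
    generalize DD Y q x = y2 at *
    generalize DD Y r x = y3 at *
    generalize DD Z p x = z1 at *
    generalize DD Z q x = z2 at *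
    generalize DD Z r x = z3 at *
    generalize X x = a at *
    generalize Y x = b at *
    generalize Z x = c at *
    have ha : a * (x1 * (y2 * z3 - z2 * y3) + y1 * (z2 * x3 - x2 * z3)
        + z1 * (x2 * y3 - y2 * x3)) = 0 := by
      linear_combination (y2 * z3 - z2 * y3) * op + (z1 * y3 - y1 * z3) * oq
        + (y1 * z2 - z1 * y2) * or'
    have hb : b * (x1 * (y2 * z3 - z2 * y3) + y1 * (z2 * x3 - x2 * z3)
        + z1 * (x2 * y3 - y2 * x3)) = 0 := by
      linear_combination (z2 * x3 - x2 * z3) * op + (x1 * z3 - z1 * x3) * oq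
        + (z1 * x2 - x1 * z2) * or'
    have hc : c * (x1 * (y2 * z3 - z2 * y3) + y1 * (z2 * x3 - x2 * z3)
        + z1 * (x2 * y3 - y2 * x3)) = 0 := by
      linear_combination (x2 * y3 - y2 * x3) * op + (y1 * x3 - x1 * y3) * oq
        + (x1 * y2 - y1 * x2) * or'
    linear_combination a * ha + b * hb + c * hc - (x1 * (y2 * z3 - z2 * y3)
      + y1 * (z2 * x3 - x2 * z3) + z1 * (x2 * y3 - y2 * x3)) * hn
  linear_combination 3 * hdet

/-- The area form of the unit sphere is closed. -/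
theorem tri_cube (H : ℝ × ℝ × ℝ → ℂ × ℝ) (hH : ContDiff ℝ ∞ H)
    (h1 : ∀ x, ‖(H x).1‖ ^ 2 + (H x).2 ^ 2 = 1) :
    (∫ y in (0 : ℝ)..1, ∫ z in (0 : ℝ)..1,
      (tri (H (1, y, z)) (fderiv ℝ H (1, y, z) (0, 1, 0)) (fderiv ℝ H (1, y, z) (0, 0, 1))
        - tri (H (0, y, z)) (fderiv ℝ H (0, y, z) (0, 1, 0)) (fderiv ℝ H (0, y, z) (0, 0, 1))))
      - (∫ x in (0 : ℝ)..1, ∫ z in (0 : ℝ)..1,
      (tri (H (x, 1, z)) (fderiv ℝ H (x, 1, z) (1, 0, 0)) (fderiv ℝ H (x, 1, z) (0, 0, 1))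
        - tri (H (x, 0, z)) (fderiv ℝ H (x, 0, z) (1, 0, 0)) (fderiv ℝ H (x, 0, z) (0, 0, 1))))
      + (∫ x in (0 : ℝ)..1, ∫ y in (0 : ℝ)..1,
      (tri (H (x, y, 1)) (fderiv ℝ H (x, y, 1) (1, 0, 0)) (fderiv ℝ H (x, y, 1) (0, 1, 0))
        - tri (H (x, y, 0)) (fderiv ℝ H (x, y, 0) (1, 0, 0)) (fderiv ℝ H (x, y, 0) (0, 1, 0))))
      = 0 := by
  let X : ℝ × ℝ × ℝ → ℝ := fun x => (H x).1.re
  let Y : ℝ × ℝ × ℝ → ℝ := fun x => (H x).1.im
  let Z : ℝ × ℝ × ℝ → ℝ := fun x => (H x).2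
  have hX : ContDiff ℝ ∞ X := Complex.reCLM.contDiff.comp (contDiff_fst.comp hH)
  have hY : ContDiff ℝ ∞ Y := Complex.imCLM.contDiff.comp (contDiff_fst.comp hH)
  have hZ : ContDiff ℝ ∞ Z := contDiff_snd.comp hH
  have dX : ∀ x v, (fderiv ℝ H x v).1.re = DD X v x := by
    intro x v
    have hd := (hH.differentiable (by simp) x).hasFDerivAt
    have h2 : HasFDerivAt X ((Complex.reCLM.comp (ContinuousLinearMap.fst ℝ ℂ ℝ)).comp
        (fderiv ℝ H x)) x :=
      (Complex.reCLM.comp (ContinuousLinearMap.fst ℝ ℂ ℝ)).hasFDerivAt.comp x hd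
    show _ = fderiv ℝ X x v
    rw [h2.fderiv]; rfl
  have dY : ∀ x v, (fderiv ℝ H x v).1.im = DD Y v x := by
    intro x v
    have hd := (hH.differentiable (by simp) x).hasFDerivAt
    have h2 : HasFDerivAt Y ((Complex.imCLM.comp (ContinuousLinearMap.fst ℝ ℂ ℝ)).comp
        (fderiv ℝ H x)) x :=
      (Complex.imCLM.comp (ContinuousLinearMap.fst ℝ ℂ ℝ)).hasFDerivAt.comp x hd
    show _ = fderiv ℝ Y x v
    rw [h2.fderiv]; rfl
  have dZ : ∀ x v, (fderiv ℝ H x v).2 = DD Z v x := by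
    intro x v
    have hd := (hH.differentiable (by simp) x).hasFDerivAt
    have h2 : HasFDerivAt Z ((ContinuousLinearMap.snd ℝ ℂ ℝ).comp (fderiv ℝ H x)) x :=
      (ContinuousLinearMap.snd ℝ ℂ ℝ).hasFDerivAt.comp x hd
    show _ = fderiv ℝ Z x v
    rw [h2.fderiv]; rfl
  have htri : ∀ x v w, tri (H x) (fderiv ℝ H x v) (fderiv ℝ H x w) = TT X Y Z v w x := by
    intro x v w
    simp only [tri, dX, dY, dZ, TT]
    rfl
  have hn : ∀ x, X x * X x + Y x * Y x + Z x * Z x = 1 := by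
    intro x
    have h := h1 x
    rw [← Complex.normSq_eq_norm_sq, Complex.normSq_apply] at h
    simp only [X, Y, Z]
    linarith
  simp only [htri]
  have hc := cube (TT X Y Z (0, 1, 0) (0, 0, 1)) (fun x => - TT X Y Z (1, 0, 0) (0, 0, 1) x)
    (TT X Y Z (1, 0, 0) (0, 1, 0))
    ((TT_smooth hX hY hZ _ _).of_le (by simp))
    ((TT_smooth hX hY hZ _ _).neg.of_le (by simp))
    ((TT_smooth hX hY hZ _ _).of_le (by simp)) (by
      intro x
      have h := TT_div hX hY hZ hn (1, 0, 0) (0, 1, 0) (0, 0, 1) x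
      have e : fderiv ℝ (fun x => - TT X Y Z (1, 0, 0) (0, 0, 1) x) x (0, 1, 0)
          = - DD (TT X Y Z (1, 0, 0) (0, 0, 1)) (0, 1, 0) x := by
        have := ((TT_smooth hX hY hZ (1, 0, 0) (0, 0, 1)).differentiable (by simp)
          x).hasFDerivAt.neg
        have h2 : HasFDerivAt (fun x => - TT X Y Z (1, 0, 0) (0, 0, 1) x)
            (-fderiv ℝ (TT X Y Z (1, 0, 0) (0, 0, 1)) x) x := this
        rw [h2.fderiv]
        simp [DD]
      rw [e]
      show DD (TT X Y Z (0, 1, 0) (0, 0, 1)) (1, 0, 0) x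
        + - DD (TT X Y Z (1, 0, 0) (0, 0, 1)) (0, 1, 0) x
        + DD (TT X Y Z (1, 0, 0) (0, 1, 0)) (0, 0, 1) x = 0
      linarith)
  have e5 : ∫ x in (0 : ℝ)..1, ∫ z in (0 : ℝ)..1,
      (- TT X Y Z (1, 0, 0) (0, 0, 1) (x, 1, z) - - TT X Y Z (1, 0, 0) (0, 0, 1) (x, 0, z))
      = - ∫ x in (0 : ℝ)..1, ∫ z in (0 : ℝ)..1,
      (TT X Y Z (1, 0, 0) (0, 0, 1) (x, 1, z) - TT X Y Z (1, 0, 0) (0, 0, 1) (x, 0, z)) := by
    rw [← intervalIntegral.integral_neg]
    refine intervalIntegral.integral_congr fun x _ => ?_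
    show _ = - ∫ z in (0 : ℝ)..1,
      (TT X Y Z (1, 0, 0) (0, 0, 1) (x, 1, z) - TT X Y Z (1, 0, 0) (0, 0, 1) (x, 0, z))
    rw [← intervalIntegral.integral_neg]
    refine intervalIntegral.integral_congr fun z _ => ?_
    show - TT X Y Z (1, 0, 0) (0, 0, 1) (x, 1, z) - - TT X Y Z (1, 0, 0) (0, 0, 1) (x, 0, z)
      = - (TT X Y Z (1, 0, 0) (0, 0, 1) (x, 1, z) - TT X Y Z (1, 0, 0) (0, 0, 1) (x, 0, z))
    ring
  rw [e5] at hc
  linarith

end Pool.Agent.H86.Nco
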