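import Pool.Agent.H86.Nco.HForms
import Pool.Agent.H86.Nco.HPerDefs
import Pool.Agent.H86.Nco.Stokes

/-!
# Module HPER1: exact forms have zero periods; the pulled back form is smooth and closed; invariance
under translations

`contDiffOn_cext`: near `p₁ ∈ U` use the fixed chart `i = idx (ρ p₁)` instead of `idx (ρ p)` (`amb_eq`, all
charts give the same value on tangent vectors; `Dρ(p) v` is tangent): `cext` is the pull back of
`b.val i` by the smooth map `Cor i ∘ ρ`.  `closed_cext`: pull back commutes with `d` (the terms with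
second derivatives of `Cor i ∘ ρ` cancel).  `Per_eq`: `ρ (s x) = s x`, so `Dρ(s x) ∂_k s = ∂_k s`.
`per_exact`: in a chart-independent way: `A_k(x) = α(∂_k s)` (`α` evaluated at the point `s x`, in any
chart; smooth by the same argument as `contDiffOn_cext`), `Per (dF α) s = ∬ ∂₁A₂ - ∂₂A₁`, `green`, and
`A_k = 0` on the boundary of the square, where `∂_k s = 0` (`s` is constant outside `Sq`; by continuity of
the derivative).
`translate`: for `‖z‖ < δ` where the `δ`-neighbourhood of `carrier K`... of `Set.range s` is contained in `U`: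
`I(z) = ∬ cext(s x + z)(∂₁s, ∂₂s)` has derivative zero in `z`:
`D_w cext(∂₁s, ∂₂s) = ∂₁[cext(w, ∂₂s)] - ∂₂[cext(w, ∂₁s)]` at `s x + z` (closedness), then `green`, and
`∂_k s = 0` on the boundary.  (Differentiate along `z = t w`, `t ∈ [0,1]`, under the integral sign.)
-/

open scoped Manifold ContDiff Bundle Topology

noncomputable section

namespace Pool.Agent.H86.Nco

open Pool.Agent.H86.Anco MeasureTheory

set_option maxSynthPendingDepth 3

variable {K : ℕ}

namespace HP1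

section

variable {E : Type*} [NormedAddCommGroup E] [NormedSpace ℝ E] [FiniteDimensional ℝ E]
  {E' : Type*} [NormedAddCommGroup E'] [NormedSpace ℝ E'] [FiniteDimensional ℝ E']

/-- pull backs of closed forms are closed -/
lemma closed_pb {g : E → E →L[ℝ] E →L[ℝ] ℝ} {φ : E' → E} {y : E'}
    (hφ : ContDiffAt ℝ 2 φ y) (hg : ContDiffAt ℝ 1 g (φ y))
    (halt : ∀ u v, g (φ y) u v = - g (φ y) v u)
    (hc : ∀ u v w, fderiv ℝ g (φ y) u v w + fderiv ℝ g (φ y) v w u
      + fderiv ℝ g (φ y) w u v = 0) (a b c : E') :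
    fderiv ℝ (Natural.pb g φ) y a b c + fderiv ℝ (Natural.pb g φ) y b c a
      + fderiv ℝ (Natural.pb g φ) y c a b = 0 := by
  have hD2 : ∀ u v, fderiv ℝ (fderiv ℝ φ) y u v = fderiv ℝ (fderiv ℝ φ) y v u := by
    have := hφ.isSymmSndFDerivAt (by simp)
    exact fun u v => this u v
  have h := hc (fderiv ℝ φ y a) (fderiv ℝ φ y b) (fderiv ℝ φ y c)
  rw [Natural.fderiv_pb hφ hg, Natural.fderiv_pb hφ hg, Natural.fderiv_pb hφ hg,
    hD2 b a, hD2 c a, hD2 c b, halt (fderiv ℝ φ y b) (fderiv ℝ (fderiv ℝ φ) y a c),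
    halt (fderiv ℝ φ y c) (fderiv ℝ (fderiv ℝ φ) y a b),
    halt (fderiv ℝ φ y a) (fderiv ℝ (fderiv ℝ φ) y b c)]
  linarith

end

lemma lim0 {F : Type*} [NormedAddCommGroup F] (f : ℝ → F) (hf : Continuous f)
    (h : ∀ t, 0 < t → f t = 0) : f 0 = 0 := by
  have h1 : closure (Set.Ioi (0 : ℝ)) ⊆ f ⁻¹' {0} :=
    closure_minimal (fun t ht => h t ht) (isClosed_singleton.preimage hf)
  rw [closure_Ioi] at h1
  exact h1 Set.self_mem_Ici

lemma fderiv_out {p₀ : V K} {s : ℝ × ℝ → V K} (hs : Sph K p₀ s) {x : ℝ × ℝ} (hx : x ∉ Sq) :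
    fderiv ℝ s x = 0 := by
  have hc : Continuous (fderiv ℝ s) := hs.smooth.continuous_fderiv (by simp)
  have key : ∀ (d : ℝ × ℝ) (W : Set (ℝ × ℝ)), IsOpen W → (∀ y ∈ W, y ∉ Sq) →
      (∀ t : ℝ, 0 < t → x + t • d ∈ W) → fderiv ℝ s x = 0 := by
    intro d W hW hWS ht
    have h1 : ∀ y ∈ W, fderiv ℝ s y = 0 := by
      intro y hy
      have h2 : s =ᶠ[𝓝 y] fun _ => p₀ := by
        filter_upwards [hW.mem_nhds hy] with z hz
        exact hs.out z (hWS z hz)
      rw [h2.fderiv_eq]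
      simp
    have h3 := lim0 (fun t => fderiv ℝ s (x + t • d)) (hc.comp (by fun_prop))
      (fun t h => h1 _ (ht t h))
    simpa using h3
  have hx' : x.1 ≤ 0 ∨ 1 ≤ x.1 ∨ x.2 ≤ 0 ∨ 1 ≤ x.2 := by
    by_contra hcon
    push Not at hcon
    exact hx ⟨⟨hcon.1, hcon.2.1⟩, ⟨hcon.2.2.1, hcon.2.2.2⟩⟩
  rcases hx' with h | h | h | h
  · refine key (-1, 0) {y | y.1 < 0} (isOpen_lt continuous_fst continuous_const) ?_ ?_
    · intro y hy hy'
      exact absurd hy'.1.1 (not_lt.2 (le_of_lt hy))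
    · intro t ht
      change x.1 + t * (-1) < 0
      linarith
  · refine key (1, 0) {y | 1 < y.1} (isOpen_lt continuous_const continuous_fst) ?_ ?_
    · intro y hy hy'
      exact absurd hy'.1.2 (not_lt.2 (le_of_lt hy))
    · intro t ht
      change 1 < x.1 + t * 1
      linarith
  · refine key (0, -1) {y | y.2 < 0} (isOpen_lt continuous_snd continuous_const) ?_ ?_
    · intro y hy hy'
      exact absurd hy'.2.1 (not_lt.2 (le_of_lt hy))
    · intro t ht
      change x.2 + t * (-1) < 0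
      linarith
  · refine key (0, 1) {y | 1 < y.2} (isOpen_lt continuous_const continuous_snd) ?_ ?_
    · intro y hy hy'
      exact absurd hy'.2.2 (not_lt.2 (le_of_lt hy))
    · intro t ht
      change 1 < x.2 + t * 1
      linarith

/-- one-forms on tangent vectors in the ambient space -/
def ev1 (α : Form1 K) (p v : V K) : ℝ :=
  α.val (idx p) (Cor (idx p) p) (fderiv ℝ (Cor (idx p)) p v)

lemma ev1_eq (α : Form1 K) (i : Ix) {p : V K} (hp : p ∈ carrier K) (hd : p ∈ Dom K i) {v : V K}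
    (hv : v ∈ Tan p) : ev1 α p v = α.val i (Cor i p) (fderiv ℝ (Cor i) p v) := by
  unfold ev1
  have hpj := Par_Cor (idx p) hp (mem_Dom_idx p)
  have hy : Cor (idx p) p ∈ ov K (idx p) i := by
    change Par (idx p) (Cor (idx p) p) ∈ Dom K i
    rw [hpj]
    exact hd
  have h1 : tr (idx p) i (Cor (idx p) p) = Cor i p := by
    change Cor i (Par (idx p) (Cor (idx p) p)) = Cor i p
    rw [hpj]
  have h2 : fderiv ℝ (tr (idx p) i) (Cor (idx p) p) (fderiv ℝ (Cor (idx p)) p v) =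
        fderiv ℝ (Cor i) p v := by
    have e1 := fderiv_Par_tr (idx p) i hy (fderiv ℝ (Cor (idx p)) p v)
    rw [fderiv_Par_Cor (idx p) hp (mem_Dom_idx p) hv, h1] at e1
    have e2 := fderiv_Cor_Par i (Cor i p)
      (fderiv ℝ (tr (idx p) i) (Cor (idx p) p) (fderiv ℝ (Cor (idx p)) p v))
    rw [e1, Par_Cor i hp hd] at e2
    exact e2.symm
  rw [α.compat (idx p) i _ hy, h2, h1]

/-- local coordinates of the sphere -/
lemma theta_at {s : ℝ × ℝ → V K} (hs : ContDiff ℝ ∞ s) (i : Ix) {x : ℝ × ℝ}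
    (hx : s x ∈ Dom K i) : ContDiffAt ℝ ∞ (fun z => Cor i (s z)) x ∧
      ∀ u, fderiv ℝ (fun z => Cor i (s z)) x u = fderiv ℝ (Cor i) (s x) (fderiv ℝ s x u) := by
  have hC : ContDiffAt ℝ ∞ (Cor i : V K → E K) (s x) :=
    (contDiffOn_Cor i).contDiffAt ((isOpen_Dom i).mem_nhds hx)
  refine ⟨hC.comp x hs.contDiffAt, fun u => ?_⟩
  have h := fderiv_comp x (differentiableAt_Cor i hx) (hs.differentiable (by simp) x)
  have h2 := congrArg (fun L : ℝ × ℝ →L[ℝ] E K => L u) h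
  exact h2

lemma ev1_local (α : Form1 K) {s : ℝ × ℝ → V K} (hs : ContDiff ℝ ∞ s)
    (hmem : ∀ x, s x ∈ carrier K) (i : Ix) {x : ℝ × ℝ} (hx : s x ∈ Dom K i) (u : ℝ × ℝ) :
    ContDiffAt ℝ ∞ (fun z => ev1 α (s z) (fderiv ℝ s z u)) x ∧
    ∀ w, fderiv ℝ (fun z => ev1 α (s z) (fderiv ℝ s z u)) x w =
      fderiv ℝ (α.val i) (Cor i (s x)) (fderiv ℝ (fun z => Cor i (s z)) x w)
        (fderiv ℝ (fun z => Cor i (s z)) x u)
      + α.val i (Cor i (s x)) (fderiv ℝ (fderiv ℝ (fun z => Cor i (s z))) x w u) := by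
  set θ : ℝ × ℝ → E K := fun z => Cor i (s z) with hθ
  have hev : ∀ᶠ z in 𝓝 x, s z ∈ Dom K i :=
    hs.continuous.continuousAt.eventually ((isOpen_Dom i).mem_nhds hx)
  have heq : (fun z => ev1 α (s z) (fderiv ℝ s z u)) =ᶠ[𝓝 x]
      fun z => α.val i (θ z) (fderiv ℝ θ z u) := by
    filter_upwards [hev] with z hz
    rw [ev1_eq α i (hmem z) hz (tan_of_map (hs.differentiable (by simp) z)
      (Filter.Eventually.of_forall hmem) u), (theta_at hs i hz).2 u]
  have hθs := (theta_at hs i hx).1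
  have hDθ : ContDiffAt ℝ ∞ (fderiv ℝ θ) x := hθs.fderiv_right (by exact_mod_cast le_top)
  have hα : ContDiffAt ℝ ∞ (fun z => α.val i (θ z)) x := (α.smooth i).contDiffAt.comp x hθs
  have hsm : ContDiffAt ℝ ∞ (fun z => α.val i (θ z) (fderiv ℝ θ z u)) x :=
    hα.clm_apply (hDθ.clm_apply contDiffAt_const)
  refine ⟨hsm.congr_of_eventuallyEq heq, fun w => ?_⟩
  rw [heq.fderiv_eq]
  have hα' : HasFDerivAt (fun z => α.val i (θ z))
      ((fderiv ℝ (α.val i) (θ x)).comp (fderiv ℝ θ x)) x :=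
    (((α.smooth i).differentiable (by simp) (θ x)).hasFDerivAt).comp x
      ((hθs.differentiableAt (by simp)).hasFDerivAt)
  have hd : HasFDerivAt (fderiv ℝ θ) (fderiv ℝ (fderiv ℝ θ) x) x :=
    (hDθ.differentiableAt (by simp)).hasFDerivAt
  have h1 := hα'.clm_apply (hd.clm_apply (hasFDerivAt_const u x))
  rw [h1.fderiv]
  simp only [add_apply, ContinuousLinearMap.comp_apply,
    ContinuousLinearMap.flip_apply, zero_apply, map_zero, zero_add]
  ring

end HP1

open HP1 in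
theorem per_exact (α : Form1 K) {p₀ : V K} {s : ℝ × ℝ → V K} (hs : Sph K p₀ s) :
    Per (dF α).val s = 0 := by
  let A : ℝ × ℝ → ℝ × ℝ → ℝ := fun u z => ev1 α (s z) (fderiv ℝ s z u)
  have hA : ∀ u, ContDiff ℝ ∞ (A u) := fun u => contDiff_iff_contDiffAt.2 fun x =>
    (ev1_local α hs.smooth hs.mem (idx (s x)) (mem_Dom_idx _) u).1
  have h0 : ∀ u x, x ∉ Sq → A u x = 0 := by
    intro u x hx
    simp only [A, ev1, fderiv_out hs hx, zero_apply, map_zero]
  have hint : ∀ x : ℝ × ℝ, amb (dF α).val (s x) (fderiv ℝ s x (1, 0)) (fderiv ℝ s x (0, 1)) =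
      fderiv ℝ (A (0, 1)) x (1, 0) - fderiv ℝ (A (1, 0)) x (0, 1) := by
    intro x
    have hx := mem_Dom_idx (s x)
    generalize idx (s x) = i at hx
    have htan : ∀ u, fderiv ℝ s x u ∈ Tan (s x) := fun u =>
      tan_of_map (hs.smooth.differentiable (by simp) x) (Filter.Eventually.of_forall hs.mem) u
    rw [amb_eq (dF α).compat i (hs.mem x) hx (htan _) (htan _), dF_val,
      (ev1_local α hs.smooth hs.mem i hx (0, 1)).2 (1, 0),
      (ev1_local α hs.smooth hs.mem i hx (1, 0)).2 (0, 1),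
      ← (theta_at hs.smooth i hx).2, ← (theta_at hs.smooth i hx).2]
    have hD2 : ∀ u v, fderiv ℝ (fderiv ℝ (fun z => Cor i (s z))) x u v =
        fderiv ℝ (fderiv ℝ (fun z => Cor i (s z))) x v u := by
      have h2 : ContDiffAt ℝ 2 (fun z => Cor i (s z)) x :=
        (theta_at hs.smooth i hx).1.of_le (by norm_cast)
      have := h2.isSymmSndFDerivAt (by simp)
      exact fun u v => this u v
    rw [hD2 (0, 1) (1, 0)]
    simp only [d1, sub_apply, ContinuousLinearMap.flip_apply]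
    ring
  unfold Per
  simp only [hint]
  rw [green (A (1, 0)) (A (0, 1)) ((hA _).of_le (by exact_mod_cast le_top))
    ((hA _).of_le (by exact_mod_cast le_top))]
  have e1 : ∀ t : ℝ, A (0, 1) (1, t) - A (0, 1) (0, t) = 0 := by
    intro t
    rw [h0 _ _ (fun h => absurd h.1.2 (lt_irrefl _)), h0 _ _ (fun h => absurd h.1.1 (lt_irrefl _)),
      sub_zero]
  have e2 : ∀ t : ℝ, A (1, 0) (t, 1) - A (1, 0) (t, 0) = 0 := by
    intro t
    rw [h0 _ _ (fun h => absurd h.2.2 (lt_irrefl _)), h0 _ _ (fun h => absurd h.2.1 (lt_irrefl _)),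
      sub_zero]
  simp only [e1, e2]
  simp

namespace HP1

variable {U : Set (V K)} {ρ : V K → V K}

lemma cext_apply (b : Ix → E K → Bil K) (p u v : V K) : cext ρ b p u v =
    b (idx (ρ p)) (Cor (idx (ρ p)) (ρ p)) (fderiv ℝ (Cor (idx (ρ p))) (ρ p) (fderiv ℝ ρ p u))
      (fderiv ℝ (Cor (idx (ρ p))) (ρ p) (fderiv ℝ ρ p v)) := rfl

lemma cext_alt (b : Form2 K) (p u v : V K) : cext ρ b.val p u v = - cext ρ b.val p v u := by
  rw [cext_apply, cext_apply, b.alt]

lemma ret_at (h : IsRet U ρ) {p : V K} (hp : p ∈ U) : ContDiffAt ℝ ∞ ρ p :=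
  h.smooth.contDiffAt (h.isOpen.mem_nhds hp)

lemma cor_ret (h : IsRet U ρ) {p : V K} (hp : p ∈ U) (i : Ix) (hi : ρ p ∈ Dom K i) :
    ContDiffAt ℝ ∞ (fun q => Cor i (ρ q)) p ∧
      ∀ u, fderiv ℝ (fun q => Cor i (ρ q)) p u = fderiv ℝ (Cor i) (ρ p) (fderiv ℝ ρ p u) := by
  have hC : ContDiffAt ℝ ∞ (Cor i : V K → E K) (ρ p) :=
    (contDiffOn_Cor i).contDiffAt ((isOpen_Dom i).mem_nhds hi)
  refine ⟨hC.comp p (ret_at h hp), fun u => ?_⟩
  have h1 := fderiv_comp p (differentiableAt_Cor i hi) ((ret_at h hp).differentiableAt (by simp))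
  exact congrArg (fun L : V K →L[ℝ] E K => L u) h1

lemma ret_tan (h : IsRet U ρ) {p : V K} (hp : p ∈ U) (u : V K) : fderiv ℝ ρ p u ∈ Tan (ρ p) :=
  tan_of_map ((ret_at h hp).differentiableAt (by simp))
    (Filter.eventually_of_mem (h.isOpen.mem_nhds hp) h.maps) u

lemma cext_eq (h : IsRet U ρ) (b : Form2 K) {p : V K} (hp : p ∈ U) (i : Ix)
    (hi : ρ p ∈ Dom K i) : cext ρ b.val p = Natural.pb (b.val i) (fun q => Cor i (ρ q)) p := by
  refine ContinuousLinearMap.ext fun u => ContinuousLinearMap.ext fun v => ?_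
  rw [Natural.pb_apply, (cor_ret h hp i hi).2, (cor_ret h hp i hi).2, cext_apply]
  exact amb_eq b.compat i (h.maps p hp) hi (ret_tan h hp u) (ret_tan h hp v)

lemma cext_eventually (h : IsRet U ρ) (b : Form2 K) {p : V K} (hp : p ∈ U) (i : Ix)
    (hi : ρ p ∈ Dom K i) :
    cext ρ b.val =ᶠ[𝓝 p] Natural.pb (b.val i) (fun q => Cor i (ρ q)) := by
  have h1 : ∀ᶠ q in 𝓝 p, ρ q ∈ Dom K i :=
    (ret_at h hp).continuousAt.eventually ((isOpen_Dom i).mem_nhds hi)
  filter_upwards [h1, h.isOpen.mem_nhds hp] with q hq hqU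
  exact cext_eq h b hqU i hq

lemma cext_at (h : IsRet U ρ) (b : Form2 K) {p : V K} (hp : p ∈ U) :
    ContDiffAt ℝ ∞ (cext ρ b.val) p := by
  have hi := mem_Dom_idx (ρ p)
  refine ContDiffAt.congr_of_eventuallyEq ?_ (cext_eventually h b hp _ hi)
  exact Natural.contDiffAt_pb (by simpa using (cor_ret h hp _ hi).1) (b.smooth _).contDiffAt

end HP1

open HP1 in
theorem contDiffOn_cext {U : Set (V K)} {ρ : V K → V K} (h : IsRet U ρ) (b : Form2 K) :
    ContDiffOn ℝ ∞ (cext ρ b.val) U := fun _ hp => (cext_at h b hp).contDiffWithinAt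

open HP1 in
theorem closed_cext {U : Set (V K)} {ρ : V K → V K} (h : IsRet U ρ) (b : Form2 K)
    (hb : Closed b) {p : V K} (hp : p ∈ U) (u v w : V K) :
    fderiv ℝ (cext ρ b.val) p u v w + fderiv ℝ (cext ρ b.val) p v w u
      + fderiv ℝ (cext ρ b.val) p w u v = 0 := by
  have hi := mem_Dom_idx (ρ p)
  rw [(cext_eventually h b hp _ hi).fderiv_eq]
  exact closed_pb ((cor_ret h hp _ hi).1.of_le (by norm_cast))
    ((b.smooth _).contDiffAt.of_le (by norm_cast)) (fun u v => b.alt _ _ u v)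
    (fun u v w => hb _ _ u v w) u v w

open HP1 in
theorem per_translate {U : Set (V K)} {ρ : V K → V K} (h : IsRet U ρ) (b : Form2 K)
    (hb : Closed b) {p₀ : V K} {s : ℝ × ℝ → V K} (hs : Sph K p₀ s) {δ : ℝ}
    (hδ : ∀ x, Metric.ball (s x) δ ⊆ U) {z : V K} (hz : ‖z‖ < δ) :
    ∫ x in (0 : ℝ)..1, ∫ y in (0 : ℝ)..1,
      cext ρ b.val (s (x, y) + z) (fderiv ℝ s (x, y) (1, 0)) (fderiv ℝ s (x, y) (0, 1))
      = Per b.val s := by
  let τ := Real.smoothTransition
  have hτ : ContDiff ℝ ∞ τ := Real.smoothTransition.contDiff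
  let H : ℝ × ℝ × ℝ → V K := fun q => s q.2 + τ q.1 • z
  have hH : ContDiff ℝ ∞ H :=
    (hs.smooth.comp contDiff_snd).add ((hτ.comp contDiff_fst).smul contDiff_const)
  have hHU : ∀ q, H q ∈ U := by
    intro q
    apply hδ q.2
    rw [Metric.mem_ball, dist_eq_norm]
    have h1 : H q - s q.2 = τ q.1 • z := by simp [H]
    rw [h1, norm_smul, Real.norm_eq_abs, abs_of_nonneg (Real.smoothTransition.nonneg _)]
    calc τ q.1 * ‖z‖ ≤ 1 * ‖z‖ :=
          mul_le_mul_of_nonneg_right (Real.smoothTransition.le_one _) (norm_nonneg _)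
      _ < δ := by rw [one_mul]; exact hz
  have hHd : ∀ q (e : ℝ × ℝ), fderiv ℝ H q (0, e) = fderiv ℝ s q.2 e := by
    intro q e
    have h1 : HasFDerivAt H ((fderiv ℝ s q.2).comp (ContinuousLinearMap.snd ℝ ℝ (ℝ × ℝ)) +
        ((fderiv ℝ τ q.1).comp (ContinuousLinearMap.fst ℝ ℝ (ℝ × ℝ))).smulRight z) q := by
      have h2 := (hs.smooth.differentiable (by simp) q.2).hasFDerivAt.comp q hasFDerivAt_snd
      have h3 := (hτ.differentiable (by simp) q.1).hasFDerivAt.comp q hasFDerivAt_fst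
      exact h2.add (h3.smul_const z)
    rw [h1.fderiv]
    simp
  set g := cext ρ b.val with hg
  have hgat : ∀ q, ContDiffAt ℝ ∞ g (H q) := fun q => cext_at h b (hHU q)
  have hpb : ContDiff ℝ 1 (Natural.pb g H) := by
    rw [contDiff_iff_contDiffAt]
    intro q
    exact Natural.contDiffAt_pb (hH.contDiffAt.of_le (by norm_cast)) ((hgat q).of_le (by norm_cast))
  have hcl : ∀ q u v w, fderiv ℝ (Natural.pb g H) q u v w + fderiv ℝ (Natural.pb g H) q v w u
      + fderiv ℝ (Natural.pb g H) q w u v = 0 := fun q u v w =>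
    closed_pb (hH.contDiffAt.of_le (by norm_cast)) ((hgat q).of_le (by norm_cast))
      (fun u v => cext_alt b _ u v) (fun u v w => closed_cext h b hb (hHU q) u v w) u v w
  have hpd : ∀ q u v w, fderiv ℝ (fun q => Natural.pb g H q u v) q w =
      fderiv ℝ (Natural.pb g H) q w u v := by
    intro q u v w
    have h1 := ((hpb.differentiable one_ne_zero q).hasFDerivAt.clm_apply
      (hasFDerivAt_const u q)).clm_apply (hasFDerivAt_const v q)
    rw [h1.fderiv]
    simp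
  have hps : ∀ u v, ContDiff ℝ 1 (fun q => Natural.pb g H q u v) := fun u v =>
    (hpb.clm_apply contDiff_const).clm_apply contDiff_const
  have hcube := cube (fun q => Natural.pb g H q (0, 1, 0) (0, 0, 1))
    (fun q => Natural.pb g H q (0, 0, 1) (1, 0, 0))
    (fun q => Natural.pb g H q (1, 0, 0) (0, 1, 0)) (hps _ _) (hps _ _) (hps _ _) (by
      intro q
      rw [hpd, hpd, hpd]
      exact hcl q _ _ _)
  have ez : ∀ x : ℝ × ℝ, x ∉ Sq → ∀ e, fderiv ℝ s x e = 0 := by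
    intro x hx e
    rw [fderiv_out hs hx]
    rfl
  have b1 : ∀ x t : ℝ, Natural.pb g H (x, 1, t) (0, 0, 1) (1, 0, 0) = 0 := by
    intro x t
    rw [Natural.pb_apply, hHd, ez _ (fun h => absurd h.1.2 (lt_irrefl _))]
    simp
  have b0 : ∀ x t : ℝ, Natural.pb g H (x, 0, t) (0, 0, 1) (1, 0, 0) = 0 := by
    intro x t
    rw [Natural.pb_apply, hHd, ez _ (fun h => absurd h.1.1 (lt_irrefl _))]
    simp
  have c1 : ∀ x t : ℝ, Natural.pb g H (x, t, 1) (1, 0, 0) (0, 1, 0) = 0 := by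
    intro x t
    rw [Natural.pb_apply, hHd _ (1, 0), ez _ (fun h => absurd h.2.2 (lt_irrefl _))]
    simp
  have c0 : ∀ x t : ℝ, Natural.pb g H (x, t, 0) (1, 0, 0) (0, 1, 0) = 0 := by
    intro x t
    rw [Natural.pb_apply, hHd _ (1, 0), ez _ (fun h => absurd h.2.1 (lt_irrefl _))]
    simp
  simp only [b1, b0, c1, c0, sub_zero, intervalIntegral.integral_zero, add_zero] at hcube
  have a1 : ∀ x y : ℝ, Natural.pb g H (1, x, y) (0, 1, 0) (0, 0, 1) =
      g (s (x, y) + z) (fderiv ℝ s (x, y) (1, 0)) (fderiv ℝ s (x, y) (0, 1)) := by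
    intro x y
    rw [Natural.pb_apply, hHd _ (1, 0), hHd _ (0, 1)]
    simp [H, τ]
  have a0 : ∀ x y : ℝ, Natural.pb g H (0, x, y) (0, 1, 0) (0, 0, 1) =
      amb b.val (s (x, y)) (fderiv ℝ s (x, y) (1, 0)) (fderiv ℝ s (x, y) (0, 1)) := by
    intro x y
    rw [Natural.pb_apply, hHd _ (1, 0), hHd _ (0, 1)]
    have e1 : H (0, x, y) = s (x, y) := by simp [H, τ]
    rw [e1, hg, cext_apply]
    have hsU : s (x, y) ∈ U := h.sub (hs.mem _)
    have e2 : ρ (s (x, y)) = s (x, y) := h.fix _ (hs.mem _)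
    have e3 : ∀ e, fderiv ℝ ρ (s (x, y)) (fderiv ℝ s (x, y) e) = fderiv ℝ s (x, y) e := by
      intro e
      have h1 : (fun x => ρ (s x)) = s := funext fun x => h.fix _ (hs.mem x)
      have h2 := fderiv_comp (x, y) ((ret_at h hsU).differentiableAt (by simp))
        (hs.smooth.differentiable (by simp) (x, y))
      have h3 : fderiv ℝ s (x, y) = (fderiv ℝ ρ (s (x, y))).comp (fderiv ℝ s (x, y)) := by
        conv_lhs => rw [← h1]
        exact h2
      conv_rhs => rw [h3]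
      rfl
    rw [e3, e3, e2]
    rfl
  have hc : ∀ t : ℝ, Continuous (Function.uncurry fun x y : ℝ =>
      Natural.pb g H (t, x, y) (0, 1, 0) (0, 0, 1)) := by
    intro t
    exact (hps (0, 1, 0) (0, 0, 1)).continuous.comp (by fun_prop)
  have hsplit : ∫ x in (0 : ℝ)..1, ∫ y in (0 : ℝ)..1,
      (Natural.pb g H (1, x, y) (0, 1, 0) (0, 0, 1) - Natural.pb g H (0, x, y) (0, 1, 0) (0, 0, 1))
      = (∫ x in (0 : ℝ)..1, ∫ y in (0 : ℝ)..1, Natural.pb g H (1, x, y) (0, 1, 0) (0, 0, 1))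
        - ∫ x in (0 : ℝ)..1, ∫ y in (0 : ℝ)..1, Natural.pb g H (0, x, y) (0, 1, 0) (0, 0, 1) := by
    rw [← intervalIntegral.integral_sub ((cont_param _ (hc 1) 0 1).intervalIntegrable _ _)
      ((cont_param _ (hc 0) 0 1).intervalIntegrable _ _)]
    apply intervalIntegral.integral_congr
    intro x _
    exact intervalIntegral.integral_sub
      (((hc 1).comp (by fun_prop : Continuous fun y : ℝ => (x, y))).intervalIntegrable _ _)
      (((hc 0).comp (by fun_prop : Continuous fun y : ℝ => (x, y))).intervalIntegrable _ _)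
  rw [hsplit, sub_eq_zero] at hcube
  simp only [a1, a0] at hcube
  exact hcube

end Pool.Agent.H86.Nco
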