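import Mathlib

/-!
# Module HPER2, part A: the local `L¹` bound for a submersion

If `DΘ(q₀)` has the right inverse `R`, then `∫_B F(Θ p) dp ≤ c ∫_C F` for a small ball `B` around `q₀`.
Proof without coordinates: translate by `R u`, average over small `u` and use the change of variables
`u ↦ Θ(p + R u)`, whose derivative is close to the identity.
-/

open scoped Topology ENNReal

noncomputable section

namespace Pool.Agent.H86.Nco

open MeasureTheory Metric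

theorem submersion_lintegral {V E : Type*} [NormedAddCommGroup V] [NormedSpace ℝ V]
    [FiniteDimensional ℝ V] [MeasurableSpace V] [BorelSpace V] (μ : Measure V) [μ.IsAddHaarMeasure]
    [NormedAddCommGroup E] [NormedSpace ℝ E]
    [FiniteDimensional ℝ E] [MeasurableSpace E] [BorelSpace E] (ν : Measure E) [ν.IsAddHaarMeasure]
    (Θ : V → E) (q₀ : V) (hΘ : ContDiffAt ℝ 1 Θ q₀) (R : E →L[ℝ] V)
    (hR : ∀ u, fderiv ℝ Θ q₀ (R u) = u) {W : Set V} (hW : W ∈ 𝓝 q₀) :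
    ∃ r : ℝ, 0 < r ∧ ball q₀ r ⊆ W ∧ ∃ C : Set E, IsCompact C ∧ (∀ p ∈ ball q₀ r, Θ p ∈ C) ∧
      ∃ c : ℝ≥0∞, c ≠ ∞ ∧ ∀ F : E → ℝ≥0∞, Measurable F →
        ∫⁻ p in ball q₀ r, F (Θ p) ∂μ ≤ c * ∫⁻ y in C, F y ∂ν := by
  -- the strict derivative
  have hstrict := hΘ.hasStrictFDerivAt (by norm_num)
  set A : V →L[ℝ] E := fderiv ℝ Θ q₀ with hA
  have hε : (0 : ℝ) < 1 / (2 * (‖R‖ + 1)) := by positivity
  obtain ⟨s₁, hs₁, happ⟩ : ∃ s ∈ 𝓝 q₀, ApproximatesLinearOn Θ A s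
      ⟨1 / (2 * (‖R‖ + 1)), hε.le⟩ := by
    obtain ⟨s, hs, h⟩ := hstrict.approximates_deriv_on_nhds (c := ⟨1 / (2 * (‖R‖ + 1)), hε.le⟩)
      (Or.inr hε)
    exact ⟨s, hs, h⟩
  -- differentiability near `q₀` and continuity of the derivative
  have hcd : ∀ᶠ p in 𝓝 q₀, ContDiffAt ℝ 1 Θ p := hΘ.eventually (by norm_num)
  have hdet : ∀ᶠ p in 𝓝 q₀, 1 / 2 < |((fderiv ℝ Θ p).comp R).det| := by
    have h1 : ContinuousAt (fun p => fderiv ℝ Θ p) q₀ := by
      have h2 : ContDiffAt ℝ 0 (fderiv ℝ Θ) q₀ := hΘ.fderiv_right (m := 0) (by norm_num)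
      exact h2.continuousAt
    have h3 : ContinuousAt (fun p => |((fderiv ℝ Θ p).comp R).det|) q₀ := by
      have h4 : ContinuousAt (fun p => (fderiv ℝ Θ p).comp R) q₀ := h1.clm_comp continuousAt_const
      have h5 : Continuous (fun L : E →L[ℝ] E => |L.det|) :=
        ContinuousLinearMap.continuous_det.abs
      exact h5.continuousAt.comp h4
    have h6 : |((fderiv ℝ Θ q₀).comp R).det| = 1 := by
      have : (fderiv ℝ Θ q₀).comp R = ContinuousLinearMap.id ℝ E := by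
        ext u
        exact hR u
      rw [this]
      simp [ContinuousLinearMap.det]
    have h7 : (1 : ℝ) / 2 < |((fderiv ℝ Θ q₀).comp R).det| := by rw [h6]; norm_num
    exact h3.eventually (lt_mem_nhds h7)
  have hdist : ∀ᶠ p in 𝓝 q₀, Θ p ∈ closedBall (Θ q₀) 1 :=
    hΘ.continuousAt.eventually (closedBall_mem_nhds _ one_pos)
  obtain ⟨ρ₀, hρ₀, hball⟩ := Metric.mem_nhds_iff.1
    (((hcd.and hdet).and hdist).and (Filter.inter_mem hs₁ hW))
  have hb1 : ∀ p ∈ ball q₀ ρ₀, ContDiffAt ℝ 1 Θ p := fun p hp => (hball hp).1.1.1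
  have hb2 : ∀ p ∈ ball q₀ ρ₀, 1 / 2 < |((fderiv ℝ Θ p).comp R).det| :=
    fun p hp => (hball hp).1.1.2
  have hb3 : ∀ p ∈ ball q₀ ρ₀, Θ p ∈ closedBall (Θ q₀) 1 := fun p hp => (hball hp).1.2
  have hb4 : ∀ p ∈ ball q₀ ρ₀, p ∈ s₁ := fun p hp => (hball hp).2.1
  have hb5 : ball q₀ ρ₀ ⊆ W := fun p hp => (hball hp).2.2
  set δ : ℝ := ρ₀ / (3 * (‖R‖ + 1)) with hδ
  have hδ0 : 0 < δ := by positivity
  have hRu : ∀ u ∈ ball (0 : E) δ, ‖R u‖ < ρ₀ / 3 := by
    intro u hu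
    rw [mem_ball_zero_iff] at hu
    have h1 : ‖R u‖ ≤ ‖R‖ * ‖u‖ := R.le_opNorm u
    have h2 : ‖R‖ * ‖u‖ ≤ (‖R‖ + 1) * ‖u‖ := by nlinarith [norm_nonneg u]
    have h3 : (‖R‖ + 1) * ‖u‖ < (‖R‖ + 1) * δ := by
      apply mul_lt_mul_of_pos_left hu (by positivity)
    have h4 : (‖R‖ + 1) * δ = ρ₀ / 3 := by
      rw [hδ]
      field_simp
    linarith
  refine ⟨ρ₀ / 3, by positivity, (ball_subset_ball (by linarith)).trans hb5,
    closedBall (Θ q₀) 1, isCompact_closedBall _ _,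
    fun p hp => hb3 p (ball_subset_ball (by linarith) hp),
    (ν (ball (0 : E) δ))⁻¹ * (μ (ball q₀ (2 * ρ₀ / 3)) * 2), ?_, ?_⟩
  · have h1 : ν (ball (0 : E) δ) ≠ 0 := (measure_ball_pos ν _ hδ0).ne'
    have h2 : μ (ball q₀ (2 * ρ₀ / 3)) ≠ ∞ := measure_ball_lt_top.ne
    exact ENNReal.mul_ne_top (ENNReal.inv_ne_top.2 h1) (ENNReal.mul_ne_top h2 (by norm_num))
  intro F hF
  classical
  set Θ' : V → E := (ball q₀ ρ₀).piecewise Θ (fun _ => 0) with hΘ'
  have hΘ'm : Measurable Θ' := by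
    apply ContinuousOn.measurable_piecewise
    · exact fun p hp => (hb1 p hp).continuousAt.continuousWithinAt
    · exact continuousOn_const
    · exact measurableSet_ball
  have hΘ'e : ∀ p ∈ ball q₀ ρ₀, Θ' p = Θ p := fun p hp => Set.piecewise_eq_of_mem _ _ _ hp
  set G : V → ℝ≥0∞ := fun p => F (Θ' p) with hG
  have hGm : Measurable G := hF.comp hΘ'm
  -- the inner integral
  have hinner : ∀ p ∈ ball q₀ (2 * ρ₀ / 3), ∫⁻ u in ball (0 : E) δ, G (p + R u) ∂ν ≤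
      2 * ∫⁻ y in closedBall (Θ q₀) 1, F y ∂ν := by
    intro p hp
    have hmem : ∀ u ∈ ball (0 : E) δ, p + R u ∈ ball q₀ ρ₀ := by
      intro u hu
      have h1 := hRu u hu
      rw [mem_ball, dist_eq_norm] at hp ⊢
      calc ‖p + R u - q₀‖ = ‖(p - q₀) + R u‖ := by congr 1; abel
        _ ≤ ‖p - q₀‖ + ‖R u‖ := norm_add_le _ _
        _ < ρ₀ := by linarith
    have hder : ∀ u ∈ ball (0 : E) δ, HasFDerivWithinAt (fun u => Θ (p + R u))
        ((fderiv ℝ Θ (p + R u)).comp R) (ball (0 : E) δ) u := by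
      intro u hu
      have h1 : HasFDerivAt Θ (fderiv ℝ Θ (p + R u)) (p + R u) :=
        ((hb1 _ (hmem u hu)).differentiableAt (by norm_num)).hasFDerivAt
      have h2 : HasFDerivAt (fun u => p + R u) R u := R.hasFDerivAt.const_add p
      exact (h1.comp u h2).hasFDerivWithinAt
    have hinj : Set.InjOn (fun u => Θ (p + R u)) (ball (0 : E) δ) := by
      intro u hu v hv huv
      have h1 := happ (p + R u) (hb4 _ (hmem u hu)) (p + R v) (hb4 _ (hmem v hv))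
      have h2 : Θ (p + R u) = Θ (p + R v) := huv
      have h3 : A (p + R u - (p + R v)) = u - v := by
        rw [add_sub_add_left_eq_sub, ← map_sub]
        exact hR (u - v)
      rw [h2, sub_self, zero_sub, h3, norm_neg, add_sub_add_left_eq_sub, ← map_sub] at h1
      have h4 : ‖R (u - v)‖ ≤ ‖R‖ * ‖u - v‖ := R.le_opNorm _
      have h5 : ‖u - v‖ ≤ 1 / (2 * (‖R‖ + 1)) * ‖R (u - v)‖ := h1
      have h6 : 1 / (2 * (‖R‖ + 1)) * ‖R (u - v)‖ ≤ 1 / 2 * ‖u - v‖ := by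
        calc 1 / (2 * (‖R‖ + 1)) * ‖R (u - v)‖ ≤ 1 / (2 * (‖R‖ + 1)) * (‖R‖ * ‖u - v‖) := by gcongr
          _ ≤ 1 / (2 * (‖R‖ + 1)) * ((‖R‖ + 1) * ‖u - v‖) := by gcongr; linarith
          _ = 1 / 2 * ‖u - v‖ := by field_simp
      have h7 : ‖u - v‖ ≤ 0 := by linarith
      exact sub_eq_zero.1 (norm_le_zero_iff.1 h7)
    have hcv := lintegral_image_eq_lintegral_abs_det_fderiv_mul ν measurableSet_ball hder hinj F
    have h1 : ∫⁻ u in ball (0 : E) δ, G (p + R u) ∂ν ≤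
        ∫⁻ u in ball (0 : E) δ, 2 * (ENNReal.ofReal |((fderiv ℝ Θ (p + R u)).comp R).det|
          * F (Θ (p + R u))) ∂ν := by
      apply setLIntegral_mono' measurableSet_ball
      intro u hu
      have h2 := hb2 _ (hmem u hu)
      have h3 : (1 : ℝ≥0∞) ≤ 2 * ENNReal.ofReal |((fderiv ℝ Θ (p + R u)).comp R).det| := by
        have h4 : (2 : ℝ≥0∞) * ENNReal.ofReal |((fderiv ℝ Θ (p + R u)).comp R).det|
            = ENNReal.ofReal (2 * |((fderiv ℝ Θ (p + R u)).comp R).det|) := by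
          rw [ENNReal.ofReal_mul (by norm_num)]
          norm_num
        rw [h4, ← ENNReal.ofReal_one]
        exact ENNReal.ofReal_le_ofReal (by linarith)
      calc G (p + R u) = 1 * F (Θ (p + R u)) := by
            rw [one_mul, hG]
            simp only
            rw [hΘ'e _ (hmem u hu)]
        _ ≤ (2 * ENNReal.ofReal |((fderiv ℝ Θ (p + R u)).comp R).det|) * F (Θ (p + R u)) := by
            gcongr
        _ = _ := by rw [mul_assoc]
    refine h1.trans ?_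
    rw [lintegral_const_mul' _ _ (by norm_num), ← hcv]
    gcongr
    rintro _ ⟨u, hu, rfl⟩
    exact hb3 _ (hmem u hu)
  -- translation
  have htrans : ∀ u ∈ ball (0 : E) δ, ∫⁻ p in ball q₀ (ρ₀ / 3), F (Θ p) ∂μ ≤
      ∫⁻ p in ball q₀ (2 * ρ₀ / 3), G (p + R u) ∂μ := by
    intro u hu
    have h1 : ∫⁻ p in ball q₀ (ρ₀ / 3), F (Θ p) ∂μ = ∫⁻ p in ball q₀ (ρ₀ / 3), G p ∂μ := by
      apply setLIntegral_congr_fun measurableSet_ball
      intro p hp
      have h2 : p ∈ ball q₀ ρ₀ := ball_subset_ball (by linarith) hp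
      simp only [hG]
      rw [hΘ'e p h2]
    rw [h1, ← lintegral_indicator measurableSet_ball,
      ← lintegral_add_right_eq_self _ (R u), ← lintegral_indicator measurableSet_ball]
    apply lintegral_mono
    intro p
    by_cases h3 : p + R u ∈ ball q₀ (ρ₀ / 3)
    · have h4 : p ∈ ball q₀ (2 * ρ₀ / 3) := by
        have h5 := hRu u hu
        rw [mem_ball, dist_eq_norm] at h3 ⊢
        calc ‖p - q₀‖ = ‖(p + R u - q₀) - R u‖ := by congr 1; abel
          _ ≤ ‖p + R u - q₀‖ + ‖R u‖ := norm_sub_le _ _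
          _ < 2 * ρ₀ / 3 := by linarith
      simp only
      rw [Set.indicator_of_mem h3, Set.indicator_of_mem h4]
    · simp only
      rw [Set.indicator_of_notMem h3]
      exact zero_le
  have hmul : ν (ball (0 : E) δ) * ∫⁻ p in ball q₀ (ρ₀ / 3), F (Θ p) ∂μ ≤
      μ (ball q₀ (2 * ρ₀ / 3)) * (2 * ∫⁻ y in closedBall (Θ q₀) 1, F y ∂ν) := by
    calc ν (ball (0 : E) δ) * ∫⁻ p in ball q₀ (ρ₀ / 3), F (Θ p) ∂μ
        = ∫⁻ _ in ball (0 : E) δ, (∫⁻ p in ball q₀ (ρ₀ / 3), F (Θ p) ∂μ) ∂ν := by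
          rw [setLIntegral_const, mul_comm]
      _ ≤ ∫⁻ u in ball (0 : E) δ, (∫⁻ p in ball q₀ (2 * ρ₀ / 3), G (p + R u) ∂μ) ∂ν :=
          setLIntegral_mono' measurableSet_ball htrans
      _ = ∫⁻ p in ball q₀ (2 * ρ₀ / 3), (∫⁻ u in ball (0 : E) δ, G (p + R u) ∂ν) ∂μ := by
          apply lintegral_lintegral_swap
          apply Measurable.aemeasurable
          apply hGm.comp
          exact measurable_snd.add (R.continuous.measurable.comp measurable_fst)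
      _ ≤ ∫⁻ _ in ball q₀ (2 * ρ₀ / 3), (2 * ∫⁻ y in closedBall (Θ q₀) 1, F y ∂ν) ∂μ :=
          setLIntegral_mono' measurableSet_ball hinner
      _ = _ := by rw [setLIntegral_const, mul_comm]
  have h0 : ν (ball (0 : E) δ) ≠ 0 := (measure_ball_pos ν _ hδ0).ne'
  have h0' : ν (ball (0 : E) δ) ≠ ∞ := measure_ball_lt_top.ne
  calc ∫⁻ p in ball q₀ (ρ₀ / 3), F (Θ p) ∂μ
      = (ν (ball (0 : E) δ))⁻¹ * (ν (ball (0 : E) δ) * ∫⁻ p in ball q₀ (ρ₀ / 3), F (Θ p) ∂μ) := by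
        rw [← mul_assoc, ENNReal.inv_mul_cancel h0 h0', one_mul]
    _ ≤ (ν (ball (0 : E) δ))⁻¹ * (μ (ball q₀ (2 * ρ₀ / 3)) *
          (2 * ∫⁻ y in closedBall (Θ q₀) 1, F y ∂ν)) := by gcongr
    _ = _ := by ring

end Pool.Agent.H86.Nco
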