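import Pool.Agent.H86.Nco.HHaar
import Pool.Agent.H86.Nco.HMin
import Pool.Agent.H86.Nco.HPer2A
import Pool.Agent.H86.Nco.HPerDefs

/-!
# Module HPER2: the local `L¹` bound for the pulled back form

Let `i = idx q₀`, `Θ = Cor i ∘ ρ`, smooth near `q₀`, `y₀ = Θ q₀ = Cor i q₀`.  `DΘ(q₀) ∘ DPar_i(y₀) = id`, so `DΘ(q₀)` is
surjective.  Let `N = ker DΘ(q₀)` and `λ : V K → N` linear with `λ = id` on `N` (for instance
`λ = id - DPar_i(y₀) ∘ DΘ(q₀)`, which maps onto `N`).  `Ψ p = (Θ p, λ p) ∈ E K × N` has invertible derivative at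
`q₀` (inverse `(u, ν) ↦ DPar_i(y₀) u + ν`), so it is injective with `|det DΨ| ≥ c > 0` on a ball `B = B(q₀, r)`
(`det` with respect to a linear identification `E K × N ≃ V K`; `ContDiffAt.toOpenPartialHomeomorph` or
`ApproximatesLinearOn`), with `Θ(B)` contained in a compact set `C` and `ρ(B) ⊆ Dom K i`.  For measurable
`F ≥ 0`: `∫_B F(Θ p) dp ≤ c⁻¹ ∫_{Ψ(B)} F(y) dy dν ≤ c⁻¹ vol(λ B) ∫_C F(y) dy` (change of variables
`lintegral_image_eq_lintegral_abs_det_fderiv_mul`).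
On `B`: `‖cext ρ b p‖ ≤ c₁ ‖b.val i (Θ p)‖ ≤ c₂ √(nb2 (b.val i (Θ p)))`.  By Cauchy-Schwarz, `sq_le` and `piece_le`:
`∫_B ‖cext ρ b p‖ dp ≤ c₃ (∫_C nb2 (b.val i y) dy)^{1/2} ≤ c₄ √(nrmSq G b)`.
`uniform_bound`: compactness of `carrier K` (Lebesgue number).
-/

open scoped Manifold ContDiff Bundle Topology

noncomputable section

namespace Pool.Agent.H86.Nco

open Pool.Agent.H86.Anco MeasureTheory

set_option maxSynthPendingDepth 3

variable {K : ℕ}

/-- the pull back of a bilinear form on `E K` by a map -/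
private def pull (β : Bil K) (L : V K →L[ℝ] E K) : V K →L[ℝ] V K →L[ℝ] ℝ := β.bilinearComp L L

private lemma pull_norm_le (β : Bil K) (L : V K →L[ℝ] E K) : ‖pull β L‖ ≤ ‖L‖ ^ 2 * ‖β‖ := by
  apply ContinuousLinearMap.opNorm_le_bound₂ _ (by positivity)
  intro x y
  change ‖β (L x) (L y)‖ ≤ _
  calc ‖β (L x) (L y)‖ ≤ ‖β‖ * ‖L x‖ * ‖L y‖ := β.le_opNorm₂ _ _
    _ ≤ ‖β‖ * (‖L‖ * ‖x‖) * (‖L‖ * ‖y‖) := by
        gcongr
        · exact L.le_opNorm x
        · exact L.le_opNorm y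
    _ = ‖L‖ ^ 2 * ‖β‖ * ‖x‖ * ‖y‖ := by ring

private lemma pull_continuousOn {S : Set (V K)} {β : V K → Bil K} {L : V K → V K →L[ℝ] E K}
    (hβ : ContinuousOn β S) (hL : ContinuousOn L S) : ContinuousOn (fun p => pull (β p) (L p)) S := by
  unfold pull ContinuousLinearMap.bilinearComp
  have hf1 : Continuous (fun f : V K →L[ℝ] E K →L[ℝ] ℝ => f.flip) :=
    (ContinuousLinearMap.flipₗᵢ ℝ (V K) (E K) ℝ).continuous
  have hf2 : Continuous (fun f : V K →L[ℝ] V K →L[ℝ] ℝ => f.flip) :=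
    (ContinuousLinearMap.flipₗᵢ ℝ (V K) (V K) ℝ).continuous
  have h1 : ContinuousOn (fun p => (β p).comp (L p)) S := hβ.clm_comp hL
  have h2 : ContinuousOn (fun p => ((β p).comp (L p)).flip) S := hf1.comp_continuousOn h1
  have h3 : ContinuousOn (fun p => (((β p).comp (L p)).flip).comp (L p)) S := h2.clm_comp hL
  exact hf2.comp_continuousOn h3

/-- `cext` in a fixed chart -/
private lemma cext_eq {U : Set (V K)} {ρ : V K → V K} (h : IsRet U ρ) (b : Form2 K) (i : Ix)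
    {p : V K} (hp : p ∈ U) (hd : ρ p ∈ Dom K i) :
    cext ρ b.val p = pull (b.val i (Cor i (ρ p))) (fderiv ℝ (fun q => Cor i (ρ q)) p) := by
  have hdiff : DifferentiableAt ℝ ρ p :=
    (h.smooth.contDiffAt (h.isOpen.mem_nhds hp)).differentiableAt (by simp)
  have hmaps : ∀ᶠ z in 𝓝 p, ρ z ∈ carrier K := by
    filter_upwards [h.isOpen.mem_nhds hp] with z hz
    exact h.maps z hz
  have hcomp : fderiv ℝ (fun q => Cor i (ρ q)) p = (fderiv ℝ (Cor i) (ρ p)).comp (fderiv ℝ ρ p) :=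
    fderiv_comp (g := Cor i) p (differentiableAt_Cor i hd) hdiff
  refine ContinuousLinearMap.ext fun v => ContinuousLinearMap.ext fun w => ?_
  have h1 := amb_eq b.compat i (h.maps p hp) hd (tan_of_map hdiff hmaps v)
    (tan_of_map hdiff hmaps w)
  rw [hcomp]
  exact h1

/-- the norm of a bilinear form is bounded by the entries in the fixed basis -/
private lemma norm_le_nb2 (K : ℕ) : ∃ c : ℝ, 0 < c ∧ ∀ β : Bil K,
    ‖β‖ ^ 2 ≤ c * nb2 (fun u v => β u v) := by
  obtain ⟨M, hM⟩ : ∃ M : ℝ, 0 < M ∧ ∀ j : Fin (K + 4), ∀ v : E K, |(bs K).repr v j| ≤ M * ‖v‖ := by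
    have h1 : ∀ j : Fin (K + 4), ∃ M : ℝ, ∀ v : E K, |(bs K).repr v j| ≤ M * ‖v‖ := by
      intro j
      let L : E K →L[ℝ] ℝ := LinearMap.toContinuousLinearMap ((bs K).coord j)
      exact ⟨‖L‖, fun v => L.le_opNorm v⟩
    choose Mj hMj using h1
    refine ⟨∑ j, |Mj j| + 1, by positivity, fun j v => (hMj j v).trans ?_⟩
    gcongr
    have h2 : |Mj j| ≤ ∑ j, |Mj j| :=
      Finset.single_le_sum (f := fun j => |Mj j|) (fun _ _ => abs_nonneg _) (Finset.mem_univ j)
    linarith [le_abs_self (Mj j)]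
  obtain ⟨hM0, hM⟩ := hM
  refine ⟨(M ^ 2) ^ 2 * ((K + 4 : ℝ) * (K + 4)), by positivity, fun β => ?_⟩
  set S : ℝ := ∑ j, ∑ k, |β (bs K j) (bs K k)| with hS
  have hS0 : 0 ≤ S := Finset.sum_nonneg fun _ _ => Finset.sum_nonneg fun _ _ => abs_nonneg _
  have h1 : ‖β‖ ≤ M ^ 2 * S := by
    apply ContinuousLinearMap.opNorm_le_bound₂ _ (by positivity)
    intro v w
    have h2 : β v w = ∑ j, ∑ k, (bs K).repr v j * ((bs K).repr w k * β (bs K j) (bs K k)) := by
      conv_lhs => rw [← (bs K).sum_repr v, ← (bs K).sum_repr w]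
      simp only [map_sum, map_smul, sum_apply, smul_apply,
        smul_eq_mul, Finset.mul_sum]
      rw [Finset.sum_comm]
      refine Finset.sum_congr rfl fun j _ => Finset.sum_congr rfl fun k _ => by ring
    rw [h2, Real.norm_eq_abs]
    refine (Finset.abs_sum_le_sum_abs _ _).trans ?_
    have h3 : M ^ 2 * S * ‖v‖ * ‖w‖ = ∑ j, ∑ k, (M * ‖v‖) * ((M * ‖w‖) * |β (bs K j) (bs K k)|) := by
      rw [hS]
      simp only [← Finset.mul_sum]
      ring
    rw [h3]
    refine Finset.sum_le_sum fun j _ => ?_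
    refine (Finset.abs_sum_le_sum_abs _ _).trans ?_
    refine Finset.sum_le_sum fun k _ => ?_
    rw [abs_mul, abs_mul]
    gcongr
    · exact hM j v
    · exact hM k w
  have h4 : S ^ 2 ≤ ((K + 4 : ℝ) * (K + 4)) * nb2 (fun u v => β u v) := by
    have h5 : S = ∑ x : Fin (K + 4) × Fin (K + 4), |β (bs K x.1) (bs K x.2)| := by
      rw [hS, Fintype.sum_prod_type]
    have h6 : nb2 (fun u v => β u v)
        = ∑ x : Fin (K + 4) × Fin (K + 4), |β (bs K x.1) (bs K x.2)| ^ 2 := by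
      unfold nb2
      rw [Fintype.sum_prod_type]
      simp only [sq_abs]
    rw [h5, h6]
    have h7 := sq_sum_le_card_mul_sum_sq (s := (Finset.univ : Finset (Fin (K + 4) × Fin (K + 4))))
      (f := fun x => |β (bs K x.1) (bs K x.2)|)
    simpa using h7
  calc ‖β‖ ^ 2 ≤ (M ^ 2 * S) ^ 2 := by gcongr
    _ = (M ^ 2) ^ 2 * S ^ 2 := by ring
    _ ≤ (M ^ 2) ^ 2 * (((K + 4 : ℝ) * (K + 4)) * nb2 (fun u v => β u v)) := by gcongr
    _ = _ := by ring

/-- Cauchy-Schwarz -/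
private lemma sq_int_le {C : Set (E K)} (hC : IsCompact C) {f : E K → ℝ} (hf : Continuous f) :
    (∫ y in C, f y) ^ 2 ≤ (volume C).toReal * ∫ y in C, f y ^ 2 := by
  have hfi : IntegrableOn f C := hf.continuousOn.integrableOn_compact hC
  have hfi2 : IntegrableOn (fun y => f y ^ 2) C := (hf.pow 2).continuousOn.integrableOn_compact hC
  have hfin : volume C ≠ ⊤ := hC.measure_lt_top.ne
  have h1 : ∀ m : ℝ, 0 ≤ (volume C).toReal * (m * m) + (-2 * ∫ y in C, f y) * m
      + ∫ y in C, f y ^ 2 := by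
    intro m
    have h2 : 0 ≤ ∫ y in C, (f y - m) ^ 2 := integral_nonneg fun y => sq_nonneg _
    have h3 : ∫ y in C, (f y - m) ^ 2 = (∫ y in C, f y ^ 2) - (∫ y in C, 2 * m * f y)
        + ∫ _ in C, m ^ 2 := by
      have h4 : IntegrableOn (fun y => f y ^ 2 - 2 * m * f y) C := hfi2.sub (hfi.const_mul _)
      have h5 : IntegrableOn (fun _ : E K => m ^ 2) C := integrableOn_const hfin
      rw [← integral_sub hfi2 (hfi.const_mul _), ← integral_add h4 h5]
      refine integral_congr_ae (Filter.Eventually.of_forall fun y => ?_)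
      simp only
      ring
    rw [h3, integral_const_mul, setIntegral_const] at h2
    have h4 : volume.real C = (volume C).toReal := rfl
    rw [h4, smul_eq_mul] at h2
    nlinarith
  have h2 := discrim_le_zero h1
  unfold discrim at h2
  nlinarith

theorem local_bound (G : Met K) {U : Set (V K)} {ρ : V K → V K} (h : IsRet U ρ) {q₀ : V K}
    (hq₀ : q₀ ∈ carrier K) : ∃ r c : ℝ, 0 < r ∧ 0 < c ∧ Metric.ball q₀ r ⊆ U ∧
      ∀ b : Form2 K, IntegrableOn (fun p => ‖cext ρ b.val p‖) (Metric.ball q₀ r) ∧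
        ∫ p in Metric.ball q₀ r, ‖cext ρ b.val p‖ ≤ c * √(nrmSq G b) := by
  classical
  set i : Ix := idx q₀ with hi
  set Θ : V K → E K := fun p => Cor i (ρ p) with hΘ
  have hqU : q₀ ∈ U := h.sub hq₀
  have hρq : ρ q₀ = q₀ := h.fix q₀ hq₀
  have hqD : q₀ ∈ Dom K i := mem_Dom_idx q₀
  have hρc : ContDiffAt ℝ ∞ ρ q₀ := h.smooth.contDiffAt (h.isOpen.mem_nhds hqU)
  -- the open set where everything is smooth
  set W : Set (V K) := U ∩ ρ ⁻¹' (Dom K i) with hW
  have hWo : IsOpen W := h.smooth.continuousOn.isOpen_inter_preimage h.isOpen (isOpen_Dom i)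
  have hqW : q₀ ∈ W := ⟨hqU, by change ρ q₀ ∈ Dom K i; rw [hρq]; exact hqD⟩
  have hΘW : ContDiffOn ℝ ∞ Θ W :=
    (contDiffOn_Cor i).comp (h.smooth.mono Set.inter_subset_left) (fun p hp => hp.2)
  have hΘq : ContDiffAt ℝ ∞ Θ q₀ := hΘW.contDiffAt (hWo.mem_nhds hqW)
  have hfd : ContinuousOn (fderiv ℝ Θ) W := by
    exact (hΘW.continuousOn_fderiv_of_isOpen hWo (by simp))
  -- the right inverse
  set R : E K →L[ℝ] V K := fderiv ℝ (Par i) (Cor i q₀) with hR
  have hRinv : ∀ u, fderiv ℝ Θ q₀ (R u) = u := by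
    intro u
    have h1 : (fun z => Θ (Par i z)) = fun z : E K => z := by
      funext z
      change Cor i (ρ (Par i z)) = z
      rw [h.fix _ (Par_mem i z), Cor_Par]
    have hPC : Par i (Cor i q₀) = q₀ := Par_Cor i hq₀ hqD
    have h2 : DifferentiableAt ℝ Θ (Par i (Cor i q₀)) := by
      rw [hPC]
      exact hΘq.differentiableAt (by simp)
    have h3 : fderiv ℝ (fun z => Θ (Par i z)) (Cor i q₀) =
        (fderiv ℝ Θ (Par i (Cor i q₀))).comp (fderiv ℝ (Par i) (Cor i q₀)) :=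
      fderiv_comp (g := Θ) (Cor i q₀) h2 (differentiableAt_Par i _)
    rw [h1, fderiv_fun_id, hPC] at h3
    have h4 := congrArg (fun L : E K →L[ℝ] E K => L u) h3.symm
    simpa using h4
  -- a neighbourhood on which the derivative is bounded
  set M : ℝ := ‖fderiv ℝ Θ q₀‖ + 1 with hM
  have hM0 : 0 < M := by positivity
  have hW' : {p | p ∈ W ∧ ‖fderiv ℝ Θ p‖ < M} ∈ 𝓝 q₀ := by
    have h1 : ContinuousAt (fun p => ‖fderiv ℝ Θ p‖) q₀ :=
      (hfd.continuousAt (hWo.mem_nhds hqW)).norm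
    filter_upwards [hWo.mem_nhds hqW, h1.eventually (gt_mem_nhds (show ‖fderiv ℝ Θ q₀‖ < M by
      rw [hM]; linarith))] with p hp1 hp2
    exact ⟨hp1, hp2⟩
  obtain ⟨r, hr, hrW, C, hC, hΘC, c₁, hc₁, hbound⟩ :=
    submersion_lintegral (volume : Measure (V K)) (volume : Measure (E K)) Θ q₀
      (hΘq.of_le (by simp)) R hRinv hW'
  -- the constants
  obtain ⟨c₂, hc₂, hnb⟩ := norm_le_nb2 K
  obtain ⟨c₃, hc₃, hsq⟩ := sq_le (G.smooth i) (fun y => G.posDef i y) hC
  obtain ⟨c₄, hc₄, hpc⟩ := piece_le G i hC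
  set v : ℝ := (volume C).toReal with hv
  have hv0 : 0 ≤ v := ENNReal.toReal_nonneg
  set c₅ : ℝ := M ^ 2 * c₁.toReal * √(v * (c₂ * (c₃ * c₄))) with hc₅
  have hc₅0 : 0 ≤ c₅ := by positivity
  refine ⟨r, c₅ + 1, hr, by positivity, fun p hp => (hrW hp).1.1, fun b => ?_⟩
  -- the function on the ball
  have hcext : ∀ p ∈ Metric.ball q₀ r, cext ρ b.val p = pull (b.val i (Θ p)) (fderiv ℝ Θ p) :=
    fun p hp => cext_eq h b i (hrW hp).1.1 (hrW hp).1.2
  have hcont : ContinuousOn (fun p => ‖cext ρ b.val p‖) (Metric.ball q₀ r) := by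
    have h1 : ContinuousOn (fun p => pull (b.val i (Θ p)) (fderiv ℝ Θ p)) (Metric.ball q₀ r) := by
      apply pull_continuousOn
      · exact (b.smooth i).continuous.comp_continuousOn
          (hΘW.continuousOn.mono fun p hp => (hrW hp).1)
      · exact hfd.mono fun p hp => (hrW hp).1
    refine h1.norm.congr fun p hp => ?_
    simp only
    rw [hcext p hp]
  have hmeas : AEStronglyMeasurable (fun p => ‖cext ρ b.val p‖)
      (volume.restrict (Metric.ball q₀ r)) := hcont.aestronglyMeasurable measurableSet_ball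
  have hFc : Continuous (fun y => ‖b.val i y‖) := (b.smooth i).continuous.norm
  -- the integral over `C`
  have hI : ∫ y in C, ‖b.val i y‖ ≤ √(v * (c₂ * (c₃ * c₄))) * √(nrmSq G b) := by
    have h1 := sq_int_le hC hFc
    have hcont2 : Continuous (fun y => sq2 (G.g i y) (fun u v => b.val i y u v)) :=
      cont_sq2 G i (b.smooth i).continuous
    have h2 : ∫ y in C, ‖b.val i y‖ ^ 2 ≤ ∫ y in C, c₂ * (c₃ * sq2 (G.g i y)
        (fun u v => b.val i y u v)) := by
      apply setIntegral_mono_on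
      · exact (hFc.pow 2).continuousOn.integrableOn_compact hC
      · exact (continuous_const.mul (continuous_const.mul hcont2)).continuousOn.integrableOn_compact hC
      · exact hC.measurableSet
      · intro y hy
        refine (hnb (b.val i y)).trans ?_
        have h3 := ((hsq y hy).2.1 (b.val i y)).2
        gcongr
    have h3 : ∫ y in C, sq2 (G.g i y) (fun u v => b.val i y u v) ≤ c₄ * nrmSq G b := by
      apply hpc (fun i y => sq2 (G.g i y) (fun u v => b.val i y u v))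
      · exact compat0_sq2 G b.compat
      · exact fun i => cont_sq2 G i (b.smooth i).continuous
      · exact fun i y => Finset.sum_nonneg fun _ _ => Finset.sum_nonneg fun _ _ => sq_nonneg _
    rw [integral_const_mul, integral_const_mul] at h2
    rw [← Real.sqrt_mul (by positivity)]
    apply Real.le_sqrt_of_sq_le
    calc (∫ y in C, ‖b.val i y‖) ^ 2 ≤ v * ∫ y in C, ‖b.val i y‖ ^ 2 := h1
      _ ≤ v * (c₂ * (c₃ * ∫ y in C, sq2 (G.g i y) (fun u v => b.val i y u v))) := by gcongr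
      _ ≤ v * (c₂ * (c₃ * (c₄ * nrmSq G b))) := by gcongr
      _ = v * (c₂ * (c₃ * c₄)) * nrmSq G b := by ring
  -- the lintegral over the ball
  have hmain : ∫⁻ p in Metric.ball q₀ r, ENNReal.ofReal ‖cext ρ b.val p‖ ≤
      ENNReal.ofReal (c₅ * √(nrmSq G b)) := by
    have hFm : Measurable (fun y => ENNReal.ofReal ‖b.val i y‖) :=
      ENNReal.measurable_ofReal.comp hFc.measurable
    have h1 : ∫⁻ p in Metric.ball q₀ r, ENNReal.ofReal ‖cext ρ b.val p‖ ≤
        ∫⁻ p in Metric.ball q₀ r, ENNReal.ofReal (M ^ 2) * ENNReal.ofReal ‖b.val i (Θ p)‖ := by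
      apply setLIntegral_mono' measurableSet_ball
      intro p hp
      rw [← ENNReal.ofReal_mul (by positivity), hcext p hp]
      apply ENNReal.ofReal_le_ofReal
      refine (pull_norm_le _ _).trans ?_
      have h2 := (hrW hp).2
      gcongr
    refine h1.trans ?_
    rw [lintegral_const_mul' _ _ ENNReal.ofReal_ne_top]
    have h2 := hbound _ hFm
    have h3 : ∫⁻ y in C, ENNReal.ofReal ‖b.val i y‖ = ENNReal.ofReal (∫ y in C, ‖b.val i y‖) := by
      rw [ofReal_integral_eq_lintegral_ofReal]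
      · exact hFc.continuousOn.integrableOn_compact hC
      · exact Filter.Eventually.of_forall fun y => norm_nonneg _
    rw [h3] at h2
    calc ENNReal.ofReal (M ^ 2) * ∫⁻ p in Metric.ball q₀ r, ENNReal.ofReal ‖b.val i (Θ p)‖
        ≤ ENNReal.ofReal (M ^ 2) * (c₁ * ENNReal.ofReal (∫ y in C, ‖b.val i y‖)) := by gcongr
      _ = ENNReal.ofReal (M ^ 2 * (c₁.toReal * ∫ y in C, ‖b.val i y‖)) := by
          rw [ENNReal.ofReal_mul (by positivity), ENNReal.ofReal_mul ENNReal.toReal_nonneg,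
            ENNReal.ofReal_toReal hc₁]
      _ ≤ ENNReal.ofReal (c₅ * √(nrmSq G b)) := by
          apply ENNReal.ofReal_le_ofReal
          have h4 : 0 ≤ M ^ 2 * c₁.toReal := by positivity
          calc M ^ 2 * (c₁.toReal * ∫ y in C, ‖b.val i y‖)
              = M ^ 2 * c₁.toReal * ∫ y in C, ‖b.val i y‖ := by ring
            _ ≤ M ^ 2 * c₁.toReal * (√(v * (c₂ * (c₃ * c₄))) * √(nrmSq G b)) := by gcongr
            _ = c₅ * √(nrmSq G b) := by rw [hc₅]; ring
  have hInt : IntegrableOn (fun p => ‖cext ρ b.val p‖) (Metric.ball q₀ r) := by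
    refine ⟨hmeas, ?_⟩
    rw [hasFiniteIntegral_iff_ofReal (Filter.Eventually.of_forall fun p => norm_nonneg _)]
    exact hmain.trans_lt ENNReal.ofReal_lt_top
  refine ⟨hInt, ?_⟩
  have h1 : ENNReal.ofReal (∫ p in Metric.ball q₀ r, ‖cext ρ b.val p‖) ≤
      ENNReal.ofReal (c₅ * √(nrmSq G b)) := by
    rw [ofReal_integral_eq_lintegral_ofReal hInt
      (Filter.Eventually.of_forall fun p => norm_nonneg _)]
    exact hmain
  have h2 := (ENNReal.ofReal_le_ofReal_iff (by positivity)).1 h1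
  refine h2.trans ?_
  have h3 : 0 ≤ √(nrmSq G b) := Real.sqrt_nonneg _
  nlinarith

theorem uniform_bound (G : Met K) {U : Set (V K)} {ρ : V K → V K} (h : IsRet U ρ) :
    ∃ r c : ℝ, 0 < r ∧ 0 < c ∧ ∀ q ∈ carrier K, Metric.ball q r ⊆ U ∧
      ∀ b : Form2 K, IntegrableOn (fun p => ‖cext ρ b.val p‖) (Metric.ball q r) ∧
        ∫ p in Metric.ball q r, ‖cext ρ b.val p‖ ≤ c * √(nrmSq G b) := by
  classical
  have hloc : ∀ q : V K, ∃ r c : ℝ, 0 < r ∧ 0 < c ∧ (q ∈ carrier K → Metric.ball q r ⊆ U ∧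
      ∀ b : Form2 K, IntegrableOn (fun p => ‖cext ρ b.val p‖) (Metric.ball q r) ∧
        ∫ p in Metric.ball q r, ‖cext ρ b.val p‖ ≤ c * √(nrmSq G b)) := by
    intro q
    by_cases hq : q ∈ carrier K
    · obtain ⟨r, c, hr, hc, h1, h2⟩ := local_bound G h hq
      exact ⟨r, c, hr, hc, fun _ => ⟨h1, h2⟩⟩
    · exact ⟨1, 1, one_pos, one_pos, fun hq' => absurd hq' hq⟩
  choose r c hr hc hrc using hloc
  have hcomp : IsCompact (carrier K) := isCompact_carrier
  obtain ⟨t, ht1, ht2⟩ := hcomp.elim_nhds_subcover (fun q => Metric.ball q (r q))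
    (fun q _ => Metric.ball_mem_nhds q (hr q))
  obtain ⟨δ, hδ, hleb⟩ := lebesgue_number_lemma_of_metric
    (c := fun q : {x // x ∈ t} => Metric.ball q.1 (r q.1)) hcomp (fun q => Metric.isOpen_ball) (by
      intro x hx
      obtain ⟨q, hq, hx2⟩ := Set.mem_iUnion₂.1 (ht2 hx)
      exact Set.mem_iUnion.2 ⟨⟨q, hq⟩, hx2⟩)
  have hcs : 0 ≤ ∑ q ∈ t, c q := Finset.sum_nonneg fun q _ => (hc q).le
  refine ⟨δ, ∑ q ∈ t, c q + 1, hδ, by positivity, fun q hq => ?_⟩
  obtain ⟨⟨q', hq't⟩, hsub⟩ := hleb q hq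
  obtain ⟨h1, h2⟩ := hrc q' (ht1 q' hq't)
  have hsub' : Metric.ball q δ ⊆ Metric.ball q' (r q') := hsub
  refine ⟨hsub'.trans h1, fun b => ?_⟩
  obtain ⟨h3, h4⟩ := h2 b
  refine ⟨h3.mono_set hsub', ?_⟩
  have h5 : ∫ p in Metric.ball q δ, ‖cext ρ b.val p‖ ≤
      ∫ p in Metric.ball q' (r q'), ‖cext ρ b.val p‖ :=
    setIntegral_mono_set h3 (Filter.Eventually.of_forall fun p => norm_nonneg _)
      hsub'.eventuallyLE
  have h6 : c q' ≤ ∑ q ∈ t, c q :=
    Finset.single_le_sum (f := c) (fun q _ => (hc q).le) hq't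
  have h7 : 0 ≤ √(nrmSq G b) := Real.sqrt_nonneg _
  nlinarith

end Pool.Agent.H86.Nco
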