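import Mathlib

/-!
# Averaging a period over translations (used by HPER)
-/

open scoped ContDiff Topology

noncomputable section

namespace Pool.Agent.H86.Nco

open MeasureTheory Set Metric

set_option maxSynthPendingDepth 3

/-- averaging over translations -/
theorem average_bound {V : Type*} [NormedAddCommGroup V] [NormedSpace ℝ V]
    [FiniteDimensional ℝ V] [MeasureSpace V] [BorelSpace V]
    [(volume : Measure V).IsAddHaarMeasure] (s : ℝ × ℝ → V) (hs : ContDiff ℝ ∞ s) (U : Set V)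
    {r : ℝ} (hr : 0 < r) (hsU : ∀ x, ball (s x) r ⊆ U) (M : ℝ)
    (hM1 : ∀ x ∈ Icc (0 : ℝ) 1 ×ˢ Icc (0 : ℝ) 1,
      ‖fderiv ℝ s x (1, 0)‖ ≤ M ∧ ‖fderiv ℝ s x (0, 1)‖ ≤ M)
    (Om : V → V →L[ℝ] V →L[ℝ] ℝ) (hw : ContinuousOn Om U) (A P : ℝ)
    (hA : ∀ x, IntegrableOn (fun p => ‖Om p‖) (ball (s x) r) ∧ ∫ p in ball (s x) r, ‖Om p‖ ≤ A)
    (hP : ∀ z : V, ‖z‖ < r → ∫ x in (0 : ℝ)..1, ∫ y in (0 : ℝ)..1,
      Om (s (x, y) + z) (fderiv ℝ s (x, y) (1, 0)) (fderiv ℝ s (x, y) (0, 1)) = P) :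
    (volume : Measure V).real (closedBall (0 : V) (r / 2)) * |P| ≤ M ^ 2 * A := by
  obtain ⟨Q, hQ⟩ : ∃ Q : Set (ℝ × ℝ), Q = Ioc (0 : ℝ) 1 ×ˢ Ioc (0 : ℝ) 1 := ⟨_, rfl⟩
  obtain ⟨Q', hQ'⟩ : ∃ Q' : Set (ℝ × ℝ), Q' = Icc (0 : ℝ) 1 ×ˢ Icc (0 : ℝ) 1 := ⟨_, rfl⟩
  have hQQ' : Q ⊆ Q' := by
    rw [hQ, hQ']
    exact prod_mono Ioc_subset_Icc_self Ioc_subset_Icc_self
  have hQc : IsCompact Q' := by
    rw [hQ']
    exact isCompact_Icc.prod isCompact_Icc
  have hQm : MeasurableSet Q := by
    rw [hQ]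
    exact measurableSet_Ioc.prod measurableSet_Ioc
  obtain ⟨B, hB⟩ : ∃ B : Set V, B = closedBall (0 : V) (r / 2) := ⟨_, rfl⟩
  have hBc : IsCompact B := by rw [hB]; exact isCompact_closedBall _ _
  have hBm : MeasurableSet B := by rw [hB]; exact measurableSet_closedBall
  have hBz : ∀ z ∈ B, ‖z‖ < r := by
    intro z hz
    rw [hB, mem_closedBall, dist_zero_right] at hz
    linarith
  have hvolQ : (volume : Measure (ℝ × ℝ)).real Q = 1 := by
    rw [hQ, Measure.volume_eq_prod, measureReal_prod_prod]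
    simp
  -- continuity
  have hnorm : Continuous (fun L : V →L[ℝ] V →L[ℝ] ℝ => ‖L‖) := continuous_norm
  have hsc : Continuous s := hs.continuous
  have hfc : Continuous (fderiv ℝ s) := hs.continuous_fderiv (by simp)
  have hcont : ContinuousOn (fun q : (ℝ × ℝ) × V => Om (s q.1 + q.2)) (Q' ×ˢ B) := by
    apply hw.comp
    · exact ((hsc.comp continuous_fst).add continuous_snd).continuousOn
    · intro q hq
      apply hsU q.1
      rw [mem_ball, dist_eq_norm]
      have : s q.1 + q.2 - s q.1 = q.2 := by abel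
      rw [this]
      exact hBz q.2 hq.2
  have hint : Integrable (fun q : (ℝ × ℝ) × V => ‖Om (s q.1 + q.2)‖)
      (((volume : Measure (ℝ × ℝ)).restrict Q).prod ((volume : Measure V).restrict B)) := by
    rw [Measure.prod_restrict]
    have h1 : IntegrableOn (fun q : (ℝ × ℝ) × V => ‖Om (s q.1 + q.2)‖) (Q' ×ˢ B)
        ((volume : Measure (ℝ × ℝ)).prod (volume : Measure V)) :=
      ContinuousOn.integrableOn_compact (hQc.prod hBc) (hnorm.comp_continuousOn hcont)
    exact h1.mono_set (prod_mono hQQ' le_rfl)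
  -- the bound for fixed z
  have key1 : ∀ z ∈ B, |P| ≤ M ^ 2 * ∫ p in Q, ‖Om (s p + z)‖ := by
    intro z hz
    have hcz : ContinuousOn (fun p : ℝ × ℝ => Om (s p + z)) Q' :=
      hcont.comp (f := fun p : ℝ × ℝ => (p, z)) (by fun_prop) (fun p hp => ⟨hp, hz⟩)
    have hF : ContinuousOn (fun p : ℝ × ℝ => Om (s p + z) (fderiv ℝ s p (1, 0))
        (fderiv ℝ s p (0, 1))) Q' := by
      have h2 : Continuous fun p : ℝ × ℝ => fderiv ℝ s p (1, 0) := hfc.clm_apply continuous_const
      have h3 : Continuous fun p : ℝ × ℝ => fderiv ℝ s p (0, 1) := hfc.clm_apply continuous_const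
      exact (hcz.clm_apply h2.continuousOn).clm_apply h3.continuousOn
    have hFi : IntegrableOn (fun p : ℝ × ℝ => Om (s p + z) (fderiv ℝ s p (1, 0))
        (fderiv ℝ s p (0, 1))) Q ((volume : Measure ℝ).prod (volume : Measure ℝ)) :=
      (hF.integrableOn_compact hQc).mono_set hQQ'
    have hni : IntegrableOn (fun p : ℝ × ℝ => ‖Om (s p + z)‖) Q :=
      (ContinuousOn.integrableOn_compact hQc (hnorm.comp_continuousOn hcz)).mono_set hQQ'
    have h1 := hP z (hBz z hz)
    rw [intervalIntegral.integral_of_le (by norm_num)] at h1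
    have h2 : ∫ x in Ioc (0 : ℝ) 1, ∫ y in (0 : ℝ)..1,
        Om (s (x, y) + z) (fderiv ℝ s (x, y) (1, 0)) (fderiv ℝ s (x, y) (0, 1))
        = ∫ x in Ioc (0 : ℝ) 1, ∫ y in Ioc (0 : ℝ) 1,
        Om (s (x, y) + z) (fderiv ℝ s (x, y) (1, 0)) (fderiv ℝ s (x, y) (0, 1)) := by
      congr 1
      funext x
      rw [intervalIntegral.integral_of_le (by norm_num)]
    rw [h2] at h1
    rw [hQ] at hFi
    rw [← setIntegral_prod (fun p : ℝ × ℝ => Om (s p + z) (fderiv ℝ s p (1, 0))
      (fderiv ℝ s p (0, 1))) hFi, ← Measure.volume_eq_prod, ← hQ] at h1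
    rw [← h1, ← Real.norm_eq_abs, ← integral_const_mul]
    apply norm_integral_le_of_norm_le (hni.const_mul _)
    filter_upwards [ae_restrict_mem hQm] with p hp
    have hp' := hM1 p (hQ' ▸ hQQ' hp)
    calc ‖Om (s p + z) (fderiv ℝ s p (1, 0)) (fderiv ℝ s p (0, 1))‖
        ≤ ‖Om (s p + z)‖ * ‖fderiv ℝ s p (1, 0)‖ * ‖fderiv ℝ s p (0, 1)‖ :=
          ContinuousLinearMap.le_opNorm₂ _ _ _
      _ ≤ ‖Om (s p + z)‖ * M * M := by
          have hM0 : 0 ≤ M := (norm_nonneg _).trans hp'.1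
          gcongr
          · exact hp'.1
          · exact hp'.2
      _ = M ^ 2 * ‖Om (s p + z)‖ := by ring
  -- the bound for fixed p
  have key2 : ∀ p, ∫ z in B, ‖Om (s p + z)‖ ≤ A := by
    intro p
    have hmp := measurePreserving_add_left (volume : Measure V) (s p)
    have hme : MeasurableEmbedding (fun z : V => s p + z) := measurableEmbedding_addLeft (s p)
    have hpre : (fun z : V => s p + z) ⁻¹' ball (s p) r = ball 0 r := by
      ext z
      simp [mem_ball, dist_eq_norm]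
    have h1 := hmp.setIntegral_preimage_emb hme (fun q => ‖Om q‖) (ball (s p) r)
    rw [hpre] at h1
    have h2 := (hmp.integrableOn_comp_preimage hme (f := fun q => ‖Om q‖)
      (s := ball (s p) r)).mpr (hA p).1
    rw [hpre] at h2
    refine le_trans ?_ (hA p).2
    rw [← h1]
    apply setIntegral_mono_set h2
    · exact Filter.Eventually.of_forall fun z => norm_nonneg (Om (s p + z))
    · apply Filter.Eventually.of_forall
      intro z hz
      have := hBz z hz
      change z ∈ ball (0 : V) r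
      rwa [mem_ball, dist_zero_right]
  -- integration over z
  have h3 : ∫ _z in B, |P| ≤ ∫ z in B, M ^ 2 * ∫ p in Q, ‖Om (s p + z)‖ := by
    apply setIntegral_mono_on
    · exact integrableOn_const hBc.measure_lt_top.ne
    · exact hint.integral_prod_right.const_mul _
    · exact hBm
    · exact key1
  rw [setIntegral_const, smul_eq_mul, integral_const_mul] at h3
  have h4 := integral_integral_swap (f := fun (p : ℝ × ℝ) (z : V) => ‖Om (s p + z)‖) hint
  have h5 : ∫ p in Q, ∫ z in B, ‖Om (s p + z)‖ ≤ A := by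
    calc ∫ p in Q, ∫ z in B, ‖Om (s p + z)‖ ≤ ∫ _p in Q, A := by
          apply setIntegral_mono_on
          · exact hint.integral_prod_left
          · exact integrableOn_const (hQc.measure_lt_top.trans_le' (measure_mono hQQ')).ne
          · exact hQm
          · exact fun p _ => key2 p
      _ = A := by rw [setIntegral_const, hvolQ, one_smul]
  rw [← h4] at h3
  rw [← hB]
  refine h3.trans ?_
  exact mul_le_mul_of_nonneg_left h5 (sq_nonneg M)

end Pool.Agent.H86.Nco
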