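import Pool.Agent.H86.Anco.Space

/-!
# Module RET: a smooth retraction of a neighbourhood of `M` in the ambient space onto `M`

Explicit formula.  For `p = (c, d, v₀, v₁, x, s)` put `r = √(‖c‖² + d²)`, `c' = c / r`, `d' = d / r`,
project `(v₀, v₁)` to the line belonging to `(c', d')`:
`v₀' = ((1 + d') v₀ + conj c' v₁) / 2`, `v₁' = (c' v₀ + (1 - d') v₁) / 2`,
and divide `(v₀', v₁', x, s)` by `q = √(‖v₀'‖² + ‖v₁'‖² + ‖x‖² + s²)`.
`U = {r ≠ 0, q ≠ 0}` in the form `{p | 0 < ‖c‖² + d² ∧ 0 < ‖..‖² + ...}` (the second condition is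
open on the first set by continuity).  Check `(1 + d') v₁' = c' v₀'`: both sides are
`(1 + d') (c' v₀ + (1 - d') v₁) / 2` and `c' ((1 + d') v₀ + conj c' v₁) / 2`, equal since
`‖c'‖² = 1 - d'²`.  On the carrier `r = 1`, `v₀' = v₀` because `conj c v₁ = (1 - d) v₀`, and
similarly `v₁' = v₁`, so `q = 1`.
-/

open scoped Manifold ContDiff Bundle Topology

noncomputable section

namespace Pool.Agent.H86.Nco

open Pool.Agent.H86.Anco

variable {K : ℕ}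

namespace Ret

def r2 (p : V K) : ℝ := ‖pc p‖ ^ 2 + pd p ^ 2

def ri (p : V K) : ℝ := (√(r2 p))⁻¹

def cc (p : V K) : ℂ := ri p • pc p

def dd (p : V K) : ℝ := ri p * pd p

def w0 (p : V K) : ℂ := (1 / 2 : ℝ) • ((1 + dd p) • pv0 p + (starRingEnd ℂ) (cc p) * pv1 p)

def w1 (p : V K) : ℂ := (1 / 2 : ℝ) • (cc p * pv0 p + (1 - dd p) • pv1 p)

def q2 (p : V K) : ℝ := ‖w0 p‖ ^ 2 + ‖w1 p‖ ^ 2 + ‖px p‖ ^ 2 + ps p ^ 2

def qi (p : V K) : ℝ := (√(q2 p))⁻¹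

def rho (p : V K) : V K :=
  (cc p, dd p, qi p • w0 p, qi p • w1 p, qi p • px p, qi p * ps p)

lemma cd_r2 : ContDiff ℝ ∞ (r2 : V K → ℝ) := by
  unfold r2
  exact (pc.contDiff.norm_sq ℝ).add (pd.contDiff.pow 2)

lemma cd_ri {p : V K} (hp : 0 < r2 p) : ContDiffAt ℝ ∞ (ri : V K → ℝ) p := by
  unfold ri
  exact ((cd_r2.contDiffAt).sqrt hp.ne').inv (Real.sqrt_pos.2 hp).ne'

lemma cd_cc {p : V K} (hp : 0 < r2 p) : ContDiffAt ℝ ∞ (cc : V K → ℂ) p := by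
  unfold cc
  exact (cd_ri hp).smul pc.contDiff.contDiffAt

lemma cd_dd {p : V K} (hp : 0 < r2 p) : ContDiffAt ℝ ∞ (dd : V K → ℝ) p := by
  unfold dd
  exact (cd_ri hp).mul pd.contDiff.contDiffAt

lemma cd_conj {p : V K} (hp : 0 < r2 p) :
    ContDiffAt ℝ ∞ (fun p : V K => (starRingEnd ℂ) (cc p)) p := by
  have h := (Complex.conjCLE : ℂ →L[ℝ] ℂ).contDiff (n := ∞)
  exact h.contDiffAt.comp p (cd_cc hp)

lemma cd_w0 {p : V K} (hp : 0 < r2 p) : ContDiffAt ℝ ∞ (w0 : V K → ℂ) p := by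
  have h0 : ContDiffAt ℝ ∞ (fun p : V K => 1 + dd p) p := contDiffAt_const.add (cd_dd hp)
  have h1 : ContDiffAt ℝ ∞ (fun p : V K => (1 + dd p) • pv0 p) p :=
    h0.smul pv0.contDiff.contDiffAt
  have h2 : ContDiffAt ℝ ∞ (fun p : V K => (starRingEnd ℂ) (cc p) * pv1 p) p :=
    (cd_conj hp).mul pv1.contDiff.contDiffAt
  exact (h1.add h2).const_smul (1 / 2 : ℝ)

lemma cd_w1 {p : V K} (hp : 0 < r2 p) : ContDiffAt ℝ ∞ (w1 : V K → ℂ) p := by
  have h0 : ContDiffAt ℝ ∞ (fun p : V K => 1 - dd p) p := contDiffAt_const.sub (cd_dd hp)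
  have h1 : ContDiffAt ℝ ∞ (fun p : V K => cc p * pv0 p) p :=
    (cd_cc hp).mul pv0.contDiff.contDiffAt
  have h2 : ContDiffAt ℝ ∞ (fun p : V K => (1 - dd p) • pv1 p) p :=
    h0.smul pv1.contDiff.contDiffAt
  exact (h1.add h2).const_smul (1 / 2 : ℝ)

lemma cd_q2 {p : V K} (hp : 0 < r2 p) : ContDiffAt ℝ ∞ (q2 : V K → ℝ) p := by
  unfold q2
  exact ((((cd_w0 hp).norm_sq ℝ).add ((cd_w1 hp).norm_sq ℝ)).add
    (px.contDiff.contDiffAt.norm_sq ℝ)).add (ps.contDiff.contDiffAt.pow 2)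

lemma cd_qi {p : V K} (hp : 0 < r2 p) (hq : 0 < q2 p) : ContDiffAt ℝ ∞ (qi : V K → ℝ) p := by
  unfold qi
  exact ((cd_q2 hp).sqrt hq.ne').inv (Real.sqrt_pos.2 hq).ne'

lemma cd_rho {p : V K} (hp : 0 < r2 p) (hq : 0 < q2 p) : ContDiffAt ℝ ∞ (rho : V K → V K) p := by
  unfold rho
  exact (cd_cc hp).prodMk ((cd_dd hp).prodMk (((cd_qi hp hq).smul (cd_w0 hp)).prodMk
    (((cd_qi hp hq).smul (cd_w1 hp)).prodMk (((cd_qi hp hq).smul px.contDiff.contDiffAt).prodMk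
      ((cd_qi hp hq).mul ps.contDiff.contDiffAt)))))

lemma unit1 {p : V K} (hp : 0 < r2 p) : ‖cc p‖ ^ 2 + dd p ^ 2 = 1 := by
  have h1 : √(r2 p) ^ 2 = r2 p := Real.sq_sqrt hp.le
  have h2 : √(r2 p) ≠ 0 := (Real.sqrt_pos.2 hp).ne'
  unfold cc dd ri
  rw [norm_smul, mul_pow, mul_pow, Real.norm_eq_abs, sq_abs, ← mul_add]
  have h3 : ‖pc p‖ ^ 2 + pd p ^ 2 = √(r2 p) ^ 2 := by rw [h1]; rfl
  rw [h3]
  field_simp

lemma conj_cc {p : V K} (hp : 0 < r2 p) :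
    cc p * (starRingEnd ℂ) (cc p) = ((1 - dd p ^ 2 : ℝ) : ℂ) := by
  rw [Complex.mul_conj, Complex.normSq_eq_norm_sq]
  congr 1
  linarith [unit1 hp]

lemma line1 {p : V K} (hp : 0 < r2 p) :
    ((1 + dd p : ℝ) : ℂ) * w1 p = cc p * w0 p := by
  have h := conj_cc hp
  unfold w0 w1
  simp only [Complex.real_smul]
  push_cast at h ⊢
  linear_combination (-(1 / 2) * pv1 p) * h

lemma line2 {p : V K} (hp : 0 < r2 p) :
    ((1 - dd p : ℝ) : ℂ) * w0 p = (starRingEnd ℂ) (cc p) * w1 p := by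
  have h := conj_cc hp
  unfold w0 w1
  simp only [Complex.real_smul]
  push_cast at h ⊢
  linear_combination (-(1 / 2) * pv0 p) * h

lemma rho_mem {p : V K} (hp : 0 < r2 p) (hq : 0 < q2 p) : rho p ∈ carrier K := by
  refine ⟨?_, ?_, ?_, ?_⟩
  · simp only [rho, pc_apply, pd_apply]
    exact unit1 hp
  · simp only [rho, pc_apply, pd_apply, pv0_apply, pv1_apply, Complex.real_smul]
    linear_combination ((qi p : ℝ) : ℂ) * line1 hp
  · simp only [rho, pc_apply, pd_apply, pv0_apply, pv1_apply, Complex.real_smul]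
    linear_combination ((qi p : ℝ) : ℂ) * line2 hp
  · simp only [rho, pv0_apply, pv1_apply, px_apply, ps_apply, norm_smul, mul_pow,
      Real.norm_eq_abs, sq_abs]
    have h1 : √(q2 p) ^ 2 = q2 p := Real.sq_sqrt hq.le
    have h2 : √(q2 p) ≠ 0 := (Real.sqrt_pos.2 hq).ne'
    have h3 : ‖w0 p‖ ^ 2 + ‖w1 p‖ ^ 2 + ‖px p‖ ^ 2 + ps p ^ 2 = √(q2 p) ^ 2 := by rw [h1]; rfl
    rw [← mul_add, ← mul_add, ← mul_add, h3]
    unfold qi
    field_simp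

lemma fix {p : V K} (hp : p ∈ carrier K) :
    r2 p = 1 ∧ q2 p = 1 ∧ rho p = p := by
  obtain ⟨h1, h2, h3, h4⟩ := hp
  have hr : r2 p = 1 := h1
  have hri : ri p = 1 := by rw [ri, hr]; simp
  have hcc : cc p = pc p := by rw [cc, hri, one_smul]
  have hdd : dd p = pd p := by rw [dd, hri, one_mul]
  have hw0 : w0 p = pv0 p := by
    unfold w0
    rw [hcc, hdd, ← h3]
    simp only [Complex.real_smul]
    push_cast
    ring
  have hw1 : w1 p = pv1 p := by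
    unfold w1
    rw [hcc, hdd, ← h2]
    simp only [Complex.real_smul]
    push_cast
    ring
  have hq : q2 p = 1 := by
    rw [q2, hw0, hw1]; exact h4
  have hqi : qi p = 1 := by rw [qi, hq]; simp
  refine ⟨hr, hq, ?_⟩
  rw [rho, hcc, hdd, hw0, hw1, hqi, one_smul, one_smul, one_smul, one_mul]
  obtain ⟨c, d, v0, v1, x, s⟩ := p
  rfl

end Ret

open Ret in
theorem exists_ret (K : ℕ) : ∃ (U : Set (V K)) (ρ : V K → V K), IsOpen U ∧ carrier K ⊆ U ∧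
    ContDiffOn ℝ ∞ ρ U ∧ (∀ p ∈ U, ρ p ∈ carrier K) ∧ ∀ p ∈ carrier K, ρ p = p := by
  refine ⟨{p | 0 < r2 p ∧ 0 < q2 p}, rho, ?_, ?_, ?_, ?_, ?_⟩
  · rw [isOpen_iff_mem_nhds]
    rintro p ⟨hp, hq⟩
    filter_upwards [(cd_r2.continuous.continuousAt (x := p)).eventually (lt_mem_nhds hp),
      ((cd_q2 hp).continuousAt).eventually (lt_mem_nhds hq)] with z h1 h2
    exact ⟨h1, h2⟩
  · intro p hp
    obtain ⟨h1, h2, -⟩ := fix hp
    exact ⟨by rw [h1]; norm_num, by rw [h2]; norm_num⟩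
  · rintro p ⟨hp, hq⟩
    exact (cd_rho hp hq).contDiffWithinAt
  · rintro p ⟨hp, hq⟩
    exact rho_mem hp hq
  · intro p hp
    exact (fix hp).2.2

end Pool.Agent.H86.Nco
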