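import Pool.Agent.H86.Nco.H23
import Pool.Agent.H86.Nco.HPer1
import Pool.Agent.H86.Nco.HPer2
import Pool.Agent.H86.Nco.HPerAvg
import Pool.Agent.H86.Nco.Ret

/-!
# Module HPER: cohomologous closed forms have the same periods

`per_bound`: with `r` from `uniform_bound` average `per_translate` over `z ∈ ball 0 r` (normalised Lebesgue
measure of `V K`), exchange the integrals (everything is continuous on compact sets; shrink `r` to be
safe):
`|Per b s| ≤ vol(ball)⁻¹ ∬ (∫_{ball 0 r} ‖cext (s x + z)‖ dz) ‖∂₁s‖ ‖∂₂s‖ dx ≤ c_s √(nrmSq G b)`.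
`h6`: `c = a - f - dF α` is closed, `nrmSq G c < ε`, `Per c s = Per a s - Per f s - 0` (`Per` is linear, `per_exact`).
-/

open scoped Manifold ContDiff Bundle Topology

noncomputable section

namespace Pool.Agent.H86.Nco

open Pool.Agent.H86.Anco MeasureTheory

set_option maxSynthPendingDepth 3

variable {K : ℕ}

private theorem haarV (K : ℕ) : (volume : Measure (V K)).IsAddHaarMeasure := by
  have h1 : (volume : Measure (F K × ℝ)).IsAddHaarMeasure := by
    rw [Measure.volume_eq_prod]; exact Measure.prod.instIsAddHaarMeasure _ _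
  have h2 : (volume : Measure (ℂ × F K × ℝ)).IsAddHaarMeasure := by
    rw [Measure.volume_eq_prod]; exact Measure.prod.instIsAddHaarMeasure _ _
  have h3 : (volume : Measure (ℂ × ℂ × F K × ℝ)).IsAddHaarMeasure := by
    rw [Measure.volume_eq_prod]; exact Measure.prod.instIsAddHaarMeasure _ _
  have h4 : (volume : Measure (ℝ × ℂ × ℂ × F K × ℝ)).IsAddHaarMeasure := by
    rw [Measure.volume_eq_prod]; exact Measure.prod.instIsAddHaarMeasure _ _
  change (volume : Measure (ℂ × ℝ × ℂ × ℂ × F K × ℝ)).IsAddHaarMeasure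
  rw [Measure.volume_eq_prod]; exact Measure.prod.instIsAddHaarMeasure _ _

theorem per_bound (G : Met K) {p₀ : V K} {s : ℝ × ℝ → V K} (hs : Sph K p₀ s) :
    ∃ c : ℝ, 0 < c ∧ ∀ b : Form2 K, Closed b → |Per b.val s| ≤ c * √(nrmSq G b) := by
  have := haarV K
  obtain ⟨U, ρ, hU, hKU, hρ, hmaps, hfix⟩ := exists_ret K
  have hret : IsRet U ρ := ⟨hU, hKU, hρ, hmaps, hfix⟩
  obtain ⟨r, c₀, hr, hc₀, hball⟩ := uniform_bound G hret
  have hfc : Continuous (fderiv ℝ s) := hs.smooth.continuous_fderiv (by simp)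
  have h1 : Continuous fun p : ℝ × ℝ => fderiv ℝ s p (1, 0) := hfc.clm_apply continuous_const
  have h2 : Continuous fun p : ℝ × ℝ => fderiv ℝ s p (0, 1) := hfc.clm_apply continuous_const
  have hQc : IsCompact (Set.Icc (0 : ℝ) 1 ×ˢ Set.Icc (0 : ℝ) 1) := isCompact_Icc.prod isCompact_Icc
  obtain ⟨M1, hM1⟩ := hQc.exists_bound_of_continuousOn h1.continuousOn
  obtain ⟨M2, hM2⟩ := hQc.exists_bound_of_continuousOn h2.continuousOn
  obtain ⟨M, hM⟩ : ∃ M : ℝ, M = |M1| + |M2| + 1 := ⟨_, rfl⟩
  have hM0 : 0 < M := by rw [hM]; positivity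
  have hMb : ∀ x ∈ Set.Icc (0 : ℝ) 1 ×ˢ Set.Icc (0 : ℝ) 1,
      ‖fderiv ℝ s x (1, 0)‖ ≤ M ∧ ‖fderiv ℝ s x (0, 1)‖ ≤ M := by
    intro x hx
    have h3 := hM1 x hx
    have h4 := hM2 x hx
    have h5 := le_abs_self M1
    have h6 := le_abs_self M2
    have h7 := abs_nonneg M1
    have h8 := abs_nonneg M2
    rw [hM]
    constructor <;> linarith
  have hv : 0 < (volume : Measure (V K)).real (Metric.closedBall (0 : V K) (r / 2)) := by
    rw [measureReal_def]
    apply ENNReal.toReal_pos
    · exact (Metric.measure_closedBall_pos _ _ (by linarith)).ne'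
    · exact (isCompact_closedBall _ _).measure_lt_top.ne
  refine ⟨M ^ 2 * c₀ / (volume : Measure (V K)).real (Metric.closedBall (0 : V K) (r / 2)),
    by positivity, ?_⟩
  intro b hb
  have h3 := average_bound s hs.smooth U hr (fun x => (hball (s x) (hs.mem x)).1) M hMb
    (cext ρ b.val) (contDiffOn_cext hret b).continuousOn (c₀ * √(nrmSq G b)) (Per b.val s)
    (fun x => (hball (s x) (hs.mem x)).2 b)
    (fun z hz => per_translate hret b hb hs (fun x => (hball (s x) (hs.mem x)).1) hz)
  rw [div_mul_eq_mul_div, le_div_iff₀ hv]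
  linarith

private lemma closed_sub {a b : Form2 K} (ha : Closed a) (hb : Closed b) : Closed (a - b) := by
  intro i y u v w
  have h1 : fderiv ℝ ((a - b).val i) y = fderiv ℝ (a.val i) y - fderiv ℝ (b.val i) y := by
    have h2 : (a - b).val i = a.val i - b.val i := by
      funext z
      exact Form2.sub_val a b i z
    rw [h2]
    exact fderiv_sub ((a.smooth i).differentiable (by simp) y)
      ((b.smooth i).differentiable (by simp) y)
  have h3 := ha i y u v w
  have h4 := hb i y u v w
  unfold d2 at h3 h4 ⊢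
  rw [h1]
  simp only [sub_apply]
  linarith

private lemma cext_sub (ρ : V K → V K) (a b : Form2 K) (p v w : V K) :
    cext ρ (a - b).val p v w = cext ρ a.val p v w - cext ρ b.val p v w := by
  unfold cext
  rw [Form2.sub_val]
  simp

private lemma per_sub {a b : Form2 K} (ha : Closed a) (hb : Closed b) {p₀ : V K}
    {s : ℝ × ℝ → V K} (hs : Sph K p₀ s) : Per (a - b).val s = Per a.val s - Per b.val s := by
  obtain ⟨U, ρ, hU, hKU, hρ, hmaps, hfix⟩ := exists_ret K
  have hret : IsRet U ρ := ⟨hU, hKU, hρ, hmaps, hfix⟩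
  -- a uniform neighbourhood of the range
  have hC : IsCompact (Set.range s) := by
    have h1 : Set.range s = s '' (Set.Icc (0 : ℝ) 1 ×ˢ Set.Icc (0 : ℝ) 1) := by
      apply Set.Subset.antisymm
      · rintro _ ⟨x, rfl⟩
        by_cases hx : x ∈ Sq
        · exact ⟨x, ⟨Set.Ioo_subset_Icc_self hx.1, Set.Ioo_subset_Icc_self hx.2⟩, rfl⟩
        · refine ⟨(0, 0), ⟨by simp, by simp⟩, ?_⟩
          rw [hs.out x hx, hs.out (0, 0) fun h => lt_irrefl _ h.1.1]
      · exact Set.image_subset_range _ _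
    rw [h1]
    exact (isCompact_Icc.prod isCompact_Icc).image hs.smooth.continuous
  have hCU : Set.range s ⊆ U := by
    rintro _ ⟨x, rfl⟩
    exact hKU (hs.mem x)
  obtain ⟨δ, hδ, hsub⟩ := hC.exists_thickening_subset_open hU hCU
  have hball : ∀ x, Metric.ball (s x) δ ⊆ U := by
    intro x q hq
    apply hsub
    rw [Metric.mem_thickening_iff]
    exact ⟨s x, Set.mem_range_self x, hq⟩
  have h0 : ‖(0 : V K)‖ < δ := by rw [norm_zero]; exact hδ
  have ea := per_translate hret a ha hs hball h0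
  have eb := per_translate hret b hb hs hball h0
  have eab := per_translate hret (a - b) (closed_sub ha hb) hs hball h0
  rw [← ea, ← eb, ← eab]
  simp only [add_zero, cext_sub]
  have hcont : ∀ c : Form2 K, Continuous fun p : ℝ × ℝ =>
      cext ρ c.val (s p) (fderiv ℝ s p (1, 0)) (fderiv ℝ s p (0, 1)) := by
    intro c
    have hfc : Continuous (fderiv ℝ s) := hs.smooth.continuous_fderiv (by simp)
    have h1 : Continuous fun p : ℝ × ℝ => fderiv ℝ s p (1, 0) := hfc.clm_apply continuous_const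
    have h2 : Continuous fun p : ℝ × ℝ => fderiv ℝ s p (0, 1) := hfc.clm_apply continuous_const
    have h3 : Continuous fun p : ℝ × ℝ => cext ρ c.val (s p) :=
      (contDiffOn_cext hret c).continuousOn.comp_continuous hs.smooth.continuous
        fun p => hKU (hs.mem p)
    exact (h3.clm_apply h1).clm_apply h2
  have hcx : ∀ (c : Form2 K) (x : ℝ), Continuous fun y : ℝ =>
      cext ρ c.val (s (x, y)) (fderiv ℝ s (x, y) (1, 0)) (fderiv ℝ s (x, y) (0, 1)) :=
    fun c x => (hcont c).comp (by fun_prop : Continuous fun y : ℝ => (x, y))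
  have hci : ∀ c : Form2 K, Continuous fun x : ℝ => ∫ y in (0 : ℝ)..1,
      cext ρ c.val (s (x, y)) (fderiv ℝ s (x, y) (1, 0)) (fderiv ℝ s (x, y) (0, 1)) := by
    intro c
    apply intervalIntegral.continuous_parametric_intervalIntegral_of_continuous'
    exact hcont c
  rw [← intervalIntegral.integral_sub ((hci a).intervalIntegrable _ _)
    ((hci b).intervalIntegrable _ _)]
  congr 1
  funext x
  rw [intervalIntegral.integral_sub ((hcx a x).intervalIntegrable _ _)
    ((hcx b x).intervalIntegrable _ _)]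

theorem h6 (K : ℕ) : H6 K := by
  intro G f a hf ha hcoh p₀ s hs
  obtain ⟨c, hc, hb⟩ := per_bound G hs
  by_contra hne
  obtain ⟨η, hη⟩ : ∃ η, η = |Per a.val s - Per f.val s| := ⟨_, rfl⟩
  have hη0 : 0 < η := by
    rw [hη]
    exact abs_pos.mpr (sub_ne_zero.mpr hne)
  obtain ⟨α, hα⟩ := (cohom_iff G a f).mp hcoh ((η / (2 * c)) ^ 2) (by positivity)
  have h1 := hb (a - f - dF α) (closed_sub (closed_sub ha hf) (closed_dF α))
  rw [per_sub (closed_sub ha hf) (closed_dF α) hs, per_sub ha hf hs, per_exact α hs, sub_zero,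
    ← hη] at h1
  have h2 : √(nrmSq G (a - f - dF α)) < η / (2 * c) := by
    rw [Real.sqrt_lt' (by positivity)]
    exact hα
  have h3 : c * √(nrmSq G (a - f - dF α)) < c * (η / (2 * c)) := mul_lt_mul_of_pos_left h2 hc
  have h4 : c * (η / (2 * c)) = η / 2 := by field_simp
  linarith

end Pool.Agent.H86.Nco
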