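import Pool.Agent.H86.Nco.H23

/-!
# Module HWEDGE: the parallel representative of a decomposable form is decomposable

Let `ψ = wsq a` (an alternating four-form, parallel) and
`L(b, c) = IM (∑_{jklm} ψ(e_j,e_k,e_l,e_m) b(e_j,e_k) c(e_l,e_m))`, symmetric and bilinear in `b, c`,
`|L(b, c)|² ≤ c₀ nrmSq b nrmSq c` (`ψ` is bounded: continuous and compatible).
(1) `L(dF α, c) = 0` for closed `c`: the vector field `Z` with
`g(Z, u) = ∑_{klm} ψ(u, e_k, e_l, e_m) α(e_k) c(e_l, e_m)` has
`divg Z = ∑ ψ_{jklm} ((∇_jα)_k c_{lm} + α_k (∇_jc)_{lm})` (`∇ψ = 0`),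
`∑ ψ_{jklm} (∇_jα)_k = 1/2 ∑ ψ_{jklm} (dα)_{jk}`, `∑ ψ_{jklm} (∇_j c)_{lm} = 1/3 ∑ ψ_{jklm} (dc)_{jlm} = 0`.
(2) with `r = a - f - dF α`, `nrmSq r < ε` (`Cohom`): `L(a, a) = L(f, a) + L(r, a)`,
`L(f, a) = L(f, f) + L(f, r)` and `L(f, f) = 0` because `ψ` is alternating and `wsq f = 0`:
`∑ ψ_{jklm} f_{jk} f_{lm} = 1/3 ∑ ψ_{jklm} (wsq f)_{jklm}`.  So `|L(a, a)|` is arbitrarily small, `L(a, a) = 0`.
(3) `∑ ψ_{jklm} a_{jk} a_{lm} = 1/3 ∑ ψ_{jklm}²`, so `eq_zero_of_IM` gives `ψ = 0`.
-/

open scoped Manifold ContDiff Bundle Topology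

noncomputable section

namespace Pool.Agent.H86.Nco

open Pool.Agent.H86.Anco MeasureTheory

set_option maxSynthPendingDepth 3

variable {K : ℕ}

namespace HWedge

open HAdj

/-- the endomorphism belonging to `a`: `g(Je u, v) = a(u, v)` -/
def Je (G : Met K) (a : Form2 K) (i : Ix) (y : E K) : E K →L[ℝ] E K :=
  ∑ j, ∑ k, (ginv (G.g i y) j k) • ((a.val i y).flip (bs K j)).smulRight (bs K k)

lemma Je_apply (G : Met K) (a : Form2 K) (i : Ix) (y u : E K) :
    Je G a i y u = ∑ j, ∑ k, (ginv (G.g i y) j k * a.val i y u (bs K j)) • bs K k := by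
  unfold Je
  rw [sum_apply]
  refine Finset.sum_congr rfl fun j _ => ?_
  rw [sum_apply]
  refine Finset.sum_congr rfl fun k _ => ?_
  simp [mul_smul]

lemma contDiff_Je (G : Met K) (a : Form2 K) (i : Ix) : ContDiff ℝ ∞ (Je G a i) := by
  rw [contDiff_clm_apply_iff]
  intro u
  simp only [Je_apply]
  refine ContDiff.sum fun j _ => ContDiff.sum fun k _ => ?_
  exact ((contDiff_ginv (G.smooth i) (G.posDef i) j k).mul
    (((a.smooth i).clm_apply contDiff_const).clm_apply contDiff_const)).smul contDiff_const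

lemma g_sharp {B : Bil K} (hB : PosDef B) (θ : E K →L[ℝ] ℝ) (u : E K) :
    B (∑ j, ∑ k, (ginv B j k * θ (bs K j)) • bs K k) u = θ u := by
  have h1 := trace_eq hB (θ.smulRight (B.flip u))
  have h2 : ∀ v w : E K, θ.smulRight (B.flip u) v w = θ v * B w u := by
    intro v w; simp
  simp only [h2] at h1
  have h3 : B (∑ j, ∑ k, (ginv B j k * θ (bs K j)) • bs K k) u =
      ∑ j, ∑ k, ginv B j k * (θ (bs K j) * B (bs K k) u) := by
    rw [map_sum, sum_apply]
    refine Finset.sum_congr rfl fun j _ => ?_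
    rw [map_sum, sum_apply]
    refine Finset.sum_congr rfl fun k _ => ?_
    rw [map_smul]
    simp only [smul_apply, smul_eq_mul]
    ring
  rw [h3, ← h1]
  conv_rhs => rw [onb_expand hB u]
  rw [map_sum]
  refine Finset.sum_congr rfl fun j _ => ?_
  rw [map_smul, smul_eq_mul, hB.symm (onb B j) u]
  ring

lemma g_Je (G : Met K) (a : Form2 K) (i : Ix) (y u v : E K) :
    G.g i y (Je G a i y u) v = a.val i y u v := by
  rw [Je_apply]
  exact g_sharp (G.posDef i y) (a.val i y u) v

lemma Je_expand (G : Met K) (a : Form2 K) (i : Ix) (y u : E K) :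
    Je G a i y u = ∑ l, a.val i y u (onb (G.g i y) l) • onb (G.g i y) l := by
  conv_lhs => rw [onb_expand (G.posDef i y) (Je G a i y u)]
  refine Finset.sum_congr rfl fun l _ => ?_
  rw [g_Je]

lemma Je_compat (G : Met K) (a : Form2 K) (i j : Ix) {y : E K} (hy : y ∈ ov K i j) (u : E K) :
    Je G a j (tr i j y) (fderiv ℝ (tr i j) y u) = fderiv ℝ (tr i j) y (Je G a i y u) := by
  refine nondeg (G.posDef j (tr i j y)) fun v => ?_
  have hy' := tr_mem i j hy
  have hv : fderiv ℝ (tr i j) y (fderiv ℝ (tr j i) (tr i j y) v) = v := by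
    have := fderiv_tr_tr j i hy' v
    rwa [tr_tr i j hy] at this
  rw [g_Je]
  conv_rhs => rw [← hv]
  rw [← G.compat i j y hy, g_Je, a.compat i j y hy, hv]

/-- `Je` is parallel -/
lemma fderiv_Je (G : Met K) (a : Form2 K) (ha : Parallel G a) (i : Ix) (y x u : E K) :
    fderiv ℝ (Je G a i) y x u =
      Je G a i y (chr (G.g i) y x u) - chr (G.g i) y x (Je G a i y u) := by
  refine nondeg (G.posDef i y) fun w => ?_
  have h1 := eval2 (hasF (a.smooth i) y) u w
  have h2 : (fun z => a.val i z u w) = fun z => G.g i z (Je G a i z u) w := by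
    funext z; rw [g_Je]
  have h3 := ((hasF (G.smooth i) y).clm_apply
    ((hasF (contDiff_Je G a i) y).clm_apply (hasFDerivAt_const u y))).clm_apply
    (hasFDerivAt_const w y)
  rw [h2] at h1
  have h4 := congrArg (fun L : E K →L[ℝ] ℝ => L x) (h1.unique h3)
  simp only [add_apply, ContinuousLinearMap.comp_apply,
    ContinuousLinearMap.flip_apply, zero_apply, map_zero, zero_add] at h4
  rw [fderiv_g_eq, g_Je] at h4
  have h5 := ha i y x u w
  unfold cd at h5
  have h6 : G.g i y (Je G a i y (chr (G.g i) y x u) - chr (G.g i) y x (Je G a i y u)) w =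
      a.val i y (chr (G.g i) y x u) w - G.g i y (chr (G.g i) y x (Je G a i y u)) w := by
    rw [map_sub, sub_apply, g_Je]
  rw [h6]
  linarith

/-- `c(·, Je ·)` -/
def bc (G : Met K) (a c : Form2 K) (i : Ix) (y : E K) : Bil K :=
  ((c.val i y).flip.comp (Je G a i y)).flip

lemma bc_apply (G : Met K) (a c : Form2 K) (i : Ix) (y u v : E K) :
    bc G a c i y u v = c.val i y u (Je G a i y v) := rfl

lemma contDiff_bc (G : Met K) (a c : Form2 K) (i : Ix) : ContDiff ℝ ∞ (bc G a c i) := by
  rw [contDiff_clm_apply_iff]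
  intro u
  rw [contDiff_clm_apply_iff]
  intro v
  simp only [bc_apply]
  exact ((c.smooth i).clm_apply contDiff_const).clm_apply
    ((contDiff_Je G a i).clm_apply contDiff_const)

lemma Pf_eq_trace (G : Met K) (a c : Form2 K) (i : Ix) (y : E K) :
    Pf G a c i y = ∑ j, bc G a c i y (onb (G.g i y) j) (onb (G.g i y) j) := by
  unfold Pf
  refine Finset.sum_congr rfl fun j _ => ?_
  rw [bc_apply, Je_expand, map_sum]
  refine Finset.sum_congr rfl fun k _ => ?_
  rw [map_smul, smul_eq_mul]

lemma contDiff_Pf (G : Met K) (a c : Form2 K) (i : Ix) : ContDiff ℝ ∞ (Pf G a c i) := by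
  have h : Pf G a c i = fun y => ∑ j, bc G a c i y (onb (G.g i y) j) (onb (G.g i y) j) := by
    funext y; exact Pf_eq_trace G a c i y
  rw [h]
  exact contDiff_trace (G.smooth i) (G.posDef i) (contDiff_bc G a c i)

lemma fderiv_bc (G : Met K) (a c : Form2 K) (i : Ix) (y x u v : E K) :
    fderiv ℝ (bc G a c i) y x u v =
      fderiv ℝ (c.val i) y x u (Je G a i y v) + c.val i y u (fderiv ℝ (Je G a i) y x v) := by
  have h1 := eval2 (hasF (contDiff_bc G a c i) y) u v
  simp only [bc_apply] at h1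
  have h2 := ((hasF (c.smooth i) y).clm_apply (hasFDerivAt_const u y)).clm_apply
    ((hasF (contDiff_Je G a i) y).clm_apply (hasFDerivAt_const v y))
  have h3 := congrArg (fun L : E K →L[ℝ] ℝ => L x) (h1.unique h2)
  simp only [add_apply, ContinuousLinearMap.comp_apply,
    ContinuousLinearMap.flip_apply, zero_apply, map_zero, zero_add] at h3
  rw [h3]
  ring

lemma fderiv_Pf (G : Met K) (a c : Form2 K) (ha : Parallel G a) (i : Ix) (y x : E K) :
    fderiv ℝ (Pf G a c i) y x =
      ∑ j, cd G c.val i y x (onb (G.g i y) j) (Je G a i y (onb (G.g i y) j)) := by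
  have h : Pf G a c i = fun y => ∑ j, bc G a c i y (onb (G.g i y) j) (onb (G.g i y) j) := by
    funext y; exact Pf_eq_trace G a c i y
  rw [h, trD G i (contDiff_bc G a c i) y x]
  refine Finset.sum_congr rfl fun j _ => ?_
  rw [fderiv_bc, bc_apply, bc_apply, fderiv_Je G a ha, map_sub]
  unfold cd
  ring

/-- the contraction of `wsq a` with `c` -/
def AF (G : Met K) (a c : Form2 K) : Form2 K where
  val i y := Pf G a c i y • a.val i y
    - (2 : ℝ) • (c.val i y).bilinearComp (Je G a i y) (Je G a i y)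
  smooth i := by
    rw [contDiff_clm_apply_iff]
    intro u
    rw [contDiff_clm_apply_iff]
    intro v
    have h1 : ContDiff ℝ ∞ (fun y => Je G a i y u) := (contDiff_Je G a i).clm_apply contDiff_const
    have h2 : ContDiff ℝ ∞ (fun y => Je G a i y v) := (contDiff_Je G a i).clm_apply contDiff_const
    exact ((contDiff_Pf G a c i).mul
      (((a.smooth i).clm_apply contDiff_const).clm_apply contDiff_const)).sub
      (contDiff_const.mul (((c.smooth i).clm_apply h1).clm_apply h2))
  alt i y u v := by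
    have h1 := a.alt i y u v
    have h2 := c.alt i y (Je G a i y u) (Je G a i y v)
    change Pf G a c i y * a.val i y u v - 2 * c.val i y (Je G a i y u) (Je G a i y v) =
      -(Pf G a c i y * a.val i y v u - 2 * c.val i y (Je G a i y v) (Je G a i y u))
    rw [h1, h2]
    ring
  compat i j y hy u v := by
    change Pf G a c i y * a.val i y u v - 2 * c.val i y (Je G a i y u) (Je G a i y v) =
      Pf G a c j (tr i j y) * a.val j (tr i j y) (fderiv ℝ (tr i j) y u) (fderiv ℝ (tr i j) y v)
        - 2 * c.val j (tr i j y) (Je G a j (tr i j y) (fderiv ℝ (tr i j) y u))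
          (Je G a j (tr i j y) (fderiv ℝ (tr i j) y v))
    rw [Je_compat G a i j hy, Je_compat G a i j hy, ← c.compat i j y hy, ← a.compat i j y hy,
      ← Pf_compat G a c i j y hy]

lemma AF_apply (G : Met K) (a c : Form2 K) (i : Ix) (y u v : E K) :
    (AF G a c).val i y u v =
      Pf G a c i y * a.val i y u v - 2 * c.val i y (Je G a i y u) (Je G a i y v) := rfl

lemma AF_eq_sum (G : Met K) (a c : Form2 K) (i : Ix) (y u v : E K) :
    (AF G a c).val i y u v = ∑ l, ∑ m,
      wsq a.val i y u v (onb (G.g i y) l) (onb (G.g i y) m)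
        * c.val i y (onb (G.g i y) l) (onb (G.g i y) m) := by
  set e := onb (G.g i y) with he
  have h1 : c.val i y (Je G a i y u) (Je G a i y v) =
      ∑ l, ∑ m, a.val i y u (e l) * a.val i y v (e m) * c.val i y (e l) (e m) := by
    rw [Je_expand G a i y u, Je_expand G a i y v, ← he, map_sum (c.val i y), sum_apply]
    refine Finset.sum_congr rfl fun l _ => ?_
    rw [map_sum]
    refine Finset.sum_congr rfl fun m _ => ?_
    rw [map_smul, map_smul, smul_apply, smul_eq_mul, smul_eq_mul]
    ring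
  have h2 : c.val i y (Je G a i y u) (Je G a i y v) =
      ∑ l, ∑ m, - (a.val i y u (e m) * a.val i y v (e l) * c.val i y (e l) (e m)) := by
    rw [h1, Finset.sum_comm]
    refine Finset.sum_congr rfl fun l _ => Finset.sum_congr rfl fun m _ => ?_
    rw [c.alt i y (e m) (e l)]
    ring
  rw [AF_apply]
  have h3 : 2 * c.val i y (Je G a i y u) (Je G a i y v) =
      ∑ l, ∑ m, (a.val i y u (e l) * a.val i y v (e m) * c.val i y (e l) (e m)
        - a.val i y u (e m) * a.val i y v (e l) * c.val i y (e l) (e m)) := by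
    have h4 : 2 * c.val i y (Je G a i y u) (Je G a i y v) =
        c.val i y (Je G a i y u) (Je G a i y v) + c.val i y (Je G a i y u) (Je G a i y v) := by
      ring
    rw [h4]
    nth_rewrite 1 [h1]
    rw [h2, ← Finset.sum_add_distrib]
    refine Finset.sum_congr rfl fun l _ => ?_
    rw [← Finset.sum_add_distrib]
    refine Finset.sum_congr rfl fun m _ => ?_
    ring
  rw [h3]
  unfold Pf
  rw [Finset.sum_mul, ← Finset.sum_sub_distrib]
  refine Finset.sum_congr rfl fun l _ => ?_
  rw [Finset.sum_mul, ← Finset.sum_sub_distrib]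
  refine Finset.sum_congr rfl fun m _ => ?_
  unfold wsq
  ring

lemma cd_AF (G : Met K) (a c : Form2 K) (ha : Parallel G a) (i : Ix) (y x u v : E K) :
    cd G (AF G a c).val i y x u v =
      (∑ j, cd G c.val i y x (onb (G.g i y) j) (Je G a i y (onb (G.g i y) j))) * a.val i y u v
        - 2 * cd G c.val i y x (Je G a i y u) (Je G a i y v) := by
  have h1 := eval2 (hasF ((AF G a c).smooth i) y) u v
  simp only [AF_apply] at h1
  have hJu : HasFDerivAt (fun z => Je G a i z u) ((fderiv ℝ (Je G a i) y).flip u) y := by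
    have := (hasF (contDiff_Je G a i) y).clm_apply (hasFDerivAt_const u y)
    simpa using this
  have hJv : HasFDerivAt (fun z => Je G a i z v) ((fderiv ℝ (Je G a i) y).flip v) y := by
    have := (hasF (contDiff_Je G a i) y).clm_apply (hasFDerivAt_const v y)
    simpa using this
  have h2 := ((hasF (contDiff_Pf G a c i) y).mul (eval2 (hasF (a.smooth i) y) u v)).sub
    ((((hasF (c.smooth i) y).clm_apply hJu).clm_apply hJv).const_mul 2)
  have h3 := congrArg (fun L : E K →L[ℝ] ℝ => L x) (h1.unique h2)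
  simp only [add_apply, sub_apply, smul_apply, ContinuousLinearMap.comp_apply,
    ContinuousLinearMap.flip_apply, smul_eq_mul] at h3
  have h5 := ha i y x u v
  unfold cd at h5 ⊢
  rw [h3, AF_apply, AF_apply, fderiv_Je G a ha, fderiv_Je G a ha, fderiv_Pf G a c ha,
    map_sub, map_sub, sub_apply]
  have h6 : fderiv ℝ (a.val i) y x u v =
      a.val i y (chr (G.g i) y x u) v + a.val i y u (chr (G.g i) y x v) := by linarith
  rw [h6]
  unfold cd
  ring

end HWedge

/-- the pairing of two two-forms with the four-form `wsq a` -/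
def pairW (G : Met K) (a b c : Form2 K) : ℝ :=
  IM G (fun i y => ∑ j, ∑ k, ∑ l, ∑ m,
    wsq a.val i y (onb (G.g i y) j) (onb (G.g i y) k) (onb (G.g i y) l) (onb (G.g i y) m)
      * b.val i y (onb (G.g i y) j) (onb (G.g i y) k)
      * c.val i y (onb (G.g i y) l) (onb (G.g i y) m))

namespace HWedge

open HAdj

lemma pairW_eq (G : Met K) (a b c : Form2 K) : pairW G a b c = ip2 G (AF G a c) b := by
  unfold pairW ip2
  congr 1
  funext i y
  refine Finset.sum_congr rfl fun j _ => Finset.sum_congr rfl fun k _ => ?_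
  rw [AF_eq_sum, Finset.sum_mul]
  refine Finset.sum_congr rfl fun l _ => ?_
  rw [Finset.sum_mul]
  refine Finset.sum_congr rfl fun m _ => ?_
  ring

lemma cyc (G : Met K) (c : Form2 K) (hc : Closed c) (i : Ix) (y u v w : E K) :
    cd G c.val i y u v w + cd G c.val i y v w u + cd G c.val i y w u v = 0 := by
  have h := hc i y u v w
  unfold d2 at h
  unfold cd
  rw [hodge_chr_symm G i y v u, hodge_chr_symm G i y w u, hodge_chr_symm G i y w v,
    c.alt i y v (chr (G.g i) y u w), c.alt i y w (chr (G.g i) y u v),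
    c.alt i y u (chr (G.g i) y v w)]
  linarith

lemma cd_skew (G : Met K) (c : Form2 K) (i : Ix) (y u v w : E K) :
    cd G c.val i y u v w = - cd G c.val i y u w v := by
  have h1 := eval2 (hasF (c.smooth i) y) v w
  have h2 := eval2 (hasF (c.smooth i) y) w v
  have h3 : (fun z => c.val i z v w) = fun z => - c.val i z w v := by
    funext z; exact c.alt i z v w
  rw [h3] at h1
  have h4 := congrArg (fun L : E K →L[ℝ] ℝ => L u) (h1.unique h2.neg)
  simp only [neg_apply, ContinuousLinearMap.flip_apply] at h4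
  unfold cd
  rw [h4, c.alt i y (chr (G.g i) y u v) w, c.alt i y v (chr (G.g i) y u w)]
  ring

/-- the algebra: `T` antisymmetric in the last indices with vanishing cyclic sum -/
lemma alg1 {n : ℕ} (T : Fin n → Fin n → Fin n → ℝ) (A : Fin n → Fin n → ℝ) (w : Fin n → ℝ)
    (hT : ∀ j l m, T j l m = - T j m l) (hc : ∀ j l m, T j l m + T l m j + T m j l = 0)
    (hA : ∀ j l, A j l = - A l j) :
    ∑ j, ((∑ l, ∑ m, A l m * T j l m) * (- w j) - 2 * ∑ m, ∑ l, A j m * w l * T j m l) = 0 := by
  have h1 : ∀ l, ∑ j, ∑ m, A j m * T j m l = - (1 / 2) * ∑ j, ∑ m, A j m * T l j m := by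
    intro l
    have e1 : ∑ j, ∑ m, A j m * T j m l = ∑ j, ∑ m, - (A j m * T m j l) := by
      rw [Finset.sum_comm]
      refine Finset.sum_congr rfl fun m _ => Finset.sum_congr rfl fun j _ => ?_
      rw [hA j m]; ring
    have e2 : ∑ j, ∑ m, A j m * T j m l + ∑ j, ∑ m, A j m * T j m l =
        ∑ j, ∑ m, - (A j m * T l j m) := by
      nth_rewrite 1 [e1]
      rw [← Finset.sum_add_distrib]
      refine Finset.sum_congr rfl fun j _ => ?_
      rw [← Finset.sum_add_distrib]
      refine Finset.sum_congr rfl fun m _ => ?_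
      have := hc j m l
      have e3 : T m j l = - T m l j := hT m j l
      rw [e3]
      have e4 : T j m l = - T m l j - T l j m := by linarith
      rw [e4]; ring
    simp only [Finset.sum_neg_distrib] at e2
    linarith
  have h2 : ∑ j, ∑ m, ∑ l, A j m * w l * T j m l =
      ∑ l, w l * ∑ j, ∑ m, A j m * T j m l := by
    have e1 : ∑ j, ∑ m, ∑ l, A j m * w l * T j m l = ∑ j, ∑ l, ∑ m, A j m * w l * T j m l :=
      Finset.sum_congr rfl fun j _ => Finset.sum_comm
    rw [e1, Finset.sum_comm]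
    refine Finset.sum_congr rfl fun l _ => ?_
    rw [Finset.mul_sum]
    refine Finset.sum_congr rfl fun j _ => ?_
    rw [Finset.mul_sum]
    refine Finset.sum_congr rfl fun m _ => ?_
    ring
  rw [Finset.sum_sub_distrib, ← Finset.mul_sum, h2, Finset.mul_sum, ← Finset.sum_sub_distrib]
  refine Finset.sum_eq_zero fun l _ => ?_
  rw [h1 l]
  ring

lemma codiff_AF (G : Met K) (a c : Form2 K) (ha : Parallel G a) (hc : Closed c) (i : Ix)
    (y w : E K) : codiff G (AF G a c).val i y w = 0 := by
  unfold codiff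
  rw [neg_eq_zero]
  obtain ⟨T, hT, hTb⟩ := exists_cdL G c.val i (c.smooth i)
  set e := onb (G.g i y) with he
  have h := alg1 (fun j l m => cd G c.val i y (e j) (e l) (e m)) (fun j l => a.val i y (e j) (e l))
    (fun l => a.val i y w (e l)) (fun j l m => cd_skew G c i y _ _ _)
    (fun j l m => cyc G c hc i y _ _ _) (fun j l => a.alt i y _ _)
  rw [← h]
  refine Finset.sum_congr rfl fun j _ => ?_
  rw [cd_AF G a c ha]
  have h1 : ∀ l, cd G c.val i y (e j) (e l) (Je G a i y (e l)) =
      ∑ m, a.val i y (e l) (e m) * cd G c.val i y (e j) (e l) (e m) := by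
    intro l
    rw [← hTb, Je_expand, map_sum]
    refine Finset.sum_congr rfl fun m _ => ?_
    rw [map_smul, smul_eq_mul, hTb]
  have h2 : cd G c.val i y (e j) (Je G a i y (e j)) (Je G a i y w) =
      ∑ m, ∑ l, a.val i y (e j) (e m) * a.val i y w (e l) * cd G c.val i y (e j) (e m) (e l) := by
    rw [← hTb, Je_expand G a i y (e j), Je_expand G a i y w, ← he, map_sum (T y (e j)), sum_apply]
    refine Finset.sum_congr rfl fun m _ => ?_
    rw [map_sum]
    refine Finset.sum_congr rfl fun l _ => ?_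
    rw [map_smul, map_smul, smul_apply, smul_eq_mul, smul_eq_mul, hTb]
    ring
  rw [h2, ← he, Finset.sum_congr rfl fun l _ => h1 l, a.alt i y (e j) w]

/-- the four-fold sums -/
lemma alg2 {n : ℕ} (a f : Fin n → Fin n → ℝ) (ha : ∀ j k, a j k = - a k j)
    (hf : ∀ j k, f j k = - f k j) :
    ∑ j, ∑ k, ∑ l, ∑ m, (a j k * a l m - a j l * a k m + a j m * a k l) * (f j k * f l m) =
      1 / 3 * ∑ j, ∑ k, ∑ l, ∑ m, (a j k * a l m - a j l * a k m + a j m * a k l)
        * (f j k * f l m - f j l * f k m + f j m * f k l) := by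
  rw [Finset.mul_sum]
  refine Finset.sum_congr rfl fun j _ => ?_
  set P : Fin n → Fin n → Fin n → ℝ := fun k l m =>
    a j k * a l m - a j l * a k m + a j m * a k l with hP
  have hP1 : ∀ k l m, P l k m = - P k l m := by
    intro k l m
    simp only [hP]
    rw [ha l k]; ring
  have hP2 : ∀ k l m, P l m k = P k l m := by
    intro k l m
    simp only [hP]
    rw [ha l k, ha m k]; ring
  have h2 : ∑ k, ∑ l, ∑ m, P k l m * (f j l * f k m) =
      - ∑ k, ∑ l, ∑ m, P k l m * (f j k * f l m) := by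
    rw [Finset.sum_comm]
    simp only [← Finset.sum_neg_distrib]
    refine Finset.sum_congr rfl fun l _ => Finset.sum_congr rfl fun k _ =>
      Finset.sum_congr rfl fun m _ => ?_
    rw [hP1 l k m]
    ring
  have h3 : ∑ k, ∑ l, ∑ m, P k l m * (f j m * f k l) =
      ∑ k, ∑ l, ∑ m, P k l m * (f j k * f l m) := by
    -- rename `k → l`, `l → m`, `m → k`
    have e1 : ∑ k, ∑ l, ∑ m, P k l m * (f j m * f k l) =
        ∑ m, ∑ k, ∑ l, P k l m * (f j m * f k l) := by
      have e2 : ∑ k, ∑ l, ∑ m, P k l m * (f j m * f k l) =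
          ∑ k, ∑ m, ∑ l, P k l m * (f j m * f k l) :=
        Finset.sum_congr rfl fun k _ => Finset.sum_comm
      rw [e2, Finset.sum_comm]
    rw [e1]
    refine Finset.sum_congr rfl fun k _ => Finset.sum_congr rfl fun l _ =>
      Finset.sum_congr rfl fun m _ => ?_
    rw [hP2 k l m]
  have h4 : ∑ k, ∑ l, ∑ m, P k l m * (f j k * f l m - f j l * f k m + f j m * f k l) =
      ∑ k, ∑ l, ∑ m, P k l m * (f j k * f l m)
        - ∑ k, ∑ l, ∑ m, P k l m * (f j l * f k m)
        + ∑ k, ∑ l, ∑ m, P k l m * (f j m * f k l) := by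
    simp only [← Finset.sum_sub_distrib, ← Finset.sum_add_distrib]
    refine Finset.sum_congr rfl fun k _ => Finset.sum_congr rfl fun l _ =>
      Finset.sum_congr rfl fun m _ => ?_
    ring
  change ∑ k, ∑ l, ∑ m, P k l m * (f j k * f l m) = 1 / 3 *
    ∑ k, ∑ l, ∑ m, P k l m * (f j k * f l m - f j l * f k m + f j m * f k l)
  rw [h4, h2, h3]
  ring

lemma Pf_AF (G : Met K) (a f : Form2 K) (i : Ix) (y : E K) :
    Pf G (AF G a f) f i y = 1 / 3 * ∑ j, ∑ k, ∑ l, ∑ m,
      wsq a.val i y (onb (G.g i y) j) (onb (G.g i y) k) (onb (G.g i y) l) (onb (G.g i y) m)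
      * wsq f.val i y (onb (G.g i y) j) (onb (G.g i y) k) (onb (G.g i y) l)
        (onb (G.g i y) m) := by
  set e := onb (G.g i y) with he
  have h := alg2 (fun j k => a.val i y (e j) (e k)) (fun j k => f.val i y (e j) (e k))
    (fun j k => a.alt i y _ _) (fun j k => f.alt i y _ _)
  have h' : ∑ j, ∑ k, ∑ l, ∑ m, wsq a.val i y (e j) (e k) (e l) (e m)
        * wsq f.val i y (e j) (e k) (e l) (e m) = ∑ j, ∑ k, ∑ l, ∑ m,
      (a.val i y (e j) (e k) * a.val i y (e l) (e m) - a.val i y (e j) (e l) * a.val i y (e k) (e m)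
        + a.val i y (e j) (e m) * a.val i y (e k) (e l))
      * (f.val i y (e j) (e k) * f.val i y (e l) (e m)
        - f.val i y (e j) (e l) * f.val i y (e k) (e m)
        + f.val i y (e j) (e m) * f.val i y (e k) (e l)) := rfl
  rw [h', ← h]
  unfold Pf
  rw [← he]
  refine Finset.sum_congr rfl fun j _ => Finset.sum_congr rfl fun k _ => ?_
  rw [AF_eq_sum, ← he, Finset.sum_mul]
  refine Finset.sum_congr rfl fun l _ => ?_
  rw [Finset.sum_mul]
  refine Finset.sum_congr rfl fun m _ => ?_
  unfold wsq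
  ring

lemma ip2_Pf (G : Met K) (a b : Form2 K) : ip2 G a b = IM G (Pf G a b) := rfl

lemma pairW_symm (G : Met K) (a b c : Form2 K) : pairW G a b c = pairW G a c b := by
  unfold pairW
  congr 1
  funext i y
  have h : ∀ (g : Fin (K + 4) → Fin (K + 4) → Fin (K + 4) → Fin (K + 4) → ℝ),
      ∑ j, ∑ k, ∑ l, ∑ m, g j k l m = ∑ j, ∑ k, ∑ l, ∑ m, g l m j k := by
    intro g
    have e1 : ∑ j, ∑ k, ∑ l, ∑ m, g j k l m = ∑ p : Fin (K + 4) × Fin (K + 4),
        ∑ q : Fin (K + 4) × Fin (K + 4), g p.1 p.2 q.1 q.2 := by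
      simp only [Fintype.sum_prod_type]
    have e2 : ∑ j, ∑ k, ∑ l, ∑ m, g l m j k = ∑ p : Fin (K + 4) × Fin (K + 4),
        ∑ q : Fin (K + 4) × Fin (K + 4), g q.1 q.2 p.1 p.2 := by
      simp only [Fintype.sum_prod_type]
    rw [e1, e2, Finset.sum_comm]
  rw [h]
  refine Finset.sum_congr rfl fun j _ => Finset.sum_congr rfl fun k _ =>
    Finset.sum_congr rfl fun l _ => Finset.sum_congr rfl fun m _ => ?_
  set e := onb (G.g i y)
  unfold wsq
  rw [a.alt i y (e l) (e j), a.alt i y (e m) (e k), a.alt i y (e l) (e k), a.alt i y (e m) (e j)]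
  ring

lemma pairW_add (G : Met K) (a b b' c : Form2 K) :
    pairW G a (b + b') c = pairW G a b c + pairW G a b' c := by
  rw [pairW_eq, pairW_eq, pairW_eq, ip2_symm, ip2_add, ip2_symm G b, ip2_symm G b']

lemma pairW_sq_le (G : Met K) (a b c : Form2 K) :
    pairW G a b c ^ 2 ≤ nrmSq G (AF G a c) * nrmSq G b := by
  rw [pairW_eq]
  exact ip2_sq_le G _ _

end HWedge

open HWedge in
theorem pairW_exact (G : Met K) (a : Form2 K) (ha : Parallel G a) (α : Form1 K) (c : Form2 K)
    (hc : Closed c) : pairW G a (dF α) c = 0 := by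
  have h := adjoint G (AF G a c) α
  have h1 : (fun (i : Ix) (y : E K) => ∑ j, codiff G (AF G a c).val i y (onb (G.g i y) j)
      * α.val i y (onb (G.g i y) j)) = fun _ _ => 0 * (0 : ℝ) := by
    funext i y
    rw [zero_mul]
    refine Finset.sum_eq_zero fun j _ => ?_
    rw [codiff_AF G a c ha hc, zero_mul]
  rw [h1, IM_smul, zero_mul] at h
  rw [pairW_eq]
  linarith

open HWedge HAdj in
theorem h5 (K : ℕ) : H5 K := by
  intro G f a hf hfd hap hco
  have hac : Closed a := hap.closed
  -- `L(f, f) = 0`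
  have hff : pairW G a f f = 0 := by
    rw [pairW_eq, ip2_Pf]
    have h1 : Pf G (AF G a f) f = fun _ _ => 0 * (0 : ℝ) := by
      funext i y
      rw [Pf_AF, zero_mul]
      have : ∀ j k l m, wsq a.val i y (onb (G.g i y) j) (onb (G.g i y) k) (onb (G.g i y) l)
          (onb (G.g i y) m) * wsq f.val i y (onb (G.g i y) j) (onb (G.g i y) k)
          (onb (G.g i y) l) (onb (G.g i y) m) = 0 := by
        intro j k l m
        rw [hfd, mul_zero]
      simp only [this, Finset.sum_const_zero, mul_zero]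
    rw [h1, IM_smul, zero_mul]
  -- `L(a, a) = 0`
  have haa : pairW G a a a = 0 := by
    set M := nrmSq G (AF G a f) + nrmSq G (AF G a a) with hM
    have hM0 : 0 ≤ M := add_nonneg (nrmSq_nonneg G _) (nrmSq_nonneg G _)
    have key : ∀ ε : ℝ, 0 < ε → pairW G a a a ^ 2 ≤ 2 * M * ε := by
      intro ε hε
      obtain ⟨α, hα⟩ := (cohom_iff G a f).1 hco ε hε
      set r := a - f - dF α with hr
      have e : a = f + (dF α + r) := by rw [hr]; abel
      have h1 : pairW G a a a = pairW G a f a + (pairW G a (dF α) a + pairW G a r a) := by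
        have h := pairW_add G a f (dF α + r) a
        rw [← e, pairW_add] at h
        exact h
      have h2 : pairW G a f a = pairW G a f f + (pairW G a (dF α) f + pairW G a r f) := by
        rw [pairW_symm G a f a]
        have h := pairW_add G a f (dF α + r) f
        rw [← e, pairW_add] at h
        exact h
      rw [pairW_exact G a hap α a hac] at h1
      rw [pairW_exact G a hap α f hf, hff] at h2
      have h3 : pairW G a a a = pairW G a r f + pairW G a r a := by linarith
      have h4 := pairW_sq_le G a r f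
      have h5 := pairW_sq_le G a r a
      have h6 : nrmSq G (AF G a f) * nrmSq G r ≤ nrmSq G (AF G a f) * ε :=
        mul_le_mul_of_nonneg_left hα.le (nrmSq_nonneg G _)
      have h7 : nrmSq G (AF G a a) * nrmSq G r ≤ nrmSq G (AF G a a) * ε :=
        mul_le_mul_of_nonneg_left hα.le (nrmSq_nonneg G _)
      rw [h3, hM]
      nlinarith [sq_nonneg (pairW G a r f - pairW G a r a)]
    by_contra hne
    have hpos : 0 < pairW G a a a ^ 2 := by positivity
    have h1 := key (pairW G a a a ^ 2 / (4 * (M + 1))) (by positivity)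
    have h2 : 2 * M * (pairW G a a a ^ 2 / (4 * (M + 1))) =
        pairW G a a a ^ 2 * (M / (2 * (M + 1))) := by
      field_simp
      ring
    have h3 : M / (2 * (M + 1)) ≤ 1 / 2 := by
      rw [div_le_div_iff₀ (by positivity) (by norm_num)]
      linarith
    rw [h2] at h1
    nlinarith
  -- positivity
  rw [pairW_eq, ip2_Pf] at haa
  have hz := eq_zero_of_IM G (Pf_compat G (AF G a a) a) (fun i => Pf_cont G (AF G a a) a i)
    (fun i y => by
      rw [Pf_AF]
      refine mul_nonneg (by norm_num) ?_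
      refine Finset.sum_nonneg fun j _ => Finset.sum_nonneg fun k _ =>
        Finset.sum_nonneg fun l _ => Finset.sum_nonneg fun m _ => ?_
      exact mul_self_nonneg _) haa
  intro i y u₁ u₂ u₃ u₄
  have h1 := hz i y
  rw [Pf_AF] at h1
  have h2 : ∀ j k l m, wsq a.val i y (onb (G.g i y) j) (onb (G.g i y) k) (onb (G.g i y) l)
      (onb (G.g i y) m) = 0 := by
    have h3 : ∑ j, ∑ k, ∑ l, ∑ m,
      wsq a.val i y (onb (G.g i y) j) (onb (G.g i y) k) (onb (G.g i y) l) (onb (G.g i y) m)
      * wsq a.val i y (onb (G.g i y) j) (onb (G.g i y) k) (onb (G.g i y) l)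
        (onb (G.g i y) m) = 0 := by linarith
    intro j k l m
    have n3 : ∀ j k l, 0 ≤ ∑ m, wsq a.val i y (onb (G.g i y) j) (onb (G.g i y) k)
        (onb (G.g i y) l) (onb (G.g i y) m) * wsq a.val i y (onb (G.g i y) j)
        (onb (G.g i y) k) (onb (G.g i y) l) (onb (G.g i y) m) := fun j k l =>
      Finset.sum_nonneg fun m _ => mul_self_nonneg _
    have n2 : ∀ j k, 0 ≤ ∑ l, ∑ m, wsq a.val i y (onb (G.g i y) j) (onb (G.g i y) k)
        (onb (G.g i y) l) (onb (G.g i y) m) * wsq a.val i y (onb (G.g i y) j)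
        (onb (G.g i y) k) (onb (G.g i y) l) (onb (G.g i y) m) := fun j k =>
      Finset.sum_nonneg fun l _ => n3 j k l
    have n1 : ∀ j, 0 ≤ ∑ k, ∑ l, ∑ m, wsq a.val i y (onb (G.g i y) j) (onb (G.g i y) k)
        (onb (G.g i y) l) (onb (G.g i y) m) * wsq a.val i y (onb (G.g i y) j)
        (onb (G.g i y) k) (onb (G.g i y) l) (onb (G.g i y) m) := fun j =>
      Finset.sum_nonneg fun k _ => n2 j k
    have s1 := (Finset.sum_eq_zero_iff_of_nonneg fun j _ => n1 j).1 h3 j (Finset.mem_univ j)
    have s2 := (Finset.sum_eq_zero_iff_of_nonneg fun k _ => n2 j k).1 s1 k (Finset.mem_univ k)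
    have s3 := (Finset.sum_eq_zero_iff_of_nonneg fun l _ => n3 j k l).1 s2 l (Finset.mem_univ l)
    have s4 := (Finset.sum_eq_zero_iff_of_nonneg fun m _ => mul_self_nonneg _).1 s3 m
      (Finset.mem_univ m)
    exact mul_self_eq_zero.1 s4
  -- multilinearity
  have lin4 : ∀ j k l, wsq a.val i y (onb (G.g i y) j) (onb (G.g i y) k) (onb (G.g i y) l) u₄
      = 0 := by
    intro j k l
    have e : wsq a.val i y (onb (G.g i y) j) (onb (G.g i y) k) (onb (G.g i y) l) u₄ =
        ∑ m, G.g i y u₄ (onb (G.g i y) m) * wsq a.val i y (onb (G.g i y) j) (onb (G.g i y) k)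
          (onb (G.g i y) l) (onb (G.g i y) m) := by
      conv_lhs => rw [onb_expand (G.posDef i y) u₄]
      unfold wsq
      simp only [map_sum, map_smul, smul_eq_mul, Finset.mul_sum, Finset.sum_mul,
        ← Finset.sum_sub_distrib, ← Finset.sum_add_distrib]
      refine Finset.sum_congr rfl fun m _ => ?_
      ring
    rw [e]
    exact Finset.sum_eq_zero fun m _ => by rw [h2, mul_zero]
  have lin3 : ∀ j k, wsq a.val i y (onb (G.g i y) j) (onb (G.g i y) k) u₃ u₄ = 0 := by
    intro j k
    have e : wsq a.val i y (onb (G.g i y) j) (onb (G.g i y) k) u₃ u₄ =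
        ∑ m, G.g i y u₃ (onb (G.g i y) m) * wsq a.val i y (onb (G.g i y) j) (onb (G.g i y) k)
          (onb (G.g i y) m) u₄ := by
      conv_lhs => rw [onb_expand (G.posDef i y) u₃]
      unfold wsq
      simp only [map_sum, map_smul, sum_apply, smul_apply, smul_eq_mul, Finset.mul_sum,
        Finset.sum_mul, ← Finset.sum_sub_distrib, ← Finset.sum_add_distrib]
      refine Finset.sum_congr rfl fun m _ => ?_
      ring
    rw [e]
    exact Finset.sum_eq_zero fun m _ => by rw [lin4, mul_zero]
  have lin2 : ∀ j, wsq a.val i y (onb (G.g i y) j) u₂ u₃ u₄ = 0 := by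
    intro j
    have e : wsq a.val i y (onb (G.g i y) j) u₂ u₃ u₄ =
        ∑ m, G.g i y u₂ (onb (G.g i y) m) * wsq a.val i y (onb (G.g i y) j) (onb (G.g i y) m)
          u₃ u₄ := by
      conv_lhs => rw [onb_expand (G.posDef i y) u₂]
      unfold wsq
      simp only [map_sum, map_smul, sum_apply, smul_apply, smul_eq_mul, Finset.mul_sum,
        Finset.sum_mul, ← Finset.sum_sub_distrib, ← Finset.sum_add_distrib]
      refine Finset.sum_congr rfl fun m _ => ?_
      ring
    rw [e]
    exact Finset.sum_eq_zero fun m _ => by rw [lin3, mul_zero]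
  have e : wsq a.val i y u₁ u₂ u₃ u₄ =
      ∑ m, G.g i y u₁ (onb (G.g i y) m) * wsq a.val i y (onb (G.g i y) m) u₂ u₃ u₄ := by
    conv_lhs => rw [onb_expand (G.posDef i y) u₁]
    unfold wsq
    simp only [map_sum, map_smul, sum_apply, smul_apply, smul_eq_mul, Finset.mul_sum,
      Finset.sum_mul, ← Finset.sum_sub_distrib, ← Finset.sum_add_distrib]
    refine Finset.sum_congr rfl fun m _ => ?_
    ring
  rw [e]
  exact Finset.sum_eq_zero fun m _ => by rw [lin2, mul_zero]

end Pool.Agent.H86.Nco
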