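import Pool.Agent.H86.Nco.Main

/-!
# The full statement for the manifolds `MK K`
-/

open scoped Manifold ContDiff Bundle Topology

noncomputable section

namespace Pool.Agent.H86.Nco

open Pool.Agent.H86.Anco

theorem main_full (K : ℕ) :
    Module.finrank ℝ (Stmt.EK K) = K + 4 ∧ T2Space (Stmt.MK K) ∧ CompactSpace (Stmt.MK K) ∧
      SimplyConnectedSpace (Stmt.MK K) ∧
      ∃ (_ : ChartedSpace (Stmt.EK K) (Stmt.MK K)) (_ : IsManifold 𝓘(ℝ, Stmt.EK K) ∞ (Stmt.MK K)),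
        ContMDiff 𝓘(ℝ, Stmt.EK K) 𝓘(ℝ, Stmt.VK K) ∞ (Stmt.incl K) ∧
        (∀ x : Stmt.MK K, Function.Injective
          (mfderiv 𝓘(ℝ, Stmt.EK K) 𝓘(ℝ, Stmt.VK K) (Stmt.incl K) x)) ∧
        Stmt.AdmitsANCO (Stmt.EK K) (Stmt.MK K) ∧
        ¬ ∃ g : Stmt.RMetric (Stmt.EK K) (Stmt.MK K), Stmt.HasCurvOpGE g 0 := by
  refine ⟨finrank_E, (inferInstance : T2Space (M K)), (inferInstance : CompactSpace (M K)),
    (inferInstance : SimplyConnectedSpace (M K)), csMK K,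
    (instIsManifold : IsManifold 𝓘(ℝ, E K) ∞ (M K)), contMDiff_incl (K := K),
    mfderiv_incl_injective (K := K), admitsANCO' K, no_nonneg_metric K⟩

end Pool.Agent.H86.Nco
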