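import Pool.Agent.H86.Nco.Ode3

/-!
# Module ODE: smooth dependence of the solutions of ordinary differential equations on parameters

`ode_smooth`: `Z = P × ℝ × H` and `X (p, t, x) = (0, 1, G (p, t, x))`, complete by `ode_global`
(integral curve through `(p, t₀, x₀)`: `(p, t₀ + t, x t)` with `x' = G (p, t₀ + t, x)`); the solution is
`x (p, t) =` last component of `φ ((p, 0, x₀ p), t)`.
-/

open scoped ContDiff Topology

namespace Pool.Agent.H86.Nco

/-- Smooth dependence on parameters. -/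
theorem ode_smooth {P H : Type} [NormedAddCommGroup P] [NormedSpace ℝ P] [FiniteDimensional ℝ P]
    [NormedAddCommGroup H] [NormedSpace ℝ H] [FiniteDimensional ℝ H]
    (G : P × ℝ × H → H) (hG : ContDiff ℝ ∞ G)
    (hlin : ∀ r : ℝ, ∃ C : ℝ, ∀ (p : P) (t : ℝ) (x : H), ‖p‖ ≤ r → |t| ≤ r →
      ‖G (p, t, x)‖ ≤ C * (1 + ‖x‖))
    (x₀ : P → H) (hx₀ : ContDiff ℝ ∞ x₀) :
    ∃ x : P × ℝ → H, ContDiff ℝ ∞ x ∧ (∀ p, x (p, 0) = x₀ p) ∧
      ∀ p t, HasDerivAt (fun τ => x (p, τ)) (G (p, t, x (p, t))) t := by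
  have hX : ContDiff ℝ ∞ (fun z : P × ℝ × H => ((0 : P), (1 : ℝ), G z)) :=
    contDiff_const.prodMk (contDiff_const.prodMk hG)
  have hc : Complete (fun z : P × ℝ × H => ((0 : P), (1 : ℝ), G z)) := by
    rintro ⟨p, t₀, y₀⟩
    obtain ⟨x, h0, hx⟩ := ode_global (fun q : ℝ × H => G (p, t₀ + q.1, q.2))
      ((hG.of_le (by exact_mod_cast le_top)).comp
        (contDiff_const.prodMk ((contDiff_const.add contDiff_fst).prodMk contDiff_snd)))
      (fun r => by
        obtain ⟨C, hC⟩ := hlin (max ‖p‖ (|t₀| + r))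
        refine ⟨C, fun t x ht => hC p (t₀ + t) x (le_max_left _ _) ?_⟩
        exact ((abs_add_le _ _).trans (by linarith)).trans (le_max_right _ _)) y₀
    refine ⟨fun t => (p, t₀ + t, x t), by simp [h0], fun t => ?_⟩
    exact (hasDerivAt_const t p).prodMk (((hasDerivAt_id t).const_add t₀).prodMk (hx t))
  obtain ⟨φ, hφ, h0, hd⟩ := flow_smooth _ hX hc
  have hd1 : ∀ z t, HasDerivAt (fun τ => (φ (z, τ)).1) (0 : P) t := fun z t => (hd z t).fst
  have hd2 : ∀ z t, HasDerivAt (fun τ => (φ (z, τ)).2.1) (1 : ℝ) t := fun z t => (hd z t).snd.fst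
  have hd3 : ∀ z t, HasDerivAt (fun τ => (φ (z, τ)).2.2) (G (φ (z, t))) t :=
    fun z t => (hd z t).snd.snd
  have e1 : ∀ z t, (φ (z, t)).1 = z.1 := by
    intro z t
    have := is_const_of_deriv_eq_zero (f := fun τ => (φ (z, τ)).1)
      (fun τ => (hd1 z τ).differentiableAt) (fun τ => (hd1 z τ).deriv) t 0
    simpa [h0] using this
  have e2 : ∀ z t, (φ (z, t)).2.1 = z.2.1 + t := by
    intro z t
    have h1 : ∀ τ, HasDerivAt (fun τ => (φ (z, τ)).2.1 - τ) (0 : ℝ) τ := fun τ => by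
      have h2 := (hd2 z τ).sub (hasDerivAt_id' τ)
      rw [sub_self] at h2
      exact h2
    have := is_const_of_deriv_eq_zero (f := fun τ => (φ (z, τ)).2.1 - τ)
      (fun τ => (h1 τ).differentiableAt) (fun τ => (h1 τ).deriv) t 0
    simp only [h0, sub_zero] at this
    linarith
  refine ⟨fun q => (φ ((q.1, 0, x₀ q.1), q.2)).2.2, ?_, fun p => by simp only [h0],
    fun p t => ?_⟩
  · exact contDiff_snd.comp (contDiff_snd.comp (hφ.comp ((contDiff_fst.prodMk
      (contDiff_const.prodMk (hx₀.comp contDiff_fst))).prodMk contDiff_snd)))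
  · have h1 := hd3 (p, 0, x₀ p) t
    have h2 : φ ((p, 0, x₀ p), t) = (p, t, (φ ((p, 0, x₀ p), t)).2.2) := by
      refine Prod.ext (e1 _ t) (Prod.ext ?_ rfl)
      rw [e2]
      simp
    rw [h2] at h1
    exact h1

/-- Linear equations. -/
theorem lode_smooth {P H : Type} [NormedAddCommGroup P] [NormedSpace ℝ P] [FiniteDimensional ℝ P]
    [NormedAddCommGroup H] [NormedSpace ℝ H] [FiniteDimensional ℝ H]
    (A : P × ℝ → H →L[ℝ] H) (hA : ContDiff ℝ ∞ A) (b : P × ℝ → H) (hb : ContDiff ℝ ∞ b)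
    (x₀ : P → H) (hx₀ : ContDiff ℝ ∞ x₀) :
    ∃ x : P × ℝ → H, ContDiff ℝ ∞ x ∧ (∀ p, x (p, 0) = x₀ p) ∧
      ∀ p t, HasDerivAt (fun τ => x (p, τ)) (A (p, t) (x (p, t)) + b (p, t)) t := by
  obtain ⟨x, h1, h2, h3⟩ := ode_smooth (fun q : P × ℝ × H => A (q.1, q.2.1) q.2.2 + b (q.1, q.2.1))
    (((hA.comp (contDiff_fst.prodMk (contDiff_fst.comp contDiff_snd))).clm_apply
      (contDiff_snd.comp contDiff_snd)).add
      (hb.comp (contDiff_fst.prodMk (contDiff_fst.comp contDiff_snd)))) (fun r => by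
        have hc : IsCompact ((Metric.closedBall (0 : P) r) ×ˢ (Metric.closedBall (0 : ℝ) r)) :=
          (isCompact_closedBall _ _).prod (isCompact_closedBall _ _)
        obtain ⟨C₁, hC₁⟩ := hc.exists_bound_of_continuousOn hA.continuous.continuousOn
        obtain ⟨C₂, hC₂⟩ := hc.exists_bound_of_continuousOn hb.continuous.continuousOn
        refine ⟨max (max C₁ C₂) 0, fun p t x hp ht => ?_⟩
        have hm : (p, t) ∈ (Metric.closedBall (0 : P) r) ×ˢ (Metric.closedBall (0 : ℝ) r) := by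
          simp [hp, ht]
        have e1 := hC₁ _ hm
        have e2 := hC₂ _ hm
        have e3 : ‖A (p, t) x‖ ≤ ‖A (p, t)‖ * ‖x‖ := (A (p, t)).le_opNorm x
        have e4 : ‖A (p, t) x + b (p, t)‖ ≤ ‖A (p, t) x‖ + ‖b (p, t)‖ := norm_add_le _ _
        have e5 : C₁ ≤ max (max C₁ C₂) 0 := (le_max_left _ _).trans (le_max_left _ _)
        have e6 : C₂ ≤ max (max C₁ C₂) 0 := (le_max_right _ _).trans (le_max_left _ _)
        have e7 : ‖A (p, t)‖ * ‖x‖ ≤ max (max C₁ C₂) 0 * ‖x‖ :=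
          mul_le_mul_of_nonneg_right (e1.trans e5) (norm_nonneg x)
        have e8 : max (max C₁ C₂) 0 * (1 + ‖x‖)
            = max (max C₁ C₂) 0 * ‖x‖ + max (max C₁ C₂) 0 := by ring
        simp only
        linarith) x₀ hx₀
  exact ⟨x, h1, h2, h3⟩

end Pool.Agent.H86.Nco
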