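import Pool.Agent.H86.Nco.Stokes
import Pool.Agent.H86.Nco.Ode

/-!
# Module HOPF: lifting maps `S² → S²` to `S³`; the degree is an integer

A unit vector `(c, d)` of `ℂ × ℝ` corresponds to the projection matrix
`P = 1/2 (1 + d, conj c; c, 1 - d)` of `ℂ²`; `P z = z` is equivalent to
`(1 + d) z₁ = c z₀` and `(1 - d) z₀ = conj c z₁`.

`berry`: for smooth `z : ℝ² → ℂ²` with `‖z₀‖² + ‖z₁‖² = 1` and `h = (c, d)`,
`c = 2 conj z₀ z₁`, `d = ‖z₀‖² - ‖z₁‖²`:  `tri h (∂₁h) (∂₂h) = 4 Im ⟨∂₁z, ∂₂z⟩` where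
`⟨a, b⟩ = conj a₀ b₀ + conj a₁ b₁`.  This is a polynomial identity given `‖z‖² = 1` and
`Re ⟨z, ∂_k z⟩ = 0`.  (Check at `z = (1, (x₁ + i x₂)/2)` to first order: both sides are `1`.)
Note that `P z = z`, `‖z‖ = 1` imply `c = 2 conj z₀ z₁`, `d = ‖z₀‖² - ‖z₁‖²`.

`hopf_lift`: let `P (x) = P (h x)`, `P₀ = P (h₀)`, `z₀` a unit vector with `P₀ z₀ = z₀`.  Solve the
linear equation `∂₁ z = (∂₁ P) z`, `z (0, t) = z₀` (`lode_smooth`, parameter `t`; the unknown is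
`z (·, t)`, note that the time variable is `x₁`).  Then
* `P z = z`: `y = z - P z` satisfies `∂₁ y = (∂₁P) z - (∂₁P) z - P (∂₁P) z = - P (∂₁P) z` and
  `P (∂₁P) P = 0` (differentiate `P² = P`), so `∂₁ y = - P (∂₁P) y`, `y = 0` at `x₁ = 0`, so `y = 0`.
* `‖z‖ = 1`: `⟨z, ∂₁z⟩ = ⟨Pz, (∂₁P) P z⟩ = ⟨z, P (∂₁P) P z⟩ = 0`.
* for `x₁ ≤ 0`, `x₂ ≤ 0` or `x₂ ≥ 1` the matrix `P` is constant along the line, so `z = z₀`.
* `z (1, t)` lies in the range of `P₀` and has norm `1`, so `z (1, t) = u (t) z₀` with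
  `u (t) = ⟨z₀, z (1, t)⟩`, `u (0) = u (1) = 1`; `exists_angle` gives `φ` and `d`.
* `Q = Im ⟨z, ∂₂z⟩`, `Pp = Im ⟨z, ∂₁z⟩ = 0`: `∂₁Q - ∂₂Pp = 2 Im ⟨∂₁z, ∂₂z⟩ = tri / 2`, and `green`
  gives `1/2 ∬ tri = ∫ (Q (1, t) - Q (0, t)) dt = ∫ φ' = φ 1 - φ 0 = 2 π d`.
-/

open scoped Manifold ContDiff Bundle Topology

noncomputable section

namespace Pool.Agent.H86.Nco

/-- Smooth maps of the plane to the unit sphere of `ℂ × ℝ` which are constant outside the open unit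
square. -/
structure SphC (h : ℝ × ℝ → ℂ × ℝ) (h₀ : ℂ × ℝ) : Prop where
  smooth : ContDiff ℝ ∞ h
  mem : ∀ x, ‖(h x).1‖ ^ 2 + (h x).2 ^ 2 = 1
  out : ∀ x, x ∉ Sq → h x = h₀

/-- `∬ tri h (∂₁h) (∂₂h)` over the unit square -/
def Deg (h : ℝ × ℝ → ℂ × ℝ) : ℝ :=
  ∫ x in (0 : ℝ)..1, ∫ y in (0 : ℝ)..1,
    tri (h (x, y)) (fderiv ℝ h (x, y) (1, 0)) (fderiv ℝ h (x, y) (0, 1))

namespace HopfAux

/-! ### Derivatives of real components -/

theorem hasDerivAt_c1re {F : Type} [NormedAddCommGroup F] [NormedSpace ℝ F] {f : ℝ → ℂ × F}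
    {f' : ℂ × F} {t : ℝ} (h : HasDerivAt f f' t) : HasDerivAt (fun s => (f s).1.re) f'.1.re t :=
  (Complex.reCLM.comp (ContinuousLinearMap.fst ℝ ℂ F)).hasFDerivAt.comp_hasDerivAt t h

theorem hasDerivAt_c1im {F : Type} [NormedAddCommGroup F] [NormedSpace ℝ F] {f : ℝ → ℂ × F}
    {f' : ℂ × F} {t : ℝ} (h : HasDerivAt f f' t) : HasDerivAt (fun s => (f s).1.im) f'.1.im t :=
  (Complex.imCLM.comp (ContinuousLinearMap.fst ℝ ℂ F)).hasFDerivAt.comp_hasDerivAt t h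

theorem hasDerivAt_c2re {f : ℝ → ℂ × ℂ} {f' : ℂ × ℂ} {t : ℝ} (h : HasDerivAt f f' t) :
    HasDerivAt (fun s => (f s).2.re) f'.2.re t :=
  (Complex.reCLM.comp (ContinuousLinearMap.snd ℝ ℂ ℂ)).hasFDerivAt.comp_hasDerivAt t h

theorem hasDerivAt_c2im {f : ℝ → ℂ × ℂ} {f' : ℂ × ℂ} {t : ℝ} (h : HasDerivAt f f' t) :
    HasDerivAt (fun s => (f s).2.im) f'.2.im t :=
  (Complex.imCLM.comp (ContinuousLinearMap.snd ℝ ℂ ℂ)).hasFDerivAt.comp_hasDerivAt t h

theorem hasDerivAt_c2 {f : ℝ → ℂ × ℝ} {f' : ℂ × ℝ} {t : ℝ} (h : HasDerivAt f f' t) :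
    HasDerivAt (fun s => (f s).2) f'.2 t :=
  (ContinuousLinearMap.snd ℝ ℂ ℝ).hasFDerivAt.comp_hasDerivAt t h

theorem line_deriv {F : Type} [NormedAddCommGroup F] [NormedSpace ℝ F] {f : ℝ × ℝ → F}
    (hf : Differentiable ℝ f) (x e : ℝ × ℝ) :
    HasDerivAt (fun s : ℝ => f (x + s • e)) (fderiv ℝ f x e) 0 := by
  have h1 : HasDerivAt (fun s : ℝ => x + s • e) e 0 := by
    have h := ((hasDerivAt_id (0 : ℝ)).smul_const e).const_add x
    simpa using h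
  have h2 : HasFDerivAt f (fderiv ℝ f x) (x + (0 : ℝ) • e) := by
    rw [zero_smul, add_zero]
    exact (hf x).hasFDerivAt
  exact h2.comp_hasDerivAt 0 h1

theorem nsq (z : ℂ) : ‖z‖ ^ 2 = z.re ^ 2 + z.im ^ 2 := by
  rw [← Complex.normSq_eq_norm_sq, Complex.normSq_apply]
  ring

theorem berry_aux {z : ℝ × ℝ → ℂ × ℂ} (hz : Differentiable ℝ z)
    (h1 : ∀ x, ‖(z x).1‖ ^ 2 + ‖(z x).2‖ ^ 2 = 1) {h : ℝ × ℝ → ℂ × ℝ}
    (hh : ∀ x, h x = (2 * (starRingEnd ℂ) (z x).1 * (z x).2, ‖(z x).1‖ ^ 2 - ‖(z x).2‖ ^ 2))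
    (hd : Differentiable ℝ h) (x e : ℝ × ℝ) :
    (z x).1.re * (fderiv ℝ z x e).1.re + (z x).1.im * (fderiv ℝ z x e).1.im
      + (z x).2.re * (fderiv ℝ z x e).2.re + (z x).2.im * (fderiv ℝ z x e).2.im = 0 ∧
    (fderiv ℝ h x e).1.re = 2 * ((z x).1.re * (fderiv ℝ z x e).2.re
      + (z x).2.re * (fderiv ℝ z x e).1.re + (z x).1.im * (fderiv ℝ z x e).2.im
      + (z x).2.im * (fderiv ℝ z x e).1.im) ∧
    (fderiv ℝ h x e).1.im = 2 * ((z x).1.re * (fderiv ℝ z x e).2.im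
      + (z x).2.im * (fderiv ℝ z x e).1.re - (z x).1.im * (fderiv ℝ z x e).2.re
      - (z x).2.re * (fderiv ℝ z x e).1.im) ∧
    (fderiv ℝ h x e).2 = 2 * ((z x).1.re * (fderiv ℝ z x e).1.re
      + (z x).1.im * (fderiv ℝ z x e).1.im - (z x).2.re * (fderiv ℝ z x e).2.re
      - (z x).2.im * (fderiv ℝ z x e).2.im) := by
  have hl := line_deriv hz x e
  have ha := hasDerivAt_c1re hl
  have hb := hasDerivAt_c1im hl
  have hp := hasDerivAt_c2re hl
  have hq := hasDerivAt_c2im hl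
  have hhl := line_deriv hd x e
  have k1 := hasDerivAt_c1re hhl
  have k2 := hasDerivAt_c1im hhl
  have k3 := hasDerivAt_c2 hhl
  have e0 : x + (0 : ℝ) • e = x := by rw [zero_smul, add_zero]
  refine ⟨?_, ?_, ?_, ?_⟩
  · have hs := ((ha.pow 2).add (hb.pow 2)).add ((hp.pow 2).add (hq.pow 2))
    have hc : HasDerivAt (fun _ : ℝ => (1 : ℝ)) 0 0 := hasDerivAt_const _ _
    have := hs.unique (hc.congr_of_eventuallyEq (Filter.Eventually.of_forall fun s => ?_))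
    · simp only [e0] at this
      push_cast at this
      linarith
    · have := h1 (x + s • e)
      rw [nsq, nsq] at this
      simp only [Pi.add_apply, Pi.pow_apply]
      linarith
  · have hs := ((ha.mul hp).add (hb.mul hq)).const_mul 2
    have := k1.unique (hs.congr_of_eventuallyEq (Filter.Eventually.of_forall fun s => ?_))
    · simp only [e0] at this
      linarith
    · simp only [hh (x + s • e)]
      simp
      ring
  · have hs := ((ha.mul hq).sub (hb.mul hp)).const_mul 2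
    have := k2.unique (hs.congr_of_eventuallyEq (Filter.Eventually.of_forall fun s => ?_))
    · simp only [e0] at this
      linarith
    · simp only [hh (x + s • e)]
      simp
      ring
  · have hs := ((ha.pow 2).add (hb.pow 2)).sub ((hp.pow 2).add (hq.pow 2))
    have := k3.unique (hs.congr_of_eventuallyEq (Filter.Eventually.of_forall fun s => ?_))
    · simp only [e0] at this
      push_cast at this
      linarith
    · simp only [hh (x + s • e), nsq]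
      simp only [Pi.add_apply, Pi.pow_apply, Pi.sub_apply]

end HopfAux

open HopfAux

theorem berry (z : ℝ × ℝ → ℂ × ℂ) (hz : ContDiff ℝ ∞ z)
    (h1 : ∀ x, ‖(z x).1‖ ^ 2 + ‖(z x).2‖ ^ 2 = 1) (h : ℝ × ℝ → ℂ × ℝ)
    (hh : ∀ x, h x = (2 * (starRingEnd ℂ) (z x).1 * (z x).2, ‖(z x).1‖ ^ 2 - ‖(z x).2‖ ^ 2))
    (x : ℝ × ℝ) :
    tri (h x) (fderiv ℝ h x (1, 0)) (fderiv ℝ h x (0, 1)) =
      4 * ((starRingEnd ℂ) (fderiv ℝ z x (1, 0)).1 * (fderiv ℝ z x (0, 1)).1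
        + (starRingEnd ℂ) (fderiv ℝ z x (1, 0)).2 * (fderiv ℝ z x (0, 1)).2).im := by
  have hzd : Differentiable ℝ z := hz.differentiable (by simp)
  have hd : Differentiable ℝ h := by
    have : h = fun x => (2 * (starRingEnd ℂ) (z x).1 * (z x).2,
        ‖(z x).1‖ ^ 2 - ‖(z x).2‖ ^ 2) := funext hh
    rw [this]
    have d1 : Differentiable ℝ fun x => (z x).1 := hzd.fst
    have d2 : Differentiable ℝ fun x => (z x).2 := hzd.snd
    have d3 : Differentiable ℝ fun x => (starRingEnd ℂ) (z x).1 :=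
      Complex.conjCLE.differentiable.comp d1
    refine ((d3.const_mul 2).mul d2).prodMk ?_
    exact (d1.norm_sq ℝ).sub (d2.norm_sq ℝ)
  obtain ⟨a0, a1, a2, a3⟩ := berry_aux hzd h1 hh hd x (1, 0)
  obtain ⟨b0, b1, b2, b3⟩ := berry_aux hzd h1 hh hd x (0, 1)
  have hn := h1 x
  rw [nsq, nsq] at hn
  have c1 : (h x).1.re = 2 * ((z x).1.re * (z x).2.re + (z x).1.im * (z x).2.im) := by
    rw [hh x]
    simp
    ring
  have c2 : (h x).1.im = 2 * ((z x).1.re * (z x).2.im - (z x).1.im * (z x).2.re) := by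
    rw [hh x]
    simp
    ring
  have c3 : (h x).2 = (z x).1.re ^ 2 + (z x).1.im ^ 2 - ((z x).2.re ^ 2 + (z x).2.im ^ 2) := by
    rw [hh x, nsq, nsq]
  unfold tri
  rw [a1, a2, a3, b1, b2, b3, c1, c2, c3]
  simp only [Complex.add_im, Complex.mul_im, Complex.conj_re, Complex.conj_im]
  generalize (z x).1.re = a at *
  generalize (z x).1.im = b at *
  generalize (z x).2.re = p at *
  generalize (z x).2.im = q at *
  generalize (fderiv ℝ z x (1, 0)).1.re = a' at *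
  generalize (fderiv ℝ z x (1, 0)).1.im = b' at *
  generalize (fderiv ℝ z x (1, 0)).2.re = p' at *
  generalize (fderiv ℝ z x (1, 0)).2.im = q' at *
  generalize (fderiv ℝ z x (0, 1)).1.re = a'' at *
  generalize (fderiv ℝ z x (0, 1)).1.im = b'' at *
  generalize (fderiv ℝ z x (0, 1)).2.re = p'' at *
  generalize (fderiv ℝ z x (0, 1)).2.im = q'' at *
  linear_combination 4 * (a ^ 2 + b ^ 2 + (p ^ 2 + q ^ 2) + 1) *
    (a' * b'' - b' * a'' + p' * q'' - q' * p'') * hn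
    - 4 * (a ^ 2 + b ^ 2 + (p ^ 2 + q ^ 2)) * (a * b'' - b * a'' + p * q'' - q * p'') * a0
    + 4 * (a ^ 2 + b ^ 2 + (p ^ 2 + q ^ 2)) * (a * b' - b * a' + p * q' - q * p') * b0


namespace HopfAux

/-! ### The linear equation -/

/-- half of the action of `(d, conj c; c, -d)` on `ℂ²` -/
def MM (v : ℂ × ℝ) : ℂ × ℂ →L[ℝ] ℂ × ℂ :=
  (v.2 / 2) • ((ContinuousLinearMap.fst ℝ ℂ ℂ).prod (-ContinuousLinearMap.snd ℝ ℂ ℂ))
  + (v.1.re / 2) • ((ContinuousLinearMap.snd ℝ ℂ ℂ).prod (ContinuousLinearMap.fst ℝ ℂ ℂ))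
  + (v.1.im / 2) • ((-(Complex.I • ContinuousLinearMap.snd ℝ ℂ ℂ)).prod
    (Complex.I • ContinuousLinearMap.fst ℝ ℂ ℂ))

theorem MM_1re (v : ℂ × ℝ) (z : ℂ × ℂ) : (MM v z).1.re =
    (v.2 * z.1.re + v.1.re * z.2.re + v.1.im * z.2.im) / 2 := by
  simp [MM]
  ring

theorem MM_1im (v : ℂ × ℝ) (z : ℂ × ℂ) : (MM v z).1.im =
    (v.2 * z.1.im + v.1.re * z.2.im - v.1.im * z.2.re) / 2 := by
  simp [MM]
  ring

theorem MM_2re (v : ℂ × ℝ) (z : ℂ × ℂ) : (MM v z).2.re =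
    (v.1.re * z.1.re - v.1.im * z.1.im - v.2 * z.2.re) / 2 := by
  simp [MM]
  ring

theorem MM_2im (v : ℂ × ℝ) (z : ℂ × ℂ) : (MM v z).2.im =
    (v.1.re * z.1.im + v.1.im * z.1.re - v.2 * z.2.im) / 2 := by
  simp [MM]
  ring

theorem MM_zero : MM 0 = 0 := by
  apply ContinuousLinearMap.ext
  intro z
  refine Prod.ext (Complex.ext ?_ ?_) (Complex.ext ?_ ?_)
  · rw [MM_1re]
    simp
  · rw [MM_1im]
    simp
  · rw [MM_2re]
    simp
  · rw [MM_2im]
    simp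

theorem MM_smooth : ContDiff ℝ ∞ MM := by
  unfold MM
  have h1 : ContDiff ℝ ∞ fun v : ℂ × ℝ => v.2 / 2 := contDiff_snd.div_const 2
  have h2 : ContDiff ℝ ∞ fun v : ℂ × ℝ => v.1.re / 2 :=
    (Complex.reCLM.contDiff.comp contDiff_fst).div_const 2
  have h3 : ContDiff ℝ ∞ fun v : ℂ × ℝ => v.1.im / 2 :=
    (Complex.imCLM.contDiff.comp contDiff_fst).div_const 2
  exact ((h1.smul contDiff_const).add (h2.smul contDiff_const)).add (h3.smul contDiff_const)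

/-- `z` is in the range of the projection of `(c, d)`, real form -/
structure Rng (v : ℂ × ℝ) (z : ℂ × ℂ) : Prop where
  e1 : (1 + v.2) * z.2.re = v.1.re * z.1.re - v.1.im * z.1.im
  e2 : (1 + v.2) * z.2.im = v.1.re * z.1.im + v.1.im * z.1.re
  e3 : (1 - v.2) * z.1.re = v.1.re * z.2.re + v.1.im * z.2.im
  e4 : (1 - v.2) * z.1.im = v.1.re * z.2.im - v.1.im * z.2.re

/-- the defect -/
def WWd (v : ℂ × ℝ) (z : ℂ × ℂ) : ℝ :=
  (1 - v.2) * (z.1.re ^ 2 + z.1.im ^ 2) + (1 + v.2) * (z.2.re ^ 2 + z.2.im ^ 2)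
    - 2 * (z.2.re * (v.1.re * z.1.re - v.1.im * z.1.im)
      + z.2.im * (v.1.re * z.1.im + v.1.im * z.1.re))

theorem Rng.ww {v : ℂ × ℝ} {z : ℂ × ℂ} (h : Rng v z) : WWd v z = 0 := by
  unfold WWd
  linear_combination z.1.re * h.e3 + z.1.im * h.e4 + z.2.re * h.e1 + z.2.im * h.e2

theorem Rng.of_ww {v : ℂ × ℝ} {z : ℂ × ℂ} (hv : v.1.re ^ 2 + v.1.im ^ 2 + v.2 ^ 2 = 1)
    (h : WWd v z = 0) : Rng v z := by
  have k1 : ((1 + v.2) * z.2.re - (v.1.re * z.1.re - v.1.im * z.1.im)) ^ 2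
      + ((1 + v.2) * z.2.im - (v.1.re * z.1.im + v.1.im * z.1.re)) ^ 2 = 0 := by
    unfold WWd at h
    linear_combination (1 + v.2) * h + (z.1.re ^ 2 + z.1.im ^ 2) * hv
  have k2 : ((1 - v.2) * z.1.re - (v.1.re * z.2.re + v.1.im * z.2.im)) ^ 2
      + ((1 - v.2) * z.1.im - (v.1.re * z.2.im - v.1.im * z.2.re)) ^ 2 = 0 := by
    unfold WWd at h
    linear_combination (1 - v.2) * h + (z.2.re ^ 2 + z.2.im ^ 2) * hv
  refine ⟨?_, ?_, ?_, ?_⟩
  · nlinarith [sq_nonneg ((1 + v.2) * z.2.re - (v.1.re * z.1.re - v.1.im * z.1.im)),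
      sq_nonneg ((1 + v.2) * z.2.im - (v.1.re * z.1.im + v.1.im * z.1.re)),
      pow_eq_zero_iff (two_ne_zero) |>.1 (le_antisymm (by nlinarith [sq_nonneg ((1 + v.2) * z.2.im - (v.1.re * z.1.im + v.1.im * z.1.re))]) (sq_nonneg ((1 + v.2) * z.2.re - (v.1.re * z.1.re - v.1.im * z.1.im))))]
  · nlinarith [sq_nonneg ((1 + v.2) * z.2.re - (v.1.re * z.1.re - v.1.im * z.1.im)),
      sq_nonneg ((1 + v.2) * z.2.im - (v.1.re * z.1.im + v.1.im * z.1.re)),
      pow_eq_zero_iff (two_ne_zero) |>.1 (le_antisymm (by nlinarith [sq_nonneg ((1 + v.2) * z.2.re - (v.1.re * z.1.re - v.1.im * z.1.im))]) (sq_nonneg ((1 + v.2) * z.2.im - (v.1.re * z.1.im + v.1.im * z.1.re))))]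
  · nlinarith [pow_eq_zero_iff (two_ne_zero) |>.1 (le_antisymm (by nlinarith [sq_nonneg ((1 - v.2) * z.1.im - (v.1.re * z.2.im - v.1.im * z.2.re))]) (sq_nonneg ((1 - v.2) * z.1.re - (v.1.re * z.2.re + v.1.im * z.2.im))))]
  · nlinarith [pow_eq_zero_iff (two_ne_zero) |>.1 (le_antisymm (by nlinarith [sq_nonneg ((1 - v.2) * z.1.re - (v.1.re * z.2.re + v.1.im * z.2.im))]) (sq_nonneg ((1 - v.2) * z.1.im - (v.1.re * z.2.im - v.1.im * z.2.re))))]

theorem lift_line {c c' : ℝ → ℂ × ℝ} (hc : ∀ t, HasDerivAt c (c' t) t)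
    (h1 : ∀ t, ‖(c t).1‖ ^ 2 + (c t).2 ^ 2 = 1) {z : ℝ → ℂ × ℂ}
    (hz : ∀ t, HasDerivAt z (MM (c' t) (z t)) t) (h0 : Rng (c 0) (z 0))
    (hn : ‖(z 0).1‖ ^ 2 + ‖(z 0).2‖ ^ 2 = 1) (t : ℝ) :
    Rng (c t) (z t) ∧ ‖(z t).1‖ ^ 2 + ‖(z t).2‖ ^ 2 = 1 := by
  have hv : ∀ t, (c t).1.re ^ 2 + (c t).1.im ^ 2 + (c t).2 ^ 2 = 1 := by
    intro t
    have := h1 t
    rwa [nsq] at this
  have hcc : ∀ t, (c t).1.re * (c' t).1.re + (c t).1.im * (c' t).1.im + (c t).2 * (c' t).2 = 0 := by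
    intro t
    have hs := (((hasDerivAt_c1re (hc t)).pow 2).add ((hasDerivAt_c1im (hc t)).pow 2)).add
      ((hasDerivAt_c2 (hc t)).pow 2)
    have hk : HasDerivAt (fun _ : ℝ => (1 : ℝ)) 0 t := hasDerivAt_const _ _
    have := hs.unique (hk.congr_of_eventuallyEq (Filter.Eventually.of_forall fun s => ?_))
    · push_cast at this
      linarith
    · simp only [Pi.add_apply, Pi.pow_apply]
      exact hv s
  have ha := fun t => hasDerivAt_c1re (hz t)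
  have hb := fun t => hasDerivAt_c1im (hz t)
  have hp := fun t => hasDerivAt_c2re (hz t)
  have hq := fun t => hasDerivAt_c2im (hz t)
  have hr := fun t => hasDerivAt_c1re (hc t)
  have hi := fun t => hasDerivAt_c1im (hc t)
  have hd := fun t => hasDerivAt_c2 (hc t)
  -- the defect is constant
  have hW : ∀ t, HasDerivAt (fun s => WWd (c s) (z s)) 0 t := by
    intro t
    have h2 := ((((hd t).const_sub 1).mul (((ha t).pow 2).add ((hb t).pow 2))).add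
      (((hd t).const_add 1).mul (((hp t).pow 2).add ((hq t).pow 2)))).sub
      ((((hp t).mul (((hr t).mul (ha t)).sub ((hi t).mul (hb t)))).add
        ((hq t).mul (((hr t).mul (hb t)).add ((hi t).mul (ha t))))).const_mul 2)
    refine h2.congr_deriv ?_
    simp only [MM_1re, MM_1im, MM_2re, MM_2im, Pi.add_apply, Pi.pow_apply, Pi.sub_apply,
      Pi.mul_apply]
    push_cast
    linear_combination -(((z t).1.re ^ 2 + (z t).1.im ^ 2) + ((z t).2.re ^ 2 + (z t).2.im ^ 2)) *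
      hcc t
  have hW0 : ∀ t, WWd (c t) (z t) = 0 := by
    intro t
    have h3 : WWd (c t) (z t) = WWd (c 0) (z 0) :=
      is_const_of_deriv_eq_zero (f := fun s => WWd (c s) (z s))
      (fun s => (hW s).differentiableAt) (fun s => (hW s).deriv) t 0
    rw [h3, h0.ww]
  have hR : ∀ t, Rng (c t) (z t) := fun t => Rng.of_ww (hv t) (hW0 t)
  refine ⟨hR t, ?_⟩
  have hN : ∀ t, HasDerivAt (fun s => (z s).1.re ^ 2 + (z s).1.im ^ 2 +
      ((z s).2.re ^ 2 + (z s).2.im ^ 2)) 0 t := by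
    intro t
    have h2 := (((ha t).pow 2).add ((hb t).pow 2)).add (((hp t).pow 2).add ((hq t).pow 2))
    refine h2.congr_deriv ?_
    simp only [MM_1re, MM_1im, MM_2re, MM_2im]
    push_cast
    obtain ⟨e1, e2, e3, e4⟩ := hR t
    have g1 : (z t).1.re ^ 2 + (z t).1.im ^ 2 - (z t).2.re ^ 2 - (z t).2.im ^ 2 =
        (c t).2 * ((z t).1.re ^ 2 + (z t).1.im ^ 2 + ((z t).2.re ^ 2 + (z t).2.im ^ 2)) := by
      linear_combination (z t).1.re * e3 + (z t).1.im * e4 - (z t).2.re * e1 - (z t).2.im * e2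
    have g2 : 2 * ((z t).1.re * (z t).2.re + (z t).1.im * (z t).2.im) =
        (c t).1.re * ((z t).1.re ^ 2 + (z t).1.im ^ 2 + ((z t).2.re ^ 2 + (z t).2.im ^ 2)) := by
      linear_combination (z t).1.re * e1 + (z t).1.im * e2 + (z t).2.re * e3 + (z t).2.im * e4
    have g3 : 2 * ((z t).1.re * (z t).2.im - (z t).1.im * (z t).2.re) =
        (c t).1.im * ((z t).1.re ^ 2 + (z t).1.im ^ 2 + ((z t).2.re ^ 2 + (z t).2.im ^ 2)) := by
      linear_combination (z t).1.re * e2 - (z t).1.im * e1 + (z t).2.im * e3 - (z t).2.re * e4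
    linear_combination (c' t).2 * g1 + (c' t).1.re * g2 + (c' t).1.im * g3 +
      ((z t).1.re ^ 2 + (z t).1.im ^ 2 + ((z t).2.re ^ 2 + (z t).2.im ^ 2)) * hcc t
  have h3 : (z t).1.re ^ 2 + (z t).1.im ^ 2 + ((z t).2.re ^ 2 + (z t).2.im ^ 2) =
      (z 0).1.re ^ 2 + (z 0).1.im ^ 2 + ((z 0).2.re ^ 2 + (z 0).2.im ^ 2) :=
    is_const_of_deriv_eq_zero (f := fun s => (z s).1.re ^ 2 + (z s).1.im ^ 2 +
      ((z s).2.re ^ 2 + (z s).2.im ^ 2))
      (fun s => (hN s).differentiableAt) (fun s => (hN s).deriv) t 0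
  rw [nsq, nsq] at hn ⊢
  linarith

/-! ### Derivatives along the axes -/

theorem hasDerivAt_fst {F : Type} [NormedAddCommGroup F] [NormedSpace ℝ F] {f : ℝ × ℝ → F}
    (hf : Differentiable ℝ f) (t p : ℝ) :
    HasDerivAt (fun s : ℝ => f (s, p)) (fderiv ℝ f (t, p) (1, 0)) t := by
  have h1 : HasDerivAt (fun s : ℝ => (s, p)) (1, 0) t :=
    (hasDerivAt_id t).prodMk (hasDerivAt_const t p)
  exact (hf (t, p)).hasFDerivAt.comp_hasDerivAt t h1

theorem hasDerivAt_snd {F : Type} [NormedAddCommGroup F] [NormedSpace ℝ F] {f : ℝ × ℝ → F}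
    (hf : Differentiable ℝ f) (t p : ℝ) :
    HasDerivAt (fun s : ℝ => f (t, s)) (fderiv ℝ f (t, p) (0, 1)) p := by
  have h1 : HasDerivAt (fun s : ℝ => (t, s)) (0, 1) p :=
    (hasDerivAt_const p t).prodMk (hasDerivAt_id p)
  exact (hf (t, p)).hasFDerivAt.comp_hasDerivAt p h1

theorem sphC_vanish {h : ℝ × ℝ → ℂ × ℝ} {h₀ : ℂ × ℝ} (hh : SphC h h₀) (t p : ℝ)
    (hx : t ≤ 0 ∨ p ≤ 0 ∨ 1 ≤ p) : fderiv ℝ h (t, p) (1, 0) = 0 := by
  have hd : Differentiable ℝ h := hh.smooth.differentiable (by simp)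
  have h1 := (hasDerivAt_fst hd t p).hasDerivWithinAt (s := Set.Iic t)
  have h2 : HasDerivWithinAt (fun _ : ℝ => h₀) 0 (Set.Iic t) t := hasDerivWithinAt_const _ _ _
  have hout : ∀ s ≤ t, h (s, p) = h₀ := by
    intro s hs
    refine hh.out _ fun hmem => ?_
    simp only [Sq, Set.mem_prod, Set.mem_Ioo] at hmem
    rcases hx with hx | hx | hx
    · linarith [hmem.1.1]
    · linarith [hmem.2.1]
    · linarith [hmem.2.2]
  have h3 : HasDerivWithinAt (fun s : ℝ => h (s, p)) 0 (Set.Iic t) t :=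
    h2.congr (fun s hs => hout s hs) (hout t le_rfl)
  exact (uniqueDiffWithinAt_Iic t).eq_deriv _ h1 h3

/-! ### The base point -/

theorem exists_base {h₀ : ℂ × ℝ} (h : ‖h₀.1‖ ^ 2 + h₀.2 ^ 2 = 1) :
    ∃ z₀ : ℂ × ℂ, Rng h₀ z₀ ∧ ‖z₀.1‖ ^ 2 + ‖z₀.2‖ ^ 2 = 1 := by
  obtain ⟨c, d⟩ := h₀
  simp only at h
  rw [nsq] at h
  by_cases hd : 1 + d = 0
  · have hd2 : d = -1 := by linarith
    have hc : c.re ^ 2 + c.im ^ 2 = 0 := by
      rw [hd2] at h
      linarith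
    have hr : c.re = 0 := by nlinarith [sq_nonneg c.re, sq_nonneg c.im]
    have hi : c.im = 0 := by nlinarith [sq_nonneg c.re, sq_nonneg c.im]
    refine ⟨(0, 1), ⟨?_, ?_, ?_, ?_⟩, ?_⟩ <;> simp [hd2, hr, hi]
  · have hd3 : 0 < 1 + d := by
      rcases lt_trichotomy (1 + d) 0 with h4 | h4 | h4
      · nlinarith [sq_nonneg c.re, sq_nonneg c.im]
      · exact absurd h4 hd
      · exact h4
    have hs : 0 < 2 * (1 + d) := by positivity
    have hsq : 0 < √(2 * (1 + d)) := Real.sqrt_pos.2 hs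
    have hsq2 : √(2 * (1 + d)) ^ 2 = 2 * (1 + d) := Real.sq_sqrt hs.le
    set r := √(2 * (1 + d)) with hr
    have hri : r⁻¹ ^ 2 * (2 * (1 + d)) = 1 := by
      rw [← hsq2]
      field_simp
    refine ⟨(((r⁻¹ * (1 + d) : ℝ) : ℂ), ((r⁻¹ : ℝ) : ℂ) * c), ⟨?_, ?_, ?_, ?_⟩, ?_⟩
    · simp only [Complex.re_ofReal_mul, Complex.ofReal_re, Complex.ofReal_im]
      ring
    · simp only [Complex.im_ofReal_mul, Complex.ofReal_re, Complex.ofReal_im]
      ring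
    · simp only [Complex.im_ofReal_mul, Complex.re_ofReal_mul, Complex.ofReal_re]
      linear_combination -r⁻¹ * h
    · simp only [Complex.im_ofReal_mul, Complex.re_ofReal_mul, Complex.ofReal_im]
      ring
    · simp only [nsq, Complex.im_ofReal_mul, Complex.re_ofReal_mul, Complex.ofReal_re,
        Complex.ofReal_im]
      linear_combination r⁻¹ ^ 2 * h + hri

theorem Rng.complex {v : ℂ × ℝ} {z : ℂ × ℂ} (h : Rng v z) :
    ((1 + v.2 : ℝ) : ℂ) * z.2 = v.1 * z.1 ∧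
      ((1 - v.2 : ℝ) : ℂ) * z.1 = (starRingEnd ℂ) v.1 * z.2 := by
  obtain ⟨e1, e2, e3, e4⟩ := h
  constructor
  · refine Complex.ext ?_ ?_
    · rw [Complex.re_ofReal_mul, Complex.mul_re, e1]
    · rw [Complex.im_ofReal_mul, Complex.mul_im, e2]
  · refine Complex.ext ?_ ?_
    · rw [Complex.re_ofReal_mul, Complex.mul_re, e3, Complex.conj_re, Complex.conj_im]
      ring
    · rw [Complex.im_ofReal_mul, Complex.mul_im, e4, Complex.conj_re, Complex.conj_im]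
      ring

theorem Rng.eq_hopf {v : ℂ × ℝ} {z : ℂ × ℂ} (h : Rng v z) (hn : ‖z.1‖ ^ 2 + ‖z.2‖ ^ 2 = 1) :
    v = (2 * (starRingEnd ℂ) z.1 * z.2, ‖z.1‖ ^ 2 - ‖z.2‖ ^ 2) := by
  obtain ⟨e1, e2, e3, e4⟩ := h
  rw [nsq, nsq] at hn
  refine Prod.ext (Complex.ext ?_ ?_) ?_
  · simp only [Complex.mul_re, Complex.mul_im, Complex.conj_re, Complex.conj_im]
    norm_num
    linear_combination -(z.1.re * e1 + z.1.im * e2 + z.2.re * e3 + z.2.im * e4) - v.1.re * hn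
  · simp only [Complex.mul_re, Complex.mul_im, Complex.conj_re, Complex.conj_im]
    norm_num
    linear_combination -(z.1.re * e2 - z.1.im * e1 + z.2.im * e3 - z.2.re * e4) - v.1.im * hn
  · simp only [nsq]
    linear_combination -(z.1.re * e3 + z.1.im * e4 - z.2.re * e1 - z.2.im * e2) - v.2 * hn

/-- two unit vectors in the same line -/
theorem Rng.same {v : ℂ × ℝ} {z w : ℂ × ℂ} (hz : Rng v z) (hw : Rng v w)
    (hn : ‖z.1‖ ^ 2 + ‖z.2‖ ^ 2 = 1) (hm : ‖w.1‖ ^ 2 + ‖w.2‖ ^ 2 = 1) :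
    w = (((starRingEnd ℂ) z.1 * w.1 + (starRingEnd ℂ) z.2 * w.2) * z.1,
      ((starRingEnd ℂ) z.1 * w.1 + (starRingEnd ℂ) z.2 * w.2) * z.2) ∧
    ‖(starRingEnd ℂ) z.1 * w.1 + (starRingEnd ℂ) z.2 * w.2‖ = 1 := by
  obtain ⟨a1, a2⟩ := hz.complex
  obtain ⟨b1, b2⟩ := hw.complex
  push_cast at a1 a2 b1 b2
  have hx : z.1 * w.2 = z.2 * w.1 := by
    have : 2 * (z.1 * w.2 - z.2 * w.1) = 0 := by
      linear_combination z.1 * b1 - w.1 * a1 + w.2 * a2 - z.2 * b2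
    have h2 : z.1 * w.2 - z.2 * w.1 = 0 := by
      rcases mul_eq_zero.1 this with h | h
      · norm_num at h
      · exact h
    exact sub_eq_zero.1 h2
  have hN : (starRingEnd ℂ) z.1 * z.1 + (starRingEnd ℂ) z.2 * z.2 = 1 := by
    rw [Complex.conj_mul', Complex.conj_mul']
    exact_mod_cast hn
  have hu : w = (((starRingEnd ℂ) z.1 * w.1 + (starRingEnd ℂ) z.2 * w.2) * z.1,
      ((starRingEnd ℂ) z.1 * w.1 + (starRingEnd ℂ) z.2 * w.2) * z.2) := by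
    refine Prod.ext ?_ ?_
    · simp only
      linear_combination -w.1 * hN - (starRingEnd ℂ) z.2 * hx
    · simp only
      linear_combination -w.2 * hN + (starRingEnd ℂ) z.1 * hx
  refine ⟨hu, ?_⟩
  set u := (starRingEnd ℂ) z.1 * w.1 + (starRingEnd ℂ) z.2 * w.2 with hudef
  have h4 : ‖u‖ ^ 2 = 1 := by
    rw [hu] at hm
    simp only [norm_mul] at hm
    nlinarith
  have h5 := norm_nonneg u
  nlinarith [sq_nonneg (‖u‖ - 1)]

/-! ### The imaginary part of the hermitian form -/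

def BB (v w : ℂ × ℂ) : ℝ :=
  v.1.re * w.1.im - v.1.im * w.1.re + (v.2.re * w.2.im - v.2.im * w.2.re)

theorem BB_eq (v w : ℂ × ℂ) :
    ((starRingEnd ℂ) v.1 * w.1 + (starRingEnd ℂ) v.2 * w.2).im = BB v w := by
  simp only [BB, Complex.add_im, Complex.mul_im, Complex.conj_re, Complex.conj_im]
  ring

theorem BB_contDiff {n : WithTop ℕ∞} {f g : ℝ × ℝ → ℂ × ℂ} (hf : ContDiff ℝ n f)
    (hg : ContDiff ℝ n g) : ContDiff ℝ n fun y => BB (f y) (g y) := by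
  unfold BB
  have f1 : ContDiff ℝ n fun y => (f y).1.re := Complex.reCLM.contDiff.comp hf.fst
  have f2 : ContDiff ℝ n fun y => (f y).1.im := Complex.imCLM.contDiff.comp hf.fst
  have f3 : ContDiff ℝ n fun y => (f y).2.re := Complex.reCLM.contDiff.comp hf.snd
  have f4 : ContDiff ℝ n fun y => (f y).2.im := Complex.imCLM.contDiff.comp hf.snd
  have g1 : ContDiff ℝ n fun y => (g y).1.re := Complex.reCLM.contDiff.comp hg.fst
  have g2 : ContDiff ℝ n fun y => (g y).1.im := Complex.imCLM.contDiff.comp hg.fst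
  have g3 : ContDiff ℝ n fun y => (g y).2.re := Complex.reCLM.contDiff.comp hg.snd
  have g4 : ContDiff ℝ n fun y => (g y).2.im := Complex.imCLM.contDiff.comp hg.snd
  exact ((f1.mul g2).sub (f2.mul g1)).add ((f3.mul g4).sub (f4.mul g3))

theorem BB_deriv {f g : ℝ × ℝ → ℂ × ℂ} (hf : ContDiff ℝ 1 f) (hg : ContDiff ℝ 1 g)
    (x e : ℝ × ℝ) : fderiv ℝ (fun y => BB (f y) (g y)) x e =
      BB (fderiv ℝ f x e) (g x) + BB (f x) (fderiv ℝ g x e) := by
  have hfd := hf.differentiable (by simp)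
  have hgd := hg.differentiable (by simp)
  have hl := line_deriv ((BB_contDiff hf hg).differentiable (by simp)) x e
  have lf := line_deriv hfd x e
  have lg := line_deriv hgd x e
  have hs := (((hasDerivAt_c1re lf).mul (hasDerivAt_c1im lg)).sub
    ((hasDerivAt_c1im lf).mul (hasDerivAt_c1re lg))).add
    (((hasDerivAt_c2re lf).mul (hasDerivAt_c2im lg)).sub
    ((hasDerivAt_c2im lf).mul (hasDerivAt_c2re lg)))
  have h2 := hl.unique hs
  rw [h2]
  simp only [zero_smul, add_zero, BB]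
  ring

theorem snd_symm {z : ℝ × ℝ → ℂ × ℂ} (hz : ContDiff ℝ ∞ z) (x : ℝ × ℝ) :
    fderiv ℝ (fun y => fderiv ℝ z y (0, 1)) x (1, 0) =
      fderiv ℝ (fun y => fderiv ℝ z y (1, 0)) x (0, 1) := by
  have h1 : Differentiable ℝ (fderiv ℝ z) :=
    (hz.fderiv_right (m := ∞) (by simp)).differentiable (by simp)
  have h2 : ∀ v w : ℝ × ℝ, fderiv ℝ (fun y => fderiv ℝ z y v) x w = fderiv ℝ (fderiv ℝ z) x w v := by
    intro v w
    have h3 : HasFDerivAt (fun y => fderiv ℝ z y v) ((ContinuousLinearMap.apply ℝ (ℂ × ℂ) v).comp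
        (fderiv ℝ (fderiv ℝ z) x)) x :=
      (ContinuousLinearMap.apply ℝ (ℂ × ℂ) v).hasFDerivAt.comp x (h1 x).hasFDerivAt
    rw [h3.fderiv]
    rfl
  rw [h2, h2]
  have h4 : IsSymmSndFDerivAt ℝ z x := by
    refine hz.contDiffAt.isSymmSndFDerivAt ?_
    simp only [minSmoothness_of_isRCLikeNormedField]
    have h5 : ((2 : ℕ∞) : WithTop ℕ∞) ≤ ((⊤ : ℕ∞) : WithTop ℕ∞) := WithTop.coe_le_coe.2 le_top
    exact h5
  exact h4 _ _


end HopfAux

open HopfAux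

theorem hopf_lift {h : ℝ × ℝ → ℂ × ℝ} {h₀ : ℂ × ℝ} (hh : SphC h h₀) :
    ∃ (z : ℝ × ℝ → ℂ × ℂ) (z₀ : ℂ × ℂ) (φ : ℝ → ℝ) (d : ℤ),
      ContDiff ℝ ∞ z ∧ ContDiff ℝ ∞ φ ∧ (∀ x, ‖(z x).1‖ ^ 2 + ‖(z x).2‖ ^ 2 = 1) ∧
      (∀ x, ((1 + (h x).2 : ℝ) : ℂ) * (z x).2 = (h x).1 * (z x).1) ∧
      (∀ x, ((1 - (h x).2 : ℝ) : ℂ) * (z x).1 = (starRingEnd ℂ) (h x).1 * (z x).2) ∧
      (∀ x, x.1 ≤ 0 ∨ x.2 ≤ 0 ∨ 1 ≤ x.2 → z x = z₀) ∧
      (∀ t, z (1, t) = (Complex.exp (φ t * Complex.I) * z₀.1,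
        Complex.exp (φ t * Complex.I) * z₀.2)) ∧
      φ 0 = 0 ∧ φ 1 = 2 * Real.pi * d ∧ Deg h = 4 * Real.pi * d := by
  have hd : Differentiable ℝ h := hh.smooth.differentiable (by simp)
  have hout0 : ∀ p : ℝ, h (0, p) = h₀ := fun p => hh.out _ fun hm => by
    simp only [Sq, Set.mem_prod, Set.mem_Ioo] at hm
    linarith [hm.1.1]
  have hout1 : ∀ p : ℝ, h (1, p) = h₀ := fun p => hh.out _ fun hm => by
    simp only [Sq, Set.mem_prod, Set.mem_Ioo] at hm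
    linarith [hm.1.2]
  have hmem0 : ‖h₀.1‖ ^ 2 + h₀.2 ^ 2 = 1 := by
    rw [← hout0 0]
    exact hh.mem (0, 0)
  obtain ⟨z₀, hz₀, hz₀n⟩ := exists_base hmem0
  -- the linear equation
  have hA : ContDiff ℝ ∞ fun q : ℝ × ℝ => MM (fderiv ℝ h (q.2, q.1) (1, 0)) := by
    refine MM_smooth.comp ?_
    have h1 : ContDiff ℝ ∞ (fderiv ℝ h) := hh.smooth.fderiv_right (m := ∞) (by simp)
    exact (h1.comp (contDiff_snd.prodMk contDiff_fst)).clm_apply contDiff_const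
  obtain ⟨X, hX, hX0, hX1⟩ := lode_smooth (fun q : ℝ × ℝ => MM (fderiv ℝ h (q.2, q.1) (1, 0))) hA
    (fun _ => 0) contDiff_const (fun _ => z₀) contDiff_const
  set z : ℝ × ℝ → ℂ × ℂ := fun x => X (x.2, x.1) with hzdef
  have hz : ContDiff ℝ ∞ z := hX.comp (contDiff_snd.prodMk contDiff_fst)
  have hzd : Differentiable ℝ z := hz.differentiable (by simp)
  have hz1 : ∀ t p, HasDerivAt (fun s => z (s, p)) (MM (fderiv ℝ h (t, p) (1, 0)) (z (t, p))) t := by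
    intro t p
    have := hX1 p t
    simp only [add_zero] at this
    exact this
  have hz0 : ∀ p, z (0, p) = z₀ := fun p => hX0 p
  have hgood : ∀ x : ℝ × ℝ, Rng (h x) (z x) ∧ ‖(z x).1‖ ^ 2 + ‖(z x).2‖ ^ 2 = 1 := by
    rintro ⟨t, p⟩
    exact lift_line (c := fun s => h (s, p)) (c' := fun s => fderiv ℝ h (s, p) (1, 0))
      (fun s => hasDerivAt_fst hd s p) (fun s => hh.mem (s, p)) (z := fun s => z (s, p))
      (fun s => hz1 s p) (by rw [hz0, hout0]; exact hz₀)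
      (by rw [hz0]; exact hz₀n) t
  have hconst : ∀ x : ℝ × ℝ, x.1 ≤ 0 ∨ x.2 ≤ 0 ∨ 1 ≤ x.2 → z x = z₀ := by
    rintro ⟨t, p⟩ hx
    simp only at hx
    by_cases ht : t ≤ 0
    · have h2 := constant_of_has_deriv_right_zero (f := fun s => z (s, p)) (a := t) (b := 0)
        (fun s _ => (hz1 s p).continuousAt.continuousWithinAt) (fun s hs => by
          have h3 := (hz1 s p).hasDerivWithinAt (s := Set.Ici s)
          rw [sphC_vanish hh s p (Or.inl hs.2.le), MM_zero] at h3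
          simpa using h3) 0 ⟨ht, le_rfl⟩
      rw [← h2, hz0]
    · have hx2 : p ≤ 0 ∨ 1 ≤ p := by tauto
      have h2 : z (t, p) = z (0, p) := is_const_of_deriv_eq_zero (f := fun s => z (s, p))
        (fun s => (hz1 s p).differentiableAt) (fun s => by
          rw [(hz1 s p).deriv, sphC_vanish hh s p (Or.inr hx2), MM_zero]
          simp) t 0
      rw [h2, hz0]
  -- the angle
  set u : ℝ → ℂ := fun t => (starRingEnd ℂ) z₀.1 * (z (1, t)).1 + (starRingEnd ℂ) z₀.2 * (z (1, t)).2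
    with hudef
  have hu : ContDiff ℝ ∞ u := by
    have h1 : ContDiff ℝ ∞ fun t : ℝ => z (1, t) := hz.comp (contDiff_const.prodMk contDiff_id)
    exact (contDiff_const.mul h1.fst).add (contDiff_const.mul h1.snd)
  have hsame : ∀ t, z (1, t) = (u t * z₀.1, u t * z₀.2) ∧ ‖u t‖ = 1 := by
    intro t
    obtain ⟨g1, g2⟩ := hgood (1, t)
    rw [hout1] at g1
    exact hz₀.same g1 hz₀n g2
  have hN : (starRingEnd ℂ) z₀.1 * z₀.1 + (starRingEnd ℂ) z₀.2 * z₀.2 = 1 := by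
    rw [Complex.conj_mul', Complex.conj_mul']
    exact_mod_cast hz₀n
  have hu0 : u 0 = 1 := by
    simp only [hudef]
    rw [hconst (1, 0) (Or.inr (Or.inl le_rfl)), hN]
  have hu1 : u 1 = 1 := by
    simp only [hudef]
    rw [hconst (1, 1) (Or.inr (Or.inr le_rfl)), hN]
  obtain ⟨φ, d, hφ, hφu, hφ0, hφ1⟩ := exists_angle u hu (fun t => (hsame t).2) hu0 hu1
  have hend : ∀ t, z (1, t) = (Complex.exp (φ t * Complex.I) * z₀.1,
      Complex.exp (φ t * Complex.I) * z₀.2) := by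
    intro t
    rw [(hsame t).1, hφu t]
  refine ⟨z, z₀, φ, d, hz, hφ, fun x => (hgood x).2, fun x => (hgood x).1.complex.1,
    fun x => (hgood x).1.complex.2, hconst, hend, hφ0, hφ1, ?_⟩
  -- the degree
  have hfd : ContDiff ℝ ∞ (fderiv ℝ z) := hz.fderiv_right (m := ∞) (by simp)
  have c1 : ContDiff ℝ 1 z := hz.of_le (by exact_mod_cast le_top)
  have c2 : ContDiff ℝ 1 fun x => fderiv ℝ z x (1, 0) :=
    (hfd.clm_apply contDiff_const).of_le (by exact_mod_cast le_top)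
  have c3 : ContDiff ℝ 1 fun x => fderiv ℝ z x (0, 1) :=
    (hfd.clm_apply contDiff_const).of_le (by exact_mod_cast le_top)
  have hP0 : ∀ x, BB (z x) (fderiv ℝ z x (1, 0)) = 0 := by
    rintro ⟨t, p⟩
    rw [(hasDerivAt_fst hzd t p).unique (hz1 t p)]
    simp only [BB, MM_1re, MM_1im, MM_2re, MM_2im]
    obtain ⟨g1, g2⟩ := hgood (t, p)
    ring
  have hQ0 : ∀ t, BB (z (0, t)) (fderiv ℝ z (0, t) (0, 1)) = 0 := by
    intro t
    have h1 : HasDerivAt (fun s : ℝ => z (0, s)) 0 t := by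
      have h2 : (fun s : ℝ => z (0, s)) = fun _ => z₀ := funext hz0
      rw [h2]
      exact hasDerivAt_const _ _
    rw [(hasDerivAt_snd hzd 0 t).unique h1]
    simp [BB]
  have hφd : Differentiable ℝ φ := hφ.differentiable (by simp)
  have hQ1 : ∀ t, BB (z (1, t)) (fderiv ℝ z (1, t) (0, 1)) = deriv φ t := by
    intro t
    have h1 : HasDerivAt (fun s : ℝ => Complex.exp (φ s * Complex.I))
        (Complex.exp (φ t * Complex.I) * ((deriv φ t : ℝ) * Complex.I)) t :=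
      ((hφd t).hasDerivAt.ofReal_comp.mul_const Complex.I).cexp
    have h2 : HasDerivAt (fun s : ℝ => z (1, s))
        (Complex.exp (φ t * Complex.I) * ((deriv φ t : ℝ) * Complex.I) * z₀.1,
          Complex.exp (φ t * Complex.I) * ((deriv φ t : ℝ) * Complex.I) * z₀.2) t := by
      have h3 : (fun s : ℝ => z (1, s)) = fun s : ℝ => (Complex.exp (φ s * Complex.I) * z₀.1,
        Complex.exp (φ s * Complex.I) * z₀.2) := funext hend
      rw [h3]
      exact (h1.mul_const _).prodMk (h1.mul_const _)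
    rw [(hasDerivAt_snd hzd 1 t).unique h2]
    have h4 := (hgood (1, t)).2
    rw [nsq, nsq] at h4
    have e1 : Complex.exp (φ t * Complex.I) * ((deriv φ t : ℝ) * Complex.I) * z₀.1 =
        ((deriv φ t : ℝ) : ℂ) * (Complex.I * (z (1, t)).1) := by
      rw [hend t]
      ring
    have e2 : Complex.exp (φ t * Complex.I) * ((deriv φ t : ℝ) * Complex.I) * z₀.2 =
        ((deriv φ t : ℝ) : ℂ) * (Complex.I * (z (1, t)).2) := by
      rw [hend t]
      ring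
    rw [e1, e2]
    simp only [BB, Complex.re_ofReal_mul, Complex.im_ofReal_mul, Complex.I_mul_re,
      Complex.I_mul_im]
    linear_combination deriv φ t * h4
  have hint : ∀ x : ℝ × ℝ, tri (h x) (fderiv ℝ h x (1, 0)) (fderiv ℝ h x (0, 1)) =
      2 * (fderiv ℝ (fun y => BB (z y) (fderiv ℝ z y (0, 1))) x (1, 0)
        - fderiv ℝ (fun y => BB (z y) (fderiv ℝ z y (1, 0))) x (0, 1)) := by
    intro x
    rw [berry z hz (fun x => (hgood x).2) h (fun x => (hgood x).1.eq_hopf (hgood x).2) x, BB_eq,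
      BB_deriv c1 c3, BB_deriv c1 c2, snd_symm hz]
    simp only [BB]
    ring
  have hg := green (fun y => BB (z y) (fderiv ℝ z y (1, 0)))
    (fun y => BB (z y) (fderiv ℝ z y (0, 1))) (BB_contDiff c1 c2) (BB_contDiff c1 c3)
  have hftc : ∫ t in (0 : ℝ)..1, deriv φ t = φ 1 - φ 0 := by
    refine intervalIntegral.integral_deriv_eq_sub (fun t _ => hφd t) ?_
    exact (hφ.continuous_deriv (by simp)).intervalIntegrable _ _
  have hr : (∫ t in (0 : ℝ)..1, (BB (z (1, t)) (fderiv ℝ z (1, t) (0, 1)) -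
      BB (z (0, t)) (fderiv ℝ z (0, t) (0, 1)))) -
      (∫ t in (0 : ℝ)..1, (BB (z (t, 1)) (fderiv ℝ z (t, 1) (1, 0)) -
      BB (z (t, 0)) (fderiv ℝ z (t, 0) (1, 0)))) = 2 * Real.pi * d := by
    simp only [hP0, hQ0, hQ1, sub_zero]
    rw [hftc, hφ0, hφ1]
    simp
  have hg2 := hg.trans hr
  unfold Deg
  simp only [hint, intervalIntegral.integral_const_mul]
  rw [hg2]
  ring

theorem deg_int {h : ℝ × ℝ → ℂ × ℝ} {h₀ : ℂ × ℝ} (hh : SphC h h₀) :
    ∃ d : ℤ, Deg h = 4 * Real.pi * d := by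
  obtain ⟨_, _, _, d, _, _, _, _, _, _, _, _, _, hd⟩ := hopf_lift hh
  exact ⟨d, hd⟩

end Pool.Agent.H86.Nco
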