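import Pool.Agent.H86.Nco.BaseLem
import Pool.Agent.H86.Anco.Bridge

/-!
# Module P0: from Riemannian metrics on the manifold to families of chart expressions

For `g : RMetric (E K) (M K)` and a chart number `i` put `fam g i := inChart g (base i)` where
`base i = Par i 0`, a point with `idx (base i) = i`; this is `inChart g x` for every point `x` with
`idx x = i`.

* `contDiff_fam`: `g.contMDiff` and smoothness of the inverse of the chart, whose target is `univ`.
* `compat_fam`: chain rule for `mfderiv`.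
* `nco_fam`: for `y : E K` let `x = (chart i).symm y`, `j = idx x`, `y' = tr i j y = chart j x`.  The
hypothesis gives `CurvOpGE (fam g j) y' 0`, and `fam g j = pb (fam g i) (tr j i)` near `y'`; apply
`CurvOpGE.of_pullback`.
-/

open scoped Manifold ContDiff Bundle Topology
open Bundle

noncomputable section

namespace Pool.Agent.H86.Nco

open Pool.Agent.H86.Anco

section General

variable {E : Type*} [NormedAddCommGroup E] [NormedSpace ℝ E] [FiniteDimensional ℝ E]
  {M : Type*} [TopologicalSpace M] [ChartedSpace E M] [IsManifold 𝓘(ℝ, E) ∞ M]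

omit [FiniteDimensional ℝ E] in
lemma contMDiff_symm (x : M) (hx : (extChartAt 𝓘(ℝ, E) x).target = Set.univ) :
    ContMDiff 𝓘(ℝ, E) 𝓘(ℝ, E) ∞ (extChartAt 𝓘(ℝ, E) x).symm := by
  have h := contMDiffOn_extChartAt_symm (I := 𝓘(ℝ, E)) (n := ∞) x
  rw [hx, contMDiffOn_univ] at h
  exact h

omit [FiniteDimensional ℝ E] in
lemma contMDiff_push (x : M) (hx : (extChartAt 𝓘(ℝ, E) x).target = Set.univ) (v : E) :
    ContMDiff 𝓘(ℝ, E) 𝓘(ℝ, E).tangent ∞
      (fun y : E => TotalSpace.mk' E (E := (TangentSpace 𝓘(ℝ, E) : M → Type _))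
        ((extChartAt 𝓘(ℝ, E) x).symm y)
        (mfderiv 𝓘(ℝ, E) 𝓘(ℝ, E) (extChartAt 𝓘(ℝ, E) x).symm y v)) := by
  have h1 := (contMDiff_symm x hx).contMDiff_tangentMap (m := ∞) (by simp)
  have h2 := (contMDiff_vectorSpace_iff_contDiff (𝕜 := ℝ) (E := E) (n := ∞)
    (V := fun _ => (v : E))).2 contDiff_const
  exact h1.comp h2

lemma contDiff_inChart (g : RMetric E M) (x : M)
    (hx : (extChartAt 𝓘(ℝ, E) x).target = Set.univ) : ContDiff ℝ ∞ (inChart g x) := by
  rw [contDiff_iff_contDiffAt]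
  intro y
  apply Natural.contDiffAt_clm_of_apply
  intro a
  apply Natural.contDiffAt_clm_of_apply
  intro b
  have hs := contMDiff_symm x hx
  have hg := g.contMDiff
  have h1 := (contMDiff_push x hx a) y
  have h2 := (contMDiff_push x hx b) y
  have h3 := (hg ((extChartAt 𝓘(ℝ, E) x).symm y)).comp y (hs y)
  have h4 := ContMDiffAt.clm_bundle_apply₂ (F₁ := E) (F₂ := E) (F₃ := ℝ)
    (E₃ := Bundle.Trivial M ℝ) h3 h1 h2
  simp only [contMDiffAt_totalSpace] at h4
  have h5 := h4.2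
  rw [contMDiffAt_iff_contDiffAt] at h5
  exact h5

omit [FiniteDimensional ℝ E] in
lemma inner_congr (g : RMetric E M) {m m' : M} (h : m = m') (a b : E) :
    (g.inner m : E →L[ℝ] E →L[ℝ] ℝ) a b = (g.inner m' : E →L[ℝ] E →L[ℝ] ℝ) a b := by
  subst h
  rfl

omit [FiniteDimensional ℝ E] in
lemma inChart_congr (g : RMetric E M) {x x' : M}
    (h : extChartAt 𝓘(ℝ, E) x = extChartAt 𝓘(ℝ, E) x') : inChart g x = inChart g x' := by
  funext y
  unfold inChart
  rw [h]

end General

variable {K : ℕ}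

lemma idx_Par_zero (i : Ix) : idx (Par i 0 : V K) = i := by
  have h1 : pd (Phi (0 : E K)) = 1 := by simp [Phi]
  have h2 : ps (Phi (0 : E K)) = 1 := by simp [Phi]
  obtain ⟨i1, i2⟩ := i
  cases i1 <;> cases i2 <;> simp [idx, Par, sym, sw, rf, h1, h2]

/-- the base points of the charts -/
def base (K : ℕ) (i : Ix) : M K := ⟨Par i 0, Par_mem i 0⟩

/-- the parametrisations as maps to the manifold -/
def sy (i : Ix) (y : E K) : M K := ⟨Par i y, Par_mem i y⟩

lemma symm_eq (x : M K) : ((extChartAt 𝓘(ℝ, E K) x).symm : E K → M K) = sy (idx x.1) := by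
  funext y
  exact Subtype.ext (coe_extChartAt_symm x y)

lemma contMDiff_sy (i : Ix) : ContMDiff 𝓘(ℝ, E K) 𝓘(ℝ, E K) ∞ (sy i : E K → M K) := by
  have h := contMDiff_symm (base K i) (extChartAt_target _)
  have h1 := symm_eq (base K i)
  rw [h1, show idx (base K i).1 = i from idx_Par_zero i] at h
  exact h

/-- the family of chart expressions of a metric -/
def fam (g : RMetric (E K) (M K)) (i : Ix) : E K → Bil K := inChart g (base K i)

lemma inChart_eq_fam (g : RMetric (E K) (M K)) (x : M K) : inChart g x = fam g (idx x.1) := by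
  apply inChart_congr
  have h : chartAt (E K) x = chartAt (E K) (base K (idx x.1)) := by
    change chart (idx x.1) = chart (idx (base K (idx x.1)).1)
    rw [show idx (base K (idx x.1)).1 = idx x.1 from idx_Par_zero _]
  unfold extChartAt
  rw [h]

lemma fam_apply (g : RMetric (E K) (M K)) (i : Ix) (y u v : E K) :
    fam g i y u v = (g.inner (sy i y) : E K →L[ℝ] E K →L[ℝ] ℝ)
      (mfderiv 𝓘(ℝ, E K) 𝓘(ℝ, E K) (sy i : E K → M K) y u)
      (mfderiv 𝓘(ℝ, E K) 𝓘(ℝ, E K) (sy i : E K → M K) y v) := by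
  have h1 := symm_eq (base K i)
  rw [show idx (base K i).1 = i from idx_Par_zero i] at h1
  have h2 : fam g i y u v = (g.inner ((extChartAt 𝓘(ℝ, E K) (base K i)).symm y) :
        E K →L[ℝ] E K →L[ℝ] ℝ)
      (mfderiv 𝓘(ℝ, E K) 𝓘(ℝ, E K) (extChartAt 𝓘(ℝ, E K) (base K i)).symm y u)
      (mfderiv 𝓘(ℝ, E K) 𝓘(ℝ, E K) (extChartAt 𝓘(ℝ, E K) (base K i)).symm y v) := rfl
  rw [h2, h1]

lemma contDiff_fam (g : RMetric (E K) (M K)) (i : Ix) : ContDiff ℝ ∞ (fam g i) :=
  contDiff_inChart g _ (extChartAt_target _)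

lemma fam_symm (g : RMetric (E K) (M K)) (i : Ix) (y u v : E K) :
    fam g i y u v = fam g i y v u := by
  rw [fam_apply, fam_apply]
  exact g.symm _ _ _

lemma mfderiv_sy_injective (i : Ix) (y : E K) :
    Function.Injective (mfderiv 𝓘(ℝ, E K) 𝓘(ℝ, E K) (sy i : E K → M K) y) := by
  have h1 : mfderiv 𝓘(ℝ, E K) 𝓘(ℝ, V K) ((Subtype.val : M K → V K) ∘ sy i) y =
      (mfderiv 𝓘(ℝ, E K) 𝓘(ℝ, V K) (Subtype.val : M K → V K) (sy i y)).comp
        (mfderiv 𝓘(ℝ, E K) 𝓘(ℝ, E K) (sy i : E K → M K) y) :=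
    mfderiv_comp y ((contMDiff_incl _).mdifferentiableAt (by simp))
      ((contMDiff_sy i _).mdifferentiableAt (by simp))
  have h2 : (Subtype.val : M K → V K) ∘ sy i = Par i := rfl
  rw [h2, mfderiv_eq_fderiv] at h1
  intro u v huv
  have h3 : fderiv ℝ (Par i) y u = fderiv ℝ (Par i) y v := by
    rw [h1]
    exact congrArg (fun w : E K =>
      (mfderiv 𝓘(ℝ, E K) 𝓘(ℝ, V K) (Subtype.val : M K → V K) (sy i y)) w) huv
  exact (fderiv_Cor_Par i y u).symm.trans
    ((congrArg (fun w : V K => fderiv ℝ (Cor i) (Par i y) w) h3).trans (fderiv_Cor_Par i y v))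

lemma fam_pos (g : RMetric (E K) (M K)) (i : Ix) (y u : E K) (hu : u ≠ 0) :
    0 < fam g i y u u := by
  rw [fam_apply]
  refine g.pos _ _ ?_
  intro h
  apply hu
  apply mfderiv_sy_injective i y
  exact h.trans (map_zero (mfderiv 𝓘(ℝ, E K) 𝓘(ℝ, E K) (sy i : E K → M K) y)).symm

lemma compat_fam (g : RMetric (E K) (M K)) : Compat2 (fam g) := by
  intro i j y hy u v
  have hev : (sy i : E K → M K) =ᶠ[𝓝 y] (sy j ∘ tr i j) := by
    filter_upwards [(isOpen_ov i j).mem_nhds hy] with z hz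
    exact Subtype.ext (Par_tr i j hz).symm
  have htr : MDifferentiableAt 𝓘(ℝ, E K) 𝓘(ℝ, E K) (tr i j : E K → E K) y := by
    rw [mdifferentiableAt_iff_differentiableAt]
    exact ((contDiffOn_tr i j).contDiffAt ((isOpen_ov i j).mem_nhds hy)).differentiableAt (by simp)
  have h1 : ∀ w : E K, (mfderiv 𝓘(ℝ, E K) 𝓘(ℝ, E K) (sy i : E K → M K) y w : E K) =
      mfderiv 𝓘(ℝ, E K) 𝓘(ℝ, E K) (sy j : E K → M K) (tr i j y) (fderiv ℝ (tr i j) y w) := by
    intro w
    have h2 := hev.mfderiv_eq (I := 𝓘(ℝ, E K)) (I' := 𝓘(ℝ, E K))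
    have h3 : mfderiv 𝓘(ℝ, E K) 𝓘(ℝ, E K) ((sy j : E K → M K) ∘ tr i j) y =
        (mfderiv 𝓘(ℝ, E K) 𝓘(ℝ, E K) (sy j : E K → M K) (tr i j y)).comp
          (mfderiv 𝓘(ℝ, E K) 𝓘(ℝ, E K) (tr i j : E K → E K) y) :=
      mfderiv_comp y ((contMDiff_sy j _).mdifferentiableAt (by simp)) htr
    rw [mfderiv_eq_fderiv] at h3
    have h4 := congrArg (fun L : E K →L[ℝ] E K => L w) (h2.trans h3)
    exact h4
  rw [fam_apply, fam_apply]
  have hu := h1 u
  have hv := h1 v
  exact (inner_congr g (hev.eq_of_nhds : sy i y = (sy j ∘ tr i j) y) _ _).trans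
    (congrArg₂ (fun a b : E K => (g.inner (sy j (tr i j y)) : E K →L[ℝ] E K →L[ℝ] ℝ) a b) hu hv)

lemma isMetricAt_fam (g : RMetric (E K) (M K)) (i : Ix) (y : E K) : IsMetricAt (fam g i) y where
  smooth_near := Filter.Eventually.of_forall fun _ => (contDiff_fam g i).contDiffAt
  symm := Filter.Eventually.of_forall fun z a b => fam_symm g i z a b
  pos := fun a ha => fam_pos g i y a ha

lemma nco_fam (g : RMetric (E K) (M K)) (hg : HasCurvOpGE g 0) (i : Ix) (y : E K) :
    CurvOpGE (fam g i) y 0 := by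
  let x : M K := sy i y
  let j : Ix := idx x.1
  have hy : y ∈ ov K i j := mem_Dom_idx (Par i y)
  have hy' : tr i j y ∈ ov K j i := tr_mem i j hy
  have h1 : CurvOpGE (fam g j) (tr i j y) 0 := by
    have h := hg x
    rw [inChart_eq_fam] at h
    exact h
  have h2 : fam g j =ᶠ[𝓝 (tr i j y)] fun z => (fam g i (tr j i z)).bilinearComp
      (fderiv ℝ (tr j i) z) (fderiv ℝ (tr j i) z) := by
    filter_upwards [(isOpen_ov j i).mem_nhds hy'] with z hz
    exact ContinuousLinearMap.ext fun u => ContinuousLinearMap.ext fun v =>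
      compat_fam g j i z hz u v
  have h3 := h1.congr h2
  have h4 : ContDiffAt ℝ ∞ (tr j i : E K → E K) (tr i j y) :=
    (contDiffOn_tr j i).contDiffAt ((isOpen_ov j i).mem_nhds hy')
  have h5 : Function.Bijective (fderiv ℝ (tr j i : E K → E K) (tr i j y)) := by
    constructor
    · exact Function.LeftInverse.injective (fun u => fderiv_tr_tr j i hy' u)
    · exact Function.RightInverse.surjective (fun u => fderiv_tr_tr i j hy u)
  have h6 := CurvOpGE.of_pullback h4 h5 (isMetricAt_fam g i _) h3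
  rwa [tr_tr i j hy] at h6

theorem exists_met (g : RMetric (E K) (M K)) (hg : HasCurvOpGE g 0) : Nonempty (Met K) :=
  ⟨{ g := fam g
     smooth := contDiff_fam g
     symm := fam_symm g
     pos := fam_pos g
     compat := compat_fam g
     nco := nco_fam g hg }⟩

theorem exists_met_stmt (g : Stmt.RMetric (E K) (M K)) (hg : Stmt.HasCurvOpGE g 0) :
    Nonempty (Met K) := by
  apply exists_met g
  intro x N X Y
  have h := hg x N X Y
  have h1 : Stmt.inChart g x = plain (inChart (g : RMetric (E K) (M K)) x) := rfl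
  have h2 : IsMetricAt (inChart (g : RMetric (E K) (M K)) x) (extChartAt 𝓘(ℝ, E K) x x) := by
    rw [inChart_eq_fam]
    exact isMetricAt_fam g _ _
  rw [h1] at h
  simp only [Stmt.curvForm, Stmt.bivNormSq, riem_plain h2] at h
  exact h

end Pool.Agent.H86.Nco
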