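import Pool.Agent.H86.Nco.SDev

/-!
# Module SGLUE: the local retractions agree on overlaps

`LocR.fderivR`: `fderiv R y w = T y (DPar_i (y) w)`.  `transport_T`: `T` is parallel.

`glue`: let `Q y` be the statement `L.R y = L'.R (tr i j y)` and `L.T y v = L'.T (tr i j y) v` for all
`v ∈ Tan (Par i y)`.  It holds at `y₀ = Cor i q₀` (`tr i j y₀ = Cor j q₀`; at this point both `R` are `q₀`,
`A = B = e₀`).  The set of these `y` is closed in `ov K i j` by continuity (`Θ` is continuous).  It is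
open: let `Q y` and let the ball `B(y, r)` be contained in `ov K i j`.  For `y' ∈ B(y, r)` put
`y(t) = y + t (y' - y)`, `γ(t) = Par i (y(t))`.  Let `Φ(t)` be the fundamental solution of the equation of
parallel transport in the chart, `Ψ(t)` its inverse, `X_k(t) = DPar_i (y(t)) (Φ(t) b_k)` for a basis `b`.
The curves `C(t) = L.R (y(t))`, `Y_k(t) = L.T (y(t)) (X_k (t))` satisfy `C' = ∑ ζ_k Y_k`, `∇_t Y_k = 0` where
`y' - y = ∑ ζ_k Φ b_k`; the same for `C'(t) = L'.R (tr i j (y(t)))`, `Y'_k(t) = L'.T (..) (X_k (t))`.  Initial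
values agree since `Q y`.  By `dev_unique` they agree at `t = 1`; this gives `Q y'`.
-/

open scoped Manifold ContDiff Bundle Topology

noncomputable section

namespace Pool.Agent.H86.Nco

open Pool.Agent.H86.Anco

variable {K : ℕ} {G : Met K} {a : Form2 K}

namespace SGlue

/-- chain rule for covariant derivatives along a reparametrised map -/
lemma nab_comp (Γ : V K → V K →L[ℝ] V K →L[ℝ] V K) {P Q : Type*} [NormedAddCommGroup P]
    [NormedSpace ℝ P] [NormedAddCommGroup Q] [NormedSpace ℝ Q] {c X : P → V K} {φ : Q → P} {q : Q}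
    (hφ : DifferentiableAt ℝ φ q) (hc : DifferentiableAt ℝ c (φ q))
    (hX : DifferentiableAt ℝ X (φ q)) (u : Q) :
    nab Γ (fun z => c (φ z)) (fun z => X (φ z)) q u = nab Γ c X (φ q) (fderiv ℝ φ q u) := by
  have h1 : fderiv ℝ (fun z => c (φ z)) q = (fderiv ℝ c (φ q)).comp (fderiv ℝ φ q) :=
    (hc.hasFDerivAt.comp q hφ.hasFDerivAt).fderiv
  have h2 : fderiv ℝ (fun z => X (φ z)) q = (fderiv ℝ X (φ q)).comp (fderiv ℝ φ q) :=
    (hX.hasFDerivAt.comp q hφ.hasFDerivAt).fderiv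
  simp only [nab, h1, h2, ContinuousLinearMap.comp_apply]

lemma nab_congr (Γ : V K → V K →L[ℝ] V K →L[ℝ] V K) {P : Type*} [NormedAddCommGroup P]
    [NormedSpace ℝ P] {c c' X X' : P → V K} {p : P} (hc : c =ᶠ[𝓝 p] c') (hX : X =ᶠ[𝓝 p] X')
    (u : P) : nab Γ c X p u = nab Γ c' X' p u := by
  simp only [nab, hc.fderiv_eq, hX.fderiv_eq, hc.eq_of_nhds, hX.eq_of_nhds]

lemma nab_add (Γ : V K → V K →L[ℝ] V K →L[ℝ] V K) {P : Type*} [NormedAddCommGroup P]
    [NormedSpace ℝ P] {c X Y : P → V K} {p : P} (hX : DifferentiableAt ℝ X p)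
    (hY : DifferentiableAt ℝ Y p) (u : P) :
    nab Γ c (fun q => X q + Y q) p u = nab Γ c X p u + nab Γ c Y p u := by
  have h1 : fderiv ℝ (fun q => X q + Y q) p = fderiv ℝ X p + fderiv ℝ Y p :=
    fderiv_fun_add hX hY
  simp only [nab, h1, map_add, add_apply]
  abel

lemma nab_smul (Γ : V K → V K →L[ℝ] V K →L[ℝ] V K) {P : Type*} [NormedAddCommGroup P]
    [NormedSpace ℝ P] {c X : P → V K} {f : P → ℝ} {p : P} (hf : DifferentiableAt ℝ f p)
    (hX : DifferentiableAt ℝ X p) (u : P) :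
    nab Γ c (fun q => f q • X q) p u = fderiv ℝ f p u • X p + f p • nab Γ c X p u := by
  have h1 : fderiv ℝ (fun q => f q • X q) p = f p • fderiv ℝ X p + (fderiv ℝ f p).smulRight (X p) :=
    fderiv_fun_smul hf hX
  simp only [nab, h1, map_smul, add_apply, smul_apply,
    ContinuousLinearMap.smulRight_apply, smul_sub]
  abel

lemma gm_add_right {p : V K} (v w x : V K) : gm G p x (v + w) = gm G p x v + gm G p x w := by
  rw [gm_symm, gm_add, gm_symm, gm_symm w]

lemma gm_smul_right {p : V K} (r : ℝ) (v w : V K) : gm G p v (r • w) = r * gm G p v w := by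
  rw [gm_symm, gm_smul, gm_symm]

lemma gm_neg_right {p : V K} (v w : V K) : gm G p v (- w) = - gm G p v w := by
  rw [← neg_one_smul ℝ w, gm_smul_right]
  ring

end SGlue

open SGlue

section

variable {N : Conn G} {S : JStr G a} {i : Ix} {q₀ e₀ : V K} (L : LocR N S i q₀ e₀)

lemma LocR.fderivR (y w : E K) : fderiv ℝ L.R y w = L.T y (fderiv ℝ (Par i) y w) := L.dR y w

lemma LocR.T_add (y : E K) (v w : V K) : L.T y (v + w) = L.T y v + L.T y w := by
  simp only [LocR.T, gm_add, add_smul]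
  abel

lemma LocR.T_smul (y : E K) (r : ℝ) (v : V K) : L.T y (r • v) = r • L.T y v := by
  simp only [LocR.T, gm_smul, smul_add, mul_smul]

/-- `T y` as a linear map -/
def LocR.Tl (y : E K) : V K →ₗ[ℝ] V K where
  toFun := L.T y
  map_add' := L.T_add y
  map_smul' := L.T_smul y

lemma LocR.T_sum (y : E K) {ι : Type*} (s : Finset ι) (v : ι → V K) :
    L.T y (∑ k ∈ s, v k) = ∑ k ∈ s, L.T y (v k) := map_sum (L.Tl y) v s

end

/-- `T` is parallel: for a curve `y` in the chart and a vector field `X` along `Par i ∘ y` -/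
theorem transport_T {N : Conn G} {S : JStr G a} {i : Ix} {q₀ e₀ : V K} (L : LocR N S i q₀ e₀)
    {y : ℝ → E K} {X : ℝ → V K} {t : ℝ} (hy : DifferentiableAt ℝ y t)
    (hX : DifferentiableAt ℝ X t) (hXm : ∀ᶠ τ in 𝓝 t, X τ ∈ Tan (Par i (y τ))) :
    DifferentiableAt ℝ (fun τ => L.T (y τ) (X τ)) t ∧
    nab N.Γ (fun τ => L.R (y τ)) (fun τ => L.T (y τ) (X τ)) t 1 =
      L.T (y t) (nab N.Γ (fun τ => Par i (y τ)) X t 1) := by
  have hP : Differentiable ℝ (Par i : E K → V K) := (contDiff_Par i).differentiable (by simp)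
  have hA : Differentiable ℝ L.A := L.smoothA.differentiable (by simp)
  have hB : Differentiable ℝ L.B := L.smoothB.differentiable (by simp)
  have hR : Differentiable ℝ L.R := L.smoothR.differentiable (by simp)
  have hJ : Differentiable ℝ S.J := S.smooth.differentiable (by simp)
  -- the fields along the curves
  have hc : DifferentiableAt ℝ (fun τ => Par i (y τ)) t := (hP _).comp t hy
  have hC : DifferentiableAt ℝ (fun τ => L.R (y τ)) t := (hR _).comp t hy
  have ha0 : DifferentiableAt ℝ (fun τ => L.A (y τ)) t := (hA _).comp t hy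
  have hb0 : DifferentiableAt ℝ (fun τ => L.B (y τ)) t := (hB _).comp t hy
  have ha1 : DifferentiableAt ℝ (fun τ => S.J (Par i (y τ)) (L.A (y τ))) t :=
    ((hJ _).comp t hc).clm_apply ha0
  have hb1 : DifferentiableAt ℝ (fun τ => S.J (L.R (y τ)) (L.B (y τ))) t :=
    ((hJ _).comp t hC).clm_apply hb0
  have hcm : ∀ᶠ τ in 𝓝 t, Par i (y τ) ∈ carrier K := Filter.Eventually.of_forall fun τ =>
    Par_mem i (y τ)
  have hCm : ∀ᶠ τ in 𝓝 t, L.R (y τ) ∈ carrier K := Filter.Eventually.of_forall fun τ =>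
    L.memR (y τ)
  have ha0m : ∀ᶠ τ in 𝓝 t, L.A (y τ) ∈ Tan (Par i (y τ)) := Filter.Eventually.of_forall fun τ =>
    L.memA (y τ)
  have hb0m : ∀ᶠ τ in 𝓝 t, L.B (y τ) ∈ Tan (L.R (y τ)) := Filter.Eventually.of_forall fun τ =>
    L.memB (y τ)
  have ha1m : ∀ᶠ τ in 𝓝 t, S.J (Par i (y τ)) (L.A (y τ)) ∈ Tan (Par i (y τ)) :=
    Filter.Eventually.of_forall fun τ => S.mem _ (Par_mem i (y τ)) _ (L.memA (y τ))
  -- covariant derivatives of the frames
  set r : ℝ := L.ρ (y t) (fderiv ℝ y t 1) with hr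
  have e0 : nab N.Γ (fun τ => Par i (y τ)) (fun τ => L.A (y τ)) t 1 =
      r • S.J (Par i (y t)) (L.A (y t)) := by
    rw [nab_comp N.Γ hy (hP _) (hA _), L.dA]
  have e1 : nab N.Γ (fun τ => Par i (y τ)) (fun τ => S.J (Par i (y τ)) (L.A (y τ))) t 1 =
      - (r • L.A (y t)) := by
    rw [nab_J N S hc ha0 hcm ha0m, e0, map_smul, L.JJA, smul_neg]
  have f0 : nab N.Γ (fun τ => L.R (y τ)) (fun τ => L.B (y τ)) t 1 =
      r • S.J (L.R (y t)) (L.B (y t)) := by
    rw [nab_comp N.Γ hy (hR _) (hB _), L.dB]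
  have f1 : nab N.Γ (fun τ => L.R (y τ)) (fun τ => S.J (L.R (y τ)) (L.B (y τ))) t 1 =
      - (r • L.B (y t)) := by
    rw [nab_J N S hC hb0 hCm hb0m, f0, map_smul, L.JJB, smul_neg]
  obtain ⟨g0, g0'⟩ := nab_metric N hc hX ha0 hcm hXm ha0m
  obtain ⟨g1, g1'⟩ := nab_metric N hc hX ha1 hcm hXm ha1m
  have m0 : DifferentiableAt ℝ (fun τ => gm G (Par i (y τ)) (X τ) (L.A (y τ)) • L.B (y τ)) t :=
    g0.smul hb0
  have m1 : DifferentiableAt ℝ (fun τ => gm G (Par i (y τ)) (X τ) (S.J (Par i (y τ)) (L.A (y τ))) •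
      S.J (L.R (y τ)) (L.B (y τ))) t := g1.smul hb1
  refine ⟨m0.add m1, ?_⟩
  have h1 : nab N.Γ (fun τ => L.R (y τ)) (fun τ => L.T (y τ) (X τ)) t 1 = _ :=
    nab_add N.Γ m0 m1 1
  rw [h1, nab_smul N.Γ g0 hb0, nab_smul N.Γ g1 hb1, f0, f1, g0', g1', e0, e1]
  simp only [LocR.T, gm_smul_right, gm_neg_right]
  module

namespace SGlue

/-- `T` in the chart -/
def Θ {N : Conn G} {S : JStr G a} {i : Ix} {q₀ e₀ : V K} (L : LocR N S i q₀ e₀)
    (q : E K × E K) : V K := L.T q.1 (fderiv ℝ (Par i) q.1 q.2)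

lemma mem_Tan_DPar (i : Ix) (y u : E K) : fderiv ℝ (Par i) y u ∈ Tan (Par i y) :=
  (mem_Tan_Par i y _).2 ⟨u, rfl⟩

lemma continuous_Θ {N : Conn G} {S : JStr G a} {i : Ix} {q₀ e₀ : V K} (L : LocR N S i q₀ e₀) :
    Continuous (Θ L) := by
  have hc : ContDiff ℝ ∞ (fun q : E K × E K => Par i q.1) := (contDiff_Par i).comp contDiff_fst
  have hR : ContDiff ℝ ∞ (fun q : E K × E K => L.R q.1) := L.smoothR.comp contDiff_fst
  have hA : ContDiff ℝ ∞ (fun q : E K × E K => L.A q.1) := L.smoothA.comp contDiff_fst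
  have hB : ContDiff ℝ ∞ (fun q : E K × E K => L.B q.1) := L.smoothB.comp contDiff_fst
  have hX : ContDiff ℝ ∞ (fun q : E K × E K => fderiv ℝ (Par i) q.1 q.2) :=
    (((contDiff_Par i).fderiv_right (m := ∞) (by simp)).comp contDiff_fst).clm_apply contDiff_snd
  have hJA : ContDiff ℝ ∞ (fun q : E K × E K => S.J (Par i q.1) (L.A q.1)) :=
    (S.smooth.comp hc).clm_apply hA
  have hJB : ContDiff ℝ ∞ (fun q : E K × E K => S.J (L.R q.1) (L.B q.1)) :=
    (S.smooth.comp hR).clm_apply hB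
  have h : ContDiff ℝ ∞ (Θ L) :=
    ((contDiff_gm hc hX hA (fun q => Par_mem i q.1) (fun q => mem_Tan_DPar i q.1 q.2)
        (fun q => L.memA q.1)).smul hB).add
      ((contDiff_gm hc hX hJA (fun q => Par_mem i q.1) (fun q => mem_Tan_DPar i q.1 q.2)
        (fun q => S.mem _ (Par_mem i q.1) _ (L.memA q.1))).smul hJB)
  exact h.continuous

/-- the two retractions agree at `y` -/
def Q {N : Conn G} {S : JStr G a} {i j : Ix} {q₀ e₀ : V K} (L : LocR N S i q₀ e₀)
    (L' : LocR N S j q₀ e₀) (y : E K) : Prop :=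
  L.R y = L'.R (tr i j y) ∧ ∀ u, Θ L (y, u) = Θ L' (tr i j y, fderiv ℝ (tr i j) y u)

lemma Q_iff {N : Conn G} {S : JStr G a} {i j : Ix} {q₀ e₀ : V K} (L : LocR N S i q₀ e₀)
    (L' : LocR N S j q₀ e₀) {y : E K} (hy : y ∈ ov K i j) :
    Q L L' y ↔ (L.R y = L'.R (tr i j y) ∧ ∀ v ∈ Tan (Par i y), L.T y v = L'.T (tr i j y) v) := by
  refine and_congr_right fun _ => ⟨fun h v hv => ?_, fun h u => ?_⟩
  · obtain ⟨u, rfl⟩ := (mem_Tan_Par i y v).1 hv
    have h1 := h u
    simp only [Θ] at h1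
    rw [h1, fderiv_Par_tr i j hy]
  · simp only [Θ]
    rw [fderiv_Par_tr i j hy]
    exact h _ (mem_Tan_DPar i y u)

lemma fund_c1 {H : Type} [NormedAddCommGroup H] [NormedSpace ℝ H] (A : ℝ → H →L[ℝ] H)
    (hA : ContDiff ℝ ∞ A) :
    ContDiff ℝ ∞ (fun q : ℝ × ℝ => - ContinuousLinearMap.compL ℝ H H H (A q.2)) := by
  have h1 : ContDiff ℝ ∞ (fun q : ℝ × ℝ => A q.2) := hA.comp contDiff_snd
  have h2 : ContDiff ℝ ∞ (fun q : ℝ × ℝ => ContinuousLinearMap.compL ℝ H H H (A q.2)) :=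
    (ContinuousLinearMap.compL ℝ H H H).contDiff.comp h1
  exact h2.neg

lemma fund_c2 {H : Type} [NormedAddCommGroup H] [NormedSpace ℝ H] (A : ℝ → H →L[ℝ] H)
    (hA : ContDiff ℝ ∞ A) :
    ContDiff ℝ ∞ (fun q : ℝ × ℝ => (ContinuousLinearMap.compL ℝ H H H).flip (A q.2)) := by
  have h1 : ContDiff ℝ ∞ (fun q : ℝ × ℝ => A q.2) := hA.comp contDiff_snd
  exact (ContinuousLinearMap.compL ℝ H H H).flip.contDiff.comp h1

/-- fundamental solution of a linear equation and its inverse -/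
lemma exists_fund {H : Type} [NormedAddCommGroup H] [NormedSpace ℝ H] [FiniteDimensional ℝ H]
    (A : ℝ → H →L[ℝ] H) (hA : ContDiff ℝ ∞ A) :
    ∃ Φ Ψ : ℝ → H →L[ℝ] H, (∀ t, HasDerivAt Φ (-((A t).comp (Φ t))) t) ∧ Continuous Ψ ∧
      Φ 0 = ContinuousLinearMap.id ℝ H ∧ ∀ t u, Φ t (Ψ t u) = u := by
  obtain ⟨x, hx1, hx2, hx3⟩ := lode_smooth (P := ℝ) (H := H →L[ℝ] H)
    _ (fund_c1 A hA) (fun _ => 0) contDiff_const
    (fun _ => ContinuousLinearMap.id ℝ H) contDiff_const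
  obtain ⟨z, hz1, hz2, hz3⟩ := lode_smooth (P := ℝ) (H := H →L[ℝ] H)
    _ (fund_c2 A hA) (fun _ => 0) contDiff_const
    (fun _ => ContinuousLinearMap.id ℝ H) contDiff_const
  have h1 : ∀ t, HasDerivAt (fun τ => x (0, τ)) (-((A t).comp (x (0, t)))) t := by
    intro t
    have h := hx3 0 t
    simp only [add_zero] at h
    exact h
  have h2 : ∀ t, HasDerivAt (fun τ => z (0, τ)) ((z (0, t)).comp (A t)) t := by
    intro t
    have h := hz3 0 t
    simp only [add_zero] at h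
    exact h
  have h3 : ∀ t, (z (0, t)).comp (x (0, t)) = ContinuousLinearMap.id ℝ H := by
    have h4 : ∀ t, HasDerivAt (fun τ => (z (0, τ)).comp (x (0, τ))) 0 t := by
      intro t
      have h5 := (h2 t).clm_comp (h1 t)
      have h6 : ((z (0, t)).comp (A t)).comp (x (0, t)) +
          (z (0, t)).comp (-((A t).comp (x (0, t)))) = 0 := by
        ext u
        simp
      rw [h6] at h5
      exact h5
    intro t
    have h7 := is_const_of_deriv_eq_zero (f := fun τ => (z (0, τ)).comp (x (0, τ)))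
      (fun τ => (h4 τ).differentiableAt) (fun τ => (h4 τ).deriv) t 0
    simp only [hx2, hz2] at h7
    rw [h7]
    rfl
  refine ⟨fun τ => x (0, τ), fun τ => z (0, τ), h1, ?_, hx2 0, ?_⟩
  · exact hz1.continuous.comp (by fun_prop)
  · intro t
    have h8 : Function.LeftInverse (z (0, t)) (x (0, t)) := fun u =>
      congrArg (fun L : H →L[ℝ] H => L u) (h3 t)
    have h9 : Function.Surjective (x (0, t) : H →ₗ[ℝ] H) :=
      LinearMap.surjective_of_injective (f := (x (0, t) : H →ₗ[ℝ] H)) h8.injective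
    intro u
    obtain ⟨w, hw⟩ := h9 u
    have hw' : x (0, t) w = u := hw
    change x (0, t) (z (0, t) u) = u
    rw [← hw', h8 w]

/-- images of parallel fields under `T` -/
lemma dev_of_T {N : Conn G} {S : JStr G a} {i : Ix} {q₀ e₀ : V K} (L : LocR N S i q₀ e₀) {m : ℕ}
    {y : ℝ → E K} {X : Fin m → ℝ → V K} {ζ : Fin m → ℝ} {t : ℝ} (hy : DifferentiableAt ℝ y t)
    (hX : ∀ k, DifferentiableAt ℝ (X k) t)
    (hXm : ∀ k, ∀ᶠ τ in 𝓝 t, X k τ ∈ Tan (Par i (y τ)))
    (hnab : ∀ k, nab N.Γ (fun τ => Par i (y τ)) (X k) t 1 = 0)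
    (hζ : fderiv ℝ (Par i) (y t) (fderiv ℝ y t 1) = ∑ k, ζ k • X k t) :
    HasDerivAt (fun τ => L.R (y τ)) (∑ k, ζ k • L.T (y t) (X k t)) t ∧
      ∀ k, HasDerivAt (fun τ => L.T (y τ) (X k τ))
        (N.Γ (L.R (y t)) (∑ l, ζ l • L.T (y t) (X l t)) (L.T (y t) (X k t))) t := by
  have hR : Differentiable ℝ L.R := L.smoothR.differentiable (by simp)
  have h1 : HasFDerivAt (fun τ => L.R (y τ)) ((fderiv ℝ L.R (y t)).comp (fderiv ℝ y t)) t :=
    (hR _).hasFDerivAt.comp t hy.hasFDerivAt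
  have h2 : (fderiv ℝ L.R (y t)).comp (fderiv ℝ y t) 1 = ∑ k, ζ k • L.T (y t) (X k t) := by
    rw [ContinuousLinearMap.comp_apply, L.fderivR, hζ, L.T_sum]
    exact Finset.sum_congr rfl fun k _ => L.T_smul _ _ _
  refine ⟨?_, fun k => ?_⟩
  · have h3 := h1.hasDerivAt
    rw [h2] at h3
    exact h3
  · obtain ⟨h4, h5⟩ := transport_T L hy (hX k) (hXm k)
    have h6 : L.T (y t) 0 = 0 := map_zero (L.Tl (y t))
    rw [hnab k, h6] at h5
    simp only [nab] at h5
    rw [h1.fderiv, h2, sub_eq_zero] at h5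
    have h7 := h4.hasFDerivAt.hasDerivAt
    rw [h5] at h7
    exact h7

lemma Q_ball {N : Conn G} {S : JStr G a} {i j : Ix} {q₀ e₀ : V K} (L : LocR N S i q₀ e₀)
    (L' : LocR N S j q₀ e₀) {y y' : E K} {r : ℝ} (hr : Metric.ball y r ⊆ ov K i j)
    (hy' : y' ∈ Metric.ball y r) (hQ : Q L L' y) : Q L L' y' := by
  have hr0 : 0 < r := lt_of_le_of_lt dist_nonneg hy'
  have hy : y ∈ Metric.ball y r := Metric.mem_ball_self hr0
  -- the segment
  let w : E K := y' - y
  let yt : ℝ → E K := fun τ => y + τ • w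
  have hyt : ∀ t, HasDerivAt yt w t := by
    intro t
    have h := ((hasDerivAt_id t).smul_const w).const_add y
    rw [one_smul] at h
    exact h
  have hytf : ∀ t, fderiv ℝ yt t 1 = w := fun t => by
    rw [(hyt t).hasFDerivAt.fderiv]
    simp
  have hmem : ∀ t ∈ Set.Icc (0 : ℝ) 1, yt t ∈ ov K i j := by
    intro t ht
    apply hr
    rw [mem_ball_iff_norm] at hy' ⊢
    have h1 : yt t - y = t • w := by simp [yt]
    rw [h1, norm_smul, Real.norm_eq_abs, abs_of_nonneg ht.1]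
    calc t * ‖w‖ ≤ 1 * ‖w‖ := mul_le_mul_of_nonneg_right ht.2 (norm_nonneg _)
      _ = ‖w‖ := one_mul _
      _ < r := hy'
  have hev : ∀ t ∈ Set.Icc (0 : ℝ) 1, ∀ᶠ τ in 𝓝 t, yt τ ∈ ov K i j := fun t ht =>
    (hyt t).continuousAt.eventually ((isOpen_ov i j).mem_nhds (hmem t ht))
  have hyts : ContDiff ℝ ∞ yt := contDiff_const.add (contDiff_id.smul contDiff_const)
  -- parallel transport in the chart
  let A : ℝ → E K →L[ℝ] E K := fun τ => Natural.chrB (G.g i) (yt τ) w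
  have hA : ContDiff ℝ ∞ A := by
    have h1 : ContDiff ℝ ∞ (Natural.chrB (G.g i)) := by
      rw [contDiff_iff_contDiffAt]
      intro z
      exact Natural.contDiffAt_chrB (isMetricAt G i z)
    exact (h1.comp hyts).clm_apply contDiff_const
  obtain ⟨Φ, Ψ, hΦ, hΨ, hΦ0, hΦΨ⟩ := exists_fund A hA
  let x : Fin (K + 4) → ℝ → E K := fun k τ => Φ τ (bs K k)
  have hx : ∀ k t, HasDerivAt (x k) (-(A t (x k t))) t := by
    intro k t
    have h := (hΦ t).clm_apply (hasDerivAt_const t (bs K k))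
    simpa using h
  let X : Fin (K + 4) → ℝ → V K := fun k τ => fderiv ℝ (Par i) (yt τ) (x k τ)
  have hDP : ContDiff ℝ ∞ (fderiv ℝ (Par i : E K → V K)) :=
    (contDiff_Par i).fderiv_right (by simp)
  have hX : ∀ k t, DifferentiableAt ℝ (X k) t := by
    intro k t
    have h1 : DifferentiableAt ℝ (fun τ => fderiv ℝ (Par i : E K → V K) (yt τ)) t :=
      (hDP.differentiable (by simp) _).comp t (hyt t).differentiableAt
    exact h1.clm_apply (hx k t).differentiableAt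
  have hXm : ∀ k t, X k t ∈ Tan (Par i (yt t)) := fun k t => mem_Tan_DPar i _ _
  have hnab : ∀ k t, nab N.Γ (fun τ => Par i (yt τ)) (X k) t 1 = 0 := by
    intro k t
    rw [nab_chart N i (hyt t).differentiableAt (hx k t).differentiableAt
      (Filter.Eventually.of_forall fun _ => rfl) (Filter.Eventually.of_forall fun _ => rfl)]
    rw [hytf, (hx k t).hasFDerivAt.fderiv]
    have h1 : chr (G.g i) (yt t) w (x k t) = A t (x k t) := (Natural.chrB_apply _ _ _ _).symm
    rw [h1]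
    simp
  let ζ : ℝ → Fin (K + 4) → ℝ := fun τ k => (bs K).repr (Ψ τ w) k
  have hζ : Continuous ζ := by
    apply continuous_pi
    intro k
    have h1 : Continuous fun τ => Ψ τ w := hΨ.clm_apply continuous_const
    have h2 : Continuous ((bs K).coord k) := LinearMap.continuous_of_finiteDimensional _
    exact h2.comp h1
  have hexp : ∀ t (u : E K), fderiv ℝ (Par i) (yt t) u =
      ∑ k, (bs K).repr (Ψ t u) k • X k t := by
    intro t u
    conv_lhs => rw [← hΦΨ t u, ← (bs K).sum_repr (Ψ t u)]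
    simp only [map_sum, map_smul, X, x]
  -- the two developments
  have hL : ∀ t ∈ Set.Icc (0 : ℝ) 1, _ := fun t (_ : t ∈ Set.Icc (0 : ℝ) 1) =>
    dev_of_T L (ζ := ζ t) (hyt t).differentiableAt (fun k => hX k t)
      (fun k => Filter.Eventually.of_forall fun τ => hXm k τ) (fun k => hnab k t)
      (by rw [hytf]; exact hexp t w)
  have htr : ∀ t ∈ Set.Icc (0 : ℝ) 1, HasFDerivAt (fun τ => tr i j (yt τ))
      ((fderiv ℝ (tr i j) (yt t)).comp (fderiv ℝ yt t)) t := by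
    intro t ht
    have h1 : DifferentiableAt ℝ (tr i j : E K → E K) (yt t) :=
      (SConn.contDiffAt_tr i j (hmem t ht)).differentiableAt (by simp)
    exact h1.hasFDerivAt.comp t (hyt t).differentiableAt.hasFDerivAt
  have hParev : ∀ t ∈ Set.Icc (0 : ℝ) 1,
      (fun τ => Par i (yt τ)) =ᶠ[𝓝 t] fun τ => Par j (tr i j (yt τ)) := by
    intro t ht
    filter_upwards [hev t ht] with τ hτ
    exact (Par_tr i j hτ).symm
  have hL' : ∀ t ∈ Set.Icc (0 : ℝ) 1, _ := fun t (ht : t ∈ Set.Icc (0 : ℝ) 1) =>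
    dev_of_T L' (y := fun τ => tr i j (yt τ)) (ζ := ζ t) (htr t ht).differentiableAt
      (fun k => hX k t)
      (fun k => by
        filter_upwards [hev t ht] with τ hτ
        rw [Par_tr i j hτ]
        exact hXm k τ)
      (fun k => by
        rw [← nab_congr N.Γ (hParev t ht) Filter.EventuallyEq.rfl]
        exact hnab k t)
      (by
        rw [(htr t ht).fderiv, ContinuousLinearMap.comp_apply, hytf,
          fderiv_Par_tr i j (hmem t ht)]
        exact hexp t w)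
  have h01 : (0 : ℝ) ∈ Set.Icc (0 : ℝ) 1 := ⟨le_rfl, zero_le_one⟩
  have h11 : (1 : ℝ) ∈ Set.Icc (0 : ℝ) 1 := ⟨zero_le_one, le_rfl⟩
  have hy0 : yt 0 = y := by simp [yt]
  have hy1 : yt 1 = y' := by simp [yt, w]
  rw [Q_iff L L' (hr hy)] at hQ
  rw [Q_iff L L' (hr hy')]
  have key := dev_unique N hζ (c := fun τ => L.R (yt τ)) (c' := fun τ => L'.R (tr i j (yt τ)))
    (F := fun τ k => L.T (yt τ) (X k τ)) (F' := fun τ k => L'.T (tr i j (yt τ)) (X k τ))
    hL hL' (by simp only [hy0]; exact hQ.1)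
    (by
      funext k
      have h := hXm k 0
      simp only [hy0] at h ⊢
      exact hQ.2 _ h) 1 h11
  simp only [hy1] at key
  refine ⟨key.1, fun v hv => ?_⟩
  obtain ⟨u, rfl⟩ := (mem_Tan_Par i y' v).1 hv
  have h1 := hexp 1 u
  rw [hy1] at h1
  rw [h1, L.T_sum, L'.T_sum]
  refine Finset.sum_congr rfl fun k _ => ?_
  rw [L.T_smul, L'.T_smul, congrFun key.2 k]

lemma Q_base {N : Conn G} {S : JStr G a} {i j : Ix} {q₀ e₀ : V K} (hq₀ : q₀ ∈ carrier K)
    (hi : q₀ ∈ Dom K i) (hj : q₀ ∈ Dom K j) (L : LocR N S i q₀ e₀) (L' : LocR N S j q₀ e₀) :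
    Cor i q₀ ∈ ov K i j ∧ Q L L' (Cor i q₀) := by
  have h1 : Par i (Cor i q₀) = q₀ := Par_Cor i hq₀ hi
  have h2 : Par j (Cor j q₀) = q₀ := Par_Cor j hq₀ hj
  have h3 : Cor i q₀ ∈ ov K i j := by
    change Par i (Cor i q₀) ∈ Dom K j
    rw [h1]
    exact hj
  have h4 : tr i j (Cor i q₀) = Cor j q₀ := by
    change Cor j (Par i (Cor i q₀)) = Cor j q₀
    rw [h1]
  refine ⟨h3, ?_⟩
  rw [Q_iff L L' h3, h4]
  refine ⟨by rw [L.R0, L'.R0], fun v _ => ?_⟩
  simp only [LocR.T, L.R0, L'.R0, L.A0, L'.A0, L.B0, L'.B0, h1, h2]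

end SGlue

theorem glue {N : Conn G} {S : JStr G a} {q₀ e₀ : V K} (hq₀ : q₀ ∈ carrier K)
    (hq : ∀ i, q₀ ∈ Dom K i) (L : ∀ i, LocR N S i q₀ e₀) (i j : Ix) {y : E K}
    (hy : y ∈ ov K i j) :
    (L i).R y = (L j).R (tr i j y) ∧
      ∀ v ∈ Tan (Par i y), (L i).T y v = (L j).T (tr i j y) v := by
  rw [← Q_iff (L i) (L j) hy]
  obtain ⟨hb, hQb⟩ := Q_base hq₀ (hq i) (hq j) (L i) (L j)
  obtain ⟨p, hp⟩ := (isPathConnected_ov i j).joinedIn _ hb _ hy
  have htr : Continuous fun t => tr i j (p t) :=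
    (contDiffOn_tr i j).continuousOn.comp_continuous p.continuous hp
  have hDtr : Continuous fun t => fderiv ℝ (tr i j) (p t) :=
    ((contDiffOn_tr i j).continuousOn_fderiv_of_isOpen (isOpen_ov i j) (by simp)).comp_continuous
      p.continuous hp
  have hclosed : IsClosed {t | Q (L i) (L j) (p t)} := by
    have h1 : {t | Q (L i) (L j) (p t)} = {t | (L i).R (p t) = (L j).R (tr i j (p t))} ∩
        ⋂ u, {t | Θ (L i) (p t, u) = Θ (L j) (tr i j (p t), fderiv ℝ (tr i j) (p t) u)} := by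
      ext t
      simp only [Q, Set.mem_ofPred_eq, Set.mem_inter_iff, Set.mem_iInter]
    rw [h1]
    refine IsClosed.inter ?_ (isClosed_iInter fun u => ?_)
    · exact isClosed_eq ((L i).smoothR.continuous.comp p.continuous)
        ((L j).smoothR.continuous.comp htr)
    · exact isClosed_eq ((continuous_Θ (L i)).comp (p.continuous.prodMk continuous_const))
        ((continuous_Θ (L j)).comp (htr.prodMk (hDtr.clm_apply continuous_const)))
  have hopen : IsOpen {t | Q (L i) (L j) (p t)} := by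
    rw [isOpen_iff_mem_nhds]
    intro t ht
    obtain ⟨r, hr0, hr⟩ := Metric.isOpen_iff.1 (isOpen_ov (K := K) i j) _ (hp t)
    filter_upwards [p.continuous.continuousAt.eventually (Metric.ball_mem_nhds (p t) hr0)] with
      τ hτ
    exact Q_ball (L i) (L j) hr hτ ht
  have huniv := IsClopen.eq_univ ⟨hclosed, hopen⟩ ⟨0, by
    change Q (L i) (L j) (p 0)
    rw [p.source]
    exact hQb⟩
  have h1 : (1 : unitInterval) ∈ {t | Q (L i) (L j) (p t)} := by
    rw [huniv]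
    exact Set.mem_univ _
  change Q (L i) (L j) (p 1) at h1
  rwa [p.target] at h1

end Pool.Agent.H86.Nco
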