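import Pool.Agent.H86.Nco.SCalc

/-!
# Module SKEY: the key computation (see the header of `SDefs.lean`)

`var_ode`: for a development `(c, F)` over a parameter space `P` and a direction `π ∈ P` put
`ν₀ = gm (∂_π c) (F 0)`, `ν₁ = gm (∂_π c) (F 1)`, `ρ = gm (∇_π F_0) (F 1)`, functions of `t` for fixed `p`.
* `∇_t ∂_π c = ∇_π ∂_t c` (`nab_comm`) `= ∑ (∂_π ζ_j) F_j + ζ_j ∇_π F_j`; `∇_t F_j = 0`.
* `gm (∇_π F_j) (F 0) = 0` for `j ≥ 2` (`J F_j = 0` implies `J ∇_π F_j = 0` by `nab_J`, then `Adapted.mem_L2`) and for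
  `j = 0` (unit vector), `gm (∇_π F_1) (F 0) = - ρ`, `gm (∇_π F_0) (F 1) = ρ`, `gm (∇_π F_1) (F 1) = 0`.
* `ν₀' = ∂_π ζ₀ - ζ₁ ρ`, `ν₁' = ∂_π ζ₁ + ζ₀ ρ` by `nab_metric`.
* `∇_t ∇_π F_0 = ∇_π ∇_t F_0 + Rm(∂_t c, ∂_π c) F_0 = - κ gm (J ∂_t c) (∂_π c) J F_0`, so
  `ρ' = - κ gm (J ∂_t c) (∂_π c) = - κ (ζ₀ ν₁ - ζ₁ ν₀)` (`J ∂_t c = ζ₀ F_1 - ζ₁ F_0`).
* at `t = 0`: `c` and `F` do not depend on `p`, so `ν₀ = ν₁ = ρ = 0`.
`key1`: `π = (0, 1)` (the direction of `r`): `∂_r (scal r ξ)_k = 0` for `k = 0, 1`; linear homogeneous system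
with continuous coefficients, zero initial values.
`key2`: by `key1` and `KStr.dκ` the function `r ↦ κ (c ((y, r), t))` is constant; for `π = (w, 0)` both
`∂_π ζ_k` and the coefficients do not depend on `r`; uniqueness for the linear system.
`key3`: at `r = 0` `ζ_j = 0` for `j ≥ 2`, so `∇_π ∂_t c = ∑_{k<2} (∂_π ζ_k) F_k + ζ_k ∇_π F_k ∈ L1` and
`gm (∂_π c) (F j)` is constant in `t` for `j ≥ 2`, zero at `t = 0`.
-/

open scoped Manifold ContDiff Bundle Topology

noncomputable section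

namespace Pool.Agent.H86.Nco

open Pool.Agent.H86.Anco

variable {K : ℕ} {G : Met K} {a : Form2 K}

/-- uniqueness for linear homogeneous equations -/
theorem skey_lin {H : Type*} [NormedAddCommGroup H] [NormedSpace ℝ H] (L : ℝ → H →L[ℝ] H)
    (hL : Continuous L) (u : ℝ → H) (hu : ∀ t, HasDerivAt u (L t (u t)) t) (h0 : u 0 = 0) :
    ∀ t, u t = 0 := by
  intro T
  obtain ⟨C, hC⟩ := (isCompact_Icc (a := -(|T| + 1)) (b := |T| + 1)).exists_bound_of_continuousOn
    hL.continuousOn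
  have h1 : ∀ t ∈ Set.Ioo (-(|T| + 1)) (|T| + 1),
      LipschitzOnWith C.toNNReal (fun x => L t x) (Set.univ : Set H) := by
    intro t ht
    have h2 := hC t ⟨ht.1.le, ht.2.le⟩
    have h3 : LipschitzWith C.toNNReal (fun x => L t x) := by
      refine (L t).lipschitz.weaken ?_
      rw [← NNReal.coe_le_coe]
      exact h2.trans (Real.le_coe_toNNReal C)
    exact h3.lipschitzOnWith
  have hT := abs_nonneg T
  have hT1 := neg_abs_le T
  have hT2 := le_abs_self T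
  have key := ODE_solution_unique_of_mem_Ioo (v := fun t x => L t x) (s := fun _ => Set.univ)
    (K := C.toNNReal) (f := u) (g := fun _ => 0) (t₀ := 0) (a := -(|T| + 1)) (b := |T| + 1)
    h1 ⟨by linarith, by linarith⟩ (fun t _ => ⟨hu t, Set.mem_univ _⟩)
    (fun t _ => ⟨by simpa using hasDerivAt_const t (0 : H), Set.mem_univ _⟩) h0
  exact key ⟨by linarith, by linarith⟩

/-- the linear system of the key computation -/
theorem skey_sys {z0 z1 k x y r : ℝ → ℝ} (hz0 : Continuous z0) (hz1 : Continuous z1)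
    (hk : Continuous k) (hx : ∀ t, HasDerivAt x (-(z1 t * r t)) t)
    (hy : ∀ t, HasDerivAt y (z0 t * r t) t)
    (hr : ∀ t, HasDerivAt r (-(k t * (z0 t * y t - z1 t * x t))) t)
    (x0 : x 0 = 0) (y0 : y 0 = 0) (r0 : r 0 = 0) (t : ℝ) : x t = 0 ∧ y t = 0 ∧ r t = 0 := by
  let px : ℝ × ℝ × ℝ →L[ℝ] ℝ := ContinuousLinearMap.fst ℝ ℝ (ℝ × ℝ)
  let py : ℝ × ℝ × ℝ →L[ℝ] ℝ :=
    (ContinuousLinearMap.fst ℝ ℝ ℝ).comp (ContinuousLinearMap.snd ℝ ℝ (ℝ × ℝ))
  let pr : ℝ × ℝ × ℝ →L[ℝ] ℝ :=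
    (ContinuousLinearMap.snd ℝ ℝ ℝ).comp (ContinuousLinearMap.snd ℝ ℝ (ℝ × ℝ))
  let L : ℝ → (ℝ × ℝ × ℝ →L[ℝ] ℝ × ℝ × ℝ) := fun t =>
    (-(z1 t) • pr).prod ((z0 t • pr).prod (-(k t * z0 t) • py + (k t * z1 t) • px))
  have hL : Continuous L := by
    have e1 : Continuous fun t => -(z1 t) • pr := (hz1.neg).smul continuous_const
    have e2 : Continuous fun t => z0 t • pr := hz0.smul continuous_const
    have e3 : Continuous fun t => -(k t * z0 t) • py + (k t * z1 t) • px :=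
      ((hk.mul hz0).neg.smul continuous_const).add ((hk.mul hz1).smul continuous_const)
    have e4 : ∀ {A B : ℝ → (ℝ × ℝ × ℝ →L[ℝ] ℝ)}, Continuous A → Continuous B →
        Continuous fun t => (A t).prod (B t) := by
      intro A B hA hB
      have : (fun t => (A t).prod (B t)) = fun t =>
          (ContinuousLinearMap.inl ℝ ℝ ℝ).comp (A t) + (ContinuousLinearMap.inr ℝ ℝ ℝ).comp (B t) := by
        funext t
        ext <;> simp
      rw [this]
      exact (continuous_const.clm_comp hA).add (continuous_const.clm_comp hB)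
    have e5 : Continuous fun t => (z0 t • pr).prod (-(k t * z0 t) • py + (k t * z1 t) • px) :=
      e4 e2 e3
    have : L = fun t => (ContinuousLinearMap.inl ℝ ℝ (ℝ × ℝ)).comp (-(z1 t) • pr) +
        (ContinuousLinearMap.inr ℝ ℝ (ℝ × ℝ)).comp
          ((z0 t • pr).prod (-(k t * z0 t) • py + (k t * z1 t) • px)) := by
      funext t
      refine ContinuousLinearMap.ext fun v => ?_
      simp [L]
    rw [this]
    exact (continuous_const.clm_comp e1).add (continuous_const.clm_comp e5)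
  have hu : ∀ t, HasDerivAt (fun t => (x t, y t, r t)) (L t (x t, y t, r t)) t := by
    intro t
    have e := (hx t).prodMk ((hy t).prodMk (hr t))
    refine e.congr_deriv ?_
    simp only [L, px, py, pr, ContinuousLinearMap.prod_apply]
    refine Prod.ext ?_ (Prod.ext ?_ ?_)
    · simp
    · simp
    · simp
      ring
  have h := skey_lin L hL _ hu (by simp [x0, y0, r0]) t
  exact ⟨congrArg (fun q : ℝ × ℝ × ℝ => q.1) h, congrArg (fun q : ℝ × ℝ × ℝ => q.2.1) h,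
    congrArg (fun q : ℝ × ℝ × ℝ => q.2.2) h⟩

/-- derivative in the direction of `t` -/
theorem skey_line {P : Type*} [NormedAddCommGroup P] [NormedSpace ℝ P] {H : Type*}
    [NormedAddCommGroup H] [NormedSpace ℝ H] {g : P × ℝ → H} {p : P} {t : ℝ}
    (hg : DifferentiableAt ℝ g (p, t)) :
    HasDerivAt (fun τ => g (p, τ)) (fderiv ℝ g (p, t) ((0 : P), (1 : ℝ))) t := by
  have h1 : HasDerivAt (fun τ : ℝ => (p, τ)) ((0 : P), (1 : ℝ)) t :=
    (hasDerivAt_const t p).prodMk (hasDerivAt_id t)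
  exact hg.hasFDerivAt.comp_hasDerivAt t h1

theorem skey_gm_add_right {p : V K} (v w x : V K) : gm G p x (v + w) = gm G p x v + gm G p x w := by
  rw [gm_symm, gm_add, gm_symm v, gm_symm w]

theorem skey_gm_smul_right {p : V K} (r : ℝ) (v w : V K) : gm G p v (r • w) = r * gm G p v w := by
  rw [gm_symm, gm_smul, gm_symm]

theorem skey_gm_zero {p : V K} (w : V K) : gm G p 0 w = 0 := by
  have h := gm_smul (G := G) (p := p) 0 0 w
  simpa using h

theorem skey_gm_sum {p : V K} {ι : Type*} (s : Finset ι) (v : ι → V K) (w : V K) :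
    gm G p (∑ j ∈ s, v j) w = ∑ j ∈ s, gm G p (v j) w := by
  classical
  induction s using Finset.induction_on with
  | empty => simp [skey_gm_zero]
  | insert a s ha ih => rw [Finset.sum_insert ha, Finset.sum_insert ha, gm_add, ih]

theorem skey_gm_neg {p : V K} (v w : V K) : gm G p (-v) w = - gm G p v w := by
  have h := gm_smul (G := G) (p := p) (-1) v w
  simpa using h

/-- derivative of sums of multiples of vector fields -/
theorem skey_nab_sum (Γ : V K → V K →L[ℝ] V K →L[ℝ] V K) {Q : Type*} [NormedAddCommGroup Q]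
    [NormedSpace ℝ Q] {m : ℕ} {c : Q → V K} {z : Fin m → Q → ℝ} {X : Fin m → Q → V K} {q : Q}
    (hz : ∀ j, DifferentiableAt ℝ (z j) q) (hX : ∀ j, DifferentiableAt ℝ (X j) q) (u : Q) :
    nab Γ c (fun q => ∑ j, z j q • X j q) q u =
      ∑ j, (fderiv ℝ (z j) q u • X j q + z j q • nab Γ c (X j) q u) := by
  have h1 : HasFDerivAt (fun q => ∑ j, z j q • X j q)
      (∑ j, (z j q • fderiv ℝ (X j) q + (fderiv ℝ (z j) q).smulRight (X j q))) q :=
    HasFDerivAt.fun_sum fun j _ => (hz j).hasFDerivAt.smul (hX j).hasFDerivAt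
  unfold nab
  rw [h1.fderiv, map_sum, ContinuousLinearMap.sum_apply, ← Finset.sum_sub_distrib]
  refine Finset.sum_congr rfl fun j _ => ?_
  simp only [ContinuousLinearMap.add_apply, ContinuousLinearMap.smul_apply,
    ContinuousLinearMap.smulRight_apply, map_smul, smul_sub]
  abel

section family

variable {P : Type} [NormedAddCommGroup P] [NormedSpace ℝ P] [FiniteDimensional ℝ P]
  {ζ : P × ℝ → Fin (K + 4) → ℝ} {c : P × ℝ → V K} {F : P × ℝ → Fin (K + 4) → V K} {q₀ : V K}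
  {f : Fin (K + 4) → V K}

theorem skey_smoothFj (h : ContDiff ℝ ∞ F) (j : Fin (K + 4)) : ContDiff ℝ ∞ (fun q => F q j) :=
  (contDiff_apply ℝ (V K) j).comp h

theorem skey_smoothζj (h : ContDiff ℝ ∞ ζ) (j : Fin (K + 4)) : ContDiff ℝ ∞ (fun q => ζ q j) :=
  (contDiff_apply ℝ ℝ j).comp h

theorem skey_smoothdc (h : ContDiff ℝ ∞ c) (v : P × ℝ) :
    ContDiff ℝ ∞ (fun q => fderiv ℝ c q v) :=
  (h.fderiv_right (m := ∞) (by simp)).clm_apply contDiff_const

theorem skey_ct {Γ : V K → V K →L[ℝ] V K →L[ℝ] V K} (h : Dev Γ ζ c F q₀ f) (q : P × ℝ) :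
    fderiv ℝ c q ((0 : P), (1 : ℝ)) = ∑ j, ζ q j • F q j := by
  obtain ⟨p, t⟩ := q
  exact (skey_line (h.smoothc.differentiable (by simp) (p, t))).unique (h.dc p t)

theorem skey_Ft {Γ : V K → V K →L[ℝ] V K →L[ℝ] V K} (h : Dev Γ ζ c F q₀ f) (q : P × ℝ)
    (j : Fin (K + 4)) : nab Γ c (fun q => F q j) q ((0 : P), (1 : ℝ)) = 0 := by
  obtain ⟨p, t⟩ := q
  have h1 := (skey_line (((skey_smoothFj h.smoothF j)).differentiable (by simp) (p, t))).unique
    (h.dF p t j)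
  unfold nab
  rw [skey_ct h, h1, sub_self]

theorem skey_gm0 (N : Conn G) {S : JStr G a} (hc : ContDiff ℝ ∞ c) (hF : ContDiff ℝ ∞ F)
    (hm : ∀ q, c q ∈ carrier K ∧ Adapted G S.J (c q) (F q)) (q u : P × ℝ) (j k : Fin (K + 4)) :
    gm G (c q) (nab N.Γ c (fun q => F q j) q u) (F q k) +
      gm G (c q) (F q j) (nab N.Γ c (fun q => F q k) q u) = 0 := by
  have h1 := (nab_metric N (c := c) (X := fun q => F q j) (Y := fun q => F q k) (p := q)
    (hc.differentiable (by simp) q) ((skey_smoothFj hF j).differentiable (by simp) q)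
    ((skey_smoothFj hF k).differentiable (by simp) q)
    (Filter.Eventually.of_forall fun q => (hm q).1)
    (Filter.Eventually.of_forall fun q => (hm q).2.mem j)
    (Filter.Eventually.of_forall fun q => (hm q).2.mem k)).2 u
  have h2 : (fun q => gm G (c q) (F q j) (F q k)) = fun _ => if j = k then (1 : ℝ) else 0 := by
    funext q
    exact (hm q).2.orth j k
  rw [h2] at h1
  rw [← h1]
  simp

theorem skey_nab_mem (N : Conn G) {S : JStr G a} (hc : ContDiff ℝ ∞ c) (hF : ContDiff ℝ ∞ F)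
    (hm : ∀ q, c q ∈ carrier K ∧ Adapted G S.J (c q) (F q)) (q u : P × ℝ) (j : Fin (K + 4)) :
    nab N.Γ c (fun q => F q j) q u ∈ Tan (c q) :=
  nab_mem N (hc.differentiable (by simp) q) ((skey_smoothFj hF j).differentiable (by simp) q)
    (Filter.Eventually.of_forall fun q => (hm q).1)
    (Filter.Eventually.of_forall fun q => (hm q).2.mem j) u

theorem skey_L2 (N : Conn G) {S : JStr G a} (hc : ContDiff ℝ ∞ c) (hF : ContDiff ℝ ∞ F)
    (hm : ∀ q, c q ∈ carrier K ∧ Adapted G S.J (c q) (F q)) (q u : P × ℝ) (j : Fin (K + 2)) :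
    gm G (c q) (nab N.Γ c (fun q => F q j.succ.succ) q u) (F q 0) = 0 ∧
      gm G (c q) (nab N.Γ c (fun q => F q j.succ.succ) q u) (F q 1) = 0 := by
  have h1 := nab_J N S (c := c) (X := fun q => F q j.succ.succ) (p := q)
    (hc.differentiable (by simp) q) ((skey_smoothFj hF j.succ.succ).differentiable (by simp) q)
    (Filter.Eventually.of_forall fun q => (hm q).1)
    (Filter.Eventually.of_forall fun q => (hm q).2.mem j.succ.succ) u
  have h2 : (fun q => S.J (c q) (F q j.succ.succ)) = fun _ => (0 : V K) := by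
    funext q
    exact (hm q).2.J2 j
  rw [h2] at h1
  have h3 : nab N.Γ c (fun _ => (0 : V K)) q u = 0 := by
    unfold nab
    simp
  rw [h3] at h1
  exact ((hm q).2.mem_L2 (hm q).1 (skey_nab_mem N hc hF hm q u j.succ.succ)).1 h1.symm

/-- the derivative of the velocity in the direction `u` -/
theorem skey_ctu (N : Conn G) (hζ : ContDiff ℝ ∞ ζ) (h : Dev N.Γ ζ c F q₀ f)
    (hcm : ∀ q, c q ∈ carrier K) (q u : P × ℝ) :
    nab N.Γ c (fun q => fderiv ℝ c q u) q ((0 : P), (1 : ℝ)) =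
      ∑ j, (fderiv ℝ (fun q => ζ q j) q u • F q j +
        ζ q j • nab N.Γ c (fun q => F q j) q u) := by
  rw [nab_comm N (h.smoothc.contDiffAt) (Filter.Eventually.of_forall hcm)]
  have h1 : (fun q => fderiv ℝ c q ((0 : P), (1 : ℝ))) = fun q => ∑ j, ζ q j • F q j := by
    funext q
    exact skey_ct h q
  rw [h1]
  exact skey_nab_sum N.Γ (z := fun j q => ζ q j) (X := fun j q => F q j)
    (fun j => (skey_smoothζj hζ j).differentiable (by simp) q)
    (fun j => (skey_smoothFj h.smoothF j).differentiable (by simp) q) u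

/-- the derivative of the components of `∂_π c` -/
theorem skey_dν (N : Conn G) {S : JStr G a} (hζ : ContDiff ℝ ∞ ζ) (h : Dev N.Γ ζ c F q₀ f)
    (hm : ∀ q, c q ∈ carrier K ∧ Adapted G S.J (c q) (F q)) (u : P × ℝ) (p : P) (t : ℝ)
    (k : Fin (K + 4)) :
    HasDerivAt (fun t => gm G (c (p, t)) (fderiv ℝ c (p, t) u) (F (p, t) k))
      (fderiv ℝ (fun q => ζ q k) (p, t) u + ∑ j, ζ (p, t) j *
        gm G (c (p, t)) (nab N.Γ c (fun q => F q j) (p, t) u) (F (p, t) k)) t := by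
  have hcm : ∀ q, c q ∈ carrier K := fun q => (hm q).1
  have h1 := nab_metric N (c := c) (X := fun q => fderiv ℝ c q u) (Y := fun q => F q k)
    (p := (p, t)) (h.smoothc.differentiable (by simp) _)
    ((skey_smoothdc h.smoothc u).differentiable (by simp) _)
    ((skey_smoothFj h.smoothF k).differentiable (by simp) _)
    (Filter.Eventually.of_forall fun q => (hm q).1)
    (Filter.Eventually.of_forall fun q => tan_of_map (h.smoothc.differentiable (by simp) q)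
      (Filter.Eventually.of_forall hcm) u)
    (Filter.Eventually.of_forall fun q => (hm q).2.mem k)
  have h2 := skey_line h1.1
  refine h2.congr_deriv ?_
  rw [h1.2, skey_Ft h, gm_symm (fderiv ℝ c (p, t) u), skey_gm_zero, add_zero,
    skey_ctu N hζ h hcm, skey_gm_sum]
  have h3 : ∀ j, gm G (c (p, t)) (fderiv ℝ (fun q => ζ q j) (p, t) u • F (p, t) j +
      ζ (p, t) j • nab N.Γ c (fun q => F q j) (p, t) u) (F (p, t) k) =
      (if j = k then fderiv ℝ (fun q => ζ q j) (p, t) u else 0) + ζ (p, t) j *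
        gm G (c (p, t)) (nab N.Γ c (fun q => F q j) (p, t) u) (F (p, t) k) := by
    intro j
    rw [gm_add, gm_smul, gm_smul, (hm (p, t)).2.orth j k]
    split_ifs <;> ring
  rw [Finset.sum_congr rfl fun j _ => h3 j, Finset.sum_add_distrib]
  simp

theorem skey_init {Γ : V K → V K →L[ℝ] V K →L[ℝ] V K} (h : Dev Γ ζ c F q₀ f) (p dp : P) :
    fderiv ℝ c (p, 0) (dp, (0 : ℝ)) = 0 ∧
      ∀ j, fderiv ℝ (fun q => F q j) (p, 0) (dp, (0 : ℝ)) = 0 := by
  have key : ∀ {H : Type} [NormedAddCommGroup H] [NormedSpace ℝ H] (g : P × ℝ → H) (b : H),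
      ContDiff ℝ ∞ g → (∀ p, g (p, 0) = b) → fderiv ℝ g (p, 0) (dp, (0 : ℝ)) = 0 := by
    intro H _ _ g b hg hb
    have h1 : HasFDerivAt (fun p : P => (p, (0 : ℝ))) (ContinuousLinearMap.inl ℝ P ℝ) p :=
      hasFDerivAt_prodMk_left p (0 : ℝ)
    have h2 := (hg.differentiable (by simp) (p, 0)).hasFDerivAt.comp p h1
    have h3 : (g ∘ fun p : P => (p, (0 : ℝ))) = fun _ => b := by
      funext p
      exact hb p
    rw [h3] at h2
    have h4 := h2.unique (hasFDerivAt_const b p)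
    have h5 := congrArg (fun L : P →L[ℝ] H => L dp) h4
    simpa using h5
  refine ⟨key c q₀ h.smoothc h.c0, fun j => key _ (f j) (skey_smoothFj h.smoothF j) fun p => ?_⟩
  simp only [h.F0 p]

end family

theorem var_ode (N : Conn G) (S : JStr G a) (T : KStr G S) {P : Type} [NormedAddCommGroup P]
    [NormedSpace ℝ P] [FiniteDimensional ℝ P] {ζ : P × ℝ → Fin (K + 4) → ℝ}
    (hζ : ContDiff ℝ ∞ ζ) {c : P × ℝ → V K} {F : P × ℝ → Fin (K + 4) → V K} {q₀ : V K}
    {f : Fin (K + 4) → V K} (h : Dev N.Γ ζ c F q₀ f)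
    (hm : ∀ q, c q ∈ carrier K ∧ Adapted G S.J (c q) (F q)) (p dp : P) :
    let ν₀ : ℝ → ℝ := fun t => gm G (c (p, t)) (fderiv ℝ c (p, t) (dp, 0)) (F (p, t) 0)
    let ν₁ : ℝ → ℝ := fun t => gm G (c (p, t)) (fderiv ℝ c (p, t) (dp, 0)) (F (p, t) 1)
    let ρ : ℝ → ℝ := fun t => gm G (c (p, t)) (nab N.Γ c (fun q => F q 0) (p, t) (dp, 0)) (F (p, t) 1)
    (∀ t, HasDerivAt ν₀ (fderiv ℝ (fun q => ζ q 0) (p, t) (dp, 0) - ζ (p, t) 1 * ρ t) t) ∧
    (∀ t, HasDerivAt ν₁ (fderiv ℝ (fun q => ζ q 1) (p, t) (dp, 0) + ζ (p, t) 0 * ρ t) t) ∧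
    (∀ t, HasDerivAt ρ (-(T.κ (c (p, t)) * (ζ (p, t) 0 * ν₁ t - ζ (p, t) 1 * ν₀ t))) t) ∧
    ν₀ 0 = 0 ∧ ν₁ 0 = 0 ∧ ρ 0 = 0 := by
  intro ν₀ ν₁ ρ
  have hcm : ∀ q, c q ∈ carrier K := fun q => (hm q).1
  have hFj := skey_smoothFj h.smoothF
  have hsplit : ∀ {H : Type} [AddCommMonoid H] (g : Fin (K + 4) → H),
      ∑ j, g j = g 0 + (g 1 + ∑ j : Fin (K + 2), g j.succ.succ) := by
    intro H _ g
    rw [Fin.sum_univ_succ, Fin.sum_univ_succ]
    rfl
  have hself : ∀ (q u : P × ℝ) (j : Fin (K + 4)),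
      gm G (c q) (nab N.Γ c (fun q => F q j) q u) (F q j) = 0 := by
    intro q u j
    have h1 := skey_gm0 N h.smoothc h.smoothF hm q u j j
    rw [gm_symm (F q j)] at h1
    linarith
  have h10 : ∀ (q u : P × ℝ), gm G (c q) (nab N.Γ c (fun q => F q 1) q u) (F q 0) =
      - gm G (c q) (nab N.Γ c (fun q => F q 0) q u) (F q 1) := by
    intro q u
    have h1 := skey_gm0 N h.smoothc h.smoothF hm q u 1 0
    rw [gm_symm (F q 1)] at h1
    linarith
  have hL2 := skey_L2 N h.smoothc h.smoothF hm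
  refine ⟨?_, ?_, ?_, ?_, ?_, ?_⟩
  · intro t
    have h1 := skey_dν N hζ h hm (dp, 0) p t 0
    refine h1.congr_deriv ?_
    rw [hsplit, hself, h10]
    simp only [(hL2 _ _ _).1, mul_zero, Finset.sum_const_zero]
    ring
  · intro t
    have h1 := skey_dν N hζ h hm (dp, 0) p t 1
    refine h1.congr_deriv ?_
    rw [hsplit, hself]
    simp only [(hL2 _ _ _).2, mul_zero, Finset.sum_const_zero]
    ring
  · intro t
    have hX : ContDiff ℝ ∞ (fun q => nab N.Γ c (fun q => F q 0) q (dp, 0)) :=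
      contDiff_nab N h.smoothc (hFj 0) (dp, 0)
    have hXm : ∀ q, nab N.Γ c (fun q => F q 0) q (dp, 0) ∈ Tan (c q) := fun q =>
      skey_nab_mem N h.smoothc h.smoothF hm q (dp, 0) 0
    have h1 := nab_metric N (c := c) (X := fun q => nab N.Γ c (fun q => F q 0) q (dp, 0))
      (Y := fun q => F q 1) (p := (p, t)) (h.smoothc.differentiable (by simp) _)
      (hX.differentiable (by simp) _) ((hFj 1).differentiable (by simp) _)
      (Filter.Eventually.of_forall hcm) (Filter.Eventually.of_forall hXm)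
      (Filter.Eventually.of_forall fun q => (hm q).2.mem 1)
    have h2 := skey_line h1.1
    refine h2.congr_deriv ?_
    rw [h1.2, skey_Ft h, gm_symm (nab N.Γ c (fun q => F q 0) (p, t) (dp, 0)), skey_gm_zero,
      add_zero]
    have h3 := nab_curv N (c := c) (X := fun q => F q 0) (p := (p, t)) h.smoothc.contDiffAt
      (hFj 0).contDiffAt (Filter.Eventually.of_forall hcm)
      (Filter.Eventually.of_forall fun q => (hm q).2.mem 0) ((0 : P), (1 : ℝ)) (dp, 0)
    have h4 : (fun q => nab N.Γ c (fun q => F q 0) q ((0 : P), (1 : ℝ))) = fun _ => (0 : V K) := by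
      funext q
      exact skey_Ft h q 0
    have h5 : nab N.Γ c (fun _ => (0 : V K)) (p, t) (dp, 0) = 0 := by
      unfold nab
      simp
    rw [h4, h5, sub_zero] at h3
    have hT := tan_of_map (h.smoothc.differentiable (by simp) (p, t))
      (Filter.Eventually.of_forall hcm)
    have h6 := T.curv1 (c (p, t)) (hcm _) _ (hT ((0 : P), (1 : ℝ))) _ (hT (dp, (0 : ℝ)))
      (F (p, t) 0) ((hm (p, t)).2.mem 0)
      (by rw [(hm (p, t)).2.J0, (hm (p, t)).2.J1])
    rw [h3, h6, (hm (p, t)).2.J0, gm_smul, (hm (p, t)).2.orth 1 1, if_pos rfl, mul_one]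
    have h7 : S.J (c (p, t)) (fderiv ℝ c (p, t) ((0 : P), (1 : ℝ))) =
        ζ (p, t) 0 • F (p, t) 1 + ζ (p, t) 1 • (- F (p, t) 0) := by
      rw [skey_ct h, map_sum, hsplit]
      simp only [map_smul, (hm (p, t)).2.J0, (hm (p, t)).2.J2, smul_zero, Finset.sum_const_zero,
        add_zero]
      rw [(hm (p, t)).2.J1]
    rw [h7, gm_add, gm_smul, gm_smul, skey_gm_neg, gm_symm (F (p, t) 1), gm_symm (F (p, t) 0)]
    simp only [ν₀, ν₁]
    ring
  · change gm G (c (p, 0)) (fderiv ℝ c (p, 0) (dp, 0)) (F (p, 0) 0) = 0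
    rw [(skey_init h p dp).1, skey_gm_zero]
  · change gm G (c (p, 0)) (fderiv ℝ c (p, 0) (dp, 0)) (F (p, 0) 1) = 0
    rw [(skey_init h p dp).1, skey_gm_zero]
  · change gm G (c (p, 0)) (nab N.Γ c (fun q => F q 0) (p, 0) (dp, 0)) (F (p, 0) 1) = 0
    have h1 : nab N.Γ c (fun q => F q 0) (p, 0) (dp, 0) = 0 := by
      unfold nab
      rw [(skey_init h p dp).1, (skey_init h p dp).2 0]
      simp
    rw [h1, skey_gm_zero]

section fam

variable {N : Conn G} {S : JStr G a} {i : Ix} {q₀ : V K}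
    {f : Fin (K + 4) → V K} {ξ : E K × ℝ → Fin (K + 4) → ℝ} {c : (E K × ℝ) × ℝ → V K}
    {F : (E K × ℝ) × ℝ → Fin (K + 4) → V K}

theorem skey_hm (h : Fam N S i q₀ f ξ c F) (q : (E K × ℝ) × ℝ) :
    c q ∈ carrier K ∧ Adapted G S.J (c q) (F q) := ⟨h.mem q, h.adapted q⟩

theorem skey_smoothζ (h : Fam N S i q₀ f ξ c F) :
    ContDiff ℝ ∞ (fun q : (E K × ℝ) × ℝ => scal q.1.2 (ξ (q.1.1, q.2))) := by
  have h1 : ContDiff ℝ ∞ fun q : (E K × ℝ) × ℝ => ξ (q.1.1, q.2) :=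
    h.smoothξ.comp ((contDiff_fst.comp contDiff_fst).prodMk contDiff_snd)
  have h2 : ContDiff ℝ ∞ fun q : (E K × ℝ) × ℝ => q.1.2 := contDiff_snd.comp contDiff_fst
  refine contDiff_pi.2 fun j => ?_
  have h3 : ContDiff ℝ ∞ fun q : (E K × ℝ) × ℝ => ξ (q.1.1, q.2) j :=
    (contDiff_apply ℝ ℝ j).comp h1
  by_cases hj : j.val < 2
  · simp only [scal, if_pos hj]
    exact h3
  · simp only [scal, if_neg hj]
    exact h2.mul h3

theorem skey_dζ (h : Fam N S i q₀ f ξ c F) (k : Fin (K + 4)) (hk : k.val < 2)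
    (q u : (E K × ℝ) × ℝ) :
    fderiv ℝ (fun q : (E K × ℝ) × ℝ => scal q.1.2 (ξ (q.1.1, q.2)) k) q u =
      fderiv ℝ (fun s => ξ s k) (q.1.1, q.2) (u.1.1, u.2) := by
  have h1 : ContDiff ℝ ∞ (fun s => ξ s k) := (contDiff_apply ℝ ℝ k).comp h.smoothξ
  have h2 : HasFDerivAt (fun q : (E K × ℝ) × ℝ => (q.1.1, q.2))
      (((ContinuousLinearMap.fst ℝ (E K) ℝ).comp (ContinuousLinearMap.fst ℝ (E K × ℝ) ℝ)).prod
        (ContinuousLinearMap.snd ℝ (E K × ℝ) ℝ)) q :=
    (((ContinuousLinearMap.fst ℝ (E K) ℝ).comp (ContinuousLinearMap.fst ℝ (E K × ℝ) ℝ)).prod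
        (ContinuousLinearMap.snd ℝ (E K × ℝ) ℝ)).hasFDerivAt
  have h3 := (h1.differentiable (by simp) (q.1.1, q.2)).hasFDerivAt.comp q h2
  have h4 : (fun q : (E K × ℝ) × ℝ => scal q.1.2 (ξ (q.1.1, q.2)) k) =
      (fun s => ξ s k) ∘ fun q : (E K × ℝ) × ℝ => (q.1.1, q.2) := by
    funext q
    simp [scal, hk]
  rw [h4, h3.fderiv]
  rfl

theorem key1 {N : Conn G} {S : JStr G a} (T : KStr G S) {i : Ix} {q₀ : V K}
    {f : Fin (K + 4) → V K} {ξ : E K × ℝ → Fin (K + 4) → ℝ} {c : (E K × ℝ) × ℝ → V K}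
    {F : (E K × ℝ) × ℝ → Fin (K + 4) → V K} (h : Fam N S i q₀ f ξ c F) (q : (E K × ℝ) × ℝ) :
    S.J (c q) (fderiv ℝ c q ((0, 1), 0)) = 0 := by
  obtain ⟨p, t⟩ := q
  obtain ⟨e1, e2, e3, i1, i2, i3⟩ := var_ode N S T (skey_smoothζ h) h.dev (skey_hm h) p (0, 1)
  have v0 : (0 : Fin (K + 4)).val < 2 := by simp
  have v1 : (1 : Fin (K + 4)).val < 2 := by simp
  have hz : ∀ k : Fin (K + 4), k.val < 2 → Continuous fun t : ℝ => scal p.2 (ξ (p.1, t)) k := by
    intro k hk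
    simp only [scal, if_pos hk]
    exact ((continuous_apply k).comp h.smoothξ.continuous).comp (by fun_prop)
  have hκ : Continuous fun t : ℝ => T.κ (c (p, t)) :=
    T.smooth.continuous.comp (h.dev.smoothc.continuous.comp (by fun_prop))
  have key := skey_sys (hz 0 v0) (hz 1 v1) hκ
    (fun t => (e1 t).congr_deriv (by
      rw [skey_dζ h 0 v0, show ((((0 : E K), (1 : ℝ)), (0 : ℝ)).1.1, (((0 : E K), (1 : ℝ)),
        (0 : ℝ)).2) = (0 : E K × ℝ) from rfl, map_zero, zero_sub]))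
    (fun t => (e2 t).congr_deriv (by
      rw [skey_dζ h 1 v1, show ((((0 : E K), (1 : ℝ)), (0 : ℝ)).1.1, (((0 : E K), (1 : ℝ)),
        (0 : ℝ)).2) = (0 : E K × ℝ) from rfl, map_zero, zero_add]))
    (fun t => e3 t) i1 i2 i3 t
  have hT := tan_of_map (h.dev.smoothc.differentiable (by simp) (p, t))
    (Filter.Eventually.of_forall h.mem) (((0 : E K), (1 : ℝ)), (0 : ℝ))
  exact ((h.adapted (p, t)).mem_L2 (h.mem _) hT).2 ⟨key.1, key.2.1⟩

theorem skey_kappa {N : Conn G} {S : JStr G a} (T : KStr G S) {i : Ix} {q₀ : V K}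
    {f : Fin (K + 4) → V K} {ξ : E K × ℝ → Fin (K + 4) → ℝ} {c : (E K × ℝ) × ℝ → V K}
    {F : (E K × ℝ) × ℝ → Fin (K + 4) → V K} (h : Fam N S i q₀ f ξ c F) (y : E K) (t r r' : ℝ) :
    T.κ (c ((y, r), t)) = T.κ (c ((y, r'), t)) := by
  have hd : ∀ r, HasDerivAt (fun r => T.κ (c ((y, r), t))) 0 r := by
    intro r
    have h1 : HasDerivAt (fun r : ℝ => ((y, r), t)) (((0 : E K), (1 : ℝ)), (0 : ℝ)) r :=
      ((hasDerivAt_const r y).prodMk (hasDerivAt_id r)).prodMk (hasDerivAt_const r t)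
    have h2 := (h.dev.smoothc.differentiable (by simp) ((y, r), t)).hasFDerivAt.comp_hasDerivAt r h1
    have h3 := (T.smooth.differentiable (by simp) (c ((y, r), t))).hasFDerivAt.comp_hasDerivAt r h2
    refine h3.congr_deriv ?_
    exact T.dκ _ (h.mem _) _ (tan_of_map (h.dev.smoothc.differentiable (by simp) _)
      (Filter.Eventually.of_forall h.mem) _) (key1 T h ((y, r), t))
  exact is_const_of_deriv_eq_zero (fun r => (hd r).differentiableAt) (fun r => (hd r).deriv) r r'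

theorem key2 {N : Conn G} {S : JStr G a} (T : KStr G S) {i : Ix} {q₀ : V K}
    {f : Fin (K + 4) → V K} {ξ : E K × ℝ → Fin (K + 4) → ℝ} {c : (E K × ℝ) × ℝ → V K}
    {F : (E K × ℝ) × ℝ → Fin (K + 4) → V K} (h : Fam N S i q₀ f ξ c F) (y w : E K) (t : ℝ) :
    gm G (c ((y, 0), t)) (fderiv ℝ c ((y, 0), t) ((w, 0), 0)) (F ((y, 0), t) 0) =
      gm G (c ((y, 1), t)) (fderiv ℝ c ((y, 1), t) ((w, 0), 0)) (F ((y, 1), t) 0) ∧
    gm G (c ((y, 0), t)) (fderiv ℝ c ((y, 0), t) ((w, 0), 0)) (F ((y, 0), t) 1) =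
      gm G (c ((y, 1), t)) (fderiv ℝ c ((y, 1), t) ((w, 0), 0)) (F ((y, 1), t) 1) ∧
    gm G (c ((y, 0), t)) (nab N.Γ c (fun q => F q 0) ((y, 0), t) ((w, 0), 0)) (F ((y, 0), t) 1) =
      gm G (c ((y, 1), t)) (nab N.Γ c (fun q => F q 0) ((y, 1), t) ((w, 0), 0))
        (F ((y, 1), t) 1) := by
  obtain ⟨e1, e2, e3, i1, i2, i3⟩ := var_ode N S T (skey_smoothζ h) h.dev (skey_hm h) (y, 0) (w, 0)
  obtain ⟨e1', e2', e3', i1', i2', i3'⟩ :=
    var_ode N S T (skey_smoothζ h) h.dev (skey_hm h) (y, 1) (w, 0)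
  have v0 : (0 : Fin (K + 4)).val < 2 := by simp
  have v1 : (1 : Fin (K + 4)).val < 2 := by simp
  have hz : ∀ k : Fin (K + 4), Continuous fun t : ℝ => ξ (y, t) k := fun k =>
    ((continuous_apply k).comp h.smoothξ.continuous).comp (by fun_prop)
  have hκ : Continuous fun t : ℝ => T.κ (c ((y, 0), t)) :=
    T.smooth.continuous.comp (h.dev.smoothc.continuous.comp (by fun_prop))
  have hs : ∀ (k : Fin (K + 4)) (hk : k.val < 2) (r t : ℝ), scal r (ξ (y, t)) k = ξ (y, t) k := by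
    intro k hk r t
    simp [scal, hk]
  have key := skey_sys (hz 0) (hz 1) hκ
    (fun t => ((e1 t).sub (e1' t)).congr_deriv (by
      rw [skey_dζ h 0 v0, skey_dζ h 0 v0]
      simp only [hs 1 v1, Pi.sub_apply]
      ring))
    (fun t => ((e2 t).sub (e2' t)).congr_deriv (by
      rw [skey_dζ h 1 v1, skey_dζ h 1 v1]
      simp only [hs 0 v0, Pi.sub_apply]
      ring))
    (fun t => ((e3 t).sub (e3' t)).congr_deriv (by
      simp only [hs 0 v0, hs 1 v1]
      rw [skey_kappa T h y t 1 0]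
      simp only [Pi.sub_apply]
      ring))
    (sub_eq_zero.2 (i1.trans i1'.symm))
    (sub_eq_zero.2 (i2.trans i2'.symm))
    (sub_eq_zero.2 (i3.trans i3'.symm)) t
  exact ⟨sub_eq_zero.1 key.1, sub_eq_zero.1 key.2.1, sub_eq_zero.1 key.2.2⟩

theorem key3 {N : Conn G} {S : JStr G a} {i : Ix} {q₀ : V K}
    {f : Fin (K + 4) → V K} {ξ : E K × ℝ → Fin (K + 4) → ℝ} {c : (E K × ℝ) × ℝ → V K}
    {F : (E K × ℝ) × ℝ → Fin (K + 4) → V K} (h : Fam N S i q₀ f ξ c F) (y w : E K) (t : ℝ) :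
    fderiv ℝ c ((y, 0), t) ((w, 0), 0) =
      gm G (c ((y, 0), t)) (fderiv ℝ c ((y, 0), t) ((w, 0), 0)) (F ((y, 0), t) 0)
        • F ((y, 0), t) 0 +
      gm G (c ((y, 0), t)) (fderiv ℝ c ((y, 0), t) ((w, 0), 0)) (F ((y, 0), t) 1)
        • F ((y, 0), t) 1 := by
  have hm := skey_hm h
  have hsplit : ∀ {H : Type} [AddCommMonoid H] (g : Fin (K + 4) → H),
      ∑ j, g j = g 0 + (g 1 + ∑ j : Fin (K + 2), g j.succ.succ) := by
    intro H _ g
    rw [Fin.sum_univ_succ, Fin.sum_univ_succ]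
    rfl
  have hT : ∀ t, fderiv ℝ c ((y, 0), t) ((w, 0), 0) ∈ Tan (c ((y, 0), t)) := fun t =>
    tan_of_map (h.dev.smoothc.differentiable (by simp) _)
      (Filter.Eventually.of_forall h.mem) _
  have hv : ∀ j : Fin (K + 2), ¬ (j.succ.succ : Fin (K + 4)).val < 2 := by
    intro j
    simp
  have hz0 : ∀ (j : Fin (K + 2)) (t : ℝ), scal (0 : ℝ) (ξ (y, t)) j.succ.succ = 0 := by
    intro j t
    simp only [scal, if_neg (hv j), zero_mul]
  have hdz : ∀ (j : Fin (K + 2)) (t : ℝ),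
      fderiv ℝ (fun q : (E K × ℝ) × ℝ => scal q.1.2 (ξ (q.1.1, q.2)) j.succ.succ) ((y, 0), t)
        ((w, 0), 0) = 0 := by
    intro j t
    have h1 : (fun q : (E K × ℝ) × ℝ => scal q.1.2 (ξ (q.1.1, q.2)) j.succ.succ) =
        fun q : (E K × ℝ) × ℝ => q.1.2 * ξ (q.1.1, q.2) j.succ.succ := by
      funext q
      simp only [scal, if_neg (hv j)]
    have h2 : ContDiff ℝ ∞ fun q : (E K × ℝ) × ℝ => ξ (q.1.1, q.2) j.succ.succ :=
      (contDiff_apply ℝ ℝ j.succ.succ).comp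
        (h.smoothξ.comp ((contDiff_fst.comp contDiff_fst).prodMk contDiff_snd))
    have h3 : HasFDerivAt (fun q : (E K × ℝ) × ℝ => q.1.2)
        ((ContinuousLinearMap.snd ℝ (E K) ℝ).comp (ContinuousLinearMap.fst ℝ (E K × ℝ) ℝ))
        ((y, (0 : ℝ)), t) :=
      ((ContinuousLinearMap.snd ℝ (E K) ℝ).comp
        (ContinuousLinearMap.fst ℝ (E K × ℝ) ℝ)).hasFDerivAt
    have h4 := h3.mul (h2.differentiable (by simp) ((y, (0 : ℝ)), t)).hasFDerivAt
    rw [h1]
    have h5 := h4.fderiv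
    have h6 := congrArg (fun L : (E K × ℝ) × ℝ →L[ℝ] ℝ => L ((w, 0), 0)) h5
    refine Eq.trans h6 ?_
    simp
  have hd : ∀ (j : Fin (K + 2)) (t : ℝ), HasDerivAt (fun t => gm G (c ((y, 0), t))
      (fderiv ℝ c ((y, 0), t) ((w, 0), 0)) (F ((y, 0), t) j.succ.succ)) 0 t := by
    intro j t
    have h1 := skey_dν N (skey_smoothζ h) h.dev hm ((w, 0), 0) (y, 0) t j.succ.succ
    refine h1.congr_deriv ?_
    rw [hdz, zero_add, hsplit]
    simp only [hz0, zero_mul, Finset.sum_const_zero, add_zero]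
    have h2 := skey_gm0 N h.dev.smoothc h.dev.smoothF hm ((y, 0), t) ((w, 0), 0) 0 j.succ.succ
    have h3 := skey_gm0 N h.dev.smoothc h.dev.smoothF hm ((y, 0), t) ((w, 0), 0) 1 j.succ.succ
    have h4 := skey_L2 N h.dev.smoothc h.dev.smoothF hm ((y, 0), t) ((w, 0), 0) j
    rw [gm_symm (F ((y, 0), t) 0), h4.1, add_zero] at h2
    rw [gm_symm (F ((y, 0), t) 1), h4.2, add_zero] at h3
    rw [h2, h3, mul_zero, mul_zero, add_zero]
  have h0 : ∀ j : Fin (K + 2), gm G (c ((y, 0), t))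
      (fderiv ℝ c ((y, 0), t) ((w, 0), 0)) (F ((y, 0), t) j.succ.succ) = 0 := by
    intro j
    have h1 := is_const_of_deriv_eq_zero (fun t => (hd j t).differentiableAt)
      (fun t => (hd j t).deriv) t 0
    refine Eq.trans h1 ?_
    rw [(skey_init h.dev (y, 0) (w, 0)).1, skey_gm_zero]
  have h1 := (h.adapted ((y, 0), t)).expand (h.mem _) (hT t)
  rw [hsplit] at h1
  simp only [h0, zero_smul, Finset.sum_const_zero, add_zero] at h1
  exact h1

end fam

end Pool.Agent.H86.Nco
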