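import Pool.Agent.H86.Nco.SFam
import Pool.Agent.H86.Nco.SKey

/-!
# Module SLOC: the local retraction

`R y = c ((y, 0), 1)`, `A y = F ((y, 1), 1) 0`, `B y = F ((y, 0), 1) 0` for the family of `SFam.lean`;
`ρ y w = gm (∇_w F_0) (F 1)` at `((y, 1), 1)`.  `c ((y, 1), 1) = Par i y`.
`dR`: `key3` and `key2` at `t = 1` (`F 1 = J F 0`), and `∂_w c ((y, 1), 1) = DPar_i (y) w`.
`dA`: `nab Γ (Par i) A y w` is the covariant derivative of `F_0` along `y ↦ ((y, 1), 1)` (chain rule), and
`∇_w F_0` is in `L1` (`J J F_0 = - F_0` and `nab_J`) and orthogonal to `F_0`, so equal to `ρ F_1`.  Same for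
`dB` with the same `ρ` by `key2`.  `R0, A0, B0`: for `y = Cor i q₀` the ray is constant, `ξ = 0`, so the
development and the frame are constant (`dev_unique` with the constant solution).
`ray`: `c t = c ((y, 0), t)`, `F t = F ((y, 0), t) 0`, `ζ_k t = ξ (y, t) k`.
-/

open scoped Manifold ContDiff Bundle Topology

noncomputable section

namespace Pool.Agent.H86.Nco

open Pool.Agent.H86.Anco

variable {K : ℕ} {G : Met K} {a : Form2 K}


section fam

variable {N : Conn G} {S : JStr G a} {i : Ix} {q₀ : V K}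
    {f : Fin (K + 4) → V K} {ξ : E K × ℝ → Fin (K + 4) → ℝ} {c : (E K × ℝ) × ℝ → V K}
    {F : (E K × ℝ) × ℝ → Fin (K + 4) → V K}

theorem sloc_split {H : Type*} [AddCommMonoid H] (g : Fin (K + 4) → H) :
    ∑ j, g j = g 0 + (g 1 + ∑ j : Fin (K + 2), g j.succ.succ) := by
  rw [Fin.sum_univ_succ, Fin.sum_univ_succ]
  rfl

theorem sloc_ray1 (h : Fam N S i q₀ f ξ c F) (y : E K) : c ((y, 1), 1) = Par i y := by
  rw [h.ray]
  simp

/-- chain rule for the restriction to `((y, r), 1)` -/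
theorem sloc_chain {H : Type*} [NormedAddCommGroup H] [NormedSpace ℝ H]
    {g : (E K × ℝ) × ℝ → H} (hg : ContDiff ℝ ∞ g) (r : ℝ) (y w : E K) :
    fderiv ℝ (fun y => g ((y, r), 1)) y w = fderiv ℝ g ((y, r), 1) ((w, 0), 0) := by
  have h1 : HasFDerivAt (fun y : E K => ((y, r), (1 : ℝ)))
      ((ContinuousLinearMap.inl ℝ (E K × ℝ) ℝ).comp (ContinuousLinearMap.inl ℝ (E K) ℝ)) y :=
    HasFDerivAt.comp (g := fun p : E K × ℝ => (p, (1 : ℝ))) (f := fun y : E K => (y, r)) y
      (hasFDerivAt_prodMk_left (y, r) (1 : ℝ)) (hasFDerivAt_prodMk_left y r)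
  have h2 := (hg.differentiable (by simp) ((y, r), 1)).hasFDerivAt.comp y h1
  have h3 : (g ∘ fun y : E K => ((y, r), (1 : ℝ))) = fun y => g ((y, r), 1) := rfl
  rw [h3] at h2
  rw [h2.fderiv]
  simp

/-- chain rule for the covariant derivative -/
theorem sloc_nab (h : Fam N S i q₀ f ξ c F) (r : ℝ) (y w : E K) :
    nab N.Γ (fun y => c ((y, r), 1)) (fun y => F ((y, r), 1) 0) y w =
      nab N.Γ c (fun q => F q 0) ((y, r), 1) ((w, 0), 0) := by
  unfold nab
  rw [sloc_chain h.dev.smoothc, sloc_chain (g := fun q => F q 0) (skey_smoothFj h.dev.smoothF 0)]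

/-- `∇ F_0` is a multiple of `F_1` -/
theorem sloc_nabF (h : Fam N S i q₀ f ξ c F) (q u : (E K × ℝ) × ℝ) :
    nab N.Γ c (fun q => F q 0) q u =
      gm G (c q) (nab N.Γ c (fun q => F q 0) q u) (F q 1) • F q 1 := by
  have hm := skey_hm h
  have h1 := (h.adapted q).expand (h.mem q) (skey_nab_mem N h.dev.smoothc h.dev.smoothF hm q u 0)
  have h2 : gm G (c q) (nab N.Γ c (fun q => F q 0) q u) (F q 0) = 0 := by
    have h3 := skey_gm0 N h.dev.smoothc h.dev.smoothF hm q u 0 0
    rw [gm_symm (F q 0)] at h3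
    linarith
  have h4 : ∀ j : Fin (K + 2),
      gm G (c q) (nab N.Γ c (fun q => F q 0) q u) (F q j.succ.succ) = 0 := by
    intro j
    have h3 := skey_gm0 N h.dev.smoothc h.dev.smoothF hm q u 0 j.succ.succ
    rw [gm_symm (F q 0), (skey_L2 N h.dev.smoothc h.dev.smoothF hm q u j).1] at h3
    linarith
  rw [sloc_split] at h1
  simp only [h2, h4, zero_smul, Finset.sum_const_zero, add_zero, zero_add] at h1
  exact h1

theorem sloc_F1 (h : Fam N S i q₀ f ξ c F) (q : (E K × ℝ) × ℝ) :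
    F q 1 = S.J (c q) (F q 0) := (h.adapted q).J0.symm

/-- for the base point everything is constant -/
theorem sloc_base (h : Fam N S i q₀ f ξ c F) (r t : ℝ) :
    c ((Cor i q₀, r), t) = q₀ ∧ F ((Cor i q₀, r), t) = f := by
  have hξ : ∀ t j, ξ (Cor i q₀, t) j = 0 := by
    intro t j
    have h1 := h.dev.dc (Cor i q₀, 1) t
    have h2 : (fun τ => c ((Cor i q₀, 1), τ)) = fun _ => Par i (Cor i q₀) := by
      funext τ
      rw [h.ray, sub_self, smul_zero, add_zero]
    rw [h2] at h1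
    have h3 := h1.unique (hasDerivAt_const t (Par i (Cor i q₀)))
    have h4 := skey_gm_sum (G := G) (p := c ((Cor i q₀, 1), t)) Finset.univ
      (fun k => scal (1 : ℝ) (ξ (Cor i q₀, t)) k • F ((Cor i q₀, 1), t) k) (F ((Cor i q₀, 1), t) j)
    have h5 : ∑ k, scal (1 : ℝ) (ξ (Cor i q₀, t)) k • F ((Cor i q₀, 1), t) k = 0 := h3
    rw [h5, skey_gm_zero] at h4
    simp only [gm_smul, (h.adapted ((Cor i q₀, 1), t)).orth, mul_ite, mul_one, mul_zero,
      Finset.sum_ite_eq', Finset.mem_univ, if_true] at h4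
    have h6 : scal (1 : ℝ) (ξ (Cor i q₀, t)) j = ξ (Cor i q₀, t) j := by
      simp [scal]
    rw [← h6]
    exact h4.symm
  have hζ : ∀ t j, scal r (ξ (Cor i q₀, t)) j = 0 := by
    intro t j
    simp [scal, hξ]
  have hc : ∀ t, HasDerivAt (fun τ => c ((Cor i q₀, r), τ)) 0 t := by
    intro t
    refine (h.dev.dc (Cor i q₀, r) t).congr_deriv ?_
    simp only [hζ, zero_smul, Finset.sum_const_zero]
  have hF : ∀ t j, HasDerivAt (fun τ => F ((Cor i q₀, r), τ) j) 0 t := by
    intro t j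
    refine (h.dev.dF (Cor i q₀, r) t j).congr_deriv ?_
    simp only [hζ, zero_smul, Finset.sum_const_zero, map_zero, ContinuousLinearMap.zero_apply]
  constructor
  · have := is_const_of_deriv_eq_zero (fun t => (hc t).differentiableAt)
      (fun t => (hc t).deriv) t 0
    rw [this, h.dev.c0]
  · funext j
    have := is_const_of_deriv_eq_zero (fun t => (hF t j).differentiableAt)
      (fun t => (hF t j).deriv) t 0
    refine Eq.trans this ?_
    rw [h.dev.F0]

end fam

theorem exists_locR (N : Conn G) (S : JStr G a) (T : KStr G S) (i : Ix) {q₀ : V K}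
    (hq₀ : q₀ ∈ carrier K) (hi : q₀ ∈ Dom K i) {f : Fin (K + 4) → V K}
    (hf : Adapted G S.J q₀ f) : Nonempty (LocR N S i q₀ (f 0)) := by
  obtain ⟨ξ, c, F, h⟩ := exists_fam N S i hq₀ hi hf
  have hF0 := skey_smoothFj h.dev.smoothF 0
  have hι : ∀ r : ℝ, ContDiff ℝ ∞ fun y : E K => ((y, r), (1 : ℝ)) := fun r =>
    (contDiff_id.prodMk contDiff_const).prodMk contDiff_const
  have hcPar : (fun y => c ((y, 1), 1)) = Par i := by
    funext y
    exact sloc_ray1 h y
  let ρl : E K → E K →ₗ[ℝ] ℝ := fun y =>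
    { toFun := fun w => gm G (c ((y, 1), 1)) (nab N.Γ c (fun q => F q 0) ((y, 1), 1) ((w, 0), 0))
        (F ((y, 1), 1) 1)
      map_add' := by
        intro w w'
        have e : (((w + w', (0 : ℝ)), (0 : ℝ)) : (E K × ℝ) × ℝ) = ((w, 0), 0) + ((w', 0), 0) := by
          simp
        rw [← gm_add]
        congr 1
        unfold nab
        rw [e, map_add, map_add, map_add]
        simp only [ContinuousLinearMap.add_apply]
        abel
      map_smul' := by
        intro r w
        have e : (((r • w, (0 : ℝ)), (0 : ℝ)) : (E K × ℝ) × ℝ) = r • ((w, 0), 0) := by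
          simp
        rw [RingHom.id_apply, smul_eq_mul, ← gm_smul]
        congr 1
        unfold nab
        rw [e, map_smul, map_smul, map_smul]
        simp only [ContinuousLinearMap.smul_apply, smul_sub] }
  have hρ : ∀ y w, LinearMap.toContinuousLinearMap (ρl y) w =
      gm G (c ((y, 1), 1)) (nab N.Γ c (fun q => F q 0) ((y, 1), 1) ((w, 0), 0))
        (F ((y, 1), 1) 1) := fun y w => rfl
  refine ⟨{
    R := fun y => c ((y, 0), 1)
    A := fun y => F ((y, 1), 1) 0
    B := fun y => F ((y, 0), 1) 0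
    ρ := fun y => LinearMap.toContinuousLinearMap (ρl y)
    smoothR := h.dev.smoothc.comp (hι 0)
    smoothA := hF0.comp (hι 1)
    smoothB := hF0.comp (hι 0)
    memR := fun y => h.mem _
    memA := fun y => by
      rw [← sloc_ray1 h y]
      exact (h.adapted _).mem 0
    memB := fun y => (h.adapted _).mem 0
    JJA := fun y => by
      rw [← sloc_ray1 h y, (h.adapted _).J0, (h.adapted _).J1]
    JJB := fun y => by
      rw [(h.adapted _).J0, (h.adapted _).J1]
    unitA := fun y => by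
      rw [← sloc_ray1 h y, (h.adapted _).orth 0 0, if_pos rfl]
    unitB := fun y => by
      rw [(h.adapted _).orth 0 0, if_pos rfl]
    dR := ?_
    dA := ?_
    dB := ?_
    R0 := (sloc_base h 0 1).1
    A0 := congrFun (sloc_base h 1 1).2 0
    B0 := congrFun (sloc_base h 0 1).2 0
    ray := ?_ }⟩
  · intro y w
    obtain ⟨k1, k2, -⟩ := key2 T h y w 1
    have e1 : fderiv ℝ (Par i) y w = fderiv ℝ c ((y, 1), 1) ((w, 0), 0) := by
      rw [← hcPar, sloc_chain h.dev.smoothc]
    rw [sloc_chain h.dev.smoothc, key3 h y w 1, k1, k2, e1, ← sloc_ray1 h y,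
      ← sloc_F1 h ((y, 0), 1), ← sloc_F1 h ((y, 1), 1)]
  · intro y w
    have e1 := sloc_nab h 1 y w
    rw [hcPar] at e1
    rw [e1, sloc_nabF h, hρ, ← sloc_ray1 h y, ← sloc_F1 h ((y, 1), 1)]
  · intro y w
    obtain ⟨-, -, k3⟩ := key2 T h y w 1
    rw [sloc_nab h 0 y w, sloc_nabF h, hρ, k3, ← sloc_F1 h ((y, 0), 1)]
  · intro y
    have hz : ∀ k : Fin (K + 4), Continuous fun t : ℝ => ξ (y, t) k := fun k =>
      ((continuous_apply k).comp h.smoothξ.continuous).comp (by fun_prop)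
    have hsum : ∀ t, ∑ j, scal (0 : ℝ) (ξ (y, t)) j • F ((y, 0), t) j =
        ξ (y, t) 0 • F ((y, 0), t) 0 + ξ (y, t) 1 • S.J (c ((y, 0), t)) (F ((y, 0), t) 0) := by
      intro t
      have hv : ∀ j : Fin (K + 2), ¬ (j.succ.succ : Fin (K + 4)).val < 2 := by
        intro j
        simp
      have hz0 : ∀ j : Fin (K + 2), scal (0 : ℝ) (ξ (y, t)) j.succ.succ = 0 := by
        intro j
        simp only [scal, if_neg (hv j), zero_mul]
      rw [sloc_split]
      simp only [hz0, zero_smul, Finset.sum_const_zero, add_zero]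
      rw [← sloc_F1 h ((y, 0), t)]
      simp [scal]
    refine ⟨fun t => c ((y, 0), t), fun t => F ((y, 0), t) 0, fun t => ξ (y, t) 0,
      fun t => ξ (y, t) 1, hz 0, hz 1, h.dev.c0 _, ?_, fun t => ⟨h.mem _, (h.adapted _).mem 0, ?_, ?_⟩,
      fun t => ?_, fun t => ?_, rfl⟩
    · simp only [h.dev.F0]
    · rw [(h.adapted _).J0, (h.adapted _).J1]
    · rw [(h.adapted _).orth 0 0, if_pos rfl]
    · exact (h.dev.dc (y, 0) t).congr_deriv (hsum t)
    · exact (h.dev.dF (y, 0) t 0).congr_deriv (by simp only [hsum t])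

end Pool.Agent.H86.Nco
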