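import Pool.Agent.H86.Nco.EvenDefs
import Pool.Agent.H86.Nco.Ret
import Pool.Agent.H86.Nco.SGlue
import Pool.Agent.H86.Nco.SLoc

/-!
# Module SGLOB: the retraction `R : M → M`

Let `(U, r)` be the retraction of `Ret.lean` and `R p = (L i).R (Cor i (r p))`, `i = idx (r p)`.  Near a point
`p₁ ∈ U` one may use any fixed `i` with `r p₁ ∈ Dom K i` (`glue`), so `R` is smooth on `U`.  For
`p = Par i y ∈ M` and `v ∈ Tan p`: `DR(p) v = (L i).T y v` (`LocR.dR`, `r = id` on `M` so `Dr(p) v = v` on tangent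
vectors), and for `v ∈ V K`, `p ∈ M`: `DR(p) v = (L i).T y (Dr(p) v)` with `Dr(p) v ∈ Tan p`.

`R (R p) = R p`: let `y = Cor i (r p)`; take `c, F, ζ₀, ζ₁` from `LocR.ray`.  The curves `R (c t)` and
`T (F t)` (`T` at the point `c t`, in a chart around it) satisfy the same differential equation as
`c, F` (`transport_T`; `(R c)' = T c' = ζ₀ T F + ζ₁ T J F`, and `T J = J T` on `L1`) with the same initial values
(`R q₀ = q₀`, `T e₀ = e₀`), so `R (c t) = c t` by `dev_unique`; at `t = 1`: `R (R p) = R p`.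

If `R p = p`, `p ∈ U`: then `p ∈ M`, and the range of `DR(p)` is the range of `T` at `p`, i.e. the span of
`B, J B`, which is the plane `L1 (p) = {v ∈ Tan p | J J v = - v}` (both two dimensional).
`cplx`, `rank` follow.  Periods: `amb a (R p) (T v) (T w) = lam gm (J T v) (T w)
= lam (v₀ w₁ - v₁ w₀) = amb a p v w`, where `v_k, w_k` are the components with respect to `A, J A`.
-/

open scoped Manifold ContDiff Bundle Topology

noncomputable section

namespace Pool.Agent.H86.Nco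

open Pool.Agent.H86.Anco

variable {K : ℕ} {G : Met K} {a : Form2 K}


/-- linear algebra in `L1` -/
theorem sglob_gmJ {S : JStr G a} {p : V K} (hp : p ∈ carrier K) {A : V K} (hA : A ∈ Tan p)
    (hJ : S.J p (S.J p A) = - A) (h1 : gm G p A A = 1) :
    gm G p A (S.J p A) = 0 ∧ gm G p (S.J p A) A = 0 ∧ gm G p (S.J p A) (S.J p A) = 1 := by
  have hJA := S.mem p hp A hA
  have e1 := S.skew p hp A hA A hA
  have e2 := gm_symm (G := G) (p := p) A (S.J p A)
  have e3 := S.skew p hp A hA (S.J p A) hJA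
  have e4 : gm G p A (S.J p (S.J p A)) = - 1 := by
    rw [hJ, gm_symm, skey_gm_neg, h1]
  refine ⟨by linarith, by linarith, by rw [e3, e4]; ring⟩

theorem sglob_JJJ {S : JStr G a} {p : V K} (hp : p ∈ carrier K) {v : V K} (hv : v ∈ Tan p) :
    S.J p (S.J p (S.J p v)) = - S.J p v := by
  obtain ⟨f, hf⟩ := S.basis p hp
  have h1 : S.J p v = gm G p v (f 0) • f 1 + gm G p v (f 1) • (- f 0) := by
    conv_lhs => rw [hf.expand hp hv]
    rw [map_sum, sloc_split]
    simp only [map_smul, hf.J0, hf.J2, smul_zero, Finset.sum_const_zero, add_zero]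
    rw [hf.J1]
  rw [h1]
  simp only [map_add, map_smul, map_neg, hf.J0, hf.J1, smul_neg, neg_neg, neg_add]
  try abel

/-- a unit vector `B` of `L1` and `J B` are an orthonormal basis of `L1` -/
theorem sglob_expand {S : JStr G a} {p : V K} (hp : p ∈ carrier K) {B v : V K} (hB : B ∈ Tan p)
    (hJB : S.J p (S.J p B) = - B) (h1 : gm G p B B = 1) (hv : v ∈ Tan p)
    (hJv : S.J p (S.J p v) = - v) :
    v = gm G p v B • B + gm G p v (S.J p B) • S.J p B := by
  obtain ⟨f, hf⟩ := S.basis p hp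
  obtain ⟨b0, hb0⟩ : ∃ x, x = gm G p B (f 0) := ⟨_, rfl⟩
  obtain ⟨b1, hb1⟩ : ∃ x, x = gm G p B (f 1) := ⟨_, rfl⟩
  obtain ⟨v0, hv0⟩ : ∃ x, x = gm G p v (f 0) := ⟨_, rfl⟩
  obtain ⟨v1, hv1⟩ : ∃ x, x = gm G p v (f 1) := ⟨_, rfl⟩
  have eB := (hf.mem_L1 hp hB).1 hJB
  have ev := (hf.mem_L1 hp hv).1 hJv
  rw [← hb0, ← hb1] at eB
  rw [← hv0, ← hv1] at ev
  have eJB : S.J p B = b0 • f 1 + b1 • (- f 0) := by
    rw [eB, map_add, map_smul, map_smul, hf.J0, hf.J1]
  have o00 : gm G p (f 0) (f 0) = 1 := by rw [hf.orth, if_pos rfl]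
  have o11 : gm G p (f 1) (f 1) = 1 := by rw [hf.orth, if_pos rfl]
  have n01 : (0 : Fin (K + 4)) ≠ 1 := by
    intro h
    have := congrArg Fin.val h
    simp at this
  have o01 : gm G p (f 0) (f 1) = 0 := by rw [hf.orth, if_neg n01]
  have o10 : gm G p (f 1) (f 0) = 0 := by rw [hf.orth, if_neg n01.symm]
  have u1 : b0 ^ 2 + b1 ^ 2 = 1 := by
    rw [← h1, eB]
    simp only [gm_add, gm_smul, skey_gm_add_right, skey_gm_smul_right, o00, o01, o10, o11]
    ring
  have c0 : gm G p v B = v0 * b0 + v1 * b1 := by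
    rw [ev, eB]
    simp only [gm_add, gm_smul, skey_gm_add_right, skey_gm_smul_right, o00, o01, o10, o11]
    ring
  have c1 : gm G p v (S.J p B) = v1 * b0 - v0 * b1 := by
    rw [ev, eJB]
    have hneg : ∀ x y : V K, gm G p x (-y) = - gm G p x y := by
      intro x y
      rw [gm_symm, skey_gm_neg, gm_symm]
    simp only [gm_add, gm_smul, skey_gm_add_right, skey_gm_smul_right, hneg, o00, o01, o10, o11]
    ring
  rw [c0, c1, eJB]
  conv_lhs => rw [ev]
  conv_rhs => rw [eB]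
  have t0 : v0 = (v0 * b0 + v1 * b1) * b0 - (v1 * b0 - v0 * b1) * b1 := by
    linear_combination (-v0) * u1
  have t1 : v1 = (v0 * b0 + v1 * b1) * b1 + (v1 * b0 - v0 * b1) * b0 := by
    linear_combination (-v1) * u1
  conv_lhs => rw [t0, t1]
  module

section loc

variable {N : Conn G} {S : JStr G a} {i : Ix} {q₀ e₀ : V K}

/-- `T` commutes with `J` -/
theorem sglob_TJ (L : LocR N S i q₀ e₀) (y : E K) {v : V K} (hv : v ∈ Tan (Par i y)) :
    S.J (L.R y) (L.T y v) = L.T y (S.J (Par i y) v) := by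
  have hp := Par_mem i y
  have hJA := S.mem _ hp _ (L.memA y)
  unfold LocR.T
  have e1 := S.skew _ hp v hv (L.A y) (L.memA y)
  have e2 := S.skew _ hp v hv (S.J (Par i y) (L.A y)) hJA
  have e3 : gm G (Par i y) v (S.J (Par i y) (S.J (Par i y) (L.A y))) =
      - gm G (Par i y) v (L.A y) := by
    rw [L.JJA, gm_symm, skey_gm_neg, gm_symm]
  rw [e1, e2, e3, map_add, map_smul, map_smul, L.JJB]
  module

theorem sglob_Tadd (L : LocR N S i q₀ e₀) (y : E K) (v w : V K) :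
    L.T y (v + w) = L.T y v + L.T y w := by
  unfold LocR.T
  rw [gm_add, gm_add]
  module

theorem sglob_Tsmul (L : LocR N S i q₀ e₀) (y : E K) (r : ℝ) (v : V K) :
    L.T y (r • v) = r • L.T y v := by
  unfold LocR.T
  rw [gm_smul, gm_smul]
  module

theorem sglob_T0 (L : LocR N S i q₀ e₀) (y : E K) : L.T y 0 = 0 := by
  unfold LocR.T
  rw [skey_gm_zero, skey_gm_zero]
  simp

theorem sglob_Tmem (L : LocR N S i q₀ e₀) (y : E K) (v : V K) :
    L.T y v ∈ Tan (L.R y) ∧ S.J (L.R y) (S.J (L.R y) (L.T y v)) = - L.T y v := by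
  have hJB := S.mem _ (L.memR y) _ (L.memB y)
  refine ⟨?_, ?_⟩
  · exact Submodule.add_mem _ (Submodule.smul_mem _ _ (L.memB y)) (Submodule.smul_mem _ _ hJB)
  · unfold LocR.T
    rw [map_add, map_smul, map_smul, L.JJB]
    simp only [map_add, map_smul, map_neg, L.JJB]
    module

/-- derivative of `R` as a function of the point -/
theorem sglob_dR (L : LocR N S i q₀ e₀) {X : Type*} [NormedAddCommGroup X] [NormedSpace ℝ X]
    {φ : X → V K} {x : X} (hφ : DifferentiableAt ℝ φ x) (hm : ∀ᶠ z in 𝓝 x, φ z ∈ carrier K)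
    (hd : φ x ∈ Dom K i) (w : X) :
    DifferentiableAt ℝ (fun z => L.R (Cor i (φ z))) x ∧
    fderiv ℝ (fun z => L.R (Cor i (φ z))) x w = L.T (Cor i (φ x)) (fderiv ℝ φ x w) := by
  have hC := differentiableAt_Cor i hd
  have h1 : HasFDerivAt (fun z => Cor i (φ z)) ((fderiv ℝ (Cor i) (φ x)).comp (fderiv ℝ φ x)) x :=
    hC.hasFDerivAt.comp x hφ.hasFDerivAt
  have h2 := (L.smoothR.differentiable (by simp) (Cor i (φ x))).hasFDerivAt.comp x h1
  have h3 : (L.R ∘ fun z => Cor i (φ z)) = fun z => L.R (Cor i (φ z)) := rfl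
  rw [h3] at h2
  refine ⟨h2.differentiableAt, ?_⟩
  rw [h2.fderiv]
  have hT := tan_of_map hφ hm w
  have h4 : (((fderiv ℝ L.R (Cor i (φ x))).comp ((fderiv ℝ (Cor i) (φ x)).comp (fderiv ℝ φ x))) w) =
      fderiv ℝ L.R (Cor i (φ x)) (fderiv ℝ (Cor i) (φ x) (fderiv ℝ φ x w)) := rfl
  rw [h4, L.dR, fderiv_Par_Cor i hm.self_of_nhds hd hT]
  rfl

end loc

section glob

variable {N : Conn G} {S : JStr G a} {q₀ e₀ : V K}

/-- `R` on `M` -/
def sglobR (L : ∀ i, LocR N S i q₀ e₀) (p : V K) : V K := (L (idx p)).R (Cor (idx p) p)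

/-- `T` on `M` -/
def sglobT (L : ∀ i, LocR N S i q₀ e₀) (p v : V K) : V K := (L (idx p)).T (Cor (idx p) p) v

theorem sglob_chart (hq₀ : q₀ ∈ carrier K) (hq : ∀ i, q₀ ∈ Dom K i)
    (L : ∀ i, LocR N S i q₀ e₀) {p : V K} (hp : p ∈ carrier K) {i : Ix} (hi : p ∈ Dom K i) :
    sglobR L p = (L i).R (Cor i p) ∧ ∀ v ∈ Tan p, sglobT L p v = (L i).T (Cor i p) v := by
  have hpp := Par_Cor (idx p) hp (mem_Dom_idx p)
  have hy : Cor (idx p) p ∈ ov K (idx p) i := by
    change Par (idx p) (Cor (idx p) p) ∈ Dom K i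
    rw [hpp]
    exact hi
  have h1 : tr (idx p) i (Cor (idx p) p) = Cor i p := by
    change Cor i (Par (idx p) (Cor (idx p) p)) = Cor i p
    rw [hpp]
  have h2 := glue hq₀ hq L (idx p) i hy
  rw [h1, hpp] at h2
  exact h2

theorem sglob_dRT (hq₀ : q₀ ∈ carrier K) (hq : ∀ i, q₀ ∈ Dom K i)
    (L : ∀ i, LocR N S i q₀ e₀) {X : Type*} [NormedAddCommGroup X] [NormedSpace ℝ X]
    {φ : X → V K} {x : X} (hφ : DifferentiableAt ℝ φ x) (hm : ∀ᶠ z in 𝓝 x, φ z ∈ carrier K)
    (w : X) : DifferentiableAt ℝ (fun z => sglobR L (φ z)) x ∧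
    fderiv ℝ (fun z => sglobR L (φ z)) x w = sglobT L (φ x) (fderiv ℝ φ x w) := by
  have hd := mem_Dom_idx (φ x)
  have h1 : (fun z => sglobR L (φ z)) =ᶠ[𝓝 x] fun z => (L (idx (φ x))).R (Cor (idx (φ x)) (φ z)) := by
    filter_upwards [hm, hφ.continuousAt ((isOpen_Dom (idx (φ x))).mem_nhds hd)] with z hz hz2
    exact (sglob_chart hq₀ hq L hz hz2).1
  obtain ⟨h2, h3⟩ := sglob_dR (L (idx (φ x))) hφ hm hd w
  refine ⟨h1.differentiableAt_iff.2 h2, ?_⟩
  rw [h1.fderiv_eq, h3]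
  rfl

/-- `T` is parallel along curves -/
theorem sglob_transport (hq₀ : q₀ ∈ carrier K) (hq : ∀ i, q₀ ∈ Dom K i)
    (L : ∀ i, LocR N S i q₀ e₀) {c X : ℝ → V K} {t : ℝ} (hc : DifferentiableAt ℝ c t)
    (hX : DifferentiableAt ℝ X t) (hm : ∀ᶠ τ in 𝓝 t, c τ ∈ carrier K)
    (hXm : ∀ᶠ τ in 𝓝 t, X τ ∈ Tan (c τ)) :
    DifferentiableAt ℝ (fun τ => sglobT L (c τ) (X τ)) t ∧
    nab N.Γ (fun τ => sglobR L (c τ)) (fun τ => sglobT L (c τ) (X τ)) t 1 =
      sglobT L (c t) (nab N.Γ c X t 1) := by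
  have hd := mem_Dom_idx (c t)
  have hD : ∀ᶠ τ in 𝓝 t, c τ ∈ Dom K (idx (c t)) :=
    hc.continuousAt ((isOpen_Dom (idx (c t))).mem_nhds hd)
  have hP : (fun τ => Par (idx (c t)) (Cor (idx (c t)) (c τ))) =ᶠ[𝓝 t] c := by
    filter_upwards [hm, hD] with τ h1 h2
    exact Par_Cor _ h1 h2
  have hR : (fun τ => sglobR L (c τ)) =ᶠ[𝓝 t]
      fun τ => (L (idx (c t))).R (Cor (idx (c t)) (c τ)) := by
    filter_upwards [hm, hD] with τ h1 h2
    exact (sglob_chart hq₀ hq L h1 h2).1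
  have hT : (fun τ => sglobT L (c τ) (X τ)) =ᶠ[𝓝 t]
      fun τ => (L (idx (c t))).T (Cor (idx (c t)) (c τ)) (X τ) := by
    filter_upwards [hm, hD, hXm] with τ h1 h2 h3
    exact (sglob_chart hq₀ hq L h1 h2).2 _ h3
  have hy : DifferentiableAt ℝ (fun τ => Cor (idx (c t)) (c τ)) t :=
    (differentiableAt_Cor (idx (c t)) hd).comp t hc
  have hXm' : ∀ᶠ τ in 𝓝 t, X τ ∈ Tan (Par (idx (c t)) (Cor (idx (c t)) (c τ))) := by
    filter_upwards [hXm, hP] with τ h1 h2
    rw [h2]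
    exact h1
  obtain ⟨k1, k2⟩ := transport_T (L (idx (c t))) hy hX hXm'
  refine ⟨hT.differentiableAt_iff.2 k1, ?_⟩
  have hnab : ∀ {c c' X X' : ℝ → V K}, c =ᶠ[𝓝 t] c' → X =ᶠ[𝓝 t] X' →
      nab N.Γ c X t 1 = nab N.Γ c' X' t 1 := by
    intro c c' X X' h1 h2
    unfold nab
    rw [h1.fderiv_eq, h2.fderiv_eq, h1.self_of_nhds, h2.self_of_nhds]
  rw [hnab hR hT, k2, hnab hP (Filter.EventuallyEq.refl _ X)]
  rfl

/-- a curve in the plane field `L1` with a parallel vector is a development -/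
theorem sglob_dev (N : Conn G) (S : JStr G a) {c F : ℝ → V K} {z0 z1 : ℝ → ℝ}
    (hm : ∀ τ, c τ ∈ carrier K) (hFm : ∀ τ, F τ ∈ Tan (c τ)) {t : ℝ}
    (hc : HasDerivAt c (z0 t • F t + z1 t • S.J (c t) (F t)) t)
    (hF : HasDerivAt F (N.Γ (c t) (z0 t • F t + z1 t • S.J (c t) (F t)) (F t)) t) :
    HasDerivAt c (∑ j : Fin 2, (![z0 t, z1 t] : Fin 2 → ℝ) j •
      (![F t, S.J (c t) (F t)] : Fin 2 → V K) j) t ∧
    ∀ j : Fin 2, HasDerivAt (fun τ => (![F τ, S.J (c τ) (F τ)] : Fin 2 → V K) j)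
      (N.Γ (c t) (∑ k : Fin 2, (![z0 t, z1 t] : Fin 2 → ℝ) k •
        (![F t, S.J (c t) (F t)] : Fin 2 → V K) k)
          ((![F t, S.J (c t) (F t)] : Fin 2 → V K) j)) t := by
  have hs : ∑ j : Fin 2, (![z0 t, z1 t] : Fin 2 → ℝ) j •
      (![F t, S.J (c t) (F t)] : Fin 2 → V K) j =
      z0 t • F t + z1 t • S.J (c t) (F t) := by
    simp [Fin.sum_univ_two]
  rw [hs]
  have h0 : nab N.Γ c F t 1 = 0 := by
    unfold nab
    rw [hF.hasFDerivAt.fderiv, hc.hasFDerivAt.fderiv]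
    simp
  have h1 := nab_J N S hc.differentiableAt hF.differentiableAt (Filter.Eventually.of_forall hm)
    (Filter.Eventually.of_forall hFm) (1 : ℝ)
  rw [h0, map_zero] at h1
  have hJd : DifferentiableAt ℝ (fun τ => S.J (c τ) (F τ)) t :=
    ((S.smooth.differentiable (by simp) (c t)).comp t hc.differentiableAt).clm_apply
      hF.differentiableAt
  have h2 : HasDerivAt (fun τ => S.J (c τ) (F τ))
      (N.Γ (c t) (z0 t • F t + z1 t • S.J (c t) (F t)) (S.J (c t) (F t))) t := by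
    refine hJd.hasDerivAt.congr_deriv ?_
    have h3 : fderiv ℝ (fun τ => S.J (c τ) (F τ)) t 1 - N.Γ (c t) (fderiv ℝ c t 1)
      (S.J (c t) (F t)) = 0 := h1
    rw [hc.hasFDerivAt.fderiv] at h3
    rw [← fderiv_apply_one_eq_deriv]
    have h4 := sub_eq_zero.1 h3
    rw [h4]
    simp
  refine ⟨hc, fun j => ?_⟩
  fin_cases j
  · exact hF
  · exact h2

/-- `R` fixes the developments along `L1` -/
theorem sglob_retr (hq₀ : q₀ ∈ carrier K) (hq : ∀ i, q₀ ∈ Dom K i)
    (L : ∀ i, LocR N S i q₀ e₀) {p : V K} :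
    sglobR L (sglobR L p) = sglobR L p := by
  obtain ⟨c, F, z0, z1, hz0, hz1, hc0, hF0, hm, hc, hF, hc1⟩ := (L (idx p)).ray (Cor (idx p) p)
  have hcm : ∀ t, c t ∈ carrier K := fun t => (hm t).1
  have hFm : ∀ t, F t ∈ Tan (c t) := fun t => (hm t).2.1
  have hcd : ∀ t, DifferentiableAt ℝ c t := fun t => (hc t).differentiableAt
  have hFd : ∀ t, DifferentiableAt ℝ F t := fun t => (hF t).differentiableAt
  have hFp : ∀ t, nab N.Γ c F t 1 = 0 := by
    intro t
    unfold nab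
    rw [(hF t).hasFDerivAt.fderiv, (hc t).hasFDerivAt.fderiv]
    simp
  have hc' : ∀ t, HasDerivAt (fun τ => sglobR L (c τ)) (z0 t • sglobT L (c t) (F t) +
      z1 t • S.J (sglobR L (c t)) (sglobT L (c t) (F t))) t := by
    intro t
    obtain ⟨h1, h2⟩ := sglob_dRT hq₀ hq L (hcd t) (Filter.Eventually.of_forall hcm) (1 : ℝ)
    refine h1.hasDerivAt.congr_deriv ?_
    rw [← fderiv_apply_one_eq_deriv, h2, (hc t).hasFDerivAt.fderiv]
    have hpp := Par_Cor (idx (c t)) (hcm t) (mem_Dom_idx (c t))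
    have h3 := sglob_TJ (L (idx (c t))) (Cor (idx (c t)) (c t)) (v := F t)
      (by rw [hpp]; exact hFm t)
    rw [hpp] at h3
    have h4 : S.J (sglobR L (c t)) (sglobT L (c t) (F t)) =
      sglobT L (c t) (S.J (c t) (F t)) := h3
    rw [h4]
    unfold sglobT
    simp only [ContinuousLinearMap.toSpanSingleton_apply, one_smul, sglob_Tadd, sglob_Tsmul]
  have hF' : ∀ t, HasDerivAt (fun τ => sglobT L (c τ) (F τ)) (N.Γ (sglobR L (c t))
      (z0 t • sglobT L (c t) (F t) + z1 t • S.J (sglobR L (c t)) (sglobT L (c t) (F t)))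
      (sglobT L (c t) (F t))) t := by
    intro t
    obtain ⟨h1, h2⟩ := sglob_transport hq₀ hq L (hcd t) (hFd t)
      (Filter.Eventually.of_forall hcm) (Filter.Eventually.of_forall hFm)
    rw [hFp t] at h2
    have h3 : sglobT L (c t) 0 = 0 := sglob_T0 _ _
    rw [h3] at h2
    refine h1.hasDerivAt.congr_deriv ?_
    have h4 : fderiv ℝ (fun τ => sglobT L (c τ) (F τ)) t 1 - N.Γ (sglobR L (c t))
      (fderiv ℝ (fun τ => sglobR L (c τ)) t 1) (sglobT L (c t) (F t)) = 0 := h2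
    rw [(hc' t).hasFDerivAt.fderiv] at h4
    rw [← fderiv_apply_one_eq_deriv, sub_eq_zero.1 h4]
    simp
  have hRm : ∀ t, sglobR L (c t) ∈ carrier K := fun t => (L _).memR _
  have hTm : ∀ t, sglobT L (c t) (F t) ∈ Tan (sglobR L (c t)) := fun t => (sglob_Tmem _ _ _).1
  have hζ : Continuous fun t => (![z0 t, z1 t] : Fin 2 → ℝ) := by
    refine continuous_pi fun j => ?_
    fin_cases j
    · exact hz0
    · exact hz1
  have hpp := Par_Cor (idx q₀) hq₀ (hq _)
  have hA0 : (L (idx q₀)).A (Cor (idx q₀) q₀) = e₀ := (L _).A0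
  have hB0 : (L (idx q₀)).B (Cor (idx q₀) q₀) = e₀ := (L _).B0
  have hR0 : sglobR L q₀ = q₀ := (L _).R0
  have hT0 : sglobT L q₀ e₀ = e₀ := by
    have e1 := (L (idx q₀)).memA (Cor (idx q₀) q₀)
    have e2 := (L (idx q₀)).JJA (Cor (idx q₀) q₀)
    have e3 := (L (idx q₀)).unitA (Cor (idx q₀) q₀)
    rw [hA0, hpp] at e1 e2 e3
    have e4 := sglob_gmJ hq₀ e1 e2 e3
    unfold sglobT LocR.T
    rw [hA0, hB0, hpp, e3, e4.1]
    simp
  have key := dev_unique N hζ (c := c) (c' := fun τ => sglobR L (c τ))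
    (F := fun τ => ![F τ, S.J (c τ) (F τ)])
    (F' := fun τ => ![sglobT L (c τ) (F τ), S.J (sglobR L (c τ)) (sglobT L (c τ) (F τ))])
    (fun t _ => sglob_dev N S hcm hFm (hc t) (hF t))
    (fun t _ => sglob_dev N S hRm hTm (hc' t) (hF' t))
    (by simp only [hc0, hR0]) (by simp only [hc0, hF0, hR0, hT0]) 1 ⟨zero_le_one, le_refl 1⟩
  have h1 := key.1
  simp only [hc1] at h1
  exact h1.symm

/-- periods are preserved pointwise -/
theorem sglob_amb (L : ∀ i, LocR N S i q₀ e₀) {p v w : V K} (hp : p ∈ carrier K)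
    (hv : v ∈ Tan p) (hw : w ∈ Tan p) :
    amb a.val (sglobR L p) (sglobT L p v) (sglobT L p w) = amb a.val p v w := by
  have hpp := Par_Cor (idx p) hp (mem_Dom_idx p)
  have hRm : sglobR L p ∈ carrier K := (L _).memR _
  have hTm : ∀ x, sglobT L p x ∈ Tan (sglobR L p) := fun x => (sglob_Tmem _ _ _).1
  have hJv := S.mem p hp v hv
  have hJJ := sglob_JJJ (S := S) hp hv
  rw [S.form _ hRm _ (hTm v) _ (hTm w), S.form p hp v hv w hw]
  have h3 := sglob_TJ (L (idx p)) (Cor (idx p) p) (v := v) (by rw [hpp]; exact hv)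
  rw [hpp] at h3
  have h4 : S.J (sglobR L p) (sglobT L p v) = sglobT L p (S.J p v) := h3
  rw [h4]
  congr 1
  have memA := (L (idx p)).memA (Cor (idx p) p)
  have JJA := (L (idx p)).JJA (Cor (idx p) p)
  have unitA := (L (idx p)).unitA (Cor (idx p) p)
  have memB : (L (idx p)).B (Cor (idx p) p) ∈ Tan (sglobR L p) := (L (idx p)).memB (Cor (idx p) p)
  have JJB : S.J (sglobR L p) (S.J (sglobR L p) ((L (idx p)).B (Cor (idx p) p))) =
    - (L (idx p)).B (Cor (idx p) p) := (L (idx p)).JJB (Cor (idx p) p)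
  have unitB : gm G (sglobR L p) ((L (idx p)).B (Cor (idx p) p)) ((L (idx p)).B (Cor (idx p) p)) =
    1 := (L (idx p)).unitB (Cor (idx p) p)
  rw [hpp] at memA JJA unitA
  have hB := sglob_gmJ hRm memB JJB unitB
  have hx := sglob_expand hp memA JJA unitA hJv hJJ
  have hT : ∀ x, sglobT L p x =
      gm G p x ((L (idx p)).A (Cor (idx p) p)) • (L (idx p)).B (Cor (idx p) p) +
        gm G p x (S.J p ((L (idx p)).A (Cor (idx p) p))) •
          S.J (sglobR L p) ((L (idx p)).B (Cor (idx p) p)) := by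
    intro x
    unfold sglobT LocR.T
    rw [hpp]
    rfl
  rw [hT (S.J p v), hT w]
  conv_rhs => rw [hx]
  simp only [gm_add, gm_smul, skey_gm_add_right, skey_gm_smul_right, unitB, hB.1, hB.2.1, hB.2.2]
  rw [gm_symm w, gm_symm w]
  ring

end glob

/-- the derivative of a retraction onto `M` is the identity on tangent vectors -/
theorem sglob_dr {r : V K → V K} (hr : ∀ p ∈ carrier K, r p = p) {p v : V K}
    (hd : DifferentiableAt ℝ r p) (hp : p ∈ carrier K) (hv : v ∈ Tan p) :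
    fderiv ℝ r p v = v := by
  have hpp := Par_Cor (idx p) hp (mem_Dom_idx p)
  obtain ⟨u, rfl⟩ := (mem_Tan_iff (idx p) hp (mem_Dom_idx p) v).1 hv
  have h1 : (fun y : E K => r (Par (idx p) y)) = Par (idx p) := by
    funext y
    exact hr _ (Par_mem _ y)
  have hd' : DifferentiableAt ℝ r (Par (idx p) (Cor (idx p) p)) := by
    rw [hpp]
    exact hd
  have h3 : fderiv ℝ (fun y : E K => r (Par (idx p) y)) (Cor (idx p) p) =
      (fderiv ℝ r (Par (idx p) (Cor (idx p) p))).comp (fderiv ℝ (Par (idx p)) (Cor (idx p) p)) :=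
    fderiv_comp _ hd' (differentiableAt_Par _ _)
  rw [h1, hpp] at h3
  exact (congrArg (fun L : E K →L[ℝ] V K => L u) h3).symm

/-- there is a point of `M` in all four charts (for instance `Par (false, false) (1, 1, 0)`) -/
theorem exists_base (K : ℕ) : ∃ q₀ : V K, q₀ ∈ carrier K ∧ ∀ i, q₀ ∈ Dom K i := by
  refine ⟨(1, 0, ((√2)⁻¹ : ℝ), ((√2)⁻¹ : ℝ), 0, 0), ⟨?_, ?_, ?_, ?_⟩, fun i => ⟨?_, ?_⟩⟩
  · simp
  · simp
  · simp
  · have h : (√2 : ℝ) ^ 2 = 2 := Real.sq_sqrt (by norm_num)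
    have h0 : (0 : ℝ) < √2 := Real.sqrt_pos.2 (by norm_num)
    simp only [pv0_apply, pv1_apply, px_apply, ps_apply, norm_zero, Complex.norm_real,
      Real.norm_eq_abs, sq_abs, inv_pow, h]
    norm_num
  · rw [pd_sym]
    simp
  · rw [ps_sym]
    simp

theorem exists_retraction {N : Conn G} {S : JStr G a} {q₀ e₀ : V K} (hq₀ : q₀ ∈ carrier K)
    (hq : ∀ i, q₀ ∈ Dom K i) (L : ∀ i, LocR N S i q₀ e₀) :
    ∃ (U : Set (V K)) (R : V K → V K), RetData U R S.J ∧ carrier K ⊆ U ∧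
      (∀ p ∈ U, R p ∈ carrier K) ∧
      (∀ (p₀ : V K) (s : ℝ × ℝ → V K), Sph K p₀ s →
        Per a.val (fun x => R (s x)) = Per a.val s) ∧
      ∀ p ∈ carrier K, R p = p → ∀ v, v ∈ LinearMap.range (fderiv ℝ R p : V K →ₗ[ℝ] V K) ↔
        (v ∈ Tan p ∧ S.J p (S.J p v) = - v) := by
  obtain ⟨U, r, hU, hcU, hrs, hrm, hrf⟩ := exists_ret K
  have hrd : ∀ p ∈ U, DifferentiableAt ℝ r p := fun p hp =>
    (hrs.contDiffAt (hU.mem_nhds hp)).differentiableAt (by simp)
  have hrm' : ∀ p ∈ U, ∀ᶠ z in 𝓝 p, r z ∈ carrier K := by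
    intro p hp
    filter_upwards [hU.mem_nhds hp] with z hz
    exact hrm z hz
  obtain ⟨R, hR⟩ : ∃ R : V K → V K, R = fun p => sglobR L (r p) := ⟨_, rfl⟩
  have hRm : ∀ p, R p ∈ carrier K := by
    intro p
    rw [hR]
    exact (L _).memR _
  have hdR : ∀ p ∈ U, ∀ v, fderiv ℝ R p v = sglobT L (r p) (fderiv ℝ r p v) := by
    intro p hp v
    rw [hR]
    exact (sglob_dRT hq₀ hq L (hrd p hp) (hrm' p hp) v).2
  have hRc : ∀ p ∈ carrier K, R p = sglobR L p := by
    intro p hp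
    rw [hR]
    simp only [hrf p hp]
  have hret : ∀ p, R (R p) = R p := by
    intro p
    rw [hRc _ (hRm p)]
    rw [hR]
    exact sglob_retr hq₀ hq L
  have hsm : ContDiffOn ℝ ∞ R U := by
    intro p hp
    refine ContDiffAt.contDiffWithinAt ?_
    have hd := mem_Dom_idx (r p)
    have h1 : R =ᶠ[𝓝 p] fun z => (L (idx (r p))).R (Cor (idx (r p)) (r z)) := by
      filter_upwards [hrm' p hp,
        (hrd p hp).continuousAt ((isOpen_Dom (idx (r p))).mem_nhds hd)] with z hz hz2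
      rw [hR]
      exact (sglob_chart hq₀ hq L hz hz2).1
    refine ContDiffAt.congr_of_eventuallyEq ?_ h1
    have h2 : ContDiffAt ℝ ∞ (Cor (idx (r p)) : V K → E K) (r p) :=
      (contDiffOn_Cor (idx (r p))).contDiffAt ((isOpen_Dom (idx (r p))).mem_nhds hd)
    have h3 : ContDiffAt ℝ ∞ r p := hrs.contDiffAt (hU.mem_nhds hp)
    exact (L (idx (r p))).smoothR.contDiffAt.comp p (h2.comp p h3)
  have hrange : ∀ p ∈ carrier K, R p = p →
      ∀ v, v ∈ LinearMap.range (fderiv ℝ R p : V K →ₗ[ℝ] V K) ↔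
        (v ∈ Tan p ∧ S.J p (S.J p v) = - v) := by
    intro p hp hRp v
    have hRp' : sglobR L p = p := by rw [← hRc p hp, hRp]
    have hpp := Par_Cor (idx p) hp (mem_Dom_idx p)
    constructor
    · rintro ⟨w, rfl⟩
      have h1 : (fderiv ℝ R p : V K →ₗ[ℝ] V K) w = sglobT L p (fderiv ℝ r p w) := by
        have h2 := hdR p (hcU hp) w
        rw [hrf p hp] at h2
        exact h2
      rw [h1]
      have h3 := sglob_Tmem (L (idx p)) (Cor (idx p) p) (fderiv ℝ r p w)
      have h4 : (L (idx p)).R (Cor (idx p) p) = p := hRp'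
      rw [h4] at h3
      exact h3
    · rintro ⟨hv, hJv⟩
      have memA := (L (idx p)).memA (Cor (idx p) p)
      have JJA := (L (idx p)).JJA (Cor (idx p) p)
      have unitA := (L (idx p)).unitA (Cor (idx p) p)
      have memB := (L (idx p)).memB (Cor (idx p) p)
      have JJB := (L (idx p)).JJB (Cor (idx p) p)
      have unitB := (L (idx p)).unitB (Cor (idx p) p)
      have h4 : (L (idx p)).R (Cor (idx p) p) = p := hRp'
      rw [hpp] at memA JJA unitA
      rw [h4] at memB JJB unitB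
      have hA := sglob_gmJ hp memA JJA unitA
      have hx := sglob_expand hp memB JJB unitB hv hJv
      refine ⟨gm G p v ((L (idx p)).B (Cor (idx p) p)) • (L (idx p)).A (Cor (idx p) p) +
        gm G p v (S.J p ((L (idx p)).B (Cor (idx p) p))) •
          S.J p ((L (idx p)).A (Cor (idx p) p)), ?_⟩
      have hw : gm G p v ((L (idx p)).B (Cor (idx p) p)) • (L (idx p)).A (Cor (idx p) p) +
        gm G p v (S.J p ((L (idx p)).B (Cor (idx p) p))) •
          S.J p ((L (idx p)).A (Cor (idx p) p)) ∈ Tan p :=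
        Submodule.add_mem _ (Submodule.smul_mem _ _ memA)
          (Submodule.smul_mem _ _ (S.mem p hp _ memA))
      have h1 := hdR p (hcU hp) (gm G p v ((L (idx p)).B (Cor (idx p) p)) •
        (L (idx p)).A (Cor (idx p) p) + gm G p v (S.J p ((L (idx p)).B (Cor (idx p) p))) •
          S.J p ((L (idx p)).A (Cor (idx p) p)))
      rw [hrf p hp, sglob_dr hrf (hrd p (hcU hp)) hp hw] at h1
      refine Eq.trans h1 ?_
      unfold sglobT LocR.T
      rw [hpp, h4]
      simp only [gm_add, gm_smul, unitA, hA.1, hA.2.1, hA.2.2, mul_one, mul_zero, add_zero,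
        zero_add]
      exact hx.symm
  refine ⟨U, R, ⟨hU, hsm, fun p _ => hcU (hRm p), fun p _ => hret p, S.smooth.contDiffOn, ?_, ?_⟩,
    hcU, fun p _ => hRm p, ?_, hrange⟩
  · intro p _ hRp
    have hp : p ∈ carrier K := by
      rw [← hRp]
      exact hRm p
    have hRp' : sglobR L p = p := by rw [← hRc p hp, hRp]
    have h4 : (L (idx p)).R (Cor (idx p) p) = p := hRp'
    have memB := (L (idx p)).memB (Cor (idx p) p)
    have JJB := (L (idx p)).JJB (Cor (idx p) p)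
    have unitB := (L (idx p)).unitB (Cor (idx p) p)
    rw [h4] at memB JJB unitB
    obtain ⟨B, hB⟩ : ∃ B, B = (L (idx p)).B (Cor (idx p) p) := ⟨_, rfl⟩
    rw [← hB] at memB JJB unitB
    have hJ := sglob_gmJ hp memB JJB unitB
    have hspan : LinearMap.range (fderiv ℝ R p : V K →ₗ[ℝ] V K) =
        Submodule.span ℝ (Set.range ![B, S.J p B]) := by
      ext v
      rw [hrange p hp hRp v]
      constructor
      · rintro ⟨hv, hJv⟩
        rw [sglob_expand hp memB JJB unitB hv hJv]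
        refine Submodule.add_mem _ (Submodule.smul_mem _ _ (Submodule.subset_span ⟨0, rfl⟩))
          (Submodule.smul_mem _ _ (Submodule.subset_span ⟨1, rfl⟩))
      · intro hv
        refine Submodule.span_induction (p := fun v _ => v ∈ Tan p ∧ S.J p (S.J p v) = - v)
          ?_ ?_ ?_ ?_ hv
        · rintro x ⟨j, rfl⟩
          fin_cases j
          · exact ⟨memB, JJB⟩
          · refine ⟨S.mem p hp _ memB, ?_⟩
            change S.J p (S.J p (S.J p B)) = - S.J p B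
            rw [JJB, map_neg]
        · exact ⟨Submodule.zero_mem _, by simp⟩
        · rintro x y _ _ ⟨hx, hx'⟩ ⟨hy, hy'⟩
          refine ⟨Submodule.add_mem _ hx hy, ?_⟩
          rw [map_add, map_add, hx', hy']
          abel
        · rintro c x _ ⟨hx, hx'⟩
          refine ⟨Submodule.smul_mem _ _ hx, ?_⟩
          rw [map_smul, map_smul, hx', smul_neg]
    have hli : LinearIndependent ℝ ![B, S.J p B] := by
      rw [LinearIndependent.pair_iff]
      intro s t hst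
      have e1 : gm G p (s • B + t • S.J p B) B = 0 := by rw [hst, skey_gm_zero]
      have e2 : gm G p (s • B + t • S.J p B) (S.J p B) = 0 := by rw [hst, skey_gm_zero]
      simp only [gm_add, gm_smul, unitB, hJ.1, hJ.2.1, hJ.2.2] at e1 e2
      exact ⟨by linarith, by linarith⟩
    rw [hspan, finrank_span_eq_card hli]
    simp
  · intro p _ hRp v
    have hp : p ∈ carrier K := by
      rw [← hRp]
      exact hRm p
    obtain ⟨h1, h2⟩ := (hrange p hp hRp (fderiv ℝ R p v)).1 ⟨v, rfl⟩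
    refine ⟨(hrange p hp hRp _).2 ⟨S.mem p hp _ h1, sglob_JJJ hp h1⟩, h2⟩
  · intro p₀ s hs
    have h1 : (fun x => R (s x)) = fun x => sglobR L (s x) := by
      funext x
      exact hRc _ (hs.mem x)
    have hsd : ∀ z, DifferentiableAt ℝ s z := fun z => hs.smooth.differentiable (by simp) z
    have h2 : ∀ z w, fderiv ℝ (fun x => sglobR L (s x)) z w = sglobT L (s z) (fderiv ℝ s z w) :=
      fun z w => (sglob_dRT hq₀ hq L (hsd z) (Filter.Eventually.of_forall hs.mem) w).2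
    rw [h1]
    unfold Per
    have hTs : ∀ z w, fderiv ℝ s z w ∈ Tan (s z) := fun z w =>
      tan_of_map (hsd z) (Filter.Eventually.of_forall hs.mem) w
    have h3 : ∀ z : ℝ × ℝ, amb a.val (sglobR L (s z)) (sglobT L (s z) (fderiv ℝ s z (1, 0)))
        (sglobT L (s z) (fderiv ℝ s z (0, 1))) =
        amb a.val (s z) (fderiv ℝ s z (1, 0)) (fderiv ℝ s z (0, 1)) := fun z =>
      sglob_amb L (hs.mem z) (hTs z _) (hTs z _)
    simp only [h2, h3]

end Pool.Agent.H86.Nco
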