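import Pool.Agent.H86.Anco.Natural
import Pool.Agent.H86.Nco.HodgeStmt
import Pool.Agent.H86.Nco.PU
import Pool.Agent.H86.Nco.SDefs

/-!
# Module SJ: the partial complex structure of a parallel decomposable two-form

In the chart `i` let `𝒜 y` be the endomorphism with `g(𝒜 u, v) = a(u, v)`; smooth in `y` (inverse of
the metric, `isInvertible_of_pos`, `contDiffAt_map_inverse` as in `Anco/Local.lean`), skew, parallel
(`∇g = 0`, `∇a = 0`), and compatible with the transition maps.

Algebra at one point.  Let `e_k` be `g`-orthonormal, `2 μ = ∑_k g(𝒜 e_k, 𝒜 e_k)`.  Summing `wsq = 0` for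
`(u₁, u₂, e_k, 𝒜 e_k)` over `k` gives `2 μ g(𝒜u₁, u₂) + 2 g(𝒜³u₁, u₂) = 0`, so `𝒜³ = - μ 𝒜`.
(Alternatively: `a ∧ a = 0` and `a(u₁, u₂) ≠ 0` imply `a(u, v) = (α ∧ β)(u, v)` with
`α = a(u₁, .)/a(u₁, u₂)`, `β = a(u₂, .)`.)
`μ` is constant on `M`: `∇𝒜 = 0` makes it locally constant in each chart `E K` (connected), and the
charts overlap.  It is positive because `a ≠ 0` somewhere.  `lam = √μ`, `Jl = 𝒜 / lam`: `Jl³ = - Jl`,
skew.  `P = - Jl²` is the orthogonal projection onto the range of `Jl`; its trace is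
`∑ g(Jl e_k, Jl e_k) = 2`, so the range is two dimensional and has an orthonormal basis `f₀, Jl f₀`;
complete it by an orthonormal basis of `ker Jl = (range Jl)^⊥`.
The ambient `J` is obtained from `exists_ext` with `Φ i p = DPar_i ∘ Jl_i (Cor i p) ∘ DCor_i (p)`.
-/

open scoped Manifold ContDiff Bundle Topology

noncomputable section

namespace Pool.Agent.H86.Nco.SJ


set_option linter.unusedSectionVars false

variable {E : Type*} [NormedAddCommGroup E] [NormedSpace ℝ E] [FiniteDimensional ℝ E] {n : ℕ}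

lemma exists_ob (B : E →L[ℝ] E →L[ℝ] ℝ) (hs : ∀ u v, B u v = B v u)
    (hp : ∀ u, u ≠ 0 → 0 < B u u) (hn : Module.finrank ℝ E = n) :
    ∃ b : Module.Basis (Fin n) ℝ E, ∀ j k, B (b j) (b k) = if j = k then 1 else 0 := by
  subst hn
  let B' : LinearMap.BilinForm ℝ E := LinearMap.mk₂ ℝ (fun u v => B u v)
    (by intros; simp) (by intros; simp) (by intros; simp) (by intros; simp)
  have hB' : ∀ u v, B' u v = B u v := fun u v => rfl
  have hsym : B'.IsSymm := ⟨fun u v => by simp [hB', hs u v]⟩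
  obtain ⟨v, hv⟩ := LinearMap.BilinForm.exists_orthogonal_basis (LinearMap.BilinForm.isSymm_iff.1 hsym)
  have hv0 : ∀ i, 0 < B (v i) (v i) := fun i => hp _ (v.ne_zero i)
  have hw : ∀ i, IsUnit ((√(B (v i) (v i)))⁻¹) := fun i =>
    (isUnit_iff_ne_zero.2 (inv_ne_zero (Real.sqrt_pos.2 (hv0 i)).ne'))
  refine ⟨v.isUnitSMul hw, fun j k => ?_⟩
  rw [Module.Basis.isUnitSMul_apply, Module.Basis.isUnitSMul_apply]
  simp only [map_smul, smul_apply, smul_eq_mul]
  by_cases hjk : j = k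
  · subst hjk
    rw [if_pos rfl]
    have h1 := Real.mul_self_sqrt (hv0 j).le
    have h2 := (Real.sqrt_pos.2 (hv0 j)).ne'
    field_simp
    nlinarith [h1]
  · rw [if_neg hjk]
    have h := hv hjk
    have h' : B (v j) (v k) = 0 := h
    rw [h']
    ring

lemma expand {B : E →L[ℝ] E →L[ℝ] ℝ} {b : Module.Basis (Fin n) ℝ E}
    (hb : ∀ j k, B (b j) (b k) = if j = k then 1 else 0) (v : E) :
    v = ∑ k, B v (b k) • b k := by
  have h1 : ∀ k, B v (b k) = b.repr v k := by
    intro k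
    conv_lhs => rw [← b.sum_repr v]
    rw [map_sum, sum_apply]
    simp only [map_smul, smul_apply, smul_eq_mul, hb]
    simp
  simp only [h1]
  exact (b.sum_repr v).symm

lemma parseval {B : E →L[ℝ] E →L[ℝ] ℝ} {b : Module.Basis (Fin n) ℝ E}
    (hb : ∀ j k, B (b j) (b k) = if j = k then 1 else 0) (u v : E) :
    B u v = ∑ k, B u (b k) * B v (b k) := by
  conv_lhs => rw [expand hb v]
  rw [map_sum]
  apply Finset.sum_congr rfl
  intro k _
  simp only [map_smul, smul_eq_mul]
  ring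

lemma trace_eq {B : E →L[ℝ] E →L[ℝ] ℝ} {b : Module.Basis (Fin n) ℝ E}
    (hb : ∀ j k, B (b j) (b k) = if j = k then 1 else 0) (T : E →ₗ[ℝ] E) :
    LinearMap.trace ℝ E T = ∑ k, B (T (b k)) (b k) := by
  rw [LinearMap.trace_eq_matrix_trace ℝ b T, Matrix.trace]
  apply Finset.sum_congr rfl
  intro k _
  rw [Matrix.diag_apply, LinearMap.toMatrix_apply]
  have h1 : ∀ v k, B v (b k) = b.repr v k := by
    intro v k
    conv_lhs => rw [← b.sum_repr v]
    rw [map_sum, sum_apply]
    simp only [map_smul, smul_apply, smul_eq_mul, hb]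
    simp
  rw [h1]

/-- the coefficient `μ` -/
def mu (A : E →L[ℝ] E) : ℝ := -(1 / 2) * LinearMap.trace ℝ E ((A.comp A : E →L[ℝ] E) : E →ₗ[ℝ] E)

lemma mu_eq {B : E →L[ℝ] E →L[ℝ] ℝ} {b : Module.Basis (Fin n) ℝ E}
    (hb : ∀ j k, B (b j) (b k) = if j = k then 1 else 0) {A : E →L[ℝ] E}
    (hA : ∀ u v, B (A u) v = - B u (A v)) :
    2 * mu A = ∑ k, B (A (b k)) (A (b k)) := by
  rw [mu, trace_eq hb]
  have : ∀ k, B (((A.comp A : E →L[ℝ] E) : E →ₗ[ℝ] E) (b k)) (b k) = - B (A (b k)) (A (b k)) := by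
    intro k
    change B (A (A (b k))) (b k) = _
    rw [hA]
  simp only [this]
  rw [Finset.sum_neg_distrib]
  ring

lemma cube_eq {B : E →L[ℝ] E →L[ℝ] ℝ} (hs : ∀ u v, B u v = B v u) (hp : ∀ u, u ≠ 0 → 0 < B u u)
    {A : E →L[ℝ] E} (hA : ∀ u v, B (A u) v = - B u (A v))
    (hw : ∀ u₁ u₂ u₃ u₄, B (A u₁) u₂ * B (A u₃) u₄ - B (A u₁) u₃ * B (A u₂) u₄
      + B (A u₁) u₄ * B (A u₂) u₃ = 0) (u : E) : A (A (A u)) = -(mu A) • A u := by
  obtain ⟨b, hb⟩ := exists_ob B hs hp rfl
  have key : ∀ w, B (A (A (A u)) + (mu A) • A u) w = 0 := by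
    intro w
    have h1 : ∑ k, (B (A u) w * B (A (b k)) (A (b k)) - B (A u) (b k) * B (A w) (A (b k))
      + B (A u) (A (b k)) * B (A w) (b k)) = 0 :=
      Finset.sum_eq_zero fun k _ => hw u w (b k) (A (b k))
    rw [Finset.sum_add_distrib, Finset.sum_sub_distrib, ← Finset.mul_sum, ← mu_eq hb hA] at h1
    have h2 : ∑ k, B (A u) (b k) * B (A w) (A (b k)) = - B (A (A (A u))) w := by
      have e1 : ∀ k, B (A u) (b k) * B (A w) (A (b k)) = - (B (A u) (b k) * B (A (A w)) (b k)) := by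
        intro k
        rw [hA (A w) (b k)]
        ring
      simp only [e1]
      rw [Finset.sum_neg_distrib, ← parseval hb, hA (A (A u)) w, hA (A u) (A w), neg_neg]
    have h3 : ∑ k, B (A u) (A (b k)) * B (A w) (b k) = B (A (A (A u))) w := by
      have e1 : ∀ k, B (A u) (A (b k)) * B (A w) (b k) = - (B (A (A u)) (b k) * B (A w) (b k)) := by
        intro k
        rw [hA (A u) (b k)]
        ring
      simp only [e1]
      rw [Finset.sum_neg_distrib, ← parseval hb, hA (A (A u)) w]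
    rw [h2, h3] at h1
    simp only [map_add, map_smul, add_apply, smul_apply,
      smul_eq_mul]
    linarith
  have h0 : A (A (A u)) + (mu A) • A u = 0 := by
    by_contra hne
    have := hp _ hne
    rw [key] at this
    exact lt_irrefl _ this
  rw [neg_smul]
  exact eq_neg_of_add_eq_zero_left h0

lemma mu_nonneg {B : E →L[ℝ] E →L[ℝ] ℝ} (hs : ∀ u v, B u v = B v u)
    (hp : ∀ u, u ≠ 0 → 0 < B u u)
    {A : E →L[ℝ] E} (hA : ∀ u v, B (A u) v = - B u (A v)) (h0 : ∃ u, A u ≠ 0) : 0 < mu A := by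
  obtain ⟨b, hb⟩ := exists_ob B hs hp rfl
  have h1 := mu_eq hb hA
  have hnn : ∀ v, 0 ≤ B v v := by
    intro v
    by_cases hv : v = 0
    · subst hv; simp
    · exact (hp v hv).le
  obtain ⟨k, hk⟩ : ∃ k, A (b k) ≠ 0 := by
    by_contra hcon
    push Not at hcon
    obtain ⟨u, hu⟩ := h0
    apply hu
    rw [expand hb u, map_sum]
    apply Finset.sum_eq_zero
    intro k _
    rw [map_smul, hcon, smul_zero]
  have h2 : 0 < ∑ k, B (A (b k)) (A (b k)) :=
    Finset.sum_pos' (fun k _ => hnn _) ⟨k, Finset.mem_univ _, hp _ hk⟩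
  linarith

/-- completion of an orthonormal pair -/
lemma exists_frame {B : E →L[ℝ] E →L[ℝ] ℝ} (hs : ∀ u v, B u v = B v u)
    (hp : ∀ u, u ≠ 0 → 0 < B u u) {m : ℕ} (hn : Module.finrank ℝ E = m + 2) {x y : E}
    (hx : B x x = 1) (hy : B y y = 1) (hxy : B x y = 0) :
    ∃ e : Fin (m + 2) → E, (∀ j k, B (e j) (e k) = if j = k then 1 else 0) ∧ e 0 = x ∧ e 1 = y := by
  obtain ⟨b, hb⟩ := exists_ob B hs hp hn
  let φ : E ≃ₗ[ℝ] EuclideanSpace ℝ (Fin (m + 2)) :=
    b.equivFun.trans (WithLp.linearEquiv 2 ℝ (Fin (m + 2) → ℝ)).symm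
  have hφ : ∀ u v, B u v = inner ℝ (φ u) (φ v) := by
    intro u v
    rw [parseval hb u v, EuclideanSpace.inner_eq_star_dotProduct]
    have h1 : ∀ v k, B v (b k) = b.repr v k := by
      intro v k
      conv_lhs => rw [← b.sum_repr v]
      rw [map_sum, sum_apply]
      simp only [map_smul, smul_apply, smul_eq_mul, hb]
      simp
    simp only [dotProduct, h1]
    apply Finset.sum_congr rfl
    intro k _
    simp [φ]
    ring
  let v : Fin (m + 2) → EuclideanSpace ℝ (Fin (m + 2)) := fun j => if j = 0 then φ x else φ y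
  have hv : Orthonormal ℝ (({0, 1} : Set (Fin (m + 2))).domRestrict v) := by
    rw [orthonormal_iff_ite]
    rintro ⟨i, hi⟩ ⟨j, hj⟩
    have h01 : (1 : Fin (m + 2)) ≠ 0 := by simp
    simp only [Set.mem_insert_iff, Set.mem_singleton_iff] at hi hj
    simp only [Set.domRestrict_apply, Subtype.mk.injEq, v]
    rcases hi with rfl | rfl <;> rcases hj with rfl | rfl
    · simp only [if_true]
      rw [← hφ, hx]
    · rw [if_pos rfl, if_neg h01, if_neg h01.symm, ← hφ, hxy]
    · rw [if_pos rfl, if_neg h01, if_neg h01, ← hφ, hs y x, hxy]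
    · rw [if_neg h01, if_pos rfl, ← hφ, hy]
  obtain ⟨c, hc⟩ := hv.exists_orthonormalBasis_extension_of_card_eq (by simp)
  refine ⟨fun j => φ.symm (c j), fun j k => ?_, ?_, ?_⟩
  · rw [hφ, LinearEquiv.apply_symm_apply, LinearEquiv.apply_symm_apply]
    exact orthonormal_iff_ite.1 c.orthonormal j k
  · simp only
    rw [hc 0 (by simp)]
    simp [v]
  · simp only
    rw [hc 1 (by simp)]
    simp [v]

/-- adapted frames -/
lemma exists_adapted {B : E →L[ℝ] E →L[ℝ] ℝ} (hs : ∀ u v, B u v = B v u)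
    (hp : ∀ u, u ≠ 0 → 0 < B u u) {m : ℕ} (hn : Module.finrank ℝ E = m + 2)
    {J : E →L[ℝ] E} (hJ : ∀ u v, B (J u) v = - B u (J v))
    (hw : ∀ u₁ u₂ u₃ u₄, B (J u₁) u₂ * B (J u₃) u₄ - B (J u₁) u₃ * B (J u₂) u₄
      + B (J u₁) u₄ * B (J u₂) u₃ = 0) (hcube : ∀ u, J (J (J u)) = - J u) (h0 : ∃ u, J u ≠ 0) :
    ∃ e : Fin (m + 2) → E, (∀ j k, B (e j) (e k) = if j = k then 1 else 0) ∧ J (e 0) = e 1 ∧
      J (e 1) = - e 0 ∧ ∀ j : Fin m, J (e j.succ.succ) = 0 := by
  obtain ⟨u, hu⟩ := h0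
  have hpos := hp _ hu
  set r := √(B (J u) (J u)) with hr
  have hr0 : 0 < r := Real.sqrt_pos.2 hpos
  have hrr : r * r = B (J u) (J u) := Real.mul_self_sqrt hpos.le
  let x : E := r⁻¹ • J u
  let y : E := J x
  have hx : B x x = 1 := by
    simp only [x, map_smul, smul_apply, smul_eq_mul]
    rw [← hrr]
    field_simp
  have hJJx : J y = - x := by
    simp only [x, y, map_smul, hcube, smul_neg]
  have hy : B y y = 1 := by
    change B (J x) y = 1
    rw [hJ, hJJx, map_neg, neg_neg, hx]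
  have hxy : B x y = 0 := by
    have h1 : B (J x) x = - B x (J x) := hJ x x
    rw [hs] at h1
    change B x (J x) = 0
    linarith
  obtain ⟨e, he, he0, he1⟩ := exists_frame hs hp hn hx hy hxy
  refine ⟨e, he, ?_, ?_, fun j => ?_⟩
  · rw [he0, he1]
  · rw [he1, he0, hJJx]
  · have hj0 : (0 : Fin (m + 2)) ≠ j.succ.succ := (Fin.succ_ne_zero _).symm
    have hj1 : (1 : Fin (m + 2)) ≠ j.succ.succ := by
      intro h
      have := congrArg Fin.val h
      simp at this
    have e0 : B x (e j.succ.succ) = 0 := by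
      rw [← he0, he, if_neg hj0]
    have e1 : B y (e j.succ.succ) = 0 := by
      rw [← he1, he, if_neg hj1]
    by_contra hne
    have h1 := hp _ hne
    have h2 := hw x y (e j.succ.succ) (J (e j.succ.succ))
    have h3 : B (J x) y = 1 := hy
    have h4 : B (J x) (e j.succ.succ) = 0 := e1
    have h5 : B (J y) (e j.succ.succ) = 0 := by
      rw [hJJx, map_neg, neg_apply, e0, neg_zero]
    rw [h3, h4, h5] at h2
    linarith


end Pool.Agent.H86.Nco.SJ

namespace Pool.Agent.H86.Nco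

open Pool.Agent.H86.Anco

variable {K : ℕ}

namespace SJ

lemma g_metric (G : Met K) (i : Ix) (y u v w : E K) :
    fderiv ℝ (G.g i) y u v w =
      G.g i y (chr (G.g i) y u v) w + G.g i y v (chr (G.g i) y u w) := by
  have hd : ∀ u, DifferentiableAt ℝ (G.g i) u := fun u =>
    (G.smooth i).differentiable (by simp) u
  have hsym : ∀ a b c, fderiv ℝ (G.g i) y a b c = fderiv ℝ (G.g i) y a c b := by
    intro a b c
    have h1 := ((hd y).hasFDerivAt.clm_apply (hasFDerivAt_const b y)).clm_apply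
      (hasFDerivAt_const c y)
    have h2 := ((hd y).hasFDerivAt.clm_apply (hasFDerivAt_const c y)).clm_apply
      (hasFDerivAt_const b y)
    have h3 : (fun z => G.g i z b c) = fun z => G.g i z c b := funext fun z => G.symm i z b c
    rw [h3] at h1
    have h4 := congrArg (fun L => L a) (h1.unique h2)
    simpa using h4
  rw [apply_chr (G.pos i y), G.symm i y v, apply_chr (G.pos i y), chr1_apply, chr1_apply,
    hsym u w v, hsym w u v]
  ring

/-- the endomorphism field belonging to `a` -/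
def AA (G : Met K) (a : Form2 K) (i : Ix) (y : E K) : E K →L[ℝ] E K :=
  ((G.g i y).inverse).comp (a.val i y)

lemma g_AA (G : Met K) (a : Form2 K) (i : Ix) (y u v : E K) :
    G.g i y (AA G a i y u) v = a.val i y u v := by
  unfold AA
  rw [ContinuousLinearMap.comp_apply,
    (isInvertible_of_pos (G.g i y) (G.pos i y)).self_apply_inverse]

lemma contDiff_AA (G : Met K) (a : Form2 K) (i : Ix) : ContDiff ℝ ∞ (AA G a i) := by
  rw [contDiff_iff_contDiffAt]
  intro y
  have h1 : ContDiffAt ℝ ∞ (fun z => (G.g i z).inverse) y :=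
    ((isInvertible_of_pos (G.g i y) (G.pos i y)).contDiffAt_map_inverse).comp y
      (G.smooth i).contDiffAt
  exact h1.clm_comp (a.smooth i).contDiffAt

lemma AA_skew (G : Met K) (a : Form2 K) (i : Ix) (y u v : E K) :
    G.g i y (AA G a i y u) v = - G.g i y u (AA G a i y v) := by
  rw [g_AA, G.symm i y u, g_AA, a.alt]

lemma g_ext (G : Met K) (i : Ix) (y : E K) {u v : E K} (h : ∀ w, G.g i y u w = G.g i y v w) :
    u = v := by
  by_contra hne
  have h1 := G.pos i y _ (sub_ne_zero.2 hne)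
  have h2 : G.g i y (u - v) (u - v) = G.g i y u (u - v) - G.g i y v (u - v) := by
    simp only [map_sub, sub_apply]
    ring
  rw [h2, h, sub_self] at h1
  exact lt_irrefl _ h1

/-- `𝒜` is parallel -/
lemma AA_par (G : Met K) (a : Form2 K) (ha : Parallel G a) (i : Ix) (y u v : E K) :
    fderiv ℝ (AA G a i) y u v =
      AA G a i y (chr (G.g i) y u v) - chr (G.g i) y u (AA G a i y v) := by
  apply g_ext G i y
  intro w
  have hA := ((contDiff_AA G a i).differentiable (by simp) y).hasFDerivAt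
  have hg := ((G.smooth i).differentiable (by simp) y).hasFDerivAt
  have haa := ((a.smooth i).differentiable (by simp) y).hasFDerivAt
  have h1 := (hg.clm_apply (hA.clm_apply (hasFDerivAt_const v y))).clm_apply
    (hasFDerivAt_const w y)
  have h2 := (haa.clm_apply (hasFDerivAt_const v y)).clm_apply (hasFDerivAt_const w y)
  have h3 : (fun z => G.g i z (AA G a i z v) w) = fun z => a.val i z v w :=
    funext fun z => g_AA G a i z v w
  rw [h3] at h1
  have h4 := congrArg (fun L => L u) (h1.unique h2)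
  simp only [add_apply, ContinuousLinearMap.comp_apply,
    ContinuousLinearMap.flip_apply, zero_apply, map_zero, zero_add] at h4
  have h5 := ha i y u v w
  unfold cd at h5
  have h6 := g_metric G i y u (AA G a i y v) w
  rw [h6] at h4
  rw [map_sub, sub_apply, g_AA]
  have h7 := g_AA G a i y v (chr (G.g i) y u w)
  linarith

/-- compatibility with the transition maps -/
lemma AA_tr (G : Met K) (a : Form2 K) (i j : Ix) {y : E K} (hy : y ∈ ov K i j) (u : E K) :
    AA G a j (tr i j y) (fderiv ℝ (tr i j) y u) = fderiv ℝ (tr i j) y (AA G a i y u) := by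
  apply g_ext G j (tr i j y)
  intro w
  have hw : fderiv ℝ (tr i j) y (fderiv ℝ (tr j i) (tr i j y) w) = w := by
    have h := fderiv_tr_tr j i (tr_mem i j hy) w
    rwa [tr_tr i j hy] at h
  rw [← hw, g_AA, ← G.compat i j y hy, ← a.compat i j y hy, g_AA]

lemma AA_wsq (G : Met K) (a : Form2 K) (hw : Decomposable a) (i : Ix) (y : E K)
    (u₁ u₂ u₃ u₄ : E K) : G.g i y (AA G a i y u₁) u₂ * G.g i y (AA G a i y u₃) u₄
      - G.g i y (AA G a i y u₁) u₃ * G.g i y (AA G a i y u₂) u₄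
      + G.g i y (AA G a i y u₁) u₄ * G.g i y (AA G a i y u₂) u₃ = 0 := by
  simp only [g_AA]
  exact hw i y u₁ u₂ u₃ u₄

/-- `tr 𝒜²` as a function on the chart is constant -/
lemma mu_const (G : Met K) (a : Form2 K) (ha : Parallel G a) (i : Ix) (y z : E K) :
    mu (AA G a i y) = mu (AA G a i z) := by
  have hT : ∃ T : (E K →L[ℝ] E K) →L[ℝ] ℝ, ∀ A, T A = LinearMap.trace ℝ (E K) (A : E K →ₗ[ℝ] E K) :=
    ⟨LinearMap.toContinuousLinearMap ((LinearMap.trace ℝ (E K)).comp
      (ContinuousLinearMap.coeLM ℝ)), fun A => rfl⟩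
  obtain ⟨T, hT⟩ := hT
  have hcomm : ∀ A B : E K →L[ℝ] E K, T (A.comp B) = T (B.comp A) := by
    intro A B
    rw [hT, hT]
    exact LinearMap.trace_mul_comm ℝ (A : E K →ₗ[ℝ] E K) (B : E K →ₗ[ℝ] E K)
  have hd : ∀ x, HasFDerivAt (fun z => mu (AA G a i z)) (0 : E K →L[ℝ] ℝ) x := by
    intro x
    have hA := ((contDiff_AA G a i).differentiable (by simp) x).hasFDerivAt
    have h1 := T.hasFDerivAt.comp x (hA.clm_comp hA)
    have h2 := h1.const_mul (-(1 / 2) : ℝ)
    have h3 : (fun z => mu (AA G a i z)) =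
        fun z => -(1 / 2) * (T ∘ fun z => (AA G a i z).comp (AA G a i z)) z := by
      funext z
      rw [mu, Function.comp, hT]
    rw [h3]
    refine h2.congr_fderiv (ContinuousLinearMap.ext fun u => ?_)
    let Γ : E K →L[ℝ] E K := Natural.chrB (G.g i) x u
    have h4 : fderiv ℝ (AA G a i) x u = (AA G a i x).comp Γ - Γ.comp (AA G a i x) :=
      ContinuousLinearMap.ext fun v => AA_par G a ha i x u v
    have h5 : T ((AA G a i x).comp (fderiv ℝ (AA G a i) x u)
        + (fderiv ℝ (AA G a i) x u).comp (AA G a i x)) = 0 := by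
      rw [h4, ContinuousLinearMap.comp_sub, ContinuousLinearMap.sub_comp, map_add, map_sub,
        map_sub, hcomm (AA G a i x) ((AA G a i x).comp Γ), hcomm (AA G a i x) (Γ.comp (AA G a i x)),
        hcomm ((AA G a i x).comp Γ) (AA G a i x),
        ← ContinuousLinearMap.comp_assoc]
      have h6 : T ((Γ.comp (AA G a i x)).comp (AA G a i x)) =
          T (((AA G a i x).comp (AA G a i x)).comp Γ) := by
        rw [hcomm ((AA G a i x).comp (AA G a i x)) Γ, ContinuousLinearMap.comp_assoc]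
      rw [h6]
      ring
    change -(1 / 2) * T ((AA G a i x).comp (fderiv ℝ (AA G a i) x u)
        + (fderiv ℝ (AA G a i) x u).comp (AA G a i x)) = 0
    rw [h5, mul_zero]
  exact is_const_of_fderiv_eq_zero (fun x => (hd x).differentiableAt)
    (fun x => (hd x).fderiv) y z

/-- invariance of `μ` under the transition maps -/
lemma mu_tr (G : Met K) (a : Form2 K) (i j : Ix) {y : E K} (hy : y ∈ ov K i j) :
    mu (AA G a j (tr i j y)) = mu (AA G a i y) := by
  have hD' : ∀ w, fderiv ℝ (tr i j) y (fderiv ℝ (tr j i) (tr i j y) w) = w := by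
    intro w
    have h := fderiv_tr_tr j i (tr_mem i j hy) w
    rwa [tr_tr i j hy] at h
  let e : E K ≃ₗ[ℝ] E K := LinearEquiv.ofLinearMap (fderiv ℝ (tr i j) y : E K →ₗ[ℝ] E K)
    (fderiv ℝ (tr j i) (tr i j y) : E K →ₗ[ℝ] E K)
    (LinearMap.ext fun w => hD' w) (LinearMap.ext fun w => fderiv_tr_tr i j hy w)
  have h1 : (((AA G a j (tr i j y)).comp (AA G a j (tr i j y)) : E K →L[ℝ] E K) : E K →ₗ[ℝ] E K)
      = e.conj (((AA G a i y).comp (AA G a i y) : E K →L[ℝ] E K) : E K →ₗ[ℝ] E K) := by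
    refine LinearMap.ext fun w => ?_
    rw [LinearEquiv.conj_apply]
    change AA G a j (tr i j y) (AA G a j (tr i j y) w) =
      fderiv ℝ (tr i j) y (AA G a i y (AA G a i y (fderiv ℝ (tr j i) (tr i j y) w)))
    rw [← AA_tr G a i j hy, ← AA_tr G a i j hy, hD']
  rw [mu, mu, h1, LinearMap.trace_conj']

lemma mu_all (G : Met K) (a : Form2 K) (ha : Parallel G a) (i j : Ix) (y z : E K) :
    mu (AA G a i y) = mu (AA G a j z) := by
  obtain ⟨x, hx⟩ := (isPathConnected_ov (K := K) i j).nonempty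
  rw [mu_const G a ha i y x, ← mu_tr G a i j hx, mu_const G a ha j]

lemma mu_pos (G : Met K) (a : Form2 K) (ha : Parallel G a)
    (hne : ∃ i y u v, a.val i y u v ≠ 0) (j : Ix) (z : E K) : 0 < mu (AA G a j z) := by
  obtain ⟨i, y, u, v, h⟩ := hne
  rw [mu_all G a ha j i z y]
  refine mu_nonneg (G.symm i y) (G.pos i y) (AA_skew G a i y) ⟨u, fun h0 => h ?_⟩
  rw [← g_AA G a i y u v, h0]
  simp

lemma AA_ne (G : Met K) (a : Form2 K) (ha : Parallel G a)
    (hne : ∃ i y u v, a.val i y u v ≠ 0) (j : Ix) (z : E K) : ∃ u, AA G a j z u ≠ 0 := by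
  by_contra hcon
  push Not at hcon
  have h0 : AA G a j z = 0 := ContinuousLinearMap.ext fun u => hcon u
  have h1 := mu_pos G a ha hne j z
  rw [h0, mu] at h1
  simp at h1

end SJ

open SJ in
theorem exists_J (G : Met K) (a : Form2 K) (ha : Parallel G a) (hw : Decomposable a)
    (hne : ∃ i y u v, a.val i y u v ≠ 0) : Nonempty (JStr G a) := by
  obtain ⟨m, hm⟩ : ∃ m : ℝ, ∀ i y, mu (AA G a i y) = m :=
    ⟨mu (AA G a (false, false) 0), fun i y => mu_all G a ha i _ y _⟩
  have hm0 : 0 < m := by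
    rw [← hm (false, false) 0]
    exact mu_pos G a ha hne _ _
  set lam := √m with hlam
  have hl0 : 0 < lam := Real.sqrt_pos.2 hm0
  have hll : lam * lam = m := Real.mul_self_sqrt hm0.le
  let Jl : Ix → E K → E K →L[ℝ] E K := fun i y => lam⁻¹ • AA G a i y
  have hJl : ∀ i y u, Jl i y u = lam⁻¹ • AA G a i y u := fun i y u => rfl
  have hJsm : ∀ i, ContDiff ℝ ∞ (Jl i) := fun i => (contDiff_AA G a i).const_smul _
  have hJtr : ∀ i j y, y ∈ ov K i j → ∀ u,
      Jl j (tr i j y) (fderiv ℝ (tr i j) y u) = fderiv ℝ (tr i j) y (Jl i y u) := by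
    intro i j y hy u
    rw [hJl, hJl, AA_tr G a i j hy, map_smul]
  let Φ : Ix → V K → V K →L[ℝ] V K := fun i p =>
    (fderiv ℝ (Par i) (Cor i p)).comp ((Jl i (Cor i p)).comp (fderiv ℝ (Cor i) p))
  have hΦ : ∀ i, ContDiffOn ℝ ∞ (Φ i) (Dom K i) := by
    intro i p hp
    apply ContDiffAt.contDiffWithinAt
    have hC : ContDiffAt ℝ ∞ (Cor i : V K → E K) p :=
      (contDiffOn_Cor i).contDiffAt ((isOpen_Dom i).mem_nhds hp)
    have hDC : ContDiffAt ℝ ∞ (fderiv ℝ (Cor i : V K → E K)) p :=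
      hC.fderiv_right (by exact_mod_cast le_top)
    have hDP : ContDiff ℝ ∞ (fderiv ℝ (Par i : E K → V K)) :=
      (contDiff_Par i).fderiv_right (by exact_mod_cast le_top)
    exact (hDP.contDiffAt.comp p hC).clm_comp (((hJsm i).contDiffAt.comp p hC).clm_comp hDC)
  obtain ⟨J, hJs, hJ⟩ := exists_ext Φ hΦ
  -- the value of `J` in the charts
  have hval : ∀ i y u, J (Par i y) (fderiv ℝ (Par i) y u) = fderiv ℝ (Par i) y (Jl i y u) := by
    intro i y u
    have h := hJ (Par i y) (ContinuousLinearMap.apply ℝ (V K) (fderiv ℝ (Par i) y u)).toLinearMap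
      (fderiv ℝ (Par i) y (Jl i y u)) ?_
    · exact h
    intro j hj
    have hy : y ∈ ov K i j := hj
    change fderiv ℝ (Par j) (Cor j (Par i y)) (Jl j (Cor j (Par i y))
      (fderiv ℝ (Cor j) (Par i y) (fderiv ℝ (Par i) y u))) = _
    have h1 : fderiv ℝ (Cor j) (Par i y) (fderiv ℝ (Par i) y u) = fderiv ℝ (tr i j) y u := by
      rw [← fderiv_Par_tr i j hy u, ← Par_tr i j hy, fderiv_Cor_Par]
    rw [h1]
    change fderiv ℝ (Par j) (tr i j y) (Jl j (tr i j y) (fderiv ℝ (tr i j) y u)) = _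
    rw [hJtr i j y hy, fderiv_Par_tr i j hy]
  have hpt : ∀ p ∈ carrier K, ∀ v ∈ Tan p, ∀ w ∈ Tan p, ∃ i y u u', p = Par i y ∧
      v = fderiv ℝ (Par i) y u ∧ w = fderiv ℝ (Par i) y u' := by
    intro p hp v hv w hv'
    have hpi := Par_Cor (idx p) hp (mem_Dom_idx p)
    obtain ⟨u, hu⟩ := (mem_Tan_iff (idx p) hp (mem_Dom_idx p) v).1 hv
    obtain ⟨u', hu'⟩ := (mem_Tan_iff (idx p) hp (mem_Dom_idx p) w).1 hv'
    exact ⟨idx p, Cor (idx p) p, u, u', hpi.symm, hu.symm, hu'.symm⟩
  have hskew : ∀ i y u v, G.g i y (Jl i y u) v = - G.g i y u (Jl i y v) := by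
    intro i y u v
    rw [hJl, hJl, map_smul, map_smul, smul_apply, smul_eq_mul, smul_eq_mul, AA_skew]
    ring
  refine ⟨⟨lam, J, hl0.ne', hJs, ?_, ?_, ?_, ?_, ?_⟩⟩
  · intro p hp v hv
    obtain ⟨i, y, u, -, rfl, rfl, -⟩ := hpt p hp v hv v hv
    rw [hval]
    exact (mem_Tan_Par i y _).2 ⟨_, rfl⟩
  · intro p hp v hv w hw'
    obtain ⟨i, y, u, u', rfl, rfl, rfl⟩ := hpt p hp v hv w hw'
    rw [hval, hval]
    unfold gm
    rw [amb_Par G.compat, amb_Par G.compat, hskew]
  · intro p hp v hv w hw'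
    obtain ⟨i, y, u, u', rfl, rfl, rfl⟩ := hpt p hp v hv w hw'
    rw [hval]
    unfold gm
    rw [amb_Par G.compat, amb_Par a.compat, hJl, map_smul, smul_apply, smul_eq_mul, g_AA]
    field_simp
  · intro p hp
    have hpi := Par_Cor (idx p) hp (mem_Dom_idx p)
    generalize idx p = i at hpi
    generalize Cor i p = y at hpi
    subst hpi
    have hcube : ∀ u, Jl i y (Jl i y (Jl i y u)) = - Jl i y u := by
      intro u
      simp only [hJl, map_smul]
      rw [cube_eq (G.symm i y) (G.pos i y) (AA_skew G a i y) (AA_wsq G a hw i y), hm,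
        smul_smul, smul_smul, smul_smul, ← hll, ← neg_smul]
      congr 1
      field_simp
    have hwJ : ∀ u₁ u₂ u₃ u₄, G.g i y (Jl i y u₁) u₂ * G.g i y (Jl i y u₃) u₄
        - G.g i y (Jl i y u₁) u₃ * G.g i y (Jl i y u₂) u₄
        + G.g i y (Jl i y u₁) u₄ * G.g i y (Jl i y u₂) u₃ = 0 := by
      intro u₁ u₂ u₃ u₄
      have h := AA_wsq G a hw i y u₁ u₂ u₃ u₄
      simp only [hJl, map_smul, smul_apply, smul_eq_mul]
      linear_combination (lam⁻¹ * lam⁻¹) * h
    have hne' : ∃ u, Jl i y u ≠ 0 := by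
      obtain ⟨u, hu⟩ := AA_ne G a ha hne i y
      exact ⟨u, by rw [hJl]; exact smul_ne_zero (inv_ne_zero hl0.ne') hu⟩
    obtain ⟨e, he, he0, he1, he2⟩ := exists_adapted (m := K + 2) (G.symm i y) (G.pos i y)
      finrank_E (hskew i y) hwJ hcube hne'
    refine ⟨fun j => fderiv ℝ (Par i) y (e j), ?_, ?_, ?_, ?_, ?_⟩
    · intro j
      exact (mem_Tan_Par i y _).2 ⟨_, rfl⟩
    · intro j k
      unfold gm
      rw [amb_Par G.compat]
      exact he j k
    · rw [hval]
      exact congrArg _ he0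
    · rw [hval]
      exact (congrArg _ he1).trans (map_neg _ _)
    · intro j
      rw [hval]
      exact (congrArg _ (he2 j)).trans (map_zero _)
  · intro i y u v
    have h1 : (fun z => fderiv ℝ (Cor i) (Par i z) (J (Par i z) (fderiv ℝ (Par i) z v))) =
        fun z => Jl i z v := by
      funext z
      rw [hval, fderiv_Cor_Par]
    rw [h1, hval, hval, fderiv_Cor_Par, fderiv_Cor_Par]
    have hA := ((contDiff_AA G a i).differentiable (by simp) y).hasFDerivAt
    have h2 : HasFDerivAt (fun z => Jl i z v) (lam⁻¹ • ((fderiv ℝ (AA G a i) y).flip v)) y := by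
      have := (hA.clm_apply (hasFDerivAt_const v y)).const_smul lam⁻¹
      refine this.congr_fderiv (ContinuousLinearMap.ext fun w => ?_)
      simp
    rw [h2.fderiv, smul_apply, ContinuousLinearMap.flip_apply, AA_par G a ha, hJl, hJl]
    have h3 : chr (G.g i) y u (lam⁻¹ • AA G a i y v) = lam⁻¹ • chr (G.g i) y u (AA G a i y v) := by
      rw [← Natural.chrB_apply, map_smul]
      rfl
    rw [h3, smul_sub]
    abel

end Pool.Agent.H86.Nco
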