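import Pool.Agent.H86.Nco.HodgeStmt
import Pool.Agent.H86.Nco.EvenDefs

/-!
# The splitting: statement

A parallel decomposable two-form `a ≠ 0` gives a retraction `R` of `M` onto a totally geodesic surface
with the properties used in `Final.lean`.
-/

open scoped Manifold ContDiff Bundle Topology

noncomputable section

namespace Pool.Agent.H86.Nco

open Pool.Agent.H86.Anco

variable {K : ℕ}

/-- Frames of `TM` along a sphere `s` in the surface, adapted to the splitting. -/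
structure SurfFrame (R : V K → V K) (J : V K → V K →L[ℝ] V K) (p₀ : V K) (s : ℝ × ℝ → V K)
    (E : ℝ × ℝ → V K) (F : ℝ × ℝ → Fin (K + 2) → V K) (ϑ : ℝ → ℝ) (e : ℤ) : Prop where
  smoothE : ContDiff ℝ ∞ E
  smoothF : ContDiff ℝ ∞ F
  smoothϑ : ContDiff ℝ ∞ ϑ
  memE : ∀ x, E x ∈ LinearMap.range (fderiv ℝ R (s x) : V K →ₗ[ℝ] V K)
  memF : ∀ x j, F x j ∈ Tan (s x)
  indep : ∀ x, LinearIndependent ℝ
    (Fin.cons (E x) (Fin.cons (J (s x) (E x)) (F x)) : Fin (K + 4) → V K)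
  outE : ∀ x, x.1 ≤ 0 ∨ x.2 ≤ 0 ∨ 1 ≤ x.2 → E x = E (0, 0)
  outF : ∀ x, x.1 ≤ 0 ∨ x.2 ≤ 0 ∨ 1 ≤ x.2 → F x = F (0, 0)
  sideE : ∀ t, E (1, t) = Real.cos (ϑ t) • E (0, 0) + Real.sin (ϑ t) • J p₀ (E (0, 0))
  sideF : ∀ t, F (1, t) = F (0, 0)
  zero : ϑ 0 = 0
  one : ϑ 1 = 2 * Real.pi * e

/-- The splitting lemma. -/
def LemS (K : ℕ) : Prop := ∀ (G : Met K) (a : Form2 K), Parallel G a → Decomposable a →
  (∃ i y u v, a.val i y u v ≠ 0) →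
  ∃ (U : Set (V K)) (R : V K → V K) (J : V K → V K →L[ℝ] V K),
    RetData U R J ∧ carrier K ⊆ U ∧ (∀ p ∈ U, R p ∈ carrier K) ∧
    (∀ (p₀ : V K) (s : ℝ × ℝ → V K), Sph K p₀ s → Per a.val (fun x => R (s x)) = Per a.val s) ∧
    ∀ (p₀ : V K) (s : ℝ × ℝ → V K), Sph K p₀ s → (∀ x, R (s x) = s x) →
      ∃ (E : ℝ × ℝ → V K) (F : ℝ × ℝ → Fin (K + 2) → V K) (ϑ : ℝ → ℝ) (e : ℤ),
        SurfFrame R J p₀ s E F ϑ e

end Pool.Agent.H86.Nco
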