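import Pool.Agent.H86.Nco.SCurv
import Pool.Agent.H86.Nco.SGlob
import Pool.Agent.H86.Nco.SJ
import Pool.Agent.H86.Nco.SplitStmt
import Pool.Agent.H86.Nco.Stokes

/-!
# Module SFRAME: frames along spheres in the surface

`s = R ∘ s`, so `∂_k s = DR(s) ∂_k s` is in `L1`.  Take an adapted frame `f` at `p₀` and parallel frames
`F_j` along the lines `x₂ = const` starting with `f` at `x₁ = 0` (`exists_transport` with `P = ℝ`, the
parameter is `x₂`, the time is `x₁`; note the order of the variables).  `E = F_0`, `J E = F_1`.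
For `x₁ ≤ 0`, `x₂ ≤ 0`, `1 ≤ x₂` the map `s` is constant along the line, so the frame is `f`.
`∇₁ ∇₂ F_j = ∇₂ ∇₁ F_j + Rm(∂₁s, ∂₂s) F_j = 0` for `j ≥ 2` (`KStr.curv2`), and `∇₂ F_j = 0` at `x₁ = 0`, so
`∇₂ F_j = 0` everywhere (uniqueness for the linear equation).  At `x₁ = 1`, `s = p₀` is constant in
`x₂`, so `∂₂ F_j (1, x₂) = 0` and `F_j (1, x₂) = F_j (1, 0) = f_j`.
`E (1, t)` is a unit vector of the plane `L1 (p₀)`, so `E (1, t) = α f_0 + β J f_0`, `α² + β² = 1`,
`α = gm E f_0`, `β = gm E f_1`; `exists_angle` for `u = α + i β`.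
-/

open scoped Manifold ContDiff Bundle Topology

noncomputable section

namespace Pool.Agent.H86.Nco

open Pool.Agent.H86.Anco

variable {K : ℕ} {G : Met K} {a : Form2 K}

/-! ### Preparations -/

namespace SFr

/-- uniqueness for linear equations -/
lemma lin_zero {H : Type*} [NormedAddCommGroup H] [NormedSpace ℝ H] {A : ℝ → H →L[ℝ] H}
    (hA : Continuous A) {y : ℝ → H} (hy : ∀ t, HasDerivAt y (A t (y t)) t) (h0 : y 0 = 0)
    {t : ℝ} (ht : t ∈ Set.Icc (0 : ℝ) 1) : y t = 0 := by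
  obtain ⟨C, hC⟩ := (isCompact_Icc (a := (0 : ℝ)) (b := 1)).exists_bound_of_continuousOn
    hA.continuousOn
  refine eq_zero_of_abs_deriv_le_mul_abs_self_of_eq_zero_right (K := C)
    (fun x _ => (hy x).continuousAt.continuousWithinAt)
    (fun x _ => (hy x).hasDerivWithinAt) h0 (fun x hx => ?_) t ht
  exact ((A x).le_opNorm (y x)).trans
    (mul_le_mul_of_nonneg_right (hC x (Set.Ico_subset_Icc_self hx)) (norm_nonneg _))

lemma hasDerivAt_right {H : Type*} [NormedAddCommGroup H] [NormedSpace ℝ H] {c : ℝ × ℝ → H}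
    (hc : Differentiable ℝ c) (b t : ℝ) :
    HasDerivAt (fun τ => c (b, τ)) (fderiv ℝ c (b, t) (0, 1)) t :=
  (hc (b, t)).hasFDerivAt.comp_hasDerivAt t ((hasDerivAt_const t b).prodMk (hasDerivAt_id t))

lemma hasDerivAt_left {H : Type*} [NormedAddCommGroup H] [NormedSpace ℝ H] {c : ℝ × ℝ → H}
    (hc : Differentiable ℝ c) (b t : ℝ) :
    HasDerivAt (fun τ => c (τ, t)) (fderiv ℝ c (b, t) (1, 0)) b :=
  (hc (b, t)).hasFDerivAt.comp_hasDerivAt b ((hasDerivAt_id b).prodMk (hasDerivAt_const b t))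

lemma fderiv_left_eq_zero {H : Type*} [NormedAddCommGroup H] [NormedSpace ℝ H] {c : ℝ × ℝ → H}
    (hc : Differentiable ℝ c) {t : ℝ} {h : H} (h1 : ∀ b, c (b, t) = h) (b : ℝ) :
    fderiv ℝ c (b, t) (1, 0) = 0 := by
  have h2 := hasDerivAt_left hc b t
  have h3 : (fun τ => c (τ, t)) = fun _ => h := funext h1
  rw [h3] at h2
  exact h2.unique (hasDerivAt_const b h)

lemma not_mem_Sq {b t : ℝ} (h : b ≤ 0 ∨ 1 ≤ b ∨ t ≤ 0 ∨ 1 ≤ t) : (t, b) ∉ Sq := by
  rintro ⟨⟨h1, h2⟩, h3, h4⟩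
  simp only at h1 h2 h3 h4
  rcases h with h | h | h | h <;> linarith

/-- parallel frames are constant along constant curves -/
lemma frame_const {N : Conn G} {p₀ : V K} {c : ℝ → V K} {F : ℝ → V K}
    (hF : ∀ t, HasDerivAt F (N.Γ (c t) (deriv c t) (F t)) t) (hc : ∀ t, c t = p₀) (t : ℝ) :
    F t = F 0 := by
  have h1 : ∀ t, deriv c t = 0 := by
    intro t
    have h : c = fun _ => p₀ := funext hc
    rw [h, deriv_const]
  apply is_const_of_deriv_eq_zero (fun t => (hF t).differentiableAt)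
  intro t
  rw [(hF t).deriv, h1, map_zero, zero_apply]

/-- parallel frames are constant along constant curves, on a half line -/
lemma frame_const_left {N : Conn G} {p₀ : V K} {c : ℝ → V K} {F : ℝ → V K}
    (hF : ∀ t, HasDerivAt F (N.Γ (c t) (deriv c t) (F t)) t) (hc : ∀ t ≤ 0, c t = p₀) {t : ℝ}
    (ht : t ≤ 0) : F t = F 0 := by
  have h1 : ∀ t < 0, deriv c t = 0 := by
    intro t ht
    have h : c =ᶠ[𝓝 t] fun _ => p₀ := by
      filter_upwards [Iio_mem_nhds ht] with x hx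
      exact hc x (le_of_lt hx)
    rw [h.deriv_eq, deriv_const]
  have h2 := constant_of_has_deriv_right_zero (f := F) (a := t) (b := 0)
    (fun x _ => (hF x).continuousAt.continuousWithinAt) (fun x hx => by
      have h3 := (hF x).hasDerivWithinAt (s := Set.Ici x)
      rw [h1 x hx.2, map_zero, zero_apply] at h3
      exact h3) 0 ⟨ht, le_rfl⟩
  exact h2.symm

end SFr

open SFr

theorem exists_surfFrame (N : Conn G) (S : JStr G a) (T : KStr G S) {U : Set (V K)}
    {R : V K → V K} (hD : RetData U R S.J) (hU : carrier K ⊆ U)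
    (hR : ∀ p ∈ U, R p ∈ carrier K)
    (hL1 : ∀ p ∈ carrier K, R p = p → ∀ v,
      v ∈ LinearMap.range (fderiv ℝ R p : V K →ₗ[ℝ] V K) ↔ (v ∈ Tan p ∧ S.J p (S.J p v) = - v))
    {p₀ : V K} {s : ℝ × ℝ → V K} (hs : Sph K p₀ s) (hsR : ∀ x, R (s x) = s x) :
    ∃ (E : ℝ × ℝ → V K) (F : ℝ × ℝ → Fin (K + 2) → V K) (ϑ : ℝ → ℝ) (e : ℤ),
      SurfFrame R S.J p₀ s E F ϑ e := by
  have _ := hR
  -- the map with the variables exchanged
  let c : ℝ × ℝ → V K := fun q => s (q.2, q.1)
  have hc : ContDiff ℝ ∞ c := hs.smooth.comp (contDiff_snd.prodMk contDiff_fst)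
  have hcd : Differentiable ℝ c := hc.differentiable (by simp)
  have hcm : ∀ q, c q ∈ carrier K := fun q => hs.mem _
  have hcR : ∀ q, R (c q) = c q := fun q => hsR _
  have hcout : ∀ b t, (b ≤ 0 ∨ 1 ≤ b ∨ t ≤ 0 ∨ 1 ≤ t) → c (b, t) = p₀ := fun b t h =>
    hs.out _ (not_mem_Sq h)
  have hp₀ : p₀ ∈ carrier K := by
    rw [← hcout 0 0 (Or.inl le_rfl)]
    exact hcm _
  obtain ⟨f, hf⟩ := S.basis p₀ hp₀
  have hc0 : ∀ b, c (b, 0) = p₀ := fun b => hcout b 0 (Or.inr (Or.inr (Or.inl le_rfl)))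
  have hc1 : ∀ b, c (b, 1) = p₀ := fun b => hcout b 1 (Or.inr (Or.inr (Or.inr le_rfl)))
  obtain ⟨F, hFs, hF0, hFad, hFd⟩ := exists_transport N S c hc hcm hc0 hf
  have hFj : ∀ j, ContDiff ℝ ∞ (fun q => F q j) := fun j => (contDiff_pi.1 hFs) j
  have hFjd : ∀ j, Differentiable ℝ (fun q => F q j) := fun j => (hFj j).differentiable (by simp)
  -- the frame is constant along the lines where `c` is constant
  have hFout : ∀ b t, (b ≤ 0 ∨ 1 ≤ b ∨ t ≤ 0) → F (b, t) = f := by
    intro b t h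
    rw [← hF0 b]
    funext j
    rcases h with h | h | h
    · exact frame_const (hFd b · j) (fun τ => hcout b τ (Or.inl h)) t
    · exact frame_const (hFd b · j) (fun τ => hcout b τ (Or.inr (Or.inl h))) t
    · exact frame_const_left (hFd b · j)
        (fun τ hτ => hcout b τ (Or.inr (Or.inr (Or.inl hτ)))) h
  -- derivatives of `c` are in `L1`
  have hJJ : ∀ q w, S.J (c q) (S.J (c q) (fderiv ℝ c q w)) = - fderiv ℝ c q w := by
    intro q w
    have h1 : DifferentiableAt ℝ R (c q) :=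
      (hD.smooth.contDiffAt (hD.isOpen.mem_nhds (hU (hcm q)))).differentiableAt (by simp)
    have h2 : HasFDerivAt (fun q => R (c q)) ((fderiv ℝ R (c q)).comp (fderiv ℝ c q)) q :=
      h1.hasFDerivAt.comp q (hcd q).hasFDerivAt
    have h3 : (fun q => R (c q)) = c := funext hcR
    rw [h3] at h2
    have h4 := congrArg (fun L : ℝ × ℝ →L[ℝ] V K => L w) h2.fderiv
    exact ((hL1 (c q) (hcm q) (hcR q) (fderiv ℝ c q w)).1 ⟨fderiv ℝ c q w, h4.symm⟩).2
  have htan : ∀ q w, fderiv ℝ c q w ∈ Tan (c q) := fun q w =>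
    tan_of_map (hcd q) (Filter.Eventually.of_forall hcm) w
  -- `F j` is parallel in the direction of `t`
  have hpar : ∀ j q, nab N.Γ c (fun q => F q j) q (0, 1) = 0 := by
    rintro j ⟨b, t⟩
    have h1 := (hasDerivAt_right (hFjd j) b t).unique (hFd b t j)
    rw [(hasDerivAt_right hcd b t).deriv] at h1
    unfold nab
    rw [h1, sub_self]
  -- and in the other direction for `j ≥ 2`
  have hpar2 : ∀ (j : Fin (K + 2)) (b : ℝ), fderiv ℝ (fun q => F q j.succ.succ) (b, 1) (1, 0) = 0 := by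
    intro j b
    let X : ℝ × ℝ → V K := fun q => F q j.succ.succ
    have hXs : ContDiff ℝ ∞ X := hFj _
    let Y : ℝ × ℝ → V K := fun q => nab N.Γ c X q (1, 0)
    have hYs : ContDiff ℝ ∞ Y := contDiff_nab N hc hXs (1, 0)
    have hYd : Differentiable ℝ Y := hYs.differentiable (by simp)
    have hXm : ∀ q, X q ∈ Tan (c q) := fun q => (hFad q).mem _
    have hY1 : ∀ q, nab N.Γ c Y q (0, 1) = 0 := by
      intro q
      have h1 := nab_curv N (p := q) hc.contDiffAt hXs.contDiffAt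
        (Filter.Eventually.of_forall hcm) (Filter.Eventually.of_forall hXm) (0, 1) (1, 0)
      have h2 : (fun q => nab N.Γ c X q (0, 1)) = fun _ => (0 : V K) :=
        funext fun q => hpar _ q
      have h3 : nab N.Γ c (fun _ => (0 : V K)) q (1, 0) = 0 := by
        unfold nab
        simp
      have h4 := T.curv2 (c q) (hcm q) _ (htan q (0, 1)) _ (htan q (1, 0)) (X q) (hXm q)
        (hJJ q _) (hJJ q _) ((hFad q).J2 j)
      rw [h2, h3, h4, sub_zero] at h1
      exact h1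
    have hY2 : ∀ t, HasDerivAt (fun τ => Y (b, τ))
        (N.Γ (c (b, t)) (fderiv ℝ c (b, t) (0, 1)) (Y (b, t))) t := by
      intro t
      have h1 := hasDerivAt_right hYd b t
      have h2 := hY1 (b, t)
      unfold nab at h2
      rw [sub_eq_zero] at h2
      rw [h2] at h1
      exact h1
    have hY0 : Y (b, 0) = 0 := by
      change nab N.Γ c X (b, 0) (1, 0) = 0
      unfold nab
      rw [fderiv_left_eq_zero hcd hc0 b, fderiv_left_eq_zero (hXs.differentiable (by simp))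
        (fun b => congrFun (hF0 b) j.succ.succ) b, map_zero, zero_apply, sub_self]
    have hA : Continuous (fun t => N.Γ (c (b, t)) (fderiv ℝ c (b, t) (0, 1))) := by
      have h1 : Continuous fun t : ℝ => (b, t) := by fun_prop
      have h2 : Continuous (fderiv ℝ c) := hc.continuous_fderiv (by simp)
      exact ((N.smooth.continuous.comp (hc.continuous.comp h1)).clm_apply
        ((h2.comp h1).clm_apply continuous_const))
    have hY3 := lin_zero hA hY2 hY0 (t := 1) ⟨zero_le_one, le_rfl⟩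
    change nab N.Γ c X (b, 1) (1, 0) = 0 at hY3
    unfold nab at hY3
    rw [fderiv_left_eq_zero hcd hc1 b, map_zero, zero_apply, sub_zero] at hY3
    exact hY3
  have hF1 : ∀ (j : Fin (K + 2)) (b : ℝ), F (b, 1) j.succ.succ = f j.succ.succ := by
    intro j b
    have h1 := is_const_of_deriv_eq_zero (f := fun b => F (b, 1) j.succ.succ)
      (fun b => (hasDerivAt_left (hFjd j.succ.succ) b 1).differentiableAt)
      (fun b => by rw [(hasDerivAt_left (hFjd j.succ.succ) b 1).deriv]; exact hpar2 j b) b 0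
    have h2 : F (b, 1) j.succ.succ = F (0, 1) j.succ.succ := h1
    rw [h2, hFout 0 1 (Or.inl le_rfl)]
  -- the angle
  let al : ℝ → ℝ := fun b => gmB G p₀ (F (b, 1) 0) (f 0)
  let be : ℝ → ℝ := fun b => gmB G p₀ (F (b, 1) 0) (f 1)
  have hFb : ContDiff ℝ ∞ (fun b : ℝ => F (b, 1) 0) :=
    (hFj 0).comp (contDiff_id.prodMk contDiff_const)
  have hal : ContDiff ℝ ∞ al := ((gmB G p₀).contDiff.comp hFb).clm_apply contDiff_const
  have hbe : ContDiff ℝ ∞ be := ((gmB G p₀).contDiff.comp hFb).clm_apply contDiff_const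
  have hex : ∀ b, F (b, 1) 0 = al b • f 0 + be b • f 1 := by
    intro b
    have h1 := hFad (b, 1)
    rw [hc1] at h1
    have h2 : S.J p₀ (S.J p₀ (F (b, 1) 0)) = - F (b, 1) 0 := by
      rw [h1.J0, h1.J1]
    have h3 := (hf.mem_L1 hp₀ (h1.mem 0)).1 h2
    simp only [al, be, gmB_apply]
    exact h3
  have hun : ∀ b, al b ^ 2 + be b ^ 2 = 1 := by
    intro b
    have h1 := hFad (b, 1)
    rw [hc1] at h1
    have h2 := h1.orth 0 0
    rw [if_pos rfl] at h2
    have h3 : ∀ w, gm G p₀ (F (b, 1) 0) w =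
        al b * gm G p₀ (f 0) w + be b * gm G p₀ (f 1) w := by
      intro w
      rw [hex b, gm_add, gm_smul, gm_smul]
    have h4 : gm G p₀ (f 0) (F (b, 1) 0) = al b := by
      rw [gm_symm]
      exact (gmB_apply G p₀ _ _).symm
    have h5 : gm G p₀ (f 1) (F (b, 1) 0) = be b := by
      rw [gm_symm]
      exact (gmB_apply G p₀ _ _).symm
    have h6 := h3 (F (b, 1) 0)
    rw [h2, h4, h5] at h6
    rw [h6]
    ring
  let u : ℝ → ℂ := fun b => (al b : ℂ) + (be b : ℂ) * Complex.I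
  have hu : ContDiff ℝ ∞ u :=
    (Complex.ofRealCLM.contDiff.comp hal).add
      ((Complex.ofRealCLM.contDiff.comp hbe).mul contDiff_const)
  have hure : ∀ b, (u b).re = al b := by
    intro b
    simp [u]
  have huim : ∀ b, (u b).im = be b := by
    intro b
    simp [u]
  have hu1 : ∀ b, ‖u b‖ = 1 := by
    intro b
    have h1 : Complex.normSq (u b) = 1 := by
      rw [Complex.normSq_apply, hure, huim, ← hun b]
      ring
    rw [Complex.norm_def, h1, Real.sqrt_one]
  have hf00 : gmB G p₀ (f 0) (f 0) = 1 := by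
    rw [gmB_apply, hf.orth, if_pos rfl]
  have hf01 : gmB G p₀ (f 0) (f 1) = 0 := by
    rw [gmB_apply, hf.orth, if_neg]
    exact Fin.zero_ne_one
  have hval : ∀ b, (b ≤ 0 ∨ 1 ≤ b) → u b = 1 := by
    intro b hb
    have h1 : F (b, 1) = f := hFout b 1 (by rcases hb with h | h <;> simp [h])
    apply Complex.ext
    · rw [hure, Complex.one_re]
      change gmB G p₀ (F (b, 1) 0) (f 0) = 1
      rw [h1, hf00]
    · rw [huim, Complex.one_im]
      change gmB G p₀ (F (b, 1) 0) (f 1) = 0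
      rw [h1, hf01]
  obtain ⟨θ, e, hθs, hθ, hθ0, hθ1⟩ := exists_angle u hu hu1 (hval 0 (Or.inl le_rfl))
    (hval 1 (Or.inr le_rfl))
  have hcos : ∀ t, al t = Real.cos (θ t) := by
    intro t
    rw [← hure, hθ t, Complex.exp_ofReal_mul_I_re]
  have hsin : ∀ t, be t = Real.sin (θ t) := by
    intro t
    rw [← huim, hθ t, Complex.exp_ofReal_mul_I_im]
  refine ⟨fun x => F (x.2, x.1) 0, fun x j => F (x.2, x.1) j.succ.succ, θ, e, ?_⟩
  have hsw : ContDiff ℝ ∞ (fun x : ℝ × ℝ => (x.2, x.1)) := contDiff_snd.prodMk contDiff_fst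
  have hadx : ∀ x : ℝ × ℝ, Adapted G S.J (s x) (F (x.2, x.1)) := fun x => hFad (x.2, x.1)
  refine ⟨(hFj 0).comp hsw, ?_, hθs, ?_, ?_, ?_, ?_, ?_, ?_, ?_, hθ0, hθ1⟩
  · rw [contDiff_pi]
    exact fun j => (hFj j.succ.succ).comp hsw
  · intro x
    refine (hL1 (s x) (hs.mem x) (hsR x) _).2 ⟨(hadx x).mem 0, ?_⟩
    rw [(hadx x).J0, (hadx x).J1]
  · intro x j
    exact (hadx x).mem _
  · intro x
    have h1 : (Fin.cons (F (x.2, x.1) 0) (Fin.cons (S.J (s x) (F (x.2, x.1) 0))
        (fun j : Fin (K + 2) => F (x.2, x.1) j.succ.succ)) : Fin (K + 4) → V K) =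
        F (x.2, x.1) := by
      funext j
      refine Fin.cases ?_ (fun j => ?_) j
      · rfl
      · refine Fin.cases ?_ (fun j => ?_) j
        · exact (hadx x).J0
        · rfl
    rw [h1, Fintype.linearIndependent_iff]
    intro g hg k
    have h2 := (hadx x).gm_sum g k
    rw [hg, ← gmB_apply, map_zero] at h2
    exact h2.symm
  · intro x hx
    have h1 : F (x.2, x.1) = f := hFout _ _ (by tauto)
    have h2 : F ((0 : ℝ), (0 : ℝ)) = f := hFout _ _ (Or.inl le_rfl)
    simp only [h1, h2]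
  · intro x hx
    have h1 : F (x.2, x.1) = f := hFout _ _ (by tauto)
    have h2 : F ((0 : ℝ), (0 : ℝ)) = f := hFout _ _ (Or.inl le_rfl)
    simp only [h1, h2]
  · intro t
    have h2 : F ((0 : ℝ), (0 : ℝ)) = f := hFout _ _ (Or.inl le_rfl)
    simp only [h2]
    rw [hf.J0, hex t, hcos, hsin]
  · intro t
    have h2 : F ((0 : ℝ), (0 : ℝ)) = f := hFout _ _ (Or.inl le_rfl)
    simp only [h2, hF1]

theorem lemS (K : ℕ) : LemS K := by
  intro G a ha hw hne
  obtain ⟨S⟩ := exists_J G a ha hw hne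
  obtain ⟨T⟩ := exists_kappa S
  obtain ⟨N⟩ := exists_conn G
  obtain ⟨q₀, hq₀, hq⟩ := exists_base K
  obtain ⟨f, hf⟩ := S.basis q₀ hq₀
  have L : ∀ i, LocR N S i q₀ (f 0) := fun i => (exists_locR N S T i hq₀ (hq i) hf).some
  obtain ⟨U, R, hD, hU, hRc, hper, hL1⟩ := exists_retraction hq₀ hq L
  exact ⟨U, R, S.J, hD, hU, hRc, hper, fun p₀ s hs hsR =>
    exists_surfFrame N S T hD hU hRc hL1 hs hsR⟩

end Pool.Agent.H86.Nco
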