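import Pool.Agent.H86.Nco.Final
import Pool.Agent.H86.Nco.SFrame
import Pool.Agent.H86.Nco.HWedge
import Pool.Agent.H86.Nco.HPer
import Pool.Agent.H86.Nco.P0

/-!
# Main theorem of stage 2: `M K` carries no metric with nonnegative curvature operator
-/

open scoped Manifold ContDiff Bundle Topology

noncomputable section

namespace Pool.Agent.H86.Nco

open Pool.Agent.H86.Anco

theorem isEmpty_met (K : ℕ) : IsEmpty (Met K) := no_met (h23 K) (h5 K) (h6 K) (lemS K)

theorem no_nonneg_metric (K : ℕ) : ¬ ∃ g : Stmt.RMetric (E K) (M K), Stmt.HasCurvOpGE g 0 := by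
  rintro ⟨g, hg⟩
  obtain ⟨G⟩ := exists_met_stmt g hg
  exact (isEmpty_met K).false G

end Pool.Agent.H86.Nco
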