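import Mathlib

/-!
# Module ODE1: global existence under linear growth

Proof: fix `T > 0`; by Gronwall every solution on `[-T, T]` satisfies
`‖x t‖ ≤ ρ := (1 + ‖x₀‖) exp (C_T T)`.  Multiply `f` by a smooth cut-off which is
`1` for `‖x‖ ≤ ρ + 1` and has compact support (`ContDiffBump` in the finite dimensional space `H`); the
new right hand side is bounded and globally Lipschitz in `x` for `|t| ≤ T`, so `IsPicardLindelof`
applies on the whole of `[-T, T]` with a large ball (`L * T ≤ a`).  By the a priori bound the solution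
does not leave the region where nothing was changed (connectedness / first exit time, or Gronwall
applied to the cut-off equation, which satisfies the same growth bound: then the a priori bound
holds directly for the solution of the cut-off equation).  Uniqueness (`ODE_solution_unique...`) glues
the solutions for different `T`.
-/

open scoped ContDiff Topology

namespace Pool.Agent.H86.Nco

/-- a `C^1` function is Lipschitz in `x`, uniformly on compact sets -/
theorem ode_lip {H : Type*} [NormedAddCommGroup H] [NormedSpace ℝ H] [FiniteDimensional ℝ H]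
    (f : ℝ × H → H) (hf : ContDiff ℝ 1 f) (a b : ℝ) (y : H) (r : ℝ) :
    ∃ K : NNReal, ∀ t ∈ Set.Icc a b,
      LipschitzOnWith K (fun x => f (t, x)) (Metric.closedBall y r) := by
  have hc : IsCompact (Set.Icc a b ×ˢ Metric.closedBall y r) :=
    isCompact_Icc.prod (isCompact_closedBall _ _)
  have hv : Convex ℝ (Set.Icc a b ×ˢ Metric.closedBall y r) :=
    (convex_Icc a b).prod (convex_closedBall _ _)
  obtain ⟨K, hK⟩ := hf.contDiffOn.exists_lipschitzOnWith one_ne_zero hv hc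
  refine ⟨K, fun t ht => ?_⟩
  intro x hx x' hx'
  have h1 := hK (x := (t, x)) ⟨ht, hx⟩ (y := (t, x')) ⟨ht, hx'⟩
  refine h1.trans (le_of_eq ?_)
  congr 1
  rw [Prod.edist_eq]
  simp

/-- uniqueness on open intervals -/
theorem ode_uniq {H : Type*} [NormedAddCommGroup H] [NormedSpace ℝ H] [FiniteDimensional ℝ H]
    (f : ℝ × H → H) (hf : ContDiff ℝ 1 f) {a b t₀ : ℝ} (ht₀ : t₀ ∈ Set.Ioo a b) (x y : ℝ → H)
    (hx : ∀ t ∈ Set.Ioo a b, HasDerivAt x (f (t, x t)) t)
    (hy : ∀ t ∈ Set.Ioo a b, HasDerivAt y (f (t, y t)) t) (h0 : x t₀ = y t₀) :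
    Set.EqOn x y (Set.Ioo a b) := by
  intro t ht
  obtain ⟨a', ha1, ha2⟩ : ∃ a', a < a' ∧ a' < min t t₀ := exists_between (lt_min ht.1 ht₀.1)
  obtain ⟨b', hb1, hb2⟩ : ∃ b', max t t₀ < b' ∧ b' < b := exists_between (max_lt ht.2 ht₀.2)
  have hsub : Set.Icc a' b' ⊆ Set.Ioo a b := fun s hs =>
    ⟨lt_of_lt_of_le ha1 hs.1, lt_of_le_of_lt hs.2 hb2⟩
  have cx : ContinuousOn x (Set.Icc a' b') := fun s hs =>
    (hx s (hsub hs)).continuousAt.continuousWithinAt
  have cy : ContinuousOn y (Set.Icc a' b') := fun s hs =>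
    (hy s (hsub hs)).continuousAt.continuousWithinAt
  obtain ⟨C₁, hC₁⟩ := isCompact_Icc.exists_bound_of_continuousOn cx
  obtain ⟨C₂, hC₂⟩ := isCompact_Icc.exists_bound_of_continuousOn cy
  obtain ⟨K, hK⟩ := ode_lip f hf a' b' 0 (max C₁ C₂)
  have hlt1 := lt_min_iff.1 ha2
  have hlt2 := max_lt_iff.1 hb1
  refine ODE_solution_unique_of_mem_Ioo (v := fun t x => f (t, x))
    (s := fun _ => Metric.closedBall 0 (max C₁ C₂)) (K := K) (t₀ := t₀) (a := a') (b := b')
    (fun s hs => hK s ⟨hs.1.le, hs.2.le⟩) ⟨hlt1.2, hlt2.2⟩ (fun s hs => ?_) (fun s hs => ?_) h0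
    ⟨hlt1.1, hlt2.1⟩
  · have hs' : s ∈ Set.Icc a' b' := ⟨hs.1.le, hs.2.le⟩
    refine ⟨hx s (hsub hs'), ?_⟩
    rw [mem_closedBall_zero_iff]
    exact (hC₁ s hs').trans (le_max_left _ _)
  · have hs' : s ∈ Set.Icc a' b' := ⟨hs.1.le, hs.2.le⟩
    refine ⟨hy s (hsub hs'), ?_⟩
    rw [mem_closedBall_zero_iff]
    exact (hC₂ s hs').trans (le_max_right _ _)

/-- existence on a symmetric interval -/
theorem ode_exists_T {H : Type*} [NormedAddCommGroup H] [NormedSpace ℝ H] [FiniteDimensional ℝ H]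
    (f : ℝ × H → H) (hf : ContDiff ℝ 1 f)
    (hlin : ∀ r : ℝ, ∃ C : ℝ, ∀ (t : ℝ) (x : H), |t| ≤ r → ‖f (t, x)‖ ≤ C * (1 + ‖x‖)) (x₀ : H)
    (T : ℝ) (hT : 0 < T) :
    ∃ x : ℝ → H, x 0 = x₀ ∧ ∀ t ∈ Set.Ioo (-T) T, HasDerivAt x (f (t, x t)) t := by
  obtain ⟨C', hC'⟩ := hlin T
  set C := max C' 0 with hCdef
  have hC0 : 0 ≤ C := le_max_right _ _
  have hC : ∀ (t : ℝ) (x : H), |t| ≤ T → ‖f (t, x)‖ ≤ C * (1 + ‖x‖) := fun t x ht =>
    (hC' t x ht).trans (mul_le_mul_of_nonneg_right (le_max_left _ _) (by positivity))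
  set ρ := gronwallBound ‖x₀‖ C C T with hρ
  have hmono : Monotone (gronwallBound ‖x₀‖ C C) := gronwallBound_mono (norm_nonneg _) hC0 hC0
  have hρ0 : 0 ≤ ρ := by
    have := hmono hT.le
    rw [gronwallBound_x0] at this
    exact (norm_nonneg _).trans this
  -- the cut-off
  let χ : ContDiffBump (0 : H) := ⟨ρ + 1, ρ + 2, by linarith, by linarith⟩
  let g : ℝ × H → H := fun p => χ p.2 • f p
  have hg : ContDiff ℝ 1 g := by
    refine ContDiff.smul ?_ hf
    exact χ.contDiff.comp contDiff_snd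
  have hχ0 : ∀ x, 0 ≤ χ x := fun x => χ.nonneg
  have hχ1 : ∀ x, χ x ≤ 1 := fun x => χ.le_one
  have hgf : ∀ p, ‖g p‖ ≤ ‖f p‖ := by
    intro p
    show ‖χ p.2 • f p‖ ≤ _
    rw [norm_smul, Real.norm_of_nonneg (hχ0 _)]
    exact mul_le_of_le_one_left (norm_nonneg _) (hχ1 _)
  have hgC : ∀ (t : ℝ) (x : H), |t| ≤ T → ‖g (t, x)‖ ≤ C * ‖x‖ + C := fun t x ht =>
    (hgf _).trans ((hC t x ht).trans (le_of_eq (by ring)))
  have hgb : ∀ (t : ℝ) (x : H), |t| ≤ T → ‖g (t, x)‖ ≤ C * (3 + ρ) := by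
    intro t x ht
    by_cases hx : ‖x‖ ≤ ρ + 2
    · refine (hgC t x ht).trans ?_
      have : C * ‖x‖ ≤ C * (ρ + 2) := mul_le_mul_of_nonneg_left hx hC0
      linarith
    · have : χ x = 0 := by
        apply χ.zero_of_le_dist
        rw [dist_zero_right]
        exact le_of_lt (not_le.1 hx)
      show ‖χ x • f (t, x)‖ ≤ _
      rw [this, zero_smul, norm_zero]
      positivity
  have hL0 : 0 ≤ C * (3 + ρ) := by positivity
  let L : NNReal := ⟨C * (3 + ρ), hL0⟩
  let a : NNReal := ⟨C * (3 + ρ) * T, by positivity⟩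
  obtain ⟨K, hK⟩ := ode_lip g hg (-T) T x₀ a
  have h0mem : (0 : ℝ) ∈ Set.Icc (-T) T := ⟨by linarith, hT.le⟩
  have hPL : IsPicardLindelof (fun t x => g (t, x)) (⟨0, h0mem⟩ : Set.Icc (-T) T) x₀ a 0 L K := by
    refine ⟨fun t ht => hK t ht, fun x _ => ?_, fun t ht x _ => ?_, ?_⟩
    · have : Continuous (fun t : ℝ => g (t, x)) :=
        hg.continuous.comp (continuous_id.prodMk continuous_const)
      exact this.continuousOn
    · exact hgb t x (abs_le.2 ht)
    · show (L : ℝ) * max (T - 0) (0 - -T) ≤ (a : ℝ) - ((0 : NNReal) : ℝ)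
      have h1 : max (T - 0) (0 - -T) = T := by
        rw [sub_zero, zero_sub, neg_neg, max_self]
      rw [h1, NNReal.coe_zero, sub_zero]
      exact le_refl _
  obtain ⟨α, hα0, hα⟩ := hPL.exists_eq_forall_mem_Icc_hasDerivWithinAt₀
  have hα0' : α 0 = x₀ := hα0
  have hcont : ContinuousOn α (Set.Icc (-T) T) := fun t ht => (hα t ht).continuousWithinAt
  -- a priori bound forwards
  have hfw : ∀ t ∈ Set.Icc 0 T, ‖α t‖ ≤ ρ := by
    intro t ht
    have h1 := norm_le_gronwallBound_of_norm_deriv_right_le (f := α)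
      (f' := fun t => g (t, α t)) (δ := ‖x₀‖) (K := C) (ε := C) (a := 0) (b := T)
      (hcont.mono (Set.Icc_subset_Icc_left (by linarith)))
      (fun s hs => (hα s ⟨by linarith [hs.1], hs.2.le⟩).mono_of_mem_nhdsWithin
        (Filter.mem_of_superset (Icc_mem_nhdsGE hs.2) (Set.Icc_subset_Icc_left (by linarith [hs.1]))))
      (by rw [hα0']) (fun s hs => hgC s _ (abs_le.2 ⟨by linarith [hs.1], hs.2.le⟩)) t ht
    refine h1.trans (hmono ?_)
    linarith [ht.2]
  -- a priori bound backwards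
  have hbw : ∀ t ∈ Set.Icc 0 T, ‖α (-t)‖ ≤ ρ := by
    intro t ht
    have h1 := norm_le_gronwallBound_of_norm_deriv_right_le (f := fun s => α (-s))
      (f' := fun t => -g (-t, α (-t))) (δ := ‖x₀‖) (K := C) (ε := C) (a := 0) (b := T)
      (hcont.comp continuous_neg.continuousOn (fun s hs => ⟨by linarith [hs.2], by linarith [hs.1]⟩))
      (fun s hs => by
        have h2 := hα (-s) ⟨by linarith [hs.2], by linarith [hs.1]⟩
        have h3 : HasDerivWithinAt (fun s : ℝ => -s) (-1) (Set.Icc 0 T) s :=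
          (hasDerivAt_neg s).hasDerivWithinAt
        have h4 : Set.MapsTo (fun s : ℝ => -s) (Set.Icc 0 T) (Set.Icc (-T) T) :=
          fun s hs => ⟨by linarith [hs.2], by linarith [hs.1]⟩
        have h5 := HasDerivWithinAt.scomp s h2 h3 h4
        have h6 : HasDerivWithinAt (fun s => α (-s)) (-g (-s, α (-s))) (Set.Icc 0 T) s := by
          simpa [Function.comp_def] using h5
        exact h6.mono_of_mem_nhdsWithin
          (Filter.mem_of_superset (Icc_mem_nhdsGE hs.2) (Set.Icc_subset_Icc_left hs.1)))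
      (by simp [hα0']) (fun s hs => by
        rw [norm_neg]
        exact hgC _ _ (abs_le.2 ⟨by linarith [hs.2], by linarith [hs.1]⟩)) t ht
    refine h1.trans (hmono ?_)
    linarith [ht.2]
  have hbd : ∀ t ∈ Set.Icc (-T) T, ‖α t‖ ≤ ρ := by
    intro t ht
    rcases le_total 0 t with h | h
    · exact hfw t ⟨h, ht.2⟩
    · have := hbw (-t) ⟨by linarith, by linarith [ht.1]⟩
      rwa [neg_neg] at this
  refine ⟨α, hα0', fun t ht => ?_⟩
  have ht' : t ∈ Set.Icc (-T) T := ⟨ht.1.le, ht.2.le⟩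
  have h1 := (hα t ht').hasDerivAt (Icc_mem_nhds ht.1 ht.2)
  have h2 : χ (α t) = 1 := by
    apply χ.one_of_mem_closedBall
    rw [mem_closedBall_zero_iff]
    have := hbd t ht'
    show ‖α t‖ ≤ ρ + 1
    linarith
  have h3 : g (t, α t) = f (t, α t) := by
    show χ (α t) • f (t, α t) = _
    rw [h2, one_smul]
  rw [← h3]
  exact h1

theorem ode_global {H : Type*} [NormedAddCommGroup H] [NormedSpace ℝ H] [FiniteDimensional ℝ H]
    (f : ℝ × H → H) (hf : ContDiff ℝ 1 f)
    (hlin : ∀ r : ℝ, ∃ C : ℝ, ∀ (t : ℝ) (x : H), |t| ≤ r → ‖f (t, x)‖ ≤ C * (1 + ‖x‖)) (x₀ : H) :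
    ∃ x : ℝ → H, x 0 = x₀ ∧ ∀ t, HasDerivAt x (f (t, x t)) t := by
  have hex : ∀ T : ℝ, 0 < T → ∃ x : ℝ → H, x 0 = x₀ ∧
      ∀ t ∈ Set.Ioo (-T) T, HasDerivAt x (f (t, x t)) t :=
    fun T hT => ode_exists_T f hf hlin x₀ T hT
  choose! z hz0 hz using hex
  have heq : ∀ T T' : ℝ, 0 < T → T ≤ T' → Set.EqOn (z T) (z T') (Set.Ioo (-T) T) := by
    intro T T' hT hTT'
    refine ode_uniq f hf (t₀ := 0) ⟨by linarith, hT⟩ _ _ (hz T hT)
      (fun t ht => hz T' (by linarith) t ⟨by linarith [ht.1], by linarith [ht.2]⟩) ?_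
    rw [hz0 T hT, hz0 T' (by linarith)]
  refine ⟨fun t => z (|t| + 1) t, ?_, fun t => ?_⟩
  · exact hz0 _ (by positivity)
  · have hpos : 0 < |t| + 2 := by positivity
    have hmem : t ∈ Set.Ioo (-(|t| + 2)) (|t| + 2) :=
      ⟨by linarith [neg_abs_le t], by linarith [le_abs_self t]⟩
    have h1 := hz (|t| + 2) hpos t hmem
    have hat : z (|t| + 1) t = z (|t| + 2) t :=
      heq _ _ (by positivity) (by linarith) ⟨by linarith [neg_abs_le t], by linarith [le_abs_self t]⟩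
    have hev : (fun s => z (|s| + 1) s) =ᶠ[𝓝 t] z (|t| + 2) := by
      have h2 : ∀ᶠ s in 𝓝 t, |s| < |t| + 1 :=
        continuous_abs.continuousAt.eventually_lt continuousAt_const (by simp)
      filter_upwards [h2] with s hs
      exact heq _ _ (by positivity) (by linarith)
        ⟨by linarith [neg_abs_le s], by linarith [le_abs_self s]⟩
    show HasDerivAt (fun s => z (|s| + 1) s) (f (t, z (|t| + 1) t)) t
    rw [hat]
    exact h1.congr_of_eventuallyEq hev

end Pool.Agent.H86.Nco
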