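import Pool.Agent.H86.Nco.Ode1

/-!
# Module ODE2: the flow of a complete smooth vector field is of class `C^1`

Existence of `φ` is the hypothesis.  Fix `z₀`, `T`; `‖φ (z₀, t)‖ ≤ R` for `t` in `[0, T]`; on the closed ball
of radius `R + 1` the field `X` and `fderiv X` are Lipschitz with constant `K`.
For `‖z - z₀‖ < exp (-K T)` the curve `φ (z, t)` stays in the ball of radius `R + 1` for `0 ≤ t ≤ T` (first exit
time and Gronwall) and `‖φ (z, t) - φ (z₀, t)‖ ≤ exp (K t) ‖z - z₀‖`.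
`J (z, ·)` exists by `ode_global` (a linear equation in the finite dimensional space `Z →L Z`).
The difference `φ (z, t) - φ (z₀, t) - J (z₀, t) (z - z₀)` satisfies
`‖δ'‖ ≤ K ‖δ‖ + K ‖φ (z, t) - φ (z₀, t)‖²`, so by Gronwall it is `O (‖z - z₀‖²)`.
Continuity of `J`: Gronwall again.  Negative times: reverse the field.
-/

open scoped ContDiff Topology

namespace Pool.Agent.H86.Nco

/-- complete vector fields -/
def Complete {Z : Type*} [NormedAddCommGroup Z] [NormedSpace ℝ Z] (X : Z → Z) : Prop :=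
  ∀ z, ∃ γ : ℝ → Z, γ 0 = z ∧ ∀ t, HasDerivAt γ (X (γ t)) t

section Aux

variable {Z : Type*} [NormedAddCommGroup Z] [NormedSpace ℝ Z]

open Set Metric

/-- Local Gronwall with the first exit time. -/
theorem gron_exit (X : Z → Z) (R T : ℝ) (K : NNReal) (hT : 0 ≤ T)
    (hK : LipschitzOnWith K X (closedBall 0 (R + 1)))
    (γ γ₀ : ℝ → Z) (hγ : ∀ t, HasDerivAt γ (X (γ t)) t) (hγ₀ : ∀ t, HasDerivAt γ₀ (X (γ₀ t)) t)
    (hR : ∀ t ∈ Icc 0 T, ‖γ₀ t‖ ≤ R) (hd : ‖γ 0 - γ₀ 0‖ * Real.exp (K * T) < 1) :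
    ∀ t ∈ Icc 0 T, ‖γ t‖ ≤ R + 1 ∧ ‖γ t - γ₀ t‖ ≤ ‖γ 0 - γ₀ 0‖ * Real.exp (K * t) := by
  have hcont : Continuous γ := continuous_iff_continuousAt.2 fun t => (hγ t).continuousAt
  have hcont₀ : Continuous γ₀ := continuous_iff_continuousAt.2 fun t => (hγ₀ t).continuousAt
  -- Gronwall on an interval on which the curve stays in the ball
  have key : ∀ b ∈ Icc 0 T, (∀ t ∈ Ico 0 b, ‖γ t‖ ≤ R + 1) →
      ∀ t ∈ Icc 0 b, ‖γ t - γ₀ t‖ ≤ ‖γ 0 - γ₀ 0‖ * Real.exp (K * t) := by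
    intro b hb hin t ht
    have h := dist_le_of_trajectories_ODE_of_mem (v := fun _ => X) (s := fun _ => closedBall 0 (R + 1))
      (K := K) (f := γ) (g := γ₀) (a := 0) (b := b) (δ := ‖γ 0 - γ₀ 0‖)
      (fun _ _ => hK) hcont.continuousOn (fun t _ => (hγ t).hasDerivWithinAt)
      (fun t ht => by simpa using hin t ht) hcont₀.continuousOn
      (fun t _ => (hγ₀ t).hasDerivWithinAt)
      (fun t ht => by
        have := hR t ⟨ht.1, ht.2.le.trans hb.2⟩
        simp only [mem_closedBall, dist_zero_right]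
        linarith)
      (by rw [dist_eq_norm]) t ht
    rwa [dist_eq_norm, sub_zero] at h
  have hlt : ∀ t ∈ Icc 0 T, ‖γ 0 - γ₀ 0‖ * Real.exp (K * t) < 1 := by
    intro t ht
    refine lt_of_le_of_lt ?_ hd
    apply mul_le_mul_of_nonneg_left _ (norm_nonneg _)
    apply Real.exp_le_exp.2
    exact mul_le_mul_of_nonneg_left ht.2 K.2
  -- the curve stays in the ball
  have hin : ∀ t ∈ Icc 0 T, ‖γ t‖ ≤ R + 1 := by
    by_contra hcon
    push Not at hcon
    obtain ⟨t₁, ht₁, ht₁'⟩ := hcon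
    have hcl : IsCompact (Icc 0 T ∩ {t | R + 1 ≤ ‖γ t‖}) :=
      isCompact_Icc.inter_right (isClosed_le continuous_const hcont.norm)
    obtain ⟨m, hm, hmin⟩ := hcl.exists_isLeast ⟨t₁, ht₁, ht₁'.le⟩
    have h1 := key m hm.1 (fun t ht => by
      by_contra hc
      push Not at hc
      have := hmin ⟨⟨ht.1, ht.2.le.trans hm.1.2⟩, hc.le⟩
      exact absurd ht.2 (not_lt.2 this)) m ⟨hm.1.1, le_rfl⟩
    have h2 := hlt m hm.1
    have h3 := hR m hm.1
    have h4 : ‖γ m‖ ≤ ‖γ m - γ₀ m‖ + ‖γ₀ m‖ := by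
      have := norm_add_le (γ m - γ₀ m) (γ₀ m)
      rwa [sub_add_cancel] at this
    have h5 : R + 1 ≤ ‖γ m‖ := hm.2
    linarith
  intro t ht
  exact ⟨hin t ht, key T ⟨hT, le_rfl⟩ (fun s hs => hin s ⟨hs.1, hs.2.le⟩) t ht⟩

/-- Quadratic remainder of Taylor's formula on a ball. -/
theorem taylor_ball (X : Z → Z) (hX : ContDiff ℝ ∞ X) (ρ : ℝ) (M : NNReal)
    (hM : LipschitzOnWith M (fderiv ℝ X) (closedBall 0 ρ)) (x y : Z) (hx : ‖x‖ ≤ ρ) (hy : ‖y‖ ≤ ρ) :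
    ‖X y - X x - fderiv ℝ X x (y - x)‖ ≤ M * ‖y - x‖ ^ 2 := by
  have hconv : segment ℝ x y ⊆ closedBall 0 ρ :=
    (convex_closedBall (0 : Z) ρ).segment_subset (by simpa using hx) (by simpa using hy)
  have h := (convex_segment x y).norm_image_sub_le_of_norm_hasFDerivWithin_le' (𝕜 := ℝ) (f := X)
    (f' := fun z => fderiv ℝ X z) (φ := fderiv ℝ X x) (C := M * ‖y - x‖)
    (fun z _ => ((hX.differentiable (by simp)) z).hasFDerivAt.hasFDerivWithinAt)
    (fun z hz => by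
      have h1 := hM.dist_le_mul z (hconv hz) x (by simpa using hx)
      rw [dist_eq_norm, dist_eq_norm] at h1
      refine h1.trans (mul_le_mul_of_nonneg_left ?_ M.2)
      obtain ⟨a, b, ha, hb, hab, rfl⟩ := hz
      have : a • x + b • y - x = b • (y - x) := by
        have ha' : a = 1 - b := by linarith
        rw [ha', sub_smul, one_smul, smul_sub]
        abel
      rw [this, norm_smul, Real.norm_eq_abs, abs_of_nonneg hb]
      have hb1 : b ≤ 1 := by linarith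
      calc b * ‖y - x‖ ≤ 1 * ‖y - x‖ := mul_le_mul_of_nonneg_right hb1 (norm_nonneg _)
        _ = ‖y - x‖ := one_mul _)
    (left_mem_segment ℝ x y) (right_mem_segment ℝ x y)
  calc ‖X y - X x - fderiv ℝ X x (y - x)‖ ≤ M * ‖y - x‖ * ‖y - x‖ := h
    _ = M * ‖y - x‖ ^ 2 := by ring

/-- A smooth map is Lipschitz on closed balls. -/
theorem lip_ball [FiniteDimensional ℝ Z] {F : Type*} [NormedAddCommGroup F] [NormedSpace ℝ F]
    (g : Z → F) (hg : ContDiff ℝ ∞ g) (ρ : ℝ) :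
    ∃ K : NNReal, LipschitzOnWith K g (closedBall 0 ρ) ∧ ∀ x, ‖x‖ ≤ ρ → ‖fderiv ℝ g x‖ ≤ K := by
  have : ProperSpace Z := FiniteDimensional.proper_real Z
  have hc : Continuous (fderiv ℝ g) := hg.continuous_fderiv (by simp)
  obtain ⟨C, hC⟩ := (isCompact_closedBall (0 : Z) ρ).exists_bound_of_continuousOn hc.continuousOn
  refine ⟨Real.toNNReal (max C 0), ?_, ?_⟩
  · apply (convex_closedBall (0 : Z) ρ).lipschitzOnWith_of_nnnorm_fderiv_le (𝕜 := ℝ)
    · intro x _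
      exact (hg.differentiable (by simp)) x
    · intro x hx
      rw [← NNReal.coe_le_coe, coe_nnnorm, Real.coe_toNNReal _ (le_max_right _ _)]
      exact (hC x hx).trans (le_max_left _ _)
  · intro x hx
    rw [Real.coe_toNNReal _ (le_max_right _ _)]
    exact (hC x (by simpa using hx)).trans (le_max_left _ _)

/-- Estimates for nonnegative times. -/
theorem flow_est_pos [FiniteDimensional ℝ Z] (X : Z → Z) (hX : ContDiff ℝ ∞ X) (φ : Z → ℝ → Z)
    (J : Z → ℝ → (Z →L[ℝ] Z)) (hφ0 : ∀ z, φ z 0 = z)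
    (hJ0 : ∀ z, J z 0 = ContinuousLinearMap.id ℝ Z)
    (hφ : ∀ z t, HasDerivAt (φ z) (X (φ z t)) t)
    (hJ : ∀ z t, HasDerivAt (J z) ((fderiv ℝ X (φ z t)).comp (J z t)) t) (z₀ : Z) (T : ℝ)
    (hT : 0 ≤ T) :
    ∃ δ > 0, ∃ C : ℝ, 0 ≤ C ∧ ∀ w, ‖w - z₀‖ < δ → ∀ t ∈ Icc 0 T,
      ‖φ w t - φ z₀ t‖ ≤ C * ‖w - z₀‖ ∧
      ‖φ w t - φ z₀ t - J z₀ t (w - z₀)‖ ≤ C * ‖w - z₀‖ ^ 2 ∧
      ‖J w t - J z₀ t‖ ≤ C * ‖w - z₀‖ := by
  have hcont : ∀ z, Continuous (φ z) := fun z =>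
    continuous_iff_continuousAt.2 fun t => (hφ z t).continuousAt
  have hcontJ : ∀ z, Continuous (J z) := fun z =>
    continuous_iff_continuousAt.2 fun t => (hJ z t).continuousAt
  obtain ⟨R, hR⟩ := (isCompact_Icc (a := (0 : ℝ)) (b := T)).exists_bound_of_continuousOn
    (hcont z₀).continuousOn
  obtain ⟨K₁, hK₁, hK₁'⟩ := lip_ball X hX (R + 1)
  obtain ⟨K₂, hK₂, -⟩ := lip_ball (fderiv ℝ X) (hX.fderiv_right (by simp)) (R + 1)
  -- one constant, at least one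
  set K : NNReal := max (max K₁ K₂) 1 with hKdef
  have hKX : LipschitzOnWith K X (closedBall 0 (R + 1)) :=
    hK₁.weaken ((le_max_left _ _).trans (le_max_left _ _))
  have hKX' : ∀ x, ‖x‖ ≤ R + 1 → ‖fderiv ℝ X x‖ ≤ K := fun x hx =>
    (hK₁' x hx).trans (by exact_mod_cast (le_max_left K₁ K₂).trans (le_max_left _ 1))
  have hKD : LipschitzOnWith K (fderiv ℝ X) (closedBall 0 (R + 1)) :=
    hK₂.weaken ((le_max_right _ _).trans (le_max_left _ _))
  have hK1 : (1 : ℝ) ≤ K := by exact_mod_cast le_max_right (max K₁ K₂) 1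
  have hK0 : (K : ℝ) ≠ 0 := by linarith
  set E : ℝ := Real.exp (K * T) with hE
  have hE0 : 0 < E := Real.exp_pos _
  have hE1 : 1 ≤ E := by
    rw [hE]
    exact Real.one_le_exp (mul_nonneg K.2 hT)
  have hexp : ∀ t ∈ Icc 0 T, Real.exp (K * t) ≤ E := fun t ht =>
    Real.exp_le_exp.2 (mul_le_mul_of_nonneg_left ht.2 K.2)
  -- bound of gronwallBound
  have hgb : ∀ ε : ℝ, 0 ≤ ε → ∀ t ∈ Icc 0 T, gronwallBound 0 K ε (t - 0) ≤ ε * E := by
    intro ε hε t ht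
    rw [gronwallBound_of_K_ne_0 hK0]
    simp only [sub_zero, zero_mul, zero_add]
    have h1 : ε / K ≤ ε := div_le_self hε hK1
    have h2 : Real.exp (K * t) - 1 ≤ E := by linarith [hexp t ht]
    have h3 : 0 ≤ Real.exp (K * t) - 1 := by
      linarith [Real.one_le_exp (mul_nonneg K.2 ht.1 : (0 : ℝ) ≤ K * t)]
    exact mul_le_mul h1 h2 h3 hε
  refine ⟨E⁻¹, inv_pos.2 hE0, K * E ^ 3, by positivity, ?_⟩
  intro w hw
  have hw' : ‖φ w 0 - φ z₀ 0‖ * Real.exp (K * T) < 1 := by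
    rw [hφ0, hφ0]
    have := mul_lt_mul_of_pos_right hw hE0
    rwa [inv_mul_cancel₀ hE0.ne'] at this
  have hA := gron_exit X R T K hT hKX (φ w) (φ z₀) (hφ w) (hφ z₀) hR hw'
  simp only [hφ0] at hA
  have hB : ∀ t ∈ Icc 0 T, ‖φ w t - φ z₀ t‖ ≤ ‖w - z₀‖ * E := fun t ht =>
    (hA t ht).2.trans (mul_le_mul_of_nonneg_left (hexp t ht) (norm_nonneg _))
  have hR1 : ∀ t ∈ Icc 0 T, ‖φ z₀ t‖ ≤ R + 1 := fun t ht => (hR t ht).trans (by linarith)
  -- bound of J z₀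
  have hJb : ∀ t ∈ Icc 0 T, ‖J z₀ t‖ ≤ E := by
    intro t ht
    have h := norm_le_gronwallBound_of_norm_deriv_right_le (f := J z₀)
      (f' := fun t => (fderiv ℝ X (φ z₀ t)).comp (J z₀ t)) (δ := 1) (K := K) (ε := 0) (a := 0) (b := T)
      (hcontJ z₀).continuousOn (fun t _ => (hJ z₀ t).hasDerivWithinAt)
      (by rw [hJ0]; exact ContinuousLinearMap.norm_id_le)
      (fun t ht => by
        rw [add_zero]
        exact (ContinuousLinearMap.opNorm_comp_le _ _).trans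
          (mul_le_mul_of_nonneg_right (hKX' _ (hR1 t ⟨ht.1, ht.2.le⟩)) (norm_nonneg _))) t ht
    rw [gronwallBound_ε0, one_mul, sub_zero] at h
    exact h.trans (hexp t ht)
  intro t ht
  have hn : 0 ≤ ‖w - z₀‖ := norm_nonneg _
  refine ⟨?_, ?_, ?_⟩
  · refine (hB t ht).trans ?_
    rw [mul_comm]
    apply mul_le_mul_of_nonneg_right _ hn
    calc E = 1 * (E * 1) := by ring
      _ ≤ K * (E * E ^ 2) := by
        apply mul_le_mul hK1 _ (by positivity) K.2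
        exact mul_le_mul_of_nonneg_left (one_le_pow₀ hE1) hE0.le
      _ = K * E ^ 3 := by ring
  · have h := norm_le_gronwallBound_of_norm_deriv_right_le
      (f := fun t => φ w t - φ z₀ t - J z₀ t (w - z₀))
      (f' := fun t => X (φ w t) - X (φ z₀ t) - (fderiv ℝ X (φ z₀ t)) (J z₀ t (w - z₀)))
      (δ := 0) (K := K) (ε := K * (‖w - z₀‖ * E) ^ 2) (a := 0) (b := T)
      ((((hcont w).sub (hcont z₀)).sub ((hcontJ z₀).clm_apply continuous_const)).continuousOn)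
      (fun t _ => by
        apply HasDerivAt.hasDerivWithinAt
        exact ((hφ w t).sub (hφ z₀ t)).sub
          (((hJ z₀ t).clm_apply (hasDerivAt_const t (w - z₀))).congr_deriv (by simp)))
      (by simp [hφ0, hJ0])
      (fun t ht => by
        have ht' : t ∈ Icc 0 T := ⟨ht.1, ht.2.le⟩
        have e1 : X (φ w t) - X (φ z₀ t) - (fderiv ℝ X (φ z₀ t)) (J z₀ t (w - z₀)) =
            (X (φ w t) - X (φ z₀ t) - fderiv ℝ X (φ z₀ t) (φ w t - φ z₀ t)) +
            fderiv ℝ X (φ z₀ t) (φ w t - φ z₀ t - J z₀ t (w - z₀)) := by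
          simp only [map_sub]
          abel
        rw [e1]
        have e2 := taylor_ball X hX (R + 1) K hKD (φ z₀ t) (φ w t) (hR1 t ht') (hA t ht').1
        have e3 : ‖fderiv ℝ X (φ z₀ t) (φ w t - φ z₀ t - J z₀ t (w - z₀))‖ ≤
            K * ‖φ w t - φ z₀ t - J z₀ t (w - z₀)‖ :=
          ((fderiv ℝ X (φ z₀ t)).le_opNorm _).trans
            (mul_le_mul_of_nonneg_right (hKX' _ (hR1 t ht')) (norm_nonneg _))
        have e4 : (K : ℝ) * ‖φ w t - φ z₀ t‖ ^ 2 ≤ K * (‖w - z₀‖ * E) ^ 2 :=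
          mul_le_mul_of_nonneg_left (pow_le_pow_left₀ (norm_nonneg _) (hB t ht') 2) K.2
        calc _ ≤ _ := norm_add_le _ _
          _ ≤ K * ‖φ w t - φ z₀ t - J z₀ t (w - z₀)‖ + K * (‖w - z₀‖ * E) ^ 2 := by linarith) t ht
    refine (h.trans (hgb _ (by positivity) t ht)).trans (le_of_eq ?_)
    ring
  · have h := norm_le_gronwallBound_of_norm_deriv_right_le
      (f := fun t => J w t - J z₀ t)
      (f' := fun t => (fderiv ℝ X (φ w t)).comp (J w t) - (fderiv ℝ X (φ z₀ t)).comp (J z₀ t))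
      (δ := 0) (K := K) (ε := K * (‖w - z₀‖ * E) * E) (a := 0) (b := T)
      (((hcontJ w).sub (hcontJ z₀)).continuousOn)
      (fun t _ => ((hJ w t).sub (hJ z₀ t)).hasDerivWithinAt)
      (by simp [hJ0])
      (fun t ht => by
        have ht' : t ∈ Icc 0 T := ⟨ht.1, ht.2.le⟩
        have e1 : (fderiv ℝ X (φ w t)).comp (J w t) - (fderiv ℝ X (φ z₀ t)).comp (J z₀ t) =
            (fderiv ℝ X (φ w t)).comp (J w t - J z₀ t) +
            (fderiv ℝ X (φ w t) - fderiv ℝ X (φ z₀ t)).comp (J z₀ t) := by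
          rw [ContinuousLinearMap.comp_sub, ContinuousLinearMap.sub_comp]
          abel
        rw [e1]
        have e2 : ‖(fderiv ℝ X (φ w t)).comp (J w t - J z₀ t)‖ ≤ K * ‖J w t - J z₀ t‖ :=
          (ContinuousLinearMap.opNorm_comp_le _ _).trans
            (mul_le_mul_of_nonneg_right (hKX' _ (hA t ht').1) (norm_nonneg _))
        have e3 : ‖fderiv ℝ X (φ w t) - fderiv ℝ X (φ z₀ t)‖ ≤ K * (‖w - z₀‖ * E) := by
          have := hKD.dist_le_mul (φ w t) (by simpa using (hA t ht').1) (φ z₀ t)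
            (by simpa using hR1 t ht')
          rw [dist_eq_norm, dist_eq_norm] at this
          exact this.trans (mul_le_mul_of_nonneg_left (hB t ht') K.2)
        have e4 : ‖(fderiv ℝ X (φ w t) - fderiv ℝ X (φ z₀ t)).comp (J z₀ t)‖ ≤
            K * (‖w - z₀‖ * E) * E :=
          (ContinuousLinearMap.opNorm_comp_le _ _).trans
            (mul_le_mul e3 (hJb t ht') (norm_nonneg _) (by positivity))
        calc _ ≤ _ := norm_add_le _ _
          _ ≤ K * ‖J w t - J z₀ t‖ + K * (‖w - z₀‖ * E) * E := by linarith) t ht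
    refine (h.trans (hgb _ (by positivity) t ht)).trans (le_of_eq ?_)
    ring

/-- Estimates for all times. -/
theorem flow_est [FiniteDimensional ℝ Z] (X : Z → Z) (hX : ContDiff ℝ ∞ X) (φ : Z → ℝ → Z)
    (J : Z → ℝ → (Z →L[ℝ] Z)) (hφ0 : ∀ z, φ z 0 = z)
    (hJ0 : ∀ z, J z 0 = ContinuousLinearMap.id ℝ Z)
    (hφ : ∀ z t, HasDerivAt (φ z) (X (φ z t)) t)
    (hJ : ∀ z t, HasDerivAt (J z) ((fderiv ℝ X (φ z t)).comp (J z t)) t) (z₀ : Z) (T : ℝ)
    (hT : 0 ≤ T) :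
    ∃ δ > 0, ∃ C : ℝ, 0 ≤ C ∧ ∀ w, ‖w - z₀‖ < δ → ∀ t, |t| ≤ T →
      ‖φ w t - φ z₀ t‖ ≤ C * ‖w - z₀‖ ∧
      ‖φ w t - φ z₀ t - J z₀ t (w - z₀)‖ ≤ C * ‖w - z₀‖ ^ 2 ∧
      ‖J w t - J z₀ t‖ ≤ C * ‖w - z₀‖ := by
  obtain ⟨δ₁, hδ₁, C₁, hC₁, h₁⟩ := flow_est_pos X hX φ J hφ0 hJ0 hφ hJ z₀ T hT
  obtain ⟨δ₂, hδ₂, C₂, hC₂, h₂⟩ := flow_est_pos (fun z => -X z) hX.neg (fun z t => φ z (-t))
    (fun z t => J z (-t)) (fun z => by simp [hφ0]) (fun z => by simp [hJ0])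
    (fun z t => by
      have h := (hφ z (-t)).scomp t (hasDerivAt_neg t)
      exact h.congr_deriv (by simp))
    (fun z t => by
      have h := (hJ z (-t)).scomp t (hasDerivAt_neg t)
      refine h.congr_deriv ?_
      rw [fderiv_fun_neg]
      ext v
      simp) z₀ T hT
  refine ⟨min δ₁ δ₂, lt_min hδ₁ hδ₂, max C₁ C₂, le_max_of_le_left hC₁, ?_⟩
  intro w hw t ht
  have hn : 0 ≤ ‖w - z₀‖ := norm_nonneg _
  rcases le_total 0 t with h0 | h0
  · obtain ⟨e1, e2, e3⟩ := h₁ w (hw.trans_le (min_le_left _ _)) t ⟨h0, (le_abs_self t).trans ht⟩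
    exact ⟨e1.trans (mul_le_mul_of_nonneg_right (le_max_left _ _) hn),
      e2.trans (mul_le_mul_of_nonneg_right (le_max_left _ _) (by positivity)),
      e3.trans (mul_le_mul_of_nonneg_right (le_max_left _ _) hn)⟩
  · obtain ⟨e1, e2, e3⟩ := h₂ w (hw.trans_le (min_le_right _ _)) (-t)
      ⟨by linarith, (neg_le_abs t).trans ht⟩
    simp only [neg_neg] at e1 e2 e3
    exact ⟨e1.trans (mul_le_mul_of_nonneg_right (le_max_right _ _) hn),
      e2.trans (mul_le_mul_of_nonneg_right (le_max_right _ _) (by positivity)),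
      e3.trans (mul_le_mul_of_nonneg_right (le_max_right _ _) hn)⟩

omit [NormedSpace ℝ Z] in
/-- Joint continuity from a local Lipschitz estimate in the first variable. -/
theorem cont_of_est {F : Type*} [NormedAddCommGroup F] (g : Z → ℝ → F)
    (hg : ∀ z, Continuous (g z))
    (h : ∀ (z₀ : Z) (T : ℝ), 0 ≤ T → ∃ δ > 0, ∃ C : ℝ, 0 ≤ C ∧ ∀ w, ‖w - z₀‖ < δ → ∀ t, |t| ≤ T →
      ‖g w t - g z₀ t‖ ≤ C * ‖w - z₀‖) :
    Continuous (fun p : Z × ℝ => g p.1 p.2) := by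
  rw [continuous_iff_continuousAt]
  rintro ⟨z₀, t₀⟩
  obtain ⟨δ, hδ, C, hC, H⟩ := h z₀ (|t₀| + 1) (by positivity)
  have h1 : Filter.Tendsto (fun p : Z × ℝ => C * ‖p.1 - z₀‖ + ‖g z₀ p.2 - g z₀ t₀‖) (𝓝 (z₀, t₀))
      (𝓝 0) := by
    have hc : Continuous (fun p : Z × ℝ => C * ‖p.1 - z₀‖ + ‖g z₀ p.2 - g z₀ t₀‖) := by
      have := (hg z₀).comp (continuous_snd : Continuous (Prod.snd : Z × ℝ → ℝ))
      have h2 : Continuous (fun p : Z × ℝ => g z₀ p.2) := this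
      fun_prop
    have := hc.tendsto (z₀, t₀)
    simpa using this
  have h2 : Filter.Tendsto (fun p : Z × ℝ => ‖g p.1 p.2 - g z₀ t₀‖) (𝓝 (z₀, t₀)) (𝓝 0) := by
    refine squeeze_zero' (Filter.Eventually.of_forall fun p => norm_nonneg _) ?_ h1
    have e1 : ∀ᶠ p : Z × ℝ in 𝓝 (z₀, t₀), ‖p.1 - z₀‖ < δ := by
      have hc : Continuous (fun p : Z × ℝ => ‖p.1 - z₀‖) := by fun_prop
      have := hc.tendsto (z₀, t₀)
      simp only [sub_self, norm_zero] at this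
      exact this.eventually (gt_mem_nhds hδ)
    have e2 : ∀ᶠ p : Z × ℝ in 𝓝 (z₀, t₀), |p.2| < |t₀| + 1 := by
      have hc : Continuous (fun p : Z × ℝ => |p.2|) := by fun_prop
      have := hc.tendsto (z₀, t₀)
      exact this.eventually (gt_mem_nhds (by simp))
    filter_upwards [e1, e2] with p hp1 hp2
    have := H p.1 hp1 p.2 hp2.le
    calc ‖g p.1 p.2 - g z₀ t₀‖ = ‖(g p.1 p.2 - g z₀ p.2) + (g z₀ p.2 - g z₀ t₀)‖ := by abel_nf
      _ ≤ ‖g p.1 p.2 - g z₀ p.2‖ + ‖g z₀ p.2 - g z₀ t₀‖ := norm_add_le _ _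
      _ ≤ C * ‖p.1 - z₀‖ + ‖g z₀ p.2 - g z₀ t₀‖ := by linarith
  exact tendsto_iff_norm_sub_tendsto_zero.2 h2

end Aux

theorem flow_C1 {Z : Type*} [NormedAddCommGroup Z] [NormedSpace ℝ Z] [FiniteDimensional ℝ Z]
    (X : Z → Z) (hX : ContDiff ℝ ∞ X) (hc : Complete X) :
    ∃ (φ : Z × ℝ → Z) (J : Z × ℝ → (Z →L[ℝ] Z)), Continuous φ ∧ Continuous J ∧
      (∀ z, φ (z, 0) = z) ∧ (∀ z, J (z, 0) = ContinuousLinearMap.id ℝ Z) ∧
      (∀ z t, HasDerivAt (fun τ => φ (z, τ)) (X (φ (z, t))) t) ∧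
      (∀ z t, HasDerivAt (fun τ => J (z, τ)) ((fderiv ℝ X (φ (z, t))).comp (J (z, t))) t) ∧
      ∀ z t, HasFDerivAt (fun w => φ (w, t)) (J (z, t)) z := by
  choose φ hφ0 hφ using hc
  have hcont : ∀ z, Continuous (φ z) := fun z =>
    continuous_iff_continuousAt.2 fun t => (hφ z t).continuousAt
  have hsm : ∀ z, ContDiff ℝ 1 (φ z) := by
    intro z
    rw [contDiff_one_iff_deriv]
    refine ⟨fun t => (hφ z t).differentiableAt, ?_⟩
    have : deriv (φ z) = fun t => X (φ z t) := funext fun t => (hφ z t).deriv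
    rw [this]
    exact hX.continuous.comp (hcont z)
  have hdX : ContDiff ℝ ∞ (fderiv ℝ X) := hX.fderiv_right (by simp)
  have hJex : ∀ z, ∃ J : ℝ → (Z →L[ℝ] Z), J 0 = ContinuousLinearMap.id ℝ Z ∧
      ∀ t, HasDerivAt J ((fderiv ℝ X (φ z t)).comp (J t)) t := by
    intro z
    have h1 : ContDiff ℝ 1 (fun t => fderiv ℝ X (φ z t)) :=
      (hdX.of_le (by exact_mod_cast le_top)).comp (hsm z)
    obtain ⟨J, h0, hJ⟩ := ode_global (H := Z →L[ℝ] Z)
      (fun q => (fderiv ℝ X (φ z q.1)).comp q.2)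
      ((h1.comp contDiff_fst).clm_comp contDiff_snd)
      (fun r => by
        obtain ⟨C, hC⟩ := (isCompact_Icc (a := -r) (b := r)).exists_bound_of_continuousOn
          h1.continuous.continuousOn
        refine ⟨max C 0, fun t x ht => ?_⟩
        have e1 := hC t (abs_le.1 ht)
        have e2 : ‖(fderiv ℝ X (φ z t)).comp x‖ ≤ ‖fderiv ℝ X (φ z t)‖ * ‖x‖ :=
          ContinuousLinearMap.opNorm_comp_le _ _
        have e3 : ‖fderiv ℝ X (φ z t)‖ * ‖x‖ ≤ max C 0 * (1 + ‖x‖) :=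
          mul_le_mul (e1.trans (le_max_left _ _)) (by linarith) (norm_nonneg _) (le_max_right _ _)
        exact e2.trans e3) (ContinuousLinearMap.id ℝ Z)
    exact ⟨J, h0, hJ⟩
  choose J hJ0 hJ using hJex
  have hcontJ : ∀ z, Continuous (J z) := fun z =>
    continuous_iff_continuousAt.2 fun t => (hJ z t).continuousAt
  have hest := flow_est X hX φ J hφ0 hJ0 hφ hJ
  refine ⟨fun p => φ p.1 p.2, fun p => J p.1 p.2, ?_, ?_, hφ0, hJ0, hφ, hJ, ?_⟩
  · apply cont_of_est φ hcont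
    intro z₀ T hT
    obtain ⟨δ, hδ, C, hC, H⟩ := hest z₀ T hT
    exact ⟨δ, hδ, C, hC, fun w hw t ht => (H w hw t ht).1⟩
  · apply cont_of_est J hcontJ
    intro z₀ T hT
    obtain ⟨δ, hδ, C, hC, H⟩ := hest z₀ T hT
    exact ⟨δ, hδ, C, hC, fun w hw t ht => (H w hw t ht).2.2⟩
  · intro z t
    obtain ⟨δ, hδ, C, hC, H⟩ := hest z |t| (abs_nonneg t)
    apply HasFDerivAt.of_isLittleO
    have h1 : (fun w => φ w t - φ z t - J z t (w - z)) =O[𝓝 z] fun w => ‖w - z‖ ^ 2 := by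
      apply Asymptotics.IsBigO.of_bound C
      have : Metric.ball z δ ∈ 𝓝 z := Metric.ball_mem_nhds z hδ
      filter_upwards [this] with w hw
      rw [Metric.mem_ball, dist_eq_norm] at hw
      have := (H w hw t le_rfl).2.1
      simpa using this
    have h2 : (fun w : Z => ‖w - z‖ ^ 2) =o[𝓝 z] fun w => w - z := by
      have h3 : (fun w : Z => ‖w - z‖ ^ 2) =o[𝓝 z] fun w => ‖w - z‖ := by
        have h4 : (fun x : ℝ => x ^ 2) =o[𝓝 0] fun x => x := Asymptotics.isLittleO_pow_id one_lt_two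
        have h5 : Filter.Tendsto (fun w : Z => ‖w - z‖) (𝓝 z) (𝓝 0) := by
          have hc : Continuous (fun w : Z => ‖w - z‖) := by fun_prop
          have := hc.tendsto z
          simpa using this
        exact h4.comp_tendsto h5
      exact h3.of_norm_right
    exact h1.trans_isLittleO h2

end Pool.Agent.H86.Nco
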