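import Pool.Agent.H86.Nco.Ode2

/-!
# Module ODE3: the flow of a complete smooth vector field is smooth (bootstrapping)

Claim: for all `n : ℕ`, all finite dimensional `Z` and all smooth complete `X` on `Z` the flow `φ` is
`C^n` on `Z × ℝ`.  `n = 0`: continuity (`flow_C1`; the flow is unique by `ODE_solution_unique_univ` or
the like, `X` is locally Lipschitz).  Step: `Y (z, A) = (X z, X' z ∘ A)` is a smooth vector field on
`Z × (Z →L Z)`, complete (integral curves: `(φ (z, t), J (z, t) ∘ A)`); its flow is `C^n` by induction,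
so `(z, t) ↦ φ (z, t)` and `(z, t) ↦ J (z, t)` are `C^n`, and `φ` has at each point the total derivative
`(v, τ) ↦ J v + τ X (φ)` (partial derivatives exist and are continuous), which is a `C^n` function; so
`φ` is `C^(n+1)` (`contDiff_succ_iff_hasFDerivAt`).  The induction is over all types `Z` of one universe.
-/

open scoped ContDiff Topology

namespace Pool.Agent.H86.Nco

/-- two integral curves with the same initial value agree -/
theorem curve_unique {Z : Type*} [NormedAddCommGroup Z] [NormedSpace ℝ Z] (X : Z → Z)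
    (hX : ContDiff ℝ 1 X) {γ γ' : ℝ → Z} (hγ : ∀ t, HasDerivAt γ (X (γ t)) t)
    (hγ' : ∀ t, HasDerivAt γ' (X (γ' t)) t) (h0 : γ 0 = γ' 0) : γ = γ' := by
  have hc : Continuous γ := continuous_iff_continuousAt.2 fun t => (hγ t).continuousAt
  have hc' : Continuous γ' := continuous_iff_continuousAt.2 fun t => (hγ' t).continuousAt
  have hcl : IsClosed {t | γ t = γ' t} := isClosed_eq hc hc'
  have hop : IsOpen {t | γ t = γ' t} := by
    rw [isOpen_iff_mem_nhds]
    intro t ht
    obtain ⟨K, s, hs, hK⟩ := (hX.contDiffAt (x := γ t)).exists_lipschitzOnWith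
    have h1 : ∀ᶠ τ in 𝓝 t, γ τ ∈ s := (hc.tendsto t).eventually hs
    have h2 : ∀ᶠ τ in 𝓝 t, γ' τ ∈ s := by
      have ht' : γ t = γ' t := ht
      rw [ht'] at hs
      exact (hc'.tendsto t).eventually hs
    exact ODE_solution_unique_of_eventually (v := fun _ => X) (s := fun _ => s)
      (Filter.Eventually.of_forall fun _ => hK)
      (h1.mono fun τ h => ⟨hγ τ, h⟩) (h2.mono fun τ h => ⟨hγ' τ, h⟩) ht
  have huniv : {t | γ t = γ' t} = Set.univ := IsClopen.eq_univ ⟨hcl, hop⟩ ⟨0, h0⟩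
  funext t
  have : t ∈ {t | γ t = γ' t} := by
    rw [huniv]
    trivial
  exact this

theorem flow_smooth_aux (n : ℕ) : ∀ (Z : Type) [NormedAddCommGroup Z] [NormedSpace ℝ Z]
    [FiniteDimensional ℝ Z] (X : Z → Z), ContDiff ℝ ∞ X → ∀ φ : Z × ℝ → Z,
    (∀ z, φ (z, 0) = z) → (∀ z t, HasDerivAt (fun τ => φ (z, τ)) (X (φ (z, t))) t) →
    ContDiff ℝ n φ := by
  induction n with
  | zero =>
    intro Z _ _ _ X hX φ h0 hφ
    obtain ⟨φ', J, hc, -, h0', -, hφ', -, -⟩ := flow_C1 X hX
      (fun z => ⟨fun t => φ (z, t), h0 z, hφ z⟩)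
    have : φ = φ' := by
      funext ⟨z, t⟩
      exact congrFun (curve_unique X (hX.of_le (by exact_mod_cast le_top)) (hφ z) (hφ' z)
        ((h0 z).trans (h0' z).symm)) t
    rw [this]
    exact contDiff_zero.2 hc
  | succ n ih =>
    intro Z _ _ _ X hX φ h0 hφ
    obtain ⟨φ', J, hc, hJc, h0', hJ0, hφ', hJ, hd⟩ := flow_C1 X hX
      (fun z => ⟨fun t => φ (z, t), h0 z, hφ z⟩)
    have hφφ' : φ = φ' := by
      funext ⟨z, t⟩
      exact congrFun (curve_unique X (hX.of_le (by exact_mod_cast le_top)) (hφ z) (hφ' z)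
        ((h0 z).trans (h0' z).symm)) t
    subst hφφ'
    have hX' : ContDiff ℝ ∞ (fderiv ℝ X) := hX.fderiv_right (by exact_mod_cast le_top)
    have hY : ContDiff ℝ ∞ (fun p : Z × (Z →L[ℝ] Z) => (X p.1, (fderiv ℝ X p.1).comp p.2)) :=
      (hX.comp contDiff_fst).prodMk ((hX'.comp contDiff_fst).clm_comp contDiff_snd)
    have hΦ := ih (Z × (Z →L[ℝ] Z)) (fun p => (X p.1, (fderiv ℝ X p.1).comp p.2)) hY
      (fun q => (φ (q.1.1, q.2), (J (q.1.1, q.2)).comp q.1.2)) (fun z => by
        simp only [h0, hJ0, ContinuousLinearMap.id_comp]) (fun z t => by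
        refine (hφ z.1 t).prodMk ?_
        have h1 := hJ z.1 t
        have h2 := (((ContinuousLinearMap.compL ℝ Z Z Z).flip z.2).hasFDerivAt
          (x := J (z.1, t))).comp_hasDerivAt t h1
        exact h2)
    have hid : ContDiff ℝ n (fun q : Z × ℝ => ((q.1, ContinuousLinearMap.id ℝ Z), q.2)) :=
      (contDiff_fst.prodMk contDiff_const).prodMk contDiff_snd
    have hφn : ContDiff ℝ n φ := (contDiff_fst.comp (hΦ.comp hid) :)
    have hJn : ContDiff ℝ n J := by
      have h1 : ContDiff ℝ n (fun q : Z × ℝ => (J (q.1, q.2)).comp (ContinuousLinearMap.id ℝ Z)) :=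
        (contDiff_snd.comp (hΦ.comp hid) :)
      simpa using h1
    have hXn : ContDiff ℝ n X := hX.of_le (by exact_mod_cast le_top)
    have hR : ContDiff ℝ n (fun q => (1 : ℝ →L[ℝ] ℝ).smulRight (X (φ q))) :=
      contDiff_const.smulRight (hXn.comp hφn)
    rw [Nat.cast_add, Nat.cast_one, contDiff_succ_iff_hasFDerivAt]
    refine ⟨fun q => (J q).coprod ((1 : ℝ →L[ℝ] ℝ).smulRight (X (φ q))), ?_, ?_⟩
    · have h1 : (fun q : Z × ℝ => (J q).coprod ((1 : ℝ →L[ℝ] ℝ).smulRight (X (φ q))))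
          = fun q => (J q).comp (ContinuousLinearMap.fst ℝ Z ℝ)
            + ((1 : ℝ →L[ℝ] ℝ).smulRight (X (φ q))).comp (ContinuousLinearMap.snd ℝ Z ℝ) := by
        funext q
        ext v <;> simp
      rw [h1]
      exact (hJn.clm_comp contDiff_const).add (hR.clm_comp contDiff_const)
    · intro q
      have h1 := hasStrictFDerivAt_uncurry_coprod (𝕜 := ℝ) (u := q) (f := fun z t => φ (z, t))
        (f₁ := fun z t => J (z, t))
        (f₂ := fun z t => (1 : ℝ →L[ℝ] ℝ).smulRight (X (φ (z, t))))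
        (Filter.Eventually.of_forall fun v => hd v.1 v.2)
        (Filter.Eventually.of_forall fun v => (hφ v.1 v.2).hasFDerivAt)
        hJc.continuousAt
        hR.continuous.continuousAt
      exact h1.hasFDerivAt

theorem flow_smooth {Z : Type} [NormedAddCommGroup Z] [NormedSpace ℝ Z] [FiniteDimensional ℝ Z]
    (X : Z → Z) (hX : ContDiff ℝ ∞ X) (hc : Complete X) :
    ∃ φ : Z × ℝ → Z, ContDiff ℝ ∞ φ ∧ (∀ z, φ (z, 0) = z) ∧
      ∀ z t, HasDerivAt (fun τ => φ (z, τ)) (X (φ (z, t))) t := by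
  choose γ h0 hγ using hc
  refine ⟨fun q => γ q.1 q.2, ?_, h0, hγ⟩
  rw [contDiff_infty]
  exact fun n => flow_smooth_aux n Z X hX (fun q => γ q.1 q.2) h0 hγ

end Pool.Agent.H86.Nco
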