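import Pool.Agent.H86.Nco.SCalcA

open scoped Manifold ContDiff Bundle Topology

noncomputable section

namespace Pool.Agent.H86.Nco

open Pool.Agent.H86.Anco Pool.Agent.H86.Anco.Natural

variable {K : ℕ} {G : Met K} {P : Type*} [NormedAddCommGroup P] [NormedSpace ℝ P]

theorem nab_metric (N : Conn G) {c X Y : P → V K} {p : P} (hc : DifferentiableAt ℝ c p)
    (hX : DifferentiableAt ℝ X p) (hY : DifferentiableAt ℝ Y p)
    (hcm : ∀ᶠ q in 𝓝 p, c q ∈ carrier K) (hXm : ∀ᶠ q in 𝓝 p, X q ∈ Tan (c q))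
    (hYm : ∀ᶠ q in 𝓝 p, Y q ∈ Tan (c q)) :
    DifferentiableAt ℝ (fun q => gm G (c q) (X q) (Y q)) p ∧
    ∀ u, fderiv ℝ (fun q => gm G (c q) (X q) (Y q)) p u =
      gm G (c p) (nab N.Γ c X p u) (Y p) + gm G (c p) (X p) (nab N.Γ c Y p u) := by
  set i := idx (c p) with hi
  set y : P → E K := fun q => Cor i (c q) with hy
  set x : P → E K := fun q => fderiv ℝ (Cor i) (c q) (X q) with hx
  set x' : P → E K := fun q => fderiv ℝ (Cor i) (c q) (Y q) with hx'
  have hyd : DifferentiableAt ℝ y p := differentiableAt_coord hc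
  have hxd : DifferentiableAt ℝ x p := differentiableAt_coord_vec hc hX
  have hxd' : DifferentiableAt ℝ x' p := differentiableAt_coord_vec hc hY
  have hcy : ∀ᶠ q in 𝓝 p, c q = Par i (y q) := coord_map hc.continuousAt hcm
  have hXx : ∀ᶠ q in 𝓝 p, X q = fderiv ℝ (Par i) (y q) (x q) :=
    coord_vec hc.continuousAt hcm hXm
  have hYx : ∀ᶠ q in 𝓝 p, Y q = fderiv ℝ (Par i) (y q) (x' q) :=
    coord_vec hc.continuousAt hcm hYm
  have hev : (fun q => gm G (c q) (X q) (Y q)) =ᶠ[𝓝 p] fun q => G.g i (y q) (x q) (x' q) := by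
    filter_upwards [hcy, hXx, hYx] with q h1 h2 h3
    unfold gm
    rw [h2, h3, h1, amb_Par G.compat]
  have hg : HasFDerivAt (G.g i) (fderiv ℝ (G.g i) (y p)) (y p) :=
    ((G.smooth i).differentiable (by simp) (y p)).hasFDerivAt
  have hD := (((hg.comp p hyd.hasFDerivAt).clm_apply hxd.hasFDerivAt).clm_apply
    hxd'.hasFDerivAt).congr_of_eventuallyEq hev
  refine ⟨hD.differentiableAt, fun u => ?_⟩
  rw [hD.fderiv, nab_chart N i hyd hxd hcy hXx u, nab_chart N i hyd hxd' hcy hYx u,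
    hXx.self_of_nhds, hYx.self_of_nhds, hcy.self_of_nhds]
  unfold gm
  rw [amb_Par G.compat, amb_Par G.compat]
  have e1 : ∀ a b d : E K, G.g i (y p) (chr (G.g i) (y p) a b) d =
      (fderiv ℝ (G.g i) (y p) a b d + fderiv ℝ (G.g i) (y p) b a d
        - fderiv ℝ (G.g i) (y p) d a b) / 2 := by
    intro a b d
    rw [apply_chr (G.pos i (y p)), chr1_apply]
  have e2 := G.symm i (y p) (x p) (chr (G.g i) (y p) (fderiv ℝ y p u) (x' p))
  have hs : ∀ a b d : E K, fderiv ℝ (G.g i) (y p) a b d = fderiv ℝ (G.g i) (y p) a d b := by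
    intro a b d
    have h2 : HasFDerivAt (fun z => G.g i z b d) _ (y p) :=
      (hg.clm_apply (hasFDerivAt_const b (y p))).clm_apply (hasFDerivAt_const d (y p))
    have h3 : HasFDerivAt (fun z => G.g i z d b) _ (y p) :=
      (hg.clm_apply (hasFDerivAt_const d (y p))).clm_apply (hasFDerivAt_const b (y p))
    have h4 : (fun z => G.g i z b d) = fun z => G.g i z d b := by
      funext z
      exact G.symm i z b d
    rw [h4] at h2
    have h5 := congrArg (fun L => L a) (h2.unique h3)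
    simpa using h5
  simp only [add_apply, ContinuousLinearMap.comp_apply, ContinuousLinearMap.flip_apply, map_add]
  rw [e2, e1, e1, hs (fderiv ℝ y p u) (x' p) (x p), hs (x p) (fderiv ℝ y p u) (x' p),
    hs (x' p) (fderiv ℝ y p u) (x p), G.symm i (y p) (fderiv ℝ x p u) (x' p)]
  ring


end Pool.Agent.H86.Nco
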