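import Pool.Agent.H86.Nco.SCalcA
import Pool.Agent.H86.Nco.SCalcM

open scoped Manifold ContDiff Bundle Topology

noncomputable section

namespace Pool.Agent.H86.Nco

open Pool.Agent.H86.Anco Pool.Agent.H86.Anco.Natural

variable {K : ℕ} {G : Met K} {P : Type*} [NormedAddCommGroup P] [NormedSpace ℝ P]

/-- smoothness of `q ↦ gm G (c q) (X q) (Y q)` -/
theorem contDiff_gm {c X Y : P → V K} (hc : ContDiff ℝ ∞ c) (hX : ContDiff ℝ ∞ X)
    (hY : ContDiff ℝ ∞ Y) (hcm : ∀ q, c q ∈ carrier K) (hXm : ∀ q, X q ∈ Tan (c q))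
    (hYm : ∀ q, Y q ∈ Tan (c q)) :
    ContDiff ℝ ∞ (fun q => gm G (c q) (X q) (Y q)) := by
  rw [contDiff_iff_contDiffAt]
  intro p
  set i := idx (c p) with hi
  have hc' := hc.contDiffAt (x := p)
  have h1 : ContDiffAt ℝ ∞ (fun q => Cor i (c q)) p := contDiffAt_coord hc'
  have h2 : ContDiffAt ℝ ∞ (fun q => fderiv ℝ (Cor i) (c q) (X q)) p :=
    contDiffAt_coord_vec hc' hX.contDiffAt
  have h3 : ContDiffAt ℝ ∞ (fun q => fderiv ℝ (Cor i) (c q) (Y q)) p :=
    contDiffAt_coord_vec hc' hY.contDiffAt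
  have h4 : ContDiffAt ℝ ∞ (fun q => G.g i (Cor i (c q))) p :=
    (G.smooth i).contDiffAt.comp p h1
  refine ((h4.clm_apply h2).clm_apply h3).congr_of_eventuallyEq ?_
  have hd : ∀ᶠ q in 𝓝 p, c q ∈ Dom K i :=
    hc'.continuousAt ((isOpen_Dom _).mem_nhds (mem_Dom_idx _))
  filter_upwards [hd] with q hq
  exact amb_eq G.compat i (hcm q) hq (hXm q) (hYm q)

/-- smoothness of covariant derivatives -/
theorem contDiff_nab (N : Conn G) {c X : P → V K} (hc : ContDiff ℝ ∞ c) (hX : ContDiff ℝ ∞ X)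
    (u : P) : ContDiff ℝ ∞ (fun q => nab N.Γ c X q u) := by
  unfold nab
  have h1 : ContDiff ℝ ∞ (fderiv ℝ X) := hX.fderiv_right (by exact_mod_cast le_top)
  have h2 : ContDiff ℝ ∞ (fderiv ℝ c) := hc.fderiv_right (by exact_mod_cast le_top)
  exact (h1.clm_apply contDiff_const).sub
    (((N.smooth.comp hc).clm_apply (h2.clm_apply contDiff_const)).clm_apply hX)

/-! ### Linear algebra -/

/-- the metric as a bilinear map -/
def gmB (G : Met K) (p : V K) : V K →L[ℝ] V K →L[ℝ] ℝ :=
  (G.g (idx p) (Cor (idx p) p)).bilinearComp (fderiv ℝ (Cor (idx p)) p) (fderiv ℝ (Cor (idx p)) p)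

lemma gmB_apply (G : Met K) (p v w : V K) : gmB G p v w = gm G p v w := by
  simp [gmB, gm, amb]

/-- linear algebra of `gm` on tangent spaces -/
theorem gm_symm {p : V K} (v w : V K) : gm G p v w = gm G p w v :=
  G.symm _ _ _ _

theorem gm_pos {p : V K} (hp : p ∈ carrier K) {v : V K} (hv : v ∈ Tan p) (h0 : v ≠ 0) :
    0 < gm G p v v := by
  apply G.pos
  intro h
  apply h0
  rw [← fderiv_Par_Cor (idx p) hp (mem_Dom_idx p) hv, h, map_zero]

theorem gm_add {p : V K} (v w x : V K) : gm G p (v + w) x = gm G p v x + gm G p w x := by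
  simp only [← gmB_apply, map_add, add_apply]

theorem gm_smul {p : V K} (r : ℝ) (v w : V K) : gm G p (r • v) w = r * gm G p v w := by
  simp only [← gmB_apply, map_smul, smul_apply, smul_eq_mul]

lemma Adapted.gm_sum {J : V K → V K →L[ℝ] V K} {p : V K}
    {f : Fin (K + 4) → V K} (hf : Adapted G J p f) (g : Fin (K + 4) → ℝ) (k : Fin (K + 4)) :
    gm G p (∑ j, g j • f j) (f k) = g k := by
  rw [← gmB_apply, map_sum, sum_apply]
  simp only [map_smul, smul_apply, smul_eq_mul, gmB_apply, hf.orth]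
  simp

/-- expansion of tangent vectors in an adapted orthonormal frame -/
theorem Adapted.expand {J : V K → V K →L[ℝ] V K} {p : V K} (hp : p ∈ carrier K)
    {f : Fin (K + 4) → V K} (hf : Adapted G J p f) {v : V K} (hv : v ∈ Tan p) :
    v = ∑ j, gm G p v (f j) • f j := by
  let f' : Fin (K + 4) → Tan p := fun j => ⟨f j, hf.mem j⟩
  have hsum : ∀ g : Fin (K + 4) → ℝ, ((∑ j, g j • f' j : Tan p) : V K) = ∑ j, g j • f j := by
    intro g
    rw [AddSubmonoidClass.coe_finsetSum]
    rfl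
  have hli : LinearIndependent ℝ f' := by
    rw [Fintype.linearIndependent_iff]
    intro g hg k
    have h1 : ∑ j, g j • f j = 0 := by
      rw [← hsum, hg]
      rfl
    have h2 := hf.gm_sum g k
    rw [h1, ← gmB_apply, map_zero] at h2
    exact h2.symm
  have hspan : Submodule.span ℝ (Set.range f') = ⊤ := by
    apply hli.span_eq_top_of_card_eq_finrank'
    rw [finrank_Tan hp, Fintype.card_fin]
  have hmem : (⟨v, hv⟩ : Tan p) ∈ Submodule.span ℝ (Set.range f') := by
    rw [hspan]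
    trivial
  rw [Submodule.mem_span_range_iff_exists_fun] at hmem
  obtain ⟨g, hg⟩ := hmem
  have hg' : ∑ j, g j • f j = v := by
    rw [← hsum, hg]
  have hk : ∀ k, gm G p v (f k) = g k := by
    intro k
    rw [← hg']
    exact hf.gm_sum g k
  simp only [hk]
  exact hg'.symm

/-- `J` of a tangent vector in an adapted frame -/
lemma Adapted.J_eq {J : V K → V K →L[ℝ] V K} {p : V K} (hp : p ∈ carrier K)
    {f : Fin (K + 4) → V K} (hf : Adapted G J p f) {v : V K} (hv : v ∈ Tan p) :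
    J p v = gm G p v (f 0) • f 1 - gm G p v (f 1) • f 0 := by
  conv_lhs => rw [hf.expand hp hv]
  rw [map_sum, Fin.sum_univ_succ, Fin.sum_univ_succ]
  have h2 : ∀ j : Fin (K + 2), J p (gm G p v (f j.succ.succ) • f j.succ.succ) = 0 := by
    intro j
    rw [map_smul, hf.J2 j, smul_zero]
  rw [Finset.sum_congr rfl fun j _ => h2 j, Finset.sum_const_zero, add_zero, Fin.succ_zero_eq_one,
    map_smul, map_smul, hf.J0, hf.J1, smul_neg]
  abel

/-- the kernel and the range of `J` in terms of an adapted frame -/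
theorem Adapted.mem_L1 {J : V K → V K →L[ℝ] V K} {p : V K} (hp : p ∈ carrier K)
    {f : Fin (K + 4) → V K} (hf : Adapted G J p f) {v : V K} (hv : v ∈ Tan p) :
    J p (J p v) = - v ↔ v = gm G p v (f 0) • f 0 + gm G p v (f 1) • f 1 := by
  have h1 : J p (J p v) = -(gm G p v (f 0) • f 0 + gm G p v (f 1) • f 1) := by
    rw [hf.J_eq hp hv, map_sub, map_smul, map_smul, hf.J0, hf.J1, smul_neg]
    abel
  rw [h1, neg_inj]
  exact eq_comm

theorem Adapted.mem_L2 {J : V K → V K →L[ℝ] V K} {p : V K} (hp : p ∈ carrier K)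
    {f : Fin (K + 4) → V K} (hf : Adapted G J p f) {v : V K} (hv : v ∈ Tan p) :
    J p v = 0 ↔ gm G p v (f 0) = 0 ∧ gm G p v (f 1) = 0 := by
  rw [hf.J_eq hp hv]
  constructor
  · intro h
    have h01 : gm G p (f 0) (f 1) = 0 := by
      rw [hf.orth, if_neg]
      exact Fin.zero_ne_one
    have h10 : gm G p (f 1) (f 0) = 0 := by
      rw [gm_symm, h01]
    have h00 : gm G p (f 0) (f 0) = 1 := by
      rw [hf.orth, if_pos rfl]
    have h11 : gm G p (f 1) (f 1) = 1 := by
      rw [hf.orth, if_pos rfl]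
    have hs := fun w : V K => congrArg (fun z => gmB G p z w) h
    have h1 := hs (f 1)
    have h0 := hs (f 0)
    simp only [map_sub, map_smul, sub_apply, smul_apply, smul_eq_mul, gmB_apply, h01, h10, h00,
      h11, map_zero, zero_apply] at h1 h0
    constructor <;> linarith
  · rintro ⟨h0, h1⟩
    rw [h0, h1, zero_smul, zero_smul, sub_zero]


end Pool.Agent.H86.Nco
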