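import Pool.Agent.H86.Nco.SCalcA

open scoped Manifold ContDiff Bundle Topology

noncomputable section

namespace Pool.Agent.H86.Nco

open Pool.Agent.H86.Anco Pool.Agent.H86.Anco.Natural

variable {K : ℕ} {G : Met K} {P : Type*} [NormedAddCommGroup P] [NormedSpace ℝ P]

theorem nab_J (N : Conn G) {a : Form2 K} (S : JStr G a) {c X : P → V K} {p : P}
    (hc : DifferentiableAt ℝ c p) (hX : DifferentiableAt ℝ X p)
    (hcm : ∀ᶠ q in 𝓝 p, c q ∈ carrier K) (hXm : ∀ᶠ q in 𝓝 p, X q ∈ Tan (c q)) (u : P) :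
    nab N.Γ c (fun q => S.J (c q) (X q)) p u = S.J (c p) (nab N.Γ c X p u) := by
  set i := idx (c p) with hi
  set y : P → E K := fun q => Cor i (c q) with hy
  set x : P → E K := fun q => fderiv ℝ (Cor i) (c q) (X q) with hx
  have hyd : DifferentiableAt ℝ y p := differentiableAt_coord hc
  have hxd : DifferentiableAt ℝ x p := differentiableAt_coord_vec hc hX
  have hcy : ∀ᶠ q in 𝓝 p, c q = Par i (y q) := coord_map hc.continuousAt hcm
  have hXx : ∀ᶠ q in 𝓝 p, X q = fderiv ℝ (Par i) (y q) (x q) :=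
    coord_vec hc.continuousAt hcm hXm
  let L : E K → E K →L[ℝ] E K := fun z =>
    (fderiv ℝ (Cor i) (Par i z)).comp ((S.J (Par i z)).comp (fderiv ℝ (Par i) z))
  have hLa : ∀ z w, L z w = fderiv ℝ (Cor i) (Par i z) (S.J (Par i z) (fderiv ℝ (Par i) z w)) :=
    fun z w => rfl
  have hLd : DifferentiableAt ℝ L (y p) := by
    have h1 : DifferentiableAt ℝ (fun z => fderiv ℝ (Cor i) (Par i z)) (y p) :=
      DifferentiableAt.comp (y p)
        ((contDiffAt_fderiv_Cor i (Par_mem_Dom i (y p))).differentiableAt (by simp))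
        (differentiableAt_Par i (y p))
    have h2 : DifferentiableAt ℝ (fun z => S.J (Par i z)) (y p) :=
      DifferentiableAt.comp (y p) (S.smooth.differentiable (by simp) (Par i (y p)))
        (differentiableAt_Par i (y p))
    have h3 : DifferentiableAt ℝ (fderiv ℝ (Par i)) (y p) :=
      (contDiff_fderiv_Par i).differentiable (by simp) (y p)
    exact h1.clm_comp (h2.clm_comp h3)
  -- `J` in the chart
  have hkey : ∀ z w : E K, S.J (Par i z) (fderiv ℝ (Par i) z w) = fderiv ℝ (Par i) z (L z w) := by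
    intro z w
    have h5 := S.mem (Par i z) (Par_mem i z) (fderiv ℝ (Par i) z w)
      ((mem_Tan_Par i z _).2 ⟨w, rfl⟩)
    have h6 := fderiv_Par_Cor i (Par_mem i z) (Par_mem_Dom i z) h5
    rw [Cor_Par] at h6
    rw [hLa, h6]
  have hJX : ∀ᶠ q in 𝓝 p, S.J (c q) (X q) = fderiv ℝ (Par i) (y q) (L (y q) (x q)) := by
    filter_upwards [hcy, hXx] with q h1 h2
    rw [h2, h1, hkey]
  have hLx : HasFDerivAt (fun q => L (y q) (x q)) _ p :=
    (hLd.hasFDerivAt.comp p hyd.hasFDerivAt).clm_apply hxd.hasFDerivAt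
  rw [nab_chart N i hyd hLx.differentiableAt hcy hJX u, nab_chart N i hyd hxd hcy hXx u,
    hcy.self_of_nhds, hkey, hLx.fderiv]
  congr 1
  have hpar := S.par i (y p) (fderiv ℝ y p u) (x p)
  have hLc : fderiv ℝ (fun z => fderiv ℝ (Cor i) (Par i z)
      (S.J (Par i z) (fderiv ℝ (Par i) z (x p)))) (y p) (fderiv ℝ y p u) =
      fderiv ℝ L (y p) (fderiv ℝ y p u) (x p) := by
    have h : HasFDerivAt (fun z => L z (x p)) _ (y p) :=
      hLd.hasFDerivAt.clm_apply (hasFDerivAt_const (x p) (y p))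
    have h2 : (fun z => fderiv ℝ (Cor i) (Par i z) (S.J (Par i z) (fderiv ℝ (Par i) z (x p)))) =
      fun z => L z (x p) := rfl
    rw [h2, h.fderiv]
    simp
  rw [hLc, ← hLa, ← hLa] at hpar
  simp only [add_apply, ContinuousLinearMap.comp_apply, ContinuousLinearMap.flip_apply,
    Function.comp, map_add]
  rw [sub_eq_zero] at hpar
  rw [← hpar]
  abel


end Pool.Agent.H86.Nco
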