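import Pool.Agent.H86.Nco.SCalcK
import Pool.Agent.H86.Nco.SCalcJ
import Pool.Agent.H86.Nco.SCalcB

/-!
# Module SCALC: calculus with the ambient covariant derivative (collects the parts A, M, K, J, B)
-/
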