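import Pool.Agent.H86.Nco.SConn

open scoped Manifold ContDiff Bundle Topology

noncomputable section

namespace Pool.Agent.H86.Nco

open Pool.Agent.H86.Anco Pool.Agent.H86.Anco.Natural

variable {K : ℕ} {G : Met K} {P : Type*} [NormedAddCommGroup P] [NormedSpace ℝ P]

/-! ### Preparations -/

lemma contDiff_fderiv_Par (i : Ix) :
    ContDiff ℝ ∞ (fderiv ℝ (Par i) : E K → E K →L[ℝ] V K) :=
  (contDiff_Par i).fderiv_right (by exact_mod_cast le_top)

lemma contDiff_chrB (G : Met K) (i : Ix) : ContDiff ℝ ∞ (chrB (G.g i)) :=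
  contDiff_iff_contDiffAt.2 fun y => contDiffAt_chrB (isMetricAt G i y)

lemma contDiffAt_Cor (i : Ix) {p : V K} (hd : p ∈ Dom K i) :
    ContDiffAt ℝ ∞ (Cor i : V K → E K) p :=
  (contDiffOn_Cor i).contDiffAt ((isOpen_Dom i).mem_nhds hd)

lemma contDiffAt_fderiv_Cor (i : Ix) {p : V K} (hd : p ∈ Dom K i) :
    ContDiffAt ℝ ∞ (fderiv ℝ (Cor i : V K → E K)) p :=
  (contDiffAt_Cor i hd).fderiv_right (by exact_mod_cast le_top)

omit [NormedSpace ℝ P] in
lemma coord_map {c : P → V K} {p : P} (hc : ContinuousAt c p)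
    (hcm : ∀ᶠ q in 𝓝 p, c q ∈ carrier K) :
    ∀ᶠ q in 𝓝 p, c q = Par (idx (c p)) (Cor (idx (c p)) (c q)) := by
  have hd : ∀ᶠ q in 𝓝 p, c q ∈ Dom K (idx (c p)) :=
    hc ((isOpen_Dom _).mem_nhds (mem_Dom_idx _))
  filter_upwards [hcm, hd] with q h1 h2
  exact (Par_Cor _ h1 h2).symm

omit [NormedSpace ℝ P] in
lemma coord_vec {c X : P → V K} {p : P} (hc : ContinuousAt c p)
    (hcm : ∀ᶠ q in 𝓝 p, c q ∈ carrier K) (hXm : ∀ᶠ q in 𝓝 p, X q ∈ Tan (c q)) :
    ∀ᶠ q in 𝓝 p, X q = fderiv ℝ (Par (idx (c p))) (Cor (idx (c p)) (c q))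
      (fderiv ℝ (Cor (idx (c p))) (c q) (X q)) := by
  have hd : ∀ᶠ q in 𝓝 p, c q ∈ Dom K (idx (c p)) :=
    hc ((isOpen_Dom _).mem_nhds (mem_Dom_idx _))
  filter_upwards [hcm, hd, hXm] with q h1 h2 h3
  exact (fderiv_Par_Cor _ h1 h2 h3).symm

lemma differentiableAt_coord {c : P → V K} {p : P} (hc : DifferentiableAt ℝ c p) :
    DifferentiableAt ℝ (fun q => Cor (idx (c p)) (c q)) p :=
  DifferentiableAt.comp (g := (Cor (idx (c p)) : V K → E K)) (f := c) p
    (differentiableAt_Cor (idx (c p)) (mem_Dom_idx (c p))) hc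

lemma differentiableAt_coord_vec {c X : P → V K} {p : P} (hc : DifferentiableAt ℝ c p)
    (hX : DifferentiableAt ℝ X p) :
    DifferentiableAt ℝ (fun q => fderiv ℝ (Cor (idx (c p))) (c q) (X q)) p := by
  have h1 : DifferentiableAt ℝ (fderiv ℝ (Cor (idx (c p)) : V K → E K)) (c p) :=
    (contDiffAt_fderiv_Cor (idx (c p)) (mem_Dom_idx (c p))).differentiableAt (by simp)
  exact (DifferentiableAt.comp p h1 hc).clm_apply hX

lemma contDiffAt_coord {c : P → V K} {p : P} (hc : ContDiffAt ℝ ∞ c p) :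
    ContDiffAt ℝ ∞ (fun q => Cor (idx (c p)) (c q)) p :=
  ContDiffAt.comp (g := (Cor (idx (c p)) : V K → E K)) (f := c) p
    (contDiffAt_Cor (idx (c p)) (mem_Dom_idx (c p))) hc

lemma contDiffAt_coord_vec {c X : P → V K} {p : P} (hc : ContDiffAt ℝ ∞ c p)
    (hX : ContDiffAt ℝ ∞ X p) :
    ContDiffAt ℝ ∞ (fun q => fderiv ℝ (Cor (idx (c p))) (c q) (X q)) p :=
  (ContDiffAt.comp p (contDiffAt_fderiv_Cor (idx (c p)) (mem_Dom_idx (c p))) hc).clm_apply hX

lemma chrG_symm (G : Met K) (i : Ix) (y u v : E K) : chr (G.g i) y u v = chr (G.g i) y v u := by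
  have h1 : ∀ c : E K, fderiv ℝ (G.g i) y c u v = fderiv ℝ (G.g i) y c v u := by
    intro c
    have hg : DifferentiableAt ℝ (G.g i) y := (G.smooth i).differentiable (by simp) y
    have h2 : HasFDerivAt (fun z => G.g i z u v) _ y :=
      (hg.hasFDerivAt.clm_apply (hasFDerivAt_const u y)).clm_apply (hasFDerivAt_const v y)
    have h3 : HasFDerivAt (fun z => G.g i z v u) _ y :=
      (hg.hasFDerivAt.clm_apply (hasFDerivAt_const v y)).clm_apply (hasFDerivAt_const u y)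
    have h4 : (fun z => G.g i z u v) = fun z => G.g i z v u := by
      funext z
      exact G.symm i z u v
    rw [h4] at h2
    have h5 := congrArg (fun L => L c) (h2.unique h3)
    simpa using h5
  have h6 : chr1 (G.g i) y u v = chr1 (G.g i) y v u := by
    refine ContinuousLinearMap.ext fun c => ?_
    rw [chr1_apply, chr1_apply, h1 c]
    ring
  unfold chr
  rw [h6]

/-! ### The covariant derivative -/

theorem nab_chart (N : Conn G) {c X : P → V K} {p : P} (i : Ix) {y x : P → E K}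
    (hy : DifferentiableAt ℝ y p) (hx : DifferentiableAt ℝ x p)
    (hc : ∀ᶠ q in 𝓝 p, c q = Par i (y q))
    (hX : ∀ᶠ q in 𝓝 p, X q = fderiv ℝ (Par i) (y q) (x q)) (u : P) :
    nab N.Γ c X p u = fderiv ℝ (Par i) (y p)
      (fderiv ℝ x p u + chr (G.g i) (y p) (fderiv ℝ y p u) (x p)) := by
  have hcf : HasFDerivAt c ((fderiv ℝ (Par i) (y p)).comp (fderiv ℝ y p)) p :=
    ((differentiableAt_Par i (y p)).hasFDerivAt.comp p hy.hasFDerivAt).congr_of_eventuallyEq hc
  have hDP : HasFDerivAt (fderiv ℝ (Par i)) (fderiv ℝ (fderiv ℝ (Par i)) (y p)) (y p) :=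
    ((contDiff_fderiv_Par i).differentiable (by simp) (y p)).hasFDerivAt
  have hXf := ((hDP.comp p hy.hasFDerivAt).clm_apply hx.hasFDerivAt).congr_of_eventuallyEq hX
  have e1 : c p = Par i (y p) := hc.self_of_nhds
  have e2 : X p = fderiv ℝ (Par i) (y p) (x p) := hX.self_of_nhds
  have e3 := N.eq i (y p) (fderiv ℝ y p u) (x p)
  have e4 : fderiv ℝ (fun z => fderiv ℝ (Par i) z (x p)) (y p) (fderiv ℝ y p u) =
      fderiv ℝ (fderiv ℝ (Par i)) (y p) (fderiv ℝ y p u) (x p) := by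
    have h := hDP.clm_apply (hasFDerivAt_const (x p) (y p))
    rw [h.fderiv]
    simp
  unfold nab
  rw [hcf.fderiv, hXf.fderiv, e1, e2, ContinuousLinearMap.comp_apply, e3, e4, map_add]
  simp only [add_apply, ContinuousLinearMap.comp_apply, ContinuousLinearMap.flip_apply,
    Function.comp]
  abel

theorem nab_mem (N : Conn G) {c X : P → V K} {p : P} (hc : DifferentiableAt ℝ c p)
    (hX : DifferentiableAt ℝ X p) (hcm : ∀ᶠ q in 𝓝 p, c q ∈ carrier K)
    (hXm : ∀ᶠ q in 𝓝 p, X q ∈ Tan (c q)) (u : P) : nab N.Γ c X p u ∈ Tan (c p) := by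
  rw [nab_chart N (idx (c p)) (differentiableAt_coord hc) (differentiableAt_coord_vec hc hX)
    (coord_map hc.continuousAt hcm) (coord_vec hc.continuousAt hcm hXm) u]
  exact ⟨_, rfl⟩

theorem nab_comm (N : Conn G) {c : P → V K} {p : P} (hc : ContDiffAt ℝ ∞ c p)
    (hcm : ∀ᶠ q in 𝓝 p, c q ∈ carrier K) (u v : P) :
    nab N.Γ c (fun q => fderiv ℝ c q v) p u = nab N.Γ c (fun q => fderiv ℝ c q u) p v := by
  set i := idx (c p) with hi
  set y : P → E K := fun q => Cor i (c q) with hy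
  have hyc : ContDiffAt ℝ ∞ y p := contDiffAt_coord hc
  have hcy : ∀ᶠ q in 𝓝 p, c q = Par i (y q) := coord_map hc.continuousAt hcm
  have hy2 : ContDiffAt ℝ 2 y p := hyc.of_le (by norm_cast)
  have hyev : ∀ᶠ q in 𝓝 p, ContDiffAt ℝ 2 y q := hy2.eventually (by decide)
  have hDy : ContDiffAt ℝ 1 (fderiv ℝ y) p := hy2.fderiv_right (by norm_num)
  have hX : ∀ w : P, ∀ᶠ q in 𝓝 p, fderiv ℝ c q w = fderiv ℝ (Par i) (y q) (fderiv ℝ y q w) := by
    intro w
    filter_upwards [hcy.eventually_nhds, hyev] with q h1 h2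
    have h3 : HasFDerivAt c ((fderiv ℝ (Par i) (y q)).comp (fderiv ℝ y q)) q :=
      ((differentiableAt_Par i (y q)).hasFDerivAt.comp q
        (h2.differentiableAt (by simp)).hasFDerivAt).congr_of_eventuallyEq h1
    rw [h3.fderiv, ContinuousLinearMap.comp_apply]
  have hDyd := (hDy.differentiableAt (by simp)).hasFDerivAt
  have hxd : ∀ w : P, DifferentiableAt ℝ (fun q => fderiv ℝ y q w) p := fun w =>
    (hDy.differentiableAt (by simp)).clm_apply (differentiableAt_const w)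
  have hfx : ∀ w z : P, fderiv ℝ (fun q => fderiv ℝ y q w) p z = fderiv ℝ (fderiv ℝ y) p z w := by
    intro w z
    have h := hDyd.clm_apply (hasFDerivAt_const w p)
    rw [h.fderiv]
    simp
  have hsym : fderiv ℝ (fderiv ℝ y) p u v = fderiv ℝ (fderiv ℝ y) p v u :=
    (hy2.isSymmSndFDerivAt (by simp)) u v
  rw [nab_chart N i (hy2.differentiableAt (by simp)) (hxd v) hcy (hX v) u,
    nab_chart N i (hy2.differentiableAt (by simp)) (hxd u) hcy (hX u) v, hfx, hfx, hsym,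
    chrG_symm G i (y p) (fderiv ℝ y p u) (fderiv ℝ y p v)]


end Pool.Agent.H86.Nco
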