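import Pool.Agent.H86.Nco.SCalcA

open scoped Manifold ContDiff Bundle Topology

noncomputable section

namespace Pool.Agent.H86.Nco

open Pool.Agent.H86.Anco Pool.Agent.H86.Anco.Natural

variable {K : ℕ} {G : Met K} {P : Type*} [NormedAddCommGroup P] [NormedSpace ℝ P]

theorem nab_curv (N : Conn G) {c X : P → V K} {p : P} (hc : ContDiffAt ℝ ∞ c p)
    (hX : ContDiffAt ℝ ∞ X p) (hcm : ∀ᶠ q in 𝓝 p, c q ∈ carrier K)
    (hXm : ∀ᶠ q in 𝓝 p, X q ∈ Tan (c q)) (u v : P) :
    nab N.Γ c (fun q => nab N.Γ c X q v) p u - nab N.Γ c (fun q => nab N.Γ c X q u) p v =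
      Rm G (c p) (fderiv ℝ c p u) (fderiv ℝ c p v) (X p) := by
  have hd := mem_Dom_idx (c p)
  unfold Rm
  set i := idx (c p) with hi
  set y : P → E K := fun q => Cor i (c q) with hy
  set x : P → E K := fun q => fderiv ℝ (Cor i) (c q) (X q) with hx
  have hyc : ContDiffAt ℝ ∞ y p := contDiffAt_coord hc
  have hxc : ContDiffAt ℝ ∞ x p := contDiffAt_coord_vec hc hX
  have hcy : ∀ᶠ q in 𝓝 p, c q = Par i (y q) := coord_map hc.continuousAt hcm
  have hXx : ∀ᶠ q in 𝓝 p, X q = fderiv ℝ (Par i) (y q) (x q) :=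
    coord_vec hc.continuousAt hcm hXm
  have hy2 : ContDiffAt ℝ 2 y p := hyc.of_le (by norm_cast)
  have hx2 : ContDiffAt ℝ 2 x p := hxc.of_le (by norm_cast)
  have hDy : ContDiffAt ℝ 1 (fderiv ℝ y) p := hy2.fderiv_right (by norm_num)
  have hDx : ContDiffAt ℝ 1 (fderiv ℝ x) p := hx2.fderiv_right (by norm_num)
  have hDyd := (hDy.differentiableAt (by simp)).hasFDerivAt
  have hDxd := (hDx.differentiableAt (by simp)).hasFDerivAt
  have hyd := (hy2.differentiableAt (by simp)).hasFDerivAt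
  have hxd := (hx2.differentiableAt (by simp)).hasFDerivAt
  have hB : HasFDerivAt (chrB (G.g i)) (fderiv ℝ (chrB (G.g i)) (y p)) (y p) :=
    ((contDiff_chrB G i).differentiable (by simp) (y p)).hasFDerivAt
  let W : P → P → E K := fun w q => fderiv ℝ x q w + chrB (G.g i) (y q) (fderiv ℝ y q w) (x q)
  have hW : ∀ w, ∀ᶠ q in 𝓝 p, nab N.Γ c X q w = fderiv ℝ (Par i) (y q) (W w q) := by
    intro w
    filter_upwards [hcy.eventually_nhds, hXx.eventually_nhds, hy2.eventually (by decide),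
      hx2.eventually (by decide)] with q h1 h2 h3 h4
    exact nab_chart N i (h3.differentiableAt (by simp)) (h4.differentiableAt (by simp)) h1 h2 w
  have hWd : ∀ w, DifferentiableAt ℝ (W w) p ∧ ∀ z, fderiv ℝ (W w) p z =
      fderiv ℝ (fderiv ℝ x) p z w + (fderiv ℝ (chrB (G.g i)) (y p) (fderiv ℝ y p z)
        (fderiv ℝ y p w) (x p) + chrB (G.g i) (y p) (fderiv ℝ (fderiv ℝ y) p z w) (x p)
        + chrB (G.g i) (y p) (fderiv ℝ y p w) (fderiv ℝ x p z)) := by
    intro w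
    have hBy : HasFDerivAt (fun q => chrB (G.g i) (y q))
        ((fderiv ℝ (chrB (G.g i)) (y p)).comp (fderiv ℝ y p)) p :=
      HasFDerivAt.comp (g := chrB (G.g i)) (f := y) p hB hyd
    have h : HasFDerivAt (W w) _ p := (hDxd.clm_apply (hasFDerivAt_const w p)).add
      ((hBy.clm_apply (hDyd.clm_apply (hasFDerivAt_const w p))).clm_apply hxd)
    refine ⟨h.differentiableAt, fun z => ?_⟩
    rw [h.fderiv]
    simp only [add_apply, ContinuousLinearMap.comp_apply, ContinuousLinearMap.flip_apply,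
      zero_apply, map_zero, zero_add]
    abel
  have hsy : fderiv ℝ (fderiv ℝ y) p u v = fderiv ℝ (fderiv ℝ y) p v u :=
    (hy2.isSymmSndFDerivAt (by simp)) u v
  have hsx : fderiv ℝ (fderiv ℝ x) p u v = fderiv ℝ (fderiv ℝ x) p v u :=
    (hx2.isSymmSndFDerivAt (by simp)) u v
  have hcd : DifferentiableAt ℝ c p := hc.differentiableAt (by simp)
  have hyc' : ∀ w, fderiv ℝ (Cor i) (c p) (fderiv ℝ c p w) = fderiv ℝ y p w := by
    intro w
    have h : HasFDerivAt y ((fderiv ℝ (Cor i) (c p)).comp (fderiv ℝ c p)) p :=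
      (differentiableAt_Cor i hd).hasFDerivAt.comp p hcd.hasFDerivAt
    rw [h.fderiv, ContinuousLinearMap.comp_apply]
  rw [nab_chart N i hyd.differentiableAt (hWd v).1 hcy (hW v) u,
    nab_chart N i hyd.differentiableAt (hWd u).1 hcy (hW u) v, ← map_sub, hyc', hyc']
  change fderiv ℝ (Par i) (y p) _ = fderiv ℝ (Par i) (y p)
    (riem (G.g i) (y p) (fderiv ℝ y p u) (fderiv ℝ y p v) (x p))
  congr 1
  rw [(hWd v).2, (hWd u).2, hsy, hsx]
  unfold riem
  rw [fderiv_chrB (isMetricAt G i (y p)), fderiv_chrB (isMetricAt G i (y p))]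
  have hWp : ∀ w, W w p = fderiv ℝ x p w + chrB (G.g i) (y p) (fderiv ℝ y p w) (x p) :=
    fun w => rfl
  rw [hWp, hWp]
  simp only [← chrB_apply, map_add]
  abel


end Pool.Agent.H86.Nco
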