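import Pool.Agent.H86.Anco.Defs

/-!
# Auxiliary file for SCURV: curvature of a metric on a vector space with a parallel endomorphism field
-/

open scoped Manifold ContDiff Bundle Topology

noncomputable section

set_option linter.unusedSectionVars false

namespace Pool.Agent.H86.Nco.SCurvA

open Pool.Agent.H86.Anco

/-! ### Pointwise algebra -/

section Alg

variable {E : Type*} [NormedAddCommGroup E] [NormedSpace ℝ E]

/-- `J` is the rotation by a right angle of the plane spanned by the orthonormal vectors `e0, e1`,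
and zero on the orthogonal complement -/
structure Frm (B : E →L[ℝ] E →L[ℝ] ℝ) (J : E →L[ℝ] E) (e0 e1 : E) : Prop where
  symm : ∀ u v, B u v = B v u
  b00 : B e0 e0 = 1
  b11 : B e1 e1 = 1
  b01 : B e0 e1 = 0
  J_eq : ∀ x, J x = B x e0 • e1 - B x e1 • e0

variable {B : E →L[ℝ] E →L[ℝ] ℝ} {J : E →L[ℝ] E} {e0 e1 : E}

theorem Frm.b10 (h : Frm B J e0 e1) : B e1 e0 = 0 := by rw [h.symm, h.b01]

theorem Frm.J0 (h : Frm B J e0 e1) : J e0 = e1 := by
  rw [h.J_eq, h.b00, h.b01]; simp

theorem Frm.J1 (h : Frm B J e0 e1) : J e1 = -e0 := by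
  rw [h.J_eq, h.b10, h.b11]; simp

theorem Frm.JJ (h : Frm B J e0 e1) (x : E) : J (J x) = -(B x e0 • e0 + B x e1 • e1) := by
  rw [h.J_eq x, map_sub, map_smul, map_smul, h.J0, h.J1]
  module

theorem Frm.JJJ (h : Frm B J e0 e1) (x : E) : J (J (J x)) = -J x := by
  rw [h.JJ x, map_neg, map_add, map_smul, map_smul, h.J0, h.J1, h.J_eq x]
  module

theorem Frm.BJ (h : Frm B J e0 e1) (u v : E) :
    B (J u) v = B u e0 * B v e1 - B u e1 * B v e0 := by
  rw [h.J_eq u, map_sub, map_smul, map_smul, h.symm v e1, h.symm v e0]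
  simp

theorem Frm.skew (h : Frm B J e0 e1) (u v : E) : B (J u) v = -B u (J v) := by
  rw [h.symm u (J v), h.BJ, h.BJ]
  ring

theorem Frm.ker (h : Frm B J e0 e1) {x : E} (hx : J x = 0) : B x e0 = 0 ∧ B x e1 = 0 := by
  have h1 : B (J x) e1 = B x e0 := by rw [h.BJ, h.b11, h.b10]; ring
  have h2 : B (J x) e0 = -B x e1 := by rw [h.BJ, h.b01, h.b00]; ring
  rw [hx] at h1 h2
  simp only [map_zero, zero_apply] at h1 h2
  exact ⟨h1.symm, by linarith⟩

theorem Frm.mem_L1 (h : Frm B J e0 e1) {x : E} (hx : J (J x) = -x) :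
    x = B x e0 • e0 + B x e1 • e1 := by
  have := h.JJ x
  rw [hx] at this
  exact neg_injective this

/-- algebraic properties of a curvature tensor which commutes with `J` -/
structure Crv (B : E →L[ℝ] E →L[ℝ] ℝ) (J : E →L[ℝ] E) (R : E → E → E →L[ℝ] E) : Prop where
  anti : ∀ u v x, R u v x = -R v u x
  skew : ∀ u v x w, B (R u v x) w = -B (R u v w) x
  bian : ∀ u v x, R u v x + R v x u + R x u v = 0
  pair : ∀ u v x w, B (R u v x) w = B (R x w u) v
  comm : ∀ u v x, R u v (J x) = J (R u v x)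

variable {R : E → E → E →L[ℝ] E}

theorem Crv.R_e0 (h : Frm B J e0 e1) (c : Crv B J R) (u v : E) :
    R u v e0 = B (R e0 e1 u) v • e1 := by
  have h1 : J (J (R u v e0)) = -R u v e0 := by
    rw [← c.comm, ← c.comm, h.J0, h.J1, map_neg]
  have h2 := h.mem_L1 h1
  have h3 : B (R u v e0) e0 = 0 := by
    have := c.skew u v e0 e0
    linarith
  rw [h3, zero_smul, zero_add, c.pair u v e0 e1] at h2
  exact h2

theorem Crv.R_L1 (h : Frm B J e0 e1) (c : Crv B J R) (u v : E) {x : E} (hx : J (J x) = -x) :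
    R u v x = B (R e0 e1 u) v • J x := by
  have h1 := c.R_e0 h u v
  have h2 : R u v e1 = -(B (R e0 e1 u) v • e0) := by
    rw [← h.J0, c.comm, h1, map_smul, h.J1, h.J0]
    simp
  have h3 : R u v x = B x e0 • R u v e0 + B x e1 • R u v e1 := by
    conv_lhs => rw [h.mem_L1 hx]
    rw [map_add, map_smul, map_smul]
  rw [h3, h1, h2, h.J_eq x]
  module

theorem Crv.beta_ker (h : Frm B J e0 e1) (c : Crv B J R) {u : E} (hu : J u = 0) (v : E) :
    B (R e0 e1 u) v = 0 := by
  -- the component of `v` in the plane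
  have h1 : J (R e0 e1 u) = 0 := by rw [← c.comm, hu, map_zero]
  obtain ⟨h2, h3⟩ := h.ker h1
  -- the component of `v` in the kernel
  have hv : J (v + J (J v)) = 0 := by rw [map_add, h.JJJ, add_neg_cancel]
  have h4 : B (R e0 e1 u) (v + J (J v)) = 0 := by
    rw [← c.pair u (v + J (J v)) e0 e1]
    have h5 : R u (v + J (J v)) e0 = -R (v + J (J v)) e0 u - R e0 u (v + J (J v)) := by
      have := c.bian u (v + J (J v)) e0
      rw [← eq_neg_iff_add_eq_zero] at this
      have h6 : R u (v + J (J v)) e0 = -R e0 u (v + J (J v)) - R (v + J (J v)) e0 u := by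
        rw [← this]
        abel
      rw [h6]
      abel
    have h7 : J (R u (v + J (J v)) e0) = 0 := by
      rw [h5, map_sub, map_neg, ← c.comm, ← c.comm, hu, hv, map_zero, map_zero]
      simp
    exact (h.ker h7).2
  have h8 : v = (v + J (J v)) - J (J v) := by abel
  have h9 : B (R e0 e1 u) (J (J v)) = 0 := by
    rw [h.JJ v, map_neg, map_add, map_smul, map_smul, h2, h3]
    simp
  rw [h8, map_sub, h4, h9, sub_zero]

theorem Crv.beta (h : Frm B J e0 e1) (c : Crv B J R) (u v : E) :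
    B (R e0 e1 u) v = B (R e0 e1 e0) e1 * B (J u) v := by
  -- reduce `u`
  have hk : ∀ w : E, J (w + J (J w)) = 0 := fun w => by rw [map_add, h.JJJ, add_neg_cancel]
  have hanti : ∀ u v : E, B (R e0 e1 u) v = -B (R e0 e1 v) u := fun u v => c.skew _ _ _ _
  have h1 : ∀ u v : E, B (R e0 e1 u) v = B u e0 * B (R e0 e1 e0) v + B u e1 * B (R e0 e1 e1) v := by
    intro u v
    have h2 : u = (u + J (J u)) + (B u e0 • e0 + B u e1 • e1) := by
      rw [h.JJ u]
      abel
    have h3 := c.beta_ker h (hk u) v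
    conv_lhs => rw [h2]
    simp only [map_add, map_smul, add_apply, smul_apply, smul_eq_mul] at h3 ⊢
    linarith
  have h00 : B (R e0 e1 e0) e0 = 0 := by have := hanti e0 e0; linarith
  have h11 : B (R e0 e1 e1) e1 = 0 := by have := hanti e1 e1; linarith
  have h10 : B (R e0 e1 e1) e0 = -B (R e0 e1 e0) e1 := hanti _ _
  have e0v : B (R e0 e1 e0) v = B v e1 * B (R e0 e1 e0) e1 := by
    rw [hanti e0 v, h1 v e0, h00, h10]
    ring
  have e1v : B (R e0 e1 e1) v = -(B v e0 * B (R e0 e1 e0) e1) := by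
    rw [hanti e1 v, h1 v e1, h11]
    ring
  rw [h1 u v, e0v, e1v, h.BJ]
  ring

/-- the curvature of the plane -/
theorem Crv.curv1 (h : Frm B J e0 e1) (c : Crv B J R) (u v : E) {x : E} (hx : J (J x) = -x) :
    R u v x = -(-B (R e0 e1 e0) e1 * B (J u) v) • J x := by
  rw [c.R_L1 h u v hx, c.beta h]
  congr 1
  ring

theorem Crv.curv2 (h : Frm B J e0 e1) (c : Crv B J R) {u v x : E} (hu : J (J u) = -u)
    (hv : J (J v) = -v) (hx : J x = 0) : R u v x = 0 := by
  obtain ⟨h1, h2⟩ := h.ker hx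
  have e1 : R v x u = 0 := by
    rw [c.curv1 h v x hu, h.BJ, h1, h2]
    simp
  have e2 : R x u v = 0 := by
    rw [c.curv1 h x u hv, hx]
    simp
  have := c.bian u v x
  rw [e1, e2, add_zero, add_zero] at this
  exact this

end Alg

/-! ### Calculus -/

section Calc

variable {E : Type*} [NormedAddCommGroup E] [NormedSpace ℝ E]
  {F H F' : Type*} [NormedAddCommGroup F] [NormedSpace ℝ F] [NormedAddCommGroup H]
  [NormedSpace ℝ H] [NormedAddCommGroup F'] [NormedSpace ℝ F']

theorem fd_app {A : E → F →L[ℝ] H} {X : E → F} {y : E} (hA : DifferentiableAt ℝ A y)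
    (hX : DifferentiableAt ℝ X y) (u : E) :
    fderiv ℝ (fun z => A z (X z)) y u = fderiv ℝ A y u (X y) + A y (fderiv ℝ X y u) := by
  have := (hA.hasFDerivAt.clm_apply hX.hasFDerivAt).fderiv
  rw [this]
  simp only [add_apply, ContinuousLinearMap.comp_apply, ContinuousLinearMap.flip_apply]
  abel

theorem fd_app2 {A : E → F →L[ℝ] F' →L[ℝ] H} {X : E → F} {Y : E → F'} {y : E}
    (hA : DifferentiableAt ℝ A y) (hX : DifferentiableAt ℝ X y) (hY : DifferentiableAt ℝ Y y)
    (u : E) :
    fderiv ℝ (fun z => A z (X z) (Y z)) y u = fderiv ℝ A y u (X y) (Y y) +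
      A y (fderiv ℝ X y u) (Y y) + A y (X y) (fderiv ℝ Y y u) := by
  have h1 : DifferentiableAt ℝ (fun z => A z (X z)) y := hA.clm_apply hX
  rw [fd_app h1 hY, fd_app hA hX]
  simp only [add_apply]

end Calc

end Pool.Agent.H86.Nco.SCurvA
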