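import Pool.Agent.H86.Anco.Natural
import Pool.Agent.H86.Nco.SCurvA

/-!
# Auxiliary file for SCURV: metrics on a vector space with a parallel endomorphism field, calculus
-/

open scoped Manifold ContDiff Bundle Topology

noncomputable section

set_option linter.unusedSectionVars false
set_option maxSynthPendingDepth 3

namespace Pool.Agent.H86.Nco.SCurvA

open Pool.Agent.H86.Anco Pool.Agent.H86.Anco.Natural

variable {E : Type*} [NormedAddCommGroup E] [NormedSpace ℝ E] [FiniteDimensional ℝ E]
  {g : E → E →L[ℝ] E →L[ℝ] ℝ}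

/-- a smooth metric field -/
structure MF (g : E → E →L[ℝ] E →L[ℝ] ℝ) : Prop where
  smooth : ContDiff ℝ ∞ g
  symm : ∀ y a b, g y a b = g y b a
  pos : ∀ y a, a ≠ 0 → 0 < g y a a

theorem MF.metric (hg : MF g) (y : E) : IsMetricAt g y :=
  ⟨Filter.Eventually.of_forall fun _ => hg.smooth.contDiffAt,
    Filter.Eventually.of_forall fun z => hg.symm z, hg.pos y⟩

theorem MF.diff (hg : MF g) (y : E) : DifferentiableAt ℝ g y :=
  (hg.smooth.differentiable (by simp)) y

theorem MF.contDiff_chr (hg : MF g) : ContDiff ℝ ∞ (chrB g) :=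
  contDiff_iff_contDiffAt.2 fun y => contDiffAt_chrB (hg.metric y)

theorem MF.diff_chr (hg : MF g) (y : E) : DifferentiableAt ℝ (chrB g) y :=
  (hg.contDiff_chr.differentiable (by simp)) y

theorem MF.fderiv_symm (hg : MF g) (y u v w : E) : fderiv ℝ g y u v w = fderiv ℝ g y u w v := by
  have h1 := fd_app2 (hg.diff y) (differentiableAt_const v) (differentiableAt_const w) u
  have h2 := fd_app2 (hg.diff y) (differentiableAt_const w) (differentiableAt_const v) u
  have h3 : (fun z => g z v w) = fun z => g z w v := funext fun z => hg.symm z v w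
  rw [h3, h2] at h1
  simpa using h1.symm

/-- the connection is metric -/
theorem MF.dg (hg : MF g) (y u v w : E) :
    fderiv ℝ g y u v w = g y (chr g y u v) w + g y v (chr g y u w) := by
  rw [hg.symm y v (chr g y u w), apply_chr (hg.pos y), apply_chr (hg.pos y), chr1_apply,
    chr1_apply, hg.fderiv_symm y w u v, hg.fderiv_symm y u w v, hg.fderiv_symm y v u w,
    hg.fderiv_symm y w v u]
  ring

theorem MF.chr_symm (hg : MF g) (y u v : E) : chr g y u v = chr g y v u := by
  unfold chr
  congr 1
  ext w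
  rw [chr1_apply, chr1_apply, hg.fderiv_symm y w u v]
  ring

theorem symm2 {F : Type*} [NormedAddCommGroup F] [NormedSpace ℝ F] {f : E → F} {y : E}
    (hf : ContDiffAt ℝ ∞ f y) (u v : E) :
    fderiv ℝ (fderiv ℝ f) y u v = fderiv ℝ (fderiv ℝ f) y v u := by
  have h2 : ContDiffAt ℝ 2 f y := hf.of_le (by norm_cast)
  have := h2.isSymmSndFDerivAt (by simp)
  exact this u v

theorem contDiff_fd {F : Type*} [NormedAddCommGroup F] [NormedSpace ℝ F] {f : E → F}
    (hf : ContDiff ℝ ∞ f) : ContDiff ℝ ∞ (fderiv ℝ f) :=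
  hf.fderiv_right (by simp)

theorem contDiffAt_fd {F : Type*} [NormedAddCommGroup F] [NormedSpace ℝ F] {f : E → F} {y : E}
    (hf : ContDiffAt ℝ ∞ f y) : ContDiffAt ℝ ∞ (fderiv ℝ f) y :=
  hf.fderiv_right (by simp)

/-- the curvature operator -/
def RB (g : E → E →L[ℝ] E →L[ℝ] ℝ) (y u v : E) : E →L[ℝ] E :=
  fderiv ℝ (chrB g) y u v - fderiv ℝ (chrB g) y v u
    + (chrB g y u).comp (chrB g y v) - (chrB g y v).comp (chrB g y u)

theorem RB_apply (y u v x : E) : RB g y u v x =
    fderiv ℝ (chrB g) y u v x - fderiv ℝ (chrB g) y v u x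
    + chrB g y u (chrB g y v x) - chrB g y v (chrB g y u x) := rfl

theorem MF.riem_eq (hg : MF g) (y u v x : E) : riem g y u v x = RB g y u v x := by
  unfold riem
  rw [fderiv_chrB (hg.metric y), fderiv_chrB (hg.metric y), RB_apply]
  rfl

theorem MF.contDiff_RB (hg : MF g) (u v : E) : ContDiff ℝ ∞ (fun y => RB g y u v) := by
  have h1 := hg.contDiff_chr
  have h2 := contDiff_fd h1
  have h3 : ∀ u : E, ContDiff ℝ ∞ (fun y => chrB g y u) := fun u => h1.clm_apply contDiff_const
  exact (((h2.clm_apply contDiff_const).clm_apply contDiff_const).sub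
    ((h2.clm_apply contDiff_const).clm_apply contDiff_const)).add
      ((h3 u).clm_comp (h3 v)) |>.sub ((h3 v).clm_comp (h3 u))

theorem MF.R_anti (y u v x : E) : RB g y u v x = -RB g y v u x := by
  rw [RB_apply, RB_apply]
  abel

theorem MF.chrB_symm (hg : MF g) (y u v : E) : chrB g y u v = chrB g y v u := hg.chr_symm y u v

theorem MF.dchr_symm (hg : MF g) (y w u v : E) :
    fderiv ℝ (chrB g) y w u v = fderiv ℝ (chrB g) y w v u := by
  have h1 := fd_app2 (hg.diff_chr y) (differentiableAt_const u) (differentiableAt_const v) w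
  have h2 := fd_app2 (hg.diff_chr y) (differentiableAt_const v) (differentiableAt_const u) w
  have h3 : (fun z => chrB g z u v) = fun z => chrB g z v u :=
    funext fun z => hg.chrB_symm z u v
  rw [h3, h2] at h1
  simpa using h1.symm

theorem MF.R_bian (hg : MF g) (y u v x : E) :
    RB g y u v x + RB g y v x u + RB g y x u v = 0 := by
  rw [RB_apply, RB_apply, RB_apply, hg.dchr_symm y u x v, hg.dchr_symm y v x u,
    hg.dchr_symm y x u v, hg.chrB_symm y x u, hg.chrB_symm y x v, hg.chrB_symm y v u]
  abel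

theorem MF.R_skew (hg : MF g) (y u v x w : E) :
    g y (RB g y u v x) w = -g y (RB g y u v w) x := by
  -- second derivative of `g`
  have key : ∀ u v : E, fderiv ℝ (fderiv ℝ g) y u v x w =
      g y (chrB g y u (chrB g y v x)) w + g y (chrB g y v x) (chrB g y u w)
      + g y (fderiv ℝ (chrB g) y u v x) w
      + g y (chrB g y u x) (chrB g y v w) + g y x (chrB g y u (chrB g y v w))
      + g y x (fderiv ℝ (chrB g) y u v w) := by
    intro u v
    have hd : DifferentiableAt ℝ (fderiv ℝ g) y :=
      ((contDiff_fd hg.smooth).differentiable (by simp)) y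
    have h1 : fderiv ℝ (fun z => fderiv ℝ g z v x w) y u = fderiv ℝ (fderiv ℝ g) y u v x w := by
      have e1 : DifferentiableAt ℝ (fun z => fderiv ℝ g z v) y :=
        hd.clm_apply (differentiableAt_const v)
      have e2 := fd_app2 e1 (differentiableAt_const x) (differentiableAt_const w) u
      have e3 := fd_app hd (differentiableAt_const v) u
      rw [e2, e3]
      simp
    have h2 : (fun z => fderiv ℝ g z v x w) =
        fun z => g z (chrB g z v x) w + g z x (chrB g z v w) := funext fun z => hg.dg z v x w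
    have hc : ∀ x : E, DifferentiableAt ℝ (fun z => chrB g z v x) y := fun x =>
      ((hg.diff_chr y).clm_apply (differentiableAt_const v)).clm_apply (differentiableAt_const x)
    have hc' : ∀ x : E, fderiv ℝ (fun z => chrB g z v x) y u = fderiv ℝ (chrB g) y u v x := by
      intro x
      rw [fd_app2 (hg.diff_chr y) (differentiableAt_const v) (differentiableAt_const x)]
      simp
    have d1 : DifferentiableAt ℝ (fun z => g z (chrB g z v x) w) y :=
      ((hg.diff y).clm_apply (hc x)).clm_apply (differentiableAt_const w)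
    have d2 : DifferentiableAt ℝ (fun z => g z x (chrB g z v w)) y :=
      ((hg.diff y).clm_apply (differentiableAt_const x)).clm_apply (hc w)
    rw [← h1, h2, fderiv_fun_add d1 d2, add_apply,
      fd_app2 (hg.diff y) (hc x) (differentiableAt_const w),
      fd_app2 (hg.diff y) (differentiableAt_const x) (hc w), hc' x, hc' w,
      hg.dg y u (chrB g y v x) w, hg.dg y u x (chrB g y v w)]
    simp only [fderiv_fun_const, Pi.zero_apply, zero_apply, map_zero,
      add_zero, ← chrB_apply]
    ring
  have h1 := key u v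
  have h2 := key v u
  rw [symm2 hg.smooth.contDiffAt u v, h2] at h1
  rw [RB_apply, RB_apply, hg.symm y _ x]
  simp only [map_add, map_sub, add_apply, sub_apply]
  linarith

theorem MF.R_pair (hg : MF g) (y u v x w : E) :
    g y (RB g y u v x) w = g y (RB g y x w u) v := by
  have b : ∀ u v x w, g y (RB g y u v x) w + g y (RB g y v x u) w + g y (RB g y x u v) w = 0 := by
    intro u v x w
    have := congrArg (fun z => g y z w) (hg.R_bian y u v x)
    simpa using this
  have a : ∀ u v x w, g y (RB g y u v x) w = -g y (RB g y v u x) w := by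
    intro u v x w
    rw [MF.R_anti y u v x]
    simp
  have s := hg.R_skew y
  linarith [b u v x w, b v x w u, b x w u v, b w u v x, a u v x w, a v x u w, a x u v w,
    a v x w u, a x w v u, a w v x u, a x w u v, a w u x v, a u x w v, a w u v x, a u v w x,
    a v w u x, s u v x w, s v x u w, s x u v w, s v x w u, s x w v u, s w v x u, s x w u v,
    s w u x v, s u x w v, s w u v x, s u v w x, s v w u x]

/-- a smooth parallel endomorphism field -/
structure PJ (g : E → E →L[ℝ] E →L[ℝ] ℝ) (J : E → E →L[ℝ] E) : Prop where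
  smooth : ContDiff ℝ ∞ J
  par : ∀ y u v, fderiv ℝ J y u v = J y (chrB g y u v) - chrB g y u (J y v)
  frm : ∀ y, ∃ e0 e1, Frm (g y) (J y) e0 e1

variable {J : E → E →L[ℝ] E}

theorem PJ.diff (hJ : PJ g J) (y : E) : DifferentiableAt ℝ J y :=
  (hJ.smooth.differentiable (by simp)) y

theorem PJ.comm (hg : MF g) (hJ : PJ g J) (y u v x : E) :
    RB g y u v (J y x) = J y (RB g y u v x) := by
  have key : ∀ u v : E, fderiv ℝ (fderiv ℝ J) y u v x =
      J y (chrB g y u (chrB g y v x)) - chrB g y u (J y (chrB g y v x))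
      + J y (fderiv ℝ (chrB g) y u v x) - fderiv ℝ (chrB g) y u v (J y x)
      - chrB g y v (J y (chrB g y u x)) + chrB g y v (chrB g y u (J y x)) := by
    intro u v
    have hd : DifferentiableAt ℝ (fderiv ℝ J) y :=
      ((contDiff_fd hJ.smooth).differentiable (by simp)) y
    have h1 : fderiv ℝ (fun z => fderiv ℝ J z v x) y u = fderiv ℝ (fderiv ℝ J) y u v x := by
      have e2 := fd_app2 hd (differentiableAt_const v) (differentiableAt_const x) u
      rw [e2]
      simp
    have h2 : (fun z => fderiv ℝ J z v x) =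
        fun z => J z (chrB g z v x) - chrB g z v (J z x) := funext fun z => hJ.par z v x
    have hc : DifferentiableAt ℝ (fun z => chrB g z v x) y :=
      ((hg.diff_chr y).clm_apply (differentiableAt_const v)).clm_apply (differentiableAt_const x)
    have hc' : fderiv ℝ (fun z => chrB g z v x) y u = fderiv ℝ (chrB g) y u v x := by
      rw [fd_app2 (hg.diff_chr y) (differentiableAt_const v) (differentiableAt_const x)]
      simp
    have hJx : DifferentiableAt ℝ (fun z => J z x) y :=
      (hJ.diff y).clm_apply (differentiableAt_const x)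
    have hJx' : fderiv ℝ (fun z => J z x) y u = J y (chrB g y u x) - chrB g y u (J y x) := by
      rw [fd_app (hJ.diff y) (differentiableAt_const x), hJ.par]
      simp
    have d1 : DifferentiableAt ℝ (fun z => J z (chrB g z v x)) y := (hJ.diff y).clm_apply hc
    have d2 : DifferentiableAt ℝ (fun z => chrB g z v (J z x)) y :=
      ((hg.diff_chr y).clm_apply (differentiableAt_const v)).clm_apply hJx
    rw [← h1, h2, fderiv_fun_sub d1 d2, sub_apply, fd_app (hJ.diff y) hc,
      fd_app2 (hg.diff_chr y) (differentiableAt_const v) hJx, hJ.par, hc', hJx']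
    simp only [fderiv_fun_const, Pi.zero_apply, zero_apply, map_zero,
      add_zero, map_sub]
    abel
  have h1 := key u v
  have h2 := key v u
  rw [symm2 hJ.smooth.contDiffAt u v, h2] at h1
  rw [RB_apply, RB_apply]
  simp only [map_add, map_sub]
  have h3 := sub_eq_zero.2 h1
  rw [← sub_eq_zero]
  rw [← h3]
  abel

theorem PJ.crv (hg : MF g) (hJ : PJ g J) (y : E) : Crv (g y) (J y) (fun u v => RB g y u v) where
  anti u v x := MF.R_anti y u v x
  skew u v x w := hg.R_skew y u v x w
  bian u v x := hg.R_bian y u v x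
  pair u v x w := hg.R_pair y u v x w
  comm u v x := hJ.comm hg y u v x

/-- the curvature of the plane field -/
def kap (g : E → E →L[ℝ] E →L[ℝ] ℝ) (J : E → E →L[ℝ] E) (y : E) : ℝ :=
  Classical.epsilon fun k : ℝ => ∀ u v x : E, J y (J y x) = -x →
    RB g y u v x = -(k * g y (J y u) v) • J y x

theorem PJ.kap_spec (hg : MF g) (hJ : PJ g J) (y u v : E) {x : E} (hx : J y (J y x) = -x) :
    RB g y u v x = -(kap g J y * g y (J y u) v) • J y x := by
  have hex : ∃ k : ℝ, ∀ u v x : E, J y (J y x) = -x →
      RB g y u v x = -(k * g y (J y u) v) • J y x := by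
    obtain ⟨e0, e1, h⟩ := hJ.frm y
    exact ⟨_, fun u v x hx => (hJ.crv hg y).curv1 h u v hx⟩
  exact Classical.epsilon_spec hex u v x hx

/-- the value is determined by the property -/
theorem PJ.kap_unique (hg : MF g) (hJ : PJ g J) (y : E) {k : ℝ}
    (hk : ∀ u v x : E, J y (J y x) = -x → RB g y u v x = -(k * g y (J y u) v) • J y x) :
    kap g J y = k := by
  obtain ⟨e0, e1, h⟩ := hJ.frm y
  have hx : J y (J y e0) = -e0 := by rw [h.J0, h.J1]
  have h1 := hk e0 e1 e0 hx
  rw [hJ.kap_spec hg y e0 e1 hx, h.J0, h.b11, mul_one, mul_one] at h1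
  have h2 := congrArg (fun z => g y z e1) h1
  simp only [map_smul, smul_apply, h.b11, smul_eq_mul, mul_one] at h2
  exact neg_injective h2

theorem PJ.contDiff_kap (hg : MF g) (hJ : PJ g J) : ContDiff ℝ ∞ (kap g J) := by
  rw [contDiff_iff_contDiffAt]
  intro y0
  obtain ⟨e0, e1, h⟩ := hJ.frm y0
  have hJs : ∀ x : E, ContDiff ℝ ∞ (fun y => J y x) := fun x => hJ.smooth.clm_apply contDiff_const
  have hJJs : ∀ x : E, ContDiff ℝ ∞ (fun y => J y (J y x)) := fun x => hJ.smooth.clm_apply (hJs x)
  have hden : ContDiff ℝ ∞ (fun y => g y (J y e0) e1 * g y (J y (J y e0)) e0) :=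
    ((hg.smooth.clm_apply (hJs e0)).clm_apply contDiff_const).mul
      ((hg.smooth.clm_apply (hJJs e0)).clm_apply contDiff_const)
  have hnum : ContDiff ℝ ∞ (fun y => -g y (RB g y e0 e1 (J y e0)) e0) :=
    (((hg.smooth.clm_apply ((hg.contDiff_RB e0 e1).clm_apply (hJs e0))).clm_apply
      contDiff_const)).neg
  have hd0 : g y0 (J y0 e0) e1 * g y0 (J y0 (J y0 e0)) e0 ≠ 0 := by
    rw [h.J0, h.J1, h.b11, map_neg]
    simp [h.b00]
  have hev : kap g J =ᶠ[𝓝 y0] fun y => -g y (RB g y e0 e1 (J y e0)) e0 /
      (g y (J y e0) e1 * g y (J y (J y e0)) e0) := by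
    filter_upwards [hden.continuous.continuousAt.eventually_ne hd0] with y hy
    rw [eq_div_iff hy]
    obtain ⟨f0, f1, hf⟩ := hJ.frm y
    have h1 := hJ.kap_spec hg y e0 e1 (x := J y e0) (hf.JJJ e0)
    rw [h1, map_smul, smul_apply, smul_eq_mul]
    ring
  exact (hnum.contDiffAt.div hden.contDiffAt hd0).congr_of_eventuallyEq hev

/-! ### covariant derivatives of vector fields -/

/-- `∇_v X` -/
def cov (g : E → E →L[ℝ] E →L[ℝ] ℝ) (v : E) (X : E → E) (y : E) : E :=
  fderiv ℝ X y v + chrB g y v (X y)

theorem cov_congr {X Y : E → E} {y : E} (v : E) (h : X =ᶠ[𝓝 y] Y) : cov g v X y = cov g v Y y := by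
  unfold cov
  rw [h.fderiv_eq, h.eq_of_nhds]

theorem contDiffAt_cov (hg : MF g) {X : E → E} {y : E} (hX : ContDiffAt ℝ ∞ X y) (v : E) :
    ContDiffAt ℝ ∞ (cov g v X) y := by
  unfold cov
  exact ((contDiffAt_fd hX).clm_apply contDiffAt_const).add
    ((hg.contDiff_chr.contDiffAt.clm_apply contDiffAt_const).clm_apply hX)

theorem cov_curv (hg : MF g) {X : E → E} {y : E} (hX : ContDiffAt ℝ ∞ X y) (u v : E) :
    cov g u (cov g v X) y - cov g v (cov g u X) y = RB g y u v (X y) := by
  have hXd : DifferentiableAt ℝ X y := hX.differentiableAt (by simp)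
  have key : ∀ u v : E, fderiv ℝ (cov g v X) y u = fderiv ℝ (fderiv ℝ X) y u v +
      fderiv ℝ (chrB g) y u v (X y) + chrB g y v (fderiv ℝ X y u) := by
    intro u v
    have hd : DifferentiableAt ℝ (fderiv ℝ X) y := (contDiffAt_fd hX).differentiableAt (by simp)
    have d1 : DifferentiableAt ℝ (fun z => fderiv ℝ X z v) y :=
      hd.clm_apply (differentiableAt_const v)
    have d2 : DifferentiableAt ℝ (fun z => chrB g z v (X z)) y :=
      ((hg.diff_chr y).clm_apply (differentiableAt_const v)).clm_apply hXd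
    change fderiv ℝ (fun z => fderiv ℝ X z v + chrB g z v (X z)) y u = _
    rw [fderiv_fun_add d1 d2, add_apply, fd_app hd (differentiableAt_const v),
      fd_app2 (hg.diff_chr y) (differentiableAt_const v) hXd]
    simp only [fderiv_fun_const, Pi.zero_apply, zero_apply, map_zero,
      add_zero]
    abel
  have h1 : cov g u (cov g v X) y = fderiv ℝ (cov g v X) y u + chrB g y u (cov g v X y) := rfl
  have h2 : cov g v (cov g u X) y = fderiv ℝ (cov g u X) y v + chrB g y v (cov g u X y) := rfl
  have h3 : ∀ v, cov g v X y = fderiv ℝ X y v + chrB g y v (X y) := fun v => rfl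
  rw [h1, h2, key u v, key v u, h3, h3, symm2 hX u v, RB_apply]
  simp only [map_add]
  abel

theorem cov_J (hJ : PJ g J) {X : E → E} {y : E} (hX : DifferentiableAt ℝ X y) (v : E) :
    cov g v (fun z => J z (X z)) y = J y (cov g v X y) := by
  unfold cov
  rw [fd_app (hJ.diff y) hX, hJ.par, map_add]
  abel

theorem cov_metric (hg : MF g) {X Y : E → E} {y : E} (hX : DifferentiableAt ℝ X y)
    (hY : DifferentiableAt ℝ Y y) (v : E) :
    fderiv ℝ (fun z => g z (X z) (Y z)) y v =
      g y (cov g v X y) (Y y) + g y (X y) (cov g v Y y) := by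
  rw [fd_app2 (hg.diff y) hX hY, hg.dg]
  unfold cov
  simp only [map_add, add_apply, chrB_apply]
  ring

theorem cov_smul (hg : MF g) {f : E → ℝ} {X : E → E} {y : E} (hf : DifferentiableAt ℝ f y)
    (hX : DifferentiableAt ℝ X y) (v : E) :
    cov g v (fun z => f z • X z) y = fderiv ℝ f y v • X y + f y • cov g v X y := by
  unfold cov
  rw [fderiv_fun_smul hf hX]
  simp only [add_apply, smul_apply, ContinuousLinearMap.smulRight_apply, map_smul, smul_add]
  abel

end Pool.Agent.H86.Nco.SCurvA
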