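import Mathlib

/-!
# Auxiliary file for SDEV: Gronwall type lemmas
-/

open scoped Manifold ContDiff Bundle Topology

noncomputable section

namespace Pool.Agent.H86.Nco.SDevA

variable {H : Type*} [NormedAddCommGroup H] [NormedSpace ℝ H]

theorem zero_right {D D' : ℝ → H} {C a b : ℝ} (hD : ∀ t ∈ Set.Icc a b, HasDerivAt D (D' t) t)
    (h0 : D a = 0) (hb : ∀ t ∈ Set.Icc a b, ‖D' t‖ ≤ C * ‖D t‖) :
    ∀ t ∈ Set.Icc a b, D t = 0 :=
  eq_zero_of_abs_deriv_le_mul_abs_self_of_eq_zero_right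
    (fun t ht => (hD t ht).continuousAt.continuousWithinAt)
    (fun t ht => (hD t ⟨ht.1, ht.2.le⟩).hasDerivWithinAt) h0 (fun t ht => hb t ⟨ht.1, ht.2.le⟩)

theorem zero_left {D D' : ℝ → H} {C a b : ℝ} (hD : ∀ t ∈ Set.Icc a b, HasDerivAt D (D' t) t)
    (h0 : D b = 0) (hb : ∀ t ∈ Set.Icc a b, ‖D' t‖ ≤ C * ‖D t‖) :
    ∀ t ∈ Set.Icc a b, D t = 0 := by
  intro t ht
  have h1 := zero_right (D := fun s => D (-s)) (D' := fun s => -D' (-s)) (C := C) (a := -b)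
    (b := -a) (fun s hs => by
      have h2 : HasDerivAt D (D' (-s)) (-s) := hD (-s) ⟨by linarith [hs.2], by linarith [hs.1]⟩
      have h3 := h2.scomp s (hasDerivAt_neg s)
      rw [neg_one_smul] at h3
      exact h3) (by simpa using h0) (fun s hs => by
      rw [norm_neg]
      exact hb (-s) ⟨by linarith [hs.2], by linarith [hs.1]⟩) (-t) ⟨by linarith [ht.2],
        by linarith [ht.1]⟩
  simpa using h1

theorem zero_of_deriv_le {D D' : ℝ → H} {C t₀ r : ℝ}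
    (hD : ∀ t ∈ Set.Ioo (t₀ - r) (t₀ + r), HasDerivAt D (D' t) t) (h0 : D t₀ = 0)
    (hb : ∀ t ∈ Set.Ioo (t₀ - r) (t₀ + r), ‖D' t‖ ≤ C * ‖D t‖) :
    ∀ t ∈ Set.Ioo (t₀ - r) (t₀ + r), D t = 0 := by
  intro t ht
  rcases le_total t₀ t with h | h
  · exact zero_right (a := t₀) (b := t) (fun s hs => hD s ⟨by linarith [ht.1, hs.1, ht.2],
      lt_of_le_of_lt hs.2 ht.2⟩) h0 (fun s hs => hb s ⟨by linarith [ht.1, hs.1, ht.2],
      lt_of_le_of_lt hs.2 ht.2⟩) t ⟨h, le_rfl⟩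
  · exact zero_left (a := t) (b := t₀) (fun s hs => hD s ⟨lt_of_lt_of_le ht.1 hs.1,
      by linarith [ht.1, hs.2, ht.2]⟩) h0 (fun s hs => hb s ⟨lt_of_lt_of_le ht.1 hs.1,
      by linarith [ht.1, hs.2, ht.2]⟩) t ⟨le_rfl, h⟩

theorem lin_zero {A : ℝ → H →L[ℝ] H} (hA : Continuous A) {W : ℝ → H}
    (hW : ∀ t, HasDerivAt W (A t (W t)) t) (h0 : W 0 = 0) : ∀ t, W t = 0 := by
  intro t
  obtain ⟨C, hC⟩ := (isCompact_Icc (a := -(|t| + 1)) (b := |t| + 1)).exists_bound_of_continuousOn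
    hA.continuousOn
  refine zero_of_deriv_le (t₀ := 0) (r := |t| + 1) (C := C) (fun s _ => hW s) h0 (fun s hs => ?_) t ?_
  · have h1 := hC s ⟨by linarith [hs.1], by linarith [hs.2]⟩
    exact ((A s).le_opNorm (W s)).trans (mul_le_mul_of_nonneg_right h1 (norm_nonneg _))
  · have h1 := neg_abs_le t
    have h2 := le_abs_self t
    constructor <;> linarith

/-- invariance of the image of a retraction -/
theorem inv_near {ρ : H → H} {X : ℝ × H → H} {x : ℝ → H} {t₀ : ℝ}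
    (hρ : ContDiffAt ℝ 2 ρ (x t₀)) (hX : ContDiffAt ℝ 1 X (t₀, x t₀)) (hfix : ρ (x t₀) = x t₀)
    (hinv : ∀ᶠ q in 𝓝 (t₀, x t₀), fderiv ℝ ρ (ρ q.2) (X (q.1, ρ q.2)) = X (q.1, ρ q.2))
    (hx : ∀ᶠ t in 𝓝 t₀, HasDerivAt x (X (t, x t)) t) : ∀ᶠ t in 𝓝 t₀, ρ (x t) = x t := by
  have hΞ : ContDiffAt ℝ 1 (fun q : ℝ × H => X q - fderiv ℝ ρ q.2 (X q)) (t₀, x t₀) := by
    have h1 : ContDiffAt ℝ 1 (fderiv ℝ ρ) (x t₀) := hρ.fderiv_right (by norm_num)
    have h2 : ContDiffAt ℝ 1 (fun q : ℝ × H => fderiv ℝ ρ q.2) (t₀, x t₀) :=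
      h1.comp (t₀, x t₀) contDiffAt_snd
    exact hX.sub (h2.clm_apply hX)
  obtain ⟨C, s, hs, hL⟩ := hΞ.exists_lipschitzOnWith
  have hxc : ContinuousAt x t₀ := hx.self_of_nhds.continuousAt
  have hp1 : Filter.Tendsto (fun t => (t, x t)) (𝓝 t₀) (𝓝 (t₀, x t₀)) :=
    (continuousAt_id.prodMk hxc)
  have hρc : ContinuousAt (fun t => ρ (x t)) t₀ := ContinuousAt.comp (x := t₀) hρ.continuousAt hxc
  have hp2 : Filter.Tendsto (fun t => (t, ρ (x t))) (𝓝 t₀) (𝓝 (t₀, x t₀)) := by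
    have := (continuousAt_id (x := t₀)).prodMk hρc
    unfold ContinuousAt at this
    simp only [id, hfix] at this
    exact this
  have hρd : ∀ᶠ y in 𝓝 (x t₀), DifferentiableAt ℝ ρ y := by
    have h1 : ∀ᶠ y in 𝓝 (x t₀), ContDiffAt ℝ 2 ρ y := hρ.eventually (by simp)
    exact h1.mono fun y hy => hy.differentiableAt (by norm_num)
  have hall : ∀ᶠ t in 𝓝 t₀, HasDerivAt x (X (t, x t)) t ∧ (t, x t) ∈ s ∧ (t, ρ (x t)) ∈ s ∧
      fderiv ℝ ρ (ρ (x t)) (X (t, ρ (x t))) = X (t, ρ (x t)) ∧ DifferentiableAt ℝ ρ (x t) := by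
    filter_upwards [hx, hp1 hs, hp2 hs, hp1.eventually hinv, hxc.eventually hρd] with t a1 a2 a3 a4 a5
    exact ⟨a1, a2, a3, a4, a5⟩
  obtain ⟨r, hr, hball⟩ := Metric.eventually_nhds_iff_ball.1 hall
  rw [Real.ball_eq_Ioo] at hball
  have key := zero_of_deriv_le (D := fun t => x t - ρ (x t))
    (D' := fun t => X (t, x t) - fderiv ℝ ρ (x t) (X (t, x t))) (C := C) (t₀ := t₀) (r := r)
    (fun t ht => by
      obtain ⟨a1, a2, a3, a4, a5⟩ := hball t ht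
      exact a1.sub (a5.hasFDerivAt.comp_hasDerivAt t a1)) (by simp [hfix]) (fun t ht => by
      obtain ⟨a1, a2, a3, a4, a5⟩ := hball t ht
      have h1 := hL.norm_sub_le a2 a3
      simp only at h1
      rw [a4, sub_self, sub_zero] at h1
      refine h1.trans (le_of_eq ?_)
      rw [Prod.mk_sub_mk, sub_self, Prod.norm_mk, norm_zero, max_eq_right (norm_nonneg _)])
  filter_upwards [Ioo_mem_nhds (show t₀ - r < t₀ by linarith) (show t₀ < t₀ + r by linarith)] with t ht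
  exact (sub_eq_zero.1 (key t ht)).symm

end Pool.Agent.H86.Nco.SDevA
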