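import Pool.Agent.H86.Nco.BaseLem
import Pool.Agent.H86.Nco.SDefs
import Pool.Agent.H86.Nco.SDevA

/-!
# Auxiliary file for SDEV: the set of points with tangent frames, local retractions
-/

open scoped Manifold ContDiff Bundle Topology

noncomputable section

namespace Pool.Agent.H86.Nco.SDevB

open Pool.Agent.H86.Anco Pool.Agent.H86.Nco.SDevA

variable {K m : ℕ}

/-- points with `m` vectors -/
abbrev HH (K m : ℕ) : Type := V K × (Fin m → V K)

/-- points of `M` with `m` tangent vectors -/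
def TSet (K m : ℕ) : Set (HH K m) := {q | q.1 ∈ carrier K ∧ ∀ j, q.2 j ∈ Tan q.1}

/-- parametrisation of `TSet` -/
def emb (i : Ix) (z : E K × (Fin m → E K)) : HH K m :=
  (Par i z.1, fun j => fderiv ℝ (Par i) z.1 (z.2 j))

/-- local retraction to `TSet` -/
def rho (i : Ix) (q : HH K m) : HH K m := emb i (Cor i q.1, fun j => fderiv ℝ (Cor i) q.1 (q.2 j))

theorem emb_mem (i : Ix) (z : E K × (Fin m → E K)) : emb i z ∈ TSet K m :=
  ⟨Par_mem i _, fun _ => (mem_Tan_Par i _ _).2 ⟨_, rfl⟩⟩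

theorem rho_mem (i : Ix) (q : HH K m) : rho i q ∈ TSet K m := emb_mem i _

theorem rho_emb (i : Ix) (z : E K × (Fin m → E K)) : rho i (emb i z) = emb i z := by
  unfold rho
  have h1 : Cor i (emb i z).1 = z.1 := Cor_Par i z.1
  have h2 : (fun j => fderiv ℝ (Cor i) (emb i z).1 ((emb i z).2 j)) = z.2 := by
    funext j
    exact fderiv_Cor_Par i z.1 (z.2 j)
  rw [h1, h2]

theorem rho_fix (i : Ix) {q : HH K m} (hq : q ∈ TSet K m) (hd : q.1 ∈ Dom K i) : rho i q = q := by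
  refine Prod.ext (Par_Cor i hq.1 hd) ?_
  funext j
  exact fderiv_Par_Cor i hq.1 hd (hq.2 j)

theorem contDiff_DPar (i : Ix) : ContDiff ℝ ∞ (fderiv ℝ (Par i : E K → V K)) :=
  (contDiff_Par i).fderiv_right (by simp)

theorem emb_smooth (i : Ix) : ContDiff ℝ ∞ (emb i : E K × (Fin m → E K) → HH K m) := by
  unfold emb
  refine ((contDiff_Par i).comp contDiff_fst).prodMk (contDiff_pi.2 fun j => ?_)
  exact ((contDiff_DPar i).comp contDiff_fst).clm_apply
    ((contDiff_apply ℝ (E K) j).comp contDiff_snd)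

theorem rho_smooth (i : Ix) {q : HH K m} (hd : q.1 ∈ Dom K i) : ContDiffAt ℝ ∞ (rho i) q := by
  have h1 : ContDiffAt ℝ ∞ (Cor i : V K → E K) q.1 :=
    (contDiffOn_Cor i).contDiffAt ((isOpen_Dom i).mem_nhds hd)
  have h2 : ContDiffAt ℝ ∞ (fderiv ℝ (Cor i : V K → E K)) q.1 := h1.fderiv_right (by simp)
  have h3 : ContDiffAt ℝ ∞ (fun q : HH K m => (Cor i q.1,
      fun j => fderiv ℝ (Cor i) q.1 (q.2 j))) q := by
    refine (h1.comp q contDiffAt_fst).prodMk (contDiffAt_pi.2 fun j => ?_)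
    exact (h2.comp q contDiffAt_fst).clm_apply
      ((contDiff_apply ℝ (V K) j).contDiffAt.comp q contDiffAt_snd)
  exact (emb_smooth i).contDiffAt.comp q h3

theorem fderiv_emb (i : Ix) (z w : E K × (Fin m → E K)) :
    fderiv ℝ (emb i) z w = (fderiv ℝ (Par i) z.1 w.1, fun j =>
      fderiv ℝ (fun x => fderiv ℝ (Par i) x (z.2 j)) z.1 w.1 + fderiv ℝ (Par i) z.1 (w.2 j)) := by
  have h1 : HasFDerivAt (fun z : E K × (Fin m → E K) => Par i z.1)
      ((fderiv ℝ (Par i) z.1).comp (ContinuousLinearMap.fst ℝ _ _)) z :=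
    (differentiableAt_Par i z.1).hasFDerivAt.comp z hasFDerivAt_fst
  have h0 : DifferentiableAt ℝ (fderiv ℝ (Par i : E K → V K)) z.1 :=
    (contDiff_DPar i).differentiable (by simp) _
  have h2 : ∀ j, HasFDerivAt (fun z : E K × (Fin m → E K) => fderiv ℝ (Par i) z.1 (z.2 j))
      ((fderiv ℝ (Par i) z.1).comp ((ContinuousLinearMap.proj j).comp
        (ContinuousLinearMap.snd ℝ _ _)) +
        ((fderiv ℝ (fderiv ℝ (Par i)) z.1).comp (ContinuousLinearMap.fst ℝ _ _)).flip (z.2 j)) z := by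
    intro j
    have h3 : HasFDerivAt (fun z : E K × (Fin m → E K) => fderiv ℝ (Par i) z.1)
      ((fderiv ℝ (fderiv ℝ (Par i)) z.1).comp (ContinuousLinearMap.fst ℝ _ _)) z :=
      h0.hasFDerivAt.comp z hasFDerivAt_fst
    have h4 : HasFDerivAt (fun z : E K × (Fin m → E K) => z.2 j)
      ((ContinuousLinearMap.proj j).comp (ContinuousLinearMap.snd ℝ _ _)) z :=
      ((ContinuousLinearMap.proj (R := ℝ) (φ := fun _ : Fin m => E K) j).hasFDerivAt).comp z
        hasFDerivAt_snd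
    exact h3.clm_apply h4
  have h5 := h1.prodMk (hasFDerivAt_pi.2 h2)
  have h6 : ∀ j, fderiv ℝ (fun x => fderiv ℝ (Par i) x (z.2 j)) z.1 w.1 =
      fderiv ℝ (fderiv ℝ (Par i)) z.1 w.1 (z.2 j) := by
    intro j
    have h7 := h0.hasFDerivAt.clm_apply (hasFDerivAt_const (z.2 j) z.1)
    rw [h7.fderiv]
    simp
  have h8 : fderiv ℝ (emb i) z = _ := h5.fderiv
  rw [h8]
  refine Prod.ext rfl ?_
  funext j
  simp only [h6]
  simp [add_comm]

theorem fderiv_rho_emb (i : Ix) (z w : E K × (Fin m → E K)) :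
    fderiv ℝ (rho i) (emb i z) (fderiv ℝ (emb i) z w) = fderiv ℝ (emb i) z w := by
  have h1 : (fun z => rho i (emb i z)) = (emb i : E K × (Fin m → E K) → HH K m) := by
    funext z
    exact rho_emb i z
  have h2 : DifferentiableAt ℝ (rho i) (emb i z) :=
    (rho_smooth i (Par_mem_Dom i z.1)).differentiableAt (by simp)
  have h3 : DifferentiableAt ℝ (emb i : E K × (Fin m → E K) → HH K m) z :=
    (emb_smooth i).differentiable (by simp) z
  have h4 := fderiv_comp z h2 h3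
  have h5 : (rho i) ∘ (emb i) = fun z : E K × (Fin m → E K) => (rho i (emb i z)) := rfl
  rw [h5, h1] at h4
  have h6 := congrArg (fun L : E K × (Fin m → E K) →L[ℝ] HH K m => L w) h4.symm
  exact h6

/-- right hand sides which preserve `TSet` -/
theorem fderiv_rho_good {G : Met K} (N : Conn G) (i : Ix) {q X : HH K m} (hq : q ∈ TSet K m)
    (hd : q.1 ∈ Dom K i) (h1 : X.1 ∈ Tan q.1) (h2 : ∀ j, X.2 j = N.Γ q.1 X.1 (q.2 j)) :
    fderiv ℝ (rho i) q X = X := by
  obtain ⟨v, hv⟩ := (mem_Tan_iff i hq.1 hd X.1).1 h1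
  have hq2 := rho_fix i hq hd
  set z : E K × (Fin m → E K) := (Cor i q.1, fun j => fderiv ℝ (Cor i) q.1 (q.2 j)) with hz
  have hq3 : emb i z = q := hq2
  have hX : fderiv ℝ (emb i) z (v, fun j => -chr (G.g i) z.1 v (z.2 j)) = X := by
    rw [fderiv_emb]
    refine Prod.ext hv ?_
    funext j
    rw [h2 j]
    have h3 := N.eq i z.1 v (z.2 j)
    simp only [map_neg]
    rw [← sub_eq_add_neg, ← h3]
    have e1 : Par i z.1 = q.1 := congrArg Prod.fst hq3
    have e2 : fderiv ℝ (Par i) z.1 (z.2 j) = q.2 j := congrFun (congrArg Prod.snd hq3) j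
    rw [e1, e2]
    have e3 : fderiv ℝ (Par i) z.1 v = X.1 := hv
    rw [e3]
  have h5 := fderiv_rho_emb i z (v, fun j => -chr (G.g i) z.1 v (z.2 j))
  rw [hX, hq3] at h5
  exact h5

theorem isClosed_TSet : IsClosed (TSet K m) := by
  refine isClosed_of_closure_subset fun q hq => ?_
  rw [mem_closure_iff_frequently] at hq
  have hd := mem_Dom_idx q.1
  set i := idx q.1
  have hev : ∀ᶠ q' : HH K m in 𝓝 q, q'.1 ∈ Dom K i :=
    continuous_fst.continuousAt ((isOpen_Dom i).mem_nhds hd)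
  have h1 : rho i q = q := by
    by_contra hne
    have h2 : ∀ᶠ q' in 𝓝 q, rho i q' ≠ q' :=
      ((rho_smooth i hd).continuousAt.ne_iff_eventually_ne continuousAt_id).1 hne
    obtain ⟨q', h3, h4, h5⟩ := (hq.and_eventually (h2.and hev)).exists
    exact h4 (rho_fix i h3 h5)
  rw [← h1]
  exact rho_mem i q

/-- local invariance -/
theorem stay_near {G : Met K} (N : Conn G) {X : ℝ × HH K m → HH K m} {x : ℝ → HH K m} {t₀ : ℝ}
    (hX : ContDiffAt ℝ 1 X (t₀, x t₀)) (hx : ∀ᶠ t in 𝓝 t₀, HasDerivAt x (X (t, x t)) t)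
    (hgood : ∀ᶠ q in 𝓝 (t₀, x t₀), q.2 ∈ TSet K m → (X q).1 ∈ Tan q.2.1 ∧
      ∀ j, (X q).2 j = N.Γ q.2.1 (X q).1 (q.2.2 j))
    (h0 : x t₀ ∈ TSet K m) : ∀ᶠ t in 𝓝 t₀, x t ∈ TSet K m := by
  have hd := mem_Dom_idx (x t₀).1
  set i := idx (x t₀).1
  have hfix : rho i (x t₀) = x t₀ := rho_fix i h0 hd
  have hρ : ContDiffAt ℝ 2 (rho i) (x t₀) := contDiffAt_infty.1 (rho_smooth i hd) 2
  have hp : Filter.Tendsto (fun q : ℝ × HH K m => (q.1, rho i q.2)) (𝓝 (t₀, x t₀))
      (𝓝 (t₀, x t₀)) := by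
    have h1 : ContinuousAt (fun q : ℝ × HH K m => (q.1, rho i q.2)) (t₀, x t₀) :=
      continuous_fst.continuousAt.prodMk
        (ContinuousAt.comp (x := (t₀, x t₀)) (g := rho i) (f := Prod.snd) hρ.continuousAt
          continuous_snd.continuousAt)
    unfold ContinuousAt at h1
    simp only [hfix] at h1
    exact h1
  have hev : ∀ᶠ q : ℝ × HH K m in 𝓝 (t₀, x t₀), q.2.1 ∈ Dom K i :=
    (continuous_fst.comp continuous_snd).continuousAt ((isOpen_Dom i).mem_nhds hd)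
  have hinv : ∀ᶠ q in 𝓝 (t₀, x t₀), fderiv ℝ (rho i) (rho i q.2) (X (q.1, rho i q.2)) =
      X (q.1, rho i q.2) := by
    filter_upwards [hp.eventually hgood, hp.eventually hev] with q h1 h2
    have h3 := rho_mem i q.2
    obtain ⟨h4, h5⟩ := h1 h3
    exact fderiv_rho_good N i h3 h2 h4 h5
  filter_upwards [inv_near hρ hX hfix hinv hx] with t ht
  rw [← ht]
  exact rho_mem i _

theorem stay {x : ℝ → HH K m} (hc : Continuous x) (h0 : x 0 ∈ TSet K m)
    (hn : ∀ t₀, x t₀ ∈ TSet K m → ∀ᶠ t in 𝓝 t₀, x t ∈ TSet K m) : ∀ t, x t ∈ TSet K m := by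
  have h1 : IsClopen {t | x t ∈ TSet K m} :=
    ⟨isClosed_TSet.preimage hc, isOpen_iff_mem_nhds.2 fun t ht => hn t ht⟩
  have h2 := h1.eq_univ ⟨0, h0⟩
  intro t
  have : t ∈ {t | x t ∈ TSet K m} := by rw [h2]; exact Set.mem_univ t
  exact this

end Pool.Agent.H86.Nco.SDevB
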