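import Pool.Agent.H86.Nco.SCalc
import Pool.Agent.H86.Nco.SDevB

/-!
# Auxiliary file for SDEV: parallel frames stay adapted; adapted frames are bounded
-/

open scoped Manifold ContDiff Bundle Topology

noncomputable section

namespace Pool.Agent.H86.Nco.SDevC

open Pool.Agent.H86.Anco Pool.Agent.H86.Nco.SDevA Pool.Agent.H86.Nco.SDevB

variable {K : ℕ} {G : Met K} {a : Form2 K}

/-! ### Adapted frames are bounded -/

theorem gm_zero (p : V K) : gm G p 0 0 = 0 := by
  have h := gm_smul (G := G) (p := p) 0 (0 : V K) 0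
  rw [zero_smul, zero_mul] at h
  exact h

theorem exists_eps (G : Met K) :
    ∃ ε : ℝ, 0 < ε ∧ ∀ p ∈ carrier K, ∀ v ∈ Tan p, ε * ‖v‖ ^ 2 ≤ gm G p v v := by
  set S : Set (HH K 1) := TSet K 1 ∩ {q | ‖q.2 0‖ = 1} with hS
  have hcl : IsClosed S := isClosed_TSet.inter (isClosed_eq (by fun_prop) continuous_const)
  have hsub : S ⊆ carrier K ×ˢ Metric.closedBall (0 : Fin 1 → V K) 1 := by
    rintro q ⟨h1, h2⟩
    refine ⟨h1.1, ?_⟩
    rw [mem_closedBall_zero_iff, pi_norm_le_iff_of_nonneg zero_le_one]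
    intro j
    rw [Subsingleton.elim j 0]
    exact le_of_eq h2
  have hcomp : IsCompact S :=
    (isCompact_carrier.prod (isCompact_closedBall 0 1)).of_isClosed_subset hcl hsub
  have hcont : ContinuousOn (fun q : HH K 1 => gm G q.1 (q.2 0) (q.2 0)) S := by
    intro q hq
    have hd := mem_Dom_idx q.1
    set i := idx q.1 with hi
    have h1 : ContDiffAt ℝ ∞ (Cor i : V K → E K) q.1 :=
      (contDiffOn_Cor i).contDiffAt ((isOpen_Dom i).mem_nhds hd)
    have h2 : ContDiffAt ℝ ∞ (fderiv ℝ (Cor i : V K → E K)) q.1 := h1.fderiv_right (by simp)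
    have h3 : ContinuousAt (fun q : HH K 1 => fderiv ℝ (Cor i) q.1 (q.2 0)) q := by
      have h4 : ContinuousAt (fun q : HH K 1 => fderiv ℝ (Cor i : V K → E K) q.1) q :=
        ContinuousAt.comp (g := fderiv ℝ (Cor i : V K → E K)) (f := fun q : HH K 1 => q.1)
          h2.continuousAt continuous_fst.continuousAt
      exact h4.clm_apply (by fun_prop)
    have h5 : ContinuousAt (fun q : HH K 1 => Cor i q.1) q :=
      ContinuousAt.comp (g := (Cor i : V K → E K)) (f := fun q : HH K 1 => q.1)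
        h1.continuousAt continuous_fst.continuousAt
    have h6 : ContinuousAt (fun q : HH K 1 => G.g i (Cor i q.1)) q :=
      ContinuousAt.comp (g := G.g i) (f := fun q : HH K 1 => Cor i q.1)
        (G.smooth i).continuous.continuousAt h5
    have h7 : ContinuousAt (fun q : HH K 1 => G.g i (Cor i q.1)
        (fderiv ℝ (Cor i) q.1 (q.2 0)) (fderiv ℝ (Cor i) q.1 (q.2 0))) q :=
      (h6.clm_apply h3).clm_apply h3
    have hev : ∀ᶠ q' : HH K 1 in 𝓝[S] q, q'.1 ∈ Dom K i :=
      mem_nhdsWithin_of_mem_nhds (continuous_fst.continuousAt ((isOpen_Dom i).mem_nhds hd))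
    refine h7.continuousWithinAt.congr_of_eventuallyEq ?_ ?_
    · filter_upwards [hev, self_mem_nhdsWithin] with q' h8 h9
      exact amb_eq G.compat i h9.1.1 h8 (h9.1.2 0) (h9.1.2 0)
    · exact amb_eq G.compat i hq.1.1 hd (hq.1.2 0) (hq.1.2 0)
  obtain ⟨ε, hε, hle⟩ := hcomp.exists_forall_le' hcont (a := 0) (by
    rintro q ⟨h1, h2⟩
    refine gm_pos h1.1 (h1.2 0) fun h3 => ?_
    have h4 : ‖q.2 0‖ = 1 := h2
    rw [h3, norm_zero] at h4
    exact zero_ne_one h4)
  refine ⟨ε, hε, fun p hp v hv => ?_⟩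
  rcases eq_or_ne v 0 with rfl | h0
  · rw [gm_zero, norm_zero]; simp
  · have hn : 0 < ‖v‖ := norm_pos_iff.2 h0
    have h1 := hle (p, fun _ => ‖v‖⁻¹ • v) ⟨⟨hp, fun _ => Submodule.smul_mem _ _ hv⟩, by
      change ‖‖v‖⁻¹ • v‖ = 1
      rw [norm_smul, norm_inv, norm_norm, inv_mul_cancel₀ hn.ne']⟩
    simp only at h1
    rw [gm_smul, gm_symm, gm_smul] at h1
    have h2 : ‖v‖ ^ 2 * (‖v‖⁻¹ * (‖v‖⁻¹ * gm G p v v)) = gm G p v v := by
      field_simp
    have h3 := mul_le_mul_of_nonneg_left h1 (sq_nonneg ‖v‖)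
    rw [h2] at h3
    linarith

theorem exists_bound (G : Met K) (J : V K → V K →L[ℝ] V K) :
    ∃ R : ℝ, 0 < R ∧ ∀ q : HH K (K + 4), q.1 ∈ carrier K → Adapted G J q.1 q.2 → ‖q‖ ≤ R := by
  obtain ⟨ε, hε, hle⟩ := exists_eps G
  obtain ⟨C, hC⟩ := (isCompact_carrier (K := K)).isBounded.exists_norm_le
  refine ⟨max C (1 / ε + 1), lt_max_of_lt_right (by positivity), fun q hq hf => ?_⟩
  rw [Prod.norm_def]
  refine max_le ((hC _ hq).trans (le_max_left _ _)) ?_
  refine le_trans ?_ (le_max_right _ _)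
  rw [pi_norm_le_iff_of_nonneg (by positivity)]
  intro j
  have h1 := hle q.1 hq (q.2 j) (hf.mem j)
  rw [hf.orth j j, if_pos rfl] at h1
  have h2 : ‖q.2 j‖ ^ 2 ≤ 1 / ε := by
    rw [le_div_iff₀ hε]
    linarith
  nlinarith [sq_nonneg (‖q.2 j‖ - 1), norm_nonneg (q.2 j)]

/-! ### Parallel vector fields -/

section Par

variable {N : Conn G} {c w : ℝ → V K} {X Y : ℝ → V K}

/-- parallel vector fields along `c` (with `c' = w`) -/
def Parl (N : Conn G) (c w X : ℝ → V K) : Prop :=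
  ∀ t, HasDerivAt X (N.Γ (c t) (w t) (X t)) t

theorem Parl.nab (hc : ∀ t, HasDerivAt c (w t) t) (hX : Parl N c w X) (t : ℝ) :
    nab N.Γ c X t 1 = 0 := by
  unfold Nco.nab
  have h1 : fderiv ℝ X t 1 = N.Γ (c t) (w t) (X t) := by
    rw [(hX t).hasFDerivAt.fderiv]; simp
  have h2 : fderiv ℝ c t 1 = w t := by
    rw [(hc t).hasFDerivAt.fderiv]; simp
  rw [h1, h2, sub_self]

theorem Parl.add (hX : Parl N c w X) (hY : Parl N c w Y) : Parl N c w (fun t => X t + Y t) := by
  intro t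
  have h := (hX t).add (hY t)
  rw [← map_add] at h
  exact h

theorem Parl.sub (hX : Parl N c w X) (hY : Parl N c w Y) : Parl N c w (fun t => X t - Y t) := by
  intro t
  have h := (hX t).sub (hY t)
  rw [← map_sub] at h
  exact h

theorem Parl.zero (hc : ∀ t, HasDerivAt c (w t) t) (hw : Continuous w) (hX : Parl N c w X)
    (h0 : X 0 = 0) : ∀ t, X t = 0 := by
  have hcc : Continuous c := continuous_iff_continuousAt.2 fun t => (hc t).continuousAt
  exact lin_zero ((N.smooth.continuous.comp hcc).clm_apply hw) hX h0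

theorem Parl.gm_const (hc : ∀ t, HasDerivAt c (w t) t) (hcm : ∀ t, c t ∈ carrier K)
    (hX : Parl N c w X) (hY : Parl N c w Y) (hXm : ∀ t, X t ∈ Tan (c t))
    (hYm : ∀ t, Y t ∈ Tan (c t)) (t : ℝ) : gm G (c t) (X t) (Y t) = gm G (c 0) (X 0) (Y 0) := by
  have h1 : ∀ t, DifferentiableAt ℝ (fun q => gm G (c q) (X q) (Y q)) t ∧
      deriv (fun q => gm G (c q) (X q) (Y q)) t = 0 := by
    intro t
    obtain ⟨h2, h3⟩ := nab_metric N (hc t).differentiableAt (hX t).differentiableAt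
      (hY t).differentiableAt (Filter.Eventually.of_forall hcm) (Filter.Eventually.of_forall hXm)
      (Filter.Eventually.of_forall hYm)
    refine ⟨h2, ?_⟩
    rw [← fderiv_apply_one_eq_deriv, h3 1, hX.nab hc t, hY.nab hc t]
    have h4 : ∀ v : V K, gm G (c t) 0 v = 0 := fun v => by
      have h := gm_smul (G := G) (p := c t) 0 (0 : V K) v
      rw [zero_smul, zero_mul] at h
      exact h
    rw [h4, gm_symm, h4, add_zero]
  exact is_const_of_deriv_eq_zero (fun t => (h1 t).1) (fun t => (h1 t).2) t 0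

theorem Parl.J (S : JStr G a) (hc : ∀ t, HasDerivAt c (w t) t) (hcm : ∀ t, c t ∈ carrier K)
    (hX : Parl N c w X) (hXm : ∀ t, X t ∈ Tan (c t)) :
    Parl N c w (fun t => S.J (c t) (X t)) := by
  intro t
  have h1 : DifferentiableAt ℝ (fun t => S.J (c t)) t :=
    (S.smooth.differentiable (by simp) (c t)).comp t (hc t).differentiableAt
  have h2 : DifferentiableAt ℝ (fun t => S.J (c t) (X t)) t :=
    h1.clm_apply (hX t).differentiableAt
  have h3 := nab_J N S (hc t).differentiableAt (hX t).differentiableAt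
    (Filter.Eventually.of_forall hcm) (Filter.Eventually.of_forall hXm) 1
  rw [hX.nab hc t, map_zero] at h3
  unfold Nco.nab at h3
  rw [sub_eq_zero, fderiv_apply_one_eq_deriv, fderiv_apply_one_eq_deriv, (hc t).deriv] at h3
  rw [← h3]
  exact h2.hasDerivAt

end Par

theorem adapted_of_parallel (N : Conn G) (S : JStr G a) {c w : ℝ → V K}
    {F : ℝ → Fin (K + 4) → V K} (hw : Continuous w) (hc : ∀ t, HasDerivAt c (w t) t)
    (hm : ∀ t, (c t, F t) ∈ TSet K (K + 4))
    (hF : ∀ t j, HasDerivAt (fun τ => F τ j) (N.Γ (c t) (w t) (F t j)) t)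
    (h0 : Adapted G S.J (c 0) (F 0)) (t : ℝ) : Adapted G S.J (c t) (F t) := by
  have hcm : ∀ t, c t ∈ carrier K := fun t => (hm t).1
  have hFm : ∀ j t, F t j ∈ Tan (c t) := fun j t => (hm t).2 j
  have hP : ∀ j, Parl N c w (fun t => F t j) := fun j t => hF t j
  refine ⟨fun j => hFm j t, fun j k => ?_, ?_, ?_, fun j => ?_⟩
  · rw [(hP j).gm_const hc hcm (hP k) (hFm j) (hFm k) t]
    exact h0.orth j k
  · have h1 := Parl.zero hc hw (((hP 0).J S hc hcm (hFm 0)).sub (hP 1))
      (by rw [h0.J0, sub_self]) t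
    exact sub_eq_zero.1 h1
  · have h1 := Parl.zero hc hw (((hP 1).J S hc hcm (hFm 1)).add (hP 0))
      (by rw [h0.J1, neg_add_cancel]) t
    exact eq_neg_of_add_eq_zero_left h1
  · exact Parl.zero hc hw ((hP j.succ.succ).J S hc hcm (hFm j.succ.succ)) (h0.J2 j) t

end Pool.Agent.H86.Nco.SDevC
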