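import Pool.Agent.H86.Nco.Ode
import Pool.Agent.H86.Nco.SDevC

/-!
# Module SDEV: existence and uniqueness of developments

`exists_dev`: the ordinary differential equation `c' = ∑ ζ_j F_j`, `F_j' = Γ(c)(∑ ζ_k F_k, F_j)` on
`H = V K × (Fin (K+4) → V K)` with a smooth right hand side depending smoothly on `(p, t)`.  The set
`ℱ = {(c, F) | c ∈ carrier K, F adapted at c}` is compact (closed and bounded: `F_j` are `g`-unit
tangent vectors).  Multiply the right hand side by a smooth compactly supported function of `(c, F)`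
which is `1` near `ℱ`; `ode_smooth` gives a smooth solution `(c, F)` of the cut-off equation.  For fixed
`p` the set of `t` with `(c, F) ∈ ℱ` is closed, contains `0`; it is open: at `t₀` take the chart
`i = idx (c t₀)`, solve `y' = ∑ ζ_j f_j`, `f_j' = - chr (G.g i) y (y') (f_j)` near `t₀` with the right initial
values; `(Par i y, DPar_i (y) f_j)` solves the ambient equation (definition of `Conn`), stays
orthonormal (`nab_metric`), `J F_0 - F_1`, `J F_1 + F_0`, `J F_j` are parallel (`nab_J`) and vanish at `t₀`, so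
it stays in `ℱ` and by local uniqueness it is the solution.  So the solution stays in `ℱ` for all `t`.
(Another way to see invariance, without solving in charts: with the retraction `ρ` of `Ret.lean` and
`Π(c) = Dρ(c)`, the quantities `ρ(c) - c` and `Π(c) F_j - F_j` satisfy a linear differential inequality,
provided the right hand side is written with `Π(c)` in front.)

`dev_unique`: the right hand side is locally Lipschitz in `(c, F)`; on `[0, 1]` both solutions stay in a
compact set, where it is Lipschitz uniformly in `t` (`ODE_solution_unique_of_mem_Icc_right`).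
`transport_unique`: same for the linear equation of parallel transport.
-/

open scoped Manifold ContDiff Bundle Topology

noncomputable section

namespace Pool.Agent.H86.Nco

open Pool.Agent.H86.Anco Pool.Agent.H86.Nco.SDevA Pool.Agent.H86.Nco.SDevB
  Pool.Agent.H86.Nco.SDevC

variable {K : ℕ} {G : Met K} {a : Form2 K}

namespace SDevD

/-- the right hand side of the equation of developments -/
def Y (N : Conn G) {m : ℕ} (q : (Fin m → ℝ) × HH K m) : HH K m :=
  (∑ j, q.1 j • q.2.2 j, fun j => N.Γ q.2.1 (∑ k, q.1 k • q.2.2 k) (q.2.2 j))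

theorem contDiff_Y (N : Conn G) (m : ℕ) : ContDiff ℝ ∞ (Y N (m := m)) := by
  have h0 : ∀ j, ContDiff ℝ ∞ (fun q : (Fin m → ℝ) × HH K m => q.2.2 j) := fun j =>
    (contDiff_apply ℝ (V K) j).comp (contDiff_snd.comp contDiff_snd)
  have h1 : ContDiff ℝ ∞ (fun q : (Fin m → ℝ) × HH K m => ∑ j, q.1 j • q.2.2 j) := by
    refine ContDiff.sum fun j _ => ?_
    exact ((contDiff_apply ℝ ℝ j).comp contDiff_fst).smul (h0 j)
  refine h1.prodMk (contDiff_pi.2 fun j => ?_)
  exact ((N.smooth.comp (contDiff_fst.comp contDiff_snd)).clm_apply h1).clm_apply (h0 j)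

theorem exists_bump {H : Type*} [NormedAddCommGroup H] [NormedSpace ℝ H] [FiniteDimensional ℝ H]
    {R : ℝ} (hR : 0 < R) : ∃ ψ : H → ℝ, ContDiff ℝ ∞ ψ ∧ (∀ x, ‖x‖ ≤ R → ψ x = 1) ∧
      ∀ x, R + 1 ≤ ‖x‖ → ψ x = 0 := by
  let ψ : ContDiffBump (0 : H) := ⟨R, R + 1, hR, by linarith⟩
  refine ⟨ψ, ψ.contDiff, fun x hx => ψ.one_of_mem_closedBall ?_, fun x hx =>
    ψ.zero_of_le_dist ?_⟩
  · rw [mem_closedBall_zero_iff]
    exact hx
  · rw [dist_zero_right]
    exact hx

end SDevD

open SDevD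

theorem exists_dev (N : Conn G) (S : JStr G a) {P : Type} [NormedAddCommGroup P]
    [NormedSpace ℝ P] [FiniteDimensional ℝ P] (ζ : P × ℝ → Fin (K + 4) → ℝ)
    (hζ : ContDiff ℝ ∞ ζ) {q₀ : V K} (hq₀ : q₀ ∈ carrier K) {f : Fin (K + 4) → V K}
    (hf : Adapted G S.J q₀ f) :
    ∃ (c : P × ℝ → V K) (F : P × ℝ → Fin (K + 4) → V K), Dev N.Γ ζ c F q₀ f ∧
      ∀ q, c q ∈ carrier K ∧ Adapted G S.J (c q) (F q) := by
  obtain ⟨R, hR0, hR⟩ := exists_bound G S.J
  obtain ⟨ψ, hψs, hψ1, hψ0⟩ := exists_bump (H := HH K (K + 4)) hR0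
  set X : P × ℝ × HH K (K + 4) → HH K (K + 4) :=
    fun q => ψ q.2.2 • Y N (ζ (q.1, q.2.1), q.2.2) with hXdef
  have hY : ContDiff ℝ ∞ (fun q : P × ℝ × HH K (K + 4) => Y N (ζ (q.1, q.2.1), q.2.2)) :=
    (contDiff_Y N (K + 4)).comp ((hζ.comp (contDiff_fst.prodMk
      (contDiff_fst.comp contDiff_snd))).prodMk (contDiff_snd.comp contDiff_snd))
  have hX : ContDiff ℝ ∞ X := (hψs.comp (contDiff_snd.comp contDiff_snd)).smul hY
  have hlin : ∀ r : ℝ, ∃ C : ℝ, ∀ (p : P) (t : ℝ) (x : HH K (K + 4)), ‖p‖ ≤ r → |t| ≤ r →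
      ‖X (p, t, x)‖ ≤ C * (1 + ‖x‖) := by
    intro r
    have hc : IsCompact ((Metric.closedBall (0 : P) r) ×ˢ ((Metric.closedBall (0 : ℝ) r) ×ˢ
        (Metric.closedBall (0 : HH K (K + 4)) (R + 1)))) :=
      (isCompact_closedBall _ _).prod ((isCompact_closedBall _ _).prod (isCompact_closedBall _ _))
    obtain ⟨C, hC⟩ := hc.exists_bound_of_continuousOn hX.continuous.continuousOn
    refine ⟨max C 0, fun p t x hp ht => ?_⟩
    rcases le_total ‖x‖ (R + 1) with hx | hx
    · have h1 := hC (p, t, x) ⟨by simpa using hp, by simpa using ht, by simpa using hx⟩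
      have h2 : (0 : ℝ) ≤ max C 0 := le_max_right _ _
      have h3 : C ≤ max C 0 := le_max_left _ _
      nlinarith [norm_nonneg x]
    · have h1 : ψ x = 0 := hψ0 x hx
      have h2 : X (p, t, x) = 0 := by
        change ψ x • _ = _
        rw [h1, zero_smul]
      rw [h2, norm_zero]
      have h3 : (0 : ℝ) ≤ max C 0 := le_max_right _ _
      positivity
  obtain ⟨x, hxs, hx0, hxd⟩ := ode_smooth X hX hlin (fun _ => (q₀, f)) contDiff_const
  have hgood : ∀ p t (q : HH K (K + 4)), q ∈ TSet K (K + 4) → (X (p, t, q)).1 ∈ Tan q.1 ∧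
      ∀ j, (X (p, t, q)).2 j = N.Γ q.1 (X (p, t, q)).1 (q.2 j) := by
    intro p t q hq
    have hs : ∑ j, ζ (p, t) j • q.2 j ∈ Tan q.1 := Submodule.sum_mem _ fun j _ =>
      Submodule.smul_mem _ _ (hq.2 j)
    refine ⟨Submodule.smul_mem _ _ hs, fun j => ?_⟩
    change ψ q • N.Γ q.1 _ (q.2 j) = N.Γ q.1 (ψ q • _) (q.2 j)
    rw [map_smul]
    rfl
  have hxc : ∀ p, Continuous (fun t => x (p, t)) := fun p =>
    hxs.continuous.comp (continuous_const.prodMk continuous_id)
  have hm : ∀ p t, x (p, t) ∈ TSet K (K + 4) := by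
    intro p
    refine stay (x := fun t => x (p, t)) (hxc p) ?_ fun t₀ h => ?_
    · rw [hx0]
      exact ⟨hq₀, hf.mem⟩
    · refine stay_near N (X := fun q => X (p, q.1, q.2)) (x := fun t => x (p, t)) ?_
        (Filter.Eventually.of_forall fun t => hxd p t)
        (Filter.Eventually.of_forall fun q hq => hgood p q.1 q.2 hq) h
      exact ((contDiff_infty.1 hX 1).comp (contDiff_const.prodMk
        (contDiff_fst.prodMk contDiff_snd))).contDiffAt
  have had : ∀ p t, Adapted G S.J (x (p, t)).1 (x (p, t)).2 := by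
    intro p
    refine adapted_of_parallel N S (c := fun t => (x (p, t)).1) (F := fun t => (x (p, t)).2)
      (w := fun t => (X (p, t, x (p, t))).1) ?_ (fun t => (hxd p t).fst) (hm p) (fun t j => ?_) ?_
    · exact continuous_fst.comp (hX.continuous.comp (continuous_const.prodMk
        (continuous_id.prodMk (hxc p))))
    · have h1 := hasDerivAt_pi.1 (hxd p t).snd j
      rw [(hgood p t _ (hm p t)).2 j] at h1
      exact h1
    · simp only [hx0]
      exact hf
  have hXY : ∀ p t, X (p, t, x (p, t)) = Y N (ζ (p, t), x (p, t)) := by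
    intro p t
    have h1 : ψ (x (p, t)) = 1 := hψ1 _ (hR _ (hm p t).1 (had p t))
    change ψ (x (p, t)) • _ = _
    rw [h1, one_smul]
  refine ⟨fun q => (x q).1, fun q => (x q).2, ⟨contDiff_fst.comp hxs, contDiff_snd.comp hxs,
    fun p => by simp only [hx0], fun p => by simp only [hx0], fun p t => ?_, fun p t j => ?_⟩,
    fun q => ⟨(hm q.1 q.2).1, had q.1 q.2⟩⟩
  · have h1 := (hxd p t).fst
    rw [hXY] at h1
    exact h1
  · have h1 := hasDerivAt_pi.1 (hxd p t).snd j
    rw [hXY] at h1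
    exact h1

/-- parallel adapted frames along a family of curves which start at a fixed point -/
theorem exists_transport (N : Conn G) (S : JStr G a) {P : Type} [NormedAddCommGroup P]
    [NormedSpace ℝ P] [FiniteDimensional ℝ P] (c : P × ℝ → V K) (hc : ContDiff ℝ ∞ c)
    (hcm : ∀ q, c q ∈ carrier K) {q₀ : V K} (hc0 : ∀ p, c (p, 0) = q₀)
    {f : Fin (K + 4) → V K} (hf : Adapted G S.J q₀ f) :
    ∃ F : P × ℝ → Fin (K + 4) → V K, ContDiff ℝ ∞ F ∧ (∀ p, F (p, 0) = f) ∧
      (∀ q, Adapted G S.J (c q) (F q)) ∧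
      ∀ p t j, HasDerivAt (fun τ => F (p, τ) j)
        (N.Γ (c (p, t)) (deriv (fun τ => c (p, τ)) t) (F (p, t) j)) t := by
  -- the derivative in `t`
  set c' : P × ℝ → V K := fun q => fderiv ℝ c q (0, 1) with hc'
  have hc's : ContDiff ℝ ∞ c' := (hc.fderiv_right (by simp)).clm_apply contDiff_const
  have hcd : ∀ p t, HasDerivAt (fun τ => c (p, τ)) (c' (p, t)) t := by
    intro p t
    have h1 : HasFDerivAt c (fderiv ℝ c (p, t)) (p, t) :=
      (hc.differentiable (by simp) (p, t)).hasFDerivAt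
    have h2 : HasDerivAt (fun τ : ℝ => (p, τ)) ((0 : P), (1 : ℝ)) t :=
      (hasDerivAt_const t p).prodMk (hasDerivAt_id t)
    exact h1.comp_hasDerivAt t h2
  have hct : ∀ q, c' q ∈ Tan (c q) := fun q =>
    tan_of_map (hc.differentiable (by simp) q) (Filter.Eventually.of_forall hcm) _
  -- the linear equation
  set A : P × ℝ → (Fin (K + 4) → V K) →L[ℝ] (Fin (K + 4) → V K) := fun q =>
    ContinuousLinearMap.pi fun j => (N.Γ (c q) (c' q)).comp (ContinuousLinearMap.proj j) with hA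
  have hAs : ContDiff ℝ ∞ A := by
    rw [contDiff_clm_apply_iff]
    intro y
    refine contDiff_pi.2 fun j => ?_
    exact ((N.smooth.comp hc).clm_apply hc's).clm_apply contDiff_const
  obtain ⟨F, hFs, hF0, hFd⟩ := lode_smooth A hAs (fun _ => 0) contDiff_const (fun _ => f)
    contDiff_const
  have hFd' : ∀ p t j, HasDerivAt (fun τ => F (p, τ) j)
      (N.Γ (c (p, t)) (c' (p, t)) (F (p, t) j)) t := by
    intro p t j
    have h1 := hFd p t
    rw [add_zero] at h1
    exact hasDerivAt_pi.1 h1 j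
  have hm : ∀ p t, (c (p, t), F (p, t)) ∈ TSet K (K + 4) := by
    intro p
    have hxc : Continuous (fun t => (c (p, t), F (p, t))) :=
      (hc.continuous.prodMk hFs.continuous).comp (continuous_const.prodMk continuous_id)
    refine stay (x := fun t => (c (p, t), F (p, t))) hxc ?_ fun t₀ h => ?_
    · rw [hc0, hF0]
      rw [← hc0 p]
      refine ⟨hcm _, ?_⟩
      rw [hc0]
      exact hf.mem
    · have hd : c (p, t₀) ∈ Dom K (idx (c (p, t₀))) := mem_Dom_idx _
      set i := idx (c (p, t₀))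
      set W : ℝ × HH K (K + 4) → V K := fun q =>
        fderiv ℝ (Par i) (Cor i q.2.1) (fderiv ℝ (Cor i) q.2.1 (c' (p, q.1))) with hW
      set X : ℝ × HH K (K + 4) → HH K (K + 4) := fun q =>
        (W q, fun j => N.Γ q.2.1 (W q) (q.2.2 j)) with hX
      have hevd : ∀ᶠ t in 𝓝 t₀, c (p, t) ∈ Dom K i :=
        (hc.continuous.comp (continuous_const.prodMk continuous_id)).continuousAt
          ((isOpen_Dom i).mem_nhds hd)
      have hW1 : ∀ᶠ t in 𝓝 t₀, W (t, c (p, t), F (p, t)) = c' (p, t) := by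
        filter_upwards [hevd] with t ht
        exact fderiv_Par_Cor i (hcm _) ht (hct _)
      have hWs : ContDiffAt ℝ ∞ W (t₀, c (p, t₀), F (p, t₀)) := by
        have h1 : ContDiffAt ℝ ∞ (Cor i : V K → E K) (c (p, t₀)) :=
          (contDiffOn_Cor i).contDiffAt ((isOpen_Dom i).mem_nhds hd)
        have h2 : ContDiffAt ℝ ∞ (fderiv ℝ (Cor i : V K → E K)) (c (p, t₀)) :=
          h1.fderiv_right (by simp)
        have h3 : ContDiffAt ℝ ∞ (fun q : ℝ × HH K (K + 4) => q.2.1)
            (t₀, c (p, t₀), F (p, t₀)) := (contDiff_fst.comp contDiff_snd).contDiffAt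
        have h4 : ContDiffAt ℝ ∞ (fun q : ℝ × HH K (K + 4) => Cor i q.2.1)
            (t₀, c (p, t₀), F (p, t₀)) := ContDiffAt.comp (g := (Cor i : V K → E K))
              (f := fun q : ℝ × HH K (K + 4) => q.2.1) (t₀, c (p, t₀), F (p, t₀)) h1 h3
        have h5 : ContDiffAt ℝ ∞ (fun q : ℝ × HH K (K + 4) => fderiv ℝ (Cor i : V K → E K) q.2.1)
            (t₀, c (p, t₀), F (p, t₀)) := ContDiffAt.comp (g := fderiv ℝ (Cor i : V K → E K))
              (f := fun q : ℝ × HH K (K + 4) => q.2.1) (t₀, c (p, t₀), F (p, t₀)) h2 h3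
        have h6 : ContDiffAt ℝ ∞ (fun q : ℝ × HH K (K + 4) => fderiv ℝ (Par i : E K → V K)
            (Cor i q.2.1)) (t₀, c (p, t₀), F (p, t₀)) :=
          (SDevB.contDiff_DPar i).contDiffAt.comp _ h4
        have h7 : ContDiffAt ℝ ∞ (fun q : ℝ × HH K (K + 4) => c' (p, q.1))
            (t₀, c (p, t₀), F (p, t₀)) :=
          (hc's.comp (contDiff_const.prodMk contDiff_fst)).contDiffAt
        exact h6.clm_apply (h5.clm_apply h7)
      have hXs : ContDiffAt ℝ ∞ X (t₀, c (p, t₀), F (p, t₀)) := by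
        refine hWs.prodMk (contDiffAt_pi.2 fun j => ?_)
        refine ContDiffAt.clm_apply (ContDiffAt.clm_apply ?_ hWs) ?_
        · exact (N.smooth.comp (contDiff_fst.comp contDiff_snd)).contDiffAt
        · exact ((contDiff_apply ℝ (V K) j).comp (contDiff_snd.comp contDiff_snd)).contDiffAt
      refine stay_near N (X := X) (x := fun t => (c (p, t), F (p, t)))
        (contDiffAt_infty.1 hXs 1) ?_ ?_ h
      · filter_upwards [hW1] with t ht
        have h1 : X (t, c (p, t), F (p, t)) =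
            (c' (p, t), fun j => N.Γ (c (p, t)) (c' (p, t)) (F (p, t) j)) := by
          simp only [hX, ht]
        rw [h1]
        exact (hcd p t).prodMk (hasDerivAt_pi.2 fun j => hFd' p t j)
      · have hev : ∀ᶠ q : ℝ × HH K (K + 4) in 𝓝 (t₀, c (p, t₀), F (p, t₀)), q.2.1 ∈ Dom K i :=
          (continuous_fst.comp continuous_snd).continuousAt ((isOpen_Dom i).mem_nhds hd)
        filter_upwards [hev] with q h1 h2
        exact ⟨(mem_Tan_iff i h2.1 h1 _).2 ⟨_, rfl⟩, fun j => rfl⟩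
  refine ⟨F, hFs, hF0, fun q => ?_, fun p t j => ?_⟩
  · obtain ⟨p, t⟩ := q
    refine adapted_of_parallel N S (c := fun t => c (p, t)) (F := fun t => F (p, t))
      (w := fun t => c' (p, t)) ?_ (hcd p) (hm p) (hFd' p) ?_ t
    · exact hc's.continuous.comp (continuous_const.prodMk continuous_id)
    · simp only [hc0, hF0]
      exact hf
  · rw [(hcd p t).deriv]
    exact hFd' p t j

theorem dev_unique (N : Conn G) {m : ℕ} {ζ : ℝ → Fin m → ℝ} (hζ : Continuous ζ)
    {c c' : ℝ → V K} {F F' : ℝ → Fin m → V K}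
    (h1 : ∀ t ∈ Set.Icc (0 : ℝ) 1, HasDerivAt c (∑ j, ζ t j • F t j) t ∧
      ∀ j, HasDerivAt (fun τ => F τ j) (N.Γ (c t) (∑ k, ζ t k • F t k) (F t j)) t)
    (h2 : ∀ t ∈ Set.Icc (0 : ℝ) 1, HasDerivAt c' (∑ j, ζ t j • F' t j) t ∧
      ∀ j, HasDerivAt (fun τ => F' τ j) (N.Γ (c' t) (∑ k, ζ t k • F' t k) (F' t j)) t)
    (hc : c 0 = c' 0) (hF : F 0 = F' 0) :
    ∀ t ∈ Set.Icc (0 : ℝ) 1, c t = c' t ∧ F t = F' t := by
  have e1 : ∀ t ∈ Set.Icc (0 : ℝ) 1, HasDerivAt (fun t => (c t, F t)) (Y N (ζ t, c t, F t)) t :=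
    fun t ht => (h1 t ht).1.prodMk (hasDerivAt_pi.2 (h1 t ht).2)
  have e2 : ∀ t ∈ Set.Icc (0 : ℝ) 1, HasDerivAt (fun t => (c' t, F' t)) (Y N (ζ t, c' t, F' t)) t :=
    fun t ht => (h2 t ht).1.prodMk (hasDerivAt_pi.2 (h2 t ht).2)
  obtain ⟨C1, hC1⟩ := (isCompact_Icc (a := (0 : ℝ)) (b := 1)).exists_bound_of_continuousOn
    (f := fun t => (c t, F t)) (fun t ht => (e1 t ht).continuousAt.continuousWithinAt)
  obtain ⟨C2, hC2⟩ := (isCompact_Icc (a := (0 : ℝ)) (b := 1)).exists_bound_of_continuousOn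
    (f := fun t => (c' t, F' t)) (fun t ht => (e2 t ht).continuousAt.continuousWithinAt)
  obtain ⟨C3, hC3⟩ := (isCompact_Icc (a := (0 : ℝ)) (b := 1)).exists_bound_of_continuousOn
    (f := ζ) hζ.continuousOn
  set R := max C3 (max C1 C2) with hR
  have hYs := contDiff_Y N m
  obtain ⟨C, hC⟩ := (isCompact_closedBall (0 : (Fin m → ℝ) × HH K m) R).exists_bound_of_continuousOn
    (hYs.continuous_fderiv (by simp)).continuousOn
  have hL : ∀ x ∈ Metric.closedBall (0 : (Fin m → ℝ) × HH K m) R,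
      ∀ y ∈ Metric.closedBall (0 : (Fin m → ℝ) × HH K m) R, ‖Y N y - Y N x‖ ≤ C * ‖y - x‖ :=
    fun x hx y hy => (convex_closedBall _ _).norm_image_sub_le_of_norm_fderiv_le
      (fun z _ => hYs.differentiable (by simp) z) hC hx hy
  have hm1 : ∀ t ∈ Set.Icc (0 : ℝ) 1, (ζ t, c t, F t) ∈
      Metric.closedBall (0 : (Fin m → ℝ) × HH K m) R := fun t ht => by
    rw [mem_closedBall_zero_iff, Prod.norm_mk]
    exact max_le_max (hC3 t ht) ((hC1 t ht).trans (le_max_left _ _))
  have hm2 : ∀ t ∈ Set.Icc (0 : ℝ) 1, (ζ t, c' t, F' t) ∈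
      Metric.closedBall (0 : (Fin m → ℝ) × HH K m) R := fun t ht => by
    rw [mem_closedBall_zero_iff, Prod.norm_mk]
    exact max_le_max (hC3 t ht) ((hC2 t ht).trans (le_max_right _ _))
  have key := zero_right (D := fun t => (c t, F t) - (c' t, F' t))
    (D' := fun t => Y N (ζ t, c t, F t) - Y N (ζ t, c' t, F' t)) (C := C) (a := 0) (b := 1)
    (fun t ht => (e1 t ht).sub (e2 t ht)) (by simp [hc, hF]) (fun t ht => by
      refine (hL _ (hm2 t ht) _ (hm1 t ht)).trans (le_of_eq ?_)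
      rw [Prod.mk_sub_mk, sub_self, Prod.norm_mk, norm_zero, max_eq_right (norm_nonneg _)])
  intro t ht
  have h3 := sub_eq_zero.1 (key t ht)
  exact ⟨congrArg Prod.fst h3, congrArg Prod.snd h3⟩

end Pool.Agent.H86.Nco
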