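import Pool.Agent.H86.Nco.SDev

/-!
# Module SFAM: the family of developments of the rays

`γ (y, t) = Par i (y₀ + t (y - y₀))`, `y₀ = Cor i q₀` (so `γ (y, 0) = q₀` by `Par_Cor`).
`exists_transport` (`P = E K`) gives `F¹`; `ξ (y, t) j = gm G γ (∂_t γ) (F¹ j)` is smooth (`contDiff_gm`) and
`∂_t γ = ∑ ξ_j F¹_j` (`Adapted.expand`).  `exists_dev` with `P = E K × ℝ` and the coefficients
`scal r (ξ (y, t))` gives `c, F`.  At `r = 1`: `dev_unique` (for `t ∈ [0, 1]`; for other `t` use it after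
rescaling time, or state `ray` only where needed; all `t` is true by the same argument on any
interval: rescale `t ↦ λ t`).
-/

open scoped Manifold ContDiff Bundle Topology

noncomputable section

namespace Pool.Agent.H86.Nco

open Pool.Agent.H86.Anco

variable {K : ℕ} {G : Met K} {a : Form2 K}

/-- derivative in the direction of `t` -/
theorem sfam_line {P : Type*} [NormedAddCommGroup P] [NormedSpace ℝ P] {H : Type*}
    [NormedAddCommGroup H] [NormedSpace ℝ H] {g : P × ℝ → H} {p : P} {t : ℝ}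
    (hg : DifferentiableAt ℝ g (p, t)) :
    HasDerivAt (fun τ => g (p, τ)) (fderiv ℝ g (p, t) ((0 : P), (1 : ℝ))) t := by
  have h1 : HasDerivAt (fun τ : ℝ => (p, τ)) ((0 : P), (1 : ℝ)) t :=
    (hasDerivAt_const t p).prodMk (hasDerivAt_id t)
  exact hg.hasFDerivAt.comp_hasDerivAt t h1

/-- uniqueness of developments for all times -/
theorem sfam_unique (N : Conn G) {m : ℕ} {ζ : ℝ → Fin m → ℝ} (hζ : Continuous ζ)
    {c c' : ℝ → V K} {F F' : ℝ → Fin m → V K}
    (h1 : ∀ t, HasDerivAt c (∑ j, ζ t j • F t j) t ∧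
      ∀ j, HasDerivAt (fun τ => F τ j) (N.Γ (c t) (∑ k, ζ t k • F t k) (F t j)) t)
    (h2 : ∀ t, HasDerivAt c' (∑ j, ζ t j • F' t j) t ∧
      ∀ j, HasDerivAt (fun τ => F' τ j) (N.Γ (c' t) (∑ k, ζ t k • F' t k) (F' t j)) t)
    (hc : c 0 = c' 0) (hF : F 0 = F' 0) (l : ℝ) : c l = c' l := by
  have key : ∀ {c : ℝ → V K} {F : ℝ → Fin m → V K}, (∀ t, HasDerivAt c (∑ j, ζ t j • F t j) t ∧
      ∀ j, HasDerivAt (fun τ => F τ j) (N.Γ (c t) (∑ k, ζ t k • F t k) (F t j)) t) →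
      ∀ s, HasDerivAt (fun s => c (l * s)) (∑ j, (l * ζ (l * s) j) • F (l * s) j) s ∧
        ∀ j, HasDerivAt (fun s => F (l * s) j)
          (N.Γ (c (l * s)) (∑ k, (l * ζ (l * s) k) • F (l * s) k) (F (l * s) j)) s := by
    intro c F h s
    have e1 : ∑ k, (l * ζ (l * s) k) • F (l * s) k = l • ∑ k, ζ (l * s) k • F (l * s) k := by
      rw [Finset.smul_sum]
      exact Finset.sum_congr rfl fun k _ => mul_smul _ _ _
    have e2 : HasDerivAt (fun s : ℝ => l * s) l s := by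
      simpa using (hasDerivAt_id s).const_mul l
    refine ⟨?_, fun j => ?_⟩
    · rw [e1]
      exact HasDerivAt.scomp s (h (l * s)).1 e2
    · rw [e1, map_smul]
      exact HasDerivAt.scomp s ((h (l * s)).2 j) e2
  have hζ' : Continuous fun s => fun j => l * ζ (l * s) j :=
    continuous_pi fun j => continuous_const.mul (((continuous_apply j).comp hζ).comp (by fun_prop))
  have h := dev_unique N (ζ := fun s j => l * ζ (l * s) j) hζ' (c := fun s => c (l * s))
    (c' := fun s => c' (l * s)) (F := fun s => F (l * s)) (F' := fun s => F' (l * s))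
    (fun t _ => key h1 t) (fun t _ => key h2 t) (by simpa using hc) (by simpa using hF) 1
    ⟨zero_le_one, le_refl 1⟩
  simpa using h.1

theorem exists_fam (N : Conn G) (S : JStr G a) (i : Ix) {q₀ : V K} (hq₀ : q₀ ∈ carrier K)
    (hi : q₀ ∈ Dom K i) {f : Fin (K + 4) → V K} (hf : Adapted G S.J q₀ f) :
    ∃ ξ c F, Fam N S i q₀ f ξ c F := by
  obtain ⟨γ, hγ⟩ : ∃ γ : E K × ℝ → V K,
      γ = fun q => Par i (Cor i q₀ + q.2 • (q.1 - Cor i q₀)) := ⟨_, rfl⟩
  have hγs : ContDiff ℝ ∞ γ := by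
    rw [hγ]
    exact (contDiff_Par i).comp
      (contDiff_const.add (contDiff_snd.smul (contDiff_fst.sub contDiff_const)))
  have hγm : ∀ q, γ q ∈ carrier K := by
    intro q
    rw [hγ]
    exact Par_mem i _
  have hγ0 : ∀ y, γ (y, 0) = q₀ := by
    intro y
    simp only [hγ, zero_smul, add_zero]
    exact Par_Cor i hq₀ hi
  obtain ⟨F₁, hF₁, hF₁0, hF₁a, hF₁d⟩ := exists_transport N S (P := E K) γ hγs hγm hγ0 hf
  have hTan : ∀ q, fderiv ℝ γ q ((0 : E K), (1 : ℝ)) ∈ Tan (γ q) := fun q =>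
    tan_of_map (hγs.differentiable (by simp) q) (Filter.Eventually.of_forall hγm) _
  obtain ⟨ξ, hξ⟩ : ∃ ξ : E K × ℝ → Fin (K + 4) → ℝ, ξ = fun q j =>
    gm G (γ q) (fderiv ℝ γ q ((0 : E K), (1 : ℝ))) (F₁ q j) := ⟨_, rfl⟩
  have hξs : ContDiff ℝ ∞ ξ := by
    rw [hξ]
    refine contDiff_pi.2 fun j => ?_
    exact contDiff_gm hγs ((hγs.fderiv_right (m := ∞) (by simp)).clm_apply contDiff_const)
      ((contDiff_apply ℝ (V K) j).comp hF₁) hγm hTan (fun q => (hF₁a q).mem j)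
  have hexp : ∀ q, ∑ j, ξ q j • F₁ q j = fderiv ℝ γ q ((0 : E K), (1 : ℝ)) := by
    intro q
    rw [hξ]
    exact ((hF₁a q).expand (hγm q) (hTan q)).symm
  have hζ : ContDiff ℝ ∞ (fun q : (E K × ℝ) × ℝ => scal q.1.2 (ξ (q.1.1, q.2))) := by
    have h1 : ContDiff ℝ ∞ fun q : (E K × ℝ) × ℝ => ξ (q.1.1, q.2) :=
      hξs.comp ((contDiff_fst.comp contDiff_fst).prodMk contDiff_snd)
    have h2 : ContDiff ℝ ∞ fun q : (E K × ℝ) × ℝ => q.1.2 := contDiff_snd.comp contDiff_fst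
    refine contDiff_pi.2 fun j => ?_
    have h3 : ContDiff ℝ ∞ fun q : (E K × ℝ) × ℝ => ξ (q.1.1, q.2) j :=
      (contDiff_apply ℝ ℝ j).comp h1
    by_cases hj : j.val < 2
    · simp only [scal, if_pos hj]
      exact h3
    · simp only [scal, if_neg hj]
      exact h2.mul h3
  obtain ⟨c, F, hdev, hm⟩ := exists_dev N S (P := E K × ℝ)
    (fun q : (E K × ℝ) × ℝ => scal q.1.2 (ξ (q.1.1, q.2))) hζ hq₀ hf
  refine ⟨ξ, c, F, ⟨hξs, hdev, fun q => (hm q).1, fun q => (hm q).2, fun y t => ?_⟩⟩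
  have hscal : ∀ v : Fin (K + 4) → ℝ, scal 1 v = v := by
    intro v
    funext j
    simp [scal]
  have hu := sfam_unique N (ζ := fun t => ξ (y, t)) (hξs.continuous.comp (by fun_prop))
    (c := fun t => c ((y, 1), t)) (c' := fun t => γ (y, t)) (F := fun t => F ((y, 1), t))
    (F' := fun t => F₁ (y, t)) (fun t => ⟨?_, fun j => ?_⟩) (fun t => ⟨?_, fun j => ?_⟩) ?_ ?_ t
  · rw [hγ] at hu
    exact hu
  · have h1 := hdev.dc (y, 1) t
    simp only [hscal] at h1
    exact h1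
  · have h1 := hdev.dF (y, 1) t j
    simp only [hscal] at h1
    exact h1
  · rw [hexp]
    exact sfam_line (hγs.differentiable (by simp) (y, t))
  · rw [hexp]
    have h1 := hF₁d y t j
    rw [(sfam_line (hγs.differentiable (by simp) (y, t))).deriv] at h1
    exact h1
  · rw [hγ0, hdev.c0]
  · rw [hF₁0, hdev.F0]

end Pool.Agent.H86.Nco
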