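import Mathlib

/-!
# Module SPIN1, part A: equivariant orthonormalisation in a real inner product space

`onf f` is an orthonormal frame, depending smoothly on the linearly independent frame
`f : Fin (n + 2) → E`; it commutes with isometries of `E` and with rotations of the first two vectors:
Gram-Schmidt for the vectors number `2, 3, …`, projection of the first two vectors onto the orthogonal
complement, and there the (explicit) polar decomposition in dimension two.
-/

open scoped ContDiff Topology

noncomputable section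

namespace Pool.Agent.H86.Nco

open InnerProductSpace Finset

section GS

variable {E : Type*} [NormedAddCommGroup E] [InnerProductSpace ℝ E] {n : ℕ}

theorem gs_formula (f : Fin n → E) (j : Fin n) :
    gramSchmidt ℝ f j = f j - ∑ i ∈ Iio j,
      (inner ℝ (gramSchmidt ℝ f i) (f j) /
        inner ℝ (gramSchmidt ℝ f i) (gramSchmidt ℝ f i)) • gramSchmidt ℝ f i := by
  have h := gramSchmidt_def'' ℝ f j
  rw [eq_sub_iff_add_eq]
  conv_rhs => rw [h]
  congr 1
  refine sum_congr rfl fun i _ => ?_
  rw [real_inner_self_eq_norm_sq]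
  rfl

theorem gs_contDiffAt (f₀ : Fin n → E) (h0 : LinearIndependent ℝ f₀) (j : Fin n) :
    ContDiffAt ℝ ∞ (fun f : Fin n → E => gramSchmidt ℝ f j) f₀ := by
  induction j using WellFoundedLT.induction with
  | ind j ih =>
    have h1 : (fun f : Fin n → E => gramSchmidt ℝ f j) = fun f => f j - ∑ i ∈ Iio j,
      (inner ℝ (gramSchmidt ℝ f i) (f j) /
        inner ℝ (gramSchmidt ℝ f i) (gramSchmidt ℝ f i)) • gramSchmidt ℝ f i := by
      funext f
      exact gs_formula f j
    rw [h1]
    have hj : ContDiffAt ℝ ∞ (fun f : Fin n → E => f j) f₀ := (contDiff_apply ℝ E j).contDiffAt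
    refine hj.sub ?_
    refine ContDiffAt.sum fun i hi => ?_
    have hi' := ih i (mem_Iio.1 hi)
    refine ContDiffAt.smul ?_ hi'
    refine ContDiffAt.div (hi'.inner ℝ hj) (hi'.inner ℝ hi') ?_
    rw [real_inner_self_eq_norm_sq]
    exact pow_ne_zero 2 (norm_ne_zero_iff.2 (gramSchmidt_ne_zero i h0))

/-- normalised vectors -/
theorem gsn_contDiffAt (f₀ : Fin n → E) (h0 : LinearIndependent ℝ f₀) (j : Fin n) :
    ContDiffAt ℝ ∞ (fun f : Fin n → E => gramSchmidtNormed ℝ f j) f₀ := by
  have h1 := gs_contDiffAt f₀ h0 j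
  have hne : gramSchmidt ℝ f₀ j ≠ 0 := gramSchmidt_ne_zero j h0
  have h2 : (fun f : Fin n → E => gramSchmidtNormed ℝ f j) = fun f =>
      (‖gramSchmidt ℝ f j‖)⁻¹ • gramSchmidt ℝ f j := by
    funext f
    rfl
  rw [h2]
  exact ((h1.norm ℝ hne).inv (norm_ne_zero_iff.2 hne)).smul h1

theorem gs_map (U : E →ₗ[ℝ] E) (hU : ∀ v w, inner ℝ (U v) (U w) = inner ℝ v w)
    (f : Fin n → E) (j : Fin n) :
    gramSchmidt ℝ (fun i => U (f i)) j = U (gramSchmidt ℝ f j) := by
  induction j using WellFoundedLT.induction with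
  | ind j ih =>
    rw [gs_formula, gs_formula f j, map_sub, map_sum]
    congr 1
    refine sum_congr rfl fun i hi => ?_
    rw [ih i (mem_Iio.1 hi), map_smul, hU, hU]

theorem gsn_map (U : E →ₗ[ℝ] E) (hU : ∀ v w, inner ℝ (U v) (U w) = inner ℝ v w)
    (f : Fin n → E) (j : Fin n) :
    gramSchmidtNormed ℝ (fun i => U (f i)) j = U (gramSchmidtNormed ℝ f j) := by
  have hn : ∀ v, ‖U v‖ = ‖v‖ := by
    intro v
    have h1 := hU v v
    rw [real_inner_self_eq_norm_sq, real_inner_self_eq_norm_sq] at h1
    exact (pow_left_inj₀ (norm_nonneg _) (norm_nonneg _) two_ne_zero).1 h1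
  show (‖gramSchmidt ℝ (fun i => U (f i)) j‖)⁻¹ • gramSchmidt ℝ (fun i => U (f i)) j =
    U ((‖gramSchmidt ℝ f j‖)⁻¹ • gramSchmidt ℝ f j)
  rw [gs_map U hU, hn, map_smul]

/-- the vectors number `2, 3, …`, orthonormalised -/
def onE (f : Fin (n + 2) → E) (j : Fin n) : E :=
  gramSchmidtNormed ℝ (fun i : Fin n => f i.succ.succ) j

/-- projection onto the orthogonal complement -/
def onP (f : Fin (n + 2) → E) (v : E) : E := v - ∑ j, (inner ℝ (onE f j) v : ℝ) • onE f j

def onA (f : Fin (n + 2) → E) : ℝ := inner ℝ (onP f (f 0)) (onP f (f 0))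
def onB (f : Fin (n + 2) → E) : ℝ := inner ℝ (onP f (f 0)) (onP f (f 1))
def onC (f : Fin (n + 2) → E) : ℝ := inner ℝ (onP f (f 1)) (onP f (f 1))
def onS (f : Fin (n + 2) → E) : ℝ := √(onA f * onC f - onB f ^ 2)
def onT (f : Fin (n + 2) → E) : ℝ := √(onA f + onC f + 2 * onS f)

def onU0 (f : Fin (n + 2) → E) : E :=
  (onS f * onT f)⁻¹ • ((onC f + onS f) • onP f (f 0) - onB f • onP f (f 1))
def onU1 (f : Fin (n + 2) → E) : E :=
  (onS f * onT f)⁻¹ • ((onA f + onS f) • onP f (f 1) - onB f • onP f (f 0))

/-- the orthonormal frame -/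
def onf (f : Fin (n + 2) → E) : Fin (n + 2) → E := Fin.cons (onU0 f) (Fin.cons (onU1 f) (onE f))

theorem onf_zero (f : Fin (n + 2) → E) : onf f 0 = onU0 f := rfl
theorem onf_one (f : Fin (n + 2) → E) : onf f 1 = onU1 f := rfl
theorem onf_succ (f : Fin (n + 2) → E) (j : Fin n) : onf f j.succ.succ = onE f j := rfl

/-! ### equivariance under isometries -/

section Map

variable (U : E →ₗ[ℝ] E) (hU : ∀ v w, inner ℝ (U v) (U w) = inner ℝ v w)
include hU

theorem onE_map (f : Fin (n + 2) → E) (j : Fin n) : onE (fun i => U (f i)) j = U (onE f j) :=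
  gsn_map U hU (fun i : Fin n => f i.succ.succ) j

theorem onP_map (f : Fin (n + 2) → E) (v : E) :
    onP (fun i => U (f i)) (U v) = U (onP f v) := by
  unfold onP
  rw [map_sub, map_sum]
  congr 1
  refine sum_congr rfl fun j _ => ?_
  rw [onE_map U hU, hU, map_smul]

theorem onA_map (f : Fin (n + 2) → E) : onA (fun i => U (f i)) = onA f := by
  unfold onA
  rw [onP_map U hU, hU]

theorem onB_map (f : Fin (n + 2) → E) : onB (fun i => U (f i)) = onB f := by
  unfold onB
  rw [onP_map U hU, onP_map U hU, hU]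

theorem onC_map (f : Fin (n + 2) → E) : onC (fun i => U (f i)) = onC f := by
  unfold onC
  rw [onP_map U hU, hU]

theorem onS_map (f : Fin (n + 2) → E) : onS (fun i => U (f i)) = onS f := by
  unfold onS
  rw [onA_map U hU, onB_map U hU, onC_map U hU]

theorem onT_map (f : Fin (n + 2) → E) : onT (fun i => U (f i)) = onT f := by
  unfold onT
  rw [onA_map U hU, onC_map U hU, onS_map U hU]

theorem onf_map (f : Fin (n + 2) → E) (j : Fin (n + 2)) :
    onf (fun i => U (f i)) j = U (onf f j) := by
  induction j using Fin.cases with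
  | zero =>
    show onU0 _ = U (onU0 f)
    unfold onU0
    rw [onP_map U hU, onP_map U hU, onB_map U hU, onC_map U hU, onS_map U hU, onT_map U hU,
      map_smul, map_sub, map_smul, map_smul]
  | succ j =>
    induction j using Fin.cases with
    | zero =>
      show onU1 _ = U (onU1 f)
      unfold onU1
      rw [onP_map U hU, onP_map U hU, onB_map U hU, onA_map U hU, onS_map U hU, onT_map U hU,
        map_smul, map_sub, map_smul, map_smul]
    | succ j => exact onE_map U hU f j

end Map

/-! ### rotations of the first two vectors -/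

/-- rotation of the first two vectors -/
def rot2 (c s : ℝ) (f : Fin (n + 2) → E) : Fin (n + 2) → E :=
  Fin.cons (c • f 0 + s • f 1) (Fin.cons (-s • f 0 + c • f 1) (fun j => f j.succ.succ))

section Rot

variable (c s : ℝ) (hcs : c ^ 2 + s ^ 2 = 1)

theorem onE_rot (f : Fin (n + 2) → E) (j : Fin n) : onE (rot2 c s f) j = onE f j := rfl

theorem onP_rot (f : Fin (n + 2) → E) (v : E) : onP (rot2 c s f) v = onP f v := rfl

theorem onP_add (f : Fin (n + 2) → E) (a b : ℝ) (v w : E) :
    onP f (a • v + b • w) = a • onP f v + b • onP f w := by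
  unfold onP
  have h : ∀ j, (inner ℝ (onE f j) (a • v + b • w) : ℝ) • onE f j =
      a • ((inner ℝ (onE f j) v : ℝ) • onE f j) + b • ((inner ℝ (onE f j) w : ℝ) • onE f j) := by
    intro j
    rw [inner_add_right, inner_smul_right, inner_smul_right, add_smul, mul_smul, mul_smul]
  rw [sum_congr rfl fun j _ => h j, sum_add_distrib, ← smul_sum, ← smul_sum]
  module

theorem onP_rot0 (f : Fin (n + 2) → E) :
    onP (rot2 c s f) (rot2 c s f 0) = c • onP f (f 0) + s • onP f (f 1) := onP_add f c s _ _

theorem onP_rot1 (f : Fin (n + 2) → E) :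
    onP (rot2 c s f) (rot2 c s f 1) = -s • onP f (f 0) + c • onP f (f 1) := onP_add f (-s) c _ _

theorem onA_rot (f : Fin (n + 2) → E) :
    onA (rot2 c s f) = c ^ 2 * onA f + 2 * (c * s) * onB f + s ^ 2 * onC f := by
  unfold onA onB onC
  rw [onP_rot0]
  simp only [inner_add_left, inner_add_right, real_inner_smul_left, real_inner_smul_right]
  rw [real_inner_comm (onP f (f 0)) (onP f (f 1))]
  ring

theorem onC_rot (f : Fin (n + 2) → E) :
    onC (rot2 c s f) = s ^ 2 * onA f - 2 * (c * s) * onB f + c ^ 2 * onC f := by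
  unfold onA onB onC
  rw [onP_rot1]
  simp only [inner_add_left, inner_add_right, real_inner_smul_left, real_inner_smul_right]
  rw [real_inner_comm (onP f (f 0)) (onP f (f 1))]
  ring

theorem onB_rot (f : Fin (n + 2) → E) :
    onB (rot2 c s f) = -(c * s) * onA f + (c ^ 2 - s ^ 2) * onB f + c * s * onC f := by
  unfold onA onB onC
  rw [onP_rot0, onP_rot1]
  simp only [inner_add_left, inner_add_right, real_inner_smul_left, real_inner_smul_right]
  rw [real_inner_comm (onP f (f 0)) (onP f (f 1))]
  ring

include hcs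

theorem onS_rot (f : Fin (n + 2) → E) : onS (rot2 c s f) = onS f := by
  unfold onS
  congr 1
  rw [onA_rot, onB_rot, onC_rot]
  have h1 : (c ^ 2 * onA f + 2 * (c * s) * onB f + s ^ 2 * onC f) *
      (s ^ 2 * onA f - 2 * (c * s) * onB f + c ^ 2 * onC f) -
      (-(c * s) * onA f + (c ^ 2 - s ^ 2) * onB f + c * s * onC f) ^ 2 =
      (c ^ 2 + s ^ 2) ^ 2 * (onA f * onC f - onB f ^ 2) := by ring
  rw [h1, hcs]
  ring

theorem onT_rot (f : Fin (n + 2) → E) : onT (rot2 c s f) = onT f := by
  unfold onT
  rw [onS_rot c s hcs, onA_rot, onC_rot]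
  congr 1
  linear_combination (onA f + onC f) * hcs

theorem onf_rot (f : Fin (n + 2) → E) : onf (rot2 c s f) = rot2 c s (onf f) := by
  funext j
  induction j using Fin.cases with
  | zero =>
    show onU0 (rot2 c s f) = c • onU0 f + s • onU1 f
    unfold onU0 onU1
    rw [onS_rot c s hcs, onT_rot c s hcs, onP_rot0, onP_rot1, onB_rot, onC_rot]
    have e1 : (s ^ 2 * onA f - 2 * (c * s) * onB f + c ^ 2 * onC f + onS f) * c +
        (-(c * s) * onA f + (c ^ 2 - s ^ 2) * onB f + c * s * onC f) * s =
        c * (onC f + onS f) - s * onB f := by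
      linear_combination (c * onC f - s * onB f) * hcs
    have e2 : (s ^ 2 * onA f - 2 * (c * s) * onB f + c ^ 2 * onC f + onS f) * s -
        (-(c * s) * onA f + (c ^ 2 - s ^ 2) * onB f + c * s * onC f) * c =
        s * (onA f + onS f) - c * onB f := by
      linear_combination (s * onA f - c * onB f) * hcs
    rw [smul_comm c, smul_comm s, ← smul_add]
    congr 1
    calc _ = ((s ^ 2 * onA f - 2 * (c * s) * onB f + c ^ 2 * onC f + onS f) * c +
        (-(c * s) * onA f + (c ^ 2 - s ^ 2) * onB f + c * s * onC f) * s) • onP f (f 0) +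
        ((s ^ 2 * onA f - 2 * (c * s) * onB f + c ^ 2 * onC f + onS f) * s -
        (-(c * s) * onA f + (c ^ 2 - s ^ 2) * onB f + c * s * onC f) * c) • onP f (f 1) := by
          module
      _ = _ := by
          rw [e1, e2]
          module
  | succ j =>
    induction j using Fin.cases with
    | zero =>
      show onU1 (rot2 c s f) = -s • onU0 f + c • onU1 f
      unfold onU0 onU1
      rw [onS_rot c s hcs, onT_rot c s hcs, onP_rot0, onP_rot1, onB_rot, onA_rot]
      have e1 : (c ^ 2 * onA f + 2 * (c * s) * onB f + s ^ 2 * onC f + onS f) * (-s) -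
          (-(c * s) * onA f + (c ^ 2 - s ^ 2) * onB f + c * s * onC f) * c =
          -s * (onC f + onS f) - c * onB f := by
        linear_combination (-(s * onC f) - c * onB f) * hcs
      have e2 : (c ^ 2 * onA f + 2 * (c * s) * onB f + s ^ 2 * onC f + onS f) * c -
          (-(c * s) * onA f + (c ^ 2 - s ^ 2) * onB f + c * s * onC f) * s =
          c * (onA f + onS f) + s * onB f := by
        linear_combination (c * onA f + s * onB f) * hcs
      rw [smul_comm (-s), smul_comm c (onS f * onT f)⁻¹, ← smul_add]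
      congr 1
      calc _ = ((c ^ 2 * onA f + 2 * (c * s) * onB f + s ^ 2 * onC f + onS f) * (-s) -
          (-(c * s) * onA f + (c ^ 2 - s ^ 2) * onB f + c * s * onC f) * c) • onP f (f 0) +
          ((c ^ 2 * onA f + 2 * (c * s) * onB f + s ^ 2 * onC f + onS f) * c -
          (-(c * s) * onA f + (c ^ 2 - s ^ 2) * onB f + c * s * onC f) * s) • onP f (f 1) := by
            module
        _ = _ := by
            rw [e1, e2]
            module
    | succ j => rfl

end Rot

/-! ### orthonormality and smoothness -/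

section Ind

variable (f : Fin (n + 2) → E) (hf : LinearIndependent ℝ f)
include hf

theorem on_ind : LinearIndependent ℝ (fun i : Fin n => f i.succ.succ) :=
  hf.comp (fun i : Fin n => i.succ.succ) (fun i j h => by simpa using h)

theorem onE_on : Orthonormal ℝ (onE f) := gramSchmidtNormed_orthonormal (on_ind f hf)

theorem onE_P (v : E) (i : Fin n) : inner ℝ (onE f i) (onP f v) = 0 := by
  unfold onP
  rw [inner_sub_right, inner_sum]
  have h := (onE_on f hf)
  rw [orthonormal_iff_ite] at h
  have h2 : ∀ j ∈ (univ : Finset (Fin n)),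
      inner ℝ (onE f i) ((inner ℝ (onE f j) v : ℝ) • onE f j) =
      if i = j then inner ℝ (onE f j) v else 0 := by
    intro j _
    rw [inner_smul_right, h i j]
    split_ifs <;> simp
  rw [sum_congr rfl h2, sum_ite_eq]
  simp

theorem on_span (a b : ℝ) (h : a • onP f (f 0) + b • onP f (f 1) = 0) : a = 0 ∧ b = 0 := by
  have hs : a • f 0 + b • f 1 ∈ Submodule.span ℝ (Set.range (fun i : Fin n => f i.succ.succ)) := by
    rw [← onP_add] at h
    unfold onP at h
    rw [sub_eq_zero] at h
    rw [h, ← span_gramSchmidt ℝ (fun i : Fin n => f i.succ.succ),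
      ← span_gramSchmidtNormed_range]
    refine Submodule.sum_mem _ fun j _ => Submodule.smul_mem _ _ (Submodule.subset_span ?_)
    exact ⟨j, rfl⟩
  rw [Submodule.mem_span_range_iff_exists_fun] at hs
  obtain ⟨c, hc⟩ := hs
  rw [Fintype.linearIndependent_iff] at hf
  have h1 := hf (Fin.cons a (Fin.cons b (fun j => - c j))) (by
    rw [Fin.sum_univ_succ, Fin.sum_univ_succ]
    simp only [Fin.cons_zero, Fin.cons_succ, neg_smul, sum_neg_distrib]
    rw [hc]
    have e1 : f (Fin.succ 0) = f 1 := rfl
    rw [e1]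
    abel)
  exact ⟨h1 0, h1 1⟩

theorem onA_pos : 0 < onA f := by
  rcases (real_inner_self_nonneg (x := onP f (f 0))).lt_or_eq with h | h
  · exact h
  · exfalso
    have h1 : onP f (f 0) = 0 := inner_self_eq_zero.1 h.symm
    have h2 := on_span f hf 1 0 (by rw [h1]; simp)
    exact one_ne_zero h2.1

omit hf in
theorem onC_nonneg : 0 ≤ onC f := real_inner_self_nonneg

omit hf in
theorem onA_eq : inner ℝ (onP f (f 0)) (onP f (f 0)) = onA f := rfl

omit hf in
theorem onB_eq : inner ℝ (onP f (f 0)) (onP f (f 1)) = onB f := rfl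

omit hf in
theorem onC_eq : inner ℝ (onP f (f 1)) (onP f (f 1)) = onC f := rfl

theorem onD_pos : 0 < onA f * onC f - onB f ^ 2 := by
  have hA := onA_pos f hf
  set w := onA f • onP f (f 1) - onB f • onP f (f 0) with hw
  have h1 : inner ℝ w w = onA f * (onA f * onC f - onB f ^ 2) := by
    rw [hw]
    simp only [inner_sub_left, inner_sub_right, real_inner_smul_left, real_inner_smul_right]
    rw [real_inner_comm (onP f (f 0)) (onP f (f 1)), onA_eq, onB_eq, onC_eq]
    ring
  have h2 : 0 ≤ inner ℝ w w := real_inner_self_nonneg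
  rcases h2.lt_or_eq with h | h
  · rw [h1] at h
    exact (mul_pos_iff_of_pos_left hA).1 h
  · exfalso
    have h3 : w = 0 := inner_self_eq_zero.1 h.symm
    have h4 := on_span f hf (-onB f) (onA f) (by
      rw [← h3, hw]
      module)
    exact hA.ne' h4.2

theorem onS_pos : 0 < onS f := Real.sqrt_pos.2 (onD_pos f hf)

theorem onS_sq : onS f ^ 2 = onA f * onC f - onB f ^ 2 := Real.sq_sqrt (onD_pos f hf).le

theorem onT_arg_pos : 0 < onA f + onC f + 2 * onS f := by
  have h1 := onA_pos f hf
  have h2 := onC_nonneg f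
  have h3 := onS_pos f hf
  linarith

theorem onT_pos : 0 < onT f := Real.sqrt_pos.2 (onT_arg_pos f hf)

theorem onT_sq : onT f ^ 2 = onA f + onC f + 2 * onS f := Real.sq_sqrt (onT_arg_pos f hf).le

theorem onU00 : inner ℝ (onU0 f) (onU0 f) = (1 : ℝ) := by
  unfold onU0
  have hS := onS_pos f hf
  have hT := onT_pos f hf
  have hS2 := onS_sq f hf
  have hT2 := onT_sq f hf
  simp only [inner_sub_left, inner_sub_right, real_inner_smul_left, real_inner_smul_right]
  rw [real_inner_comm (onP f (f 0)) (onP f (f 1)), onA_eq, onB_eq, onC_eq]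
  field_simp
  rw [hT2]
  linear_combination (-(onC f) - 2 * onS f) * hS2

theorem onU11 : inner ℝ (onU1 f) (onU1 f) = (1 : ℝ) := by
  unfold onU1
  have hS := onS_pos f hf
  have hT := onT_pos f hf
  have hS2 := onS_sq f hf
  have hT2 := onT_sq f hf
  simp only [inner_sub_left, inner_sub_right, real_inner_smul_left, real_inner_smul_right]
  rw [real_inner_comm (onP f (f 0)) (onP f (f 1)), onA_eq, onB_eq, onC_eq]
  field_simp
  rw [hT2]
  linear_combination (-(onA f) - 2 * onS f) * hS2

theorem onU01 : inner ℝ (onU0 f) (onU1 f) = (0 : ℝ) := by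
  unfold onU0 onU1
  have hS2 := onS_sq f hf
  simp only [inner_sub_left, inner_sub_right, real_inner_smul_left, real_inner_smul_right]
  rw [real_inner_comm (onP f (f 0)) (onP f (f 1)), onA_eq, onB_eq, onC_eq]
  linear_combination (onS f * onT f)⁻¹ ^ 2 * onB f * hS2

theorem onE_U0 (i : Fin n) : inner ℝ (onE f i) (onU0 f) = (0 : ℝ) := by
  unfold onU0
  rw [inner_smul_right, inner_sub_right, inner_smul_right, inner_smul_right, onE_P f hf,
    onE_P f hf]
  simp

theorem onE_U1 (i : Fin n) : inner ℝ (onE f i) (onU1 f) = (0 : ℝ) := by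
  unfold onU1
  rw [inner_smul_right, inner_sub_right, inner_smul_right, inner_smul_right, onE_P f hf,
    onE_P f hf]
  simp

theorem onf_orthonormal (i j : Fin (n + 2)) :
    inner ℝ (onf f i) (onf f j) = if i = j then (1 : ℝ) else 0 := by
  have hE := onE_on f hf
  rw [orthonormal_iff_ite] at hE
  induction i using Fin.cases with
  | zero =>
    induction j using Fin.cases with
    | zero => rw [if_pos rfl]; exact onU00 f hf
    | succ j =>
      rw [if_neg (Fin.succ_ne_zero j).symm]
      induction j using Fin.cases with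
      | zero => exact onU01 f hf
      | succ j =>
        rw [real_inner_comm]
        exact onE_U0 f hf j
  | succ i =>
    induction i using Fin.cases with
    | zero =>
      induction j using Fin.cases with
      | zero =>
        rw [if_neg (Fin.succ_ne_zero _), real_inner_comm]
        exact onU01 f hf
      | succ j =>
        induction j using Fin.cases with
        | zero => rw [if_pos rfl]; exact onU11 f hf
        | succ j =>
          rw [if_neg (fun h => Fin.succ_ne_zero j (Fin.succ_injective _ h).symm), real_inner_comm]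
          exact onE_U1 f hf j
    | succ i =>
      induction j using Fin.cases with
      | zero =>
        rw [if_neg (Fin.succ_ne_zero _)]
        exact onE_U0 f hf i
      | succ j =>
        induction j using Fin.cases with
        | zero =>
          rw [if_neg (fun h => Fin.succ_ne_zero i (Fin.succ_injective _ h))]
          exact onE_U1 f hf i
        | succ j =>
          have h1 : (i.succ.succ = j.succ.succ) = (i = j) := by simp
          simp only [h1]
          exact hE i j

theorem onE_contDiffAt (j : Fin n) : ContDiffAt ℝ ∞ (fun g : Fin (n + 2) → E => onE g j) f := by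
  have h1 : ContDiffAt ℝ ∞ (fun (g : Fin (n + 2) → E) (i : Fin n) => g i.succ.succ) f := by
    rw [contDiffAt_pi]
    intro i
    exact (contDiff_apply ℝ E i.succ.succ).contDiffAt
  exact (gsn_contDiffAt _ (on_ind f hf) j).comp f h1

theorem onP_contDiffAt (v : (Fin (n + 2) → E) → E) (hv : ContDiffAt ℝ ∞ v f) :
    ContDiffAt ℝ ∞ (fun g : Fin (n + 2) → E => onP g (v g)) f := by
  unfold onP
  refine hv.sub (ContDiffAt.sum fun j _ => ?_)
  exact ((onE_contDiffAt f hf j).inner ℝ hv).smul (onE_contDiffAt f hf j)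

theorem onP0_contDiffAt : ContDiffAt ℝ ∞ (fun g : Fin (n + 2) → E => onP g (g 0)) f :=
  onP_contDiffAt f hf _ (contDiff_apply ℝ E 0).contDiffAt

theorem onP1_contDiffAt : ContDiffAt ℝ ∞ (fun g : Fin (n + 2) → E => onP g (g 1)) f :=
  onP_contDiffAt f hf _ (contDiff_apply ℝ E 1).contDiffAt

theorem onA_contDiffAt : ContDiffAt ℝ ∞ (onA : (Fin (n + 2) → E) → ℝ) f :=
  (onP0_contDiffAt f hf).inner ℝ (onP0_contDiffAt f hf)

theorem onB_contDiffAt : ContDiffAt ℝ ∞ (onB : (Fin (n + 2) → E) → ℝ) f :=
  (onP0_contDiffAt f hf).inner ℝ (onP1_contDiffAt f hf)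

theorem onC_contDiffAt : ContDiffAt ℝ ∞ (onC : (Fin (n + 2) → E) → ℝ) f :=
  (onP1_contDiffAt f hf).inner ℝ (onP1_contDiffAt f hf)

theorem onS_contDiffAt : ContDiffAt ℝ ∞ (onS : (Fin (n + 2) → E) → ℝ) f := by
  unfold onS
  exact (((onA_contDiffAt f hf).mul (onC_contDiffAt f hf)).sub
    ((onB_contDiffAt f hf).pow 2)).sqrt (onD_pos f hf).ne'

theorem onT_contDiffAt : ContDiffAt ℝ ∞ (onT : (Fin (n + 2) → E) → ℝ) f := by
  unfold onT
  exact (((onA_contDiffAt f hf).add (onC_contDiffAt f hf)).add
    (contDiffAt_const.mul (onS_contDiffAt f hf))).sqrt (onT_arg_pos f hf).ne'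

theorem onI_contDiffAt :
    ContDiffAt ℝ ∞ (fun g : Fin (n + 2) → E => (onS g * onT g)⁻¹) f :=
  ((onS_contDiffAt f hf).mul (onT_contDiffAt f hf)).inv
    (mul_pos (onS_pos f hf) (onT_pos f hf)).ne'

theorem onf_contDiffAt : ContDiffAt ℝ ∞ (onf : (Fin (n + 2) → E) → Fin (n + 2) → E) f := by
  rw [contDiffAt_pi]
  intro j
  induction j using Fin.cases with
  | zero =>
    show ContDiffAt ℝ ∞ (fun g : Fin (n + 2) → E => onU0 g) f
    unfold onU0
    exact (onI_contDiffAt f hf).smul
      ((((onC_contDiffAt f hf).add (onS_contDiffAt f hf)).smul (onP0_contDiffAt f hf)).sub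
        ((onB_contDiffAt f hf).smul (onP1_contDiffAt f hf)))
  | succ j =>
    induction j using Fin.cases with
    | zero =>
      show ContDiffAt ℝ ∞ (fun g : Fin (n + 2) → E => onU1 g) f
      unfold onU1
      exact (onI_contDiffAt f hf).smul
        ((((onA_contDiffAt f hf).add (onS_contDiffAt f hf)).smul (onP1_contDiffAt f hf)).sub
          ((onB_contDiffAt f hf).smul (onP0_contDiffAt f hf)))
    | succ j => exact onE_contDiffAt f hf j

end Ind

end GS

end Pool.Agent.H86.Nco
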