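import Pool.Agent.H86.Nco.SpinDefs
import Pool.Agent.H86.Nco.Spin1A

/-!
# Module SPIN1: step (1) of the proof in the header of `SpinDefs.lean`

Instead of the linear ODE: Gram-Schmidt for the vectors number `2, 3, …` and the explicit polar
decomposition in dimension two for the first two vectors, see `Spin1A.lean`.
-/

open scoped Manifold ContDiff Bundle Topology

noncomputable section

namespace Pool.Agent.H86.Nco

/-- `XX K` with the Euclidean norm -/
abbrev EX (K : ℕ) : Type :=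
  WithLp 2 (ℂ × WithLp 2 (ℂ × WithLp 2 (ℂ × EuclideanSpace ℝ (Fin (K + 1)))))

/-- the identification -/
def lx0 (K : ℕ) : XX K ≃ₗ[ℝ] EX K where
  toFun p := WithLp.toLp 2 (p.1, WithLp.toLp 2 (p.2.1, WithLp.toLp 2 (p.2.2.1,
    WithLp.toLp 2 p.2.2.2)))
  invFun q := (q.fst, q.snd.fst, q.snd.snd.fst, q.snd.snd.snd.ofLp)
  map_add' _ _ := rfl
  map_smul' _ _ := rfl
  left_inv _ := rfl
  right_inv _ := rfl

def lx (K : ℕ) : XX K ≃L[ℝ] EX K := (lx0 K).toContinuousLinearEquiv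

theorem lx_inner {K : ℕ} (p q : XX K) : inner ℝ (lx K p) (lx K q) = ipx p q := by
  show inner ℝ (lx0 K p) (lx0 K q) = ipx p q
  simp only [lx0, LinearEquiv.coe_mk, LinearMap.coe_mk, AddHom.coe_mk, WithLp.prod_inner_apply,
    Complex.inner, PiLp.inner_apply, ipx]
  simp [mul_comm]
  ring

/-- `act φ` as a linear map -/
def actL {K : ℕ} (φ : ℝ) : XX K →ₗ[ℝ] XX K where
  toFun p := act φ p
  map_add' p q := by
    simp only [act, Prod.fst_add, Prod.snd_add, mul_add, Prod.mk_add_mk]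
  map_smul' a p := by
    simp only [act, Prod.smul_fst, Prod.smul_snd, mul_smul_comm, Prod.smul_mk, RingHom.id_apply]

theorem conj_exp_mul (φ : ℝ) (z w : ℂ) :
    (starRingEnd ℂ) (Complex.exp (φ * Complex.I) * z) * (Complex.exp (φ * Complex.I) * w) =
      (starRingEnd ℂ) z * w := by
  have h1 : (starRingEnd ℂ) (Complex.exp (φ * Complex.I)) * Complex.exp (φ * Complex.I) = 1 := by
    rw [← Complex.exp_conj, ← Complex.exp_add]
    simp
  calc _ = ((starRingEnd ℂ) (Complex.exp (φ * Complex.I)) * Complex.exp (φ * Complex.I)) *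
      ((starRingEnd ℂ) z * w) := by rw [map_mul]; ring
    _ = _ := by rw [h1, one_mul]

theorem conj_exp_neg_mul (φ : ℝ) (z w : ℂ) :
    (starRingEnd ℂ) (Complex.exp (-(φ * Complex.I)) * z) *
      (Complex.exp (-(φ * Complex.I)) * w) = (starRingEnd ℂ) z * w := by
  have h := conj_exp_mul (-φ) z w
  have h1 : ((-φ : ℝ) : ℂ) * Complex.I = -((φ : ℂ) * Complex.I) := by
    push_cast
    ring
  rwa [h1] at h

theorem ipx_act {K : ℕ} (φ : ℝ) (p q : XX K) : ipx (act φ p) (act φ q) = ipx p q := by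
  unfold ipx act
  simp only
  rw [conj_exp_mul, conj_exp_mul, conj_exp_neg_mul]

/-- `act φ` on `EX K` -/
def actE {K : ℕ} (φ : ℝ) : EX K →ₗ[ℝ] EX K :=
  ((lx K).toLinearEquiv.toLinearMap.comp (actL φ)).comp (lx K).symm.toLinearEquiv.toLinearMap

theorem actE_lx {K : ℕ} (φ : ℝ) (p : XX K) : actE φ (lx K p) = lx K (act φ p) := by
  show lx K (act φ ((lx K).symm (lx K p))) = _
  rw [ContinuousLinearEquiv.symm_apply_apply]

theorem lx_symm_actE {K : ℕ} (φ : ℝ) (v : EX K) :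
    (lx K).symm (actE φ v) = act φ ((lx K).symm v) := by
  show (lx K).symm (lx K (act φ ((lx K).symm v))) = _
  rw [ContinuousLinearEquiv.symm_apply_apply]

theorem actE_inner {K : ℕ} (φ : ℝ) (v w : EX K) :
    inner ℝ (actE φ v) (actE φ w) = (inner ℝ v w : ℝ) := by
  obtain ⟨p, rfl⟩ := (lx K).surjective v
  obtain ⟨q, rfl⟩ := (lx K).surjective w
  rw [actE_lx, actE_lx, lx_inner, lx_inner, ipx_act]

/-- the orthonormalised frame -/
def onX {K : ℕ} (T : Fin (K + 7) → XX K) (i : Fin (K + 7)) : XX K :=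
  (lx K).symm (onf (n := K + 5) (fun i => lx K (T i)) i)

theorem lx_ind {K : ℕ} {T : Fin (K + 7) → XX K} (h : LinearIndependent ℝ T) :
    LinearIndependent ℝ (fun i => lx K (T i)) :=
  h.map' (lx K).toLinearEquiv.toLinearMap (LinearEquiv.ker _)

theorem onX_ipx {K : ℕ} {T : Fin (K + 7) → XX K} (h : LinearIndependent ℝ T)
    (i j : Fin (K + 7)) : ipx (onX T i) (onX T j) = if i = j then 1 else 0 := by
  rw [← lx_inner]
  unfold onX
  rw [ContinuousLinearEquiv.apply_symm_apply, ContinuousLinearEquiv.apply_symm_apply]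
  exact onf_orthonormal (n := K + 5) _ (lx_ind h) i j

theorem onX_ind {K : ℕ} {T : Fin (K + 7) → XX K} (h : LinearIndependent ℝ T) :
    LinearIndependent ℝ (onX T) := by
  have h1 : Orthonormal ℝ (onf (n := K + 5) (fun i => lx K (T i))) := by
    rw [orthonormal_iff_ite]
    exact onf_orthonormal (n := K + 5) _ (lx_ind h)
  exact h1.linearIndependent.map' (lx K).symm.toLinearEquiv.toLinearMap (LinearEquiv.ker _)

theorem onX_smooth {K : ℕ} {T : ℝ × ℝ → Fin (K + 7) → XX K} (hT : ContDiff ℝ ∞ T)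
    (h : ∀ x, LinearIndependent ℝ (T x)) : ContDiff ℝ ∞ (fun x => onX (T x)) := by
  rw [contDiff_iff_contDiffAt]
  intro x
  rw [contDiffAt_pi]
  intro i
  have h1 : ContDiffAt ℝ ∞ (fun x (j : Fin (K + 5 + 2)) => lx K (T x j)) x := by
    rw [contDiffAt_pi]
    intro j
    exact ((lx K).contDiff.comp (contDiff_pi.1 hT j)).contDiffAt
  have h2 := onf_contDiffAt (n := K + 5) (fun j => lx K (T x j)) (lx_ind (h x))
  have h3 := h2.comp x h1
  rw [contDiffAt_pi] at h3
  exact (lx K).symm.contDiff.contDiffAt.comp x (h3 i)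

theorem onX_side {K : ℕ} (T T₀ : Fin (K + 7) → XX K) (φ ϑ : ℝ)
    (h0 : T 0 = act φ (Real.cos ϑ • T₀ 0 + Real.sin ϑ • T₀ 1))
    (h1 : T 1 = act φ (-Real.sin ϑ • T₀ 0 + Real.cos ϑ • T₀ 1))
    (h2 : ∀ j : Fin (K + 5), T j.succ.succ = act φ (T₀ j.succ.succ)) (i : Fin (K + 7)) :
    onX T i = act φ ((lx K).symm (rot2 (n := K + 5) (Real.cos ϑ) (Real.sin ϑ)
      (onf (n := K + 5) (fun i => lx K (T₀ i))) i)) := by
  have e : (fun i : Fin (K + 5 + 2) => lx K (T i)) = fun i => actE φ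
      (rot2 (n := K + 5) (Real.cos ϑ) (Real.sin ϑ) (fun i => lx K (T₀ i)) i) := by
    funext i
    induction i using Fin.cases with
    | zero =>
      show lx K (T 0) = actE φ (Real.cos ϑ • lx K (T₀ 0) + Real.sin ϑ • lx K (T₀ 1))
      rw [h0, ← map_smul, ← map_smul, ← map_add, actE_lx]
    | succ i =>
      induction i using Fin.cases with
      | zero =>
        show lx K (T 1) = actE φ (-Real.sin ϑ • lx K (T₀ 0) + Real.cos ϑ • lx K (T₀ 1))
        rw [h1, ← map_smul, ← map_smul, ← map_add, actE_lx]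
      | succ i =>
        show lx K (T i.succ.succ) = actE φ (lx K (T₀ i.succ.succ))
        rw [h2, actE_lx]
  unfold onX
  rw [e, onf_map (actE φ) (actE_inner φ), lx_symm_actE,
    onf_rot _ _ (Real.cos_sq_add_sin_sq ϑ)]

/-- SPIN1 -/
theorem exists_orthonormal {K : ℕ} {T : ℝ × ℝ → Fin (K + 7) → XX K} {T₀ : Fin (K + 7) → XX K}
    {φ ϑ : ℝ → ℝ} (h : FrameBd T T₀ φ ϑ) :
    ∃ (B : ℝ × ℝ → Fin (K + 7) → XX K) (B₀ : Fin (K + 7) → XX K), FrameBd B B₀ φ ϑ ∧
      ∀ x i j, ipx (B x i) (B x j) = if i = j then 1 else 0 := by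
  refine ⟨fun x => onX (T x), onX T₀, ?_, fun x i j => onX_ipx (h.indep x) i j⟩
  refine ⟨onX_smooth h.smooth h.indep, fun x => onX_ind (h.indep x), fun x hx => ?_,
    fun t => ?_, fun t => ?_, fun t j => ?_⟩
  · show onX (T x) = onX T₀
    rw [h.out x hx]
  · rw [onX_side (T (1, t)) T₀ (φ t) (ϑ t) (h.side0 t) (h.side1 t) (h.side2 t) 0]
    congr 1
  · rw [onX_side (T (1, t)) T₀ (φ t) (ϑ t) (h.side0 t) (h.side1 t) (h.side2 t) 1]
    congr 1
  · rw [onX_side (T (1, t)) T₀ (φ t) (ϑ t) (h.side0 t) (h.side1 t) (h.side2 t) j.succ.succ]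
    rfl

end Pool.Agent.H86.Nco
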