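import Mathlib

/-!
# Module SPIN2, part a: algebra of the spin representation

For a family `γ` with `γ i * γ j + γ j * γ i = 2 δ_ij` in a real algebra, `ρ X = 1/4 Σ X_sr γ_s γ_r`.
-/

set_option linter.unusedSectionVars false

open Matrix

noncomputable section

namespace Pool.Agent.H86.Nco.Sp2

variable {ι : Type} [Fintype ι] [DecidableEq ι] {A : Type} [Ring A] [Algebra ℝ A]

/-- Clifford relations -/
def Clif (γ : ι → A) : Prop := ∀ i j, γ i * γ j + γ j * γ i = if i = j then 2 else 0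

/-- image of a vector -/
def cv (γ : ι → A) (v : ι → ℝ) : A := ∑ s, v s • γ s

/-- image of a matrix -/
def rho (γ : ι → A) (X : Matrix ι ι ℝ) : A := (1 / 4 : ℝ) • ∑ s, ∑ r, X s r • (γ s * γ r)

theorem cv_add (γ : ι → A) (v w : ι → ℝ) : cv γ (v + w) = cv γ v + cv γ w := by
  unfold cv; rw [← Finset.sum_add_distrib]
  exact Finset.sum_congr rfl fun s _ => by rw [Pi.add_apply, add_smul]

theorem cv_smul (γ : ι → A) (a : ℝ) (v : ι → ℝ) : cv γ (a • v) = a • cv γ v := by
  unfold cv; rw [Finset.smul_sum]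
  exact Finset.sum_congr rfl fun s _ => by rw [Pi.smul_apply, smul_eq_mul, mul_smul]

theorem cv_sum (γ : ι → A) {κ : Type} (t : Finset κ) (v : κ → ι → ℝ) :
    cv γ (∑ j ∈ t, v j) = ∑ j ∈ t, cv γ (v j) := by
  unfold cv; rw [Finset.sum_comm]
  refine Finset.sum_congr rfl fun s _ => ?_
  rw [Finset.sum_apply, Finset.sum_smul]

theorem rho_add (γ : ι → A) (X Y : Matrix ι ι ℝ) : rho γ (X + Y) = rho γ X + rho γ Y := by
  unfold rho
  rw [← smul_add, ← Finset.sum_add_distrib]
  congr 1
  refine Finset.sum_congr rfl fun s _ => ?_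
  rw [← Finset.sum_add_distrib]
  exact Finset.sum_congr rfl fun r _ => by rw [Matrix.add_apply, add_smul]

theorem rho_smul (γ : ι → A) (a : ℝ) (X : Matrix ι ι ℝ) : rho γ (a • X) = a • rho γ X := by
  unfold rho
  rw [smul_comm a, Finset.smul_sum (r := a)]
  congr 1
  refine Finset.sum_congr rfl fun s _ => ?_
  rw [Finset.smul_sum]
  exact Finset.sum_congr rfl fun r _ => by rw [Matrix.smul_apply, smul_eq_mul, mul_smul]

theorem rho_neg (γ : ι → A) (X : Matrix ι ι ℝ) : rho γ (-X) = - rho γ X := by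
  have := rho_smul γ (-1) X
  simpa using this

theorem rho_sub (γ : ι → A) (X Y : Matrix ι ι ℝ) : rho γ (X - Y) = rho γ X - rho γ Y := by
  rw [sub_eq_add_neg, rho_add, rho_neg, sub_eq_add_neg]

theorem rho_single (γ : ι → A) (i j : ι) (a : ℝ) :
    rho γ (Matrix.single i j a) = (1 / 4 * a) • (γ i * γ j) := by
  unfold rho
  rw [mul_smul]
  congr 1
  rw [Finset.sum_eq_single i]
  · rw [Finset.sum_eq_single j]
    · rw [Matrix.single_apply_same]
    · intro b _ hb
      rw [Matrix.single_apply, if_neg (fun h => hb h.2.symm), zero_smul]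
    · intro h; exact absurd (Finset.mem_univ _) h
  · intro b _ hb
    refine Finset.sum_eq_zero fun r _ => ?_
    rw [Matrix.single_apply, if_neg (fun h => hb h.1.symm), zero_smul]
  · intro h; exact absurd (Finset.mem_univ _) h

/-- `1/4 Σ_j c(x_j) c(y_j) = ρ (x yᵀ)` -/
theorem sum_cv_mul (γ : ι → A) {κ : Type} [Fintype κ] (x y : Matrix ι κ ℝ) :
    (1 / 4 : ℝ) • ∑ j, cv γ (fun s => x s j) * cv γ (fun s => y s j) = rho γ (x * yᵀ) := by
  unfold rho cv
  congr 1
  have h1 : ∀ j, (∑ s, x s j • γ s) * (∑ s, y s j • γ s)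
      = ∑ s, ∑ r, (x s j * y r j) • (γ s * γ r) := by
    intro j
    rw [Finset.sum_mul]
    refine Finset.sum_congr rfl fun s _ => ?_
    rw [Finset.mul_sum]
    refine Finset.sum_congr rfl fun r _ => ?_
    rw [smul_mul_smul_comm]
  simp only [h1]
  rw [Finset.sum_comm]
  refine Finset.sum_congr rfl fun s _ => ?_
  rw [Finset.sum_comm]
  refine Finset.sum_congr rfl fun r _ => ?_
  rw [Matrix.mul_apply, Finset.sum_smul]
  rfl

variable {γ : ι → A}

theorem Clif.sq (h : Clif γ) (i : ι) : γ i * γ i = 1 := by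
  have h1 := h i i
  rw [if_pos rfl, ← two_smul ℝ] at h1
  have h2 : (2 : ℝ) • (γ i * γ i) = (2 : ℝ) • (1 : A) := by
    rw [h1, two_smul, one_add_one_eq_two]
  exact smul_right_injective A (two_ne_zero' ℝ) h2

theorem Clif.anti (h : Clif γ) {i j : ι} (hij : i ≠ j) : γ i * γ j = - (γ j * γ i) := by
  have h1 := h i j
  rw [if_neg hij] at h1
  exact eq_neg_of_add_eq_zero_left h1

/-- `c(v) c(w) + c(w) c(v) = 2 v·w` -/
theorem Clif.cv_cv (h : Clif γ) (v w : ι → ℝ) :
    cv γ v * cv γ w + cv γ w * cv γ v = (2 * ∑ s, v s * w s : ℝ) • (1 : A) := by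
  have h1 : ∀ v w : ι → ℝ, cv γ v * cv γ w = ∑ s, ∑ r, (v s * w r) • (γ s * γ r) := by
    intro v w
    unfold cv
    rw [Finset.sum_mul]
    refine Finset.sum_congr rfl fun s _ => ?_
    rw [Finset.mul_sum]
    refine Finset.sum_congr rfl fun r _ => ?_
    rw [smul_mul_smul_comm]
  rw [h1, h1]
  rw [Finset.sum_comm (f := fun s r => (w s * v r) • (γ s * γ r)), ← Finset.sum_add_distrib]
  have h2 : ∀ s, (∑ r, (v s * w r) • (γ s * γ r) + ∑ r, (w r * v s) • (γ r * γ s))
      = (2 * (v s * w s)) • (1 : A) := by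
    intro s
    rw [← Finset.sum_add_distrib, Finset.sum_eq_single s]
    · rw [h.sq, mul_comm (w s), ← add_smul, two_mul]
    · intro r _ hr
      rw [mul_comm (w r), ← smul_add, h s r, if_neg (Ne.symm hr), smul_zero]
    · intro h; exact absurd (Finset.mem_univ _) h
  simp only [h2]
  rw [← Finset.sum_smul, ← Finset.mul_sum]

theorem Clif.rho_comm (h : Clif γ) {X : Matrix ι ι ℝ} (hX : Xᵀ = -X) (k : ι) :
    rho γ X * γ k - γ k * rho γ X = ∑ s, X s k • γ s := by
  have h0 : ∀ s r, X s r = - X r s := fun s r => by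
    have := congrFun (congrFun hX r) s
    simpa using this
  have h1 : ∀ s r, γ s * γ r * γ k - γ k * (γ s * γ r)
      = (if r = k then (2 : ℝ) else 0) • γ s - (if s = k then (2 : ℝ) else 0) • γ r := by
    intro s r
    have e1 : γ r * γ k = (if r = k then (2 : ℝ) else 0) • (1 : A) - γ k * γ r := by
      have := h r k
      rw [eq_sub_iff_add_eq, this]
      split_ifs
      · rw [two_smul, one_add_one_eq_two]
      · rw [zero_smul]
    have e2 : γ s * γ k = (if s = k then (2 : ℝ) else 0) • (1 : A) - γ k * γ s := by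
      have := h s k
      rw [eq_sub_iff_add_eq, this]
      split_ifs
      · rw [two_smul, one_add_one_eq_two]
      · rw [zero_smul]
    have e3 : γ s * γ r * γ k = γ s * (γ r * γ k) := mul_assoc _ _ _
    rw [e3, e1, mul_sub, ← mul_assoc (γ s) (γ k), e2, sub_mul, mul_smul_comm, mul_one,
      smul_mul_assoc, one_mul, mul_assoc (γ k)]
    abel
  unfold rho
  rw [smul_mul_assoc, mul_smul_comm, ← smul_sub, Finset.sum_mul, Finset.mul_sum,
    ← Finset.sum_sub_distrib]
  have h2 : ∀ s, ((∑ r, X s r • (γ s * γ r)) * γ k - γ k * ∑ r, X s r • (γ s * γ r))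
      = (2 * X s k) • γ s - ∑ r, (X s r * (if s = k then (2 : ℝ) else 0)) • γ r := by
    intro s
    rw [Finset.sum_mul, Finset.mul_sum, ← Finset.sum_sub_distrib]
    have h3 : ∀ r, X s r • (γ s * γ r) * γ k - γ k * X s r • (γ s * γ r)
        = (X s r * (if r = k then (2 : ℝ) else 0)) • γ s
          - (X s r * (if s = k then (2 : ℝ) else 0)) • γ r := by
      intro r
      rw [smul_mul_assoc, mul_smul_comm, ← smul_sub, h1, smul_sub, smul_smul, smul_smul]
    simp only [h3]
    rw [Finset.sum_sub_distrib]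
    congr 1
    rw [Finset.sum_eq_single k]
    · rw [if_pos rfl, mul_comm]
    · intro r _ hr
      rw [if_neg hr, mul_zero, zero_smul]
    · intro h; exact absurd (Finset.mem_univ _) h
  simp only [h2]
  rw [Finset.sum_sub_distrib]
  have h4 : ∑ s, ∑ r, (X s r * (if s = k then (2 : ℝ) else 0)) • γ r
      = ∑ r, (2 * X k r) • γ r := by
    rw [Finset.sum_eq_single k]
    · refine Finset.sum_congr rfl fun r _ => ?_
      rw [if_pos rfl, mul_comm]
    · intro s _ hs
      refine Finset.sum_eq_zero fun r _ => ?_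
      rw [if_neg hs, mul_zero, zero_smul]
    · intro h; exact absurd (Finset.mem_univ _) h
  rw [h4, ← Finset.sum_sub_distrib, Finset.smul_sum]
  refine Finset.sum_congr rfl fun s _ => ?_
  rw [← sub_smul, smul_smul, h0 k s]
  congr 1
  ring

theorem Clif.rho_cv (h : Clif γ) {X : Matrix ι ι ℝ} (hX : Xᵀ = -X) (v : ι → ℝ) :
    rho γ X * cv γ v - cv γ v * rho γ X = cv γ (X.mulVec v) := by
  unfold cv
  rw [Finset.mul_sum, Finset.sum_mul, ← Finset.sum_sub_distrib]
  have h1 : ∀ k, rho γ X * v k • γ k - v k • γ k * rho γ X = ∑ s, (X s k * v k) • γ s := by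
    intro k
    rw [mul_smul_comm, smul_mul_assoc, ← smul_sub, h.rho_comm hX, Finset.smul_sum]
    exact Finset.sum_congr rfl fun s _ => by rw [smul_smul, mul_comm]
  simp only [h1]
  rw [Finset.sum_comm]
  refine Finset.sum_congr rfl fun s _ => ?_
  rw [← Finset.sum_smul]
  rfl

theorem Clif.rho_lie (h : Clif γ) {X : Matrix ι ι ℝ} (hX : Xᵀ = -X) (Y : Matrix ι ι ℝ) :
    rho γ X * rho γ Y - rho γ Y * rho γ X = rho γ (X * Y - Y * X) := by
  have h1 : ∀ k l, rho γ X * (γ k * γ l) - (γ k * γ l) * rho γ X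
      = ∑ s, (X s k • (γ s * γ l) + X s l • (γ k * γ s)) := by
    intro k l
    have e : rho γ X * (γ k * γ l) - (γ k * γ l) * rho γ X
        = (rho γ X * γ k - γ k * rho γ X) * γ l + γ k * (rho γ X * γ l - γ l * rho γ X) := by
      noncomm_ring
    rw [e, h.rho_comm hX, h.rho_comm hX, Finset.sum_mul, Finset.mul_sum, ← Finset.sum_add_distrib]
    exact Finset.sum_congr rfl fun s _ => by rw [smul_mul_assoc, mul_smul_comm]
  have h2 : rho γ X * rho γ Y - rho γ Y * rho γ X
      = (1 / 4 : ℝ) • ∑ k, ∑ l, Y k l • (rho γ X * (γ k * γ l) - (γ k * γ l) * rho γ X) := by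
    conv_lhs => rw [show rho γ Y = (1 / 4 : ℝ) • ∑ k, ∑ l, Y k l • (γ k * γ l) from rfl]
    rw [mul_smul_comm, smul_mul_assoc, ← smul_sub, Finset.mul_sum, Finset.sum_mul,
      ← Finset.sum_sub_distrib]
    congr 1
    refine Finset.sum_congr rfl fun k _ => ?_
    rw [Finset.mul_sum, Finset.sum_mul, ← Finset.sum_sub_distrib]
    refine Finset.sum_congr rfl fun l _ => ?_
    rw [mul_smul_comm, smul_mul_assoc, ← smul_sub]
  rw [h2]
  simp only [h1]
  unfold rho
  congr 1
  have h3 : ∀ s r, (X * Y - Y * X) s r • (γ s * γ r)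
      = ∑ k, (X s k * Y k r) • (γ s * γ r) + ∑ k, (Y s k * X r k) • (γ s * γ r) := by
    intro s r
    rw [← Finset.sum_smul, ← Finset.sum_smul, ← add_smul, Matrix.sub_apply, Matrix.mul_apply,
      Matrix.mul_apply, ← Finset.sum_sub_distrib, ← Finset.sum_add_distrib]
    congr 1
    refine Finset.sum_congr rfl fun k _ => ?_
    have : X k r = - X r k := by
      have := congrFun (congrFun hX r) k
      simpa using this
    rw [this]; ring
  simp only [h3]
  simp only [Finset.smul_sum, smul_add, Finset.sum_add_distrib, smul_smul]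
  congr 1
  · -- Σ k l s, Y k l X s k γ s γ l
    rw [Finset.sum_comm]
    rw [Finset.sum_comm (f := fun s r => ∑ k, (X s k * Y k r) • (γ s * γ r))]
    refine Finset.sum_congr rfl fun l _ => ?_
    rw [Finset.sum_comm]
    refine Finset.sum_congr rfl fun s _ => ?_
    refine Finset.sum_congr rfl fun k _ => ?_
    rw [mul_comm]
  · refine Finset.sum_congr rfl fun k _ => ?_
    rw [Finset.sum_comm]

end Pool.Agent.H86.Nco.Sp2
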