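import Mathlib

/-!
# Module SPIN: parity of loops of frames

`XX K = ℂ × ℂ × ℂ × ℝ^(K+1)` (a real vector space of dimension `K + 7`) with its standard inner
product; `act φ` is the rotation `diag (e^{iφ}, e^{iφ}, e^{-iφ}, 1)`.  A family of bases `T x` of
`XX K`, parametrised by the square, which is constant on three sides of the square and equal to
`act (φ t) ∘ T₀ ∘ (rotation by ϑ t of the first two basis vectors)` on the fourth side.  Claim: the
total number of half turns `3 d + e` is even (`π₁ (SO(N)) = ℤ/2`).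

Proof.

(1) *Orthonormalisation.*  Write `N = K + 7`, identify `XX K` with `ℝ^N` by an orthonormal basis, so
that `T x` becomes an invertible matrix (columns = basis vectors), `act φ` becomes `exp (φ 𝒥)` with
a skew matrix `𝒥`, and the hypothesis on the fourth side reads
`T (1, t) = exp (φ t 𝒥) T₀ exp (ϑ t J')`, where `J'` is the elementary skew matrix
(`J' e₀ = e₁`, `J' e₁ = - e₀`, all others `0`; check `T exp (ϑ J') e₀ = cos ϑ T e₀ + sin ϑ T e₁`).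
Let `S = (T Tᵀ)⁻¹` (positive definite), `S_λ = (1 - λ) S + λ 1`, and solve the linear equation
`∂_λ Y = - 1/2 S_λ⁻¹ (∂_λ S_λ) Y`, `Y (x, 0) = T x` for `λ ∈ [0, 1]` (`lode_smooth` with parameter
`x ∈ ℝ²`; outside `[0, 1]` change `S_λ` by a smooth reparametrisation `λ ↦ smoothTransition λ` so that
it stays invertible).  `Yᵀ S_λ Y` is constant in `λ` and equals `1` at `λ = 0`.  So `B x = Y (x, 1)`
is orthogonal.  The equation and `S` are equivariant: `T ↦ exp (φ 𝒥) T exp (ϑ J')` gives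
`S ↦ exp (φ 𝒥) S exp (- φ 𝒥)` and `Y ↦ exp (φ 𝒥) Y exp (ϑ J')`.  So `B` satisfies the same
hypotheses as `T`, with `B₀` in place of `T₀`.

(2) *Spin connection.*  `a_k = Bᵀ ∂_k B` is a skew matrix and `∂₁ a₂ - ∂₂ a₁ + [a₁, a₂] = 0`.  With
`γ` from `exists_gamma N` put `ρ (X) = 1/4 ∑ᵢⱼ Xᵢⱼ γᵢ γⱼ` for skew `X`, with values in the algebra
`𝔸 = H →L H` (`H = (Fin N → Bool) → ℝ`).  One has `[ρ X, γ_k] = ± ∑ⱼ X_{jk} γⱼ` and
`ρ [X, Y] = [ρ X, ρ Y]` up to the sign convention (choose the sign/ordering in the definition of `ρ`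
such that `ρ` is a homomorphism of Lie algebras; check on elementary matrices).  Let
`Ψ : ℝ² → 𝔸` solve `∂₁ Ψ = Ψ ρ (a₁)`, `Ψ (0, t) = 1` (`lode_smooth`).  Then `Φ = ∂₂ Ψ - Ψ ρ (a₂)`
satisfies `∂₁ Φ = Φ ρ (a₁)` (flatness) and `Φ (0, t) = 0` (as `a₂ (0, t) = 0`), so `Φ = 0`.
Hence `g (t) = Ψ (1, t)` satisfies `g' = g ρ (a₂ (1, t))`, `g 0 = g 1 = 1` (for `t ≤ 0` and `t ≥ 1` the
matrix `B` is constant along the horizontal line, so `a₁ = 0` and `Ψ = 1`).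
On the fourth side `a₂ (1, t) = φ' exp (- ϑ J') C exp (ϑ J') + ϑ' J'` with `C = B₀ᵀ 𝒥 B₀`.  The
function `Θ (t) = exp (φ t ρ C) exp (ϑ t ρ J')` satisfies the same equation
(`Θ' = Θ (φ' exp (- ϑ ρ J') (ρ C) exp (ϑ ρ J') + ϑ' ρ J')` and
`exp (- ρ X) (ρ Y) exp (ρ X) = ρ (exp (- X) Y exp X)`; to avoid matrix exponentials: both sides of the
last identity, as functions of the real parameter in front of `X`, satisfy the same linear equation).
So `exp (2 π d ρ C) exp (2 π e ρ J') = 1`.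

(3) `ρ J' = ± 1/2 γ₀ γ₁` and `(γ₀ γ₁)² = -1`, so `exp (2 π e ρ J') = cos (π e) ± γ₀ γ₁ sin (π e)
= (-1)^e`.  Similarly `ρ C = ± 1/2 (b₀ b₁ + b₂ b₃ - b₄ b₅)` with `b_k = ∑ᵢ (B₀)_{k i} γᵢ` (the rows
of the orthogonal matrix `B₀`), which are anticommuting involutions, and `b₀ b₁`, `b₂ b₃`, `b₄ b₅`
commute and have square `-1`; so `exp (2 π d ρ C) = (-1)^{3 d}`.  Hence `(-1)^{3 d + e} = 1`.

Files: `Spin1.lean` = step (1), `Spin2.lean` = steps (2) and (3).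
-/

open scoped Manifold ContDiff Bundle Topology

noncomputable section

namespace Pool.Agent.H86.Nco

/-- `ℂ × ℂ × ℂ × ℝ^(K+1)` -/
abbrev XX (K : ℕ) : Type := ℂ × ℂ × ℂ × (Fin (K + 1) → ℝ)

/-- the rotation `diag (e^{iφ}, e^{iφ}, e^{-iφ}, 1)` -/
def act {K : ℕ} (φ : ℝ) (p : XX K) : XX K :=
  (Complex.exp (φ * Complex.I) * p.1, Complex.exp (φ * Complex.I) * p.2.1,
    Complex.exp (-(φ * Complex.I)) * p.2.2.1, p.2.2.2)

/-- the standard inner product of `XX K` -/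
def ipx {K : ℕ} (p q : XX K) : ℝ :=
  ((starRingEnd ℂ) p.1 * q.1).re + ((starRingEnd ℂ) p.2.1 * q.2.1).re
    + ((starRingEnd ℂ) p.2.2.1 * q.2.2.1).re + ∑ j, p.2.2.2 j * q.2.2.2 j

/-- the boundary behaviour of the families of frames -/
structure FrameBd {K : ℕ} (T : ℝ × ℝ → Fin (K + 7) → XX K) (T₀ : Fin (K + 7) → XX K)
    (φ ϑ : ℝ → ℝ) : Prop where
  smooth : ContDiff ℝ ∞ T
  indep : ∀ x, LinearIndependent ℝ (T x)
  out : ∀ x, x.1 ≤ 0 ∨ x.2 ≤ 0 ∨ 1 ≤ x.2 → T x = T₀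
  side0 : ∀ t, T (1, t) 0 = act (φ t) (Real.cos (ϑ t) • T₀ 0 + Real.sin (ϑ t) • T₀ 1)
  side1 : ∀ t, T (1, t) 1 = act (φ t) (-Real.sin (ϑ t) • T₀ 0 + Real.cos (ϑ t) • T₀ 1)
  side2 : ∀ t (j : Fin (K + 5)), T (1, t) j.succ.succ = act (φ t) (T₀ j.succ.succ)

end Pool.Agent.H86.Nco
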